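import Pool.Agent.Lib.MP_fa0f6c_al.Cx.ADefs

set_option autoImplicit false

namespace Pool.Agent.Lib.MP_fa0f6c_al.Cx

/-- HINT: `1 + x` with `x` nilpotent; the inverse is `1 + x'` with `x' = -x + x^2 - ... ∈ I`. -/
theorem exists_unit {R : Type} [Ring R] {E : Subring R} {I : Submodule ℤ R} (h : IsNilIdeal E I)
    {x : R} (hx : x ∈ I) : ∃ u ∈ oneAddGroup E I h, (u : R) = 1 + x := by
  obtain ⟨n, hn⟩ := h.nil
  have hxn : x ^ n = 0 := by
    have h1 : x ^ n ∈ I ^ n := Submodule.pow_mem_pow I hx n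
    rw [hn] at h1
    simpa using h1
  have hxE : x ∈ E := h.le x hx
  have hneg : (-x) ^ n = 0 := by
    rw [neg_pow, hxn, mul_zero]
  set y : R := ∑ i ∈ Finset.range n, (-x) ^ i with hy
  have h1 : (1 + x) * y = 1 := by
    have := mul_neg_geom_sum (-x) n
    rw [hneg, sub_neg_eq_add, sub_zero] at this
    exact this
  have h2 : y * (1 + x) = 1 := by
    have := geom_sum_mul_neg (-x) n
    rw [hneg, sub_neg_eq_add, sub_zero] at this
    exact this
  have hyE : y ∈ E := E.sum_mem fun i _ => E.pow_mem (E.neg_mem hxE) i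
  refine ⟨⟨1 + x, y, h1, h2⟩, ⟨?_, ?_⟩, rfl⟩
  · show (1 + x) - 1 ∈ I
    rw [add_sub_cancel_left]
    exact hx
  · show y - 1 ∈ I
    have e : y - 1 = -(x * y) := by
      have : y + x * y = 1 := by
        rw [add_mul, one_mul] at h1
        exact h1
      rw [← this]; abel
    rw [e]
    exact I.neg_mem (h.mulR y hyE x hx)

theorem mem_oneAddGroup {R : Type} [Ring R] {E : Subring R} {I : Submodule ℤ R}
    (h : IsNilIdeal E I) (u : Rˣ) : u ∈ oneAddGroup E I h ↔ (u : R) - 1 ∈ I := by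
  constructor
  · intro hu
    exact hu.1
  · intro hu
    obtain ⟨v, hv, hvu⟩ := exists_unit h hu
    have : v = u := by
      ext
      rw [hvu]; abel
    rw [← this]
    exact hv

/-- HINT: in a finite ring the inverse of a unit is a power of it. -/
theorem mem_unitsOf {R : Type} [Ring R] [Finite R] (E : Subring R) (u : Rˣ) :
    u ∈ unitsOf E ↔ (u : R) ∈ E := by
  constructor
  · intro hu
    exact hu.1
  · intro hu
    refine ⟨hu, ?_⟩
    have h1 : u ^ Nat.card Rˣ = 1 := pow_card_eq_one'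
    have hpos : 0 < Nat.card Rˣ := Nat.card_pos
    have h2 : u⁻¹ = u ^ (Nat.card Rˣ - 1) := by
      apply inv_eq_of_mul_eq_one_left
      rw [← pow_succ, Nat.sub_add_cancel hpos, h1]
    rw [h2, Units.val_pow_eq_pow_val]
    exact E.pow_mem hu _

theorem oneAddGroup_le {R : Type} [Ring R] {E : Subring R} {I : Submodule ℤ R}
    (h : IsNilIdeal E I) : oneAddGroup E I h ≤ unitsOf E := by
  rintro u ⟨hu, hu'⟩
  exact ⟨by simpa using E.add_mem (h.le _ hu) E.one_mem,
    by simpa using E.add_mem (h.le _ hu') E.one_mem⟩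

theorem oneAddGroup_conj {R : Type} [Ring R] {E : Subring R} {I : Submodule ℤ R}
    (h : IsNilIdeal E I) (u : Rˣ) (hu : u ∈ unitsOf E) (n : Rˣ) (hn : n ∈ oneAddGroup E I h) :
    u * n * u⁻¹ ∈ oneAddGroup E I h := by
  rw [mem_oneAddGroup]
  have e : ((u * n * u⁻¹ : Rˣ) : R) - 1 = (u : R) * ((n : R) - 1) * ((u⁻¹ : Rˣ) : R) := by
    push_cast
    rw [mul_sub, sub_mul, mul_one, Units.mul_inv]
  rw [e]
  exact h.mulR _ hu.2 _ (h.mulL _ hu.1 _ hn.1)

theorem oneAddGroup_card {R : Type} [Ring R] [Finite R] {E : Subring R} {I : Submodule ℤ R}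
    (h : IsNilIdeal E I) : Nat.card (oneAddGroup E I h) = Nat.card I := by
  refine Nat.card_congr (Equiv.ofBijective
    (fun u : oneAddGroup E I h => (⟨((u : Rˣ) : R) - 1, u.2.1⟩ : I)) ⟨?_, ?_⟩)
  · intro u v huv
    have h1 : ((u : Rˣ) : R) - 1 = ((v : Rˣ) : R) - 1 := congrArg Subtype.val huv
    apply Subtype.ext
    ext
    exact sub_left_inj.1 h1
  · rintro ⟨x, hx⟩
    obtain ⟨u, hu, hux⟩ := exists_unit h hx
    refine ⟨⟨u, hu⟩, ?_⟩
    apply Subtype.ext
    show (u : R) - 1 = x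
    rw [hux, add_sub_cancel_left]

/-- a homomorphism on `1 + I` as a linear character -/
theorem isLin_of_isHom {R : Type} [Ring R] {E : Subring R} {I : Submodule ℤ R}
    (h : IsNilIdeal E I) {m : R → ℂ} (hm : IsHom I m) :
    IsLin (oneAddGroup E I h) (fun u => m ((u : R) - 1)) := by
  refine ⟨?_, ?_⟩
  · show m (((1 : Rˣ) : R) - 1) = 1
    rw [Units.val_one, sub_self]
    exact hm.zero
  · intro x hx y hy
    show m (((x * y : Rˣ) : R) - 1) = m ((x : R) - 1) * m ((y : R) - 1)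
    rw [← hm.mul _ hx.1 _ hy.1]
    congr 1
    push_cast
    noncomm_ring

/-- and conversely -/
theorem isHom_of_isLin {R : Type} [Ring R] {E : Subring R} {I : Submodule ℤ R}
    (h : IsNilIdeal E I) {m : R → ℂ}
    (hm : IsLin (oneAddGroup E I h) (fun u => m ((u : R) - 1))) : IsHom I m := by
  refine ⟨?_, ?_⟩
  · have h1 : m (((1 : Rˣ) : R) - 1) = 1 := hm.1
    rwa [Units.val_one, sub_self] at h1
  · intro x hx y hy
    obtain ⟨u, hu, hux⟩ := exists_unit h hx
    obtain ⟨v, hv, hvy⟩ := exists_unit h hy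
    have h1 : m (((u * v : Rˣ) : R) - 1) = m ((u : R) - 1) * m ((v : R) - 1) := hm.2 u hu v hv
    rw [Units.val_mul, hux, hvy, add_sub_cancel_left, add_sub_cancel_left] at h1
    rw [← h1]
    congr 1
    noncomm_ring

/-- A homomorphism on `1 + I` is invariant under conjugation by `1 + I`. -/
theorem hom_conj {R : Type} [Ring R] {E : Subring R} {I : Submodule ℤ R} (h : IsNilIdeal E I)
    {m : R → ℂ} (hm : IsHom I m) {w : Rˣ} (hw : (w : R) - 1 ∈ I) {x : R} (hx : x ∈ I) :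
    m (w * x) = m (x * w) := by
  have hwN : w ∈ oneAddGroup E I h := (mem_oneAddGroup h w).2 hw
  have hwE : (w : R) ∈ E := (oneAddGroup_le h hwN).1
  obtain ⟨v, hv, hvy⟩ := exists_unit h (h.mulR _ hwE _ hx)
  have hL := isLin_of_isHom h hm
  set μ : Rˣ → ℂ := fun u => m ((u : R) - 1) with hμ
  have h1 : μ (w * v * w⁻¹) = μ v := by
    rw [hL.2 (w * v) (mul_mem hwN hv) w⁻¹ (inv_mem hwN), hL.2 w hwN v hv]
    have h2 : μ w * μ w⁻¹ = 1 := by
      rw [← hL.2 w hwN w⁻¹ (inv_mem hwN), mul_inv_cancel]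
      exact hL.1
    calc μ w * μ v * μ w⁻¹ = μ v * (μ w * μ w⁻¹) := by ring
      _ = μ v := by rw [h2, mul_one]
  have e1 : ((w * v * w⁻¹ : Rˣ) : R) - 1 = w * x := by
    push_cast
    rw [hvy, mul_add, mul_one, add_mul, Units.mul_inv, add_sub_cancel_left]
    rw [mul_assoc, mul_assoc x, Units.mul_inv, mul_one]
  have e2 : ((v : Rˣ) : R) - 1 = x * w := by
    rw [hvy, add_sub_cancel_left]
  simp only [hμ] at h1
  rw [e1, e2] at h1
  exact h1

/-- (T) implies invariance under `Eˣ`. -/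
theorem sym_conj {R : Type} [Ring R] {E : Subring R} {I : Submodule ℤ R} (h : IsNilIdeal E I)
    {m : R → ℂ} (hs : IsSym E I m) {w : Rˣ} (hw : (w : R) ∈ E) (hw' : ((w⁻¹ : Rˣ) : R) ∈ E) {x : R}
    (hx : x ∈ I) : m (w * x * ((w⁻¹ : Rˣ) : R)) = m x := by
  have h1 := hs (w : R) hw (x * ((w⁻¹ : Rˣ) : R)) (h.mulR _ hw' _ hx)
  rw [mul_assoc, h1, mul_assoc, Units.inv_mul, mul_one]

end Pool.Agent.Lib.MP_fa0f6c_al.Cx
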