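import Pool.Agent.Lib.MP_fa0f6c_al.Cx.A01

set_option autoImplicit false

namespace Pool.Agent.Lib.MP_fa0f6c_al.Cx.Stage

variable {R : Type} [Ring R] [Finite R]

theorem N_le_H (s : Stage R) : s.N ≤ s.H :=
  oneAddGroup_le s.ideal

theorem isLin (s : Stage R) : IsLin s.N s.mu :=
  isLin_of_isHom s.ideal s.hom

theorem inv (s : Stage R) : Inv s.N s.H s.mu := by
  intro h hh y hy
  refine ⟨oneAddGroup_conj s.ideal h hh y hy, ?_⟩
  have e : ((h * y * h⁻¹ : Rˣ) : R) - 1 = (h : R) * ((y : R) - 1) * ((h⁻¹ : Rˣ) : R) := by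
    push_cast
    rw [mul_sub, sub_mul, mul_one, Units.mul_inv]
  show s.m (((h * y * h⁻¹ : Rˣ) : R) - 1) = s.m ((y : R) - 1)
  rw [e]
  exact sym_conj s.ideal s.sym hh.1 hh.2 hy.1

/-- HINT: this is `s.int`. -/
theorem noInt (s : Stage R) : NoInt s.N s.H s.mu := by
  intro g hg
  by_contra hcon
  push Not at hcon
  apply hg
  refine (mem_unitsOf s.E g).2 (s.int g ?_)
  intro x hx hx'
  obtain ⟨u, hu, hux⟩ := exists_unit s.ideal hx
  have e : ((g⁻¹ * u * g : Rˣ) : R) - 1 = ((g⁻¹ : Rˣ) : R) * x * (g : R) := by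
    push_cast
    rw [hux, mul_add, mul_one, add_mul, Units.inv_mul, add_sub_cancel_left]
  have h1 : g⁻¹ * u * g ∈ s.N := by
    refine (mem_oneAddGroup s.ideal _).2 ?_
    rw [e]
    exact hx'
  have h2 := hcon u hu h1
  have h3 : s.m ((u : R) - 1) = s.m (((g⁻¹ * u * g : Rˣ) : R) - 1) := h2
  rw [e, hux, add_sub_cancel_left] at h3
  exact h3

/-- Clifford correspondence for a stage. HINT: `clifford_bij`. -/
theorem bij (s : Stage R) :
    Set.BijOn (fun θ : s.H → ℂ => ind s.H θ)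
      (IrrOver (s.N.subgroupOf s.H) (fun h : s.H => s.mu h))
      {χ | χ ∈ Irr Rˣ ∧ s.Over χ} :=
  clifford_bij s.N s.H s.N_le_H s.mu s.isLin s.inv s.noInt

/-- Over a stage there is at least one irreducible character. HINT: `exists_over` for the
linear character of `N`. -/
theorem exists_over (s : Stage R) : ∃ χ ∈ Irr Rˣ, s.Over χ := by
  have hm := s.isLin
  let f : s.N →* ℂ :=
    { toFun := fun n => s.mu n
      map_one' := hm.1
      map_mul' := fun x y => hm.2 x x.2 y y.2 }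
  have h := lin_irr f.toHomUnits
  obtain ⟨χ, hχ, hne⟩ := Pool.Agent.Lib.MP_fa0f6c_al.Cx.exists_over s.N h
  exact ⟨χ, hχ, hne⟩

end Pool.Agent.Lib.MP_fa0f6c_al.Cx.Stage
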