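import Pool.Agent.Lib.MP_fa0f6c_al.Cx.A01

set_option autoImplicit false

namespace Pool.Agent.Lib.MP_fa0f6c_al.Cx

/-- The stabiliser of a homomorphism on `1 + I` in the subring `E` is closed under addition.
PROOF: `m (f₁ x + f₂ x) = m (f₁ x) m (w f₂ x)`, `w = (1 + f₁ x)⁻¹ ∈ 1 + I` (as `(1 + f₁x)(1 + w f₂ x)
= 1 + f₁ x + f₂ x`); `m (w f₂ x) = m (f₂ x w)` (`hom_conj`) `= m (x w f₂)` (stabiliser of `f₂`, `x w ∈ I`).
`m (x f₁ + x f₂) = m (x f₁) m (x f₂ w')`, `w' = (1 + x f₁)⁻¹`, `m (x f₂ w') = m (w' x f₂) = m (x w f₂)` because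
`w' x = x w`. -/
theorem stab_add {R : Type} [Ring R] {E : Subring R} {I : Submodule ℤ R} (h : IsNilIdeal E I)
    {m : R → ℂ} (hm : IsHom I m) {f₁ f₂ : R} (h₁ : f₁ ∈ E) (h₂ : f₂ ∈ E)
    (s₁ : ∀ x ∈ I, m (f₁ * x) = m (x * f₁)) (s₂ : ∀ x ∈ I, m (f₂ * x) = m (x * f₂)) :
    ∀ x ∈ I, m ((f₁ + f₂) * x) = m (x * (f₁ + f₂)) := by
  intro x hx
  have hfx : f₁ * x ∈ I := h.mulL _ h₁ _ hx
  have hxf : x * f₁ ∈ I := h.mulR _ h₁ _ hx
  obtain ⟨u, hu, hu1⟩ := exists_unit h hfx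
  obtain ⟨v, hv, hv1⟩ := exists_unit h hxf
  have hu2 : ((u⁻¹ : Rˣ) : R) - 1 ∈ I := hu.2
  have hwE : ((u⁻¹ : Rˣ) : R) ∈ E := by simpa using E.add_mem (h.le _ hu2) E.one_mem
  have hvE : ((v⁻¹ : Rˣ) : R) ∈ E := by
    have hv2 : ((v⁻¹ : Rˣ) : R) - 1 ∈ I := hv.2
    simpa using E.add_mem (h.le _ hv2) E.one_mem
  have hf2x : f₂ * x ∈ I := h.mulL _ h₂ _ hx
  have hxw : x * ((u⁻¹ : Rˣ) : R) ∈ I := h.mulR _ hwE _ hx
  have e1 : m ((f₁ + f₂) * x) = m (f₁ * x) * m (((u⁻¹ : Rˣ) : R) * (f₂ * x)) := by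
    rw [← hm.mul _ hfx _ (h.mulL _ hwE _ hf2x)]
    congr 1
    have : ((u⁻¹ : Rˣ) : R) * (f₂ * x) + f₁ * x * (((u⁻¹ : Rˣ) : R) * (f₂ * x)) =
        (1 + f₁ * x) * (((u⁻¹ : Rˣ) : R) * (f₂ * x)) := by noncomm_ring
    rw [add_assoc, this, ← hu1, ← mul_assoc, Units.mul_inv, one_mul, add_mul]
  have e2 : m (x * (f₁ + f₂)) = m (x * f₁) * m (((v⁻¹ : Rˣ) : R) * (x * f₂)) := by
    rw [← hm.mul _ hxf _ (h.mulL _ hvE _ (h.mulR _ h₂ _ hx))]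
    congr 1
    have : ((v⁻¹ : Rˣ) : R) * (x * f₂) + x * f₁ * (((v⁻¹ : Rˣ) : R) * (x * f₂)) =
        (1 + x * f₁) * (((v⁻¹ : Rˣ) : R) * (x * f₂)) := by noncomm_ring
    rw [add_assoc, this, ← hv1, ← mul_assoc, Units.mul_inv, one_mul, mul_add]
  have e3 : ((v⁻¹ : Rˣ) : R) * x = x * ((u⁻¹ : Rˣ) : R) := by
    have : (v : R) * x = x * u := by rw [hu1, hv1]; noncomm_ring
    calc ((v⁻¹ : Rˣ) : R) * x = ((v⁻¹ : Rˣ) : R) * (x * u) * ((u⁻¹ : Rˣ) : R) := by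
          rw [← mul_assoc, mul_assoc (((v⁻¹ : Rˣ) : R) * x), Units.mul_inv, mul_one]
      _ = x * ((u⁻¹ : Rˣ) : R) := by
          rw [← this, ← mul_assoc, Units.inv_mul, one_mul]
  rw [e1, e2, s₁ x hx, hom_conj h hm hu2 hf2x, mul_assoc f₂, s₂ _ hxw, ← mul_assoc, e3]

theorem stab_mul {R : Type} [Ring R] {E : Subring R} {I : Submodule ℤ R} (h : IsNilIdeal E I)
    {m : R → ℂ} {f₁ f₂ : R} (h₁ : f₁ ∈ E) (h₂ : f₂ ∈ E)
    (s₁ : ∀ x ∈ I, m (f₁ * x) = m (x * f₁)) (s₂ : ∀ x ∈ I, m (f₂ * x) = m (x * f₂)) :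
    ∀ x ∈ I, m ((f₁ * f₂) * x) = m (x * (f₁ * f₂)) := by
  intro x hx
  rw [mul_assoc, s₁ _ (h.mulL _ h₂ _ hx), mul_assoc, s₂ _ (h.mulR _ h₁ _ hx), mul_assoc]

/-- HINT: `m (-f x) = ...`: from `stab_add`-type computation, or: `f + (-f) = 0`; direct: with
`w = (1 + f x)⁻¹`, `(1 + f x)(1 - w f x) = 1`, hence `m (-(w f x)) = (m (f x))⁻¹`; alternatively replace `x` by `-x`. -/
theorem stab_neg {R : Type} [Ring R] {E : Subring R} {I : Submodule ℤ R} (h : IsNilIdeal E I)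
    {m : R → ℂ} {f : R} (s₁ : ∀ x ∈ I, m (f * x) = m (x * f)) :
    ∀ x ∈ I, m ((-f) * x) = m (x * (-f)) := by
  intro x hx
  have := s₁ (-x) (I.neg_mem hx)
  rw [neg_mul, mul_neg, ← mul_neg, this, neg_mul]

/-- The elements of `I` itself stabilise. HINT: `1 + f` is a unit of `1 + I`, use `hom_conj`; then
`f = (1 + f) + (-1)` and `stab_add`. -/
theorem stab_self {R : Type} [Ring R] {E : Subring R} {I : Submodule ℤ R} (h : IsNilIdeal E I)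
    {m : R → ℂ} (hm : IsHom I m) {f : R} (hf : f ∈ I) : ∀ x ∈ I, m (f * x) = m (x * f) := by
  obtain ⟨u, hu, hu1⟩ := exists_unit h hf
  have s1 : ∀ x ∈ I, m ((1 + f) * x) = m (x * (1 + f)) := by
    intro x hx
    rw [← hu1]
    exact hom_conj h hm hu.1 hx
  have s2 : ∀ x ∈ I, m ((-1 : R) * x) = m (x * (-1)) := by
    intro x _
    simp
  have := stab_add h hm (E.add_mem E.one_mem (h.le _ hf)) (E.neg_mem E.one_mem) s1 s2
  intro x hx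
  simpa using this x hx

/-- The stabiliser subring. -/
def stab {R : Type} [Ring R] (E : Subring R) (I : Submodule ℤ R) (m : R → ℂ) (h : IsNilIdeal E I)
    (hm : IsHom I m) : Subring R where
  carrier := {f | f ∈ E ∧ ∀ x ∈ I, m (f * x) = m (x * f)}
  one_mem' := ⟨E.one_mem, fun x _ => by simp⟩
  zero_mem' := ⟨E.zero_mem, fun x _ => by simp⟩
  add_mem' := fun {a b} ha hb => ⟨E.add_mem ha.1 hb.1, stab_add h hm ha.1 hb.1 ha.2 hb.2⟩
  mul_mem' := fun {a b} ha hb => ⟨E.mul_mem ha.1 hb.1, stab_mul h ha.1 hb.1 ha.2 hb.2⟩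
  neg_mem' := fun {a} ha => ⟨E.neg_mem ha.1, stab_neg h ha.2⟩

theorem mem_stab {R : Type} [Ring R] (E : Subring R) (I : Submodule ℤ R) (m : R → ℂ)
    (h : IsNilIdeal E I) (hm : IsHom I m) (f : R) :
    f ∈ stab E I m h hm ↔ f ∈ E ∧ ∀ x ∈ I, m (f * x) = m (x * f) := Iff.rfl

/-- The child stage. PROOF of (Int): let `g` satisfy the condition for `I'`; restricting to `x ∈ s.I` with
`g⁻¹ x g ∈ s.I` (and `m'` extends `s.m`) gives `g ∈ s.E` by `s.int`. Since `R` is finite `g⁻¹ ∈ s.E`, so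
`g⁻¹ x g ∈ I'` for all `x ∈ I'`, so `m' x = m' (g⁻¹ x g)` for all `x ∈ I'`; put `x = g y`. -/
theorem exists_child {R : Type} [Ring R] [Finite R] (s : Stage R) (I' : Submodule ℤ R)
    (h : IsNilIdeal s.E I') (hle : s.I ≤ I') (m' : R → ℂ) (hm' : IsHom I' m')
    (hext : ∀ x ∈ s.I, m' x = s.m x) :
    ∃ t : Stage R, t.I = I' ∧ t.m = m' ∧
      ∀ f, f ∈ t.E ↔ f ∈ s.E ∧ ∀ x ∈ I', m' (f * x) = m' (x * f) := by
  refine ⟨{ E := stab s.E I' m' h hm'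
            I := I'
            m := m'
            ideal := ?_
            hom := hm'
            sym := ?_
            int := ?_ }, rfl, rfl, fun f => Iff.rfl⟩
  · refine ⟨fun x hx => ⟨h.le x hx, stab_self h hm' hx⟩, fun f hf x hx => h.mulL f hf.1 x hx,
      fun f hf x hx => h.mulR f hf.1 x hx, h.nil⟩
  · intro f hf x hx
    exact hf.2 x hx
  · intro g hg
    have hgE : (g : R) ∈ s.E := by
      apply s.int g
      intro x hx hx'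
      rw [← hext x hx, ← hext _ hx']
      exact hg x (hle hx) (hle hx')
    have hgu : g ∈ unitsOf s.E := (mem_unitsOf s.E g).2 hgE
    refine ⟨hgE, fun y hy => ?_⟩
    have e : (↑g⁻¹ * (↑g * y) * ↑g : R) = y * g := by
      rw [← mul_assoc, Units.inv_mul, one_mul]
    have := hg (g * y) (h.mulL _ hgE _ hy) (by rw [e]; exact h.mulR _ hgE _ hy)
    rw [e] at this
    exact this

end Pool.Agent.Lib.MP_fa0f6c_al.Cx
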