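import Pool.Agent.Lib.MP_fa0f6c_al.Cx.A02
import Pool.Agent.Lib.MP_fa0f6c_al.Cx.A03

set_option autoImplicit false

namespace Pool.Agent.Lib.MP_fa0f6c_al.Cx

/-- The ideals allowed for a small step. -/
structure Legal {R : Type} [Ring R] (s : Stage R) (I' : Submodule ℤ R) : Prop where
  ideal : IsNilIdeal s.E I'
  le : s.I ≤ I'
  sq : ∀ x ∈ I', ∀ y ∈ I', x * y ∈ s.I
  comm : ∀ x ∈ I', ∀ y ∈ I', s.m (x * y) = s.m (y * x)

private theorem A04_restrict {G : Type} [Group G] [Finite G] (N K : Subgroup G) (hNK : N ≤ K)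
    (m m' : G → ℂ) (hm' : IsLin K m') (hext : ∀ x ∈ N, m' x = m x)
    {χ : G → ℂ} (h : χ ∈ Irr G) (h0 : mult K m' χ ≠ 0) : mult N m χ ≠ 0 := by
  classical
  let fK : K →* ℂ :=
    { toFun := fun n => m' n
      map_one' := hm'.1
      map_mul' := fun x y => hm'.2 x x.2 y y.2 }
  have hl : (fun k : K => m' k) ∈ Irr K := lin_irr fK.toHomUnits
  have hχK : IsNat (fun k : K => χ k) := isNat_comp K.subtype (isNat_irr h)
  have h1 : IsNat ((fun k : K => χ k) - (fun k : K => m' k)) := isNat_sub hχK hl h0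
  let φ : N →* K := Subgroup.inclusion hNK
  have h2 : IsNat (fun n : N => ((fun k : K => χ k) - (fun k : K => m' k)) (φ n)) :=
    isNat_comp φ h1
  let fN : N →* ℂ := fK.comp φ
  have hlN : (fun n : N => m' n) ∈ Irr N := lin_irr fN.toHomUnits
  have hlN' : (fun n : N => m n) ∈ Irr N := by
    have e : (fun n : N => m n) = fun n : N => m' n := by
      funext n
      exact (hext n n.2).symm
    rw [e]
    exact hlN
  obtain ⟨k, hk⟩ := h2.2 _ hlN'
  have e1 : (fun n : N => χ n) = (fun n : N => m n) +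
      (fun n : N => ((fun k : K => χ k) - (fun k : K => m' k)) (φ n)) := by
    funext n
    have e2 : ((φ n : K) : G) = n := rfl
    simp only [Pi.add_apply, Pi.sub_apply]
    rw [e2, hext n n.2]
    ring
  unfold mult
  rw [e1, ip_add_left, hk, ip_irr hlN' hlN', if_pos rfl]
  have : ((1 + k : ℕ) : ℂ) ≠ 0 := by
    exact_mod_cast (by omega : 1 + k ≠ 0)
  simpa using this

/-- Commutators of `1 + I'` lie in the kernel. PROOF (blueprint 1.2): `u = 1 + x`, `u⁻¹ = 1 + x'`, `v = 1 + y`,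
`y₁ = u y`, `y₂ = y₁ (1 + y₁)⁻¹`. `u v u⁻¹ v⁻¹ = (1 + u y u⁻¹)(1 + y)⁻¹`, `u y u⁻¹ = y₁ + y₁ x'`,
`y = (1 + x') y₁ = y₁ + x' y₁`, so it equals `(1 + y₁ x' (1 + y₁)⁻¹) (1 + x' y₁ (1 + y₁)⁻¹)⁻¹`. Both factors are in
`1 + s.I` (`sq`); `m (y₁ x' (1 + y₁)⁻¹) = m ((1 + y₁)⁻¹ y₁ x') = m (y₂ x')` by `s.sym`, and `m (x' y₂) = m (y₂ x')` by
`comm`. -/
theorem legal_comm {R : Type} [Ring R] [Finite R] {s : Stage R} {I' : Submodule ℤ R}
    (h : Legal s I') (u v : Rˣ) (hu : u ∈ oneAddGroup s.E I' h.ideal)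
    (hv : v ∈ oneAddGroup s.E I' h.ideal) :
    u * v * u⁻¹ * v⁻¹ ∈ s.N ∧ s.mu (u * v * u⁻¹ * v⁻¹) = 1 := by
  have hx' : ((u⁻¹ : Rˣ) : R) - 1 ∈ I' := hu.2
  have hy : (v : R) - 1 ∈ I' := hv.1
  have huE : (u : R) ∈ s.E := ((oneAddGroup_le h.ideal) hu).1
  have hy1 : (u : R) * ((v : R) - 1) ∈ I' := h.ideal.mulL _ huE _ hy
  obtain ⟨z, hzm, hz⟩ := exists_unit h.ideal hy1
  have hzE : ((z⁻¹ : Rˣ) : R) ∈ s.E := ((oneAddGroup_le h.ideal) hzm).2
  -- abbreviations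
  have huu : (u : R) * ((u⁻¹ : Rˣ) : R) = 1 := u.mul_inv
  have huu' : ((u⁻¹ : Rˣ) : R) * (u : R) = 1 := u.inv_mul
  have hzz : (z : R) * ((z⁻¹ : Rˣ) : R) = 1 := z.mul_inv
  have hzz' : ((z⁻¹ : Rˣ) : R) * (z : R) = 1 := z.inv_mul
  set U : R := (u : R) with hU
  set Ui : R := ((u⁻¹ : Rˣ) : R) with hUi
  set V : R := (v : R) with hV
  set Z : R := (z : R) with hZ
  set Zi : R := ((z⁻¹ : Rˣ) : R) with hZi
  -- Zi commutes with y₁ = Z - 1
  have hcomm : (U * (V - 1)) * Zi = Zi * (U * (V - 1)) := by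
    have e : U * (V - 1) = Z - 1 := by rw [hz]; abel
    rw [e, sub_mul, mul_sub, hzz, hzz', one_mul, mul_one]
  -- the two units
  set a : Rˣ := u * v * u⁻¹ * z⁻¹ with ha
  set b : Rˣ := v * z⁻¹ with hb
  have hab : u * v * u⁻¹ * v⁻¹ = a * b⁻¹ := by rw [ha, hb]; group
  have ha1 : (a : R) - 1 = (U * (V - 1)) * ((Ui - 1) * Zi) := by
    have e1 : (a : R) = U * V * Ui * Zi := by rw [ha]; push_cast; rfl
    have e2 : U * V * Ui = Z + (U * (V - 1)) * (Ui - 1) := by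
      have e3 : U * V * Ui = U * (V - 1) * Ui + U * Ui := by noncomm_ring
      rw [e3, huu, hz]
      noncomm_ring
    rw [e1, e2, add_mul, hzz]
    noncomm_ring
  have hb1 : (b : R) - 1 = (Ui - 1) * ((U * (V - 1)) * Zi) := by
    have e1 : (b : R) = V * Zi := by rw [hb]; push_cast; rfl
    have e2 : V = Z + (Ui - 1) * (U * (V - 1)) := by
      have e3 : (Ui - 1) * (U * (V - 1)) = (Ui * U) * (V - 1) - U * (V - 1) := by noncomm_ring
      rw [e3, huu', hz]
      noncomm_ring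
    rw [e1]
    calc V * Zi - 1 = (Z + (Ui - 1) * (U * (V - 1))) * Zi - 1 := by rw [← e2]
      _ = Z * Zi + (Ui - 1) * (U * (V - 1)) * Zi - 1 := by rw [add_mul]
      _ = _ := by rw [hzz]; noncomm_ring
  have hxz : (Ui - 1) * Zi ∈ I' := h.ideal.mulR _ hzE _ hx'
  have hyz : (U * (V - 1)) * Zi ∈ I' := h.ideal.mulR _ hzE _ hy1
  have haI : (a : R) - 1 ∈ s.I := by rw [ha1]; exact h.sq _ hy1 _ hxz
  have hbI : (b : R) - 1 ∈ s.I := by rw [hb1]; exact h.sq _ hx' _ hyz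
  have haN : a ∈ s.N := (mem_oneAddGroup s.ideal a).2 haI
  have hbN : b ∈ s.N := (mem_oneAddGroup s.ideal b).2 hbI
  have hmu : s.mu a = s.mu b := by
    change s.m ((a : R) - 1) = s.m ((b : R) - 1)
    have hyx : (U * (V - 1)) * (Ui - 1) ∈ s.I := h.sq _ hy1 _ hx'
    have e1 : s.m ((a : R) - 1) = s.m (Zi * ((U * (V - 1)) * (Ui - 1))) := by
      rw [s.sym Zi hzE _ hyx, ha1, ← mul_assoc (U * (V - 1)) (Ui - 1) Zi]
    have e2 : s.m ((b : R) - 1) = s.m (((U * (V - 1)) * Zi) * (Ui - 1)) := by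
      rw [hb1]
      exact h.comm _ hx' _ hyz
    rw [e1, e2, hcomm, mul_assoc Zi (U * (V - 1)) (Ui - 1)]
  rw [hab]
  refine ⟨s.N.mul_mem haN (s.N.inv_mem hbN), ?_⟩
  rw [s.isLin.2 a haN b⁻¹ (s.N.inv_mem hbN), hmu, ← s.isLin.2 b hbN b⁻¹ (s.N.inv_mem hbN),
    mul_inv_cancel, s.isLin.1]

/-- Every character over `s` lies over a child with the ideal `I'`. HINT: `mult_extend`, `exists_child`;
for a function `m'` on units define `m' x` on `R` by the unit `1 + x` (`exists_unit`). -/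
theorem exists_step {R : Type} [Ring R] [Finite R] {s : Stage R} {I' : Submodule ℤ R}
    (h : Legal s I') {χ : Rˣ → ℂ} (hχ : χ ∈ Irr Rˣ) (ho : s.Over χ) :
    ∃ t : Stage R, s.IsStep t ∧ t.I = I' ∧ t.Over χ := by
  classical
  have hNK : s.N ≤ oneAddGroup s.E I' h.ideal := by
    intro u hu
    rw [mem_oneAddGroup]
    exact h.le hu.1
  obtain ⟨m', hm', hext, hne⟩ := mult_extend s.N (oneAddGroup s.E I' h.ideal) hNK s.mu s.isLin
    (fun x hx y hy => legal_comm h x y hx hy) hχ ho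
  let mR : R → ℂ := fun x => if hx : IsUnit (1 + x) then m' hx.unit else 1
  have hmR : ∀ u : Rˣ, mR ((u : R) - 1) = m' u := by
    intro u
    have e : (1 : R) + ((u : R) - 1) = u := by abel
    have hx : IsUnit ((1 : R) + ((u : R) - 1)) := by rw [e]; exact u.isUnit
    have e2 : hx.unit = u := by
      apply Units.ext
      rw [IsUnit.unit_spec]
      exact e
    change (if hx : IsUnit ((1 : R) + ((u : R) - 1)) then m' hx.unit else 1) = m' u
    rw [dif_pos hx, e2]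
  have hmR' : (fun u : Rˣ => mR ((u : R) - 1)) = m' := funext hmR
  have hH : IsHom I' mR := by
    apply isHom_of_isLin h.ideal
    rw [hmR']
    exact hm'
  have hextR : ∀ x ∈ s.I, mR x = s.m x := by
    intro x hx
    obtain ⟨u, hu, hux⟩ := exists_unit s.ideal hx
    have e : x = (u : R) - 1 := by rw [hux]; abel
    rw [e, hmR u, hext u hu]
    rfl
  obtain ⟨t, htI, htm, htE⟩ := exists_child s I' h.ideal h.le mR hH hextR
  refine ⟨t, ⟨?_, ?_, ?_, ?_, ?_, ?_⟩, htI, ?_⟩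
  · rw [htI]; exact h.ideal
  · rw [htI]; exact h.le
  · rw [htI]; exact h.sq
  · rw [htI]; exact h.comm
  · rw [htm]; exact hextR
  · intro f
    rw [htE f, htI, htm]
  · change mult t.N t.mu χ ≠ 0
    have e1 : t.N = oneAddGroup s.E I' h.ideal := by
      ext u
      rw [mem_oneAddGroup]
      change u ∈ oneAddGroup t.E t.I t.ideal ↔ _
      rw [mem_oneAddGroup, htI]
    have e2 : t.mu = m' := by
      funext u
      change t.m ((u : R) - 1) = m' u
      rw [htm, hmR u]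
    rw [e1, e2]
    exact hne

/-- HINT: `1 + s.I ≤ 1 + t.I` and `t.mu = s.mu` on it: a nonzero multiplicity on the bigger group
gives one on the smaller group (the `t.mu`-isotypic part is `s.mu`-isotypic). -/
theorem over_of_step {R : Type} [Ring R] [Finite R] {s t : Stage R} (h : s.IsStep t)
    {χ : Rˣ → ℂ} (hχ : χ ∈ Irr Rˣ) (ho : t.Over χ) : s.Over χ := by
  have hNK : s.N ≤ t.N := by
    intro u hu
    exact (mem_oneAddGroup t.ideal u).2 (h.le hu.1)
  exact A04_restrict s.N t.N hNK s.mu t.mu t.isLin (fun x hx => h.ext _ hx.1) hχ ho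

/-- reachability: monotonicity -/
theorem reach_mono {R : Type} [Ring R] [Finite R] {s t : Stage R} (h : s.Reach t) :
    s.I ≤ t.I ∧ (∀ x ∈ s.I, t.m x = s.m x) ∧ t.E ≤ s.E ∧
      ∀ χ ∈ Irr Rˣ, t.Over χ → s.Over χ := by
  induction h with
  | refl => exact ⟨le_rfl, fun _ _ => rfl, le_rfl, fun _ _ h => h⟩
  | tail _ hbc ih =>
    obtain ⟨h1, h2, h3, h4⟩ := ih
    refine ⟨h1.trans hbc.le, fun x hx => ?_, ?_, fun χ hχ ho => h4 χ hχ (over_of_step hbc hχ ho)⟩
    · rw [hbc.ext x (h1 hx), h2 x hx]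
    · intro f hf
      exact h3 ((hbc.stab f).1 hf).1

end Pool.Agent.Lib.MP_fa0f6c_al.Cx
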