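import Pool.Agent.Lib.MP_fa0f6c_al.Cx.Defs

/-!
Characters of representations of finite groups: value at the inverse, bound for the norm, scalar
operators in the case of equality, integrality.
-/

set_option autoImplicit false

namespace Pool.Agent.Lib.MP_fa0f6c_al.Cx

open scoped ComplexConjugate

section R01

variable {V : Type} [AddCommGroup V] [Module ℂ V] [FiniteDimensional ℂ V]

private theorem R01_iSup (f : Module.End ℂ V) (k : ℕ) (hk : 0 < k) (hf : f ^ k = 1) :
    ⨆ μ : ℂ, f.eigenspace μ = ⊤ := by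
  apply Module.End.IsSemisimple.iSup_eigenspace_eq_top
  refine Module.End.isSemisimple_of_squarefree_aeval_eq_zero (p := Polynomial.X ^ k - 1) ?_ ?_
  · refine (Polynomial.X_pow_sub_one_separable_iff.mpr ?_).squarefree
    exact_mod_cast hk.ne'
  · simp [hf]

private theorem R01_diag (f : Module.End ℂ V) (k : ℕ) (hk : 0 < k) (hf : f ^ k = 1) :
    ∃ (s : Finset ℂ) (d : ℂ → ℕ), (∀ μ ∈ s, μ ^ k = 1 ∧ 0 < d μ) ∧
      (∀ μ, μ ∉ s → f.eigenspace μ = ⊥) ∧
      ∀ (h : Module.End ℂ V) (c : ℂ → ℂ), (∀ μ v, f v = μ • v → h v = c μ • v) →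
        LinearMap.trace ℂ V h = ∑ μ ∈ s, (d μ : ℂ) * c μ := by
  classical
  have hint : DirectSum.IsInternal (fun μ : ℂ => f.eigenspace μ) :=
    DirectSum.isInternal_submodule_of_iSupIndep_of_iSup_eq_top f.eigenspaces_iSupIndep
      (R01_iSup f k hk hf)
  have hN : {μ : ℂ | f.eigenspace μ ≠ ⊥}.Finite :=
    WellFoundedGT.finite_ne_bot_of_iSupIndep f.eigenspaces_iSupIndep
  refine ⟨hN.toFinset, fun μ => Module.finrank ℂ (f.eigenspace μ), ?_, ?_, ?_⟩
  · intro μ hμ
    rw [Set.Finite.mem_toFinset] at hμ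
    have hμ' : f.eigenspace μ ≠ ⊥ := hμ
    constructor
    · obtain ⟨v, hv, hv0⟩ := (Submodule.ne_bot_iff _).mp hμ'
      rw [Module.End.mem_eigenspace_iff] at hv
      have h1 : ∀ j : ℕ, (f ^ j) v = μ ^ j • v := by
        intro j
        induction j with
        | zero => simp
        | succ j ih =>
          rw [pow_succ', Module.End.mul_apply, ih, map_smul, hv, smul_smul, pow_succ]
      have h2 := h1 k
      rw [hf, Module.End.one_apply] at h2
      have h3 : (μ ^ k - 1) • v = 0 := by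
        rw [sub_smul, ← h2, one_smul, sub_self]
      rcases smul_eq_zero.mp h3 with h | h
      · exact sub_eq_zero.mp h
      · exact absurd h hv0
    · have : Nontrivial (f.eigenspace μ) := Submodule.nontrivial_iff_ne_bot.mpr hμ'
      exact Module.finrank_pos
  · intro μ hμ
    by_contra hne
    exact hμ (hN.mem_toFinset.mpr hne)
  · intro h c hc
    have hmaps : ∀ μ : ℂ, Set.MapsTo h (f.eigenspace μ) (f.eigenspace μ) := by
      intro μ v hv
      have hv' := Module.End.mem_eigenspace_iff.mp hv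
      rw [hc μ v hv']
      exact Submodule.smul_mem _ _ hv
    rw [LinearMap.trace_eq_sum_trace_restrict' hint hN hmaps]
    refine Finset.sum_congr rfl (fun μ _ => ?_)
    have : h.restrict (hmaps μ) = c μ • LinearMap.id := by
      refine LinearMap.ext (fun v => Subtype.ext ?_)
      have hv' := Module.End.mem_eigenspace_iff.mp v.2
      exact hc μ v hv'
    rw [this, map_smul, LinearMap.trace_id, smul_eq_mul, mul_comm]

end R01

variable {G : Type} [Group G] [Finite G] {V : Type} [AddCommGroup V] [Module ℂ V]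
  [FiniteDimensional ℂ V]

omit [Finite G] [FiniteDimensional ℂ V] in
private theorem R01_pow (ρ : Representation ℂ G V) (g : G) : (ρ g) ^ (Nat.card G) = 1 := by
  rw [← map_pow, pow_card_eq_one', map_one]

private theorem R01_norm {k : ℕ} (hk : 0 < k) {μ : ℂ} (h : μ ^ k = 1) : ‖μ‖ = 1 :=
  Complex.norm_eq_one_of_pow_eq_one h hk.ne'

private theorem R01_char (ρ : Representation ℂ G V) (g : G) :
    ∃ (s : Finset ℂ) (d : ℂ → ℕ), (∀ μ ∈ s, μ ^ (Nat.card G) = 1 ∧ 0 < d μ) ∧
      (∀ μ, μ ∉ s → Module.End.eigenspace (ρ g) μ = ⊥) ∧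
      (⨆ μ : ℂ, Module.End.eigenspace (ρ g) μ) = ⊤ ∧
      ρ.character g = ∑ μ ∈ s, (d μ : ℂ) * μ ∧
      ρ.character g⁻¹ = ∑ μ ∈ s, (d μ : ℂ) * μ⁻¹ ∧
      (Module.finrank ℂ V : ℂ) = ∑ μ ∈ s, (d μ : ℂ) := by
  have hk : 0 < Nat.card G := Nat.card_pos
  obtain ⟨s, d, h1, h2, h3⟩ := R01_diag (ρ g) (Nat.card G) hk (R01_pow ρ g)
  refine ⟨s, d, h1, h2, R01_iSup (ρ g) (Nat.card G) hk (R01_pow ρ g), ?_, ?_, ?_⟩
  · exact h3 (ρ g) (fun μ => μ) (fun μ v hv => hv)
  · refine h3 (ρ g⁻¹) (fun μ => μ⁻¹) (fun μ v hv => ?_)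
    have h4 : ρ g⁻¹ (ρ g v) = v := by
      rw [← Module.End.mul_apply, ← map_mul]; simp
    rw [hv, map_smul] at h4
    rcases eq_or_ne μ 0 with rfl | hμ
    · have hv0 : v = 0 := by rw [← h4]; simp
      simp [hv0]
    · rw [← h4, smul_smul, inv_mul_cancel₀ hμ, one_smul, h4]
  · have h4 := h3 1 (fun _ => 1) (fun μ v hv => by simp)
    rw [LinearMap.trace_one] at h4
    rw [h4]
    simp

theorem rep_char_inv {G : Type} [Group G] [Finite G] {V : Type} [AddCommGroup V] [Module ℂ V]
    [FiniteDimensional ℂ V] (ρ : Representation ℂ G V) (g : G) :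
    ρ.character g⁻¹ = conj (ρ.character g) := by
  obtain ⟨s, d, h1, -, -, h4, h5, -⟩ := R01_char ρ g
  rw [h4, h5, map_sum]
  refine Finset.sum_congr rfl (fun μ hμ => ?_)
  rw [map_mul, Complex.conj_natCast, Complex.inv_eq_conj (R01_norm Nat.card_pos (h1 μ hμ).1)]

theorem rep_char_norm_le {G : Type} [Group G] [Finite G] {V : Type} [AddCommGroup V] [Module ℂ V]
    [FiniteDimensional ℂ V] (ρ : Representation ℂ G V) (g : G) :
    ‖ρ.character g‖ ≤ Module.finrank ℂ V := by
  obtain ⟨s, d, h1, -, -, h4, -, h6⟩ := R01_char ρ g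
  have h7 : (Module.finrank ℂ V : ℝ) = ∑ μ ∈ s, (d μ : ℝ) := by exact_mod_cast h6
  rw [h4, h7]
  refine (norm_sum_le _ _).trans (Finset.sum_le_sum (fun μ hμ => ?_))
  rw [norm_mul, R01_norm Nat.card_pos (h1 μ hμ).1, Complex.norm_natCast, mul_one]

theorem rep_scalar_of_norm_eq {G : Type} [Group G] [Finite G] {V : Type} [AddCommGroup V]
    [Module ℂ V] [FiniteDimensional ℂ V] (ρ : Representation ℂ G V) (g : G)
    (h : ‖ρ.character g‖ = Module.finrank ℂ V) :
    ∃ c : ℂ, ρ g = c • LinearMap.id := by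
  obtain ⟨s, d, h1, h2, h3, h4, -, h6⟩ := R01_char ρ g
  have h7 : (Module.finrank ℂ V : ℝ) = ∑ μ ∈ s, (d μ : ℝ) := by exact_mod_cast h6
  rcases Nat.eq_zero_or_pos (Module.finrank ℂ V) with hD | hD
  · have : Subsingleton V := Module.finrank_zero_iff.mp hD
    exact ⟨0, LinearMap.ext (fun v => Subsingleton.elim _ _)⟩
  set S := ρ.character g with hS
  have hDpos : (0 : ℝ) < Module.finrank ℂ V := by exact_mod_cast hD
  have hSn : (0 : ℝ) < ‖S‖ := by rw [h]; exact hDpos
  -- unit vector in the direction of the sum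
  set u : ℂ := S / (‖S‖ : ℂ) with hu
  have hun : ‖u‖ = 1 := by
    rw [hu, norm_div, Complex.norm_real, norm_norm, div_self hSn.ne']
  have hre : ∀ μ : ℂ, ‖μ‖ = 1 → (conj u * μ).re ≤ 1 := by
    intro μ hμ
    refine (Complex.re_le_norm _).trans ?_
    rw [norm_mul, hμ, mul_one]
    simp [hun]
  have hsum : ∑ μ ∈ s, (d μ : ℝ) * (conj u * μ).re = ∑ μ ∈ s, (d μ : ℝ) := by
    have e1 : conj u * S = (‖S‖ : ℂ) := by
      have hne : (‖S‖ : ℂ) ≠ 0 := by exact_mod_cast hSn.ne'
      rw [hu, map_div₀, Complex.conj_ofReal, div_mul_eq_mul_div, mul_comm (conj S) S,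
        Complex.mul_conj, Complex.normSq_eq_norm_sq]
      push_cast
      field_simp
    have e2 : (conj u * S).re = ‖S‖ := by rw [e1]; exact Complex.ofReal_re _
    have e3 : (conj u * S).re = ∑ μ ∈ s, (d μ : ℝ) * (conj u * μ).re := by
      rw [h4, Finset.mul_sum, Complex.re_sum]
      refine Finset.sum_congr rfl (fun μ _ => ?_)
      have : conj u * ((d μ : ℂ) * μ) = ((d μ : ℝ) : ℂ) * (conj u * μ) := by
        push_cast; ring
      rw [this, Complex.re_ofReal_mul]
    rw [← e3, e2, h, h7]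
  have heq : ∀ μ ∈ s, μ = u := by
    intro μ hμ
    have hle : ∀ ν ∈ s, (d ν : ℝ) * (conj u * ν).re ≤ (d ν : ℝ) := by
      intro ν hν
      have := hre ν (R01_norm Nat.card_pos (h1 ν hν).1)
      have hd : (0 : ℝ) ≤ d ν := by positivity
      nlinarith
    have h8 := (Finset.sum_eq_sum_iff_of_le hle).mp hsum μ hμ
    have hd : (0 : ℝ) < d μ := by exact_mod_cast (h1 μ hμ).2
    have h9 : (conj u * μ).re = 1 := by
      have : (d μ : ℝ) * ((conj u * μ).re - 1) = 0 := by rw [mul_sub, h8]; ring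
      rcases mul_eq_zero.mp this with h | h
      · exact absurd h hd.ne'
      · linarith
    have hn : ‖conj u * μ‖ = 1 := by
      rw [norm_mul, R01_norm Nat.card_pos (h1 μ hμ).1, mul_one]
      simp [hun]
    have h10 : conj u * μ = 1 := by
      have h11 : (conj u * μ).im = 0 := by
        have := Complex.sq_norm (conj u * μ)
        rw [hn, Complex.normSq_apply, h9] at this
        nlinarith
      exact Complex.ext (by simpa using h9) (by simpa using h11)
    have h12 : u * conj u = 1 := by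
      rw [Complex.mul_conj, Complex.normSq_eq_norm_sq, hun]; simp
    calc μ = (u * conj u) * μ := by rw [h12, one_mul]
      _ = u * (conj u * μ) := by ring
      _ = u := by rw [h10, mul_one]
  refine ⟨u, ?_⟩
  have htop : Module.End.eigenspace (ρ g) u = ⊤ := by
    rw [eq_top_iff, ← h3]
    refine iSup_le (fun μ => ?_)
    by_cases hμ : μ ∈ s
    · rw [heq μ hμ]
    · rw [h2 μ hμ]; exact bot_le
  ext v
  have hv : v ∈ Module.End.eigenspace (ρ g) u := by rw [htop]; exact Submodule.mem_top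
  rw [Module.End.mem_eigenspace_iff] at hv
  simpa using hv

theorem rep_char_isIntegral {G : Type} [Group G] [Finite G] {V : Type} [AddCommGroup V]
    [Module ℂ V] [FiniteDimensional ℂ V] (ρ : Representation ℂ G V) (g : G) :
    IsIntegral ℤ (ρ.character g) := by
  obtain ⟨s, d, h1, -, -, h4, -, -⟩ := R01_char ρ g
  rw [h4]
  refine IsIntegral.sum _ (fun μ hμ => ?_)
  refine IsIntegral.mul (by exact_mod_cast isIntegral_algebraMap (R := ℤ) (A := ℂ) (x := (d μ : ℤ))) ?_
  have hk : 0 < Nat.card G := Nat.card_pos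
  refine IsIntegral.of_pow hk ?_
  rw [(h1 μ hμ).1]
  exact isIntegral_one

end Pool.Agent.Lib.MP_fa0f6c_al.Cx
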