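import Pool.Agent.Lib.MP_fa0f6c_al.Cx.Defs
import Pool.Agent.Lib.MP_fa0f6c_al.Cx.R01

set_option autoImplicit false

namespace Pool.Agent.Lib.MP_fa0f6c_al.Cx

open scoped ComplexConjugate

theorem irr_cf {G : Type} [Group G] {χ : G → ℂ} (h : χ ∈ Irr G) : IsCF χ := by
  obtain ⟨n, ρ, -, rfl⟩ := h
  intro x y
  exact ρ.char_mul_comm y x

theorem irr_inv {G : Type} [Group G] [Finite G] {χ : G → ℂ} (h : χ ∈ Irr G) (g : G) :
    χ g⁻¹ = conj (χ g) := by
  obtain ⟨n, ρ, -, rfl⟩ := h
  exact rep_char_inv ρ g

private theorem R02_pos {G : Type} [Group G] {V : Type} [AddCommGroup V] [Module ℂ V]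
    [FiniteDimensional ℂ V] (ρ : Representation ℂ G V) (h : ρ.IsIrreducible) :
    0 < Module.finrank ℂ V := by
  rw [Module.finrank_pos_iff]
  by_contra hn
  rw [not_nontrivial_iff_subsingleton] at hn
  have h2 : (⊥ : Subrepresentation ρ) = ⊤ := by
    apply Subrepresentation.toSubmodule_injective
    exact Subsingleton.elim _ _
  exact bot_ne_top h2

theorem irr_deg {G : Type} [Group G] {χ : G → ℂ} (h : χ ∈ Irr G) : ∃ n : ℕ, 0 < n ∧ χ 1 = n := by
  obtain ⟨n, ρ, hρ, rfl⟩ := h
  exact ⟨Module.finrank ℂ (Fin n → ℂ), R02_pos ρ hρ, ρ.char_one⟩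

theorem irr_norm_le {G : Type} [Group G] [Finite G] {χ : G → ℂ} (h : χ ∈ Irr G) (g : G) :
    ‖χ g‖ ≤ ‖χ 1‖ := by
  obtain ⟨n, ρ, -, rfl⟩ := h
  rw [ρ.char_one, Complex.norm_natCast]
  exact rep_char_norm_le ρ g

theorem irr_isIntegral {G : Type} [Group G] [Finite G] {χ : G → ℂ} (h : χ ∈ Irr G) (g : G) :
    IsIntegral ℤ (χ g) := by
  obtain ⟨n, ρ, -, rfl⟩ := h
  exact rep_char_isIntegral ρ g

/-- HINT: `Representation.char_orthonormal` (two irreducible representations on `Fin n → ℂ`,
`Fin m → ℂ`; equal characters iff equivalent: if they are equivalent `Representation.char_iso`;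
if the characters are equal then the inner product is `1`, so `Nonempty (Equiv ..)`). -/
theorem ip_irr {G : Type} [Group G] [Finite G] {χ ψ : G → ℂ} (h : χ ∈ Irr G) (h' : ψ ∈ Irr G) :
    ip χ ψ = open Classical in if χ = ψ then 1 else 0 := by
  classical
  have : Fintype G := Fintype.ofFinite G
  have hc : (Nat.card G : ℂ) ≠ 0 := by
    have : 0 < Nat.card G := Nat.card_pos
    exact_mod_cast this.ne'
  have : Invertible (Nat.card G : ℂ) := invertibleOfNonzero hc
  have key : ∀ (n m : ℕ) (ρ : Representation ℂ G (Fin n → ℂ)) (σ : Representation ℂ G (Fin m → ℂ)),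
      ρ.IsIrreducible → σ.IsIrreducible → ip (ρ.character : G → ℂ) σ.character =
        if Nonempty (Representation.Equiv σ ρ) then 1 else 0 := by
    intro n m ρ σ hρ hσ
    have h1 := Representation.char_orthonormal ρ σ
    rw [← h1, ip, finsum_eq_sum_of_fintype]
    congr 1
    refine Finset.sum_congr rfl (fun g _ => ?_)
    rw [rep_char_inv σ g]
  obtain ⟨n, ρ, hρ, rfl⟩ := h
  obtain ⟨m, σ, hσ, rfl⟩ := h'
  rw [key n m ρ σ hρ hσ]
  by_cases he : Nonempty (Representation.Equiv σ ρ)
  · rw [if_pos he, if_pos]
    exact (Representation.char_iso he.some).symm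
  · rw [if_neg he, if_neg]
    intro heq
    have h1 := key n m ρ σ hρ hσ
    rw [if_neg he, heq, key m m σ σ hσ hσ, if_pos ⟨Representation.Equiv.refl σ⟩] at h1
    exact one_ne_zero h1

/-- Every irreducible representation on a finite dimensional space gives an element of `Irr`
(choose a basis). -/
theorem mem_irr_of_rep {G : Type} [Group G] {V : Type} [AddCommGroup V] [Module ℂ V]
    [FiniteDimensional ℂ V] (ρ : Representation ℂ G V) (h : ρ.IsIrreducible) :
    (ρ.character : G → ℂ) ∈ Irr G := by
  classical
  let e : V ≃ₗ[ℂ] (Fin (Module.finrank ℂ V) → ℂ) := (Module.finBasis ℂ V).equivFun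
  let σ : Representation ℂ G (Fin (Module.finrank ℂ V) → ℂ) :=
    { toFun := fun g => e.toLinearMap ∘ₗ (ρ g) ∘ₗ e.symm.toLinearMap
      map_one' := by
        ext x; simp
      map_mul' := fun x y => by
        refine LinearMap.ext (fun v => ?_)
        simp }
  have hσ : ∀ g v, σ g (e v) = e (ρ g v) := by
    intro g v
    show e (ρ g (e.symm (e v))) = e (ρ g v)
    rw [e.symm_apply_apply]
  let φ : Representation.Equiv ρ σ := Representation.Equiv.mk e (fun g => by
    refine LinearMap.ext (fun v => ?_)
    exact (hσ g v).symm)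
  refine ⟨Module.finrank ℂ V, σ, ?_, Representation.char_iso φ⟩
  have hsimple : IsSimpleOrder (Subrepresentation ρ) := h
  let F : Subrepresentation σ ≃o Subrepresentation ρ :=
    { toFun := fun W => ⟨W.toSubmodule.comap e.toLinearMap, fun g v hv => by
        show e (ρ g v) ∈ W.toSubmodule
        rw [← hσ]
        exact W.apply_mem_toSubmodule g hv⟩
      invFun := fun W => ⟨W.toSubmodule.comap e.symm.toLinearMap, fun g v hv => by
        show e.symm (σ g v) ∈ W.toSubmodule
        have h1 : σ g v = e (ρ g (e.symm v)) := by rw [← hσ, e.apply_symm_apply]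
        rw [h1, e.symm_apply_apply]
        exact W.apply_mem_toSubmodule g hv⟩
      left_inv := fun W => by
        apply Subrepresentation.toSubmodule_injective
        ext v
        simp
      right_inv := fun W => by
        apply Subrepresentation.toSubmodule_injective
        ext v
        simp
      map_rel_iff' := by
        intro W W'
        constructor
        · intro hle v hv
          have hv' : e.symm v ∈ (W.toSubmodule.comap e.toLinearMap) := by
            show e (e.symm v) ∈ W.toSubmodule
            rw [e.apply_symm_apply]; exact hv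
          have := hle hv'
          change e (e.symm v) ∈ W'.toSubmodule at this
          rw [e.apply_symm_apply] at this
          exact this
        · intro hle v hv
          exact hle hv }
  exact F.isSimpleOrder

end Pool.Agent.Lib.MP_fa0f6c_al.Cx
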