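import Pool.Agent.Lib.MP_fa0f6c_al.Cx.Defs
import Pool.Agent.Lib.MP_fa0f6c_al.Cx.R02

set_option autoImplicit false

namespace Pool.Agent.Lib.MP_fa0f6c_al.Cx

open scoped ComplexConjugate

private theorem r03_ip_eq {G : Type} [Fintype G] (f g : G → ℂ) :
    ip f g = (Nat.card G : ℂ)⁻¹ * ∑ x, f x * conj (g x) := by
  unfold ip
  rw [finsum_eq_sum_of_fintype]

/-- HINT: write the representation as a sum of irreducible subrepresentations (Maschke:
`MonoidAlgebra ℂ G` is semisimple, `IsSemisimpleModule`); or induction on `finrank`: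
`card_inv_mul_sum_char_mul_char_eq_finrank` gives directly
`ip ρ.character χ = finrank (Hom (χ, ρ))`, a natural number, which is all that `IsNat` asks. -/
theorem rep_isNat {G : Type} [Group G] [Finite G] {V : Type} [AddCommGroup V]
    [Module ℂ V] [FiniteDimensional ℂ V] (ρ : Representation ℂ G V) :
    IsNat (ρ.character : G → ℂ) := by
  refine ⟨fun x y => Representation.char_mul_comm ρ y x, fun χ hχ => ?_⟩
  have : Fintype G := Fintype.ofFinite G
  have hcard : (Nat.card G : ℂ) ≠ 0 := Nat.cast_ne_zero.mpr Nat.card_pos.ne'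
  have : Invertible (Nat.card G : ℂ) := invertibleOfNonzero hcard
  obtain ⟨n, σ, hσ, rfl⟩ := hχ
  refine ⟨Module.finrank ℂ (Representation.IntertwiningMap σ ρ), ?_⟩
  rw [← Representation.card_inv_mul_sum_char_mul_char_eq_finrank, r03_ip_eq]
  congr 1
  refine Finset.sum_congr rfl fun x _ => ?_
  rw [irr_inv ⟨n, σ, hσ, rfl⟩]

/-- the operator `∑ conj (f g) g` -/
private noncomputable def r03T {G V : Type} [Group G] [Fintype G] [AddCommGroup V] [Module ℂ V]
    (f : G → ℂ) (ρ : Representation ℂ G V) : V →ₗ[ℂ] V := ∑ g : G, conj (f g) • ρ g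

private theorem r03T_apply {G V : Type} [Group G] [Fintype G] [AddCommGroup V] [Module ℂ V]
    (f : G → ℂ) (ρ : Representation ℂ G V) (v : V) :
    r03T f ρ v = ∑ g : G, conj (f g) • ρ g v := by
  unfold r03T
  rw [LinearMap.sum_apply]
  rfl

private theorem r03T_comm {G V : Type} [Group G] [Fintype G] [AddCommGroup V] [Module ℂ V]
    {f : G → ℂ} (hf : IsCF f) (ρ : Representation ℂ G V) (h : G) (v : V) :
    r03T f ρ (ρ h v) = ρ h (r03T f ρ v) := by
  rw [r03T_apply, r03T_apply, map_sum]
  have h1 : ∑ g : G, conj (f g) • ρ g (ρ h v) = ∑ x : G, conj (f (x * h⁻¹)) • ρ x v := by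
    rw [← Equiv.sum_comp (Equiv.mulRight h) (fun x => conj (f (x * h⁻¹)) • ρ x v)]
    refine Finset.sum_congr rfl fun g _ => ?_
    simp
  have h2 : ∑ g : G, ρ h (conj (f g) • ρ g v) = ∑ x : G, conj (f (h⁻¹ * x)) • ρ x v := by
    rw [← Equiv.sum_comp (Equiv.mulLeft h) (fun x => conj (f (h⁻¹ * x)) • ρ x v)]
    refine Finset.sum_congr rfl fun g _ => ?_
    simp
  rw [h1, h2]
  refine Finset.sum_congr rfl fun x _ => ?_
  rw [hf x h⁻¹]

private theorem r03T_trace {G V : Type} [Group G] [Fintype G] [AddCommGroup V] [Module ℂ V]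
    [FiniteDimensional ℂ V] (f : G → ℂ) (ρ : Representation ℂ G V) :
    LinearMap.trace ℂ V (r03T f ρ) = conj ((Nat.card G : ℂ) * ip f ρ.character) := by
  have hcard : (Nat.card G : ℂ) ≠ 0 := Nat.cast_ne_zero.mpr Nat.card_pos.ne'
  rw [r03_ip_eq, ← mul_assoc, mul_inv_cancel₀ hcard, one_mul, map_sum]
  unfold r03T
  rw [map_sum]
  refine Finset.sum_congr rfl fun x _ => ?_
  rw [map_smul, smul_eq_mul, map_mul, Complex.conj_conj]
  rfl

private theorem r03_irr {G V : Type} [Group G] [Fintype G] [AddCommGroup V] [Module ℂ V]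
    [FiniteDimensional ℂ V] {f : G → ℂ} (hf : IsCF f) (h : ∀ χ ∈ Irr G, ip f χ = 0)
    (ρ : Representation ℂ G V) (hρ : ρ.IsIrreducible) : r03T f ρ = 0 := by
  have hmem := mem_irr_of_rep ρ hρ
  obtain ⟨n, hn, hn1⟩ := irr_deg hmem
  rw [Representation.char_one] at hn1
  have htr := r03T_trace f ρ
  rw [h _ hmem, mul_zero, map_zero] at htr
  let φ : Representation.IntertwiningMap ρ ρ := ⟨r03T f ρ, fun g => by
    ext v
    exact r03T_comm hf ρ g v⟩
  obtain ⟨c, hc⟩ :=
    (Representation.IsIrreducible.algebraMap_intertwiningMap_bijective_of_isAlgClosed (ρ := ρ)).2 φ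
  have hT : r03T f ρ = c • LinearMap.id := by
    have h1 := congrArg (fun (ψ : Representation.IntertwiningMap ρ ρ) => ψ.toLinearMap) hc
    refine (show r03T f ρ = φ.toLinearMap from rfl).trans (h1.symm.trans ?_)
    rw [Algebra.algebraMap_eq_smul_one]
    rfl
  rw [hT, map_smul, LinearMap.trace_id, smul_eq_mul, hn1] at htr
  rcases mul_eq_zero.mp htr with h0 | h0
  · rw [hT, h0, zero_smul]
  · exact absurd h0 (Nat.cast_ne_zero.mpr hn.ne')

private theorem r03_all {G : Type} [Group G] [Fintype G] {f : G → ℂ} (hf : IsCF f)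
    (h : ∀ χ ∈ Irr G, ip f χ = 0) (n : ℕ) : ∀ (V : Type) [AddCommGroup V] [Module ℂ V]
    [FiniteDimensional ℂ V] (ρ : Representation ℂ G V), Module.finrank ℂ V = n →
    r03T f ρ = 0 := by
  induction n using Nat.strong_induction_on with
  | _ n ih =>
    intro V _ _ _ ρ hn
    have hcard : (Nat.card G : ℂ) ≠ 0 := Nat.cast_ne_zero.mpr Nat.card_pos.ne'
    have : NeZero (Nat.card G : ℂ) := ⟨hcard⟩
    by_cases hirr : ρ.IsIrreducible
    · exact r03_irr hf h ρ hirr
    by_cases hV : Subsingleton V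
    · ext v
      exact Subsingleton.elim _ _
    rw [not_subsingleton_iff_nontrivial] at hV
    -- a proper nonzero subrepresentation
    have hex : ∃ σ : Subrepresentation ρ, σ ≠ ⊥ ∧ σ ≠ ⊤ := by
      by_contra hcon
      push Not at hcon
      refine hirr { exists_pair_ne := ⟨⊥, ⊤, ?_⟩, eq_bot_or_eq_top := fun σ => ?_ }
      · intro he
        have h2 : (⊥ : Submodule ℂ V) = ⊤ := congrArg Subrepresentation.toSubmodule he
        exact bot_ne_top h2
      · by_cases h3 : σ = ⊥
        · exact Or.inl h3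
        · exact Or.inr (hcon σ h3)
    obtain ⟨σ, hσ0, hσ1⟩ := hex
    obtain ⟨τ, hτ⟩ := exists_isCompl σ
    have hsup : σ.toSubmodule ⊔ τ.toSubmodule = ⊤ := by
      rw [← Subrepresentation.toSubmodule_sup, hτ.sup_eq_top]
      rfl
    have hσ' : σ.toSubmodule ≠ ⊤ := fun h1 => hσ1 (Subrepresentation.toSubmodule_injective h1)
    have hτ' : τ.toSubmodule ≠ ⊤ := fun h1 => by
      have h2 : τ = ⊤ := Subrepresentation.toSubmodule_injective h1
      rw [h2] at hτ
      exact hσ0 (by simpa using hτ.inf_eq_bot)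
    have key : ∀ ω : Subrepresentation ρ, ω.toSubmodule ≠ ⊤ → ∀ v ∈ ω.toSubmodule,
        r03T f ρ v = 0 := by
      intro ω hω v hv
      have hlt : Module.finrank ℂ ω.toSubmodule < n := by
        rw [← hn]
        exact Submodule.finrank_lt hω
      have h1 := ih _ hlt ω.toSubmodule ω.toRepresentation rfl
      have h2 : ((r03T f ω.toRepresentation ⟨v, hv⟩ : ω.toSubmodule) : V) = r03T f ρ v := by
        rw [r03T_apply, r03T_apply, Submodule.coe_sum]
        rfl
      rw [← h2, h1]
      rfl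
    ext v
    have hv : v ∈ σ.toSubmodule ⊔ τ.toSubmodule := by rw [hsup]; trivial
    obtain ⟨a, ha, b, hb, rfl⟩ := Submodule.mem_sup.mp hv
    rw [map_add, key σ hσ' a ha, key τ hτ' b hb, add_zero]
    rfl

/-- Completeness.  HINT: let `z = ∑ g, conj (f g) • g` (or `f g⁻¹`) in the centre of the group algebra.
By Schur (`IsSimpleModule` / `algebraMap_intertwiningMap_bijective_of_isAlgClosed`) it acts on every
irreducible representation by a scalar, whose trace is a multiple of `ip χ f = conj (ip f χ) = 0`,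
so it acts by `0` on all irreducible representations, hence (Maschke) by `0` on the regular
representation, so `z = 0`. -/
theorem irr_complete {G : Type} [Group G] [Finite G] {f : G → ℂ} (hf : IsCF f)
    (h : ∀ χ ∈ Irr G, ip f χ = 0) : f = 0 := by
  have : Fintype G := Fintype.ofFinite G
  classical
  let ρ : Representation ℂ G (G → ℂ) :=
    { toFun := fun g => LinearMap.funLeft ℂ ℂ (fun x => g⁻¹ * x)
      map_one' := by
        ext v x
        simp [LinearMap.funLeft]
      map_mul' := fun g k => by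
        ext v x
        simp [LinearMap.funLeft, mul_assoc] }
  have h1 := r03_all hf h _ (G → ℂ) ρ rfl
  have h2 : r03T f ρ (Pi.single 1 1) = 0 := by
    rw [h1]
    rfl
  rw [r03T_apply] at h2
  funext g
  have h3 := congrFun h2 g
  rw [Finset.sum_apply, Finset.sum_eq_single g] at h3
  · have h4 : ρ g (Pi.single 1 1) g = (1 : ℂ) := by
      show (Pi.single (1 : G) (1 : ℂ) : G → ℂ) (g⁻¹ * g) = 1
      rw [inv_mul_cancel, Pi.single_eq_same]
    rw [Pi.smul_apply, h4, smul_eq_mul, mul_one] at h3
    simpa using h3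
  · intro x _ hx
    have h4 : ρ x (Pi.single 1 1) g = (0 : ℂ) := by
      show (Pi.single (1 : G) (1 : ℂ) : G → ℂ) (x⁻¹ * g) = 0
      rw [Pi.single_eq_of_ne]
      intro h5
      exact hx (inv_mul_eq_one.mp h5)
    rw [Pi.smul_apply, h4, smul_zero]
  · intro hg
    exact absurd (Finset.mem_univ g) hg

/-- HINT: an orthonormal family is linearly independent, and `G → ℂ` is finite dimensional. -/
theorem irr_finite (G : Type) [Group G] [Finite G] : (Irr G).Finite := by
  classical
  have : Fintype G := Fintype.ofFinite G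
  have hli : LinearIndependent ℂ (fun χ : Irr G => (χ : G → ℂ)) := by
    rw [linearIndependent_iff']
    intro s a ha i hi
    have h1 : ip (∑ j ∈ s, a j • (j : G → ℂ)) (i : G → ℂ) = ∑ j ∈ s, a j * ip (j : G → ℂ) i := by
      simp only [r03_ip_eq, Finset.sum_apply, Pi.smul_apply, smul_eq_mul]
      simp_rw [Finset.sum_mul]
      rw [Finset.sum_comm, Finset.mul_sum]
      refine Finset.sum_congr rfl fun j _ => ?_
      rw [Finset.mul_sum, Finset.mul_sum, Finset.mul_sum]
      refine Finset.sum_congr rfl fun x _ => ?_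
      ring
    rw [ha] at h1
    have h2 : ip (0 : G → ℂ) (i : G → ℂ) = 0 := by
      rw [r03_ip_eq]
      simp
    rw [h2, Finset.sum_eq_single i] at h1
    · rw [ip_irr i.2 i.2, if_pos rfl, mul_one] at h1
      exact h1.symm
    · intro j _ hj
      rw [ip_irr j.2 i.2, if_neg (fun he => hj (Subtype.ext he)), mul_zero]
    · intro hi'
      exact absurd hi hi'
  exact hli.setFinite

end Pool.Agent.Lib.MP_fa0f6c_al.Cx
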