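import Pool.Agent.Lib.MP_fa0f6c_al.Cx.Defs
import Pool.Agent.Lib.MP_fa0f6c_al.Cx.R03

set_option autoImplicit false

namespace Pool.Agent.Lib.MP_fa0f6c_al.Cx

open scoped ComplexConjugate

private theorem ip_eq {G : Type} [Fintype G] (f g : G → ℂ) :
    ip f g = (Nat.card G : ℂ)⁻¹ * ∑ x, f x * conj (g x) := by
  rw [ip, finsum_eq_sum_of_fintype]

/-- sesquilinearity of `ip` -/
theorem ip_add_left {G : Type} [Finite G] (f g h : G → ℂ) : ip (f + g) h = ip f h + ip g h := by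
  have := Fintype.ofFinite G
  rw [ip_eq, ip_eq, ip_eq, ← mul_add, ← Finset.sum_add_distrib]
  congr 1
  exact Finset.sum_congr rfl fun x _ => by rw [Pi.add_apply, add_mul]

theorem ip_smul_left {G : Type} [Finite G] (c : ℂ) (f h : G → ℂ) : ip (c • f) h = c * ip f h := by
  have := Fintype.ofFinite G
  rw [ip_eq, ip_eq, mul_left_comm, Finset.mul_sum _ _ c]
  congr 1
  exact Finset.sum_congr rfl fun x _ => by rw [Pi.smul_apply, smul_eq_mul, mul_assoc]

theorem ip_conj_symm {G : Type} [Finite G] (f h : G → ℂ) : ip h f = conj (ip f h) := by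
  have := Fintype.ofFinite G
  rw [ip_eq, ip_eq, map_mul, map_inv₀, Complex.conj_natCast, map_sum]
  congr 1
  exact Finset.sum_congr rfl fun x _ => by rw [map_mul, Complex.conj_conj, mul_comm]

private theorem ip_sum_left {G : Type} [Finite G] {ι : Type} (s : Finset ι) (F : ι → G → ℂ)
    (h : G → ℂ) : ip (∑ i ∈ s, F i) h = ∑ i ∈ s, ip (F i) h := by
  classical
  induction s using Finset.induction_on with
  | empty =>
    have := Fintype.ofFinite G
    rw [ip_eq]
    simp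
  | insert a s ha ih => rw [Finset.sum_insert ha, Finset.sum_insert ha, ip_add_left, ih]

/-- Expansion of a class function. HINT: `f - ∑ ..` is a class function orthogonal to `Irr G`. -/
theorem cf_expand {G : Type} [Group G] [Finite G] {f : G → ℂ} (hf : IsCF f) (x : G) :
    f x = ∑ χ ∈ (irr_finite G).toFinset, ip f χ * χ x := by
  classical
  set g : G → ℂ := f + (-1 : ℂ) • ∑ χ ∈ (irr_finite G).toFinset, ip f χ • χ with hg
  have hgx : ∀ y, g y = f y - ∑ χ ∈ (irr_finite G).toFinset, ip f χ * χ y := by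
    intro y
    simp only [hg, Pi.add_apply, Pi.smul_apply, Finset.sum_apply, smul_eq_mul]
    ring
  have hcf : IsCF g := by
    intro a b
    rw [hgx, hgx, hf a b]
    congr 1
    refine Finset.sum_congr rfl fun χ hχ => ?_
    rw [irr_cf ((irr_finite G).mem_toFinset.1 hχ) a b]
  have h0 : ∀ ψ ∈ Irr G, ip g ψ = 0 := by
    intro ψ hψ
    rw [hg, ip_add_left, ip_smul_left, ip_sum_left]
    rw [Finset.sum_eq_single ψ]
    · rw [ip_smul_left, ip_irr hψ hψ, if_pos rfl]
      ring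
    · intro χ hχ hne
      rw [ip_smul_left, ip_irr ((irr_finite G).mem_toFinset.1 hχ) hψ, if_neg hne, mul_zero]
    · intro h
      exact absurd ((irr_finite G).mem_toFinset.2 hψ) h
  have h1 := congrFun (irr_complete hcf h0) x
  rw [hgx] at h1
  exact sub_eq_zero.1 h1

theorem cf_parseval {G : Type} [Group G] [Finite G] {f g : G → ℂ} (hf : IsCF f) (hg : IsCF g) :
    ip f g = ∑ χ ∈ (irr_finite G).toFinset, ip f χ * conj (ip g χ) := by
  have _ := hg
  have h1 : f = ∑ χ ∈ (irr_finite G).toFinset, ip f χ • χ := by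
    funext x
    rw [cf_expand hf x, Finset.sum_apply]
    rfl
  conv_lhs => rw [h1]
  rw [ip_sum_left]
  refine Finset.sum_congr rfl fun χ _ => ?_
  rw [ip_smul_left, ip_conj_symm g χ]

/-- Values of a character. -/
theorem isNat_deg {G : Type} [Group G] [Finite G] {f : G → ℂ} (hf : IsNat f) :
    ∃ n : ℕ, f 1 = n := by
  classical
  have h1 : ∀ χ : G → ℂ, ∃ n : ℕ, χ ∈ Irr G → ip f χ * χ 1 = n := by
    intro χ
    by_cases h : χ ∈ Irr G
    · obtain ⟨n, hn⟩ := hf.2 χ h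
      obtain ⟨m, _, hm⟩ := irr_deg h
      exact ⟨n * m, fun _ => by rw [hn, hm]; push_cast; ring⟩
    · exact ⟨0, fun h' => absurd h' h⟩
  choose N hN using h1
  refine ⟨∑ χ ∈ (irr_finite G).toFinset, N χ, ?_⟩
  rw [cf_expand hf.1 1]
  push_cast
  exact Finset.sum_congr rfl fun χ hχ => hN χ ((irr_finite G).mem_toFinset.1 hχ)

theorem isNat_ip {G : Type} [Group G] [Finite G] {f g : G → ℂ} (hf : IsNat f) (hg : IsNat g) :
    ∃ n : ℕ, ip f g = n := by
  classical
  have h1 : ∀ χ : G → ℂ, ∃ n : ℕ, χ ∈ Irr G → ip f χ * conj (ip g χ) = n := by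
    intro χ
    by_cases h : χ ∈ Irr G
    · obtain ⟨n, hn⟩ := hf.2 χ h
      obtain ⟨m, hm⟩ := hg.2 χ h
      exact ⟨n * m, fun _ => by rw [hn, hm, Complex.conj_natCast]; push_cast; ring⟩
    · exact ⟨0, fun h' => absurd h' h⟩
  choose N hN using h1
  refine ⟨∑ χ ∈ (irr_finite G).toFinset, N χ, ?_⟩
  rw [cf_parseval hf.1 hg.1]
  push_cast
  exact Finset.sum_congr rfl fun χ hχ => hN χ ((irr_finite G).mem_toFinset.1 hχ)

theorem isNat_add {G : Type} [Group G] [Finite G] {f g : G → ℂ} (hf : IsNat f) (hg : IsNat g) :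
    IsNat (f + g) := by
  refine ⟨fun x y => by rw [Pi.add_apply, Pi.add_apply, hf.1 x y, hg.1 x y], fun χ hχ => ?_⟩
  obtain ⟨n, hn⟩ := hf.2 χ hχ
  obtain ⟨m, hm⟩ := hg.2 χ hχ
  exact ⟨n + m, by rw [ip_add_left, hn, hm]; push_cast; ring⟩

private theorem isNat_zero' {G : Type} [Group G] [Finite G] : IsNat (0 : G → ℂ) := by
  refine ⟨fun x y => rfl, fun χ _ => ⟨0, ?_⟩⟩
  have := Fintype.ofFinite G
  rw [ip_eq]
  simp

theorem isNat_sum {G ι : Type} [Group G] [Finite G] (s : Finset ι) (f : ι → G → ℂ)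
    (hf : ∀ i ∈ s, IsNat (f i)) : IsNat (fun x => ∑ i ∈ s, f i x) := by
  classical
  induction s using Finset.induction_on with
  | empty =>
    have h : (fun x : G => ∑ i ∈ (∅ : Finset ι), f i x) = 0 := by
      funext x
      simp
    rw [h]
    exact isNat_zero'
  | insert a s ha ih =>
    have h : (fun x : G => ∑ i ∈ insert a s, f i x) = f a + fun x => ∑ i ∈ s, f i x := by
      funext x
      rw [Finset.sum_insert ha, Pi.add_apply]
    rw [h]
    exact isNat_add (hf a (Finset.mem_insert_self a s))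
      (ih fun i hi => hf i (Finset.mem_insert_of_mem hi))

theorem isNat_nsmul {G : Type} [Group G] [Finite G] {f : G → ℂ} (hf : IsNat f) (n : ℕ) :
    IsNat (fun x => n * f x) := by
  refine ⟨fun x y => by simp only [hf.1 x y], fun χ hχ => ?_⟩
  obtain ⟨m, hm⟩ := hf.2 χ hχ
  refine ⟨n * m, ?_⟩
  have h : (fun x => (n : ℂ) * f x) = (n : ℂ) • f := by
    funext x
    simp
  rw [h, ip_smul_left, hm]
  push_cast
  ring

theorem isNat_irr {G : Type} [Group G] [Finite G] {χ : G → ℂ} (h : χ ∈ Irr G) : IsNat χ := by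
  classical
  refine ⟨irr_cf h, fun ψ hψ => ?_⟩
  by_cases h1 : χ = ψ
  · exact ⟨1, by rw [ip_irr h hψ, if_pos h1]; simp⟩
  · exact ⟨0, by rw [ip_irr h hψ, if_neg h1]; simp⟩

/-- a nonzero character has an irreducible constituent -/
theorem isNat_exists {G : Type} [Group G] [Finite G] {f : G → ℂ} (hf : IsNat f) (h0 : f ≠ 0) :
    ∃ χ ∈ Irr G, ip f χ ≠ 0 := by
  by_contra hcon
  push Not at hcon
  exact h0 (irr_complete hf.1 hcon)

theorem isNat_eq_zero {G : Type} [Group G] [Finite G] {f : G → ℂ} (hf : IsNat f) (h0 : f 1 = 0) :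
    f = 0 := by
  classical
  have h1 : ∀ χ : G → ℂ, ∃ n m : ℕ, χ ∈ Irr G → ip f χ = n ∧ 0 < m ∧ χ 1 = m := by
    intro χ
    by_cases h : χ ∈ Irr G
    · obtain ⟨n, hn⟩ := hf.2 χ h
      obtain ⟨m, hm0, hm⟩ := irr_deg h
      exact ⟨n, m, fun _ => ⟨hn, hm0, hm⟩⟩
    · exact ⟨0, 0, fun h' => absurd h' h⟩
  choose N M hNM using h1
  have h2 : ((∑ χ ∈ (irr_finite G).toFinset, N χ * M χ : ℕ) : ℂ) = 0 := by
    rw [← h0, cf_expand hf.1 1]
    push_cast
    refine Finset.sum_congr rfl fun χ hχ => ?_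
    obtain ⟨a, _, b⟩ := hNM χ ((irr_finite G).mem_toFinset.1 hχ)
    rw [a, b]
  have h3 : ∑ χ ∈ (irr_finite G).toFinset, N χ * M χ = 0 := by exact_mod_cast h2
  refine irr_complete hf.1 fun χ hχ => ?_
  obtain ⟨a, b, _⟩ := hNM χ hχ
  have h4 := (Finset.sum_eq_zero_iff.1 h3) χ ((irr_finite G).mem_toFinset.2 hχ)
  rcases Nat.mul_eq_zero.1 h4 with h | h
  · rw [a, h, Nat.cast_zero]
  · omega

/-- `f = χ + rest` with `rest` a character, when `ip f χ ≠ 0`. -/
theorem isNat_sub {G : Type} [Group G] [Finite G] {f : G → ℂ} (hf : IsNat f) {χ : G → ℂ}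
    (h : χ ∈ Irr G) (h0 : ip f χ ≠ 0) : IsNat (f - χ) := by
  classical
  refine ⟨fun x y => by rw [Pi.sub_apply, Pi.sub_apply, hf.1 x y, irr_cf h x y], fun ψ hψ => ?_⟩
  have h1 : f - χ = f + (-1 : ℂ) • χ := by
    funext x
    simp [sub_eq_add_neg]
  obtain ⟨n, hn⟩ := hf.2 ψ hψ
  rw [h1, ip_add_left, ip_smul_left, hn, ip_irr h hψ]
  by_cases h2 : χ = ψ
  · subst h2
    have hn0 : n ≠ 0 := by
      rintro rfl
      rw [hn, Nat.cast_zero] at h0
      exact h0 rfl
    refine ⟨n - 1, ?_⟩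
    rw [if_pos rfl, Nat.cast_sub (Nat.one_le_iff_ne_zero.2 hn0)]
    push_cast
    ring
  · exact ⟨n, by rw [if_neg h2]; ring⟩

end Pool.Agent.Lib.MP_fa0f6c_al.Cx
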