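import Pool.Agent.Lib.MP_fa0f6c_al.Cx.Defs
import Pool.Agent.Lib.MP_fa0f6c_al.Cx.R04

set_option autoImplicit false

namespace Pool.Agent.Lib.MP_fa0f6c_al.Cx

open scoped ComplexConjugate

/-- the expansion of a character with natural coefficients -/
private theorem R05_expand {G : Type} [Group G] [Finite G] {f : G → ℂ} (hf : IsNat f) :
    ∃ n : (G → ℂ) → ℕ, ∀ x, f x = ∑ χ ∈ (irr_finite G).toFinset, (n χ : ℂ) * χ x := by
  classical
  choose! n hn using hf.2
  refine ⟨n, fun x => ?_⟩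
  rw [cf_expand hf.1 x]
  refine Finset.sum_congr rfl fun χ hχ => ?_
  rw [hn χ (by simpa using hχ)]

/-- Restriction along a homomorphism. HINT: `f = ∑ n_χ χ` (`cf_expand`), and for `χ ∈ Irr G` coming
from `ρ`, `χ ∘ φ` is the character of `ρ.comp φ`, so `rep_isNat`. -/
theorem isNat_comp {G H : Type} [Group G] [Finite G] [Group H] [Finite H] (φ : H →* G)
    {f : G → ℂ} (hf : IsNat f) : IsNat (fun x => f (φ x)) := by
  obtain ⟨n, hn⟩ := R05_expand hf
  have h1 : (fun x => f (φ x)) =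
      fun x => ∑ χ ∈ (irr_finite G).toFinset, (fun y => (n χ : ℂ) * χ (φ y)) x := by
    funext x
    exact hn (φ x)
  rw [h1]
  refine isNat_sum _ (fun χ y => (n χ : ℂ) * χ (φ y)) fun χ hχ => ?_
  have hχ' : χ ∈ Irr G := by simpa using hχ
  refine isNat_nsmul (f := fun y => χ (φ y)) ?_ (n χ)
  obtain ⟨m, ρ, -, rfl⟩ := hχ'
  exact rep_isNat (ρ.comp φ : Representation ℂ H (Fin m → ℂ))

/-- Product of characters. HINT: `Representation.char_tensor` and `rep_isNat`; then expansions. -/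
theorem isNat_mul {G : Type} [Group G] [Finite G] {f g : G → ℂ} (hf : IsNat f) (hg : IsNat g) :
    IsNat (fun x => f x * g x) := by
  obtain ⟨n, hn⟩ := R05_expand hf
  obtain ⟨m, hm⟩ := R05_expand hg
  have h1 : (fun x => f x * g x) = fun x => ∑ χ ∈ (irr_finite G).toFinset,
      (fun y => ∑ ψ ∈ (irr_finite G).toFinset,
        (fun z => ((n χ * m ψ : ℕ) : ℂ) * (χ z * ψ z)) y) x := by
    funext x
    simp only
    rw [hn x, hm x, Finset.sum_mul_sum]
    refine Finset.sum_congr rfl fun χ _ => Finset.sum_congr rfl fun ψ _ => ?_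
    push_cast
    ring
  rw [h1]
  refine isNat_sum _ (fun χ y => ∑ ψ ∈ (irr_finite G).toFinset,
        (fun z => ((n χ * m ψ : ℕ) : ℂ) * (χ z * ψ z)) y) fun χ hχ => ?_
  refine isNat_sum _ (fun ψ z => ((n χ * m ψ : ℕ) : ℂ) * (χ z * ψ z)) fun ψ hψ => ?_
  refine isNat_nsmul (f := fun z => χ z * ψ z) ?_ (n χ * m ψ)
  have hχ' : χ ∈ Irr G := by simpa using hχ
  have hψ' : ψ ∈ Irr G := by simpa using hψ
  obtain ⟨a, ρ, -, rfl⟩ := hχ'
  obtain ⟨b, σ, -, rfl⟩ := hψ'
  have h2 := rep_isNat (Representation.tprod ρ σ)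
  rw [Representation.char_tensor] at h2
  exact h2

/-- Complex conjugate of a character. HINT: dual representation, `Representation.char_dual`, `irr_inv`. -/
theorem isNat_conj {G : Type} [Group G] [Finite G] {f : G → ℂ} (hf : IsNat f) :
    IsNat (fun x => conj (f x)) := by
  obtain ⟨n, hn⟩ := R05_expand hf
  have h1 : (fun x => conj (f x)) =
      fun x => ∑ χ ∈ (irr_finite G).toFinset, (fun y => (n χ : ℂ) * conj (χ y)) x := by
    funext x
    rw [hn x, map_sum]
    simp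
  rw [h1]
  refine isNat_sum _ (fun χ y => (n χ : ℂ) * conj (χ y)) fun χ hχ => ?_
  have hχ' : χ ∈ Irr G := by simpa using hχ
  refine isNat_nsmul (f := fun y => conj (χ y)) ?_ (n χ)
  have h3 : (fun y => conj (χ y)) = fun y => χ y⁻¹ := by
    funext y
    rw [irr_inv hχ']
  rw [h3]
  obtain ⟨m, ρ, -, rfl⟩ := hχ'
  have h2 := rep_isNat ρ.dual
  have h4 : (ρ.dual.character : G → ℂ) = fun y => ρ.character y⁻¹ := by
    funext y
    exact Representation.char_dual ρ y
  rw [h4] at h2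
  exact h2

/-- Norm one characters are irreducible. HINT: Parseval: `1 = ∑ z_χ ^ 2` with integers `z_χ`. -/
theorem irr_of_norm_one {G : Type} [Group G] [Finite G] {f : G → ℂ} (hf : IsCF f)
    (hz : ∀ χ ∈ Irr G, ∃ z : ℤ, ip f χ = z) (h1 : ip f f = 1) (hpos : 0 < (f 1).re) :
    f ∈ Irr G := by
  classical
  choose! z hz using hz
  set s := (irr_finite G).toFinset with hs
  have hmem : ∀ χ ∈ s, χ ∈ Irr G := fun χ hχ => by simpa [hs] using hχ
  have hexp : ∀ x, f x = ∑ χ ∈ s, (z χ : ℂ) * χ x := by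
    intro x
    rw [cf_expand hf x]
    refine Finset.sum_congr rfl fun χ hχ => ?_
    rw [hz χ (hmem χ hχ)]
  have hpar : ∑ χ ∈ s, (z χ) ^ 2 = 1 := by
    have h2 := cf_parseval hf hf
    rw [h1] at h2
    have h3 : (∑ χ ∈ s, ip f χ * conj (ip f χ)) = ((∑ χ ∈ s, (z χ) ^ 2 : ℤ) : ℂ) := by
      push_cast
      refine Finset.sum_congr rfl fun χ hχ => ?_
      rw [hz χ (hmem χ hχ)]
      simp [sq]
    have h4 : ((1 : ℤ) : ℂ) = ((∑ χ ∈ s, (z χ) ^ 2 : ℤ) : ℂ) := by
      rw [← h3]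
      simpa using h2
    exact_mod_cast h4.symm
  -- there is a nonzero coefficient
  have hex : ∃ χ ∈ s, z χ ≠ 0 := by
    by_contra hcon
    push Not at hcon
    have : ∑ χ ∈ s, (z χ) ^ 2 = 0 := Finset.sum_eq_zero fun χ hχ => by rw [hcon χ hχ]; simp
    omega
  obtain ⟨χ, hχ, hz0⟩ := hex
  have hsplit := Finset.add_sum_erase s (fun χ => (z χ) ^ 2) hχ
  have hnn : 0 ≤ ∑ ψ ∈ s.erase χ, (z ψ) ^ 2 := Finset.sum_nonneg fun _ _ => sq_nonneg _
  have hge : 1 ≤ (z χ) ^ 2 := by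
    have : 0 < (z χ) ^ 2 := by positivity
    omega
  have hrest : ∑ ψ ∈ s.erase χ, (z ψ) ^ 2 = 0 := by omega
  have hz1 : (z χ) ^ 2 = 1 := by omega
  have hzero : ∀ ψ ∈ s.erase χ, z ψ = 0 := by
    intro ψ hψ
    have := (Finset.sum_eq_zero_iff_of_nonneg (fun _ _ => sq_nonneg _)).1 hrest ψ hψ
    exact pow_eq_zero_iff (two_ne_zero) |>.1 this
  have hfx : ∀ x, f x = (z χ : ℂ) * χ x := by
    intro x
    rw [hexp x, ← Finset.add_sum_erase s _ hχ]
    rw [Finset.sum_eq_zero (s := s.erase χ), add_zero]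
    intro ψ hψ
    rw [hzero ψ hψ]
    simp
  obtain ⟨d, hd, hd1⟩ := irr_deg (hmem χ hχ)
  have hzχ : z χ = 1 := by
    rcases mul_self_eq_one_iff.1 (by rw [← sq]; exact hz1 : z χ * z χ = 1) with h | h
    · exact h
    · exfalso
      rw [hfx 1, h, hd1] at hpos
      simp at hpos
      have : (0 : ℝ) < d := by exact_mod_cast hd
      linarith
  have : f = χ := by
    funext x
    rw [hfx x, hzχ]
    simp
  rw [this]
  exact hmem χ hχ

theorem irr_of_isNat {G : Type} [Group G] [Finite G] {f : G → ℂ} (hf : IsNat f)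
    (h1 : ip f f = 1) : f ∈ Irr G := by
  refine irr_of_norm_one hf.1 ?_ h1 ?_
  · intro χ hχ
    obtain ⟨n, hn⟩ := hf.2 χ hχ
    exact ⟨n, by rw [hn]; simp⟩
  · obtain ⟨n, hn⟩ := isNat_deg hf
    rw [hn]
    have hn0 : n ≠ 0 := by
      intro h0
      have h2 : f = 0 := isNat_eq_zero hf (by rw [hn, h0]; simp)
      rw [h2] at h1
      simp [ip] at h1
    have : 0 < n := Nat.pos_of_ne_zero hn0
    simp only [Complex.natCast_re]
    exact_mod_cast this

/-- `∑ χ(1)^2 = |G|`. HINT: expand the class function `|G|` at `1`, `0` elsewhere. -/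
theorem sum_deg_sq (G : Type) [Group G] [Finite G] :
    ∑ χ ∈ (irr_finite G).toFinset, (χ 1) ^ 2 = (Nat.card G : ℂ) := by
  classical
  have hcard : (Nat.card G : ℂ) ≠ 0 := by
    exact_mod_cast Nat.card_pos.ne'
  set d : G → ℂ := fun x => if x = 1 then (Nat.card G : ℂ) else 0 with hd
  have hcf : IsCF d := by
    intro x y
    have : x * y = 1 ↔ y * x = 1 := mul_eq_one_comm
    simp [hd, this]
  have hip : ∀ χ ∈ Irr G, ip d χ = χ 1 := by
    intro χ hχ
    obtain ⟨n, -, hn⟩ := irr_deg hχ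
    unfold ip
    rw [finsum_eq_single _ 1]
    · simp only [hd, if_true]
      rw [← mul_assoc, inv_mul_cancel₀ hcard, one_mul, hn]
      simp
    · intro x hx
      simp [hd, hx]
  have h := cf_expand hcf 1
  have h2 : d 1 = (Nat.card G : ℂ) := by simp [hd]
  rw [← h2, h]
  refine Finset.sum_congr rfl fun χ hχ => ?_
  rw [hip χ (by simpa using hχ)]
  ring

/-- natural number form -/
private theorem R05_sum_nat (G : Type) [Group G] [Finite G] :
    ∃ m : (G → ℂ) → ℕ, (∀ χ ∈ Irr G, 0 < m χ ∧ χ 1 = m χ) ∧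
      ∑ χ ∈ (irr_finite G).toFinset, (m χ) ^ 2 = Nat.card G := by
  have h : ∀ χ ∈ Irr G, ∃ n : ℕ, 0 < n ∧ χ 1 = n := fun χ hχ => irr_deg hχ
  choose! m hm using h
  refine ⟨m, hm, ?_⟩
  have h1 := sum_deg_sq G
  have h2 : ∑ χ ∈ (irr_finite G).toFinset, (χ 1) ^ 2 =
      ((∑ χ ∈ (irr_finite G).toFinset, (m χ) ^ 2 : ℕ) : ℂ) := by
    push_cast
    refine Finset.sum_congr rfl fun χ hχ => ?_
    rw [(hm χ (by simpa using hχ)).2]
  rw [h2] at h1
  exact_mod_cast h1

theorem irr_deg_sq_le {G : Type} [Group G] [Finite G] {χ : G → ℂ} (h : χ ∈ Irr G) (n : ℕ)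
    (hn : χ 1 = n) : n ^ 2 ≤ Nat.card G := by
  obtain ⟨m, hm, hsum⟩ := R05_sum_nat G
  have h1 : m χ = n := by
    have := (hm χ h).2
    rw [hn] at this
    exact_mod_cast this.symm
  rw [← hsum, ← h1]
  exact Finset.single_le_sum (f := fun χ => (m χ) ^ 2) (fun _ _ => Nat.zero_le _)
    (by simpa using h)

theorem irr_ncard_le (G : Type) [Group G] [Finite G] : (Irr G).ncard ≤ Nat.card G := by
  obtain ⟨m, hm, hsum⟩ := R05_sum_nat G
  rw [Set.ncard_eq_toFinset_card _ (irr_finite G), ← hsum, Finset.card_eq_sum_ones]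
  refine Finset.sum_le_sum fun χ hχ => ?_
  have := (hm χ (by simpa using hχ)).1
  exact Nat.one_le_pow _ _ this

end Pool.Agent.Lib.MP_fa0f6c_al.Cx
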