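import Pool.Agent.Lib.MP_fa0f6c_al.Cx.Defs
import Pool.Agent.Lib.MP_fa0f6c_al.Cx.R05

set_option autoImplicit false

namespace Pool.Agent.Lib.MP_fa0f6c_al.Cx

open scoped ComplexConjugate

open Classical in
/-- extension of a function on a subgroup by zero -/
private noncomputable def ext0 {G : Type} [Group G] (H : Subgroup G) (f : H → ℂ) (x : G) : ℂ :=
  if h : x ∈ H then f ⟨x, h⟩ else 0

private theorem ind_eq {G : Type} [Group G] [Fintype G] (H : Subgroup G) (f : H → ℂ) (g : G) :
    ind H f g = (Nat.card H : ℂ)⁻¹ * ∑ t : G, ext0 H f (t⁻¹ * g * t) := by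
  unfold ind
  rw [finsum_eq_sum_of_fintype]
  rfl

private theorem ip_eq' {G : Type} [Fintype G] (f g : G → ℂ) :
    ip f g = (Nat.card G : ℂ)⁻¹ * ∑ x, f x * conj (g x) := by
  rw [ip, finsum_eq_sum_of_fintype]

theorem ind_isCF {G : Type} [Group G] [Finite G] (H : Subgroup G) {f : H → ℂ} (hf : IsCF f) :
    IsCF (ind H f) := by
  have _ := hf
  have := Fintype.ofFinite G
  intro x y
  rw [ind_eq, ind_eq]
  congr 1
  -- `t⁻¹ x y t = (x⁻¹ t)⁻¹ (y x) (x⁻¹ t)`
  refine Fintype.sum_equiv (Equiv.mulLeft x⁻¹) _ _ fun t => ?_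
  congr 1
  simp only [Equiv.coe_mulLeft]
  group

private theorem sum_ext0 {G : Type} [Group G] [Fintype G] (H : Subgroup G) [Fintype H] (f : H → ℂ)
    (g : G → ℂ) : ∑ x : G, ext0 H f x * g x = ∑ h : H, f h * g h := by
  classical
  have h1 : ∀ x : G, ext0 H f x * g x = if h : x ∈ H then f ⟨x, h⟩ * g x else 0 := by
    intro x
    unfold ext0
    split_ifs <;> simp
  rw [Finset.sum_congr rfl fun x _ => h1 x]
  symm
  refine Finset.sum_bij_ne_zero (fun (h : H) _ _ => (h : G)) (fun _ _ _ => Finset.mem_univ _)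
    (fun a _ _ b _ _ hab => Subtype.ext hab) ?_ ?_
  · intro x _ hx
    by_cases h : x ∈ H
    · rw [dif_pos h] at hx
      exact ⟨⟨x, h⟩, Finset.mem_univ _, hx, rfl⟩
    · rw [dif_neg h] at hx
      exact absurd rfl hx
  · intro a _ _
    rw [dif_pos a.2]

/-- Frobenius reciprocity. HINT: exchange the two sums and substitute `g = t * h * t⁻¹`. -/
theorem frobenius {G : Type} [Group G] [Finite G] (H : Subgroup G) {f : H → ℂ}
    {g : G → ℂ} (hg : IsCF g) : ip (ind H f) g = ip f (fun h => g h) := by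
  classical
  have := Fintype.ofFinite G
  have := Fintype.ofFinite H
  have hG : (Nat.card G : ℂ) ≠ 0 := by
    exact_mod_cast Nat.card_pos.ne'
  rw [ip_eq', ip_eq']
  have h1 : ∀ t : G, ∑ x : G, ext0 H f (t⁻¹ * x * t) * conj (g x)
      = ∑ h : H, f h * conj (g h) := by
    intro t
    rw [← sum_ext0 H f (fun x => conj (g x))]
    refine Fintype.sum_equiv (MulAut.conj t⁻¹).toEquiv _ _ fun x => ?_
    have h2 : g (t⁻¹ * x * t) = g x := by
      rw [hg (t⁻¹ * x) t, ← mul_assoc, mul_inv_cancel, one_mul]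
    have h3 : (MulAut.conj t⁻¹).toEquiv x = t⁻¹ * x * t := by
      simp
    rw [h3, h2]
  have h4 : ∑ x : G, ind H f x * conj (g x)
      = (Nat.card H : ℂ)⁻¹ * ((Nat.card G : ℂ) * ∑ h : H, f h * conj (g h)) := by
    calc ∑ x : G, ind H f x * conj (g x)
        = ∑ x : G, ∑ t : G, (Nat.card H : ℂ)⁻¹ * (ext0 H f (t⁻¹ * x * t) * conj (g x)) := by
          refine Finset.sum_congr rfl fun x _ => ?_
          rw [ind_eq, mul_assoc, Finset.sum_mul, Finset.mul_sum]
      _ = ∑ t : G, (Nat.card H : ℂ)⁻¹ * ∑ x : G, ext0 H f (t⁻¹ * x * t) * conj (g x) := by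
          rw [Finset.sum_comm]
          exact Finset.sum_congr rfl fun t _ => by rw [Finset.mul_sum]
      _ = ∑ _t : G, (Nat.card H : ℂ)⁻¹ * ∑ h : H, f h * conj (g h) :=
          Finset.sum_congr rfl fun t _ => by rw [h1 t]
      _ = _ := by
          rw [Finset.sum_const, Finset.card_univ, nsmul_eq_mul, ← Nat.card_eq_fintype_card]
          ring
  rw [h4]
  field_simp

theorem isNat_ind {G : Type} [Group G] [Finite G] (H : Subgroup G) {f : H → ℂ} (hf : IsNat f) :
    IsNat (ind H f) := by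
  refine ⟨ind_isCF H hf.1, fun χ hχ => ?_⟩
  rw [frobenius H (irr_cf hχ)]
  exact isNat_ip hf (isNat_comp H.subtype (isNat_irr hχ))

theorem ind_one {G : Type} [Group G] [Finite G] (H : Subgroup G) (f : H → ℂ) :
    ind H f 1 = H.index * f 1 := by
  have := Fintype.ofFinite G
  have hH : (Nat.card H : ℂ) ≠ 0 := by
    exact_mod_cast Nat.card_pos.ne'
  have h1 : ∀ t : G, ext0 H f (t⁻¹ * 1 * t) = f 1 := by
    intro t
    rw [mul_one, inv_mul_cancel]
    unfold ext0
    rw [dif_pos H.one_mem]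
    rfl
  rw [ind_eq, Finset.sum_congr rfl fun t _ => h1 t, Finset.sum_const, Finset.card_univ,
    nsmul_eq_mul, ← Nat.card_eq_fintype_card, ← H.card_mul_index]
  push_cast
  field_simp

/-- every irreducible character of a subgroup is a constituent of the restriction of an irreducible
character of the group -/
theorem exists_over {G : Type} [Group G] [Finite G] (H : Subgroup G) {θ : H → ℂ} (h : θ ∈ Irr H) :
    ∃ χ ∈ Irr G, ip (fun h : H => χ h) θ ≠ 0 := by
  have hI : IsNat (ind H θ) := isNat_ind H (isNat_irr h)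
  have h0 : ind H θ ≠ 0 := by
    intro h0
    have h1 := congrFun h0 1
    rw [ind_one, Pi.zero_apply] at h1
    obtain ⟨n, hn0, hn⟩ := irr_deg h
    rw [hn] at h1
    rcases mul_eq_zero.1 h1 with h2 | h2
    · exact H.index_ne_zero_of_finite (by exact_mod_cast h2)
    · have : n = 0 := by exact_mod_cast h2
      omega
  obtain ⟨χ, hχ, hne⟩ := isNat_exists hI h0
  refine ⟨χ, hχ, ?_⟩
  rw [frobenius H (irr_cf hχ)] at hne
  intro h3
  apply hne
  rw [ip_conj_symm (fun h : H => χ h) θ, h3, map_zero]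

end Pool.Agent.Lib.MP_fa0f6c_al.Cx
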