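import Pool.Agent.Lib.MP_fa0f6c_al.Cx.Defs
import Pool.Agent.Lib.MP_fa0f6c_al.Cx.R06

set_option autoImplicit false

namespace Pool.Agent.Lib.MP_fa0f6c_al.Cx

open scoped ComplexConjugate

private theorem R17_ip_equiv {K L : Type} (e : K ≃ L) (f g : L → ℂ) :
    ip (fun x => f (e x)) (fun x => g (e x)) = ip f g := by
  unfold ip
  rw [Nat.card_congr e]
  congr 1
  exact finsum_comp_equiv e (f := fun x => f x * conj (g x))

private theorem R17_ip_sum {G ι : Type} [Finite G] (s : Finset ι) (f : ι → G → ℂ) (g : G → ℂ) :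
    ip (fun x => ∑ i ∈ s, f i x) g = ∑ i ∈ s, ip (f i) g := by
  classical
  have := Fintype.ofFinite G
  unfold ip
  simp only [finsum_eq_sum_of_fintype]
  rw [← Finset.mul_sum, Finset.sum_comm]
  congr 1
  exact Finset.sum_congr rfl fun x _ => Finset.sum_mul _ _ _

/-- the conjugate of a function on a normal subgroup -/
private def R17_cj {H : Type} [Group H] (K : Subgroup H) (hK : K.Normal) (κ : K → ℂ) (h : H) :
    K → ℂ := fun x => κ ⟨h * x * h⁻¹, hK.conj_mem x x.2 h⟩

private theorem R17_cj_eq {H : Type} [Group H] (K : Subgroup H) (hK : K.Normal) (κ : K → ℂ) (h : H) :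
    R17_cj K hK κ h = fun x => κ (MulAut.conjNormal h x) := by
  funext x
  unfold R17_cj
  congr 1

private theorem R17_cj_irr {H : Type} [Group H] [Finite H] (K : Subgroup H) (hK : K.Normal)
    {κ : K → ℂ} (hκ : κ ∈ Irr K) (h : H) : R17_cj K hK κ h ∈ Irr K := by
  classical
  rw [R17_cj_eq]
  apply irr_of_isNat
  · exact isNat_comp ((MulAut.conjNormal h : MulAut K) : K →* K) (isNat_irr hκ)
  · have h1 : ip κ κ = 1 := by rw [ip_irr hκ hκ, if_pos rfl]
    exact (R17_ip_equiv (MulAut.conjNormal h : MulAut K).toEquiv κ κ).trans h1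

private theorem R17_ip_cj {H : Type} [Group H] (K : Subgroup H) (hK : K.Normal)
    (f g : K → ℂ) (h : H) : ip (R17_cj K hK f h) (R17_cj K hK g h) = ip f g := by
  rw [R17_cj_eq, R17_cj_eq]
  exact R17_ip_equiv (MulAut.conjNormal h : MulAut K).toEquiv f g

private theorem R17_cj_mul {H : Type} [Group H] (K : Subgroup H) (hK : K.Normal)
    (f : K → ℂ) (g h : H) (x : K) :
    R17_cj K hK (R17_cj K hK f g) h x = R17_cj K hK f (g * h) x := by
  unfold R17_cj
  congr 1
  apply Subtype.ext
  simp only [mul_inv_rev, mul_assoc]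

/-- Clifford's theorem in character form: on a normal subgroup `K` an irreducible character `θ` of `H`
is a multiple of the average of the conjugates of any irreducible constituent `κ`.
HINT: Let `F x = ∑ h, κ (h x h⁻¹)` on `K`; it is a combination of conjugates of `κ` (each conjugate
`κ^h` is in `Irr K` by `irr_congr`-type transport along the automorphism). The multiplicities
`ip (θ|K) κ^h` do not depend on `h`. If `κ'` is another constituent of `θ|K`, then `θ` is a constituent of both
`ind κ` and `ind κ'`; the restriction of `ind κ` to `K` is `(1/|K|) ∑ h, κ^h` (`K` normal), which contains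
`θ|K`, hence `κ'`, so `κ'` is a conjugate of `κ`. Thus `θ|K = c F`; evaluate at `1`. -/
theorem clifford_avg {H : Type} [Group H] [Finite H] (K : Subgroup H) (hK : K.Normal)
    {θ : H → ℂ} (hθ : θ ∈ Irr H) {κ : K → ℂ} (hκ : κ ∈ Irr K)
    (h0 : ip (fun k : K => θ k) κ ≠ 0) (x : K) :
    κ 1 * Nat.card H * θ x =
      θ 1 * ∑ᶠ h : H, κ ⟨h * x * h⁻¹, hK.conj_mem x x.2 h⟩ := by
  classical
  have hfin := Fintype.ofFinite H
  have hfinK := Fintype.ofFinite K
  -- the restriction of `θ`
  set T : K → ℂ := fun k : K => θ k with hT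
  have hTnat : IsNat T := isNat_comp K.subtype (isNat_irr hθ)
  have hTinv : ∀ g : H, R17_cj K hK T g = T := by
    intro g
    funext y
    have h1 := irr_cf hθ g (y * g⁻¹)
    have h2 : g * (y : H) * g⁻¹ = g * ((y : H) * g⁻¹) := by group
    have h3 : (y : H) * g⁻¹ * g = y := by group
    show θ (g * y * g⁻¹) = θ y
    rw [h2, h1, h3]
  -- the sum of the conjugates
  set F : K → ℂ := fun y => ∑ h : H, R17_cj K hK κ h y with hF
  have hFcf : IsCF F := by
    intro y z
    refine Finset.sum_congr rfl fun h _ => ?_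
    exact irr_cf (R17_cj_irr K hK hκ h) y z
  have hFinv : ∀ g : H, R17_cj K hK F g = F := by
    intro g
    funext y
    show ∑ h : H, R17_cj K hK κ h ⟨g * y * g⁻¹, hK.conj_mem y y.2 g⟩ = ∑ h : H, R17_cj K hK κ h y
    have h1 : ∀ h : H, R17_cj K hK κ h ⟨g * y * g⁻¹, hK.conj_mem y y.2 g⟩
        = R17_cj K hK κ (h * g) y := fun h => R17_cj_mul K hK κ h g y
    rw [Finset.sum_congr rfl fun h _ => h1 h]
    exact Fintype.sum_equiv (Equiv.mulRight g) _ _ fun h => rfl
  have hFip : ∀ χ ∈ Irr K, ip F χ = ∑ h : H, if R17_cj K hK κ h = χ then (1 : ℂ) else 0 := by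
    intro χ hχ
    rw [hF, R17_ip_sum]
    refine Finset.sum_congr rfl fun h _ => ?_
    rw [ip_irr (R17_cj_irr K hK hκ h) hχ]
    congr
  have hind : ∀ y : K, ind K κ y = (Nat.card K : ℂ)⁻¹ * F y := by
    intro y
    unfold ind
    rw [finsum_eq_sum_of_fintype, hF]
    congr 1
    refine Fintype.sum_equiv (Equiv.inv H) _ _ fun t => ?_
    have ht : t⁻¹ * (y : H) * t ∈ K := by
      have := hK.conj_mem y y.2 t⁻¹
      rwa [inv_inv] at this
    rw [dif_pos ht]
    show κ _ = κ _
    congr 1
    apply Subtype.ext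
    simp only [Equiv.inv_apply, inv_inv]
  -- constituents of `T` are conjugates of `κ`
  have hb : ∀ χ ∈ Irr K, ip T χ ≠ 0 → ∃ g : H, R17_cj K hK κ g = χ := by
    intro χ hχ hne
    by_contra hcon
    push Not at hcon
    have hF0 : ip F χ = 0 := by
      rw [hFip χ hχ]
      exact Finset.sum_eq_zero fun h _ => if_neg (hcon h)
    have hI : IsNat (ind K κ) := isNat_ind K (isNat_irr hκ)
    have hIθ : ip (ind K κ) θ ≠ 0 := by
      rw [frobenius K (irr_cf hθ), ip_conj_symm]
      intro h
      exact h0 ((map_eq_zero _).1 h)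
    have hR : IsNat (ind K κ - θ) := isNat_sub hI hθ hIθ
    have hRK : IsNat (fun k : K => (ind K κ - θ) k) := isNat_comp K.subtype hR
    obtain ⟨a, ha⟩ := hRK.2 χ hχ
    obtain ⟨b, hb⟩ := hTnat.2 χ hχ
    have hsum : ip (fun k : K => ind K κ k) χ = (a : ℂ) + b := by
      rw [← ha, ← hb, ← ip_add_left]
      congr 1
      funext k
      simp [hT]
    have hsum0 : ip (fun k : K => ind K κ k) χ = 0 := by
      have h1 : (fun k : K => ind K κ k) = (Nat.card K : ℂ)⁻¹ • F := by
        funext k
        rw [hind]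
        simp
      rw [h1, ip_smul_left, hF0, mul_zero]
    rw [hsum0] at hsum
    have h2 : a + b = 0 := by exact_mod_cast hsum.symm
    apply hne
    rw [hb]
    have : b = 0 := by omega
    rw [this, Nat.cast_zero]
  -- the main identity
  set e := ip T κ with he
  set n := ip F κ with hn
  have hmain : (n • T + (-e) • F : K → ℂ) = 0 := by
    apply irr_complete
    · intro y z
      simp only [Pi.add_apply, Pi.smul_apply]
      rw [hTnat.1 y z, hFcf y z]
    · intro χ hχ
      rw [ip_add_left, ip_smul_left, ip_smul_left]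
      by_cases hg : ∃ g : H, R17_cj K hK κ g = χ
      · obtain ⟨g, rfl⟩ := hg
        have h1 : ip T (R17_cj K hK κ g) = e := by
          rw [he, ← R17_ip_cj K hK T κ g, hTinv g]
        have h2 : ip F (R17_cj K hK κ g) = n := by
          rw [hn, ← R17_ip_cj K hK F κ g, hFinv g]
        rw [h1, h2]
        ring
      · have h1 : ip T χ = 0 := by
          by_contra hne
          exact hg (hb χ hχ hne)
        have h2 : ip F χ = 0 := by
          rw [hFip χ hχ]
          exact Finset.sum_eq_zero fun h _ => if_neg fun hh => hg ⟨h, hh⟩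
        rw [h1, h2]
        ring
  have hpt : ∀ y : K, n * T y = e * F y := by
    intro y
    have := congrFun hmain y
    simp only [Pi.add_apply, Pi.smul_apply, smul_eq_mul, Pi.zero_apply] at this
    linear_combination this
  have hF1 : F 1 = Nat.card H * κ 1 := by
    rw [hF]
    show ∑ h : H, R17_cj K hK κ h 1 = _
    have h1 : ∀ h : H, R17_cj K hK κ h 1 = κ 1 := by
      intro h
      unfold R17_cj
      congr 1
      apply Subtype.ext
      simp
    rw [Finset.sum_congr rfl fun h _ => h1 h, Finset.sum_const, Finset.card_univ, nsmul_eq_mul,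
      Nat.card_eq_fintype_card]
  have hT1 : T 1 = θ 1 := rfl
  have h1 := hpt 1
  rw [hF1, hT1] at h1
  have hκ1 : κ 1 ≠ 0 := by
    obtain ⟨m, hm, hm1⟩ := irr_deg hκ
    rw [hm1]
    exact_mod_cast hm.ne'
  have hcard : (Nat.card H : ℂ) ≠ 0 := by
    exact_mod_cast Nat.card_pos.ne'
  have hn0 : n ≠ 0 := by
    intro h
    rw [h, zero_mul] at h1
    exact (mul_ne_zero h0 (mul_ne_zero hcard hκ1)) h1.symm
  have h2 := hpt x
  have h3 : ∑ᶠ h : H, κ ⟨h * x * h⁻¹, hK.conj_mem x x.2 h⟩ = F x := by
    rw [finsum_eq_sum_of_fintype]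
    rfl
  rw [h3]
  have h4 : n * e ≠ 0 := mul_ne_zero hn0 h0
  apply mul_left_cancel₀ h4
  have h5 : T x = θ x := rfl
  rw [← h5]
  linear_combination (e * κ 1 * Nat.card H) * h2 - (e * F x) * h1

/-- degrees divide in towers: not needed in general, only positivity of multiplicities:
some irreducible constituent of the restriction. -/
theorem exists_constituent {H : Type} [Group H] [Finite H] (K : Subgroup H) {θ : H → ℂ}
    (hθ : θ ∈ Irr H) : ∃ κ ∈ Irr K, ip (fun k : K => θ k) κ ≠ 0 := by
  apply isNat_exists (isNat_comp K.subtype (isNat_irr hθ))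
  intro h
  obtain ⟨m, hm, hm1⟩ := irr_deg hθ
  have h1 := congrFun h 1
  have h2 : θ 1 = 0 := h1
  rw [hm1] at h2
  exact hm.ne' (by exact_mod_cast h2)

end Pool.Agent.Lib.MP_fa0f6c_al.Cx
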