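import Pool.Agent.Lib.MP_fa0f6c_al.Cx.A04
import Pool.Agent.Lib.MP_fa0f6c_al.Cx.R17

set_option autoImplicit false

namespace Pool.Agent.Lib.MP_fa0f6c_al.Cx

open scoped ComplexConjugate

/-- Two stages which are conjugate under a unit `u`. -/
def Stage.Conj {R : Type} [Ring R] (s t : Stage R) : Prop :=
  ∃ u : Rˣ, (∀ x : R, x ∈ s.I ↔ (↑u * x * ↑u⁻¹ : R) ∈ t.I) ∧
    ∀ x ∈ s.I, t.m (↑u * x * ↑u⁻¹) = s.m x

private theorem A05_conj_sub {R : Type} [Ring R] (u n : Rˣ) :
    ((u * n * u⁻¹ : Rˣ) : R) - 1 = ↑u * ((n : R) - 1) * ↑u⁻¹ := by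
  push_cast
  rw [mul_sub, sub_mul, mul_one, Units.mul_inv]

private theorem A05_mem_N {R : Type} [Ring R] (s : Stage R) (n : Rˣ) :
    n ∈ s.N ↔ (n : R) - 1 ∈ s.I := mem_oneAddGroup s.ideal n

theorem conj_over {R : Type} [Ring R] [Finite R] {s t : Stage R} (h : s.Conj t) {χ : Rˣ → ℂ}
    (hχ : χ ∈ Irr Rˣ) : s.Over χ ↔ t.Over χ := by
  obtain ⟨u, hu, hm⟩ := h
  have hmem : ∀ n : Rˣ, n ∈ s.N ↔ u * n * u⁻¹ ∈ t.N := by
    intro n
    rw [A05_mem_N, A05_mem_N, A05_conj_sub, hu]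
  let c : s.N → t.N := fun n => ⟨u * n * u⁻¹, (hmem n).1 n.2⟩
  have hc : Function.Bijective c := by
    constructor
    · intro a b hab
      have h1 : u * (a : Rˣ) * u⁻¹ = u * (b : Rˣ) * u⁻¹ := congrArg Subtype.val hab
      exact Subtype.ext (mul_left_cancel (mul_right_cancel h1))
    · intro b
      refine ⟨⟨u⁻¹ * b * u, ?_⟩, ?_⟩
      · rw [hmem]
        have h1 : u * (u⁻¹ * (b : Rˣ) * u) * u⁻¹ = b := by group
        rw [h1]
        exact b.2
      · apply Subtype.ext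
        change u * (u⁻¹ * (b : Rˣ) * u) * u⁻¹ = b
        group
  have hcf : ∀ n : Rˣ, χ (u * n * u⁻¹) = χ n := by
    intro n
    rw [irr_cf hχ (u * n) u⁻¹, ← mul_assoc, inv_mul_cancel, one_mul]
  have hmu : ∀ n : s.N, t.mu (c n) = s.mu n := by
    intro n
    change t.m (((u * (n : Rˣ) * u⁻¹ : Rˣ) : R) - 1) = s.m (((n : Rˣ) : R) - 1)
    rw [A05_conj_sub]
    exact hm _ ((A05_mem_N s n).1 n.2)
  have heq : mult s.N s.mu χ = mult t.N t.mu χ := by
    unfold mult ip
    rw [Nat.card_congr (Equiv.ofBijective c hc)]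
    congr 1
    refine finsum_eq_of_bijective c hc fun n => ?_
    change χ n * conj (s.mu n) = χ (u * (n : Rˣ) * u⁻¹) * conj (t.mu (c n))
    rw [hcf, hmu n]
  unfold Stage.Over
  rw [heq]

/-! ### expansion of multiplicities -/

private theorem A05_mult_sub {G : Type} [Group G] [Finite G] (N H : Subgroup G) (hNH : N ≤ H)
    (m f : G → ℂ) :
    mult (N.subgroupOf H) (fun h : H => m h) (fun h : H => f h) = mult N m f := by
  unfold mult ip
  have h1 : Nat.card (N.subgroupOf H) = Nat.card N :=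
    Nat.card_congr (Subgroup.subgroupOfEquivOfLe hNH).toEquiv
  rw [h1]
  congr 1
  exact finsum_eq_of_bijective (Subgroup.subgroupOfEquivOfLe hNH)
    (Subgroup.subgroupOfEquivOfLe hNH).bijective (fun x => rfl)

private theorem A05_mult_expand {G : Type} [Group G] [Finite G] (N : Subgroup G) (m f : G → ℂ)
    (hf : IsCF f) :
    mult N m f = ∑ χ ∈ (irr_finite G).toFinset, ip f χ * mult N m χ := by
  classical
  have : Fintype N := Fintype.ofFinite N
  have h1 : ∀ g : G → ℂ, mult N m g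
      = (Nat.card N : ℂ)⁻¹ * ∑ x : N, g x * conj (m x) := fun g => by
    rw [mult, ip, finsum_eq_sum_of_fintype]
  rw [h1]
  simp_rw [h1]
  have h2 : ∀ x : N, f x * conj (m x)
      = ∑ χ ∈ (irr_finite G).toFinset, ip f χ * (χ x * conj (m x)) := by
    intro x
    conv_lhs => rw [cf_expand hf (x : G)]
    rw [Finset.sum_mul]
    exact Finset.sum_congr rfl (fun χ _ => by ring)
  rw [Finset.sum_congr rfl (fun x _ => h2 x), Finset.sum_comm, Finset.mul_sum]
  refine Finset.sum_congr rfl (fun χ _ => ?_)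
  rw [← Finset.mul_sum]
  ring

/-- a constituent of the restriction with nonzero multiplicity -/
private theorem A05_exists {G : Type} [Group G] [Finite G] (K H : Subgroup G) (hKH : K ≤ H)
    (m χ : G → ℂ) (hχ : IsCF χ) (h0 : mult K m χ ≠ 0) :
    ∃ ψ ∈ Irr H, ip (fun h : H => χ h) ψ ≠ 0 ∧
      mult (K.subgroupOf H) (fun h : H => m h) ψ ≠ 0 := by
  rw [← A05_mult_sub K H hKH m χ] at h0
  rw [A05_mult_expand (K.subgroupOf H) (fun h : H => m h) (fun h : H => χ h)
    (fun x y => hχ x y)] at h0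
  obtain ⟨ψ, hψ, hne⟩ := Finset.exists_ne_zero_of_sum_ne_zero h0
  rw [Set.Finite.mem_toFinset] at hψ
  exact ⟨ψ, hψ, left_ne_zero_of_mul hne, right_ne_zero_of_mul hne⟩

private theorem A05_lin {G : Type} [Group G] (N : Subgroup G) (m : G → ℂ) (hm : IsLin N m) :
    ∃ l : N →* ℂˣ, ∀ n : N, (l n : ℂ) = m n := by
  let f : N →* ℂ :=
    { toFun := fun n => m n
      map_one' := hm.1
      map_mul' := fun x y => hm.2 x x.2 y y.2 }
  exact ⟨f.toHomUnits, fun n => rfl⟩

private theorem A05_lin_irr {G : Type} [Group G] [Finite G] (N : Subgroup G) (m : G → ℂ)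
    (hm : IsLin N m) : (fun n : N => m n) ∈ Irr N := by
  obtain ⟨l, hl⟩ := A05_lin N m hm
  have h1 : (fun n : N => m n) = fun n : N => (l n : ℂ) := funext fun n => (hl n).symm
  rw [h1]
  exact lin_irr l

/-- from the bigger group to the smaller group -/
private theorem A05_down {G : Type} [Group G] [Finite G] (N K : Subgroup G) (hNK : N ≤ K)
    (m m' : G → ℂ) (hm' : IsLin K m') (hext : ∀ x ∈ N, m' x = m x) {f : G → ℂ} (hf : IsNat f)
    (h0 : mult K m' f ≠ 0) : mult N m f ≠ 0 := by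
  have hm : IsLin N m := by
    refine ⟨by rw [← hext 1 N.one_mem]; exact hm'.1, fun x hx y hy => ?_⟩
    rw [← hext _ (N.mul_mem hx hy), ← hext _ hx, ← hext _ hy]
    exact hm'.2 x (hNK hx) y (hNK hy)
  have h1 : IsNat ((fun k : K => f k) - fun k : K => m' k) :=
    isNat_sub (isNat_comp K.subtype hf) (A05_lin_irr K m' hm') h0
  have h2 := isNat_comp (Subgroup.inclusion hNK) h1
  obtain ⟨k, hk⟩ := isNat_ip h2 (isNat_irr (A05_lin_irr N m hm))
  have h3 : (fun n : N => f n) = (fun n : N => ((fun k : K => f k) - fun k : K => m' k)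
      (Subgroup.inclusion hNK n)) + fun n : N => m n := by
    funext n
    simp only [Pi.add_apply, Pi.sub_apply, Subgroup.coe_inclusion]
    rw [hext n n.2]
    ring
  have h4 : mult N m f = k + 1 := by
    unfold mult
    rw [h3, ip_add_left, hk, ip_irr (A05_lin_irr N m hm) (A05_lin_irr N m hm), if_pos rfl]
  rw [h4]
  exact_mod_cast Nat.succ_ne_zero k

private theorem A05_isLin_sub {G : Type} [Group G] (N H : Subgroup G) (m : G → ℂ)
    (hm : IsLin N m) : IsLin (N.subgroupOf H) (fun h : H => m h) := by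
  refine ⟨hm.1, ?_⟩
  intro x hx y hy
  exact hm.2 x hx y hy

private theorem A05_N_eq {R : Type} [Ring R] {s t : Stage R} (h : s.IsStep t) :
    t.N = oneAddGroup s.E t.I h.ideal := by
  ext n
  rw [A05_mem_N, mem_oneAddGroup]

/-- the character of `s.H` below `χ` contains `t.mu` -/
private theorem A05_below {R : Type} [Ring R] [Finite R] {s t : Stage R} (h : s.IsStep t)
    {χ : Rˣ → ℂ} (hχ : χ ∈ Irr Rˣ) (ho : t.Over χ) :
    ∃ ψ ∈ IrrOver (s.N.subgroupOf s.H) (fun h : s.H => s.mu h), ind s.H ψ = χ ∧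
      mult (t.N.subgroupOf s.H) (fun h : s.H => t.mu h) ψ ≠ 0 := by
  have hNle : s.N ≤ t.N := by
    intro n hn
    rw [A05_mem_N] at hn ⊢
    exact h.le hn
  have hle : t.N ≤ s.H := by
    rw [A05_N_eq h]
    exact oneAddGroup_le h.ideal
  obtain ⟨ψ, hψ, ha, hb⟩ := A05_exists t.N s.H hle t.mu χ (irr_cf hχ) ho
  have hover : ψ ∈ IrrOver (s.N.subgroupOf s.H) (fun h : s.H => s.mu h) := by
    refine ⟨hψ, ?_⟩
    refine A05_down (s.N.subgroupOf s.H) (t.N.subgroupOf s.H) (fun x hx => hNle hx)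
      (fun h : s.H => s.mu h) (fun h : s.H => t.mu h) (A05_isLin_sub _ _ _ t.isLin) ?_
      (isNat_irr hψ) hb
    intro x hx
    have hx' : ((x : Rˣ) : R) - 1 ∈ s.I := (A05_mem_N s x).1 hx
    exact h.ext _ hx'
  have hirr := (s.bij.mapsTo hover).1
  refine ⟨ψ, hover, ?_, hb⟩
  have h1 : ip (ind s.H ψ) χ ≠ 0 := by
    rw [frobenius s.H (irr_cf hχ), ip_conj_symm (fun h : s.H => χ h) ψ]
    intro h2
    apply ha
    have := congrArg conj h2
    simpa using this
  rw [ip_irr hirr hχ] at h1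
  by_contra hne
  exact h1 (if_neg hne)

/-- Two linear characters of a normal subgroup in the same irreducible character are conjugate. -/
private theorem A05_conj_lin {H : Type} [Group H] [Finite H] (K : Subgroup H) (hK : K.Normal)
    {θ : H → ℂ} (hθ : θ ∈ Irr H) (m m' : H → ℂ) (hm : IsLin K m) (hm' : IsLin K m')
    (h0 : mult K m θ ≠ 0) (h0' : mult K m' θ ≠ 0) :
    ∃ g : H, ∀ x ∈ K, m (g * x * g⁻¹) = m' x := by
  classical
  have := Fintype.ofFinite H
  have := Fintype.ofFinite K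
  obtain ⟨l, hl⟩ := A05_lin K m hm
  have hκ := A05_lin_irr K m hm
  have hκ' := A05_lin_irr K m' hm'
  -- the conjugates
  have hcj : ∀ g : H, (fun x : K => m (g * x * g⁻¹)) ∈ Irr K := by
    intro g
    have h1 : (fun x : K => m (g * x * g⁻¹)) =
        fun x : K => ((l.comp ((MulAut.conjNormal g : MulAut K) : K →* K)) x : ℂ) := by
      funext x
      rw [MonoidHom.comp_apply, hl]
      rfl
    rw [h1]
    exact lin_irr _
  by_contra hcon
  push Not at hcon
  have h2 : ∀ g : H, ip (fun x : K => m (g * x * g⁻¹)) (fun x : K => m' x) = 0 := by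
    intro g
    rw [ip_irr (hcj g) hκ', if_neg]
    intro h3
    obtain ⟨x, hx, hne⟩ := hcon g
    exact hne (congrFun h3 ⟨x, hx⟩)
  have h3 : ∀ x : K, (Nat.card H : ℂ) * θ x = θ 1 * ∑ g : H, m (g * x * g⁻¹) := by
    intro x
    have h4 := clifford_avg K hK hθ hκ h0 x
    rw [finsum_eq_sum_of_fintype] at h4
    have h5 : m ((1 : K) : H) = 1 := hm.1
    rw [h5, one_mul] at h4
    exact h4
  apply h0'
  have h4 : (Nat.card H : ℂ) * mult K m' θ = 0 := by
    unfold mult
    calc (Nat.card H : ℂ) * ip (fun n : K => θ n) (fun n : K => m' n)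
        = ip ((Nat.card H : ℂ) • fun n : K => θ n) (fun n : K => m' n) := (ip_smul_left _ _ _).symm
      _ = ip (θ 1 • fun x : K => ∑ g : H, m (g * x * g⁻¹)) (fun n : K => m' n) := by
          congr 1
          funext x
          simp only [Pi.smul_apply, smul_eq_mul]
          exact h3 x
      _ = θ 1 * ip (fun x : K => ∑ g : H, m (g * x * g⁻¹)) (fun n : K => m' n) :=
          ip_smul_left _ _ _
      _ = θ 1 * ∑ g : H, ip (fun x : K => m (g * x * g⁻¹)) (fun n : K => m' n) := by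
          congr 1
          unfold ip
          simp only [finsum_eq_sum_of_fintype]
          rw [← Finset.mul_sum, Finset.sum_comm]
          congr 1
          exact Finset.sum_congr rfl fun x _ => Finset.sum_mul _ _ _
      _ = 0 := by
          rw [Finset.sum_congr rfl fun g _ => h2 g]
          simp
  have hcard : (Nat.card H : ℂ) ≠ 0 := by
    exact_mod_cast Nat.card_pos.ne'
  rcases mul_eq_zero.1 h4 with h5 | h5
  · exact absurd h5 hcard
  · exact h5

/-- Two children with the same ideal over which `χ` lies are conjugate (by a unit of `s.E`).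
PROOF: let `θ ∈ Irr s.H` over `s.mu` with `χ = ind θ` (`Stage.bij`). `t.mu` occurs in `χ` restricted to `K = 1 + I'`; the
constituents of the restriction of `χ` to `s.H` over `s.mu` are only `θ` (`clifford_bij`, injectivity), so `t.mu`
occurs in `θ|_K`, similarly `t'.mu`. `K` is normal in `s.H`; by `clifford_avg` (applied to `θ` and the linear
character `t.mu` of `K`) all constituents of `θ|_K` are conjugates of `t.mu` under `s.H`. -/
theorem step_conj {R : Type} [Ring R] [Finite R] {s t t' : Stage R} (h : s.IsStep t)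
    (h' : s.IsStep t') (hI : t.I = t'.I) {χ : Rˣ → ℂ} (hχ : χ ∈ Irr Rˣ) (ho : t.Over χ)
    (ho' : t'.Over χ) : t.Conj t' := by
  have hNN : t'.N = t.N := by
    ext n
    rw [A05_mem_N, A05_mem_N, hI]
  obtain ⟨ψ, hψ, hi, hm⟩ := A05_below h hχ ho
  obtain ⟨ψ', hψ', hi', hm'⟩ := A05_below h' hχ ho'
  have hpp : ψ = ψ' := s.bij.injOn hψ hψ' (hi.trans hi'.symm)
  subst hpp
  rw [hNN] at hm'
  have hlin' : IsLin t.N t'.mu := by
    rw [← hNN]
    exact t'.isLin
  have hKn : (t.N.subgroupOf s.H).Normal := by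
    refine ⟨fun n hn g => ?_⟩
    rw [Subgroup.mem_subgroupOf] at hn ⊢
    rw [A05_N_eq h] at hn ⊢
    exact oneAddGroup_conj h.ideal g g.2 n hn
  obtain ⟨g, hg⟩ := A05_conj_lin (t.N.subgroupOf s.H) hKn hψ.1 _ _
    (A05_isLin_sub t.N s.H t.mu t.isLin) (A05_isLin_sub t.N s.H t'.mu hlin') hm hm'
  have hgE : ((g : Rˣ) : R) ∈ s.E := g.2.1
  have hgE' : (((g : Rˣ)⁻¹ : Rˣ) : R) ∈ s.E := g.2.2
  refine ⟨(g : Rˣ)⁻¹, ?_, ?_⟩
  · intro x
    rw [inv_inv, ← hI]
    constructor
    · intro hx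
      exact h.ideal.mulR _ hgE _ (h.ideal.mulL _ hgE' _ hx)
    · intro hx
      have h1 := h.ideal.mulR _ hgE' _ (h.ideal.mulL _ hgE _ hx)
      have h2 : ((g : Rˣ) : R) * ((((g : Rˣ)⁻¹ : Rˣ) : R) * x * ((g : Rˣ) : R)) *
          (((g : Rˣ)⁻¹ : Rˣ) : R) = x := by
        rw [mul_assoc, mul_assoc, Units.mul_inv, mul_one, ← mul_assoc, Units.mul_inv, one_mul]
      rwa [h2] at h1
  · intro x hx
    obtain ⟨w, hw, hwx⟩ := exists_unit h.ideal hx
    have hy : (g : Rˣ)⁻¹ * w * (g : Rˣ) ∈ t.N := by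
      rw [A05_N_eq h]
      have := oneAddGroup_conj h.ideal (g : Rˣ)⁻¹ (s.H.inv_mem g.2) w hw
      rwa [inv_inv] at this
    have hyH : (g : Rˣ)⁻¹ * w * (g : Rˣ) ∈ s.H := by
      have : t.N ≤ s.H := by
        rw [A05_N_eq h]
        exact oneAddGroup_le h.ideal
      exact this hy
    have h1 := hg ⟨_, hyH⟩ hy
    have h2 : t.m (((g : Rˣ) * ((g : Rˣ)⁻¹ * w * (g : Rˣ)) * (g : Rˣ)⁻¹ : Rˣ) - 1) =
        t'.m (((g : Rˣ)⁻¹ * w * (g : Rˣ) : Rˣ) - 1) := h1
    have h3 : (g : Rˣ) * ((g : Rˣ)⁻¹ * w * (g : Rˣ)) * (g : Rˣ)⁻¹ = w := by group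
    rw [h3, hwx, add_sub_cancel_left] at h2
    rw [h2]
    have h4 := A05_conj_sub (g : Rˣ)⁻¹ w
    rw [inv_inv, hwx, add_sub_cancel_left] at h4
    rw [inv_inv, ← h4]

end Pool.Agent.Lib.MP_fa0f6c_al.Cx
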