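import Pool.Agent.Lib.MP_fa0f6c_al.Cx.A05

set_option autoImplicit false

namespace Pool.Agent.Lib.MP_fa0f6c_al.Cx

private theorem a06_card_lt {R : Type} [Ring R] [Finite R] {I K : Submodule ℤ R} (h : I ≤ K)
    (hne : K ≠ I) : Nat.card R - Nat.card K < Nat.card R - Nat.card I := by
  have hlt : (I : Set R) ⊂ (K : Set R) := by
    refine ⟨h, fun h' => hne (le_antisymm h' h)⟩
  have h1 : Nat.card I < Nat.card K := by
    have := Set.ncard_lt_ncard hlt (Set.toFinite _)
    rw [← Nat.card_coe_set_eq, ← Nat.card_coe_set_eq] at this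
    exact this
  have h2 : Nat.card K ≤ Nat.card R := Nat.card_le_card_of_injective _ Subtype.val_injective
  omega

private theorem a06_exists_terminal {R : Type} [Ring R] [Finite R] (n : ℕ) :
    ∀ s : Stage R, Nat.card R - Nat.card s.I = n → ∃ t : Stage R, s.Reach t ∧ t.Terminal := by
  induction n using Nat.strong_induction_on with
  | _ n ih =>
    intro s hs
    by_cases ht : s.Terminal
    · exact ⟨s, Relation.ReflTransGen.refl, ht⟩
    · unfold Stage.Terminal at ht
      push Not at ht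
      obtain ⟨t, hst, hne⟩ := ht
      have hlt := a06_card_lt hst.le hne
      rw [hs] at hlt
      obtain ⟨u, hu, hu'⟩ := ih _ hlt t rfl
      exact ⟨u, Relation.ReflTransGen.head hst hu, hu'⟩

/-- Every stage reaches a terminal one. HINT: a proper step strictly increases `I`; `R` is finite. -/
theorem exists_terminal {R : Type} [Ring R] [Finite R] (s : Stage R) :
    ∃ t : Stage R, s.Reach t ∧ t.Terminal := a06_exists_terminal _ s rfl

/-- Two stages with the same ideal, ring and the same homomorphism on the ideal. -/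
private structure A06Eqv {R : Type} [Ring R] (s t : Stage R) : Prop where
  I : t.I = s.I
  E : t.E = s.E
  m : ∀ x ∈ s.I, t.m x = s.m x

private theorem a06_eqv_symm {R : Type} [Ring R] {s t : Stage R} (h : A06Eqv s t) :
    A06Eqv t s := ⟨h.I.symm, h.E.symm, fun x hx => (h.m x (h.I ▸ hx)).symm⟩

private theorem a06_eqv_trans {R : Type} [Ring R] {s t u : Stage R} (h : A06Eqv s t)
    (h' : A06Eqv t u) : A06Eqv s u :=
  ⟨h'.I.trans h.I, h'.E.trans h.E, fun x hx => (h'.m x (h.I.symm ▸ hx)).trans (h.m x hx)⟩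

private theorem a06_eqv_step {R : Type} [Ring R] {s t u : Stage R} (h : A06Eqv s t)
    (hu : t.IsStep u) : s.IsStep u where
  ideal := h.E ▸ hu.ideal
  le := h.I ▸ hu.le
  sq := fun x hx y hy => h.I ▸ hu.sq x hx y hy
  comm := fun x hx y hy => by
    rw [← h.m _ (h.I ▸ hu.sq x hx y hy), ← h.m _ (h.I ▸ hu.sq y hy x hx)]
    exact hu.comm x hx y hy
  ext := fun x hx => by rw [hu.ext x (h.I.symm ▸ hx), h.m x hx]
  stab := fun f => by rw [hu.stab f, h.E]

private theorem a06_eqv_of_improper {R : Type} [Ring R] {s t : Stage R} (h : s.IsStep t)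
    (hI : t.I = s.I) : A06Eqv s t where
  I := hI
  E := by
    ext f
    rw [h.stab f]
    constructor
    · exact fun hf => hf.1
    · intro hf
      refine ⟨hf, fun x hx => ?_⟩
      rw [hI] at hx
      rw [h.ext _ (s.ideal.mulL f hf x hx), h.ext _ (s.ideal.mulR f hf x hx)]
      exact s.sym f hf x hx
  m := h.ext

private theorem a06_eqv_terminal {R : Type} [Ring R] {s t : Stage R} (h : A06Eqv s t)
    (ht : t.Terminal) : s.Terminal := fun u hu => by
  rw [ht u (a06_eqv_step (a06_eqv_symm h) hu), h.I]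

private theorem a06_eqv_conj {R : Type} [Ring R] {s t : Stage R} (h : A06Eqv s t) : s.Conj t :=
  ⟨1, fun x => by simp [h.I], fun x hx => by simpa using h.m x hx⟩

private theorem a06_reach_terminal {R : Type} [Ring R] {s t : Stage R} (h : s.Reach t)
    (hs : s.Terminal) : A06Eqv s t := by
  unfold Stage.Reach at h
  induction h with
  | refl => exact ⟨rfl, rfl, fun _ _ => rfl⟩
  | tail _ hstep ih =>
    have h1 := a06_eqv_step ih hstep
    exact a06_eqv_of_improper h1 (hs _ h1)

private theorem a06_first {R : Type} [Ring R] {s t : Stage R} (h : s.Reach t)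
    (ht : t.Terminal) (hs : ¬ s.Terminal) :
    ∃ t₁ : Stage R, s.IsStep t₁ ∧ t₁.I ≠ s.I ∧ t₁.Reach t := by
  unfold Stage.Reach at h
  induction h using Relation.ReflTransGen.head_induction_on with
  | refl => exact absurd ht hs
  | head hstep hrest ih =>
    rename_i a c
    by_cases hI : c.I = a.I
    · have he := a06_eqv_of_improper hstep hI
      have hc : ¬ c.Terminal := fun hc => hs (a06_eqv_terminal he hc)
      obtain ⟨t₁, h1, h2, h3⟩ := ih hc
      exact ⟨t₁, a06_eqv_step he h1, by rw [← hI]; exact h2, h3⟩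
    · exact ⟨c, hstep, hI, hrest⟩

private theorem a06_partition {R : Type} [Ring R] [Finite R] (n : ℕ) :
    ∀ s t₀ : Stage R, Nat.card R - Nat.card s.I = n → s.Reach t₀ → t₀.Terminal →
    ∃ F : Set (Stage R), F.Finite ∧ t₀ ∈ F ∧ (∀ ν ∈ F, s.Reach ν ∧ ν.Terminal) ∧
      ∀ χ ∈ Irr Rˣ, s.Over χ → ∃! ν, ν ∈ F ∧ ν.Over χ := by
  classical
  induction n using Nat.strong_induction_on with
  | _ n ih =>
    intro s t₀ hn h ht
    by_cases hs : s.Terminal
    · refine ⟨{t₀}, Set.finite_singleton _, rfl, ?_, ?_⟩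
      · intro ν hν
        rw [Set.mem_singleton_iff] at hν
        rw [hν]
        exact ⟨h, ht⟩
      · intro χ hχ ho
        refine ⟨t₀, ⟨rfl, (conj_over (a06_eqv_conj (a06_reach_terminal h hs)) hχ).1 ho⟩, ?_⟩
        rintro ν ⟨hν, _⟩
        exact hν
    · obtain ⟨t₁, h1, hne, h3⟩ := a06_first h ht hs
      have hleg : Legal s t₁.I := ⟨h1.ideal, h1.le, h1.sq, h1.comm⟩
      -- a child for each character
      have hc : ∀ χ : {χ : Rˣ → ℂ // χ ∈ Irr Rˣ ∧ s.Over χ},
          ∃ t : Stage R, s.IsStep t ∧ t.I = t₁.I ∧ t.Over χ.1 := fun χ =>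
        exists_step hleg χ.2.1 χ.2.2
      choose c hc1 hc2 hc3 using hc
      -- two children over a common character are over the same characters
      have key : ∀ t t' : Stage R, s.IsStep t → s.IsStep t' → t.I = t₁.I → t'.I = t₁.I →
          ∀ χ ∈ Irr Rˣ, t.Over χ → t'.Over χ → ∀ χ' ∈ Irr Rˣ, t.Over χ' → t'.Over χ' := by
        intro t t' hst hst' hI hI' χ hχ ho ho' χ' hχ' ho''
        exact (conj_over (step_conj hst hst' (hI.trans hI'.symm) hχ ho ho') hχ').1 ho''
      let S : Setoid {χ : Rˣ → ℂ // χ ∈ Irr Rˣ ∧ s.Over χ} :=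
        { r := fun χ χ' => ∃ t : Stage R, s.IsStep t ∧ t.I = t₁.I ∧ t.Over χ.1 ∧ t.Over χ'.1
          iseqv := by
            refine ⟨fun χ => ⟨c χ, hc1 χ, hc2 χ, hc3 χ, hc3 χ⟩, ?_, ?_⟩
            · rintro χ χ' ⟨t, a, b, d, e⟩
              exact ⟨t, a, b, e, d⟩
            · rintro χ χ' χ'' ⟨t, a, b, d, e⟩ ⟨t', a', b', d', e'⟩
              exact ⟨t', a', b', key t t' a a' b b' χ'.1 χ'.2.1 e d' χ.1 χ.2.1 d, e'⟩ }
      let g : {χ : Rˣ → ℂ // χ ∈ Irr Rˣ ∧ s.Over χ} → Stage R := fun χ =>
        if t₁.Over χ.1 then t₁ else c (Quotient.out (Quotient.mk S χ))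
      have hrep : ∀ χ, S.r (Quotient.out (Quotient.mk S χ)) χ := fun χ => Quotient.mk_out χ
      have hg1 : ∀ χ, s.IsStep (g χ) := by
        intro χ
        by_cases h' : t₁.Over χ.1
        · simp only [g, if_pos h']; exact h1
        · simp only [g, if_neg h']; exact hc1 _
      have hg2 : ∀ χ, (g χ).I = t₁.I := by
        intro χ
        by_cases h' : t₁.Over χ.1
        · simp only [g, if_pos h']
        · simp only [g, if_neg h']; exact hc2 _
      have hg3 : ∀ χ, (g χ).Over χ.1 := by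
        intro χ
        by_cases h' : t₁.Over χ.1
        · simp only [g, if_pos h']; exact h'
        · simp only [g, if_neg h']
          obtain ⟨t, a, b, d, e⟩ := hrep χ
          exact key t _ a (hc1 _) b (hc2 _) _ (Quotient.out (Quotient.mk S χ)).2.1 d (hc3 _)
            _ χ.2.1 e
      have hg4 : ∀ χ χ', (g χ').Over χ.1 → g χ' = g χ := by
        intro χ χ' ho
        have hr : S.r χ' χ := ⟨g χ', hg1 _, hg2 _, hg3 _, ho⟩
        have hq : Quotient.mk S χ' = Quotient.mk S χ := Quotient.sound hr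
        have hiff : t₁.Over χ'.1 ↔ t₁.Over χ.1 := by
          constructor
          · intro h'
            exact key (g χ') t₁ (hg1 _) h1 (hg2 _) rfl _ χ'.2.1 (hg3 _) h' _ χ.2.1 ho
          · intro h'
            exact key (g χ') t₁ (hg1 _) h1 (hg2 _) rfl _ χ.2.1 ho h' _ χ'.2.1 (hg3 _)
        simp only [g, hq]
        by_cases h' : t₁.Over χ.1
        · rw [if_pos h', if_pos (hiff.2 h')]
        · rw [if_neg h', if_neg (fun h'' => h' (hiff.1 h''))]
      have hg5 : ∀ χ, t₁.Over χ.1 → g χ = t₁ := by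
        intro χ h'
        simp only [g, if_pos h']
      have : Finite {χ : Rˣ → ℂ // χ ∈ Irr Rˣ ∧ s.Over χ} :=
        ((irr_finite Rˣ).subset (fun χ hχ => hχ.1) :
          {χ : Rˣ → ℂ | χ ∈ Irr Rˣ ∧ s.Over χ}.Finite).to_subtype
      let C : Set (Stage R) := insert t₁ (Set.range g)
      have hCfin : C.Finite := (Set.finite_range g).insert _
      have hC1 : ∀ t ∈ C, s.IsStep t ∧ t.I = t₁.I := by
        intro t htC
        rcases htC with rfl | ⟨χ, rfl⟩
        · exact ⟨h1, rfl⟩
        · exact ⟨hg1 _, hg2 _⟩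
      have hC2 : ∀ t ∈ C, ∀ χ : {χ : Rˣ → ℂ // χ ∈ Irr Rˣ ∧ s.Over χ}, t.Over χ.1 → t = g χ := by
        intro t htC χ ho
        rcases htC with rfl | ⟨χ', rfl⟩
        · exact (hg5 χ ho).symm
        · exact hg4 _ _ ho
      -- a terminal stage for each child
      have hT : ∀ t : Stage R, ∃ u : Stage R, t.Reach u ∧ u.Terminal ∧ (t = t₁ → u = t₀) := by
        intro t
        by_cases h' : t = t₁
        · subst h'
          exact ⟨t₀, h3, ht, fun _ => rfl⟩
        · obtain ⟨u, hu, hu'⟩ := exists_terminal t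
          exact ⟨u, hu, hu', fun h'' => absurd h'' h'⟩
      choose T hT1 hT2 hT3 using hT
      have hF : ∀ t : C, ∃ F : Set (Stage R), F.Finite ∧ T t.1 ∈ F ∧
          (∀ ν ∈ F, t.1.Reach ν ∧ ν.Terminal) ∧
          ∀ χ ∈ Irr Rˣ, t.1.Over χ → ∃! ν, ν ∈ F ∧ ν.Over χ := by
        intro t
        have hst := hC1 t.1 t.2
        have hlt : Nat.card R - Nat.card t.1.I < n := by
          rw [← hn]
          exact a06_card_lt hst.1.le (by rw [hst.2]; exact hne)
        exact ih _ hlt t.1 (T t.1) rfl (hT1 _) (hT2 _)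
      choose F hF1 hF2 hF3 hF4 using hF
      have := hCfin.to_subtype
      refine ⟨⋃ t : C, F t, Set.finite_iUnion hF1, ?_, ?_, ?_⟩
      · rw [Set.mem_iUnion]
        refine ⟨⟨t₁, Set.mem_insert _ _⟩, ?_⟩
        have := hF2 ⟨t₁, Set.mem_insert _ _⟩
        rwa [hT3 t₁ rfl] at this
      · intro ν hν
        rw [Set.mem_iUnion] at hν
        obtain ⟨t, hν⟩ := hν
        exact ⟨Relation.ReflTransGen.head (hC1 t.1 t.2).1 (hF3 t ν hν).1, (hF3 t ν hν).2⟩
      · intro χ hχ ho
        have hgC : g ⟨χ, hχ, ho⟩ ∈ C := Set.mem_insert_of_mem _ ⟨_, rfl⟩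
        obtain ⟨ν, ⟨hν1, hν2⟩, hν3⟩ := hF4 ⟨g ⟨χ, hχ, ho⟩, hgC⟩ χ hχ (hg3 ⟨χ, hχ, ho⟩)
        refine ⟨ν, ⟨Set.mem_iUnion.2 ⟨_, hν1⟩, hν2⟩, ?_⟩
        rintro ν' ⟨hν', ho'⟩
        rw [Set.mem_iUnion] at hν'
        obtain ⟨t, hν'⟩ := hν'
        have hot : t.1.Over χ := (reach_mono (hF3 t ν' hν').1).2.2.2 χ hχ ho'
        have ht' : t = ⟨g ⟨χ, hχ, ho⟩, hgC⟩ := Subtype.ext (hC2 t.1 t.2 ⟨χ, hχ, ho⟩ hot)
        subst ht'
        exact hν3 ν' ⟨hν', ho'⟩

/-- The partition theorem. PROOF (blueprint 1.3): induction on `Nat.card R - Nat.card s.I`. If `t₀.I = s.I`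
along the whole path (`s` itself is terminal or all steps are improper) ... : if there is no proper step from
`s` take `F = {t₀}` (all reachable stages have `I = s.I`, `m = s.m` on `I` and the same `E`, so the same `Over`).
Otherwise let `s → t₁` be the first proper step on the path to `t₀` (if the path is improper then `t₀` is not
terminal), `I' = t₁.I`. Choose a finite set of children with the ideal `I'` (`exists_child`/`exists_step`) such that each `χ` over `s` is over
exactly one of them up to `Stage.Conj` (`step_conj`, `conj_over`): choose one child for each equivalence class of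
`{χ ∈ Irr | s.Over χ}` under `∃ child over which both lie`, taking `t₁` for its own class. Apply the induction
hypothesis to each child and take the union. (`over_of_step` for the last clause.)
An improper step changes nothing essential: same `I`, same `m` on `I`, same `E`. -/
theorem partition_stage {R : Type} [Ring R] [Finite R] (s t₀ : Stage R) (h : s.Reach t₀)
    (ht : t₀.Terminal) :
    ∃ F : Set (Stage R), F.Finite ∧ t₀ ∈ F ∧ (∀ ν ∈ F, s.Reach ν ∧ ν.Terminal) ∧
      ∀ χ ∈ Irr Rˣ, s.Over χ → ∃! ν, ν ∈ F ∧ ν.Over χ :=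
  a06_partition _ s t₀ rfl h ht

end Pool.Agent.Lib.MP_fa0f6c_al.Cx
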