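import Pool.Agent.Lib.MP_fa0f6c_al.Cx.A04

set_option autoImplicit false

namespace Pool.Agent.Lib.MP_fa0f6c_al.Cx

private theorem A07_pow_ideal {R : Type} [Ring R] {E : Subring R} {I : Submodule ℤ R}
    (h : IsNilIdeal E I) (k : ℕ) :
    (∀ f ∈ E, ∀ x ∈ I ^ (k + 1), f * x ∈ I ^ (k + 1)) ∧
    (∀ f ∈ E, ∀ x ∈ I ^ (k + 1), x * f ∈ I ^ (k + 1)) ∧ I ^ (k + 1) ≤ I := by
  induction k with
  | zero =>
    simp only [zero_add, pow_one]
    exact ⟨h.mulL, h.mulR, le_refl _⟩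
  | succ k ih =>
    obtain ⟨ihL, ihR, ihle⟩ := ih
    refine ⟨?_, ?_, ?_⟩
    · intro f hf x hx
      rw [pow_succ] at hx ⊢
      refine Submodule.mul_induction_on hx ?_ ?_
      · intro a ha b hb
        rw [← mul_assoc]
        exact Submodule.mul_mem_mul (ihL f hf a ha) hb
      · intro a b ha hb
        rw [mul_add]
        exact Submodule.add_mem _ ha hb
    · intro f hf x hx
      rw [pow_succ] at hx ⊢
      refine Submodule.mul_induction_on hx ?_ ?_
      · intro a ha b hb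
        rw [mul_assoc]
        exact Submodule.mul_mem_mul ha (h.mulR f hf b hb)
      · intro a b ha hb
        rw [add_mul]
        exact Submodule.add_mem _ ha hb
    · rw [pow_succ]
      refine Submodule.mul_le.2 ?_
      intro a ha b hb
      exact h.mulL a (h.le a (ihle ha)) b hb

private theorem A07_pow_anti {R : Type} [Ring R] {E : Subring R} {I : Submodule ℤ R}
    (h : IsNilIdeal E I) (k : ℕ) : I ^ (k + 2) ≤ I ^ (k + 1) := by
  rw [pow_succ I (k + 1)]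
  refine Submodule.mul_le.2 ?_
  intro a ha b hb
  exact (A07_pow_ideal h k).2.1 b (h.le b hb) a ha

private theorem A07_nil_of_le {R : Type} [Ring R] {I J : Submodule ℤ R} (hIJ : J ≤ I)
    (h : IsNilpotent I) : IsNilpotent J := by
  obtain ⟨n, hn⟩ := h
  refine ⟨n, ?_⟩
  have h1 : J ^ n ≤ I ^ n := pow_le_pow_left' hIJ n
  rw [hn] at h1
  exact le_antisymm h1 bot_le

private theorem A07_K {R : Type} [Ring R] (s : Stage R) (I' : Submodule ℤ R)
    (h : IsNilIdeal s.E I') (hle : s.I ≤ I') (k : ℕ) :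
    IsNilIdeal s.E (s.I ⊔ I' ^ (k + 1)) ∧ s.I ⊔ I' ^ (k + 1) ≤ I' ∧
    (∀ x ∈ s.I ⊔ I' ^ (k + 1), ∀ y ∈ s.I ⊔ I' ^ (k + 1), x * y ∈ s.I ⊔ I' ^ (k + 2)) := by
  obtain ⟨hL, hR, hpl⟩ := A07_pow_ideal h k
  have hKle : s.I ⊔ I' ^ (k + 1) ≤ I' := sup_le hle hpl
  refine ⟨⟨?_, ?_, ?_, ?_⟩, hKle, ?_⟩
  · intro x hx
    exact h.le x (hKle hx)
  · intro f hf x hx
    obtain ⟨a, ha, b, hb, rfl⟩ := Submodule.mem_sup.1 hx
    rw [mul_add]
    exact Submodule.add_mem_sup (s.ideal.mulL f hf a ha) (hL f hf b hb)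
  · intro f hf x hx
    obtain ⟨a, ha, b, hb, rfl⟩ := Submodule.mem_sup.1 hx
    rw [add_mul]
    exact Submodule.add_mem_sup (s.ideal.mulR f hf a ha) (hR f hf b hb)
  · exact A07_nil_of_le hKle h.nil
  · intro x hx y hy
    obtain ⟨a, ha, b, hb, rfl⟩ := Submodule.mem_sup.1 hx
    obtain ⟨c, hc, d, hd, rfl⟩ := Submodule.mem_sup.1 hy
    have hbI : b ∈ I' := hpl hb
    have hdI : d ∈ I' := hpl hd
    have hcE : c ∈ s.E := s.ideal.le c hc
    have hdE : d ∈ s.E := h.le d hdI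
    have hbE : b ∈ s.E := h.le b hbI
    have e : (a + b) * (c + d) = (a * (c + d) + b * c) + b * d := by noncomm_ring
    rw [e]
    refine Submodule.add_mem_sup ?_ ?_
    · exact Submodule.add_mem _ (s.ideal.mulR _ (s.E.add_mem hcE hdE) a ha)
        (s.ideal.mulL _ hbE c hc)
    · rw [pow_succ]
      exact Submodule.mul_mem_mul hb hdI

private theorem A07_main {R : Type} [Ring R] [Finite R] (s : Stage R) (I' : Submodule ℤ R)
    (h : IsNilIdeal s.E I') (hle : s.I ≤ I') (m' : R → ℂ) (hm' : IsHom I' m')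
    (hext : ∀ x ∈ s.I, m' x = s.m x) (n : ℕ) (hn : I' ^ (n + 1) = 0) (j : ℕ) (hj : j ≤ n) :
    ∃ t : Stage R, s.Reach t ∧ t.I = s.I ⊔ I' ^ (n - j + 1) ∧ t.m = m' ∧
      ∀ f, f ∈ t.E ↔ f ∈ s.E ∧ ∀ x ∈ s.I ⊔ I' ^ (n - j + 1), m' (f * x) = m' (x * f) := by
  induction j with
  | zero =>
    have e0 : s.I ⊔ I' ^ (n - 0 + 1) = s.I := by
      rw [Nat.sub_zero, hn]
      exact sup_bot_eq _
    rw [e0]
    have hm0 : IsHom s.I m' := ⟨hm'.zero, fun x hx y hy => hm'.mul x (hle hx) y (hle hy)⟩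
    obtain ⟨t, ht1, ht2, ht3⟩ := exists_child s s.I s.ideal (le_refl _) m' hm0 hext
    refine ⟨t, Relation.ReflTransGen.single ?_, ht1, ht2, ht3⟩
    refine ⟨?_, ?_, ?_, ?_, ?_, ?_⟩
    · rw [ht1]; exact s.ideal
    · rw [ht1]
    · intro x hx y hy
      rw [ht1] at hx hy
      exact s.ideal.mulR y (s.ideal.le y hy) x hx
    · intro x hx y hy
      rw [ht1] at hx hy
      exact s.sym x (s.ideal.le x hx) y hy
    · intro x hx
      rw [ht2]
      exact hext x hx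
    · intro f
      rw [ht3, ht1, ht2]
  | succ j ih =>
    obtain ⟨t, htr, htI, htm, htE⟩ := ih (by omega)
    have ek : n - j = (n - (j + 1)) + 1 := by omega
    rw [ek] at htI htE
    set k := n - (j + 1) with hk
    obtain ⟨hK1, hK2, hK3⟩ := A07_K s I' h hle k
    have hKK : s.I ⊔ I' ^ (k + 2) ≤ s.I ⊔ I' ^ (k + 1) := sup_le_sup_left (A07_pow_anti h k) _
    have hself : ∀ f ∈ I', ∀ x ∈ I', m' (f * x) = m' (x * f) := fun f hf => stab_self h hm' hf
    have htEs : ∀ f ∈ t.E, f ∈ s.E := fun f hf => ((htE f).1 hf).1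
    have hid : IsNilIdeal t.E (s.I ⊔ I' ^ (k + 1)) := by
      refine ⟨?_, ?_, ?_, hK1.nil⟩
      · intro f hf
        rw [htE]
        refine ⟨hK1.le f hf, ?_⟩
        intro x hx
        exact hself f (hK2 hf) x (hK2 (hKK hx))
      · intro f hf x hx
        exact hK1.mulL f (htEs f hf) x hx
      · intro f hf x hx
        exact hK1.mulR f (htEs f hf) x hx
    have hmK : IsHom (s.I ⊔ I' ^ (k + 1)) m' :=
      ⟨hm'.zero, fun x hx y hy => hm'.mul x (hK2 hx) y (hK2 hy)⟩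
    have hle' : t.I ≤ s.I ⊔ I' ^ (k + 1) := by
      rw [htI]; exact hKK
    obtain ⟨t', ht1, ht2, ht3⟩ := exists_child t (s.I ⊔ I' ^ (k + 1)) hid hle' m' hmK
      (fun x _ => by rw [htm])
    have hstep : t.IsStep t' := by
      refine ⟨?_, ?_, ?_, ?_, ?_, ?_⟩
      · rw [ht1]; exact hid
      · rw [ht1]; exact hle'
      · intro x hx y hy
        rw [ht1] at hx hy
        rw [htI]
        exact hK3 x hx y hy
      · intro x hx y hy
        rw [ht1] at hx hy
        rw [htm]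
        exact hself x (hK2 hx) y (hK2 hy)
      · intro x _
        rw [ht2, htm]
      · intro f
        rw [ht3, ht1, ht2]
    refine ⟨t', htr.tail hstep, ht1, ht2, ?_⟩
    intro f
    rw [ht3, htE]
    constructor
    · rintro ⟨⟨h1, _⟩, h3⟩
      exact ⟨h1, h3⟩
    · rintro ⟨h1, h3⟩
      exact ⟨⟨h1, fun x hx => h3 x (hKK hx)⟩, h3⟩

/-- Big step. PROOF (blueprint 1.4): the ideals `K_k := s.I ⊔ I' ^ k` (`k ≥ 1`) are nilpotent ideals of `s.E` contained in
`I'`, `K_k = s.I` for large `k`, `K_1 = I'`, and `K_k * K_k ≤ K_{k+1}`. By descending induction on `k` the stage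
`t_k := (stab s.E K_k m', K_k, m')` (`exists_child` from `s`) is reachable from `s`: the step `t_{k+1} → t_k` is legal:
`K_k` is contained in `t_{k+1}.E` because for `f ∈ I'`, `x ∈ I'`: `m' (f x) = m' (x f)` (`stab_self` for `I'`), it is an ideal of `t_{k+1}.E ≤ s.E`;
`sq` as above; `comm` by `stab_self`; and the stabiliser of `m'` on `K_k` inside `t_{k+1}.E` is the one inside `s.E`. -/
theorem big_step {R : Type} [Ring R] [Finite R] (s : Stage R) (I' : Submodule ℤ R)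
    (h : IsNilIdeal s.E I') (hle : s.I ≤ I') (m' : R → ℂ) (hm' : IsHom I' m')
    (hext : ∀ x ∈ s.I, m' x = s.m x) :
    ∃ t : Stage R, s.Reach t ∧ t.I = I' ∧ t.m = m' ∧
      ∀ f, f ∈ t.E ↔ f ∈ s.E ∧ ∀ x ∈ I', m' (f * x) = m' (x * f) := by
  obtain ⟨n, hn⟩ := h.nil
  have hn' : I' ^ (n + 1) = 0 := by rw [pow_succ, hn, zero_mul]
  obtain ⟨t, h1, h2, h3, h4⟩ := A07_main s I' h hle m' hm' hext n hn' n (le_refl n)
  have e : s.I ⊔ I' ^ (n - n + 1) = I' := by
    rw [Nat.sub_self, zero_add, pow_one]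
    exact sup_eq_right.2 hle
  rw [e] at h2 h4
  exact ⟨t, h1, h2, h3, h4⟩

end Pool.Agent.Lib.MP_fa0f6c_al.Cx
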