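import Pool.Agent.Lib.MP_fa0f6c_al.Cx.A04

set_option autoImplicit false

namespace Pool.Agent.Lib.MP_fa0f6c_al.Cx

/-- The pairing `β(x, y) = m (x y) / m (y x)` (blueprint 1.5). -/
noncomputable def beta {R : Type} [Ring R] (m : R → ℂ) (x y : R) : ℂ := m (x * y) / m (y * x)

variable {R : Type} [Ring R] [Finite R]

/-- An inverse of `1 + a` in `1 + I`. -/
private theorem A08_inv (s : Stage R) {a : R} (ha : a ∈ s.I) :
    ∃ w : R, w - 1 ∈ s.I ∧ w ∈ s.E ∧ (1 + a) * w = 1 ∧ w * (1 + a) = 1 := by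
  obtain ⟨u, hu, hu1⟩ := exists_unit s.ideal ha
  have h1 : ((u⁻¹ : Rˣ) : R) - 1 ∈ s.I := hu.2
  refine ⟨((u⁻¹ : Rˣ) : R), h1, ?_, ?_, ?_⟩
  · simpa using s.E.add_mem (s.ideal.le _ h1) s.E.one_mem
  · rw [← hu1, Units.mul_inv]
  · rw [← hu1, Units.inv_mul]

/-- HINT: `1 + x` is a unit, so `m x * m x' = 1` with `1 + x' = (1 + x)⁻¹`. -/
theorem m_ne_zero (s : Stage R) {x : R} (hx : x ∈ s.I) : s.m x ≠ 0 := by
  obtain ⟨w, hw1, _, hw3, _⟩ := A08_inv s hx
  have h1 := s.hom.mul x hx (w - 1) hw1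
  have h2 : x + (w - 1) + x * (w - 1) = 0 := by
    have : x + (w - 1) + x * (w - 1) = (1 + x) * w - 1 := by noncomm_ring
    rw [this, hw3, sub_self]
  rw [h2, s.hom.zero] at h1
  intro h0
  rw [h0, zero_mul] at h1
  exact one_ne_zero h1

/-- `m (a + b) = m a * m (w b)` for `w = (1 + a)⁻¹`. -/
private theorem A08_addL (s : Stage R) {a b w : R} (ha : a ∈ s.I) (hb : b ∈ s.I) (hw : w ∈ s.E)
    (h : (1 + a) * w = 1) : s.m (a + b) = s.m a * s.m (w * b) := by
  rw [← s.hom.mul a ha (w * b) (s.ideal.mulL w hw b hb)]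
  congr 1
  have : a + w * b + a * (w * b) = a + ((1 + a) * w) * b := by noncomm_ring
  rw [this, h, one_mul]

/-- `m (a + b) = m a * m (b w)` for `w = (1 + a)⁻¹`. -/
private theorem A08_addR (s : Stage R) {a b w : R} (ha : a ∈ s.I) (hb : b ∈ s.I) (hw : w ∈ s.E)
    (h : (1 + a) * w = 1) : s.m (a + b) = s.m a * s.m (b * w) := by
  rw [A08_addL s ha hb hw h, s.sym w hw b hb]

/-- changing the first argument by an element of `I` -/
private theorem A08_shift (s : Stage R) {K : Submodule ℤ R} (hK : IsNilIdeal s.E K)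
    (sq : ∀ x ∈ K, ∀ y ∈ K, x * y ∈ s.I) {x i y : R} (hx : x ∈ K) (hi : i ∈ s.I) (hy : y ∈ K) :
    beta s.m (x + i) y = beta s.m x y := by
  have hyE : y ∈ s.E := hK.le y hy
  have hxy := sq x hx y hy
  have hyx := sq y hy x hx
  have hiy : i * y ∈ s.I := s.ideal.mulR y hyE i hi
  have hyi : y * i ∈ s.I := s.ideal.mulL y hyE i hi
  obtain ⟨w, _, hwE, hw1, hw2⟩ := A08_inv s hxy
  obtain ⟨w', _, hwE', hw1', hw2'⟩ := A08_inv s hyx
  have e1 : y * w = w' * y := by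
    have h1 : (1 + y * x) * y = y * (1 + x * y) := by noncomm_ring
    calc y * w = (w' * (1 + y * x)) * y * w := by rw [hw2', one_mul]
      _ = w' * ((1 + y * x) * y) * w := by rw [mul_assoc w']
      _ = w' * y * ((1 + x * y) * w) := by rw [h1]; noncomm_ring
      _ = w' * y := by rw [hw1, mul_one]
  unfold beta
  rw [add_mul, mul_add, A08_addL s hxy hiy hwE hw1, A08_addR s hyx hyi hwE' hw1']
  have e2 : s.m (w * (i * y)) = s.m (y * i * w') := by
    rw [s.sym w hwE _ hiy, mul_assoc i y w, e1, ← mul_assoc i w' y,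
      ← s.sym y hyE _ (s.ideal.mulR w' hwE' i hi), ← mul_assoc]
  rw [e2]
  exact mul_div_mul_right _ _ (m_ne_zero s (s.ideal.mulR w' hwE' _ hyi))

/-- PROOF: `m (xy + xy') = m (xy) m (x y' (1 + xy)⁻¹)`, `m (yx + y'x) = m (yx) m (y' x (1 + yx)⁻¹)`, and
`x (1 + yx)⁻¹ = (1 + xy)⁻¹ x =: x''`, `m (x y' (1 + xy)⁻¹) = m ((1 + xy)⁻¹ x y') = m (x'' y')` by (T), so
`β(x, y + y') = β(x, y) β(x'', y')` and `x'' - x ∈ I`; and `β(x + i, y') = β(x, y')` for `i ∈ I`:
`m (x y' + i y') = m (x y') m (i y' (1 + x y')⁻¹)`, `m (y' x + y' i) = m (y' x) m ((1 + y' x)⁻¹ y' i)` (order of the factors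
is irrelevant for `m`), and `m ((1 + y'x)⁻¹ y' * i) = m (i (1 + y'x)⁻¹ y') = m (i y' (1 + x y')⁻¹)`. -/
theorem beta_add_right (s : Stage R) {K : Submodule ℤ R} (hK : IsNilIdeal s.E K) (hle : s.I ≤ K)
    (sq : ∀ x ∈ K, ∀ y ∈ K, x * y ∈ s.I) {x y y' : R} (hx : x ∈ K) (hy : y ∈ K) (hy' : y' ∈ K) :
    beta s.m x (y + y') = beta s.m x y * beta s.m x y' := by
  have hxE : x ∈ s.E := hK.le x hx
  have hxy := sq x hx y hy
  have hyx := sq y hy x hx
  have hxy' := sq x hx y' hy'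
  have hyx' := sq y' hy' x hx
  obtain ⟨w, hwI, hwE, hw1, hw2⟩ := A08_inv s hxy
  obtain ⟨w', _, hwE', hw1', hw2'⟩ := A08_inv s hyx
  have e1 : x * w' = w * x := by
    have h1 : (1 + x * y) * x = x * (1 + y * x) := by noncomm_ring
    calc x * w' = (w * (1 + x * y)) * x * w' := by rw [hw2, one_mul]
      _ = w * ((1 + x * y) * x) * w' := by rw [mul_assoc w]
      _ = w * x * ((1 + y * x) * w') := by rw [h1]; noncomm_ring
      _ = w * x := by rw [hw1', mul_one]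
  have e2 : beta s.m x (y + y') = beta s.m x y * beta s.m (w * x) y' := by
    unfold beta
    rw [mul_add, add_mul, A08_addL s hxy hxy' hwE hw1, A08_addR s hyx hyx' hwE' hw1',
      mul_assoc y' x w', e1, mul_div_mul_comm, ← mul_assoc w x y']
  have e3 : w * x = x + (w - 1) * x := by noncomm_ring
  rw [e2, e3, A08_shift s hK sq hx (s.ideal.mulR x hxE _ hwI) hy']

theorem beta_swap (s : Stage R) {K : Submodule ℤ R} (sq : ∀ x ∈ K, ∀ y ∈ K, x * y ∈ s.I)
    {x y : R} (hx : x ∈ K) (hy : y ∈ K) : beta s.m x y * beta s.m y x = 1 := by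
  have h1 := m_ne_zero s (sq x hx y hy)
  have h2 := m_ne_zero s (sq y hy x hx)
  unfold beta
  field_simp

theorem beta_add_left (s : Stage R) {K : Submodule ℤ R} (hK : IsNilIdeal s.E K) (hle : s.I ≤ K)
    (sq : ∀ x ∈ K, ∀ y ∈ K, x * y ∈ s.I) {x x' y : R} (hx : x ∈ K) (hx' : x' ∈ K) (hy : y ∈ K) :
    beta s.m (x + x') y = beta s.m x y * beta s.m x' y := by
  have h1 := beta_swap s sq (K.add_mem hx hx') hy
  have h2 := beta_swap s sq hx hy
  have h3 := beta_swap s sq hx' hy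
  rw [beta_add_right s hK hle sq hy hx hx'] at h1
  have h4 : beta s.m y x * beta s.m y x' ≠ 0 := by
    intro h0
    rw [h0, mul_zero] at h1
    exact zero_ne_one h1
  apply mul_right_cancel₀ h4
  rw [h1]
  calc (1 : ℂ) = (beta s.m x y * beta s.m y x) * (beta s.m x' y * beta s.m y x') := by
        rw [h2, h3, one_mul]
    _ = _ := by ring

theorem beta_self (s : Stage R) {K : Submodule ℤ R} (sq : ∀ x ∈ K, ∀ y ∈ K, x * y ∈ s.I)
    {x : R} (hx : x ∈ K) : beta s.m x x = 1 := by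
  unfold beta
  exact div_self (m_ne_zero s (sq x hx x hx))

/-- HINT: (T) with `f = y ∈ K ≤ E` and `x ∈ I`. -/
theorem beta_left_mem (s : Stage R) {K : Submodule ℤ R} (hK : IsNilIdeal s.E K) {x y : R}
    (hx : x ∈ s.I) (hy : y ∈ K) : beta s.m x y = 1 := by
  have hyE : y ∈ s.E := hK.le y hy
  unfold beta
  rw [s.sym y hyE x hx]
  exact div_self (m_ne_zero s (s.ideal.mulR y hyE x hx))

theorem beta_right_mem (s : Stage R) {K : Submodule ℤ R} (hK : IsNilIdeal s.E K) {x y : R}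
    (hx : x ∈ K) (hy : y ∈ s.I) : beta s.m x y = 1 := by
  have hxE : x ∈ s.E := hK.le x hx
  unfold beta
  rw [s.sym x hxE y hy]
  exact div_self (m_ne_zero s (s.ideal.mulR x hxE y hy))

theorem beta_mul_left (s : Stage R) {K : Submodule ℤ R} (hK : IsNilIdeal s.E K)
    (sq : ∀ x ∈ K, ∀ y ∈ K, x * y ∈ s.I) {f x y : R} (hf : f ∈ s.E) (hx : x ∈ K) (hy : y ∈ K) :
    beta s.m (f * x) y = beta s.m x (y * f) := by
  unfold beta
  rw [mul_assoc f x y, s.sym f hf _ (sq x hx y hy), mul_assoc x y f, mul_assoc y f x]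

theorem beta_mul_right (s : Stage R) {K : Submodule ℤ R} (hK : IsNilIdeal s.E K)
    (sq : ∀ x ∈ K, ∀ y ∈ K, x * y ∈ s.I) {f x y : R} (hf : f ∈ s.E) (hx : x ∈ K) (hy : y ∈ K) :
    beta s.m (x * f) y = beta s.m x (f * y) := by
  unfold beta
  rw [← mul_assoc y x f, ← s.sym f hf _ (sq y hy x hx), mul_assoc x f y, mul_assoc f y x]

end Pool.Agent.Lib.MP_fa0f6c_al.Cx
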