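import Pool.Agent.Lib.MP_fa0f6c_al.Cx.ADefs
import Mathlib.RingTheory.SimpleModule.WedderburnArtin
import Mathlib.RingTheory.LittleWedderburn
import Mathlib.RingTheory.Artinian.Module

set_option autoImplicit false

namespace Pool.Agent.Lib.MP_fa0f6c_al.Cx

theorem A10_bot {R : Type} [Ring R] (E : Subring R) : IsNilIdeal E (⊥ : Submodule ℤ R) where
  le := by
    intro x hx
    rw [Submodule.mem_bot] at hx
    rw [hx]; exact E.zero_mem
  mulL := by
    intro f _ x hx
    rw [Submodule.mem_bot] at hx ⊢
    rw [hx, mul_zero]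
  mulR := by
    intro f _ x hx
    rw [Submodule.mem_bot] at hx ⊢
    rw [hx, zero_mul]
  nil := ⟨1, by rw [pow_one]; rfl⟩

theorem A10_sup {R : Type} [Ring R] (E : Subring R) (K L : Submodule ℤ R)
    (hK : IsNilIdeal E K) (hL : IsNilIdeal E L) : IsNilIdeal E (K ⊔ L) where
  le := by
    intro x hx
    obtain ⟨a, ha, b, hb, rfl⟩ := Submodule.mem_sup.1 hx
    exact E.add_mem (hK.le a ha) (hL.le b hb)
  mulL := by
    intro f hf x hx
    obtain ⟨a, ha, b, hb, rfl⟩ := Submodule.mem_sup.1 hx
    rw [mul_add]
    exact Submodule.add_mem_sup (hK.mulL f hf a ha) (hL.mulL f hf b hb)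
  mulR := by
    intro f hf x hx
    obtain ⟨a, ha, b, hb, rfl⟩ := Submodule.mem_sup.1 hx
    rw [add_mul]
    exact Submodule.add_mem_sup (hK.mulR f hf a ha) (hL.mulR f hf b hb)
  nil := by
    obtain ⟨a, ha⟩ := hK.nil
    obtain ⟨b, hb⟩ := hL.nil
    have hLn : ∀ n, ∀ x ∈ L ^ n, x ∈ E := by
      intro n
      induction n with
      | zero =>
        intro x hx
        rw [pow_zero] at hx
        obtain ⟨c, hc⟩ := Submodule.mem_one.1 hx
        rw [← hc]
        simp
      | succ n ih =>
        intro x hx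
        rw [pow_succ] at hx
        refine Submodule.mul_induction_on hx ?_ ?_
        · intro p hp q hq
          exact E.mul_mem (ih p hp) (hL.le q hq)
        · intro p q hp hq
          exact E.add_mem hp hq
    have key : ∀ n, (K ⊔ L) ^ n ≤ K ⊔ L ^ n := by
      intro n
      induction n with
      | zero => rw [pow_zero, pow_zero]; exact le_sup_right
      | succ n ih =>
        rw [pow_succ, Submodule.mul_le]
        intro x hx y hy
        obtain ⟨p, hp, q, hq, rfl⟩ := Submodule.mem_sup.1 (ih hx)
        obtain ⟨r, hr, s, hs, rfl⟩ := Submodule.mem_sup.1 hy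
        have e : (p + q) * (r + s) = (p * (r + s) + q * r) + q * s := by noncomm_ring
        rw [e]
        refine Submodule.add_mem_sup (K.add_mem ?_ ?_) ?_
        · exact hK.mulR _ (E.add_mem (hK.le r hr) (hL.le s hs)) p hp
        · exact hK.mulL _ (hLn n q hq) r hr
        · rw [pow_succ]
          exact Submodule.mul_mem_mul hq hs
    refine ⟨b * a, ?_⟩
    rw [pow_mul]
    have h1 : (K ⊔ L) ^ b ≤ K := by
      have := key b
      rw [hb] at this
      simpa using this
    have h2 : ((K ⊔ L) ^ b) ^ a ≤ K ^ a := pow_le_pow_left' h1 a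
    rw [ha] at h2
    exact le_antisymm h2 (by simp)

/-- The largest nilpotent ideal. HINT: the sum of two nilpotent ideals is nilpotent; `R` is finite. -/
theorem exists_maxNil {R : Type} [Ring R] [Finite R] (E : Subring R) :
    ∃ J : Submodule ℤ R, IsNilIdeal E J ∧ ∀ K, IsNilIdeal E K → K ≤ J := by
  have : Finite (Submodule ℤ R) :=
    Finite.of_injective (fun K : Submodule ℤ R => (K : Set R)) SetLike.coe_injective
  obtain ⟨J, hJ⟩ := (Set.toFinite {K : Submodule ℤ R | IsNilIdeal E K}).exists_maximal
    ⟨⊥, A10_bot E⟩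
  refine ⟨J, hJ.prop, fun K hK => ?_⟩
  have h := hJ.le_of_ge (A10_sup E J K hJ.prop hK) le_sup_left
  exact le_sup_right.trans h

theorem A10_jac {R : Type} [Ring R] [Finite R] (E : Subring R) (J : Submodule ℤ R)
    (hJ : IsNilIdeal E J) (hmax : ∀ K, IsNilIdeal E K → K ≤ J) (x : E) :
    x ∈ Ring.jacobson E ↔ (x : R) ∈ J := by
  constructor
  · intro hx
    have : IsArtinianRing E := inferInstance
    obtain ⟨n, hn⟩ := (IsSemiprimaryRing.isNilpotent : IsNilpotent (Ring.jacobson E))
    let K : Submodule ℤ R :=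
      { carrier := {y | ∃ z ∈ Ring.jacobson E, (z : R) = y}
        add_mem' := by
          rintro _ _ ⟨a, ha, rfl⟩ ⟨b, hb, rfl⟩
          exact ⟨a + b, (Ring.jacobson E).add_mem ha hb, by simp⟩
        zero_mem' := ⟨0, (Ring.jacobson E).zero_mem, by simp⟩
        smul_mem' := by
          rintro c _ ⟨a, ha, rfl⟩
          exact ⟨c • a, zsmul_mem ha c, by simp⟩ }
    have hK : IsNilIdeal E K := by
      refine ⟨?_, ?_, ?_, n, ?_⟩
      · rintro _ ⟨a, ha, rfl⟩
        exact a.2
      · rintro f hf _ ⟨a, ha, rfl⟩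
        exact ⟨⟨f, hf⟩ * a, (Ring.jacobson E).mul_mem_left _ ha, by simp⟩
      · rintro f hf _ ⟨a, ha, rfl⟩
        exact ⟨a * ⟨f, hf⟩, (Ring.jacobson E).mul_mem_right _ ha, by simp⟩
      · have key : ∀ m, ∀ y ∈ K ^ m, ∃ z ∈ (Ring.jacobson E) ^ m, (z : R) = y := by
          intro m
          induction m with
          | zero =>
            intro y hy
            rw [pow_zero] at hy
            obtain ⟨c, hc⟩ := Submodule.mem_one.1 hy
            refine ⟨(c : E), ?_, ?_⟩
            · rw [Submodule.pow_zero, Ideal.one_eq_top]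
              exact Submodule.mem_top
            · rw [← hc]
              simp
          | succ m ih =>
            intro y hy
            rw [pow_succ] at hy
            refine Submodule.mul_induction_on hy ?_ ?_
            · intro p hp q hq
              obtain ⟨z, hz, rfl⟩ := ih p hp
              obtain ⟨w, hw, rfl⟩ := hq
              refine ⟨z * w, ?_, by simp⟩
              rw [Submodule.pow_succ]
              exact Ideal.mul_mem_mul hz hw
            · rintro p q ⟨z, hz, rfl⟩ ⟨w, hw, rfl⟩
              exact ⟨z + w, Ideal.add_mem _ hz hw, by simp⟩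
        rw [Submodule.zero_eq_bot, eq_bot_iff]
        intro y hy
        obtain ⟨z, hz, rfl⟩ := key n y hy
        rw [hn] at hz
        have : z = 0 := by simpa using hz
        rw [this]; simp
    exact hmax K hK ⟨x, hx, rfl⟩
  · intro hx
    rw [← Ideal.jacobson_bot, Ideal.mem_jacobson_iff]
    intro y
    have hyx : ((y * x : E) : R) ∈ J := by
      have := hJ.mulL (y : R) y.2 (x : R) hx
      simpa using this
    obtain ⟨n, hn⟩ := hJ.nil
    have hnil : IsNilpotent (y * x) := by
      refine ⟨n, Subtype.ext ?_⟩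
      have h1 : (((y * x : E) : R)) ^ n ∈ J ^ n := Submodule.pow_mem_pow J hyx n
      rw [hn] at h1
      have h2 : (((y * x : E) : R)) ^ n = 0 := by simpa using h1
      simpa using h2
    obtain ⟨u, hu⟩ := hnil.isUnit_one_add
    refine ⟨(↑u⁻¹ : E), ?_⟩
    have h3 : (↑u⁻¹ : E) * y * x + ↑u⁻¹ - 1 = ↑u⁻¹ * (1 + y * x) - 1 := by noncomm_ring
    rw [h3, ← hu, Units.inv_mul, sub_self]
    exact Submodule.zero_mem _

/-- Wedderburn-Artin and little Wedderburn for `E / J`. HINT: the quotient of the ring `E` by the two-sided ideal `J` is an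
Artinian ring without nilpotent ideals, hence semisimple (or: `J` is the Jacobson radical of `E`);
`IsSemisimpleRing.exists_ringEquiv_pi_matrix_divisionRing` (name may vary); finite division rings are
commutative (`littleWedderburn`). -/
theorem wedderburn {R : Type} [Ring R] [Finite R] (E : Subring R) (J : Submodule ℤ R)
    (hJ : IsNilIdeal E J) (hmax : ∀ K, IsNilIdeal E K → K ≤ J) :
    ∃ (b : ℕ) (n : Fin b → ℕ) (F : Fin b → Type) (_ : ∀ i, Field (F i)) (_ : ∀ i, Finite (F i))
      (φ : E →+* (∀ i, Matrix (Fin (n i)) (Fin (n i)) (F i))),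
      (∀ i, 0 < n i) ∧ Function.Surjective φ ∧ ∀ x : E, φ x = 0 ↔ (x : R) ∈ J := by
  have : IsArtinianRing E := inferInstance
  have hss : IsSemisimpleRing (E ⧸ Ring.jacobson E) := IsSemiprimaryRing.isSemisimpleRing
  obtain ⟨b, D, n, hD, hn, ⟨e⟩⟩ :=
    IsSemisimpleRing.exists_ringEquiv_pi_matrix_divisionRing (E ⧸ Ring.jacobson E)
  have hfinQ : Finite (E ⧸ Ring.jacobson E) :=
    Finite.of_surjective (Ideal.Quotient.mk (Ring.jacobson E)) Ideal.Quotient.mk_surjective
  have hfin : ∀ i, Finite (D i) := by
    intro i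
    have := hn i
    have hs : Function.Surjective (fun q : E ⧸ Ring.jacobson E =>
        (e q i) (0 : Fin (n i)) (0 : Fin (n i))) := by
      intro d
      refine ⟨e.symm (fun j => if h : j = i then h ▸ (Matrix.of fun _ _ => d) else 0), ?_⟩
      simp
    exact Finite.of_surjective _ hs
  let F : ∀ i, Field (D i) := fun i => by
    have := hfin i
    exact { hD i with mul_comm := (littleWedderburn (D i)).mul_comm }
  refine ⟨b, n, D, F, hfin, (e : _ →+* _).comp (Ideal.Quotient.mk (Ring.jacobson E)), ?_, ?_, ?_⟩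
  · intro i
    exact Nat.pos_of_ne_zero (hn i).out
  · exact e.surjective.comp Ideal.Quotient.mk_surjective
  · intro x
    rw [← A10_jac E J hJ hmax x]
    constructor
    · intro h
      have h1 : e (Ideal.Quotient.mk (Ring.jacobson E) x) = 0 := h
      have h2 : Ideal.Quotient.mk (Ring.jacobson E) x = 0 := by
        apply e.injective
        rw [h1, map_zero]
      exact Ideal.Quotient.eq_zero_iff_mem.1 h2
    · intro h
      have h2 : Ideal.Quotient.mk (Ring.jacobson E) x = 0 := Ideal.Quotient.eq_zero_iff_mem.2 h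
      show e (Ideal.Quotient.mk (Ring.jacobson E) x) = 0
      rw [h2, map_zero]

end Pool.Agent.Lib.MP_fa0f6c_al.Cx
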