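import Pool.Agent.Lib.MP_fa0f6c_al.Cx.A08
import Pool.Agent.Lib.MP_fa0f6c_al.Cx.A10

set_option autoImplicit false

namespace Pool.Agent.Lib.MP_fa0f6c_al.Cx

variable {R : Type} [Ring R] [Finite R]

/-- HINT: a legal ideal gives a step (`exists_step` for any `χ` over `s`, `Stage.exists_over`). -/
theorem terminal_legal (s : Stage R) (hs : s.Terminal) {K : Submodule ℤ R} (hK : Legal s K) :
    K = s.I := by
  obtain ⟨χ, hχ, ho⟩ := s.exists_over
  obtain ⟨t, ht, htI, _⟩ := exists_step hK hχ ho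
  rw [← htI]
  exact hs t ht

private theorem A09_pow_ideal {R : Type} [Ring R] {E : Subring R} {I : Submodule ℤ R}
    (h : IsNilIdeal E I) (k : ℕ) :
    (∀ f ∈ E, ∀ x ∈ I ^ (k + 1), f * x ∈ I ^ (k + 1)) ∧
    (∀ f ∈ E, ∀ x ∈ I ^ (k + 1), x * f ∈ I ^ (k + 1)) ∧ I ^ (k + 1) ≤ I := by
  induction k with
  | zero =>
    simp only [zero_add, pow_one]
    exact ⟨h.mulL, h.mulR, le_refl _⟩
  | succ k ih =>
    obtain ⟨ihL, ihR, ihle⟩ := ih
    refine ⟨?_, ?_, ?_⟩
    · intro f hf x hx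
      rw [pow_succ] at hx ⊢
      refine Submodule.mul_induction_on hx ?_ ?_
      · intro a ha b hb
        rw [← mul_assoc]
        exact Submodule.mul_mem_mul (ihL f hf a ha) hb
      · intro a b ha hb
        rw [mul_add]
        exact Submodule.add_mem _ ha hb
    · intro f hf x hx
      rw [pow_succ] at hx ⊢
      refine Submodule.mul_induction_on hx ?_ ?_
      · intro a ha b hb
        rw [mul_assoc]
        exact Submodule.mul_mem_mul ha (h.mulR f hf b hb)
      · intro a b ha hb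
        rw [add_mul]
        exact Submodule.add_mem _ ha hb
    · rw [pow_succ]
      refine Submodule.mul_le.2 ?_
      intro a ha b hb
      exact h.mulL a (h.le a (ihle ha)) b hb

/-- `K ^ i ≤ K ^ j` for `1 ≤ j ≤ i`. -/
private theorem A09_pow_anti {R : Type} [Ring R] {E : Subring R} {I : Submodule ℤ R}
    (h : IsNilIdeal E I) {i j : ℕ} (hj : 1 ≤ j) (hij : j ≤ i) : I ^ i ≤ I ^ j := by
  induction i, hij using Nat.le_induction with
  | base => exact le_refl _
  | succ i hi ih =>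
    refine le_trans ?_ ih
    obtain ⟨k, rfl⟩ : ∃ k, i = k + 1 := ⟨i - 1, by omega⟩
    rw [pow_succ I (k + 1)]
    refine Submodule.mul_le.2 ?_
    intro a ha b hb
    exact (A09_pow_ideal h k).2.1 b (h.le b hb) a ha

/-- the downward step -/
private theorem A09_step (s : Stage R) (hs : s.Terminal) {K : Submodule ℤ R}
    (hK : IsNilIdeal s.E K) (j : ℕ) (h : K ^ (j + 3) ≤ s.I) : K ^ (j + 2) ≤ s.I := by
  set I' : Submodule ℤ R := s.I ⊔ K ^ (j + 2) with hI'
  obtain ⟨hL, hR, hpl⟩ := A09_pow_ideal hK (j + 1)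
  have hid : IsNilIdeal s.E I' := by
    refine A10_sup s.E _ _ s.ideal ?_
    refine ⟨fun x hx => hK.le x (hpl hx), hL, hR, ?_⟩
    obtain ⟨n, hn⟩ := hK.nil
    refine ⟨n, ?_⟩
    have h1 : (K ^ (j + 1 + 1)) ^ n ≤ K ^ n := pow_le_pow_left' hpl n
    rw [hn] at h1
    exact le_antisymm h1 bot_le
  have hle : s.I ≤ I' := le_sup_left
  have hmulK : ∀ a b : ℕ, j + 3 ≤ a + b → ∀ x ∈ K ^ a, ∀ y ∈ K ^ b, x * y ∈ s.I := by
    intro a b hab x hx y hy
    have h1 : x * y ∈ K ^ (a + b) := by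
      rw [pow_add]
      exact Submodule.mul_mem_mul hx hy
    exact h (A09_pow_anti hK (by omega) hab h1)
  have sq : ∀ x ∈ I', ∀ y ∈ I', x * y ∈ s.I := by
    intro x hx y hy
    obtain ⟨a, ha, b, hb, rfl⟩ := Submodule.mem_sup.1 hx
    obtain ⟨c, hc, d, hd, rfl⟩ := Submodule.mem_sup.1 hy
    have hcE : c ∈ s.E := s.ideal.le c hc
    have hdE : d ∈ s.E := hK.le d (hpl hd)
    have hbE : b ∈ s.E := hK.le b (hpl hb)
    have e : (a + b) * (c + d) = (a * (c + d) + b * c) + b * d := by noncomm_ring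
    rw [e]
    refine s.I.add_mem (s.I.add_mem ?_ ?_) ?_
    · exact s.ideal.mulR _ (s.E.add_mem hcE hdE) a ha
    · exact s.ideal.mulL _ hbE c hc
    · exact hmulK (j + 2) (j + 2) (by omega) b hb d hd
  have hKI : ∀ x ∈ K ^ (j + 2), x ∈ I' := fun x hx => Submodule.mem_sup_right hx
  have hcore : ∀ x ∈ K ^ (j + 2), ∀ y ∈ K ^ (j + 2), beta s.m x y = 1 := by
    intro x hx y hy
    have hyI : y ∈ I' := hKI y hy
    have hkey : ∀ x ∈ K * K ^ (j + 1), x ∈ I' ∧ beta s.m x y = 1 := by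
      intro x hx
      refine Submodule.mul_induction_on hx ?_ ?_
      · intro a ha b hb
        have hab : a * b ∈ K ^ (j + 2) := by
          rw [pow_succ' K (j + 1)]
          exact Submodule.mul_mem_mul ha hb
        refine ⟨hKI _ hab, ?_⟩
        have hby : b * y ∈ s.I := hmulK (j + 1) (j + 2) (by omega) b hb y hy
        have hya : y * a ∈ s.I := hmulK (j + 2) 1 (by omega) y hy a (by rw [pow_one]; exact ha)
        have haE : a ∈ s.E := hK.le a ha
        have hbE : b ∈ s.E := hK.le b ((A09_pow_ideal hK j).2.2 hb)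
        have h1 : s.m (a * b * y) = s.m (y * (a * b)) := by
          rw [mul_assoc a b y, s.sym a haE _ hby, mul_assoc b y a, s.sym b hbE _ hya,
            mul_assoc y a b]
        unfold beta
        rw [h1]
        exact div_self (m_ne_zero s (sq y hyI _ (hKI _ hab)))
      · rintro a b ⟨ha, ha'⟩ ⟨hb, hb'⟩
        refine ⟨I'.add_mem ha hb, ?_⟩
        rw [beta_add_left s hid hle sq ha hb hyI, ha', hb', one_mul]
    rw [pow_succ' K (j + 1)] at hx
    exact (hkey x hx).2
  have hbeta : ∀ x ∈ I', ∀ y ∈ I', beta s.m x y = 1 := by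
    intro x hx y hy
    obtain ⟨a, ha, b, hb, rfl⟩ := Submodule.mem_sup.1 hx
    obtain ⟨c, hc, d, hd, rfl⟩ := Submodule.mem_sup.1 hy
    rw [beta_add_left s hid hle sq (hle ha) (hKI b hb) (I'.add_mem (hle hc) (hKI d hd)),
      beta_left_mem s hid ha (I'.add_mem (hle hc) (hKI d hd)), one_mul,
      beta_add_right s hid hle sq (hKI b hb) (hle hc) (hKI d hd),
      beta_right_mem s hid (hKI b hb) hc, one_mul]
    exact hcore b hb d hd
  have hleg : Legal s I' := by
    refine ⟨hid, hle, sq, ?_⟩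
    intro x hx y hy
    have h1 := hbeta x hx y hy
    unfold beta at h1
    exact (div_eq_one_iff_eq (m_ne_zero s (sq y hy x hx))).1 h1
  have h2 := terminal_legal s hs hleg
  rw [← h2]
  exact le_sup_right

/-- PROOF (blueprint 1.5 (a)): replace `K` by `K ⊔ s.I` (a nilpotent ideal). Suppose `K * K ≤ s.I` fails. Let `k ≥ 2` be maximal with
`K ^ k ≤ s.I` false, `I' = s.I ⊔ K ^ k`; then `K ^ (k+1) ≤ s.I`. `I'` is a nilpotent ideal, `I' * I' ≤ s.I` since `2k ≥ k + 1`. `comm`: by
biadditivity of `beta` on `I'` (`beta_add_left/right` with the ideal `I'`) and triviality when one argument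
is in `s.I` it suffices `beta (a b) y = 1` for `a ∈ K`, `b ∈ K ^ (k-1)`, `y ∈ K ^ k`: `b y ∈ K ^ (2k-1) ≤ s.I` and `y a ∈ s.I`, so
`m (a (b y)) = m ((b y) a) = m (b (y a)) = m ((y a) b)`. So `I'` is legal and `terminal_legal` gives `K ^ k ≤ s.I`, contradiction. -/
theorem terminal_sq (s : Stage R) (hs : s.Terminal) {K : Submodule ℤ R} (hK : IsNilIdeal s.E K) :
    ∀ x ∈ K, ∀ y ∈ K, x * y ∈ s.I := by
  obtain ⟨n, hn⟩ := hK.nil
  have key : ∀ i : ℕ, i ≤ n → K ^ (n - i + 2) ≤ s.I := by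
    intro i
    induction i with
    | zero =>
      intro _
      rw [Nat.sub_zero, pow_add, hn, zero_mul]
      exact bot_le
    | succ i ih =>
      intro hi
      have h1 := ih (by omega)
      have e : n - i + 2 = (n - (i + 1)) + 3 := by omega
      rw [e] at h1
      exact A09_step s hs hK _ h1
  have h2 := key n (le_refl n)
  rw [Nat.sub_self, zero_add, pow_two] at h2
  intro x hx y hy
  exact h2 (Submodule.mul_mem_mul hx hy)

/-- no isotropic ideals -/
theorem terminal_isotropic (s : Stage R) (hs : s.Terminal) {K : Submodule ℤ R}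
    (hK : IsNilIdeal s.E K) (hle : s.I ≤ K) (h : ∀ x ∈ K, ∀ y ∈ K, s.m (x * y) = s.m (y * x)) :
    K = s.I :=
  terminal_legal s hs ⟨hK, hle, terminal_sq s hs hK, h⟩

end Pool.Agent.Lib.MP_fa0f6c_al.Cx
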