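import Pool.Agent.Lib.MP_fa0f6c_al.Cx.A09

set_option autoImplicit false

namespace Pool.Agent.Lib.MP_fa0f6c_al.Cx

variable {R : Type} [Ring R] [Finite R]

private theorem A11_nil_of_le {K L : Submodule ℤ R} (h : L ≤ K) (hK : IsNilpotent K) :
    IsNilpotent L := by
  obtain ⟨n, hn⟩ := hK
  refine ⟨n, ?_⟩
  have h1 : L ^ n ≤ K ^ n := pow_le_pow_left' h n
  rw [hn] at h1
  exact le_bot_iff.1 h1

/-- the left radical of the pairing on `K` -/
private def A11_rad (s : Stage R) {K : Submodule ℤ R} (hK : IsNilIdeal s.E K) (hle : s.I ≤ K)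
    (sq : ∀ x ∈ K, ∀ y ∈ K, x * y ∈ s.I) : Submodule ℤ R :=
  AddSubgroup.toIntSubmodule
    { carrier := {x | x ∈ K ∧ ∀ y ∈ K, beta s.m x y = 1}
      zero_mem' := by
        refine ⟨K.zero_mem, fun y hy => ?_⟩
        exact beta_left_mem s hK s.I.zero_mem hy
      add_mem' := by
        rintro a b ⟨ha, ha'⟩ ⟨hb, hb'⟩
        refine ⟨K.add_mem ha hb, fun y hy => ?_⟩
        rw [beta_add_left s hK hle sq ha hb hy, ha' y hy, hb' y hy, one_mul]
      neg_mem' := by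
        rintro a ⟨ha, ha'⟩
        refine ⟨K.neg_mem ha, fun y hy => ?_⟩
        have h1 := beta_add_left s hK hle sq ha (K.neg_mem ha) hy
        rw [add_neg_cancel, ha' y hy, one_mul] at h1
        rw [← h1]
        exact beta_left_mem s hK s.I.zero_mem hy }

private theorem A11_mem_rad (s : Stage R) {K : Submodule ℤ R} (hK : IsNilIdeal s.E K)
    (hle : s.I ≤ K) (sq : ∀ x ∈ K, ∀ y ∈ K, x * y ∈ s.I) (x : R) :
    x ∈ A11_rad s hK hle sq ↔ x ∈ K ∧ ∀ y ∈ K, beta s.m x y = 1 := Iff.rfl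

/-- A minimal ideal above `s.I`, on which `beta` is nondegenerate. PROOF: take `K` minimal among the ideals with
`s.I < K ≤ J`. The set `{x ∈ K | ∀ y ∈ K, m (x y) = m (y x)}` is an ideal of `s.E` between `s.I` and `K` (`beta_*` lemmas, with
`terminal_sq`); it is `s.I` or `K`; if it is `K` then `terminal_isotropic` gives `K = s.I`. -/
theorem exists_minimal (s : Stage R) (hs : s.Terminal) {J : Submodule ℤ R}
    (hJ : IsNilIdeal s.E J) (hle : s.I ≤ J) (hne : J ≠ s.I) :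
    ∃ K : Submodule ℤ R, IsNilIdeal s.E K ∧ s.I ≤ K ∧ K ≠ s.I ∧ K ≤ J ∧
      (∀ K' : Submodule ℤ R, IsNilIdeal s.E K' → s.I ≤ K' → K' ≤ K → K' = s.I ∨ K' = K) ∧
      (∀ x ∈ K, x ∉ s.I → ∃ y ∈ K, s.m (x * y) ≠ s.m (y * x)) := by
  have hfin : Finite (Submodule ℤ R) := by infer_instance
  obtain ⟨K, hKm⟩ := (Set.toFinite {K : Submodule ℤ R | IsNilIdeal s.E K ∧ s.I ≤ K ∧
    K ≠ s.I ∧ K ≤ J}).exists_minimal ⟨J, hJ, hle, hne, le_rfl⟩
  obtain ⟨hK, hIK, hKne, hKJ⟩ := hKm.prop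
  have hmin : ∀ K' : Submodule ℤ R, IsNilIdeal s.E K' → s.I ≤ K' → K' ≤ K →
      K' = s.I ∨ K' = K := by
    intro K' hK' hle' hle2
    by_cases h : K' = s.I
    · exact Or.inl h
    · right
      exact le_antisymm hle2 (hKm.le_of_le ⟨hK', hle', h, hle2.trans hKJ⟩ hle2)
  refine ⟨K, hK, hIK, hKne, hKJ, hmin, ?_⟩
  have sq := terminal_sq s hs hK
  have hiff : ∀ x ∈ K, ∀ y ∈ K, (beta s.m x y = 1 ↔ s.m (x * y) = s.m (y * x)) := by
    intro x hx y hy
    unfold beta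
    exact div_eq_one_iff_eq (m_ne_zero s (sq y hy x hx))
  have hL : IsNilIdeal s.E (A11_rad s hK hIK sq) := by
    refine ⟨?_, ?_, ?_, ?_⟩
    · rintro x ⟨hx, -⟩
      exact hK.le x hx
    · rintro f hf x ⟨hx, hx'⟩
      refine ⟨hK.mulL f hf x hx, fun y hy => ?_⟩
      rw [beta_mul_left s hK sq hf hx hy]
      exact hx' _ (hK.mulR f hf y hy)
    · rintro f hf x ⟨hx, hx'⟩
      refine ⟨hK.mulR f hf x hx, fun y hy => ?_⟩
      rw [beta_mul_right s hK sq hf hx hy]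
      exact hx' _ (hK.mulL f hf y hy)
    · exact A11_nil_of_le (fun x hx => hx.1) hK.nil
  rcases hmin _ hL (fun x hx => ⟨hIK hx, fun y hy => beta_left_mem s hK hx hy⟩)
    (fun x hx => hx.1) with h | h
  · intro x hx hx'
    by_contra hcon
    push Not at hcon
    apply hx'
    rw [← h]
    exact ⟨hx, fun y hy => (hiff x hx y hy).2 (hcon y hy)⟩
  · exfalso
    apply hKne
    refine terminal_isotropic s hs hK hIK ?_
    intro x hx y hy
    rw [← h] at hx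
    exact (hiff x hx.1 y hy).1 (hx.2 y hy)

/-- Schur's lemma for a minimal ideal: an additive map commuting with the action of `s.E` on `K / s.I` is zero or
injective there. HINT: `{x ∈ K | T x ∈ s.I}` is an ideal between `s.I` and `K`. -/
theorem minimal_schur (s : Stage R) {K : Submodule ℤ R} (hK : IsNilIdeal s.E K) (hle : s.I ≤ K)
    (hmin : ∀ K' : Submodule ℤ R, IsNilIdeal s.E K' → s.I ≤ K' → K' ≤ K → K' = s.I ∨ K' = K)
    (T : R →+ R) (h1 : ∀ x ∈ K, T x ∈ K) (h2 : ∀ x ∈ s.I, T x ∈ s.I)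
    (h3 : ∀ f ∈ s.E, ∀ x ∈ K, T (f * x) - f * T x ∈ s.I)
    (h4 : ∀ f ∈ s.E, ∀ x ∈ K, T (x * f) - T x * f ∈ s.I) {x₀ : R} (hx₀ : x₀ ∈ K)
    (hx₀' : x₀ ∉ s.I) (h0 : T x₀ ∈ s.I) : ∀ x ∈ K, T x ∈ s.I := by
  let L : Submodule ℤ R := AddSubgroup.toIntSubmodule
    { carrier := {x | x ∈ K ∧ T x ∈ s.I}
      zero_mem' := ⟨K.zero_mem, by rw [map_zero]; exact s.I.zero_mem⟩
      add_mem' := by
        rintro a b ⟨ha, ha'⟩ ⟨hb, hb'⟩
        exact ⟨K.add_mem ha hb, by rw [map_add]; exact s.I.add_mem ha' hb'⟩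
      neg_mem' := by
        rintro a ⟨ha, ha'⟩
        exact ⟨K.neg_mem ha, by rw [map_neg]; exact s.I.neg_mem ha'⟩ }
  have hmem : ∀ x, x ∈ L ↔ x ∈ K ∧ T x ∈ s.I := fun x => Iff.rfl
  have hL : IsNilIdeal s.E L := by
    refine ⟨?_, ?_, ?_, ?_⟩
    · rintro x ⟨hx, -⟩
      exact hK.le x hx
    · rintro f hf x ⟨hx, hx'⟩
      refine ⟨hK.mulL f hf x hx, ?_⟩
      have e : T (f * x) = (T (f * x) - f * T x) + f * T x := by abel
      rw [e]
      exact s.I.add_mem (h3 f hf x hx) (s.ideal.mulL f hf _ hx')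
    · rintro f hf x ⟨hx, hx'⟩
      refine ⟨hK.mulR f hf x hx, ?_⟩
      have e : T (x * f) = (T (x * f) - T x * f) + T x * f := by abel
      rw [e]
      exact s.I.add_mem (h4 f hf x hx) (s.ideal.mulR f hf _ hx')
    · exact A11_nil_of_le (fun x hx => hx.1) hK.nil
  rcases hmin L hL (fun x hx => ⟨hle hx, h2 x hx⟩) (fun x hx => hx.1) with h | h
  · exfalso
    apply hx₀'
    rw [← h]
    exact ⟨hx₀, h0⟩
  · intro x hx
    rw [← h] at hx
    exact hx.2

end Pool.Agent.Lib.MP_fa0f6c_al.Cx
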