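import Pool.Agent.Lib.MP_fa0f6c_al.Cx.A10
import Pool.Agent.Lib.MP_fa0f6c_al.Cx.A11

set_option autoImplicit false

namespace Pool.Agent.Lib.MP_fa0f6c_al.Cx

open MulOpposite

/-- an irreducible bimodule with a nondegenerate alternating pairing -/
private structure A12B (S V : Type) [Ring S] [AddCommGroup V] where
  lam : S →+* Module.End ℤ V
  rho : Sᵐᵒᵖ →+* Module.End ℤ V
  comm : ∀ f g x, lam f (rho g x) = rho g (lam f x)
  irr : ∀ W : Submodule ℤ V, (∀ f, ∀ x ∈ W, lam f x ∈ W) → (∀ f, ∀ x ∈ W, rho f x ∈ W) →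
    W = ⊥ ∨ W = ⊤
  be : V → V → ℂ
  zero_right : ∀ x, be x 0 = 1
  self : ∀ x, be x x = 1
  nd : ∀ x, x ≠ 0 → ∃ y, be x y ≠ 1
  swap : ∀ x y, be x y * be y x = 1
  add_right : ∀ x y z, be x (y + z) = be x y * be x z
  lr : ∀ f x y, be (lam f x) y = be x (rho (op f) y)
  rl : ∀ f x y, be (rho (op f) x) y = be x (lam f y)


private theorem A12_roots {D F : Type} [Field D] [Field F] [Finite F]
    (a b : F →+* D) (w : F) : ∃ c, b w = a c := by
  classical
  have : Fintype F := Fintype.ofFinite F
  set Q := Fintype.card F with hQ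
  have hQ1 : 1 < Q := Fintype.one_lt_card
  have hne : (Polynomial.X ^ Q - Polynomial.X : Polynomial D) ≠ 0 :=
    FiniteField.X_pow_card_sub_X_ne_zero D hQ1
  have hdeg : (Polynomial.X ^ Q - Polynomial.X : Polynomial D).natDegree = Q :=
    FiniteField.X_pow_card_sub_X_natDegree_eq D hQ1
  set P : Polynomial D := Polynomial.X ^ Q - Polynomial.X with hP
  have hroot : ∀ (f : F →+* D) (c : F), f c ∈ P.roots.toFinset := by
    intro f c
    rw [Multiset.mem_toFinset, Polynomial.mem_roots hne, Polynomial.IsRoot.def, hP]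
    simp only [Polynomial.eval_sub, Polynomial.eval_pow, Polynomial.eval_X]
    rw [← map_pow, FiniteField.pow_card, sub_self]
  have hsub : Finset.univ.image a ⊆ P.roots.toFinset := by
    intro x hx
    obtain ⟨c, -, rfl⟩ := Finset.mem_image.1 hx
    exact hroot a c
  have hcard : P.roots.toFinset.card ≤ (Finset.univ.image a).card := by
    rw [Finset.card_image_of_injective _ a.injective, Finset.card_univ, ← hQ, ← hdeg]
    exact (Multiset.toFinset_card_le _).trans (Polynomial.card_roots' _)
  have heq := Finset.eq_of_subset_of_card_le hsub hcard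
  have := hroot b w
  rw [← heq] at this
  obtain ⟨c, -, hc⟩ := Finset.mem_image.1 this
  exact ⟨c, hc.symm⟩

private theorem A12_roots' {D F : Type} [Ring D] (hD : IsField D)
    [Field F] [Finite F] (a b : F →+* D) (w : F) : ∃ c, b w = a c := by
  let _ : Field D := hD.toField
  exact A12_roots a b w

private theorem A12_sigma {D F : Type} [Ring D] (hD : IsField D)
    [Field F] [Finite F] (a b : F →+* D) : ∃ σ : F →+* F, ∀ w, b w = a (σ w) := by
  have : Nontrivial D := hD.nontrivial
  choose σ hσ using A12_roots' hD a b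
  refine ⟨{ toFun := σ, map_one' := ?_, map_mul' := ?_, map_zero' := ?_, map_add' := ?_ }, hσ⟩
  · apply a.injective; rw [← hσ, map_one, map_one]
  · intro x y; apply a.injective; rw [← hσ, map_mul, map_mul, hσ, hσ]
  · apply a.injective; rw [← hσ, map_zero, map_zero]
  · intro x y; apply a.injective; rw [← hσ, map_add, map_add, hσ, hσ]

/-- the count: an involution `σ ≠ 1` of a finite field of characteristic two over `k` -/
private theorem A12_count {F k : Type} [Field F] [Finite F] [Field k] [Finite k] (h2 : (2 : F) = 0)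
    (σ : F →+* F) (hσ : ∀ c, σ (σ c) = c) (hne : ∃ c, σ c ≠ c) (g : k →+* F)
    (hg : ∀ c, σ (g c) = g c) : ∃ t, Nat.card F = Nat.card k ^ (2 * t) := by
  have hadd : ∀ x : F, x + x = 0 := fun x => by rw [← two_mul, h2, zero_mul]
  let D : F →+ F := σ.toAddMonoidHom + AddMonoidHom.id F
  have hD : ∀ x, D x = σ x + x := fun x => rfl
  have hker : ∀ x, x ∈ D.ker ↔ σ x = x := by
    intro x
    rw [AddMonoidHom.mem_ker, hD]
    constructor
    · intro h
      have := hadd x
      calc σ x = σ x + (x + x) := by rw [this, add_zero]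
        _ = (σ x + x) + x := by ring
        _ = x := by rw [h, zero_add]
    · intro h; rw [h]; exact hadd x
  have hrange : D.range = D.ker := by
    apply le_antisymm
    · rintro y ⟨x, rfl⟩
      rw [hker, hD, map_add, hσ, add_comm]
    · intro y hy
      rw [hker] at hy
      obtain ⟨c, hc⟩ := hne
      set d := σ c + c with hd
      have hd0 : d ≠ 0 := by
        intro h0
        exact hc ((hker c).1 (by rw [AddMonoidHom.mem_ker, hD]; exact h0))
      have hσd : σ d = d := by rw [hd, map_add, hσ, add_comm]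
      refine ⟨y * d⁻¹ * c, ?_⟩
      rw [hD, map_mul, map_mul, map_inv₀, hσd, hy, ← mul_add, ← hd, mul_assoc, inv_mul_cancel₀ hd0,
        mul_one]
  -- the fixed field
  let F' : Subfield F := RingHom.eqLocusField σ (RingHom.id F)
  have hF' : ∀ x, x ∈ F' ↔ σ x = x := fun x => Iff.rfl
  have hcard : Nat.card F = Nat.card F' * Nat.card F' := by
    have h1 := AddSubgroup.card_eq_card_quotient_mul_card_addSubgroup D.ker
    have h2' : Nat.card (F ⧸ D.ker) = Nat.card D.range :=
      Nat.card_congr (QuotientAddGroup.quotientKerEquivRange D).toEquiv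
    have h3 : Nat.card D.ker = Nat.card F' :=
      Nat.card_congr (Equiv.subtypeEquivRight fun x => by rw [hker]; exact (hF' x).symm)
    rw [h1, h2', hrange, h3]
  let g' : k →+* F' := g.codRestrict F' (fun c => by rw [hF']; exact hg c)
  let _ : Algebra k F' := g'.toAlgebra
  have h4 : Nat.card F' = Nat.card k ^ Module.finrank k F' := Module.natCard_eq_pow_finrank
  refine ⟨Module.finrank k F', ?_⟩
  rw [hcard, h4, ← pow_add, two_mul]

private theorem A12_order {F : Type} [Field F] [Finite F] {q t l : ℕ}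
    (hF : Nat.card F = q ^ (2 * t)) (hl : l.Prime) (hlq : l ∣ q + 1) :
    ∃ c : F, c ^ l = 1 ∧ c ≠ 1 := by
  have hu : Nat.card Fˣ = Nat.card F - 1 := Nat.card_units F
  have hdvd : l ∣ Nat.card Fˣ := by
    rw [hu, hF]
    refine hlq.trans ?_
    have h1 : q + 1 ∣ q ^ 2 - 1 := ⟨q - 1, by
      have := Nat.sq_sub_sq q 1
      rw [one_pow] at this
      exact this⟩
    refine h1.trans ?_
    rw [pow_mul]
    have := Nat.sub_dvd_pow_sub_pow (q ^ 2) 1 t
    rwa [one_pow] at this
  have := Fact.mk hl
  obtain ⟨u, hu⟩ := exists_prime_orderOf_dvd_card' l hdvd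
  refine ⟨u, ?_, ?_⟩
  · rw [← Units.val_pow_eq_pow_val, ← hu, pow_orderOf_eq_one, Units.val_one]
  · intro h
    have : u = 1 := Units.ext h
    rw [this, orderOf_one] at hu
    exact hl.one_lt.ne hu


section A12abs

variable {S V : Type} [Ring S] [AddCommGroup V]

private def A12B.D (B : A12B S V) : Subring (Module.End ℤ V) :=
  Subring.centralizer (Set.range B.lam ∪ Set.range B.rho)

private theorem A12B.mem_D (B : A12B S V) (T : Module.End ℤ V) :
    T ∈ B.D ↔ (∀ f x, B.lam f (T x) = T (B.lam f x)) ∧ (∀ f x, B.rho f (T x) = T (B.rho f x)) := by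
  unfold A12B.D
  rw [Subring.mem_centralizer_iff]
  constructor
  · intro h
    refine ⟨fun f x => ?_, fun f x => ?_⟩
    · exact LinearMap.congr_fun (h _ (Or.inl ⟨f, rfl⟩)) x
    · exact LinearMap.congr_fun (h _ (Or.inr ⟨f, rfl⟩)) x
  · rintro ⟨h1, h2⟩ g (⟨f, rfl⟩ | ⟨f, rfl⟩)
    · exact LinearMap.ext fun x => h1 f x
    · exact LinearMap.ext fun x => h2 f x

private theorem A12B.schur (B : A12B S V) {T : Module.End ℤ V} (hT : T ∈ B.D) {x : V}
    (hx : x ≠ 0) (h : T x = 0) : T = 0 := by
  rw [B.mem_D] at hT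
  rcases B.irr (LinearMap.ker T)
    (fun f x hx => by
      rw [LinearMap.mem_ker] at hx ⊢
      rw [← hT.1, hx, map_zero])
    (fun f x hx => by
      rw [LinearMap.mem_ker] at hx ⊢
      rw [← hT.2, hx, map_zero]) with h1 | h1
  · exfalso
    apply hx
    have : x ∈ LinearMap.ker T := h
    rw [h1] at this
    exact this
  · exact LinearMap.ker_eq_top.1 h1

private instance A12B.noZeroDiv (B : A12B S V) : NoZeroDivisors B.D := by
  constructor
  rintro ⟨T, hT⟩ ⟨U, hU⟩ h
  by_cases hU0 : U = 0
  · right; exact Subtype.ext hU0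
  · left
    obtain ⟨x, hx⟩ : ∃ x, U x ≠ 0 := by
      by_contra hc
      push Not at hc
      exact hU0 (LinearMap.ext hc)
    apply Subtype.ext
    refine B.schur hT hx ?_
    have := congrArg Subtype.val h
    exact LinearMap.congr_fun this x

private theorem A12B.finD (B : A12B S V) [Finite V] : Finite B.D := by
  have : Finite (Module.End ℤ V) := DFunLike.finite _
  infer_instance

private theorem A12B.nonD (B : A12B S V) [Nontrivial V] : Nontrivial B.D := by
  infer_instance

/-- commutative, by Wedderburn -/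
private theorem A12B.isField (B : A12B S V) [Finite V] [Nontrivial V] : IsField B.D := by
  have := B.finD
  have := B.nonD
  have : IsDomain B.D := NoZeroDivisors.to_isDomain _
  exact Finite.isDomain_to_isField _

private theorem A12B.lam_mem (B : A12B S V) {z : S} (hz : ∀ f, f * z = z * f) : B.lam z ∈ B.D := by
  rw [B.mem_D]
  refine ⟨fun f x => ?_, fun f x => (B.comm _ _ _).symm⟩
  rw [← Module.End.mul_apply, ← Module.End.mul_apply, ← map_mul, ← map_mul, hz]

private theorem A12B.rho_mem (B : A12B S V) {z : S} (hz : ∀ f, f * z = z * f) :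
    B.rho (op z) ∈ B.D := by
  rw [B.mem_D]
  refine ⟨fun f x => B.comm _ _ _, fun f x => ?_⟩
  rw [← Module.End.mul_apply, ← Module.End.mul_apply, ← map_mul, ← map_mul]
  congr 2
  obtain ⟨f, rfl⟩ := op_surjective f
  rw [← op_mul, ← op_mul, hz]

/-- central idempotents act as `0` or `1` -/
private theorem A12B.idem (B : A12B S V) {T : Module.End ℤ V} (hT : T ∈ B.D) (h : T * T = T) :
    T = 0 ∨ T = 1 := by
  have h1 : (⟨T, hT⟩ : B.D) * (⟨T, hT⟩ - 1) = 0 := by
    apply Subtype.ext
    change T * (T - 1) = 0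
    rw [mul_sub, h, mul_one, sub_self]
  rcases mul_eq_zero.1 h1 with h2 | h2
  · left; exact congrArg Subtype.val h2
  · right
    have := congrArg Subtype.val h2
    exact sub_eq_zero.1 this

private theorem A12B.both (B : A12B S V) [Nontrivial V] {z : S} (hz : ∀ f, f * z = z * f)
    (hzz : z * z = z) (h : B.lam z ≠ 0) : B.lam z = 1 ∧ B.rho (op z) = 1 := by
  have h1 : B.lam z = 1 := by
    rcases B.idem (B.lam_mem hz) (by rw [← map_mul, hzz]) with h1 | h1
    · exact absurd h1 h
    · exact h1
  refine ⟨h1, ?_⟩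
  rcases B.idem (B.rho_mem hz) (by rw [← map_mul, ← op_mul, hzz]) with h2 | h2
  · exfalso
    obtain ⟨x, hx⟩ := exists_ne (0 : V)
    obtain ⟨y, hy⟩ := B.nd x hx
    apply hy
    have h3 : B.lam z x = x := by rw [h1]; rfl
    rw [← h3, B.lr, h2]
    exact B.zero_right _
  · exact h2

private theorem A12B.inj_right (B : A12B S V) {u v : V} (h : ∀ x, B.be x u = B.be x v) : u = v := by
  by_contra hne
  have hw : u - v ≠ 0 := sub_ne_zero.2 hne
  obtain ⟨y, hy⟩ := B.nd _ hw
  apply hy
  have h1 : B.be y (u - v) * B.be y v = B.be y u := by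
    rw [← B.add_right, sub_add_cancel]
  have h0 : B.be y v ≠ 0 := by
    intro h0
    have := B.swap y v
    rw [h0, zero_mul] at this
    exact zero_ne_one this
  have h2 : B.be y (u - v) = 1 := by
    rw [h y] at h1
    exact mul_right_cancel₀ h0 (by rw [h1, one_mul])
  have h3 := B.swap y (u - v)
  rw [h2, one_mul] at h3
  exact h3

/-- right scalar multiplications are twisted left scalar multiplications -/
private theorem A12B.sigma (B : A12B S V) [Finite V] [Nontrivial V] {F : Type} [Field F]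
    [Finite F] (ζ : F →ₙ+* S) (hz : ∀ c f, f * ζ c = ζ c * f) (hl : B.lam (ζ 1) = 1)
    (hr : B.rho (op (ζ 1)) = 1) :
    ∃ σ : F →+* F, (∀ c, B.rho (op (ζ c)) = B.lam (ζ (σ c))) ∧ (∀ c, σ (σ c) = c) ∧
      ∀ c d, B.lam (ζ c) = B.lam (ζ d) → c = d := by
  have hND : Nontrivial B.D := B.nonD
  let a : F →+* B.D :=
    { toFun := fun c => ⟨B.lam (ζ c), B.lam_mem (hz c)⟩
      map_one' := Subtype.ext hl
      map_mul' := fun x y => Subtype.ext (by
        change B.lam (ζ (x * y)) = B.lam (ζ x) * B.lam (ζ y)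
        rw [map_mul, map_mul])
      map_zero' := Subtype.ext (by
        change B.lam (ζ 0) = 0
        rw [map_zero, map_zero])
      map_add' := fun x y => Subtype.ext (by
        change B.lam (ζ (x + y)) = B.lam (ζ x) + B.lam (ζ y)
        rw [map_add, map_add]) }
  let b : F →+* B.D :=
    { toFun := fun c => ⟨B.rho (op (ζ c)), B.rho_mem (hz c)⟩
      map_one' := Subtype.ext hr
      map_mul' := fun x y => Subtype.ext (by
        change B.rho (op (ζ (x * y))) = B.rho (op (ζ x)) * B.rho (op (ζ y))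
        rw [mul_comm x y, map_mul, op_mul, map_mul])
      map_zero' := Subtype.ext (by
        change B.rho (op (ζ 0)) = 0
        rw [map_zero, op_zero, map_zero])
      map_add' := fun x y => Subtype.ext (by
        change B.rho (op (ζ (x + y))) = B.rho (op (ζ x)) + B.rho (op (ζ y))
        rw [map_add, op_add, map_add]) }
  obtain ⟨σ, hσ⟩ := A12_sigma B.isField a b
  have hσ' : ∀ c, B.rho (op (ζ c)) = B.lam (ζ (σ c)) := fun c => congrArg Subtype.val (hσ c)
  refine ⟨σ, hσ', fun c => ?_, fun c d h => a.injective (Subtype.ext h)⟩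
  apply a.injective
  apply Subtype.ext
  change B.lam (ζ (σ (σ c))) = B.lam (ζ c)
  apply LinearMap.ext
  intro y
  apply B.inj_right
  intro x
  rw [← hσ', ← B.lr, ← hσ', B.rl]

private theorem A12_sqrt {F : Type} [Field F] [Finite F] (h2 : (2 : F) = 0) (c : F) :
    ∃ d : F, c = d * d := by
  have hinj : Function.Injective (fun x : F => x * x) := by
    intro x y hxy
    have hxy' : x * x = y * y := hxy
    have h : (x - y) * (x - y) = 0 := by
      have : (x - y) * (x - y) = x * x + y * y - 2 * (x * y) := by ring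
      rw [this, hxy', h2, zero_mul, sub_zero, ← two_mul, h2, zero_mul]
    exact sub_eq_zero.1 (mul_self_eq_zero.1 h)
  obtain ⟨d, hd⟩ := Finite.surjective_of_injective hinj c
  exact ⟨d, hd.symm⟩

private theorem A12B.sigma_ne (B : A12B S V) [Nontrivial V] {F : Type} [Field F]
    [Finite F] (h2 : (2 : F) = 0) (ζ : F →ₙ+* S) (hz : ∀ c f, f * ζ c = ζ c * f)
    (hl : B.lam (ζ 1) = 1) (hr : B.rho (op (ζ 1)) = 1)
    (hs : ∀ c, B.rho (op (ζ c)) = B.lam (ζ c)) (e : S) (hee : e * e = e)
    (he : ∀ f, ∃ c, e * f * e = ζ c * e) {ι : Type} [Fintype ι] (p r : ι → S)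
    (hpr : ∑ s, p s * e * r s = ζ 1) : False := by
  have hL : ∀ f g x, B.lam (f * g) x = B.lam f (B.lam g x) := fun f g x => by
    rw [map_mul]; rfl
  have hR : ∀ f g x, B.rho (op (f * g)) x = B.rho (op g) (B.rho (op f) x) := fun f g x => by
    rw [op_mul, map_mul]; rfl
  -- Claim 1
  obtain ⟨x, hx⟩ : ∃ x, B.lam e (B.rho (op e) x) ≠ 0 := by
    by_contra hc
    push Not at hc
    obtain ⟨x, hx⟩ := exists_ne (0 : V)
    apply hx
    have h1 : B.lam (ζ 1) (B.rho (op (ζ 1)) x) = x := by rw [hl, hr]; rfl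
    rw [← h1, ← hpr, Finset.op_sum, map_sum, map_sum, LinearMap.sum_apply, LinearMap.sum_apply]
    refine Finset.sum_eq_zero fun s _ => ?_
    rw [map_sum]
    refine Finset.sum_eq_zero fun t _ => ?_
    rw [hL, hL, hR, hR, B.comm (r s) (op (r t)), B.comm (r s) (op e), B.comm e (op (r t)), hc,
      map_zero, map_zero]
  set v := B.lam e (B.rho (op e) x) with hv
  have hev : B.lam e v = v := by rw [hv, ← hL, hee]
  have hve : B.rho (op e) v = v := by rw [hv, ← B.comm, ← hR, hee]
  -- Claim 3
  have h3 : ∀ y, ∃ c, B.lam e (B.rho (op e) y) = B.lam (ζ c) v := by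
    let W : Submodule ℤ V := AddSubgroup.toIntSubmodule
      { carrier := {y | ∀ f g, ∃ c, B.lam e (B.rho (op e) (B.lam f (B.rho (op g) y))) =
          B.lam (ζ c) v}
        zero_mem' := fun f g => ⟨0, by simp⟩
        add_mem' := by
          intro y y' hy hy' f g
          obtain ⟨c, hc⟩ := hy f g
          obtain ⟨c', hc'⟩ := hy' f g
          refine ⟨c + c', ?_⟩
          simp only [map_add]
          rw [hc, hc']
          rfl
        neg_mem' := by
          intro y hy f g
          obtain ⟨c, hc⟩ := hy f g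
          refine ⟨-c, ?_⟩
          simp only [map_neg]
          rw [hc]
          rfl }
    have hW : ∀ y, y ∈ W ↔ ∀ f g, ∃ c, B.lam e (B.rho (op e) (B.lam f (B.rho (op g) y))) =
          B.lam (ζ c) v := fun y => Iff.rfl
    have hvW : v ∈ W := by
      rw [hW]
      intro f g
      obtain ⟨c, hc⟩ := he f
      obtain ⟨c', hc'⟩ := he g
      refine ⟨c * c', ?_⟩
      have e1 : B.lam e (B.rho (op e) (B.lam f (B.rho (op g) v))) =
          B.lam (e * f * e) (B.rho (op (e * g * e)) v) := by
        rw [hL, hL, hR, hR, hve]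
        have : B.lam e (B.rho (op e) (B.rho (op g) v)) = B.rho (op e) (B.rho (op g) v) := by
          rw [B.comm, B.comm, hev]
        rw [this, ← B.comm f]
      rw [e1, hc, hc', hR, hs, ← B.comm, hve, ← hL]
      have e2 : ζ c * e * ζ c' = ζ (c * c') * e := by
        rw [mul_assoc, hz c' e, ← mul_assoc, map_mul]
      rw [e2, hL, hev]
    rcases B.irr W
      (fun f y hy => by
        rw [hW] at hy ⊢
        intro f' g
        obtain ⟨c, hc⟩ := hy (f' * f) g
        refine ⟨c, ?_⟩
        rw [← hc, hL, B.comm f])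
      (fun g y hy => by
        rw [hW] at hy ⊢
        intro f g'
        obtain ⟨c, hc⟩ := hy f (g.unop * g')
        refine ⟨c, ?_⟩
        rw [← hc, hR, op_unop]) with h | h
    · exfalso
      rw [h] at hvW
      exact hx hvW
    · intro y
      have hy : y ∈ W := by rw [h]; trivial
      rw [hW] at hy
      obtain ⟨c, hc⟩ := hy 1 1
      refine ⟨c, ?_⟩
      rw [← hc]
      simp
  -- Claim 4
  have h4 : ∀ c, B.be v (B.lam (ζ c) v) = 1 := by
    intro c
    obtain ⟨d, rfl⟩ := A12_sqrt h2 c
    rw [map_mul, hL, ← hs, ← B.lr]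
    rw [hs]
    exact B.self _
  -- Claim 5
  obtain ⟨y, hy⟩ := B.nd v hx
  apply hy
  obtain ⟨c, hc⟩ := h3 y
  have : B.be (B.lam e (B.rho (op e) v)) y = B.be v (B.lam e (B.rho (op e) y)) := by
    rw [B.lr, B.rl]
  rw [hve, hev, hc] at this
  rw [this]
  exact h4 c

end A12abs


section A12mat

variable {b : ℕ} {n : Fin b → ℕ} {F : Fin b → Type} [∀ i, Field (F i)]

/-- the scalars of block `i` -/
private def A12z (n : Fin b → ℕ) (F : Fin b → Type) [∀ i, Field (F i)] (i : Fin b) :
    F i →ₙ+* (∀ i, Matrix (Fin (n i)) (Fin (n i)) (F i)) where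
  toFun c := Pi.single i (Matrix.scalar (Fin (n i)) c)
  map_mul' x y := by rw [map_mul, Pi.single_mul]
  map_zero' := by rw [map_zero, Pi.single_zero]
  map_add' x y := by rw [map_add, Pi.single_add]

private theorem A12z_apply (i : Fin b) (c : F i) :
    A12z n F i c = Pi.single i (Matrix.scalar (Fin (n i)) c) := rfl

private theorem A12_mul_single (i : Fin b) (f : ∀ i, Matrix (Fin (n i)) (Fin (n i)) (F i))
    (a : Matrix (Fin (n i)) (Fin (n i)) (F i)) : f * Pi.single i a = Pi.single i (f i * a) := by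
  funext j
  rw [Pi.mul_apply]
  by_cases h : j = i
  · subst h; rw [Pi.single_eq_same, Pi.single_eq_same]
  · rw [Pi.single_eq_of_ne h, Pi.single_eq_of_ne h, mul_zero]

private theorem A12_single_mul (i : Fin b) (f : ∀ i, Matrix (Fin (n i)) (Fin (n i)) (F i))
    (a : Matrix (Fin (n i)) (Fin (n i)) (F i)) : Pi.single i a * f = Pi.single i (a * f i) := by
  funext j
  rw [Pi.mul_apply]
  by_cases h : j = i
  · subst h; rw [Pi.single_eq_same, Pi.single_eq_same]
  · rw [Pi.single_eq_of_ne h, Pi.single_eq_of_ne h, zero_mul]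

private theorem A12z_central (i : Fin b) (c : F i)
    (f : ∀ i, Matrix (Fin (n i)) (Fin (n i)) (F i)) :
    f * A12z n F i c = A12z n F i c * f := by
  rw [A12z_apply, A12_mul_single, A12_single_mul]
  congr 1
  exact (Matrix.scalar_commute c (Commute.all c) (f i)).symm.eq

private theorem A12z_sum :
    ∑ i, A12z n F i 1 = (1 : ∀ i, Matrix (Fin (n i)) (Fin (n i)) (F i)) := by
  have := Finset.univ_sum_single (1 : ∀ i, Matrix (Fin (n i)) (Fin (n i)) (F i))
  rw [← this]
  refine Finset.sum_congr rfl fun i _ => ?_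
  rw [A12z_apply, map_one]; rfl

private theorem A12_corner (hn : ∀ i, 0 < n i) (i : Fin b) :
    ∃ (e : ∀ i, Matrix (Fin (n i)) (Fin (n i)) (F i))
      (p r : Fin (n i) → (∀ i, Matrix (Fin (n i)) (Fin (n i)) (F i))),
      e * e = e ∧ (∀ f, ∃ c, e * f * e = A12z n F i c * e) ∧
      ∑ s, p s * e * r s = A12z n F i 1 := by
  classical
  set z : Fin (n i) := ⟨0, hn i⟩
  refine ⟨Pi.single i (Matrix.single z z 1), fun s => Pi.single i (Matrix.single s z 1),
    fun s => Pi.single i (Matrix.single z s 1), ?_, ?_, ?_⟩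
  · rw [← Pi.single_mul, Matrix.single_mul_single_same, mul_one]
  · intro f
    refine ⟨f i z z, ?_⟩
    rw [A12_single_mul, A12z_apply, ← Pi.single_mul, ← Pi.single_mul]
    congr 1
    ext s t
    simp only [Matrix.scalar_apply, Matrix.diagonal_mul]
    rw [Matrix.mul_assoc]
    by_cases hs : s = z
    · subst hs
      by_cases ht : t = z
      · subst ht
        simp
      · simp [ht, Ne.symm ht]
    · simp [hs, Ne.symm hs]
  · have : ∀ s : Fin (n i), (Pi.single i (Matrix.single s z (1 : F i)) :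
        ∀ i, Matrix (Fin (n i)) (Fin (n i)) (F i)) * Pi.single i (Matrix.single z z 1) *
          Pi.single i (Matrix.single z s 1) = Pi.single i (Matrix.single s s 1) := by
      intro s
      rw [← Pi.single_mul, ← Pi.single_mul, Matrix.single_mul_single_same,
        Matrix.single_mul_single_same, mul_one, mul_one]
    rw [Finset.sum_congr rfl fun s _ => this s]
    rw [A12z_apply, map_one]
    have h1 : ∀ f : Fin (n i) → Matrix (Fin (n i)) (Fin (n i)) (F i),
        ∑ s, (Pi.single i (f s) : ∀ i, Matrix (Fin (n i)) (Fin (n i)) (F i)) =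
          Pi.single i (∑ s, f s) := by
      intro f
      exact (map_sum (AddMonoidHom.single
        (fun i => Matrix (Fin (n i)) (Fin (n i)) (F i)) i) f Finset.univ).symm
    rw [h1]
    congr 1
    ext s t
    rw [Matrix.sum_apply, Matrix.one_apply]
    by_cases hst : s = t
    · subst hst
      simp [Matrix.single_apply]
    · rw [if_neg hst]
      refine Finset.sum_eq_zero fun u _ => ?_
      rw [Matrix.single_apply, if_neg]
      rintro ⟨rfl, rfl⟩
      exact hst rfl

private theorem A12_scalar (hn : ∀ i, 0 < n i)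
    (f : ∀ i, Matrix (Fin (n i)) (Fin (n i)) (F i)) (hf : ∀ g, g * f = f * g) (i : Fin b) :
    f * A12z n F i 1 = A12z n F i (f i ⟨0, hn i⟩ ⟨0, hn i⟩) := by
  classical
  rw [A12z_apply, A12z_apply, A12_mul_single, map_one, mul_one]
  congr 1
  have h : f i ∈ Set.range (Matrix.scalar (Fin (n i))) := by
    apply Matrix.mem_range_scalar_of_commute_single
    intro s t _
    have := hf (Pi.single i (Matrix.single s t 1))
    rw [A12_mul_single, A12_single_mul] at this
    exact Pi.single_injective i this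
  obtain ⟨r, hr⟩ := h
  rw [← hr]
  simp

end A12mat


/-- a ring homomorphism from a finite local ring to a field is local -/
private theorem A12_local {o F : Type} [CommRing o] [IsLocalRing o] [Finite o] [Field F]
    (g : o →+* F) : IsLocalHom g := by
  constructor
  intro c hc
  by_contra hn
  have h1 : (RingHom.ker g).IsMaximal := by
    have : (RingHom.ker g).IsPrime := RingHom.ker_isPrime g
    exact IsArtinianRing.isMaximal_of_isPrime _
  have h2 : RingHom.ker g = IsLocalRing.maximalIdeal o := IsLocalRing.eq_maximalIdeal h1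
  have h3 : c ∈ RingHom.ker g := by
    rw [h2]
    exact hn
  rw [RingHom.mem_ker] at h3
  rw [h3] at hc
  exact not_isUnit_zero hc

private theorem A12_matrix {b : ℕ} {n : Fin b → ℕ} {F : Fin b → Type} [∀ i, Field (F i)]
    [∀ i, Finite (F i)] (hn : ∀ i, 0 < n i) {V : Type} [AddCommGroup V] [Finite V] [Nontrivial V]
    (B : A12B (∀ i, Matrix (Fin (n i)) (Fin (n i)) (F i)) V)
    {o : Type} [CommRing o] [IsLocalRing o] [Finite o] (h2 : ¬ IsUnit (2 : o))
    (g : o →+* (∀ i, Matrix (Fin (n i)) (Fin (n i)) (F i)))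
    (hgc : ∀ c f, f * g c = g c * f) (hg : ∀ c, B.lam (g c) = B.rho (op (g c))) :
    ∃ i t, Nat.card (F i) = Nat.card (IsLocalRing.ResidueField o) ^ (2 * t) := by
  obtain ⟨i, hi⟩ : ∃ i, B.lam (A12z n F i 1) ≠ 0 := by
    by_contra hc
    push Not at hc
    have h1 : B.lam 1 = 0 := by
      rw [← A12z_sum, map_sum]
      exact Finset.sum_eq_zero fun i _ => hc i
    rw [map_one] at h1
    obtain ⟨x, hx⟩ := exists_ne (0 : V)
    exact hx (LinearMap.congr_fun h1 x)
  obtain ⟨hl, hr⟩ := B.both (A12z_central i 1) (by rw [← map_mul, mul_one]) hi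
  obtain ⟨σ, hσ, hσσ, hinj⟩ := B.sigma (A12z n F i) (A12z_central i) hl hr
  let gi : o →+* F i :=
    { toFun := fun c => g c i ⟨0, hn i⟩ ⟨0, hn i⟩
      map_one' := by rw [map_one]; simp
      map_mul' := by
        intro x y
        have hx := congrFun (A12_scalar hn (g x) (hgc x) i) i
        rw [A12z_apply, A12_mul_single, Pi.single_eq_same, A12z_apply, Pi.single_eq_same,
          map_one, mul_one] at hx
        rw [map_mul, Pi.mul_apply]
        rw [hx]
        simp
      map_zero' := by rw [map_zero]; rfl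
      map_add' := fun x y => by rw [map_add]; rfl }
  have hgi : ∀ c, g c * A12z n F i 1 = A12z n F i (gi c) := fun c => A12_scalar hn (g c) (hgc c) i
  have hfix : ∀ c, σ (gi c) = gi c := by
    intro c
    apply hinj
    rw [← hσ, ← hgi, op_mul, map_mul, hr, one_mul, ← hg, map_mul, hl, mul_one]
  have hloc : IsLocalHom gi := A12_local gi
  have h20 : (2 : F i) = 0 := by
    by_contra h
    apply h2
    apply hloc.map_nonunit
    rw [map_ofNat]
    exact (isUnit_iff_ne_zero.2 h)
  have hfin : Finite (IsLocalRing.ResidueField o) :=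
    Finite.of_surjective _ IsLocalRing.residue_surjective
  have hne : ∃ c, σ c ≠ c := by
    by_contra hc
    push Not at hc
    obtain ⟨e, p, r, hee, he, hpr⟩ := A12_corner (F := F) hn i
    exact B.sigma_ne h20 (A12z n F i) (A12z_central i) hl hr
      (fun c => by rw [hσ, hc]) e hee he p r hpr
  obtain ⟨t, ht⟩ := A12_count h20 σ hσσ hne (IsLocalRing.ResidueField.lift gi) (by
    intro c
    obtain ⟨c, rfl⟩ := IsLocalRing.residue_surjective c
    exact hfix c)
  exact ⟨i, t, ht⟩


private theorem A12_lift {E S T : Type} [Ring E] [Ring S] [Ring T] (φ : E →+* S)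
    (hφ : Function.Surjective φ) (L : E →+* T) (h : ∀ f, φ f = 0 → L f = 0) :
    ∃ lam : S →+* T, ∀ f, lam (φ f) = L f :=
  ⟨RingHom.liftOfSurjective φ hφ ⟨L, fun f hf => h f hf⟩,
    fun f => RingHom.liftOfRightInverse_comp_apply _ _ _ ⟨L, fun f hf => h f hf⟩ f⟩

private theorem A12_nil_of_le {R : Type} [Ring R] {K L : Submodule ℤ R} (h : L ≤ K)
    (hK : IsNilpotent K) : IsNilpotent L := by
  obtain ⟨n, hn⟩ := hK
  refine ⟨n, ?_⟩
  have h1 : L ^ n ≤ K ^ n := pow_le_pow_left' h n
  rw [hn] at h1
  exact le_bot_iff.1 h1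

section A12quot

variable {R : Type} [Ring R]

/-- `s.I` as a submodule of `K` -/
private abbrev A12KI (s : Stage R) (K : Submodule ℤ R) : Submodule ℤ K := s.I.comap K.subtype

private def A12lamK (s : Stage R) {K : Submodule ℤ R} (hK : IsNilIdeal s.E K) (f : s.E) :
    K →ₗ[ℤ] K where
  toFun x := ⟨f * x, hK.mulL f f.2 x x.2⟩
  map_add' _ _ := Subtype.ext (mul_add _ _ _)
  map_smul' c x := Subtype.ext (mul_smul_comm c (f : R) (x : R))

private def A12rhoK (s : Stage R) {K : Submodule ℤ R} (hK : IsNilIdeal s.E K) (f : s.E) :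
    K →ₗ[ℤ] K where
  toFun x := ⟨x * f, hK.mulR f f.2 x x.2⟩
  map_add' _ _ := Subtype.ext (add_mul _ _ _)
  map_smul' c x := Subtype.ext (smul_mul_assoc c (x : R) (f : R))

private theorem A12lamK_le (s : Stage R) {K : Submodule ℤ R} (hK : IsNilIdeal s.E K) (f : s.E) :
    A12KI s K ≤ (A12KI s K).comap (A12lamK s hK f) := fun x hx =>
  s.ideal.mulL f f.2 x hx

private theorem A12rhoK_le (s : Stage R) {K : Submodule ℤ R} (hK : IsNilIdeal s.E K) (f : s.E) :
    A12KI s K ≤ (A12KI s K).comap (A12rhoK s hK f) := fun x hx =>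
  s.ideal.mulR f f.2 x hx

private def A12lamE (s : Stage R) {K : Submodule ℤ R} (hK : IsNilIdeal s.E K) :
    s.E →+* Module.End ℤ (K ⧸ A12KI s K) where
  toFun f := Submodule.mapQ _ _ (A12lamK s hK f) (A12lamK_le s hK f)
  map_one' := by
    apply Submodule.linearMap_qext
    ext x
    change Submodule.Quotient.mk _ = Submodule.Quotient.mk _
    congr 1
    exact Subtype.ext (one_mul _)
  map_mul' f g := by
    apply Submodule.linearMap_qext
    ext x
    change Submodule.Quotient.mk _ = Submodule.Quotient.mk _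
    congr 1
    exact Subtype.ext (mul_assoc _ _ _)
  map_zero' := by
    apply Submodule.linearMap_qext
    ext x
    change Submodule.Quotient.mk _ = Submodule.Quotient.mk _
    congr 1
    exact Subtype.ext (zero_mul _)
  map_add' f g := by
    apply Submodule.linearMap_qext
    ext x
    change Submodule.Quotient.mk _ = Submodule.Quotient.mk (A12lamK s hK f x + A12lamK s hK g x)
    congr 1
    exact Subtype.ext (add_mul _ _ _)

private def A12rhoE (s : Stage R) {K : Submodule ℤ R} (hK : IsNilIdeal s.E K) :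
    (s.E)ᵐᵒᵖ →+* Module.End ℤ (K ⧸ A12KI s K) where
  toFun f := Submodule.mapQ _ _ (A12rhoK s hK f.unop) (A12rhoK_le s hK f.unop)
  map_one' := by
    apply Submodule.linearMap_qext
    ext x
    change Submodule.Quotient.mk _ = Submodule.Quotient.mk _
    congr 1
    exact Subtype.ext (mul_one _)
  map_mul' f g := by
    apply Submodule.linearMap_qext
    ext x
    change Submodule.Quotient.mk _ = Submodule.Quotient.mk _
    congr 1
    exact Subtype.ext (mul_assoc _ _ _).symm
  map_zero' := by
    apply Submodule.linearMap_qext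
    ext x
    change Submodule.Quotient.mk _ = Submodule.Quotient.mk _
    congr 1
    exact Subtype.ext (mul_zero _)
  map_add' f g := by
    apply Submodule.linearMap_qext
    ext x
    change Submodule.Quotient.mk _ =
      Submodule.Quotient.mk (A12rhoK s hK f.unop x + A12rhoK s hK g.unop x)
    congr 1
    exact Subtype.ext (mul_add _ _ _)

/-- the bimodule `K / s.I` -/
private theorem A12_bimodule [Finite R] (s : Stage R) {K : Submodule ℤ R}
    (hK : IsNilIdeal s.E K) (hle : s.I ≤ K) (sq : ∀ x ∈ K, ∀ y ∈ K, x * y ∈ s.I)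
    (hmin : ∀ K' : Submodule ℤ R, IsNilIdeal s.E K' → s.I ≤ K' → K' ≤ K → K' = s.I ∨ K' = K)
    (hnd : ∀ x ∈ K, x ∉ s.I → ∃ y ∈ K, s.m (x * y) ≠ s.m (y * x))
    {S : Type} [Ring S] (φ : s.E →+* S) (hφ : Function.Surjective φ)
    (hker : ∀ f, φ f = 0 → ∀ x ∈ K, (f : R) * x ∈ s.I ∧ x * f ∈ s.I) :
    ∃ B : A12B S (K ⧸ A12KI s K), (∀ f, B.lam (φ f) = A12lamE s hK f) ∧
      (∀ f, B.rho (op (φ f)) = A12rhoE s hK (op f)) := by
  obtain ⟨lam, hlam⟩ := A12_lift φ hφ (A12lamE s hK) (by
    intro f hf
    apply Submodule.linearMap_qext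
    ext x
    change Submodule.Quotient.mk _ = Submodule.Quotient.mk 0
    rw [Submodule.Quotient.eq, sub_zero]
    exact (hker f hf x x.2).1)
  obtain ⟨rho, hrho⟩ := A12_lift (RingHom.op φ) (by
      intro y
      obtain ⟨f, hf⟩ := hφ y.unop
      refine ⟨op f, ?_⟩
      rw [RingHom.op_apply_apply]
      change op (φ f) = y
      rw [hf, op_unop]) (A12rhoE s hK) (by
    intro f hf
    apply Submodule.linearMap_qext
    ext x
    change Submodule.Quotient.mk _ = Submodule.Quotient.mk 0
    rw [Submodule.Quotient.eq, sub_zero]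
    refine (hker f.unop ?_ x x.2).2
    exact op_injective hf)
  have hrho' : ∀ f, rho (op (φ f)) = A12rhoE s hK (op f) := fun f => hrho (op f)
  let out : (K ⧸ A12KI s K) → K := Function.surjInv (Submodule.mkQ_surjective _)
  have hout : ∀ v, Submodule.Quotient.mk (out v) = v := Function.surjInv_eq _
  have hbe : ∀ x y : K, beta s.m (out (Submodule.Quotient.mk x)) (out (Submodule.Quotient.mk y)) =
      beta s.m x y := by
    intro x y
    have h1 := (Submodule.Quotient.eq _).1 (hout (Submodule.Quotient.mk x))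
    have h2 := (Submodule.Quotient.eq _).1 (hout (Submodule.Quotient.mk y))
    set x' := out (Submodule.Quotient.mk x)
    set y' := out (Submodule.Quotient.mk y)
    have h1' : (x' : R) - x ∈ s.I := h1
    have h2' : (y' : R) - y ∈ s.I := h2
    have e1 : (x' : R) = x + (x' - x) := by abel
    have e2 : (y' : R) = y + (y' - y) := by abel
    rw [e1, beta_add_left s hK hle sq x.2 (hle h1') y'.2, beta_left_mem s hK h1' y'.2, mul_one]
    rw [e2, beta_add_right s hK hle sq x.2 y.2 (hle h2'), beta_right_mem s hK x.2 h2', mul_one]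
  have hL : ∀ (f : s.E) (x : K), lam (φ f) (Submodule.Quotient.mk x) =
      Submodule.Quotient.mk (⟨f * x, hK.mulL f f.2 x x.2⟩ : K) := by
    intro f x; rw [hlam]; rfl
  have hR : ∀ (f : s.E) (x : K), rho (op (φ f)) (Submodule.Quotient.mk x) =
      Submodule.Quotient.mk (⟨x * f, hK.mulR f f.2 x x.2⟩ : K) := by
    intro f x; rw [hrho']; rfl
  have hiff : ∀ x ∈ K, ∀ y ∈ K, (beta s.m x y = 1 ↔ s.m (x * y) = s.m (y * x)) := by
    intro x hx y hy
    unfold beta
    exact div_eq_one_iff_eq (m_ne_zero s (sq y hy x hx))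
  refine ⟨{ lam := lam, rho := rho, comm := ?_, irr := ?_,
            be := fun u v => beta s.m (out u) (out v),
            zero_right := ?_, self := ?_, nd := ?_, swap := ?_, add_right := ?_, lr := ?_,
            rl := ?_ }, hlam, hrho'⟩
  · intro f g x
    obtain ⟨f, rfl⟩ := hφ f
    obtain ⟨g, rfl⟩ := op_surjective g
    obtain ⟨g, rfl⟩ := hφ g
    obtain ⟨x, rfl⟩ := Submodule.Quotient.mk_surjective _ x
    rw [hR, hL, hL, hR]
    congr 1
    exact Subtype.ext (mul_assoc _ _ _).symm
  · intro W hW1 hW2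
    have hmem : ∀ x : K, (x : R) ∈ (W.comap (A12KI s K).mkQ).map K.subtype ↔
        (Submodule.Quotient.mk x : K ⧸ A12KI s K) ∈ W := by
      intro x
      rw [Submodule.mem_map]
      constructor
      · rintro ⟨y, hy, hyx⟩
        have : y = x := Subtype.ext hyx
        rw [← this]; exact hy
      · intro h
        exact ⟨x, h, rfl⟩
    have hle2 : (W.comap (A12KI s K).mkQ).map K.subtype ≤ K := Submodule.map_subtype_le _ _
    have hN : IsNilIdeal s.E ((W.comap (A12KI s K).mkQ).map K.subtype) := by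
      refine ⟨fun x hx => hK.le x (hle2 hx), ?_, ?_, A12_nil_of_le hle2 hK.nil⟩
      · intro f hf x hx
        have h1 := (hmem ⟨x, hle2 hx⟩).1 hx
        have h2 := hW1 (φ ⟨f, hf⟩) _ h1
        rw [hL] at h2
        exact (hmem ⟨f * x, hK.mulL f hf x (hle2 hx)⟩).2 h2
      · intro f hf x hx
        have h1 := (hmem ⟨x, hle2 hx⟩).1 hx
        have h2 := hW2 (op (φ ⟨f, hf⟩)) _ h1
        rw [hR] at h2
        exact (hmem ⟨x * f, hK.mulR f hf x (hle2 hx)⟩).2 h2
    have hle3 : s.I ≤ (W.comap (A12KI s K).mkQ).map K.subtype := by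
      intro x hx
      refine (hmem ⟨x, hle hx⟩).2 ?_
      have : (Submodule.Quotient.mk (⟨x, hle hx⟩ : K) : K ⧸ A12KI s K) = 0 := by
        rw [Submodule.Quotient.mk_eq_zero]; exact hx
      rw [this]; exact W.zero_mem
    rcases hmin _ hN hle3 hle2 with h | h
    · left
      rw [eq_bot_iff]
      intro v hv
      obtain ⟨x, rfl⟩ := Submodule.Quotient.mk_surjective _ v
      have := (hmem x).2 hv
      rw [h] at this
      rw [Submodule.mem_bot, Submodule.Quotient.mk_eq_zero]
      exact this
    · right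
      rw [eq_top_iff]
      intro v _
      obtain ⟨x, rfl⟩ := Submodule.Quotient.mk_surjective _ v
      refine (hmem x).1 ?_
      rw [h]; exact x.2
  · intro x
    obtain ⟨x, rfl⟩ := Submodule.Quotient.mk_surjective _ x
    have := hbe x 0
    rw [Submodule.Quotient.mk_zero] at this
    rw [this]
    exact beta_right_mem s hK x.2 s.I.zero_mem
  · intro x
    exact beta_self s sq (out x).2
  · intro x hx
    obtain ⟨x, rfl⟩ := Submodule.Quotient.mk_surjective _ x
    have hx' : (x : R) ∉ s.I := fun h => hx (by rw [Submodule.Quotient.mk_eq_zero]; exact h)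
    obtain ⟨y, hy, hxy⟩ := hnd x x.2 hx'
    refine ⟨Submodule.Quotient.mk ⟨y, hy⟩, ?_⟩
    rw [hbe]
    exact fun h => hxy ((hiff x x.2 y hy).1 h)
  · intro x y
    exact beta_swap s sq (out x).2 (out y).2
  · intro x y z
    obtain ⟨x, rfl⟩ := Submodule.Quotient.mk_surjective _ x
    obtain ⟨y, rfl⟩ := Submodule.Quotient.mk_surjective _ y
    obtain ⟨z, rfl⟩ := Submodule.Quotient.mk_surjective _ z
    rw [← Submodule.Quotient.mk_add, hbe, hbe, hbe]
    exact beta_add_right s hK hle sq x.2 y.2 z.2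
  · intro f x y
    obtain ⟨f, rfl⟩ := hφ f
    obtain ⟨x, rfl⟩ := Submodule.Quotient.mk_surjective _ x
    obtain ⟨y, rfl⟩ := Submodule.Quotient.mk_surjective _ y
    rw [hL, hR, hbe, hbe]
    exact beta_mul_left s hK sq f.2 x.2 y.2
  · intro f x y
    obtain ⟨f, rfl⟩ := hφ f
    obtain ⟨x, rfl⟩ := Submodule.Quotient.mk_surjective _ x
    obtain ⟨y, rfl⟩ := Submodule.Quotient.mk_surjective _ y
    rw [hL, hR, hbe, hbe]
    exact beta_mul_right s hK sq f.2 x.2 y.2

end A12quot

/-- The central unit of order `l` (blueprint 1.5 (c)). Residue characteristic two.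
PROOF. `J` the largest nilpotent ideal of `s.E`, `J ≠ s.I`; `K` from `exists_minimal`; `V = K / s.I` is a bimodule over `S = s.E / J`
(`terminal_sq`: `J K, K J ≤ s.I`). `φ : s.E → ∏ M_{n_i}(F_i)` from `wedderburn`. The maximal ideal of `o` maps into `J` (it generates a
nilpotent ideal of `s.E`), so the residue field `k` of `o` (`q` elements) embeds centrally into `S`, and `2 V = 0`.
1. The central idempotents `z_i` of `S`: exactly one `z_i` acts as the identity on `V` from the left (`minimal_schur` for `z_i` and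
 `1 - z_i`), similarly `z_j` from the right; `i = j`: if `z_i V = V`, `V z_i = 0` then `β(z_i x, y) = β(x, y z_i) = 1`: contradiction.
2. `F := F_i`, `Q := |F|`. For `c ∈ F` let `a(c), b(c) : V → V` be left and right multiplication by (a lift of) the scalar `c` of block `i`;
 additive, multiplicative in `c`, commute with each other and with the bimodule structure. For `w ∈ F`: `∏_{c ∈ F} (b(w) - a(c)) = b(w)^Q - b(w) = 0`
 (from `∏ (X - c) = X^Q - X` over `F`), so by Schur one factor is zero: `b(w) = a(σ w)`, which defines a ring automorphism `σ` of `F`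
 (injective as `b` is). `β(a(c) x, y) = β(x, b(c) y)` and `β(b(c) x, y) = β(x, a(c) y)`; so `β(x, b(σ c) y) = β(a(σ c) x, y) = β(b(c) x, y) = β(x, a(c) y)`, i.e.
 `a(σ (σ c)) = b(σ c) = a(c)`, `σ^2 = 1`. `σ` fixes the image of `k` (elements of `o` are central in `R`).
3. Suppose `σ = 1`. Let `e ∈ s.E` be a lift of the matrix unit `E_11` of block `i`. `e V e ≠ 0` (some `E_ss V E_tt ≠ 0`, move it by `E_1s`, `E_t1`). Let
 `0 ≠ v ∈ e V e`; `V = S v S` (minimality), so `e V e = (e S e) v (e S e) = F v` (`σ = 1`). For `c, c' ∈ F`, `d^2 = c c'` (`F` perfect of char 2):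
 `β(c v, c' v) = β(v, c c' v) = β(v, d^2 v) = β(d v, d v) = 1`. So `β(v, e y e) = 1` for all `y ∈ V`, and `β(v, y) = β(e v e, y) = β(v, e y e) = 1` for all
 `y`, contradicting the nondegeneracy.
4. So `σ ≠ 1`, `σ^2 = 1`; the fixed field `F'` of `σ` contains `k`, `|F'| = q^t`, `|F| = |F'|^2 = q^(2t)`. `l ∣ q + 1 ∣ q^(2t) - 1 = |Fˣ|`: take `c ∈ Fˣ` of order `l` and `x ∈ s.E`
 with `φ x = (c at block i, 1 at the other blocks)`. -/
theorem central_unit {R : Type} [Ring R] [Finite R] (s : Stage R) (hs : s.Terminal)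
    (o : Type) [CommRing o] [IsLocalRing o] [Finite o] [Algebra o R]
    (hE : ∀ c : o, algebraMap o R c ∈ s.E) (h2 : ¬ IsUnit (2 : o)) {J : Submodule ℤ R}
    (hJ : IsNilIdeal s.E J) (hmax : ∀ K, IsNilIdeal s.E K → K ≤ J) (hne : J ≠ s.I)
    (l : ℕ) (hl : l.Prime) (hlq : l ∣ Nat.card (IsLocalRing.ResidueField o) + 1) :
    ∃ x ∈ s.E, x ^ l - 1 ∈ J ∧ x - 1 ∉ J ∧ ∀ f ∈ s.E, f * x - x * f ∈ J := by
  classical
  have hIJ : s.I ≤ J := hmax _ s.ideal
  obtain ⟨K, hK, hIK, hKne, hKJ, hmin, hnd⟩ := exists_minimal s hs hJ hIJ hne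
  have sq := terminal_sq s hs hK
  have sqJ := terminal_sq s hs hJ
  obtain ⟨b, n, F, instF, instFin, φ, hn, hφ, hker⟩ := wedderburn s.E J hJ hmax
  obtain ⟨B, hlam, hrho⟩ := A12_bimodule s hK hIK sq hmin hnd φ hφ (by
    intro f hf x hx
    have hfJ := (hker f).1 hf
    exact ⟨sqJ _ hfJ _ (hKJ hx), sqJ _ (hKJ hx) _ hfJ⟩)
  have hV : Nontrivial (K ⧸ A12KI s K) := by
    obtain ⟨x, hx, hx'⟩ : ∃ x ∈ K, x ∉ s.I := by
      by_contra hc
      push Not at hc
      exact hKne (le_antisymm hc hIK)
    refine ⟨Submodule.Quotient.mk ⟨x, hx⟩, 0, ?_⟩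
    intro h
    rw [Submodule.Quotient.mk_eq_zero] at h
    exact hx' h
  have hVfin : Finite (K ⧸ A12KI s K) :=
    Finite.of_surjective _ (Submodule.mkQ_surjective (A12KI s K))
  let g : o →+* (∀ i, Matrix (Fin (n i)) (Fin (n i)) (F i)) :=
    φ.comp ((algebraMap o R).codRestrict s.E hE)
  have hg0 : ∀ c, g c = φ ⟨algebraMap o R c, hE c⟩ := fun c => rfl
  obtain ⟨i, t, hit⟩ := A12_matrix hn B h2 g
    (by
      intro c f
      obtain ⟨f, rfl⟩ := hφ f
      rw [hg0, ← map_mul, ← map_mul]
      congr 1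
      exact Subtype.ext (Algebra.commutes c (f : R)).symm)
    (by
      intro c
      rw [hg0, hlam, hrho]
      apply Submodule.linearMap_qext
      ext x
      change Submodule.Quotient.mk _ = Submodule.Quotient.mk _
      congr 1
      exact Subtype.ext (Algebra.commutes c (x : R)))
  obtain ⟨c, hc1, hc2⟩ := A12_order hit hl hlq
  obtain ⟨x, hx⟩ := hφ (Function.update 1 i (Matrix.scalar (Fin (n i)) c))
  refine ⟨x, x.2, ?_, ?_, ?_⟩
  · have h1 : φ (x ^ l - 1) = 0 := by
      rw [map_sub, map_pow, hx, map_one, sub_eq_zero]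
      funext j
      rw [Pi.pow_apply]
      by_cases hj : j = i
      · subst hj
        rw [Function.update_self, ← map_pow, hc1, map_one]; rfl
      · rw [Function.update_of_ne hj, Pi.one_apply, one_pow]
    have h3 := (hker _).1 h1
    simpa using h3
  · intro h
    have h1 : φ (x - 1) = 0 := (hker _).2 (by simpa using h)
    rw [map_sub, hx, map_one, sub_eq_zero] at h1
    have h3 := congrFun h1 i
    rw [Function.update_self, Pi.one_apply] at h3
    apply hc2
    have h4 := congrFun (congrFun h3 ⟨0, hn i⟩) ⟨0, hn i⟩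
    simpa using h4
  · intro f hf
    have h1 : φ (⟨f, hf⟩ * x - x * ⟨f, hf⟩) = 0 := by
      rw [map_sub, map_mul, map_mul, hx, sub_eq_zero]
      funext j
      rw [Pi.mul_apply, Pi.mul_apply]
      by_cases hj : j = i
      · subst hj
        rw [Function.update_self]
        exact (Matrix.scalar_commute c (Commute.all c) _).symm.eq
      · rw [Function.update_of_ne hj, Pi.one_apply, one_mul, mul_one]
    exact (hker _).1 h1

end Pool.Agent.Lib.MP_fa0f6c_al.Cx
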