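import Pool.Agent.Lib.MP_fa0f6c_al.Cx.Defs
import Pool.Agent.Lib.MP_fa0f6c_al.Cx.R05

set_option autoImplicit false

namespace Pool.Agent.Lib.MP_fa0f6c_al.Cx

open scoped ComplexConjugate

/-- Schur's lemma for an operator commuting with the representation. -/
private theorem R07_schur {G V : Type} [Group G] [AddCommGroup V] [Module ℂ V]
    [FiniteDimensional ℂ V] (ρ : Representation ℂ G V) (hρ : ρ.IsIrreducible) (A : V →ₗ[ℂ] V)
    (hA : ∀ g : G, A * ρ g = ρ g * A) : ∃ c : ℂ, A = c • (1 : V →ₗ[ℂ] V) := by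
  have := hρ
  let f : Representation.IntertwiningMap ρ ρ :=
    ⟨A, fun g => by
      have := hA g
      simpa [Module.End.mul_eq_comp] using this⟩
  obtain ⟨c, hc⟩ :=
    (Representation.IsIrreducible.algebraMap_intertwiningMap_bijective_of_isAlgClosed
      (ρ := ρ) (k := ℂ)).2 f
  refine ⟨c, ?_⟩
  have h2 : f.toLinearMap = A := rfl
  rw [← h2, ← hc]
  ext v
  simp [Algebra.algebraMap_eq_smul_one]

private theorem R07_trace {V : Type} [AddCommGroup V] [Module ℂ V] [FiniteDimensional ℂ V]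
    (c : ℂ) : LinearMap.trace ℂ V (c • (1 : V →ₗ[ℂ] V)) = c * Module.finrank ℂ V := by
  rw [map_smul, LinearMap.trace_one, smul_eq_mul]

/-- HINT: Schur: `∑ t, ρ (t * h * t⁻¹)` is a scalar operator; its trace gives the scalar
`|G| χ(h) / χ(1)`; multiply by `ρ g` and take the trace. -/
theorem irr_mul_avg {G : Type} [Group G] [Finite G] {χ : G → ℂ} (h : χ ∈ Irr G) (x y : G) :
    χ 1 * ∑ᶠ t : G, χ (x * (t * y * t⁻¹)) = Nat.card G * χ x * χ y := by
  classical
  have := Fintype.ofFinite G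
  obtain ⟨n, ρ, hρ, rfl⟩ := h
  obtain ⟨c, hc⟩ := R07_schur ρ hρ (∑ t : G, ρ (t * y * t⁻¹)) (fun g => by
    rw [Finset.sum_mul, Finset.mul_sum]
    refine Fintype.sum_equiv (Equiv.mulLeft g⁻¹) _ _ (fun t => ?_)
    rw [← map_mul, ← map_mul]
    congr 1
    simp [mul_assoc])
  have h1 := congrArg (LinearMap.trace ℂ _) hc
  rw [R07_trace, map_sum] at h1
  have h2 : ∀ t : G, LinearMap.trace ℂ (Fin n → ℂ) (ρ (t * y * t⁻¹)) = ρ.character y := fun t =>
    Representation.char_conj ρ y t
  simp only [h2, Finset.sum_const, Finset.card_univ, nsmul_eq_mul] at h1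
  have h3 : ∑ t : G, ρ.character (x * (t * y * t⁻¹)) = c * ρ.character x := by
    have h4 : ρ x * (∑ t : G, ρ (t * y * t⁻¹)) = c • ρ x := by
      rw [hc, mul_smul_comm, mul_one]
    have h5 := congrArg (LinearMap.trace ℂ _) h4
    rw [Finset.mul_sum, map_sum, map_smul, smul_eq_mul] at h5
    rw [Representation.character, ← h5]
    refine Finset.sum_congr rfl (fun t _ => ?_)
    rw [← map_mul]
    rfl
  rw [finsum_eq_sum_of_fintype, h3, Representation.char_one, Nat.card_eq_fintype_card]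
  linear_combination (-ρ.character x) * h1

private theorem R07_B {G : Type} [Group G] [Fintype G] {n : ℕ}
    (ρ : Representation ℂ G (Fin n → ℂ)) (hρ : ρ.IsIrreducible) :
    (n : ℂ) • (∑ x : G, ρ.character x • ρ x⁻¹) = (Nat.card G : ℂ) • 1 := by
  classical
  obtain ⟨c, hc⟩ := R07_schur ρ hρ (∑ x : G, ρ.character x • ρ x⁻¹) (fun g => by
    rw [Finset.sum_mul, Finset.mul_sum]
    refine Fintype.sum_equiv (MulAut.conj g⁻¹).toEquiv _ _ (fun t => ?_)
    rw [smul_mul_assoc, mul_smul_comm, ← map_mul, ← map_mul]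
    have e1 : (MulAut.conj g⁻¹).toEquiv t = g⁻¹ * t * g := by simp
    rw [e1]
    have e2 : ρ.character (g⁻¹ * t * g) = ρ.character t := by
      have := Representation.char_conj ρ t g⁻¹
      rwa [inv_inv] at this
    rw [e2]
    congr 2
    group)
  have h1 := congrArg (LinearMap.trace ℂ _) hc
  rw [R07_trace, map_sum] at h1
  have hχ : (ρ.character : G → ℂ) ∈ Irr G := ⟨n, ρ, hρ, rfl⟩
  have h2 := ip_irr hχ hχ
  rw [if_pos rfl] at h2
  unfold ip at h2
  rw [finsum_eq_sum_of_fintype] at h2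
  have hcard : (Nat.card G : ℂ) ≠ 0 := by
    exact_mod_cast Nat.card_pos.ne'
  have h3 : ∑ x : G, ρ.character x * conj (ρ.character x) = Nat.card G := by
    field_simp at h2
    exact h2
  have h4 : ∑ x : G, LinearMap.trace ℂ (Fin n → ℂ) (ρ.character x • ρ x⁻¹) = Nat.card G := by
    rw [← h3]
    refine Finset.sum_congr rfl (fun x _ => ?_)
    rw [map_smul, smul_eq_mul]
    congr 1
    exact irr_inv hχ x
  rw [h4] at h1
  rw [hc, smul_smul]
  congr 1
  rw [h1]
  simp [mul_comm]

/-- HINT: for `χ = ψ` first: `∑ g, χ (g) ρ (g⁻¹)` is a scalar operator, trace `|G| ip χ χ`, ... -/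
theorem irr_conv {G : Type} [Group G] [Finite G] {χ : G → ℂ} (h : χ ∈ Irr G) (y : G) :
    χ 1 * ∑ᶠ x : G, χ x * χ (x⁻¹ * y) = Nat.card G * χ y := by
  classical
  have := Fintype.ofFinite G
  obtain ⟨n, ρ, hρ, rfl⟩ := h
  have hB := R07_B ρ hρ
  have h1 := congrArg (fun A => LinearMap.trace ℂ (Fin n → ℂ) (A * ρ y)) hB
  simp only [smul_mul_assoc, one_mul, map_smul, smul_eq_mul, Finset.sum_mul, map_sum] at h1
  rw [finsum_eq_sum_of_fintype, Representation.char_one]
  have h2 : ∀ x : G, LinearMap.trace ℂ (Fin n → ℂ) (ρ x⁻¹ * ρ y) = ρ.character (x⁻¹ * y) := by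
    intro x
    rw [← map_mul]
    rfl
  simp only [h2] at h1
  simpa [Representation.character] using h1

/-- a scalar operator which is integral has an integral scalar -/
private theorem R07_int {R : Type} [CommRing R] [Algebra R ℂ] {V : Type} [AddCommGroup V]
    [Module ℂ V] [Module R V] [IsScalarTower R ℂ V] [Nontrivial V] (c : ℂ)
    (h : IsIntegral R (c • (1 : Module.End ℂ V))) : IsIntegral R c := by
  let f : ℂ →ₐ[R] Module.End ℂ V := (Algebra.ofId ℂ (Module.End ℂ V)).restrictScalars R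
  have hf : Function.Injective f := (algebraMap ℂ (Module.End ℂ V)).injective
  rw [← isIntegral_algHom_iff f hf]
  have : f c = c • (1 : Module.End ℂ V) := by
    change algebraMap ℂ (Module.End ℂ V) c = _
    rw [Algebra.algebraMap_eq_smul_one]
  rw [this]
  exact h

/-- Central characters are algebraic integers: `|G : C(g)| χ(g) / χ(1)`. HINT: the class sums span
a subring of the centre of `ℤ[G]`, finitely generated as a `ℤ`-module; it acts on the irreducible
representation by scalars (`IsIntegral` of an element of a subring which is a f.g. `ℤ`-module). -/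
theorem irr_central_integral {G : Type} [Group G] [Finite G] {χ : G → ℂ} (h : χ ∈ Irr G) (g : G) :
    IsIntegral ℤ ((Nat.card G : ℂ) * χ g / (Nat.card (Subgroup.centralizer {g}) * χ 1)) := by
  classical
  have := Fintype.ofFinite G
  obtain ⟨m, hm0, hm⟩ := irr_deg h
  obtain ⟨n, ρ, hρ, rfl⟩ := h
  have hn : (m : ℂ) = n := by
    rw [← hm, Representation.char_one]
    simp
  have hmn : m = n := by exact_mod_cast hn
  subst hmn
  have : Nonempty (Fin m) := ⟨⟨0, hm0⟩⟩
  have : Nontrivial (Fin m → ℂ) := inferInstance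
  set s : Finset G := Finset.univ.image (fun t : G => t * g * t⁻¹) with hs
  obtain ⟨c, hc⟩ := R07_schur ρ hρ (∑ x ∈ s, ρ x) (fun x => by
    rw [Finset.sum_mul, Finset.mul_sum]
    refine Finset.sum_bij' (fun t _ => x⁻¹ * t * x) (fun t _ => x * t * x⁻¹) ?_ ?_ ?_ ?_ ?_
    · intro t ht
      rw [hs, Finset.mem_image] at ht ⊢
      obtain ⟨u, _, rfl⟩ := ht
      exact ⟨x⁻¹ * u, Finset.mem_univ _, by group⟩
    · intro t ht
      rw [hs, Finset.mem_image] at ht ⊢
      obtain ⟨u, _, rfl⟩ := ht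
      exact ⟨x * u, Finset.mem_univ _, by group⟩
    · intro t _
      group
    · intro t _
      group
    · intro t _
      rw [← map_mul, ← map_mul]
      congr 1
      group)
  -- the scalar
  have hcard : Nat.card G = s.card * Nat.card (Subgroup.centralizer {g}) := by
    have e1 := MulAction.card_orbit_mul_card_stabilizer_eq_card_group (ConjAct G) g
    rw [Subgroup.nat_card_centralizer_nat_card_stabilizer, Nat.card_eq_fintype_card,
      Nat.card_eq_fintype_card]
    have e2 : Fintype.card (ConjAct G) = Fintype.card G := rfl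
    rw [e2] at e1
    rw [← e1]
    congr 1
    rw [← Set.toFinset_card]
    congr 1
    ext x
    rw [Set.mem_toFinset, hs, Finset.mem_image]
    constructor
    · rintro ⟨t, rfl⟩
      exact ⟨ConjAct.ofConjAct t, Finset.mem_univ _, (ConjAct.smul_def t g).symm⟩
    · rintro ⟨t, _, rfl⟩
      exact ⟨ConjAct.toConjAct t, ConjAct.smul_def _ g⟩
  have h1 := congrArg (LinearMap.trace ℂ _) hc
  rw [R07_trace, map_sum] at h1
  have h2 : ∑ x ∈ s, LinearMap.trace ℂ (Fin m → ℂ) (ρ x) = s.card * ρ.character g := by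
    rw [Finset.sum_congr rfl (g := fun _ => ρ.character g), Finset.sum_const, nsmul_eq_mul]
    intro x hx
    rw [hs, Finset.mem_image] at hx
    obtain ⟨t, _, rfl⟩ := hx
    exact Representation.char_conj ρ g t
  rw [h2] at h1
  have hm1 : (m : ℂ) ≠ 0 := by exact_mod_cast hm0.ne'
  have hC : (Nat.card (Subgroup.centralizer {g}) : ℂ) ≠ 0 := by
    exact_mod_cast Nat.card_pos.ne'
  have hcv : (Nat.card G : ℂ) * ρ.character g /
      (Nat.card (Subgroup.centralizer {g}) * ρ.character 1) = c := by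
    rw [Representation.char_one]
    simp only [Module.finrank_fintype_fun_eq_card, Fintype.card_fin] at h1 ⊢
    rw [hcard, Nat.cast_mul, div_eq_iff (mul_ne_zero hC hm1)]
    linear_combination (Nat.card (Subgroup.centralizer {g}) : ℂ) * h1
  rw [hcv]
  apply R07_int (V := Fin m → ℂ)
  rw [← hc]
  -- integrality
  let φ : MonoidAlgebra ℤ G →ₐ[ℤ] Module.End ℂ (Fin m → ℂ) := MonoidAlgebra.lift ℤ _ G ρ
  have hφ : φ (∑ x ∈ s, MonoidAlgebra.single x 1) = ∑ x ∈ s, ρ x := by
    rw [map_sum]
    refine Finset.sum_congr rfl (fun x _ => ?_)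
    simp [φ]
  rw [← hφ]
  exact IsIntegral.map φ (Algebra.IsIntegral.isIntegral _)

/-- the degree divides the group order -/
theorem irr_deg_dvd {G : Type} [Group G] [Finite G] {χ : G → ℂ} (h : χ ∈ Irr G) (n : ℕ)
    (hn : χ 1 = n) : n ∣ Nat.card G := by
  classical
  have := Fintype.ofFinite G
  obtain ⟨m, hm0, hm⟩ := irr_deg h
  have hχ := h
  obtain ⟨m', ρ, hρ, hρχ⟩ := h
  subst hρχ
  have hmn : m = m' := by
    have : (m : ℂ) = m' := by
      rw [← hm, Representation.char_one]
      simp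
    exact_mod_cast this
  subst hmn
  have hnm : n = m := by
    have : (n : ℂ) = m := by rw [← hn, hm]
    exact_mod_cast this
  subst hnm
  have : Nonempty (Fin n) := ⟨⟨0, hm0⟩⟩
  have : Nontrivial (Fin n → ℂ) := inferInstance
  have hn1 : (n : ℂ) ≠ 0 := by exact_mod_cast hm0.ne'
  have hB := R07_B ρ hρ
  have hB2 : (∑ x : G, ρ.character x • ρ x⁻¹) = ((Nat.card G : ℂ) / n) • 1 := by
    have := congrArg (fun A => (n : ℂ)⁻¹ • A) hB
    simp only [smul_smul, inv_mul_cancel₀ hn1, one_smul] at this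
    rw [this]
    congr 1
    field_simp
  let R : Subalgebra ℤ ℂ := integralClosure ℤ ℂ
  have : Algebra.IsIntegral ℤ R := integralClosure.AlgebraIsIntegral
  have hint : IsIntegral R (((Nat.card G : ℂ) / n) • (1 : Module.End ℂ (Fin n → ℂ))) := by
    rw [← hB2]
    let φ : MonoidAlgebra R G →ₐ[R] Module.End ℂ (Fin n → ℂ) := MonoidAlgebra.lift R _ G ρ
    have hφ : φ (∑ x : G, MonoidAlgebra.single x⁻¹ (⟨ρ.character x, irr_isIntegral hχ x⟩ : R)) =
        ∑ x : G, ρ.character x • ρ x⁻¹ := by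
      rw [map_sum]
      refine Finset.sum_congr rfl (fun x _ => ?_)
      simp only [φ, MonoidAlgebra.lift_single]
      rfl
    rw [← hφ]
    exact IsIntegral.map φ (Algebra.IsIntegral.isIntegral _)
  have h1 : IsIntegral R ((Nat.card G : ℂ) / n) := R07_int (V := Fin n → ℂ) _ hint
  have h2 : IsIntegral ℤ ((Nat.card G : ℂ) / n) := isIntegral_trans _ h1
  have h3 : IsIntegral ℤ ((Nat.card G : ℚ) / n) := by
    rw [← isIntegral_algebraMap_iff (B := ℂ) (algebraMap ℚ ℂ).injective]
    simpa using h2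
  obtain ⟨z, hz⟩ := IsIntegrallyClosed.isIntegral_iff.1 h3
  have hn2 : (n : ℚ) ≠ 0 := by exact_mod_cast hm0.ne'
  have h4 : (Nat.card G : ℚ) = n * z := by
    have : (z : ℚ) = (Nat.card G : ℚ) / n := by simpa using hz
    rw [this]
    field_simp
  have h5 : (Nat.card G : ℤ) = n * z := by exact_mod_cast h4
  have h6 : (n : ℤ) ∣ (Nat.card G : ℤ) := ⟨z, h5⟩
  exact_mod_cast h6

end Pool.Agent.Lib.MP_fa0f6c_al.Cx
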