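import Pool.Agent.Lib.MP_fa0f6c_al.Cx.Defs
import Pool.Agent.Lib.MP_fa0f6c_al.Cx.R07

set_option autoImplicit false

namespace Pool.Agent.Lib.MP_fa0f6c_al.Cx

open scoped ComplexConjugate

/-! ### traces of congruent quasi-idempotent matrices -/

/-- Two matrices with `M ^ 2 = a M`, congruent modulo a prime ideal not containing `a`, have the same
trace. -/
private theorem trace_eq_of_congr {n R : Type} [Fintype n] [DecidableEq n] [CommRing R] [IsDomain R]
    (I : Ideal R) [hI : I.IsPrime] (M N : Matrix n n R) (a : R) (ha : a ∉ I)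
    (hM : M * M = a • M) (hN : N * N = a • N) (h : ∀ i j, M i j - N i j ∈ I) :
    M.trace = N.trace := by
  set U : Matrix n n R := M * N + (a • 1 - M) * (a • 1 - N) with hU
  have z1 : M * (a • (1 : Matrix n n R) - M) = 0 := by
    rw [mul_sub, Matrix.mul_smul, Matrix.mul_one, hM, sub_self]
  have z2 : (a • (1 : Matrix n n R) - N) * N = 0 := by
    rw [sub_mul, Matrix.smul_mul, Matrix.one_mul, hN, sub_self]
  have h1 : M * U = a • (M * N) := by
    rw [hU, mul_add, ← Matrix.mul_assoc, hM, Matrix.smul_mul, ← Matrix.mul_assoc, z1,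
      Matrix.zero_mul, add_zero]
  have h2 : U * N = a • (M * N) := by
    rw [hU, add_mul, Matrix.mul_assoc, hN, Matrix.mul_smul, Matrix.mul_assoc, z2,
      Matrix.mul_zero, add_zero]
  have h3 : M * U = U * N := by rw [h1, h2]
  -- the determinant of `U` is not in `I`
  have hmap : (Ideal.Quotient.mk I).mapMatrix M = (Ideal.Quotient.mk I).mapMatrix N := by
    ext i j
    simp only [RingHom.mapMatrix_apply, Matrix.map_apply]
    exact (Ideal.Quotient.mk_eq_mk_iff_sub_mem _ _).mpr (h i j)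
  have hmapU : (Ideal.Quotient.mk I).mapMatrix U =
      (Ideal.Quotient.mk I a * Ideal.Quotient.mk I a) • (1 : Matrix n n (R ⧸ I)) := by
    have e1 : (Ideal.Quotient.mk I).mapMatrix (a • (1 : Matrix n n R)) =
        (Ideal.Quotient.mk I a) • (1 : Matrix n n (R ⧸ I)) := by
      ext i j
      simp only [RingHom.mapMatrix_apply, Matrix.map_apply, Matrix.smul_apply, smul_eq_mul,
        Matrix.one_apply, map_mul]
      split_ifs <;> simp
    have e2 : (Ideal.Quotient.mk I).mapMatrix N * (Ideal.Quotient.mk I).mapMatrix N =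
        (Ideal.Quotient.mk I a) • (Ideal.Quotient.mk I).mapMatrix N := by
      rw [← map_mul, hN]
      ext i j
      simp
    rw [hU, map_add, map_mul, map_mul, map_sub, map_sub, e1, hmap]
    simp only [sub_mul, mul_sub, Matrix.smul_mul, Matrix.mul_smul, Matrix.one_mul, Matrix.mul_one,
      e2, smul_smul]
    abel
  have hdet : U.det ∉ I := by
    intro hc
    have e1 : ((Ideal.Quotient.mk I).mapMatrix U).det = 0 := by
      rw [← RingHom.map_det]
      exact Ideal.Quotient.eq_zero_iff_mem.mpr hc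
    rw [hmapU, Matrix.det_smul, Matrix.det_one, mul_one] at e1
    have e2 : (Ideal.Quotient.mk I a) = 0 := by
      have : IsDomain (R ⧸ I) := Ideal.Quotient.isDomain I
      exact mul_self_eq_zero.mp (eq_zero_of_pow_eq_zero e1)
    exact ha (Ideal.Quotient.eq_zero_iff_mem.mp e2)
  have hdet0 : U.det ≠ 0 := fun hc => hdet (hc ▸ I.zero_mem)
  have h4 : U.det * M.trace = U.det * N.trace := by
    have e1 : (M * U * U.adjugate).trace = U.det * M.trace := by
      rw [Matrix.mul_assoc, Matrix.mul_adjugate, Matrix.mul_smul, Matrix.mul_one,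
        Matrix.trace_smul, smul_eq_mul]
    have e2 : (U * N * U.adjugate).trace = U.det * N.trace := by
      rw [Matrix.trace_mul_comm, ← Matrix.mul_assoc, Matrix.adjugate_mul, Matrix.smul_mul,
        Matrix.one_mul, Matrix.trace_smul, smul_eq_mul]
    rw [← e1, ← e2, h3]
  exact mul_left_cancel₀ hdet0 h4

/-! ### the matrices `A_λ` -/

section general

variable {G : Type} [Group G]

/-- `G ⧸ P × P ≃ G` -/
private noncomputable def repEquiv (P : Subgroup G) : (G ⧸ P) × P ≃ G where
  toFun vp := vp.1.out * vp.2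
  invFun g := ((g : G ⧸ P), ⟨(g : G ⧸ P).out⁻¹ * g, by
    rw [← QuotientGroup.eq]
    exact QuotientGroup.out_eq' _⟩)
  left_inv := by
    rintro ⟨v, p⟩
    have h1 : ((v.out * p : G) : G ⧸ P) = v := by
      rw [QuotientGroup.mk_mul_of_mem _ p.2]
      exact QuotientGroup.out_eq' _
    ext
    · exact h1
    · simp only [h1]
      group
  right_inv g := by simp

variable [Fintype G] {R : Type} [CommRing R] (P : Subgroup G) [Fintype P] [Fintype (G ⧸ P)]

/-- the matrix `A_λ` -/
private noncomputable def defM (f : G → R) (lam : P →* R) : Matrix (G ⧸ P) (G ⧸ P) R :=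
  fun u v => ∑ p : P, lam p * f (u.out * (p : G)⁻¹ * v.out⁻¹)

private theorem defM_sq (f : G → R) (lam : P →* R) (a : R)
    (ha : ∀ y, ∑ x, f x * f (x⁻¹ * y) = a * f y) :
    defM P f lam * defM P f lam = a • defM P f lam := by
  ext u w
  rw [Matrix.mul_apply]
  have e1 : ∀ v : G ⧸ P, defM P f lam u v * defM P f lam v w =
      ∑ p : P, ∑ r : P, lam r * (f (u.out * (v.out * p : G)⁻¹) *
        f ((v.out * p : G) * ((r : G)⁻¹ * w.out⁻¹))) := by
    intro v
    simp only [defM]
    rw [Finset.sum_mul_sum]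
    refine Finset.sum_congr rfl fun p _ => ?_
    rw [← Equiv.sum_comp (Equiv.mulRight p⁻¹)]
    refine Finset.sum_congr rfl fun r _ => ?_
    have e2 : lam p * lam (r * p⁻¹) = lam r := by
      rw [mul_comm, ← map_mul, inv_mul_cancel_right]
    have e3 : (((Equiv.mulRight p⁻¹) r : P) : G)⁻¹ = p * (r : G)⁻¹ := by
      simp
    have e4 : (u.out * (v.out * p : G)⁻¹) = u.out * (p : G)⁻¹ * v.out⁻¹ := by group
    have e5 : (v.out * p : G) * ((r : G)⁻¹ * w.out⁻¹) = v.out * (p * (r : G)⁻¹) * w.out⁻¹ := by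
      group
    rw [e3, e4, e5, ← e2, Equiv.coe_mulRight]
    ring
  simp only [e1]
  have e6 : ∀ r : P, ∑ v : G ⧸ P, ∑ p : P, (f (u.out * (v.out * p : G)⁻¹) *
        f ((v.out * p : G) * ((r : G)⁻¹ * w.out⁻¹))) = a * f (u.out * (r : G)⁻¹ * w.out⁻¹) := by
    intro r
    rw [← Fintype.sum_prod_type' (f := fun (v : G ⧸ P) (p : P) => (f (u.out * (v.out * p : G)⁻¹) *
        f ((v.out * p : G) * ((r : G)⁻¹ * w.out⁻¹))))]
    refine (Equiv.sum_comp (repEquiv P) (fun h : G => f (u.out * h⁻¹) *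
      f (h * ((r : G)⁻¹ * w.out⁻¹)))).trans ?_
    rw [← ha]
    refine Fintype.sum_bijective (fun h : G => u.out * h⁻¹) ?_ _ _ ?_
    · exact (Equiv.bijective (Equiv.mulLeft u.out)).comp (Equiv.bijective (Equiv.inv G))
    · intro h
      congr 2
      group
  calc ∑ v : G ⧸ P, ∑ p : P, ∑ r : P, lam r * (f (u.out * (v.out * p : G)⁻¹) *
        f ((v.out * p : G) * ((r : G)⁻¹ * w.out⁻¹)))
      = ∑ r : P, lam r * ∑ v : G ⧸ P, ∑ p : P, (f (u.out * (v.out * p : G)⁻¹) *
        f ((v.out * p : G) * ((r : G)⁻¹ * w.out⁻¹))) := by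
        simp only [Finset.mul_sum]
        have e7 : ∀ v : G ⧸ P, ∑ p : P, ∑ r : P, lam r * (f (u.out * (v.out * p : G)⁻¹) *
            f ((v.out * p : G) * ((r : G)⁻¹ * w.out⁻¹))) =
            ∑ r : P, ∑ p : P, lam r * (f (u.out * (v.out * p : G)⁻¹) *
            f ((v.out * p : G) * ((r : G)⁻¹ * w.out⁻¹))) := fun v => Finset.sum_comm
        simp only [e7]
        exact Finset.sum_comm
    _ = (a • defM P f lam) u w := by
        simp only [e6, Matrix.smul_apply, defM, smul_eq_mul, Finset.mul_sum]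
        exact Finset.sum_congr rfl fun r _ => by ring

omit [Fintype G] in
private theorem defM_trace (f : G → R) (hf : ∀ x y, f (x * y) = f (y * x)) (lam : P →* R) :
    (defM P f lam).trace = (Fintype.card (G ⧸ P) : R) * ∑ p : P, lam p * f ((p : G)⁻¹) := by
  rw [Matrix.trace]
  have e : ∀ u : G ⧸ P, (defM P f lam).diag u = ∑ p : P, lam p * f ((p : G)⁻¹) := by
    intro u
    simp only [Matrix.diag_apply, defM]
    refine Finset.sum_congr rfl fun p _ => ?_
    rw [mul_assoc, hf, inv_mul_cancel_right]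
  simp only [e, Finset.sum_const, Finset.card_univ, nsmul_eq_mul]

end general

/-- Characters of `ℓ`-defect zero vanish on elements of order `ℓ`.
PROOF. Let `𝒪` be the ring of algebraic integers (`integralClosure ℤ ℂ`), `𝔪` a maximal ideal containing `ℓ`,
`k = 𝒪/𝔪`, `P = ⟨x⟩` of order `ℓ`, `a = |G| / χ(1)`, `T` a set of representatives of `G / P`.
For a linear character `λ` of `P` let `A_λ` be the matrix indexed by `T × T`, entries
`A_λ(t', t) = ∑_{p ∈ P} χ((t' p t⁻¹)⁻¹) λ(p) ∈ 𝒪` (the action of `∑ χ(h⁻¹) h` on the basis `t e_λ` of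
`ℂ[G] e_λ`). `irr_conv` gives `A_λ² = a A_λ` and `trace A_λ = ∑_t ∑_p χ(t p⁻¹ t⁻¹) λ(p) = |G| a_λ` where
`a_λ` is the multiplicity of `λ` in `χ|_P`. Over `ℂ` the matrix `a⁻¹ A_λ` is idempotent, so the charpoly of
`A_λ` is `X^(n-r) (X - a)^r` with `a r = trace A_λ`, `r = χ(1) a_λ`; it holds in `𝒪[X]`. Reduce mod `𝔪`:
`λ(p) ≡ 1` (an `ℓ`-th root of unity is `1` in characteristic `ℓ`) so the reduction of `A_λ` does not
depend on `λ`, and `a ≠ 0` in `k` because `ℓ ∤ a`; comparing the multiplicity of the root `0` of the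
charpolys, `r` does not depend on `λ`. So all `a_λ` are equal and `χ(x) = ∑ a_λ λ(x) = 0`. -/
theorem defect_zero {G : Type} [Group G] [Finite G] {χ : G → ℂ} (h : χ ∈ Irr G) (d : ℕ)
    (hd : χ 1 = d) (l : ℕ) (hl : l.Prime) (hnd : ¬ l ∣ Nat.card G / d) (x : G)
    (hx : orderOf x = l) : χ x = 0 := by
  classical
  have : Fintype G := Fintype.ofFinite G
  have hlp : Fact l.Prime := ⟨hl⟩
  set P : Subgroup G := Subgroup.zpowers x with hP
  have : Fintype P := Fintype.ofFinite P
  have : Fintype (G ⧸ P) := Fintype.ofFinite _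
  have hxP : x ∈ P := Subgroup.mem_zpowers x
  have hcardP : Nat.card P = l := by rw [hP, Nat.card_zpowers, hx]
  -- degrees
  obtain ⟨n, hn0, hn1⟩ := irr_deg h
  have hdn : d = n := by exact_mod_cast hd.symm.trans hn1
  have hd0 : (d : ℂ) ≠ 0 := by
    rw [hdn]
    exact_mod_cast hn0.ne'
  have hcard : Nat.card G = d * (Nat.card G / d) := (Nat.mul_div_cancel' (irr_deg_dvd h d hd)).symm
  set a : ℕ := Nat.card G / d with had
  -- algebraic integers
  let f : G → integralClosure ℤ ℂ := fun g => ⟨χ g, irr_isIntegral h g⟩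
  have hf : ∀ x y, f (x * y) = f (y * x) := fun x y => Subtype.ext (irr_cf h x y)
  have hconv : ∀ y, ∑ x, f x * f (x⁻¹ * y) = (a : integralClosure ℤ ℂ) * f y := by
    intro y
    apply Subtype.ext
    have h1 := irr_conv h y
    rw [finsum_eq_sum_of_fintype, hd, hcard] at h1
    push_cast at h1
    rw [mul_assoc] at h1
    have h2 := mul_left_cancel₀ hd0 h1
    have h3 : ((∑ x, f x * f (x⁻¹ * y) : integralClosure ℤ ℂ) : ℂ) =
        ∑ x, χ x * χ (x⁻¹ * y) := by
      rw [AddSubmonoidClass.coe_finsetSum]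
      rfl
    rw [h3, h2]
    rfl
  -- a maximal ideal over `l`
  have hunit : ¬ IsUnit (l : integralClosure ℤ ℂ) := by
    intro hu
    obtain ⟨v, hv⟩ := hu.exists_right_inv
    have h1 : (l : ℂ) * (v : ℂ) = 1 := congrArg (fun z : integralClosure ℤ ℂ => (z : ℂ)) hv
    have h2 : IsIntegral ℤ ((l : ℚ)⁻¹) := by
      rw [← isIntegral_algebraMap_iff (algebraMap ℚ ℂ).injective]
      have h3 : (algebraMap ℚ ℂ) ((l : ℚ)⁻¹) = (v : ℂ) := by
        rw [map_inv₀, map_natCast]
        exact (eq_inv_of_mul_eq_one_right h1).symm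
      rw [h3]
      exact v.2
    obtain ⟨m, hm⟩ := IsIntegrallyClosed.isIntegral_iff.mp h2
    have h4 : (l : ℤ) * m = 1 := by
      have h5 : (l : ℚ) * (m : ℚ) = 1 := by
        have h6 : (m : ℚ) = (l : ℚ)⁻¹ := by simpa using hm
        rw [h6, mul_inv_cancel₀]
        exact_mod_cast hl.ne_zero
      exact_mod_cast h5
    have h5 : (l : ℤ) ∣ 1 := ⟨m, h4.symm⟩
    have h6 : l ∣ 1 := by exact_mod_cast h5
    exact hl.one_lt.ne' (Nat.dvd_one.mp h6)
  obtain ⟨I, hI, hlI⟩ := exists_max_ideal_of_mem_nonunits hunit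
  have hIp : I.IsPrime := hI.isPrime
  have haI : (a : integralClosure ℤ ℂ) ∉ I := by
    intro hc
    have h1 : Nat.Coprime l a := (Nat.Prime.coprime_iff_not_dvd hl).mpr hnd
    obtain ⟨u, v, huv⟩ : ∃ u v : ℤ, u * l + v * a = 1 := by
      have := (Nat.isCoprime_iff_coprime.mpr h1)
      obtain ⟨u, v, huv⟩ := this
      exact ⟨u, v, huv⟩
    have h2 : (1 : integralClosure ℤ ℂ) = u * l + v * a := by
      have := congrArg (fun z : ℤ => (z : integralClosure ℤ ℂ)) huv
      push_cast at this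
      exact this.symm
    apply hIp.ne_top
    rw [Ideal.eq_top_iff_one, h2]
    exact I.add_mem (I.mul_mem_left _ hlI) (I.mul_mem_left _ hc)
  -- a faithful linear character of `P`
  obtain ⟨c, hc⟩ : ∃ c : P →* ℂˣ, c ⟨x, hxP⟩ ≠ 1 := by
    let _ : CommGroup P := IsMulCommutative.instCommGroup
    apply CommGroup.exists_apply_ne_one_of_hasEnoughRootsOfUnity P ℂ
    intro hc
    have : x = 1 := congrArg (fun z : P => (z : G)) hc
    rw [this, orderOf_one] at hx
    exact hl.one_lt.ne hx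
  have hcinj : Function.Injective c := by
    rw [← MonoidHom.ker_eq_bot_iff]
    have hp : (Nat.card P).Prime := by rw [hcardP]; exact hl
    have : Fact (Nat.card P).Prime := ⟨hp⟩
    rcases Subgroup.eq_bot_or_eq_top_of_prime_card c.ker with h1 | h1
    · exact h1
    · exact absurd (show (⟨x, hxP⟩ : P) ∈ c.ker by rw [h1]; exact Subgroup.mem_top _) hc
  have hpl : ∀ p : P, (c p : ℂ) ^ l = 1 := by
    intro p
    have h1 : p ^ l = 1 := by rw [← hcardP]; exact pow_card_eq_one'
    rw [← Units.val_pow_eq_pow_val, ← map_pow, h1, map_one, Units.val_one]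
  have hint : ∀ p : P, IsIntegral ℤ (c p : ℂ) := by
    intro p
    refine IsIntegral.of_pow hl.pos ?_
    rw [hpl p]
    exact isIntegral_one
  let lam : ℕ → (P →* integralClosure ℤ ℂ) := fun j =>
    { toFun := fun p => ⟨(c p : ℂ), hint p⟩ ^ j
      map_one' := by
        have : (⟨((c 1 : ℂˣ) : ℂ), hint 1⟩ : integralClosure ℤ ℂ) = 1 :=
          Subtype.ext (by
            change ((c 1 : ℂˣ) : ℂ) = 1
            rw [map_one, Units.val_one])
        rw [this, one_pow]
      map_mul' := by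
        intro p q
        rw [← mul_pow]
        congr 1
        exact Subtype.ext (by
          change ((c (p * q) : ℂˣ) : ℂ) = (c p : ℂ) * (c q : ℂ)
          rw [map_mul, Units.val_mul]) }
  -- everything is congruent to `1`
  have hcong : ∀ j (p : P), lam j p - 1 ∈ I := by
    intro j p
    have : Nontrivial (integralClosure ℤ ℂ ⧸ I) := Ideal.Quotient.nontrivial_iff.mpr hIp.ne_top
    have : IsDomain (integralClosure ℤ ℂ ⧸ I) := Ideal.Quotient.isDomain I
    have hch : CharP (integralClosure ℤ ℂ ⧸ I) l := by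
      rw [CharP.charP_iff_prime_eq_zero hl]
      have := Ideal.Quotient.eq_zero_iff_mem.mpr hlI
      rwa [map_natCast] at this
    have h1 : (Ideal.Quotient.mk I) (⟨(c p : ℂ), hint p⟩ : integralClosure ℤ ℂ) = 1 := by
      have h2 : ((Ideal.Quotient.mk I) (⟨(c p : ℂ), hint p⟩ : integralClosure ℤ ℂ) - 1) ^ l = 0 := by
        rw [sub_pow_char, one_pow, ← map_pow]
        have h3 : (⟨(c p : ℂ), hint p⟩ : integralClosure ℤ ℂ) ^ l = 1 := Subtype.ext (hpl p)
        rw [h3, map_one, sub_self]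
      exact sub_eq_zero.mp (eq_zero_of_pow_eq_zero h2)
    have h2 : (Ideal.Quotient.mk I) (lam j p - 1) = 0 := by
      rw [map_sub, map_one]
      have h3 : (Ideal.Quotient.mk I) (lam j p) =
          (Ideal.Quotient.mk I) (⟨(c p : ℂ), hint p⟩ : integralClosure ℤ ℂ) ^ j := map_pow _ _ _
      rw [h3, h1, one_pow, sub_self]
    exact Ideal.Quotient.eq_zero_iff_mem.mp h2
  have htr : ∀ j, ∑ p : P, lam j p * f ((p : G)⁻¹) = ∑ p : P, lam 0 p * f ((p : G)⁻¹) := by
    intro j
    have h1 := trace_eq_of_congr I (defM P f (lam j)) (defM P f (lam 0)) (a : integralClosure ℤ ℂ)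
      haI (defM_sq P f (lam j) _ hconv) (defM_sq P f (lam 0) _ hconv) (by
        intro u v
        simp only [defM]
        rw [← Finset.sum_sub_distrib]
        refine I.sum_mem fun p _ => ?_
        have e : lam j p * f (u.out * (p : G)⁻¹ * v.out⁻¹) -
            lam 0 p * f (u.out * (p : G)⁻¹ * v.out⁻¹) =
            (lam j p - 1) * f (u.out * (p : G)⁻¹ * v.out⁻¹) := by
          have : lam 0 p = 1 := pow_zero _
          rw [this]
          ring
        rw [e]
        exact I.mul_mem_right _ (hcong j p))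
    rw [defM_trace P f hf, defM_trace P f hf] at h1
    refine mul_left_cancel₀ ?_ h1
    have : Fintype.card (G ⧸ P) ≠ 0 := Fintype.card_ne_zero
    exact_mod_cast this
  have htrC : ∀ j, ∑ p : P, (c p : ℂ) ^ j * χ ((p : G)⁻¹) = ∑ p : P, χ ((p : G)⁻¹) := by
    intro j
    have h1 := congrArg (fun z : integralClosure ℤ ℂ => (z : ℂ)) (htr j)
    simp only [AddSubmonoidClass.coe_finsetSum] at h1
    have e1 : ∀ p : P, ((lam j p * f ((p : G)⁻¹) : integralClosure ℤ ℂ) : ℂ) =
        (c p : ℂ) ^ j * χ ((p : G)⁻¹) := fun p => rfl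
    have e2 : ∀ p : P, ((lam 0 p * f ((p : G)⁻¹) : integralClosure ℤ ℂ) : ℂ) =
        (c p : ℂ) ^ 0 * χ ((p : G)⁻¹) := fun p => rfl
    simp only [e1, e2, pow_zero, one_mul] at h1
    exact h1
  -- Fourier inversion
  set z : P := ⟨x, hxP⟩ with hz
  have hgeom : ∀ q : P, q ≠ 1 → ∑ j ∈ Finset.range l, (c q : ℂ) ^ j = 0 := by
    intro q hq
    have h1 : (c q : ℂ) ≠ 1 := by
      intro hc1
      apply hq
      apply hcinj
      rw [map_one]
      exact Units.ext (by simpa using hc1)
    have h2 := mul_neg_geom_sum (c q : ℂ) l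
    rw [hpl q, sub_self] at h2
    rcases mul_eq_zero.mp h2 with h3 | h3
    · exact absurd (sub_eq_zero.mp h3).symm h1
    · exact h3
  have hzne : z ≠ 1 := by
    intro hc1
    apply hc
    rw [hc1, map_one]
  have hA : ∑ j ∈ Finset.range l, (c z : ℂ) ^ j * ∑ p : P, (c p : ℂ) ^ j * χ ((p : G)⁻¹) = 0 := by
    simp only [htrC]
    rw [← Finset.sum_mul, hgeom z hzne, zero_mul]
  have hB : ∑ j ∈ Finset.range l, (c z : ℂ) ^ j * ∑ p : P, (c p : ℂ) ^ j * χ ((p : G)⁻¹) =
      l * χ x := by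
    have e1 : ∀ j, (c z : ℂ) ^ j * ∑ p : P, (c p : ℂ) ^ j * χ ((p : G)⁻¹) =
        ∑ p : P, (c (z * p) : ℂ) ^ j * χ ((p : G)⁻¹) := by
      intro j
      rw [Finset.mul_sum]
      refine Finset.sum_congr rfl fun p _ => ?_
      rw [map_mul, Units.val_mul, mul_pow]
      ring
    simp only [e1]
    rw [Finset.sum_comm]
    rw [Finset.sum_eq_single z⁻¹]
    · rw [mul_inv_cancel, map_one, Units.val_one]
      simp [hz]
    · intro p _ hp
      rw [← Finset.sum_mul, hgeom (z * p) ?_, zero_mul]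
      intro hc1
      exact hp (eq_inv_of_mul_eq_one_right hc1)
    · intro hc1
      exact absurd (Finset.mem_univ _) hc1
  rw [hB] at hA
  have hl0 : (l : ℂ) ≠ 0 := by exact_mod_cast hl.ne_zero
  exact (mul_eq_zero.mp hA).resolve_left hl0

end Pool.Agent.Lib.MP_fa0f6c_al.Cx
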