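import Pool.Agent.Lib.MP_fa0f6c_al.Cx.Defs
import Pool.Agent.Lib.MP_fa0f6c_al.Cx.R05

set_option autoImplicit false

namespace Pool.Agent.Lib.MP_fa0f6c_al.Cx

open scoped ComplexConjugate

/-- the one dimensional representation attached to a linear character -/
private noncomputable def R08_rep {G : Type} [Group G] (l : G →* ℂˣ) :
    Representation ℂ G (Fin 1 → ℂ) where
  toFun g := (l g : ℂ) • LinearMap.id
  map_one' := by
    ext
    simp
  map_mul' x y := by
    ext
    simp [mul_assoc, mul_left_comm]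

private theorem R08_char {G : Type} [Group G] (l : G →* ℂˣ) (g : G) :
    (R08_rep l).character g = (l g : ℂ) := by
  have h : (R08_rep l) g = (l g : ℂ) • LinearMap.id := rfl
  rw [Representation.character, h, map_smul, LinearMap.trace_id]
  simp

private theorem R08_simple {G : Type} [Group G] (ρ : Representation ℂ G (Fin 1 → ℂ)) :
    ρ.IsIrreducible := by
  have hs : IsSimpleModule ℂ (Fin 1 → ℂ) := by
    rw [isSimpleModule_iff_finrank_eq_one]
    simp
  have hs' : IsSimpleOrder (Submodule ℂ (Fin 1 → ℂ)) := isSimpleModule_iff _ _ |>.mp hs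
  have hnt : Nontrivial (Subrepresentation ρ) := by
    refine ⟨⊥, ⊤, fun h => ?_⟩
    have h1 := congrArg Subrepresentation.toSubmodule h
    exact (bot_ne_top (α := Submodule ℂ (Fin 1 → ℂ))) h1
  exact
    { eq_bot_or_eq_top := by
        intro a
        rcases hs'.eq_bot_or_eq_top a.toSubmodule with h | h
        · left
          exact Subrepresentation.toSubmodule_injective h
        · right
          exact Subrepresentation.toSubmodule_injective h }

/-- A linear character as a function. -/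
theorem lin_irr {G : Type} [Group G] [Finite G] (l : G →* ℂˣ) : (fun g => (l g : ℂ)) ∈ Irr G :=
  ⟨1, R08_rep l, R08_simple _, funext fun g => (R08_char l g).symm⟩

theorem irr_deg_one {G : Type} [Group G] [Finite G] {χ : G → ℂ} (h : χ ∈ Irr G) (h1 : χ 1 = 1) :
    ∃ l : G →* ℂˣ, χ = fun g => (l g : ℂ) := by
  obtain ⟨n, ρ, hρ, rfl⟩ := h
  rw [Representation.char_one, Module.finrank_fin_fun] at h1
  have hn : n = 1 := by exact_mod_cast h1
  subst hn
  refine ⟨MonoidHom.toHomUnits ((LinearMap.det : ((Fin 1 → ℂ) →ₗ[ℂ] (Fin 1 → ℂ)) →* ℂ).comp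
    (ρ : G →* ((Fin 1 → ℂ) →ₗ[ℂ] (Fin 1 → ℂ)))), funext fun g => ?_⟩
  rw [MonoidHom.coe_toHomUnits, MonoidHom.comp_apply, Representation.character,
    LinearMap.trace_eq_matrix_trace ℂ (Pi.basisFun ℂ (Fin 1)),
    ← LinearMap.det_toMatrix (Pi.basisFun ℂ (Fin 1)), Matrix.det_fin_one, Matrix.trace_fin_one]

private theorem R08_norm {G : Type} [Group G] [Finite G] (l : G →* ℂˣ) (g : G) :
    (l g : ℂ) * conj (l g : ℂ) = 1 := by
  have h : ((l g⁻¹ : ℂˣ) : ℂ) = conj (l g : ℂ) := irr_inv (lin_irr l) g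
  rw [← h, map_inv]
  simp

/-- twisting by a linear character preserves irreducibility -/
theorem irr_twist {G : Type} [Group G] [Finite G] (l : G →* ℂˣ) {χ : G → ℂ} (h : χ ∈ Irr G) :
    (fun g => (l g : ℂ) * χ g) ∈ Irr G := by
  refine irr_of_isNat (isNat_mul (isNat_irr (lin_irr l)) (isNat_irr h)) ?_
  have h1 := ip_irr h h
  rw [if_pos rfl] at h1
  rw [← h1]
  unfold ip
  congr 1
  refine finsum_congr fun x => ?_
  rw [map_mul]
  calc (l x : ℂ) * χ x * (conj (l x : ℂ) * conj (χ x))
      = ((l x : ℂ) * conj (l x : ℂ)) * (χ x * conj (χ x)) := by ring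
    _ = χ x * conj (χ x) := by rw [R08_norm, one_mul]

/-- HINT: `Representation.IsIrreducible.finrank_eq_one_of_isMulCommutative`, `sum_deg_sq`. -/
theorem irr_comm {G : Type} [Group G] [Finite G] (hc : ∀ x y : G, x * y = y * x) :
    (∀ χ ∈ Irr G, χ 1 = 1) ∧ (Irr G).ncard = Nat.card G := by
  have hcomm : IsMulCommutative G := ⟨⟨hc⟩⟩
  have h1 : ∀ χ ∈ Irr G, χ 1 = 1 := by
    rintro χ ⟨n, ρ, hρ, rfl⟩
    rw [Representation.char_one, Representation.IsIrreducible.finrank_eq_one_of_isMulCommutative ρ]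
    simp
  refine ⟨h1, ?_⟩
  have h2 := sum_deg_sq G
  rw [Finset.sum_congr rfl (fun χ hχ => by
    rw [h1 χ ((irr_finite G).mem_toFinset.mp hχ), one_pow])] at h2
  rw [Finset.sum_const, nsmul_eq_mul, mul_one] at h2
  rw [Set.ncard_eq_toFinset_card _ (irr_finite G)]
  exact_mod_cast h2

/-- Linear characters extend from subgroups of finite commutative groups.
HINT: `exists_over` style argument, or Mathlib's `MonoidHom.restrict_surjective` (characters of finite
commutative groups with enough roots of unity). -/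
theorem lin_extend {A : Type} [CommGroup A] [Finite A] (B : Subgroup A) (l : B →* ℂˣ) :
    ∃ l' : A →* ℂˣ, ∀ b : B, l' b = l b := by
  have : NeZero (Monoid.exponent A : ℂ) := ⟨by
    exact_mod_cast Monoid.exponent_ne_zero_of_finite⟩
  have : HasEnoughRootsOfUnity ℂ (Monoid.exponent A) := inferInstance
  obtain ⟨l', hl'⟩ := MonoidHom.domRestrict_surjective ℂ B l
  exact ⟨l', fun b => by rw [← hl']; rfl⟩

/-- Extension when the commutators are in the kernel: `N ≤ K`, `l` a linear character of `N` whose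
kernel contains all commutators of elements of `K` (in particular these lie in `N`).
HINT: `N ⧸ ker l` embeds in the commutative group `K ⧸ ker l`. -/
theorem lin_extend' {G : Type} [Group G] [Finite G] (N K : Subgroup G) (hNK : N ≤ K) (l : N →* ℂˣ)
    (h : ∀ x ∈ K, ∀ y ∈ K, ∃ hx : x * y * x⁻¹ * y⁻¹ ∈ N, l ⟨_, hx⟩ = 1) :
    ∃ l' : K →* ℂˣ, ∀ (x : G) (hx : x ∈ N), l' ⟨x, hNK hx⟩ = l ⟨x, hx⟩ := by
  -- all elements of the commutator subgroup of `K` are in `N` and in the kernel of `l`
  have hcomm : ∀ k : K, k ∈ commutator K → ∃ hx : (k : G) ∈ N, l ⟨_, hx⟩ = 1 := by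
    intro k hk
    rw [commutator_eq_closure] at hk
    induction hk using Subgroup.closure_induction with
    | mem x hx =>
      obtain ⟨a, b, rfl⟩ := hx
      obtain ⟨h1, h2⟩ := h a a.2 b b.2
      refine ⟨?_, ?_⟩
      · simpa [commutatorElement_def] using h1
      · rw [← h2]
        congr 1
    | one => exact ⟨N.one_mem, l.map_one⟩
    | mul x y _ _ hx hy =>
      obtain ⟨h1, h2⟩ := hx
      obtain ⟨h3, h4⟩ := hy
      refine ⟨N.mul_mem h1 h3, ?_⟩
      have : l ⟨(x * y : K), N.mul_mem h1 h3⟩ = l ⟨x, h1⟩ * l ⟨y, h3⟩ := by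
        rw [← map_mul]
        rfl
      rw [this, h2, h4, one_mul]
    | inv x _ hx =>
      obtain ⟨h1, h2⟩ := hx
      refine ⟨N.inv_mem h1, ?_⟩
      have : l ⟨(x⁻¹ : K), N.inv_mem h1⟩ = (l ⟨x, h1⟩)⁻¹ := by
        rw [← map_inv]
        rfl
      rw [this, h2, inv_one]
  let g : N →* Abelianization K := Abelianization.of.comp (Subgroup.inclusion hNK)
  have hg : Function.Surjective g.rangeRestrict := g.rangeRestrict_surjective
  have hker : g.rangeRestrict.ker ≤ l.ker := by
    intro x hx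
    rw [MonoidHom.ker_rangeRestrict, MonoidHom.mem_ker] at hx
    have h1 : Subgroup.inclusion hNK x ∈ commutator K := by
      rw [← Abelianization.ker_of, MonoidHom.mem_ker]
      exact hx
    obtain ⟨h2, h3⟩ := hcomm _ h1
    rw [MonoidHom.mem_ker]
    exact h3
  let m : g.range →* ℂˣ := g.rangeRestrict.liftOfSurjective hg ⟨l, hker⟩
  have hm : ∀ x : N, m (g.rangeRestrict x) = l x := fun x =>
    MonoidHom.liftOfRightInverse_comp_apply _ _ _ ⟨l, hker⟩ x
  obtain ⟨m', hm'⟩ := lin_extend g.range m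
  refine ⟨m'.comp Abelianization.of, fun x hx => ?_⟩
  rw [← hm, ← hm']
  rfl

end Pool.Agent.Lib.MP_fa0f6c_al.Cx
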