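import Pool.Agent.Lib.MP_fa0f6c_al.Cx.Defs
import Pool.Agent.Lib.MP_fa0f6c_al.Cx.R06
import Pool.Agent.Lib.MP_fa0f6c_al.Cx.R08

set_option autoImplicit false

namespace Pool.Agent.Lib.MP_fa0f6c_al.Cx

open scoped ComplexConjugate

/-- The multiplicity of a linear character `m` of the subgroup `N` in the function `f` on `G`
(`m` is a function on `G`, only its values on `N` matter). -/
noncomputable def mult {G : Type} [Group G] (N : Subgroup G) (m : G → ℂ) (f : G → ℂ) : ℂ :=
  ip (fun n : N => f n) (fun n : N => m n)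

/-- A function on `G` which is a homomorphism `N → ℂˣ` on the subgroup `N`. -/
def IsLin {G : Type} [Group G] (N : Subgroup G) (m : G → ℂ) : Prop :=
  m 1 = 1 ∧ ∀ x ∈ N, ∀ y ∈ N, m (x * y) = m x * m y

private theorem R09_lin {G : Type} [Group G] (N : Subgroup G) (m : G → ℂ) (hm : IsLin N m) :
    ∃ l : N →* ℂˣ, ∀ n : N, (l n : ℂ) = m n := by
  let f : N →* ℂ :=
    { toFun := fun n => m n
      map_one' := hm.1
      map_mul' := fun x y => hm.2 x x.2 y y.2 }
  exact ⟨f.toHomUnits, fun n => rfl⟩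

private theorem R09_inv {G : Type} [Group G] [Finite G] (N : Subgroup G) (m : G → ℂ)
    (hm : IsLin N m) {x : G} (hx : x ∈ N) : m x⁻¹ = conj (m x) := by
  obtain ⟨l, hl⟩ := R09_lin N m hm
  have h := irr_inv (lin_irr l) (⟨x, hx⟩ : N)
  simp only [hl] at h
  exact h

private theorem R09_unit {G : Type} [Group G] [Finite G] (N : Subgroup G) (m : G → ℂ)
    (hm : IsLin N m) {x : G} (hx : x ∈ N) : m x * conj (m x) = 1 := by
  rw [← R09_inv N m hm hx, ← hm.2 x hx x⁻¹ (N.inv_mem hx), mul_inv_cancel, hm.1]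

/-- Schur's lemma for an operator commuting with the representation. -/
private theorem R09_schur {G V : Type} [Group G] [AddCommGroup V] [Module ℂ V]
    [FiniteDimensional ℂ V] (ρ : Representation ℂ G V) (hρ : ρ.IsIrreducible) (A : V →ₗ[ℂ] V)
    (hA : ∀ g : G, A * ρ g = ρ g * A) : ∃ c : ℂ, A = c • (1 : V →ₗ[ℂ] V) := by
  have := hρ
  let f : Representation.IntertwiningMap ρ ρ :=
    ⟨A, fun g => by
      have := hA g
      simpa [Module.End.mul_eq_comp] using this⟩
  obtain ⟨c, hc⟩ :=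
    (Representation.IsIrreducible.algebraMap_intertwiningMap_bijective_of_isAlgClosed
      (ρ := ρ) (k := ℂ)).2 f
  refine ⟨c, ?_⟩
  have h2 : f.toLinearMap = A := rfl
  rw [← h2, ← hc]
  ext v
  simp [Algebra.algebraMap_eq_smul_one]

private theorem R09_op {G : Type} [Group G] [Finite G] (N : Subgroup G) (m : G → ℂ)
    (hm : IsLin N m) (hn : ∀ g : G, ∀ n ∈ N, g * n * g⁻¹ ∈ N ∧ m (g * n * g⁻¹) = m n)
    {d : ℕ} (ρ : Representation ℂ G (Fin d → ℂ)) (hρ : ρ.IsIrreducible)
    (h0 : mult N m ρ.character ≠ 0) : ∀ k ∈ N, ρ k = m k • (1 : Module.End ℂ (Fin d → ℂ)) := by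
  classical
  have := Fintype.ofFinite G
  obtain ⟨c, hc⟩ := R09_schur ρ hρ (∑ k : N, conj (m k) • ρ (k : G)) (fun g => by
    rw [Finset.sum_mul, Finset.mul_sum]
    refine Finset.sum_bij' (fun (k : N) _ => (⟨g⁻¹ * k * g, by
        have := (hn g⁻¹ k k.2).1
        rwa [inv_inv] at this⟩ : N)) (fun (k : N) _ => (⟨g * k * g⁻¹, (hn g k k.2).1⟩ : N))
      ?_ ?_ ?_ ?_ ?_
    · intro k _
      exact Finset.mem_univ _
    · intro k _
      exact Finset.mem_univ _
    · intro k _
      apply Subtype.ext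
      change g * (g⁻¹ * k * g) * g⁻¹ = k
      group
    · intro k _
      apply Subtype.ext
      change g⁻¹ * (g * k * g⁻¹) * g = k
      group
    · intro k _
      change (conj (m k) • ρ (k : G)) * ρ g = ρ g * (conj (m (g⁻¹ * k * g)) • ρ (g⁻¹ * k * g))
      have e1 : m (g⁻¹ * k * g) = m k := by
        have := (hn g⁻¹ k k.2).2
        rwa [inv_inv] at this
      rw [e1, smul_mul_assoc, mul_smul_comm, ← map_mul, ← map_mul]
      congr 2
      group)
  have h1 := congrArg (LinearMap.trace ℂ _) hc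
  rw [map_smul, LinearMap.trace_one, smul_eq_mul, map_sum] at h1
  have hc0 : c ≠ 0 := by
    rintro rfl
    apply h0
    unfold mult ip
    rw [finsum_eq_sum_of_fintype]
    have h2 : ∑ k : N, ρ.character (k : G) * conj (m k) = 0 := by
      rw [zero_mul] at h1
      rw [← h1]
      refine Finset.sum_congr rfl (fun k _ => ?_)
      rw [map_smul, smul_eq_mul, mul_comm]
      rfl
    rw [h2, mul_zero]
  intro k hk
  have h3 : ρ k * (∑ j : N, conj (m j) • ρ (j : G)) =
      m k • (∑ j : N, conj (m j) • ρ (j : G)) := by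
    rw [Finset.mul_sum, Finset.smul_sum]
    refine Fintype.sum_equiv (Equiv.mulLeft (⟨k, hk⟩ : N)) _ _ (fun j => ?_)
    change ρ k * (conj (m j) • ρ (j : G)) = m k • (conj (m (k * j)) • ρ (k * j))
    rw [hm.2 k hk j j.2, mul_smul_comm, ← map_mul, smul_smul, map_mul (starRingEnd ℂ), ← mul_assoc,
      R09_unit N m hm hk, one_mul]
  rw [hc] at h3
  rw [mul_smul_comm, mul_one, smul_comm] at h3
  exact smul_right_injective _ hc0 h3

/-- HINT: let `ρ` afford `χ`; the `m`-isotypic subspace `{v | ∀ n ∈ N, ρ n v = m n • v}` is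
`G`-stable by invariance of `m` and nonzero, hence everything, so `ρ (n * y) = m n • ρ y`. -/
theorem isotypic {G : Type} [Group G] [Finite G] (N : Subgroup G) (m : G → ℂ) (hm : IsLin N m)
    (hn : ∀ g : G, ∀ n ∈ N, g * n * g⁻¹ ∈ N ∧ m (g * n * g⁻¹) = m n)
    {χ : G → ℂ} (h : χ ∈ Irr G) (h0 : mult N m χ ≠ 0) :
    ∀ n ∈ N, ∀ y : G, χ (n * y) = m n * χ y := by
  obtain ⟨d, ρ, hρ, rfl⟩ := h
  intro n hnN y
  have h1 := R09_op N m hm hn ρ hρ h0 n hnN
  unfold Representation.character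
  rw [map_mul, h1, smul_mul_assoc, one_mul, map_smul, smul_eq_mul]

/-- For a homogeneous character: `mult N m χ = χ 1` when `χ (n * y) = m n * χ y`. -/
theorem mult_of_isotypic {G : Type} [Group G] [Finite G] (N : Subgroup G) (m : G → ℂ)
    (hm : IsLin N m) {χ : G → ℂ} (h : ∀ n ∈ N, ∀ y : G, χ (n * y) = m n * χ y) :
    mult N m χ = χ 1 := by
  classical
  have := Fintype.ofFinite G
  unfold mult ip
  rw [finsum_eq_sum_of_fintype]
  have h1 : ∀ n : N, χ n * conj (m n) = χ 1 := by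
    intro n
    have h2 := h n n.2 1
    rw [mul_one] at h2
    rw [h2, mul_right_comm, R09_unit N m hm n.2, one_mul]
  simp only [h1, Finset.sum_const, Finset.card_univ, nsmul_eq_mul]
  rw [Nat.card_eq_fintype_card, ← mul_assoc, inv_mul_cancel₀, one_mul]
  exact_mod_cast Fintype.card_pos.ne'

/-- multiplicities in characters are natural numbers, bounded by the degree -/
theorem mult_nat {G : Type} [Group G] [Finite G] (N : Subgroup G) (m : G → ℂ) (hm : IsLin N m)
    {f : G → ℂ} (hf : IsNat f) : ∃ n : ℕ, mult N m f = n := by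
  obtain ⟨l, hl⟩ := R09_lin N m hm
  have h1 := (isNat_comp N.subtype hf).2 _ (lin_irr l)
  obtain ⟨n, hn⟩ := h1
  refine ⟨n, ?_⟩
  rw [← hn]
  unfold mult
  congr 1
  funext x
  exact (hl x).symm

/-- If `χ` has a nonzero multiplicity on `(N, m)`, `N ≤ K`, and all commutators of `K` lie in the
kernel of `m` on `N`, then `χ` has nonzero multiplicity on `(K, m')` for a linear extension `m'` of
`m` to `K`. HINT: by `lin_extend'` there is one extension `m₀`; the irreducible constituents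
`θ` of `χ|_K` with `mult N m θ ≠ 0` are isotypic (apply `isotypic` inside `K`; `m` is `K`-invariant), and
`m₀⁻¹ θ` is an irreducible character of `K ⧸ N` (trivial on `N`), which is commutative modulo the kernel,
so it has degree one. -/
theorem mult_extend {G : Type} [Group G] [Finite G] (N K : Subgroup G) (hNK : N ≤ K) (m : G → ℂ)
    (hm : IsLin N m) (hc : ∀ x ∈ K, ∀ y ∈ K, x * y * x⁻¹ * y⁻¹ ∈ N ∧ m (x * y * x⁻¹ * y⁻¹) = 1)
    {χ : G → ℂ} (h : χ ∈ Irr G) (h0 : mult N m χ ≠ 0) :
    ∃ m' : G → ℂ, IsLin K m' ∧ (∀ x ∈ N, m' x = m x) ∧ mult K m' χ ≠ 0 := by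
  classical
  have := Fintype.ofFinite G
  -- the linear character seen inside `K`
  set N' : Subgroup K := N.subgroupOf K with hN'
  set mK : K → ℂ := fun k => m k with hmK
  have hlin : IsLin N' mK := ⟨hm.1, fun x hx y hy => hm.2 x hx y hy⟩
  have hinv : ∀ g : K, ∀ n ∈ N', g * n * g⁻¹ ∈ N' ∧ mK (g * n * g⁻¹) = mK n := by
    intro g n hn
    have hnN : (n : G) ∈ N := hn
    have h1 := hc g g.2 n n.2
    have h2 : (g : G) * n * (g : G)⁻¹ = (g * n * (g : G)⁻¹ * (n : G)⁻¹) * n := by group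
    constructor
    · change (g : G) * n * (g : G)⁻¹ ∈ N
      rw [h2]
      exact N.mul_mem h1.1 hnN
    · change m ((g : G) * n * (g : G)⁻¹) = m n
      rw [h2, hm.2 _ h1.1 _ hnN, h1.2, one_mul]
  -- a constituent
  have hχK : IsNat (fun k : K => χ k) := isNat_comp K.subtype (isNat_irr h)
  have hex : ∃ θ ∈ Irr K, ip (fun k : K => χ k) θ ≠ 0 ∧ mult N' mK θ ≠ 0 := by
    by_contra hcon
    push Not at hcon
    apply h0
    have e1 : mult N m χ = mult N' mK (fun k : K => χ k) := by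
      unfold mult ip
      have e2 : Nat.card N = Nat.card N' := Nat.card_congr
        (Subgroup.subgroupOfEquivOfLe hNK).symm.toEquiv
      rw [e2]
      congr 1
      exact finsum_eq_of_bijective (Subgroup.subgroupOfEquivOfLe hNK).symm
        (Subgroup.subgroupOfEquivOfLe hNK).symm.bijective (fun x => rfl)
    rw [e1]
    have e3 : (fun k : K => χ k) = fun k : K =>
        ∑ θ ∈ (irr_finite K).toFinset, ip (fun k : K => χ k) θ * θ k :=
      funext fun k => cf_expand hχK.1 k
    rw [e3]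
    unfold mult
    unfold ip
    rw [finsum_eq_sum_of_fintype]
    have e4 : ∑ x : N', (∑ θ ∈ (irr_finite K).toFinset, ip (fun k : K => χ k) θ * θ x) *
        conj (mK x) = ∑ θ ∈ (irr_finite K).toFinset, ip (fun k : K => χ k) θ *
          ∑ x : N', θ x * conj (mK x) := by
      simp_rw [Finset.sum_mul, Finset.mul_sum]
      rw [Finset.sum_comm]
      refine Finset.sum_congr rfl (fun θ _ => Finset.sum_congr rfl (fun x _ => by ring))
    have e5 : ∑ θ ∈ (irr_finite K).toFinset, ip (fun k : K => χ k) θ *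
          ∑ x : N', θ x * conj (mK x) = 0 := by
      refine Finset.sum_eq_zero (fun θ hθ => ?_)
      have hθ' : θ ∈ Irr K := by simpa using hθ
      by_cases hz : ip (fun k : K => χ k) θ = 0
      · rw [hz, zero_mul]
      · have h6 := hcon θ hθ' hz
        unfold mult ip at h6
        rw [finsum_eq_sum_of_fintype] at h6
        have h7 : ((Nat.card N' : ℕ) : ℂ)⁻¹ ≠ 0 := by
          apply inv_ne_zero
          exact_mod_cast Nat.card_pos.ne'
        rw [(mul_eq_zero.1 h6).resolve_left h7, mul_zero]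
    have e6 := e4.trans e5
    unfold ip at e6
    rw [e6, mul_zero]
  obtain ⟨θ, hθ, hθ1, hθ2⟩ := hex
  have hθI := hθ
  obtain ⟨d, ρ, hρ, hρθ⟩ := hθ
  have hop : ∀ k ∈ N', ρ k = mK k • (1 : Module.End ℂ (Fin d → ℂ)) := by
    apply R09_op N' mK hlin hinv ρ hρ
    rw [← hρθ]
    exact hθ2
  -- the operators commute
  have hcomm : ∀ x y : K, ρ x * ρ y = ρ y * ρ x := by
    intro x y
    have h1 := hc x x.2 y y.2
    have h2 : x * y = (x * y * x⁻¹ * y⁻¹) * (y * x) := by group
    have h3 : ρ (x * y * x⁻¹ * y⁻¹) = 1 := by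
      have hmem : x * y * x⁻¹ * y⁻¹ ∈ N' := h1.1
      rw [hop _ hmem]
      have : mK (x * y * x⁻¹ * y⁻¹) = 1 := h1.2
      rw [this, one_smul]
    rw [← map_mul, h2, map_mul, h3, one_mul, map_mul]
  have hscal : ∀ x : K, ∃ c : ℂ, ρ x = c • (1 : Module.End ℂ (Fin d → ℂ)) := fun x =>
    R09_schur ρ hρ (ρ x) (fun g => hcomm x g)
  choose c hcx using hscal
  obtain ⟨d', hd0, hd'⟩ := irr_deg hθI
  have hdd : d' = d := by
    have : (d' : ℂ) = d := by
      rw [← hd', hρθ, Representation.char_one]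
      simp
    exact_mod_cast this
  subst hdd
  have : Nonempty (Fin d') := ⟨⟨0, hd0⟩⟩
  have hθx : ∀ x : K, θ x = d' * c x := by
    intro x
    rw [hρθ]
    unfold Representation.character
    rw [hcx x, map_smul, LinearMap.trace_one, smul_eq_mul, mul_comm]
    simp
  have hcc : ∀ x : K, c x * c x⁻¹ = 1 := by
    intro x
    have h1 : ρ x * ρ x⁻¹ = 1 := by rw [← map_mul, mul_inv_cancel, map_one]
    rw [hcx x, hcx x⁻¹, smul_mul_smul_comm, one_mul] at h1
    have h2 := congrArg (LinearMap.trace ℂ _) h1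
    rw [map_smul, LinearMap.trace_one, smul_eq_mul] at h2
    have h3 : (Module.finrank ℂ (Fin d' → ℂ) : ℂ) ≠ 0 := by
      simp [hd0.ne']
    exact mul_right_cancel₀ h3 (by rw [h2, one_mul])
  have hd1 : θ 1 = 1 := by
    have h1 := ip_irr hθI hθI
    rw [if_pos rfl] at h1
    unfold ip at h1
    rw [finsum_eq_sum_of_fintype] at h1
    have h2 : ∀ x : K, θ x * conj (θ x) = (d' : ℂ) * d' := by
      intro x
      rw [← irr_inv hθI x, hθx, hθx]
      linear_combination (d' : ℂ) * d' * hcc x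
    simp only [h2, Finset.sum_const, Finset.card_univ, nsmul_eq_mul] at h1
    rw [Nat.card_eq_fintype_card, ← mul_assoc, inv_mul_cancel₀ (by
      exact_mod_cast Fintype.card_pos.ne'), one_mul] at h1
    have h3 : d' * d' = 1 := by exact_mod_cast h1
    have h4 : d' = 1 := by nlinarith
    rw [hd', h4, Nat.cast_one]
  obtain ⟨l, hl⟩ := irr_deg_one hθI hd1
  refine ⟨fun g => if hg : g ∈ K then (l ⟨g, hg⟩ : ℂ) else 0, ⟨?_, ?_⟩, ?_, ?_⟩
  · simp only [dif_pos K.one_mem]
    have : (⟨1, K.one_mem⟩ : K) = 1 := rfl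
    rw [this, map_one, Units.val_one]
  · intro x hx y hy
    simp only [dif_pos hx, dif_pos hy, dif_pos (K.mul_mem hx hy)]
    have : (⟨x * y, K.mul_mem hx hy⟩ : K) = ⟨x, hx⟩ * ⟨y, hy⟩ := rfl
    rw [this, map_mul, Units.val_mul]
  · intro x hx
    simp only [dif_pos (hNK hx)]
    have h1 : θ ⟨x, hNK hx⟩ = (l ⟨x, hNK hx⟩ : ℂ) := by rw [hl]
    rw [← h1]
    have h2 := isotypic N' mK hlin hinv hθI hθ2 ⟨x, hNK hx⟩ hx 1
    rw [mul_one, hd1, mul_one] at h2
    exact h2
  · unfold mult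
    have h1 : (fun n : K => (fun g => if hg : g ∈ K then (l ⟨g, hg⟩ : ℂ) else 0) (n : G)) = θ := by
      funext n
      simp only [dif_pos n.2]
      rw [hl]
    rw [h1]
    exact hθ1

end Pool.Agent.Lib.MP_fa0f6c_al.Cx
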