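import Pool.Agent.Lib.MP_fa0f6c_al.Cx.Defs
import Pool.Agent.Lib.MP_fa0f6c_al.Cx.R09

set_option autoImplicit false

namespace Pool.Agent.Lib.MP_fa0f6c_al.Cx

open scoped ComplexConjugate

private theorem r18_sum {N : Type} [Group N] [Finite N] (Z : Subgroup N) (f : N → ℂ) (c : ℂ)
    (h1 : ∀ x ∈ Z, f x = c) (h2 : ∀ x, x ∉ Z → f x = 0) :
    ∑ᶠ x, f x = (Nat.card Z : ℂ) * c := by
  classical
  have : Fintype N := Fintype.ofFinite N
  rw [finsum_eq_sum_of_fintype]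
  have h3 : ∀ x : N, f x = if x ∈ Z then c else 0 := by
    intro x
    by_cases hx : x ∈ Z
    · rw [if_pos hx, h1 x hx]
    · rw [if_neg hx, h2 x hx]
  rw [Finset.sum_congr rfl (fun x _ => h3 x), ← Finset.sum_filter, Finset.sum_const, nsmul_eq_mul]
  congr 2
  rw [Nat.card_eq_fintype_card, Fintype.card_subtype]

private theorem r18_vanish {N : Type} [Group N] [Finite N] (Z : Subgroup N) (m : N → ℂ)
    (hnd : ∀ n : N, n ∉ Z → ∃ n' : N, n' * n * n'⁻¹ * n⁻¹ ∈ Z ∧ m (n' * n * n'⁻¹ * n⁻¹) ≠ 1)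
    {η : N → ℂ} (hη : η ∈ Irr N) (hiso : ∀ n ∈ Z, ∀ y : N, η (n * y) = m n * η y) :
    ∀ n : N, n ∉ Z → η n = 0 := by
  intro n hn
  obtain ⟨n', hz, hm1⟩ := hnd n hn
  have h1 := hiso _ hz n
  have h2 : n' * n * n'⁻¹ * n⁻¹ * n = n' * n * n'⁻¹ := by group
  have h3 : η (n' * n * n'⁻¹) = η n := by
    rw [irr_cf hη (n' * n) n'⁻¹]
    congr 1
    group
  rw [h2, h3] at h1
  have h4 : (1 - m (n' * n * n'⁻¹ * n⁻¹)) * η n = 0 := by
    linear_combination h1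
  rcases mul_eq_zero.mp h4 with h | h
  · exact absurd (sub_eq_zero.mp h).symm hm1
  · exact h

private theorem r18_norm {N : Type} [Group N] [Finite N] (Z : Subgroup N) (m : N → ℂ)
    (hm : IsLin Z m) {η : N → ℂ} (hη : η ∈ Irr N)
    (hiso : ∀ n ∈ Z, ∀ y : N, η (n * y) = m n * η y) :
    ∀ z ∈ Z, m z * conj (m z) = 1 := by
  have h0 : η 1 ≠ 0 := by
    obtain ⟨k, hk, h⟩ := irr_deg hη
    rw [h]
    exact_mod_cast hk.ne'
  have hle : ∀ z ∈ Z, ‖m z‖ ≤ 1 := by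
    intro z hz
    have h1 := hiso z hz 1
    rw [mul_one] at h1
    have h2 := irr_norm_le hη z
    rw [h1, norm_mul] at h2
    have h3 : 0 < ‖η 1‖ := norm_pos_iff.mpr h0
    by_contra hc
    push Not at hc
    nlinarith
  intro z hz
  have hz' : z⁻¹ ∈ Z := Z.inv_mem hz
  have h1 : m z * m z⁻¹ = 1 := by
    rw [← hm.2 z hz z⁻¹ hz', mul_inv_cancel, hm.1]
  have h2 : ‖m z‖ * ‖m z⁻¹‖ = 1 := by rw [← norm_mul, h1, norm_one]
  have h3 : ‖m z‖ = 1 := by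
    have a := hle z hz
    have b := hle z⁻¹ hz'
    have c := norm_nonneg (m z)
    have d := norm_nonneg (m z⁻¹)
    nlinarith
  rw [Complex.mul_conj, Complex.normSq_eq_norm_sq, h3]
  norm_num

/-- Characters over a fully ramified `(Z, m)`. HINT: `isotypic` gives `η (z * n) = m z * η n`. For `n ∉ Z` with
`m [n', n] ≠ 1`: `η n = η (n' n n'⁻¹) = η ([n', n] n) = m [n', n] * η n`, so `η n = 0`. Then `ip η η = 1` reads
`(η 1)^2 |Z| / |N| = 1`. -/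
theorem heis_vanish {N : Type} [Group N] [Finite N] (Z : Subgroup N) (m : N → ℂ) (hm : IsLin Z m)
    (hinv : ∀ g : N, ∀ z ∈ Z, g * z * g⁻¹ ∈ Z ∧ m (g * z * g⁻¹) = m z)
    (hnd : ∀ n : N, n ∉ Z → ∃ n' : N, n' * n * n'⁻¹ * n⁻¹ ∈ Z ∧ m (n' * n * n'⁻¹ * n⁻¹) ≠ 1)
    {η : N → ℂ} (hη : η ∈ Irr N) (h0 : mult Z m η ≠ 0) :
    (∀ n : N, n ∉ Z → η n = 0) ∧ (∀ z ∈ Z, η z = η 1 * m z) ∧ (η 1) ^ 2 = Z.index := by
  have hiso := isotypic Z m hm hinv hη h0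
  have hv := r18_vanish Z m hnd hη hiso
  have hz : ∀ z ∈ Z, η z = η 1 * m z := by
    intro z hz
    have h1 := hiso z hz 1
    rw [mul_one] at h1
    rw [h1, mul_comm]
  refine ⟨hv, hz, ?_⟩
  have hn := r18_norm Z m hm hη hiso
  have hip := ip_irr hη hη
  rw [if_pos rfl] at hip
  obtain ⟨k, hk, hk1⟩ := irr_deg hη
  have hs : ∑ᶠ x, η x * conj (η x) = (Nat.card Z : ℂ) * (η 1) ^ 2 := by
    apply r18_sum
    · intro x hx
      rw [hz x hx, map_mul]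
      have h2 : conj (η 1) = η 1 := by rw [hk1]; simp
      rw [h2]
      linear_combination (η 1) ^ 2 * hn x hx
    · intro x hx
      rw [hv x hx, zero_mul]
  unfold ip at hip
  rw [hs] at hip
  have hcard : (Nat.card N : ℂ) ≠ 0 := by
    exact_mod_cast Nat.card_pos.ne'
  have hcardZ : (Nat.card Z : ℂ) ≠ 0 := by
    exact_mod_cast Nat.card_pos.ne'
  have hidx : (Nat.card Z : ℂ) * (Z.index : ℂ) = (Nat.card N : ℂ) := by
    exact_mod_cast Z.card_mul_index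
  have h5 : (Nat.card Z : ℂ) * (η 1) ^ 2 = (Nat.card N : ℂ) := by
    have h6 := congrArg (fun t => (Nat.card N : ℂ) * t) hip
    simp only [mul_one] at h6
    rw [← mul_assoc, mul_inv_cancel₀ hcard, one_mul] at h6
    exact h6
  exact mul_left_cancel₀ hcardZ (h5.trans hidx.symm)

theorem heis_unique {N : Type} [Group N] [Finite N] (Z : Subgroup N) (m : N → ℂ) (hm : IsLin Z m)
    (hinv : ∀ g : N, ∀ z ∈ Z, g * z * g⁻¹ ∈ Z ∧ m (g * z * g⁻¹) = m z)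
    (hnd : ∀ n : N, n ∉ Z → ∃ n' : N, n' * n * n'⁻¹ * n⁻¹ ∈ Z ∧ m (n' * n * n'⁻¹ * n⁻¹) ≠ 1)
    {η η' : N → ℂ} (hη : η ∈ Irr N) (h0 : mult Z m η ≠ 0) (hη' : η' ∈ Irr N)
    (h0' : mult Z m η' ≠ 0) : η = η' := by
  have hiso := isotypic Z m hm hinv hη h0
  have hn := r18_norm Z m hm hη hiso
  obtain ⟨hv, hz, -⟩ := heis_vanish Z m hm hinv hnd hη h0
  obtain ⟨-, hz', -⟩ := heis_vanish Z m hm hinv hnd hη' h0'
  obtain ⟨k, hk, hk1⟩ := irr_deg hη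
  obtain ⟨l, hl, hl1⟩ := irr_deg hη'
  by_contra hne
  have hip := ip_irr hη hη'
  rw [if_neg hne] at hip
  have hs : ∑ᶠ x, η x * conj (η' x) = (Nat.card Z : ℂ) * (η 1 * η' 1) := by
    apply r18_sum
    · intro x hx
      rw [hz x hx, hz' x hx, map_mul]
      have h2 : conj (η' 1) = η' 1 := by rw [hl1]; simp
      rw [h2]
      linear_combination (η 1 * η' 1) * hn x hx
    · intro x hx
      rw [hv x hx, zero_mul]
  unfold ip at hip
  rw [hs] at hip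
  have hcard : (Nat.card N : ℂ) ≠ 0 := by
    exact_mod_cast Nat.card_pos.ne'
  have hcardZ : (Nat.card Z : ℂ) ≠ 0 := by
    exact_mod_cast Nat.card_pos.ne'
  have hk0 : η 1 ≠ 0 := by rw [hk1]; exact_mod_cast hk.ne'
  have hl0 : η' 1 ≠ 0 := by rw [hl1]; exact_mod_cast hl.ne'
  exact (mul_ne_zero (inv_ne_zero hcard) (mul_ne_zero hcardZ (mul_ne_zero hk0 hl0))) hip

end Pool.Agent.Lib.MP_fa0f6c_al.Cx
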