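import Pool.Agent.Lib.MP_fa0f6c_al.Cx.Defs
import Pool.Agent.Lib.MP_fa0f6c_al.Cx.R15
import Pool.Agent.Lib.MP_fa0f6c_al.Cx.R17
import Pool.Agent.Lib.MP_fa0f6c_al.Cx.R18

set_option autoImplicit false

namespace Pool.Agent.Lib.MP_fa0f6c_al.Cx

open scoped ComplexConjugate

/-! private lemmas -/

section R19

variable {H : Type} [Group H] [Finite H]

/-- coprime conjugacy in a coset -/
private theorem r19_conj (N : Subgroup H) (hN : N.Normal) (l : ℕ) (hl : l.Prime)
    (hNl : ¬ l ∣ Nat.card N) (y s : H) (hy : y ^ l = 1) (hs : s ^ l = 1) (hys : y * s⁻¹ ∈ N) :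
    ∃ n ∈ N, n * s * n⁻¹ = y := by
  classical
  let _ : Fintype N := Fintype.ofFinite N
  have : Fact l.Prime := ⟨hl⟩
  have hys' : y⁻¹ * s ∈ N := by
    have h1 := N.inv_mem hys
    have h2 := hN.conj_mem _ h1 y⁻¹
    have h3 : y⁻¹ * (y * s⁻¹)⁻¹ * y⁻¹⁻¹ = y⁻¹ * s := by group
    rwa [h3] at h2
  let e : Equiv.Perm N :=
    { toFun := fun n => ⟨y * n * s⁻¹, by
        have h1 := hN.conj_mem _ n.2 y
        have h2 := N.mul_mem h1 hys
        have h3 : y * (n : H) * y⁻¹ * (y * s⁻¹) = y * n * s⁻¹ := by group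
        rwa [h3] at h2⟩
      invFun := fun n => ⟨y⁻¹ * n * s, by
        have h1 := hN.conj_mem _ n.2 y⁻¹
        have h2 := N.mul_mem h1 hys'
        have h3 : y⁻¹ * (n : H) * y⁻¹⁻¹ * (y⁻¹ * s) = y⁻¹ * n * s := by group
        rwa [h3] at h2⟩
      left_inv := fun n => by ext; simp only; group
      right_inv := fun n => by ext; simp only; group }
  have he1 : ∀ n : N, ((e n : N) : H) = y * n * s⁻¹ := fun n => rfl
  have he : ∀ (j : ℕ) (n : N), (((e ^ j) n : N) : H) = y ^ j * n * (s ^ j)⁻¹ := by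
    intro j
    induction j with
    | zero => intro n; simp
    | succ j ih =>
      intro n
      rw [pow_succ', Equiv.Perm.mul_apply, he1, ih, pow_succ', pow_succ s j]
      group
  have hpow : e ^ l ^ 1 = 1 := by
    rw [pow_one]
    ext n
    rw [he, hy, hs]
    simp
  have hcard : ¬ l ∣ Fintype.card N := by rwa [← Nat.card_eq_fintype_card]
  obtain ⟨n, hn⟩ := Equiv.Perm.exists_fixed_point_of_prime (n := 1) hcard hpow
  refine ⟨n, n.2, ?_⟩
  have h1 : y * (n : H) * s⁻¹ = n := by rw [← he1, hn]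
  have h2 : y * (n : H) = n * s := by
    calc y * (n : H) = y * n * s⁻¹ * s := by group
      _ = n * s := by rw [h1]
  rw [← h2]; group

omit [Finite H] in
private theorem r19_lin_ne {Z : Subgroup H} {m : H → ℂ} (hm : IsLin Z m) {z : H} (hz : z ∈ Z) :
    m z ≠ 0 := by
  intro h
  have h1 := hm.2 z hz z⁻¹ (Z.inv_mem hz)
  rw [mul_inv_cancel, hm.1, h, zero_mul] at h1
  exact one_ne_zero h1

omit [Finite H] in
private theorem r19_lin_pow {Z : Subgroup H} {m : H → ℂ} (hm : IsLin Z m) {z : H} (hz : z ∈ Z)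
    (j : ℕ) : m (z ^ j) = m z ^ j := by
  induction j with
  | zero => simp [hm.1]
  | succ j ih => rw [pow_succ, pow_succ, hm.2 _ (Z.pow_mem hz j) _ hz, ih]

private theorem r19_lin_norm {Z : Subgroup H} {m : H → ℂ} (hm : IsLin Z m) {z : H} (hz : z ∈ Z) :
    m z * conj (m z) = 1 := by
  have h1 : m z ^ orderOf z = 1 := by
    rw [← r19_lin_pow hm hz, pow_orderOf_eq_one, hm.1]
  have h2 : ‖m z‖ = 1 := Complex.norm_eq_one_of_pow_eq_one h1 (orderOf_pos z).ne'
  rw [Complex.mul_conj, Complex.normSq_eq_norm_sq, h2]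
  simp

/-- an element of `N` commuting with `y` and moving `c` -/
private theorem r19_fix (N Z : Subgroup H) (hN : N.Normal)
    (m : H → ℂ) (hm : IsLin Z m) (hinv : ∀ g : H, ∀ z ∈ Z, m (g * z * g⁻¹) = m z)
    (hZ : Z.Normal)
    (hcomm : ∀ x ∈ N, ∀ y ∈ N, x * y * x⁻¹ * y⁻¹ ∈ Z) (l : ℕ) (hl : l.Prime)
    (hNl : ¬ l ∣ Nat.card N) (y c n' : H) (hy : y ^ l = 1) (hc : c ∈ N) (hyc : y * c = c * y)
    (hn' : n' ∈ N) (hne : m (n' * c * n'⁻¹ * c⁻¹) ≠ 1) :
    ∃ n ∈ N, y * n = n * y ∧ m (n * c * n⁻¹ * c⁻¹) ≠ 1 := by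
  classical
  have : Fact l.Prime := ⟨hl⟩
  set β : H → ℂ := fun n => m (n * c * n⁻¹ * c⁻¹) with hβ
  have hβ1 : β 1 = 1 := by simp [hβ, hm.1]
  have hβm : ∀ a ∈ N, ∀ b ∈ N, β (a * b) = β a * β b := by
    intro a ha b hb
    have h1 : a * b * c * (a * b)⁻¹ * c⁻¹
        = (a * (b * c * b⁻¹ * c⁻¹) * a⁻¹) * (a * c * a⁻¹ * c⁻¹) := by group
    have h2 := hcomm b hb c hc
    have h3 := hcomm a ha c hc
    simp only [hβ]
    rw [h1, hm.2 _ (hZ.conj_mem _ h2 a) _ h3, hinv a _ h2, mul_comm]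
  have hβy : ∀ n ∈ N, β (y * n * y⁻¹) = β n := by
    intro n hn
    have e1 : y⁻¹ * c * y = c := by
      calc y⁻¹ * c * y = y⁻¹ * (c * y) := by group
        _ = c := by rw [← hyc]; group
    have h1 : y * n * y⁻¹ * c * (y * n * y⁻¹)⁻¹ * c⁻¹ = y * (n * c * n⁻¹ * c⁻¹) * y⁻¹ := by
      calc y * n * y⁻¹ * c * (y * n * y⁻¹)⁻¹ * c⁻¹
          = y * n * (y⁻¹ * c * y) * n⁻¹ * (y⁻¹ * c⁻¹ * y) * y⁻¹ := by group
        _ = y * n * (y⁻¹ * c * y) * n⁻¹ * (y⁻¹ * c * y)⁻¹ * y⁻¹ := by group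
        _ = _ := by rw [e1]; group
    simp only [hβ]
    rw [h1, hinv y _ (hcomm n hn c hc)]
  have hβinv : ∀ a ∈ N, β a⁻¹ * β a = 1 := by
    intro a ha
    rw [← hβm _ (N.inv_mem ha) _ ha, inv_mul_cancel, hβ1]
  -- the kernel
  let D : Subgroup H :=
    { carrier := {n | n ∈ N ∧ β n = 1}
      one_mem' := ⟨N.one_mem, hβ1⟩
      mul_mem' := fun {a b} ha hb => ⟨N.mul_mem ha.1 hb.1, by
        rw [hβm _ ha.1 _ hb.1, ha.2, hb.2, one_mul]⟩
      inv_mem' := fun {a} ha => ⟨N.inv_mem ha.1, by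
        have := hβinv a ha.1
        rwa [ha.2, mul_one] at this⟩ }
  have hDN : D ≤ N := fun a ha => ha.1
  have hDl : ¬ l ∣ Nat.card D := fun h => hNl (h.trans (Subgroup.card_dvd_of_le hDN))
  let B : Type := {n : H // n ∈ N ∧ β n = β n'}
  have : Finite B := Subtype.finite
  let _ : Fintype B := Fintype.ofFinite B
  let eqv : B ≃ D :=
    { toFun := fun b => ⟨n'⁻¹ * b.1, ⟨N.mul_mem (N.inv_mem hn') b.2.1, by
        rw [hβm _ (N.inv_mem hn') _ b.2.1, b.2.2, hβinv _ hn']⟩⟩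
      invFun := fun d => ⟨n' * d.1, ⟨N.mul_mem hn' d.2.1, by
        rw [hβm _ hn' _ d.2.1]
        have : β d.1 = 1 := d.2.2
        rw [this, mul_one]⟩⟩
      left_inv := fun b => by apply Subtype.ext; simp
      right_inv := fun d => by apply Subtype.ext; simp }
  have hcardB : ¬ l ∣ Fintype.card B := by
    rw [← Nat.card_eq_fintype_card, Nat.card_congr eqv]
    exact hDl
  have hyN : ∀ n ∈ N, y⁻¹ * n * y ∈ N := by
    intro n hn
    have := hN.conj_mem _ hn y⁻¹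
    rwa [inv_inv] at this
  let e : Equiv.Perm B :=
    { toFun := fun b => ⟨y * b.1 * y⁻¹, ⟨hN.conj_mem _ b.2.1 y, by
        rw [hβy _ b.2.1, b.2.2]⟩⟩
      invFun := fun b => ⟨y⁻¹ * b.1 * y, ⟨hyN _ b.2.1, by
        rw [← hβy _ (hyN _ b.2.1)]
        have : y * (y⁻¹ * b.1 * y) * y⁻¹ = b.1 := by group
        rw [this, b.2.2]⟩⟩
      left_inv := fun b => by apply Subtype.ext; simp only; group
      right_inv := fun b => by apply Subtype.ext; simp only; group }
  have he1 : ∀ b : B, (e b).1 = y * b.1 * y⁻¹ := fun b => rfl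
  have he : ∀ (j : ℕ) (b : B), ((e ^ j) b).1 = y ^ j * b.1 * (y ^ j)⁻¹ := by
    intro j
    induction j with
    | zero => intro b; simp
    | succ j ih =>
      intro b
      rw [pow_succ', Equiv.Perm.mul_apply, he1, ih, pow_succ']
      group
  have hpow : e ^ l ^ 1 = 1 := by
    rw [pow_one]
    refine Equiv.ext fun b => Subtype.ext ?_
    rw [he, hy]
    simp
  obtain ⟨b, hb⟩ := Equiv.Perm.exists_fixed_point_of_prime (n := 1) hcardB hpow
  refine ⟨b.1, b.2.1, ?_, ?_⟩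
  · have h1 : y * b.1 * y⁻¹ = b.1 := by rw [← he1, hb]
    calc y * b.1 = y * b.1 * y⁻¹ * y := by group
      _ = b.1 * y := by rw [h1]
  · have h2 : β b.1 = β n' := b.2.2
    change β b.1 ≠ 1
    rw [h2]
    exact hne

/-- a function which is invariant under conjugation by `N` and isotypic over `Z` and vanishes at `y`
vanishes on the coset `y N` -/
private theorem r19_coset (N Z : Subgroup H) (hN : N.Normal) (hZ : Z.Normal)
    (m : H → ℂ) (hm : IsLin Z m) (hinv : ∀ g : H, ∀ z ∈ Z, m (g * z * g⁻¹) = m z)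
    (hcomm : ∀ x ∈ N, ∀ y ∈ N, x * y * x⁻¹ * y⁻¹ ∈ Z)
    (hnd : ∀ n ∈ N, n ∉ Z → ∃ n' ∈ N, m (n' * n * n'⁻¹ * n⁻¹) ≠ 1)
    (l : ℕ) (hl : l.Prime) (hNl : Nat.Coprime l (Nat.card N)) (f : H → ℂ)
    (hf : ∀ n ∈ N, ∀ k, f (n * k * n⁻¹) = f k) (hfz : ∀ z ∈ Z, ∀ k, f (z * k) = m z * f k)
    (y : H) (hy : y ^ l = 1) (hfy : f y = 0) (n : H) (hn : n ∈ N) : f (y * n) = 0 := by
  have hNl' : ¬ l ∣ Nat.card N := (Nat.Prime.coprime_iff_not_dvd hl).mp hNl
  set q := Nat.card N with hq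
  set g := y * n with hg
  obtain ⟨a, ha1, ha2⟩ := Nat.chineseRemainder hNl 1 0
  obtain ⟨t, ht⟩ : q ∣ a := (Nat.modEq_zero_iff_dvd).mp ha2
  have ha0 : 1 ≤ a := by
    rcases Nat.eq_zero_or_pos a with h | h
    · exfalso
      rw [h] at ha1
      have h1 := (Nat.modEq_iff_dvd' (Nat.zero_le 1)).mp ha1
      simp only [tsub_zero, Nat.dvd_one] at h1
      exact hl.one_lt.ne' h1
    · exact h
  obtain ⟨t', ht'⟩ : l ∣ a - 1 := (Nat.modEq_iff_dvd' ha0).mp ha1.symm
  have ha' : a = l * t' + 1 := by omega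
  -- the quotient
  have hmk : (QuotientGroup.mk g : H ⧸ N) = QuotientGroup.mk y := by
    rw [QuotientGroup.eq]
    have : g⁻¹ * y = n⁻¹ := by rw [hg]; group
    rw [this]
    exact N.inv_mem hn
  have hmkl : (QuotientGroup.mk y : H ⧸ N) ^ l = 1 := by
    rw [← QuotientGroup.mk_pow, hy, QuotientGroup.mk_one]
  have hgl : g ^ l ∈ N := by
    rw [← QuotientGroup.eq_one_iff, QuotientGroup.mk_pow, hmk, hmkl]
  have hglq : (g ^ l) ^ q = 1 := by
    have h1 : (⟨g ^ l, hgl⟩ : N) ^ Nat.card N = 1 := pow_card_eq_one'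
    have h2 := congrArg (fun w : N => (w : H)) h1
    simp only [Subgroup.coe_pow, Subgroup.coe_one] at h2
    exact h2
  set s := g ^ a with hs
  have hsl : s ^ l = 1 := by
    rw [hs, ← pow_mul, ht]
    calc g ^ (q * t * l) = ((g ^ l) ^ q) ^ t := by
          rw [← pow_mul, ← pow_mul]
          congr 1
          ring
      _ = 1 := by rw [hglq, one_pow]
  have hmks : (QuotientGroup.mk s : H ⧸ N) = QuotientGroup.mk y := by
    rw [hs, QuotientGroup.mk_pow, hmk, ha', pow_succ, pow_mul, hmkl, one_pow, one_mul]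
  have hys : y * s⁻¹ ∈ N := by
    rw [← QuotientGroup.eq_one_iff, QuotientGroup.mk_mul, QuotientGroup.mk_inv, hmks,
      mul_inv_cancel]
  obtain ⟨n0, hn0, hc0⟩ := r19_conj N hN l hl hNl' y s hy hsl hys
  set u := s⁻¹ * g with hu
  have huN : u ∈ N := by
    rw [← QuotientGroup.eq_one_iff, hu, QuotientGroup.mk_mul, QuotientGroup.mk_inv, hmks, hmk,
      inv_mul_cancel]
  have hsg : s * g = g * s := by
    rw [hs]
    exact (Commute.pow_self g a)
  have hsu : s * u = g := by rw [hu]; group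
  have hus : u * s = g := by
    rw [hu, mul_assoc, ← hsg]; group
  set c := n0 * u * n0⁻¹ with hc
  have hcN : c ∈ N := hN.conj_mem _ huN n0
  have hyc : y * c = n0 * g * n0⁻¹ := by
    rw [← hc0, hc, ← hsu]; group
  have hcy : c * y = n0 * g * n0⁻¹ := by
    rw [← hc0, hc, ← hus]; group
  have hfg : f g = f (y * c) := by rw [hyc, hf n0 hn0]
  rw [hfg]
  by_cases hcZ : c ∈ Z
  · rw [hyc, ← hcy, hfz c hcZ, hfy, mul_zero]
  · obtain ⟨n', hn', hne⟩ := hnd c hcN hcZ
    obtain ⟨n1, hn1, hyn, hne1⟩ := r19_fix N Z hN m hm hinv hZ hcomm l hl hNl' y c n' hy hcN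
      (hyc.trans hcy.symm) hn' hne
    have hz : n1 * c * n1⁻¹ * c⁻¹ ∈ Z := hcomm n1 hn1 c hcN
    set z := n1 * c * n1⁻¹ * c⁻¹ with hzdef
    have h1 : n1 * (y * c) * n1⁻¹ = (y * z * y⁻¹) * (y * c) := by
      calc n1 * (y * c) * n1⁻¹ = (n1 * y) * c * n1⁻¹ := by group
        _ = (y * n1) * c * n1⁻¹ := by rw [hyn]
        _ = _ := by rw [hzdef]; group
    have h2 : f (y * c) = m z * f (y * c) := by
      conv_lhs => rw [← hf n1 hn1 (y * c), h1, hfz _ (hZ.conj_mem _ hz y), hinv y _ hz]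
    have h3 : (1 - m z) * f (y * c) = 0 := by
      rw [sub_mul, one_mul, ← h2, sub_self]
    rcases mul_eq_zero.mp h3 with h4 | h4
    · exact absurd (sub_eq_zero.mp h4).symm hne1
    · exact h4

end R19

/-- `N` a normal `p`-subgroup, `N / Z` fully ramified for `m`, `x` of prime order `l ≠ p` central modulo
`N`: every irreducible `θ` over `(Z, m)` has `l ∣ |H| / θ(1)`.
PROOF. Suppose not. By `defect_zero` `θ (x ^ j) = 0` for `0 < j < l`. Let `K = ⟨x⟩ N` (normal in `H`, order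
`l |N|`), `κ ∈ Irr K` a constituent of `θ|K` (`exists_constituent`), it lies over `(Z, m)`.
(1) Claim: if `κ (x ^ j) = 0` with `0 < j < l` then `κ` vanishes on the coset `x ^ j N`. Write `x` for `x ^ j`. Let
`g ∈ x N`. Decompose `g = s u` (commuting powers of `g`, `s` of `l`-power order, `u` of `p`-power order,
`orderOf` in `K` divides `l |N|`); `u ∈ N`, `s ∈ x N` of order `l`; `⟨s⟩` and `⟨x⟩` are Sylow `l`-subgroups of `K`,
so `n' s n'⁻¹ ∈ ⟨x⟩` for some `n' ∈ N`, and modulo `N` it is `x`, so `n' s n'⁻¹ = x`. Thus `κ g = κ (x c)` with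
`c = n' u n'⁻¹ ∈ N` commuting with `x`. If `c ∈ Z` then `κ (x c) = m c * κ x = 0`. If `c ∉ Z` choose `n'` with
`m [n', c] ≠ 1` and put `c' = ∏_{i<l} x^i n' x^-i`; the pairing `m [·, c]` is multiplicative and `x`-invariant, so
`m [c', c] = m [n', c] ^ l ≠ 1` (`p`-power order); `x⁻¹ c' x = c' z₀` with `z₀ ∈ Z` modulo reordering, and
`m z₀ ^ l = 1` hence `m z₀ = 1`; conjugating `x c` by `c'` gives `κ (x c) = m [c', c] * κ (x c)`, so `0`.
(2) If `κ (x ^ j) = 0` for all `0 < j < l` then `κ` is supported on `N`, so `ip (κ|N) (κ|N) = l`; but by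
`heis_unique` `κ|N = e η`, and `e ^ 2 = l` is impossible. So `κ (x ^ j) ≠ 0` for some `j`.
(3) For `h ∈ H`: `h x^j h⁻¹ ∈ x^j N` of order `l`, so conjugate by an element of `N` to `x^j` (Sylow in `K` as in
(1)), so `κ (h x^j h⁻¹) = κ (x^j)`. `clifford_avg` gives `θ (x^j) = (θ 1 / κ 1) κ (x^j) ≠ 0`, contradiction. -/
theorem central_nonvanish {H : Type} [Group H] [Finite H] (N Z : Subgroup H) (hN : N.Normal)
    (hZ : Z.Normal) (hZN : Z ≤ N) (p : ℕ) (hp : p.Prime) (hNp : ∃ k, Nat.card N = p ^ k)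
    (m : H → ℂ) (hm : IsLin Z m) (hinv : ∀ g : H, ∀ z ∈ Z, m (g * z * g⁻¹) = m z)
    (hcomm : ∀ x ∈ N, ∀ y ∈ N, x * y * x⁻¹ * y⁻¹ ∈ Z)
    (hnd : ∀ n ∈ N, n ∉ Z → ∃ n' ∈ N, m (n' * n * n'⁻¹ * n⁻¹) ≠ 1)
    (l : ℕ) (hl : l.Prime) (hlp : l ≠ p) (x : H) (hx : orderOf x = l)
    (hxc : ∀ h : H, h * x * h⁻¹ * x⁻¹ ∈ N) {θ : H → ℂ} (hθ : θ ∈ Irr H) (h0 : mult Z m θ ≠ 0)
    (d : ℕ) (hd : θ 1 = d) : l ∣ Nat.card H / d := by
  classical
  by_contra hcon
  have hd0 : d ≠ 0 := by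
    rintro rfl
    exact hcon (by simp)
  obtain ⟨k, hk⟩ := hNp
  have hNl : Nat.Coprime l (Nat.card N) := by
    rw [hk]
    exact Nat.Coprime.pow_right k ((Nat.coprime_primes hl hp).mpr hlp)
  have hNl' : ¬ l ∣ Nat.card N := (Nat.Prime.coprime_iff_not_dvd hl).mp hNl
  have hxl : x ^ l = 1 := by rw [← hx]; exact pow_orderOf_eq_one x
  have hisoθ : ∀ z ∈ Z, ∀ y : H, θ (z * y) = m z * θ y :=
    isotypic Z m hm (fun g z hz => ⟨hZ.conj_mem z hz g, hinv g z hz⟩) hθ h0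
  have hxN : x ∉ N := by
    intro h
    have h1 : orderOf x ∣ Nat.card N := Subgroup.orderOf_dvd_natCard N h
    rw [hx] at h1
    exact hNl' h1
  -- the quotient by `N`
  set xb : H ⧸ N := QuotientGroup.mk x with hxbdef
  have hxb : ∀ h : H, (QuotientGroup.mk h : H ⧸ N) * xb * (QuotientGroup.mk h)⁻¹ = xb := by
    intro h
    rw [← QuotientGroup.mk_inv, ← QuotientGroup.mk_mul, ← QuotientGroup.mk_mul]
    have h1 : (QuotientGroup.mk (h * x * h⁻¹ * x⁻¹) : H ⧸ N) = 1 :=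
      (QuotientGroup.eq_one_iff _).mpr (hxc h)
    rw [QuotientGroup.mk_mul, QuotientGroup.mk_inv, mul_inv_eq_one] at h1
    exact h1
  have hxbl : xb ^ l = 1 := by
    rw [hxbdef, ← QuotientGroup.mk_pow, hxl, QuotientGroup.mk_one]
  have hxb1 : xb ≠ 1 := by
    intro h
    exact hxN ((QuotientGroup.eq_one_iff x).mp h)
  have : Fact l.Prime := ⟨hl⟩
  have hordxb : orderOf xb = l := orderOf_eq_prime hxbl hxb1
  have hxbj : ∀ (h : H) (j : ℕ),
      (QuotientGroup.mk h : H ⧸ N) * xb ^ j * (QuotientGroup.mk h)⁻¹ = xb ^ j := by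
    intro h j
    rw [← conj_pow, hxb]
  have hKbN : (Subgroup.zpowers xb).Normal := by
    constructor
    rintro g ⟨j, rfl⟩ h
    induction h using QuotientGroup.induction_on with
    | H h =>
      refine ⟨j, ?_⟩
      simp only
      rw [← conj_zpow, hxb]
  set K : Subgroup H := (Subgroup.zpowers xb).comap (QuotientGroup.mk' N) with hKdef
  have hK : K.Normal := hKbN.comap _
  have hNK : N ≤ K := by
    intro n hn
    rw [hKdef, Subgroup.mem_comap, QuotientGroup.mk'_apply, (QuotientGroup.eq_one_iff n).mpr hn]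
    exact Subgroup.one_mem _
  have hxjK : ∀ j : ℕ, x ^ j ∈ K := by
    intro j
    apply K.pow_mem
    rw [hKdef, Subgroup.mem_comap, QuotientGroup.mk'_apply]
    exact Subgroup.mem_zpowers xb
  have hcardK : Nat.card K = l * Nat.card N := by
    have e1 : K.index = (Subgroup.zpowers xb).index :=
      Subgroup.index_comap_of_surjective _ (QuotientGroup.mk'_surjective N)
    have e2 := Subgroup.card_mul_index K
    have e3 := Subgroup.card_mul_index N
    have e4 := Subgroup.card_mul_index (Subgroup.zpowers xb)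
    rw [Nat.card_zpowers, hordxb] at e4
    have e5 : N.index = Nat.card (H ⧸ N) := rfl
    have e6 : 0 < (Subgroup.zpowers xb).index := Nat.pos_of_ne_zero Subgroup.index_ne_zero_of_finite
    rw [e5, ← e4] at e3
    rw [e1] at e2
    apply Nat.eq_of_mul_eq_mul_right e6
    rw [e2, ← e3]
    ring
  have hKcos : ∀ h ∈ K, h ∉ N → ∃ j : ℕ, ¬ l ∣ j ∧ (x ^ j)⁻¹ * h ∈ N := by
    intro h hh hhN
    rw [hKdef, Subgroup.mem_comap, QuotientGroup.mk'_apply] at hh
    obtain ⟨j, hj⟩ := (mem_powers_iff_mem_zpowers).mpr hh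
    simp only at hj
    refine ⟨j, ?_, ?_⟩
    · rintro ⟨t, rfl⟩
      rw [pow_mul, hxbl, one_pow] at hj
      exact hhN ((QuotientGroup.eq_one_iff h).mp hj.symm)
    · rw [← QuotientGroup.eq_one_iff, QuotientGroup.mk_mul, QuotientGroup.mk_inv,
        QuotientGroup.mk_pow, ← hj, inv_mul_cancel]
  -- a constituent
  have hZK : Z ≤ K := hZN.trans hNK
  set ZK : Subgroup K := Z.subgroupOf K with hZKdef
  have hmK : IsLin ZK (fun k : K => m k) :=
    ⟨hm.1, fun a ha b hb => hm.2 _ (Subgroup.mem_subgroupOf.mp ha) _ (Subgroup.mem_subgroupOf.mp hb)⟩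
  have hθK : IsNat (fun k : K => θ k) := isNat_comp K.subtype (isNat_irr hθ)
  have hmθ : mult ZK (fun k : K => m k) (fun k : K => θ k) = θ 1 :=
    mult_of_isotypic ZK (fun k : K => m k) hmK
      (fun n hn y => hisoθ n (Subgroup.mem_subgroupOf.mp hn) y)
  have hexp : mult ZK (fun k : K => m k) (fun k : K => θ k)
      = ∑ χ ∈ (irr_finite K).toFinset, ip (fun k : K => θ k) χ * mult ZK (fun k : K => m k) χ := by
    let _ : Fintype ZK := Fintype.ofFinite ZK
    unfold mult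
    have e1 : ∀ f : ZK → ℂ, ip f (fun n : ZK => m n)
        = (Nat.card ZK : ℂ)⁻¹ * ∑ n : ZK, f n * conj (m n) := by
      intro f
      unfold ip
      rw [finsum_eq_sum_of_fintype]
    simp only [e1]
    have e2 : ∀ n : ZK, θ ((n : K) : H) = ∑ χ ∈ (irr_finite K).toFinset,
        ip (fun k : K => θ k) χ * χ n := fun n => cf_expand hθK.1 (n : K)
    simp only [e2]
    rw [Finset.mul_sum]
    simp only [Finset.sum_mul, Finset.mul_sum]
    rw [Finset.sum_comm]
    refine Finset.sum_congr rfl fun χ _ => Finset.sum_congr rfl fun n _ => by ring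
  have hsum : ∑ χ ∈ (irr_finite K).toFinset,
      ip (fun k : K => θ k) χ * mult ZK (fun k : K => m k) χ ≠ 0 := by
    rw [← hexp, hmθ, hd]
    exact_mod_cast hd0
  obtain ⟨κ, hκmem, hκne⟩ := Finset.exists_ne_zero_of_sum_ne_zero hsum
  have hκ : κ ∈ Irr K := by simpa using hκmem
  have hκ1 : ip (fun k : K => θ k) κ ≠ 0 := left_ne_zero_of_mul hκne
  have hκ2 : mult ZK (fun k : K => m k) κ ≠ 0 := right_ne_zero_of_mul hκne
  have hκcf : IsCF κ := (isNat_irr hκ).1
  have hisoκ : ∀ z ∈ ZK, ∀ y : K, κ (z * y) = m z * κ y :=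
    isotypic ZK (fun k : K => m k) hmK (fun g z hz =>
      ⟨Subgroup.mem_subgroupOf.mpr (hZ.conj_mem _ (Subgroup.mem_subgroupOf.mp hz) g),
        hinv g z (Subgroup.mem_subgroupOf.mp hz)⟩) hκ hκ2
  have hκconj : ∀ a b : K, κ (a * b * a⁻¹) = κ b := by
    intro a b
    rw [mul_assoc, hκcf a (b * a⁻¹)]
    congr 1
    group
  -- extension by zero
  set f : H → ℂ := fun h => if hh : h ∈ K then κ ⟨h, hh⟩ else 0 with hfdef
  have hfK : ∀ (h : H) (hh : h ∈ K), f h = κ ⟨h, hh⟩ := by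
    intro h hh
    simp only [hfdef]
    rw [dif_pos hh]
  have hfc : ∀ n ∈ K, ∀ h, f (n * h * n⁻¹) = f h := by
    intro n hn h
    by_cases hh : h ∈ K
    · rw [hfK h hh, hfK _ (hK.conj_mem h hh n)]
      exact hκconj ⟨n, hn⟩ ⟨h, hh⟩
    · have h1 : n * h * n⁻¹ ∉ K := by
        intro h2
        apply hh
        have h3 := hK.conj_mem _ h2 n⁻¹
        have h4 : n⁻¹ * (n * h * n⁻¹) * n⁻¹⁻¹ = h := by group
        rwa [h4] at h3
      simp only [hfdef]
      rw [dif_neg hh, dif_neg h1]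
  have hfz : ∀ z ∈ Z, ∀ h, f (z * h) = m z * f h := by
    intro z hz h
    by_cases hh : h ∈ K
    · rw [hfK h hh, hfK _ (K.mul_mem (hZK hz) hh)]
      exact hisoκ ⟨z, hZK hz⟩ (Subgroup.mem_subgroupOf.mpr hz) ⟨h, hh⟩
    · have h1 : z * h ∉ K := by
        intro h2
        apply hh
        have h3 := K.mul_mem (K.inv_mem (hZK hz)) h2
        rwa [inv_mul_cancel_left] at h3
      simp only [hfdef]
      rw [dif_neg hh, dif_neg h1, mul_zero]
  -- values at the powers of `x`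
  have hfx : ∀ j : ℕ, ¬ l ∣ j → f (x ^ j) = 0 := by
    intro j hj
    have hjl : (x ^ j) ^ l = 1 := by rw [← pow_mul, mul_comm, pow_mul, hxl, one_pow]
    have hinvx : ∀ h : H, f (h * x ^ j * h⁻¹) = f (x ^ j) := by
      intro h
      have h1 : (h * x ^ j * h⁻¹) ^ l = 1 := by
        rw [conj_pow, hjl]; group
      have h2 : x ^ j * (h * x ^ j * h⁻¹)⁻¹ ∈ N := by
        rw [← QuotientGroup.eq_one_iff, QuotientGroup.mk_mul, QuotientGroup.mk_inv,
          QuotientGroup.mk_mul, QuotientGroup.mk_mul, QuotientGroup.mk_inv, QuotientGroup.mk_pow,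
          hxbj, mul_inv_cancel]
      obtain ⟨n, hn, h3⟩ := r19_conj N hN l hl hNl' (x ^ j) (h * x ^ j * h⁻¹) hjl h1 h2
      rw [← hfc n (hNK hn) (h * x ^ j * h⁻¹), h3]
    have hord : orderOf (x ^ j) = l := by
      apply orderOf_eq_prime hjl
      intro h1
      apply hj
      rw [← hx]
      exact orderOf_dvd_of_pow_eq_one h1
    have hθx : θ (x ^ j) = 0 := defect_zero hθ d hd l hl hcon (x ^ j) hord
    have h1 := clifford_avg K hK hθ hκ hκ1 ⟨x ^ j, hxjK j⟩
    have h2 : ∀ h : H, κ ⟨h * ((⟨x ^ j, hxjK j⟩ : K) : H) * h⁻¹,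
        hK.conj_mem ((⟨x ^ j, hxjK j⟩ : K) : H) (hxjK j) h⟩ = f (x ^ j) := by
      intro h
      rw [← hinvx h, hfK _ (hK.conj_mem _ (hxjK j) h)]
    simp only [h2] at h1
    let _ : Fintype H := Fintype.ofFinite H
    rw [finsum_eq_sum_of_fintype, Finset.sum_const, nsmul_eq_mul, hθx, mul_zero, hd] at h1
    have h3 : (d : ℂ) ≠ 0 := by exact_mod_cast hd0
    have h4 : ((Finset.univ : Finset H).card : ℂ) ≠ 0 := by
      have : (Finset.univ : Finset H).Nonempty := ⟨1, Finset.mem_univ _⟩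
      exact_mod_cast this.card_pos.ne'
    rcases mul_eq_zero.mp h1.symm with h5 | h5
    · exact absurd h5 h3
    · rcases mul_eq_zero.mp h5 with h6 | h6
      · exact absurd h6 h4
      · exact h6
  have hf0 : ∀ h ∈ K, h ∉ Z → f h = 0 := by
    intro h hh hhZ
    by_cases hhN : h ∈ N
    · obtain ⟨n', hn', hne⟩ := hnd h hhN hhZ
      have h1 : f h = m (n' * h * n'⁻¹ * h⁻¹) * f h := by
        conv_lhs => rw [← hfc n' (hNK hn') h]
        rw [← hfz _ (hcomm n' hn' h hhN)]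
        congr 1
        group
      have h2 : (1 - m (n' * h * n'⁻¹ * h⁻¹)) * f h = 0 := by
        rw [sub_mul, one_mul, ← h1, sub_self]
      rcases mul_eq_zero.mp h2 with h3 | h3
      · exact absurd (sub_eq_zero.mp h3).symm hne
      · exact h3
    · obtain ⟨j, hj, hjN⟩ := hKcos h hh hhN
      have h1 := r19_coset N Z hN hZ m hm hinv hcomm hnd l hl hNl f
        (fun n hn h => hfc n (hNK hn) h) hfz (x ^ j)
        (by rw [← pow_mul, mul_comm, pow_mul, hxl, one_pow]) (hfx j hj) ((x ^ j)⁻¹ * h) hjN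
      rwa [mul_inv_cancel_left] at h1
  -- the norm of `κ`
  obtain ⟨e, he⟩ := isNat_deg (isNat_irr hκ)
  have hip : ip κ κ = 1 := by
    rw [ip_irr hκ hκ]
    simp
  have hval : ∀ a : K, κ a * conj (κ a) = if a ∈ ZK then (e : ℂ) ^ 2 else 0 := by
    intro a
    by_cases ha : a ∈ ZK
    · rw [if_pos ha]
      have h1 : κ a = m a * κ 1 := by
        have := hisoκ a ha 1
        rwa [mul_one] at this
      have h2 := r19_lin_norm hm (Subgroup.mem_subgroupOf.mp ha)
      rw [h1, he, map_mul, Complex.conj_natCast]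
      calc m a * (e : ℂ) * (conj (m a) * e) = (m a * conj (m a)) * (e : ℂ) ^ 2 := by ring
        _ = (e : ℂ) ^ 2 := by rw [h2, one_mul]
    · rw [if_neg ha]
      have h1 : κ a = 0 := by
        have h2 := hf0 a a.2 (fun h => ha (Subgroup.mem_subgroupOf.mpr h))
        rwa [hfK a a.2] at h2
      rw [h1, zero_mul]
  have hcount : Nat.card Z * e ^ 2 = l * Nat.card N := by
    let _ : Fintype K := Fintype.ofFinite K
    unfold ip at hip
    rw [finsum_eq_sum_of_fintype] at hip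
    simp only [hval] at hip
    rw [← Finset.sum_filter, Finset.sum_const, nsmul_eq_mul] at hip
    have h1 : (Finset.univ.filter (fun a : K => a ∈ ZK)).card = Nat.card Z := by
      rw [← Fintype.card_subtype, ← Nat.card_eq_fintype_card]
      exact Nat.card_congr (Subgroup.subgroupOfEquivOfLe hZK).toEquiv
    rw [h1] at hip
    have h2 : (Nat.card K : ℂ) ≠ 0 := by
      exact_mod_cast Nat.card_pos.ne'
    rw [inv_mul_eq_one₀ h2] at hip
    have h3 : Nat.card K = Nat.card Z * e ^ 2 := by exact_mod_cast hip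
    rw [← h3, hcardK]
  -- arithmetic
  obtain ⟨a, -, ha⟩ := (Nat.dvd_prime_pow hp).mp (hk ▸ Subgroup.card_dvd_of_le hZN)
  rw [hk, ha] at hcount
  have : Fact p.Prime := ⟨hp⟩
  have he0 : e ≠ 0 := by
    rintro rfl
    have h1 : 0 < l * p ^ k := Nat.mul_pos hl.pos (pow_pos hp.pos k)
    rw [zero_pow two_ne_zero, mul_zero] at hcount
    omega
  have hpa : p ^ a ≠ 0 := (pow_pos hp.pos a).ne'
  have hpk : p ^ k ≠ 0 := (pow_pos hp.pos k).ne'
  have h1 := congrArg (padicValNat l) hcount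
  rw [padicValNat.mul hpa (pow_ne_zero 2 he0), padicValNat.mul hl.ne_zero hpk,
    padicValNat.pow, padicValNat.pow, padicValNat.pow, padicValNat.self hl.one_lt,
    padicValNat_primes hlp] at h1
  omega

end Pool.Agent.Lib.MP_fa0f6c_al.Cx
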