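import Pool.Agent.Lib.MP_fa0f6c_al.Cx.A12
import Pool.Agent.Lib.MP_fa0f6c_al.Cx.R19

set_option autoImplicit false

namespace Pool.Agent.Lib.MP_fa0f6c_al.Cx

/-- the value of `mu` at a commutator -/
private theorem A13_comm {R : Type} [Ring R] [Finite R] (s : Stage R) {K : Submodule ℤ R}
    (hK : IsNilIdeal s.E K) (hle : s.I ≤ K) (sq : ∀ x ∈ K, ∀ y ∈ K, x * y ∈ s.I) (u v : Rˣ)
    (hu : u ∈ oneAddGroup s.E K hK) (hv : v ∈ oneAddGroup s.E K hK) :
    u * v * u⁻¹ * v⁻¹ ∈ s.N ∧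
      s.mu (u * v * u⁻¹ * v⁻¹) = beta s.m ((u : R) - 1) ((v : R) - 1) := by
  have hx' : ((u⁻¹ : Rˣ) : R) - 1 ∈ K := hu.2
  have hx : (u : R) - 1 ∈ K := hu.1
  have hy : (v : R) - 1 ∈ K := hv.1
  have huE : (u : R) ∈ s.E := ((oneAddGroup_le hK) hu).1
  have hy1 : (u : R) * ((v : R) - 1) ∈ K := hK.mulL _ huE _ hy
  obtain ⟨z, hzm, hz⟩ := exists_unit hK hy1
  have hzE : ((z⁻¹ : Rˣ) : R) ∈ s.E := ((oneAddGroup_le hK) hzm).2
  have hzK : ((z⁻¹ : Rˣ) : R) - 1 ∈ K := hzm.2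
  have huu : (u : R) * ((u⁻¹ : Rˣ) : R) = 1 := u.mul_inv
  have huu' : ((u⁻¹ : Rˣ) : R) * (u : R) = 1 := u.inv_mul
  have hzz : (z : R) * ((z⁻¹ : Rˣ) : R) = 1 := z.mul_inv
  have hzz' : ((z⁻¹ : Rˣ) : R) * (z : R) = 1 := z.inv_mul
  set U : R := (u : R) with hU
  set Ui : R := ((u⁻¹ : Rˣ) : R) with hUi
  set V : R := (v : R) with hV
  set Z : R := (z : R) with hZ
  set Zi : R := ((z⁻¹ : Rˣ) : R) with hZi
  have hcomm : (U * (V - 1)) * Zi = Zi * (U * (V - 1)) := by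
    have e : U * (V - 1) = Z - 1 := by rw [hz]; abel
    rw [e, sub_mul, mul_sub, hzz, hzz', one_mul, mul_one]
  set a : Rˣ := u * v * u⁻¹ * z⁻¹ with ha
  set b : Rˣ := v * z⁻¹ with hb
  have hab : u * v * u⁻¹ * v⁻¹ = a * b⁻¹ := by rw [ha, hb]; group
  have ha1 : (a : R) - 1 = (U * (V - 1)) * ((Ui - 1) * Zi) := by
    have e1 : (a : R) = U * V * Ui * Zi := by rw [ha]; push_cast; rfl
    have e2 : U * V * Ui = Z + (U * (V - 1)) * (Ui - 1) := by
      have e3 : U * V * Ui = U * (V - 1) * Ui + U * Ui := by noncomm_ring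
      rw [e3, huu, hz]
      noncomm_ring
    rw [e1, e2, add_mul, hzz]
    noncomm_ring
  have hb1 : (b : R) - 1 = (Ui - 1) * ((U * (V - 1)) * Zi) := by
    have e1 : (b : R) = V * Zi := by rw [hb]; push_cast; rfl
    have e2 : V = Z + (Ui - 1) * (U * (V - 1)) := by
      have e3 : (Ui - 1) * (U * (V - 1)) = (Ui * U) * (V - 1) - U * (V - 1) := by noncomm_ring
      rw [e3, huu', hz]
      noncomm_ring
    rw [e1]
    calc V * Zi - 1 = (Z + (Ui - 1) * (U * (V - 1))) * Zi - 1 := by rw [← e2]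
      _ = Z * Zi + (Ui - 1) * (U * (V - 1)) * Zi - 1 := by rw [add_mul]
      _ = _ := by rw [hzz]; noncomm_ring
  have hxz : (Ui - 1) * Zi ∈ K := hK.mulR _ hzE _ hx'
  have hyz : (U * (V - 1)) * Zi ∈ K := hK.mulR _ hzE _ hy1
  have haI : (a : R) - 1 ∈ s.I := by rw [ha1]; exact sq _ hy1 _ hxz
  have hbI : (b : R) - 1 ∈ s.I := by rw [hb1]; exact sq _ hx' _ hyz
  have haN : a ∈ s.N := (mem_oneAddGroup s.ideal a).2 haI
  have hbN : b ∈ s.N := (mem_oneAddGroup s.ideal b).2 hbI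
  have hbne : s.m ((b : R) - 1) ≠ 0 := m_ne_zero s hbI
  have e1 : s.m ((a : R) - 1) = s.m (((U * (V - 1)) * Zi) * (Ui - 1)) := by
    have hyx : (U * (V - 1)) * (Ui - 1) ∈ s.I := sq _ hy1 _ hx'
    rw [hcomm, mul_assoc Zi (U * (V - 1)) (Ui - 1), s.sym Zi hzE _ hyx, ha1,
      ← mul_assoc (U * (V - 1)) (Ui - 1) Zi]
  have hmu : s.mu (u * v * u⁻¹ * v⁻¹) = beta s.m ((U * (V - 1)) * Zi) (Ui - 1) := by
    rw [hab, s.isLin.2 a haN b⁻¹ (s.N.inv_mem hbN)]
    have e2 : s.mu b * s.mu b⁻¹ = 1 := by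
      rw [← s.isLin.2 b hbN b⁻¹ (s.N.inv_mem hbN), mul_inv_cancel, s.isLin.1]
    have e3 : s.mu a = s.m (((U * (V - 1)) * Zi) * (Ui - 1)) := e1
    have e4 : s.mu b = s.m ((Ui - 1) * ((U * (V - 1)) * Zi)) := by
      change s.m ((b : R) - 1) = _
      rw [hb1]
    unfold beta
    rw [← e3, ← e4]
    have e5 : s.mu b ≠ 0 := hbne
    rw [eq_div_iff e5, mul_assoc, mul_comm (s.mu b⁻¹), e2, mul_one]
  refine ⟨by rw [hab]; exact s.N.mul_mem haN (s.N.inv_mem hbN), ?_⟩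
  rw [hmu]
  -- shift the first argument
  have hI1 : (U - 1) * (V - 1) * Zi + (V - 1) * (Zi - 1) ∈ s.I :=
    s.I.add_mem (s.ideal.mulR _ hzE _ (sq _ hx _ hy)) (sq _ hy _ hzK)
  have e6 : (U * (V - 1)) * Zi = (V - 1) + ((U - 1) * (V - 1) * Zi + (V - 1) * (Zi - 1)) := by
    noncomm_ring
  have e7 : beta s.m ((U * (V - 1)) * Zi) (Ui - 1) = beta s.m (V - 1) (Ui - 1) := by
    rw [e6, beta_add_left s hK hle sq hy (hle hI1) hx', beta_left_mem s hK hI1 hx', mul_one]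
  have hI2 : -((Ui - 1) * (U - 1)) ∈ s.I := s.I.neg_mem (sq _ hx' _ hx)
  have e8 : Ui - 1 = -(U - 1) + -((Ui - 1) * (U - 1)) := by
    have : (Ui - 1) * (U - 1) = Ui * U - Ui - U + 1 := by noncomm_ring
    rw [this, huu']
    abel
  have e9 : beta s.m (V - 1) (Ui - 1) = beta s.m (V - 1) (-(U - 1)) := by
    rw [e8, beta_add_right s hK hle sq hy (K.neg_mem hx) (hle hI2),
      beta_right_mem s hK hy hI2, mul_one]
  have e10 : beta s.m (V - 1) (U - 1) * beta s.m (V - 1) (-(U - 1)) = 1 := by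
    rw [← beta_add_right s hK hle sq hy hx (K.neg_mem hx), add_neg_cancel]
    exact beta_right_mem s hK hy s.I.zero_mem
  have e11 : beta s.m (V - 1) (U - 1) * beta s.m (U - 1) (V - 1) = 1 := beta_swap s sq hy hx
  have e12 : beta s.m (V - 1) (U - 1) ≠ 0 := left_ne_zero_of_mul_eq_one e11
  rw [e7, e9]
  exact mul_left_cancel₀ e12 (e10.trans e11.symm)

/-- nondegeneracy on the whole of `J` -/
private theorem A13_nd {R : Type} [Ring R] [Finite R] (s : Stage R) (hs : s.Terminal)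
    {K : Submodule ℤ R} (hK : IsNilIdeal s.E K) (hIK : s.I ≤ K) {x : R} (hx : x ∈ K)
    (hxI : x ∉ s.I) : ∃ y ∈ K, beta s.m x y ≠ 1 := by
  have sq := terminal_sq s hs hK
  let L : Submodule ℤ R := AddSubgroup.toIntSubmodule
    { carrier := {x | x ∈ K ∧ ∀ y ∈ K, beta s.m x y = 1}
      zero_mem' := by
        refine ⟨K.zero_mem, fun y hy => ?_⟩
        exact beta_left_mem s hK s.I.zero_mem hy
      add_mem' := by
        rintro a b ⟨ha, ha'⟩ ⟨hb, hb'⟩
        refine ⟨K.add_mem ha hb, fun y hy => ?_⟩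
        rw [beta_add_left s hK hIK sq ha hb hy, ha' y hy, hb' y hy, one_mul]
      neg_mem' := by
        rintro a ⟨ha, ha'⟩
        refine ⟨K.neg_mem ha, fun y hy => ?_⟩
        have h1 := beta_add_left s hK hIK sq ha (K.neg_mem ha) hy
        rw [add_neg_cancel, ha' y hy, one_mul] at h1
        rw [← h1]
        exact beta_left_mem s hK s.I.zero_mem hy }
  have hmem : ∀ x, x ∈ L ↔ x ∈ K ∧ ∀ y ∈ K, beta s.m x y = 1 := fun x => Iff.rfl
  have hL : IsNilIdeal s.E L := by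
    refine ⟨?_, ?_, ?_, ?_⟩
    · rintro x ⟨hx, -⟩
      exact hK.le x hx
    · rintro f hf x ⟨hx, hx'⟩
      refine ⟨hK.mulL f hf x hx, fun y hy => ?_⟩
      rw [beta_mul_left s hK sq hf hx hy]
      exact hx' _ (hK.mulR f hf y hy)
    · rintro f hf x ⟨hx, hx'⟩
      refine ⟨hK.mulR f hf x hx, fun y hy => ?_⟩
      rw [beta_mul_right s hK sq hf hx hy]
      exact hx' _ (hK.mulL f hf y hy)
    · obtain ⟨n, hn⟩ := hK.nil
      refine ⟨n, ?_⟩
      have hLK : L ≤ K := fun x hx => hx.1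
      have h1 : L ^ n ≤ K ^ n := pow_le_pow_left' hLK n
      rw [hn] at h1
      exact le_bot_iff.1 h1
  have hLI : L = s.I := by
    refine terminal_isotropic s hs hL (fun x hx => ⟨hIK hx, fun y hy => beta_left_mem s hK hx hy⟩)
      ?_
    intro x hx y hy
    have h1 := hx.2 y hy.1
    unfold beta at h1
    exact (div_eq_one_iff_eq (m_ne_zero s (sq y hy.1 x hx.1))).1 h1
  by_contra hcon
  push Not at hcon
  apply hxI
  rw [← hLI]
  exact ⟨hx, hcon⟩

/-- `l` is odd -/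
private theorem A13_odd (o : Type) [CommRing o] [IsLocalRing o] [Finite o] (h2 : ¬ IsUnit (2 : o))
    (l : ℕ) (hlq : l ∣ Nat.card (IsLocalRing.ResidueField o) + 1) : l ≠ 2 := by
  rintro rfl
  have hfin : Finite (IsLocalRing.ResidueField o) :=
    Finite.of_surjective _ (IsLocalRing.residue_surjective (R := o))
  have h0 : (2 : IsLocalRing.ResidueField o) = 0 := by
    have h1 : IsLocalRing.residue o 2 = 0 := by
      rw [IsLocalRing.residue_eq_zero_iff, IsLocalRing.mem_maximalIdeal]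
      exact h2
    rw [← h1, map_ofNat]
  have h3 : addOrderOf (1 : IsLocalRing.ResidueField o) = 2 := by
    refine addOrderOf_eq_prime ?_ one_ne_zero
    rw [nsmul_eq_mul, mul_one]
    exact_mod_cast h0
  have h4 : 2 ∣ Nat.card (IsLocalRing.ResidueField o) := by
    rw [← h3]
    exact addOrderOf_dvd_natCard (1 : IsLocalRing.ResidueField o)
  omega

/-- Terminal stages which are not final (blueprint 1.5 (d)).
PROOF. Let `J` be the largest nilpotent ideal of `s.E`, `J ≠ s.I`. `χ = ind θ`, `θ ∈ Irr s.H` over `s.mu` (`Stage.bij`), `χ 1 = [Rˣ : s.H] θ 1`, so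
`|Rˣ| / χ 1 = |s.H| / θ 1`. Apply `central_nonvanish` (R19) to the group `s.H`, `N = (1 + J)`, `Z = (1 + s.I)` (as subgroups of `s.H`), `p = 2` (`|N| = |J|` is a power
of two), `m = s.mu`; `hcomm`: `terminal_sq` for `J`; `hnd`: for `x ∈ J`, `x ∉ s.I` there is `y ∈ J` with `β(x, y) ≠ 1` (the radical of `β` on `J` is an
isotropic ideal containing `s.I`, `terminal_isotropic`), and the commutator of `1 + x`, `1 + y` has `mu`-value `β(y, x)^{±1}`-like: from the
computation in `legal_comm`: `mu [u, v] = m (y₂ x') / m (x' y₂)`, `y₂ - y ∈ s.I`, `x' + x ∈ s.I`. The element `x` of `central_unit`, replaced by a suitable power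
`x ^ (2 ^ a)`, has order exactly `l` (`l` is odd: `q` is even because `2` is not a unit, so `q + 1` is odd). -/
theorem terminal_dvd {R : Type} [Ring R] [Finite R] (hR : ∃ k, Nat.card R = 2 ^ k) (s : Stage R)
    (hs : s.Terminal) (hnf : ¬ s.Final)
    (o : Type) [CommRing o] [IsLocalRing o] [Finite o] [Algebra o R]
    (hE : ∀ c : o, algebraMap o R c ∈ s.E) (h2 : ¬ IsUnit (2 : o))
    (l : ℕ) (hl : l.Prime) (hlq : l ∣ Nat.card (IsLocalRing.ResidueField o) + 1)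
    {χ : Rˣ → ℂ} (hχ : χ ∈ Irr Rˣ) (ho : s.Over χ) (d : ℕ) (hd : χ 1 = d) :
    l ∣ Nat.card Rˣ / d := by
  classical
  obtain ⟨J, hJ, hmax⟩ := exists_maxNil s.E
  have hIJ : s.I ≤ J := hmax _ s.ideal
  have hne : J ≠ s.I := by
    intro h
    apply hnf
    intro K hK
    rw [← h]
    exact hmax K hK
  have sq := terminal_sq s hs hJ
  obtain ⟨x, hxE, hxl, hx1, hxc⟩ := central_unit s hs o hE h2 hJ hmax hne l hl hlq
  have hl2 : l ≠ 2 := A13_odd o h2 l hlq
  -- the order of `1 + J`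
  set M : Subgroup Rˣ := oneAddGroup s.E J hJ with hM
  obtain ⟨k, hk⟩ := hR
  obtain ⟨a, ha⟩ : ∃ a, Nat.card M = 2 ^ a := by
    have h1 : Nat.card M = Nat.card J := oneAddGroup_card hJ
    have h3 : Nat.card J ∣ Nat.card R := by
      have := AddSubgroup.card_addSubgroup_dvd_card J.toAddSubgroup
      exact this
    rw [hk] at h3
    obtain ⟨a, -, ha⟩ := (Nat.dvd_prime_pow Nat.prime_two).1 h3
    exact ⟨a, h1.trans ha⟩
  -- the unit
  obtain ⟨v, hvM, hv⟩ := exists_unit hJ hxl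
  have hv' : (v : R) = x ^ l := by rw [hv]; abel
  have hxu : IsUnit x := by
    have h1 : IsUnit (x ^ l) := ⟨v, hv'⟩
    exact (isUnit_pow_iff hl.ne_zero).1 h1
  obtain ⟨w, hw⟩ := hxu
  have hwH : w ∈ s.H := (mem_unitsOf s.E w).2 (by rw [hw]; exact hxE)
  have hwl : w ^ l ∈ M := by
    have : w ^ l = v := by
      ext
      rw [Units.val_pow_eq_pow_val, hw, hv']
    rw [this]
    exact hvM
  have hwM : w ∉ M := by
    intro h
    apply hx1
    rw [← hw]
    exact h.1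
  set g : Rˣ := w ^ 2 ^ a with hg
  have hgH : g ∈ s.H := s.H.pow_mem hwH _
  have hgl : g ^ l = 1 := by
    have h1 : (⟨w ^ l, hwl⟩ : M) ^ Nat.card M = 1 := pow_card_eq_one'
    have h3 := congrArg (fun t : M => (t : Rˣ)) h1
    simp only [Subgroup.coe_pow, Subgroup.coe_one] at h3
    rw [hg, ← pow_mul, mul_comm, pow_mul, ← ha]
    exact h3
  have hgM : g ∉ M := by
    intro h
    apply hwM
    have hcop : Nat.Coprime (2 ^ a) l :=
      Nat.Coprime.pow_left a ((Nat.coprime_primes Nat.prime_two hl).2 (Ne.symm hl2))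
    have hb := Nat.gcd_eq_gcd_ab (2 ^ a) l
    rw [hcop] at hb
    have h1 : w = g ^ (Nat.gcdA (2 ^ a) l) * (w ^ l) ^ (Nat.gcdB (2 ^ a) l) := by
      rw [hg, ← zpow_natCast, ← zpow_natCast, ← zpow_mul, ← zpow_mul, ← zpow_add, ← hb]
      simp
    rw [h1]
    exact M.mul_mem (M.zpow_mem h _) (M.zpow_mem hwl _)
  have hgR : (g : R) = x ^ 2 ^ a := by
    rw [hg, Units.val_pow_eq_pow_val, hw]
  have hgc : ∀ f ∈ s.E, f * (g : R) - (g : R) * f ∈ J := by
    have key : ∀ j : ℕ, ∀ f ∈ s.E, f * x ^ j - x ^ j * f ∈ J := by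
      intro j
      induction j with
      | zero => intro f _; simp
      | succ j ih =>
        intro f hf
        have e : f * x ^ (j + 1) - x ^ (j + 1) * f
            = (f * x ^ j - x ^ j * f) * x + x ^ j * (f * x - x * f) := by
          rw [pow_succ]; noncomm_ring
        rw [e]
        exact J.add_mem (hJ.mulR _ hxE _ (ih f hf)) (hJ.mulL _ (s.E.pow_mem hxE j) _ (hxc f hf))
    intro f hf
    rw [hgR]
    exact key _ f hf
  -- the Clifford correspondent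
  obtain ⟨θ, hθ, hθχ⟩ := s.bij.surjOn ⟨hχ, ho⟩
  obtain ⟨n, hn0, hn⟩ := irr_deg hθ.1
  have hdeg : d = s.H.index * n := by
    have h1 : χ 1 = s.H.index * θ 1 := by rw [← hθχ]; exact ind_one s.H θ
    rw [hd, hn] at h1
    exact_mod_cast h1
  have hquot : Nat.card Rˣ / d = Nat.card s.H / n := by
    rw [hdeg, ← Subgroup.card_mul_index s.H, mul_comm (Nat.card s.H)]
    exact Nat.mul_div_mul_left _ _ (Nat.pos_of_ne_zero Subgroup.index_ne_zero_of_finite)
  rw [hquot]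
  have hMH : M ≤ s.H := oneAddGroup_le hJ
  have hNM : s.N ≤ M := by
    intro u hu
    exact (mem_oneAddGroup hJ u).2 (hIJ hu.1)
  have hcardM : Nat.card (M.subgroupOf s.H) = Nat.card M :=
    Nat.card_congr (Subgroup.subgroupOfEquivOfLe hMH).toEquiv
  refine central_nonvanish (H := s.H) (M.subgroupOf s.H) (s.N.subgroupOf s.H) ?_ ?_ ?_ 2
    Nat.prime_two ⟨a, by rw [hcardM, ha]⟩ (fun h : s.H => s.mu h) ?_ ?_ ?_ ?_ l hl hl2
    ⟨g, hgH⟩ ?_ ?_ hθ.1 hθ.2 n hn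
  · constructor
    intro m hm h
    rw [Subgroup.mem_subgroupOf] at hm ⊢
    exact oneAddGroup_conj hJ h h.2 m hm
  · constructor
    intro m hm h
    rw [Subgroup.mem_subgroupOf] at hm ⊢
    exact oneAddGroup_conj s.ideal h h.2 m hm
  · intro z hz
    rw [Subgroup.mem_subgroupOf] at hz ⊢
    exact hNM hz
  · exact ⟨s.isLin.1, fun y hy z hz => s.isLin.2 y (Subgroup.mem_subgroupOf.1 hy) z
      (Subgroup.mem_subgroupOf.1 hz)⟩
  · intro h z hz
    exact (s.inv h h.2 z (Subgroup.mem_subgroupOf.1 hz)).2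
  · intro y hy z hz
    rw [Subgroup.mem_subgroupOf] at hy hz ⊢
    exact (A13_comm s hJ hIJ sq y z hy hz).1
  · intro y hy hyZ
    rw [Subgroup.mem_subgroupOf] at hy hyZ
    have h1 : ((y : Rˣ) : R) - 1 ∉ s.I := by
      intro h
      exact hyZ ((mem_oneAddGroup s.ideal _).2 h)
    obtain ⟨t, ht, htb⟩ := A13_nd s hs hJ hIJ hy.1 h1
    obtain ⟨u, hu, hut⟩ := exists_unit hJ ht
    refine ⟨⟨u, hMH hu⟩, Subgroup.mem_subgroupOf.2 hu, ?_⟩
    have h3 := (A13_comm s hJ hIJ sq u y hu hy).2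
    intro h4
    apply htb
    have h5 : beta s.m ((u : R) - 1) (((y : Rˣ) : R) - 1) = 1 := by
      rw [← h3]
      exact h4
    have h6 : (u : R) - 1 = t := by rw [hut]; abel
    rw [h6] at h5
    have h7 := beta_swap s sq ht hy.1
    rw [h5, one_mul] at h7
    exact h7
  · have : Fact l.Prime := ⟨hl⟩
    apply orderOf_eq_prime
    · apply Subtype.ext
      simpa using hgl
    · intro h
      apply hgM
      have h1 : g = 1 := congrArg Subtype.val h
      rw [h1]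
      exact M.one_mem
  · intro h
    rw [Subgroup.mem_subgroupOf]
    change ((h : Rˣ) * g * (h : Rˣ)⁻¹ * g⁻¹) ∈ oneAddGroup s.E J hJ
    rw [mem_oneAddGroup]
    have hgE' : ((g⁻¹ : Rˣ) : R) ∈ s.E := hgH.2
    have hhE' : (((h : Rˣ)⁻¹ : Rˣ) : R) ∈ s.E := h.2.2
    have e : (((h : Rˣ) * g * (h : Rˣ)⁻¹ * g⁻¹ : Rˣ) : R) - 1
        = (((h : Rˣ) : R) * g - g * ((h : Rˣ) : R)) * (((h : Rˣ)⁻¹ : Rˣ) : R) * ((g⁻¹ : Rˣ) : R) := by
      push_cast
      have h1 : (g : R) * ((h : Rˣ) : R) * (((h : Rˣ)⁻¹ : Rˣ) : R) * ((g⁻¹ : Rˣ) : R) = 1 := by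
        rw [mul_assoc (g : R), Units.mul_inv, mul_one, Units.mul_inv]
      rw [sub_mul, sub_mul, h1]
    rw [e]
    exact hJ.mulR _ hgE' _ (hJ.mulR _ hhE' _ (hgc _ h.2.1))

end Pool.Agent.Lib.MP_fa0f6c_al.Cx
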