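import Pool.Agent.Lib.MP_fa0f6c_al.Cx.R11

/-!
Stages `(E, I, m)` of a finite ring `R`: `E` a subring, `I` a nilpotent two-sided ideal of `E`,
`x ↦ m x` a linear character of the group `1 + I` (written on `I`), symmetric under `E`, without
intertwining outside `E`.  Blueprint: ONN_blueprint.md, section 1.
-/

set_option autoImplicit false

namespace Pool.Agent.Lib.MP_fa0f6c_al.Cx

open scoped ComplexConjugate

/-- `I` is a two-sided ideal of the subring `E`, contained in `E`, nilpotent. -/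
structure IsNilIdeal {R : Type} [Ring R] (E : Subring R) (I : Submodule ℤ R) : Prop where
  le : ∀ x ∈ I, x ∈ E
  mulL : ∀ f ∈ E, ∀ x ∈ I, f * x ∈ I
  mulR : ∀ f ∈ E, ∀ x ∈ I, x * f ∈ I
  nil : IsNilpotent I

/-- `m` is a homomorphism on the group `1 + I` (in terms of `x ∈ I`). -/
structure IsHom {R : Type} [Ring R] (I : Submodule ℤ R) (m : R → ℂ) : Prop where
  zero : m 0 = 1
  mul : ∀ x ∈ I, ∀ y ∈ I, m (x + y + x * y) = m x * m y

/-- the symmetry condition (T) -/
def IsSym {R : Type} [Ring R] (E : Subring R) (I : Submodule ℤ R) (m : R → ℂ) : Prop :=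
  ∀ f ∈ E, ∀ x ∈ I, m (f * x) = m (x * f)

/-- the intertwining condition (Int) -/
def IsInt {R : Type} [Ring R] (E : Subring R) (I : Submodule ℤ R) (m : R → ℂ) : Prop :=
  ∀ g : Rˣ, (∀ x ∈ I, (↑g⁻¹ * x * g : R) ∈ I → m x = m (↑g⁻¹ * x * g)) → (g : R) ∈ E

/-- A stage. -/
structure Stage (R : Type) [Ring R] where
  E : Subring R
  I : Submodule ℤ R
  m : R → ℂ
  ideal : IsNilIdeal E I
  hom : IsHom I m
  sym : IsSym E I m
  int : IsInt E I m

/-- The group `1 + I` of a nilpotent ideal of `E` (for a set `I` which is not such an ideal the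
definition still makes sense as a subgroup generated by ...; we use the subgroup of units `u` with
`u - 1 ∈ I` and `u⁻¹ - 1 ∈ I`). -/
def oneAddGroup {R : Type} [Ring R] (E : Subring R) (I : Submodule ℤ R) (h : IsNilIdeal E I) :
    Subgroup Rˣ where
  carrier := {u | (u : R) - 1 ∈ I ∧ ((u⁻¹ : Rˣ) : R) - 1 ∈ I}
  one_mem' := by simp
  mul_mem' := by
    rintro a b ⟨ha, ha'⟩ ⟨hb, hb'⟩
    have hbE : (b : R) ∈ E := by simpa using E.add_mem (h.le _ hb) E.one_mem
    have haE' : ((a⁻¹ : Rˣ) : R) ∈ E := by simpa using E.add_mem (h.le _ ha') E.one_mem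
    constructor
    · have := I.add_mem (h.mulR _ hbE _ ha) hb
      have e : ((a * b : Rˣ) : R) - 1 = ((a : R) - 1) * b + ((b : R) - 1) := by
        push_cast; noncomm_ring
      rw [e]; exact this
    · have := I.add_mem (h.mulR _ haE' _ hb') ha'
      have e : (((a * b)⁻¹ : Rˣ) : R) - 1 =
          (((b⁻¹ : Rˣ) : R) - 1) * ((a⁻¹ : Rˣ) : R) + (((a⁻¹ : Rˣ) : R) - 1) := by
        rw [mul_inv_rev]; push_cast; noncomm_ring
      rw [e]; exact this
  inv_mem' := by
    rintro a ⟨ha, ha'⟩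
    exact ⟨ha', by simpa using ha⟩

/-- The unit group of a subring as a subgroup of the unit group. -/
def unitsOf {R : Type} [Ring R] (E : Subring R) : Subgroup Rˣ where
  carrier := {u | (u : R) ∈ E ∧ ((u⁻¹ : Rˣ) : R) ∈ E}
  one_mem' := by simp [E.one_mem]
  mul_mem' := by
    rintro a b ⟨ha, ha'⟩ ⟨hb, hb'⟩
    refine ⟨by simpa using E.mul_mem ha hb, ?_⟩
    rw [mul_inv_rev]; simpa using E.mul_mem hb' ha'
  inv_mem' := by
    rintro a ⟨ha, ha'⟩
    exact ⟨ha', by simpa using ha⟩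

namespace Stage

variable {R : Type} [Ring R]

/-- the group `1 + I` -/
def N (s : Stage R) : Subgroup Rˣ := oneAddGroup s.E s.I s.ideal

/-- the group `Eˣ` -/
def H (s : Stage R) : Subgroup Rˣ := unitsOf s.E

/-- the linear character, as a function on units -/
def mu (s : Stage R) : Rˣ → ℂ := fun u => s.m ((u : R) - 1)

/-- `χ` lies over the stage -/
def Over (s : Stage R) (χ : Rˣ → ℂ) : Prop := mult s.N s.mu χ ≠ 0

/-- A (small) step between stages. -/
structure IsStep (s t : Stage R) : Prop where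
  ideal : IsNilIdeal s.E t.I
  le : s.I ≤ t.I
  sq : ∀ x ∈ t.I, ∀ y ∈ t.I, x * y ∈ s.I
  comm : ∀ x ∈ t.I, ∀ y ∈ t.I, s.m (x * y) = s.m (y * x)
  ext : ∀ x ∈ s.I, t.m x = s.m x
  stab : ∀ f, f ∈ t.E ↔ f ∈ s.E ∧ ∀ x ∈ t.I, t.m (f * x) = t.m (x * f)

/-- reachability -/
def Reach (s t : Stage R) : Prop := Relation.ReflTransGen IsStep s t

/-- no proper step is possible -/
def Terminal (s : Stage R) : Prop := ∀ t, IsStep s t → t.I = s.I

/-- `I` is the largest nilpotent ideal of `E` -/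
def Final (s : Stage R) : Prop := ∀ K : Submodule ℤ R, IsNilIdeal s.E K → K ≤ s.I

end Stage

end Pool.Agent.Lib.MP_fa0f6c_al.Cx
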