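import Mathlib

/-!
Basic definitions for the character-theoretic part of the disproof of Onn's conjecture.
Everything is done with functions `G → ℂ` on finite groups `G : Type`.
-/

set_option autoImplicit false

namespace Pool.Agent.Lib.MP_fa0f6c_al.Cx

open scoped ComplexConjugate

/-- The set of irreducible complex characters of a group. -/
def Irr (G : Type) [Group G] : Set (G → ℂ) :=
  {χ | ∃ (n : ℕ) (ρ : Representation ℂ G (Fin n → ℂ)), ρ.IsIrreducible ∧ χ = ρ.character}

/-- The usual inner product of functions on a finite group. -/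
noncomputable def ip {G : Type} (f g : G → ℂ) : ℂ :=
  (Nat.card G : ℂ)⁻¹ * ∑ᶠ x, f x * conj (g x)

/-- Class functions. -/
def IsCF {G : Type} [Group G] (f : G → ℂ) : Prop := ∀ x y, f (x * y) = f (y * x)

/-- Characters: class functions which are combinations of irreducible characters with coefficients
in `ℕ`. -/
def IsNat {G : Type} [Group G] (f : G → ℂ) : Prop :=
  IsCF f ∧ ∀ χ ∈ Irr G, ∃ n : ℕ, ip f χ = n

/-- The number of irreducible characters of degree `n`. -/
noncomputable def rdim (G : Type) [Group G] (n : ℕ) : ℕ :=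
  Set.ncard {χ : G → ℂ | χ ∈ Irr G ∧ χ 1 = n}

open Classical in
/-- The induced function. -/
noncomputable def ind {G : Type} [Group G] (H : Subgroup G) (f : H → ℂ) : G → ℂ :=
  fun g => (Nat.card H : ℂ)⁻¹ * ∑ᶠ t : G, if h : t⁻¹ * g * t ∈ H then f ⟨t⁻¹ * g * t, h⟩ else 0

end Pool.Agent.Lib.MP_fa0f6c_al.Cx
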