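import Mathlib
import Pool.Agent.Lib.MP_fa0f6c_al.Cx.Defs

/-!
Part B: irreducible characters of `GL_n` over a finite field.
Universal class functions: isomorphism invariant functions on pairs `(V, x)`, `V` a vector space,
`x` an endomorphism of `V`, which vanish unless `V` is finite and `x` is bijective.
-/

set_option autoImplicit false

namespace Pool.Agent.Lib.MP_fa0f6c_al.Cx.B

open scoped ComplexConjugate

/-- Universal class functions. -/
structure UCF (F : Type) [Field F] where
  val : ∀ {V : Type} [AddCommGroup V] [Module F V], (V →ₗ[F] V) → ℂ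
  inv : ∀ {V W : Type} [AddCommGroup V] [Module F V] [AddCommGroup W] [Module F W]
    (e : V ≃ₗ[F] W) (x : V →ₗ[F] V) (y : W →ₗ[F] W), (∀ v, e (x v) = y (e v)) → val x = val y
  supp : ∀ {V : Type} [AddCommGroup V] [Module F V] (x : V →ₗ[F] V),
    ¬ (Finite V ∧ Function.Bijective x) → val x = 0

variable {F : Type} [Field F]

theorem UCF.ext' {f g : UCF F}
    (h : ∀ (V : Type) [AddCommGroup V] [Module F V] (x : V →ₗ[F] V), f.val x = g.val x) :
    f = g := by
  cases f; cases g
  congr
  funext V _ _ x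
  exact h V x

/-- `f` is concentrated in dimension `n`. -/
def Deg (f : UCF F) (n : ℕ) : Prop :=
  ∀ (V : Type) [AddCommGroup V] [Module F V] (x : V →ₗ[F] V), Module.finrank F V ≠ n → f.val x = 0

/-- the function on `GL(V)` -/
def UCF.on (f : UCF F) (V : Type) [AddCommGroup V] [Module F V] : (V ≃ₗ[F] V) → ℂ :=
  fun x => f.val (x : V →ₗ[F] V)

/-- the function on the matrix group `GL_n(F)` -/
def UCF.gl (f : UCF F) (n : ℕ) : Matrix.GeneralLinearGroup (Fin n) F → ℂ :=
  fun g => f.val (Matrix.toLin' (g : Matrix (Fin n) (Fin n) F))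

/-- the inner product in degree `n` -/
noncomputable def ipn (n : ℕ) (f g : UCF F) : ℂ := ip (f.gl n) (g.gl n)

/-- characters of degree `n` (of the group `GL_n`) -/
def NatC (n : ℕ) (f : UCF F) : Prop := Deg f n ∧ IsNat (f.gl n)

/-- irreducible characters of `GL_n(F)` -/
def IrrC (F : Type) [Field F] (n : ℕ) : Set (UCF F) :=
  {f | Deg f n ∧ f.gl n ∈ Irr (Matrix.GeneralLinearGroup (Fin n) F)}

/-- the endomorphism `(a, b) ↦ (x a + φ b, y b)` of `A × B` -/
def tri {A B : Type} [AddCommGroup A] [Module F A] [AddCommGroup B] [Module F B]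
    (x : A →ₗ[F] A) (y : B →ₗ[F] B) (φ : B →ₗ[F] A) : (A × B) →ₗ[F] (A × B) :=
  LinearMap.prod (x.comp (LinearMap.fst F A B) + φ.comp (LinearMap.snd F A B))
    (y.comp (LinearMap.snd F A B))

@[simp] theorem tri_apply {A B : Type} [AddCommGroup A] [Module F A] [AddCommGroup B] [Module F B]
    (x : A →ₗ[F] A) (y : B →ₗ[F] B) (φ : B →ₗ[F] A) (v : A × B) :
    tri x y φ v = (x v.1 + φ v.2, y v.2) := rfl

/-- Harish-Chandra restriction: the average over the unipotent radical. -/
noncomputable def rs (h : UCF F) {A B : Type} [AddCommGroup A] [Module F A] [AddCommGroup B]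
    [Module F B] (x : A →ₗ[F] A) (y : B →ₗ[F] B) : ℂ :=
  (Nat.card (B →ₗ[F] A) : ℂ)⁻¹ * ∑ᶠ φ : B →ₗ[F] A, h.val (tri x y φ)

/-- The term of a subspace in the Harish-Chandra product. -/
noncomputable def tm (f g : UCF F) {V : Type} [AddCommGroup V] [Module F V] (x : V →ₗ[F] V)
    (W : Submodule F V) : ℂ :=
  open Classical in
  if h : ∀ w ∈ W, x w ∈ W then f.val (x.restrict h) * g.val (W.mapQ W x h) else 0

/-- the value of the Harish-Chandra product -/
noncomputable def mulVal (f g : UCF F) {V : Type} [AddCommGroup V] [Module F V]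
    (x : V →ₗ[F] V) : ℂ :=
  ∑ᶠ W : Submodule F V, tm f g x W

/-- Cuspidal irreducible characters of `GL_m(F)`. -/
def Cusp (m : ℕ) (ρ : UCF F) : Prop :=
  0 < m ∧ ρ ∈ IrrC F m ∧ ∀ (A B : Type) [AddCommGroup A] [Module F A] [AddCommGroup B]
    [Module F B] [Nontrivial A] [Nontrivial B] (x : A →ₗ[F] A) (y : B →ₗ[F] B), rs ρ x y = 0

/-- The number of cuspidal irreducible characters of `GL_m(F)`. -/
noncomputable def cuspNum (F : Type) [Field F] (m : ℕ) : ℕ := Set.ncard {ρ : UCF F | Cusp m ρ}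

end Pool.Agent.Lib.MP_fa0f6c_al.Cx.B
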