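import Pool.Agent.Lib.MP_fa0f6c_al.Cx.Defs
import Pool.Agent.Lib.MP_fa0f6c_al.Cx.R05
import Pool.Agent.Lib.MP_fa0f6c_al.Cx.R07

set_option autoImplicit false

namespace Pool.Agent.Lib.MP_fa0f6c_al.Cx

open scoped ComplexConjugate

/-! ### private helpers -/

private theorem R12_ip_eq {G : Type} [Fintype G] (f g : G → ℂ) :
    ip f g = (Fintype.card G : ℂ)⁻¹ * ∑ x, f x * conj (g x) := by
  unfold ip
  rw [finsum_eq_sum_of_fintype, Nat.card_eq_fintype_card]

/-- inner products are not changed by inflation -/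
private theorem R12_ip_comp {G L : Type} [Group G] [Finite G] [Group L] [Finite L] (φ : G →* L)
    (hφ : Function.Surjective φ) (f g : L → ℂ) :
    ip (fun x => f (φ x)) (fun x => g (φ x)) = ip f g := by
  classical
  have : Fintype G := Fintype.ofFinite G
  have : Fintype L := Fintype.ofFinite L
  rw [R12_ip_eq, R12_ip_eq]
  set k : ℕ := (Finset.univ.filter (fun x : G => φ x = 1)).card with hk
  have hfib : ∀ l : L, (Finset.univ.filter (fun x : G => φ x = l)).card = k := by
    intro l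
    obtain ⟨y, hy⟩ := hφ l
    rw [hk]
    refine Finset.card_bij (fun x _ => x * y⁻¹) ?_ ?_ ?_
    · intro x hx
      rw [Finset.mem_filter] at hx ⊢
      refine ⟨Finset.mem_univ _, ?_⟩
      rw [map_mul, map_inv, hx.2, hy, mul_inv_cancel]
    · intro x _ x' _ h
      exact mul_right_cancel h
    · intro x hx
      rw [Finset.mem_filter] at hx
      refine ⟨x * y, ?_, by simp⟩
      rw [Finset.mem_filter]
      exact ⟨Finset.mem_univ _, by rw [map_mul, hx.2, hy, one_mul]⟩
  have hsum : ∀ F : L → ℂ, ∑ x : G, F (φ x) = (k : ℂ) * ∑ l : L, F l := by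
    intro F
    rw [← Finset.sum_fiberwise Finset.univ φ (fun x => F (φ x)), Finset.mul_sum]
    refine Finset.sum_congr rfl ?_
    intro l _
    rw [Finset.sum_congr rfl (g := fun _ => F l)
      (fun x hx => by rw [(Finset.mem_filter.mp hx).2]), Finset.sum_const, hfib l, nsmul_eq_mul]
  have hcard : (Fintype.card G : ℂ) = k * Fintype.card L := by
    have := hsum (fun _ => 1)
    simpa using this
  have hk0 : (k : ℂ) ≠ 0 := by
    intro h0
    rw [h0, zero_mul] at hcard
    have : Fintype.card G = 0 := by exact_mod_cast hcard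
    exact absurd this Fintype.card_ne_zero
  rw [hsum (fun l => f l * conj (g l)), hcard, mul_inv]
  field_simp

private theorem R12_irred_comp {G L V : Type} [Group G] [Group L] [AddCommGroup V] [Module ℂ V]
    (ρ : Representation ℂ L V) (φ : G →* L) (hφ : Function.Surjective φ) (h : ρ.IsIrreducible) :
    Representation.IsIrreducible (ρ.comp φ : Representation ℂ G V) := by
  let e : Subrepresentation (ρ.comp φ : Representation ℂ G V) ≃o Subrepresentation ρ :=
    { toFun := fun W => ⟨W.toSubmodule, fun l v hv => by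
        obtain ⟨g, rfl⟩ := hφ l
        exact W.apply_mem_toSubmodule g hv⟩
      invFun := fun W => ⟨W.toSubmodule, fun g v hv => W.apply_mem_toSubmodule (φ g) hv⟩
      left_inv := fun W => rfl
      right_inv := fun W => rfl
      map_rel_iff' := by
        intro a b
        exact Iff.rfl }
  exact (OrderIso.isSimpleOrder_iff e).mpr h

/-- Inflation and deflation along a surjective homomorphism. -/
theorem irr_infl {G L : Type} [Group G] [Finite G] [Group L] [Finite L] (φ : G →* L)
    (hφ : Function.Surjective φ) {ψ : L → ℂ} (h : ψ ∈ Irr L) : (fun g => ψ (φ g)) ∈ Irr G := by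
  obtain ⟨n, ρ, hρ, rfl⟩ := h
  exact ⟨n, ρ.comp φ, R12_irred_comp ρ φ hφ hρ, rfl⟩

theorem irr_defl {G L : Type} [Group G] [Finite G] [Group L] [Finite L] (φ : G →* L)
    (hφ : Function.Surjective φ) {χ : G → ℂ} (h : χ ∈ Irr G) (hk : ∀ k, φ k = 1 → χ k = χ 1) :
    ∃ ψ ∈ Irr L, χ = fun g => ψ (φ g) := by
  have h' := h
  obtain ⟨m, hm0, hm⟩ := irr_deg h
  obtain ⟨n, ρ, hρ, rfl⟩ := h'
  have hn : (ρ.character 1 : ℂ) = n := by
    rw [Representation.char_one]
    simp
  have hmn : m = n := by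
    rw [hn] at hm
    exact_mod_cast hm.symm
  subst hmn
  have hker : ∀ k, φ k = 1 → ρ k = 1 := by
    intro k hk1
    have h1 : ρ.character k = m := by rw [hk k hk1, hn]
    obtain ⟨c, hc⟩ := rep_scalar_of_norm_eq ρ k (by
      rw [h1]
      simp)
    have h2 : ρ.character k = c * m := by
      unfold Representation.character
      rw [hc, map_smul, ← Module.End.one_eq_id, LinearMap.trace_one]
      simp
    rw [h1] at h2
    have hm' : (m : ℂ) ≠ 0 := by
      have : m ≠ 0 := by omega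
      exact_mod_cast this
    have hc1 : c = 1 := by
      have : (1 : ℂ) * m = c * m := by rw [one_mul]; exact h2
      exact (mul_right_cancel₀ hm' this).symm
    rw [hc, hc1, one_smul]
    rfl
  have key : ∀ x y, φ x = φ y → ρ x = ρ y := by
    intro x y hxy
    have h1 : ρ (x * y⁻¹) = 1 := hker _ (by rw [map_mul, map_inv, hxy, mul_inv_cancel])
    calc ρ x = ρ (x * y⁻¹ * y) := by rw [inv_mul_cancel_right]
      _ = ρ y := by rw [map_mul, h1, one_mul]
  let s : L → G := Function.surjInv hφ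
  have hs : ∀ l, φ (s l) = l := Function.surjInv_eq hφ
  let ρ' : Representation ℂ L (Fin m → ℂ) :=
    { toFun := fun l => ρ (s l)
      map_one' := hker _ (hs 1)
      map_mul' := by
        intro a b
        rw [← map_mul]
        exact key _ _ (by rw [map_mul, hs, hs, hs]) }
  have hχ : (ρ.character : G → ℂ) = fun g => ρ'.character (φ g) := by
    funext g
    have h1 : ρ g = ρ' (φ g) := key _ _ (by rw [hs])
    unfold Representation.character
    rw [h1]
  refine ⟨ρ'.character, irr_of_isNat (rep_isNat ρ') ?_, hχ⟩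
  have h1 : ip (ρ.character : G → ℂ) ρ.character = 1 := by
    rw [ip_irr h h, if_pos rfl]
  have h2 := R12_ip_comp φ hφ (ρ'.character) (ρ'.character)
  rw [← h2, ← hχ]
  exact h1

private theorem R12_ip_prod {G H : Type} [Finite G] [Finite H] (f f' : G → ℂ)
    (g g' : H → ℂ) :
    ip (fun x : G × H => f x.1 * g x.2) (fun x => f' x.1 * g' x.2) = ip f f' * ip g g' := by
  have : Fintype G := Fintype.ofFinite G
  have : Fintype H := Fintype.ofFinite H
  rw [R12_ip_eq, R12_ip_eq, R12_ip_eq, Fintype.card_prod, Fintype.sum_prod_type]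
  have h1 : ∑ x : G, ∑ y : H, f x * g y * conj (f' x * g' y)
      = (∑ x : G, f x * conj (f' x)) * ∑ y : H, g y * conj (g' y) := by
    rw [Finset.sum_mul_sum]
    refine Finset.sum_congr rfl fun x _ => Finset.sum_congr rfl fun y _ => ?_
    rw [map_mul]
    ring
  rw [h1]
  push_cast
  rw [mul_inv]
  ring

/-- Characters of direct products. -/
theorem irr_prod {G H : Type} [Group G] [Finite G] [Group H] [Finite H] {χ : G → ℂ} {ψ : H → ℂ}
    (h : χ ∈ Irr G) (h' : ψ ∈ Irr H) : (fun x : G × H => χ x.1 * ψ x.2) ∈ Irr (G × H) := by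
  have h1 : IsNat (fun x : G × H => χ x.1) :=
    isNat_comp (MonoidHom.fst G H) (isNat_irr h)
  have h2 : IsNat (fun x : G × H => ψ x.2) :=
    isNat_comp (MonoidHom.snd G H) (isNat_irr h')
  refine irr_of_isNat (isNat_mul h1 h2) ?_
  rw [R12_ip_prod, ip_irr h h, ip_irr h' h', if_pos rfl, if_pos rfl, one_mul]

/-- HINT: these products are orthonormal and the sum of the squares of their degrees is
`|G| |H|` (`sum_deg_sq`). -/
theorem irr_prod_surj {G H : Type} [Group G] [Finite G] [Group H] [Finite H] {f : G × H → ℂ}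
    (h : f ∈ Irr (G × H)) : ∃ χ ∈ Irr G, ∃ ψ ∈ Irr H, f = fun x => χ x.1 * ψ x.2 := by
  have : Fintype G := Fintype.ofFinite G
  have : Fintype H := Fintype.ofFinite H
  by_contra hcon
  push Not at hcon
  have hcf : IsCF f := irr_cf h
  have hz : ∀ χ ∈ Irr G, ∀ ψ ∈ Irr H, ip f (fun x : G × H => χ x.1 * ψ x.2) = 0 := by
    intro χ hχ ψ hψ
    rw [ip_irr h (irr_prod hχ hψ), if_neg (hcon χ hχ ψ hψ)]
  have h1 : ∀ χ ∈ Irr G, (fun y : H => ip (fun x : G => f (x, y)) χ) = 0 := by
    intro χ hχ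
    refine irr_complete ?_ ?_
    · intro a b
      simp only []
      congr 1
      funext x
      have := hcf (1, a) (x, b)
      simpa using this.trans (by simp)
    · intro ψ hψ
      rw [← hz χ hχ ψ hψ, R12_ip_eq, R12_ip_eq, Fintype.card_prod, Fintype.sum_prod_type_right]
      push_cast
      rw [mul_inv, mul_comm ((Fintype.card G : ℂ)⁻¹), mul_assoc]
      congr 1
      rw [Finset.mul_sum]
      refine Finset.sum_congr rfl fun y _ => ?_
      rw [R12_ip_eq, mul_assoc, Finset.sum_mul]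
      congr 1
      refine Finset.sum_congr rfl fun x _ => ?_
      rw [map_mul]
      ring
  have h2 : ∀ y : H, (fun x : G => f (x, y)) = 0 := by
    intro y
    refine irr_complete ?_ ?_
    · intro a b
      have := hcf (a, 1) (b, y)
      simpa using this
    · intro χ hχ
      exact congrFun (h1 χ hχ) y
  obtain ⟨n, hn, hn1⟩ := irr_deg h
  have h3 : f 1 = 0 := congrFun (h2 1) 1
  rw [h3] at hn1
  have : n = 0 := by exact_mod_cast hn1.symm
  omega

/-- finite products -/
theorem irr_pi {ι : Type} [Fintype ι] (G : ι → Type) [∀ i, Group (G i)] [∀ i, Finite (G i)] :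
    Set.BijOn (fun (χ : ∀ i, G i → ℂ) (x : ∀ i, G i) => ∏ i, χ i (x i))
      {χ | ∀ i, χ i ∈ Irr (G i)} (Irr (∀ i, G i)) := by
  classical
  have : ∀ i, Fintype (G i) := fun i => Fintype.ofFinite (G i)
  have hip : ∀ χ χ' : ∀ i, G i → ℂ, ip (fun x : ∀ i, G i => ∏ i, χ i (x i))
      (fun x => ∏ i, χ' i (x i)) = ∏ i, ip (χ i) (χ' i) := by
    intro χ χ'
    rw [R12_ip_eq, Finset.prod_congr rfl (fun i _ => R12_ip_eq (χ i) (χ' i)),
      Finset.prod_mul_distrib, Fintype.card_pi]
    have h1 : ∑ x : (∀ i, G i), (∏ i, χ i (x i)) * conj (∏ i, χ' i (x i))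
        = ∏ i, ∑ y : G i, χ i y * conj (χ' i y) := by
      rw [Fintype.prod_sum]
      refine Finset.sum_congr rfl fun x _ => ?_
      rw [map_prod, Finset.prod_mul_distrib]
    rw [h1]
    push_cast
    rw [Finset.prod_inv_distrib]
  have hmaps : ∀ χ : ∀ i, G i → ℂ, (∀ i, χ i ∈ Irr (G i)) →
      (fun x : ∀ i, G i => ∏ i, χ i (x i)) ∈ Irr (∀ i, G i) := by
    intro χ hχ
    have hnat : ∀ s : Finset ι, IsNat (fun x : ∀ i, G i => ∏ i ∈ s, χ i (x i)) := by
      intro s
      induction s using Finset.induction_on with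
      | empty =>
        have h1 : IsNat (fun x : ∀ i, G i => ((1 : (∀ i, G i) →* ℂˣ) x : ℂ)) := by
          have h2 : IsNat (Representation.character
              (1 : Representation ℂ (∀ i, G i) (Fin 1 → ℂ))) :=
            rep_isNat _
          have h3 : (Representation.character (1 : Representation ℂ (∀ i, G i) (Fin 1 → ℂ)))
              = fun x : ∀ i, G i => ((1 : (∀ i, G i) →* ℂˣ) x : ℂ) := by
            funext x
            unfold Representation.character
            rw [MonoidHom.one_apply, LinearMap.trace_one]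
            simp
          rw [← h3]
          exact h2
        simpa using h1
      | insert a s ha ih =>
        have h1 : IsNat (fun x : ∀ i, G i => χ a (x a)) :=
          isNat_comp (Pi.evalMonoidHom G a) (isNat_irr (hχ a))
        have h2 := isNat_mul h1 ih
        have h3 : (fun x : ∀ i, G i => ∏ i ∈ insert a s, χ i (x i))
            = fun x => χ a (x a) * ∏ i ∈ s, χ i (x i) := by
          funext x
          rw [Finset.prod_insert ha]
        rw [h3]
        exact h2
    refine irr_of_isNat (hnat Finset.univ) ?_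
    rw [hip]
    refine Finset.prod_eq_one fun i _ => ?_
    rw [ip_irr (hχ i) (hχ i), if_pos rfl]
  have hinj : Set.InjOn (fun (χ : ∀ i, G i → ℂ) (x : ∀ i, G i) => ∏ i, χ i (x i))
      {χ | ∀ i, χ i ∈ Irr (G i)} := by
    intro χ hχ χ' hχ' heq
    by_contra hne
    obtain ⟨i, hi⟩ := Function.ne_iff.mp hne
    have h1 := hip χ χ'
    have h2 : ∏ i, ip (χ i) (χ' i) = 0 := by
      refine Finset.prod_eq_zero (Finset.mem_univ i) ?_
      rw [ip_irr (hχ i) (hχ' i), if_neg hi]
    rw [h2] at h1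
    have h3 : ip (fun x : ∀ i, G i => ∏ i, χ i (x i)) (fun x => ∏ i, χ i (x i)) = 1 := by
      rw [ip_irr (hmaps χ hχ) (hmaps χ hχ), if_pos rfl]
    have heq' : (fun x : ∀ i, G i => ∏ i, χ i (x i)) = (fun x => ∏ i, χ' i (x i)) := heq
    rw [← heq', h3] at h1
    exact one_ne_zero h1
  refine ⟨fun χ hχ => hmaps χ hχ, hinj, ?_⟩
  intro f hf
  by_contra hcon
  set S := (irr_finite (∀ i, G i)).toFinset with hS
  set T := (Fintype.piFinset (fun i => (irr_finite (G i)).toFinset)).image
    (fun (χ : ∀ i, G i → ℂ) (x : ∀ i, G i) => ∏ i, χ i (x i)) with hT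
  have hmemS : ∀ g, g ∈ S ↔ g ∈ Irr (∀ i, G i) := fun g => Set.Finite.mem_toFinset _
  have hmemP : ∀ χ : ∀ i, G i → ℂ, χ ∈ Fintype.piFinset (fun i => (irr_finite (G i)).toFinset)
      ↔ ∀ i, χ i ∈ Irr (G i) := by
    intro χ
    rw [Fintype.mem_piFinset]
    simp only [Set.Finite.mem_toFinset]
  have hTS : insert f T ⊆ S := by
    intro g hg
    rw [Finset.mem_insert] at hg
    rcases hg with rfl | hg
    · exact (hmemS _).mpr hf
    · rw [hT, Finset.mem_image] at hg
      obtain ⟨χ, hχ, rfl⟩ := hg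
      exact (hmemS _).mpr (hmaps χ ((hmemP χ).mp hχ))
  have hfT : f ∉ T := by
    intro hg
    rw [hT, Finset.mem_image] at hg
    obtain ⟨χ, hχ, h1⟩ := hg
    exact hcon ⟨χ, (hmemP χ).mp hχ, h1⟩
  have hsumT : ∑ g ∈ T, (g 1) ^ 2 = (Nat.card (∀ i, G i) : ℂ) := by
    rw [hT, Finset.sum_image]
    · have h1 : ∀ χ : ∀ i, G i → ℂ, (∏ i, χ i ((1 : ∀ i, G i) i)) ^ 2 = ∏ i, (χ i 1) ^ 2 := by
        intro χ
        rw [← Finset.prod_pow]
        rfl
      simp only [h1]
      rw [← Finset.prod_univ_sum (fun i => (irr_finite (G i)).toFinset)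
        (fun i (χ : G i → ℂ) => (χ 1) ^ 2),
        Finset.prod_congr rfl (fun i _ => sum_deg_sq (G i)), Nat.card_pi]
      push_cast
      rfl
    · intro χ hχ χ' hχ' heq
      exact hinj ((hmemP χ).mp hχ) ((hmemP χ').mp hχ') heq
  have hdeg : ∀ g ∈ S, ∃ n : ℕ, 0 < n ∧ g 1 = n := fun g hg => irr_deg ((hmemS g).mp hg)
  have hsumS : ∑ g ∈ S, (g 1) ^ 2 = (Nat.card (∀ i, G i) : ℂ) := sum_deg_sq _
  have hsq : ∀ g ∈ S, (0 : ℝ) ≤ ((g 1) ^ 2).re := by
    intro g hg
    obtain ⟨n, _, h1⟩ := hdeg g hg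
    rw [h1]
    have : (((n : ℂ)) ^ 2).re = (n : ℝ) ^ 2 := by
      rw [← Nat.cast_pow, Complex.natCast_re]
      push_cast
      rfl
    rw [this]
    positivity
  have h1 : (∑ g ∈ insert f T, (g 1) ^ 2).re ≤ (∑ g ∈ S, (g 1) ^ 2).re := by
    rw [Complex.re_sum, Complex.re_sum]
    exact Finset.sum_le_sum_of_subset_of_nonneg hTS (fun g hg _ => hsq g hg)
  rw [Finset.sum_insert hfT, hsumT, hsumS, Complex.add_re] at h1
  obtain ⟨n, hn, h2⟩ := irr_deg hf
  have h3 : ((f 1) ^ 2).re = (n : ℝ) ^ 2 := by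
    rw [h2, ← Nat.cast_pow, Complex.natCast_re]
    push_cast
    rfl
  rw [h3] at h1
  have h4 : (0 : ℝ) < (n : ℝ) ^ 2 := by
    have : (0 : ℝ) < n := by exact_mod_cast hn
    positivity
  linarith

/-- transport along an isomorphism -/
theorem irr_congr {G H : Type} [Group G] [Group H] (e : G ≃* H) :
    Set.BijOn (fun (ψ : H → ℂ) (x : G) => ψ (e x)) (Irr H) (Irr G) := by
  refine ⟨?_, ?_, ?_⟩
  · rintro ψ ⟨n, ρ, hρ, rfl⟩
    exact ⟨n, ρ.comp e.toMonoidHom, R12_irred_comp ρ e.toMonoidHom e.surjective hρ, rfl⟩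
  · intro ψ _ ψ' _ h
    funext y
    have := congrFun h (e.symm y)
    simpa using this
  · rintro χ ⟨n, ρ, hρ, rfl⟩
    refine ⟨fun y => ρ.character (e.symm y),
      ⟨n, ρ.comp e.symm.toMonoidHom, R12_irred_comp ρ e.symm.toMonoidHom e.symm.surjective hρ, rfl⟩,
      ?_⟩
    funext x
    simp

theorem rdim_congr {G H : Type} [Group G] [Group H] (e : G ≃* H) (n : ℕ) : rdim G n = rdim H n := by
  unfold rdim
  have h := irr_congr e
  have h1 : {χ : G → ℂ | χ ∈ Irr G ∧ χ 1 = n}
      = (fun (ψ : H → ℂ) (x : G) => ψ (e x)) '' {ψ : H → ℂ | ψ ∈ Irr H ∧ ψ 1 = n} := by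
    ext χ
    constructor
    · rintro ⟨h2, h3⟩
      obtain ⟨ψ, hψ, rfl⟩ := h.surjOn h2
      refine ⟨ψ, ⟨hψ, ?_⟩, rfl⟩
      simpa using h3
    · rintro ⟨ψ, ⟨hψ, hψ1⟩, rfl⟩
      refine ⟨h.mapsTo hψ, ?_⟩
      simpa using hψ1
  rw [h1, Set.InjOn.ncard_image]
  intro ψ hψ ψ' hψ' heq
  exact h.injOn hψ.1 hψ'.1 heq

end Pool.Agent.Lib.MP_fa0f6c_al.Cx
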