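import Mathlib
import Pool.Agent.Lib.MP_fa0f6c_al.Cx.Defs
import Pool.Agent.Lib.MP_fa0f6c_al.Cx.BDefs
import Pool.Agent.Lib.MP_fa0f6c_al.Cx.R12

set_option autoImplicit false

namespace Pool.Agent.Lib.MP_fa0f6c_al.Cx.B

open scoped ComplexConjugate

variable {F : Type} [Field F]

theorem on_isCF (f : UCF F) (V : Type) [AddCommGroup V] [Module F V] : IsCF (f.on V) := by
  intro x y
  refine f.inv x.symm _ _ fun v => ?_
  show x.symm (x (y v)) = y (x (x.symm v))
  rw [x.symm_apply_apply, x.apply_symm_apply]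

private noncomputable def b4E {V : Type} [AddCommGroup V] [Module F V] {n : ℕ}
    (L : V ≃ₗ[F] (Fin n → F)) : Matrix.GeneralLinearGroup (Fin n) F ≃* (V ≃ₗ[F] V) :=
  (Matrix.GeneralLinearGroup.toLin.trans
    (LinearMap.GeneralLinearGroup.generalLinearEquiv F (Fin n → F))).trans
    { toFun := fun x => (L.trans x).trans L.symm
      invFun := fun x => (L.symm.trans x).trans L
      left_inv := by intro x; ext v; simp
      right_inv := by intro x; ext v; simp
      map_mul' := by intro x y; ext v; simp }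

private theorem b4E_apply {V : Type} [AddCommGroup V] [Module F V] {n : ℕ}
    (L : V ≃ₗ[F] (Fin n → F)) (g : Matrix.GeneralLinearGroup (Fin n) F) (v : V) :
    b4E L g v = L.symm (Matrix.toLin' (g : Matrix (Fin n) (Fin n) F) (L v)) := rfl

private theorem b4E_on {V : Type} [AddCommGroup V] [Module F V] {n : ℕ}
    (L : V ≃ₗ[F] (Fin n → F)) (f : UCF F) (g : Matrix.GeneralLinearGroup (Fin n) F) :
    f.on V (b4E L g) = f.gl n g := by
  refine f.inv L _ _ fun v => ?_
  show L (b4E L g v) = _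
  rw [b4E_apply, L.apply_symm_apply]

private theorem b4lin (V : Type) [AddCommGroup V] [Module F V] [Finite V] (n : ℕ)
    (hn : Module.finrank F V = n) : Nonempty (V ≃ₗ[F] (Fin n → F)) := by
  refine ⟨LinearEquiv.ofFinrankEq V (Fin n → F) ?_⟩
  rw [hn, Module.finrank_fin_fun]

theorem gl_isCF (f : UCF F) (n : ℕ) : IsCF (f.gl n) := by
  intro x y
  rw [← b4E_on (LinearEquiv.refl F (Fin n → F)) f, ← b4E_on (LinearEquiv.refl F (Fin n → F)) f,
    map_mul, map_mul]
  exact on_isCF f _ _ _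

/-- HINT: choose a basis of `V` indexed by `Fin n`; `Matrix.GeneralLinearGroup.toLin`,
`LinearMap.GeneralLinearGroup.generalLinearEquiv`, conjugation with the basis isomorphism
`V ≃ₗ (Fin n → F)`; `f.inv`. -/
theorem exists_glEquiv (V : Type) [AddCommGroup V] [Module F V] [Finite V] (n : ℕ)
    (hn : Module.finrank F V = n) :
    ∃ e : Matrix.GeneralLinearGroup (Fin n) F ≃* (V ≃ₗ[F] V),
      ∀ (f : UCF F) (g : Matrix.GeneralLinearGroup (Fin n) F), f.on V (e g) = f.gl n g := by
  obtain ⟨L⟩ := b4lin V n hn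
  exact ⟨b4E L, fun f g => b4E_on L f g⟩

/-- HINT: substitution of the isomorphism `exists_glEquiv` in the sum. -/
theorem ip_on (V : Type) [AddCommGroup V] [Module F V] [Finite V] (n : ℕ)
    (hn : Module.finrank F V = n) (f g : UCF F) : ip (f.on V) (g.on V) = ipn n f g := by
  obtain ⟨e, he⟩ := exists_glEquiv V n hn
  unfold ipn ip
  rw [← Nat.card_congr e.toEquiv]
  congr 1
  symm
  refine finsum_eq_of_bijective e e.bijective fun x => ?_
  rw [he, he]

theorem irr_on (V : Type) [AddCommGroup V] [Module F V] [Finite V] (n : ℕ)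
    (hn : Module.finrank F V = n) (f : UCF F) :
    f.on V ∈ Irr (V ≃ₗ[F] V) ↔ f.gl n ∈ Irr (Matrix.GeneralLinearGroup (Fin n) F) := by
  obtain ⟨e, he⟩ := exists_glEquiv V n hn
  have h1 : f.gl n = fun x => f.on V (e x) := funext fun x => (he f x).symm
  constructor
  · intro h
    rw [h1]
    exact (irr_congr e).mapsTo h
  · intro h
    have h2 : f.on V = fun y => f.gl n (e.symm y) := by
      funext y
      rw [← he, e.apply_symm_apply]
    rw [h2]
    exact (irr_congr e.symm).mapsTo h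

private theorem b4fin (V : Type) [AddCommGroup V] [Module F V] [Finite V] :
    Finite (V ≃ₗ[F] V) :=
  Finite.of_injective (fun x : V ≃ₗ[F] V => (x : V → V)) DFunLike.coe_injective

theorem isNat_on (V : Type) [AddCommGroup V] [Module F V] [Finite V] (n : ℕ)
    (hn : Module.finrank F V = n) (f : UCF F) : IsNat (f.on V) ↔ IsNat (f.gl n) := by
  obtain ⟨e, he⟩ := exists_glEquiv V n hn
  have hf1 : Finite (V ≃ₗ[F] V) := b4fin V
  have hf2 : Finite (Matrix.GeneralLinearGroup (Fin n) F) := Finite.of_equiv _ e.symm.toEquiv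
  have h1 : f.gl n = fun x => f.on V (e x) := funext fun x => (he f x).symm
  constructor
  · intro h
    rw [h1]
    exact isNat_comp e.toMonoidHom h
  · intro h
    have h2 : f.on V = fun y => f.gl n (e.symm y) := by
      funext y
      rw [← he, e.apply_symm_apply]
    rw [h2]
    exact isNat_comp e.symm.toMonoidHom h

theorem card_on (V : Type) [AddCommGroup V] [Module F V] [Finite V] (n : ℕ)
    (hn : Module.finrank F V = n) :
    Nat.card (V ≃ₗ[F] V) = Nat.card (Matrix.GeneralLinearGroup (Fin n) F) := by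
  obtain ⟨e, -⟩ := exists_glEquiv V n hn
  exact Nat.card_congr e.symm.toEquiv

theorem on_one (V : Type) [AddCommGroup V] [Module F V] [Finite V] (n : ℕ)
    (hn : Module.finrank F V = n) (f : UCF F) : f.val (LinearMap.id : V →ₗ[F] V) = f.gl n 1 := by
  obtain ⟨L⟩ := b4lin V n hn
  refine f.inv L _ _ fun v => ?_
  simp

/-- HINT: for `V` finite with `finrank = n` and `x` bijective transport to `Fin n → F`. -/
theorem ext_deg {f g : UCF F} {n : ℕ} (hf : Deg f n) (hg : Deg g n)
    (h : ∀ x, f.gl n x = g.gl n x) : f = g := by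
  refine UCF.ext' fun V _ _ x => ?_
  by_cases hx : Finite V ∧ Function.Bijective x
  · obtain ⟨hV, hb⟩ := hx
    by_cases hn : Module.finrank F V = n
    · obtain ⟨e, he⟩ := exists_glEquiv V n hn
      have key : ∀ f : UCF F, f.val x = f.gl n (e.symm (LinearEquiv.ofBijective x hb)) := by
        intro f
        rw [← he, e.apply_symm_apply]
        rfl
      rw [key f, key g, h]
    · rw [hf V x hn, hg V x hn]
  · rw [f.supp x hx, g.supp x hx]

open Classical in
/-- extension of a function on the group to all matrices -/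
private noncomputable def b4phi {n : ℕ} (φ : Matrix.GeneralLinearGroup (Fin n) F → ℂ)
    (m : Matrix (Fin n) (Fin n) F) : ℂ := if h : IsUnit m then φ h.unit else 0

private theorem b4phi_unit {n : ℕ} (φ : Matrix.GeneralLinearGroup (Fin n) F → ℂ)
    (g : Matrix.GeneralLinearGroup (Fin n) F) : b4phi φ (g : Matrix (Fin n) (Fin n) F) = φ g := by
  unfold b4phi
  rw [dif_pos g.isUnit]
  congr 1
  exact Units.ext (IsUnit.unit_spec _)

private theorem b4phi_conj {n : ℕ} {φ : Matrix.GeneralLinearGroup (Fin n) F → ℂ} (hφ : IsCF φ)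
    (P Q m : Matrix (Fin n) (Fin n) F) (hPQ : P * Q = 1) (hQP : Q * P = 1) :
    b4phi φ (P * m * Q) = b4phi φ m := by
  by_cases h : IsUnit m
  · obtain ⟨g, rfl⟩ := h
    have e : P * (g : Matrix (Fin n) (Fin n) F) * Q =
        ((⟨P, Q, hPQ, hQP⟩ * g * (⟨P, Q, hPQ, hQP⟩ : (Matrix (Fin n) (Fin n) F)ˣ)⁻¹ :
          (Matrix (Fin n) (Fin n) F)ˣ) : Matrix (Fin n) (Fin n) F) := rfl
    rw [e, b4phi_unit, b4phi_unit, hφ, inv_mul_cancel_left]
  · have h' : ¬ IsUnit (P * m * Q) := by
      intro h2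
      apply h
      have e : m = Q * (P * m * Q) * P := by
        calc m = (Q * P) * m * (Q * P) := by rw [hQP, one_mul, mul_one]
          _ = Q * (P * m * Q) * P := by simp only [mul_assoc]
      rw [e]
      have hQ : IsUnit Q := ⟨⟨Q, P, hQP, hPQ⟩, rfl⟩
      have hP : IsUnit P := ⟨⟨P, Q, hPQ, hQP⟩, rfl⟩
      exact (hQ.mul h2).mul hP
    unfold b4phi
    rw [dif_neg h, dif_neg h']

/-- the matrix of an endomorphism -/
private noncomputable def b4mat {V : Type} [AddCommGroup V] [Module F V] {n : ℕ}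
    (L : V ≃ₗ[F] (Fin n → F)) (x : V →ₗ[F] V) : Matrix (Fin n) (Fin n) F :=
  LinearMap.toMatrix' ((L : V →ₗ[F] (Fin n → F)) ∘ₗ x ∘ₗ (L.symm : (Fin n → F) →ₗ[F] V))

private theorem b4mat_indep {V : Type} [AddCommGroup V] [Module F V] {n : ℕ}
    {φ : Matrix.GeneralLinearGroup (Fin n) F → ℂ} (hφ : IsCF φ)
    (L L' : V ≃ₗ[F] (Fin n → F)) (x : V →ₗ[F] V) : b4phi φ (b4mat L' x) = b4phi φ (b4mat L x) := by
  have hPQ : LinearMap.toMatrix' ((L' : V →ₗ[F] (Fin n → F)) ∘ₗ (L.symm : (Fin n → F) →ₗ[F] V)) *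
      LinearMap.toMatrix' ((L : V →ₗ[F] (Fin n → F)) ∘ₗ (L'.symm : (Fin n → F) →ₗ[F] V)) = 1 := by
    rw [← LinearMap.toMatrix'_comp, ← LinearMap.toMatrix'_one]
    congr 1
    ext v
    simp
  have hQP : LinearMap.toMatrix' ((L : V →ₗ[F] (Fin n → F)) ∘ₗ (L'.symm : (Fin n → F) →ₗ[F] V)) *
      LinearMap.toMatrix' ((L' : V →ₗ[F] (Fin n → F)) ∘ₗ (L.symm : (Fin n → F) →ₗ[F] V)) = 1 := by
    rw [← LinearMap.toMatrix'_comp, ← LinearMap.toMatrix'_one]
    congr 1
    ext v
    simp
  rw [← b4phi_conj hφ _ _ (b4mat L x) hPQ hQP]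
  congr 1
  unfold b4mat
  rw [← LinearMap.toMatrix'_comp, ← LinearMap.toMatrix'_comp]
  congr 1
  refine LinearMap.ext fun v => ?_
  simp

open Classical in
private noncomputable def b4val (n : ℕ) (φ : Matrix.GeneralLinearGroup (Fin n) F → ℂ) {V : Type}
    [AddCommGroup V] [Module F V] (x : V →ₗ[F] V) : ℂ :=
  if h : Nonempty (V ≃ₗ[F] (Fin n → F)) then
    (if Finite V ∧ Function.Bijective x then b4phi φ (b4mat h.some x) else 0) else 0

private theorem b4val_of {n : ℕ} {φ : Matrix.GeneralLinearGroup (Fin n) F → ℂ} (hφ : IsCF φ)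
    {V : Type} [AddCommGroup V] [Module F V] (L : V ≃ₗ[F] (Fin n → F)) (x : V →ₗ[F] V)
    (hx : Finite V ∧ Function.Bijective x) : b4val n φ x = b4phi φ (b4mat L x) := by
  unfold b4val
  rw [dif_pos ⟨L⟩, if_pos hx]
  exact b4mat_indep hφ L _ x

private theorem b4val_not {n : ℕ} {φ : Matrix.GeneralLinearGroup (Fin n) F → ℂ}
    {V : Type} [AddCommGroup V] [Module F V] (x : V →ₗ[F] V)
    (hx : ¬ (Finite V ∧ Function.Bijective x)) : b4val n φ x = 0 := by
  unfold b4val
  split_ifs
  · rfl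
  · rfl

private theorem b4val_not' {n : ℕ} {φ : Matrix.GeneralLinearGroup (Fin n) F → ℂ}
    {V : Type} [AddCommGroup V] [Module F V] (x : V →ₗ[F] V)
    (hx : ¬ Nonempty (V ≃ₗ[F] (Fin n → F))) : b4val n φ x = 0 := by
  unfold b4val
  rw [dif_neg hx]

private theorem b4val_inv {n : ℕ} {φ : Matrix.GeneralLinearGroup (Fin n) F → ℂ} (hφ : IsCF φ)
    {V W : Type} [AddCommGroup V] [Module F V] [AddCommGroup W] [Module F W] (e : V ≃ₗ[F] W)
    (x : V →ₗ[F] V) (y : W →ₗ[F] W) (h : ∀ v, e (x v) = y (e v)) :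
    b4val n φ x = b4val n φ y := by
  have hfin : Finite V ↔ Finite W := e.toEquiv.finite_iff
  have hy : (y : W → W) = e ∘ x ∘ e.symm := by
    funext w
    show y w = e (x (e.symm w))
    rw [h, e.apply_symm_apply]
  have hbij : Function.Bijective x ↔ Function.Bijective y := by
    rw [hy, e.bijective.of_comp_iff', e.symm.bijective.of_comp_iff]
  by_cases hx : Finite V ∧ Function.Bijective x
  · have hy' : Finite W ∧ Function.Bijective y := ⟨hfin.1 hx.1, hbij.1 hx.2⟩
    by_cases hL : Nonempty (W ≃ₗ[F] (Fin n → F))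
    · obtain ⟨L⟩ := hL
      rw [b4val_of hφ (e.trans L) x hx, b4val_of hφ L y hy']
      congr 1
      unfold b4mat
      congr 1
      refine LinearMap.ext fun v => ?_
      simp [h]
    · have hL' : ¬ Nonempty (V ≃ₗ[F] (Fin n → F)) := by
        rintro ⟨L⟩
        exact hL ⟨e.symm.trans L⟩
      rw [b4val_not' x hL', b4val_not' y hL]
  · have hy' : ¬ (Finite W ∧ Function.Bijective y) := fun h' => hx ⟨hfin.2 h'.1, hbij.2 h'.2⟩
    rw [b4val_not x hx, b4val_not y hy']

/-- HINT: `val x := if Finite V ∧ finrank F V = n ∧ Bijective x then φ (matrix of x in a chosen basis)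
else 0`; independent of the basis because `φ` is a class function. -/
theorem exists_ucf [Finite F] (n : ℕ) (φ : Matrix.GeneralLinearGroup (Fin n) F → ℂ) (hφ : IsCF φ) :
    ∃ f : UCF F, Deg f n ∧ f.gl n = φ := by
  refine ⟨⟨fun x => b4val n φ x, fun e x y h => b4val_inv hφ e x y h,
    fun x hx => b4val_not x hx⟩, ?_, ?_⟩
  · intro V _ _ x hn
    refine b4val_not' x ?_
    rintro ⟨L⟩
    apply hn
    rw [L.finrank_eq, Module.finrank_fin_fun]
  · funext g
    show b4val n φ (Matrix.toLin' (g : Matrix (Fin n) (Fin n) F)) = φ g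
    have hb : Function.Bijective (Matrix.toLin' (g : Matrix (Fin n) (Fin n) F)) := by
      have h1 := (b4E (LinearEquiv.refl F (Fin n → F)) g).bijective
      exact h1
    rw [b4val_of hφ (LinearEquiv.refl F (Fin n → F)) _ ⟨inferInstance, hb⟩]
    have h2 : b4mat (LinearEquiv.refl F (Fin n → F))
        (Matrix.toLin' (g : Matrix (Fin n) (Fin n) F)) = (g : Matrix (Fin n) (Fin n) F) := by
      unfold b4mat
      have h3 : ((LinearEquiv.refl F (Fin n → F) : (Fin n → F) →ₗ[F] (Fin n → F)) ∘ₗ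
          Matrix.toLin' (g : Matrix (Fin n) (Fin n) F) ∘ₗ
          ((LinearEquiv.refl F (Fin n → F)).symm : (Fin n → F) →ₗ[F] (Fin n → F))) =
          Matrix.toLin' (g : Matrix (Fin n) (Fin n) F) := by
        refine LinearMap.ext fun v => ?_
        simp
      rw [h3, LinearMap.toMatrix'_toLin']
    rw [h2, b4phi_unit]

/-- The same for the group `GL(V)`. HINT: `exists_glEquiv` and `exists_ucf`. -/
theorem exists_ucf_on [Finite F] (V : Type) [AddCommGroup V] [Module F V] [Finite V]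
    (φ : (V ≃ₗ[F] V) → ℂ) (hφ : IsCF φ) :
    ∃ f : UCF F, Deg f (Module.finrank F V) ∧ f.on V = φ := by
  obtain ⟨e, he⟩ := exists_glEquiv (F := F) V _ rfl
  obtain ⟨f, hf, hf2⟩ := exists_ucf (F := F) (Module.finrank F V) (fun g => φ (e g)) (by
    intro x y
    show φ (e (x * y)) = φ (e (y * x))
    rw [map_mul, map_mul, hφ])
  refine ⟨f, hf, funext fun x => ?_⟩
  have h1 := he f (e.symm x)
  rw [e.apply_symm_apply, hf2] at h1
  rw [h1]
  show φ (e (e.symm x)) = φ x
  rw [e.apply_symm_apply]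

/-- Sums over `GL(V)` and over `End(V)` agree, as `f` vanishes on non bijective maps. -/
theorem sum_equiv_eq_sum_end (V : Type) [AddCommGroup V] [Module F V] [Finite V] (f : UCF F)
    (c : (V →ₗ[F] V) → ℂ) :
    ∑ᶠ x : V ≃ₗ[F] V, f.val (x : V →ₗ[F] V) * c (x : V →ₗ[F] V) =
      ∑ᶠ x : V →ₗ[F] V, f.val x * c x := by
  have hinj : Function.Injective (fun x : V ≃ₗ[F] V => (x : V →ₗ[F] V)) :=
    LinearEquiv.toLinearMap_injective
  have hsub : Function.support (fun x : V →ₗ[F] V => f.val x * c x) ⊆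
      Set.range (fun x : V ≃ₗ[F] V => (x : V →ₗ[F] V)) := by
    intro x h
    by_contra hx
    apply h
    show f.val x * c x = 0
    rw [f.supp x, zero_mul]
    rintro ⟨-, hb⟩
    exact hx ⟨LinearEquiv.ofBijective x hb, rfl⟩
  rw [← finsum_mem_range (f := fun x : V →ₗ[F] V => f.val x * c x) hinj, finsum_mem_def,
    Set.indicator_eq_self.2 hsub]

end Pool.Agent.Lib.MP_fa0f6c_al.Cx.B
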