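import Mathlib
import Pool.Agent.Lib.MP_fa0f6c_al.Cx.Defs
import Pool.Agent.Lib.MP_fa0f6c_al.Cx.BDefs

set_option autoImplicit false

namespace Pool.Agent.Lib.MP_fa0f6c_al.Cx.B

open scoped ComplexConjugate

variable {F : Type} [Field F]

/-- `W` is `x`-stable iff `W.map e` is `y`-stable; the restricted maps are conjugate under
`e.submoduleMap W : W ≃ₗ W.map e`, the quotient maps under `Submodule.Quotient.equiv`. -/
theorem tm_inv (f g : UCF F) {V V' : Type} [AddCommGroup V] [Module F V] [AddCommGroup V']
    [Module F V'] (e : V ≃ₗ[F] V') (x : V →ₗ[F] V) (y : V' →ₗ[F] V')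
    (h : ∀ v, e (x v) = y (e v)) (W : Submodule F V) :
    tm f g x W = tm f g y (W.map (e : V →ₗ[F] V')) := by
  have hiff : (∀ w ∈ W, x w ∈ W) ↔
      ∀ w ∈ W.map (e : V →ₗ[F] V'), y w ∈ W.map (e : V →ₗ[F] V') := by
    constructor
    · rintro h1 _ ⟨v, hv, rfl⟩
      refine ⟨x v, h1 v hv, ?_⟩
      exact h v
    · intro h1 w hw
      obtain ⟨v, hv, hv'⟩ := h1 (e w) ⟨w, hw, rfl⟩
      rw [← h w] at hv'
      have : v = x w := e.injective hv'
      rwa [← this]
  unfold tm
  by_cases h1 : ∀ w ∈ W, x w ∈ W
  · have h2 := hiff.1 h1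
    rw [dif_pos h1, dif_pos h2]
    congr 1
    · refine f.inv (e.submoduleMap W) _ _ fun v => ?_
      apply Subtype.ext
      exact h v
    · refine g.inv (Submodule.Quotient.equiv W (W.map (e : V →ₗ[F] V')) e rfl) _ _ fun v => ?_
      induction v using Submodule.Quotient.induction_on with
      | _ v =>
        show Submodule.Quotient.mk (e (x v)) = Submodule.Quotient.mk (y (e v))
        rw [h v]
  · rw [dif_neg h1, dif_neg fun h2 => h1 (hiff.2 h2)]

private theorem b01_finite {V : Type} [AddCommGroup V] [Module F V] (W : Submodule F V)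
    (h1 : Finite W) (h2 : Finite (V ⧸ W)) : Finite V := by
  have h3 : Finite (V ⧸ W.toAddSubgroup) := h2
  have h4 : Finite W.toAddSubgroup := h1
  exact Finite.of_equiv _ (AddSubgroup.addGroupEquivQuotientProdAddSubgroup
    (s := W.toAddSubgroup)).symm

/-- if `V` is infinite then `W` or `V ⧸ W` is infinite; if `V` is finite and `x` restricted to
`W` and `x` on `V ⧸ W` are bijective then `x` is bijective. -/
theorem tm_supp (f g : UCF F) {V : Type} [AddCommGroup V] [Module F V] (x : V →ₗ[F] V)
    (hx : ¬ (Finite V ∧ Function.Bijective x)) (W : Submodule F V) : tm f g x W = 0 := by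
  unfold tm
  split_ifs with h
  · by_contra hne
    apply hx
    have hf : Finite W ∧ Function.Bijective (x.restrict h) := by
      by_contra hc
      exact hne (by rw [f.supp _ hc, zero_mul])
    have hg : Finite (V ⧸ W) ∧ Function.Bijective (W.mapQ W x h) := by
      by_contra hc
      exact hne (by rw [g.supp _ hc, mul_zero])
    have hV := b01_finite W hf.1 hg.1
    refine ⟨hV, ?_⟩
    rw [← Finite.injective_iff_bijective]
    rw [injective_iff_map_eq_zero]
    intro v hv
    have h1 : W.mapQ W x h (Submodule.Quotient.mk v) = 0 := by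
      show Submodule.Quotient.mk (x v) = 0
      rw [hv]
      rfl
    have h2 : (Submodule.Quotient.mk v : V ⧸ W) = 0 := by
      apply hg.2.1
      rw [h1, map_zero]
    rw [Submodule.Quotient.mk_eq_zero] at h2
    have h3 : (⟨v, h2⟩ : W) = 0 := by
      apply hf.2.1
      rw [map_zero]
      apply Subtype.ext
      exact hv
    exact congrArg Subtype.val h3
  · rfl

/-- `finsum` is invariant under the bijection `W ↦ W.map e`. -/
theorem mulVal_inv (f g : UCF F) {V V' : Type} [AddCommGroup V] [Module F V] [AddCommGroup V']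
    [Module F V'] (e : V ≃ₗ[F] V') (x : V →ₗ[F] V) (y : V' →ₗ[F] V')
    (h : ∀ v, e (x v) = y (e v)) : mulVal f g x = mulVal f g y := by
  unfold mulVal
  rw [← finsum_comp_equiv (Submodule.orderIsoMapComap e).toEquiv]
  refine finsum_congr fun W => ?_
  rw [tm_inv f g e x y h W]
  rfl

theorem mulVal_supp (f g : UCF F) {V : Type} [AddCommGroup V] [Module F V] (x : V →ₗ[F] V)
    (hx : ¬ (Finite V ∧ Function.Bijective x)) : mulVal f g x = 0 := by
  unfold mulVal
  rw [finsum_congr (fun W => tm_supp f g x hx W), finsum_zero]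

end Pool.Agent.Lib.MP_fa0f6c_al.Cx.B
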