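import Mathlib
import Pool.Agent.Lib.MP_fa0f6c_al.Cx.Defs
import Pool.Agent.Lib.MP_fa0f6c_al.Cx.BDefs
import Pool.Agent.Lib.MP_fa0f6c_al.Cx.B01

/-! The additive structure, the unit and the product of `UCF F` (definitions; the ring axioms
are in `B02`, the `Ring` instance in `BAlg`). -/

set_option autoImplicit false
set_option linter.unusedVariables false

namespace Pool.Agent.Lib.MP_fa0f6c_al.Cx.B

open scoped ComplexConjugate

variable {F : Type} [Field F]

noncomputable instance : Zero (UCF F) := ⟨⟨fun _ => 0, fun _ _ _ _ => rfl, fun _ _ => rfl⟩⟩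

noncomputable instance : Add (UCF F) :=
  ⟨fun f g => ⟨fun x => f.val x + g.val x, fun e x y h => by rw [f.inv e x y h, g.inv e x y h],
    fun x h => by rw [f.supp x h, g.supp x h, add_zero]⟩⟩

noncomputable instance : Neg (UCF F) :=
  ⟨fun f => ⟨fun x => - f.val x, fun e x y h => by rw [f.inv e x y h],
    fun x h => by rw [f.supp x h, neg_zero]⟩⟩

noncomputable instance : SMul ℂ (UCF F) :=
  ⟨fun c f => ⟨fun x => c * f.val x, fun e x y h => by rw [f.inv e x y h],
    fun x h => by rw [f.supp x h, mul_zero]⟩⟩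

noncomputable instance : Mul (UCF F) :=
  ⟨fun f g => ⟨fun x => mulVal f g x, fun e x y h => mulVal_inv f g e x y h,
    fun x h => mulVal_supp f g x h⟩⟩

open Classical in
noncomputable instance : One (UCF F) :=
  ⟨⟨fun {V} _ _ _ => if Subsingleton V then 1 else 0, fun {V W} _ _ _ _ e x y h => by
      have : Subsingleton V ↔ Subsingleton W := e.toEquiv.subsingleton_congr
      simp only [this], fun {V} _ _ x h => by
      rw [if_neg]
      intro hs
      exact h ⟨inferInstance, ⟨fun a b _ => Subsingleton.elim a b, fun b => ⟨b, Subsingleton.elim _ _⟩⟩⟩⟩⟩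

section
variable {V : Type} [AddCommGroup V] [Module F V] (f g : UCF F) (x : V →ₗ[F] V) (c : ℂ)

@[simp] theorem zero_val : (0 : UCF F).val x = 0 := rfl
@[simp] theorem add_val : (f + g).val x = f.val x + g.val x := rfl
@[simp] theorem neg_val : (-f).val x = - f.val x := rfl
@[simp] theorem smul_val : (c • f).val x = c * f.val x := rfl
theorem mul_val : (f * g).val x = ∑ᶠ W : Submodule F V, tm f g x W := rfl
open Classical in
theorem one_val : (1 : UCF F).val x = if Subsingleton V then 1 else 0 := rfl
end

noncomputable instance : AddCommGroup (UCF F) where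
  add_assoc f g h := UCF.ext' fun V _ _ x => add_assoc _ _ _
  zero_add f := UCF.ext' fun V _ _ x => zero_add _
  add_zero f := UCF.ext' fun V _ _ x => add_zero _
  add_comm f g := UCF.ext' fun V _ _ x => add_comm _ _
  neg_add_cancel f := UCF.ext' fun V _ _ x => neg_add_cancel _
  nsmul := nsmulRec
  zsmul := zsmulRec

noncomputable instance : Module ℂ (UCF F) where
  one_smul f := UCF.ext' fun V _ _ x => one_mul _
  mul_smul a b f := UCF.ext' fun V _ _ x => mul_assoc _ _ _
  smul_zero a := UCF.ext' fun V _ _ x => mul_zero _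
  smul_add a f g := UCF.ext' fun V _ _ x => mul_add _ _ _
  add_smul a b f := UCF.ext' fun V _ _ x => add_mul _ _ _
  zero_smul f := UCF.ext' fun V _ _ x => zero_mul _

@[simp] theorem sub_val {V : Type} [AddCommGroup V] [Module F V] (f g : UCF F) (x : V →ₗ[F] V) :
    (f - g).val x = f.val x - g.val x := by
  rw [sub_eq_add_neg, add_val, neg_val, sub_eq_add_neg]

/-- evaluation is additive -/
noncomputable def valHom {V : Type} [AddCommGroup V] [Module F V] (x : V →ₗ[F] V) : UCF F →ₗ[ℂ] ℂ where
  toFun f := f.val x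
  map_add' _ _ := rfl
  map_smul' _ _ := rfl

theorem sum_val {ι : Type*} {V : Type} [AddCommGroup V] [Module F V] (s : Finset ι) (f : ι → UCF F)
    (x : V →ₗ[F] V) : (∑ i ∈ s, f i).val x = ∑ i ∈ s, (f i).val x :=
  map_sum (valHom x) f s

end Pool.Agent.Lib.MP_fa0f6c_al.Cx.B
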