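import Mathlib
import Pool.Agent.Lib.MP_fa0f6c_al.Cx.Defs
import Pool.Agent.Lib.MP_fa0f6c_al.Cx.BDefs
import Pool.Agent.Lib.MP_fa0f6c_al.Cx.BRing

set_option autoImplicit false

namespace Pool.Agent.Lib.MP_fa0f6c_al.Cx.B

open scoped ComplexConjugate

variable {F : Type} [Field F]

open Classical in
private noncomputable def b02L (f g h : UCF F) {V : Type} [AddCommGroup V] [Module F V]
    (x : V →ₗ[F] V) (N : Submodule F V) (K' : Submodule F N) : ℂ :=
  if hN : ∀ w ∈ N, x w ∈ N then tm f g (x.restrict hN) K' * h.val (N.mapQ N x hN) else 0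

open Classical in
private noncomputable def b02R (f g h : UCF F) {V : Type} [AddCommGroup V] [Module F V]
    (x : V →ₗ[F] V) (K : Submodule F V) (M : Submodule F (V ⧸ K)) : ℂ :=
  if hK : ∀ w ∈ K, x w ∈ K then f.val (x.restrict hK) * tm g h (K.mapQ K x hK) M else 0

private theorem b02_mem {V : Type} [AddCommGroup V] [Module F V] {K N : Submodule F V}
    (hKN : K ≤ N) (v : V) : (Submodule.Quotient.mk v : V ⧸ K) ∈ N.map K.mkQ ↔ v ∈ N := by
  constructor
  · rintro ⟨w, hw, hwv⟩
    have h1 : (Submodule.Quotient.mk w : V ⧸ K) = Submodule.Quotient.mk v := hwv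
    rw [Submodule.Quotient.eq] at h1
    have h2 := N.sub_mem hw (hKN h1)
    rwa [sub_sub_cancel] at h2
  · exact fun hv => ⟨v, hv, rfl⟩

private theorem b02_eq (f g h : UCF F) {V : Type} [AddCommGroup V] [Module F V]
    (x : V →ₗ[F] V) {K N : Submodule F V} (hKN : K ≤ N) :
    b02L f g h x N (K.submoduleOf N) = b02R f g h x K (N.map K.mkQ) := by
  unfold b02L b02R
  by_cases hN : ∀ w ∈ N, x w ∈ N
  · by_cases hK : ∀ w ∈ K, x w ∈ K
    · rw [dif_pos hN, dif_pos hK]
      unfold tm
      have hK' : ∀ w ∈ K.submoduleOf N, (x.restrict hN) w ∈ K.submoduleOf N := fun w hw =>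
        hK w.1 hw
      have hM : ∀ w ∈ N.map K.mkQ, (K.mapQ K x hK) w ∈ N.map K.mkQ := by
        rintro _ ⟨w, hw, rfl⟩
        exact ⟨x w, hN w hw, rfl⟩
      rw [dif_pos hK', dif_pos hM, mul_assoc]
      congr 1
      · refine f.inv (Submodule.submoduleOfEquivOfLe hKN) _ _ fun v => ?_
        apply Subtype.ext
        rfl
      · congr 1
        · -- `N / K' ≃ M`
          let φ : N →ₗ[F] N.map K.mkQ := K.mkQ.submoduleMap N
          have hφ : Function.Surjective φ := by
            rintro ⟨_, w, hw, rfl⟩
            exact ⟨⟨w, hw⟩, rfl⟩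
          have hker : K.submoduleOf N = LinearMap.ker φ := by
            ext w
            rw [LinearMap.mem_ker]
            constructor
            · intro hw
              apply Subtype.ext
              exact (Submodule.Quotient.mk_eq_zero K).2 hw
            · intro hw
              exact (Submodule.Quotient.mk_eq_zero K).1 (congrArg Subtype.val hw)
          refine g.inv ((Submodule.quotEquivOfEq _ _ hker).trans
            (φ.quotKerEquivOfSurjective hφ)) _ _ fun v => ?_
          induction v using Submodule.Quotient.induction_on with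
          | _ v =>
            apply Subtype.ext
            rfl
        · refine h.inv (Submodule.quotientQuotientEquivQuotient K N hKN).symm _ _ fun v => ?_
          induction v using Submodule.Quotient.induction_on with
          | _ v => rfl
    · rw [dif_pos hN, dif_neg hK]
      unfold tm
      rw [dif_neg, zero_mul]
      intro hK'
      exact hK fun w hw => hK' ⟨w, hKN hw⟩ hw
  · rw [dif_neg hN]
    by_cases hK : ∀ w ∈ K, x w ∈ K
    · rw [dif_pos hK]
      unfold tm
      rw [dif_neg, mul_zero]
      intro hM
      refine hN fun w hw => ?_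
      have h1 := hM (Submodule.Quotient.mk w) ((b02_mem hKN w).2 hw)
      exact (b02_mem hKN (x w)).1 h1
    · rw [dif_neg hK]

private theorem b02_left (f g h : UCF F) {V : Type} [AddCommGroup V] [Module F V]
    (x : V →ₗ[F] V) (N : Submodule F V) [Fintype (Submodule F N)] :
    tm (f * g) h x N = ∑ K' : Submodule F N, b02L f g h x N K' := by
  unfold tm b02L
  by_cases hN : ∀ w ∈ N, x w ∈ N
  · rw [dif_pos hN, mul_val, finsum_eq_sum_of_fintype, Finset.sum_mul]
    refine Finset.sum_congr rfl fun K' _ => ?_
    rw [dif_pos hN]
  · rw [dif_neg hN]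
    symm
    refine Finset.sum_eq_zero fun K' _ => ?_
    rw [dif_neg hN]

private theorem b02_right (f g h : UCF F) {V : Type} [AddCommGroup V] [Module F V]
    (x : V →ₗ[F] V) (K : Submodule F V) [Fintype (Submodule F (V ⧸ K))] :
    tm f (g * h) x K = ∑ M : Submodule F (V ⧸ K), b02R f g h x K M := by
  unfold tm b02R
  by_cases hK : ∀ w ∈ K, x w ∈ K
  · rw [dif_pos hK, mul_val, finsum_eq_sum_of_fintype, Finset.mul_sum]
    refine Finset.sum_congr rfl fun M _ => ?_
    rw [dif_pos hK]
  · rw [dif_neg hK]
    symm
    refine Finset.sum_eq_zero fun M _ => ?_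
    rw [dif_neg hK]

private theorem b02_finSub (V : Type) [AddCommGroup V] [Module F V] [Finite V] :
    Finite (Submodule F V) :=
  Finite.of_injective (fun p : Submodule F V => (p : Set V)) SetLike.coe_injective

/-- Associativity. HINT: for infinite `V` or non bijective `x` both sides vanish (`supp`). For finite `V`
both sides are sums over the flags `K ≤ N ≤ V` of `x`-stable subspaces of
`f (x on K) * g (x on N / K) * h (x on V / N)`. Left side: `N`, then `K' : Submodule F N`, `K = K'.map N.subtype`.
Right side: `K`, then `M : Submodule F (V ⧸ K)`, `N = M.comap K.mkQ`. Transport with `f.inv`, `g.inv`,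
`h.inv` along `K' ≃ K` (`Submodule.equivSubtypeMap`), `N ⧸ K' ≃ M` and `V ⧸ N ≃ (V ⧸ K) ⧸ M`
(`Submodule.quotientQuotientEquivQuotient`). A convenient intermediate form: sum over pairs
`(K, N)` with a term defined with `K.comap N.subtype` (`Submodule.submoduleOf`). -/
theorem ucf_mul_assoc (f g h : UCF F) : f * g * h = f * (g * h) := by
  classical
  refine UCF.ext' fun V _ _ x => ?_
  by_cases hx : Finite V ∧ Function.Bijective x
  · obtain ⟨hV, -⟩ := hx
    have : Fintype (Submodule F V) := @Fintype.ofFinite _ (b02_finSub V)
    have : ∀ N : Submodule F V, Fintype (Submodule F N) := fun N =>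
      @Fintype.ofFinite _ (b02_finSub N)
    have hQ : ∀ N : Submodule F V, Finite (V ⧸ N) := fun N =>
      Finite.of_surjective _ (Submodule.mkQ_surjective N)
    have : ∀ N : Submodule F V, Fintype (Submodule F (V ⧸ N)) := fun N =>
      @Fintype.ofFinite _ (b02_finSub (V ⧸ N))
    have hL : ∀ N : Submodule F V, ∑ K' : Submodule F N, b02L f g h x N K' =
        ∑ K : Submodule F V, if K ≤ N then b02L f g h x N (K.submoduleOf N) else 0 := by
      intro N
      rw [← Finset.sum_filter]
      refine Finset.sum_bij' (fun K' _ => K'.map N.subtype) (fun K _ => K.submoduleOf N)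
        ?_ ?_ ?_ ?_ ?_
      · intro K' _
        exact Finset.mem_filter.2 ⟨Finset.mem_univ _, Submodule.map_subtype_le N K'⟩
      · intro K _
        exact Finset.mem_univ _
      · intro K' _
        exact Submodule.comap_map_eq_of_injective N.injective_subtype K'
      · intro K hK
        refine (Submodule.map_comap_subtype N K).trans ?_
        exact inf_eq_right.2 (Finset.mem_filter.1 hK).2
      · intro K' _
        congr 1
        exact (Submodule.comap_map_eq_of_injective N.injective_subtype K').symm
    have hR : ∀ K : Submodule F V, ∑ M : Submodule F (V ⧸ K), b02R f g h x K M =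
        ∑ N : Submodule F V, if K ≤ N then b02R f g h x K (N.map K.mkQ) else 0 := by
      intro K
      rw [← Finset.sum_filter]
      have h1 : ∀ M : Submodule F (V ⧸ K), (M.comap K.mkQ).map K.mkQ = M := fun M =>
        Submodule.map_comap_eq_of_surjective (Submodule.mkQ_surjective K) M
      refine Finset.sum_bij' (fun M _ => M.comap K.mkQ) (fun N _ => N.map K.mkQ)
        ?_ ?_ ?_ ?_ ?_
      · intro M _
        exact Finset.mem_filter.2 ⟨Finset.mem_univ _, Submodule.le_comap_mkQ K M⟩
      · intro N _
        exact Finset.mem_univ _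
      · intro M _
        exact h1 M
      · intro N hN
        ext v
        exact b02_mem (Finset.mem_filter.1 hN).2 v
      · intro M _
        rw [h1 M]
    rw [mul_val, mul_val, finsum_eq_sum_of_fintype, finsum_eq_sum_of_fintype]
    calc ∑ N, tm (f * g) h x N
        = ∑ N, ∑ K : Submodule F V,
            (if K ≤ N then b02L f g h x N (K.submoduleOf N) else 0) :=
          Finset.sum_congr rfl fun N _ => by rw [b02_left, hL]
      _ = ∑ K : Submodule F V, ∑ N : Submodule F V,
            (if K ≤ N then b02L f g h x N (K.submoduleOf N) else 0) := Finset.sum_comm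
      _ = ∑ K : Submodule F V, ∑ N : Submodule F V,
            (if K ≤ N then b02R f g h x K (N.map K.mkQ) else 0) := by
          refine Finset.sum_congr rfl fun K _ => Finset.sum_congr rfl fun N _ => ?_
          split_ifs with hKN
          · exact b02_eq f g h x hKN
          · rfl
      _ = ∑ K, tm f (g * h) x K :=
          Finset.sum_congr rfl fun K _ => by rw [b02_right, hR]
  · rw [(f * g * h).supp x hx, (f * (g * h)).supp x hx]

end Pool.Agent.Lib.MP_fa0f6c_al.Cx.B
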