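import Mathlib
import Pool.Agent.Lib.MP_fa0f6c_al.Cx.Defs
import Pool.Agent.Lib.MP_fa0f6c_al.Cx.BDefs
import Pool.Agent.Lib.MP_fa0f6c_al.Cx.BRing

set_option autoImplicit false

namespace Pool.Agent.Lib.MP_fa0f6c_al.Cx.B

open scoped ComplexConjugate

variable {F : Type} [Field F]

/-- only `W = ⊥` contributes, `V ⧸ ⊥ ≃ V` (`Submodule.quotEquivOfEqBot`), `supp` for the rest. -/
theorem ucf_one_mul (f : UCF F) : 1 * f = f := by
  refine UCF.ext' fun V _ _ x => ?_
  rw [mul_val, finsum_eq_single _ (⊥ : Submodule F V)]
  · have h : ∀ w ∈ (⊥ : Submodule F V), x w ∈ (⊥ : Submodule F V) := by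
      intro w hw
      rw [Submodule.mem_bot] at hw ⊢
      rw [hw, map_zero]
    unfold tm
    rw [dif_pos h, one_val, if_pos (inferInstance : Subsingleton (⊥ : Submodule F V)), one_mul]
    refine f.inv (Submodule.quotEquivOfEqBot ⊥ rfl) _ _ fun v => ?_
    induction v using Submodule.Quotient.induction_on with
    | _ v => rfl
  · intro W hW
    unfold tm
    split_ifs with h
    · rw [one_val, if_neg, zero_mul]
      intro hs
      exact hW ((Submodule.eq_bot_iff W).2 fun w hw =>
        congrArg Subtype.val (Subsingleton.elim (⟨w, hw⟩ : W) 0))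
    · rfl

/-- only `W = ⊤` contributes (`V ⧸ W` subsingleton). -/
theorem ucf_mul_one (f : UCF F) : f * 1 = f := by
  refine UCF.ext' fun V _ _ x => ?_
  rw [mul_val, finsum_eq_single _ (⊤ : Submodule F V)]
  · have h : ∀ w ∈ (⊤ : Submodule F V), x w ∈ (⊤ : Submodule F V) := fun w _ => trivial
    have hs : Subsingleton (V ⧸ (⊤ : Submodule F V)) :=
      Submodule.Quotient.subsingleton_iff.2 rfl
    unfold tm
    rw [dif_pos h, one_val, if_pos hs, mul_one]
    exact f.inv Submodule.topEquiv _ _ fun v => rfl
  · intro W hW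
    unfold tm
    split_ifs with h
    · rw [one_val, if_neg, mul_zero]
      intro hs
      exact hW (Submodule.Quotient.subsingleton_iff.1 hs)
    · rfl

private theorem b03_fin (f g : UCF F) {V : Type} [AddCommGroup V] [Module F V] (x : V →ₗ[F] V) :
    (Function.support (tm f g x)).Finite := by
  by_cases h : Finite V ∧ Function.Bijective x
  · have := h.1
    have : Finite (Submodule F V) :=
      Finite.of_injective (fun W : Submodule F V => (W : Set V)) SetLike.coe_injective
    exact Set.toFinite _
  · have h1 : Function.support (tm f g x) = ∅ := by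
      rw [Function.support_eq_empty_iff]
      funext W
      exact tm_supp f g x h W
    rw [h1]
    exact Set.finite_empty

/-- pointwise. -/
theorem ucf_add_mul (f g h : UCF F) : (f + g) * h = f * h + g * h := by
  refine UCF.ext' fun V _ _ x => ?_
  rw [add_val, mul_val, mul_val, mul_val, ← finsum_add_distrib (b03_fin f h x) (b03_fin g h x)]
  refine finsum_congr fun W => ?_
  unfold tm
  split_ifs with h1
  · rw [add_val, add_mul]
  · rw [add_zero]

theorem ucf_mul_add (f g h : UCF F) : f * (g + h) = f * g + f * h := by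
  refine UCF.ext' fun V _ _ x => ?_
  rw [add_val, mul_val, mul_val, mul_val, ← finsum_add_distrib (b03_fin f g x) (b03_fin f h x)]
  refine finsum_congr fun W => ?_
  unfold tm
  split_ifs with h1
  · rw [add_val, mul_add]
  · rw [add_zero]

theorem ucf_smul_mul (c : ℂ) (f g : UCF F) : (c • f) * g = c • (f * g) := by
  refine UCF.ext' fun V _ _ x => ?_
  rw [smul_val, mul_val, mul_val, mul_finsum]
  refine finsum_congr fun W => ?_
  unfold tm
  split_ifs with h1
  · rw [smul_val, mul_assoc]
  · rw [mul_zero]

theorem ucf_mul_smul (c : ℂ) (f g : UCF F) : f * (c • g) = c • (f * g) := by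
  refine UCF.ext' fun V _ _ x => ?_
  rw [smul_val, mul_val, mul_val, mul_finsum]
  refine finsum_congr fun W => ?_
  unfold tm
  split_ifs with h1
  · rw [smul_val, mul_left_comm]
  · rw [mul_zero]

theorem deg_zero (n : ℕ) : Deg (0 : UCF F) n := fun _ _ _ _ _ => rfl

theorem deg_one : Deg (1 : UCF F) 0 := by
  intro V _ _ x h
  rw [one_val, if_neg]
  intro hs
  exact h Module.finrank_zero_of_subsingleton

theorem deg_add {f g : UCF F} {n : ℕ} (hf : Deg f n) (hg : Deg g n) : Deg (f + g) n := by
  intro V _ _ x h
  rw [add_val, hf V x h, hg V x h, add_zero]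

theorem deg_smul {f : UCF F} {n : ℕ} (hf : Deg f n) (c : ℂ) : Deg (c • f) n := by
  intro V _ _ x h
  rw [smul_val, hf V x h, mul_zero]

theorem deg_sum {ι : Type*} (s : Finset ι) (f : ι → UCF F) {n : ℕ} (hf : ∀ i ∈ s, Deg (f i) n) :
    Deg (∑ i ∈ s, f i) n := by
  intro V _ _ x h
  rw [sum_val]
  exact Finset.sum_eq_zero fun i hi => hf i hi V x h

/-- `finrank W + finrank (V ⧸ W) = finrank V` for finite `V`. -/
theorem deg_mul {f g : UCF F} {m n : ℕ} (hf : Deg f m) (hg : Deg g n) : Deg (f * g) (m + n) := by
  intro V _ _ x h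
  by_cases hx : Finite V ∧ Function.Bijective x
  · have := hx.1
    rw [mul_val]
    have h0 : ∀ W : Submodule F V, tm f g x W = 0 := by
      intro W
      unfold tm
      split_ifs with h1
      · have h2 : Module.finrank F (V ⧸ W) + Module.finrank F W = Module.finrank F V :=
          Submodule.finrank_quotient_add_finrank W
        by_cases h3 : Module.finrank F W = m
        · have h4 : Module.finrank F (V ⧸ W) ≠ n := by
            intro h5
            apply h
            rw [← h2, h3, h5, add_comm]
          rw [hg _ _ h4, mul_zero]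
        · rw [hf _ _ h3, zero_mul]
      · rfl
    rw [finsum_congr h0, finsum_zero]
  · exact mulVal_supp f g x hx

/-- different degrees -/
theorem deg_unique {f : UCF F} {m n : ℕ} (hf : Deg f m) (hg : Deg f n) (h : m ≠ n) : f = 0 := by
  refine UCF.ext' fun V _ _ x => ?_
  rw [zero_val]
  by_cases h1 : Module.finrank F V = m
  · exact hg V x (by rw [h1]; exact h)
  · exact hf V x h1

end Pool.Agent.Lib.MP_fa0f6c_al.Cx.B
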