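import Mathlib
import Pool.Agent.Lib.MP_fa0f6c_al.Cx.Defs
import Pool.Agent.Lib.MP_fa0f6c_al.Cx.BDefs
import Pool.Agent.Lib.MP_fa0f6c_al.Cx.BRing
import Pool.Agent.Lib.MP_fa0f6c_al.Cx.B02
import Pool.Agent.Lib.MP_fa0f6c_al.Cx.B03

/-! The ring structure of `UCF F`. -/

set_option autoImplicit false
set_option linter.unusedVariables false

namespace Pool.Agent.Lib.MP_fa0f6c_al.Cx.B

open scoped ComplexConjugate

variable {F : Type} [Field F]

noncomputable instance instRingUCF : Ring (UCF F) where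
  __ := (inferInstance : AddCommGroup (UCF F))
  mul := (· * ·)
  one := 1
  mul_assoc := ucf_mul_assoc
  one_mul := ucf_one_mul
  mul_one := ucf_mul_one
  left_distrib := ucf_mul_add
  right_distrib := ucf_add_mul
  zero_mul f := by
    have h := ucf_smul_mul (0 : ℂ) (0 : UCF F) f
    simpa only [zero_smul] using h
  mul_zero f := by
    have h := ucf_mul_smul (0 : ℂ) f (0 : UCF F)
    simpa only [zero_smul] using h

instance : IsScalarTower ℂ (UCF F) (UCF F) := ⟨fun c f g => ucf_smul_mul c f g⟩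

instance : SMulCommClass ℂ (UCF F) (UCF F) := ⟨fun c f g => (ucf_mul_smul c f g).symm⟩

example (f g h : UCF F) : f * (g + h) * (2 : ℂ) • f = (2 : ℂ) • (f * g * f + f * h * f) := by
  rw [mul_add, mul_smul_comm, add_mul]

end Pool.Agent.Lib.MP_fa0f6c_al.Cx.B
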