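import Mathlib
import Pool.Agent.Lib.MP_fa0f6c_al.Cx.Defs
import Pool.Agent.Lib.MP_fa0f6c_al.Cx.BDefs
import Pool.Agent.Lib.MP_fa0f6c_al.Cx.BAlg
import Pool.Agent.Lib.MP_fa0f6c_al.Cx.B04
import Pool.Agent.Lib.MP_fa0f6c_al.Cx.R05

set_option autoImplicit false

namespace Pool.Agent.Lib.MP_fa0f6c_al.Cx.B

open scoped ComplexConjugate

variable {F : Type} [Field F]

section
variable (n : ℕ) (f g h : UCF F) (c : ℂ)

private theorem b05_ip_zero_left {G : Type} (h : G → ℂ) : ip (0 : G → ℂ) h = 0 := by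
  unfold ip
  simp

private theorem b05_ip_zero_right {G : Type} (h : G → ℂ) : ip h (0 : G → ℂ) = 0 := by
  unfold ip
  simp

theorem ipn_add_left [Finite F] : ipn n (f + g) h = ipn n f h + ipn n g h :=
  ip_add_left (f.gl n) (g.gl n) (h.gl n)

theorem ipn_smul_left [Finite F] : ipn n (c • f) h = c * ipn n f h :=
  ip_smul_left c (f.gl n) (h.gl n)

theorem ipn_zero_left : ipn n 0 h = 0 := b05_ip_zero_left (h.gl n)

theorem ipn_zero_right : ipn n h 0 = 0 := b05_ip_zero_right (h.gl n)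

theorem ipn_conj [Finite F] : ipn n h f = conj (ipn n f h) :=
  ip_conj_symm (f.gl n) (h.gl n)

theorem ipn_add_right [Finite F] : ipn n h (f + g) = ipn n h f + ipn n h g := by
  rw [ipn_conj n (f + g) h, ipn_add_left, map_add, ← ipn_conj, ← ipn_conj]

theorem ipn_smul_right [Finite F] : ipn n h (c • f) = conj c * ipn n h f := by
  rw [ipn_conj n (c • f) h, ipn_smul_left, map_mul, ← ipn_conj]

theorem ipn_sum_left [Finite F] {ι : Type*} (s : Finset ι) (f : ι → UCF F) :
    ipn n (∑ i ∈ s, f i) h = ∑ i ∈ s, ipn n (f i) h := by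
  classical
  induction s using Finset.induction_on with
  | empty => rw [Finset.sum_empty, Finset.sum_empty, ipn_zero_left]
  | insert a s ha ih => rw [Finset.sum_insert ha, Finset.sum_insert ha, ipn_add_left, ih]

theorem ipn_sum_right [Finite F] {ι : Type*} (s : Finset ι) (f : ι → UCF F) :
    ipn n h (∑ i ∈ s, f i) = ∑ i ∈ s, ipn n h (f i) := by
  classical
  induction s using Finset.induction_on with
  | empty => rw [Finset.sum_empty, Finset.sum_empty, ipn_zero_right]
  | insert a s ha ih => rw [Finset.sum_insert ha, Finset.sum_insert ha, ipn_add_right, ih]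

end

private theorem b05_inj {n : ℕ} : Set.InjOn (fun f : UCF F => f.gl n) (IrrC F n) := by
  intro f hf g hg h
  exact ext_deg hf.1 hg.1 fun x => congrFun h x

private theorem b05_surj [Finite F] {n : ℕ} :
    Set.SurjOn (fun f : UCF F => f.gl n) (IrrC F n) (Irr (Matrix.GeneralLinearGroup (Fin n) F)) := by
  intro χ hχ
  obtain ⟨f, hf, hf2⟩ := exists_ucf (F := F) n χ (irr_cf hχ)
  exact ⟨f, ⟨hf, by rw [hf2]; exact hχ⟩, hf2⟩

variable (F) in
/-- `f ↦ f.gl n` is injective on `IrrC F n` (`ext_deg`) with values in `Irr` (`irr_finite`). -/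
theorem irrC_finite [Finite F] (n : ℕ) : (IrrC F n).Finite := by
  refine Set.Finite.of_finite_image ?_ (b05_inj (n := n))
  refine (irr_finite (Matrix.GeneralLinearGroup (Fin n) F)).subset ?_
  rintro _ ⟨f, hf, rfl⟩
  exact hf.2

variable (F) in
/-- the finite set of irreducible characters of `GL_n(F)` -/
noncomputable def irrF [Finite F] (n : ℕ) : Finset (UCF F) := (irrC_finite F n).toFinset

theorem mem_irrF [Finite F] {n : ℕ} {f : UCF F} : f ∈ irrF F n ↔ f ∈ IrrC F n := by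
  simp [irrF]

theorem ipn_irr [Finite F] {n : ℕ} {σ τ : UCF F} (h : σ ∈ IrrC F n) (h' : τ ∈ IrrC F n) :
    ipn n σ τ = open Classical in if σ = τ then 1 else 0 := by
  classical
  unfold ipn
  rw [ip_irr h.2 h'.2]
  by_cases h1 : σ = τ
  · rw [if_pos h1, if_pos (by rw [h1])]
  · rw [if_neg h1, if_neg]
    intro h2
    exact h1 (b05_inj h h' h2)

private theorem b05_sum [Finite F] (n : ℕ)
    (T : (Matrix.GeneralLinearGroup (Fin n) F → ℂ) → ℂ) :
    ∑ χ ∈ (irr_finite (Matrix.GeneralLinearGroup (Fin n) F)).toFinset, T χ =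
      ∑ τ ∈ irrF F n, T (τ.gl n) := by
  symm
  refine Finset.sum_nbij (fun f : UCF F => f.gl n) ?_ ?_ ?_ ?_
  · intro f hf
    rw [Set.Finite.mem_toFinset]
    exact (mem_irrF.1 hf).2
  · intro f hf g hg h
    exact b05_inj (mem_irrF.1 hf) (mem_irrF.1 hg) h
  · intro χ hχ
    rw [Finset.mem_coe, Set.Finite.mem_toFinset] at hχ
    obtain ⟨f, hf, hf2⟩ := b05_surj hχ
    exact ⟨f, mem_irrF.2 hf, hf2⟩
  · intro f _
    rfl

private theorem b05_deg_expand [Finite F] {n : ℕ} (a : UCF F → ℂ) :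
    Deg (∑ τ ∈ irrF F n, a τ • τ) n :=
  deg_sum _ _ fun τ hτ => deg_smul (mem_irrF.1 hτ).1 _

/-- `cf_expand` and `ext_deg`. -/
theorem ucf_expand [Finite F] {n : ℕ} {f : UCF F} (hf : Deg f n) :
    f = ∑ τ ∈ irrF F n, ipn n f τ • τ := by
  refine ext_deg hf (b05_deg_expand _) fun x => ?_
  rw [cf_expand (gl_isCF f n) x, b05_sum]
  unfold UCF.gl
  rw [sum_val]
  rfl

theorem ucf_parseval [Finite F] {n : ℕ} {f g : UCF F} (hf : Deg f n) (hg : Deg g n) :
    ipn n f g = ∑ τ ∈ irrF F n, ipn n f τ * conj (ipn n g τ) := by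
  unfold ipn
  rw [cf_parseval (gl_isCF f n) (gl_isCF g n), b05_sum]

theorem irrC_ncard [Finite F] (n : ℕ) :
    Set.BijOn (fun f : UCF F => f.gl n) (IrrC F n) (Irr (Matrix.GeneralLinearGroup (Fin n) F)) :=
  ⟨fun _ hf => hf.2, b05_inj, b05_surj⟩

end Pool.Agent.Lib.MP_fa0f6c_al.Cx.B
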