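import Mathlib
import Pool.Agent.Lib.MP_fa0f6c_al.Cx.Defs
import Pool.Agent.Lib.MP_fa0f6c_al.Cx.BDefs
import Pool.Agent.Lib.MP_fa0f6c_al.Cx.BAlg
import Pool.Agent.Lib.MP_fa0f6c_al.Cx.B05
import Pool.Agent.Lib.MP_fa0f6c_al.Cx.R06
import Pool.Agent.Lib.MP_fa0f6c_al.Cx.R07

/-! Elementary facts on characters in the language of `UCF` (all are translations of R05, R06). -/

set_option autoImplicit false

namespace Pool.Agent.Lib.MP_fa0f6c_al.Cx.B

open scoped ComplexConjugate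

variable {F : Type} [Field F] [Finite F]

theorem natC_irr {n : ℕ} {τ : UCF F} (h : τ ∈ IrrC F n) : NatC n τ := ⟨h.1, isNat_irr h.2⟩

/-- being a character, in the language of `UCF` -/
private theorem b06_iff {n : ℕ} {f : UCF F} (hf : Deg f n) :
    NatC n f ↔ ∀ τ ∈ IrrC F n, ∃ k : ℕ, ipn n f τ = k := by
  constructor
  · intro h τ hτ
    exact h.2.2 _ hτ.2
  · intro h
    refine ⟨hf, gl_isCF f n, fun χ hχ => ?_⟩
    obtain ⟨τ, hτ, rfl⟩ := (irrC_ncard (F := F) n).surjOn hχ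
    exact h τ hτ

theorem natC_of {n : ℕ} {f : UCF F} (hf : Deg f n) (h : ∀ τ ∈ IrrC F n, ∃ k : ℕ, ipn n f τ = k) :
    NatC n f := (b06_iff hf).2 h

theorem natC_zero (n : ℕ) : NatC n (0 : UCF F) :=
  natC_of (deg_zero n) fun τ _ => ⟨0, by rw [ipn_zero_left, Nat.cast_zero]⟩

theorem natC_add {n : ℕ} {f g : UCF F} (hf : NatC n f) (hg : NatC n g) : NatC n (f + g) :=
  ⟨deg_add hf.1 hg.1, isNat_add hf.2 hg.2⟩

theorem natC_sum {n : ℕ} {ι : Type*} (s : Finset ι) (f : ι → UCF F) (hf : ∀ i ∈ s, NatC n (f i)) :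
    NatC n (∑ i ∈ s, f i) := by
  classical
  induction s using Finset.induction_on with
  | empty => rw [Finset.sum_empty]; exact natC_zero n
  | insert a s ha ih =>
    rw [Finset.sum_insert ha]
    exact natC_add (hf a (Finset.mem_insert_self a s))
      (ih fun i hi => hf i (Finset.mem_insert_of_mem hi))

theorem natC_ip {n : ℕ} {f g : UCF F} (hf : NatC n f) (hg : NatC n g) :
    ∃ k : ℕ, ipn n f g = k := isNat_ip hf.2 hg.2

/-- the inner product of characters is symmetric -/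
theorem natC_symm {n : ℕ} {f g : UCF F} (hf : NatC n f) (hg : NatC n g) :
    ipn n f g = ipn n g f := by
  obtain ⟨k, hk⟩ := natC_ip hf hg
  rw [ipn_conj n f g, hk, Complex.conj_natCast]

private theorem b06_gl_ne {n : ℕ} {f : UCF F} (hf : Deg f n) (h0 : f ≠ 0) : f.gl n ≠ 0 := by
  intro h
  exact h0 (ext_deg hf (deg_zero n) fun x => congrFun h x)

theorem natC_exists {n : ℕ} {f : UCF F} (hf : NatC n f) (h0 : f ≠ 0) :
    ∃ τ ∈ IrrC F n, ipn n f τ ≠ 0 := by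
  obtain ⟨χ, hχ, h⟩ := isNat_exists hf.2 (b06_gl_ne hf.1 h0)
  obtain ⟨τ, hτ, rfl⟩ := (irrC_ncard (F := F) n).surjOn hχ
  exact ⟨τ, hτ, h⟩

/-- `isNat_sub`. -/
theorem natC_split {n : ℕ} {f τ : UCF F} (hf : NatC n f) (hτ : τ ∈ IrrC F n)
    (h0 : ipn n f τ ≠ 0) : ∃ f' : UCF F, NatC n f' ∧ f = τ + f' := by
  have h1 := isNat_sub hf.2 hτ.2 h0
  refine ⟨f - τ, ⟨?_, ?_⟩, by abel⟩
  · intro V _ _ x hx
    rw [sub_val, hf.1 V x hx, hτ.1 V x hx, sub_zero]
  · have h2 : (f - τ).gl n = f.gl n - τ.gl n := by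
      funext x
      exact sub_val _ _ _
    rw [h2]
    exact h1

theorem irrC_of_norm_one {n : ℕ} {f : UCF F} (hf : NatC n f) (h : ipn n f f = 1) :
    f ∈ IrrC F n := ⟨hf.1, irr_of_isNat hf.2 h⟩

private theorem b06_parseval {n : ℕ} {f g : UCF F} (hf : NatC n f) (hg : NatC n g) :
    ∃ a b : UCF F → ℕ, (∀ τ ∈ IrrC F n, ipn n f τ = a τ) ∧ (∀ τ ∈ IrrC F n, ipn n g τ = b τ) ∧
      ipn n f g = ((∑ τ ∈ irrF F n, a τ * b τ : ℕ) : ℂ) := by
  have h1 : ∀ f : UCF F, NatC n f → ∀ τ : UCF F, ∃ k : ℕ, τ ∈ IrrC F n → ipn n f τ = k := by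
    intro f hf τ
    by_cases hτ : τ ∈ IrrC F n
    · obtain ⟨k, hk⟩ := natC_ip hf (natC_irr hτ)
      exact ⟨k, fun _ => hk⟩
    · exact ⟨0, fun h => absurd h hτ⟩
  choose a ha using h1 f hf
  choose b hb using h1 g hg
  refine ⟨a, b, ha, hb, ?_⟩
  rw [ucf_parseval hf.1 hg.1]
  push_cast
  refine Finset.sum_congr rfl fun τ hτ => ?_
  rw [ha τ (mem_irrF.1 hτ), hb τ (mem_irrF.1 hτ), Complex.conj_natCast]

/-- two characters with a common constituent -/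
theorem ipn_ne_zero_of {n : ℕ} {f g τ : UCF F} (hf : NatC n f) (hg : NatC n g)
    (hτ : τ ∈ IrrC F n) (h1 : ipn n f τ ≠ 0) (h2 : ipn n g τ ≠ 0) : ipn n f g ≠ 0 := by
  obtain ⟨a, b, ha, hb, h⟩ := b06_parseval hf hg
  rw [h, Nat.cast_ne_zero]
  intro h0
  rw [Finset.sum_eq_zero_iff] at h0
  rw [ha τ hτ, Nat.cast_ne_zero] at h1
  rw [hb τ hτ, Nat.cast_ne_zero] at h2
  exact Nat.mul_ne_zero h1 h2 (h0 τ (mem_irrF.2 hτ))

theorem exists_common {n : ℕ} {f g : UCF F} (hf : NatC n f) (hg : NatC n g)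
    (h : ipn n f g ≠ 0) : ∃ τ ∈ IrrC F n, ipn n f τ ≠ 0 ∧ ipn n g τ ≠ 0 := by
  rw [ucf_parseval hf.1 hg.1] at h
  obtain ⟨τ, hτ, h1⟩ := Finset.exists_ne_zero_of_sum_ne_zero h
  refine ⟨τ, mem_irrF.1 hτ, left_ne_zero_of_mul h1, fun h2 => right_ne_zero_of_mul h1 ?_⟩
  rw [h2, map_zero]

theorem natC_dim {n : ℕ} {f : UCF F} (hf : NatC n f) : ∃ d : ℕ, f.gl n 1 = d := isNat_deg hf.2

theorem irrC_dim {n : ℕ} {f : UCF F} (hf : f ∈ IrrC F n) :
    ∃ d : ℕ, 0 < d ∧ f.gl n 1 = d ∧ d ∣ Nat.card (Matrix.GeneralLinearGroup (Fin n) F) := by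
  obtain ⟨d, hd, h⟩ := irr_deg hf.2
  exact ⟨d, hd, h, irr_deg_dvd hf.2 d h⟩

private theorem b06_one_gl : (1 : UCF F).gl 0 = fun _ => 1 := by
  funext x
  show (1 : UCF F).val _ = 1
  rw [one_val, if_pos (inferInstance : Subsingleton (Fin 0 → F))]

theorem ipn_one : ipn 0 (1 : UCF F) 1 = 1 := by
  have hs : Subsingleton (Matrix.GeneralLinearGroup (Fin 0) F) :=
    ⟨fun a b => Units.ext (Subsingleton.elim _ _)⟩
  unfold ipn ip
  rw [b06_one_gl]
  simp only [map_one, mul_one]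
  have : Fintype (Matrix.GeneralLinearGroup (Fin 0) F) := Fintype.ofFinite _
  rw [finsum_eq_sum_of_fintype, Finset.sum_const, Finset.card_univ, ← Nat.card_eq_fintype_card,
    nsmul_eq_mul, mul_one, inv_mul_cancel₀]
  exact Nat.cast_ne_zero.2 Nat.card_pos.ne'

private theorem b06_mul_one (f : UCF F) (hf : Deg f 0) : f = f.gl 0 1 • (1 : UCF F) := by
  refine ext_deg hf (deg_smul deg_one _) fun x => ?_
  have h1 : (f.gl 0 1 • (1 : UCF F)).gl 0 x = f.gl 0 1 * (1 : UCF F).gl 0 x := rfl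
  have h2 : x = 1 := Units.ext (Subsingleton.elim _ _)
  rw [h1, b06_one_gl, mul_one, h2]

/-- An element of degree `0` is a multiple of `1`. -/
theorem deg_zero_eq {f : UCF F} (hf : Deg f 0) : f = ipn 0 f 1 • 1 := by
  have h1 := b06_mul_one f hf
  have h2 : ipn 0 f 1 = f.gl 0 1 := by
    conv_lhs => rw [h1]
    rw [ipn_smul_left, ipn_one, mul_one]
  rw [h2]
  exact h1

private theorem b06_irr_one {τ : UCF F} (hτ : τ ∈ IrrC F 0) : τ = 1 := by
  have h1 := b06_mul_one τ hτ.1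
  obtain ⟨d, hd, h2⟩ := irr_deg hτ.2
  have h3 : ipn 0 τ τ = 1 := by
    classical
    rw [ipn_irr hτ hτ, if_pos rfl]
  rw [h2] at h1
  rw [h1, ipn_smul_left, ipn_smul_right, ipn_one, Complex.conj_natCast, mul_one] at h3
  have h4 : d * d = 1 := by exact_mod_cast h3
  have h5 : d = 1 := by nlinarith
  rw [h1, h5, Nat.cast_one, one_smul]

private theorem b06_one_mem : (1 : UCF F) ∈ IrrC F 0 := by
  have h1 : (1 : UCF F) ≠ 0 := by
    intro h
    have := ipn_one (F := F)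
    rw [h, ipn_zero_left] at this
    exact zero_ne_one this
  have h2 : ∃ τ ∈ IrrC F 0, ipn 0 (1 : UCF F) τ ≠ 0 := by
    by_contra hc
    push Not at hc
    have h3 := ucf_expand (F := F) deg_one
    rw [Finset.sum_eq_zero] at h3
    · exact h1 h3
    · intro τ hτ
      rw [hc τ (mem_irrF.1 hτ), zero_smul]
  obtain ⟨τ, hτ, _⟩ := h2
  rwa [← b06_irr_one hτ]

/-- `GL_0(F)` is trivial. -/
theorem irrC_zero : IrrC F 0 = {1} := by
  ext τ
  rw [Set.mem_singleton_iff]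
  constructor
  · exact b06_irr_one
  · rintro rfl
    exact b06_one_mem

theorem natC_one : NatC 0 (1 : UCF F) := natC_irr b06_one_mem

end Pool.Agent.Lib.MP_fa0f6c_al.Cx.B
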