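import Mathlib
import Pool.Agent.Lib.MP_fa0f6c_al.Cx.Defs
import Pool.Agent.Lib.MP_fa0f6c_al.Cx.BDefs
import Pool.Agent.Lib.MP_fa0f6c_al.Cx.BAlg

/-! Elementary facts on `rs`. -/

set_option autoImplicit false

namespace Pool.Agent.Lib.MP_fa0f6c_al.Cx.B

open scoped ComplexConjugate

variable {F : Type} [Field F]

section
variable {A B A' B' : Type} [AddCommGroup A] [Module F A] [AddCommGroup B] [Module F B]
  [AddCommGroup A'] [Module F A'] [AddCommGroup B'] [Module F B']

/-- HINT: `tri x y φ` and `tri x' y' (ea ∘ φ ∘ eb⁻¹)` are conjugate under `ea.prodCongr eb`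
(`LinearEquiv.prodCongr`); substitute in the sum over `φ`. -/
theorem rs_inv (h : UCF F) (ea : A ≃ₗ[F] A') (eb : B ≃ₗ[F] B') (x : A →ₗ[F] A)
    (x' : A' →ₗ[F] A') (y : B →ₗ[F] B) (y' : B' →ₗ[F] B') (hx : ∀ v, ea (x v) = x' (ea v))
    (hy : ∀ v, eb (y v) = y' (eb v)) : rs h x y = rs h x' y' := by
  unfold rs
  have e : (B →ₗ[F] A) ≃ (B' →ₗ[F] A') := (LinearEquiv.arrowCongr eb ea).toEquiv
  rw [Nat.card_congr (LinearEquiv.arrowCongr eb ea).toEquiv]
  congr 1
  rw [← finsum_comp_equiv (LinearEquiv.arrowCongr eb ea).toEquiv]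
  refine finsum_congr fun φ => ?_
  refine h.inv (ea.prodCongr eb) _ _ fun v => ?_
  refine Prod.ext ?_ ?_
  · show ea (x v.1 + φ v.2) = x' (ea v.1) + (LinearEquiv.arrowCongr eb ea φ) (eb v.2)
    rw [map_add, hx, LinearEquiv.arrowCongr_apply, LinearEquiv.symm_apply_apply]
  · exact hy v.2

/-- HINT: `tri x y φ` is bijective iff `x` and `y` are (for finite `A`, `B`). -/
theorem tri_bijective [Finite A] [Finite B] (x : A →ₗ[F] A) (y : B →ₗ[F] B) (φ : B →ₗ[F] A) :
    Function.Bijective (tri x y φ) ↔ Function.Bijective x ∧ Function.Bijective y := by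
  constructor
  · intro hb
    constructor
    · rw [← Finite.injective_iff_bijective]
      intro a a' haa
      have h1 : tri x y φ (a, 0) = tri x y φ (a', 0) := by
        rw [tri_apply, tri_apply]
        simp only [haa]
      exact (Prod.mk.inj (hb.1 h1)).1
    · rw [← Finite.surjective_iff_bijective]
      intro b
      obtain ⟨v, hv⟩ := hb.2 (0, b)
      rw [tri_apply] at hv
      exact ⟨v.2, (Prod.mk.inj hv).2⟩
  · rintro ⟨h1, h2⟩
    rw [← Finite.injective_iff_bijective]
    rintro ⟨a, b⟩ ⟨a', b'⟩ hab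
    rw [tri_apply, tri_apply] at hab
    obtain ⟨h3, h4⟩ := Prod.mk.inj hab
    have hb : b = b' := h2.1 h4
    subst hb
    have ha : a = a' := h1.1 (add_right_cancel h3)
    rw [ha]

theorem rs_supp (h : UCF F) (x : A →ₗ[F] A) (y : B →ₗ[F] B)
    (hxy : ¬ (Finite A ∧ Finite B ∧ Function.Bijective x ∧ Function.Bijective y)) :
    rs h x y = 0 := by
  unfold rs
  rw [finsum_eq_zero_of_forall_eq_zero, mul_zero]
  intro φ
  refine h.supp _ fun h1 => hxy ?_
  have hA : Finite A := by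
    have := h1.1
    exact Finite.of_injective (fun a : A => (a, (0 : B))) fun a a' haa => (Prod.mk.inj haa).1
  have hB : Finite B := by
    have := h1.1
    exact Finite.of_injective (fun b : B => ((0 : A), b)) fun b b' hbb => (Prod.mk.inj hbb).2
  exact ⟨hA, hB, (tri_bijective x y φ).1 h1.2⟩

private theorem b07_finite_hom [Finite A] [Finite B] : Finite (B →ₗ[F] A) :=
  Finite.of_injective (fun f : B →ₗ[F] A => (f : B → A)) DFunLike.coe_injective

/-- HINT: if `A` and `B` are finite the sums are finite; otherwise everything is `0` (`rs_supp`). -/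
theorem rs_add (f g : UCF F) (x : A →ₗ[F] A) (y : B →ₗ[F] B) :
    rs (f + g) x y = rs f x y + rs g x y := by
  by_cases hfin : Finite A ∧ Finite B
  · obtain ⟨hA, hB⟩ := hfin
    have : Finite (B →ₗ[F] A) := b07_finite_hom
    unfold rs
    rw [← mul_add, ← finsum_add_distrib (Set.toFinite _) (Set.toFinite _)]
    rfl
  · rw [rs_supp (f + g) x y (fun h => hfin ⟨h.1, h.2.1⟩), rs_supp f x y (fun h => hfin ⟨h.1, h.2.1⟩),
      rs_supp g x y (fun h => hfin ⟨h.1, h.2.1⟩), add_zero]

theorem rs_smul (c : ℂ) (f : UCF F) (x : A →ₗ[F] A) (y : B →ₗ[F] B) :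
    rs (c • f) x y = c * rs f x y := by
  by_cases hfin : Finite A ∧ Finite B
  · obtain ⟨hA, hB⟩ := hfin
    have : Finite (B →ₗ[F] A) := b07_finite_hom
    unfold rs
    rw [mul_left_comm]
    congr 1
    rw [mul_finsum' _ _ (Set.toFinite _)]
    rfl
  · rw [rs_supp (c • f) x y (fun h => hfin ⟨h.1, h.2.1⟩), rs_supp f x y (fun h => hfin ⟨h.1, h.2.1⟩),
      mul_zero]

theorem rs_sum {ι : Type*} (s : Finset ι) (f : ι → UCF F) (x : A →ₗ[F] A) (y : B →ₗ[F] B) :
    rs (∑ i ∈ s, f i) x y = ∑ i ∈ s, rs (f i) x y := by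
  classical
  induction s using Finset.induction_on with
  | empty =>
    rw [Finset.sum_empty, Finset.sum_empty]
    unfold rs
    have h0 : ∀ φ : B →ₗ[F] A, (0 : UCF F).val (tri x y φ) = 0 := fun φ => rfl
    rw [finsum_congr h0, finsum_zero, mul_zero]
  | insert a s ha ih =>
    rw [Finset.sum_insert ha, Finset.sum_insert ha, rs_add, ih]

theorem rs_deg {h : UCF F} {n : ℕ} (hh : Deg h n) (x : A →ₗ[F] A) (y : B →ₗ[F] B)
    (hn : Module.finrank F A + Module.finrank F B ≠ n) : rs h x y = 0 := by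
  by_cases hfin : Finite A ∧ Finite B
  · obtain ⟨hA, hB⟩ := hfin
    have : Module.Finite F A := Module.Finite.of_finite
    have : Module.Finite F B := Module.Finite.of_finite
    unfold rs
    rw [finsum_eq_zero_of_forall_eq_zero, mul_zero]
    intro φ
    refine hh (A × B) _ ?_
    rw [Module.finrank_prod]
    exact hn
  · exact rs_supp h x y (fun h => hfin ⟨h.1, h.2.1⟩)

/-- `A` trivial: HINT: `B →ₗ A` has one element and `A × B ≃ B`. -/
theorem rs_left_trivial [Subsingleton A] (h : UCF F) (x : A →ₗ[F] A) (y : B →ₗ[F] B) :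
    rs h x y = h.val y := by
  have hs : Subsingleton (B →ₗ[F] A) := ⟨fun f g => LinearMap.ext fun b => Subsingleton.elim _ _⟩
  have hu : Unique (B →ₗ[F] A) := ⟨⟨0⟩, fun f => Subsingleton.elim _ _⟩
  have hA : Unique A := ⟨⟨0⟩, fun f => Subsingleton.elim _ _⟩
  unfold rs
  rw [Nat.card_unique, Nat.cast_one, inv_one, one_mul, finsum_unique]
  exact h.inv LinearEquiv.uniqueProd _ _ fun v => rfl

theorem rs_right_trivial [Subsingleton B] (h : UCF F) (x : A →ₗ[F] A) (y : B →ₗ[F] B) :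
    rs h x y = h.val x := by
  have hs : Subsingleton (B →ₗ[F] A) := ⟨fun f g => LinearMap.ext fun b => by
    rw [Subsingleton.elim b 0, map_zero, map_zero]⟩
  have hu : Unique (B →ₗ[F] A) := ⟨⟨0⟩, fun f => Subsingleton.elim _ _⟩
  have hB : Unique B := ⟨⟨0⟩, fun f => Subsingleton.elim _ _⟩
  unfold rs
  rw [Nat.card_unique, Nat.cast_one, inv_one, one_mul, finsum_unique]
  refine h.inv LinearEquiv.prodUnique _ _ fun v => ?_
  have h1 : ∀ v : A × B, (LinearEquiv.prodUnique : (A × B) ≃ₗ[F] A) v = v.1 := fun v => rfl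
  rw [h1, h1, tri_apply, Subsingleton.elim v.2 0, map_zero, add_zero]

end

end Pool.Agent.Lib.MP_fa0f6c_al.Cx.B
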