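import Mathlib
import Pool.Agent.Lib.MP_fa0f6c_al.Cx.Defs
import Pool.Agent.Lib.MP_fa0f6c_al.Cx.BDefs
import Pool.Agent.Lib.MP_fa0f6c_al.Cx.B07
import Pool.Agent.Lib.MP_fa0f6c_al.Cx.R06
import Pool.Agent.Lib.MP_fa0f6c_al.Cx.R12

set_option autoImplicit false

namespace Pool.Agent.Lib.MP_fa0f6c_al.Cx.B

open scoped ComplexConjugate

variable {F : Type} [Field F]

variable {A B : Type} [AddCommGroup A] [Module F A] [AddCommGroup B] [Module F B]

/-- `tri` of automorphisms as an automorphism -/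
noncomputable def triE (x : A ≃ₗ[F] A) (y : B ≃ₗ[F] B) (φ : B →ₗ[F] A) :
    (A × B) ≃ₗ[F] (A × B) :=
  LinearEquiv.ofBijective (tri (x : A →ₗ[F] A) (y : B →ₗ[F] B) φ) (by
    constructor
    · rintro ⟨a, b⟩ ⟨a', b'⟩ h
      simp only [tri_apply, Prod.mk.injEq, LinearEquiv.coe_coe] at h
      have hb : b = b' := y.injective h.2
      subst hb
      have ha : a = a' := x.injective (add_right_cancel h.1)
      rw [ha]
    · rintro ⟨a, b⟩
      refine ⟨(x.symm (a - φ (y.symm b)), y.symm b), ?_⟩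
      simp)

@[simp] theorem triE_apply (x : A ≃ₗ[F] A) (y : B ≃ₗ[F] B) (φ : B →ₗ[F] A) (v : A × B) :
    triE x y φ v = (x v.1 + φ v.2, y v.2) := rfl

theorem triE_coe (x : A ≃ₗ[F] A) (y : B ≃ₗ[F] B) (φ : B →ₗ[F] A) :
    ((triE x y φ : (A × B) ≃ₗ[F] (A × B)) : (A × B) →ₗ[F] (A × B)) =
      tri (x : A →ₗ[F] A) (y : B →ₗ[F] B) φ := rfl

/-- The parabolic subgroup of `GL(A × B)`. -/
def parab (F A B : Type) [Field F] [AddCommGroup A] [Module F A] [AddCommGroup B] [Module F B] :
    Set ((A × B) ≃ₗ[F] (A × B)) :=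
  {x | ∀ a : A, (x (a, 0)).2 = 0}

/-- HINT: `x (a, b) = x (a, 0) + x (0, b)`; the corner maps are injective on the finite spaces. -/
theorem parab_bij [Finite A] [Finite B] :
    Set.BijOn (fun p : (A ≃ₗ[F] A) × (B ≃ₗ[F] B) × (B →ₗ[F] A) => triE p.1 p.2.1 p.2.2)
      Set.univ (parab F A B) := by
  refine ⟨?_, ?_, ?_⟩
  · rintro ⟨x, y, φ⟩ -
    intro a
    simp
  · rintro ⟨x, y, φ⟩ - ⟨x', y', φ'⟩ - h
    have h1 : ∀ v : A × B, triE x y φ v = triE x' y' φ' v := fun v => by
      have := congrArg (fun e : (A × B) ≃ₗ[F] (A × B) => e v) h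
      exact this
    have hx : x = x' := by
      ext a
      have := congrArg Prod.fst (h1 (a, 0))
      simpa using this
    have hy : y = y' := by
      ext b
      have := congrArg Prod.snd (h1 (0, b))
      simpa using this
    have hφ : φ = φ' := by
      ext b
      have := congrArg Prod.fst (h1 (0, b))
      simpa using this
    rw [hx, hy, hφ]
  · intro X hX
    have hX' : ∀ a : A, (X (a, 0)).2 = 0 := hX
    have hadd : ∀ (a : A) (b : B), X (a, b) = X (a, 0) + X (0, b) := by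
      intro a b
      rw [← map_add]
      simp
    let x : A →ₗ[F] A := (LinearMap.fst F A B).comp ((X : (A × B) →ₗ[F] (A × B)).comp
      (LinearMap.inl F A B))
    let y : B →ₗ[F] B := (LinearMap.snd F A B).comp ((X : (A × B) →ₗ[F] (A × B)).comp
      (LinearMap.inr F A B))
    let φ : B →ₗ[F] A := (LinearMap.fst F A B).comp ((X : (A × B) →ₗ[F] (A × B)).comp
      (LinearMap.inr F A B))
    have hx : Function.Injective x := by
      intro a a' h
      have h1 : X (a, 0) = X (a', 0) := Prod.ext h ((hX' a).trans (hX' a').symm)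
      exact congrArg Prod.fst (X.injective h1)
    have hy : Function.Surjective y := by
      intro b
      obtain ⟨⟨a, b'⟩, h⟩ := X.surjective (0, b)
      refine ⟨b', ?_⟩
      have h1 := congrArg Prod.snd (hadd a b')
      rw [h, Prod.snd_add, hX', zero_add] at h1
      exact h1.symm
    refine ⟨(LinearEquiv.ofBijective x ⟨hx, Finite.surjective_of_injective hx⟩,
      LinearEquiv.ofBijective y ⟨Finite.injective_iff_surjective.2 hy, hy⟩, φ),
      Set.mem_univ _, ?_⟩
    ext v
    · obtain ⟨a, b⟩ := v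
      simp only [triE_apply, LinearEquiv.ofBijective_apply]
      have := congrArg Prod.fst (hadd a b)
      rw [Prod.fst_add] at this
      exact this.symm
    · obtain ⟨a, b⟩ := v
      simp only [triE_apply, LinearEquiv.ofBijective_apply]
      have := congrArg Prod.snd (hadd a b)
      rw [Prod.snd_add, hX', zero_add] at this
      exact this.symm

theorem triE_mul (x x' : A ≃ₗ[F] A) (y y' : B ≃ₗ[F] B) (φ φ' : B →ₗ[F] A) :
    triE x y φ * triE x' y' φ' =
      triE (x * x') (y * y') ((x : A →ₗ[F] A).comp φ' + φ.comp (y' : B →ₗ[F] B)) := by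
  ext v
  · simp [LinearEquiv.mul_apply, add_assoc]
  · simp [LinearEquiv.mul_apply]

/-- the parabolic subgroup as a group -/
private noncomputable def B08_Q (F A B : Type) [Field F] [AddCommGroup A] [Module F A]
    [AddCommGroup B] [Module F B] [Finite A] : Subgroup ((A × B) ≃ₗ[F] (A × B)) where
  carrier := parab F A B
  one_mem' := fun a => rfl
  mul_mem' := by
    intro X Y hX hY a
    have hY' : (Y (a, 0)).2 = 0 := hY a
    have h1 : Y (a, 0) = ((Y (a, 0)).1, 0) := Prod.ext rfl hY'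
    rw [LinearEquiv.mul_apply, h1]
    exact hX _
  inv_mem' := by
    intro X hX a
    have hX' : ∀ a : A, (X (a, 0)).2 = 0 := hX
    have hinj : Function.Injective (fun a : A => (X (a, 0)).1) := by
      intro a a' h
      have h1 : X (a, 0) = X (a', 0) := Prod.ext h ((hX' a).trans (hX' a').symm)
      exact congrArg Prod.fst (X.injective h1)
    obtain ⟨a', ha'⟩ := Finite.surjective_of_injective hinj a
    have h1 : X (a', 0) = (a, 0) := Prod.ext ha' (hX' a')
    have h2 : X⁻¹ (a, 0) = (a', 0) := by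
      rw [← h1]
      exact X.symm_apply_apply _
    rw [h2]

/-- Restriction to the Levi subgroup of the average over the unipotent radical of a character is a
character. HINT: let `Q` be the group of all triples (a subgroup of `GL(A × B)` with underlying set
`parab`), `π : Q →* GL(A) × GL(B)` the projection, surjective, all fibres have `|B →ₗ A|` elements.
`IsCF` by `rs_inv` (`f.inv`). For `ξ ∈ Irr (GL(A) × GL(B))`: `ip (rs h) ξ = ip (h|Q) (ξ ∘ π)`, `h|Q` is a
character (`isNat_comp`), `ξ ∘ π ∈ Irr Q` (`irr_infl`), so it is a natural number (`isNat_ip`). -/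
theorem rs_isNat [Finite A] [Finite B] (h : UCF F) (hh : IsNat (h.on (A × B))) :
    IsNat (fun p : (A ≃ₗ[F] A) × (B ≃ₗ[F] B) =>
      rs h (p.1 : A →ₗ[F] A) (p.2 : B →ₗ[F] B)) := by
  classical
  have fA : Finite (A ≃ₗ[F] A) :=
    Finite.of_injective (fun e : A ≃ₗ[F] A => (e : A → A)) DFunLike.coe_injective
  have fB : Finite (B ≃ₗ[F] B) :=
    Finite.of_injective (fun e : B ≃ₗ[F] B => (e : B → B)) DFunLike.coe_injective
  have fAB : Finite ((A × B) ≃ₗ[F] (A × B)) :=
    Finite.of_injective (fun e : (A × B) ≃ₗ[F] (A × B) => (e : A × B → A × B))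
      DFunLike.coe_injective
  have fH : Finite (B →ₗ[F] A) :=
    Finite.of_injective (fun e : B →ₗ[F] A => (e : B → A)) DFunLike.coe_injective
  refine ⟨?_, fun ξ hξ => ?_⟩
  · rintro ⟨p, q⟩ ⟨p', q'⟩
    refine rs_inv h p' q' _ _ _ _ (fun v => ?_) fun v => ?_
    · simp
    · simp
  -- the parametrisation of the parabolic subgroup
  let Q := B08_Q F A B
  have hbij := parab_bij (F := F) (A := A) (B := B)
  let E : (A ≃ₗ[F] A) × (B ≃ₗ[F] B) × (B →ₗ[F] A) → Q := fun p =>
    ⟨triE p.1 p.2.1 p.2.2, hbij.mapsTo (Set.mem_univ p)⟩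
  have hE : Function.Bijective E := by
    constructor
    · intro p p' hpp
      exact hbij.injOn (Set.mem_univ _) (Set.mem_univ _) (congrArg Subtype.val hpp)
    · rintro ⟨X, hX⟩
      obtain ⟨p, -, hp⟩ := hbij.surjOn hX
      exact ⟨p, Subtype.ext hp⟩
  let e := Equiv.ofBijective E hE
  have he : ∀ p, e p = E p := fun p => rfl
  have hmul : ∀ p p' : (A ≃ₗ[F] A) × (B ≃ₗ[F] B) × (B →ₗ[F] A), e p * e p' =
      e (p.1 * p'.1, p.2.1 * p'.2.1, (p.1 : A →ₗ[F] A).comp p'.2.2 +
        p.2.2.comp (p'.2.1 : B →ₗ[F] B)) := by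
    intro p p'
    apply Subtype.ext
    exact triE_mul _ _ _ _ _ _
  let π : Q →* (A ≃ₗ[F] A) × (B ≃ₗ[F] B) :=
    MonoidHom.mk' (fun X => ((e.symm X).1, (e.symm X).2.1)) (by
      intro X Y
      obtain ⟨p, rfl⟩ := e.surjective X
      obtain ⟨p', rfl⟩ := e.surjective Y
      rw [hmul]
      simp only [Equiv.symm_apply_apply]
      rfl)
  have hπ : ∀ p, π (e p) = (p.1, p.2.1) := by
    intro p
    change ((e.symm (e p)).1, (e.symm (e p)).2.1) = (p.1, p.2.1)
    rw [Equiv.symm_apply_apply]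
  have hπs : Function.Surjective π := by
    rintro ⟨x, y⟩
    exact ⟨e (x, y, 0), hπ _⟩
  have h1 : IsNat (fun X : Q => (h.on (A × B)) (Q.subtype X)) := isNat_comp Q.subtype hh
  have h2 : (fun X : Q => ξ (π X)) ∈ Irr Q := irr_infl π hπs hξ
  obtain ⟨n, hn⟩ := isNat_ip h1 (isNat_irr h2)
  refine ⟨n, ?_⟩
  rw [← hn]
  have iA : Fintype (A ≃ₗ[F] A) := Fintype.ofFinite _
  have iB : Fintype (B ≃ₗ[F] B) := Fintype.ofFinite _
  have iH : Fintype (B →ₗ[F] A) := Fintype.ofFinite _
  have iQ : Fintype Q := Fintype.ofFinite _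
  unfold ip rs
  rw [finsum_eq_sum_of_fintype, finsum_eq_sum_of_fintype]
  simp only [finsum_eq_sum_of_fintype]
  have hcQ : (Nat.card Q : ℂ) = (Nat.card ((A ≃ₗ[F] A) × (B ≃ₗ[F] B)) : ℂ) *
      (Nat.card (B →ₗ[F] A) : ℂ) := by
    rw [← Nat.card_congr e, Nat.card_prod, Nat.card_prod, Nat.card_prod]
    push_cast
    ring
  rw [hcQ, mul_inv, mul_assoc]
  congr 1
  rw [← e.sum_comp, Fintype.sum_prod_type, Fintype.sum_prod_type, Finset.mul_sum]
  refine Finset.sum_congr rfl fun x _ => ?_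
  rw [Fintype.sum_prod_type, Finset.mul_sum]
  refine Finset.sum_congr rfl fun y _ => ?_
  rw [mul_assoc]
  congr 1
  rw [Finset.sum_mul]
  refine Finset.sum_congr rfl fun φ _ => ?_
  rw [hπ]
  rfl

end Pool.Agent.Lib.MP_fa0f6c_al.Cx.B
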