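import Mathlib
import Pool.Agent.Lib.MP_fa0f6c_al.Cx.Defs
import Pool.Agent.Lib.MP_fa0f6c_al.Cx.BDefs
import Pool.Agent.Lib.MP_fa0f6c_al.Cx.BAlg
import Pool.Agent.Lib.MP_fa0f6c_al.Cx.B08

/-! Frobenius reciprocity for the Harish-Chandra product. -/

set_option autoImplicit false

namespace Pool.Agent.Lib.MP_fa0f6c_al.Cx.B

open scoped ComplexConjugate

variable {F : Type} [Field F]

private theorem b09_finE {V : Type} [AddCommGroup V] [Module F V] [Finite V] :
    Finite (V ≃ₗ[F] V) :=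
  Finite.of_injective (fun e : V ≃ₗ[F] V => (e : V → V)) DFunLike.coe_injective

/-- Orbit-stabiliser. HINT: `GL(V)` acts transitively on the subspaces of given dimension: complements
and `LinearEquiv.ofFinrankEq`; `MulAction.card_orbit_mul_card_stabilizer_eq_card_group` or count the fibres
of `x ↦ W₀.map x` directly. -/
theorem count_sub {V : Type} [AddCommGroup V] [Module F V] [Finite V] (W₀ : Submodule F V) :
    (∀ W : Submodule F V, Module.finrank F W = Module.finrank F W₀ →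
      ∃ t : V ≃ₗ[F] V, W₀.map (t : V →ₗ[F] V) = W) ∧
    Nat.card {W : Submodule F V // Module.finrank F W = Module.finrank F W₀} *
      Nat.card {x : V ≃ₗ[F] V // W₀.map (x : V →ₗ[F] V) = W₀} = Nat.card (V ≃ₗ[F] V) := by
  classical
  have h1 : ∀ W : Submodule F V, Module.finrank F W = Module.finrank F W₀ →
      ∃ t : V ≃ₗ[F] V, W₀.map (t : V →ₗ[F] V) = W := by
    intro W hW
    obtain ⟨C₀, hC₀⟩ := Submodule.exists_isCompl W₀
    obtain ⟨C, hC⟩ := Submodule.exists_isCompl W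
    have e1 := Submodule.finrank_add_eq_of_isCompl hC₀
    have e2 := Submodule.finrank_add_eq_of_isCompl hC
    have e3 : Module.finrank F C₀ = Module.finrank F C := by omega
    let a := LinearEquiv.ofFinrankEq W₀ W hW.symm
    let c := LinearEquiv.ofFinrankEq C₀ C e3
    let t : V ≃ₗ[F] V := (Submodule.prodEquivOfIsCompl W₀ C₀ hC₀).symm.trans
      ((a.prodCongr c).trans (Submodule.prodEquivOfIsCompl W C hC))
    refine ⟨t, ?_⟩
    apply Submodule.eq_of_le_of_finrank_eq
    · rintro _ ⟨w, hw, rfl⟩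
      have e4 : (Submodule.prodEquivOfIsCompl W₀ C₀ hC₀).symm w = (⟨w, hw⟩, 0) := by
        rw [LinearEquiv.symm_apply_eq]
        simp
      have e5 : t w = a ⟨w, hw⟩ := by
        change (Submodule.prodEquivOfIsCompl W C hC) ((a.prodCongr c)
          ((Submodule.prodEquivOfIsCompl W₀ C₀ hC₀).symm w)) = _
        rw [e4]
        simp
      change t w ∈ W
      rw [e5]
      exact (a ⟨w, hw⟩).2
    · rw [LinearEquiv.finrank_map_eq]
      exact hW.symm
  refine ⟨h1, ?_⟩
  choose! t ht using h1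
  rw [← Nat.card_prod]
  have hmap : ∀ x y : V ≃ₗ[F] V, ∀ W : Submodule F V,
      W.map ((x.trans y : V ≃ₗ[F] V) : V →ₗ[F] V) = (W.map (x : V →ₗ[F] V)).map (y : V →ₗ[F] V) := by
    intro x y W
    rw [← Submodule.map_comp]
    rfl
  let φ : {W : Submodule F V // Module.finrank F W = Module.finrank F W₀} ×
      {x : V ≃ₗ[F] V // W₀.map (x : V →ₗ[F] V) = W₀} → (V ≃ₗ[F] V) :=
    fun p => (p.2 : V ≃ₗ[F] V).trans (t p.1)
  have hφ : ∀ p, W₀.map ((φ p : V ≃ₗ[F] V) : V →ₗ[F] V) = p.1 := by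
    intro p
    change W₀.map (((p.2 : V ≃ₗ[F] V).trans (t p.1) : V ≃ₗ[F] V) : V →ₗ[F] V) = _
    rw [hmap, p.2.2, ht p.1 p.1.2]
  refine Nat.card_congr (Equiv.ofBijective φ ⟨?_, ?_⟩)
  · intro p q hpq
    have h2 : p.1 = q.1 := by
      apply Subtype.ext
      rw [← hφ p, ← hφ q, hpq]
    apply Prod.ext h2
    apply Subtype.ext
    have h3 : (p.2 : V ≃ₗ[F] V).trans (t p.1) = (q.2 : V ≃ₗ[F] V).trans (t q.1) := hpq
    rw [h2] at h3
    ext v
    have h4 := congrArg (fun e : V ≃ₗ[F] V => e v) h3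
    exact (t q.1).injective h4
  · intro y
    have h2 : Module.finrank F (W₀.map (y : V →ₗ[F] V)) = Module.finrank F W₀ :=
      LinearEquiv.finrank_map_eq y W₀
    have h3 := ht _ h2
    refine ⟨(⟨W₀.map (y : V →ₗ[F] V), h2⟩, ⟨y.trans (t (W₀.map (y : V →ₗ[F] V))).symm, ?_⟩), ?_⟩
    · rw [hmap]
      generalize t (W₀.map (y : V →ₗ[F] V)) = s at h3 ⊢
      rw [← h3, ← Submodule.map_comp]
      ext v
      constructor
      · rintro ⟨w, hw, rfl⟩
        simpa using hw
      · intro hv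
        exact ⟨v, hv, by simp⟩
    · ext v
      change (t (W₀.map (y : V →ₗ[F] V))) ((t (W₀.map (y : V →ₗ[F] V))).symm (y v)) = y v
      rw [LinearEquiv.apply_symm_apply]

/-- The term of the subspace `A × 0`. HINT: the restricted map is conjugate to `x`, the quotient map
to `y`. -/
theorem tm_top_bot {A B : Type} [AddCommGroup A] [Module F A] [AddCommGroup B] [Module F B]
    (f g : UCF F) (x : A →ₗ[F] A) (y : B →ₗ[F] B) (φ : B →ₗ[F] A) :
    tm f g (tri x y φ) ((⊤ : Submodule F A).prod (⊥ : Submodule F B)) = f.val x * g.val y := by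
  classical
  have hst : ∀ w ∈ (⊤ : Submodule F A).prod (⊥ : Submodule F B),
      tri x y φ w ∈ (⊤ : Submodule F A).prod (⊥ : Submodule F B) := by
    intro w hw
    rw [Submodule.mem_prod, Submodule.mem_bot] at hw
    rw [Submodule.mem_prod, Submodule.mem_bot, tri_apply]
    refine ⟨trivial, ?_⟩
    change y w.2 = 0
    rw [hw.2, map_zero]
  unfold tm
  rw [dif_pos hst]
  let e1 : ↥((⊤ : Submodule F A).prod (⊥ : Submodule F B)) ≃ₗ[F] A :=
    LinearEquiv.ofBijective ((LinearMap.fst F A B).comp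
      ((⊤ : Submodule F A).prod (⊥ : Submodule F B)).subtype) (by
      constructor
      · rintro ⟨⟨a, b⟩, h⟩ ⟨⟨a', b'⟩, h'⟩ hab
        have hb : b = 0 := h.2
        have hb' : b' = 0 := h'.2
        have ha : a = a' := hab
        subst ha
        subst hb
        subst hb'
        rfl
      · intro a
        exact ⟨⟨(a, 0), trivial, rfl⟩, rfl⟩)
  have hker : (⊤ : Submodule F A).prod (⊥ : Submodule F B) = LinearMap.ker (LinearMap.snd F A B) := by
    ext ⟨a, b⟩
    simp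
  let e2 : ((A × B) ⧸ ((⊤ : Submodule F A).prod (⊥ : Submodule F B))) ≃ₗ[F] B :=
    (Submodule.quotEquivOfEq _ _ hker).trans
      ((LinearMap.snd F A B).quotKerEquivOfSurjective Prod.snd_surjective)
  have h1 : f.val ((tri x y φ).restrict hst) = f.val x := by
    apply f.inv e1
    rintro ⟨⟨a, b⟩, h⟩
    have hb : b = 0 := h.2
    subst hb
    change x a + φ 0 = x a
    rw [map_zero, add_zero]
  have h2 : g.val (((⊤ : Submodule F A).prod (⊥ : Submodule F B)).mapQ
      ((⊤ : Submodule F A).prod (⊥ : Submodule F B)) (tri x y φ) hst) = g.val y := by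
    apply g.inv e2
    intro v
    induction v using Submodule.Quotient.induction_on with
    | H v => rfl
  rw [h1, h2]

/-- Frobenius reciprocity. HINT: with `V = A × B`, `G = GL(V)`, `W₀ = A × 0`:
`ip (f*g) h = |G|⁻¹ ∑_W ∑_x tm f g x W * conj (h x)`; only `W` with `finrank W = finrank A` contribute
(`hf`), they are `W₀.map t` and (`tm_inv`, `h.inv`, substitution `x ↦ t x t⁻¹`) each contributes the same as
`W₀`. For `W₀` only the `x ∈ parab F A B` contribute, i.e. `x = triE x₁ x₂ φ` (`parab_bij`), with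
`tm = f x₁ * g x₂` (`tm_top_bot`); the stabiliser of `W₀` is `parab F A B`, with
`|GL(A)| |GL(B)| |B →ₗ A|` elements. Now use `count_sub`. -/
theorem frobenius_mul {A B : Type} [AddCommGroup A] [Module F A] [AddCommGroup B] [Module F B]
    [Finite A] [Finite B] {f g : UCF F} (h : UCF F) (hf : Deg f (Module.finrank F A))
    (hg : Deg g (Module.finrank F B)) :
    ip ((f * g).on (A × B)) (h.on (A × B)) =
      ip (fun p : (A ≃ₗ[F] A) × (B ≃ₗ[F] B) =>
          f.val (p.1 : A →ₗ[F] A) * g.val (p.2 : B →ₗ[F] B))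
        (fun p : (A ≃ₗ[F] A) × (B ≃ₗ[F] B) =>
          rs h (p.1 : A →ₗ[F] A) (p.2 : B →ₗ[F] B)) := by
  classical
  have fA : Finite (A ≃ₗ[F] A) := b09_finE
  have fB : Finite (B ≃ₗ[F] B) := b09_finE
  have fV : Finite ((A × B) ≃ₗ[F] (A × B)) := b09_finE
  have fH : Finite (B →ₗ[F] A) :=
    Finite.of_injective (fun e : B →ₗ[F] A => (e : B → A)) DFunLike.coe_injective
  have iA := Fintype.ofFinite (A ≃ₗ[F] A)
  have iB := Fintype.ofFinite (B ≃ₗ[F] B)
  have iV := Fintype.ofFinite ((A × B) ≃ₗ[F] (A × B))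
  have iH := Fintype.ofFinite (B →ₗ[F] A)
  have iS := Fintype.ofFinite (Submodule F (A × B))
  set W₀ : Submodule F (A × B) := (⊤ : Submodule F A).prod ⊥ with hW₀
  have hmem0 : ∀ v : A × B, v ∈ W₀ ↔ v.2 = 0 := by
    intro v
    rw [hW₀, Submodule.mem_prod, Submodule.mem_bot]
    exact ⟨fun hv => hv.2, fun hv => ⟨trivial, hv⟩⟩
  have hfr : Module.finrank F W₀ = Module.finrank F A := by
    apply LinearEquiv.finrank_eq
    exact LinearEquiv.ofBijective ((LinearMap.fst F A B).comp W₀.subtype) (by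
      constructor
      · rintro ⟨⟨a, b⟩, h1⟩ ⟨⟨a', b'⟩, h1'⟩ hab
        have hb : b = 0 := (hmem0 _).1 h1
        have hb' : b' = 0 := (hmem0 _).1 h1'
        have ha : a = a' := hab
        subst ha
        subst hb
        subst hb'
        rfl
      · intro a
        exact ⟨⟨(a, 0), (hmem0 _).2 rfl⟩, rfl⟩)
  let T : Submodule F (A × B) → ℂ := fun W => ∑ x : (A × B) ≃ₗ[F] (A × B),
    tm f g (x : (A × B) →ₗ[F] (A × B)) W * conj (h.val (x : (A × B) →ₗ[F] (A × B)))
  have hT1 : ∀ W : Submodule F (A × B), Module.finrank F W ≠ Module.finrank F W₀ → T W = 0 := by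
    intro W hW
    refine Finset.sum_eq_zero fun x _ => ?_
    have h1 : tm f g (x : (A × B) →ₗ[F] (A × B)) W = 0 := by
      unfold tm
      split_ifs with h2
      · rw [hf W _ (by rwa [← hfr]), zero_mul]
      · rfl
    rw [h1, zero_mul]
  have hT2 : ∀ W : Submodule F (A × B), Module.finrank F W = Module.finrank F W₀ → T W = T W₀ := by
    intro W hW
    obtain ⟨t, ht⟩ := (count_sub W₀).1 W hW
    symm
    refine Fintype.sum_equiv (MulAut.conj t).toEquiv _ _ fun x => ?_
    have h1 : ∀ v, t ((x : (A × B) →ₗ[F] (A × B)) v) =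
        (((MulAut.conj t).toEquiv x : (A × B) ≃ₗ[F] (A × B)) : (A × B) →ₗ[F] (A × B)) (t v) := by
      intro v
      change t (x v) = t (x (t.symm (t v)))
      rw [LinearEquiv.symm_apply_apply]
    rw [tm_inv f g t _ _ h1 W₀, ht, h.inv t _ _ h1]
  -- the parabolic
  have hpar : ∀ x : (A × B) ≃ₗ[F] (A × B),
      x ∈ parab F A B ↔ ∀ w ∈ W₀, (x : (A × B) →ₗ[F] (A × B)) w ∈ W₀ := by
    intro x
    constructor
    · intro hx w hw
      rw [hmem0] at hw ⊢
      have h1 := hx w.1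
      have h2 : w = (w.1, 0) := Prod.ext rfl hw
      rw [h2]
      exact h1
    · intro hx a
      exact (hmem0 _).1 (hx (a, 0) ((hmem0 _).2 rfl))
  have hpar' : ∀ x : (A × B) ≃ₗ[F] (A × B),
      W₀.map (x : (A × B) →ₗ[F] (A × B)) = W₀ ↔ x ∈ parab F A B := by
    intro x
    rw [hpar]
    constructor
    · intro hx w hw
      rw [← hx]
      exact ⟨w, hw, rfl⟩
    · intro hx
      apply Submodule.eq_of_le_of_finrank_eq
      · rintro _ ⟨w, hw, rfl⟩
        exact hx w hw
      · exact LinearEquiv.finrank_map_eq x W₀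
  have hbij := parab_bij (F := F) (A := A) (B := B)
  have hstab : Nat.card {x : (A × B) ≃ₗ[F] (A × B) // W₀.map (x : (A × B) →ₗ[F] (A × B)) = W₀} =
      Nat.card (A ≃ₗ[F] A) * (Nat.card (B ≃ₗ[F] B) * Nat.card (B →ₗ[F] A)) := by
    rw [← Nat.card_prod, ← Nat.card_prod]
    symm
    refine Nat.card_congr (Equiv.ofBijective (fun p : (A ≃ₗ[F] A) × (B ≃ₗ[F] B) × (B →ₗ[F] A) =>
      (⟨triE p.1 p.2.1 p.2.2, (hpar' _).2 (hbij.mapsTo (Set.mem_univ p))⟩ :
        {x : (A × B) ≃ₗ[F] (A × B) // W₀.map (x : (A × B) →ₗ[F] (A × B)) = W₀})) ⟨?_, ?_⟩)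
    · intro p q hpq
      exact hbij.injOn (Set.mem_univ p) (Set.mem_univ q) (congrArg Subtype.val hpq)
    · intro x
      obtain ⟨p, _, hp⟩ := hbij.surjOn ((hpar' _).1 x.2)
      exact ⟨p, Subtype.ext hp⟩
  have hT3 : T W₀ = ∑ p : (A ≃ₗ[F] A) × (B ≃ₗ[F] B) × (B →ₗ[F] A),
      f.val (p.1 : A →ₗ[F] A) * g.val (p.2.1 : B →ₗ[F] B) *
        conj (h.val (tri (p.1 : A →ₗ[F] A) (p.2.1 : B →ₗ[F] B) p.2.2)) := by
    symm
    refine Finset.sum_bij_ne_zero (fun p _ _ => triE p.1 p.2.1 p.2.2) (fun _ _ _ => Finset.mem_univ _)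
      ?_ ?_ ?_
    · intro p _ _ q _ _ hpq
      exact hbij.injOn (Set.mem_univ p) (Set.mem_univ q) hpq
    · intro x _ hx
      have h1 : x ∈ parab F A B := by
        rw [hpar]
        by_contra hcon
        apply hx
        have : tm f g (x : (A × B) →ₗ[F] (A × B)) W₀ = 0 := by
          unfold tm
          rw [dif_neg hcon]
        rw [this, zero_mul]
      obtain ⟨p, _, hp⟩ := hbij.surjOn h1
      refine ⟨p, Finset.mem_univ _, ?_, hp⟩
      intro h0
      apply hx
      rw [← hp]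
      change tm f g (tri (p.1 : A →ₗ[F] A) (p.2.1 : B →ₗ[F] B) p.2.2) W₀ *
        conj (h.val (tri (p.1 : A →ₗ[F] A) (p.2.1 : B →ₗ[F] B) p.2.2)) = 0
      rw [hW₀, tm_top_bot]
      exact h0
    · intro p _ _
      change _ = tm f g (tri (p.1 : A →ₗ[F] A) (p.2.1 : B →ₗ[F] B) p.2.2) W₀ *
        conj (h.val (tri (p.1 : A →ₗ[F] A) (p.2.1 : B →ₗ[F] B) p.2.2))
      rw [hW₀, tm_top_bot]
  have hcount := (count_sub W₀).2
  rw [hstab] at hcount
  -- left side
  have hL : ip ((f * g).on (A × B)) (h.on (A × B)) =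
      (Nat.card ((A × B) ≃ₗ[F] (A × B)) : ℂ)⁻¹ *
        (Nat.card {W : Submodule F (A × B) // Module.finrank F W = Module.finrank F W₀} * T W₀) := by
    unfold ip UCF.on
    congr 1
    rw [finsum_eq_sum_of_fintype]
    have h1 : ∀ x : (A × B) ≃ₗ[F] (A × B), (f * g).val (x : (A × B) →ₗ[F] (A × B)) *
        conj (h.val (x : (A × B) →ₗ[F] (A × B))) = ∑ W : Submodule F (A × B),
        tm f g (x : (A × B) →ₗ[F] (A × B)) W * conj (h.val (x : (A × B) →ₗ[F] (A × B))) := by
      intro x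
      rw [mul_val, finsum_eq_sum_of_fintype, Finset.sum_mul]
    rw [Finset.sum_congr rfl fun x _ => h1 x, Finset.sum_comm]
    change ∑ W : Submodule F (A × B), T W = _
    rw [← Finset.sum_filter_add_sum_filter_not Finset.univ
      (fun W : Submodule F (A × B) => Module.finrank F W = Module.finrank F W₀)]
    rw [Finset.sum_congr rfl fun W hW => hT2 W (Finset.mem_filter.1 hW).2,
      Finset.sum_eq_zero (s := Finset.univ.filter
        (fun W : Submodule F (A × B) => ¬ Module.finrank F W = Module.finrank F W₀))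
        (fun W hW => hT1 W (Finset.mem_filter.1 hW).2), add_zero, Finset.sum_const, nsmul_eq_mul,
      Nat.card_eq_fintype_card, Fintype.card_subtype]
  have hR : ip (fun p : (A ≃ₗ[F] A) × (B ≃ₗ[F] B) =>
          f.val (p.1 : A →ₗ[F] A) * g.val (p.2 : B →ₗ[F] B))
        (fun p : (A ≃ₗ[F] A) × (B ≃ₗ[F] B) =>
          rs h (p.1 : A →ₗ[F] A) (p.2 : B →ₗ[F] B)) =
      ((Nat.card (A ≃ₗ[F] A) : ℂ) * Nat.card (B ≃ₗ[F] B))⁻¹ *
        ((Nat.card (B →ₗ[F] A) : ℂ)⁻¹ * T W₀) := by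
    unfold ip
    rw [Nat.card_prod]
    push_cast
    congr 1
    rw [finsum_eq_sum_of_fintype, hT3, Fintype.sum_prod_type, Fintype.sum_prod_type, Finset.mul_sum]
    refine Finset.sum_congr rfl fun x _ => ?_
    rw [Fintype.sum_prod_type, Finset.mul_sum]
    refine Finset.sum_congr rfl fun y _ => ?_
    unfold rs
    rw [finsum_eq_sum_of_fintype, map_mul, map_inv₀, Complex.conj_natCast, map_sum]
    dsimp only
    rw [← Finset.mul_sum]
    ring
  rw [hL, hR]
  have hne : ∀ {X : Type} [Finite X] [Nonempty X], (Nat.card X : ℂ) ≠ 0 := by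
    intro X _ _
    exact_mod_cast Nat.card_pos.ne'
  have hc : (Nat.card {W : Submodule F (A × B) // Module.finrank F W = Module.finrank F W₀} : ℂ) *
      (Nat.card (A ≃ₗ[F] A) * (Nat.card (B ≃ₗ[F] B) * Nat.card (B →ₗ[F] A))) =
      Nat.card ((A × B) ≃ₗ[F] (A × B)) := by exact_mod_cast hcount
  have n1 : (Nat.card (A ≃ₗ[F] A) : ℂ) ≠ 0 := hne
  have n2 : (Nat.card (B ≃ₗ[F] B) : ℂ) ≠ 0 := hne
  have n3 : (Nat.card (B →ₗ[F] A) : ℂ) ≠ 0 := hne
  have n4 : (Nat.card ((A × B) ≃ₗ[F] (A × B)) : ℂ) ≠ 0 := hne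
  rw [← hc] at n4 ⊢
  have n5 := left_ne_zero_of_mul n4
  field_simp

end Pool.Agent.Lib.MP_fa0f6c_al.Cx.B
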