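import Mathlib
import Pool.Agent.Lib.MP_fa0f6c_al.Cx.Defs
import Pool.Agent.Lib.MP_fa0f6c_al.Cx.BDefs
import Pool.Agent.Lib.MP_fa0f6c_al.Cx.BAlg
import Pool.Agent.Lib.MP_fa0f6c_al.Cx.B06
import Pool.Agent.Lib.MP_fa0f6c_al.Cx.B09

/-! Consequences of Frobenius reciprocity. -/

set_option autoImplicit false

namespace Pool.Agent.Lib.MP_fa0f6c_al.Cx.B

open scoped ComplexConjugate

variable {F : Type} [Field F] [Finite F]

/-- HINT: `natC_of`; for `τ ∈ IrrC F (m + n)` transport to `V = A × B`, `A = Fin m → F`, `B = Fin n → F`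
(`ip_on`), `frobenius_mul`, `rs_isNat`, and `fun p => f p.1 * g p.2` is a character of the product group
(`isNat_comp` for the projections, `isNat_mul`); `isNat_ip`. -/
theorem natC_mul {m n : ℕ} {f g : UCF F} (hf : NatC m f) (hg : NatC n g) :
    NatC (m + n) (f * g) := by
  have hA : Module.finrank F (Fin m → F) = m := by simp
  have hB : Module.finrank F (Fin n → F) = n := by simp
  have hV : Module.finrank F ((Fin m → F) × (Fin n → F)) = m + n := by simp
  have i1 : Finite ((Fin m → F) ≃ₗ[F] (Fin m → F)) :=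
    Finite.of_injective (fun e : (Fin m → F) ≃ₗ[F] (Fin m → F) => (e : (Fin m → F) → (Fin m → F)))
      DFunLike.coe_injective
  have i2 : Finite ((Fin n → F) ≃ₗ[F] (Fin n → F)) :=
    Finite.of_injective (fun e : (Fin n → F) ≃ₗ[F] (Fin n → F) => (e : (Fin n → F) → (Fin n → F)))
      DFunLike.coe_injective
  refine natC_of (deg_mul hf.1 hg.1) (fun τ hτ => ?_)
  rw [← ip_on ((Fin m → F) × (Fin n → F)) (m + n) hV (f * g) τ]
  have hf1 : Deg f (Module.finrank F (Fin m → F)) := by rw [hA]; exact hf.1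
  have hg1 : Deg g (Module.finrank F (Fin n → F)) := by rw [hB]; exact hg.1
  rw [frobenius_mul (A := Fin m → F) (B := Fin n → F) τ hf1 hg1]
  have hfA : IsNat (f.on (Fin m → F)) := (isNat_on (Fin m → F) m hA f).2 hf.2
  have hgB : IsNat (g.on (Fin n → F)) := (isNat_on (Fin n → F) n hB g).2 hg.2
  have h1 : IsNat (fun p : ((Fin m → F) ≃ₗ[F] (Fin m → F)) × ((Fin n → F) ≃ₗ[F] (Fin n → F)) =>
      f.val (p.1 : (Fin m → F) →ₗ[F] (Fin m → F)) * g.val (p.2 : (Fin n → F) →ₗ[F] (Fin n → F))) :=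
    isNat_mul
      (isNat_comp (MonoidHom.fst ((Fin m → F) ≃ₗ[F] (Fin m → F)) ((Fin n → F) ≃ₗ[F] (Fin n → F)))
        hfA)
      (isNat_comp (MonoidHom.snd ((Fin m → F) ≃ₗ[F] (Fin m → F)) ((Fin n → F) ≃ₗ[F] (Fin n → F)))
        hgB)
  exact isNat_ip h1 (rs_isNat τ ((isNat_on _ (m + n) hV τ).2 (natC_irr hτ).2))

/-- If `rs ψ` is not `0` on some pair `(A, B)` of nonzero spaces then `ψ` is a constituent of
some product. HINT: transport to `A = Fin a → F`, `B = Fin b → F` (`rs_inv`, `rs_supp`, `rs_deg`);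
`rs_isNat`, `isNat_exists`, `irr_prod_surj`: there are irreducible `α`, `β` with
`ip (rs ψ) (α ⊗ β) ≠ 0`; extend them to `UCF` (`exists_ucf_on`, `irr_on`) and apply `frobenius_mul` and
`ip_conj_symm`. -/
theorem exists_constituent_mul {n : ℕ} {ψ : UCF F} (hψ : NatC n ψ) {A B : Type}
    [AddCommGroup A] [Module F A] [AddCommGroup B] [Module F B] (x : A →ₗ[F] A) (y : B →ₗ[F] B)
    (hxy : rs ψ x y ≠ 0) :
    Module.finrank F A + Module.finrank F B = n ∧
    ∃ α ∈ IrrC F (Module.finrank F A), ∃ β ∈ IrrC F (Module.finrank F B),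
      ipn n (α * β) ψ ≠ 0 := by
  have hdim : Module.finrank F A + Module.finrank F B = n := by
    by_contra h
    exact hxy (rs_deg hψ.1 x y h)
  refine ⟨hdim, ?_⟩
  have hsupp : Finite A ∧ Finite B ∧ Function.Bijective x ∧ Function.Bijective y := by
    by_contra h
    exact hxy (rs_supp ψ x y h)
  obtain ⟨hA, hB, hx, hy⟩ := hsupp
  have i1 : Finite (A ≃ₗ[F] A) :=
    Finite.of_injective (fun e : A ≃ₗ[F] A => (e : A → A)) DFunLike.coe_injective
  have i2 : Finite (B ≃ₗ[F] B) :=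
    Finite.of_injective (fun e : B ≃ₗ[F] B => (e : B → B)) DFunLike.coe_injective
  have hV : Module.finrank F (A × B) = n := by
    rw [Module.finrank_prod, hdim]
  have hR := rs_isNat (A := A) (B := B) ψ ((isNat_on (A × B) n hV ψ).2 hψ.2)
  set R : (A ≃ₗ[F] A) × (B ≃ₗ[F] B) → ℂ := fun p =>
    rs ψ (p.1 : A →ₗ[F] A) (p.2 : B →ₗ[F] B) with hRdef
  have hR0 : R ≠ 0 := by
    intro h
    apply hxy
    have h1 := congrFun h (LinearEquiv.ofBijective x hx, LinearEquiv.ofBijective y hy)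
    exact h1
  obtain ⟨χ, hχ, hχ0⟩ := isNat_exists hR hR0
  obtain ⟨α', hα', β', hβ', rfl⟩ := irr_prod_surj hχ
  obtain ⟨α, hα1, hα2⟩ := exists_ucf_on A α' (irr_cf hα')
  obtain ⟨β, hβ1, hβ2⟩ := exists_ucf_on B β' (irr_cf hβ')
  refine ⟨α, ⟨hα1, (irr_on A _ rfl α).1 (by rw [hα2]; exact hα')⟩, β,
    ⟨hβ1, (irr_on B _ rfl β).1 (by rw [hβ2]; exact hβ')⟩, ?_⟩
  rw [← ip_on (A × B) n hV (α * β) ψ, frobenius_mul (A := A) (B := B) ψ hα1 hβ1]
  have h1 : (fun p : (A ≃ₗ[F] A) × (B ≃ₗ[F] B) =>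
      α.val (p.1 : A →ₗ[F] A) * β.val (p.2 : B →ₗ[F] B)) = fun p => α' p.1 * β' p.2 := by
    funext p
    rw [← hα2, ← hβ2]
    rfl
  rw [h1]
  intro h2
  apply hχ0
  rw [ip_conj_symm (fun p : (A ≃ₗ[F] A) × (B ≃ₗ[F] B) => α' p.1 * β' p.2) R, h2, map_zero]

/-- HINT: `Cusp` fails, so there are nonzero `A`, `B` with `rs ψ x y ≠ 0`; they are finite (`rs_supp`), so
`finrank > 0`. -/
theorem exists_of_not_cusp {n : ℕ} (hn : 0 < n) {ψ : UCF F} (hψ : ψ ∈ IrrC F n)
    (h : ¬ Cusp n ψ) :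
    ∃ a b : ℕ, 0 < a ∧ 0 < b ∧ a + b = n ∧ ∃ α ∈ IrrC F a, ∃ β ∈ IrrC F b,
      ipn n (α * β) ψ ≠ 0 := by
  by_contra hcon
  apply h
  refine ⟨hn, hψ, fun A B _ _ _ _ _ _ x y => ?_⟩
  by_contra hxy
  apply hcon
  have hsupp : Finite A ∧ Finite B ∧ Function.Bijective x ∧ Function.Bijective y := by
    by_contra h
    exact hxy (rs_supp ψ x y h)
  obtain ⟨hA, hB, -, -⟩ := hsupp
  obtain ⟨h1, α, hα, β, hβ, h2⟩ := exists_constituent_mul (natC_irr hψ) x y hxy
  have hfA : Module.Finite F A := Module.Finite.of_finite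
  have hfB : Module.Finite F B := Module.Finite.of_finite
  exact ⟨Module.finrank F A, Module.finrank F B, Module.finrank_pos, Module.finrank_pos, h1,
    α, hα, β, hβ, h2⟩

/-- Degree of a product. HINT: `frobenius_mul` with `h` the class function which is `1` at the
identity and `0` elsewhere (`exists_ucf_on`): the left side is `|GL_{m+n}|⁻¹ (f * g)(1)`, and
`rs h p.1 p.2 = |B →ₗ A|⁻¹` for `p = 1` and `0` otherwise. -/
theorem mul_dim {m n : ℕ} {f g : UCF F} (hf : Deg f m) (hg : Deg g n) :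
    (f * g).gl (m + n) 1 * Nat.card (Matrix.GeneralLinearGroup (Fin m) F) *
      Nat.card (Matrix.GeneralLinearGroup (Fin n) F) * (Nat.card F : ℂ) ^ (m * n) =
    Nat.card (Matrix.GeneralLinearGroup (Fin (m + n)) F) * f.gl m 1 * g.gl n 1 := by
  classical
  have hA : Module.finrank F (Fin m → F) = m := by simp
  have hB : Module.finrank F (Fin n → F) = n := by simp
  have hV : Module.finrank F ((Fin m → F) × (Fin n → F)) = m + n := by simp
  have i1 : Finite ((Fin m → F) ≃ₗ[F] (Fin m → F)) :=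
    Finite.of_injective (fun e : (Fin m → F) ≃ₗ[F] (Fin m → F) => (e : (Fin m → F) → (Fin m → F)))
      DFunLike.coe_injective
  have i2 : Finite ((Fin n → F) ≃ₗ[F] (Fin n → F)) :=
    Finite.of_injective (fun e : (Fin n → F) ≃ₗ[F] (Fin n → F) => (e : (Fin n → F) → (Fin n → F)))
      DFunLike.coe_injective
  have i3 : Finite (((Fin m → F) × (Fin n → F)) ≃ₗ[F] ((Fin m → F) × (Fin n → F))) :=
    Finite.of_injective (fun e : ((Fin m → F) × (Fin n → F)) ≃ₗ[F] ((Fin m → F) × (Fin n → F)) =>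
      (e : (Fin m → F) × (Fin n → F) → (Fin m → F) × (Fin n → F))) DFunLike.coe_injective
  have i4 : Finite ((Fin n → F) →ₗ[F] (Fin m → F)) :=
    Finite.of_injective (fun e : (Fin n → F) →ₗ[F] (Fin m → F) => (e : (Fin n → F) → (Fin m → F)))
      DFunLike.coe_injective
  let φ : (((Fin m → F) × (Fin n → F)) ≃ₗ[F] ((Fin m → F) × (Fin n → F))) → ℂ :=
    fun x => if x = 1 then 1 else 0
  have hφ : IsCF φ := by
    intro x y
    have h1 : x * y = 1 ↔ y * x = 1 := mul_eq_one_comm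
    by_cases h : x * y = 1
    · simp only [φ, if_pos h, if_pos (h1.1 h)]
    · simp only [φ, if_neg h, if_neg (fun h' => h (h1.2 h'))]
  obtain ⟨h, hh1, hh2⟩ := exists_ucf_on ((Fin m → F) × (Fin n → F)) φ hφ
  have hf1 : Deg f (Module.finrank F (Fin m → F)) := by rw [hA]; exact hf
  have hg1 : Deg g (Module.finrank F (Fin n → F)) := by rw [hB]; exact hg
  have key := frobenius_mul (A := Fin m → F) (B := Fin n → F) h hf1 hg1
  rw [hh2] at key
  -- the left side
  have hL : ip ((f * g).on ((Fin m → F) × (Fin n → F))) φ =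
      (Nat.card (Matrix.GeneralLinearGroup (Fin (m + n)) F) : ℂ)⁻¹ * (f * g).gl (m + n) 1 := by
    unfold ip
    rw [card_on ((Fin m → F) × (Fin n → F)) (m + n) hV]
    congr 1
    rw [finsum_eq_single _ 1]
    · simp only [φ, if_true, map_one, mul_one]
      rw [← on_one ((Fin m → F) × (Fin n → F)) (m + n) hV (f * g)]
      rfl
    · intro x hx
      simp only [φ, if_neg hx, map_zero, mul_zero]
  have hrs : ∀ (x : (Fin m → F) ≃ₗ[F] (Fin m → F)) (y : (Fin n → F) ≃ₗ[F] (Fin n → F)),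
      rs h (x : (Fin m → F) →ₗ[F] (Fin m → F)) (y : (Fin n → F) →ₗ[F] (Fin n → F)) =
        if x = 1 ∧ y = 1 then (Nat.card ((Fin n → F) →ₗ[F] (Fin m → F)) : ℂ)⁻¹ else 0 := by
    intro x y
    unfold rs
    have h1 : ∀ c : (Fin n → F) →ₗ[F] (Fin m → F),
        h.val (tri (x : (Fin m → F) →ₗ[F] (Fin m → F)) (y : (Fin n → F) →ₗ[F] (Fin n → F)) c) =
          if x = 1 ∧ y = 1 ∧ c = 0 then 1 else 0 := by
      intro c
      have h2 : h.val (tri (x : (Fin m → F) →ₗ[F] (Fin m → F))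
          (y : (Fin n → F) →ₗ[F] (Fin n → F)) c) = φ (triE x y c) := by
        rw [← hh2]; rfl
      rw [h2]
      have h3 : triE x y c = 1 ↔ x = 1 ∧ y = 1 ∧ c = 0 := by
        constructor
        · intro h4
          have h5 : ∀ v, triE x y c v = v := fun v => by rw [h4]; rfl
          have hx : x = 1 := by
            ext1 a
            have h6 := h5 (a, 0)
            rw [triE_apply] at h6
            have h7 := congrArg Prod.fst h6
            simp only [map_zero, add_zero] at h7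
            exact h7
          have hy : y = 1 := by
            ext1 b
            have h6 := h5 (0, b)
            rw [triE_apply] at h6
            have h7 := congrArg Prod.snd h6
            exact h7
          refine ⟨hx, hy, ?_⟩
          apply LinearMap.ext
          intro b
          have h6 := h5 (0, b)
          rw [triE_apply] at h6
          have h7 := congrArg Prod.fst h6
          simp only [map_zero, zero_add] at h7
          rw [h7]; rfl
        · rintro ⟨rfl, rfl, rfl⟩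
          apply LinearEquiv.ext
          intro v
          rw [triE_apply]
          simp
      by_cases h4 : triE x y c = 1
      · simp only [φ, if_pos h4, if_pos (h3.1 h4)]
      · simp only [φ, if_neg h4, if_neg (fun h' => h4 (h3.2 h'))]
    rw [finsum_congr h1]
    by_cases hxy : x = 1 ∧ y = 1
    · rw [if_pos hxy, finsum_eq_single _ 0]
      · rw [if_pos ⟨hxy.1, hxy.2, rfl⟩, mul_one]
      · intro c hc
        rw [if_neg (fun h' => hc h'.2.2)]
    · rw [if_neg hxy]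
      have h2 : ∀ c : (Fin n → F) →ₗ[F] (Fin m → F),
          (if x = 1 ∧ y = 1 ∧ c = 0 then (1 : ℂ) else 0) = 0 := by
        intro c
        rw [if_neg (fun h' => hxy ⟨h'.1, h'.2.1⟩)]
      rw [finsum_congr h2, finsum_zero, mul_zero]
  have hR : ip (fun p : ((Fin m → F) ≃ₗ[F] (Fin m → F)) × ((Fin n → F) ≃ₗ[F] (Fin n → F)) =>
        f.val (p.1 : (Fin m → F) →ₗ[F] (Fin m → F)) *
          g.val (p.2 : (Fin n → F) →ₗ[F] (Fin n → F)))
      (fun p : ((Fin m → F) ≃ₗ[F] (Fin m → F)) × ((Fin n → F) ≃ₗ[F] (Fin n → F)) =>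
        rs h (p.1 : (Fin m → F) →ₗ[F] (Fin m → F)) (p.2 : (Fin n → F) →ₗ[F] (Fin n → F))) =
      ((Nat.card (Matrix.GeneralLinearGroup (Fin m) F) : ℂ) *
        (Nat.card (Matrix.GeneralLinearGroup (Fin n) F) : ℂ))⁻¹ *
        (f.gl m 1 * g.gl n 1 * (Nat.card ((Fin n → F) →ₗ[F] (Fin m → F)) : ℂ)⁻¹) := by
    unfold ip
    rw [Nat.card_prod, card_on (Fin m → F) m hA, card_on (Fin n → F) n hB, Nat.cast_mul]
    congr 1
    rw [finsum_eq_single _ 1]
    · have h1 := hrs 1 1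
      rw [if_pos ⟨rfl, rfl⟩] at h1
      show f.val ((1 : (Fin m → F) ≃ₗ[F] (Fin m → F)) : (Fin m → F) →ₗ[F] (Fin m → F)) *
        g.val ((1 : (Fin n → F) ≃ₗ[F] (Fin n → F)) : (Fin n → F) →ₗ[F] (Fin n → F)) *
        conj (rs h ((1 : (Fin m → F) ≃ₗ[F] (Fin m → F)) : (Fin m → F) →ₗ[F] (Fin m → F))
          ((1 : (Fin n → F) ≃ₗ[F] (Fin n → F)) : (Fin n → F) →ₗ[F] (Fin n → F))) = _
      rw [h1, map_inv₀, Complex.conj_natCast, ← on_one (Fin m → F) m hA f,
        ← on_one (Fin n → F) n hB g]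
      rfl
    · intro p hp
      have h1 := hrs p.1 p.2
      rw [if_neg] at h1
      · show f.val (p.1 : (Fin m → F) →ₗ[F] (Fin m → F)) *
          g.val (p.2 : (Fin n → F) →ₗ[F] (Fin n → F)) *
          conj (rs h (p.1 : (Fin m → F) →ₗ[F] (Fin m → F))
            (p.2 : (Fin n → F) →ₗ[F] (Fin n → F))) = 0
        rw [h1, map_zero, mul_zero]
      · rintro ⟨h1, h2⟩
        exact hp (Prod.ext h1 h2)
  rw [hL, hR] at key
  have hc : (Nat.card ((Fin n → F) →ₗ[F] (Fin m → F)) : ℂ) = (Nat.card F : ℂ) ^ (m * n) := by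
    have h1 : Nat.card ((Fin n → F) →ₗ[F] (Fin m → F)) = Nat.card F ^ (m * n) := by
      rw [Module.natCard_eq_pow_finrank (K := F), Module.finrank_linearMap, hA, hB, mul_comm]
    rw [h1]; push_cast; rfl
  rw [hc] at key
  have n1 : (Nat.card (Matrix.GeneralLinearGroup (Fin m) F) : ℂ) ≠ 0 := by
    exact_mod_cast Nat.card_pos.ne'
  have n2 : (Nat.card (Matrix.GeneralLinearGroup (Fin n) F) : ℂ) ≠ 0 := by
    exact_mod_cast Nat.card_pos.ne'
  have n3 : (Nat.card (Matrix.GeneralLinearGroup (Fin (m + n)) F) : ℂ) ≠ 0 := by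
    exact_mod_cast Nat.card_pos.ne'
  have n4 : (Nat.card F : ℂ) ^ (m * n) ≠ 0 := by
    apply pow_ne_zero
    exact_mod_cast Nat.card_pos.ne'
  field_simp at key
  linear_combination key

end Pool.Agent.Lib.MP_fa0f6c_al.Cx.B
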