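import Mathlib
import Pool.Agent.Lib.MP_fa0f6c_al.Cx.Defs
import Pool.Agent.Lib.MP_fa0f6c_al.Cx.BDefs
import Pool.Agent.Lib.MP_fa0f6c_al.Cx.BAlg
import Pool.Agent.Lib.MP_fa0f6c_al.Cx.B07

/-! The adjoint `dr m ρ` of the multiplication by `ρ`. -/

set_option autoImplicit false

namespace Pool.Agent.Lib.MP_fa0f6c_al.Cx.B

open scoped ComplexConjugate

variable {F : Type} [Field F]

/-- `(dr ρ f)(y) = |GL_m|⁻¹ ∑_w conj (ρ w) * rs f w y`, the sum over all endomorphisms `w` of `F^m`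
(`ρ` vanishes outside `GL_m`). -/
noncomputable def drVal (m : ℕ) (ρ f : UCF F) {V : Type} [AddCommGroup V] [Module F V]
    (y : V →ₗ[F] V) : ℂ :=
  (Nat.card (Matrix.GeneralLinearGroup (Fin m) F) : ℂ)⁻¹ *
    ∑ᶠ w : (Fin m → F) →ₗ[F] (Fin m → F), conj (ρ.val w) * rs f w y

theorem drVal_inv (m : ℕ) (ρ f : UCF F) {V V' : Type} [AddCommGroup V] [Module F V]
    [AddCommGroup V'] [Module F V'] (e : V ≃ₗ[F] V') (x : V →ₗ[F] V) (y : V' →ₗ[F] V')
    (h : ∀ v, e (x v) = y (e v)) : drVal m ρ f x = drVal m ρ f y := by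
  unfold drVal
  congr 1
  refine finsum_congr fun w => ?_
  rw [rs_inv f (LinearEquiv.refl F (Fin m → F)) e w w x y (fun _ => rfl) h]

theorem drVal_supp (m : ℕ) (ρ f : UCF F) {V : Type} [AddCommGroup V] [Module F V] (x : V →ₗ[F] V)
    (hx : ¬ (Finite V ∧ Function.Bijective x)) : drVal m ρ f x = 0 := by
  unfold drVal
  rw [finsum_eq_zero_of_forall_eq_zero, mul_zero]
  intro w
  rw [rs_supp f w x (fun h => hx ⟨h.2.1, h.2.2.2⟩), mul_zero]

noncomputable def dr (m : ℕ) (ρ f : UCF F) : UCF F :=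
  ⟨fun x => drVal m ρ f x, fun e x y h => drVal_inv m ρ f e x y h,
    fun x h => drVal_supp m ρ f x h⟩

theorem dr_val (m : ℕ) (ρ f : UCF F) {V : Type} [AddCommGroup V] [Module F V]
    (y : V →ₗ[F] V) : (dr m ρ f).val y =
      (Nat.card (Matrix.GeneralLinearGroup (Fin m) F) : ℂ)⁻¹ *
    ∑ᶠ w : (Fin m → F) →ₗ[F] (Fin m → F), conj (ρ.val w) * rs f w y := rfl

end Pool.Agent.Lib.MP_fa0f6c_al.Cx.B
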