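import Mathlib
import Pool.Agent.Lib.MP_fa0f6c_al.Cx.Defs
import Pool.Agent.Lib.MP_fa0f6c_al.Cx.BDefs
import Pool.Agent.Lib.MP_fa0f6c_al.Cx.BDr
import Pool.Agent.Lib.MP_fa0f6c_al.Cx.B10

/-! Elementary properties of `dr`. -/

set_option autoImplicit false

namespace Pool.Agent.Lib.MP_fa0f6c_al.Cx.B

open scoped ComplexConjugate

variable {F : Type} [Field F] [Finite F]

private theorem B11_finite (m : ℕ) : Finite ((Fin m → F) →ₗ[F] (Fin m → F)) :=
  Finite.of_injective (fun e : (Fin m → F) →ₗ[F] (Fin m → F) => (e : (Fin m → F) → (Fin m → F)))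
    DFunLike.coe_injective

theorem dr_add (m : ℕ) (ρ f g : UCF F) : dr m ρ (f + g) = dr m ρ f + dr m ρ g := by
  have := B11_finite (F := F) m
  have : Fintype ((Fin m → F) →ₗ[F] (Fin m → F)) := Fintype.ofFinite _
  refine UCF.ext' fun V _ _ y => ?_
  rw [add_val, dr_val, dr_val, dr_val, finsum_eq_sum_of_fintype, finsum_eq_sum_of_fintype,
    finsum_eq_sum_of_fintype, ← mul_add, ← Finset.sum_add_distrib]
  congr 1
  refine Finset.sum_congr rfl fun w _ => ?_
  rw [rs_add, mul_add]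

theorem dr_smul (m : ℕ) (ρ f : UCF F) (c : ℂ) : dr m ρ (c • f) = c • dr m ρ f := by
  have := B11_finite (F := F) m
  have : Fintype ((Fin m → F) →ₗ[F] (Fin m → F)) := Fintype.ofFinite _
  refine UCF.ext' fun V _ _ y => ?_
  rw [smul_val, dr_val, dr_val, finsum_eq_sum_of_fintype, finsum_eq_sum_of_fintype,
    mul_left_comm c]
  congr 1
  rw [Finset.mul_sum]
  refine Finset.sum_congr rfl fun w _ => ?_
  rw [rs_smul, mul_left_comm]

theorem dr_zero (m : ℕ) (ρ : UCF F) : dr m ρ 0 = 0 := by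
  have h := dr_smul m ρ 0 0
  rwa [zero_smul, zero_smul] at h

theorem dr_sum {ι : Type*} (m : ℕ) (ρ : UCF F) (s : Finset ι) (f : ι → UCF F) :
    dr m ρ (∑ i ∈ s, f i) = ∑ i ∈ s, dr m ρ (f i) := by
  classical
  induction s using Finset.induction_on with
  | empty => rw [Finset.sum_empty, Finset.sum_empty, dr_zero]
  | insert a s ha ih => rw [Finset.sum_insert ha, Finset.sum_insert ha, dr_add, ih]

/-- HINT: `rs_deg`. -/
theorem dr_deg {m n : ℕ} (ρ : UCF F) {f : UCF F} (hf : Deg f (m + n)) : Deg (dr m ρ f) n := by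
  intro V _ _ y hV
  rw [dr_val, finsum_eq_zero_of_forall_eq_zero, mul_zero]
  intro w
  rw [rs_deg hf w y, mul_zero]
  rw [Module.finrank_fin_fun]
  omega

theorem dr_of_lt {m n : ℕ} (ρ : UCF F) {f : UCF F} (hf : Deg f n) (h : n < m) :
    dr m ρ f = 0 := by
  refine UCF.ext' fun V _ _ y => ?_
  rw [zero_val, dr_val, finsum_eq_zero_of_forall_eq_zero, mul_zero]
  intro w
  rw [rs_deg hf w y, mul_zero]
  rw [Module.finrank_fin_fun]
  omega

/-- Adjointness. HINT: `frobenius_mul` on `A × B`, `A = Fin m → F`, `B = Fin n → F` (`ip_on`);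
`ip (ρ ⊗ f) (rs h) = |GL_m|⁻¹ |GL_n|⁻¹ ∑_w ∑_y ρ w f y conj (rs h w y)` and
`sum_equiv_eq_sum_end`. -/
theorem ipn_dr {m n : ℕ} {ρ f : UCF F} (h : UCF F) (hρ : Deg ρ m) (hf : Deg f n) :
    ipn (m + n) (ρ * f) h = ipn n f (dr m ρ h) := by
  classical
  have hA : Module.finrank F (Fin m → F) = m := Module.finrank_fin_fun F
  have hB : Module.finrank F (Fin n → F) = n := Module.finrank_fin_fun F
  have hAB : Module.finrank F ((Fin m → F) × (Fin n → F)) = m + n := by
    rw [Module.finrank_prod, hA, hB]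
  have fA : Finite ((Fin m → F) ≃ₗ[F] (Fin m → F)) :=
    Finite.of_injective (fun e : (Fin m → F) ≃ₗ[F] (Fin m → F) => (e : (Fin m → F) → (Fin m → F)))
      DFunLike.coe_injective
  have fB : Finite ((Fin n → F) ≃ₗ[F] (Fin n → F)) :=
    Finite.of_injective (fun e : (Fin n → F) ≃ₗ[F] (Fin n → F) => (e : (Fin n → F) → (Fin n → F)))
      DFunLike.coe_injective
  have fE := B11_finite (F := F) m
  have iA : Fintype ((Fin m → F) ≃ₗ[F] (Fin m → F)) := Fintype.ofFinite _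
  have iB : Fintype ((Fin n → F) ≃ₗ[F] (Fin n → F)) := Fintype.ofFinite _
  have iE : Fintype ((Fin m → F) →ₗ[F] (Fin m → F)) := Fintype.ofFinite _
  rw [← ip_on ((Fin m → F) × (Fin n → F)) (m + n) hAB,
    frobenius_mul h (by rw [hA]; exact hρ) (by rw [hB]; exact hf), ← ip_on (Fin n → F) n hB]
  unfold ip
  rw [finsum_eq_sum_of_fintype, finsum_eq_sum_of_fintype, Nat.card_prod, Fintype.sum_prod_type,
    Finset.sum_comm]
  push_cast
  rw [mul_comm (Nat.card ((Fin m → F) ≃ₗ[F] (Fin m → F)) : ℂ), mul_inv, mul_assoc]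
  congr 1
  rw [Finset.mul_sum]
  refine Finset.sum_congr rfl fun y _ => ?_
  have h1 : ∑ x : (Fin m → F) ≃ₗ[F] (Fin m → F), ρ.val (x : (Fin m → F) →ₗ[F] (Fin m → F)) *
      f.val (y : (Fin n → F) →ₗ[F] (Fin n → F)) *
        conj (rs h (x : (Fin m → F) →ₗ[F] (Fin m → F)) (y : (Fin n → F) →ₗ[F] (Fin n → F))) =
      f.val (y : (Fin n → F) →ₗ[F] (Fin n → F)) *
      ∑ x : (Fin m → F) →ₗ[F] (Fin m → F), ρ.val x *
        conj (rs h x (y : (Fin n → F) →ₗ[F] (Fin n → F))) := by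
    have h2 := sum_equiv_eq_sum_end (Fin m → F) ρ
      (fun x => conj (rs h x (y : (Fin n → F) →ₗ[F] (Fin n → F))))
    rw [finsum_eq_sum_of_fintype, finsum_eq_sum_of_fintype] at h2
    rw [← h2, Finset.mul_sum]
    exact Finset.sum_congr rfl fun x _ => by ring
  rw [h1]
  change _ = f.val (y : (Fin n → F) →ₗ[F] (Fin n → F)) *
    conj ((dr m ρ h).val (y : (Fin n → F) →ₗ[F] (Fin n → F)))
  rw [dr_val, finsum_eq_sum_of_fintype, card_on (Fin m → F) m hA, mul_left_comm]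
  congr 1
  rw [map_mul, map_inv₀, Complex.conj_natCast, map_sum]
  congr 1
  refine Finset.sum_congr rfl fun x _ => ?_
  rw [map_mul, Complex.conj_conj]

theorem ipn_dr' {m n : ℕ} {ρ f : UCF F} (h : UCF F) (hρ : Deg ρ m) (hf : Deg f n) :
    ipn (m + n) h (ρ * f) = ipn n (dr m ρ h) f := by
  rw [ipn_conj, ipn_dr h hρ hf, ← ipn_conj]

/-- HINT: `natC_of`, `ipn_dr'`, `natC_mul`, `natC_ip`. -/
theorem natC_dr {m n : ℕ} {ρ h : UCF F} (hρ : NatC m ρ) (hh : NatC (m + n) h) :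
    NatC n (dr m ρ h) := by
  refine natC_of (dr_deg ρ hh.1) fun τ hτ => ?_
  rw [← ipn_dr' h hρ.1 hτ.1]
  exact natC_ip hh (natC_mul hρ (natC_irr hτ))

/-- HINT: `Deg 1 0`. -/
theorem dr_one {m : ℕ} (hm : 0 < m) (ρ : UCF F) : dr m ρ 1 = 0 :=
  dr_of_lt ρ deg_one hm

private theorem B11_ne {m n : ℕ} {ρ τ : UCF F} (hρ : Cusp m ρ) (hτ : Cusp n τ) (h : m ≠ n) :
    ρ ≠ τ := by
  rintro rfl
  have h0 : ρ = 0 := deg_unique hρ.2.1.1 hτ.2.1.1 h
  have h1 := ipn_irr hρ.2.1 hρ.2.1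
  rw [if_pos rfl] at h1
  rw [h0, ipn_zero_left] at h1
  exact zero_ne_one h1

/-- HINT: let `n` be the degree of `τ`. If `n < m`: `dr_of_lt` (and `ρ ≠ τ` by degrees). If `n = m`:
`dr m ρ τ` has degree `0`, so it is `ipn 0 (dr m ρ τ) 1 • 1 = ipn m τ ρ • 1` (`deg_zero_eq`, `ipn_dr'`,
`mul_one`). If `m < n` the restriction `rs τ w y` vanishes by cuspidality for nonzero `V`; and for `V`
trivial by degree. -/
theorem dr_cusp {m n : ℕ} {ρ τ : UCF F} (hρ : Cusp m ρ) (hτ : Cusp n τ) :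
    dr m ρ τ = open Classical in if ρ = τ then 1 else 0 := by
  classical
  rcases lt_trichotomy n m with h | h | h
  · rw [dr_of_lt ρ hτ.2.1.1 h, if_neg (B11_ne hρ hτ h.ne')]
  · subst h
    have h1 : Deg (dr n ρ τ) 0 := dr_deg ρ (n := 0) hτ.2.1.1
    have h2 := deg_zero_eq h1
    have h3 := ipn_dr' τ (n := 0) hρ.2.1.1 (deg_one (F := F))
    rw [mul_one, add_zero] at h3
    rw [← h3, ipn_irr hτ.2.1 hρ.2.1] at h2
    rw [h2]
    by_cases hc : ρ = τ
    · rw [if_pos hc, if_pos hc.symm, one_smul]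
    · rw [if_neg hc, if_neg (fun hh => hc hh.symm), zero_smul]
  · rw [if_neg (B11_ne hρ hτ h.ne)]
    refine UCF.ext' fun V _ _ y => ?_
    rw [zero_val, dr_val, finsum_eq_zero_of_forall_eq_zero, mul_zero]
    intro w
    have hz : rs τ w y = 0 := by
      rcases subsingleton_or_nontrivial V with hV | hV
      · refine rs_deg hτ.2.1.1 w y ?_
        rw [Module.finrank_fin_fun, Module.finrank_zero_of_subsingleton]
        omega
      · have : Nonempty (Fin m) := ⟨⟨0, hρ.1⟩⟩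
        exact hτ.2.2 (Fin m → F) V w y
    rw [hz, mul_zero]

/-- Expansion of the restriction in the first variable. HINT: for fixed `y` the function
`x ↦ rs f x y` on `GL_m` is a class function (`rs_inv`), and its inner product with `τ` is
`(dr m τ f).val y`; `cf_expand` (`exists_ucf`, `ucf_expand`). -/
theorem rs_expand (m : ℕ) (f : UCF F) (x : (Fin m → F) →ₗ[F] (Fin m → F)) {V : Type}
    [AddCommGroup V] [Module F V] (y : V →ₗ[F] V) :
    rs f x y = ∑ τ ∈ irrF F m, τ.val x * (dr m τ f).val y := by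
  classical
  by_cases hx : Function.Bijective x
  swap
  · rw [rs_supp f x y (fun h => hx h.2.2.1), Finset.sum_eq_zero]
    intro τ _
    rw [τ.supp x (fun h => hx h.2), zero_mul]
  have hA : Module.finrank F (Fin m → F) = m := Module.finrank_fin_fun F
  have fA : Finite ((Fin m → F) ≃ₗ[F] (Fin m → F)) :=
    Finite.of_injective (fun e : (Fin m → F) ≃ₗ[F] (Fin m → F) => (e : (Fin m → F) → (Fin m → F)))
      DFunLike.coe_injective
  have fE := B11_finite (F := F) m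
  have iA : Fintype ((Fin m → F) ≃ₗ[F] (Fin m → F)) := Fintype.ofFinite _
  have iE : Fintype ((Fin m → F) →ₗ[F] (Fin m → F)) := Fintype.ofFinite _
  obtain ⟨g, hg1, hg2⟩ := exists_ucf_on (Fin m → F)
    (fun x : (Fin m → F) ≃ₗ[F] (Fin m → F) => rs f (x : (Fin m → F) →ₗ[F] (Fin m → F)) y) (by
      intro a b
      exact rs_inv f b (LinearEquiv.refl F V) _ _ y y (fun v => by simp) (fun v => rfl))
  rw [hA] at hg1
  have hgx : ∀ x : (Fin m → F) ≃ₗ[F] (Fin m → F), g.val (x : (Fin m → F) →ₗ[F] (Fin m → F)) =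
      rs f (x : (Fin m → F) →ₗ[F] (Fin m → F)) y := fun x => congrFun hg2 x
  have hx1 : x = ((LinearEquiv.ofBijective x hx : (Fin m → F) ≃ₗ[F] (Fin m → F)) :
      (Fin m → F) →ₗ[F] (Fin m → F)) := by
    ext v
    rfl
  have h1 : rs f x y = g.val x := by
    rw [hx1, hgx]
  rw [h1, ucf_expand hg1, sum_val]
  refine Finset.sum_congr rfl fun τ _ => ?_
  rw [smul_val, mul_comm]
  congr 1
  rw [← ip_on (Fin m → F) m hA, dr_val, ← card_on (Fin m → F) m hA]
  unfold ip
  congr 1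
  rw [finsum_eq_sum_of_fintype, finsum_eq_sum_of_fintype]
  have h2 := sum_equiv_eq_sum_end (Fin m → F) τ (fun w => conj (rs f w y))
  rw [finsum_eq_sum_of_fintype, finsum_eq_sum_of_fintype] at h2
  have h3 := congrArg conj h2
  rw [map_sum, map_sum] at h3
  simp only [map_mul, Complex.conj_conj] at h3
  rw [← h3]
  refine Finset.sum_congr rfl fun w _ => ?_
  rw [mul_comm]
  congr 1
  exact hgx w

end Pool.Agent.Lib.MP_fa0f6c_al.Cx.B
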