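import Mathlib
import Pool.Agent.Lib.MP_fa0f6c_al.Cx.Defs
import Pool.Agent.Lib.MP_fa0f6c_al.Cx.BDefs

/-! Subspaces of `W × V` and shears. -/

set_option autoImplicit false

namespace Pool.Agent.Lib.MP_fa0f6c_al.Cx.B

open scoped ComplexConjugate

variable {F : Type} [Field F]

variable {W V : Type} [AddCommGroup W] [Module F W] [AddCommGroup V] [Module F V]

/-- the shear `(w, v) ↦ (w + s v, v)` of `W × V` -/
def shear (s : V →ₗ[F] W) : (W × V) ≃ₗ[F] (W × V) :=
  LinearEquiv.ofLinearMap (tri LinearMap.id LinearMap.id s) (tri LinearMap.id LinearMap.id (-s))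
    (by ext v <;> simp) (by ext v <;> simp)

@[simp] theorem shear_apply (s : V →ₗ[F] W) (p : W × V) : shear s p = (p.1 + s p.2, p.2) := by
  simp [shear]

/-- the number of `s : V →ₗ W` with `s V' ≤ W₁` -/
noncomputable def stabCard (W₁ : Submodule F W) (V' : Submodule F V) : ℕ :=
  Nat.card {s : V →ₗ[F] W // ∀ v ∈ V', s v ∈ W₁}

private theorem mem_shear_map (W₁ : Submodule F W) (V' : Submodule F V) (s : V →ₗ[F] W)
    (p : W × V) : p ∈ (W₁.prod V').map (shear s : (W × V) →ₗ[F] (W × V)) ↔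
      p.1 - s p.2 ∈ W₁ ∧ p.2 ∈ V' := by
  rw [Submodule.mem_map]
  constructor
  · rintro ⟨q, hq, rfl⟩
    rw [Submodule.mem_prod] at hq
    simp only [LinearEquiv.coe_coe, shear_apply, add_sub_cancel_right]
    exact hq
  · rintro ⟨h1, h2⟩
    refine ⟨(p.1 - s p.2, p.2), ?_, ?_⟩
    · rw [Submodule.mem_prod]
      exact ⟨h1, h2⟩
    · simp only [LinearEquiv.coe_coe, shear_apply, sub_add_cancel]

/-- HINT: `K.comap inl = W₁`, `K.map snd = V'` for `K = (W₁.prod V').map (shear s)`. -/
theorem shear_prod_invariants (W₁ : Submodule F W) (V' : Submodule F V) (s : V →ₗ[F] W) :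
    ((W₁.prod V').map (shear s : (W × V) →ₗ[F] (W × V))).comap (LinearMap.inl F W V) = W₁ ∧
    ((W₁.prod V').map (shear s : (W × V) →ₗ[F] (W × V))).map (LinearMap.snd F W V) = V' := by
  constructor
  · ext w
    rw [Submodule.mem_comap, mem_shear_map]
    simp
  · ext v
    rw [Submodule.mem_map]
    constructor
    · rintro ⟨p, hp, rfl⟩
      rw [mem_shear_map] at hp
      exact hp.2
    · intro hv
      refine ⟨(s v, v), ?_, rfl⟩
      rw [mem_shear_map]
      simpa using hv

/-- Every subspace `K` of `W × V` is a shear of a product. HINT: `W₁ = K.comap inl`, `V' = K.map snd`; the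
projection `K → V'` has a linear section (`LinearMap.exists_rightInverse_of_surjective`), its first
component extends from `V'` to a linear map `s : V → W` (`LinearMap.exists_extend`). -/
theorem exists_shear (K : Submodule F (W × V)) :
    ∃ s : V →ₗ[F] W, K = ((K.comap (LinearMap.inl F W V)).prod
      (K.map (LinearMap.snd F W V))).map (shear s : (W × V) →ₗ[F] (W × V)) := by
  obtain ⟨σ, hσ⟩ := LinearMap.exists_rightInverse_of_surjective
    ((LinearMap.snd F W V).submoduleMap K)
    (LinearMap.range_eq_top.2 ((LinearMap.snd F W V).submoduleMap_surjective K))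
  obtain ⟨s, hs⟩ := LinearMap.exists_extend
    ((LinearMap.fst F W V).comp (K.subtype.comp σ))
  refine ⟨s, ?_⟩
  have key : ∀ v ∈ K.map (LinearMap.snd F W V), (s v, v) ∈ K := by
    intro v hv
    have h1 : ((σ ⟨v, hv⟩ : K) : W × V).2 = v := by
      have := LinearMap.congr_fun hσ ⟨v, hv⟩
      exact congrArg Subtype.val this
    have h2 : s v = ((σ ⟨v, hv⟩ : K) : W × V).1 := LinearMap.congr_fun hs ⟨v, hv⟩
    have h3 : (s v, v) = ((σ ⟨v, hv⟩ : K) : W × V) := Prod.ext h2 h1.symm
    rw [h3]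
    exact (σ ⟨v, hv⟩).2
  ext p
  rw [mem_shear_map, Submodule.mem_comap]
  constructor
  · intro hp
    have hp2 : p.2 ∈ K.map (LinearMap.snd F W V) := ⟨p, hp, rfl⟩
    refine ⟨?_, hp2⟩
    have h1 := K.sub_mem hp (key p.2 hp2)
    have h2 : p - (s p.2, p.2) = LinearMap.inl F W V (p.1 - s p.2) := by
      ext <;> simp
    rwa [h2] at h1
  · rintro ⟨h1, h2⟩
    have h3 := K.add_mem h1 (key p.2 h2)
    have h4 : LinearMap.inl F W V (p.1 - s p.2) + (s p.2, p.2) = p := by
      ext <;> simp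
    rwa [h4] at h3

/-- HINT: `(W₁.prod V').map (shear s) = (W₁.prod V').map (shear s')` iff `s - s'` maps `V'` into `W₁`. -/
theorem shear_eq_iff (W₁ : Submodule F W) (V' : Submodule F V) (s s' : V →ₗ[F] W) :
    (W₁.prod V').map (shear s : (W × V) →ₗ[F] (W × V)) =
      (W₁.prod V').map (shear s' : (W × V) →ₗ[F] (W × V)) ↔ ∀ v ∈ V', (s - s') v ∈ W₁ := by
  constructor
  · intro h v hv
    have h1 : (s v, v) ∈ (W₁.prod V').map (shear s : (W × V) →ₗ[F] (W × V)) := by
      rw [mem_shear_map]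
      simpa using hv
    rw [h, mem_shear_map] at h1
    exact h1.1
  · intro h
    ext p
    rw [mem_shear_map, mem_shear_map]
    constructor
    · rintro ⟨h1, h2⟩
      refine ⟨?_, h2⟩
      have h3 := W₁.add_mem h1 (h p.2 h2)
      have h4 : p.1 - s p.2 + (s - s') p.2 = p.1 - s' p.2 := by
        rw [LinearMap.sub_apply]; abel
      rwa [h4] at h3
    · rintro ⟨h1, h2⟩
      refine ⟨?_, h2⟩
      have h3 := W₁.sub_mem h1 (h p.2 h2)
      have h4 : p.1 - s' p.2 - (s - s') p.2 = p.1 - s p.2 := by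
        rw [LinearMap.sub_apply]; abel
      rwa [h4] at h3

/-- Summation over the subspaces of `W × V`. HINT: group the subspaces `K` by
`(W₁, V') = (K.comap inl, K.map snd)`; for given `(W₁, V')` the map `s ↦ (W₁.prod V').map (shear s)` is
onto the set of these `K` (`exists_shear`, `shear_prod_invariants`) with fibres of size
`stabCard W₁ V'` (`shear_eq_iff`). -/
theorem sum_sub_prod [Finite W] [Finite V] (Φ : Submodule F (W × V) → ℂ) :
    ∑ᶠ K : Submodule F (W × V), Φ K =
      ∑ᶠ W₁ : Submodule F W, ∑ᶠ V' : Submodule F V, (stabCard W₁ V' : ℂ)⁻¹ *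
        ∑ᶠ s : V →ₗ[F] W, Φ ((W₁.prod V').map (shear s : (W × V) →ₗ[F] (W × V))) := by
  classical
  have : Finite (V →ₗ[F] W) := Finite.of_injective (fun f : V →ₗ[F] W => (f : V → W))
    DFunLike.coe_injective
  have : Fintype (Submodule F (W × V)) := Fintype.ofFinite _
  have : Fintype (Submodule F W) := Fintype.ofFinite _
  have : Fintype (Submodule F V) := Fintype.ofFinite _
  have : Fintype (V →ₗ[F] W) := Fintype.ofFinite _
  simp only [finsum_eq_sum_of_fintype]
  rw [← Finset.sum_fiberwise (s := (Finset.univ : Finset (Submodule F (W × V))))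
    (fun K => (K.comap (LinearMap.inl F W V), K.map (LinearMap.snd F W V))) Φ,
    Fintype.sum_prod_type]
  refine Finset.sum_congr rfl fun W₁ _ => Finset.sum_congr rfl fun V' _ => ?_
  have hc : (stabCard W₁ V' : ℂ) ≠ 0 := by
    unfold stabCard
    have : Nonempty {s : V →ₗ[F] W // ∀ v ∈ V', s v ∈ W₁} := ⟨⟨0, fun v _ => by simp⟩⟩
    exact_mod_cast Nat.card_pos.ne'
  rw [eq_inv_mul_iff_mul_eq₀ hc, Finset.mul_sum]
  have hmaps : ∀ s ∈ (Finset.univ : Finset (V →ₗ[F] W)),
      (W₁.prod V').map (shear s : (W × V) →ₗ[F] (W × V)) ∈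
        Finset.univ.filter (fun K : Submodule F (W × V) =>
          (K.comap (LinearMap.inl F W V), K.map (LinearMap.snd F W V)) = (W₁, V')) := by
    intro s _
    rw [Finset.mem_filter]
    refine ⟨Finset.mem_univ _, ?_⟩
    obtain ⟨h1, h2⟩ := shear_prod_invariants W₁ V' s
    rw [h1, h2]
  rw [← Finset.sum_fiberwise_of_maps_to hmaps]
  refine Finset.sum_congr rfl fun K hK => ?_
  rw [Finset.mem_filter, Prod.mk.injEq] at hK
  obtain ⟨-, hK1, hK2⟩ := hK
  have h1 : ∀ s ∈ Finset.univ.filter (fun s : V →ₗ[F] W =>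
      (W₁.prod V').map (shear s : (W × V) →ₗ[F] (W × V)) = K),
      Φ ((W₁.prod V').map (shear s : (W × V) →ₗ[F] (W × V))) = Φ K := by
    intro s hs
    rw [(Finset.mem_filter.1 hs).2]
  rw [Finset.sum_congr rfl h1, Finset.sum_const, nsmul_eq_mul]
  congr 2
  obtain ⟨s₀, hs₀⟩ := exists_shear K
  rw [hK1, hK2] at hs₀
  unfold stabCard
  rw [← Fintype.card_subtype, ← Nat.card_eq_fintype_card]
  refine Nat.card_congr (Equiv.subtypeEquiv (Equiv.addRight s₀) fun s => ?_)
  conv_rhs => rw [hs₀]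
  rw [shear_eq_iff]
  simp

end Pool.Agent.Lib.MP_fa0f6c_al.Cx.B
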