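import Mathlib
import Pool.Agent.Lib.MP_fa0f6c_al.Cx.Defs
import Pool.Agent.Lib.MP_fa0f6c_al.Cx.BDefs
import Pool.Agent.Lib.MP_fa0f6c_al.Cx.BAlg
import Pool.Agent.Lib.MP_fa0f6c_al.Cx.B12

set_option autoImplicit false

namespace Pool.Agent.Lib.MP_fa0f6c_al.Cx.B

open scoped ComplexConjugate

variable {F : Type} [Field F]

variable {W V : Type} [AddCommGroup W] [Module F W] [AddCommGroup V] [Module F V]

/-- HINT: `tm_inv` for the isomorphism `shear s`:
`shear(s)⁻¹ ∘ tri w y φ ∘ shear(s) = tri w y (φ + w ∘ s - s ∘ y)`. -/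
theorem tm_shear (f g : UCF F) (w : W →ₗ[F] W) (y : V →ₗ[F] V) (φ : V →ₗ[F] W)
    (W₁ : Submodule F W) (V' : Submodule F V) (s : V →ₗ[F] W) :
    tm f g (tri w y φ) ((W₁.prod V').map (shear s : (W × V) →ₗ[F] (W × V))) =
      tm f g (tri w y (φ + w.comp s - s.comp y)) (W₁.prod V') := by
  refine (tm_inv f g (shear s) (tri w y (φ + w.comp s - s.comp y)) (tri w y φ) (fun v => ?_)
    (W₁.prod V')).symm
  rw [shear_apply, tri_apply, tri_apply, shear_apply]
  refine Prod.ext ?_ rfl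
  simp only [LinearMap.sub_apply, LinearMap.add_apply, LinearMap.comp_apply, map_add]
  abel

/-- The formula for the restriction of a product. HINT: `rs (f*g) w y = |V →ₗ W|⁻¹ ∑_φ ∑_K tm ..`;
`sum_sub_prod`, `tm_shear`, exchange the sums over `φ` and `s`, and for fixed `s` substitute
`φ ↦ φ - w ∘ s + s ∘ y`; the sum over `s` then gives the factor `|V →ₗ W|`. -/
theorem rs_mul_formula [Finite W] [Finite V] (f g : UCF F) (w : W →ₗ[F] W) (y : V →ₗ[F] V) :
    rs (f * g) w y = ∑ᶠ W₁ : Submodule F W, ∑ᶠ V' : Submodule F V, (stabCard W₁ V' : ℂ)⁻¹ *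
      ∑ᶠ φ : V →ₗ[F] W, tm f g (tri w y φ) (W₁.prod V') := by
  classical
  have : Finite (V →ₗ[F] W) := Finite.of_injective (fun f : V →ₗ[F] W => (f : V → W))
    DFunLike.coe_injective
  have : Fintype (Submodule F W) := Fintype.ofFinite _
  have : Fintype (Submodule F V) := Fintype.ofFinite _
  have : Fintype (V →ₗ[F] W) := Fintype.ofFinite _
  have hc : (Nat.card (V →ₗ[F] W) : ℂ) ≠ 0 := by
    exact_mod_cast Nat.card_pos.ne'
  unfold rs
  have h1 : ∀ φ : V →ₗ[F] W, (f * g).val (tri w y φ) =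
      ∑ W₁ : Submodule F W, ∑ V' : Submodule F V, (stabCard W₁ V' : ℂ)⁻¹ *
        ∑ s : V →ₗ[F] W, tm f g (tri w y (φ + w.comp s - s.comp y)) (W₁.prod V') := by
    intro φ
    rw [mul_val, sum_sub_prod, finsum_eq_sum_of_fintype]
    refine Finset.sum_congr rfl fun W₁ _ => ?_
    rw [finsum_eq_sum_of_fintype]
    refine Finset.sum_congr rfl fun V' _ => ?_
    rw [finsum_eq_sum_of_fintype]
    congr 1
    exact Finset.sum_congr rfl fun s _ => tm_shear f g w y φ W₁ V' s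
  rw [finsum_eq_sum_of_fintype, Finset.sum_congr rfl (fun φ _ => h1 φ), Finset.sum_comm,
    inv_mul_eq_iff_eq_mul₀ hc, finsum_eq_sum_of_fintype, Finset.mul_sum]
  refine Finset.sum_congr rfl fun W₁ _ => ?_
  rw [Finset.sum_comm, finsum_eq_sum_of_fintype, Finset.mul_sum]
  refine Finset.sum_congr rfl fun V' _ => ?_
  rw [← Finset.mul_sum, mul_left_comm]
  congr 1
  rw [Finset.sum_comm, finsum_eq_sum_of_fintype]
  have h2 : ∀ s : V →ₗ[F] W,
      ∑ φ : V →ₗ[F] W, tm f g (tri w y (φ + w.comp s - s.comp y)) (W₁.prod V') =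
        ∑ φ : V →ₗ[F] W, tm f g (tri w y φ) (W₁.prod V') := by
    intro s
    refine Fintype.sum_equiv (Equiv.addRight (w.comp s - s.comp y)) _ _ fun φ => ?_
    rw [Equiv.coe_addRight, add_sub_assoc]
  rw [Finset.sum_congr rfl (fun s _ => h2 s), Finset.sum_const, nsmul_eq_mul, Finset.card_univ,
    Nat.card_eq_fintype_card]

end Pool.Agent.Lib.MP_fa0f6c_al.Cx.B
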