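import Mathlib
import Pool.Agent.Lib.MP_fa0f6c_al.Cx.Defs
import Pool.Agent.Lib.MP_fa0f6c_al.Cx.BDefs
import Pool.Agent.Lib.MP_fa0f6c_al.Cx.B12

set_option autoImplicit false

namespace Pool.Agent.Lib.MP_fa0f6c_al.Cx.B

open scoped ComplexConjugate

variable {F : Type} [Field F]

variable {W V : Type} [AddCommGroup W] [Module F W] [AddCommGroup V] [Module F V]

/-- Averages along a surjective homomorphism. -/
theorem B14_avg {A B : Type} [AddCommGroup A] [AddCommGroup B] [Finite A] [Finite B]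
    (π : A →+ B) (hπ : Function.Surjective π) (Φ : B → ℂ) :
    (Nat.card A : ℂ)⁻¹ * ∑ᶠ a, Φ (π a) = (Nat.card B : ℂ)⁻¹ * ∑ᶠ b, Φ b := by
  classical
  have : Fintype A := Fintype.ofFinite _
  have : Fintype B := Fintype.ofFinite _
  simp only [finsum_eq_sum_of_fintype, Nat.card_eq_fintype_card]
  set k : ℕ := (Finset.univ.filter fun a => π a = 0).card with hk
  have hfib : ∀ b, (Finset.univ.filter fun a => π a = b).card = k := fun b =>
    AddMonoidHom.card_fiber_eq_of_mem_range π (hπ b) (hπ 0)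
  have h1 : ∑ a, Φ (π a) = k * ∑ b, Φ b := by
    rw [← Finset.sum_fiberwise Finset.univ π, Finset.mul_sum]
    refine Finset.sum_congr rfl fun b _ => ?_
    have h2 : ∀ a ∈ Finset.univ.filter (fun a => π a = b), Φ (π a) = Φ b := by
      intro a ha
      rw [(Finset.mem_filter.1 ha).2]
    rw [Finset.sum_congr rfl h2, Finset.sum_const, nsmul_eq_mul, hfib]
  have h2 : (Fintype.card A : ℂ) = k * Fintype.card B := by
    have := Finset.card_eq_sum_card_fiberwise (f := π) (s := Finset.univ) (t := Finset.univ)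
      (fun _ _ => Finset.mem_coe.2 (Finset.mem_univ _))
    rw [Finset.sum_congr rfl (fun b _ => hfib b), Finset.sum_const, Finset.card_univ,
      Finset.card_univ, smul_eq_mul] at this
    rw [this]
    push_cast
    ring
  have hA : (Fintype.card A : ℂ) ≠ 0 := by
    exact_mod_cast Fintype.card_ne_zero
  have hk0 : (k : ℂ) ≠ 0 := by
    intro h0
    rw [h2, h0, zero_mul] at hA
    exact hA rfl
  rw [h1, h2, mul_inv]
  calc (k : ℂ)⁻¹ * (Fintype.card B : ℂ)⁻¹ * (k * ∑ b, Φ b)
      = ((k : ℂ)⁻¹ * k) * ((Fintype.card B : ℂ)⁻¹ * ∑ b, Φ b) := by ring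
    _ = _ := by rw [inv_mul_cancel₀ hk0, one_mul]

/-- the subspace `⊤ × V'` -/
def B14_sub (V' : Submodule F V) : ((⊤ : Submodule F W).prod V') ≃ₗ[F] (W × V') where
  toFun p := (p.1.1, ⟨p.1.2, (Submodule.mem_prod.1 p.2).2⟩)
  map_add' _ _ := rfl
  map_smul' _ _ := rfl
  invFun q := ⟨(q.1, (q.2 : V)), Submodule.mem_prod.2 ⟨Submodule.mem_top, q.2.2⟩⟩
  left_inv _ := rfl
  right_inv _ := rfl

/-- the quotient by `⊤ × V'` -/
def B14_quo (V' : Submodule F V) : ((W × V) ⧸ ((⊤ : Submodule F W).prod V')) ≃ₗ[F] (V ⧸ V') :=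
  LinearEquiv.ofLinearMap
    (Submodule.liftQ _ (V'.mkQ.comp (LinearMap.snd F W V)) (by
      intro p hp
      rw [LinearMap.mem_ker, LinearMap.comp_apply, LinearMap.snd_apply, Submodule.mkQ_apply,
        Submodule.Quotient.mk_eq_zero]
      exact (Submodule.mem_prod.1 hp).2))
    (Submodule.liftQ _ ((Submodule.mkQ _).comp (LinearMap.inr F W V)) (by
      intro v hv
      rw [LinearMap.mem_ker, LinearMap.comp_apply, LinearMap.inr_apply, Submodule.mkQ_apply,
        Submodule.Quotient.mk_eq_zero]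
      exact Submodule.mem_prod.2 ⟨Submodule.mem_top, hv⟩))
    (by
      ext v
      simp)
    (by
      apply Submodule.linearMap_qext
      apply LinearMap.ext
      intro p
      simp only [LinearMap.comp_apply, Submodule.mkQ_apply, Submodule.liftQ_apply,
        LinearMap.snd_apply, LinearMap.inr_apply, LinearMap.id_apply]
      rw [Submodule.Quotient.eq, Submodule.mem_prod]
      exact ⟨Submodule.mem_top, by simp⟩)

/-- The terms with `W₁ = ⊤`. HINT: `⊤ × V'` is stable under `tri w y φ` iff `V'` is stable under `y`; the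
subspace is `≃ W × V'` with the map `tri w (y|V') (φ ∘ V'.subtype)`, the quotient `≃ V ⧸ V'` with the map
induced by `y`. `stabCard ⊤ V' = |V →ₗ W|`; and `φ ↦ φ ∘ V'.subtype` is a surjective homomorphism
`(V →ₗ W) → (V' →ₗ W)` (`LinearMap.exists_extend`), so averages over `φ` are averages over `V' →ₗ W`. -/
theorem tm_top [Finite W] [Finite V] (f g : UCF F) (w : W →ₗ[F] W) (y : V →ₗ[F] V)
    (V' : Submodule F V) :
    (stabCard (⊤ : Submodule F W) V' : ℂ)⁻¹ *
      ∑ᶠ φ : V →ₗ[F] W, tm f g (tri w y φ) ((⊤ : Submodule F W).prod V') =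
    open Classical in
    if h : ∀ v ∈ V', y v ∈ V' then rs f w (y.restrict h) * g.val (V'.mapQ V' y h) else 0 := by
  classical
  have hst : stabCard (⊤ : Submodule F W) V' = Nat.card (V →ₗ[F] W) :=
    Nat.card_congr (Equiv.subtypeUnivEquiv fun s v _ => Submodule.mem_top)
  split_ifs with h
  · have hs : ∀ φ : V →ₗ[F] W, ∀ p ∈ (⊤ : Submodule F W).prod V',
        tri w y φ p ∈ (⊤ : Submodule F W).prod V' := by
      intro φ p hp
      exact Submodule.mem_prod.2 ⟨Submodule.mem_top, h _ (Submodule.mem_prod.1 hp).2⟩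
    have ht : ∀ φ : V →ₗ[F] W, tm f g (tri w y φ) ((⊤ : Submodule F W).prod V') =
        f.val (tri w (y.restrict h) (φ.comp V'.subtype)) * g.val (V'.mapQ V' y h) := by
      intro φ
      rw [tm, dif_pos (hs φ)]
      congr 1
      · exact f.inv (B14_sub V') _ _ fun p => rfl
      · refine g.inv (B14_quo V') _ _ fun p => ?_
        obtain ⟨p, rfl⟩ := Submodule.mkQ_surjective _ p
        rfl
    have hfin : Finite (V →ₗ[F] W) := Finite.of_injective (fun f : V →ₗ[F] W => (f : V → W))
      DFunLike.coe_injective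
    have hfin' : Finite (V' →ₗ[F] W) := Finite.of_injective (fun f : V' →ₗ[F] W => (f : V' → W))
      DFunLike.coe_injective
    have hav := B14_avg (LinearMap.toAddMonoidHom (LinearMap.lcomp F W V'.subtype))
      (fun ψ => LinearMap.exists_extend ψ)
      (fun ψ : V' →ₗ[F] W => f.val (tri w (y.restrict h) ψ) * g.val (V'.mapQ V' y h))
    rw [hst, finsum_congr ht]
    refine hav.trans ?_
    rw [rs, mul_assoc, finsum_mul' _ _ (Set.toFinite _)]
  · have ht : ∀ φ : V →ₗ[F] W, tm f g (tri w y φ) ((⊤ : Submodule F W).prod V') = 0 := by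
      intro φ
      rw [tm, dif_neg]
      intro hs
      apply h
      intro v hv
      exact (Submodule.mem_prod.1 (hs (0, v) (Submodule.mem_prod.2 ⟨Submodule.mem_top, hv⟩))).2
    rw [finsum_congr ht, finsum_zero, mul_zero]

end Pool.Agent.Lib.MP_fa0f6c_al.Cx.B
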