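import Mathlib
import Pool.Agent.Lib.MP_fa0f6c_al.Cx.Defs
import Pool.Agent.Lib.MP_fa0f6c_al.Cx.BDefs
import Pool.Agent.Lib.MP_fa0f6c_al.Cx.B12

set_option autoImplicit false

namespace Pool.Agent.Lib.MP_fa0f6c_al.Cx.B

open scoped ComplexConjugate

variable {F : Type} [Field F]

variable {W V : Type} [AddCommGroup W] [Module F W] [AddCommGroup V] [Module F V]

/-- the subspace `⊥ × V'` is isomorphic to `V'` -/
private def B15_e1 (W : Type) [AddCommGroup W] [Module F W] (V' : Submodule F V) :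
    ((⊥ : Submodule F W).prod V') ≃ₗ[F] V' where
  toFun p := ⟨(p : W × V).2, (Submodule.mem_prod.mp p.2).2⟩
  map_add' p q := rfl
  map_smul' c p := rfl
  invFun v := ⟨(0, (v : V)), Submodule.mem_prod.mpr ⟨Submodule.zero_mem _, v.2⟩⟩
  left_inv p := by
    apply Subtype.ext
    refine Prod.ext ?_ rfl
    exact ((Submodule.mem_bot F).mp (Submodule.mem_prod.mp p.2).1).symm
  right_inv v := rfl

private theorem B15_ker (W : Type) [AddCommGroup W] [Module F W] (V' : Submodule F V) :
    ((⊥ : Submodule F W).prod V') =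
      (LinearMap.prodMap (LinearMap.id : W →ₗ[F] W) V'.mkQ).ker := by
  ext p
  rw [Submodule.mem_prod, LinearMap.mem_ker, LinearMap.prodMap_apply, Prod.mk_eq_zero,
    Submodule.mem_bot, LinearMap.id_apply, Submodule.mkQ_apply, Submodule.Quotient.mk_eq_zero]

/-- the quotient by `⊥ × V'` -/
private noncomputable def B15_e2 (W : Type) [AddCommGroup W] [Module F W] (V' : Submodule F V) :
    ((W × V) ⧸ ((⊥ : Submodule F W).prod V')) ≃ₗ[F] W × (V ⧸ V') :=
  (Submodule.quotEquivOfEq _ _ (B15_ker W V')).trans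
    ((LinearMap.prodMap (LinearMap.id : W →ₗ[F] W) V'.mkQ).quotKerEquivOfSurjective (by
      rintro ⟨a, b⟩
      obtain ⟨b', rfl⟩ := V'.mkQ_surjective b
      exact ⟨(a, b'), rfl⟩))

private theorem B15_e2_mk (W : Type) [AddCommGroup W] [Module F W] (V' : Submodule F V)
    (p : W × V) : B15_e2 W V' (Submodule.Quotient.mk p) = (p.1, Submodule.Quotient.mk p.2) := rfl

/-- the value of the term of `⊥ × V'` if `φ` vanishes on `V'` -/
private theorem B15_val (f g : UCF F) (w : W →ₗ[F] W) (y : V →ₗ[F] V)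
    (V' : Submodule F V) (h : ∀ v ∈ V', y v ∈ V') (φ' : (V ⧸ V') →ₗ[F] W) :
    tm f g (tri w y (φ'.comp V'.mkQ)) ((⊥ : Submodule F W).prod V') =
      f.val (y.restrict h) * g.val (tri w (V'.mapQ V' y h) φ') := by
  classical
  have h' : ∀ p ∈ ((⊥ : Submodule F W).prod V'), tri w y (φ'.comp V'.mkQ) p ∈
      ((⊥ : Submodule F W).prod V') := by
    intro p hp
    rw [Submodule.mem_prod] at hp ⊢
    rw [tri_apply]
    refine ⟨?_, h _ hp.2⟩
    have h1 : p.1 = 0 := (Submodule.mem_bot F).mp hp.1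
    have h2 : (φ'.comp V'.mkQ) p.2 = 0 := by
      rw [LinearMap.comp_apply, Submodule.mkQ_apply, (Submodule.Quotient.mk_eq_zero V').mpr hp.2,
        map_zero]
    rw [Submodule.mem_bot]
    simp only
    rw [h1, h2, map_zero, add_zero]
  unfold tm
  rw [dif_pos h']
  congr 1
  · exact f.inv (B15_e1 W V') _ _ (fun p => rfl)
  · refine g.inv (B15_e2 W V') _ _ (fun q => ?_)
    obtain ⟨p, rfl⟩ := Submodule.Quotient.mk_surjective _ q
    rw [Submodule.mapQ_apply, B15_e2_mk, B15_e2_mk, tri_apply, tri_apply, Submodule.mapQ_apply]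
    rfl

/-- the other terms -/
private theorem B15_zero (f g : UCF F) (w : W →ₗ[F] W) (y : V →ₗ[F] V)
    (V' : Submodule F V) (φ : V →ₗ[F] W)
    (h : ¬ ((∀ v ∈ V', y v ∈ V') ∧ ∀ v ∈ V', φ v = 0)) :
    tm f g (tri w y φ) ((⊥ : Submodule F W).prod V') = 0 := by
  classical
  unfold tm
  rw [dif_neg]
  intro hc
  apply h
  have key : ∀ v ∈ V', φ v = 0 ∧ y v ∈ V' := by
    intro v hv
    have h1 := hc (0, v) (Submodule.mem_prod.mpr ⟨Submodule.zero_mem _, hv⟩)
    rw [tri_apply, Submodule.mem_prod] at h1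
    simp only [map_zero, zero_add] at h1
    exact ⟨(Submodule.mem_bot F).mp h1.1, h1.2⟩
  exact ⟨fun v hv => (key v hv).2, fun v hv => (key v hv).1⟩

private theorem B15_stab [Finite W] [Finite V] (V' : Submodule F V) :
    stabCard (⊥ : Submodule F W) V' = Nat.card ((V ⧸ V') →ₗ[F] W) := by
  unfold stabCard
  refine Nat.card_congr
    { toFun := fun s => V'.liftQ s.1 (fun v hv => by
        rw [LinearMap.mem_ker]
        exact (Submodule.mem_bot F).mp (s.2 v hv))
      invFun := fun φ' => ⟨φ'.comp V'.mkQ, fun v hv => by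
        rw [Submodule.mem_bot, LinearMap.comp_apply, Submodule.mkQ_apply,
          (Submodule.Quotient.mk_eq_zero V').mpr hv, map_zero]⟩
      left_inv := fun s => by
        apply Subtype.ext
        apply LinearMap.ext
        intro v
        rfl
      right_inv := fun φ' => by
        apply Submodule.linearMap_qext
        apply LinearMap.ext
        intro v
        rfl }

/-- The terms with `W₁ = ⊥`. HINT: `⊥ × V'` is stable under `tri w y φ` iff `V'` is stable under `y` and `φ`
vanishes on `V'`, i.e. `φ = φ' ∘ V'.mkQ` with a unique `φ' : V ⧸ V' →ₗ W` (`Submodule.liftQ`); the subspace is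
`≃ V'` with the map `y|V'`, the quotient `≃ W × (V ⧸ V')` with the map `tri w (y mod V') φ'`.
`stabCard ⊥ V' = |V ⧸ V' →ₗ W|`. -/
theorem tm_bot [Finite W] [Finite V] (f g : UCF F) (w : W →ₗ[F] W) (y : V →ₗ[F] V)
    (V' : Submodule F V) :
    (stabCard (⊥ : Submodule F W) V' : ℂ)⁻¹ *
      ∑ᶠ φ : V →ₗ[F] W, tm f g (tri w y φ) ((⊥ : Submodule F W).prod V') =
    open Classical in
    if h : ∀ v ∈ V', y v ∈ V' then f.val (y.restrict h) * rs g w (V'.mapQ V' y h) else 0 := by
  classical
  by_cases h : ∀ v ∈ V', y v ∈ V'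
  · rw [dif_pos h]
    unfold rs
    rw [B15_stab]
    have hfin1 : Finite (V →ₗ[F] W) := Finite.of_injective (fun f : V →ₗ[F] W => (f : V → W))
      DFunLike.coe_injective
    have hfin0 : Finite (V ⧸ V') := Finite.of_surjective _ V'.mkQ_surjective
    have hfin2 : Finite ((V ⧸ V') →ₗ[F] W) :=
      Finite.of_injective (fun f : (V ⧸ V') →ₗ[F] W => (f : (V ⧸ V') → W)) DFunLike.coe_injective
    have i1 : Fintype (V →ₗ[F] W) := Fintype.ofFinite _
    have i2 : Fintype ((V ⧸ V') →ₗ[F] W) := Fintype.ofFinite _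
    rw [finsum_eq_sum_of_fintype, finsum_eq_sum_of_fintype]
    have hsum : ∑ φ' : (V ⧸ V') →ₗ[F] W, f.val (y.restrict h) * g.val (tri w (V'.mapQ V' y h) φ') =
        ∑ φ : V →ₗ[F] W, tm f g (tri w y φ) ((⊥ : Submodule F W).prod V') := by
      refine Fintype.sum_of_injective (fun φ' : (V ⧸ V') →ₗ[F] W => φ'.comp V'.mkQ) ?_ _ _ ?_ ?_
      · intro a b hab
        exact Submodule.linearMap_qext _ hab
      · intro φ hφ
        apply B15_zero
        rintro ⟨-, h2⟩
        apply hφ
        refine ⟨V'.liftQ φ (fun v hv => by rw [LinearMap.mem_ker]; exact h2 v hv), ?_⟩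
        apply LinearMap.ext
        intro v
        rfl
      · intro φ'
        exact (B15_val f g w y V' h φ').symm
    rw [← hsum, ← Finset.mul_sum]
    ring
  · rw [dif_neg h]
    have h0 : ∀ φ : V →ₗ[F] W, tm f g (tri w y φ) ((⊥ : Submodule F W).prod V') = 0 :=
      fun φ => B15_zero f g w y V' φ (fun hc => h hc.1)
    simp only [h0, finsum_zero, mul_zero]

end Pool.Agent.Lib.MP_fa0f6c_al.Cx.B
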