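import Mathlib
import Pool.Agent.Lib.MP_fa0f6c_al.Cx.Defs
import Pool.Agent.Lib.MP_fa0f6c_al.Cx.BDefs
import Pool.Agent.Lib.MP_fa0f6c_al.Cx.B12

set_option autoImplicit false

namespace Pool.Agent.Lib.MP_fa0f6c_al.Cx.B

open scoped ComplexConjugate

variable {F : Type} [Field F]

variable {W V : Type} [AddCommGroup W] [Module F W] [AddCommGroup V] [Module F V]

/-- HINT: choose a complement of `W₁` (`Submodule.exists_isCompl`), so `W ≃ W₁ × (W ⧸ W₁)`, under which
`w + W₁.subtype ∘ δ ∘ W₁.mkQ` becomes `tri w₁ w₂ (ψ + δ)`; the sum over `δ` is a multiple of `rs ρ w₁ w₂`, which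
is `0` by `hρ` (both spaces are nontrivial). -/
theorem cusp_sum [Finite W] {ρ : UCF F}
    (hρ : ∀ (A B : Type) [AddCommGroup A] [Module F A] [AddCommGroup B] [Module F B]
      [Nontrivial A] [Nontrivial B] (x : A →ₗ[F] A) (y : B →ₗ[F] B), rs ρ x y = 0)
    (W₁ : Submodule F W) (h1 : W₁ ≠ ⊥) (h2 : W₁ ≠ ⊤) (w : W →ₗ[F] W) (hw : ∀ v ∈ W₁, w v ∈ W₁) :
    ∑ᶠ δ : (W ⧸ W₁) →ₗ[F] W₁, ρ.val (w + W₁.subtype.comp (δ.comp W₁.mkQ)) = 0 := by
  classical
  obtain ⟨s, hs⟩ := W₁.mkQ.exists_rightInverse_of_surjective (Submodule.range_mkQ W₁)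
  have hs' : ∀ b, W₁.mkQ (s b) = b := fun b => LinearMap.congr_fun hs b
  have hsub : ∀ a ∈ W₁, W₁.mkQ a = 0 := fun a ha => (Submodule.Quotient.mk_eq_zero W₁).mpr ha
  have hdiff : ∀ v : W, v - s (W₁.mkQ v) ∈ W₁ := by
    intro v
    rw [← Submodule.Quotient.mk_eq_zero W₁, ← Submodule.mkQ_apply, map_sub, hs', sub_self]
  -- the isomorphism
  let e : (W₁ × (W ⧸ W₁)) ≃ₗ[F] W :=
    { toFun := fun p => (p.1 : W) + s p.2
      map_add' := by
        intro p q
        simp only [Prod.fst_add, Prod.snd_add, Submodule.coe_add, map_add]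
        abel
      map_smul' := by
        intro c p
        simp only [Prod.smul_fst, Prod.smul_snd, Submodule.coe_smul, map_smul, RingHom.id_apply,
          smul_add]
      invFun := fun v => (⟨v - s (W₁.mkQ v), hdiff v⟩, W₁.mkQ v)
      left_inv := by
        rintro ⟨a, b⟩
        have h3 : W₁.mkQ ((a : W) + s b) = b := by
          rw [map_add, hsub _ a.2, zero_add, hs']
        ext
        · simp [h3]
        · exact h3
      right_inv := by
        intro v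
        simp }
  have he : ∀ p, e p = (p.1 : W) + s p.2 := fun p => rfl
  let x0 : W₁ →ₗ[F] W₁ := w.restrict hw
  let y0 : (W ⧸ W₁) →ₗ[F] (W ⧸ W₁) := W₁.mapQ W₁ w hw
  have hy0 : ∀ v, y0 (W₁.mkQ v) = W₁.mkQ (w v) := fun v => rfl
  have hψ : ∀ b, (w.comp s - s.comp y0) b ∈ W₁ := by
    intro b
    rw [← Submodule.Quotient.mk_eq_zero W₁, ← Submodule.mkQ_apply, LinearMap.sub_apply, map_sub,
      LinearMap.comp_apply, LinearMap.comp_apply, hs', ← hy0, hs', sub_self]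
  let ψ : (W ⧸ W₁) →ₗ[F] W₁ := LinearMap.codRestrict W₁ (w.comp s - s.comp y0) hψ
  have hψ' : ∀ b, (ψ b : W) = w (s b) - s (y0 b) := fun b => rfl
  have hval : ∀ δ : (W ⧸ W₁) →ₗ[F] W₁, ρ.val (w + W₁.subtype.comp (δ.comp W₁.mkQ)) =
      ρ.val (tri x0 y0 (ψ + δ)) := by
    intro δ
    symm
    refine ρ.inv e _ _ ?_
    rintro ⟨a, b⟩
    rw [tri_apply, he, he]
    have h3 : W₁.mkQ ((a : W) + s b) = b := by
      rw [map_add, hsub _ a.2, zero_add, hs']
    simp only [LinearMap.add_apply, LinearMap.comp_apply, Submodule.subtype_apply,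
      Submodule.coe_add, hψ']
    have h4 : ((x0 a : W₁) : W) = w a := rfl
    rw [h3, h4, map_add]
    abel
  have : Nontrivial W₁ := Submodule.nontrivial_iff_ne_bot.mpr h1
  have : Nontrivial (W ⧸ W₁) := Submodule.Quotient.nontrivial_iff.mpr h2
  have h5 := hρ W₁ (W ⧸ W₁) x0 y0
  rw [rs] at h5
  have hfinq : Finite (W ⧸ W₁) := Finite.of_surjective _ (Submodule.mkQ_surjective W₁)
  have hfin : Finite ((W ⧸ W₁) →ₗ[F] W₁) := DFunLike.finite _
  have h6 : (Nat.card ((W ⧸ W₁) →ₗ[F] W₁) : ℂ)⁻¹ ≠ 0 := by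
    rw [ne_eq, inv_eq_zero]
    exact_mod_cast Nat.card_pos.ne'
  have h7 := (mul_eq_zero.mp h5).resolve_left h6
  rw [← h7]
  simp only [hval]
  exact finsum_comp_equiv (Equiv.addLeft ψ) (f := fun φ => ρ.val (tri x0 y0 φ))

/-- HINT: adding `W₁.subtype ∘ δ ∘ W₁.mkQ` to `w` changes neither the stability of `W₁ × V'` nor the
restricted map nor the quotient map. -/
theorem tm_add_delta (f g : UCF F) (w : W →ₗ[F] W) (y : V →ₗ[F] V) (φ : V →ₗ[F] W)
    (W₁ : Submodule F W) (V' : Submodule F V) (δ : (W ⧸ W₁) →ₗ[F] W₁) :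
    tm f g (tri (w + W₁.subtype.comp (δ.comp W₁.mkQ)) y φ) (W₁.prod V') =
      tm f g (tri w y φ) (W₁.prod V') := by
  classical
  have hsub : ∀ a ∈ W₁, W₁.mkQ a = 0 := fun a ha => (Submodule.Quotient.mk_eq_zero W₁).mpr ha
  have hap : ∀ p : W × V, tri (w + W₁.subtype.comp (δ.comp W₁.mkQ)) y φ p =
      tri w y φ p + ((δ (W₁.mkQ p.1) : W), 0) := by
    intro p
    rw [tri_apply, tri_apply]
    ext
    · simp only [LinearMap.add_apply, LinearMap.comp_apply, Submodule.subtype_apply, Prod.fst_add]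
      abel
    · simp
  have hap' : ∀ p ∈ W₁.prod V', tri (w + W₁.subtype.comp (δ.comp W₁.mkQ)) y φ p = tri w y φ p := by
    intro p hp
    rw [hap, hsub _ hp.1, map_zero]
    ext <;> simp
  have hiff : (∀ p ∈ W₁.prod V', tri (w + W₁.subtype.comp (δ.comp W₁.mkQ)) y φ p ∈ W₁.prod V') ↔
      ∀ p ∈ W₁.prod V', tri w y φ p ∈ W₁.prod V' := by
    constructor
    · intro h p hp
      rw [← hap' p hp]
      exact h p hp
    · intro h p hp
      rw [hap' p hp]
      exact h p hp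
  unfold tm
  by_cases h : ∀ p ∈ W₁.prod V', tri w y φ p ∈ W₁.prod V'
  · have h' := hiff.mpr h
    rw [dif_pos h', dif_pos h]
    have e1 : (tri (w + W₁.subtype.comp (δ.comp W₁.mkQ)) y φ).restrict h' =
        (tri w y φ).restrict h := by
      ext1 p
      exact Subtype.ext (hap' p p.2)
    have e2 : (W₁.prod V').mapQ (W₁.prod V') (tri (w + W₁.subtype.comp (δ.comp W₁.mkQ)) y φ) h' =
        (W₁.prod V').mapQ (W₁.prod V') (tri w y φ) h := by
      apply LinearMap.ext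
      intro q
      obtain ⟨p, rfl⟩ := Submodule.Quotient.mk_surjective _ q
      rw [Submodule.mapQ_apply, Submodule.mapQ_apply, hap, Submodule.Quotient.eq,
        add_sub_cancel_left]
      exact ⟨(δ (W₁.mkQ p.1)).2, V'.zero_mem⟩
    rw [e1, e2]
  · rw [dif_neg (fun h' => h (hiff.mp h')), dif_neg h]

/-- The terms with `W₁ ≠ ⊥, ⊤` vanish. HINT: the sum over all endomorphisms `w` is unchanged when `w` is
replaced by `w + ι δ π`; average over `δ`, use `tm_add_delta`; if `w` does not stabilise `W₁` then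
`tm = 0`, otherwise `cusp_sum`. -/
theorem tm_mid [Finite W] {ρ : UCF F}
    (hρ : ∀ (A B : Type) [AddCommGroup A] [Module F A] [AddCommGroup B] [Module F B]
      [Nontrivial A] [Nontrivial B] (x : A →ₗ[F] A) (y : B →ₗ[F] B), rs ρ x y = 0)
    (f g : UCF F) (y : V →ₗ[F] V) (φ : V →ₗ[F] W) (W₁ : Submodule F W) (h1 : W₁ ≠ ⊥)
    (h2 : W₁ ≠ ⊤) (V' : Submodule F V) :
    ∑ᶠ w : W →ₗ[F] W, conj (ρ.val w) * tm f g (tri w y φ) (W₁.prod V') = 0 := by
  classical
  have hfin1 : Finite (W →ₗ[F] W) := DFunLike.finite _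
  have hfinq : Finite (W ⧸ W₁) := Finite.of_surjective _ (Submodule.mkQ_surjective W₁)
  have hfin2 : Finite ((W ⧸ W₁) →ₗ[F] W₁) := DFunLike.finite _
  have : Fintype (W →ₗ[F] W) := Fintype.ofFinite _
  have : Fintype ((W ⧸ W₁) →ₗ[F] W₁) := Fintype.ofFinite _
  rw [finsum_eq_sum_of_fintype]
  have h3 : ∀ δ : (W ⧸ W₁) →ₗ[F] W₁,
      ∑ w : W →ₗ[F] W, conj (ρ.val w) * tm f g (tri w y φ) (W₁.prod V') =
      ∑ w : W →ₗ[F] W, conj (ρ.val (w + W₁.subtype.comp (δ.comp W₁.mkQ))) *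
        tm f g (tri w y φ) (W₁.prod V') := by
    intro δ
    rw [← Equiv.sum_comp (Equiv.addRight (W₁.subtype.comp (δ.comp W₁.mkQ)))]
    refine Finset.sum_congr rfl fun w _ => ?_
    rw [Equiv.coe_addRight, tm_add_delta]
  have h4 : (Fintype.card ((W ⧸ W₁) →ₗ[F] W₁) : ℂ) *
      ∑ w : W →ₗ[F] W, conj (ρ.val w) * tm f g (tri w y φ) (W₁.prod V') = 0 := by
    rw [← nsmul_eq_mul, ← Finset.card_univ, ← Finset.sum_const, Finset.sum_congr rfl
      (fun δ _ => h3 δ), Finset.sum_comm]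
    refine Finset.sum_eq_zero fun w _ => ?_
    rw [← Finset.sum_mul]
    by_cases hw : ∀ v ∈ W₁, w v ∈ W₁
    · have h5 := cusp_sum hρ W₁ h1 h2 w hw
      rw [finsum_eq_sum_of_fintype] at h5
      rw [← map_sum, h5, map_zero, zero_mul]
    · have h6 : tm f g (tri w y φ) (W₁.prod V') = 0 := by
        unfold tm
        rw [dif_neg]
        intro h7
        apply hw
        intro v hv
        have h8 := (h7 (v, 0) ⟨hv, V'.zero_mem⟩).1
        simpa using h8
      rw [h6, mul_zero]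
  refine (mul_eq_zero.mp h4).resolve_left ?_
  have : Fintype.card ((W ⧸ W₁) →ₗ[F] W₁) ≠ 0 := Fintype.card_ne_zero
  exact_mod_cast this

end Pool.Agent.Lib.MP_fa0f6c_al.Cx.B
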