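import Mathlib
import Pool.Agent.Lib.MP_fa0f6c_al.Cx.Defs
import Pool.Agent.Lib.MP_fa0f6c_al.Cx.BDefs
import Pool.Agent.Lib.MP_fa0f6c_al.Cx.BAlg
import Pool.Agent.Lib.MP_fa0f6c_al.Cx.BDr
import Pool.Agent.Lib.MP_fa0f6c_al.Cx.B13
import Pool.Agent.Lib.MP_fa0f6c_al.Cx.B14
import Pool.Agent.Lib.MP_fa0f6c_al.Cx.B15
import Pool.Agent.Lib.MP_fa0f6c_al.Cx.B16

set_option autoImplicit false

namespace Pool.Agent.Lib.MP_fa0f6c_al.Cx.B

open scoped ComplexConjugate

variable {F : Type} [Field F] [Finite F]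

/-- the part of `W₁` in the value of `dr m ρ (f * g)` -/
private noncomputable def B17part (m : ℕ) (ρ f g : UCF F) {V : Type} [AddCommGroup V] [Module F V]
    (y : V →ₗ[F] V) (W₁ : Submodule F (Fin m → F)) : ℂ :=
  ∑ᶠ w : (Fin m → F) →ₗ[F] (Fin m → F), conj (ρ.val w) *
    ∑ᶠ V' : Submodule F V, (stabCard W₁ V' : ℂ)⁻¹ *
      ∑ᶠ φ : V →ₗ[F] (Fin m → F), tm f g (tri w y φ) (W₁.prod V')

private theorem B17_split (m : ℕ) (ρ f g : UCF F) {V : Type} [AddCommGroup V] [Module F V]
    [Finite V] (y : V →ₗ[F] V) :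
    ∑ᶠ w : (Fin m → F) →ₗ[F] (Fin m → F), conj (ρ.val w) * rs (f * g) w y =
      ∑ᶠ W₁ : Submodule F (Fin m → F), B17part m ρ f g y W₁ := by
  classical
  have _i0 : Finite ((Fin m → F) →ₗ[F] (Fin m → F)) :=
    Finite.of_injective (fun f : (Fin m → F) →ₗ[F] (Fin m → F) => (f : (Fin m → F) → (Fin m → F)))
      DFunLike.coe_injective
  have _i1 : Finite (Submodule F (Fin m → F)) :=
    Finite.of_injective (fun W : Submodule F (Fin m → F) => (W : Set (Fin m → F)))
      SetLike.coe_injective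
  let _i2 : Fintype ((Fin m → F) →ₗ[F] (Fin m → F)) := Fintype.ofFinite _
  let _i3 : Fintype (Submodule F (Fin m → F)) := Fintype.ofFinite _
  simp only [B17part]
  rw [finsum_eq_sum_of_fintype, finsum_eq_sum_of_fintype]
  simp_rw [finsum_eq_sum_of_fintype (α := (Fin m → F) →ₗ[F] (Fin m → F))]
  rw [Finset.sum_comm]
  refine Finset.sum_congr rfl fun w _ => ?_
  rw [rs_mul_formula, finsum_eq_sum_of_fintype (α := Submodule F (Fin m → F)), Finset.mul_sum]

private theorem B17_mid {m : ℕ} {ρ : UCF F} (hρ : Cusp m ρ) (f g : UCF F) {V : Type}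
    [AddCommGroup V] [Module F V] [Finite V] (y : V →ₗ[F] V) (W₁ : Submodule F (Fin m → F))
    (h1 : W₁ ≠ ⊥) (h2 : W₁ ≠ ⊤) : B17part m ρ f g y W₁ = 0 := by
  classical
  have _i0 : Finite ((Fin m → F) →ₗ[F] (Fin m → F)) :=
    Finite.of_injective (fun f : (Fin m → F) →ₗ[F] (Fin m → F) => (f : (Fin m → F) → (Fin m → F)))
      DFunLike.coe_injective
  have _i1 : Finite (Submodule F V) :=
    Finite.of_injective (fun W : Submodule F V => (W : Set V)) SetLike.coe_injective
  have _i4 : Finite (V →ₗ[F] (Fin m → F)) :=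
    Finite.of_injective (fun f : V →ₗ[F] (Fin m → F) => (f : V → (Fin m → F)))
      DFunLike.coe_injective
  let _i2 : Fintype ((Fin m → F) →ₗ[F] (Fin m → F)) := Fintype.ofFinite _
  let _i3 : Fintype (Submodule F V) := Fintype.ofFinite _
  let _i5 : Fintype (V →ₗ[F] (Fin m → F)) := Fintype.ofFinite _
  have hmid := fun (φ : V →ₗ[F] (Fin m → F)) (V' : Submodule F V) =>
    tm_mid (W := Fin m → F) hρ.2.2 f g y φ W₁ h1 h2 V'
  simp_rw [finsum_eq_sum_of_fintype] at hmid
  simp only [B17part]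
  simp_rw [finsum_eq_sum_of_fintype]
  calc ∑ w : (Fin m → F) →ₗ[F] (Fin m → F), conj (ρ.val w) *
        ∑ V' : Submodule F V, (stabCard W₁ V' : ℂ)⁻¹ *
          ∑ φ : V →ₗ[F] (Fin m → F), tm f g (tri w y φ) (W₁.prod V')
      = ∑ V' : Submodule F V, (stabCard W₁ V' : ℂ)⁻¹ * ∑ φ : V →ₗ[F] (Fin m → F),
          ∑ w : (Fin m → F) →ₗ[F] (Fin m → F), conj (ρ.val w) *
            tm f g (tri w y φ) (W₁.prod V') := by
        simp_rw [Finset.mul_sum]
        rw [Finset.sum_comm]
        refine Finset.sum_congr rfl fun V' _ => ?_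
        rw [Finset.sum_comm]
        refine Finset.sum_congr rfl fun φ _ => Finset.sum_congr rfl fun w _ => ?_
        ring
    _ = 0 := by
        refine Finset.sum_eq_zero fun V' _ => ?_
        rw [Finset.sum_eq_zero fun φ _ => hmid φ V', mul_zero]

private theorem B17_top (m : ℕ) (ρ f g : UCF F) {V : Type}
    [AddCommGroup V] [Module F V] [Finite V] (y : V →ₗ[F] V) :
    (Nat.card (Matrix.GeneralLinearGroup (Fin m) F) : ℂ)⁻¹ * B17part m ρ f g y ⊤ =
      (dr m ρ f * g).val y := by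
  classical
  have _i0 : Finite ((Fin m → F) →ₗ[F] (Fin m → F)) :=
    Finite.of_injective (fun f : (Fin m → F) →ₗ[F] (Fin m → F) => (f : (Fin m → F) → (Fin m → F)))
      DFunLike.coe_injective
  have _i1 : Finite (Submodule F V) :=
    Finite.of_injective (fun W : Submodule F V => (W : Set V)) SetLike.coe_injective
  let _i2 : Fintype ((Fin m → F) →ₗ[F] (Fin m → F)) := Fintype.ofFinite _
  let _i3 : Fintype (Submodule F V) := Fintype.ofFinite _
  simp only [B17part]
  simp_rw [tm_top]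
  rw [mul_val]
  simp_rw [finsum_eq_sum_of_fintype]
  simp_rw [Finset.mul_sum]
  rw [Finset.sum_comm]
  refine Finset.sum_congr rfl fun V' _ => ?_
  unfold tm
  by_cases h : ∀ v ∈ V', y v ∈ V'
  · simp only [dif_pos h]
    rw [dr_val, finsum_eq_sum_of_fintype, Finset.mul_sum, Finset.sum_mul]
    refine Finset.sum_congr rfl fun w _ => ?_
    ring
  · simp only [dif_neg h]
    simp

private theorem B17_bot (m : ℕ) (ρ f g : UCF F) {V : Type}
    [AddCommGroup V] [Module F V] [Finite V] (y : V →ₗ[F] V) :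
    (Nat.card (Matrix.GeneralLinearGroup (Fin m) F) : ℂ)⁻¹ * B17part m ρ f g y ⊥ =
      (f * dr m ρ g).val y := by
  classical
  have _i0 : Finite ((Fin m → F) →ₗ[F] (Fin m → F)) :=
    Finite.of_injective (fun f : (Fin m → F) →ₗ[F] (Fin m → F) => (f : (Fin m → F) → (Fin m → F)))
      DFunLike.coe_injective
  have _i1 : Finite (Submodule F V) :=
    Finite.of_injective (fun W : Submodule F V => (W : Set V)) SetLike.coe_injective
  let _i2 : Fintype ((Fin m → F) →ₗ[F] (Fin m → F)) := Fintype.ofFinite _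
  let _i3 : Fintype (Submodule F V) := Fintype.ofFinite _
  simp only [B17part]
  simp_rw [tm_bot]
  rw [mul_val]
  simp_rw [finsum_eq_sum_of_fintype]
  simp_rw [Finset.mul_sum]
  rw [Finset.sum_comm]
  refine Finset.sum_congr rfl fun V' _ => ?_
  unfold tm
  by_cases h : ∀ v ∈ V', y v ∈ V'
  · simp only [dif_pos h]
    rw [dr_val, finsum_eq_sum_of_fintype, Finset.mul_sum, Finset.mul_sum]
    refine Finset.sum_congr rfl fun w _ => ?_
    ring
  · simp only [dif_neg h]
    simp

/-- The product rule for a cuspidal character. HINT: evaluate at `y : V →ₗ V`; if `V` is infinite both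
sides vanish. With `W = Fin m → F` insert `rs_mul_formula` in `dr_val`, exchange the sums. The terms with
`W₁ ≠ ⊥, ⊤` vanish by `tm_mid` (for each `φ`, `V'`), `W₁ = ⊤` gives `(dr m ρ f * g).val y` by `tm_top` and
`W₁ = ⊥` gives `(f * dr m ρ g).val y` by `tm_bot` (`mul_val`, `tm`, `dr_val`); `⊥ ≠ ⊤` as `0 < m`. -/
theorem dr_mul {m : ℕ} {ρ : UCF F} (hρ : Cusp m ρ) (f g : UCF F) :
    dr m ρ (f * g) = dr m ρ f * g + f * dr m ρ g := by
  refine UCF.ext' fun V _ _ y => ?_
  by_cases hV : Finite V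
  · have _i1 : Finite (Submodule F (Fin m → F)) :=
      Finite.of_injective (fun W : Submodule F (Fin m → F) => (W : Set (Fin m → F)))
        SetLike.coe_injective
    have hm : 0 < m := hρ.1
    have hne : (⊥ : Submodule F (Fin m → F)) ≠ ⊤ := by
      have : Nonempty (Fin m) := ⟨⟨0, hm⟩⟩
      exact bot_ne_top
    classical
    let _i3 : Fintype (Submodule F (Fin m → F)) := Fintype.ofFinite _
    rw [add_val, ← B17_top, ← B17_bot, dr_val, B17_split, finsum_eq_sum_of_fintype, ← mul_add]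
    congr 1
    rw [← Finset.sum_subset (Finset.subset_univ ({⊤, ⊥} : Finset (Submodule F (Fin m → F))))]
    · rw [Finset.sum_pair hne.symm]
    · intro W₁ _ hW
      simp only [Finset.mem_insert, Finset.mem_singleton, not_or] at hW
      exact B17_mid hρ f g y W₁ hW.2 hW.1
  · have h : ¬ (Finite V ∧ Function.Bijective y) := fun h => hV h.1
    rw [UCF.supp _ y h, UCF.supp _ y h]

end Pool.Agent.Lib.MP_fa0f6c_al.Cx.B
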