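import Mathlib
import Pool.Agent.Lib.MP_fa0f6c_al.Cx.Defs
import Pool.Agent.Lib.MP_fa0f6c_al.Cx.BDefs
import Pool.Agent.Lib.MP_fa0f6c_al.Cx.BAlg
import Pool.Agent.Lib.MP_fa0f6c_al.Cx.B06

/-! Lists of cuspidal characters. -/

set_option autoImplicit false

namespace Pool.Agent.Lib.MP_fa0f6c_al.Cx.B

open scoped ComplexConjugate

variable {F : Type} [Field F]

def IsCusp (ρ : UCF F) : Prop := ∃ m, Cusp m ρ

open Classical in
/-- the degree of a cuspidal character -/
noncomputable def dg (ρ : UCF F) : ℕ := if h : ∃ m, Cusp m ρ then h.choose else 0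

/-- HINT: `deg_unique`; elements of `IrrC` are not `0` (`ipn_irr`). -/
theorem dg_eq [Finite F] {m : ℕ} {ρ : UCF F} (h : Cusp m ρ) : dg ρ = m := by
  classical
  have hex : ∃ m, Cusp m ρ := ⟨m, h⟩
  unfold dg
  rw [dif_pos hex]
  by_contra hne
  have hc := hex.choose_spec
  have h0 : ρ = 0 := deg_unique hc.2.1.1 h.2.1.1 hne
  have h1 := ipn_irr h.2.1 h.2.1
  rw [if_pos rfl] at h1
  nth_rewrite 1 [h0] at h1
  rw [ipn_zero_left] at h1
  exact absurd h1 zero_ne_one

/-- `l` is a list of cuspidal characters of total degree `n`. -/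
def CL (n : ℕ) (l : List (UCF F)) : Prop := (∀ ρ ∈ l, IsCusp ρ) ∧ (l.map dg).sum = n

/-- `ψ` is a constituent of the product of the list `l` of cuspidal characters. -/
def Has (n : ℕ) (ψ : UCF F) (l : List (UCF F)) : Prop := CL n l ∧ ipn n l.prod ψ ≠ 0

end Pool.Agent.Lib.MP_fa0f6c_al.Cx.B
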