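import Mathlib
import Pool.Agent.Lib.MP_fa0f6c_al.Cx.Defs
import Pool.Agent.Lib.MP_fa0f6c_al.Cx.BDefs
import Pool.Agent.Lib.MP_fa0f6c_al.Cx.BSupp
import Pool.Agent.Lib.MP_fa0f6c_al.Cx.B10

set_option autoImplicit false

namespace Pool.Agent.Lib.MP_fa0f6c_al.Cx.B

open scoped ComplexConjugate

variable {F : Type} [Field F] [Finite F]

omit [Finite F] in
theorem cusp_pos {m : ℕ} {ρ : UCF F} (h : Cusp m ρ) : 0 < m := h.1

/-- HINT: induction on `l`, `natC_mul`, `natC_one`. -/
theorem natC_list {n : ℕ} {l : List (UCF F)} (h : CL n l) : NatC n l.prod := by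
  induction l generalizing n with
  | nil =>
    obtain ⟨_, h2⟩ := h
    simp only [List.map_nil, List.sum_nil] at h2
    subst h2
    rw [List.prod_nil]
    exact natC_one
  | cons ρ l ih =>
    obtain ⟨h1, h2⟩ := h
    obtain ⟨m, hm⟩ := h1 ρ List.mem_cons_self
    rw [List.map_cons, List.sum_cons, dg_eq hm] at h2
    subst h2
    rw [List.prod_cons]
    exact natC_mul (natC_irr hm.2.1) (ih ⟨fun ρ' hρ' => h1 ρ' (List.mem_cons_of_mem _ hρ'), rfl⟩)

omit [Finite F] in
theorem cl_append {m n : ℕ} {l l' : List (UCF F)} (h : CL m l) (h' : CL n l') :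
    CL (m + n) (l ++ l') := by
  constructor
  · intro ρ hρ
    rcases List.mem_append.1 hρ with hρ | hρ
    · exact h.1 ρ hρ
    · exact h'.1 ρ hρ
  · rw [List.map_append, List.sum_append, h.2, h'.2]

theorem cl_cons {m n : ℕ} {ρ : UCF F} {l : List (UCF F)} (h : Cusp m ρ) (h' : CL n l) :
    CL (m + n) (ρ :: l) := by
  constructor
  · intro ρ' hρ'
    rcases List.mem_cons.1 hρ' with rfl | hρ'
    · exact ⟨m, h⟩
    · exact h'.1 ρ' hρ'
  · rw [List.map_cons, List.sum_cons, h'.2, dg_eq h]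

/-- A constituent of the product of two irreducible constituents is a constituent of the product.
HINT: `natC_split`: `l.prod = α + f'`, `l'.prod = β + g'`, so
`l.prod * l'.prod = α * β + (α * g' + f' * β + f' * g')`, all characters (`natC_mul`); natural numbers
cannot cancel. -/
theorem has_mul {m n : ℕ} {α β ψ : UCF F} {l l' : List (UCF F)} (hα : α ∈ IrrC F m)
    (hβ : β ∈ IrrC F n) (hψ : ψ ∈ IrrC F (m + n)) (hl : Has m α l) (hl' : Has n β l')
    (h : ipn (m + n) (α * β) ψ ≠ 0) : Has (m + n) ψ (l ++ l') := by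
  refine ⟨cl_append hl.1 hl'.1, ?_⟩
  rw [List.prod_append]
  obtain ⟨f', hf', he⟩ := natC_split (natC_list hl.1) hα hl.2
  obtain ⟨g', hg', he'⟩ := natC_split (natC_list hl'.1) hβ hl'.2
  have hψN := natC_irr hψ
  have hαN := natC_irr hα
  have hβN := natC_irr hβ
  obtain ⟨a, ha⟩ := natC_ip (natC_mul hαN hβN) hψN
  obtain ⟨b, hb⟩ := natC_ip (natC_mul hαN hg') hψN
  obtain ⟨c, hc⟩ := natC_ip (natC_mul hf' hβN) hψN
  obtain ⟨d, hd⟩ := natC_ip (natC_mul hf' hg') hψN
  have hexp : (α + f') * (β + g') = (α * β + α * g') + (f' * β + f' * g') := by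
    rw [add_mul, mul_add, mul_add]
  rw [he, he', hexp, ipn_add_left, ipn_add_left, ipn_add_left, ha, hb, hc, hd]
  have ha0 : a ≠ 0 := by
    rintro rfl
    exact h (by rw [ha, Nat.cast_zero])
  have : (a + b) + (c + d) ≠ 0 := by omega
  exact_mod_cast this

/-- Every irreducible character is a constituent of a product of cuspidal ones.
HINT: strong induction on `n`. `n = 0`: `l = []` (`irrC_zero`, `ipn_one`). `ψ` cuspidal: `l = [ψ]`
(`mul_one`, `ipn_irr`). Otherwise `exists_of_not_cusp` and `has_mul`. -/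
theorem exists_has {n : ℕ} {ψ : UCF F} (hψ : ψ ∈ IrrC F n) : ∃ l, Has n ψ l := by
  induction n using Nat.strong_induction_on generalizing ψ with
  | _ n ih =>
    rcases Nat.eq_zero_or_pos n with rfl | hn
    · rw [irrC_zero] at hψ
      have h1 : ψ = 1 := hψ
      subst h1
      refine ⟨[], ⟨by simp, by simp⟩, ?_⟩
      rw [List.prod_nil, ipn_one]
      exact one_ne_zero
    · by_cases hc : Cusp n ψ
      · refine ⟨[ψ], ⟨?_, ?_⟩, ?_⟩
        · intro ρ hρ
          rw [List.mem_singleton] at hρ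
          rw [hρ]
          exact ⟨n, hc⟩
        · rw [List.map_cons, List.map_nil, List.sum_cons, List.sum_nil, dg_eq hc, add_zero]
        · rw [List.prod_cons, List.prod_nil, mul_one, ipn_irr hψ hψ, if_pos rfl]
          exact one_ne_zero
      · obtain ⟨a, b, ha, hb, hab, α, hα, β, hβ, hαβ⟩ := exists_of_not_cusp hn hψ hc
        subst hab
        obtain ⟨l, hl⟩ := ih a (by omega) hα
        obtain ⟨l', hl'⟩ := ih b (by omega) hβ
        exact ⟨l ++ l', has_mul hα hβ hψ hl hl' hαβ⟩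

end Pool.Agent.Lib.MP_fa0f6c_al.Cx.B
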