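import Mathlib

/-! The number of matchings of two lists. -/

set_option autoImplicit false

namespace Pool.Agent.Lib.MP_fa0f6c_al.Cx.B

open Classical in
/-- The number of bijections between the positions of two lists which respect the entries. -/
noncomputable def Mt {α : Type*} : List α → List α → ℕ
  | [], [] => 1
  | [], _ :: _ => 0
  | a :: l, l' => ∑ i : Fin l'.length, if l'.get i = a then Mt l (l'.eraseIdx i) else 0

open Classical in
private theorem mt_cons {α : Type*} (a : α) (l l' : List α) :
    Mt (a :: l) l' = ∑ i : Fin l'.length, if l'.get i = a then Mt l (l'.eraseIdx i) else 0 := by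
  cases l' <;> rfl

/-- HINT: induction on `l`; `l'.get i = a` gives `l'.Perm (a :: l'.eraseIdx i)`. -/
theorem mt_perm {α : Type*} {l l' : List α} (h : Mt l l' ≠ 0) : l.Perm l' := by
  classical
  induction l generalizing l' with
  | nil =>
    cases l' with
    | nil => exact List.Perm.refl _
    | cons a l' => exact absurd rfl h
  | cons a l ih =>
    rw [mt_cons] at h
    obtain ⟨i, _, hi⟩ := Finset.exists_ne_zero_of_sum_ne_zero h
    by_cases ha : l'.get i = a
    · rw [if_pos ha] at hi
      have h1 := ih hi
      have h2 : (l'.get i :: l'.eraseIdx i).Perm l' := List.getElem_cons_eraseIdx_perm i.2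
      rw [ha] at h2
      exact (List.Perm.cons a h1).trans h2
    · rw [if_neg ha] at hi
      exact absurd rfl hi

/-- HINT: induction, the summand `i = 0`. -/
theorem mt_self_pos {α : Type*} (l : List α) : Mt l l ≠ 0 := by
  classical
  induction l with
  | nil => exact one_ne_zero
  | cons a l ih =>
    rw [mt_cons]
    have h1 : (if (a :: l).get 0 = a then Mt l ((a :: l).eraseIdx (0 : Fin (l.length + 1))) else 0)
        ≤ ∑ i : Fin (a :: l).length, if (a :: l).get i = a then
          Mt l ((a :: l).eraseIdx i) else 0 :=
      Finset.single_le_sum (f := fun i : Fin (a :: l).length => if (a :: l).get i = a then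
          Mt l ((a :: l).eraseIdx i) else 0) (fun _ _ => Nat.zero_le _) (Finset.mem_univ _)
    have h2 : (if (a :: l).get 0 = a then Mt l ((a :: l).eraseIdx (0 : Fin (l.length + 1))) else 0)
        = Mt l l := by
      exact if_pos rfl
    rw [h2] at h1
    have := Nat.pos_of_ne_zero ih
    exact (lt_of_lt_of_le this h1).ne'

theorem mt_self_nodup {α : Type*} {l : List α} (h : l.Nodup) : Mt l l = 1 := by
  classical
  induction l with
  | nil => rfl
  | cons a l ih =>
    rw [mt_cons, Finset.sum_eq_single (⟨0, Nat.succ_pos _⟩ : Fin (a :: l).length)]
    · exact (if_pos rfl).trans (ih (List.nodup_cons.1 h).2)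
    · intro i _ hi
      refine if_neg ?_
      intro h1
      apply hi
      have h2 : (a :: l).get i = (a :: l).get (⟨0, Nat.succ_pos _⟩ : Fin (a :: l).length) := h1
      exact (List.nodup_iff_injective_get.1 h) h2
    · intro h
      exact absurd (Finset.mem_univ _) h

/-- HINT: induction on `n = l'.length` : `∑_{l ∈ T} Mt l l' = ∑_i ∑_{l = (l'.get i) :: l₁ ∈ T} Mt l₁ (l'.eraseIdx i)
≤ n * (n-1)!`; the second sum is over a finite set of lists `l₁`. -/
theorem mt_sum_le {α : Type*} (T : Finset (List α)) (l' : List α) :
    ∑ l ∈ T, Mt l l' ≤ Nat.factorial l'.length := by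
  classical
  generalize hn : l'.length = n
  induction n generalizing l' T with
  | zero =>
    rw [List.length_eq_zero_iff] at hn
    subst hn
    have h1 : ∀ l ∈ T, Mt l ([] : List α) ≤ if l = [] then 1 else 0 := by
      intro l _
      cases l with
      | nil => simp [Mt]
      | cons a l =>
        rw [mt_cons]
        simp
    refine le_trans (Finset.sum_le_sum h1) ?_
    rw [Finset.sum_ite_eq']
    split_ifs <;> simp
  | succ k ih =>
    have h1 : ∀ l ∈ T, Mt l l' ≤ ∑ i : Fin l'.length,
        if l.head? = some (l'.get i) then Mt l.tail (l'.eraseIdx i) else 0 := by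
      intro l _
      cases l with
      | nil =>
        cases l' with
        | nil => simp at hn
        | cons b l' => exact Nat.zero_le _
      | cons a l =>
        rw [mt_cons]
        refine Finset.sum_le_sum fun i _ => ?_
        by_cases h : l'.get i = a
        · have h2 : (a :: l).head? = some (l'.get i) := by rw [h]; rfl
          rw [if_pos h, if_pos h2]
          exact le_rfl
        · rw [if_neg h]
          exact Nat.zero_le _
    refine le_trans (Finset.sum_le_sum h1) ?_
    rw [Finset.sum_comm]
    have h2 : ∀ i : Fin l'.length, ∑ l ∈ T,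
        (if l.head? = some (l'.get i) then Mt l.tail (l'.eraseIdx i) else 0) ≤ Nat.factorial k := by
      intro i
      rw [← Finset.sum_filter]
      have hinj : Set.InjOn List.tail
          ((T.filter (fun l => l.head? = some (l'.get i)) : Finset (List α)) : Set (List α)) := by
        intro l hl m hm hlm
        rw [Finset.mem_coe, Finset.mem_filter] at hl hm
        have hl2 := hl.2
        have hm2 := hm.2
        cases l with
        | nil => simp at hl2
        | cons a l =>
          cases m with
          | nil => simp at hm2
          | cons b m =>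
            simp only [List.head?_cons, Option.some.injEq] at hl2 hm2
            simp only [List.tail_cons] at hlm
            rw [hl2, hm2, hlm]
      have h3 : ∑ l ∈ T.filter (fun l => l.head? = some (l'.get i)), Mt l.tail (l'.eraseIdx i) =
          ∑ l ∈ (T.filter (fun l => l.head? = some (l'.get i))).image List.tail,
            Mt l (l'.eraseIdx i) := by
        rw [Finset.sum_image hinj]
      rw [h3]
      refine ih _ _ ?_
      rw [List.length_eraseIdx_of_lt i.2, hn]
      rfl
    refine le_trans (Finset.sum_le_sum fun i _ => h2 i) ?_
    rw [Finset.sum_const, Finset.card_univ, Fintype.card_fin, smul_eq_mul, hn, Nat.factorial_succ]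

end Pool.Agent.Lib.MP_fa0f6c_al.Cx.B
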