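import Mathlib
import Pool.Agent.Lib.MP_fa0f6c_al.Cx.Defs
import Pool.Agent.Lib.MP_fa0f6c_al.Cx.BDefs
import Pool.Agent.Lib.MP_fa0f6c_al.Cx.BMt
import Pool.Agent.Lib.MP_fa0f6c_al.Cx.B11
import Pool.Agent.Lib.MP_fa0f6c_al.Cx.B17
import Pool.Agent.Lib.MP_fa0f6c_al.Cx.B18

set_option autoImplicit false

namespace Pool.Agent.Lib.MP_fa0f6c_al.Cx.B

open scoped ComplexConjugate

variable {F : Type} [Field F] [Finite F]

/-- The product rule for lists. HINT: induction on `l`, `dr_mul`, `dr_cusp`, `dr_one`,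
`Fin.sum_univ_succ`. -/
theorem dr_list {m : ℕ} {ρ : UCF F} (hρ : Cusp m ρ) (l : List (UCF F))
    (hl : ∀ τ ∈ l, IsCusp τ) :
    dr m ρ l.prod = open Classical in
      ∑ i : Fin l.length, if l.get i = ρ then (l.eraseIdx i).prod else 0 := by
  classical
  induction l with
  | nil =>
    rw [List.prod_nil, dr_one hρ.1]
    exact (Finset.sum_eq_zero (s := (Finset.univ : Finset (Fin 0))) (fun i _ => i.elim0)).symm
  | cons τ l ih =>
    obtain ⟨n, hτ⟩ := hl τ List.mem_cons_self
    have ih' := ih (fun σ hσ => hl σ (List.mem_cons_of_mem _ hσ))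
    rw [List.prod_cons, dr_mul hρ, ih', dr_cusp hρ hτ]
    have h1 : ∑ i : Fin (τ :: l).length, (if (τ :: l).get i = ρ then ((τ :: l).eraseIdx i).prod
        else 0) = (if τ = ρ then l.prod else 0) +
        ∑ i : Fin l.length, if l.get i = ρ then (τ :: l.eraseIdx i).prod else 0 :=
      Fin.sum_univ_succ (n := l.length)
        (fun i => if (τ :: l).get i = ρ then ((τ :: l).eraseIdx i).prod else 0)
    rw [h1, Finset.mul_sum]
    congr 1
    · by_cases h : ρ = τ
      · rw [if_pos h, if_pos h.symm, one_mul]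
      · rw [if_neg h, if_neg (fun h2 => h h2.symm), zero_mul]
    · refine Finset.sum_congr rfl fun i _ => ?_
      by_cases h : l.get i = ρ
      · rw [if_pos h, if_pos h, List.prod_cons]
      · rw [if_neg h, if_neg h, mul_zero]

private theorem b19_mt_cons {α : Type*} (a : α) (l l' : List α) :
    Mt (a :: l) l' = open Classical in
      ∑ i : Fin l'.length, if l'.get i = a then Mt l (l'.eraseIdx i) else 0 := by
  rw [Mt]

private theorem b19_sum_erase {α : Type*} (f : α → ℕ) : ∀ (l : List α) (i : Fin l.length),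
    f (l.get i) + ((l.eraseIdx i).map f).sum = (l.map f).sum := by
  intro l
  induction l with
  | nil => exact fun i => i.elim0
  | cons a l ih =>
    intro i
    refine Fin.cases ?_ (fun i => ?_) i
    · simp
    · have h1 := ih i
      have h2 : (a :: l).get i.succ = l.get i := rfl
      have h3 : (a :: l).eraseIdx (i.succ : ℕ) = a :: l.eraseIdx i := rfl
      rw [h2, h3, List.map_cons, List.map_cons, List.sum_cons, List.sum_cons]
      omega

/-- Inner products of products of cuspidal characters. HINT: induction on `l`; `l = []`: `n = 0`, then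
`l' = []` as degrees of cuspidal characters are positive. `l = ρ :: l₁`: `ipn_dr` and `dr_list`. -/
theorem ipn_list {n : ℕ} {l l' : List (UCF F)} (h : CL n l) (h' : CL n l') :
    ipn n l.prod l'.prod = Mt l l' := by
  classical
  induction l generalizing n l' with
  | nil =>
    have hn : n = 0 := by
      have := h.2
      simpa using this.symm
    subst hn
    cases l' with
    | nil =>
      rw [List.prod_nil, ipn_one, Mt]
      norm_num
    | cons τ l' =>
      exfalso
      obtain ⟨m, hτ⟩ := h'.1 τ List.mem_cons_self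
      have h1 := h'.2
      rw [List.map_cons, List.sum_cons, dg_eq hτ] at h1
      have := hτ.1
      omega
  | cons ρ l ih =>
    obtain ⟨m, hρ⟩ := h.1 ρ List.mem_cons_self
    have hdg := dg_eq hρ
    have h2 := h.2
    rw [List.map_cons, List.sum_cons, hdg] at h2
    have hl : CL (l.map dg).sum l := ⟨fun σ hσ => h.1 σ (List.mem_cons_of_mem _ hσ), rfl⟩
    generalize hk : (l.map dg).sum = k at h2 hl
    subst h2
    rw [List.prod_cons, ipn_dr _ hρ.2.1.1 (natC_list hl).1, dr_list hρ l' h'.1, ipn_sum_right,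
      b19_mt_cons]
    push_cast
    refine Finset.sum_congr rfl fun i _ => ?_
    by_cases hi : l'.get i = ρ
    · rw [if_pos hi, if_pos hi]
      refine ih hl ⟨fun σ hσ => h'.1 σ (List.mem_of_mem_eraseIdx hσ), ?_⟩
      have h3 := b19_sum_erase dg l' i
      rw [hi, hdg, h'.2] at h3
      omega
    · rw [if_neg hi, if_neg hi, ipn_zero_right]

/-- HINT: if `ρ ≠ τ` both products have norm `1` and inner product `1` (`ipn_list` for the lists
`[ρ, τ]`, `[τ, ρ]`), so both are irreducible (`irrC_of_norm_one`) and equal (`ipn_irr`). -/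
theorem cusp_comm {ρ τ : UCF F} (hρ : IsCusp ρ) (hτ : IsCusp τ) : ρ * τ = τ * ρ := by
  classical
  by_cases hne : ρ = τ
  · rw [hne]
  have hP : ∀ a b : UCF F, [a, b].prod = a * b := fun a b => by
    rw [List.prod_cons, List.prod_cons, List.prod_nil, mul_one]
  have h1 : CL (dg ρ + dg τ) [ρ, τ] := by
    refine ⟨fun σ hσ => ?_, by simp⟩
    rw [List.mem_cons, List.mem_singleton] at hσ
    rcases hσ with rfl | rfl
    · exact hρ
    · exact hτ
  have h2 : CL (dg ρ + dg τ) [τ, ρ] := by
    refine ⟨fun σ hσ => ?_, by simp [add_comm]⟩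
    rw [List.mem_cons, List.mem_singleton] at hσ
    rcases hσ with rfl | rfl
    · exact hτ
    · exact hρ
  have n1 : [ρ, τ].Nodup := by simp [hne]
  have n2 : [τ, ρ].Nodup := by simp [Ne.symm hne]
  have i1 : ρ * τ ∈ IrrC F (dg ρ + dg τ) := by
    rw [← hP]
    refine irrC_of_norm_one (natC_list h1) ?_
    rw [ipn_list h1 h1, mt_self_nodup n1]
    norm_num
  have i2 : τ * ρ ∈ IrrC F (dg ρ + dg τ) := by
    rw [← hP]
    refine irrC_of_norm_one (natC_list h2) ?_
    rw [ipn_list h2 h2, mt_self_nodup n2]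
    norm_num
  have h3 : ipn (dg ρ + dg τ) (ρ * τ) (τ * ρ) ≠ 0 := by
    rw [← hP ρ τ, ← hP τ ρ, ipn_list h1 h2]
    have h4 : Mt [ρ, τ] [τ, ρ] = Mt [τ] [τ] := by
      rw [b19_mt_cons]
      have h5 : ∑ i : Fin [τ, ρ].length, (if [τ, ρ].get i = ρ then Mt [τ] ([τ, ρ].eraseIdx i)
          else 0) = (if τ = ρ then Mt [τ] [ρ] else 0) + if ρ = ρ then Mt [τ] [τ] else 0 :=
        Fin.sum_univ_two (fun i : Fin 2 => if [τ, ρ].get i = ρ then
          Mt [τ] ([τ, ρ].eraseIdx (i : ℕ)) else 0)
      rw [h5, if_neg (Ne.symm hne), if_pos rfl, zero_add]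
    rw [h4]
    exact_mod_cast mt_self_pos [τ]
  rw [ipn_irr i1 i2] at h3
  by_contra hc
  exact h3 (if_neg hc)

theorem prod_perm {l l' : List (UCF F)} (h : ∀ ρ ∈ l, IsCusp ρ) (hp : l.Perm l') :
    l.prod = l'.prod := by
  induction hp with
  | nil => rfl
  | cons x _ ih =>
    rw [List.prod_cons, List.prod_cons, ih (fun σ hσ => h σ (List.mem_cons_of_mem _ hσ))]
  | swap x y l =>
    rw [List.prod_cons, List.prod_cons, List.prod_cons, List.prod_cons, ← mul_assoc, ← mul_assoc,
      cusp_comm (h y List.mem_cons_self) (h x (List.mem_cons_of_mem _ List.mem_cons_self))]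
  | trans h1 _ ih1 ih2 =>
    exact (ih1 h).trans (ih2 (fun σ hσ => h σ (h1.mem_iff.2 hσ)))

theorem cl_perm {n : ℕ} {l l' : List (UCF F)} (h : CL n l) (hp : l.Perm l') : CL n l' :=
  ⟨fun σ hσ => h.1 σ (hp.mem_iff.2 hσ), by rw [← h.2, (hp.map dg).sum_eq]⟩

theorem has_perm {n : ℕ} {ψ : UCF F} {l l' : List (UCF F)} (h : Has n ψ l) (hp : l.Perm l') :
    Has n ψ l' :=
  ⟨cl_perm h.1 hp, by rw [← prod_perm h.1.1 hp]; exact h.2⟩

/-- Uniqueness of the cuspidal support. HINT: `ipn_ne_zero_of`, `ipn_list`, `mt_perm`. -/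
theorem has_unique {n : ℕ} {ψ : UCF F} (hψ : ψ ∈ IrrC F n) {l l' : List (UCF F)}
    (h : Has n ψ l) (h' : Has n ψ l') : l.Perm l' := by
  have h1 := ipn_ne_zero_of (natC_list h.1) (natC_list h'.1) hψ h.2 h'.2
  rw [ipn_list h.1 h'.1] at h1
  exact mt_perm (by exact_mod_cast h1)

end Pool.Agent.Lib.MP_fa0f6c_al.Cx.B
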