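import Mathlib
import Pool.Agent.Lib.MP_fa0f6c_al.Cx.Defs
import Pool.Agent.Lib.MP_fa0f6c_al.Cx.BDefs
import Pool.Agent.Lib.MP_fa0f6c_al.Cx.R09

/-! Unitriangular matrices, monomial matrices, the generic character. -/

set_option autoImplicit false

namespace Pool.Agent.Lib.MP_fa0f6c_al.Cx.B

open scoped ComplexConjugate

/-- upper unitriangular matrices -/
def IsUT {F : Type} [Field F] {n : ℕ} (g : Matrix (Fin n) (Fin n) F) : Prop :=
  (∀ i j, j < i → g i j = 0) ∧ ∀ i, g i i = 1

variable {F : Type} [Field F]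

theorem isUT_one {n : ℕ} : IsUT (1 : Matrix (Fin n) (Fin n) F) :=
  ⟨fun i j h => Matrix.one_apply_ne h.ne', fun i => Matrix.one_apply_eq i⟩

theorem isUT_mul {n : ℕ} {g h : Matrix (Fin n) (Fin n) F} (hg : IsUT g) (hh : IsUT h) :
    IsUT (g * h) := by
  constructor
  · intro i j hij
    rw [Matrix.mul_apply]
    refine Finset.sum_eq_zero fun k _ => ?_
    rcases lt_or_ge k i with hk | hk
    · rw [hg.1 i k hk, zero_mul]
    · rw [hh.1 k j (lt_of_lt_of_le hij hk), mul_zero]
  · intro i
    rw [Matrix.mul_apply, Finset.sum_eq_single i]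
    · rw [hg.2, hh.2, mul_one]
    · intro k _ hki
      rcases lt_or_gt_of_ne hki with hk | hk
      · rw [hg.1 i k hk, zero_mul]
      · rw [hh.1 k i hk, mul_zero]
    · intro h
      exact absurd (Finset.mem_univ i) h

theorem isUT_inv {n : ℕ} (g : Matrix.GeneralLinearGroup (Fin n) F)
    (hg : IsUT (g : Matrix (Fin n) (Fin n) F)) :
    IsUT ((g⁻¹ : Matrix.GeneralLinearGroup (Fin n) F) : Matrix (Fin n) (Fin n) F) := by
  have hb : Matrix.BlockTriangular (g : Matrix (Fin n) (Fin n) F) (id : Fin n → Fin n) :=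
    fun i j h => hg.1 i j h
  have hb' : Matrix.BlockTriangular
      ((g⁻¹ : Matrix.GeneralLinearGroup (Fin n) F) : Matrix (Fin n) (Fin n) F)
      (id : Fin n → Fin n) := by
    rw [Matrix.coe_units_inv]
    have : Invertible (g : Matrix (Fin n) (Fin n) F) := g.invertible
    exact Matrix.blockTriangular_inv_of_blockTriangular hb
  refine ⟨fun i j h => hb' h, fun i => ?_⟩
  have h1 : ((g : Matrix (Fin n) (Fin n) F) *
      ((g⁻¹ : Matrix.GeneralLinearGroup (Fin n) F) : Matrix (Fin n) (Fin n) F)) i i = 1 := by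
    rw [Units.mul_inv, Matrix.one_apply_eq]
  rw [Matrix.mul_apply, Finset.sum_eq_single i] at h1
  · rwa [hg.2, one_mul] at h1
  · intro k _ hki
    rcases lt_or_gt_of_ne hki with hk | hk
    · rw [hg.1 i k hk, zero_mul]
    · have : ((g⁻¹ : Matrix.GeneralLinearGroup (Fin n) F) : Matrix (Fin n) (Fin n) F) k i = 0 :=
        hb' hk
      rw [this, mul_zero]
  · intro h
    exact absurd (Finset.mem_univ i) h

variable (F) in
/-- the group of upper unitriangular matrices -/
def Ugp (n : ℕ) : Subgroup (Matrix.GeneralLinearGroup (Fin n) F) where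
  carrier := {g | IsUT (g : Matrix (Fin n) (Fin n) F)}
  mul_mem' := fun {a b} ha hb => by
    simp only [Set.mem_ofPred_eq, Units.val_mul] at *
    exact isUT_mul ha hb
  one_mem' := by simpa using isUT_one
  inv_mem' := fun {a} ha => isUT_inv a ha

theorem mem_Ugp {n : ℕ} {g : Matrix.GeneralLinearGroup (Fin n) F} :
    g ∈ Ugp F n ↔ IsUT (g : Matrix (Fin n) (Fin n) F) := Iff.rfl

/-- the sum of the entries next to the diagonal -/
def supdiag {n : ℕ} (g : Matrix (Fin n) (Fin n) F) : F :=
  ∑ i : Fin n, ∑ j : Fin n, if (i : ℕ) + 1 = j then g i j else 0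

/-- the generic linear character of the group of unitriangular matrices (as a function) -/
def th (Ψ : AddChar F ℂ) (n : ℕ) (g : Matrix.GeneralLinearGroup (Fin n) F) : ℂ :=
  Ψ (supdiag (g : Matrix (Fin n) (Fin n) F))

/-- the Whittaker multiplicity -/
noncomputable def wh (Ψ : AddChar F ℂ) (n : ℕ) (f : UCF F) : ℂ :=
  mult (Ugp F n) (th Ψ n) (f.gl n)

/-- monomial matrices: entry `t j` at `(σ j, j)` -/
def mono {n : ℕ} (σ : Equiv.Perm (Fin n)) (t : Fin n → Fˣ) :
    Matrix.GeneralLinearGroup (Fin n) F where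
  val := Matrix.of fun i j => if i = σ j then (t j : F) else 0
  inv := Matrix.of fun i j => if σ i = j then ((t i)⁻¹ : Fˣ) else (0 : F)
  val_inv := by
    ext i j
    simp only [Matrix.mul_apply, Matrix.of_apply, Matrix.one_apply]
    rw [Finset.sum_eq_single (σ.symm i)]
    · by_cases h : i = j
      · simp [h]
      · have h' : ¬ (σ (σ.symm i) = j) := by simpa using h
        simp [h]
    · intro k _ hk
      have : ¬ (i = σ k) := fun h => hk (by rw [h]; simp)
      simp [this]
    · intro h; exact absurd (Finset.mem_univ _) h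
  inv_val := by
    ext i j
    simp only [Matrix.mul_apply, Matrix.of_apply, Matrix.one_apply]
    rw [Finset.sum_eq_single (σ i)]
    · by_cases h : i = j
      · simp [h]
      · have h' : ¬ (σ i = σ j) := fun h2 => h (σ.injective h2)
        simp [h]
    · intro k _ hk
      have : ¬ (σ i = k) := fun h => hk h.symm
      simp [this]
    · intro h; exact absurd (Finset.mem_univ _) h

theorem mono_apply {n : ℕ} (σ : Equiv.Perm (Fin n)) (t : Fin n → Fˣ) (i j : Fin n) :
    (mono σ t : Matrix (Fin n) (Fin n) F) i j = if i = σ j then (t j : F) else 0 := rfl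

/-- admissible monomial matrices -/
def Adm {n : ℕ} (σ : Equiv.Perm (Fin n)) (t : Fin n → Fˣ) : Prop :=
  ∀ j j' : Fin n, (j : ℕ) + 1 = j' → σ j' < σ j ∨ ((σ j : ℕ) + 1 = σ j' ∧ t j = t j')

end Pool.Agent.Lib.MP_fa0f6c_al.Cx.B
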