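import Mathlib
import Pool.Agent.Lib.MP_fa0f6c_al.Cx.Defs
import Pool.Agent.Lib.MP_fa0f6c_al.Cx.BWDefs

/-! Bruhat decomposition: uniqueness; consequences of admissibility. -/

set_option autoImplicit false

namespace Pool.Agent.Lib.MP_fa0f6c_al.Cx.B

variable {F : Type} [Field F]

/-- HINT: `mono σ t * u' * (mono σ' t')⁻¹ = u⁻¹` is unitriangular; its diagonal entry at `a` is
`t (σ⁻¹ a) * u' (σ⁻¹ a) (σ'⁻¹ a) * (t' (σ'⁻¹ a))⁻¹ = 1`, so `σ⁻¹ a ≤ σ'⁻¹ a` for all `a`, hence (sum over `a`)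
`σ = σ'`, and then `u' a a = 1` gives `t = t'`. -/
theorem bruhat_unique {n : ℕ} {σ σ' : Equiv.Perm (Fin n)} {t t' : Fin n → Fˣ}
    {u u' : Matrix.GeneralLinearGroup (Fin n) F} (hu : u ∈ Ugp F n) (hu' : u' ∈ Ugp F n)
    (h : u * mono σ t * u' = mono σ' t') : σ = σ' ∧ t = t' := by
  have hu1 : IsUT ((u⁻¹ : Matrix.GeneralLinearGroup (Fin n) F) : Matrix (Fin n) (Fin n) F) :=
    isUT_inv u hu
  have hu2 : IsUT (u' : Matrix (Fin n) (Fin n) F) := hu'
  have h1 : mono σ t * u' = u⁻¹ * mono σ' t' := by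
    rw [← h]; group
  have h2 : ∀ i j, ((mono σ t * u' : Matrix.GeneralLinearGroup (Fin n) F) :
      Matrix (Fin n) (Fin n) F) i j = (t (σ.symm i) : F) *
        (u' : Matrix (Fin n) (Fin n) F) (σ.symm i) j := by
    intro i j
    rw [Units.val_mul, Matrix.mul_apply, Finset.sum_eq_single (σ.symm i)]
    · rw [mono_apply, if_pos (by simp)]
    · intro k _ hk
      rw [mono_apply, if_neg, zero_mul]
      intro h3
      exact hk (by rw [h3]; simp)
    · intro h3
      exact absurd (Finset.mem_univ _) h3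
  have h3 : ∀ i j, ((u⁻¹ * mono σ' t' : Matrix.GeneralLinearGroup (Fin n) F) :
      Matrix (Fin n) (Fin n) F) i j =
        ((u⁻¹ : Matrix.GeneralLinearGroup (Fin n) F) : Matrix (Fin n) (Fin n) F) i (σ' j) *
          (t' j : F) := by
    intro i j
    rw [Units.val_mul, Matrix.mul_apply, Finset.sum_eq_single (σ' j)]
    · rw [mono_apply, if_pos rfl]
    · intro k _ hk
      rw [mono_apply, if_neg hk, mul_zero]
    · intro h3
      exact absurd (Finset.mem_univ _) h3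
  have h4 : ∀ i, (t (σ.symm i) : F) * (u' : Matrix (Fin n) (Fin n) F) (σ.symm i) (σ'.symm i) =
      (t' (σ'.symm i) : F) := by
    intro i
    rw [← h2, h1, h3, Equiv.apply_symm_apply, hu1.2 i, one_mul]
  have h5 : ∀ i, σ.symm i ≤ σ'.symm i := by
    intro i
    by_contra hlt
    have h6 := h4 i
    rw [hu2.1 _ _ (not_le.1 hlt), mul_zero] at h6
    exact (t' (σ'.symm i)).ne_zero h6.symm
  have h7 : ∀ i, σ.symm i = σ'.symm i := by
    have h8 : ∑ i, ((σ.symm i : Fin n) : ℕ) = ∑ i, ((σ'.symm i : Fin n) : ℕ) := by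
      rw [Equiv.sum_comp σ.symm (fun i : Fin n => (i : ℕ)),
        Equiv.sum_comp σ'.symm (fun i : Fin n => (i : ℕ))]
    have h9 := (Finset.sum_eq_sum_iff_of_le (fun i _ => Fin.le_def.1 (h5 i))).1 h8
    intro i
    exact Fin.ext (h9 i (Finset.mem_univ i))
  have h10 : σ = σ' := by
    have : σ.symm = σ'.symm := Equiv.ext h7
    rw [← Equiv.symm_symm σ, this, Equiv.symm_symm]
  refine ⟨h10, ?_⟩
  funext j
  have h11 := h4 (σ j)
  rw [← h10, Equiv.symm_apply_apply, hu2.2, mul_one] at h11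
  exact Units.ext h11

end Pool.Agent.Lib.MP_fa0f6c_al.Cx.B
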