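import Mathlib
import Pool.Agent.Lib.MP_fa0f6c_al.Cx.Defs
import Pool.Agent.Lib.MP_fa0f6c_al.Cx.BWDefs

/-! Combinatorics of admissible monomial matrices. -/

set_option autoImplicit false

namespace Pool.Agent.Lib.MP_fa0f6c_al.Cx.B

variable {F : Type} [Field F]

/-- After an ascent all values are larger. -/
private theorem b23_later {n : ℕ} {α : Type*} (π : Fin n → Fin n) (hinj : Function.Injective π)
    (t : Fin n → α)
    (hA : ∀ j j' : Fin n, (j : ℕ) + 1 = j' →
      π j < π j' ∨ ((π j' : ℕ) + 1 = π j ∧ t j = t j'))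
    (q q' : Fin n) (hq : (q : ℕ) + 1 = q') (hasc : π q < π q') :
    ∀ d : ℕ, ∀ p : Fin n, (p : ℕ) = q' + d → π q < π p := by
  intro d
  induction d with
  | zero =>
    intro p hp
    have : p = q' := Fin.ext (by omega)
    rw [this]
    exact hasc
  | succ d ih =>
    intro p hp
    have hlt : (q' : ℕ) + d < n := by
      have := p.isLt
      omega
    have h1 := ih ⟨(q' : ℕ) + d, hlt⟩ rfl
    rcases hA ⟨(q' : ℕ) + d, hlt⟩ p (by simp only; omega) with h2 | ⟨h2, _⟩
    · exact h1.trans h2
    · rw [Fin.lt_def] at h1 ⊢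
      have h3 : (π p : ℕ) ≠ π q := by
        intro h
        have := hinj (Fin.ext h)
        have h4 : (p : ℕ) = q := by rw [this]
        omega
      omega

/-- A permutation all of whose descents are by one is an involution. -/
private theorem b23_key {n : ℕ} {α : Type*} (π : Fin n → Fin n) (hinj : Function.Injective π)
    (hsurj : Function.Surjective π) (t : Fin n → α)
    (hA : ∀ j j' : Fin n, (j : ℕ) + 1 = j' →
      π j < π j' ∨ ((π j' : ℕ) + 1 = π j ∧ t j = t j')) (j : Fin n) :
    π (π j) = j ∧ t (π j) = t j := by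
  -- the run starting at a block boundary
  have hrun : ∀ s (hs : s < n), (∀ j : Fin n, (j : ℕ) < s → (π j : ℕ) < s ∧ π (π j) = j ∧
      t (π j) = t j) → s ≤ (π ⟨s, hs⟩ : ℕ) ∧ ∀ r, r ≤ (π ⟨s, hs⟩ : ℕ) - s →
      ∃ h : s + r < n, (π ⟨s + r, h⟩ : ℕ) = (π ⟨s, hs⟩ : ℕ) - r ∧ t ⟨s + r, h⟩ = t ⟨s, hs⟩ := by
    intro s hs hP
    have hv : s ≤ (π ⟨s, hs⟩ : ℕ) := by
      by_contra hc
      push Not at hc
      have h1 := hP (π ⟨s, hs⟩) hc
      have h2 := hinj h1.2.1
      have h3 := h1.1
      rw [h2] at h3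
      simp at h3
    refine ⟨hv, fun r => ?_⟩
    -- strong induction: all the smaller values of r
    induction r using Nat.strong_induction_on with
    | _ r ih =>
      intro hr
      rcases Nat.eq_zero_or_pos r with h0 | h0
      · subst h0
        exact ⟨hs, by simp, rfl⟩
      · obtain ⟨r', rfl⟩ : ∃ r', r = r' + 1 := ⟨r - 1, by omega⟩
        obtain ⟨hlt, h1, h2⟩ := ih r' (by omega) (by omega)
        -- the value v - r' - 1 is taken at p
        have hvn := (π ⟨s, hs⟩).isLt
        obtain ⟨p, hp⟩ := hsurj ⟨(π ⟨s, hs⟩ : ℕ) - (r' + 1), by omega⟩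
        have hpv : (π p : ℕ) = (π ⟨s, hs⟩ : ℕ) - (r' + 1) := by rw [hp]
        have hps : s + r' < (p : ℕ) := by
          by_contra hc
          push Not at hc
          by_cases hps : (p : ℕ) < s
          · have := (hP p hps).1
            omega
          · obtain ⟨h3, h4, _⟩ := ih ((p : ℕ) - s) (by omega) (by omega)
            have h5 : (⟨s + ((p : ℕ) - s), h3⟩ : Fin n) = p := Fin.ext (by simp only; omega)
            rw [h5] at h4
            omega
        have hlt' : s + (r' + 1) < n := by
          have := p.isLt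
          omega
        refine ⟨hlt', ?_⟩
        rcases hA ⟨s + r', hlt⟩ ⟨s + (r' + 1), hlt'⟩ (by simp only; omega) with h3 | ⟨h3, h4⟩
        · exfalso
          have h5 := b23_later π hinj t hA ⟨s + r', hlt⟩ ⟨s + (r' + 1), hlt'⟩
            (by simp only; omega) h3 ((p : ℕ) - (s + (r' + 1))) p (by simp only; omega)
          rw [Fin.lt_def] at h5
          omega
        · exact ⟨by omega, h4.symm.trans h2⟩
  -- block boundaries
  have hbl : ∀ m, m ≤ n → ∃ s, m ≤ s ∧ s ≤ n ∧
      ∀ j : Fin n, (j : ℕ) < s → (π j : ℕ) < s ∧ π (π j) = j ∧ t (π j) = t j := by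
    intro m
    induction m with
    | zero => exact fun _ => ⟨0, le_rfl, Nat.zero_le _, fun j hj => absurd hj (Nat.not_lt_zero _)⟩
    | succ m ih =>
      intro hm
      obtain ⟨s, hs1, hs2, hP⟩ := ih (by omega)
      by_cases hsm : m + 1 ≤ s
      · exact ⟨s, hsm, hs2, hP⟩
      · have hs : s < n := by omega
        obtain ⟨hv, hr⟩ := hrun s hs hP
        have hvn := (π ⟨s, hs⟩).isLt
        refine ⟨(π ⟨s, hs⟩ : ℕ) + 1, by omega, by omega, fun j hj => ?_⟩
        by_cases hjs : (j : ℕ) < s
        · have := hP j hjs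
          exact ⟨by omega, this.2⟩
        · obtain ⟨h1, h2, h3⟩ := hr ((j : ℕ) - s) (by omega)
          have h4 : (⟨s + ((j : ℕ) - s), h1⟩ : Fin n) = j := Fin.ext (by simp only; omega)
          rw [h4] at h2 h3
          obtain ⟨h5, h6, h7⟩ := hr ((π j : ℕ) - s) (by omega)
          have h8 : (⟨s + ((π j : ℕ) - s), h5⟩ : Fin n) = π j := Fin.ext (by simp only; omega)
          rw [h8] at h6 h7
          exact ⟨by omega, Fin.ext (by omega), h7.trans h3.symm⟩
  obtain ⟨s, hs1, _, hP⟩ := hbl n le_rfl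
  exact (hP j (lt_of_lt_of_le j.isLt hs1)).2

/-- `Adm σ t` says: on consecutive positions `σ` either decreases, or increases by exactly one (with
equal `t`). Then `σ` is block antidiagonal: the positions split into runs `[s, e)` on which
`σ (s + r) = n - e + r` and `t` is constant. PROOF: let `b` be the position of the largest value `n-1`; for
`j ≤ b`, `σ (b - j) = n - 1 - j` by induction on `j` (an ascent must be by one, a descent from a larger value
is impossible), so the first run is `[0, b]`; then continue with the remaining positions (for example prove by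
strong induction: for every `s` such that `σ` maps `[0,s)` onto the values `≥ n - s`, and every position
`p ≥ s` ...). Within a run, `Fin.rev (σ p)` is the mirror image of `p` in its run. -/
theorem adm_rev {n : ℕ} {σ : Equiv.Perm (Fin n)} {t : Fin n → Fˣ} (h : Adm σ t) (j : Fin n) :
    σ (Fin.rev (σ j)) = Fin.rev j ∧ t (Fin.rev (σ j)) = t j := by
  have h1 := b23_key (fun j => Fin.rev (σ j)) (Fin.rev_injective.comp σ.injective)
    (Fin.rev_surjective.comp σ.surjective) t (fun a a' ha => by
      rcases h a a' ha with h2 | ⟨h2, h3⟩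
      · left
        exact Fin.rev_lt_rev.2 h2
      · right
        refine ⟨?_, h3⟩
        rw [Fin.val_rev, Fin.val_rev]
        have := (σ a').isLt
        omega) j
  refine ⟨?_, h1.2⟩
  have h2 := congrArg Fin.rev h1.1
  simpa only [Fin.rev_rev] using h2

/-- HINT: `σ⁻¹ = rev ∘ σ ∘ rev` by `adm_rev`. -/
theorem adm_symm {n : ℕ} {σ : Equiv.Perm (Fin n)} {t : Fin n → Fˣ} (h : Adm σ t)
    (a a' : Fin n) (ha : (a : ℕ) + 1 = a') :
    σ.symm a' < σ.symm a ∨ ((σ.symm a : ℕ) + 1 = σ.symm a' ∧ t (σ.symm a) = t (σ.symm a')) := by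
  have hs : ∀ b : Fin n, σ.symm b = Fin.rev (σ (Fin.rev b)) := by
    intro b
    rw [Equiv.symm_apply_eq, (adm_rev h (Fin.rev b)).1, Fin.rev_rev]
  have ht : ∀ b : Fin n, t (σ.symm b) = t (Fin.rev b) := by
    intro b
    rw [hs, (adm_rev h (Fin.rev b)).2]
  have hr : ((Fin.rev a' : Fin n) : ℕ) + 1 = Fin.rev a := by
    rw [Fin.val_rev, Fin.val_rev]
    have := a'.isLt
    omega
  rcases h (Fin.rev a') (Fin.rev a) hr with h2 | ⟨h2, h3⟩
  · left
    rw [hs a, hs a']
    exact Fin.rev_lt_rev.2 h2
  · right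
    refine ⟨?_, by rw [ht, ht, h3]⟩
    rw [hs a, hs a', Fin.val_rev, Fin.val_rev]
    have := (σ (Fin.rev a)).isLt
    omega

end Pool.Agent.Lib.MP_fa0f6c_al.Cx.B
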