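import Mathlib
import Pool.Agent.Lib.MP_fa0f6c_al.Cx.Defs
import Pool.Agent.Lib.MP_fa0f6c_al.Cx.BWDefs
import Pool.Agent.Lib.MP_fa0f6c_al.Cx.B23

set_option autoImplicit false

namespace Pool.Agent.Lib.MP_fa0f6c_al.Cx.B

variable {F : Type} [Field F]

/-- `p` is the start of a run -/
private def b24st {n : ℕ} (σ : Equiv.Perm (Fin n)) (p : Fin n) : Prop :=
  ∀ j : Fin n, (j : ℕ) + 1 = p → σ p < σ j

private theorem b24_run {n : ℕ} {σ : Equiv.Perm (Fin n)} {t : Fin n → Fˣ} (h : Adm σ t) :
    ∀ (d : ℕ) (p p' : Fin n), (p' : ℕ) = p + d → (∀ s : Fin n, p < s → s ≤ p' → ¬ b24st σ s) →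
      (σ p' : ℕ) = σ p + d ∧ t p = t p' := by
  intro d
  induction d with
  | zero =>
    intro p p' hp _
    have : p' = p := Fin.ext (by omega)
    subst this
    exact ⟨rfl, rfl⟩
  | succ d ih =>
    intro p p' hp hs
    have hlt : (p : ℕ) + d < n := by have := p'.2; omega
    obtain ⟨h1, h2⟩ := ih p ⟨p + d, hlt⟩ rfl (fun s hs1 hs2 => hs s hs1 (by
      rw [Fin.le_def] at hs2 ⊢; simp only at hs2; omega))
    have h3 := hs p' (by rw [Fin.lt_def]; omega) le_rfl
    unfold b24st at h3
    push Not at h3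
    obtain ⟨j, hj, hj2⟩ := h3
    have hj' : j = ⟨p + d, hlt⟩ := Fin.ext (by simp only; omega)
    subst hj'
    rcases h _ p' hj with h4 | ⟨h4, h5⟩
    · exact absurd h4 (not_lt.2 hj2)
    · exact ⟨by rw [← h4, h1]; ring, h2.trans h5⟩

private theorem b24_drop {n : ℕ} {σ : Equiv.Perm (Fin n)} {t : Fin n → Fˣ} (h : Adm σ t) :
    ∀ (d : ℕ) (p p' : Fin n), (p' : ℕ) = p + (d + 1) →
      (∃ s : Fin n, p < s ∧ s ≤ p' ∧ b24st σ s) → σ p' < σ p := by
  intro d
  induction d with
  | zero =>
    intro p p' hp ⟨s, hs1, hs2, hs⟩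
    have : s = p' := Fin.ext (by rw [Fin.lt_def] at hs1; rw [Fin.le_def] at hs2; omega)
    subst this
    exact hs p (by omega)
  | succ d ih =>
    intro p p' hp ⟨s, hs1, hs2, hs⟩
    have hlt : (p : ℕ) + (d + 1) < n := by have := p'.2; omega
    set p'' : Fin n := ⟨p + (d + 1), hlt⟩ with hp''
    have hpp : (p'' : ℕ) + 1 = p' := by simp only [hp'']; omega
    by_cases hex : ∃ s : Fin n, p < s ∧ s ≤ p'' ∧ b24st σ s
    · have h1 := ih p p'' rfl hex
      rcases h p'' p' hpp with h2 | ⟨h2, -⟩
      · exact h2.trans h1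
      · have h3 : σ p' ≠ σ p := fun h3 => by
          have := σ.injective h3
          rw [this] at hp; omega
        have h4 : (σ p' : ℕ) ≠ σ p := fun h4 => h3 (Fin.ext h4)
        rw [Fin.lt_def] at h1 ⊢
        omega
    · push Not at hex
      have hsp : s = p' := by
        by_contra hne
        have hle : s ≤ p'' := by
          have h5 : (s : ℕ) ≠ p' := fun h5 => hne (Fin.ext h5)
          rw [Fin.le_def] at hs2 ⊢; omega
        exact hex s hs1 hle hs
      subst hsp
      have h1 := hs p'' hpp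
      have h2 := (b24_run h (d + 1) p p'' rfl hex).1
      by_contra hcon
      rw [not_lt] at hcon
      rw [Fin.lt_def] at h1
      rw [Fin.le_def] at hcon
      obtain ⟨i, hi⟩ : ∃ i, (σ s : ℕ) = σ p + i := ⟨σ s - σ p, by omega⟩
      have hin : (p : ℕ) + i < n := by omega
      have h3 := (b24_run h i p ⟨p + i, hin⟩ rfl (fun a ha1 ha2 => hex a ha1 (by
        rw [Fin.le_def] at ha2 ⊢; simp only at ha2; simp only [hp'']; omega))).1
      have h4 : σ ⟨p + i, hin⟩ = σ s := Fin.ext (by rw [h3, hi])
      have h5 := congrArg Fin.val (σ.injective h4)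
      simp only at h5
      omega

private theorem b24_order {n : ℕ} {σ : Equiv.Perm (Fin n)} {t : Fin n → Fˣ} (h : Adm σ t)
    (p p' : Fin n) (hp : p < p') :
    σ p' < σ p ↔ ∃ s : Fin n, p < s ∧ s ≤ p' ∧ b24st σ s := by
  rw [Fin.lt_def] at hp
  constructor
  · intro h1
    by_contra hex
    push Not at hex
    have h2 := (b24_run h (p' - p) p p' (by omega) hex).1
    rw [Fin.lt_def] at h1
    omega
  · intro h1
    exact b24_drop h (p' - p - 1) p p' (by omega) h1

open Classical in
/-- the word of an admissible pair -/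
private noncomputable def b24wd {n : ℕ} (σ : Equiv.Perm (Fin n)) (t : Fin n → Fˣ) (p : Fin n) : F :=
  if b24st σ p then (t p : F) else 0

private theorem b24wd_ne {n : ℕ} {σ : Equiv.Perm (Fin n)} {t : Fin n → Fˣ} {p : Fin n} :
    b24wd σ t p ≠ 0 ↔ b24st σ p := by
  unfold b24wd
  split_ifs with h
  · exact ⟨fun _ => h, fun _ => (t p).ne_zero⟩
  · exact ⟨fun h1 => absurd rfl h1, fun h1 => absurd h1 h⟩

private theorem b24_perm_eq {n : ℕ} {σ τ : Equiv.Perm (Fin n)}
    (h : ∀ p p', p < p' → (σ p' < σ p ↔ τ p' < τ p)) : σ = τ := by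
  have h1 : ∀ a b, σ a ≤ σ b ↔ τ a ≤ τ b := by
    intro a b
    rcases lt_trichotomy a b with hab | rfl | hab
    · have := h a b hab
      rw [← not_lt, ← not_lt, this]
    · simp
    · have h2 := h b a hab
      have h3 : σ a ≠ σ b := fun h3 => hab.ne' (σ.injective h3)
      have h4 : τ a ≠ τ b := fun h4 => hab.ne' (τ.injective h4)
      rw [le_iff_lt_or_eq, le_iff_lt_or_eq, h2]
      simp [h3, h4]
  let e : Fin n ≃o Fin n :=
    { toEquiv := σ.symm.trans τ
      map_rel_iff' := by
        intro a b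
        simp only [Equiv.trans_apply]
        rw [← h1]; simp }
  have h2 : e = OrderIso.refl _ := Subsingleton.elim _ _
  ext p
  have h3 : e (σ p) = σ p := by rw [h2]; rfl
  have h4 : e (σ p) = τ p := by
    show τ (σ.symm (σ p)) = τ p
    rw [Equiv.symm_apply_apply]
  rw [← h3, h4]

private theorem b24_inj {n : ℕ} {σ σ' : Equiv.Perm (Fin n)} {t t' : Fin n → Fˣ} (h : Adm σ t)
    (h' : Adm σ' t') (hw : b24wd σ t = b24wd σ' t') : σ = σ' ∧ t = t' := by
  have hst : ∀ p, b24st σ p ↔ b24st σ' p := by
    intro p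
    rw [← b24wd_ne (t := t), ← b24wd_ne (t := t'), hw]
  refine ⟨b24_perm_eq fun p p' hp => ?_, ?_⟩
  · rw [b24_order h p p' hp, b24_order h' p p' hp]
    simp only [hst]
  · have key : ∀ k : ℕ, ∀ hk : k < n, t ⟨k, hk⟩ = t' ⟨k, hk⟩ := by
      intro k
      induction k with
      | zero =>
        intro hk
        have h1 : b24st σ ⟨0, hk⟩ := by intro j hj; simp at hj
        have h2 := congrFun hw ⟨0, hk⟩
        unfold b24wd at h2
        rw [if_pos h1, if_pos ((hst _).1 h1)] at h2
        exact Units.ext h2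
      | succ k ih =>
        intro hk
        by_cases h1 : b24st σ ⟨k + 1, hk⟩
        · have h2 := congrFun hw ⟨k + 1, hk⟩
          unfold b24wd at h2
          rw [if_pos h1, if_pos ((hst _).1 h1)] at h2
          exact Units.ext h2
        · have h2 : ¬ b24st σ' ⟨k + 1, hk⟩ := fun h3 => h1 ((hst _).2 h3)
          have e1 := (b24_run h 1 ⟨k, by omega⟩ ⟨k + 1, hk⟩ rfl (fun s hs1 hs2 => by
            have : s = ⟨k + 1, hk⟩ := Fin.ext (by
              rw [Fin.lt_def] at hs1; rw [Fin.le_def] at hs2; simp only at hs1 hs2 ⊢; omega)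
            rw [this]; exact h1)).2
          have e2 := (b24_run h' 1 ⟨k, by omega⟩ ⟨k + 1, hk⟩ rfl (fun s hs1 hs2 => by
            have : s = ⟨k + 1, hk⟩ := Fin.ext (by
              rw [Fin.lt_def] at hs1; rw [Fin.le_def] at hs2; simp only at hs1 hs2 ⊢; omega)
            rw [this]; exact h2)).2
          rw [← e1, ← e2, ih]
    funext p
    exact key p.1 p.2

open Classical in
/-- existence of the admissible pair with a given word -/
private theorem b24_surj {m : ℕ} (x : Fin (m + 1) → F) (hx : x 0 ≠ 0) :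
    ∃ (σ : Equiv.Perm (Fin (m + 1))) (t : Fin (m + 1) → Fˣ), Adm σ t ∧ b24wd σ t = x := by
  -- the set of starts up to `p`
  let A : Fin (m + 1) → Finset (Fin (m + 1)) := fun p => Finset.univ.filter fun s => s ≤ p ∧ x s ≠ 0
  have hA0 : ∀ p, (0 : Fin (m + 1)) ∈ A p := fun p => by simp [A, hx]
  have hAne : ∀ p, (A p).Nonempty := fun p => ⟨0, hA0 p⟩
  let S : Fin (m + 1) → Fin (m + 1) := fun p => (A p).max' (hAne p)
  have hS : ∀ p, x (S p) ≠ 0 := fun p => by
    have := (A p).max'_mem (hAne p)
    simp only [A, Finset.mem_filter] at this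
    exact this.2.2
  have hSself : ∀ p, x p ≠ 0 → S p = p := by
    intro p hp
    apply le_antisymm
    · have := (A p).max'_mem (hAne p)
      simp only [A, Finset.mem_filter] at this
      exact this.2.1
    · exact (A p).le_max' _ (by simp [A, hp])
  have hstep : ∀ j j' : Fin (m + 1), (j : ℕ) + 1 = j' → x j' = 0 → A j' = A j := by
    intro j j' hj hx'
    ext s
    simp only [A, Finset.mem_filter, Finset.mem_univ, true_and]
    constructor
    · rintro ⟨h1, h2⟩
      refine ⟨?_, h2⟩
      have h3 : s ≠ j' := by rintro rfl; exact h2 hx'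
      have h4 : (s : ℕ) ≠ j' := fun h4 => h3 (Fin.ext h4)
      rw [Fin.le_def] at h1 ⊢; omega
    · rintro ⟨h1, h2⟩
      refine ⟨?_, h2⟩
      rw [Fin.le_def] at h1 ⊢; omega
  have hstep' : ∀ j j' : Fin (m + 1), (j : ℕ) + 1 = j' → x j' ≠ 0 →
      (A j').card = (A j).card + 1 := by
    intro j j' hj hx'
    have : A j' = insert j' (A j) := by
      ext s
      simp only [A, Finset.mem_filter, Finset.mem_univ, true_and, Finset.mem_insert]
      constructor
      · rintro ⟨h1, h2⟩
        by_cases h3 : s = j'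
        · exact Or.inl h3
        · right
          refine ⟨?_, h2⟩
          have h4 : (s : ℕ) ≠ j' := fun h4 => h3 (Fin.ext h4)
          rw [Fin.le_def] at h1 ⊢; omega
      · rintro (rfl | ⟨h1, h2⟩)
        · exact ⟨le_rfl, hx'⟩
        · refine ⟨?_, h2⟩
          rw [Fin.le_def] at h1 ⊢; omega
    rw [this, Finset.card_insert_of_notMem]
    simp only [A, Finset.mem_filter, Finset.mem_univ, true_and, not_and]
    intro h1
    rw [Fin.le_def] at h1
    omega
  have hcard : ∀ p, (A p).card ≤ m + 1 := fun p => by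
    have := (A p).card_le_univ
    simpa using this
  let K : Fin (m + 1) → ℕ := fun p => (m + 1 - (A p).card) * (m + 2) + p
  have hmono : ∀ p p' : Fin (m + 1), p ≤ p' → (A p).card ≤ (A p').card := by
    intro p p' hpp
    apply Finset.card_le_card
    intro s hs
    simp only [A, Finset.mem_filter, Finset.mem_univ, true_and] at hs ⊢
    exact ⟨hs.1.trans hpp, hs.2⟩
  have hKinj : Function.Injective K := by
    intro p p' hpp
    simp only [K] at hpp
    have h1 : (p : ℕ) < m + 2 := by omega
    have h2 : (p' : ℕ) < m + 2 := by omega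
    have h3 : ((m + 1 - (A p).card) * (m + 2) + (p : ℕ)) % (m + 2) = p := by
      rw [Nat.add_comm, Nat.add_mul_mod_self_right, Nat.mod_eq_of_lt h1]
    have h4 : ((m + 1 - (A p').card) * (m + 2) + (p' : ℕ)) % (m + 2) = p' := by
      rw [Nat.add_comm, Nat.add_mul_mod_self_right, Nat.mod_eq_of_lt h2]
    exact Fin.ext (by rw [← h3, ← h4, hpp])
  set τ := Tuple.sort K with hτ
  have hτm : StrictMono (K ∘ τ) := (Tuple.monotone_sort K).strictMono_of_injective
    (hKinj.comp τ.injective)
  have hσ : ∀ a b, τ.symm a < τ.symm b ↔ K a < K b := by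
    intro a b
    rw [← hτm.lt_iff_lt]
    simp
  refine ⟨τ.symm, fun p => Units.mk0 (x (S p)) (hS p), ?_, ?_⟩
  · intro j j' hj
    by_cases hx' : x j' = 0
    · right
      have hAeq := hstep j j' hj hx'
      have hK : K j' = K j + 1 := by simp only [K, hAeq]; omega
      refine ⟨?_, ?_⟩
      · have h1 : τ.symm j < τ.symm j' := (hσ _ _).2 (by omega)
        rw [Fin.lt_def] at h1
        by_contra hne
        have h2 : (τ.symm j : ℕ) + 1 < τ.symm j' := by omega
        have h3 : (τ.symm j : ℕ) + 1 < m + 1 := by have := (τ.symm j').2; omega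
        set q := τ ⟨(τ.symm j : ℕ) + 1, h3⟩ with hq
        have h4 : τ.symm q = ⟨(τ.symm j : ℕ) + 1, h3⟩ := by rw [hq, Equiv.symm_apply_apply]
        have h5 : K j < K q := (hσ _ _).1 (by rw [h4, Fin.lt_def]; simp)
        have h6 : K q < K j' := (hσ _ _).1 (by rw [h4, Fin.lt_def]; simpa using h2)
        omega
      · apply Units.ext
        simp only [Units.val_mk0, S]
        congr 1
        simp only [hAeq]
    · left
      have hc := hstep' j j' hj hx'
      rw [hσ]
      simp only [K, hc]
      have h1 := hcard j'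
      rw [hc] at h1
      obtain ⟨k, hk⟩ : ∃ k, m + 1 = (A j).card + 1 + k := ⟨m + 1 - ((A j).card + 1), by omega⟩
      have e1 : m + 1 - ((A j).card + 1) = k := by omega
      have e2 : m + 1 - (A j).card = k + 1 := by omega
      rw [e1, e2]
      have := j'.2
      nlinarith
  · funext p
    unfold b24wd
    by_cases hp : x p = 0
    · rw [if_neg, hp]
      intro hst
      have hp0 : (p : ℕ) ≠ 0 := by
        intro h0
        have : p = 0 := Fin.ext h0
        rw [this] at hp; exact hx hp
      have h1 := hst ⟨p - 1, by omega⟩ (by simp only; omega)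
      rw [hσ] at h1
      have hAeq := hstep ⟨p - 1, by omega⟩ p (by simp only; omega) hp
      simp only [K, hAeq] at h1
      omega
    · rw [if_pos]
      · simp only [Units.val_mk0]
        rw [hSself p hp]
      · intro j hj
        rw [hσ]
        have hc := hstep' j p hj hp
        simp only [K, hc]
        have h1 := hcard p
        rw [hc] at h1
        obtain ⟨k, hk⟩ : ∃ k, m + 1 = (A j).card + 1 + k := ⟨m + 1 - ((A j).card + 1), by omega⟩
        have e1 : m + 1 - ((A j).card + 1) = k := by omega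
        have e2 : m + 1 - (A j).card = k + 1 := by omega
        rw [e1, e2]
        have := p.2
        nlinarith

/-- The number of admissible monomial matrices. HINT: an admissible pair is determined by
`x : Fin n → F`, `x 0 = t 0`, and for a position `j' = j + 1`: `x j' = 0` if `σ j' = σ j + 1` (the run
continues), `x j' = t j'` if `σ j' < σ j` (a new run starts). This is a bijection onto
`{x // x 0 ≠ 0}` : given `x`, the starts of the runs are the `p` with `x p ≠ 0`, the runs `[s, e)`, `t` is constant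
on the runs and `σ (s + r) = n - e + r`. (Injectivity: by induction from the left, the block
antidiagonal form in the proof of `adm_rev`: `σ p = n - e + (p - s)` where `[s, e)` is the run of `p`.) -/
theorem adm_card [Finite F] {n : ℕ} (hn : 0 < n) :
    Nat.card {p : Equiv.Perm (Fin n) × (Fin n → Fˣ) // Adm p.1 p.2} =
      (Nat.card F - 1) * Nat.card F ^ (n - 1) := by
  classical
  obtain ⟨m, rfl⟩ : ∃ m, n = m + 1 := ⟨n - 1, by omega⟩
  have h1 : Nat.card {p : Equiv.Perm (Fin (m + 1)) × (Fin (m + 1) → Fˣ) // Adm p.1 p.2} =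
      Nat.card {x : Fin (m + 1) → F // x 0 ≠ 0} := by
    refine Nat.card_congr (Equiv.ofBijective (fun p => ⟨b24wd p.1.1 p.1.2, ?_⟩) ⟨?_, ?_⟩)
    · rw [b24wd_ne]
      intro j hj
      simp at hj
    · rintro ⟨⟨σ, t⟩, h⟩ ⟨⟨σ', t'⟩, h'⟩ hw
      obtain ⟨e1, e2⟩ := b24_inj h h' (congrArg Subtype.val hw)
      subst e1 e2
      rfl
    · rintro ⟨x, hx⟩
      obtain ⟨σ, t, h, hw⟩ := b24_surj x hx
      exact ⟨⟨⟨σ, t⟩, h⟩, Subtype.ext hw⟩
  rw [h1]
  have h2 : Nat.card {x : Fin (m + 1) → F // x 0 ≠ 0} =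
      Nat.card ({a : F // a ≠ 0} × (Fin m → F)) := by
    refine Nat.card_congr
      { toFun := fun x => (⟨x.1 0, x.2⟩, fun i => x.1 i.succ)
        invFun := fun y => ⟨Fin.cons y.1.1 y.2, by simpa using y.1.2⟩
        left_inv := fun x => ?_
        right_inv := fun y => ?_ }
    · apply Subtype.ext
      funext i
      refine Fin.cases ?_ (fun i => ?_) i <;> simp
    · ext i <;> simp
  rw [h2, Nat.card_prod]
  have := Fintype.ofFinite F
  congr 1
  · rw [Nat.card_eq_fintype_card, Nat.card_eq_fintype_card, Fintype.card_subtype_compl]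
    simp
  · simp

end Pool.Agent.Lib.MP_fa0f6c_al.Cx.B
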