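import Mathlib
import Pool.Agent.Lib.MP_fa0f6c_al.Cx.Defs
import Pool.Agent.Lib.MP_fa0f6c_al.Cx.BWDefs

/-! Bruhat decomposition. -/

set_option autoImplicit false

namespace Pool.Agent.Lib.MP_fa0f6c_al.Cx.B

variable {F : Type} [Field F]

/-- the matrix with entry `c` at `(i, j)`, the matrix `M` in the other rows and columns -/
private def B21b {n : ℕ} (i j : Fin (n + 1)) (c : F) (M : Matrix (Fin n) (Fin n) F) :
    Matrix (Fin (n + 1)) (Fin (n + 1)) F :=
  Matrix.of (Fin.insertNth (α := fun _ => Fin (n + 1) → F) i
    (Fin.insertNth (α := fun _ => F) j c (fun _ => 0))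
    (fun a => Fin.insertNth (α := fun _ => F) j 0 (M a)))

private theorem B21b_ij {n : ℕ} (i j : Fin (n + 1)) (c : F) (M : Matrix (Fin n) (Fin n) F) :
    B21b i j c M i j = c := by
  simp [B21b]

private theorem B21b_i {n : ℕ} (i j : Fin (n + 1)) (c : F) (M : Matrix (Fin n) (Fin n) F)
    (b : Fin n) : B21b i j c M i (j.succAbove b) = 0 := by
  simp [B21b]

private theorem B21b_j {n : ℕ} (i j : Fin (n + 1)) (c : F) (M : Matrix (Fin n) (Fin n) F)
    (a : Fin n) : B21b i j c M (i.succAbove a) j = 0 := by
  simp [B21b]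

private theorem B21b_ab {n : ℕ} (i j : Fin (n + 1)) (c : F) (M : Matrix (Fin n) (Fin n) F)
    (a b : Fin n) : B21b i j c M (i.succAbove a) (j.succAbove b) = M a b := by
  simp [B21b]

private theorem B21b_mul {n : ℕ} (i j k : Fin (n + 1)) (c d : F) (M M' : Matrix (Fin n) (Fin n) F) :
    B21b i j c M * B21b j k d M' = B21b i k (c * d) (M * M') := by
  ext x y
  rw [Matrix.mul_apply, Fin.sum_univ_succAbove _ j]
  refine Fin.succAboveCases i ?_ (fun a => ?_) x
  · refine Fin.succAboveCases k ?_ (fun b => ?_) y
    · rw [B21b_ij, B21b_ij, B21b_ij, Finset.sum_eq_zero, add_zero]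
      intro e _
      rw [B21b_i, zero_mul]
    · rw [B21b_ij, B21b_i, B21b_i, mul_zero, zero_add]
      refine Finset.sum_eq_zero fun e _ => ?_
      rw [B21b_i, zero_mul]
  · refine Fin.succAboveCases k ?_ (fun b => ?_) y
    · rw [B21b_j, B21b_j, zero_mul, zero_add]
      refine Finset.sum_eq_zero fun e _ => ?_
      rw [B21b_j, mul_zero]
    · rw [B21b_j, B21b_ab, zero_mul, zero_add, Matrix.mul_apply]
      refine Finset.sum_congr rfl fun e _ => ?_
      rw [B21b_ab, B21b_ab]

private theorem B21b_ut {n : ℕ} (i : Fin (n + 1)) (M : Matrix (Fin n) (Fin n) F) (hM : IsUT M) :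
    IsUT (B21b i i 1 M) := by
  constructor
  · intro x y
    refine Fin.succAboveCases i ?_ (fun a => ?_) x
    · refine Fin.succAboveCases i ?_ (fun b => ?_) y
      · intro h
        exact absurd h (lt_irrefl _)
      · intro _
        rw [B21b_i]
    · refine Fin.succAboveCases i ?_ (fun b => ?_) y
      · intro _
        rw [B21b_j]
      · intro h
        rw [B21b_ab]
        exact hM.1 a b ((Fin.strictMono_succAbove i).lt_iff_lt.1 h)
  · intro x
    refine Fin.succAboveCases i ?_ (fun a => ?_) x
    · rw [B21b_ij]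
    · rw [B21b_ab, hM.2]

private theorem B21_mono {n : ℕ} (i : Fin (n + 1)) (c : Fˣ) (σ : Equiv.Perm (Fin n))
    (t : Fin n → Fˣ) :
    ∃ (σ' : Equiv.Perm (Fin (n + 1))) (t' : Fin (n + 1) → Fˣ),
      B21b i 0 (c : F) (mono σ t : Matrix (Fin n) (Fin n) F) =
        (mono σ' t' : Matrix (Fin (n + 1)) (Fin (n + 1)) F) := by
  let σ' : Equiv.Perm (Fin (n + 1)) :=
    (finSuccEquiv' 0).trans ((Equiv.optionCongr σ).trans (finSuccEquiv' i).symm)
  have h0 : σ' 0 = i := by
    simp [σ']
  have hs : ∀ b, σ' ((0 : Fin (n + 1)).succAbove b) = i.succAbove (σ b) := by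
    intro b
    change (finSuccEquiv' i).symm ((Equiv.optionCongr σ) (finSuccEquiv' 0
      ((0 : Fin (n + 1)).succAbove b))) = _
    rw [finSuccEquiv'_succAbove, Equiv.optionCongr_apply, Option.map_some, finSuccEquiv'_symm_some]
  refine ⟨σ', Fin.insertNth (α := fun _ => Fˣ) 0 c t, ?_⟩
  ext x y
  rw [mono_apply]
  refine Fin.succAboveCases i ?_ (fun a => ?_) x
  · refine Fin.succAboveCases 0 ?_ (fun b => ?_) y
    · rw [B21b_ij, h0, if_pos rfl, Fin.insertNth_apply_same]
    · rw [B21b_i, hs, if_neg (Fin.succAbove_ne i _).symm]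
  · refine Fin.succAboveCases 0 ?_ (fun b => ?_) y
    · rw [B21b_j, h0, if_neg (Fin.succAbove_ne i _)]
    · rw [B21b_ab, hs, Fin.insertNth_apply_succAbove, mono_apply]
      by_cases h : a = σ b
      · rw [if_pos h, if_pos (by rw [h])]
      · rw [if_neg h, if_neg (fun h' => h (Fin.succAbove_right_injective h'))]

private theorem B21_det_ut {n : ℕ} {u : Matrix (Fin n) (Fin n) F} (hu : IsUT u) : u.det = 1 := by
  have h1 : Matrix.BlockTriangular u (id : Fin n → Fin n) := fun i j h => hu.1 i j h
  rw [Matrix.det_of_isUpperTriangular h1]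
  exact Finset.prod_eq_one fun i _ => hu.2 i

private theorem B21_matrix : ∀ (n : ℕ) (g : Matrix (Fin n) (Fin n) F), g.det ≠ 0 →
    ∃ u u' : Matrix (Fin n) (Fin n) F, IsUT u ∧ IsUT u' ∧ ∃ (σ : Equiv.Perm (Fin n))
      (t : Fin n → Fˣ), g = u * (mono σ t : Matrix (Fin n) (Fin n) F) * u' := by
  classical
  intro n
  induction n with
  | zero =>
    intro g _
    refine ⟨1, 1, isUT_one, isUT_one, 1, fun _ => 1, ?_⟩
    exact Subsingleton.elim _ _
  | succ n ih =>
    intro g hg
    -- the lowest nonzero entry of the first column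
    have hex : (Finset.univ.filter fun i => g i 0 ≠ 0).Nonempty := by
      by_contra h
      rw [Finset.not_nonempty_iff_eq_empty] at h
      apply hg
      refine Matrix.det_eq_zero_of_column_eq_zero 0 fun i => ?_
      by_contra hi
      have h1 : i ∈ Finset.univ.filter fun i => g i 0 ≠ 0 :=
        Finset.mem_filter.2 ⟨Finset.mem_univ _, hi⟩
      rw [h] at h1
      exact Finset.notMem_empty _ h1
    obtain ⟨i, hi, hmax⟩ := Finset.exists_max_image _ id hex
    have hi0 : g i 0 ≠ 0 := (Finset.mem_filter.1 hi).2
    have hlow : ∀ x, i < x → g x 0 = 0 := by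
      intro x hx
      by_contra h
      have h1 := hmax x (Finset.mem_filter.2 ⟨Finset.mem_univ _, h⟩)
      exact absurd hx (not_lt.2 h1)
    set c : F := g i 0 with hc
    set L : Matrix (Fin (n + 1)) (Fin (n + 1)) F :=
      Matrix.of fun x y => if x = y then 1 else if y = i ∧ x < i then g x 0 / c else 0 with hL
    set R : Matrix (Fin (n + 1)) (Fin (n + 1)) F :=
      Matrix.of fun x y => if x = y then 1 else if x = 0 then g i y / c else 0 with hR
    set h : Matrix (Fin n) (Fin n) F := Matrix.of fun a b =>
      g (i.succAbove a) b.succ - g (i.succAbove a) 0 / c * g i b.succ with hh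
    have hLut : IsUT L := by
      constructor
      · intro x y hxy
        rw [hL, Matrix.of_apply, if_neg hxy.ne', if_neg]
        rintro ⟨rfl, h2⟩
        exact absurd h2 (not_lt.2 hxy.le)
      · intro x
        rw [hL, Matrix.of_apply, if_pos rfl]
    have hRut : IsUT R := by
      constructor
      · intro x y hxy
        rw [hR, Matrix.of_apply, if_neg hxy.ne', if_neg]
        rintro rfl
        exact absurd hxy (Fin.not_lt_zero _)
      · intro x
        rw [hR, Matrix.of_apply, if_pos rfl]
    -- the middle matrix times `R`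
    have hBR_i : ∀ y, (B21b i 0 c h * R) i y = g i y := by
      intro y
      rw [Matrix.mul_apply, Fin.sum_univ_succAbove _ 0, B21b_ij, Finset.sum_eq_zero, add_zero]
      · rw [hR, Matrix.of_apply]
        by_cases hy : (0 : Fin (n + 1)) = y
        · rw [if_pos hy, mul_one, ← hy]
        · rw [if_neg hy, if_pos rfl]
          field_simp
      · intro e _
        rw [B21b_i, zero_mul]
    have hBR_a : ∀ a y, (B21b i 0 c h * R) (i.succAbove a) y =
        g (i.succAbove a) y - g (i.succAbove a) 0 / c * g i y := by
      intro a y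
      rw [Matrix.mul_apply, Fin.sum_univ_succAbove _ 0, B21b_j, zero_mul, zero_add]
      refine Fin.succAboveCases 0 ?_ (fun b => ?_) y
      · rw [← hc, div_mul_cancel₀ _ hi0, sub_self]
        refine Finset.sum_eq_zero fun e _ => ?_
        rw [hR, Matrix.of_apply, if_neg (Fin.succAbove_ne _ _), if_neg (Fin.succAbove_ne _ _),
          mul_zero]
      · rw [Finset.sum_eq_single b]
        · rw [B21b_ab, hR, Matrix.of_apply, if_pos rfl, mul_one, hh, Matrix.of_apply,
            Fin.zero_succAbove]
        · intro e _ he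
          rw [hR, Matrix.of_apply, if_neg (fun h' => he (Fin.succAbove_right_injective h')),
            if_neg (Fin.succAbove_ne _ _), mul_zero]
        · intro h'
          exact absurd (Finset.mem_univ b) h'
    have hprod : g = L * (B21b i 0 c h * R) := by
      ext x y
      rw [Matrix.mul_apply, Fin.sum_univ_succAbove _ i, hBR_i]
      refine Fin.succAboveCases i ?_ (fun a => ?_) x
      · rw [Finset.sum_eq_zero, add_zero]
        · rw [hL, Matrix.of_apply, if_pos rfl, one_mul]
        · intro e _
          rw [hL, Matrix.of_apply, if_neg (Fin.succAbove_ne _ _).symm, if_neg, zero_mul]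
          rintro ⟨h1, -⟩
          exact Fin.succAbove_ne _ _ h1
      · rw [Finset.sum_eq_single a]
        · rw [hBR_a]
          have hL1 : L (i.succAbove a) (i.succAbove a) = 1 := hLut.2 _
          have hL2 : L (i.succAbove a) i = g (i.succAbove a) 0 / c := by
            rw [hL, Matrix.of_apply, if_neg (Fin.succAbove_ne _ _)]
            by_cases h1 : i.succAbove a < i
            · rw [if_pos ⟨rfl, h1⟩]
            · rw [if_neg (fun h2 => h1 h2.2)]
              have h3 : i < i.succAbove a :=
                lt_of_le_of_ne (not_lt.1 h1) (Fin.succAbove_ne _ _).symm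
              rw [hlow _ h3, zero_div]
          rw [hL1, hL2, one_mul]
          ring
        · intro e _ he
          rw [hL, Matrix.of_apply, if_neg (fun h' => he (Fin.succAbove_right_injective h').symm),
            if_neg, zero_mul]
          rintro ⟨h1, -⟩
          exact Fin.succAbove_ne _ _ h1
        · intro h'
          exact absurd (Finset.mem_univ a) h'
    -- the minor is invertible
    have hdet : (B21b i 0 c h).det ≠ 0 := by
      intro h0
      apply hg
      rw [hprod, Matrix.det_mul, Matrix.det_mul, h0, zero_mul, mul_zero]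
    have hdeth : h.det ≠ 0 := by
      intro h0
      apply hdet
      rw [Matrix.det_succ_column_zero]
      refine Finset.sum_eq_zero fun x _ => ?_
      refine Fin.succAboveCases i ?_ (fun a => ?_) x
      · have h1 : (B21b i 0 c h).submatrix i.succAbove Fin.succ = h := by
          ext a b
          rw [Matrix.submatrix_apply, ← Fin.zero_succAbove, B21b_ab]
        rw [h1, h0, mul_zero]
      · rw [B21b_j, mul_zero, zero_mul]
    obtain ⟨v, v', hv, hv', σ, t, hvv⟩ := ih h hdeth
    obtain ⟨σ', t', hmono⟩ := B21_mono i (Units.mk0 c hi0) σ t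
    refine ⟨L * B21b i i 1 v, B21b 0 0 1 v' * R, isUT_mul hLut (B21b_ut i v hv),
      isUT_mul (B21b_ut 0 v' hv') hRut, σ', t', ?_⟩
    rw [Units.val_mk0] at hmono
    rw [← hmono]
    have h1 : B21b i 0 c h = B21b i i 1 v * B21b i 0 c (mono σ t : Matrix (Fin n) (Fin n) F) *
        B21b 0 0 1 v' := by
      rw [B21b_mul, B21b_mul, one_mul, mul_one, hvv]
    rw [hprod, h1]
    simp only [Matrix.mul_assoc]

/-- Bruhat decomposition, existence. HINT: induction on `n`. For `g ∈ GL_{n+1}` let `(i, 0)` be the lowest
nonzero entry of the first column; clear the first column above row `i` by a unitriangular matrix on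
the left, then clear row `i` to the right of column `0` by a unitriangular matrix on the right. The matrix
obtained by deleting row `i` and column `0` (`Matrix.submatrix` with `i.succAbove`, `Fin.succ`) is
invertible; write it as `v * mono σ t * v'`, and enlarge: `v̂ (i.succAbove a) (i.succAbove b) = v a b`,
`v̂ i i = 1`, other entries `0` (unitriangular because `i.succAbove` is increasing); `v̂'` from `v'` with
`Fin.succ`. It may be convenient to prove the statement for matrices `g` with `IsUnit g.det` and to get the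
units `u`, `u'` at the end. -/
theorem bruhat_exists {n : ℕ} (g : Matrix.GeneralLinearGroup (Fin n) F) :
    ∃ u ∈ Ugp F n, ∃ (σ : Equiv.Perm (Fin n)) (t : Fin n → Fˣ), ∃ u' ∈ Ugp F n,
      g = u * mono σ t * u' := by
  have hg : (g : Matrix (Fin n) (Fin n) F).det ≠ 0 :=
    ((Matrix.isUnit_iff_isUnit_det _).1 g.isUnit).ne_zero
  obtain ⟨u, u', hu, hu', σ, t, h⟩ := B21_matrix n _ hg
  refine ⟨Matrix.nonsingInvUnit u (by rw [B21_det_ut hu]; exact isUnit_one), hu, σ, t,
    Matrix.nonsingInvUnit u' (by rw [B21_det_ut hu']; exact isUnit_one), hu', ?_⟩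
  apply Units.ext
  exact h

end Pool.Agent.Lib.MP_fa0f6c_al.Cx.B
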