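import Mathlib
import Pool.Agent.Lib.MP_fa0f6c_al.Cx.Defs
import Pool.Agent.Lib.MP_fa0f6c_al.Cx.BWDefs
import Pool.Agent.Lib.MP_fa0f6c_al.Cx.B23

/-! Admissibility and the generic character. -/

set_option autoImplicit false

namespace Pool.Agent.Lib.MP_fa0f6c_al.Cx.B

variable {F : Type} [Field F]

private theorem supdiag_one {n : ℕ} : supdiag (1 : Matrix (Fin n) (Fin n) F) = 0 := by
  unfold supdiag
  refine Finset.sum_eq_zero fun i _ => Finset.sum_eq_zero fun j _ => ?_
  split_ifs with h
  · refine Matrix.one_apply_ne ?_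
    intro hij
    rw [hij] at h
    omega
  · rfl

private theorem supdiag_mul {n : ℕ} {g h : Matrix (Fin n) (Fin n) F} (hg : IsUT g) (hh : IsUT h) :
    supdiag (g * h) = supdiag g + supdiag h := by
  unfold supdiag
  rw [← Finset.sum_add_distrib]
  refine Finset.sum_congr rfl fun i _ => ?_
  rw [← Finset.sum_add_distrib]
  refine Finset.sum_congr rfl fun j _ => ?_
  split_ifs with hij
  · rw [Matrix.mul_apply]
    have hne : i ≠ j := by
      intro h'
      rw [h'] at hij
      omega
    rw [Finset.sum_eq_add i j hne]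
    · rw [hg.2, hh.2, one_mul, mul_one, add_comm]
    · rintro k - ⟨hki, hkj⟩
      rcases lt_or_gt_of_ne hki with hk | hk
      · rw [hg.1 i k hk, zero_mul]
      · have : j < k := by
          rw [Fin.lt_def] at hk ⊢
          have : (k : ℕ) ≠ j := fun h' => hkj (Fin.ext h')
          omega
        rw [hh.1 k j this, mul_zero]
    · intro h'
      exact absurd (Finset.mem_univ _) h'
    · intro h'
      exact absurd (Finset.mem_univ _) h'
  · rw [add_zero]

/-- HINT: `supdiag` is additive on products of unitriangular matrices. -/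
theorem th_isLin (Ψ : AddChar F ℂ) (n : ℕ) : IsLin (Ugp F n) (th Ψ n) := by
  refine ⟨?_, fun x hx y hy => ?_⟩
  · simp only [th, Units.val_one, supdiag_one, AddChar.map_zero_eq_one]
  · simp only [th, Units.val_mul]
    rw [supdiag_mul hx hy, AddChar.map_add_eq_mul]

/-- elementary unipotent matrices -/
private def el {n : ℕ} (i j : Fin n) (hij : i ≠ j) (c : F) :
    Matrix.GeneralLinearGroup (Fin n) F where
  val := Matrix.transvection i j c
  inv := Matrix.transvection i j (-c)
  val_inv := by
    rw [Matrix.transvection_mul_transvection_same i j hij, add_neg_cancel, Matrix.transvection_zero]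
  inv_val := by
    rw [Matrix.transvection_mul_transvection_same i j hij, neg_add_cancel, Matrix.transvection_zero]

private theorem el_mem {n : ℕ} (i j : Fin n) (hij : i < j) (c : F) :
    el i j hij.ne c ∈ Ugp F n := by
  rw [mem_Ugp]
  refine ⟨fun a b hab => ?_, fun a => ?_⟩
  · change Matrix.transvection i j c a b = 0
    rw [Matrix.transvection, Matrix.add_apply, Matrix.one_apply_ne hab.ne', zero_add,
      Matrix.single_apply, if_neg]
    rintro ⟨rfl, rfl⟩
    exact absurd hab (not_lt.2 hij.le)
  · change Matrix.transvection i j c a a = 1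
    rw [Matrix.transvection, Matrix.add_apply, Matrix.one_apply_eq, Matrix.single_apply, if_neg,
      add_zero]
    rintro ⟨rfl, h2⟩
    exact hij.ne h2.symm

private theorem supdiag_el {n : ℕ} (i j : Fin n) (hij : i ≠ j) (c : F) :
    supdiag ((el i j hij c : Matrix.GeneralLinearGroup (Fin n) F) : Matrix (Fin n) (Fin n) F) =
      if (i : ℕ) + 1 = j then c else 0 := by
  unfold supdiag
  rw [Finset.sum_eq_single i]
  · rw [Finset.sum_eq_single j]
    · split_ifs with h
      · change Matrix.transvection i j c i j = c
        rw [Matrix.transvection, Matrix.add_apply, Matrix.one_apply_ne hij, zero_add,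
          Matrix.single_apply, if_pos ⟨rfl, rfl⟩]
      · rfl
    · intro b _ hb
      split_ifs with h
      · change Matrix.transvection i j c i b = 0
        have hib : i ≠ b := by
          intro h'
          rw [h'] at h
          omega
        rw [Matrix.transvection, Matrix.add_apply, Matrix.one_apply_ne hib, zero_add,
          Matrix.single_apply, if_neg]
        rintro ⟨-, h'⟩
        exact hb h'.symm
      · rfl
    · intro h
      exact absurd (Finset.mem_univ _) h
  · intro a _ ha
    refine Finset.sum_eq_zero fun b _ => ?_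
    split_ifs with h
    · change Matrix.transvection i j c a b = 0
      have hab : a ≠ b := by
        intro h'
        rw [h'] at h
        omega
      rw [Matrix.transvection, Matrix.add_apply, Matrix.one_apply_ne hab, zero_add,
        Matrix.single_apply, if_neg]
      rintro ⟨h', -⟩
      exact ha h'.symm
    · rfl
  · intro h
    exact absurd (Finset.mem_univ _) h

/-- HINT: `¬ Adm`: there is `j`, `j' = j + 1` with `σ j < σ j'` and not (`σ j' = σ j + 1` and `t j = t j'`).
Take `u' = 1 + x e_{j j'}` (`Matrix.transvection`), then `mono * u' * mono⁻¹ = 1 + x (t j / t j') e_{σ j, σ j'}` is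
unitriangular, `u` its inverse, `th u * th u' = Ψ (x - x (t j / t j') [σ j' = σ j + 1])`, and `x` ranges over
`F`, choose `x` such that this is not `1`. -/
theorem not_adm {n : ℕ} (Ψ : AddChar F ℂ) (hΨ : ∃ a, Ψ a ≠ 1) {σ : Equiv.Perm (Fin n)}
    {t : Fin n → Fˣ} (h : ¬ Adm σ t) :
    ∃ u ∈ Ugp F n, ∃ u' ∈ Ugp F n, u * mono σ t * u' = mono σ t ∧ th Ψ n u * th Ψ n u' ≠ 1 := by
  obtain ⟨a, ha⟩ := hΨ
  unfold Adm at h
  push Not at h
  obtain ⟨j, j', hjj, h1, h2⟩ := h
  have hjne : j < j' := by rw [Fin.lt_def]; omega
  have hσ : σ j < σ j' := lt_of_le_of_ne h1 (fun h' => hjne.ne (σ.injective h'))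
  -- the constant
  set ρ : F := (t j : F) * ((t j' : F))⁻¹ with hρ
  set κ : F := if (σ j : ℕ) + 1 = σ j' then 1 - ρ else 1 with hκ
  have hκ0 : κ ≠ 0 := by
    rw [hκ]
    split_ifs with h3
    · intro h4
      apply h2 h3
      have h5 : ρ = 1 := (sub_eq_zero.1 h4).symm
      rw [hρ, mul_inv_eq_one₀ (t j').ne_zero] at h5
      exact Units.ext h5
    · exact one_ne_zero
  set x : F := a * κ⁻¹ with hx
  refine ⟨el (σ j) (σ j') hσ.ne (-(x * ρ)), el_mem _ _ hσ _, el j j' hjne.ne x, el_mem _ _ hjne _,
    ?_, ?_⟩
  · apply Units.ext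
    rw [Units.val_mul, Units.val_mul]
    change Matrix.transvection (σ j) (σ j') (-(x * ρ)) * (mono σ t : Matrix (Fin n) (Fin n) F) *
      Matrix.transvection j j' x = (mono σ t : Matrix (Fin n) (Fin n) F)
    have h3 : (mono σ t : Matrix (Fin n) (Fin n) F) * Matrix.transvection j j' x =
        Matrix.transvection (σ j) (σ j') (x * ρ) * (mono σ t : Matrix (Fin n) (Fin n) F) := by
      rw [Matrix.transvection, Matrix.transvection, mul_add, add_mul, mul_one, one_mul]
      congr 1
      ext i b
      rw [Matrix.mul_apply, Matrix.mul_apply]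
      rw [Finset.sum_eq_single j]
      · rw [Finset.sum_eq_single (σ j')]
        · rw [mono_apply, mono_apply, Matrix.single_apply, Matrix.single_apply]
          by_cases hb : b = j'
          · subst hb
            by_cases hi : i = σ j
            · subst hi
              rw [if_pos rfl, if_pos ⟨rfl, rfl⟩, if_pos ⟨rfl, rfl⟩, if_pos rfl, hρ]
              have := (t b).ne_zero
              field_simp
            · have hn : ¬ (σ j = i ∧ σ b = σ b) := fun h' => hi h'.1.symm
              rw [if_neg hi, zero_mul, if_neg hn, zero_mul]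
          · have hn1 : ¬ (j = j ∧ j' = b) := fun h' => hb h'.2.symm
            have hn2 : ¬ (σ j' = σ b) := fun h' => hb (σ.injective h').symm
            rw [if_neg hn1, if_neg hn2, mul_zero, mul_zero]
        · intro k _ hk
          rw [Matrix.single_apply, if_neg (fun h' => hk h'.2.symm), zero_mul]
        · intro h'
          exact absurd (Finset.mem_univ _) h'
      · intro k _ hk
        rw [Matrix.single_apply, if_neg (fun h' => hk h'.1.symm), mul_zero]
      · intro h'
        exact absurd (Finset.mem_univ _) h'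
    rw [mul_assoc, h3, ← mul_assoc, Matrix.transvection_mul_transvection_same _ _ hσ.ne,
      neg_add_cancel, Matrix.transvection_zero, one_mul]
  · simp only [th]
    rw [supdiag_el, supdiag_el, if_pos hjj, ← AddChar.map_add_eq_mul]
    have h4 : (if (σ j : ℕ) + 1 = σ j' then -(x * ρ) else 0) + x = a := by
      have h5 : (if (σ j : ℕ) + 1 = σ j' then -(x * ρ) else 0) + x = x * κ := by
        rw [hκ]
        split_ifs with h6
        · ring
        · ring
      rw [h5, hx, mul_assoc, inv_mul_cancel₀ hκ0, mul_one]
    rw [h4]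
    exact ha

/-- HINT: with `v = u⁻¹` : `mono * u' = v * mono`, i.e. `v (σ a) (σ b) = t a * u' a b * (t b)⁻¹`.
`supdiag v = supdiag u'`: for `b = a + 1` an ascent of `σ` the entries `v (σ a) (σ b)` and `u' a b` agree; if it is
a descent `u' a b = 0` since `v (σ a) (σ b) = 0`; and every pair of neighbours `(c, c+1)` of rows is either
`(σ a, σ (a+1))` with an ascent, or (`adm_symm`) `σ⁻¹ (c+1) < σ⁻¹ c` and `v c (c+1) = 0`. -/
theorem adm_th {n : ℕ} (Ψ : AddChar F ℂ) {σ : Equiv.Perm (Fin n)} {t : Fin n → Fˣ}
    (h : Adm σ t) {u u' : Matrix.GeneralLinearGroup (Fin n) F} (hu : u ∈ Ugp F n)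
    (hu' : u' ∈ Ugp F n) (he : u * mono σ t * u' = mono σ t) :
    th Ψ n u * th Ψ n u' = 1 := by
  set v := u⁻¹ with hv
  have hvU : v ∈ Ugp F n := (Ugp F n).inv_mem hu
  have he' : mono σ t * u' = v * mono σ t := by
    rw [hv, eq_inv_mul_iff_mul_eq, ← mul_assoc, he]
  have hent : ∀ a b : Fin n, (t a : F) * (u' : Matrix (Fin n) (Fin n) F) a b =
      (v : Matrix (Fin n) (Fin n) F) (σ a) (σ b) * t b := by
    intro a b
    have h1 := congrArg (fun g : Matrix.GeneralLinearGroup (Fin n) F =>
      (g : Matrix (Fin n) (Fin n) F) (σ a) b) he'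
    simp only [Units.val_mul, Matrix.mul_apply, mono_apply] at h1
    rw [Finset.sum_eq_single a, Finset.sum_eq_single (σ b), if_pos rfl, if_pos rfl] at h1
    · exact h1
    · intro k _ hk
      rw [if_neg hk, mul_zero]
    · intro h'
      exact absurd (Finset.mem_univ _) h'
    · intro k _ hk
      rw [if_neg (fun h' => hk (σ.injective h').symm), zero_mul]
    · intro h'
      exact absurd (Finset.mem_univ _) h'
  have h1 : supdiag (v : Matrix (Fin n) (Fin n) F) = supdiag (u' : Matrix (Fin n) (Fin n) F) := by
    unfold supdiag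
    rw [← Equiv.sum_comp σ]
    refine Finset.sum_congr rfl fun a _ => ?_
    rw [← Equiv.sum_comp σ]
    refine Finset.sum_congr rfl fun b _ => ?_
    have hta := (t a).ne_zero
    have htb := (t b).ne_zero
    by_cases hab : (a : ℕ) + 1 = b
    · rw [if_pos hab]
      rcases h a b hab with h2 | ⟨h2, h3⟩
      · rw [if_neg (by rw [Fin.lt_def] at h2; omega)]
        have h4 := hent a b
        rw [hvU.1 _ _ h2, zero_mul] at h4
        exact ((mul_eq_zero.1 h4).resolve_left hta).symm
      · rw [if_pos h2]
        have h4 := hent a b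
        rw [h3, mul_comm] at h4
        exact (mul_right_cancel₀ htb h4).symm
    · rw [if_neg hab]
      split_ifs with h2
      · rcases adm_symm h (σ a) (σ b) h2 with h3 | ⟨h3, -⟩
        · rw [Equiv.symm_apply_apply, Equiv.symm_apply_apply] at h3
          have h4 := hent a b
          rw [hu'.1 _ _ h3, mul_zero] at h4
          exact (mul_eq_zero.1 h4.symm).resolve_right htb
        · rw [Equiv.symm_apply_apply, Equiv.symm_apply_apply] at h3
          exact absurd h3 hab
      · rfl
  have h2 : supdiag (v : Matrix (Fin n) (Fin n) F) + supdiag (u : Matrix (Fin n) (Fin n) F) = 0 := by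
    rw [← supdiag_mul hvU hu, ← Units.val_mul, hv, inv_mul_cancel, Units.val_one, supdiag_one]
  simp only [th]
  rw [← AddChar.map_add_eq_mul, ← h1, add_comm, h2, AddChar.map_zero_eq_one]

end Pool.Agent.Lib.MP_fa0f6c_al.Cx.B
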