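import Pool.Agent.Lib.MP_fa0f6c_al.Cx.Defs
import Pool.Agent.Lib.MP_fa0f6c_al.Cx.R09

set_option autoImplicit false

namespace Pool.Agent.Lib.MP_fa0f6c_al.Cx

open scoped ComplexConjugate

/-! ### private helpers -/

/-- Schur's lemma for averages -/
private theorem R14_schur {G V : Type} [Group G] [Fintype G] [AddCommGroup V] [Module ℂ V]
    [FiniteDimensional ℂ V] (ρ : Representation ℂ G V) (h : ρ.IsIrreducible) (X : Module.End ℂ V) :
    ∃ c : ℂ, ∑ g : G, ρ g * X * ρ g⁻¹ = c • (1 : Module.End ℂ V) ∧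
      c * (Module.finrank ℂ V : ℂ) = (Fintype.card G : ℂ) * LinearMap.trace ℂ V X := by
  set Y : Module.End ℂ V := ∑ g : G, ρ g * X * ρ g⁻¹ with hY
  have hcomm : ∀ x : G, ρ x * Y = Y * ρ x := by
    intro x
    rw [hY, Finset.mul_sum, Finset.sum_mul]
    refine Fintype.sum_equiv (Equiv.mulLeft x) _ _ ?_
    intro g
    rw [Equiv.coe_mulLeft, mul_inv_rev, map_mul, map_mul]
    have h1 : ρ x⁻¹ * ρ x = 1 := by rw [← map_mul, inv_mul_cancel, map_one]
    calc ρ x * (ρ g * X * ρ g⁻¹) = ρ x * (ρ g * X * ρ g⁻¹) * 1 := by rw [mul_one]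
      _ = ρ x * ρ g * X * (ρ g⁻¹ * ρ x⁻¹) * ρ x := by
          rw [← h1]
          simp only [mul_assoc]
  let f : Representation.IntertwiningMap ρ ρ :=
    LinearMap.intertwiningMap_of_isIntertwiningMap ρ ρ Y (fun g v => by
      have := LinearMap.congr_fun (hcomm g) v
      simpa using this.symm)
  have hsurj := (Representation.IsIrreducible.algebraMap_intertwiningMap_bijective_of_isAlgClosed
    (ρ := ρ)).2
  obtain ⟨c, hc⟩ := hsurj f
  have hYc : Y = c • (1 : Module.End ℂ V) := by
    ext v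
    have h1 : f v = (algebraMap ℂ (Representation.IntertwiningMap ρ ρ) c) v := by rw [hc]
    have h2 : f v = Y v := rfl
    rw [← h2, h1]
    rfl
  refine ⟨c, hYc, ?_⟩
  have h1 : LinearMap.trace ℂ V Y = (Fintype.card G : ℂ) * LinearMap.trace ℂ V X := by
    rw [hY, map_sum]
    have h2 : ∀ g : G, LinearMap.trace ℂ V (ρ g * X * ρ g⁻¹) = LinearMap.trace ℂ V X := by
      intro g
      rw [LinearMap.trace_mul_comm, ← mul_assoc, ← map_mul, inv_mul_cancel, map_one, one_mul]
    rw [Finset.sum_congr rfl (fun g _ => h2 g), Finset.sum_const, Finset.card_univ, nsmul_eq_mul]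
  rw [← h1, hYc, map_smul, LinearMap.trace_one, smul_eq_mul]

/-- Gelfand's trick. HINT: let `ρ` afford `χ` on `V`, `e = |U|⁻¹ ∑ conj (m u) u` the projector onto the
`m`-isotypic part `W = e V` for `U`. The algebra `e ℂ[G] e` acts irreducibly on `W` and is spanned by
the `e g e`. The anti-automorphism `ι` fixes `e`, and `ι (e g e) = e (ι g) e = e g e` for every `g`:
either `ι g = u g u'` with `m u * m u' = 1`, so `e (ι g) e = e u g u' e = e g e`, or `u g u' = g` with
`m u * m u' ≠ 1` so `e g e = 0 = e (ι g) e`. Hence `e ℂ[G] e` is commutative and `dim W ≤ 1`. -/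
theorem gelfand {G : Type} [Group G] [Finite G] (U : Subgroup G) (m : G → ℂ) (hm : IsLin U m)
    (ι : G → G) (hinj : Function.Injective ι)
    (hι : ∀ x y, ι (x * y) = ι y * ι x) (hU : ∀ u ∈ U, ι u ∈ U ∧ m (ι u) = m u)
    (h : ∀ g : G, (∃ u ∈ U, ∃ u' ∈ U, ι g = u * g * u' ∧ m u * m u' = 1) ∨
      ∃ u ∈ U, ∃ u' ∈ U, u * g * u' = g ∧ m u * m u' ≠ 1)
    {χ : G → ℂ} (hχ : χ ∈ Irr G) : mult U m χ = 0 ∨ mult U m χ = 1 := by
  classical
  have : Fintype G := Fintype.ofFinite G
  have : Fintype U := Fintype.ofFinite U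
  obtain ⟨n, ρ, hρ, rfl⟩ := hχ
  -- basic facts about `m`
  have hm1 : ∀ u ∈ U, m u * m u⁻¹ = 1 := by
    intro u hu
    rw [← hm.2 u hu u⁻¹ (U.inv_mem hu), mul_inv_cancel, hm.1]
  have hpow : ∀ u ∈ U, ∀ k : ℕ, m (u ^ k) = m u ^ k := by
    intro u hu k
    induction k with
    | zero => rw [pow_zero, pow_zero, hm.1]
    | succ k ih => rw [pow_succ, hm.2 _ (U.pow_mem hu k) u hu, ih, pow_succ]
  have hconj : ∀ u ∈ U, conj (m u) = m u⁻¹ := by
    intro u hu
    have h1 : m u ^ (orderOf u) = 1 := by rw [← hpow u hu, pow_orderOf_eq_one, hm.1]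
    have h2 : ‖m u‖ = 1 := Complex.norm_eq_one_of_pow_eq_one h1 (orderOf_pos u).ne'
    rw [← Complex.inv_eq_conj h2]
    exact inv_eq_of_mul_eq_one_right (hm1 u hu)
  -- the projector
  obtain ⟨N, hN⟩ : ∃ N : ℂ, N = (Fintype.card U : ℂ) := ⟨_, rfl⟩
  have hN0 : N ≠ 0 := by
    rw [hN]
    exact_mod_cast Fintype.card_ne_zero
  obtain ⟨S, hS⟩ : ∃ S : Module.End ℂ (Fin n → ℂ), S = ∑ u : U, m ((u : G)⁻¹) • ρ (u : G) :=
    ⟨_, rfl⟩
  obtain ⟨e, he⟩ : ∃ e : Module.End ℂ (Fin n → ℂ), e = N⁻¹ • S := ⟨_, rfl⟩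
  have hmult : mult U m ρ.character = LinearMap.trace ℂ (Fin n → ℂ) e := by
    unfold mult ip
    rw [finsum_eq_sum_of_fintype, Nat.card_eq_fintype_card, he, hS, hN, map_smul, map_sum,
      smul_eq_mul]
    congr 1
    refine Finset.sum_congr rfl fun u _ => ?_
    rw [map_smul, smul_eq_mul, hconj u u.2, mul_comm]
    rfl
  have hS_right : ∀ v ∈ U, S * ρ v = m v • S := by
    intro v hv
    rw [hS, Finset.sum_mul, Finset.smul_sum]
    refine Fintype.sum_equiv (Equiv.mulRight (⟨v, hv⟩ : U)) _ _ ?_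
    intro u
    rw [smul_mul_assoc, ← map_mul, smul_smul]
    have h1 : ((Equiv.mulRight (⟨v, hv⟩ : U) u : U) : G) = (u : G) * v := rfl
    rw [h1, mul_inv_rev, ← hm.2 v hv _ (U.mul_mem (U.inv_mem hv) (U.inv_mem u.2)), ← mul_assoc,
      mul_inv_cancel, one_mul]
  have he_right : ∀ v ∈ U, e * ρ v = m v • e := by
    intro v hv
    rw [he, smul_mul_assoc, hS_right v hv, smul_comm]
  have hS_left : ∀ v ∈ U, ρ v * S = m v • S := by
    intro v hv
    rw [hS, Finset.mul_sum, Finset.smul_sum]
    refine Fintype.sum_equiv (Equiv.mulLeft (⟨v, hv⟩ : U)) _ _ ?_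
    intro u
    rw [mul_smul_comm, ← map_mul, smul_smul]
    have h1 : ((Equiv.mulLeft (⟨v, hv⟩ : U) u : U) : G) = v * (u : G) := rfl
    rw [h1, mul_inv_rev, hm.2 _ (U.inv_mem u.2) _ (U.inv_mem hv)]
    congr 1
    rw [mul_comm (m v), mul_assoc, mul_comm (m v⁻¹), hm1 v hv, mul_one]
  have he_left : ∀ v ∈ U, ρ v * e = m v • e := by
    intro v hv
    rw [he, mul_smul_comm, hS_left v hv, smul_comm]
  have hsum_e : ∀ A B : Module.End ℂ (Fin n → ℂ),
      A * e * B = N⁻¹ • ∑ u : U, m ((u : G)⁻¹) • (A * ρ (u : G) * B) := by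
    intro A B
    rw [he, hS, mul_smul_comm, smul_mul_assoc, Finset.mul_sum, Finset.sum_mul]
    congr 1
    refine Finset.sum_congr rfl fun u _ => ?_
    rw [mul_smul_comm, smul_mul_assoc]
  have hidem : e * e = e := by
    have h1 := hsum_e e 1
    rw [mul_one] at h1
    rw [h1]
    have h2 : ∀ u : U, m ((u : G)⁻¹) • (e * ρ (u : G) * 1) = e := by
      intro u
      rw [mul_one, he_right u u.2, smul_smul, mul_comm, hm1 u u.2, one_smul]
    rw [Finset.sum_congr rfl (fun u _ => h2 u), Finset.sum_const, Finset.card_univ,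
      ← Nat.cast_smul_eq_nsmul ℂ, smul_smul, ← hN, inv_mul_cancel₀ hN0, one_smul]
  -- `e (ι x) e = e x e`
  have hstar : ∀ x : G, e * ρ (ι x) * e = e * ρ x * e := by
    intro x
    have htwo : ∀ u ∈ U, ∀ u' ∈ U, ∀ y : G,
        e * ρ (u * y * u') * e = (m u * m u') • (e * ρ y * e) := by
      intro u hu u' hu' y
      calc e * ρ (u * y * u') * e = (e * ρ u) * ρ y * (ρ u' * e) := by
            rw [map_mul, map_mul]
            simp only [mul_assoc]
        _ = (m u * m u') • (e * ρ y * e) := by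
            rw [he_right u hu, he_left u' hu', smul_mul_assoc, smul_mul_assoc, mul_smul_comm,
              smul_smul]
    rcases h x with ⟨u, hu, u', hu', h1, h2⟩ | ⟨u, hu, u', hu', h1, h2⟩
    · rw [h1, htwo u hu u' hu', h2, one_smul]
    · have hz : ∀ (c : ℂ) (A : Module.End ℂ (Fin n → ℂ)), c ≠ 1 → A = c • A → A = 0 := by
        intro c A hc hA
        refine LinearMap.ext fun v => funext fun i => ?_
        have h3 : A v i = c * A v i := by
          have := congrFun (LinearMap.congr_fun hA v) i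
          simpa using this
        have h4 : (1 - c) * A v i = 0 := by
          rw [sub_mul, one_mul, ← h3, sub_self]
        rcases mul_eq_zero.mp h4 with h5 | h5
        · exact absurd (sub_eq_zero.mp h5).symm hc
        · exact h5
      have h3 : e * ρ x * e = 0 := by
        refine hz (m u * m u') _ h2 ?_
        rw [← htwo u hu u' hu' x, h1]
      have h4 : e * ρ (ι x) * e = 0 := by
        refine hz (m (ι u') * m (ι u)) _ ?_ ?_
        · rw [(hU u hu).2, (hU u' hu').2, mul_comm]
          exact h2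
        · rw [← htwo (ι u') (hU u' hu').1 (ι u) (hU u hu).1 (ι x), ← hι, ← hι, ← mul_assoc, h1]
      rw [h3, h4]
  -- commutativity
  have hιinv : ∀ u ∈ U, m ((ι u)⁻¹) = m (u⁻¹) := by
    intro u hu
    have h1 := hm1 _ (hU u hu).1
    have h2 := hm1 u hu
    rw [(hU u hu).2] at h1
    have h3 : m u ≠ 0 := by
      intro h0
      rw [h0, zero_mul] at h2
      exact zero_ne_one h2
    exact mul_left_cancel₀ h3 (h1.trans h2.symm)
  let ιU : U → U := fun u => ⟨ι u, (hU u u.2).1⟩
  have hιU : Function.Bijective ιU := by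
    rw [← Finite.injective_iff_bijective]
    intro a b hab
    have h1 : ι (a : G) = ι (b : G) := congrArg Subtype.val hab
    exact Subtype.ext (hinj h1)
  have hcomm : ∀ g k : G, e * ρ g * e * ρ k * e = e * ρ k * e * ρ g * e := by
    intro g k
    have h1 : e * ρ g * e * ρ k * e = N⁻¹ • ∑ u : U, m ((u : G)⁻¹) • (e * ρ (g * u * k) * e) := by
      have := hsum_e (e * ρ g) (ρ k * e)
      rw [← mul_assoc] at this
      rw [this]
      congr 1
      refine Finset.sum_congr rfl fun u _ => ?_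
      rw [map_mul, map_mul]
      simp only [mul_assoc]
    have h2 : ∀ u : U, e * ρ (g * u * k) * e = e * ρ (ι k * ι u * ι g) * e := by
      intro u
      rw [← hstar, hι, hι, mul_assoc (ι k)]
    have h3 : ∑ u : U, m ((u : G)⁻¹) • (e * ρ (g * u * k) * e)
        = ∑ u : U, m ((u : G)⁻¹) • (e * ρ (ι k * u * ι g) * e) := by
      refine Fintype.sum_bijective ιU hιU _ _ ?_
      intro u
      have h4 : ((ιU u : U) : G) = ι u := rfl
      rw [h2 u, h4, hιinv u u.2]
    have h5 : e * ρ (ι k) * e * ρ (ι g) * e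
        = N⁻¹ • ∑ u : U, m ((u : G)⁻¹) • (e * ρ (ι k * u * ι g) * e) := by
      have := hsum_e (e * ρ (ι k)) (ρ (ι g) * e)
      rw [← mul_assoc] at this
      rw [this]
      congr 1
      refine Finset.sum_congr rfl fun u _ => ?_
      rw [map_mul, map_mul]
      simp only [mul_assoc]
    rw [h1, h3, ← h5]
    calc e * ρ (ι k) * e * ρ (ι g) * e = (e * ρ (ι k) * e) * (e * ρ (ι g) * e) := by
          rw [← mul_assoc, ← mul_assoc, mul_assoc (e * ρ (ι k)) e e, hidem]
      _ = (e * ρ k * e) * (e * ρ g * e) := by rw [hstar, hstar]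
      _ = e * ρ k * e * ρ g * e := by
          rw [← mul_assoc, ← mul_assoc, mul_assoc (e * ρ k) e e, hidem]
  -- trace of the projector
  have htr : LinearMap.trace ℂ (Fin n → ℂ) e = (Module.finrank ℂ (LinearMap.range e) : ℂ) :=
    (LinearMap.IsIdempotentElem.isProj_range e hidem).trace
  rw [hmult, htr]
  by_cases hr : Module.finrank ℂ (LinearMap.range e) = 0
  · left
    rw [hr, Nat.cast_zero]
  right
  have hr0 : LinearMap.trace ℂ (Fin n → ℂ) e ≠ 0 := by
    rw [htr]
    exact_mod_cast hr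
  -- `e k e` is a multiple of `e`
  have hscal : ∀ k : G, ∃ c : ℂ, e * ρ k * e = c • e := by
    intro k
    obtain ⟨c1, h1, h1'⟩ := R14_schur ρ hρ (e * ρ k * e)
    obtain ⟨c2, h2, h2'⟩ := R14_schur ρ hρ e
    have h3 : e * (∑ g : G, ρ g * (e * ρ k * e) * ρ g⁻¹)
        = e * ρ k * e * ∑ g : G, ρ g * e * ρ g⁻¹ := by
      rw [Finset.mul_sum, Finset.mul_sum]
      refine Finset.sum_congr rfl fun g _ => ?_
      have := congrArg (fun A => A * ρ g⁻¹) (hcomm g k)
      simp only [mul_assoc] at this ⊢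
      exact this
    rw [h1, h2, mul_smul_comm, mul_smul_comm, mul_one, mul_one] at h3
    have hc2 : c2 ≠ 0 := by
      intro h0
      rw [h0, zero_mul] at h2'
      have hG : (Fintype.card G : ℂ) ≠ 0 := by exact_mod_cast Fintype.card_ne_zero
      exact (mul_ne_zero hG hr0) h2'.symm
    refine ⟨c2⁻¹ * c1, ?_⟩
    rw [mul_smul, h3, smul_smul, inv_mul_cancel₀ hc2, one_smul]
  have he0 : e ≠ 0 := by
    intro h0
    exact hr0 (by rw [h0, map_zero])
  obtain ⟨v0, hv0⟩ : ∃ v, e v ≠ 0 := by
    by_contra hcon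
    push Not at hcon
    exact he0 (LinearMap.ext hcon)
  obtain ⟨w, hw⟩ : ∃ w, w = e v0 := ⟨_, rfl⟩
  rw [← hw] at hv0
  have hew : e w = w := by
    have := LinearMap.congr_fun hidem v0
    rw [Module.End.mul_apply, ← hw] at this
    exact this
  let M : Subrepresentation ρ :=
    { toSubmodule := Submodule.span ℂ (Set.range fun g : G => ρ g w)
      apply_mem_toSubmodule := by
        intro g v hv
        induction hv using Submodule.span_induction with
        | mem x hx =>
          obtain ⟨k, rfl⟩ := hx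
          refine Submodule.subset_span ⟨g * k, ?_⟩
          simp [map_mul]
        | zero => simp
        | add x y _ _ hx hy =>
          rw [map_add]
          exact Submodule.add_mem _ hx hy
        | smul c x _ hx =>
          rw [map_smul]
          exact Submodule.smul_mem _ c hx }
  have hMw : w ∈ M.toSubmodule := Submodule.subset_span ⟨1, by simp⟩
  have hMtop : M = ⊤ := by
    rcases hρ.eq_bot_or_eq_top M with h1 | h1
    · exfalso
      have h2 : w ∈ (⊥ : Subrepresentation ρ).toSubmodule := by rw [← h1]; exact hMw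
      exact hv0 ((Submodule.mem_bot ℂ).mp h2)
    · exact h1
  have hrange : LinearMap.range e ≤ Submodule.span ℂ {w} := by
    rintro _ ⟨v, rfl⟩
    have hv : v ∈ Submodule.span ℂ (Set.range fun g : G => ρ g w) := by
      have : v ∈ M.toSubmodule := by
        rw [hMtop]
        exact Submodule.mem_top
      exact this
    induction hv using Submodule.span_induction with
    | mem x hx =>
      obtain ⟨k, rfl⟩ := hx
      obtain ⟨c, hc⟩ := hscal k
      have h1 := LinearMap.congr_fun hc w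
      rw [Module.End.mul_apply, Module.End.mul_apply, hew, LinearMap.smul_apply, hew] at h1
      change e (ρ k w) ∈ _
      rw [h1]
      exact Submodule.smul_mem _ c (Submodule.mem_span_singleton_self w)
    | zero => simp
    | add x y _ _ hx hy =>
      rw [map_add]
      exact Submodule.add_mem _ hx hy
    | smul c x _ hx =>
      rw [map_smul]
      exact Submodule.smul_mem _ c hx
  have hle : Module.finrank ℂ (LinearMap.range e) ≤ 1 :=
    (Submodule.finrank_mono hrange).trans (finrank_span_singleton hv0).le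
  have h1 : Module.finrank ℂ (LinearMap.range e) = 1 := by omega
  rw [h1, Nat.cast_one]

end Pool.Agent.Lib.MP_fa0f6c_al.Cx
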