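import Mathlib
import Pool.Agent.Lib.MP_fa0f6c_al.Cx.Defs
import Pool.Agent.Lib.MP_fa0f6c_al.Cx.BWDefs
import Pool.Agent.Lib.MP_fa0f6c_al.Cx.B21
import Pool.Agent.Lib.MP_fa0f6c_al.Cx.B23
import Pool.Agent.Lib.MP_fa0f6c_al.Cx.B25
import Pool.Agent.Lib.MP_fa0f6c_al.Cx.R14

/-! Multiplicity one. -/

set_option autoImplicit false

namespace Pool.Agent.Lib.MP_fa0f6c_al.Cx.B

variable {F : Type} [Field F]

/-- reflection in the antidiagonal -/
private def B26_t {n : ℕ} (M : Matrix (Fin n) (Fin n) F) : Matrix (Fin n) (Fin n) F :=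
  Matrix.of fun i j => M (Fin.rev j) (Fin.rev i)

omit [Field F] in
private theorem B26_t_apply {n : ℕ} (M : Matrix (Fin n) (Fin n) F) (i j : Fin n) :
    B26_t M i j = M (Fin.rev j) (Fin.rev i) := rfl

private theorem B26_t_mul {n : ℕ} (M M' : Matrix (Fin n) (Fin n) F) :
    B26_t (M * M') = B26_t M' * B26_t M := by
  ext i j
  rw [B26_t_apply, Matrix.mul_apply, Matrix.mul_apply]
  rw [← Equiv.sum_comp Fin.revPerm]
  refine Finset.sum_congr rfl (fun k _ => ?_)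
  rw [B26_t_apply, B26_t_apply, Fin.revPerm_apply]
  ring

private theorem B26_t_one {n : ℕ} : B26_t (1 : Matrix (Fin n) (Fin n) F) = 1 := by
  ext i j
  rw [B26_t_apply, Matrix.one_apply, Matrix.one_apply]
  by_cases h : i = j
  · rw [if_pos h, if_pos (by rw [h])]
  · rw [if_neg h, if_neg (fun h' => h (Fin.rev_injective h').symm)]

private theorem B26_t_t {n : ℕ} (M : Matrix (Fin n) (Fin n) F) : B26_t (B26_t M) = M := by
  ext i j
  rw [B26_t_apply, B26_t_apply, Fin.rev_rev, Fin.rev_rev]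

private def B26_i {n : ℕ} (g : Matrix.GeneralLinearGroup (Fin n) F) :
    Matrix.GeneralLinearGroup (Fin n) F where
  val := B26_t (g : Matrix (Fin n) (Fin n) F)
  inv := B26_t (g⁻¹ : Matrix.GeneralLinearGroup (Fin n) F).1
  val_inv := by rw [← B26_t_mul, Units.inv_mul, B26_t_one]
  inv_val := by rw [← B26_t_mul, Units.mul_inv, B26_t_one]

private theorem B26_i_val {n : ℕ} (g : Matrix.GeneralLinearGroup (Fin n) F) :
    (B26_i g : Matrix (Fin n) (Fin n) F) = B26_t (g : Matrix (Fin n) (Fin n) F) := rfl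

private theorem B26_i_mul {n : ℕ} (x y : Matrix.GeneralLinearGroup (Fin n) F) :
    B26_i (x * y) = B26_i y * B26_i x := by
  apply Units.ext
  rw [B26_i_val, Units.val_mul, B26_t_mul]
  rfl

private theorem B26_i_inj {n : ℕ} :
    Function.Injective (B26_i : Matrix.GeneralLinearGroup (Fin n) F → _) := by
  intro x y h
  apply Units.ext
  have h1 := congrArg (fun g : Matrix.GeneralLinearGroup (Fin n) F =>
    B26_t (g : Matrix (Fin n) (Fin n) F)) h
  simp only [B26_i_val, B26_t_t] at h1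
  exact h1

private theorem B26_i_mem {n : ℕ} {u : Matrix.GeneralLinearGroup (Fin n) F} (hu : u ∈ Ugp F n) :
    B26_i u ∈ Ugp F n := by
  rw [mem_Ugp] at hu ⊢
  constructor
  · intro i j hij
    rw [B26_i_val, B26_t_apply]
    exact hu.1 _ _ (Fin.rev_lt_rev.2 hij)
  · intro i
    rw [B26_i_val, B26_t_apply]
    exact hu.2 _

private theorem B26_supdiag {n : ℕ} (M : Matrix (Fin n) (Fin n) F) :
    supdiag (B26_t M) = supdiag M := by
  unfold supdiag
  rw [Finset.sum_comm]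
  rw [← Equiv.sum_comp Fin.revPerm]
  refine Finset.sum_congr rfl (fun i _ => ?_)
  rw [← Equiv.sum_comp Fin.revPerm]
  refine Finset.sum_congr rfl (fun j _ => ?_)
  rw [B26_t_apply, Fin.revPerm_apply, Fin.revPerm_apply, Fin.rev_rev, Fin.rev_rev]
  have h1 : ((Fin.rev j : Fin n) : ℕ) + 1 = (Fin.rev i : Fin n) ↔ (i : ℕ) + 1 = j := by
    rw [Fin.val_rev, Fin.val_rev]
    have := i.2
    have := j.2
    omega
  simp only [h1]

private theorem B26_i_th {n : ℕ} (Ψ : AddChar F ℂ) (u : Matrix.GeneralLinearGroup (Fin n) F) :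
    th Ψ n (B26_i u) = th Ψ n u := by
  unfold th
  rw [B26_i_val, B26_supdiag]

private theorem B26_i_mono {n : ℕ} {σ : Equiv.Perm (Fin n)} {t : Fin n → Fˣ} (h : Adm σ t) :
    B26_i (mono σ t) = mono σ t := by
  apply Units.ext
  ext i j
  rw [B26_i_val, B26_t_apply, mono_apply, mono_apply]
  obtain ⟨h1, h2⟩ := adm_rev h j
  by_cases hij : i = σ j
  · rw [if_pos hij, hij, if_pos h1.symm, h2]
  · rw [if_neg hij, if_neg]
    intro hc
    apply hij
    rw [← h1] at hc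
    exact (Fin.rev_injective (σ.injective hc)).symm

/-- HINT: `gelfand` (R14) with `ι g = w₀ gᵀ w₀`, i.e. `(ι g) i j = g (rev j) (rev i)` (an anti-automorphism
preserving `Ugp` and `th`). Write `g = u₀ * mono σ t * u₀'` (`bruhat_exists`). If `Adm σ t` then
`ι (mono σ t) = mono σ t` (`adm_rev`), so `ι g = ι u₀' * mono * ι u₀ = (ι u₀' * u₀⁻¹) * g * (u₀'⁻¹ * ι u₀)` with
product of characters `1`. If not, `not_adm` conjugated by `u₀`, `u₀'`. -/
theorem wh_le_one [Finite F] {n : ℕ} (Ψ : AddChar F ℂ) (hΨ : ∃ a, Ψ a ≠ 1)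
    {χ : Matrix.GeneralLinearGroup (Fin n) F → ℂ}
    (hχ : χ ∈ Irr (Matrix.GeneralLinearGroup (Fin n) F)) :
    mult (Ugp F n) (th Ψ n) χ = 0 ∨ mult (Ugp F n) (th Ψ n) χ = 1 := by
  have hm := th_isLin Ψ n
  have hinv : ∀ u ∈ Ugp F n, th Ψ n u * th Ψ n u⁻¹ = 1 := by
    intro u hu
    rw [← hm.2 u hu u⁻¹ ((Ugp F n).inv_mem hu), mul_inv_cancel, hm.1]
  refine gelfand (Ugp F n) (th Ψ n) hm B26_i B26_i_inj B26_i_mul
    (fun u hu => ⟨B26_i_mem hu, B26_i_th Ψ u⟩) (fun g => ?_) hχ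
  obtain ⟨v, hv, σ, t, v', hv', hg⟩ := bruhat_exists g
  have hvi := (Ugp F n).inv_mem hv
  have hvi' := (Ugp F n).inv_mem hv'
  by_cases hA : Adm σ t
  · left
    refine ⟨B26_i v' * v⁻¹, (Ugp F n).mul_mem (B26_i_mem hv') hvi,
      v'⁻¹ * B26_i v, (Ugp F n).mul_mem hvi' (B26_i_mem hv), ?_, ?_⟩
    · rw [hg, B26_i_mul, B26_i_mul, B26_i_mono hA]
      group
    · rw [hm.2 _ (B26_i_mem hv') _ hvi, hm.2 _ hvi' _ (B26_i_mem hv), B26_i_th, B26_i_th]
      linear_combination (th Ψ n v' * th Ψ n v'⁻¹) * hinv v hv + hinv v' hv'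
  · right
    obtain ⟨w, hw, w', hw', he, hne⟩ := not_adm Ψ hΨ hA
    refine ⟨v * w * v⁻¹, (Ugp F n).mul_mem ((Ugp F n).mul_mem hv hw) hvi,
      v'⁻¹ * w' * v', (Ugp F n).mul_mem ((Ugp F n).mul_mem hvi' hw') hv', ?_, ?_⟩
    · rw [hg]
      calc v * w * v⁻¹ * (v * mono σ t * v') * (v'⁻¹ * w' * v')
          = v * (w * mono σ t * w') * v' := by group
        _ = v * mono σ t * v' := by rw [he]
    · rw [hm.2 _ ((Ugp F n).mul_mem hv hw) _ hvi, hm.2 _ hv _ hw,
        hm.2 _ ((Ugp F n).mul_mem hvi' hw') _ hv', hm.2 _ hvi' _ hw']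
      intro hc
      apply hne
      linear_combination hc - (th Ψ n w * th Ψ n w' * (th Ψ n v' * th Ψ n v'⁻¹)) * hinv v hv
        - (th Ψ n w * th Ψ n w') * hinv v' hv'

end Pool.Agent.Lib.MP_fa0f6c_al.Cx.B
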