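import Mathlib
import Pool.Agent.Lib.MP_fa0f6c_al.Cx.Defs
import Pool.Agent.Lib.MP_fa0f6c_al.Cx.R06
import Pool.Agent.Lib.MP_fa0f6c_al.Cx.R09

/-! Norm of a monomial character by double cosets (general finite group). -/

set_option autoImplicit false

namespace Pool.Agent.Lib.MP_fa0f6c_al.Cx.B

open scoped ComplexConjugate

private theorem B27_lin {G : Type} [Group G] (N : Subgroup G) (m : G → ℂ) (hm : IsLin N m) :
    ∃ l : N →* ℂˣ, ∀ n : N, (l n : ℂ) = m n := by
  let f : N →* ℂ :=
    { toFun := fun n => m n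
      map_one' := hm.1
      map_mul' := fun x y => hm.2 x x.2 y y.2 }
  exact ⟨f.toHomUnits, fun n => rfl⟩

private theorem B27_inv {G : Type} [Group G] [Finite G] (N : Subgroup G) (m : G → ℂ)
    (hm : IsLin N m) {x : G} (hx : x ∈ N) : m x⁻¹ = conj (m x) := by
  obtain ⟨l, hl⟩ := B27_lin N m hm
  have h := irr_inv (lin_irr l) (⟨x, hx⟩ : N)
  simp only [hl] at h
  exact h

private theorem B27_unit {G : Type} [Group G] [Finite G] (N : Subgroup G) (m : G → ℂ)
    (hm : IsLin N m) {x : G} (hx : x ∈ N) : m x * conj (m x) = 1 := by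
  rw [← B27_inv N m hm hx, ← hm.2 x hx x⁻¹ (N.inv_mem hx), mul_inv_cancel, hm.1]

private theorem B27_conj {G : Type} [Group G] [Finite G] (N : Subgroup G) (m : G → ℂ)
    (hm : IsLin N m) {x y : G} (hx : x ∈ N) (hy : y ∈ N) : m (x⁻¹ * y * x) = m y := by
  rw [hm.2 _ (N.mul_mem (N.inv_mem hx) hy) _ hx, hm.2 _ (N.inv_mem hx) _ hy, B27_inv N m hm hx]
  have := B27_unit N m hm hx
  linear_combination m y * this

open Classical in
/-- the function `D` -/
private noncomputable def B27_D {G : Type} [Group G] [Fintype G] (U : Subgroup G) (m : G → ℂ)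
    (t : G) : ℂ :=
  ∑ h : G, if h ∈ U ∧ t⁻¹ * h * t ∈ U then m h * conj (m (t⁻¹ * h * t)) else 0

open Classical in
private theorem B27_D_eq {G : Type} [Group G] [Fintype G] (U : Subgroup G) (m : G → ℂ)
    (hm : IsLin U m) (t : G) : B27_D U m t =
      if (∀ h ∈ U, t⁻¹ * h * t ∈ U → m h = m (t⁻¹ * h * t)) then
        ((Finset.univ.filter (fun h : G => h ∈ U ∧ t⁻¹ * h * t ∈ U)).card : ℂ) else 0 := by
  unfold B27_D
  split_ifs with hc
  · rw [Finset.card_filter, Nat.cast_sum]
    refine Finset.sum_congr rfl fun h _ => ?_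
    split_ifs with hh
    · rw [hc h hh.1 hh.2, B27_unit U m hm hh.2, Nat.cast_one]
    · rw [Nat.cast_zero]
  · push Not at hc
    obtain ⟨a, haU, hat, hne⟩ := hc
    set S : ℂ := ∑ h : G, if h ∈ U ∧ t⁻¹ * h * t ∈ U then m h * conj (m (t⁻¹ * h * t)) else 0
      with hS
    have key : S = (m a * conj (m (t⁻¹ * a * t))) * S := by
      conv_lhs => rw [hS]
      rw [hS, Finset.mul_sum]
      symm
      refine Fintype.sum_equiv (Equiv.mulLeft a) _ _ fun h => ?_
      rw [Equiv.coe_mulLeft]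
      have e1 : t⁻¹ * (a * h) * t = (t⁻¹ * a * t) * (t⁻¹ * h * t) := by group
      have i1 : a * h ∈ U ↔ h ∈ U := U.mul_mem_cancel_left haU
      have i2 : t⁻¹ * (a * h) * t ∈ U ↔ t⁻¹ * h * t ∈ U := by
        rw [e1]; exact U.mul_mem_cancel_left hat
      by_cases hh : h ∈ U ∧ t⁻¹ * h * t ∈ U
      · rw [if_pos hh, if_pos (by rw [i1, i2]; exact hh), e1, hm.2 a haU h hh.1,
          hm.2 _ hat _ hh.2, map_mul]
        ring
      · rw [if_neg hh, if_neg (by rw [i1, i2]; exact hh), mul_zero]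
    have hne' : m a * conj (m (t⁻¹ * a * t)) ≠ 1 := by
      intro h
      apply hne
      have h2 := B27_unit U m hm hat
      linear_combination m (t⁻¹ * a * t) * h - m a * h2
    have h3 : (1 - m a * conj (m (t⁻¹ * a * t))) * S = 0 := by
      linear_combination key
    rcases mul_eq_zero.1 h3 with h4 | h4
    · exact absurd (sub_eq_zero.1 h4).symm hne'
    · exact h4

open Classical in
private theorem B27_norm {G : Type} [Group G] [Fintype G] (U : Subgroup G) (m : G → ℂ)
    (hm : IsLin U m) :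
    ∑ χ ∈ (irr_finite G).toFinset, mult U m χ * conj (mult U m χ) =
      (Nat.card U : ℂ)⁻¹ * ((Nat.card U : ℂ)⁻¹ * ∑ t : G, B27_D U m t) := by
  have hθ : IsCF (fun u : U => m u) := by
    intro x y
    show m ((x * y : U) : G) = m ((y * x : U) : G)
    push_cast
    rw [hm.2 x x.2 y y.2, hm.2 y y.2 x x.2, mul_comm]
  have h1 : ∑ χ ∈ (irr_finite G).toFinset, mult U m χ * conj (mult U m χ) =
      ip (ind U (fun u : U => m u)) (ind U (fun u : U => m u)) := by
    rw [cf_parseval (ind_isCF U hθ) (ind_isCF U hθ)]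
    refine Finset.sum_congr rfl fun χ hχ => ?_
    have hχ' := (irr_finite G).mem_toFinset.1 hχ
    rw [frobenius U (irr_cf hχ'), mult, ip_conj_symm (fun n : U => χ n) (fun n : U => m n),
      Complex.conj_conj, mul_comm]
  rw [h1, frobenius U (ind_isCF U hθ), ip, finsum_eq_sum_of_fintype]
  congr 1
  have h2 : ∀ x : U, m x * conj (ind U (fun u : U => m u) x) =
      (Nat.card U : ℂ)⁻¹ * ∑ t : G, if t⁻¹ * (x : G) * t ∈ U then
        m x * conj (m (t⁻¹ * (x : G) * t)) else 0 := by
    intro x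
    rw [ind, finsum_eq_sum_of_fintype, map_mul, map_inv₀, Complex.conj_natCast, map_sum,
      mul_left_comm, Finset.mul_sum]
    congr 1
    refine Finset.sum_congr rfl fun t _ => ?_
    split_ifs with h
    · rfl
    · rw [map_zero, mul_zero]
  rw [Finset.sum_congr rfl fun x _ => h2 x, ← Finset.mul_sum, Finset.sum_comm]
  congr 1
  refine Finset.sum_congr rfl fun t _ => ?_
  unfold B27_D
  have h3 : ∀ h : G, (if h ∈ U ∧ t⁻¹ * h * t ∈ U then m h * conj (m (t⁻¹ * h * t)) else 0) =
      if h ∈ U then (if t⁻¹ * h * t ∈ U then m h * conj (m (t⁻¹ * h * t)) else 0) else 0 := by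
    intro h
    by_cases a : h ∈ U <;> by_cases b : t⁻¹ * h * t ∈ U <;> simp [a, b]
  rw [Finset.sum_congr rfl fun h _ => h3 h, ← Finset.sum_filter (s := Finset.univ)
    (p := fun h : G => h ∈ U)
    (f := fun h : G => if t⁻¹ * h * t ∈ U then m h * conj (m (t⁻¹ * h * t)) else 0)]
  refine Finset.sum_bij (fun (x : U) _ => (x : G)) ?_ ?_ ?_ ?_
  · intro x _
    simp
  · intro a _ b _ h
    exact Subtype.ext h
  · intro b hb
    rw [Finset.mem_filter] at hb
    exact ⟨⟨b, hb.2⟩, Finset.mem_univ _, rfl⟩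
  · intro x _
    rfl

/-- Let `r x`, `x : X`, be representatives of the double cosets `U \ G / U`. Then the sum of the squares of
the multiplicities of the linear character `m` of `U` is the number of `x` for which `m` is compatible
with the double coset. HINT: `∑_χ |mult U m χ|^2 = ip (ind m) (ind m)` (Frobenius, Parseval) `=
|U|⁻² ∑_{g ∈ G} D_g`, `D_g = ∑_{u ∈ U, g⁻¹ u g ∈ U} m u * conj (m (g⁻¹ u g))` (substitute in the double sum);
`D` is constant on double cosets; the map `(u, x, u') ↦ u * r x * u'` is onto `G` with fibres over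
`U r(x) U` of size `|U ∩ r x U (r x)⁻¹|`, and `D_{r x}` is this number if `x` is compatible and `0` otherwise
(a sum over the group `U ∩ r x U (r x)⁻¹` of a linear character). -/
theorem mult_sq_sum {G : Type} [Group G] [Finite G] (U : Subgroup G) (m : G → ℂ)
    (hm : IsLin U m) {X : Type} [Finite X] (r : X → G)
    (h1 : ∀ g : G, ∃ u ∈ U, ∃ x : X, ∃ u' ∈ U, g = u * r x * u')
    (h2 : ∀ x y : X, ∀ u ∈ U, ∀ u' ∈ U, u * r x * u' = r y → x = y) :
    ∑ χ ∈ (irr_finite G).toFinset, mult U m χ * conj (mult U m χ) =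
      Nat.card {x : X // ∀ u ∈ U, ∀ u' ∈ U, u * r x * u' = r x → m u * m u' = 1} := by
  classical
  have := Fintype.ofFinite G
  have := Fintype.ofFinite X
  rw [B27_norm U m hm]
  set P : X → Prop := fun x => ∀ u ∈ U, ∀ u' ∈ U, u * r x * u' = r x → m u * m u' = 1 with hP
  have hU : (Nat.card U : ℂ) ≠ 0 := by exact_mod_cast Nat.card_pos.ne'
  -- the number of triples over `t`
  have hD : ∀ t : G, B27_D U m t = ((Finset.univ.filter (fun z : U × {x : X // P x} × U =>
      (z.1 : G) * r z.2.1 * (z.2.2 : G) = t)).card : ℂ) := by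
    intro t
    rw [B27_D_eq U m hm]
    obtain ⟨u0, hu0, x0, u0', hu0', ht⟩ := h1 t
    have hiff : (∀ h ∈ U, t⁻¹ * h * t ∈ U → m h = m (t⁻¹ * h * t)) ↔ P x0 := by
      constructor
      · intro hc u hu u' hu' he
        have ha : u0 * u * u0⁻¹ ∈ U := U.mul_mem (U.mul_mem hu0 hu) (U.inv_mem hu0)
        have hr : u'⁻¹ = (r x0)⁻¹ * u * r x0 := by
          have h3 : (u * r x0 * u') * u'⁻¹ = r x0 * u'⁻¹ := by rw [he]
          have h4 : u * r x0 = r x0 * u'⁻¹ := by rw [← h3]; group
          rw [mul_assoc, h4]; group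
        have h3 : t⁻¹ * (u0 * u * u0⁻¹) * t = u0'⁻¹ * u'⁻¹ * u0' := by
          rw [hr, ht]; group
        have h4 : t⁻¹ * (u0 * u * u0⁻¹) * t ∈ U := by
          rw [h3]
          exact U.mul_mem (U.mul_mem (U.inv_mem hu0') (U.inv_mem hu')) hu0'
        have h5 := hc _ ha h4
        rw [h3, B27_conj U m hm hu0' (U.inv_mem hu')] at h5
        have h6 : m (u0 * u * u0⁻¹) = m u := by
          have := B27_conj U m hm (U.inv_mem hu0) hu
          rwa [inv_inv] at this
        rw [← h6, h5, ← hm.2 _ (U.inv_mem hu') _ hu', inv_mul_cancel, hm.1]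
      · intro hp h hh hht
        have h3 := hp (u0⁻¹ * h * u0) (U.mul_mem (U.mul_mem (U.inv_mem hu0) hh) hu0)
          (u0' * (t⁻¹ * h * t)⁻¹ * u0'⁻¹)
          (U.mul_mem (U.mul_mem hu0' (U.inv_mem hht)) (U.inv_mem hu0')) (by rw [ht]; group)
        have h4 : m (u0' * (t⁻¹ * h * t)⁻¹ * u0'⁻¹) = m (t⁻¹ * h * t)⁻¹ := by
          have := B27_conj U m hm (U.inv_mem hu0') (U.inv_mem hht)
          rwa [inv_inv] at this
        rw [B27_conj U m hm hu0 hh, h4] at h3
        have h5 : m (t⁻¹ * h * t)⁻¹ * m (t⁻¹ * h * t) = 1 := by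
          rw [← hm.2 _ (U.inv_mem hht) _ hht, inv_mul_cancel, hm.1]
        linear_combination m (t⁻¹ * h * t) * h3 - m h * h5
    have huniq : ∀ (u : G) (x : X) (u' : G), u ∈ U → u' ∈ U → u * r x * u' = t → x = x0 := by
      intro u x u' hu hu' he
      refine h2 x x0 (u0⁻¹ * u) (U.mul_mem (U.inv_mem hu0) hu) (u' * u0'⁻¹)
        (U.mul_mem hu' (U.inv_mem hu0')) ?_
      calc u0⁻¹ * u * r x * (u' * u0'⁻¹) = u0⁻¹ * (u * r x * u') * u0'⁻¹ := by group
        _ = r x0 := by rw [he, ht]; group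
    split_ifs with hc
    · have hp := hiff.1 hc
      norm_cast
      refine Finset.card_bij (fun h hh => (⟨h * u0, U.mul_mem (Finset.mem_filter.1 hh).2.1 hu0⟩,
        ⟨x0, hp⟩, ⟨u0' * (t⁻¹ * h * t)⁻¹, U.mul_mem hu0'
          (U.inv_mem (Finset.mem_filter.1 hh).2.2)⟩)) ?_ ?_ ?_
      · intro h hh
        rw [Finset.mem_filter]
        refine ⟨Finset.mem_univ _, ?_⟩
        show h * u0 * r x0 * (u0' * (t⁻¹ * h * t)⁻¹) = t
        have : h * u0 * r x0 * (u0' * (t⁻¹ * h * t)⁻¹) = h * (u0 * r x0 * u0') * (t⁻¹ * h * t)⁻¹ := by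
          group
        rw [this, ← ht]
        group
      · intro a ha b hb hab
        have h3 := congrArg (fun z : U × {x : X // P x} × U => (z.1 : G)) hab
        exact mul_right_cancel h3
      · rintro ⟨⟨u, hu⟩, ⟨x, hx⟩, ⟨u', hu'⟩⟩ hz
        rw [Finset.mem_filter] at hz
        have he : u * r x * u' = t := hz.2
        have hxx := huniq u x u' hu hu' he
        subst hxx
        have h3 : t⁻¹ * (u * u0⁻¹) * t = u'⁻¹ * u0' := by
          have : t⁻¹ * (u * u0⁻¹) * t = (u * r x * u')⁻¹ * (u * u0⁻¹) * (u0 * r x * u0') := by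
            rw [he, ← ht]
          rw [this]; group
        refine ⟨u * u0⁻¹, ?_, ?_⟩
        · rw [Finset.mem_filter]
          refine ⟨Finset.mem_univ _, U.mul_mem hu (U.inv_mem hu0), ?_⟩
          rw [h3]
          exact U.mul_mem (U.inv_mem hu') hu0'
        · refine Prod.ext (Subtype.ext ?_) (Prod.ext rfl (Subtype.ext ?_))
          · show u * u0⁻¹ * u0 = u
            group
          · show u0' * (t⁻¹ * (u * u0⁻¹) * t)⁻¹ = u'
            rw [h3]; group
    · have h3 : (Finset.univ.filter (fun z : U × {x : X // P x} × U =>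
          (z.1 : G) * r z.2.1 * (z.2.2 : G) = t)) = ∅ := by
        rw [Finset.filter_eq_empty_iff]
        rintro ⟨⟨u, hu⟩, ⟨x, hx⟩, ⟨u', hu'⟩⟩ _ he
        have hxx := huniq u x u' hu hu' he
        subst hxx
        exact hc (hiff.2 hx)
      rw [h3, Finset.card_empty, Nat.cast_zero]
  have hsum : ∑ t : G, B27_D U m t = (Nat.card U : ℂ) * ((Nat.card {x : X // P x} : ℂ) *
      (Nat.card U : ℂ)) := by
    have h3 : ∑ t : G, (Finset.univ.filter (fun z : U × {x : X // P x} × U =>
      (z.1 : G) * r z.2.1 * (z.2.2 : G) = t)).card =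
        Nat.card U * (Nat.card {x : X // P x} * Nat.card U) := by
      have h4 := Finset.card_eq_sum_card_fiberwise (s := (Finset.univ : Finset (U × {x : X // P x} × U)))
        (t := (Finset.univ : Finset G)) (f := fun z => (z.1 : G) * r z.2.1 * (z.2.2 : G))
        (fun z _ => Finset.mem_coe.2 (Finset.mem_univ _))
      rw [← h4, Finset.card_univ,
        Fintype.card_prod, Fintype.card_prod, Nat.card_eq_fintype_card, Nat.card_eq_fintype_card]
    rw [Finset.sum_congr rfl fun t _ => hD t, ← Nat.cast_sum, h3]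
    push_cast
    ring
  rw [hsum]
  field_simp

end Pool.Agent.Lib.MP_fa0f6c_al.Cx.B
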