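import Mathlib
import Pool.Agent.Lib.MP_fa0f6c_al.Cx.Defs
import Pool.Agent.Lib.MP_fa0f6c_al.Cx.BWDefs
import Pool.Agent.Lib.MP_fa0f6c_al.Cx.B22
import Pool.Agent.Lib.MP_fa0f6c_al.Cx.B24
import Pool.Agent.Lib.MP_fa0f6c_al.Cx.B26
import Pool.Agent.Lib.MP_fa0f6c_al.Cx.B27

/-! The number of generic characters. -/

set_option autoImplicit false

namespace Pool.Agent.Lib.MP_fa0f6c_al.Cx.B

open scoped ComplexConjugate

variable {F : Type} [Field F]

/-- HINT: `mult_sq_sum` with `X = Perm × (Fin n → Fˣ)`, `r = mono` (`bruhat_exists`, `bruhat_unique`);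
the compatible ones are the admissible ones (`not_adm`, `adm_th`), counted by `adm_card`; the left side is
the number of `χ` with `mult = 1` by `wh_le_one`. -/
theorem generic_card [Finite F] {n : ℕ} (hn : 0 < n) (Ψ : AddChar F ℂ) (hΨ : ∃ a, Ψ a ≠ 1) :
    Set.ncard {χ | χ ∈ Irr (Matrix.GeneralLinearGroup (Fin n) F) ∧
      mult (Ugp F n) (th Ψ n) χ = 1} = (Nat.card F - 1) * Nat.card F ^ (n - 1) := by
  classical
  have h1 := mult_sq_sum (Ugp F n) (th Ψ n) (th_isLin Ψ n)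
    (X := Equiv.Perm (Fin n) × (Fin n → Fˣ)) (fun p => mono p.1 p.2)
    (fun g => by
      obtain ⟨u, hu, σ, t, u', hu', h⟩ := bruhat_exists g
      exact ⟨u, hu, (σ, t), u', hu', h⟩)
    (fun x y u hu u' hu' h => by
      obtain ⟨h2, h3⟩ := bruhat_unique hu hu' h
      exact Prod.ext h2 h3)
  have h2 : Nat.card {x : Equiv.Perm (Fin n) × (Fin n → Fˣ) // ∀ u ∈ Ugp F n, ∀ u' ∈ Ugp F n,
      u * mono x.1 x.2 * u' = mono x.1 x.2 → th Ψ n u * th Ψ n u' = 1} =
      Nat.card {p : Equiv.Perm (Fin n) × (Fin n → Fˣ) // Adm p.1 p.2} := by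
    refine Nat.card_congr (Equiv.subtypeEquivRight fun p => ⟨fun h => ?_, fun h => ?_⟩)
    · by_contra hc
      obtain ⟨u, hu, u', hu', h3, h4⟩ := not_adm Ψ hΨ hc
      exact h4 (h u hu u' hu' h3)
    · exact fun u hu u' hu' h3 => adm_th Ψ h hu hu' h3
  rw [h2, adm_card hn] at h1
  have h3 : ∀ χ ∈ (irr_finite (Matrix.GeneralLinearGroup (Fin n) F)).toFinset,
      mult (Ugp F n) (th Ψ n) χ * conj (mult (Ugp F n) (th Ψ n) χ) =
        if mult (Ugp F n) (th Ψ n) χ = 1 then 1 else 0 := by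
    intro χ hχ
    rw [Set.Finite.mem_toFinset] at hχ
    rcases wh_le_one Ψ hΨ hχ with h | h
    · rw [h, zero_mul, if_neg zero_ne_one]
    · rw [h, map_one, one_mul, if_pos rfl]
  rw [Finset.sum_congr rfl h3, ← Finset.sum_filter, Finset.sum_const, nsmul_eq_mul, mul_one] at h1
  have h4 : {χ | χ ∈ Irr (Matrix.GeneralLinearGroup (Fin n) F) ∧
      mult (Ugp F n) (th Ψ n) χ = 1} =
      (((irr_finite (Matrix.GeneralLinearGroup (Fin n) F)).toFinset.filter
        (fun χ => mult (Ugp F n) (th Ψ n) χ = 1) : Finset _) : Set _) := by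
    ext χ
    rw [Finset.mem_coe, Finset.mem_filter, Set.Finite.mem_toFinset]
    rfl
  rw [h4, Set.ncard_coe_finset]
  exact_mod_cast h1

end Pool.Agent.Lib.MP_fa0f6c_al.Cx.B
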