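import Mathlib
import Pool.Agent.Lib.MP_fa0f6c_al.Cx.Defs
import Pool.Agent.Lib.MP_fa0f6c_al.Cx.BDefs
import Pool.Agent.Lib.MP_fa0f6c_al.Cx.BWDefs

/-! Block decomposition of unitriangular matrices. -/

set_option autoImplicit false

namespace Pool.Agent.Lib.MP_fa0f6c_al.Cx.B

open scoped ComplexConjugate

variable {F : Type} [Field F]

/-- block upper triangular matrix of size `n + m` -/
def blkM {n m : ℕ} (u₁ : Matrix (Fin n) (Fin n) F) (u₂ : Matrix (Fin m) (Fin m) F)
    (X : Matrix (Fin n) (Fin m) F) : Matrix (Fin (n + m)) (Fin (n + m)) F :=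
  (Matrix.fromBlocks u₁ X 0 u₂).submatrix finSumFinEquiv.symm finSumFinEquiv.symm

/-- the entry in the last row and the first column (`0` if `n = 0` or `m = 0`) -/
def corner {n m : ℕ} (X : (Fin m → F) →ₗ[F] (Fin n → F)) : F :=
  ∑ i : Fin n, ∑ j : Fin m, if (i : ℕ) + 1 = n ∧ (j : ℕ) = 0 then X (Pi.single j 1) i else 0

private theorem blkM_cc {n m : ℕ} (u₁ : Matrix (Fin n) (Fin n) F) (u₂ : Matrix (Fin m) (Fin m) F)
    (X : Matrix (Fin n) (Fin m) F) (i j : Fin n) :
    blkM u₁ u₂ X (Fin.castAdd m i) (Fin.castAdd m j) = u₁ i j := by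
  unfold blkM
  rw [Matrix.submatrix_apply, finSumFinEquiv_symm_apply_castAdd, finSumFinEquiv_symm_apply_castAdd,
    Matrix.fromBlocks_apply₁₁]

private theorem blkM_cn {n m : ℕ} (u₁ : Matrix (Fin n) (Fin n) F) (u₂ : Matrix (Fin m) (Fin m) F)
    (X : Matrix (Fin n) (Fin m) F) (i : Fin n) (j : Fin m) :
    blkM u₁ u₂ X (Fin.castAdd m i) (Fin.natAdd n j) = X i j := by
  unfold blkM
  rw [Matrix.submatrix_apply, finSumFinEquiv_symm_apply_castAdd, finSumFinEquiv_symm_apply_natAdd,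
    Matrix.fromBlocks_apply₁₂]

private theorem blkM_nc {n m : ℕ} (u₁ : Matrix (Fin n) (Fin n) F) (u₂ : Matrix (Fin m) (Fin m) F)
    (X : Matrix (Fin n) (Fin m) F) (i : Fin m) (j : Fin n) :
    blkM u₁ u₂ X (Fin.natAdd n i) (Fin.castAdd m j) = 0 := by
  unfold blkM
  rw [Matrix.submatrix_apply, finSumFinEquiv_symm_apply_castAdd, finSumFinEquiv_symm_apply_natAdd,
    Matrix.fromBlocks_apply₂₁, Matrix.zero_apply]

private theorem blkM_nn {n m : ℕ} (u₁ : Matrix (Fin n) (Fin n) F) (u₂ : Matrix (Fin m) (Fin m) F)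
    (X : Matrix (Fin n) (Fin m) F) (i j : Fin m) :
    blkM u₁ u₂ X (Fin.natAdd n i) (Fin.natAdd n j) = u₂ i j := by
  unfold blkM
  rw [Matrix.submatrix_apply, finSumFinEquiv_symm_apply_natAdd, finSumFinEquiv_symm_apply_natAdd,
    Matrix.fromBlocks_apply₂₂]

/-- HINT: conjugation with the isomorphism `(Fin n → F) × (Fin m → F) ≃ (Fin (n + m) → F)`
(`LinearEquiv.sumArrowLequivProdArrow`, `LinearEquiv.funCongrLeft` with `finSumFinEquiv`); `f.inv`. -/
theorem blkM_val {n m : ℕ} (f : UCF F) (u₁ : Matrix (Fin n) (Fin n) F)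
    (u₂ : Matrix (Fin m) (Fin m) F) (X : Matrix (Fin n) (Fin m) F) :
    f.val (Matrix.toLin' (blkM u₁ u₂ X)) =
      f.val (tri (Matrix.toLin' u₁) (Matrix.toLin' u₂) (Matrix.toLin' X)) := by
  let e : (Fin (n + m) → F) ≃ₗ[F] (Fin n → F) × (Fin m → F) :=
    (LinearEquiv.funCongrLeft F F finSumFinEquiv).trans
      (LinearEquiv.sumArrowLequivProdArrow (Fin n) (Fin m) F F)
  have he : ∀ v, e v = (fun i => v (Fin.castAdd m i), fun j => v (Fin.natAdd n j)) := fun v => rfl
  refine f.inv e _ _ (fun v => ?_)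
  rw [he, he, tri_apply]
  refine Prod.ext ?_ ?_
  · funext i
    simp only [Matrix.toLin'_apply, Pi.add_apply, Matrix.mulVec, dotProduct, Fin.sum_univ_add,
      blkM_cc, blkM_cn]
  · funext i
    simp only [Matrix.toLin'_apply, Matrix.mulVec, dotProduct, Fin.sum_univ_add,
      blkM_nc, blkM_nn, zero_mul, Finset.sum_const_zero, zero_add]

theorem supdiag_blkM {n m : ℕ} (u₁ : Matrix (Fin n) (Fin n) F)
    (u₂ : Matrix (Fin m) (Fin m) F) (X : Matrix (Fin n) (Fin m) F) :
    supdiag (blkM u₁ u₂ X) = supdiag u₁ + supdiag u₂ + corner (Matrix.toLin' X) := by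
  unfold supdiag corner
  rw [Fin.sum_univ_add]
  simp only [Fin.sum_univ_add, blkM_cc, blkM_cn, blkM_nc, blkM_nn, Fin.val_castAdd, Fin.val_natAdd,
    Finset.sum_add_distrib, ite_self, Finset.sum_const_zero, zero_add, Matrix.toLin'_apply,
    Matrix.mulVec_single_one, Matrix.col_apply]
  have h1 : ∑ x : Fin n, ∑ x₁ : Fin m, (if (x : ℕ) + 1 = n + (x₁ : ℕ) then X x x₁ else 0) =
      ∑ x : Fin n, ∑ x₁ : Fin m, (if (x : ℕ) + 1 = n ∧ (x₁ : ℕ) = 0 then X x x₁ else 0) := by
    refine Finset.sum_congr rfl (fun i _ => Finset.sum_congr rfl (fun j _ => ?_))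
    have : (i : ℕ) + 1 = n + (j : ℕ) ↔ (i : ℕ) + 1 = n ∧ (j : ℕ) = 0 := by
      have := i.2
      omega
    simp only [this]
  have h2 : ∑ x : Fin m, ∑ x₁ : Fin m, (if n + (x : ℕ) + 1 = n + (x₁ : ℕ) then u₂ x x₁ else 0) =
      ∑ x : Fin m, ∑ x₁ : Fin m, (if (x : ℕ) + 1 = (x₁ : ℕ) then u₂ x x₁ else 0) := by
    refine Finset.sum_congr rfl (fun i _ => Finset.sum_congr rfl (fun j _ => ?_))
    have : n + (i : ℕ) + 1 = n + (j : ℕ) ↔ (i : ℕ) + 1 = (j : ℕ) := by omega
    simp only [this]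
  rw [h1, h2]
  ring

private theorem isUT_blkM {n m : ℕ} {u₁ : Matrix (Fin n) (Fin n) F}
    {u₂ : Matrix (Fin m) (Fin m) F} (X : Matrix (Fin n) (Fin m) F) (h₁ : IsUT u₁) (h₂ : IsUT u₂) :
    IsUT (blkM u₁ u₂ X) := by
  constructor
  · intro i j hij
    refine Fin.addCases (fun i => ?_) (fun i => ?_) i (motive := fun i => j < i → blkM u₁ u₂ X i j = 0) hij
    · intro hij
      refine Fin.addCases (fun j => ?_) (fun j => ?_) j
        (motive := fun j => j < Fin.castAdd m i → blkM u₁ u₂ X (Fin.castAdd m i) j = 0) hij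
      · intro h
        rw [blkM_cc]
        exact h₁.1 i j (by
          have h' := Fin.lt_def.mp h
          simp only [Fin.val_castAdd] at h'
          exact Fin.lt_def.mpr h')
      · intro h
        exfalso
        have := i.2
        simp only [Fin.lt_def, Fin.val_natAdd, Fin.val_castAdd] at h
        omega
    · intro hij
      refine Fin.addCases (fun j => ?_) (fun j => ?_) j
        (motive := fun j => j < Fin.natAdd n i → blkM u₁ u₂ X (Fin.natAdd n i) j = 0) hij
      · intro h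
        exact blkM_nc _ _ _ _ _
      · intro h
        rw [blkM_nn]
        exact h₂.1 i j (by
          have h' := Fin.lt_def.mp h
          simp only [Fin.val_natAdd] at h'
          exact Fin.lt_def.mpr (by omega))
  · intro i
    refine Fin.addCases (fun i => ?_) (fun i => ?_) i
    · rw [blkM_cc]
      exact h₁.2 i
    · rw [blkM_nn]
      exact h₂.2 i

private theorem ut_det {n : ℕ} {A : Matrix (Fin n) (Fin n) F} (hA : IsUT A) : A.det ≠ 0 := by
  have hb : A.BlockTriangular id := fun i j h => hA.1 i j h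
  rw [Matrix.det_of_isUpperTriangular hb]
  simp only [hA.2, Finset.prod_const_one]
  exact one_ne_zero

/-- the element of the group with a given unitriangular matrix -/
private noncomputable def utMk {n : ℕ} (A : Matrix (Fin n) (Fin n) F) (hA : IsUT A) : Ugp F n :=
  ⟨Matrix.GeneralLinearGroup.mkOfDetNeZero A (ut_det hA), by
    rw [mem_Ugp]
    exact hA⟩

private theorem utMk_val {n : ℕ} (A : Matrix (Fin n) (Fin n) F) (hA : IsUT A) :
    ((utMk A hA : Matrix.GeneralLinearGroup (Fin n) F) : Matrix (Fin n) (Fin n) F) = A := rfl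

private noncomputable def utB {n m : ℕ} (x : Ugp F n × Ugp F m × Matrix (Fin n) (Fin m) F) :
    Ugp F (n + m) :=
  utMk (blkM ((x.1 : Matrix.GeneralLinearGroup (Fin n) F) : Matrix (Fin n) (Fin n) F)
    ((x.2.1 : Matrix.GeneralLinearGroup (Fin m) F) : Matrix (Fin m) (Fin m) F) x.2.2)
    (isUT_blkM _ x.1.2 x.2.1.2)

private theorem utB_val {n m : ℕ} (x : Ugp F n × Ugp F m × Matrix (Fin n) (Fin m) F) :
    ((utB x : Matrix.GeneralLinearGroup (Fin (n + m)) F) :
      Matrix (Fin (n + m)) (Fin (n + m)) F) =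
      blkM ((x.1 : Matrix.GeneralLinearGroup (Fin n) F) : Matrix (Fin n) (Fin n) F)
    ((x.2.1 : Matrix.GeneralLinearGroup (Fin m) F) : Matrix (Fin m) (Fin m) F) x.2.2 := rfl

private theorem utB_bij (n m : ℕ) : Function.Bijective
    (utB : Ugp F n × Ugp F m × Matrix (Fin n) (Fin m) F → Ugp F (n + m)) := by
  constructor
  · intro x y hxy
    have h := congrArg (fun u : Ugp F (n + m) =>
      ((u : Matrix.GeneralLinearGroup (Fin (n + m)) F) : Matrix (Fin (n + m)) (Fin (n + m)) F)) hxy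
    simp only [utB_val] at h
    refine Prod.ext ?_ (Prod.ext ?_ ?_)
    · apply Subtype.ext
      apply Units.ext
      ext i j
      have := congrFun (congrFun h (Fin.castAdd m i)) (Fin.castAdd m j)
      rwa [blkM_cc, blkM_cc] at this
    · apply Subtype.ext
      apply Units.ext
      ext i j
      have := congrFun (congrFun h (Fin.natAdd n i)) (Fin.natAdd n j)
      rwa [blkM_nn, blkM_nn] at this
    · ext i j
      have := congrFun (congrFun h (Fin.castAdd m i)) (Fin.natAdd n j)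
      rwa [blkM_cn, blkM_cn] at this
  · intro u
    obtain ⟨A, hA⟩ : ∃ A : Matrix (Fin (n + m)) (Fin (n + m)) F, A =
      ((u : Matrix.GeneralLinearGroup (Fin (n + m)) F) : Matrix (Fin (n + m)) (Fin (n + m)) F) :=
      ⟨_, rfl⟩
    have hU : IsUT A := by rw [hA]; exact u.2
    have h1 : IsUT (A.submatrix (Fin.castAdd m) (Fin.castAdd m)) := by
      refine ⟨fun i j h => hU.1 _ _ ?_, fun i => hU.2 _⟩
      have h' := Fin.lt_def.mp h
      apply Fin.lt_def.mpr
      simp only [Fin.val_castAdd]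
      exact h'
    have h2 : IsUT (A.submatrix (Fin.natAdd n) (Fin.natAdd n)) := by
      refine ⟨fun i j h => hU.1 _ _ ?_, fun i => hU.2 _⟩
      have h' := Fin.lt_def.mp h
      apply Fin.lt_def.mpr
      simp only [Fin.val_natAdd]
      omega
    refine ⟨(utMk _ h1, utMk _ h2, A.submatrix (Fin.castAdd m) (Fin.natAdd n)), ?_⟩
    apply Subtype.ext
    apply Units.ext
    rw [utB_val, utMk_val, utMk_val, ← hA]
    ext i j
    refine Fin.addCases (fun i => ?_) (fun i => ?_) i
    · refine Fin.addCases (fun j => ?_) (fun j => ?_) j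
      · rw [blkM_cc, Matrix.submatrix_apply]
      · rw [blkM_cn]
        rfl
    · refine Fin.addCases (fun j => ?_) (fun j => ?_) j
      · rw [blkM_nc]
        refine (hU.1 _ _ ?_).symm
        have := j.2
        simp only [Fin.lt_def, Fin.val_natAdd, Fin.val_castAdd]
        omega
      · rw [blkM_nn, Matrix.submatrix_apply]

/-- HINT: `u ∈ Ugp F (n + m)` iff `u = blkM u₁ u₂ X` with unitriangular `u₁`, `u₂` (then unique), and a
unitriangular matrix is invertible. -/
theorem sum_Ugp_add [Finite F] {n m : ℕ} (Φ : Matrix (Fin (n + m)) (Fin (n + m)) F → ℂ) :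
    ∑ᶠ u : Ugp F (n + m), Φ ((u : Matrix.GeneralLinearGroup (Fin (n + m)) F) :
        Matrix (Fin (n + m)) (Fin (n + m)) F) =
      ∑ᶠ u₁ : Ugp F n, ∑ᶠ u₂ : Ugp F m, ∑ᶠ X : Matrix (Fin n) (Fin m) F,
        Φ (blkM ((u₁ : Matrix.GeneralLinearGroup (Fin n) F) : Matrix (Fin n) (Fin n) F)
          ((u₂ : Matrix.GeneralLinearGroup (Fin m) F) : Matrix (Fin m) (Fin m) F) X) := by
  classical
  have i0 : Fintype F := Fintype.ofFinite F
  have i1 : Fintype (Ugp F (n + m)) := Fintype.ofFinite _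
  have i2 : Fintype (Ugp F n) := Fintype.ofFinite _
  have i3 : Fintype (Ugp F m) := Fintype.ofFinite _
  have i4 : Fintype (Matrix (Fin n) (Fin m) F) := Fintype.ofFinite _
  simp only [finsum_eq_sum_of_fintype]
  rw [← (utB_bij (F := F) n m).sum_comp, Fintype.sum_prod_type]
  refine Finset.sum_congr rfl (fun u₁ _ => ?_)
  rw [Fintype.sum_prod_type]
  refine Finset.sum_congr rfl (fun u₂ _ => Finset.sum_congr rfl (fun X _ => ?_))
  rw [utB_val]

/-- HINT: `sum_Ugp_add` with `Φ = 1`. -/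
theorem card_Ugp_add [Finite F] (n m : ℕ) :
    Nat.card (Ugp F (n + m)) = Nat.card (Ugp F n) * Nat.card (Ugp F m) * Nat.card F ^ (n * m) := by
  rw [← Nat.card_congr (Equiv.ofBijective _ (utB_bij (F := F) n m)), Nat.card_prod, Nat.card_prod,
    mul_assoc]
  congr 2
  unfold Matrix
  rw [Nat.card_fun, Nat.card_fun, Nat.card_eq_fintype_card (α := Fin n),
    Nat.card_eq_fintype_card (α := Fin m), Fintype.card_fin, Fintype.card_fin, ← pow_mul, mul_comm]

/-- The Whittaker multiplicity in block form. HINT: `wh`, `mult`, `ip` unfolded; `sum_Ugp_add`,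
`blkM_val`, `supdiag_blkM`, `card_Ugp_add`, `Matrix.toLin'` as a bijection matrices ≃ linear maps. -/
theorem wh_block [Finite F] (Ψ : AddChar F ℂ) (n m : ℕ) (h : UCF F) :
    wh Ψ (n + m) h = ((Nat.card (Ugp F n) * Nat.card (Ugp F m) *
        Nat.card ((Fin m → F) →ₗ[F] (Fin n → F)) : ℕ) : ℂ)⁻¹ *
      ∑ᶠ u₁ : Ugp F n, ∑ᶠ u₂ : Ugp F m, ∑ᶠ X : (Fin m → F) →ₗ[F] (Fin n → F),
        h.val (tri (Matrix.toLin' ((u₁ : Matrix.GeneralLinearGroup (Fin n) F) :
              Matrix (Fin n) (Fin n) F))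
            (Matrix.toLin' ((u₂ : Matrix.GeneralLinearGroup (Fin m) F) :
              Matrix (Fin m) (Fin m) F)) X) *
          conj (th Ψ n u₁) * conj (th Ψ m u₂) * conj (Ψ (corner X)) := by
  unfold wh mult ip
  have hc : Nat.card ((Fin m → F) →ₗ[F] (Fin n → F)) = Nat.card F ^ (n * m) := by
    rw [← Nat.card_congr (Matrix.toLin' (R := F) (m := Fin n) (n := Fin m)).toEquiv]
    unfold Matrix
    rw [Nat.card_fun, Nat.card_fun, Nat.card_eq_fintype_card (α := Fin n),
      Nat.card_eq_fintype_card (α := Fin m), Fintype.card_fin, Fintype.card_fin, ← pow_mul, mul_comm]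
  rw [hc, ← card_Ugp_add]
  congr 1
  have h1 := sum_Ugp_add (n := n) (m := m)
    (fun M => h.val (Matrix.toLin' M) * conj (Ψ (supdiag M)))
  have h2 : ∑ᶠ x : Ugp F (n + m), h.gl (n + m) x * conj (th Ψ (n + m) x) =
      ∑ᶠ u : Ugp F (n + m), (fun M => h.val (Matrix.toLin' M) * conj (Ψ (supdiag M)))
        ((u : Matrix.GeneralLinearGroup (Fin (n + m)) F) :
        Matrix (Fin (n + m)) (Fin (n + m)) F) := rfl
  rw [h2, h1]
  refine finsum_congr (fun u₁ => finsum_congr (fun u₂ => ?_))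
  refine finsum_eq_of_bijective (Matrix.toLin' (R := F) (m := Fin n) (n := Fin m))
    (Matrix.toLin' (R := F) (m := Fin n) (n := Fin m)).bijective (fun X => ?_)
  rw [blkM_val, supdiag_blkM, AddChar.map_add_eq_mul, AddChar.map_add_eq_mul, map_mul, map_mul]
  unfold th
  ring

end Pool.Agent.Lib.MP_fa0f6c_al.Cx.B
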