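import Mathlib
import Pool.Agent.Lib.MP_fa0f6c_al.Cx.Defs
import Pool.Agent.Lib.MP_fa0f6c_al.Cx.BDefs
import Pool.Agent.Lib.MP_fa0f6c_al.Cx.BWDefs
import Pool.Agent.Lib.MP_fa0f6c_al.Cx.B25

/-! Vanishing of the terms of the non transversal subspaces. -/

set_option autoImplicit false

namespace Pool.Agent.Lib.MP_fa0f6c_al.Cx.B

open scoped ComplexConjugate

variable {F : Type} [Field F]

/-- `W` contains a vector whose last nonzero coordinate is the `i`-th one. -/
def HasLast {N : ℕ} (W : Submodule F (Fin N → F)) (i : Fin N) : Prop :=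
  ∃ w ∈ W, w i = 1 ∧ ∀ j, i < j → w j = 0

/-- HINT: if `HasLast W i → HasLast W (i+1)` for all `i ≥ i₀` then `W` contains vectors with last nonzero
coordinates `i₀, i₀ + 1, ..., N - 1`, which are linearly independent, so `finrank W ≥ N - i₀ > m`. -/
theorem exists_gap {N n m : ℕ} (hN : N = n + m) (W : Submodule F (Fin N → F))
    (hW : Module.finrank F W = m) (hbad : ∃ w ∈ W, w ≠ 0 ∧ ∀ i : Fin N, n ≤ (i : ℕ) → w i = 0) :
    ∃ i i' : Fin N, (i : ℕ) + 1 = i' ∧ HasLast W i ∧ ¬ HasLast W i' := by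
  classical
  obtain ⟨w, hwW, hw0, hw⟩ := hbad
  -- the last nonzero coordinate
  obtain ⟨i₀, hi₀⟩ : ∃ i₀ : Fin N, w i₀ ≠ 0 ∧ ∀ j, i₀ < j → w j = 0 := by
    have hne : (Finset.univ.filter (fun i : Fin N => w i ≠ 0)).Nonempty := by
      by_contra hcon
      rw [Finset.not_nonempty_iff_eq_empty] at hcon
      apply hw0
      funext i
      by_contra hi
      have : i ∈ Finset.univ.filter (fun i : Fin N => w i ≠ 0) := by
        rw [Finset.mem_filter]
        exact ⟨Finset.mem_univ _, hi⟩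
      rw [hcon] at this
      exact absurd this (Finset.notMem_empty _)
    refine ⟨(Finset.univ.filter (fun i : Fin N => w i ≠ 0)).max' hne, ?_, ?_⟩
    · have := Finset.max'_mem _ hne
      rw [Finset.mem_filter] at this
      exact this.2
    · intro j hj
      by_contra hcon
      have h1 := Finset.le_max' (Finset.univ.filter (fun i : Fin N => w i ≠ 0)) j (by
        rw [Finset.mem_filter]
        exact ⟨Finset.mem_univ _, hcon⟩)
      exact absurd hj (not_lt.mpr h1)
  have hi₀n : (i₀ : ℕ) < n := by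
    by_contra hcon
    exact hi₀.1 (hw i₀ (not_lt.mp hcon))
  have hlast0 : HasLast W i₀ := by
    refine ⟨(w i₀)⁻¹ • w, W.smul_mem _ hwW, ?_, ?_⟩
    · rw [Pi.smul_apply, smul_eq_mul, inv_mul_cancel₀ hi₀.1]
    · intro j hj
      rw [Pi.smul_apply, hi₀.2 j hj, smul_zero]
  by_contra hcon
  push Not at hcon
  have hall : ∀ d : ℕ, ∀ i : Fin N, (i : ℕ) = i₀ + d → HasLast W i := by
    intro d
    induction d with
    | zero =>
      intro i hi
      have : i = i₀ := Fin.ext (by omega)
      rw [this]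
      exact hlast0
    | succ d ih =>
      intro i hi
      have hlt : (i₀ : ℕ) + d < N := by have := i.2; omega
      exact hcon ⟨i₀ + d, hlt⟩ i (by simp only; omega) (ih ⟨i₀ + d, hlt⟩ rfl)
  have hall' : ∀ j : Fin (N - i₀), ∃ v ∈ W, ∀ k : Fin N, (k : ℕ) ≥ i₀ + j →
      v k = if (k : ℕ) = i₀ + j then 1 else 0 := by
    intro j
    have hlt : (i₀ : ℕ) + j < N := by have := j.2; omega
    obtain ⟨v, hvW, hv1, hv2⟩ := hall j ⟨i₀ + j, hlt⟩ rfl
    refine ⟨v, hvW, fun k hk => ?_⟩
    by_cases h : (k : ℕ) = i₀ + j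
    · rw [if_pos h]
      have : k = ⟨i₀ + j, hlt⟩ := Fin.ext h
      rw [this]
      exact hv1
    · rw [if_neg h]
      exact hv2 k (Fin.lt_def.mpr (by simp only; omega))
  choose v hvW hv using hall'
  have hli : LinearIndependent F (fun j : Fin (N - i₀) => (⟨v j, hvW j⟩ : W)) := by
    rw [Fintype.linearIndependent_iff]
    intro g hg
    by_contra hne
    push Not at hne
    have hne' : (Finset.univ.filter (fun j : Fin (N - i₀) => g j ≠ 0)).Nonempty := by
      obtain ⟨j, hj⟩ := hne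
      exact ⟨j, by rw [Finset.mem_filter]; exact ⟨Finset.mem_univ _, hj⟩⟩
    obtain ⟨j, hj⟩ : ∃ j, j = (Finset.univ.filter (fun j : Fin (N - i₀) => g j ≠ 0)).max' hne' :=
      ⟨_, rfl⟩
    have hj0 : g j ≠ 0 := by
      have := Finset.max'_mem _ hne'
      rw [← hj, Finset.mem_filter] at this
      exact this.2
    have hjmax : ∀ k, j < k → g k = 0 := by
      intro k hk
      by_contra hc
      have h1 := Finset.le_max' (Finset.univ.filter (fun j : Fin (N - i₀) => g j ≠ 0)) k (by
        rw [Finset.mem_filter]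
        exact ⟨Finset.mem_univ _, hc⟩)
      rw [← hj] at h1
      exact absurd hk (not_lt.mpr h1)
    have hlt : (i₀ : ℕ) + j < N := by have := j.2; omega
    have h1 := congrArg (fun x : W => (x : Fin N → F) ⟨i₀ + j, hlt⟩) hg
    simp only [Submodule.coe_sum, Submodule.coe_smul, Finset.sum_apply, Pi.smul_apply,
      smul_eq_mul, ZeroMemClass.coe_zero, Pi.zero_apply] at h1
    rw [Finset.sum_eq_single j] at h1
    · rw [hv j ⟨i₀ + j, hlt⟩ le_rfl, if_pos rfl, mul_one] at h1
      exact hj0 h1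
    · intro k _ hkj
      rcases lt_or_gt_of_ne hkj with hk | hk
      · have hk' := Fin.lt_def.mp hk
        rw [hv k ⟨i₀ + j, hlt⟩ (by simp only; omega), if_neg (by simp only; omega), mul_zero]
      · rw [hjmax k hk, zero_mul]
    · intro h
      exact absurd (Finset.mem_univ j) h
  have hcard := hli.fintype_card_le_finrank
  rw [Fintype.card_fin, hW] at hcard
  have := i₀.2
  omega

/-- HINT: let `w ∈ W` with last coordinate `w i = 1`; `e_{i'}` is not in `W + span (e_j, j ≤ i)` (otherwise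
`HasLast W i'`), so there is a linear form `l` with `l = 0` on `W` and on `e_j`, `j ≤ i`, and `l (e_{i'}) = 1`
(`Submodule.exists_le_ker_of_notMem` or similar). `u_c = 1 + c • l(·) w` : unitriangular, trivial on `W`
and on the quotient, `supdiag u_c = c`. -/
theorem exists_root {N : ℕ} (W : Submodule F (Fin N → F)) (i i' : Fin N) (hi : (i : ℕ) + 1 = i')
    (h1 : HasLast W i) (h2 : ¬ HasLast W i') (c : F) :
    ∃ u : Matrix.GeneralLinearGroup (Fin N) F, u ∈ Ugp F N ∧
      supdiag (u : Matrix (Fin N) (Fin N) F) = c ∧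
      (∀ v ∈ W, Matrix.toLin' (u : Matrix (Fin N) (Fin N) F) v = v) ∧
      ∀ v, Matrix.toLin' (u : Matrix (Fin N) (Fin N) F) v - v ∈ W := by
  classical
  obtain ⟨w, hwW, hw1, hw2⟩ := h1
  let L : Submodule F (Fin N → F) :=
    { carrier := {s | ∀ j, i < j → s j = 0}
      add_mem' := fun {a b} ha hb j hj => by
        rw [Pi.add_apply, ha j hj, hb j hj, add_zero]
      zero_mem' := fun j _ => rfl
      smul_mem' := fun c s hs j hj => by
        rw [Pi.smul_apply, hs j hj, smul_zero] }
  have hL : ∀ s : Fin N → F, s ∈ L ↔ ∀ j, i < j → s j = 0 := fun s => Iff.rfl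
  have hii' : i < i' := Fin.lt_def.mpr (by omega)
  have hnot : (Pi.single i' 1 : Fin N → F) ∉ W ⊔ L := by
    intro hmem
    rw [Submodule.mem_sup] at hmem
    obtain ⟨v, hv, s, hs, hvs⟩ := hmem
    apply h2
    refine ⟨v, hv, ?_, ?_⟩
    · have h3 := congrFun hvs i'
      rw [Pi.add_apply, (hL s).mp hs i' hii', add_zero, Pi.single_eq_same] at h3
      exact h3
    · intro j hj
      have h3 := congrFun hvs j
      rw [Pi.add_apply, (hL s).mp hs j (hii'.trans hj), add_zero, Pi.single_eq_of_ne hj.ne'] at h3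
      exact h3
  obtain ⟨l₀, hl₀, hk₀⟩ := Submodule.exists_le_ker_of_notMem hnot
  obtain ⟨l, hl⟩ : ∃ l : (Fin N → F) →ₗ[F] F, l = (l₀ (Pi.single i' 1))⁻¹ • l₀ := ⟨_, rfl⟩
  have hl1 : l (Pi.single i' 1) = 1 := by
    rw [hl, LinearMap.smul_apply, smul_eq_mul, inv_mul_cancel₀ hl₀]
  have hlW : ∀ v ∈ W, l v = 0 := by
    intro v hv
    have h3 : l₀ v = 0 := hk₀ (Submodule.mem_sup_left hv)
    rw [hl, LinearMap.smul_apply, h3, smul_zero]
  have hlL : ∀ v ∈ L, l v = 0 := by
    intro v hv
    have h3 : l₀ v = 0 := hk₀ (Submodule.mem_sup_right hv)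
    rw [hl, LinearMap.smul_apply, h3, smul_zero]
  have hlj : ∀ j : Fin N, j ≤ i → l (Pi.single j 1) = 0 := by
    intro j hj
    apply hlL
    rw [hL]
    intro k hk
    exact Pi.single_eq_of_ne (lt_of_le_of_lt hj hk).ne' 1
  obtain ⟨A, hA⟩ : ∃ A : Matrix (Fin N) (Fin N) F, A = 1 + Matrix.of (fun a b => c * w a * l (Pi.single b 1)) :=
    ⟨_, rfl⟩
  have hAab : ∀ a b, A a b = (1 : Matrix (Fin N) (Fin N) F) a b + c * w a * l (Pi.single b 1) := by
    intro a b
    rw [hA]
    rfl
  have hz : ∀ a b : Fin N, b ≤ a → c * w a * l (Pi.single b 1) = 0 := by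
    intro a b hab
    rcases le_or_gt b i with hb | hb
    · rw [hlj b hb, mul_zero]
    · rw [hw2 a (lt_of_lt_of_le hb hab), mul_zero, zero_mul]
  have hUT : IsUT A := by
    constructor
    · intro a b hab
      rw [hAab, hz a b hab.le, add_zero, Matrix.one_apply_ne hab.ne']
    · intro a
      rw [hAab, hz a a le_rfl, add_zero, Matrix.one_apply_eq]
  have hdet : A.det ≠ 0 := by
    have hb : A.BlockTriangular id := fun a b h => hUT.1 a b h
    rw [Matrix.det_of_isUpperTriangular hb]
    simp only [hUT.2, Finset.prod_const_one]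
    exact one_ne_zero
  have hval : ((Matrix.GeneralLinearGroup.mkOfDetNeZero A hdet : Matrix.GeneralLinearGroup (Fin N) F) :
      Matrix (Fin N) (Fin N) F) = A := rfl
  have hlin : ∀ v, Matrix.toLin' A v = v + (c * l v) • w := by
    intro v
    funext a
    rw [Matrix.toLin'_apply, hA, Matrix.add_mulVec, Matrix.one_mulVec, Pi.add_apply, Pi.add_apply,
      Pi.smul_apply, smul_eq_mul]
    congr 1
    have h3 : l v = ∑ b, v b * l (Pi.single b 1) := by
      conv_lhs => rw [pi_eq_sum_univ' v]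
      rw [map_sum]
      refine Finset.sum_congr rfl (fun b _ => ?_)
      rw [map_smul, smul_eq_mul]
    rw [h3, Finset.mul_sum, Finset.sum_mul]
    simp only [Matrix.mulVec, dotProduct, Matrix.of_apply]
    refine Finset.sum_congr rfl (fun b _ => ?_)
    ring
  refine ⟨Matrix.GeneralLinearGroup.mkOfDetNeZero A hdet, ?_, ?_, ?_, ?_⟩
  · rw [mem_Ugp, hval]
    exact hUT
  · rw [hval]
    unfold supdiag
    rw [Finset.sum_eq_single i]
    · rw [Finset.sum_eq_single i']
      · rw [if_pos hi, hAab, Matrix.one_apply_ne hii'.ne, zero_add, hw1, hl1, mul_one, mul_one]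
      · intro b _ hb
        rw [if_neg]
        intro h
        exact hb (Fin.ext (by omega))
      · intro h
        exact absurd (Finset.mem_univ i') h
    · intro a _ ha
      refine Finset.sum_eq_zero (fun b _ => ?_)
      by_cases hab : (a : ℕ) + 1 = b
      · rw [if_pos hab, hAab, Matrix.one_apply_ne (fun h => by rw [h] at hab; omega), zero_add]
        rcases lt_or_gt_of_ne ha with h | h
        · have h' := Fin.lt_def.mp h
          rw [hlj b (Fin.le_def.mpr (by omega)), mul_zero]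
        · rw [hw2 a h, mul_zero, zero_mul]
      · rw [if_neg hab]
    · intro h
      exact absurd (Finset.mem_univ i) h
  · intro v hv
    rw [hval, hlin, hlW v hv, mul_zero, zero_smul, add_zero]
  · intro v
    rw [hval, hlin, add_sub_cancel_left]
    exact W.smul_mem _ hwW

private theorem B30_tm_congr (f g : UCF F) {V : Type} [AddCommGroup V] [Module F V]
    (x y : V →ₗ[F] V) (W : Submodule F V) (h1 : ∀ v ∈ W, y v = x v)
    (h2 : (∀ w ∈ W, x w ∈ W) → ∀ v, y v - x v ∈ W) : tm f g y W = tm f g x W := by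
  classical
  unfold tm
  by_cases h : ∀ w ∈ W, x w ∈ W
  · have h' : ∀ w ∈ W, y w ∈ W := fun w hw => by rw [h1 w hw]; exact h w hw
    rw [dif_pos h, dif_pos h']
    have e1 : y.restrict h' = x.restrict h := by
      apply LinearMap.ext
      intro v
      apply Subtype.ext
      exact h1 v v.2
    have e2 : W.mapQ W y h' = W.mapQ W x h := by
      apply Submodule.linearMap_qext
      apply LinearMap.ext
      intro v
      rw [LinearMap.comp_apply, LinearMap.comp_apply, Submodule.mkQ_apply, Submodule.mapQ_apply,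
        Submodule.mapQ_apply, Submodule.Quotient.eq]
      exact h2 h v
    rw [e1, e2]
  · have h' : ¬ ∀ w ∈ W, y w ∈ W := by
      intro hc
      apply h
      intro w hw
      rw [← h1 w hw]
      exact hc w hw
    rw [dif_neg h, dif_neg h']

/-- HINT: substitute `u ↦ u * u_c` in the sum, with `Ψ c ≠ 1`: `tm` does not change, `th` is multiplied by
`Ψ c` (`th_isLin`). -/
theorem tm_bad [Finite F] (Ψ : AddChar F ℂ) (hΨ : ∃ a, Ψ a ≠ 1) {N n m : ℕ} (hN : N = n + m)
    (W : Submodule F (Fin N → F)) (hW : Module.finrank F W = m)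
    (hbad : ∃ w ∈ W, w ≠ 0 ∧ ∀ i : Fin N, n ≤ (i : ℕ) → w i = 0) (f g : UCF F) :
    ∑ᶠ u : Ugp F N, tm f g (Matrix.toLin' ((u : Matrix.GeneralLinearGroup (Fin N) F) :
      Matrix (Fin N) (Fin N) F)) W * conj (th Ψ N u) = 0 := by
  obtain ⟨a, ha⟩ := hΨ
  obtain ⟨i, i', hi, hi1, hi2⟩ := exists_gap hN W hW hbad
  obtain ⟨u₀, hu₀, hs, hW1, hW2⟩ := exists_root W i i' hi hi1 hi2 a
  obtain ⟨S, hS⟩ : ∃ S : ℂ, S = ∑ᶠ u : Ugp F N, tm f g (Matrix.toLin' ((u : Matrix.GeneralLinearGroup (Fin N) F) :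
      Matrix (Fin N) (Fin N) F)) W * conj (th Ψ N u) := ⟨_, rfl⟩
  have h1 : S = S * conj (Ψ a) := by
    have e5 : S * conj (Ψ a) = ∑ᶠ u : Ugp F N, tm f g (Matrix.toLin'
        ((u : Matrix.GeneralLinearGroup (Fin N) F) : Matrix (Fin N) (Fin N) F)) W *
        conj (th Ψ N u) * conj (Ψ a) := by
      rw [hS, finsum_mul' _ _ (Set.toFinite _)]
    have e0 : S = ∑ᶠ u : Ugp F N, (fun u : Ugp F N => tm f g (Matrix.toLin'
        ((u : Matrix.GeneralLinearGroup (Fin N) F) : Matrix (Fin N) (Fin N) F)) W *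
        conj (th Ψ N u)) (Equiv.mulRight (⟨u₀, hu₀⟩ : Ugp F N) u) := by
      exact hS.trans (finsum_comp_equiv (Equiv.mulRight (⟨u₀, hu₀⟩ : Ugp F N))).symm
    rw [e5, e0]
    refine finsum_congr (fun u => ?_)
    simp only []
    have e1 : ((Equiv.mulRight (⟨u₀, hu₀⟩ : Ugp F N) u : Ugp F N) :
      Matrix.GeneralLinearGroup (Fin N) F) = (u : Matrix.GeneralLinearGroup (Fin N) F) * u₀ := rfl
    rw [e1, (th_isLin Ψ N).2 u u.2 u₀ hu₀]
    have e2 : th Ψ N u₀ = Ψ a := by
      unfold th
      rw [hs]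
    have e3 : tm f g (Matrix.toLin' (((u : Matrix.GeneralLinearGroup (Fin N) F) * u₀ :
        Matrix.GeneralLinearGroup (Fin N) F) : Matrix (Fin N) (Fin N) F)) W =
        tm f g (Matrix.toLin' ((u : Matrix.GeneralLinearGroup (Fin N) F) :
          Matrix (Fin N) (Fin N) F)) W := by
      have e4 : ∀ v, Matrix.toLin' (((u : Matrix.GeneralLinearGroup (Fin N) F) * u₀ :
        Matrix.GeneralLinearGroup (Fin N) F) : Matrix (Fin N) (Fin N) F) v =
          Matrix.toLin' ((u : Matrix.GeneralLinearGroup (Fin N) F) : Matrix (Fin N) (Fin N) F)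
            (Matrix.toLin' (u₀ : Matrix (Fin N) (Fin N) F) v) := by
        intro v
        rw [Units.val_mul, Matrix.toLin'_mul, LinearMap.comp_apply]
      apply B30_tm_congr
      · intro v hv
        rw [e4, hW1 v hv]
      · intro hst v
        rw [e4, ← map_sub]
        exact hst _ (hW2 v)
    rw [e2, e3, map_mul]
    ring
  have h2 : conj (Ψ a) ≠ 1 := by
    intro h
    apply ha
    have := congrArg conj h
    rwa [Complex.conj_conj, map_one] at this
  have h3 : S * (1 - conj (Ψ a)) = 0 := by linear_combination h1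
  rw [← hS]
  exact (mul_eq_zero.mp h3).resolve_right (sub_ne_zero.mpr (Ne.symm h2))

end Pool.Agent.Lib.MP_fa0f6c_al.Cx.B
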