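import Mathlib
import Pool.Agent.Lib.MP_fa0f6c_al.Cx.Defs
import Pool.Agent.Lib.MP_fa0f6c_al.Cx.BDefs
import Pool.Agent.Lib.MP_fa0f6c_al.Cx.B13
import Pool.Agent.Lib.MP_fa0f6c_al.Cx.B29

/-! The terms of the transversal subspaces. -/

set_option autoImplicit false

namespace Pool.Agent.Lib.MP_fa0f6c_al.Cx.B

open scoped ComplexConjugate

variable {F : Type} [Field F]

/-- HINT: `0 × V` is stable under `tri w y φ` iff `φ = 0`; the subspace is `≃ V` with `y`, the quotient `≃ W` with
`w`. -/
theorem tm_bot_top {W V : Type} [AddCommGroup W] [Module F W] [AddCommGroup V] [Module F V]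
    (f g : UCF F) (w : W →ₗ[F] W) (y : V →ₗ[F] V) (φ : V →ₗ[F] W) :
    tm f g (tri w y φ) ((⊥ : Submodule F W).prod (⊤ : Submodule F V)) =
      open Classical in if φ = 0 then f.val y * g.val w else 0 := by
  classical
  have hiff : (∀ p ∈ (⊥ : Submodule F W).prod (⊤ : Submodule F V),
      tri w y φ p ∈ (⊥ : Submodule F W).prod (⊤ : Submodule F V)) ↔ φ = 0 := by
    constructor
    · intro h
      ext v
      have h1 := (h (0, v) ⟨Submodule.mem_bot F |>.2 rfl, trivial⟩).1
      simpa using h1
    · rintro rfl p hp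
      have h1 : p.1 = 0 := by simpa using hp.1
      refine ⟨?_, trivial⟩
      simp [h1]
  unfold tm
  by_cases hφ : φ = 0
  · have h := hiff.2 hφ
    rw [dif_pos h, if_pos hφ]
    congr 1
    · let e : ((⊥ : Submodule F W).prod (⊤ : Submodule F V)) ≃ₗ[F] V :=
        { toFun := fun p => p.1.2
          map_add' := fun _ _ => rfl
          map_smul' := fun _ _ => rfl
          invFun := fun v => ⟨(0, v), ⟨(Submodule.mem_bot F).2 rfl, trivial⟩⟩
          left_inv := fun p => by
            have h1 : p.1.1 = 0 := by simpa using p.2.1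
            apply Subtype.ext
            exact Prod.ext h1.symm rfl
          right_inv := fun v => rfl }
      exact f.inv e _ _ (fun v => rfl)
    · let q : ((W × V) ⧸ (⊥ : Submodule F W).prod (⊤ : Submodule F V)) →ₗ[F] W :=
        Submodule.liftQ _ (LinearMap.fst F W V) (by
          intro p hp
          have h1 : p.1 = 0 := by simpa using hp.1
          exact h1)
      have hq : Function.Bijective q := by
        constructor
        · intro a b hab
          obtain ⟨a, rfl⟩ := Submodule.Quotient.mk_surjective _ a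
          obtain ⟨b, rfl⟩ := Submodule.Quotient.mk_surjective _ b
          have h1 : a.1 = b.1 := hab
          rw [Submodule.Quotient.eq]
          refine ⟨?_, trivial⟩
          simp [h1]
        · intro a
          exact ⟨Submodule.Quotient.mk (a, 0), rfl⟩
      refine g.inv (LinearEquiv.ofBijective q hq) _ _ ?_
      intro v
      obtain ⟨v, rfl⟩ := Submodule.Quotient.mk_surjective _ v
      change w v.1 + φ v.2 = w v.1
      rw [hφ]
      simp
  · rw [dif_neg (fun h => hφ (hiff.1 h)), if_neg hφ]

/-- HINT: the last row of `u₁` is `(0, .., 0, 1)` and the first column of `u₂` is `(1, 0, .., 0)`. -/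
theorem corner_comm {n m : ℕ} (u₁ : Matrix (Fin n) (Fin n) F) (u₂ : Matrix (Fin m) (Fin m) F)
    (h₁ : IsUT u₁) (h₂ : IsUT u₂) (s : (Fin m → F) →ₗ[F] (Fin n → F)) :
    corner (s.comp (Matrix.toLin' u₂) - (Matrix.toLin' u₁).comp s) = 0 := by
  classical
  unfold corner
  refine Finset.sum_eq_zero fun i _ => Finset.sum_eq_zero fun j _ => ?_
  split_ifs with h
  · obtain ⟨hi, hj⟩ := h
    have e1 : Matrix.toLin' u₂ (Pi.single j 1) = Pi.single j 1 := by
      rw [Matrix.toLin'_apply, Matrix.mulVec_single_one]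
      ext k
      by_cases hk : k = j
      · subst hk
        simp [h₂.2 k]
      · have hlt : j < k := by
          rw [Fin.lt_def]
          have : (k : ℕ) ≠ j := fun h => hk (Fin.ext h)
          omega
        simp [h₂.1 k j hlt, hk]
    have e2 : ∀ x : Fin n → F, Matrix.toLin' u₁ x i = x i := by
      intro x
      rw [Matrix.toLin'_apply, Matrix.mulVec, dotProduct, Finset.sum_eq_single i]
      · rw [h₁.2, one_mul]
      · intro k _ hk
        have hlt : k < i := by
          rw [Fin.lt_def]
          have : (k : ℕ) ≠ i := fun h => hk (Fin.ext h)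
          have := k.2
          omega
        rw [h₁.1 i k hlt, zero_mul]
      · intro h
        exact absurd (Finset.mem_univ _) h
    rw [LinearMap.sub_apply, LinearMap.comp_apply, LinearMap.comp_apply, Pi.sub_apply, e2, e1,
      sub_self]
  · rfl

/-- HINT: `tm_shear`, `tm_bot_top`: the summand is `f u₂ * g u₁` if `X = s u₂ - u₁ s` and `0` otherwise; exchange
the sums over `X` and `s`, and `corner_comm`. -/
theorem sum_graphs [Finite F] (Ψ : AddChar F ℂ) {n m : ℕ} (u₁ : Matrix (Fin n) (Fin n) F)
    (u₂ : Matrix (Fin m) (Fin m) F) (h₁ : IsUT u₁) (h₂ : IsUT u₂) (f g : UCF F) :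
    ∑ᶠ X : (Fin m → F) →ₗ[F] (Fin n → F), ∑ᶠ s : (Fin m → F) →ₗ[F] (Fin n → F),
      tm f g (tri (Matrix.toLin' u₁) (Matrix.toLin' u₂) X)
        (((⊥ : Submodule F (Fin n → F)).prod (⊤ : Submodule F (Fin m → F))).map
          (shear s : ((Fin n → F) × (Fin m → F)) →ₗ[F] ((Fin n → F) × (Fin m → F)))) *
        conj (Ψ (corner X)) =
    Nat.card ((Fin m → F) →ₗ[F] (Fin n → F)) *
      (f.val (Matrix.toLin' u₂) * g.val (Matrix.toLin' u₁)) := by
  classical
  have : Finite ((Fin m → F) →ₗ[F] (Fin n → F)) :=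
    Finite.of_injective (fun l : (Fin m → F) →ₗ[F] (Fin n → F) => (l : (Fin m → F) → (Fin n → F)))
      DFunLike.coe_injective
  have : Fintype ((Fin m → F) →ₗ[F] (Fin n → F)) := Fintype.ofFinite _
  simp only [finsum_eq_sum_of_fintype]
  rw [Finset.sum_comm]
  have key : ∀ s : (Fin m → F) →ₗ[F] (Fin n → F), ∑ X : (Fin m → F) →ₗ[F] (Fin n → F),
      tm f g (tri (Matrix.toLin' u₁) (Matrix.toLin' u₂) X)
        (((⊥ : Submodule F (Fin n → F)).prod (⊤ : Submodule F (Fin m → F))).map
          (shear s : ((Fin n → F) × (Fin m → F)) →ₗ[F] ((Fin n → F) × (Fin m → F)))) *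
        conj (Ψ (corner X)) = f.val (Matrix.toLin' u₂) * g.val (Matrix.toLin' u₁) := by
    intro s
    rw [Finset.sum_eq_single (s.comp (Matrix.toLin' u₂) - (Matrix.toLin' u₁).comp s)]
    · rw [tm_shear, tm_bot_top, if_pos (by abel), corner_comm u₁ u₂ h₁ h₂ s,
        AddChar.map_zero_eq_one, map_one, mul_one]
    · intro X _ hX
      rw [tm_shear, tm_bot_top, if_neg, zero_mul]
      intro h0
      apply hX
      have h1 : X + (Matrix.toLin' u₁).comp s = s.comp (Matrix.toLin' u₂) := sub_eq_zero.1 h0
      rw [← h1]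
      abel
    · intro h
      exact absurd (Finset.mem_univ _) h
  rw [Finset.sum_congr rfl (fun s _ => key s), Finset.sum_const, Finset.card_univ, nsmul_eq_mul,
    Nat.card_eq_fintype_card]

end Pool.Agent.Lib.MP_fa0f6c_al.Cx.B
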