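import Mathlib
import Pool.Agent.Lib.MP_fa0f6c_al.Cx.Defs
import Pool.Agent.Lib.MP_fa0f6c_al.Cx.BDefs
import Pool.Agent.Lib.MP_fa0f6c_al.Cx.BAlg
import Pool.Agent.Lib.MP_fa0f6c_al.Cx.B29
import Pool.Agent.Lib.MP_fa0f6c_al.Cx.B30
import Pool.Agent.Lib.MP_fa0f6c_al.Cx.B31

/-! Multiplicativity of the Whittaker multiplicity (Rodier). -/

set_option autoImplicit false

namespace Pool.Agent.Lib.MP_fa0f6c_al.Cx.B

open scoped ComplexConjugate

variable {F : Type} [Field F]

private theorem B32_cc {n m : ℕ} (u₁ : Matrix (Fin n) (Fin n) F) (u₂ : Matrix (Fin m) (Fin m) F)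
    (X : Matrix (Fin n) (Fin m) F) (i j : Fin n) :
    blkM u₁ u₂ X (Fin.castAdd m i) (Fin.castAdd m j) = u₁ i j := by
  unfold blkM
  rw [Matrix.submatrix_apply, finSumFinEquiv_symm_apply_castAdd, finSumFinEquiv_symm_apply_castAdd,
    Matrix.fromBlocks_apply₁₁]

private theorem B32_cn {n m : ℕ} (u₁ : Matrix (Fin n) (Fin n) F) (u₂ : Matrix (Fin m) (Fin m) F)
    (X : Matrix (Fin n) (Fin m) F) (i : Fin n) (j : Fin m) :
    blkM u₁ u₂ X (Fin.castAdd m i) (Fin.natAdd n j) = X i j := by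
  unfold blkM
  rw [Matrix.submatrix_apply, finSumFinEquiv_symm_apply_castAdd, finSumFinEquiv_symm_apply_natAdd,
    Matrix.fromBlocks_apply₁₂]

private theorem B32_nc {n m : ℕ} (u₁ : Matrix (Fin n) (Fin n) F) (u₂ : Matrix (Fin m) (Fin m) F)
    (X : Matrix (Fin n) (Fin m) F) (i : Fin m) (j : Fin n) :
    blkM u₁ u₂ X (Fin.natAdd n i) (Fin.castAdd m j) = 0 := by
  unfold blkM
  rw [Matrix.submatrix_apply, finSumFinEquiv_symm_apply_castAdd, finSumFinEquiv_symm_apply_natAdd,
    Matrix.fromBlocks_apply₂₁, Matrix.zero_apply]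

private theorem B32_nn {n m : ℕ} (u₁ : Matrix (Fin n) (Fin n) F) (u₂ : Matrix (Fin m) (Fin m) F)
    (X : Matrix (Fin n) (Fin m) F) (i j : Fin m) :
    blkM u₁ u₂ X (Fin.natAdd n i) (Fin.natAdd n j) = u₂ i j := by
  unfold blkM
  rw [Matrix.submatrix_apply, finSumFinEquiv_symm_apply_natAdd, finSumFinEquiv_symm_apply_natAdd,
    Matrix.fromBlocks_apply₂₂]

/-- the coordinates in two blocks -/
private noncomputable def B32_e (F : Type) [Field F] (n m : ℕ) :
    (Fin (n + m) → F) ≃ₗ[F] (Fin n → F) × (Fin m → F) :=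
  (LinearEquiv.funCongrLeft F F finSumFinEquiv).trans
    (LinearEquiv.sumArrowLequivProdArrow (Fin n) (Fin m) F F)

private theorem B32_e_apply {n m : ℕ} (v : Fin (n + m) → F) :
    B32_e F n m v = (fun i => v (Fin.castAdd m i), fun j => v (Fin.natAdd n j)) := rfl

private theorem B32_conj {n m : ℕ} (u₁ : Matrix (Fin n) (Fin n) F)
    (u₂ : Matrix (Fin m) (Fin m) F) (X : Matrix (Fin n) (Fin m) F) (v : Fin (n + m) → F) :
    B32_e F n m (Matrix.toLin' (blkM u₁ u₂ X) v) =
      tri (Matrix.toLin' u₁) (Matrix.toLin' u₂) (Matrix.toLin' X) (B32_e F n m v) := by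
  rw [B32_e_apply, B32_e_apply, tri_apply]
  refine Prod.ext ?_ ?_
  · funext i
    simp only [Matrix.toLin'_apply, Pi.add_apply, Matrix.mulVec, dotProduct, Fin.sum_univ_add,
      B32_cc, B32_cn]
  · funext i
    simp only [Matrix.toLin'_apply, Matrix.mulVec, dotProduct, Fin.sum_univ_add,
      B32_nc, B32_nn, zero_mul, Finset.sum_const_zero, zero_add]

/-- the graph of `s` -/
private noncomputable def B32_K {n m : ℕ} (s : (Fin m → F) →ₗ[F] (Fin n → F)) :
    Submodule F ((Fin n → F) × (Fin m → F)) :=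
  ((⊥ : Submodule F (Fin n → F)).prod (⊤ : Submodule F (Fin m → F))).map
    (shear s : ((Fin n → F) × (Fin m → F)) →ₗ[F] ((Fin n → F) × (Fin m → F)))

private theorem B32_K_inj {n m : ℕ} : Function.Injective
    (B32_K : ((Fin m → F) →ₗ[F] (Fin n → F)) → Submodule F ((Fin n → F) × (Fin m → F))) := by
  intro s s' h
  have h1 := (shear_eq_iff (⊥ : Submodule F (Fin n → F)) (⊤ : Submodule F (Fin m → F)) s s').1 h
  apply LinearMap.ext
  intro v
  have h2 := (Submodule.mem_bot F).1 (h1 v trivial)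
  rw [LinearMap.sub_apply] at h2
  exact sub_eq_zero.1 h2

/-- a transversal subspace is a graph -/
private theorem B32_good {n m : ℕ} (K : Submodule F ((Fin n → F) × (Fin m → F)))
    (hK : Module.finrank F K = m) (hb : ∀ a : Fin n → F, ((a, 0) : (Fin n → F) × (Fin m → F)) ∈ K →
      a = 0) : ∃ s, K = B32_K s := by
  have h1 : K.comap (LinearMap.inl F (Fin n → F) (Fin m → F)) = ⊥ := by
    rw [eq_bot_iff]
    intro a ha
    exact (Submodule.mem_bot F).2 (hb a ha)
  have hinj : Function.Injective ((LinearMap.snd F (Fin n → F) (Fin m → F)).domRestrict K) := by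
    rw [injective_iff_map_eq_zero]
    rintro ⟨⟨a, b⟩, hab⟩ h
    have hb0 : b = 0 := h
    subst hb0
    have ha0 := hb a hab
    subst ha0
    rfl
  have hsurj : Function.Surjective
      ((LinearMap.snd F (Fin n → F) (Fin m → F)).domRestrict K) := by
    rw [← LinearMap.injective_iff_surjective_of_finrank_eq_finrank]
    · exact hinj
    · rw [hK]; simp
  have h2 : K.map (LinearMap.snd F (Fin n → F) (Fin m → F)) = ⊤ := by
    rw [eq_top_iff]
    intro v _
    obtain ⟨k, hk⟩ := hsurj v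
    exact ⟨k.1, k.2, hk⟩
  obtain ⟨s, hs⟩ := exists_shear K
  rw [h1, h2] at hs
  exact ⟨s, hs⟩

private theorem B32_T [Finite F] (Ψ : AddChar F ℂ) {n m : ℕ} (f g : UCF F)
    (K : Submodule F ((Fin n → F) × (Fin m → F))) :
    ∑ᶠ u₁ : Ugp F n, ∑ᶠ u₂ : Ugp F m, ∑ᶠ X : (Fin m → F) →ₗ[F] (Fin n → F),
        tm f g (tri (Matrix.toLin' ((u₁ : Matrix.GeneralLinearGroup (Fin n) F) :
              Matrix (Fin n) (Fin n) F))
            (Matrix.toLin' ((u₂ : Matrix.GeneralLinearGroup (Fin m) F) :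
              Matrix (Fin m) (Fin m) F)) X) K *
          conj (th Ψ n u₁) * conj (th Ψ m u₂) * conj (Ψ (corner X)) =
    ∑ᶠ u : Ugp F (n + m), tm f g (Matrix.toLin' ((u : Matrix.GeneralLinearGroup (Fin (n + m)) F) :
      Matrix (Fin (n + m)) (Fin (n + m)) F)) (K.map ((B32_e F n m).symm :
        ((Fin n → F) × (Fin m → F)) →ₗ[F] (Fin (n + m) → F))) * conj (th Ψ (n + m) u) := by
  have h1 := sum_Ugp_add (n := n) (m := m)
    (fun M => tm f g (Matrix.toLin' M) (K.map ((B32_e F n m).symm :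
        ((Fin n → F) × (Fin m → F)) →ₗ[F] (Fin (n + m) → F))) * conj (Ψ (supdiag M)))
  have h2 : ∑ᶠ u : Ugp F (n + m), tm f g (Matrix.toLin'
      ((u : Matrix.GeneralLinearGroup (Fin (n + m)) F) :
      Matrix (Fin (n + m)) (Fin (n + m)) F)) (K.map ((B32_e F n m).symm :
        ((Fin n → F) × (Fin m → F)) →ₗ[F] (Fin (n + m) → F))) * conj (th Ψ (n + m) u) =
      ∑ᶠ u : Ugp F (n + m), (fun M => tm f g (Matrix.toLin' M) (K.map ((B32_e F n m).symm :
        ((Fin n → F) × (Fin m → F)) →ₗ[F] (Fin (n + m) → F))) * conj (Ψ (supdiag M)))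
        ((u : Matrix.GeneralLinearGroup (Fin (n + m)) F) :
        Matrix (Fin (n + m)) (Fin (n + m)) F) := rfl
  rw [h2, h1]
  refine finsum_congr (fun u₁ => finsum_congr (fun u₂ => ?_))
  symm
  refine finsum_eq_of_bijective (Matrix.toLin' (R := F) (m := Fin n) (n := Fin m))
    (Matrix.toLin' (R := F) (m := Fin n) (n := Fin m)).bijective (fun X => ?_)
  rw [supdiag_blkM, AddChar.map_add_eq_mul, AddChar.map_add_eq_mul, map_mul, map_mul,
    tm_inv f g (B32_e F n m) _ _ (B32_conj _ _ X)]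
  have h3 : (K.map ((B32_e F n m).symm :
        ((Fin n → F) × (Fin m → F)) →ₗ[F] (Fin (n + m) → F))).map
        ((B32_e F n m : (Fin (n + m) → F) ≃ₗ[F] (Fin n → F) × (Fin m → F)) :
          (Fin (n + m) → F) →ₗ[F] (Fin n → F) × (Fin m → F)) = K := by
    rw [← Submodule.map_comp]
    simp
  rw [h3]
  unfold th
  ring

/-- HINT: `|U| wh (f * g) = ∑_W ∑_u tm f g u W * conj (th u)` over `W ≤ F^{n+m}`. Only `finrank W = m` contributes
(`hf`); if `W` meets the span of the first `n` basis vectors the inner sum vanishes (`tm_bad`). The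
remaining `W` correspond, under `(Fin n → F) × (Fin m → F) ≃ (Fin (n + m) → F)`, to the
`(⊥.prod ⊤).map (shear s)`, `s : (Fin m → F) →ₗ (Fin n → F)` (`exists_shear`, `shear_eq_iff`). Use the block form of
`u` as in `wh_block` (`sum_Ugp_add`, `supdiag_blkM`, `tm_inv`) and `sum_graphs`. -/
theorem wh_mul [Finite F] (Ψ : AddChar F ℂ) (hΨ : ∃ a, Ψ a ≠ 1) {n m : ℕ} {f g : UCF F}
    (hf : Deg f m) (hg : Deg g n) : wh Ψ (n + m) (f * g) = wh Ψ m f * wh Ψ n g := by
  classical
  rw [wh_block]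
  have i1 : Finite ((Fin m → F) →ₗ[F] (Fin n → F)) :=
    Finite.of_injective (fun l : (Fin m → F) →ₗ[F] (Fin n → F) => (l : (Fin m → F) → (Fin n → F)))
      DFunLike.coe_injective
  have j1 : Fintype ((Fin m → F) →ₗ[F] (Fin n → F)) := Fintype.ofFinite _
  have j2 : Fintype (Submodule F ((Fin n → F) × (Fin m → F))) := Fintype.ofFinite _
  have j3 : Fintype (Ugp F n) := Fintype.ofFinite _
  have j4 : Fintype (Ugp F m) := Fintype.ofFinite _
  -- the contribution of a subspace
  obtain ⟨T, hT⟩ : ∃ T : Submodule F ((Fin n → F) × (Fin m → F)) → ℂ, ∀ K, T K =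
      ∑ᶠ u₁ : Ugp F n, ∑ᶠ u₂ : Ugp F m, ∑ᶠ X : (Fin m → F) →ₗ[F] (Fin n → F),
        tm f g (tri (Matrix.toLin' ((u₁ : Matrix.GeneralLinearGroup (Fin n) F) :
              Matrix (Fin n) (Fin n) F))
            (Matrix.toLin' ((u₂ : Matrix.GeneralLinearGroup (Fin m) F) :
              Matrix (Fin m) (Fin m) F)) X) K *
          conj (th Ψ n u₁) * conj (th Ψ m u₂) * conj (Ψ (corner X)) := ⟨_, fun _ => rfl⟩
  have hT0 : ∀ K, T K ≠ 0 → ∃ s, K = B32_K s := by
    intro K hK
    rw [hT, B32_T] at hK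
    have hfr : Module.finrank F (K.map ((B32_e F n m).symm :
        ((Fin n → F) × (Fin m → F)) →ₗ[F] (Fin (n + m) → F))) = Module.finrank F K :=
      LinearEquiv.finrank_map_eq (B32_e F n m).symm K
    have hm : Module.finrank F K = m := by
      by_contra hne
      apply hK
      rw [← hfr] at hne
      rw [finsum_congr (fun u => ?_), finsum_zero]
      unfold tm
      split_ifs with h
      · rw [hf _ _ hne, zero_mul, zero_mul]
      · rw [zero_mul]
    refine B32_good K hm ?_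
    intro a ha
    by_contra hne
    apply hK
    refine tm_bad Ψ hΨ rfl _ (hfr.trans hm) ?_ f g
    refine ⟨(B32_e F n m).symm (a, 0), ⟨(a, 0), ha, rfl⟩, ?_, ?_⟩
    · intro h0
      apply hne
      have h1 : ((a, 0) : (Fin n → F) × (Fin m → F)) = 0 := by
        rw [← (B32_e F n m).apply_symm_apply (a, 0), h0, map_zero]
      exact congrArg Prod.fst h1
    · intro i hi
      have h1 := congrArg Prod.snd ((B32_e F n m).apply_symm_apply ((a, 0) :
        (Fin n → F) × (Fin m → F)))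
      rw [B32_e_apply] at h1
      have h2 := congrFun h1 ⟨(i : ℕ) - n, by have := i.2; omega⟩
      dsimp only at h2
      have h3 : Fin.natAdd n (⟨(i : ℕ) - n, by have := i.2; omega⟩ : Fin m) = i := by
        apply Fin.ext
        rw [Fin.val_natAdd]
        dsimp only
        omega
      rw [h3] at h2
      exact h2
  -- exchange of the sums
  have h1 : ∑ᶠ u₁ : Ugp F n, ∑ᶠ u₂ : Ugp F m, ∑ᶠ X : (Fin m → F) →ₗ[F] (Fin n → F),
        (f * g).val (tri (Matrix.toLin' ((u₁ : Matrix.GeneralLinearGroup (Fin n) F) :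
              Matrix (Fin n) (Fin n) F))
            (Matrix.toLin' ((u₂ : Matrix.GeneralLinearGroup (Fin m) F) :
              Matrix (Fin m) (Fin m) F)) X) *
          conj (th Ψ n u₁) * conj (th Ψ m u₂) * conj (Ψ (corner X)) = ∑ K, T K := by
    simp only [hT, mul_val, finsum_eq_sum_of_fintype, Finset.sum_mul]
    symm
    rw [Finset.sum_comm]
    refine Finset.sum_congr rfl fun u₁ _ => ?_
    rw [Finset.sum_comm]
    refine Finset.sum_congr rfl fun u₂ _ => ?_
    rw [Finset.sum_comm]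
  have h2 : ∑ K, T K = ∑ s : (Fin m → F) →ₗ[F] (Fin n → F), T (B32_K s) := by
    have h0 : ∑ K ∈ (Finset.univ : Finset ((Fin m → F) →ₗ[F] (Fin n → F))).image B32_K, T K =
        ∑ s : (Fin m → F) →ₗ[F] (Fin n → F), T (B32_K s) :=
      Finset.sum_image (fun a _ b _ h => B32_K_inj h)
    rw [← h0]
    symm
    refine Finset.sum_subset (Finset.subset_univ _) ?_
    intro K _ hK
    by_contra hne
    obtain ⟨s, hs⟩ := hT0 K hne
    exact hK (Finset.mem_image.2 ⟨s, Finset.mem_univ _, hs.symm⟩)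
  have h3 : ∑ s : (Fin m → F) →ₗ[F] (Fin n → F), T (B32_K s) =
      Nat.card ((Fin m → F) →ₗ[F] (Fin n → F)) *
      ((∑ u₂ : Ugp F m, f.gl m u₂ * conj (th Ψ m u₂)) *
        (∑ u₁ : Ugp F n, g.gl n u₁ * conj (th Ψ n u₁))) := by
    simp only [hT, finsum_eq_sum_of_fintype]
    rw [Finset.sum_comm, mul_comm (∑ u₂ : Ugp F m, f.gl m u₂ * conj (th Ψ m u₂)),
      Finset.sum_mul_sum, Finset.mul_sum]
    refine Finset.sum_congr rfl fun u₁ _ => ?_
    rw [Finset.sum_comm, Finset.mul_sum]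
    refine Finset.sum_congr rfl fun u₂ _ => ?_
    rw [Finset.sum_comm]
    have hg := sum_graphs Ψ ((u₁ : Matrix.GeneralLinearGroup (Fin n) F) :
      Matrix (Fin n) (Fin n) F) ((u₂ : Matrix.GeneralLinearGroup (Fin m) F) :
      Matrix (Fin m) (Fin m) F) (mem_Ugp.1 u₁.2) (mem_Ugp.1 u₂.2) f g
    simp only [finsum_eq_sum_of_fintype] at hg
    have h4 : ∀ (X s : (Fin m → F) →ₗ[F] (Fin n → F)),
        tm f g (tri (Matrix.toLin' ((u₁ : Matrix.GeneralLinearGroup (Fin n) F) :
              Matrix (Fin n) (Fin n) F))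
            (Matrix.toLin' ((u₂ : Matrix.GeneralLinearGroup (Fin m) F) :
              Matrix (Fin m) (Fin m) F)) X) (B32_K s) *
          conj (th Ψ n u₁) * conj (th Ψ m u₂) * conj (Ψ (corner X)) =
        (conj (th Ψ n u₁) * conj (th Ψ m u₂)) *
        (tm f g (tri (Matrix.toLin' ((u₁ : Matrix.GeneralLinearGroup (Fin n) F) :
              Matrix (Fin n) (Fin n) F))
            (Matrix.toLin' ((u₂ : Matrix.GeneralLinearGroup (Fin m) F) :
              Matrix (Fin m) (Fin m) F)) X)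
        (((⊥ : Submodule F (Fin n → F)).prod (⊤ : Submodule F (Fin m → F))).map
          (shear s : ((Fin n → F) × (Fin m → F)) →ₗ[F] ((Fin n → F) × (Fin m → F)))) *
          conj (Ψ (corner X))) := by
      intro X s
      unfold B32_K
      ring
    simp only [h4, ← Finset.mul_sum]
    rw [hg]
    unfold UCF.gl
    ring
  rw [h1, h2, h3]
  unfold wh mult ip
  simp only [finsum_eq_sum_of_fintype]
  have hH : (Nat.card ((Fin m → F) →ₗ[F] (Fin n → F)) : ℂ) ≠ 0 := by
    exact_mod_cast Nat.card_pos.ne'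
  have hU : (Nat.card (Ugp F n) : ℂ) ≠ 0 := by
    exact_mod_cast Nat.card_pos.ne'
  have hU' : (Nat.card (Ugp F m) : ℂ) ≠ 0 := by
    exact_mod_cast Nat.card_pos.ne'
  push_cast
  field_simp

end Pool.Agent.Lib.MP_fa0f6c_al.Cx.B
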