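import Mathlib
import Pool.Agent.Lib.MP_fa0f6c_al.Cx.Defs
import Pool.Agent.Lib.MP_fa0f6c_al.Cx.BDefs
import Pool.Agent.Lib.MP_fa0f6c_al.Cx.B29

/-! The averages `Dd` in the computation of the degree of a cuspidal character. -/

set_option autoImplicit false

namespace Pool.Agent.Lib.MP_fa0f6c_al.Cx.B

open scoped ComplexConjugate

variable {F : Type} [Field F]

/-- The average of `f (tri 1 Y X) * conj (th Y) * conj (Ψ (lam (X e₀)))` over the unitriangular `Y` of
size `k + 1` and the `X : F^{k+1} →ₗ E`. -/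
noncomputable def Dd (Ψ : AddChar F ℂ) (f : UCF F) (E : Type) [AddCommGroup E] [Module F E]
    (k : ℕ) (lam : E →ₗ[F] F) : ℂ :=
  ((Nat.card (Ugp F (k + 1)) * Nat.card ((Fin (k + 1) → F) →ₗ[F] E) : ℕ) : ℂ)⁻¹ *
    ∑ᶠ Y : Ugp F (k + 1), ∑ᶠ X : (Fin (k + 1) → F) →ₗ[F] E,
      f.val (tri (LinearMap.id : E →ₗ[F] E)
          (Matrix.toLin' ((Y : Matrix.GeneralLinearGroup (Fin (k + 1)) F) :
            Matrix (Fin (k + 1)) (Fin (k + 1)) F)) X) *
        conj (th Ψ (k + 1) Y) * conj (Ψ (lam (X (Pi.single 0 1))))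

/-- HINT: `f.inv` and substitution `X ↦ e ∘ X`. -/
theorem Dd_equiv (Ψ : AddChar F ℂ) (f : UCF F) {E E' : Type} [AddCommGroup E] [Module F E]
    [AddCommGroup E'] [Module F E'] (e : E ≃ₗ[F] E') (k : ℕ) (lam : E' →ₗ[F] F) :
    Dd Ψ f E k (lam.comp (e : E →ₗ[F] E')) = Dd Ψ f E' k lam := by
  let c : ((Fin (k + 1) → F) →ₗ[F] E) ≃ ((Fin (k + 1) → F) →ₗ[F] E') :=
    { toFun := fun X => (e : E →ₗ[F] E').comp X
      invFun := fun X => (e.symm : E' →ₗ[F] E).comp X
      left_inv := fun X => by ext v; simp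
      right_inv := fun X => by ext v; simp }
  unfold Dd
  rw [Nat.card_congr c]
  congr 1
  refine finsum_congr fun Y => ?_
  rw [← finsum_comp_equiv c]
  refine finsum_congr fun X => ?_
  congr 1
  congr 1
  refine f.inv (e.prodCongr (LinearEquiv.refl F (Fin (k + 1) → F))) _ _ ?_
  rintro ⟨v, w⟩
  simp [c, tri_apply]

private theorem exists_equiv_form {E : Type} [AddCommGroup E] [Module F E] [Finite E]
    (lam lam' : E →ₗ[F] F) (h : lam ≠ 0) (h' : lam' ≠ 0) :
    ∃ e : E ≃ₗ[F] E, lam.comp (e : E →ₗ[F] E) = lam' := by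
  have hfd : Module.Finite F E := Module.Finite.of_finite
  -- a vector outside both kernels
  have hv : ∃ v, lam v ≠ 0 ∧ lam' v ≠ 0 := by
    obtain ⟨a, ha⟩ : ∃ a, lam a ≠ 0 := by
      by_contra hc
      push Not at hc
      exact h (LinearMap.ext hc)
    obtain ⟨b, hb⟩ : ∃ b, lam' b ≠ 0 := by
      by_contra hc
      push Not at hc
      exact h' (LinearMap.ext hc)
    by_cases h1 : lam' a = 0
    · by_cases h2 : lam b = 0
      · refine ⟨a + b, ?_, ?_⟩
        · rw [map_add, h2, add_zero]; exact ha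
        · rw [map_add, h1, zero_add]; exact hb
      · exact ⟨b, h2, hb⟩
    · exact ⟨a, ha, h1⟩
  obtain ⟨v, h1, h2⟩ := hv
  let mu : E →ₗ[F] F := (lam v)⁻¹ • (lam' - lam)
  let g : E →ₗ[F] E := LinearMap.id + mu.smulRight v
  have hg : ∀ x, g x = x + mu x • v := fun x => by simp [g]
  have hlg : ∀ x, lam (g x) = lam' x := by
    intro x
    rw [hg, map_add, map_smul, smul_eq_mul]
    have : mu x = (lam v)⁻¹ * (lam' x - lam x) := by simp [mu]
    rw [this]
    field_simp
    ring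
  have hinj : Function.Injective g := by
    rw [← LinearMap.ker_eq_bot, LinearMap.ker_eq_bot']
    intro x hx
    have h3 : lam' x = 0 := by rw [← hlg, hx, map_zero]
    have h4 : x = -(mu x • v) := by
      rw [hg] at hx
      exact eq_neg_of_add_eq_zero_left hx
    have h5 : mu x * lam' v = 0 := by
      rw [h4, map_neg, map_smul, smul_eq_mul, neg_eq_zero] at h3
      exact h3
    have h6 : mu x = 0 := by
      rcases mul_eq_zero.1 h5 with h6 | h6
      · exact h6
      · exact absurd h6 h2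
    rw [h4, h6, zero_smul, neg_zero]
  refine ⟨LinearEquiv.ofInjectiveEndo g hinj, ?_⟩
  ext x
  simp [hlg]

/-- HINT: two nonzero linear forms are conjugate under `GL(E)`, then `Dd_equiv`. -/
theorem Dd_trans (Ψ : AddChar F ℂ) (f : UCF F) {E : Type} [AddCommGroup E] [Module F E]
    [Finite E] (k : ℕ) (lam lam' : E →ₗ[F] F) (h : lam ≠ 0) (h' : lam' ≠ 0) :
    Dd Ψ f E k lam = Dd Ψ f E k lam' := by
  obtain ⟨e, he⟩ := exists_equiv_form lam lam' h h'
  rw [← he, Dd_equiv]

/-- HINT: the sum over `X` is a multiple of `rs f id Y`. -/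
theorem Dd_zero [Finite F] (Ψ : AddChar F ℂ) {f : UCF F}
    (hf : ∀ (A B : Type) [AddCommGroup A] [Module F A] [AddCommGroup B] [Module F B]
      [Nontrivial A] [Nontrivial B] (x : A →ₗ[F] A) (y : B →ₗ[F] B), rs f x y = 0)
    (E : Type) [AddCommGroup E] [Module F E] [Finite E] [Nontrivial E] (k : ℕ) :
    Dd Ψ f E k 0 = 0 := by
  unfold Dd
  have hfin : Finite ((Fin (k + 1) → F) →ₗ[F] E) :=
    Finite.of_injective (fun X : (Fin (k + 1) → F) →ₗ[F] E => (X : (Fin (k + 1) → F) → E))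
      DFunLike.coe_injective
  have hcard : (Nat.card ((Fin (k + 1) → F) →ₗ[F] E) : ℂ) ≠ 0 := by
    exact_mod_cast Nat.card_pos.ne'
  have key : ∀ Y : Ugp F (k + 1), ∑ᶠ X : (Fin (k + 1) → F) →ₗ[F] E,
      f.val (tri (LinearMap.id : E →ₗ[F] E)
          (Matrix.toLin' ((Y : Matrix.GeneralLinearGroup (Fin (k + 1)) F) :
            Matrix (Fin (k + 1)) (Fin (k + 1)) F)) X) *
        conj (th Ψ (k + 1) Y) * conj (Ψ ((0 : E →ₗ[F] F) (X (Pi.single 0 1)))) = 0 := by
    intro Y
    have h1 := hf E (Fin (k + 1) → F) (LinearMap.id : E →ₗ[F] E)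
      (Matrix.toLin' ((Y : Matrix.GeneralLinearGroup (Fin (k + 1)) F) :
            Matrix (Fin (k + 1)) (Fin (k + 1)) F))
    unfold rs at h1
    have h2 := (mul_eq_zero.1 h1).resolve_left (inv_ne_zero hcard)
    have h3 : ∀ X : (Fin (k + 1) → F) →ₗ[F] E,
        f.val (tri (LinearMap.id : E →ₗ[F] E)
          (Matrix.toLin' ((Y : Matrix.GeneralLinearGroup (Fin (k + 1)) F) :
            Matrix (Fin (k + 1)) (Fin (k + 1)) F)) X) *
        conj (th Ψ (k + 1) Y) * conj (Ψ ((0 : E →ₗ[F] F) (X (Pi.single 0 1)))) =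
        f.val (tri (LinearMap.id : E →ₗ[F] E)
          (Matrix.toLin' ((Y : Matrix.GeneralLinearGroup (Fin (k + 1)) F) :
            Matrix (Fin (k + 1)) (Fin (k + 1)) F)) X) * conj (th Ψ (k + 1) Y) := by
      intro X
      rw [LinearMap.zero_apply, AddChar.map_zero_eq_one, map_one, mul_one]
    rw [finsum_congr h3, ← finsum_mul, h2, zero_mul]
  rw [finsum_congr key, finsum_zero, mul_zero]

/-- HINT: orthogonality: `∑_lam conj (Ψ (lam v)) = |E|` if `v = 0` and `0` otherwise
(`AddChar.sum_eq_zero_of_ne_one` or a direct substitution argument; `|E →ₗ F| = |E|`). -/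
theorem sum_dual [Finite F] (Ψ : AddChar F ℂ) (hΨ : ∃ a, Ψ a ≠ 1) (E : Type) [AddCommGroup E]
    [Module F E] [Finite E] (v : E) :
    ∑ᶠ lam : E →ₗ[F] F, conj (Ψ (lam v)) = open Classical in
      if v = 0 then (Nat.card E : ℂ) else 0 := by
  classical
  have hfd : Module.Finite F E := Module.Finite.of_finite
  have hfin : Finite (E →ₗ[F] F) :=
    Finite.of_injective (fun X : E →ₗ[F] F => (X : E → F)) DFunLike.coe_injective
  split_ifs with hv
  · have h1 : ∀ lam : E →ₗ[F] F, conj (Ψ (lam v)) = 1 := by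
      intro lam
      rw [hv, map_zero, AddChar.map_zero_eq_one, map_one]
    have hE : Nat.card (E →ₗ[F] F) = Nat.card E :=
      (Nat.card_congr (Module.finBasis F E).toDualEquiv.toEquiv).symm
    rw [finsum_congr h1, ← hE]
    have := Fintype.ofFinite (E →ₗ[F] F)
    rw [finsum_eq_sum_of_fintype, Finset.sum_const, Finset.card_univ, nsmul_eq_mul, mul_one,
      Nat.card_eq_fintype_card]
  · obtain ⟨a, ha⟩ := hΨ
    obtain ⟨l1, hl1⟩ : ∃ l : E →ₗ[F] F, l v = 1 := by
      have h1 : ∃ l : E →ₗ[F] F, l v ≠ 0 := by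
        by_contra hc
        push Not at hc
        exact hv ((Module.forall_dual_apply_eq_zero_iff F v).1 hc)
      obtain ⟨l, hl⟩ := h1
      exact ⟨(l v)⁻¹ • l, by rw [LinearMap.smul_apply, smul_eq_mul, inv_mul_cancel₀ hl]⟩
    set l0 : E →ₗ[F] F := a • l1 with hl0
    have h0 : l0 v = a := by rw [hl0, LinearMap.smul_apply, hl1, smul_eq_mul, mul_one]
    set S := ∑ᶠ lam : E →ₗ[F] F, conj (Ψ (lam v)) with hS
    have h2 : S = S * conj (Ψ a) := by
      have h3 : S = ∑ᶠ lam : E →ₗ[F] F, conj (Ψ ((lam + l0) v)) := by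
        rw [hS, ← finsum_comp_equiv (Equiv.addRight l0)]
        rfl
      have h4 : ∀ lam : E →ₗ[F] F, conj (Ψ ((lam + l0) v)) = conj (Ψ (lam v)) * conj (Ψ a) := by
        intro lam
        rw [LinearMap.add_apply, h0, AddChar.map_add_eq_mul, map_mul]
      rw [finsum_congr h4, ← finsum_mul] at h3
      exact h3
    have h5 : conj (Ψ a) ≠ 1 := by
      intro h
      apply ha
      have := congrArg conj h
      rwa [Complex.conj_conj, map_one] at this
    have h6 : S * (conj (Ψ a) - 1) = 0 := by linear_combination -h2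
    exact (mul_eq_zero.1 h6).resolve_right (sub_ne_zero.2 h5)

end Pool.Agent.Lib.MP_fa0f6c_al.Cx.B
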