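import Mathlib
import Pool.Agent.Lib.MP_fa0f6c_al.Cx.Defs
import Pool.Agent.Lib.MP_fa0f6c_al.Cx.BDefs
import Pool.Agent.Lib.MP_fa0f6c_al.Cx.BWDefs

/-! Decomposition of unitriangular matrices by the first row. -/

set_option autoImplicit false

namespace Pool.Agent.Lib.MP_fa0f6c_al.Cx.B

variable {F : Type} [Field F]

/-- the matrix with first row `(1, r)`, first column `(1, 0, .., 0)` and the rest `Y` -/
def consM {k : ℕ} (r : Fin k → F) (Y : Matrix (Fin k) (Fin k) F) :
    Matrix (Fin (k + 1)) (Fin (k + 1)) F :=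
  Matrix.of (Fin.cons (Fin.cons 1 r) (fun i => Fin.cons 0 (Y i)) : Fin (k + 1) → Fin (k + 1) → F)

theorem consM_zero_zero {k : ℕ} (r : Fin k → F) (Y : Matrix (Fin k) (Fin k) F) :
    consM r Y 0 0 = 1 := rfl

theorem consM_zero_succ {k : ℕ} (r : Fin k → F) (Y : Matrix (Fin k) (Fin k) F) (j : Fin k) :
    consM r Y 0 j.succ = r j := rfl

theorem consM_succ_zero {k : ℕ} (r : Fin k → F) (Y : Matrix (Fin k) (Fin k) F) (i : Fin k) :
    consM r Y i.succ 0 = 0 := rfl

theorem consM_succ_succ {k : ℕ} (r : Fin k → F) (Y : Matrix (Fin k) (Fin k) F) (i j : Fin k) :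
    consM r Y i.succ j.succ = Y i j := rfl

/-- the action in coordinates -/
theorem consM_toLin' {k : ℕ} (r : Fin k → F) (Y : Matrix (Fin k) (Fin k) F) (t : F)
    (v : Fin k → F) :
    Matrix.toLin' (consM r Y) (Fin.cons t v : Fin (k + 1) → F) =
      (Fin.cons (t + ∑ j, r j * v j) (Matrix.toLin' Y v) : Fin (k + 1) → F) := by
  ext i
  rw [Matrix.toLin'_apply, Matrix.mulVec, dotProduct, Fin.sum_univ_succ]
  refine Fin.cases ?_ (fun i => ?_) i
  · simp only [consM_zero_zero, consM_zero_succ, Fin.cons_zero, Fin.cons_succ, one_mul]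
  · simp only [consM_succ_zero, consM_succ_succ, Fin.cons_zero, Fin.cons_succ, zero_mul, zero_add,
      Matrix.toLin'_apply, Matrix.mulVec, dotProduct]

theorem supdiag_consM {k : ℕ} (r : Fin (k + 1) → F) (Y : Matrix (Fin (k + 1)) (Fin (k + 1)) F) :
    supdiag (consM r Y) = r 0 + supdiag Y := by
  unfold supdiag
  rw [Fin.sum_univ_succ]
  congr 1
  · rw [Fin.sum_univ_succ, Fin.sum_univ_succ]
    have h1 : ∀ j : Fin k, (if ((0 : Fin (k + 2)) : ℕ) + 1 = (j.succ.succ : Fin (k + 2)) then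
        consM r Y 0 j.succ.succ else 0) = 0 := by
      intro j
      rw [if_neg]
      simp only [Fin.val_succ, Fin.val_zero]
      omega
    rw [Finset.sum_eq_zero (fun j _ => h1 j), add_zero, if_neg (by simp), zero_add, if_pos (by simp),
      consM_zero_succ]
  · refine Finset.sum_congr rfl fun i _ => ?_
    rw [Fin.sum_univ_succ, if_neg (by simp), zero_add]
    refine Finset.sum_congr rfl fun j _ => ?_
    rw [consM_succ_succ]
    simp only [Fin.val_succ, Nat.add_right_cancel_iff]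

private theorem isUT_consM {k : ℕ} (r : Fin k → F) {Y : Matrix (Fin k) (Fin k) F} (hY : IsUT Y) :
    IsUT (consM r Y) := by
  constructor
  · intro i j
    refine Fin.cases ?_ (fun i => ?_) i
    · intro h
      exact absurd h (Fin.not_lt_zero _)
    · refine Fin.cases ?_ (fun j => ?_) j
      · intro _
        exact consM_succ_zero r Y i
      · intro h
        rw [consM_succ_succ]
        exact hY.1 i j (Fin.succ_lt_succ_iff.mp h)
  · intro i
    refine Fin.cases ?_ (fun i => ?_) i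
    · exact consM_zero_zero r Y
    · rw [consM_succ_succ]
      exact hY.2 i

private theorem isUT_tail {k : ℕ} {X : Matrix (Fin (k + 1)) (Fin (k + 1)) F} (hX : IsUT X) :
    IsUT (Matrix.of fun i j : Fin k => X i.succ j.succ) :=
  ⟨fun i j h => hX.1 i.succ j.succ (Fin.succ_lt_succ_iff.mpr h), fun i => hX.2 i.succ⟩

private theorem consM_tail {k : ℕ} {X : Matrix (Fin (k + 1)) (Fin (k + 1)) F} (hX : IsUT X) :
    consM (fun j => X 0 j.succ) (Matrix.of fun i j : Fin k => X i.succ j.succ) = X := by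
  ext i j
  refine Fin.cases ?_ (fun i => ?_) i
  · refine Fin.cases ?_ (fun j => ?_) j
    · rw [consM_zero_zero, hX.2]
    · rfl
  · refine Fin.cases ?_ (fun j => ?_) j
    · rw [consM_succ_zero, hX.1 _ _ (Fin.succ_pos i)]
    · rfl

private theorem isUT_det {k : ℕ} {X : Matrix (Fin k) (Fin k) F} (hX : IsUT X) : X.det = 1 := by
  have h1 : Matrix.BlockTriangular X (id : Fin k → Fin k) := fun i j h => hX.1 i j h
  rw [Matrix.det_of_isUpperTriangular h1]
  exact Finset.prod_eq_one fun i _ => hX.2 i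

/-- the element of the group -/
private noncomputable def mkU {k : ℕ} (X : Matrix (Fin k) (Fin k) F) (hX : IsUT X) : Ugp F k :=
  ⟨Matrix.GeneralLinearGroup.mkOfDetNeZero X (by rw [isUT_det hX]; exact one_ne_zero), hX⟩

private theorem mkU_coe {k : ℕ} (X : Matrix (Fin k) (Fin k) F) (hX : IsUT X) :
    ((mkU X hX : Matrix.GeneralLinearGroup (Fin k) F) : Matrix (Fin k) (Fin k) F) = X := rfl

private theorem ugp_ext {k : ℕ} {a b : Ugp F k}
    (h : ((a : Matrix.GeneralLinearGroup (Fin k) F) : Matrix (Fin k) (Fin k) F) =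
      ((b : Matrix.GeneralLinearGroup (Fin k) F) : Matrix (Fin k) (Fin k) F)) : a = b :=
  Subtype.ext (Units.ext h)

/-- the decomposition -/
private noncomputable def uEquiv (k : ℕ) : (Ugp F k × (Fin k → F)) ≃ Ugp F (k + 1) where
  toFun p := mkU (consM p.2 ((p.1 : Matrix.GeneralLinearGroup (Fin k) F) :
    Matrix (Fin k) (Fin k) F)) (isUT_consM p.2 p.1.2)
  invFun u := (mkU _ (isUT_tail u.2),
    fun j => ((u : Matrix.GeneralLinearGroup (Fin (k + 1)) F) :
      Matrix (Fin (k + 1)) (Fin (k + 1)) F) 0 j.succ)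
  left_inv := by
    rintro ⟨Y, r⟩
    refine Prod.ext (ugp_ext ?_) ?_
    · ext i j
      rfl
    · ext j
      rfl
  right_inv := by
    intro u
    refine ugp_ext ?_
    rw [mkU_coe]
    exact consM_tail u.2

theorem sum_Ugp_succ [Finite F] {k : ℕ} (Φ : Matrix (Fin (k + 1)) (Fin (k + 1)) F → ℂ) :
    ∑ᶠ u : Ugp F (k + 1), Φ ((u : Matrix.GeneralLinearGroup (Fin (k + 1)) F) :
        Matrix (Fin (k + 1)) (Fin (k + 1)) F) =
      ∑ᶠ Y : Ugp F k, ∑ᶠ r : Fin k → F,
        Φ (consM r ((Y : Matrix.GeneralLinearGroup (Fin k) F) : Matrix (Fin k) (Fin k) F)) := by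
  classical
  have hfin : ∀ n : ℕ, Finite (Ugp F n) := fun n =>
    Finite.of_injective (fun u : Ugp F n => ((u : Matrix.GeneralLinearGroup (Fin n) F) :
      Matrix (Fin n) (Fin n) F)) (fun a b h => ugp_ext h)
  have h1 := hfin k
  have h2 := hfin (k + 1)
  have : Fintype F := Fintype.ofFinite F
  have : Fintype (Ugp F k) := Fintype.ofFinite _
  have : Fintype (Ugp F (k + 1)) := Fintype.ofFinite _
  rw [finsum_eq_sum_of_fintype, finsum_eq_sum_of_fintype]
  simp only [finsum_eq_sum_of_fintype]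
  rw [← Equiv.sum_comp (uEquiv k), Fintype.sum_prod_type]
  rfl

theorem card_Ugp_succ [Finite F] (k : ℕ) :
    Nat.card (Ugp F (k + 1)) = Nat.card (Ugp F k) * Nat.card F ^ k := by
  rw [← Nat.card_congr (uEquiv k), Nat.card_prod, Nat.card_fun, Nat.card_fin]

theorem card_Ugp_one : Nat.card (Ugp F 1) = 1 := by
  have h1 : Subsingleton (Ugp F 1) := by
    constructor
    intro a b
    refine ugp_ext ?_
    ext i j
    obtain rfl : i = 0 := Subsingleton.elim _ _
    obtain rfl : j = 0 := Subsingleton.elim _ _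
    rw [a.2.2 0, b.2.2 0]
  exact Nat.card_unique

end Pool.Agent.Lib.MP_fa0f6c_al.Cx.B
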