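import Mathlib
import Pool.Agent.Lib.MP_fa0f6c_al.Cx.Defs
import Pool.Agent.Lib.MP_fa0f6c_al.Cx.BDefs
import Pool.Agent.Lib.MP_fa0f6c_al.Cx.B33
import Pool.Agent.Lib.MP_fa0f6c_al.Cx.B39

set_option autoImplicit false

namespace Pool.Agent.Lib.MP_fa0f6c_al.Cx.B

open scoped ComplexConjugate

variable {F : Type} [Field F] [Finite F]

omit [Finite F] in
private theorem B34_dual_apply {k : ℕ} (r : Fin k → F) (v : Fin k → F) :
    (Fintype.linearCombination F r : (Fin k → F) →ₗ[F] F) v = ∑ j, r j * v j := by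
  rw [Fintype.linearCombination_apply]
  refine Finset.sum_congr rfl fun j _ => ?_
  rw [smul_eq_mul, mul_comm]

omit [Finite F] in
private theorem B34_single {k : ℕ} {M : Type} [AddCommGroup M] [Module F M]
    (r : Fin (k + 1) → M) :
    (Fintype.linearCombination F r : (Fin (k + 1) → F) →ₗ[F] M) (Pi.single 0 1) = r 0 := by
  rw [Fintype.linearCombination_apply_single, one_smul]

omit [Finite F] in
private theorem B34_bij {k : ℕ} {M : Type} [AddCommGroup M] [Module F M] :
    Function.Bijective (fun r : Fin k → M =>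
      (Fintype.linearCombination F r : (Fin k → F) →ₗ[F] M)) := by
  constructor
  · intro r r' h
    funext j
    have h1 := congrArg (fun l : (Fin k → F) →ₗ[F] M => l (Pi.single j 1)) h
    simp only [Fintype.linearCombination_apply_single, one_smul] at h1
    exact h1
  · intro l
    refine ⟨fun j => l (Pi.single j 1), ?_⟩
    apply LinearMap.pi_ext'
    intro j
    apply LinearMap.ext_ring
    simp only [LinearMap.comp_apply, LinearMap.coe_single]
    rw [Fintype.linearCombination_apply_single, one_smul]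

omit [Finite F] in
private theorem B34_card {k : ℕ} {M : Type} [AddCommGroup M] [Module F M] :
    Nat.card ((Fin k → F) →ₗ[F] M) = Nat.card M ^ k := by
  rw [← Nat.card_congr (Equiv.ofBijective _ (B34_bij (F := F) (k := k) (M := M))), Nat.card_fun,
    Nat.card_eq_fintype_card (α := Fin k), Fintype.card_fin]

omit [Finite F] in
private theorem B34_finite {k : ℕ} {M : Type} [AddCommGroup M] [Module F M] [Finite M] :
    Finite ((Fin k → F) →ₗ[F] M) :=
  Finite.of_surjective _ (B34_bij (F := F) (k := k) (M := M)).2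

omit [Finite F] in
private theorem B34_finite' {E M : Type} [AddCommGroup E] [Module F E] [Finite E]
    [AddCommGroup M] [Module F M] [Finite M] :
    Finite (E →ₗ[F] M) :=
  Finite.of_injective (fun l : E →ₗ[F] M => (l : E → M)) DFunLike.coe_injective

/-- splitting off the first coordinate -/
private def B34_spl (F : Type) [Field F] (k : ℕ) : (Fin (k + 1) → F) ≃ₗ[F] F × (Fin k → F) where
  toFun w := (w 0, fun j => w j.succ)
  map_add' _ _ := rfl
  map_smul' _ _ := rfl
  invFun p := Fin.cons p.1 p.2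
  left_inv w := by
    funext j
    refine Fin.cases ?_ (fun j => ?_) j
    · rfl
    · rfl
  right_inv p := rfl

omit [Field F] [Finite F] in
private theorem B34_cons {k : ℕ} (w : Fin (k + 1) → F) :
    w = (Fin.cons (w 0) (fun j => w j.succ) : Fin (k + 1) → F) := by
  funext j
  refine Fin.cases ?_ (fun j => ?_) j
  · rfl
  · rfl

/-- HINT: `wh` unfolded, `sum_Ugp_succ`: `u = consM r Y`, `r` corresponds to `X : F^{k+1} →ₗ F`, and
`toLin' (consM r Y)` on `F^{k+2}` is conjugate to `tri id (toLin' Y) X` on `F × F^{k+1}` (`consM_toLin'`). -/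
private theorem B34_end (Ψ : AddChar F ℂ) (f : UCF F) (k : ℕ) :
    Dd Ψ f F k LinearMap.id = wh Ψ (k + 2) f := by
  unfold wh mult ip Dd
  rw [B34_card, ← card_Ugp_succ]
  congr 1
  have h1 := sum_Ugp_succ (k := k + 1)
    (fun M => f.val (Matrix.toLin' M) * conj (Ψ (supdiag M)))
  have h2 : ∑ᶠ x : Ugp F (k + 2), f.gl (k + 2) x * conj (th Ψ (k + 2) x) =
      ∑ᶠ u : Ugp F (k + 1 + 1), (fun M => f.val (Matrix.toLin' M) * conj (Ψ (supdiag M)))
        ((u : Matrix.GeneralLinearGroup (Fin (k + 1 + 1)) F) :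
        Matrix (Fin (k + 1 + 1)) (Fin (k + 1 + 1)) F) := rfl
  rw [h2, h1]
  refine finsum_congr (fun Y => ?_)
  symm
  refine finsum_eq_of_bijective _ (B34_bij (F := F) (k := k + 1) (M := F)) (fun r => ?_)
  rw [supdiag_consM, AddChar.map_add_eq_mul, map_mul]
  have h3 : f.val (Matrix.toLin' (consM r ((Y : Matrix.GeneralLinearGroup (Fin (k + 1)) F) :
      Matrix (Fin (k + 1)) (Fin (k + 1)) F))) =
      f.val (tri (LinearMap.id : F →ₗ[F] F)
        (Matrix.toLin' ((Y : Matrix.GeneralLinearGroup (Fin (k + 1)) F) :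
          Matrix (Fin (k + 1)) (Fin (k + 1)) F)) (Fintype.linearCombination F r)) := by
    refine f.inv (B34_spl F (k + 1)) _ _ ?_
    intro w
    rw [B34_cons w, consM_toLin']
    show ((w 0 + ∑ j, r j * w j.succ : F), _) = _
    rw [tri_apply]
    refine Prod.ext ?_ ?_
    · show _ = w 0 + (Fintype.linearCombination F r) (fun j => w j.succ)
      rw [B34_dual_apply]
    · rfl
  rw [h3, LinearMap.id_apply, B34_single]
  unfold th
  ring

/-- the linear map `F^{k+1} → F^k` forgetting the first coordinate -/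
private def B34_tail (F : Type) [Field F] (k : ℕ) : (Fin (k + 1) → F) →ₗ[F] (Fin k → F) :=
  LinearMap.funLeft F F Fin.succ

omit [Finite F] in
/-- sums over the linear maps vanishing at the first basis vector -/
private theorem B34_sum_tail {k : ℕ} {M : Type} [AddCommGroup M] [Module F M]
    [Fintype ((Fin (k + 1) → F) →ₗ[F] M)] [Fintype ((Fin k → F) →ₗ[F] M)] [DecidableEq M]
    (Φ : ((Fin (k + 1) → F) →ₗ[F] M) → ℂ) (c : ℂ) :
    ∑ X : (Fin (k + 1) → F) →ₗ[F] M, Φ X * (if X (Pi.single 0 1) = 0 then c else 0) =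
      ∑ X' : (Fin k → F) →ₗ[F] M, Φ (X'.comp (B34_tail F k)) * c := by
  simp only [mul_ite, mul_zero]
  rw [← Finset.sum_filter]
  symm
  refine Finset.sum_bij (fun X' _ => X'.comp (B34_tail F k)) ?_ ?_ ?_ ?_
  · intro X' _
    rw [Finset.mem_filter]
    refine ⟨Finset.mem_univ _, ?_⟩
    rw [LinearMap.comp_apply]
    have h1 : B34_tail F k (Pi.single 0 1) = 0 := by
      funext j
      show (Pi.single (0 : Fin (k + 1)) (1 : F) : Fin (k + 1) → F) j.succ = 0
      rw [Pi.single_eq_of_ne (Fin.succ_ne_zero j)]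
    rw [h1, map_zero]
  · intro X _ X' _ h
    apply LinearMap.ext
    intro v
    have h1 := congrArg (fun l : (Fin (k + 1) → F) →ₗ[F] M => l (Fin.cons 0 v)) h
    exact h1
  · intro X hX
    rw [Finset.mem_filter] at hX
    let cz : (Fin k → F) →ₗ[F] (Fin (k + 1) → F) :=
      { toFun := fun v => Fin.cons 0 v
        map_add' := by
          intro v w
          funext j
          refine Fin.cases ?_ (fun j => ?_) j
          · simp
          · simp
        map_smul' := by
          intro a v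
          funext j
          refine Fin.cases ?_ (fun j => ?_) j
          · simp
          · simp }
    refine ⟨X.comp cz, Finset.mem_univ _, ?_⟩
    apply LinearMap.ext
    intro w
    have h1 : w = w 0 • (Pi.single 0 1 : Fin (k + 1) → F) + cz (B34_tail F k w) := by
      funext j
      refine Fin.cases ?_ (fun j => ?_) j
      · simp [cz]
      · simp [cz, B34_tail, LinearMap.funLeft_apply]
    show X (cz (B34_tail F k w)) = X w
    conv_rhs => rw [h1, map_add, map_smul, hX.2, smul_zero, zero_add]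
  · intro X' _
    rfl

/-- sum over all forms -/
private theorem B34_sum_lam (Ψ : AddChar F ℂ) (hΨ : ∃ a, Ψ a ≠ 1) (f : UCF F) (E : Type)
    [AddCommGroup E] [Module F E] [Finite E] (k : ℕ) :
    ∑ᶠ lam : E →ₗ[F] F, Dd Ψ f E k lam =
      ((Nat.card (Ugp F (k + 1)) * Nat.card ((Fin (k + 1) → F) →ₗ[F] E) : ℕ) : ℂ)⁻¹ *
      ∑ᶠ Y : Ugp F (k + 1), ∑ᶠ X' : (Fin k → F) →ₗ[F] E,
        f.val (tri (LinearMap.id : E →ₗ[F] E)
          (Matrix.toLin' ((Y : Matrix.GeneralLinearGroup (Fin (k + 1)) F) :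
            Matrix (Fin (k + 1)) (Fin (k + 1)) F)) (X'.comp (B34_tail F k))) *
        conj (th Ψ (k + 1) Y) * (Nat.card E : ℂ) := by
  classical
  have i1 : Finite (E →ₗ[F] F) := B34_finite'
  have i2 : Finite ((Fin (k + 1) → F) →ₗ[F] E) := B34_finite
  have i3 : Finite ((Fin k → F) →ₗ[F] E) := B34_finite
  have j1 : Fintype (E →ₗ[F] F) := Fintype.ofFinite _
  have j2 : Fintype ((Fin (k + 1) → F) →ₗ[F] E) := Fintype.ofFinite _
  have j3 : Fintype ((Fin k → F) →ₗ[F] E) := Fintype.ofFinite _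
  have j4 : Fintype (Ugp F (k + 1)) := Fintype.ofFinite _
  have hd := fun v => sum_dual Ψ hΨ E v
  unfold Dd
  simp only [finsum_eq_sum_of_fintype] at hd ⊢
  rw [← Finset.mul_sum]
  congr 1
  rw [Finset.sum_comm]
  refine Finset.sum_congr rfl fun Y _ => ?_
  rw [Finset.sum_comm]
  have h1 : ∀ X : (Fin (k + 1) → F) →ₗ[F] E, ∑ lam : E →ₗ[F] F,
      f.val (tri (LinearMap.id : E →ₗ[F] E)
          (Matrix.toLin' ((Y : Matrix.GeneralLinearGroup (Fin (k + 1)) F) :
            Matrix (Fin (k + 1)) (Fin (k + 1)) F)) X) *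
        conj (th Ψ (k + 1) Y) * conj (Ψ (lam (X (Pi.single 0 1)))) =
      (f.val (tri (LinearMap.id : E →ₗ[F] E)
          (Matrix.toLin' ((Y : Matrix.GeneralLinearGroup (Fin (k + 1)) F) :
            Matrix (Fin (k + 1)) (Fin (k + 1)) F)) X) *
        conj (th Ψ (k + 1) Y)) * (if X (Pi.single 0 1) = 0 then (Nat.card E : ℂ) else 0) := by
    intro X
    rw [← Finset.mul_sum, hd]
  simp only [h1]
  exact B34_sum_tail (fun X => f.val (tri (LinearMap.id : E →ₗ[F] E)
          (Matrix.toLin' ((Y : Matrix.GeneralLinearGroup (Fin (k + 1)) F) :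
            Matrix (Fin (k + 1)) (Fin (k + 1)) F)) X) *
        conj (th Ψ (k + 1) Y)) (Nat.card E : ℂ)

omit [Finite F] in
/-- linear maps into a product -/
private theorem B34_bij2 {k : ℕ} {E : Type} [AddCommGroup E] [Module F E] :
    Function.Bijective (fun p : (Fin k → F) × ((Fin k → F) →ₗ[F] E) =>
      (p.2.prod (Fintype.linearCombination F p.1 : (Fin k → F) →ₗ[F] F) :
        (Fin k → F) →ₗ[F] (E × F))) := by
  constructor
  · rintro ⟨r, X⟩ ⟨r', X'⟩ h
    have h1 : (LinearMap.fst F E F).comp (X.prod (Fintype.linearCombination F r)) =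
        (LinearMap.fst F E F).comp (X'.prod (Fintype.linearCombination F r')) :=
      congrArg (fun l => (LinearMap.fst F E F).comp l) h
    have h2 : (LinearMap.snd F E F).comp (X.prod (Fintype.linearCombination F r)) =
        (LinearMap.snd F E F).comp (X'.prod (Fintype.linearCombination F r')) :=
      congrArg (fun l => (LinearMap.snd F E F).comp l) h
    rw [LinearMap.fst_prod, LinearMap.fst_prod] at h1
    rw [LinearMap.snd_prod, LinearMap.snd_prod] at h2
    exact Prod.ext (B34_bij.1 h2) h1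
  · intro l
    obtain ⟨r, hr⟩ := (B34_bij (F := F) (k := k) (M := F)).2 ((LinearMap.snd F E F).comp l)
    refine ⟨(r, (LinearMap.fst F E F).comp l), ?_⟩
    dsimp only at hr ⊢
    rw [hr]
    apply LinearMap.ext
    intro v
    rfl

/-- The recursion. HINT: by `sum_dual` the left side is the average over `Y ∈ Ugp (k+2)` and the
`X : F^{k+2} →ₗ E` with `X e₀ = 0`, without the character of `X`, times `|E|` divided by the index of these
`X` (which is `|E|`). `Y = consM r Y'` with `Y' ∈ Ugp (k+1)` and a row `r : Fin (k+1) → F` (`sum_Ugp_succ`,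
`supdiag_consM`), `th Y = th Y' * Ψ (r 0)`; `X` with `X e₀ = 0` is given by `X' : F^{k+1} →ₗ E`; and
`tri id Y X` on `E × F^{k+2}` is conjugate to `tri id Y' (X', r)` on `(E × F) × F^{k+1}`. -/
theorem Dd_succ (Ψ : AddChar F ℂ) (hΨ : ∃ a, Ψ a ≠ 1) (f : UCF F) (E : Type) [AddCommGroup E]
    [Module F E] [Finite E] (k : ℕ) :
    ∑ᶠ lam : E →ₗ[F] F, Dd Ψ f E (k + 1) lam = Dd Ψ f (E × F) k (LinearMap.snd F E F) := by
  classical
  rw [B34_sum_lam Ψ hΨ]
  have h1 := sum_Ugp_succ (F := F) (k := k + 1)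
    (fun M => ∑ᶠ X' : (Fin (k + 1) → F) →ₗ[F] E,
        f.val (tri (LinearMap.id : E →ₗ[F] E)
          (Matrix.toLin' M) (X'.comp (B34_tail F (k + 1)))) *
        conj (Ψ (supdiag M)) * (Nat.card E : ℂ))
  have h2 : ∑ᶠ Y : Ugp F (k + 1 + 1), ∑ᶠ X' : (Fin (k + 1) → F) →ₗ[F] E,
        f.val (tri (LinearMap.id : E →ₗ[F] E)
          (Matrix.toLin' ((Y : Matrix.GeneralLinearGroup (Fin (k + 1 + 1)) F) :
            Matrix (Fin (k + 1 + 1)) (Fin (k + 1 + 1)) F)) (X'.comp (B34_tail F (k + 1)))) *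
        conj (th Ψ (k + 1 + 1) Y) * (Nat.card E : ℂ) =
      ∑ᶠ u : Ugp F (k + 1 + 1), (fun M => ∑ᶠ X' : (Fin (k + 1) → F) →ₗ[F] E,
        f.val (tri (LinearMap.id : E →ₗ[F] E)
          (Matrix.toLin' M) (X'.comp (B34_tail F (k + 1)))) *
        conj (Ψ (supdiag M)) * (Nat.card E : ℂ))
        ((u : Matrix.GeneralLinearGroup (Fin (k + 1 + 1)) F) :
        Matrix (Fin (k + 1 + 1)) (Fin (k + 1 + 1)) F) := rfl
  rw [h2, h1]
  unfold Dd
  have i1 : Finite ((Fin (k + 1) → F) →ₗ[F] E) := B34_finite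
  have i2 : Finite ((Fin (k + 1) → F) →ₗ[F] (E × F)) := B34_finite
  have j1 : Fintype ((Fin (k + 1) → F) →ₗ[F] E) := Fintype.ofFinite _
  have j2 : Fintype ((Fin (k + 1) → F) →ₗ[F] (E × F)) := Fintype.ofFinite _
  have j3 : Fintype (Ugp F (k + 1)) := Fintype.ofFinite _
  have j4 : Fintype F := Fintype.ofFinite _
  simp only [finsum_eq_sum_of_fintype]
  have h3 : ∀ Y : Ugp F (k + 1),
      ∑ r : Fin (k + 1) → F, ∑ X' : (Fin (k + 1) → F) →ₗ[F] E,
        f.val (tri (LinearMap.id : E →ₗ[F] E)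
          (Matrix.toLin' (consM r ((Y : Matrix.GeneralLinearGroup (Fin (k + 1)) F) :
            Matrix (Fin (k + 1)) (Fin (k + 1)) F))) (X'.comp (B34_tail F (k + 1)))) *
        conj (Ψ (supdiag (consM r ((Y : Matrix.GeneralLinearGroup (Fin (k + 1)) F) :
            Matrix (Fin (k + 1)) (Fin (k + 1)) F)))) * (Nat.card E : ℂ) =
      (Nat.card E : ℂ) * ∑ X : (Fin (k + 1) → F) →ₗ[F] (E × F),
        f.val (tri (LinearMap.id : (E × F) →ₗ[F] (E × F))
          (Matrix.toLin' ((Y : Matrix.GeneralLinearGroup (Fin (k + 1)) F) :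
            Matrix (Fin (k + 1)) (Fin (k + 1)) F)) X) *
        conj (th Ψ (k + 1) Y) * conj (Ψ ((LinearMap.snd F E F) (X (Pi.single 0 1)))) := by
    intro Y
    rw [← (B34_bij2 (F := F) (k := k + 1) (E := E)).sum_comp, Finset.mul_sum,
      Fintype.sum_prod_type]
    refine Finset.sum_congr rfl fun r _ => Finset.sum_congr rfl fun X' _ => ?_
    rw [supdiag_consM, AddChar.map_add_eq_mul, map_mul]
    have h4 : f.val (tri (LinearMap.id : E →ₗ[F] E)
          (Matrix.toLin' (consM r ((Y : Matrix.GeneralLinearGroup (Fin (k + 1)) F) :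
            Matrix (Fin (k + 1)) (Fin (k + 1)) F))) (X'.comp (B34_tail F (k + 1)))) =
        f.val (tri (LinearMap.id : (E × F) →ₗ[F] (E × F))
          (Matrix.toLin' ((Y : Matrix.GeneralLinearGroup (Fin (k + 1)) F) :
            Matrix (Fin (k + 1)) (Fin (k + 1)) F))
          (X'.prod (Fintype.linearCombination F r))) := by
      let e : (E × (Fin (k + 1 + 1) → F)) ≃ₗ[F] ((E × F) × (Fin (k + 1) → F)) :=
        { toFun := fun p => ((p.1, p.2 0), fun j => p.2 j.succ)
          map_add' := fun _ _ => rfl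
          map_smul' := fun _ _ => rfl
          invFun := fun p => (p.1.1, Fin.cons p.1.2 p.2)
          left_inv := fun p => Prod.ext rfl (B34_cons p.2).symm
          right_inv := fun p => rfl }
      refine f.inv e _ _ ?_
      rintro ⟨a, w⟩
      rw [B34_cons w, tri_apply, tri_apply]
      dsimp only
      rw [consM_toLin']
      refine Prod.ext (Prod.ext ?_ ?_) ?_
      · rfl
      · show w 0 + ∑ j, r j * w j.succ =
          w 0 + (Fintype.linearCombination F r) (fun j => w j.succ)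
        rw [B34_dual_apply]
      · rfl
    rw [h4]
    have h5 : (LinearMap.snd F E F) ((X'.prod (Fintype.linearCombination F r) :
        (Fin (k + 1) → F) →ₗ[F] (E × F)) (Pi.single 0 1)) = r 0 := B34_single r
    dsimp only
    rw [h5]
    unfold th
    ring
  rw [Finset.sum_congr rfl (fun Y _ => h3 Y), ← Finset.mul_sum, ← mul_assoc]
  congr 1
  rw [B34_card, B34_card, card_Ugp_succ, Nat.card_prod]
  have hE : (Nat.card E : ℂ) ≠ 0 := by
    exact_mod_cast Nat.card_pos.ne'
  have hF : (Nat.card F : ℂ) ≠ 0 := by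
    exact_mod_cast Nat.card_pos.ne'
  have hU : (Nat.card (Ugp F (k + 1)) : ℂ) ≠ 0 := by
    exact_mod_cast Nat.card_pos.ne'
  push_cast
  field_simp
  ring

/-- HINT: `Ugp F 1` is trivial; `sum_dual`; only `X = 0` remains; `E × F^1 ≃ E × F`. -/
theorem Dd_start (Ψ : AddChar F ℂ) (hΨ : ∃ a, Ψ a ≠ 1) (f : UCF F) (E : Type) [AddCommGroup E]
    [Module F E] [Finite E] :
    ∑ᶠ lam : E →ₗ[F] F, Dd Ψ f E 0 lam = f.val (LinearMap.id : (E × F) →ₗ[F] (E × F)) := by
  classical
  rw [B34_sum_lam Ψ hΨ, B34_card, card_Ugp_one]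
  have hE : (Nat.card E : ℂ) ≠ 0 := by
    exact_mod_cast Nat.card_pos.ne'
  have hsub : Subsingleton (Ugp F (0 + 1)) := by
    have h1 : Nat.card (Ugp F (0 + 1)) = 1 := card_Ugp_one
    exact (Nat.card_eq_one_iff_unique.1 h1).1
  have j1 : Fintype (Ugp F (0 + 1)) := Fintype.ofFinite _
  have i1 : Finite ((Fin 0 → F) →ₗ[F] E) := B34_finite
  have j2 : Fintype ((Fin 0 → F) →ₗ[F] E) := Fintype.ofFinite _
  have hsub2 : Subsingleton ((Fin 0 → F) →ₗ[F] E) := by
    constructor
    intro X X'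
    apply LinearMap.ext
    intro v
    rw [Subsingleton.elim v 0, map_zero, map_zero]
  simp only [finsum_eq_sum_of_fintype]
  rw [Fintype.sum_subsingleton _ (1 : Ugp F (0 + 1)),
    Fintype.sum_subsingleton _ (0 : (Fin 0 → F) →ₗ[F] E)]
  have h1 : th Ψ (0 + 1) ((1 : Ugp F (0 + 1)) : Matrix.GeneralLinearGroup (Fin (0 + 1)) F) = 1 := by
    unfold th supdiag
    simp
  rw [h1, map_one, mul_one]
  have h2 : f.val (tri (LinearMap.id : E →ₗ[F] E)
      (Matrix.toLin' (((1 : Ugp F (0 + 1)) : Matrix.GeneralLinearGroup (Fin (0 + 1)) F) :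
        Matrix (Fin (0 + 1)) (Fin (0 + 1)) F))
      ((0 : (Fin 0 → F) →ₗ[F] E).comp (B34_tail F 0))) =
      f.val (LinearMap.id : (E × F) →ₗ[F] (E × F)) := by
    let e : (E × (Fin (0 + 1) → F)) ≃ₗ[F] (E × F) :=
      { toFun := fun p => (p.1, p.2 0)
        map_add' := fun _ _ => rfl
        map_smul' := fun _ _ => rfl
        invFun := fun p => (p.1, fun _ => p.2)
        left_inv := fun p => Prod.ext rfl (by
          funext j
          have hj : j = 0 := Fin.ext (by omega)
          rw [hj])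
        right_inv := fun p => rfl }
    refine f.inv e _ _ ?_
    rintro ⟨a, w⟩
    rw [tri_apply]
    simp
  rw [h2]
  simp only [one_mul, zero_add, pow_one]
  field_simp

/-- HINT: `wh` unfolded, `sum_Ugp_succ`: `u = consM r Y`, `r` corresponds to `X : F^{k+1} →ₗ F`, and
`toLin' (consM r Y)` on `F^{k+2}` is conjugate to `tri id (toLin' Y) X` on `F × F^{k+1}` (`consM_toLin'`). -/
theorem Dd_end (Ψ : AddChar F ℂ) (f : UCF F) (k : ℕ) :
    Dd Ψ f F k LinearMap.id = wh Ψ (k + 2) f := B34_end Ψ f k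

end Pool.Agent.Lib.MP_fa0f6c_al.Cx.B
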