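import Mathlib
import Pool.Agent.Lib.MP_fa0f6c_al.Cx.Defs
import Pool.Agent.Lib.MP_fa0f6c_al.Cx.BDefs
import Pool.Agent.Lib.MP_fa0f6c_al.Cx.B06
import Pool.Agent.Lib.MP_fa0f6c_al.Cx.B26
import Pool.Agent.Lib.MP_fa0f6c_al.Cx.B34

/-! The degree of a cuspidal character. -/

set_option autoImplicit false

namespace Pool.Agent.Lib.MP_fa0f6c_al.Cx.B

open scoped ComplexConjugate

variable {F : Type} [Field F] [Finite F]

/-- a sum over linear forms -/
private theorem B35_sum (E : Type) [AddCommGroup E] [Module F E] [Finite E]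
    (g : (E →ₗ[F] F) → ℂ) (c : ℂ) (h0 : g 0 = 0) (h : ∀ lam, lam ≠ 0 → g lam = c) :
    ∑ᶠ lam, g lam = ((Nat.card F : ℂ) ^ Module.finrank F E - 1) * c := by
  classical
  have i1 : Finite (E →ₗ[F] F) :=
    Finite.of_injective (fun l : E →ₗ[F] F => (l : E → F)) DFunLike.coe_injective
  have j1 : Fintype (E →ₗ[F] F) := Fintype.ofFinite _
  have hfin : Module.Finite F E := Module.Finite.of_finite
  rw [finsum_eq_sum_of_fintype, ← Finset.add_sum_erase _ _ (Finset.mem_univ (0 : E →ₗ[F] F)), h0,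
    zero_add, Finset.sum_congr rfl (fun lam hlam => h lam (Finset.ne_of_mem_erase hlam)),
    Finset.sum_const, Finset.card_erase_of_mem (Finset.mem_univ _), Finset.card_univ, nsmul_eq_mul]
  congr 1
  have h1 : Fintype.card (E →ₗ[F] F) = Nat.card F ^ Module.finrank F E := by
    rw [← Nat.card_eq_fintype_card]
    have h2 : Nat.card (Module.Dual F E) = Nat.card F ^ Module.finrank F (Module.Dual F E) :=
      Module.natCard_eq_pow_finrank
    rw [Subspace.dual_finrank_eq] at h2
    exact h2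
  rw [h1, Nat.cast_sub, Nat.cast_pow, Nat.cast_one]
  exact Nat.one_le_pow _ _ Nat.card_pos

/-- HINT: induction on `e`. `finrank E = 1`: `E ≃ F` carrying `lam` to `id` (`Dd_equiv`, `Dd_end`). Step:
`E ≃ E' × F` with `lam` corresponding to `snd` (`E' = ker lam`), `Dd_succ`, `Dd_zero`, `Dd_trans`, and the number of
nonzero linear forms on `E'` is `Q ^ finrank E' - 1`. -/
theorem Dd_formula (Ψ : AddChar F ℂ) (hΨ : ∃ a, Ψ a ≠ 1) {f : UCF F}
    (hf : ∀ (A B : Type) [AddCommGroup A] [Module F A] [AddCommGroup B] [Module F B]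
      [Nontrivial A] [Nontrivial B] (x : A →ₗ[F] A) (y : B →ₗ[F] B), rs f x y = 0)
    (e k : ℕ) (E : Type) [AddCommGroup E] [Module F E] [Finite E]
    (hE : Module.finrank F E = e + 1) (lam : E →ₗ[F] F) (hlam : lam ≠ 0) :
    Dd Ψ f E k lam = (∏ i ∈ Finset.range e, ((Nat.card F : ℂ) ^ (i + 1) - 1)) *
      wh Ψ (e + k + 2) f := by
  have key : ∀ (e k : ℕ) (E : Type) [AddCommGroup E] [Module F E] [Finite E],
      Module.finrank F E = e + 1 → ∀ lam : E →ₗ[F] F, lam ≠ 0 →
      Dd Ψ f E k lam = (∏ i ∈ Finset.range e, ((Nat.card F : ℂ) ^ (i + 1) - 1)) *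
      wh Ψ (e + k + 2) f := by
    intro e
    induction e with
    | zero =>
      intro k E _ _ _ hE lam hlam
      have hfin : Module.Finite F E := Module.Finite.of_finite
      have hsurj : Function.Surjective lam := LinearMap.surjective hlam
      have hinj : Function.Injective lam := by
        rw [LinearMap.injective_iff_surjective_of_finrank_eq_finrank]
        · exact hsurj
        · rw [hE, Module.finrank_self]
      have h1 := Dd_equiv Ψ f (LinearEquiv.ofBijective lam ⟨hinj, hsurj⟩) k LinearMap.id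
      rw [Dd_end, LinearMap.id_comp] at h1
      rw [Finset.prod_range_zero, one_mul, Nat.zero_add]
      exact h1
    | succ e ih =>
      intro k E _ _ _ hE lam hlam
      have hfin : Module.Finite F E := Module.Finite.of_finite
      have hsurj : Function.Surjective lam := LinearMap.surjective hlam
      obtain ⟨v0, hv0⟩ := hsurj 1
      have hker : Module.finrank F (LinearMap.ker lam) = e + 1 := by
        have h1 := LinearMap.finrank_range_add_finrank_ker lam
        rw [LinearMap.range_eq_top.2 hsurj, finrank_top, Module.finrank_self, hE] at h1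
        omega
      -- the splitting
      let φ : (LinearMap.ker lam × F) →ₗ[F] E :=
        LinearMap.coprod (LinearMap.ker lam).subtype (LinearMap.toSpanSingleton F E v0)
      have hφl : ∀ p : LinearMap.ker lam × F, lam (φ p) = p.2 := by
        intro p
        show lam ((p.1 : E) + p.2 • v0) = p.2
        rw [map_add, map_smul, hv0, LinearMap.mem_ker.1 p.1.2, zero_add, smul_eq_mul, mul_one]
      have hφ : Function.Bijective φ := by
        constructor
        · intro p p' h
          have h2 : p.2 = p'.2 := by rw [← hφl p, ← hφl p', h]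
          have h3 : (p.1 : E) + p.2 • v0 = (p'.1 : E) + p'.2 • v0 := h
          rw [h2] at h3
          exact Prod.ext (Subtype.ext (add_right_cancel h3)) h2
        · intro v
          refine ⟨(⟨v - lam v • v0, ?_⟩, lam v), ?_⟩
          · rw [LinearMap.mem_ker, map_sub, map_smul, hv0, smul_eq_mul, mul_one, sub_self]
          · show (v - lam v • v0) + lam v • v0 = v
            abel
      have h1 := Dd_equiv Ψ f (LinearEquiv.ofBijective φ hφ) k lam
      have h2 : lam.comp ((LinearEquiv.ofBijective φ hφ : (LinearMap.ker lam × F) ≃ₗ[F] E) :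
          (LinearMap.ker lam × F) →ₗ[F] E) = LinearMap.snd F (LinearMap.ker lam) F := by
        apply LinearMap.ext
        intro p
        exact hφl p
      rw [h2, ← Dd_succ Ψ hΨ] at h1
      have hnt : Nontrivial (LinearMap.ker lam) := by
        apply Module.nontrivial_of_finrank_pos (R := F)
        rw [hker]
        omega
      rw [B35_sum (LinearMap.ker lam) _ ((∏ i ∈ Finset.range e, ((Nat.card F : ℂ) ^ (i + 1) - 1)) *
        wh Ψ (e + (k + 1) + 2) f) (Dd_zero Ψ hf (LinearMap.ker lam) (k + 1))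
        (fun μ hμ => ih (k + 1) (LinearMap.ker lam) hker μ hμ), hker] at h1
      rw [← h1, Finset.prod_range_succ]
      have h3 : e + (k + 1) + 2 = e + 1 + k + 2 := by omega
      rw [h3]
      ring
  exact key e k E hE lam hlam

/-- HINT: `m = 1`: `wh Ψ 1 ρ = ρ.gl 1 1` because `Ugp F 1` is trivial. `m = e + 2`: `Dd_start` for `E` of
dimension `e + 1`, `Dd_zero`, `Dd_formula` with `k = 0`; `wh_le_one` and `ρ.gl m 1 ≠ 0`. -/
theorem cusp_wh (Ψ : AddChar F ℂ) (hΨ : ∃ a, Ψ a ≠ 1) {m : ℕ} {ρ : UCF F} (hρ : Cusp m ρ) :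
    wh Ψ m ρ = 1 ∧ ρ.gl m 1 = ∏ i ∈ Finset.range (m - 1), ((Nat.card F : ℂ) ^ (i + 1) - 1) := by
  obtain ⟨hm, hirr, hcusp⟩ := hρ
  obtain ⟨d, hd0, hd, _⟩ := irrC_dim hirr
  have hne : ρ.gl m 1 ≠ 0 := by
    rw [hd]
    exact_mod_cast hd0.ne'
  have hw : wh Ψ m ρ = 0 ∨ wh Ψ m ρ = 1 := wh_le_one Ψ hΨ hirr.2
  have key : ρ.gl m 1 =
      (∏ i ∈ Finset.range (m - 1), ((Nat.card F : ℂ) ^ (i + 1) - 1)) * wh Ψ m ρ := by
    obtain ⟨n, rfl⟩ : ∃ n, m = n + 1 := ⟨m - 1, by omega⟩
    rw [Nat.add_sub_cancel]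
    cases n with
    | zero =>
      rw [Finset.prod_range_zero, one_mul]
      unfold wh mult ip
      have h1 : Nat.card (Ugp F (0 + 1)) = 1 := card_Ugp_one
      have hsub : Subsingleton (Ugp F (0 + 1)) := (Nat.card_eq_one_iff_unique.1 h1).1
      have j1 : Fintype (Ugp F (0 + 1)) := Fintype.ofFinite _
      rw [h1, finsum_eq_sum_of_fintype, Fintype.sum_subsingleton _ (1 : Ugp F (0 + 1))]
      have h2 : th Ψ (0 + 1) ((1 : Ugp F (0 + 1)) : Matrix.GeneralLinearGroup (Fin (0 + 1)) F) =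
          1 := by
        unfold th supdiag
        simp
      dsimp only
      rw [h2, map_one, mul_one]
      simp
    | succ e =>
      have hfr : Module.finrank F (Fin (e + 1) → F) = e + 1 := by simp
      have h1 := Dd_start Ψ hΨ ρ (Fin (e + 1) → F)
      rw [B35_sum (Fin (e + 1) → F) _
        ((∏ i ∈ Finset.range e, ((Nat.card F : ℂ) ^ (i + 1) - 1)) * wh Ψ (e + 0 + 2) ρ)
        (Dd_zero Ψ hcusp (Fin (e + 1) → F) 0)
        (fun μ hμ => Dd_formula Ψ hΨ hcusp e 0 (Fin (e + 1) → F) hfr μ hμ), hfr] at h1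
      have h2 : ρ.gl (e + 1 + 1) 1 =
          ρ.val (LinearMap.id : ((Fin (e + 1) → F) × F) →ₗ[F] ((Fin (e + 1) → F) × F)) := by
        unfold UCF.gl
        let ε : (Fin (e + 1 + 1) → F) ≃ₗ[F] ((Fin (e + 1) → F) × F) :=
          { toFun := fun w => (fun j => w j.succ, w 0)
            map_add' := fun _ _ => rfl
            map_smul' := fun _ _ => rfl
            invFun := fun p => Fin.cons p.2 p.1
            left_inv := fun w => by
              funext j
              refine Fin.cases ?_ (fun j => ?_) j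
              · rfl
              · rfl
            right_inv := fun p => rfl }
        refine ρ.inv ε _ _ ?_
        intro v
        simp
      rw [h2, ← h1, Finset.prod_range_succ]
      have h3 : e + 0 + 2 = e + 1 + 1 := by omega
      rw [h3]
      ring
  rcases hw with hw | hw
  · rw [hw, mul_zero] at key
    exact absurd key hne
  · refine ⟨hw, ?_⟩
    rw [key, hw, mul_one]

/-- HINT: `Matrix.card_GL_field`. -/
theorem card_GL_formula (m : ℕ) (hm : 0 < m) :
    Nat.card (Matrix.GeneralLinearGroup (Fin m) F) =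
      Nat.card F ^ (m * (m - 1) / 2) * (Nat.card F ^ m - 1) *
        ∏ i ∈ Finset.range (m - 1), (Nat.card F ^ (i + 1) - 1) := by
  classical
  have j1 : Fintype F := Fintype.ofFinite F
  have h0 : Nat.card (Matrix.GeneralLinearGroup (Fin m) F) =
      ∏ i : Fin m, (Fintype.card F ^ m - Fintype.card F ^ (i : ℕ)) := Matrix.card_GL_field m
  rw [h0, Nat.card_eq_fintype_card]
  generalize Fintype.card F = q
  rw [Fin.prod_univ_eq_prod_range (fun i => q ^ m - q ^ i) m]
  have h1 : ∀ i ∈ Finset.range m, q ^ m - q ^ i = q ^ i * (q ^ (m - i) - 1) := by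
    intro i hi
    rw [Finset.mem_range] at hi
    rw [Nat.mul_sub, mul_one, ← pow_add]
    congr 2
    omega
  rw [Finset.prod_congr rfl h1, Finset.prod_mul_distrib, Finset.prod_pow_eq_pow_sum,
    Finset.sum_range_id, mul_assoc]
  congr 1
  have h2 : ∏ i ∈ Finset.range m, (q ^ (m - i) - 1) = ∏ i ∈ Finset.range m, (q ^ (i + 1) - 1) := by
    rw [← Finset.prod_range_reflect]
    refine Finset.prod_congr rfl fun i hi => ?_
    rw [Finset.mem_range] at hi
    congr 2
    omega
  rw [h2]
  obtain ⟨n, rfl⟩ : ∃ n, m = n + 1 := ⟨m - 1, by omega⟩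
  rw [Finset.prod_range_succ, Nat.add_sub_cancel, mul_comm]

/-- `h(ρ) = Q^{m(m-1)/2} (Q^m - 1)` for cuspidal `ρ`. -/
theorem cusp_h {m : ℕ} {ρ : UCF F} (hρ : Cusp m ρ) (d : ℕ) (hd : ρ.gl m 1 = d) :
    Nat.card (Matrix.GeneralLinearGroup (Fin m) F) / d =
      Nat.card F ^ (m * (m - 1) / 2) * (Nat.card F ^ m - 1) := by
  obtain ⟨Ψ, hΨ⟩ : ∃ Ψ : AddChar F ℂ, Ψ 1 ≠ 1 :=
    AddChar.exists_apply_ne_zero.2 one_ne_zero
  have h1 := (cusp_wh Ψ ⟨1, hΨ⟩ hρ).2
  have h2 : (d : ℂ) = ((∏ i ∈ Finset.range (m - 1), (Nat.card F ^ (i + 1) - 1) : ℕ) : ℂ) := by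
    rw [← hd, h1, Nat.cast_prod]
    refine Finset.prod_congr rfl fun i _ => ?_
    rw [Nat.cast_sub (Nat.one_le_pow _ _ Nat.card_pos), Nat.cast_pow, Nat.cast_one]
  have h3 : d = ∏ i ∈ Finset.range (m - 1), (Nat.card F ^ (i + 1) - 1) := by exact_mod_cast h2
  have hd0 : 0 < d := by
    obtain ⟨d', hd0', hd', _⟩ := irrC_dim hρ.2.1
    have h4 : (d : ℂ) = (d' : ℂ) := by rw [← hd, hd']
    have h5 : d = d' := by exact_mod_cast h4
    omega
  rw [card_GL_formula m hρ.1, ← h3, Nat.mul_div_cancel _ hd0]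

end Pool.Agent.Lib.MP_fa0f6c_al.Cx.B
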