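import Mathlib
import Pool.Agent.Lib.MP_fa0f6c_al.Cx.Defs
import Pool.Agent.Lib.MP_fa0f6c_al.Cx.BDefs
import Pool.Agent.Lib.MP_fa0f6c_al.Cx.B19
import Pool.Agent.Lib.MP_fa0f6c_al.Cx.B28
import Pool.Agent.Lib.MP_fa0f6c_al.Cx.B32
import Pool.Agent.Lib.MP_fa0f6c_al.Cx.B35

/-! The number of multisets of cuspidal characters. -/

set_option autoImplicit false

namespace Pool.Agent.Lib.MP_fa0f6c_al.Cx.B

open scoped ComplexConjugate

variable {F : Type} [Field F] [Finite F]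

private theorem b36_wh_zero (Ψ : AddChar F ℂ) : wh Ψ 0 (1 : UCF F) = 1 := by
  unfold wh mult ip
  have hss : Subsingleton (Matrix.GeneralLinearGroup (Fin 0) F) :=
    ⟨fun a b => Units.ext (Subsingleton.elim _ _)⟩
  have hs : Subsingleton (Ugp F 0) := ⟨fun a b => Subtype.ext (Subsingleton.elim _ _)⟩
  have hu : Unique (Ugp F 0) := ⟨⟨1⟩, fun a => Subsingleton.elim _ _⟩
  rw [Nat.card_unique, finsum_unique]
  have h1 : (1 : UCF F).gl 0 ((default : Ugp F 0) : Matrix.GeneralLinearGroup (Fin 0) F) = 1 := by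
    unfold UCF.gl
    exact (one_val _).trans (if_pos (inferInstanceAs (Subsingleton (Fin 0 → F))))
  have h2 : th Ψ 0 ((default : Ugp F 0) : Matrix.GeneralLinearGroup (Fin 0) F) = 1 := by
    unfold th supdiag
    simp
  show ((1 : ℕ) : ℂ)⁻¹ * ((1 : UCF F).gl 0 ((default : Ugp F 0) :
    Matrix.GeneralLinearGroup (Fin 0) F) *
      conj (th Ψ 0 ((default : Ugp F 0) : Matrix.GeneralLinearGroup (Fin 0) F))) = 1
  rw [h1, h2]
  simp

/-- HINT: induction on `l`: `wh_mul`, `cusp_wh`; `wh Ψ 0 1 = 1`. -/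
theorem wh_list (Ψ : AddChar F ℂ) (hΨ : ∃ a, Ψ a ≠ 1) {n : ℕ} {l : List (UCF F)}
    (h : CL n l) : wh Ψ n l.prod = 1 := by
  induction l generalizing n with
  | nil =>
    obtain ⟨_, h2⟩ := h
    simp only [List.map_nil, List.sum_nil] at h2
    subst h2
    rw [List.prod_nil]
    exact b36_wh_zero Ψ
  | cons ρ l ih =>
    obtain ⟨h1, h2⟩ := h
    obtain ⟨m, hm⟩ := h1 ρ List.mem_cons_self
    rw [List.map_cons, List.sum_cons, dg_eq hm] at h2
    have hCL : CL (l.map dg).sum l :=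
      ⟨fun ρ' hρ' => h1 ρ' (List.mem_cons_of_mem _ hρ'), rfl⟩
    have h3 : n = (l.map dg).sum + m := by omega
    subst h3
    rw [List.prod_cons, wh_mul Ψ hΨ hm.2.1.1 (natC_list hCL).1, ih hCL,
      (cusp_wh Ψ hΨ hm).1, one_mul]

private theorem b36_wh_add (Ψ : AddChar F ℂ) (n : ℕ) (f g : UCF F) :
    wh Ψ n (f + g) = wh Ψ n f + wh Ψ n g := by
  unfold wh mult
  exact ip_add_left (G := Ugp F n) (fun u : Ugp F n => f.gl n u) (fun u : Ugp F n => g.gl n u) _

private theorem b36_wh_smul (Ψ : AddChar F ℂ) (n : ℕ) (c : ℂ) (f : UCF F) :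
    wh Ψ n (c • f) = c * wh Ψ n f := by
  unfold wh mult
  exact ip_smul_left (G := Ugp F n) c (fun u : Ugp F n => f.gl n u) _

private noncomputable def b36_lin (Ψ : AddChar F ℂ) (n : ℕ) : UCF F →ₗ[ℂ] ℂ where
  toFun f := wh Ψ n f
  map_add' f g := b36_wh_add Ψ n f g
  map_smul' c f := b36_wh_smul Ψ n c f

/-- HINT: expand `f` (`ucf_expand`), `wh` is additive. -/
theorem wh_expand (Ψ : AddChar F ℂ) {n : ℕ} {f : UCF F} (hf : Deg f n) :
    wh Ψ n f = ∑ τ ∈ irrF F n, ipn n f τ * wh Ψ n τ := by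
  have h : b36_lin Ψ n f = ∑ τ ∈ irrF F n, ipn n f τ * b36_lin Ψ n τ := by
    conv_lhs => rw [ucf_expand hf]
    rw [map_sum]
    refine Finset.sum_congr rfl fun τ _ => ?_
    rw [map_smul, smul_eq_mul]
  exact h

private theorem b36_sum_one {α : Type*} (s : Finset α) (f : α → ℕ) (h : ∑ i ∈ s, f i = 1) :
    (∃ i ∈ s, f i ≠ 0) ∧ ∀ i ∈ s, ∀ j ∈ s, f i ≠ 0 → f j ≠ 0 → i = j := by
  classical
  constructor
  · by_contra hcon
    push Not at hcon
    rw [Finset.sum_eq_zero hcon] at h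
    exact absurd h (by norm_num)
  · intro i hi j hj hi0 hj0
    by_contra hij
    have h1 : f i + f j ≤ ∑ i ∈ s, f i := by
      rw [← Finset.sum_pair hij]
      exact Finset.sum_le_sum_of_subset (by
        intro x hx
        rcases Finset.mem_insert.1 hx with rfl | hx
        · exact hi
        · rw [Finset.mem_singleton] at hx; rw [hx]; exact hj)
    omega

/-- For every list of cuspidal characters there is exactly one generic constituent.
HINT: `wh_list`, `wh_expand`: a sum of natural numbers equal to `1`. -/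
theorem generic_unique (Ψ : AddChar F ℂ) (hΨ : ∃ a, Ψ a ≠ 1) {n : ℕ} {l : List (UCF F)}
    (h : CL n l) : ∃! ψ : UCF F, ψ ∈ IrrC F n ∧ ipn n l.prod ψ ≠ 0 ∧ wh Ψ n ψ = 1 := by
  classical
  have hN := natC_list h
  have hex : ∀ τ : UCF F, ∃ k : ℕ, τ ∈ IrrC F n → ipn n l.prod τ * wh Ψ n τ = k ∧
      (k ≠ 0 ↔ ipn n l.prod τ ≠ 0 ∧ wh Ψ n τ = 1) := by
    intro τ
    by_cases hτ : τ ∈ IrrC F n
    · obtain ⟨a, ha⟩ := natC_ip hN (natC_irr hτ)
      rcases wh_le_one Ψ hΨ hτ.2 with h0 | h0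
      · refine ⟨0, fun _ => ⟨?_, ?_⟩⟩
        · have : wh Ψ n τ = 0 := h0
          rw [this, mul_zero, Nat.cast_zero]
        · have : wh Ψ n τ = 0 := h0
          rw [this]
          simp
      · refine ⟨a, fun _ => ⟨?_, ?_⟩⟩
        · have : wh Ψ n τ = 1 := h0
          rw [this, ha, mul_one]
        · have : wh Ψ n τ = 1 := h0
          rw [this, ha]
          simp
    · exact ⟨0, fun h => absurd h hτ⟩
  choose k hk using hex
  have hsum : ∑ τ ∈ irrF F n, k τ = 1 := by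
    have h1 := wh_expand Ψ hN.1
    rw [wh_list Ψ hΨ h] at h1
    have h2 : ∑ τ ∈ irrF F n, ipn n l.prod τ * wh Ψ n τ = ∑ τ ∈ irrF F n, (k τ : ℂ) :=
      Finset.sum_congr rfl fun τ hτ => (hk τ (mem_irrF.1 hτ)).1
    rw [h2] at h1
    exact_mod_cast h1.symm
  obtain ⟨⟨ψ, hψ, hψ0⟩, huniq⟩ := b36_sum_one _ _ hsum
  have hψ' := mem_irrF.1 hψ
  refine ⟨ψ, ⟨hψ', ((hk ψ hψ').2.1 hψ0)⟩, ?_⟩
  rintro ψ' ⟨h1, h2⟩
  exact huniq ψ' (mem_irrF.2 h1) ψ hψ ((hk ψ' h1).2.2 h2) hψ0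

private theorem b36_exists_char : ∃ Ψ : AddChar F ℂ, ∃ a, Ψ a ≠ 1 := by
  have : Nontrivial F := inferInstance
  obtain ⟨a, ha⟩ := exists_ne (0 : F)
  obtain ⟨Ψ, hΨ⟩ := AddChar.exists_apply_ne_zero.2 ha
  exact ⟨Ψ, a, hΨ⟩

private theorem b36_CL {n : ℕ} {l : List (UCF F)} {β : Multiset {ρ : UCF F // IsCusp ρ}}
    (hβ : (β.map (fun ρ => dg ρ.1)).sum = n) (hl : (l : Multiset (UCF F)) = β.map Subtype.val) :
    CL n l := by
  constructor
  · intro ρ hρ
    have : ρ ∈ β.map Subtype.val := by rw [← hl]; exact Multiset.mem_coe.2 hρ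
    obtain ⟨ρ', _, rfl⟩ := Multiset.mem_map.1 this
    exact ρ'.2
  · rw [← hβ, ← Multiset.sum_coe, ← Multiset.map_coe, hl, Multiset.map_map]
    rfl

/-- The number of multisets of cuspidal characters of total degree `n`. HINT: bijection with the generic
irreducible characters: a generic `ψ` goes to the multiset of any `l` with `Has n ψ l` (`exists_has`,
`has_unique`), inverse by `generic_unique` (`prod_perm`); their number by `generic_card` (`irrC_ncard`).
A nontrivial `Ψ` exists (`AddChar.exists_apply_ne_zero` or similar). -/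
theorem multiset_card {n : ℕ} (hn : 0 < n) :
    Nat.card {β : Multiset {ρ : UCF F // IsCusp ρ} // (β.map (fun ρ => dg ρ.1)).sum = n} =
      (Nat.card F - 1) * Nat.card F ^ (n - 1) := by
  classical
  obtain ⟨Ψ, hΨ⟩ := b36_exists_char (F := F)
  rw [← generic_card hn Ψ hΨ, ← Nat.card_coe_set_eq]
  have hex : ∀ β : {β : Multiset {ρ : UCF F // IsCusp ρ} //
      (β.map (fun ρ => dg ρ.1)).sum = n}, ∃ ψ : UCF F, ψ ∈ IrrC F n ∧ wh Ψ n ψ = 1 ∧
        ∀ l : List (UCF F), (l : Multiset (UCF F)) = β.1.map Subtype.val → Has n ψ l := by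
    intro β
    have h1 : (((β.1.map Subtype.val).toList : List (UCF F)) : Multiset (UCF F)) =
        β.1.map Subtype.val := Multiset.coe_toList _
    have hCL := b36_CL β.2 h1
    obtain ⟨ψ, ⟨hψ1, hψ2, hψ3⟩, _⟩ := generic_unique Ψ hΨ hCL
    refine ⟨ψ, hψ1, hψ3, fun l hl => ?_⟩
    have hp : ((β.1.map Subtype.val).toList).Perm l := by
      rw [← Multiset.coe_eq_coe, h1, hl]
    exact has_perm ⟨hCL, hψ2⟩ hp
  choose ψ hψ1 hψ2 hψ3 using hex
  refine Nat.card_congr (Equiv.ofBijective (fun β => ⟨(ψ β).gl n, (hψ1 β).2, hψ2 β⟩) ⟨?_, ?_⟩)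
  · intro β β' h
    have h0 : (ψ β).gl n = (ψ β').gl n := congrArg Subtype.val h
    have he : ψ β = ψ β' := ext_deg (hψ1 β).1 (hψ1 β').1 (fun x => congrFun h0 x)
    have h1 := hψ3 β _ (Multiset.coe_toList _)
    have h2 := hψ3 β' _ (Multiset.coe_toList _)
    rw [← he] at h2
    have hp := has_unique (hψ1 β) h1 h2
    rw [← Multiset.coe_eq_coe, Multiset.coe_toList, Multiset.coe_toList] at hp
    exact Subtype.ext (Multiset.map_injective Subtype.val_injective hp)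
  · rintro ⟨χ, hχ, hm⟩
    obtain ⟨φ, hφ, he⟩ := (irrC_ncard (F := F) n).2.2 hχ
    have he' : φ.gl n = χ := he
    subst he'
    obtain ⟨l, hl⟩ := exists_has hφ
    have hval : ((l : Multiset (UCF F)).pmap Subtype.mk
        (fun ρ hρ => hl.1.1 ρ (Multiset.mem_coe.1 hρ))).map Subtype.val = (l : Multiset (UCF F)) := by
      rw [Multiset.map_pmap]
      exact (Multiset.pmap_eq_map (p := IsCusp) id _ _).trans (Multiset.map_id _)
    have hsum : (((l : Multiset (UCF F)).pmap Subtype.mk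
        (fun ρ hρ => hl.1.1 ρ (Multiset.mem_coe.1 hρ))).map
          (fun ρ : {ρ : UCF F // IsCusp ρ} => dg ρ.1)).sum = n := by
      have : ((l : Multiset (UCF F)).pmap Subtype.mk
        (fun ρ hρ => hl.1.1 ρ (Multiset.mem_coe.1 hρ))).map
          (fun ρ : {ρ : UCF F // IsCusp ρ} => dg ρ.1) = (((l : Multiset (UCF F)).pmap Subtype.mk
        (fun ρ hρ => hl.1.1 ρ (Multiset.mem_coe.1 hρ))).map Subtype.val).map dg := by
        rw [Multiset.map_map]
        rfl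
      rw [this, hval, Multiset.map_coe, Multiset.sum_coe]
      exact hl.1.2
    refine ⟨⟨_, hsum⟩, ?_⟩
    apply Subtype.ext
    show (ψ _).gl n = φ.gl n
    have h1 := hψ3 ⟨_, hsum⟩ l hval.symm
    obtain ⟨ω, _, hω⟩ := generic_unique Ψ hΨ hl.1
    rw [hω _ ⟨hψ1 _, h1.2, hψ2 _⟩, hω φ ⟨hφ, hl.2, hm⟩]

end Pool.Agent.Lib.MP_fa0f6c_al.Cx.B
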