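import Mathlib

/-! Counting multisets (pure combinatorics). -/

set_option autoImplicit false

namespace Pool.Agent.Lib.MP_fa0f6c_al.Cx.B

/-- multisets of total degree `n` -/
def MSet {C : Type*} (deg : C → ℕ) (n : ℕ) : Type _ := {β : Multiset C // (β.map deg).sum = n}

private theorem B37_zero {C : Type*} (deg : C → ℕ) (hpos : ∀ c, 0 < deg c) (β : Multiset C)
    (h : (β.map deg).sum = 0) : β = 0 := by
  induction β using Multiset.induction_on with
  | empty => rfl
  | cons a s _ =>
    rw [Multiset.map_cons, Multiset.sum_cons] at h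
    have := hpos a
    omega

theorem mset_finite {C : Type*} (deg : C → ℕ) (hpos : ∀ c, 0 < deg c)
    (hfin : ∀ m, Finite {c // deg c = m}) (n : ℕ) : Finite (MSet deg n) := by
  induction n using Nat.strong_induction_on with
  | _ n ih =>
    rcases Nat.eq_zero_or_pos n with h0 | h0
    · subst h0
      have : Subsingleton (MSet deg 0) := by
        constructor
        rintro ⟨β, hβ⟩ ⟨γ, hγ⟩
        apply Subtype.ext
        show β = γ
        rw [B37_zero deg hpos β hβ, B37_zero deg hpos γ hγ]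
      infer_instance
    · have hf : ∀ m : Fin n, Finite ({c // deg c = (m : ℕ) + 1} × MSet deg (n - ((m : ℕ) + 1))) := by
        intro m
        have := hfin ((m : ℕ) + 1)
        have := ih (n - ((m : ℕ) + 1)) (by omega)
        infer_instance
      have : Finite (Σ m : Fin n, {c // deg c = (m : ℕ) + 1} × MSet deg (n - ((m : ℕ) + 1))) := by
        infer_instance
      let g : (Σ m : Fin n, {c // deg c = (m : ℕ) + 1} × MSet deg (n - ((m : ℕ) + 1))) →
          MSet deg n := fun x => ⟨x.2.1.1 ::ₘ x.2.2.1, by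
        rw [Multiset.map_cons, Multiset.sum_cons, x.2.1.2, x.2.2.2]
        have := x.1.2
        omega⟩
      refine Finite.of_surjective g ?_
      rintro ⟨β, hβ⟩
      have hne : β ≠ 0 := by
        rintro rfl
        simp at hβ
        omega
      obtain ⟨c, hc⟩ := Multiset.exists_mem_of_ne_zero hne
      obtain ⟨γ, rfl⟩ := Multiset.exists_cons_of_mem hc
      rw [Multiset.map_cons, Multiset.sum_cons] at hβ
      have hc0 := hpos c
      refine ⟨⟨⟨deg c - 1, by omega⟩, ⟨c, ?_⟩, ⟨γ, ?_⟩⟩, rfl⟩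
      · dsimp only; omega
      · dsimp only; omega

private theorem B37_count_mul_le {C : Type*} [DecidableEq C] (deg : C → ℕ) (β : Multiset C)
    (c : C) (j : ℕ) (hj : j ≤ β.count c) : j * deg c ≤ (β.map deg).sum := by
  have h1 : Multiset.replicate j c ≤ β := Multiset.le_count_iff_replicate_le.1 hj
  obtain ⟨γ, rfl⟩ := Multiset.le_iff_exists_add.1 h1
  rw [Multiset.map_add, Multiset.sum_add, Multiset.map_replicate, Multiset.sum_replicate,
    smul_eq_mul]
  omega

private theorem B37_shift {C : Type*} [DecidableEq C] (deg : C → ℕ) (n : ℕ) (c : C) (j : ℕ)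
    (h : j * deg c ≤ n) :
    Nat.card {β : MSet deg n // j ≤ β.1.count c} = Nat.card (MSet deg (n - j * deg c)) := by
  refine Nat.card_congr ⟨fun β => ⟨β.1.1 - Multiset.replicate j c, ?_⟩,
    fun γ => ⟨⟨γ.1 + Multiset.replicate j c, ?_⟩, ?_⟩, ?_, ?_⟩
  · have h1 : Multiset.replicate j c ≤ β.1.1 := Multiset.le_count_iff_replicate_le.1 β.2
    have h2 := β.1.2
    have h3 : β.1.1 - Multiset.replicate j c + Multiset.replicate j c = β.1.1 :=
      tsub_add_cancel_of_le h1
    rw [← h3, Multiset.map_add, Multiset.sum_add, Multiset.map_replicate, Multiset.sum_replicate,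
      smul_eq_mul] at h2
    omega
  · rw [Multiset.map_add, Multiset.sum_add, Multiset.map_replicate, Multiset.sum_replicate,
      smul_eq_mul, γ.2]
    omega
  · rw [Multiset.count_add, Multiset.count_replicate_self]
    omega
  · rintro ⟨⟨β, hβ⟩, hj⟩
    apply Subtype.ext
    apply Subtype.ext
    have h1 : Multiset.replicate j c ≤ β := Multiset.le_count_iff_replicate_le.1 hj
    exact tsub_add_cancel_of_le h1
  · rintro ⟨γ, hγ⟩
    apply Subtype.ext
    exact add_tsub_cancel_right _ _

private theorem B37_reindex (n d : ℕ) (hd : 1 ≤ d) (F : ℕ → ℕ) :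
    ∑ k ∈ Finset.Icc 1 n, (if d ∣ k then F k else 0) =
      ∑ j ∈ Finset.Icc 1 n, (if j * d ≤ n then F (j * d) else 0) := by
  rw [← Finset.sum_filter, ← Finset.sum_filter]
  symm
  refine Finset.sum_bij (fun j _ => j * d) ?_ ?_ ?_ ?_
  · intro j hj
    rw [Finset.mem_filter, Finset.mem_Icc] at hj ⊢
    refine ⟨⟨?_, hj.2⟩, Dvd.intro_left j rfl⟩
    exact Nat.mul_pos hj.1.1 hd
  · intro a _ b _ hab
    exact Nat.eq_of_mul_eq_mul_right hd hab
  · intro k hk
    rw [Finset.mem_filter, Finset.mem_Icc] at hk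
    obtain ⟨⟨h1, h2⟩, j, rfl⟩ := hk
    refine ⟨j, ?_, mul_comm j d⟩
    rw [Finset.mem_filter, Finset.mem_Icc]
    have hj : 1 ≤ j := by
      rcases Nat.eq_zero_or_pos j with h | h
      · rw [h] at h1
        omega
      · exact h
    refine ⟨⟨hj, ?_⟩, by rw [mul_comm]; exact h2⟩
    exact (Nat.le_mul_of_pos_left j hd).trans h2
  · intro j _
    rfl

/-- HINT: count the pairs `(β, c, j)` with `β ∈ MSet n` and `1 ≤ j ≤ count c β`, with weight `deg c`:
for fixed `β` the total weight is `n`; for fixed `c`, `j` the `β` correspond (`β - j • {c}`) to `MSet (n - j * deg c)`.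
Group by `k = j * deg c`: weight `∑_{d ∣ k} d * #{c // deg c = d}`. -/
theorem mset_rec {C : Type*} (deg : C → ℕ) (hpos : ∀ c, 0 < deg c)
    (hfin : ∀ m, Finite {c // deg c = m}) (n : ℕ) :
    n * Nat.card (MSet deg n) = ∑ k ∈ Finset.Icc 1 n, Nat.card (MSet deg (n - k)) *
      ∑ d ∈ k.divisors, d * Nat.card {c // deg c = d} := by
  classical
  have := mset_finite deg hpos hfin n
  have := Fintype.ofFinite (MSet deg n)
  have hS : Set.Finite {c | deg c ≤ n} := by
    have h1 : {c | deg c ≤ n} ⊆ ⋃ m ∈ Finset.range (n + 1), {c | deg c = m} := by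
      intro c hc
      simp only [Finset.mem_range, Set.mem_iUnion, Set.mem_ofPred_eq, exists_prop]
      exact ⟨deg c, Nat.lt_succ_of_le hc, rfl⟩
    refine Set.Finite.subset ?_ h1
    refine Set.Finite.biUnion (Finset.finite_toSet _) ?_
    intro m _
    exact Set.finite_coe_iff.1 (show Finite ↑{c | deg c = m} from hfin m)
  set S : Finset C := hS.toFinset with hSdef
  have hmemS : ∀ c, c ∈ S ↔ deg c ≤ n := by
    intro c
    simp [hSdef]
  -- the weight of a multiset
  have hw : ∀ β : MSet deg n, n = ∑ c ∈ S, ∑ j ∈ Finset.Icc 1 n,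
      (if j ≤ β.1.count c then deg c else 0) := by
    intro β
    have h1 : (β.1.map deg).sum = ∑ c ∈ β.1.toFinset, β.1.count c • deg c :=
      Finset.sum_multiset_map_count β.1 deg
    have h2 : β.1.toFinset ⊆ S := by
      intro c hc
      rw [Multiset.mem_toFinset] at hc
      rw [hmemS]
      have h3 := B37_count_mul_le deg β.1 c 1 (Multiset.one_le_count_iff_mem.2 hc)
      rw [one_mul, β.2] at h3
      exact h3
    rw [Finset.sum_subset h2] at h1
    · rw [β.2] at h1
      refine h1.trans ?_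
      refine Finset.sum_congr rfl fun c _ => ?_
      have h4 : β.1.count c ≤ n := by
        have h5 := B37_count_mul_le deg β.1 c _ le_rfl
        rw [β.2] at h5
        exact (Nat.le_mul_of_pos_right _ (hpos c)).trans h5
      rw [← Finset.sum_filter, Finset.sum_const]
      congr 1
      have h6 : (Finset.Icc 1 n).filter (fun j => j ≤ β.1.count c) =
          Finset.Icc 1 (β.1.count c) := by
        ext j
        rw [Finset.mem_filter, Finset.mem_Icc, Finset.mem_Icc]
        omega
      rw [h6, Nat.card_Icc]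
      omega
    · intro c _ hc
      rw [Multiset.mem_toFinset] at hc
      rw [Multiset.count_eq_zero_of_notMem hc, zero_smul]
  have h1 : n * Nat.card (MSet deg n) = ∑ _β : MSet deg n, n := by
    rw [Finset.sum_const, Finset.card_univ, smul_eq_mul, Nat.card_eq_fintype_card, mul_comm]
  have h2 : ∑ _β : MSet deg n, n = ∑ c ∈ S, ∑ j ∈ Finset.Icc 1 n,
      deg c * (if j * deg c ≤ n then Nat.card (MSet deg (n - j * deg c)) else 0) := by
    calc ∑ _β : MSet deg n, n = ∑ β : MSet deg n, ∑ c ∈ S, ∑ j ∈ Finset.Icc 1 n,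
          (if j ≤ β.1.count c then deg c else 0) := Finset.sum_congr rfl fun β _ => hw β
      _ = ∑ c ∈ S, ∑ β : MSet deg n, ∑ j ∈ Finset.Icc 1 n,
          (if j ≤ β.1.count c then deg c else 0) := Finset.sum_comm
      _ = ∑ c ∈ S, ∑ j ∈ Finset.Icc 1 n, ∑ β : MSet deg n,
          (if j ≤ β.1.count c then deg c else 0) :=
          Finset.sum_congr rfl fun c _ => Finset.sum_comm
      _ = _ := by
          refine Finset.sum_congr rfl fun c _ => Finset.sum_congr rfl fun j _ => ?_
          rw [← Finset.sum_filter, Finset.sum_const, smul_eq_mul, mul_comm]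
          congr 1
          have h3 : (Finset.univ.filter (fun β : MSet deg n => j ≤ β.1.count c)).card =
              Nat.card {β : MSet deg n // j ≤ β.1.count c} := by
            rw [Nat.card_eq_fintype_card, Fintype.card_subtype]
          rw [h3]
          by_cases h4 : j * deg c ≤ n
          · rw [if_pos h4]
            exact B37_shift deg n c j h4
          · rw [if_neg h4]
            have : IsEmpty {β : MSet deg n // j ≤ β.1.count c} := by
              constructor
              rintro ⟨β, hβ⟩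
              have h5 := B37_count_mul_le deg β.1 c j hβ
              rw [β.2] at h5
              exact h4 h5
            exact Nat.card_of_isEmpty
  rw [h1, h2]
  -- group by the degree
  have h3 : ∑ c ∈ S, ∑ j ∈ Finset.Icc 1 n,
      deg c * (if j * deg c ≤ n then Nat.card (MSet deg (n - j * deg c)) else 0) =
      ∑ d ∈ Finset.Icc 1 n, Nat.card {c // deg c = d} * ∑ j ∈ Finset.Icc 1 n,
      d * (if j * d ≤ n then Nat.card (MSet deg (n - j * d)) else 0) := by
    rw [← Finset.sum_fiberwise_of_maps_to (s := S) (t := Finset.Icc 1 n) (g := deg)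
      (fun c hc => Finset.mem_Icc.2 ⟨hpos c, (hmemS c).1 hc⟩)]
    refine Finset.sum_congr rfl fun d hd => ?_
    rw [Finset.mem_Icc] at hd
    have h4 : Nat.card {c // deg c = d} = (S.filter (fun c => deg c = d)).card := by
      refine Nat.subtype_card _ ?_
      intro c
      rw [Finset.mem_filter, hmemS]
      constructor
      · exact fun h => h.2
      · intro h
        exact ⟨by omega, h⟩
    rw [h4, ← smul_eq_mul, ← Finset.sum_const]
    refine Finset.sum_congr rfl fun c hc => ?_
    rw [Finset.mem_filter] at hc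
    rw [hc.2]
  rw [h3]
  -- the right side
  have h5 : ∀ k ∈ Finset.Icc 1 n, Nat.card (MSet deg (n - k)) *
      ∑ d ∈ k.divisors, d * Nat.card {c // deg c = d} =
      ∑ d ∈ Finset.Icc 1 n, (if d ∣ k then
        Nat.card (MSet deg (n - k)) * (d * Nat.card {c // deg c = d}) else 0) := by
    intro k hk
    rw [Finset.mem_Icc] at hk
    rw [Finset.mul_sum, ← Finset.sum_filter]
    refine Finset.sum_congr ?_ fun _ _ => rfl
    ext d
    rw [Nat.mem_divisors, Finset.mem_filter, Finset.mem_Icc]
    constructor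
    · rintro ⟨h6, h7⟩
      exact ⟨⟨Nat.pos_of_dvd_of_pos h6 (by omega), (Nat.le_of_dvd (by omega) h6).trans hk.2⟩, h6⟩
    · rintro ⟨_, h6⟩
      exact ⟨h6, by omega⟩
  rw [Finset.sum_congr rfl h5, Finset.sum_comm]
  refine Finset.sum_congr rfl fun d hd => ?_
  rw [Finset.mem_Icc] at hd
  rw [B37_reindex n d hd.1 (fun k => Nat.card (MSet deg (n - k)) * (d * Nat.card {c // deg c = d})),
    Finset.mul_sum]
  refine Finset.sum_congr rfl fun j _ => ?_
  split_ifs
  · ring
  · ring

private theorem B37_T (Q : ℤ) (E S : ℕ → ℤ) (hE0 : E 0 = 1) (hE : ∀ m, E (m + 1) = (Q - 1) * Q ^ m)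
    (hS : ∀ k, S k = Q ^ k - 1) (n : ℕ) :
    ∑ k ∈ Finset.Icc 1 (n + 1), E (n + 1 - k) * S k = (n + 1) * ((Q - 1) * Q ^ n) := by
  induction n with
  | zero => simp [hE0, hS]
  | succ n ih =>
    rw [Finset.sum_Icc_succ_top (by omega)]
    have h1 : ∑ k ∈ Finset.Icc 1 (n + 1), E (n + 1 + 1 - k) * S k =
        Q * ∑ k ∈ Finset.Icc 1 (n + 1), E (n + 1 - k) * S k - S (n + 1) := by
      rw [Finset.sum_Icc_succ_top (by omega), Finset.sum_Icc_succ_top (by omega), mul_add,
        Finset.mul_sum]
      have h2 : ∀ k ∈ Finset.Icc 1 n, E (n + 1 + 1 - k) * S k = Q * (E (n + 1 - k) * S k) := by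
        intro k hk
        rw [Finset.mem_Icc] at hk
        obtain ⟨r, hr⟩ : ∃ r, n = k + r := ⟨n - k, by omega⟩
        have e1 : n + 1 + 1 - k = (r + 1) + 1 := by omega
        have e2 : n + 1 - k = r + 1 := by omega
        rw [e1, e2, hE, hE]
        ring
      rw [Finset.sum_congr rfl h2]
      have e3 : n + 1 + 1 - (n + 1) = 0 + 1 := by omega
      have e4 : n + 1 - (n + 1) = 0 := by omega
      rw [e3, e4, hE, hE0]
      ring
    rw [h1, ih]
    have e5 : n + 1 + 1 - (n + 1 + 1) = 0 := by omega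
    rw [e5, hE0, hS, hS]
    push_cast
    ring

/-- HINT: with `e n = card (MSet n)`, `e 0 = 1`, `s k = ∑_{d ∣ k} d c_d`: strong induction with `mset_rec` gives
`s k = Q ^ k - 1` for all `k ≥ 1`; then `k = 1` and `k = m` prime. -/
theorem mset_count {C : Type*} (deg : C → ℕ) (hpos : ∀ c, 0 < deg c)
    (hfin : ∀ m, Finite {c // deg c = m}) (Q : ℕ) (hQ : 2 ≤ Q)
    (h : ∀ n, 0 < n → Nat.card (MSet deg n) = (Q - 1) * Q ^ (n - 1)) :
    Nat.card {c // deg c = 1} = Q - 1 ∧
      ∀ m : ℕ, m.Prime → m * Nat.card {c // deg c = m} = Q ^ m - Q := by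
  have he0 : Nat.card (MSet deg 0) = 1 := by
    rw [Nat.card_eq_one_iff_unique]
    refine ⟨⟨?_⟩, ⟨⟨0, by simp⟩⟩⟩
    rintro ⟨β, hβ⟩ ⟨γ, hγ⟩
    apply Subtype.ext
    show β = γ
    rw [B37_zero deg hpos β hβ, B37_zero deg hpos γ hγ]
  set s : ℕ → ℕ := fun k => ∑ d ∈ k.divisors, d * Nat.card {c // deg c = d} with hs
  set E : ℕ → ℤ := fun m => (Nat.card (MSet deg m) : ℤ) with hEdef
  have hE0 : E 0 = 1 := by simp [hEdef, he0]
  have hE : ∀ m, E (m + 1) = ((Q : ℤ) - 1) * (Q : ℤ) ^ m := by
    intro m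
    simp only [hEdef, h (m + 1) (by omega), Nat.add_sub_cancel]
    push_cast [Nat.cast_sub (show 1 ≤ Q by omega)]
    ring
  have hsQ : ∀ k, 1 ≤ k → (s k : ℤ) = (Q : ℤ) ^ k - 1 := by
    intro k
    induction k using Nat.strong_induction_on with
    | _ k ih =>
      intro hk
      obtain ⟨n, rfl⟩ : ∃ n, k = n + 1 := ⟨k - 1, by omega⟩
      have h1 := mset_rec deg hpos hfin (n + 1)
      have h2 : ((n + 1 : ℕ) : ℤ) * E (n + 1) =
          ∑ k ∈ Finset.Icc 1 (n + 1), E (n + 1 - k) * (s k : ℤ) := by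
        simp only [hEdef, hs]
        exact_mod_cast h1
      have h3 := B37_T (Q : ℤ) E (fun k => (Q : ℤ) ^ k - 1) hE0 hE (fun _ => rfl) n
      rw [Finset.sum_Icc_succ_top (by omega)] at h2 h3
      have h4 : ∑ k ∈ Finset.Icc 1 n, E (n + 1 - k) * (s k : ℤ) =
          ∑ k ∈ Finset.Icc 1 n, E (n + 1 - k) * ((Q : ℤ) ^ k - 1) := by
        refine Finset.sum_congr rfl fun j hj => ?_
        rw [Finset.mem_Icc] at hj
        rw [ih j (by omega) hj.1]
      have e4 : n + 1 - (n + 1) = 0 := by omega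
      rw [h4, e4, hE0, hE] at h2
      rw [e4, hE0] at h3
      push_cast at h2
      linarith
  have hs1 : s 1 = Nat.card {c // deg c = 1} := by simp [hs]
  have hc1 : Nat.card {c // deg c = 1} = Q - 1 := by
    have h1 := hsQ 1 le_rfl
    rw [hs1, pow_one] at h1
    omega
  refine ⟨hc1, ?_⟩
  intro m hm
  have h1 := hsQ m hm.one_le
  have h2 : s m = Nat.card {c // deg c = 1} + m * Nat.card {c // deg c = m} := by
    simp only [hs]
    rw [hm.sum_divisors, one_mul, add_comm]
  rw [h2, hc1] at h1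
  have h3 : Q ≤ Q ^ m := Nat.le_self_pow hm.ne_zero Q
  have h4 : ((Q ^ m - Q : ℕ) : ℤ) = (Q : ℤ) ^ m - Q := by
    push_cast [Nat.cast_sub h3]
    ring
  have h5 : ((Q - 1 : ℕ) : ℤ) = (Q : ℤ) - 1 := by
    push_cast [Nat.cast_sub (show 1 ≤ Q by omega)]
    ring
  push_cast at h1
  rw [h5] at h1
  have h6 : ((m * Nat.card {c // deg c = m} : ℕ) : ℤ) = ((Q ^ m - Q : ℕ) : ℤ) := by
    rw [h4]
    push_cast
    linarith
  exact_mod_cast h6

end Pool.Agent.Lib.MP_fa0f6c_al.Cx.B
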