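import Mathlib
import Pool.Agent.Lib.MP_fa0f6c_al.Cx.Defs
import Pool.Agent.Lib.MP_fa0f6c_al.Cx.BDefs
import Pool.Agent.Lib.MP_fa0f6c_al.Cx.B36
import Pool.Agent.Lib.MP_fa0f6c_al.Cx.B37

/-! The number of cuspidal characters. -/

set_option autoImplicit false

namespace Pool.Agent.Lib.MP_fa0f6c_al.Cx.B

variable {F : Type} [Field F] [Finite F]

theorem cuspNum_eq (m : ℕ) (hm : 0 < m) :
    cuspNum F m = Nat.card {c : {ρ : UCF F // IsCusp ρ} // dg c.1 = m} := by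
  unfold cuspNum
  rw [← Nat.card_coe_set_eq]
  refine Nat.card_congr (Equiv.ofBijective
    (fun ρ : {ρ : UCF F | Cusp m ρ} => ⟨⟨ρ.1, m, ρ.2⟩, dg_eq ρ.2⟩) ⟨?_, ?_⟩)
  · intro ρ ρ' h
    have h1 := congrArg (fun c : {c : {ρ : UCF F // IsCusp ρ} // dg c.1 = m} => c.1.1) h
    exact Subtype.ext h1
  · rintro ⟨⟨ρ, m', h'⟩, h⟩
    have h1 : m' = m := by rw [← h]; exact (dg_eq h').symm
    subst h1
    exact ⟨⟨ρ, h'⟩, rfl⟩

/-- HINT: `mset_count` for `C = {ρ // IsCusp ρ}`, `deg = dg`, `multiset_card`; finiteness by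
`irrC_finite`. -/
theorem cuspNum_formula (F : Type) [Field F] [Finite F] :
    cuspNum F 1 = Nat.card F - 1 ∧
    ∀ m : ℕ, m.Prime → m * cuspNum F m = Nat.card F ^ m - Nat.card F := by
  have hpos : ∀ c : {ρ : UCF F // IsCusp ρ}, 0 < dg c.1 := by
    rintro ⟨ρ, m, h⟩
    show 0 < dg ρ
    rw [dg_eq h]
    exact h.1
  have hfin : ∀ m, Finite {c : {ρ : UCF F // IsCusp ρ} // dg c.1 = m} := by
    intro m
    have hf := (irrC_finite F m).to_subtype
    refine Finite.of_injective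
      (fun c : {c : {ρ : UCF F // IsCusp ρ} // dg c.1 = m} => (⟨c.1.1, ?_⟩ : IrrC F m)) ?_
    · obtain ⟨m', h'⟩ := c.1.2
      have h1 : m' = m := by rw [← c.2]; exact (dg_eq h').symm
      exact h1 ▸ h'.2.1
    · intro c c' h
      have h1 : c.1.1 = c'.1.1 := congrArg (fun z : IrrC F m => z.1) h
      exact Subtype.ext (Subtype.ext h1)
  have hQ : 2 ≤ Nat.card F := Finite.one_lt_card
  obtain ⟨h1, h2⟩ := mset_count (fun c : {ρ : UCF F // IsCusp ρ} => dg c.1) hpos hfin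
    (Nat.card F) hQ (fun n hn => multiset_card hn)
  refine ⟨?_, fun m hm => ?_⟩
  · rw [cuspNum_eq 1 one_pos]
    exact h1
  · rw [cuspNum_eq m hm.pos]
    exact h2 m hm

end Pool.Agent.Lib.MP_fa0f6c_al.Cx.B
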