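import Mathlib
import Pool.Agent.Lib.MP_fa0f6c_al.Cx.Defs
import Pool.Agent.Lib.MP_fa0f6c_al.Cx.BDefs
import Pool.Agent.Lib.MP_fa0f6c_al.Cx.B19

set_option autoImplicit false

namespace Pool.Agent.Lib.MP_fa0f6c_al.Cx.B

open scoped ComplexConjugate

variable {F : Type} [Field F] [Finite F]

private theorem b20_single {m : ℕ} {ρ : UCF F} (hρ : Cusp m ρ) : Has m ρ [ρ] := by
  refine ⟨⟨fun σ hσ => ?_, ?_⟩, ?_⟩
  · rw [List.mem_singleton] at hσ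
    rw [hσ]
    exact ⟨m, hρ⟩
  · rw [List.map_singleton, List.sum_singleton, dg_eq hρ]
  · rw [List.prod_cons, List.prod_nil, mul_one, ipn_irr hρ.2.1 hρ.2.1, if_pos rfl]
    exact one_ne_zero

/-- HINT: if `dr m ρ ψ ≠ 0` then it has degree `n - m` (or `m > n` and it is `0`, `dr_of_lt`), it is a character
(`natC_dr`) and has a constituent `b`; `ipn (ρ * b) ψ = ipn b (dr ρ ψ) ≠ 0`; with `Has b l₁` (`exists_has`)
we get `Has ψ (ρ :: l₁)` (`has_mul` with `[ρ]`), so `ρ ∈ l` by `has_unique`. -/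
theorem dr_eq_zero {m n : ℕ} {ρ ψ : UCF F} (hρ : Cusp m ρ) (hψ : ψ ∈ IrrC F n)
    {l : List (UCF F)} (hl : Has n ψ l) (h : ρ ∉ l) : dr m ρ ψ = 0 := by
  by_contra hne
  rcases lt_or_ge n m with hnm | hnm
  · exact hne (dr_of_lt ρ hψ.1 hnm)
  · obtain ⟨k, rfl⟩ := Nat.exists_eq_add_of_le hnm
    have h1 : NatC k (dr m ρ ψ) := natC_dr (natC_irr hρ.2.1) (natC_irr hψ)
    obtain ⟨b, hb, hb'⟩ := natC_exists h1 hne
    have h2 : ipn (m + k) (ρ * b) ψ ≠ 0 := by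
      rw [ipn_dr ψ hρ.2.1.1 hb.1, natC_symm (natC_irr hb) h1]
      exact hb'
    obtain ⟨l₁, hl₁⟩ := exists_has hb
    have h3 := has_mul hρ.2.1 hb hψ (b20_single hρ) hl₁ h2
    have h4 := has_unique hψ hl h3
    exact h (h4.mem_iff.2 (by simp))

/-- HINT: `ipn (ρ*b) (ρ*b) = ipn b (dr ρ (ρ * b)) = ipn b (b + ρ * dr ρ b) = 1`. -/
theorem cusp_mul_irr {m n : ℕ} {ρ b : UCF F} (hρ : Cusp m ρ) (hb : b ∈ IrrC F n)
    {l : List (UCF F)} (hl : Has n b l) (h : ρ ∉ l) :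
    ρ * b ∈ IrrC F (m + n) ∧ Has (m + n) (ρ * b) (ρ :: l) := by
  have h1 : ipn (m + n) (ρ * b) (ρ * b) = 1 := by
    rw [ipn_dr (ρ * b) hρ.2.1.1 hb.1, dr_mul hρ, dr_cusp hρ hρ, if_pos rfl, dr_eq_zero hρ hb hl h,
      one_mul, mul_zero, add_zero, ipn_irr hb hb, if_pos rfl]
  have h2 : ρ * b ∈ IrrC F (m + n) :=
    irrC_of_norm_one (natC_mul (natC_irr hρ.2.1) (natC_irr hb)) h1
  refine ⟨h2, ?_⟩
  exact has_mul hρ.2.1 hb h2 (b20_single hρ) hl (by rw [h1]; exact one_ne_zero)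

/-- HINT: `ipn (ρ * l.prod) ψ = ipn l.prod (dr ρ ψ) ≠ 0`: choose a common constituent `b`
(`exists_common`). Then `Has b l`, `ipn (ρ * b) ψ = ipn b (dr ρ ψ) ≠ 0` and both are irreducible. -/
theorem peel {m n : ℕ} {ρ ψ : UCF F} (hρ : Cusp m ρ) (hψ : ψ ∈ IrrC F (m + n))
    {l : List (UCF F)} (hl : Has (m + n) ψ (ρ :: l)) (h : ρ ∉ l) :
    ∃ b ∈ IrrC F n, Has n b l ∧ ψ = ρ * b := by
  have hc : CL n l := by
    refine ⟨fun σ hσ => hl.1.1 σ (List.mem_cons_of_mem _ hσ), ?_⟩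
    have h1 := hl.1.2
    rw [List.map_cons, List.sum_cons, dg_eq hρ] at h1
    omega
  have h1 : NatC n (dr m ρ ψ) := natC_dr (natC_irr hρ.2.1) (natC_irr hψ)
  have h2 : ipn n l.prod (dr m ρ ψ) ≠ 0 := by
    rw [← ipn_dr ψ hρ.2.1.1 (natC_list hc).1]
    have := hl.2
    rwa [List.prod_cons] at this
  obtain ⟨b, hb, hb1, hb2⟩ := exists_common (natC_list hc) h1 h2
  refine ⟨b, hb, ⟨hc, hb1⟩, ?_⟩
  have h3 := cusp_mul_irr hρ hb ⟨hc, hb1⟩ h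
  rw [← ipn_dr' ψ hρ.2.1.1 hb.1, ipn_irr hψ h3.1] at hb2
  by_contra hne
  exact hb2 (if_neg hne)

/-- HINT: `ipn_list`, `mt_self_nodup`, `irrC_of_norm_one`. -/
theorem nodup_irr {n : ℕ} {l : List (UCF F)} (h : CL n l) (hl : l.Nodup) :
    l.prod ∈ IrrC F n := by
  refine irrC_of_norm_one (natC_list h) ?_
  rw [ipn_list h h, mt_self_nodup hl]
  norm_num

theorem has_nodup {n : ℕ} {ψ : UCF F} (hψ : ψ ∈ IrrC F n) {l : List (UCF F)}
    (h : Has n ψ l) (hl : l.Nodup) : ψ = l.prod := by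
  have h1 := h.2
  rw [ipn_irr (nodup_irr h.1 hl) hψ] at h1
  by_contra hne
  exact h1 (if_neg (fun h2 => hne h2.symm))

end Pool.Agent.Lib.MP_fa0f6c_al.Cx.B
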