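import Mathlib
import Pool.Agent.Lib.MP_fa0f6c_al.Cx.Defs
import Pool.Agent.Lib.MP_fa0f6c_al.Cx.BDefs
import Pool.Agent.Lib.MP_fa0f6c_al.Cx.B20
import Pool.Agent.Lib.MP_fa0f6c_al.Cx.B35

/-! The numbers `h(ψ) = |GL_n| / ψ(1)`. -/

set_option autoImplicit false

namespace Pool.Agent.Lib.MP_fa0f6c_al.Cx.B

open scoped ComplexConjugate

variable {F : Type} [Field F] [Finite F]

/-- `H n f k`: the character `f` of `GL_n` has integral degree `d > 0` and `|GL_n| = d * k`. -/
def H (n : ℕ) (f : UCF F) (k : ℕ) : Prop :=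
  ∃ d : ℕ, 0 < d ∧ f.gl n 1 = d ∧ Nat.card (Matrix.GeneralLinearGroup (Fin n) F) = d * k

private theorem B40_card_pos (n : ℕ) :
    0 < Nat.card (Matrix.GeneralLinearGroup (Fin n) F) := by
  have : Finite (Matrix.GeneralLinearGroup (Fin n) F) := inferInstance
  exact Nat.card_pos

/-- HINT: `irrC_dim`. -/
theorem exists_H {n : ℕ} {ψ : UCF F} (hψ : ψ ∈ IrrC F n) : ∃ k, 0 < k ∧ H n ψ k := by
  obtain ⟨d, hd, h1, k, hk⟩ := irrC_dim hψ
  refine ⟨k, ?_, d, hd, h1, hk⟩
  have h2 := B40_card_pos (F := F) n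
  rw [hk] at h2
  exact Nat.pos_of_mul_pos_left h2

theorem H_unique {n : ℕ} {ψ : UCF F} {k k' : ℕ} (h : H n ψ k) (h' : H n ψ k') : k = k' := by
  obtain ⟨d, hd, h1, h2⟩ := h
  obtain ⟨d', hd', h1', h2'⟩ := h'
  have h3 : d = d' := by
    rw [h1] at h1'
    exact_mod_cast h1'
  subst h3
  rw [h2] at h2'
  exact Nat.eq_of_mul_eq_mul_left hd h2'

/-- HINT: `mul_dim`. -/
theorem H_mul {m n : ℕ} {f g : UCF F} (hf : Deg f m) (hg : Deg g n) {a b : ℕ} (ha : H m f a)
    (hb : H n g b) (hd : ∃ D : ℕ, 0 < D ∧ (f * g).gl (m + n) 1 = D) :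
    H (m + n) (f * g) (Nat.card F ^ (m * n) * a * b) := by
  obtain ⟨d, hd0, h1, h2⟩ := ha
  obtain ⟨d', hd0', h1', h2'⟩ := hb
  obtain ⟨D, hD, h3⟩ := hd
  refine ⟨D, hD, h3, ?_⟩
  have h4 := mul_dim hf hg
  rw [h3, h1, h1', h2, h2'] at h4
  have h5 : D * (d * a) * (d' * b) * Nat.card F ^ (m * n)
      = Nat.card (Matrix.GeneralLinearGroup (Fin (m + n)) F) * d * d' := by
    exact_mod_cast h4
  apply Nat.eq_of_mul_eq_mul_right (Nat.mul_pos hd0 hd0')
  calc Nat.card (Matrix.GeneralLinearGroup (Fin (m + n)) F) * (d * d')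
      = Nat.card (Matrix.GeneralLinearGroup (Fin (m + n)) F) * d * d' := by ring
    _ = D * (d * a) * (d' * b) * Nat.card F ^ (m * n) := h5.symm
    _ = _ := by ring

/-- HINT: `cusp_wh`, `card_GL_formula`. -/
theorem H_cusp {m : ℕ} {ρ : UCF F} (hρ : Cusp m ρ) :
    H m ρ (Nat.card F ^ (m * (m - 1) / 2) * (Nat.card F ^ m - 1)) := by
  have hQ : 1 < Nat.card F := Finite.one_lt_card
  obtain ⟨Ψ, hΨ⟩ := (AddChar.exists_apply_ne_zero (α := F) (a := 1)).2 one_ne_zero
  obtain ⟨-, h1⟩ := cusp_wh Ψ ⟨1, hΨ⟩ hρ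
  refine ⟨∏ i ∈ Finset.range (m - 1), (Nat.card F ^ (i + 1) - 1), ?_, ?_, ?_⟩
  · apply Finset.prod_pos
    intro i _
    have : 1 < Nat.card F ^ (i + 1) := Nat.one_lt_pow (by omega) hQ
    omega
  · rw [h1, Nat.cast_prod]
    refine Finset.prod_congr rfl fun i _ => ?_
    rw [Nat.cast_sub (Nat.one_le_pow _ _ (by omega)), Nat.cast_pow, Nat.cast_one]
  · rw [card_GL_formula m hρ.1]
    ring

/-- HINT: induction on `l`: `nodup_irr`, `H_mul`, `H_cusp`;
`(m + n)(m + n - 1)/2 = m(m-1)/2 + n(n-1)/2 + m n`. -/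
theorem H_nodup {n : ℕ} {l : List (UCF F)} (h : CL n l) (hl : l.Nodup) :
    H n l.prod (Nat.card F ^ (n * (n - 1) / 2) *
      (l.map (fun ρ => Nat.card F ^ dg ρ - 1)).prod) := by
  induction l generalizing n with
  | nil =>
    have hn : n = 0 := by
      have := h.2
      simpa using this.symm
    subst hn
    have h1 : (1 : UCF F) ∈ IrrC F 0 := by
      rw [irrC_zero]
      exact Set.mem_singleton _
    obtain ⟨k, -, hk⟩ := exists_H h1
    have hk1 : k = 1 := by
      obtain ⟨d, -, -, h3⟩ := hk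
      have h4 : Nat.card (Matrix.GeneralLinearGroup (Fin 0) F) = 1 := by
        have : Subsingleton (Matrix.GeneralLinearGroup (Fin 0) F) :=
          ⟨fun a b => Units.ext (Subsingleton.elim _ _)⟩
        exact Nat.card_unique
      rw [h4] at h3
      exact Nat.eq_one_of_mul_eq_one_left h3.symm
    rw [hk1] at hk
    simpa using hk
  | cons ρ l ih =>
    obtain ⟨m, hm⟩ := h.1 ρ (List.mem_cons_self)
    have hdg := dg_eq hm
    have hsum : m + (l.map dg).sum = n := by
      have := h.2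
      rwa [List.map_cons, List.sum_cons, hdg] at this
    set n₁ := (l.map dg).sum with hn₁
    have hCL : CL n₁ l := ⟨fun τ hτ => h.1 τ (List.mem_cons_of_mem _ hτ), rfl⟩
    have hnd : l.Nodup := (List.nodup_cons.1 hl).2
    have h1 := ih hCL hnd
    have h2 := nodup_irr hCL hnd
    have h3 := nodup_irr h hl
    subst hsum
    obtain ⟨D, hD, h4, -⟩ := irrC_dim h3
    rw [List.prod_cons] at h4
    have h5 := H_mul hm.2.1.1 h2.1 (H_cusp hm) h1 ⟨D, hD, h4⟩
    rw [List.prod_cons, List.map_cons, List.prod_cons, hdg]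
    have h6 : (m + n₁) * (m + n₁ - 1) / 2 = m * (m - 1) / 2 + n₁ * (n₁ - 1) / 2 + m * n₁ := by
      have e1 : ∀ a : ℕ, 2 * (a * (a - 1) / 2) = a * (a - 1) := fun a =>
        Nat.mul_div_cancel' (Nat.even_mul_pred_self a).two_dvd
      have e2 := e1 (m + n₁)
      have e3 := e1 m
      have e4 := e1 n₁
      have e5 : (m + n₁) * (m + n₁ - 1) = m * (m - 1) + n₁ * (n₁ - 1) + 2 * (m * n₁) := by
        rcases Nat.eq_zero_or_pos m with hm0 | hm0
        · subst hm0; simp
        rcases Nat.eq_zero_or_pos n₁ with hn0 | hn0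
        · rw [hn0]; simp
        obtain ⟨a, rfl⟩ : ∃ a, m = a + 1 := ⟨m - 1, by omega⟩
        obtain ⟨c, hc⟩ : ∃ c, n₁ = c + 1 := ⟨n₁ - 1, by omega⟩
        rw [hc]
        have e6 : a + 1 + (c + 1) - 1 = a + c + 1 := by omega
        rw [e6, Nat.add_sub_cancel, Nat.add_sub_cancel]
        ring
      omega
    rw [h6, pow_add, pow_add]
    have h7 : Nat.card F ^ (m * n₁) * (Nat.card F ^ (m * (m - 1) / 2) * (Nat.card F ^ m - 1)) *
        (Nat.card F ^ (n₁ * (n₁ - 1) / 2) * (l.map (fun ρ => Nat.card F ^ dg ρ - 1)).prod)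
        = Nat.card F ^ (m * (m - 1) / 2) * Nat.card F ^ (n₁ * (n₁ - 1) / 2) *
          Nat.card F ^ (m * n₁) *
          ((Nat.card F ^ m - 1) * (l.map (fun ρ => Nat.card F ^ dg ρ - 1)).prod) := by ring
    rw [← h7]
    exact h5

private theorem B40_all_one {n : ℕ} {l : List (UCF F)} (h : CL n l) (h1 : ∀ ρ ∈ l, ¬ 1 < dg ρ) :
    (l.map dg).count 1 = n ∧ (l.map dg).filter (fun m => 1 < m) = [] := by
  have h2 : ∀ ρ ∈ l, dg ρ = 1 := by
    intro ρ hρ
    obtain ⟨m, hm⟩ := h.1 ρ hρ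
    have h3 := h1 ρ hρ
    have h4 := dg_eq hm
    have h5 := hm.1
    omega
  have h3 : l.map dg = List.replicate l.length 1 := by
    rw [List.eq_replicate_iff]
    refine ⟨by simp, ?_⟩
    intro b hb
    obtain ⟨ρ, hρ, rfl⟩ := List.mem_map.1 hb
    exact h2 ρ hρ
  refine ⟨?_, ?_⟩
  · have h4 := h.2
    rw [h3] at h4 ⊢
    rw [List.sum_replicate, smul_eq_mul, mul_one] at h4
    rw [List.count_replicate_self, h4]
  · rw [h3, List.filter_eq_nil_iff]
    intro a ha
    have := List.eq_of_mem_replicate ha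
    simp [this]

private theorem B40_peel (N : ℕ) : ∀ {n : ℕ} {ψ : UCF F} (_ : ψ ∈ IrrC F n) {l : List (UCF F)}
    (_ : l.length = N) (_ : Has n ψ l) (_ : ∀ m, 1 < m → (l.map dg).count m ≤ 1),
    ∃ b ∈ IrrC F ((l.map dg).count 1), ∃ e k : ℕ, H ((l.map dg).count 1) b k ∧
      H n ψ (Nat.card F ^ e *
        (((l.map dg).filter (fun m => 1 < m)).map (fun m => Nat.card F ^ m - 1)).prod * k) := by
  induction N with
  | zero =>
    intro n ψ hψ l hN hl hc
    have hl0 : l = [] := List.length_eq_zero_iff.1 hN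
    obtain ⟨h1, h2⟩ := B40_all_one hl.1 (by rw [hl0]; intro ρ hρ; exact absurd hρ List.not_mem_nil)
    rw [h1, h2]
    obtain ⟨k, -, hk⟩ := exists_H hψ
    refine ⟨ψ, hψ, 0, k, hk, ?_⟩
    simpa using hk
  | succ N ih =>
    intro n ψ hψ l hN hl hc
    by_cases hall : ∀ ρ ∈ l, ¬ 1 < dg ρ
    · obtain ⟨h1, h2⟩ := B40_all_one hl.1 hall
      rw [h1, h2]
      obtain ⟨k, -, hk⟩ := exists_H hψ
      refine ⟨ψ, hψ, 0, k, hk, ?_⟩
      simpa using hk
    · push Not at hall
      obtain ⟨ρ, hρl, hρ1⟩ := hall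
      obtain ⟨s, t, rfl⟩ := List.mem_iff_append.1 hρl
      set l₁ := s ++ t with hl₁
      have hperm : (s ++ ρ :: t).Perm (ρ :: l₁) := List.perm_middle
      have hmap : ((s ++ ρ :: t).map dg).Perm (dg ρ :: l₁.map dg) := by
        have := hperm.map dg
        rwa [List.map_cons] at this
      have hlen : l₁.length = N := by
        have := hperm.length_eq
        rw [hN, List.length_cons] at this
        omega
      obtain ⟨m, hm⟩ := hl.1.1 ρ hρl
      have hdg := dg_eq hm
      have hHas := has_perm hl hperm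
      have hnot : ρ ∉ l₁ := by
        intro hmem
        have h1 := hc (dg ρ) hρ1
        rw [hmap.count_eq, List.count_cons_self] at h1
        have h2 : 0 < (l₁.map dg).count (dg ρ) :=
          List.count_pos_iff.2 (List.mem_map_of_mem hmem)
        omega
      set n₁ := (l₁.map dg).sum with hn₁
      have hsum : m + n₁ = n := by
        have := hHas.1.2
        rwa [List.map_cons, List.sum_cons, hdg] at this
      subst hsum
      obtain ⟨b₁, hb₁, hHas₁, hψb⟩ := peel hm hψ hHas hnot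
      have hc₁ : ∀ m, 1 < m → (l₁.map dg).count m ≤ 1 := by
        intro m' hm'
        have h1 := hc m' hm'
        rw [hmap.count_eq, List.count_cons] at h1
        omega
      obtain ⟨b, hb, e, k, hbk, hk⟩ := ih hb₁ hlen hHas₁ hc₁
      have hcount : ((s ++ ρ :: t).map dg).count 1 = (l₁.map dg).count 1 := by
        rw [hmap.count_eq, List.count_cons_of_ne (by omega)]
      have hprod : ((((s ++ ρ :: t).map dg).filter (fun m => 1 < m)).map
          (fun m => Nat.card F ^ m - 1)).prod = (Nat.card F ^ m - 1) *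
          (((l₁.map dg).filter (fun m => 1 < m)).map (fun m => Nat.card F ^ m - 1)).prod := by
        have h1 := ((hmap.filter (fun m => 1 < m)).map (fun m => Nat.card F ^ m - 1)).prod_eq
        rw [h1, List.filter_cons_of_pos (by simpa using hρ1), List.map_cons, List.prod_cons, hdg]
      rw [hcount, hprod]
      have hdim : ∃ D : ℕ, 0 < D ∧ (ρ * b₁).gl (m + n₁) 1 = D := by
        obtain ⟨D, hD, h4, -⟩ := irrC_dim hψ
        rw [hψb] at h4
        exact ⟨D, hD, h4⟩
      have h5 := H_mul hm.2.1.1 hb₁.1 (H_cusp hm) hk hdim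
      rw [← hψb] at h5
      refine ⟨b, hb, m * n₁ + m * (m - 1) / 2 + e, k, hbk, ?_⟩
      have h7 : Nat.card F ^ (m * n₁ + m * (m - 1) / 2 + e) * ((Nat.card F ^ m - 1) *
          (((l₁.map dg).filter (fun m => 1 < m)).map (fun m => Nat.card F ^ m - 1)).prod) * k
          = Nat.card F ^ (m * n₁) * (Nat.card F ^ (m * (m - 1) / 2) * (Nat.card F ^ m - 1)) *
            (Nat.card F ^ e * (((l₁.map dg).filter (fun m => 1 < m)).map
              (fun m => Nat.card F ^ m - 1)).prod * k) := by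
        rw [pow_add, pow_add]
        ring
      rw [h7]
      exact h5

/-- HINT: induction on the number of elements of degree `> 1`; by `has_perm` we may assume that one of
them, `ρ`, is the first one; it does not occur again (its degree occurs once); `peel` and `H_mul`, `H_cusp`.
If all degrees are `1` then `n = s`, `b = ψ`. -/
theorem H_peel {n : ℕ} {ψ : UCF F} (hψ : ψ ∈ IrrC F n) {l : List (UCF F)} (hl : Has n ψ l)
    (hc : ∀ m, 1 < m → (l.map dg).count m ≤ 1) :
    ∃ b ∈ IrrC F ((l.map dg).count 1), ∃ e k : ℕ, H ((l.map dg).count 1) b k ∧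
      H n ψ (Nat.card F ^ e *
        (((l.map dg).filter (fun m => 1 < m)).map (fun m => Nat.card F ^ m - 1)).prod * k) :=
  B40_peel l.length hψ rfl hl hc

end Pool.Agent.Lib.MP_fa0f6c_al.Cx.B
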