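import Mathlib
import Pool.Agent.Lib.MP_fa0f6c_al.Cx.Defs
import Pool.Agent.Lib.MP_fa0f6c_al.Cx.BDefs
import Pool.Agent.Lib.MP_fa0f6c_al.Cx.B40

/-! (beta) and (gamma). -/

set_option autoImplicit false

namespace Pool.Agent.Lib.MP_fa0f6c_al.Cx.B

open scoped ComplexConjugate

variable {F : Type} [Field F] [Finite F]

private theorem B41_order {Q p i : ℕ} (hQ : 0 < Q) (h : p ∣ Q ^ i - 1) :
    orderOf (Q : ZMod p) ∣ i := by
  apply orderOf_dvd_of_pow_eq_one
  have h1 : ((Q ^ i - 1 : ℕ) : ZMod p) = 0 := (ZMod.natCast_eq_zero_iff _ _).2 h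
  rw [Nat.cast_sub (Nat.one_le_pow _ _ hQ), sub_eq_zero] at h1
  push_cast at h1
  exact h1

/-- HINT: `H_peel`; `k` divides `|GL_s|`, `s < m₀`, so `l` does not divide `k` (`Matrix.card_GL_field` or
`card_GL_formula`: `l ∤ Q`, `l ∤ Q^i - 1` for `0 < i < m₀`), hence `l ∣ Q ^ m - 1` for some `m > 1` in the
list, and `orderOf_dvd_of_pow_eq_one`. -/
theorem beta_core {n : ℕ} {ψ : UCF F} (hψ : ψ ∈ IrrC F n) {l : List (UCF F)}
    (hl : Has n ψ l) (hc : ∀ m, 1 < m → (l.map dg).count m ≤ 1) {k : ℕ} (hk : H n ψ k)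
    (m₀ p : ℕ) (hs : (l.map dg).count 1 < m₀) (hp : p.Prime) (hpQ : ¬ p ∣ Nat.card F)
    (ho : orderOf (Nat.card F : ZMod p) = m₀) (hdvd : p ∣ k) :
    ∃ m ∈ l.map dg, 1 < m ∧ m₀ ∣ m := by
  have hQ : 0 < Nat.card F := Nat.card_pos
  obtain ⟨b, hb, e, k', hk', hH⟩ := H_peel hψ hl hc
  have hkk := H_unique hk hH
  rw [hkk] at hdvd
  set s := (l.map dg).count 1 with hs'
  have hnot : ∀ i, 0 < i → i ≤ s → ¬ p ∣ Nat.card F ^ i - 1 := by
    intro i hi his h
    have h1 := B41_order hQ h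
    rw [ho] at h1
    have := Nat.le_of_dvd hi h1
    omega
  have hpow : ∀ e, ¬ p ∣ Nat.card F ^ e := fun e h => hpQ (hp.dvd_of_dvd_pow h)
  have hk1 : ¬ p ∣ k' := by
    intro h
    obtain ⟨d, -, -, hcard⟩ := hk'
    have h1 : p ∣ Nat.card (Matrix.GeneralLinearGroup (Fin s) F) := by
      rw [hcard]
      exact Dvd.dvd.mul_left h d
    rcases Nat.eq_zero_or_pos s with h0 | h0
    · have h2 : Nat.card (Matrix.GeneralLinearGroup (Fin s) F) = 1 := by
        rw [h0]
        have : Subsingleton (Matrix (Fin 0) (Fin 0) F) := inferInstance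
        have : Subsingleton (Matrix.GeneralLinearGroup (Fin 0) F) :=
          ⟨fun a b => Units.ext (Subsingleton.elim _ _)⟩
        exact Nat.card_of_subsingleton 1
      rw [h2] at h1
      exact hp.one_lt.ne' (Nat.dvd_one.1 h1)
    · rw [card_GL_formula s h0] at h1
      rcases (Nat.Prime.dvd_mul hp).1 h1 with h2 | h2
      · rcases (Nat.Prime.dvd_mul hp).1 h2 with h3 | h3
        · exact hpow _ h3
        · exact hnot s h0 le_rfl h3
      · obtain ⟨i, hi, h3⟩ := (Prime.dvd_finsetProd_iff hp.prime _).1 h2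
        rw [Finset.mem_range] at hi
        exact hnot (i + 1) (by omega) (by omega) h3
  rcases (Nat.Prime.dvd_mul hp).1 hdvd with h | h
  · rcases (Nat.Prime.dvd_mul hp).1 h with h1 | h1
    · exact absurd h1 (hpow e)
    · obtain ⟨x, hx, hpx⟩ := (Prime.dvd_prod_iff hp.prime).1 h1
      rw [List.mem_map] at hx
      obtain ⟨m, hm, rfl⟩ := hx
      rw [List.mem_filter] at hm
      refine ⟨m, hm.1, by simpa using hm.2, ?_⟩
      rw [← ho]
      exact B41_order hQ hpx
  · exact absurd h hk1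

private theorem B41_lift {α β : Type*} (f : α → β) (T : List β) :
    ∀ l : List α, (l.map f).Perm T → ∃ l', l.Perm l' ∧ l'.map f = T := by
  induction T with
  | nil =>
    intro l h
    have : l = [] := by simpa using h.eq_nil
    exact ⟨[], by rw [this], rfl⟩
  | cons t T ih =>
    intro l h
    have ht : t ∈ l.map f := h.mem_iff.2 (by simp)
    obtain ⟨a, ha, rfl⟩ := List.mem_map.1 ht
    obtain ⟨u, v, rfl⟩ := List.append_of_mem ha
    have h1 : (u ++ a :: v).Perm (a :: (u ++ v)) := List.perm_middle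
    have h2 : ((u ++ v).map f).Perm T := by
      have h3 := (h1.map f).symm.trans h
      rw [List.map_cons] at h3
      exact h3.cons_inv
    obtain ⟨l', hl', hT⟩ := ih _ h2
    exact ⟨a :: l', h1.trans (hl'.cons a), by rw [List.map_cons, hT]⟩

private theorem B41_inj {α β : Type*} (f : α → β) (T : List β) (hT : T.Nodup) :
    ∀ l l' : List α, l.map f = T → l'.map f = T → l.Perm l' → l = l' := by
  induction T with
  | nil =>
    intro l l' h h' _
    rw [List.map_eq_nil_iff] at h h'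
    rw [h, h']
  | cons t T ih =>
    intro l l' h h' hp
    obtain ⟨a, m, rfl, ha, hm⟩ := List.map_eq_cons_iff.1 h
    obtain ⟨a', m', rfl, ha', hm'⟩ := List.map_eq_cons_iff.1 h'
    rw [List.nodup_cons] at hT
    have haa : a = a' := by
      have h1 : a ∈ a' :: m' := hp.mem_iff.1 (by simp)
      rcases List.mem_cons.1 h1 with h2 | h2
      · exact h2
      · exfalso
        apply hT.1
        rw [← ha, ← hm']
        exact List.mem_map_of_mem h2
    subst haa
    rw [ih hT.2 m m' hm hm' hp.cons_inv]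

private theorem B41_card (T : List ℕ) :
    Set.ncard {l : List (UCF F) | (∀ ρ ∈ l, IsCusp ρ) ∧ l.map dg = T} =
      (T.map (cuspNum F)).prod := by
  induction T with
  | nil =>
    have : {l : List (UCF F) | (∀ ρ ∈ l, IsCusp ρ) ∧ l.map dg = []} = {[]} := by
      ext l
      constructor
      · rintro ⟨-, h⟩
        exact List.map_eq_nil_iff.1 h
      · rintro rfl
        exact ⟨by simp, rfl⟩
    rw [this, Set.ncard_singleton]
    rfl
  | cons t T ih =>
    rw [List.map_cons, List.prod_cons, ← ih]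
    unfold cuspNum
    rw [← Set.ncard_prod]
    have : {l : List (UCF F) | (∀ ρ ∈ l, IsCusp ρ) ∧ l.map dg = t :: T} =
        (fun x : UCF F × List (UCF F) => x.1 :: x.2) ''
          ({ρ : UCF F | Cusp t ρ} ×ˢ {l : List (UCF F) | (∀ ρ ∈ l, IsCusp ρ) ∧ l.map dg = T}) := by
      ext l
      constructor
      · rintro ⟨h1, h2⟩
        obtain ⟨a, m, rfl, ha, hm⟩ := List.map_eq_cons_iff.1 h2
        refine ⟨(a, m), ⟨?_, fun ρ hρ => h1 ρ (List.mem_cons_of_mem _ hρ), hm⟩, rfl⟩
        obtain ⟨t', ht'⟩ := h1 a (by simp)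
        have := dg_eq ht'
        show Cusp t a
        rw [← ha, this]
        exact ht'
      · rintro ⟨⟨a, m⟩, ⟨ha, hm1, hm2⟩, rfl⟩
        have ha' : Cusp t a := ha
        refine ⟨?_, ?_⟩
        · intro ρ hρ
          rcases List.mem_cons.1 hρ with rfl | h
          · exact ⟨t, ha'⟩
          · exact hm1 ρ h
        · show dg a :: m.map dg = t :: T
          rw [dg_eq ha', hm2]
    rw [this, Set.ncard_image_of_injective]
    rintro ⟨a, m⟩ ⟨a', m'⟩ h
    simp only [List.cons.injEq] at h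
    rw [h.1, h.2]

/-- The irreducible characters whose support has given pairwise different degrees.
HINT: induction on `T`, or a bijection with the lists of cuspidal characters with degrees `T`
(`nodup_irr`, `has_nodup`, `has_unique`; equal degrees force the same order, as `T` is without repetition). -/
theorem gamma_card {n : ℕ} (T : List ℕ) (hT : T.Nodup) (hn : T.sum = n) :
    Set.ncard {ψ : UCF F | ψ ∈ IrrC F n ∧ ∃ l, Has n ψ l ∧ (l.map dg).Perm T} =
      (T.map (cuspNum F)).prod := by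
  rw [← B41_card T]
  have key : ∀ l : List (UCF F), (∀ ρ ∈ l, IsCusp ρ) → l.map dg = T →
      l.prod ∈ IrrC F n ∧ Has n l.prod l := by
    intro l h1 h2
    have hcl : CL n l := ⟨h1, by rw [h2, hn]⟩
    have hnd : l.Nodup := List.Nodup.of_map dg (by rw [h2]; exact hT)
    refine ⟨nodup_irr hcl hnd, hcl, ?_⟩
    rw [ipn_list hcl hcl, mt_self_nodup hnd]
    simp
  have : {ψ : UCF F | ψ ∈ IrrC F n ∧ ∃ l, Has n ψ l ∧ (l.map dg).Perm T} =
      (fun l : List (UCF F) => l.prod) ''
        {l : List (UCF F) | (∀ ρ ∈ l, IsCusp ρ) ∧ l.map dg = T} := by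
    ext ψ
    constructor
    · rintro ⟨hψ, l, hl, hp⟩
      obtain ⟨l', hl', hT'⟩ := B41_lift dg T l hp
      have h1 := has_perm hl hl'
      have hnd : l'.Nodup := List.Nodup.of_map dg (by rw [hT']; exact hT)
      exact ⟨l', ⟨h1.1.1, hT'⟩, (has_nodup hψ h1 hnd).symm⟩
    · rintro ⟨l, ⟨h1, h2⟩, rfl⟩
      obtain ⟨h3, h4⟩ := key l h1 h2
      exact ⟨h3, l, h4, by rw [h2]⟩
  rw [this]
  refine Set.InjOn.ncard_image ?_
  rintro l ⟨h1, h2⟩ l' ⟨h1', h2'⟩ h
  have h' : l.prod = l'.prod := h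
  obtain ⟨h3, h4⟩ := key l h1 h2
  obtain ⟨h3', h4'⟩ := key l' h1' h2'
  rw [← h'] at h4'
  exact B41_inj dg T hT l l' h2 h2' (has_unique h3 h4 h4')

theorem gamma_H {n : ℕ} {ψ : UCF F} (hψ : ψ ∈ IrrC F n) {l : List (UCF F)} (hl : Has n ψ l)
    (hd : (l.map dg).Nodup) :
    H n ψ (Nat.card F ^ (n * (n - 1) / 2) * ((l.map dg).map (fun m => Nat.card F ^ m - 1)).prod) := by
  have hnd : l.Nodup := List.Nodup.of_map dg hd
  rw [has_nodup hψ hl hnd, List.map_map]
  exact H_nodup hl.1 hnd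

end Pool.Agent.Lib.MP_fa0f6c_al.Cx.B
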