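import Mathlib
import Pool.Agent.Lib.MP_fa0f6c_al.Cx.Defs
import Pool.Agent.Lib.MP_fa0f6c_al.Cx.BDefs
import Pool.Agent.Lib.MP_fa0f6c_al.Cx.B08
import Pool.Agent.Lib.MP_fa0f6c_al.Cx.B12

/-! Elements with a scalar block. -/

set_option autoImplicit false

namespace Pool.Agent.Lib.MP_fa0f6c_al.Cx.B

open scoped ComplexConjugate

variable {F : Type} [Field F]

variable {A B : Type} [AddCommGroup A] [Module F A] [AddCommGroup B] [Module F B]

private theorem b42_val (h : UCF F) (z : F) (y : B →ₗ[F] B)
    (hy : Function.Bijective (y - z • (LinearMap.id : B →ₗ[F] B))) (φ : B →ₗ[F] A) :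
    h.val (tri (z • (LinearMap.id : A →ₗ[F] A)) y φ) =
      h.val (tri (z • (LinearMap.id : A →ₗ[F] A)) y 0) := by
  let E := LinearEquiv.ofBijective (y - z • (LinearMap.id : B →ₗ[F] B)) hy
  let s : B →ₗ[F] A := φ.comp (E.symm : B →ₗ[F] B)
  have hs : ∀ b, s (y b) - z • s b = φ b := by
    intro b
    have h1 : s (E b) = φ b := by
      show φ (E.symm (E b)) = φ b
      rw [LinearEquiv.symm_apply_apply]
    have h2 : E b = y b - z • b := rfl
    rw [h2, map_sub, map_smul] at h1
    exact h1
  refine h.inv (shear (-s)) _ _ ?_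
  rintro ⟨a, b⟩
  rw [shear_apply, shear_apply, tri_apply, tri_apply]
  simp only [LinearMap.smul_apply, LinearMap.id_apply, LinearMap.neg_apply, LinearMap.zero_apply,
    add_zero, Prod.mk.injEq, and_true]
  rw [← hs b, smul_add, smul_neg]
  abel

/-- HINT: all `tri (z • id) y φ` are conjugate to `tri (z • id) y 0`: with `s = φ ∘ (y - z)⁻¹`,
`shear(s)⁻¹ ∘ tri w y φ ∘ shear(s) = tri w y (φ + w ∘ s - s ∘ y)`, `w = z • id`; then `f.inv`. -/
theorem rs_scalar [Finite A] [Finite B] (h : UCF F) (z : F) (y : B →ₗ[F] B)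
    (hy : Function.Bijective (y - z • (LinearMap.id : B →ₗ[F] B))) :
    rs h (z • (LinearMap.id : A →ₗ[F] A)) y =
      h.val (tri (z • (LinearMap.id : A →ₗ[F] A)) y 0) := by
  classical
  have hfin : Finite (B →ₗ[F] A) := DFunLike.finite _
  have := Fintype.ofFinite (B →ₗ[F] A)
  unfold rs
  rw [finsum_congr (fun φ => b42_val h z y hy φ), finsum_eq_sum_of_fintype, Finset.sum_const,
    Finset.card_univ, nsmul_eq_mul, ← mul_assoc, Nat.card_eq_fintype_card, inv_mul_cancel₀, one_mul]
  exact Nat.cast_ne_zero.2 Fintype.card_ne_zero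

/-- HINT: if `c` commutes with `x = z ⊕ y` then the off diagonal components `φ : B → A`, `φ' : A → B` satisfy
`z φ = φ y`, `y φ' = z φ'`, so both vanish; the diagonal components are arbitrary in `GL(A)` and in the
centraliser of `y`. -/
theorem card_centralizer_tri [Finite A] [Finite B] (z : F) (y : B ≃ₗ[F] B)
    (hy : Function.Bijective ((y : B →ₗ[F] B) - z • (LinearMap.id : B →ₗ[F] B)))
    (x : (A × B) ≃ₗ[F] (A × B))
    (hx : (x : (A × B) →ₗ[F] (A × B)) =
      tri (z • (LinearMap.id : A →ₗ[F] A)) (y : B →ₗ[F] B) 0) :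
    Nat.card (Subgroup.centralizer {x}) =
      Nat.card (A ≃ₗ[F] A) * Nat.card (Subgroup.centralizer {y}) := by
  have hxa : ∀ p : A × B, x p = (z • p.1, y p.2) := by
    intro p
    have h1 := congrArg (fun f : (A × B) →ₗ[F] (A × B) => f p) hx
    simp only [tri_apply, LinearMap.smul_apply, LinearMap.id_apply, LinearMap.zero_apply,
      add_zero, LinearEquiv.coe_coe] at h1
    exact h1
  rw [← Nat.card_prod]
  symm
  have hmem : ∀ p : (A ≃ₗ[F] A) × Subgroup.centralizer {y},
      (triE p.1 p.2.1 0 : (A × B) ≃ₗ[F] (A × B)) ∈ Subgroup.centralizer {x} := by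
    rintro ⟨a, c, hc⟩
    rw [Subgroup.mem_centralizer_singleton_iff] at hc ⊢
    apply LinearEquiv.ext
    rintro ⟨u, v⟩
    have hcv : c (y v) = y (c v) := congrArg (fun f : B ≃ₗ[F] B => f v) hc
    show triE a c 0 (x (u, v)) = x (triE a c 0 (u, v))
    rw [hxa, triE_apply, triE_apply, hxa]
    simp only [LinearMap.zero_apply, add_zero, map_smul, Prod.mk.injEq, true_and]
    exact hcv
  refine Nat.card_congr (Equiv.ofBijective (fun p => ⟨triE p.1 p.2.1 0, hmem p⟩) ⟨?_, ?_⟩)
  · rintro ⟨a, c, hc⟩ ⟨a', c', hc'⟩ h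
    have h0 : (triE a c 0 : (A × B) ≃ₗ[F] (A × B)) = triE a' c' 0 := congrArg Subtype.val h
    have h1 : a = a' := by
      apply LinearEquiv.ext
      intro u
      have := congrArg (fun f : (A × B) ≃ₗ[F] (A × B) => (f (u, 0)).1) h0
      simpa using this
    have h2 : c = c' := by
      apply LinearEquiv.ext
      intro u
      have := congrArg (fun f : (A × B) ≃ₗ[F] (A × B) => (f (0, u)).2) h0
      simpa using this
    subst h1
    subst h2
    rfl
  · rintro ⟨c, hc⟩
    rw [Subgroup.mem_centralizer_singleton_iff] at hc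
    have hcx : ∀ p, c (x p) = x (c p) := fun p =>
      congrArg (fun f : (A × B) ≃ₗ[F] (A × B) => f p) hc
    have hφ : ∀ b, (c (0, b)).1 = 0 := by
      intro b
      obtain ⟨b', hb'⟩ := hy.2 b
      have h1 := congrArg Prod.fst (hcx (0, b'))
      rw [hxa, hxa] at h1
      simp only [smul_zero] at h1
      have h2 : (0, b) = ((0, y b') : A × B) - z • ((0, b') : A × B) := by
        rw [← hb']
        simp
      rw [h2, map_sub, map_smul, Prod.fst_sub, Prod.smul_fst, h1, sub_self]
    have hψ : ∀ a, (c (a, 0)).2 = 0 := by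
      intro a
      have h1 := congrArg Prod.snd (hcx (a, 0))
      rw [hxa, hxa] at h1
      simp only [map_zero] at h1
      have h2 : ((z • a, 0) : A × B) = z • ((a, 0) : A × B) := by simp
      rw [h2, map_smul, Prod.smul_snd] at h1
      apply hy.1
      rw [map_zero]
      simp only [LinearMap.sub_apply, LinearEquiv.coe_coe, LinearMap.smul_apply,
        LinearMap.id_apply]
      rw [h1, sub_self]
    have hdec : ∀ a b, c (a, b) = ((c (a, 0)).1, (c (0, b)).2) := by
      intro a b
      have h1 : ((a, b) : A × B) = (a, 0) + (0, b) := by simp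
      rw [h1, map_add]
      apply Prod.ext
      · rw [Prod.fst_add, hφ, add_zero]
      · rw [Prod.snd_add, hψ, zero_add]
    let c1 : A →ₗ[F] A := (LinearMap.fst F A B).comp ((c : (A × B) →ₗ[F] (A × B)).comp
      (LinearMap.inl F A B))
    let c2 : B →ₗ[F] B := (LinearMap.snd F A B).comp ((c : (A × B) →ₗ[F] (A × B)).comp
      (LinearMap.inr F A B))
    have hc1 : ∀ a, c1 a = (c (a, 0)).1 := fun a => rfl
    have hc2 : ∀ b, c2 b = (c (0, b)).2 := fun b => rfl
    have hi1 : Function.Injective c1 := by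
      rw [injective_iff_map_eq_zero]
      intro a ha
      have h1 : c (a, 0) = c (0, 0) := by
        rw [hdec a 0, hdec 0 0, ← hc1, ← hc1, ha, map_zero]
      have h2 := c.injective h1
      exact congrArg Prod.fst h2
    have hi2 : Function.Injective c2 := by
      rw [injective_iff_map_eq_zero]
      intro b hb
      have h1 : c (0, b) = c (0, 0) := by
        rw [hdec 0 b, hdec 0 0, ← hc2, ← hc2, hb, map_zero]
      have h2 := c.injective h1
      exact congrArg Prod.snd h2
    let e1 : A ≃ₗ[F] A := LinearEquiv.ofBijective c1 (Finite.injective_iff_bijective.1 hi1)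
    let e2 : B ≃ₗ[F] B := LinearEquiv.ofBijective c2 (Finite.injective_iff_bijective.1 hi2)
    have he2 : e2 ∈ Subgroup.centralizer {y} := by
      rw [Subgroup.mem_centralizer_singleton_iff]
      apply LinearEquiv.ext
      intro b
      show c2 (y b) = y (c2 b)
      have h1 := congrArg Prod.snd (hcx (0, b))
      rw [hxa, hxa] at h1
      simp only [smul_zero] at h1
      exact h1
    refine ⟨⟨e1, e2, he2⟩, ?_⟩
    apply Subtype.ext
    apply LinearEquiv.ext
    rintro ⟨a, b⟩
    show triE e1 e2 0 (a, b) = c (a, b)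
    rw [triE_apply, hdec a b]
    simp only [LinearMap.zero_apply, add_zero]
    rfl

/-- HINT: blockwise. -/
theorem tri_sub_bijective [Finite A] [Finite B] (z c : F) (hc : c ≠ z) (y : B →ₗ[F] B)
    (hy : Function.Bijective (y - c • (LinearMap.id : B →ₗ[F] B))) :
    Function.Bijective (tri (z • (LinearMap.id : A →ₗ[F] A)) y 0 -
      c • (LinearMap.id : (A × B) →ₗ[F] (A × B))) := by
  rw [← Finite.injective_iff_bijective, injective_iff_map_eq_zero]
  rintro ⟨a, b⟩ h
  rw [LinearMap.sub_apply, tri_apply, LinearMap.smul_apply, LinearMap.id_apply] at h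
  simp only [LinearMap.smul_apply, LinearMap.id_apply, LinearMap.zero_apply, add_zero,
    Prod.smul_mk, Prod.mk_sub_mk, Prod.mk_eq_zero] at h
  obtain ⟨h1, h2⟩ := h
  have ha : a = 0 := by
    rw [← sub_smul] at h1
    rcases smul_eq_zero.1 h1 with h3 | h3
    · exact absurd (sub_eq_zero.1 h3).symm hc
    · exact h3
  have hb : b = 0 := by
    apply hy.1
    rw [map_zero]
    simpa using h2
  rw [ha, hb]
  rfl

end Pool.Agent.Lib.MP_fa0f6c_al.Cx.B
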