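import Mathlib
import Pool.Agent.Lib.MP_fa0f6c_al.Cx.Defs
import Pool.Agent.Lib.MP_fa0f6c_al.Cx.BDefs
import Pool.Agent.Lib.MP_fa0f6c_al.Cx.B11
import Pool.Agent.Lib.MP_fa0f6c_al.Cx.B42

/-! Values at block scalar elements. -/

set_option autoImplicit false

namespace Pool.Agent.Lib.MP_fa0f6c_al.Cx.B

open scoped ComplexConjugate

variable {F : Type} [Field F] [Finite F]

/-- The value of `τ` at the scalar `z` of `F^m`. -/
noncomputable def sval (τ : UCF F) (m : ℕ) (z : F) : ℂ :=
  τ.val (z • (LinearMap.id : (Fin m → F) →ₗ[F] (Fin m → F)))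

/-- The value of `f` at the block scalar element with blocks `z_i` of size `m_i`, computed from the
left. -/
noncomputable def ev : List (ℕ × F) → UCF F → ℂ
  | [], f => f.val (0 : PUnit →ₗ[F] PUnit)
  | p :: L, f => ∑ τ ∈ irrF F p.1, sval τ p.1 p.2 * ev L (dr p.1 τ f)

omit [Finite F] in
private theorem b43_scalar {W : Type} [AddCommGroup W] [Module F W] (z : F) (hz : z ≠ 0) :
    ∃ e : W ≃ₗ[F] W, (e : W →ₗ[F] W) = z • (LinearMap.id : W →ₗ[F] W) := by
  refine ⟨LinearEquiv.smulOfUnit (Units.mk0 z hz), ?_⟩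
  ext w
  rfl

/-- HINT: induction on `L`. `V = PUnit` for `[]`. For `(m, z) :: L` take `V = (Fin m → F) × V'`,
`x = triE z x' 0` (scalar `z`): `f.val x = rs f z x'` (`rs_scalar`) `= ∑_τ ..` (`rs_expand`); the centraliser by
`card_centralizer_tri` (`card_on`); bijectivity of `x - c` by `tri_sub_bijective`. -/
theorem exists_block_scalar (L : List (ℕ × F)) (hz : (L.map Prod.snd).Nodup)
    (h0 : ∀ p ∈ L, p.2 ≠ 0) :
    ∃ (V : Type) (_ : AddCommGroup V) (_ : Module F V) (_ : Finite V) (x : V ≃ₗ[F] V),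
      Module.finrank F V = (L.map Prod.fst).sum ∧
      (∀ c : F, c ∉ L.map Prod.snd →
        Function.Bijective ((x : V →ₗ[F] V) - c • (LinearMap.id : V →ₗ[F] V))) ∧
      (∀ f : UCF F, f.val (x : V →ₗ[F] V) = ev L f) ∧
      Nat.card (Subgroup.centralizer {x}) =
        (L.map (fun p => Nat.card (Matrix.GeneralLinearGroup (Fin p.1) F))).prod := by
  induction L with
  | nil =>
    refine ⟨PUnit, inferInstance, inferInstance, inferInstance, LinearEquiv.refl F PUnit,
      ?_, ?_, ?_, ?_⟩
    · simp only [List.map_nil, List.sum_nil]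
      exact Module.finrank_zero_of_subsingleton
    · intro c _
      exact ⟨fun a b _ => Subsingleton.elim a b, fun b => ⟨b, Subsingleton.elim _ _⟩⟩
    · intro f
      show f.val _ = f.val _
      congr 1
    · have hs : Subsingleton (PUnit.{1} ≃ₗ[F] PUnit.{1}) :=
        ⟨fun a b => LinearEquiv.ext fun v => Subsingleton.elim _ _⟩
      have hss : Subsingleton (Subgroup.centralizer ({LinearEquiv.refl F PUnit.{1}} :
          Set (PUnit.{1} ≃ₗ[F] PUnit.{1}))) := ⟨fun a b => Subtype.ext (Subsingleton.elim _ _)⟩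
      simp only [List.map_nil, List.prod_nil]
      rw [Nat.card_eq_one_iff_unique]
      exact ⟨hss, ⟨1⟩⟩
  | cons p L ih =>
    rw [List.map_cons, List.nodup_cons] at hz
    obtain ⟨V, i1, i2, i3, x, hx1, hx2, hx3, hx4⟩ := ih hz.2
      (fun q hq => h0 q (List.mem_cons_of_mem _ hq))
    have hp0 : p.2 ≠ 0 := h0 p List.mem_cons_self
    obtain ⟨e, he⟩ := b43_scalar (W := Fin p.1 → F) p.2 hp0
    have hcoe : ((triE e x 0 : ((Fin p.1 → F) × V) ≃ₗ[F] ((Fin p.1 → F) × V)) :
        ((Fin p.1 → F) × V) →ₗ[F] ((Fin p.1 → F) × V)) =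
        tri (p.2 • (LinearMap.id : (Fin p.1 → F) →ₗ[F] (Fin p.1 → F))) (x : V →ₗ[F] V) 0 := by
      rw [triE_coe, he]
    have hfin : Finite ((Fin p.1 → F) × V) := inferInstance
    refine ⟨(Fin p.1 → F) × V, inferInstance, inferInstance, hfin, triE e x 0, ?_, ?_, ?_, ?_⟩
    · have hV : Module.Finite F V := Module.Finite.of_finite
      rw [Module.finrank_prod, hx1, List.map_cons, List.sum_cons, Module.finrank_fin_fun]
    · intro c hc
      rw [List.map_cons, List.mem_cons, not_or] at hc
      rw [hcoe]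
      exact tri_sub_bijective p.2 c hc.1 (x : V →ₗ[F] V) (hx2 c hc.2)
    · intro f
      rw [hcoe, ← rs_scalar f p.2 (x : V →ₗ[F] V) (hx2 p.2 hz.1), rs_expand]
      show _ = ∑ τ ∈ irrF F p.1, sval τ p.1 p.2 * ev L (dr p.1 τ f)
      refine Finset.sum_congr rfl fun τ _ => ?_
      rw [hx3]
      rfl
    · rw [card_centralizer_tri p.2 x (hx2 p.2 hz.1) (triE e x 0) hcoe, hx4, List.map_cons,
        List.prod_cons, card_on (Fin p.1 → F) p.1 (Module.finrank_fin_fun F)]

open Classical in
variable (F) in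
/-- lists of irreducible characters of given degrees -/
noncomputable def tuples : List ℕ → Finset (List (UCF F))
  | [] => {[]}
  | m :: ms => (irrF F m ×ˢ tuples ms).image (fun q => q.1 :: q.2)

/-- product of the values at scalars -/
noncomputable def pv : List (ℕ × F) → List (UCF F) → ℂ
  | [], _ => 1
  | _ :: _, [] => 0
  | p :: L, τ :: l => sval τ p.1 p.2 * pv L l

private theorem b43_sum_image {β : Type*} [AddCommMonoid β] {α : Type*} [DecidableEq (List α)]
    (s : Finset α) (t : Finset (List α)) (g : List α → β) :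
    ∑ l ∈ (s ×ˢ t).image (fun q => q.1 :: q.2), g l = ∑ a ∈ s, ∑ l ∈ t, g (a :: l) := by
  rw [Finset.sum_image, Finset.sum_product]
  rintro ⟨a, l⟩ _ ⟨a', l'⟩ _ h
  simp only [List.cons.injEq] at h
  rw [h.1, h.2]

private theorem b43_tuples_deg {ms : List ℕ} {l : List (UCF F)} (hl : l ∈ tuples F ms) :
    Deg l.prod ms.sum := by
  classical
  induction ms generalizing l with
  | nil =>
    simp only [tuples, Finset.mem_singleton] at hl
    subst hl
    rw [List.prod_nil, List.sum_nil]
    exact deg_one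
  | cons m ms ih =>
    simp only [tuples, Finset.mem_image, Finset.mem_product] at hl
    obtain ⟨⟨τ, l'⟩, ⟨h1, h2⟩, rfl⟩ := hl
    rw [List.prod_cons, List.sum_cons]
    exact deg_mul (mem_irrF.1 h1).1 (ih h2)

/-- HINT: induction on `L`, generalising `f` and `n`; `ipn_dr'`, `dr_deg`; for `[]`: `deg_zero_eq`. -/
theorem ev_eq {n : ℕ} (L : List (ℕ × F)) (hn : (L.map Prod.fst).sum = n) {f : UCF F}
    (hf : Deg f n) :
    ev L f = ∑ l ∈ tuples F (L.map Prod.fst), pv L l * conj (ipn n l.prod f) := by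
  classical
  induction L generalizing n f with
  | nil =>
    simp only [List.map_nil, List.sum_nil] at hn
    subst hn
    simp only [List.map_nil, tuples, Finset.sum_singleton, pv, List.prod_nil, one_mul, ev]
    rw [← ipn_conj]
    conv_lhs => rw [deg_zero_eq hf]
    rw [smul_val, one_val, if_pos (inferInstanceAs (Subsingleton PUnit.{1})), mul_one]
  | cons p L ih =>
    rw [List.map_cons, List.sum_cons] at hn
    subst hn
    rw [List.map_cons]
    show ∑ τ ∈ irrF F p.1, sval τ p.1 p.2 * ev L (dr p.1 τ f) = _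
    unfold tuples
    rw [b43_sum_image]
    refine Finset.sum_congr rfl fun τ hτ => ?_
    rw [ih rfl (dr_deg τ hf), Finset.mul_sum]
    refine Finset.sum_congr rfl fun l hl => ?_
    show _ = (sval τ p.1 p.2 * pv L l) * _
    rw [List.prod_cons, mul_assoc]
    rw [ipn_dr f (mem_irrF.1 hτ).1 (b43_tuples_deg hl)]

end Pool.Agent.Lib.MP_fa0f6c_al.Cx.B
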