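import Mathlib
import Pool.Agent.Lib.MP_fa0f6c_al.Cx.Defs
import Pool.Agent.Lib.MP_fa0f6c_al.Cx.BDefs
import Pool.Agent.Lib.MP_fa0f6c_al.Cx.B20
import Pool.Agent.Lib.MP_fa0f6c_al.Cx.B43

/-! The tuples which contribute to the value of an irreducible character. -/

set_option autoImplicit false

namespace Pool.Agent.Lib.MP_fa0f6c_al.Cx.B

open scoped ComplexConjugate

variable {F : Type} [Field F] [Finite F]

theorem mem_tuples {ms : List ℕ} {l : List (UCF F)} :
    l ∈ tuples F ms ↔ List.Forall₂ (fun m τ => τ ∈ IrrC F m) ms l := by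
  classical
  induction ms generalizing l with
  | nil =>
    simp only [tuples, Finset.mem_singleton, List.forall₂_nil_left_iff]
  | cons m ms ih =>
    simp only [tuples, Finset.mem_image, Finset.mem_product]
    constructor
    · rintro ⟨⟨τ, l'⟩, ⟨h1, h2⟩, rfl⟩
      exact List.Forall₂.cons (mem_irrF.1 h1) (ih.1 h2)
    · intro h
      cases h with
      | cons h1 h2 => exact ⟨(_, _), ⟨mem_irrF.2 h1, ih.2 h2⟩, rfl⟩

/-- HINT: `mem_tuples`, `natC_mul`. -/
theorem natC_tuple {n : ℕ} {ms : List ℕ} (hn : ms.sum = n) {l : List (UCF F)}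
    (hl : l ∈ tuples F ms) : NatC n l.prod := by
  rw [mem_tuples] at hl
  induction hl generalizing n with
  | nil =>
    simp only [List.sum_nil] at hn
    subst hn
    simpa using natC_one
  | cons h1 h2 ih =>
    rw [List.sum_cons] at hn
    subst hn
    rw [List.prod_cons]
    exact natC_mul (natC_irr h1) (ih rfl)

private theorem b44_exists_factor {m n : ℕ} {τ f ψ : UCF F} (hf : Deg f n)
    (h : ipn (m + n) (τ * f) ψ ≠ 0) :
    ∃ β ∈ IrrC F n, ipn n f β ≠ 0 ∧ ipn (m + n) (τ * β) ψ ≠ 0 := by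
  by_contra hcon
  push Not at hcon
  apply h
  rw [ucf_expand hf, Finset.mul_sum, ipn_sum_left]
  refine Finset.sum_eq_zero fun β hβ => ?_
  rw [mul_smul_comm, ipn_smul_left]
  by_cases h0 : ipn n f β = 0
  · rw [h0, zero_mul]
  · rw [hcon β (mem_irrF.1 hβ) h0, mul_zero]

/-- If all degrees are positive and `ψ` is a constituent of `τ₁ * ... * τ_s`, then `ψ` has a support which is the
concatenation of supports of the `τ_i`. HINT: induction, `natC_split`, as in `has_mul`. -/
theorem tuple_support {n : ℕ} {ψ : UCF F} (hψ : ψ ∈ IrrC F n) {ms : List ℕ} (hn : ms.sum = n)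
    {l : List (UCF F)} (hl : l ∈ tuples F ms) (h : ipn n l.prod ψ ≠ 0) :
    ∃ ls : List (List (UCF F)), List.Forall₂ (fun p k => Has p.1 p.2 k) (ms.zip l) ls ∧
      Has n ψ ls.flatten := by
  induction ms generalizing l ψ n with
  | nil =>
    rw [mem_tuples, List.forall₂_nil_left_iff] at hl
    subst hl
    simp only [List.sum_nil] at hn
    subst hn
    refine ⟨[], by simp, ⟨⟨by simp, by simp⟩, ?_⟩⟩
    simpa using h
  | cons m ms ih =>
    have hl' := hl
    rw [mem_tuples] at hl
    cases hl with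
    | @cons _ τ _ l' h1 h2 =>
      rw [List.sum_cons] at hn
      subst hn
      rw [List.prod_cons] at h
      have hN : NatC ms.sum l'.prod := natC_tuple rfl (mem_tuples.2 h2)
      obtain ⟨β, hβ, hb1, hb2⟩ := b44_exists_factor hN.1 h
      obtain ⟨ls, hls, hlsH⟩ := ih hβ rfl (mem_tuples.2 h2) hb1
      obtain ⟨k, hk⟩ := exists_has h1
      refine ⟨k :: ls, ?_, ?_⟩
      · rw [List.zip_cons_cons]
        exact List.Forall₂.cons hk hls
      · rw [List.flatten_cons]
        exact has_mul h1 hβ hψ hk hlsH hb2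

private theorem b44_length_one {α : Type*} (ls : List (List α)) (h : ∀ k ∈ ls, k ≠ [])
    (hlen : ls.flatten.length = ls.length) : ∀ k ∈ ls, k.length = 1 := by
  have hge : ∀ ls : List (List α), (∀ k ∈ ls, k ≠ []) → ls.length ≤ ls.flatten.length := by
    intro ls
    induction ls with
    | nil => intro _; simp
    | cons k ls ih =>
      intro h
      have h1 := ih (fun k hk => h k (List.mem_cons_of_mem _ hk))
      have h2 : 0 < k.length := List.length_pos_iff.2 (h k List.mem_cons_self)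
      rw [List.flatten_cons, List.length_append, List.length_cons]
      omega
  induction ls with
  | nil => intro k hk; exact absurd hk (List.not_mem_nil)
  | cons k ls ih =>
    have h2 : 0 < k.length := List.length_pos_iff.2 (h k List.mem_cons_self)
    have h3 := hge ls (fun k hk => h k (List.mem_cons_of_mem _ hk))
    rw [List.flatten_cons, List.length_append, List.length_cons] at hlen
    intro k' hk'
    rcases List.mem_cons.1 hk' with rfl | hk'
    · omega
    · exact ih (fun k hk => h k (List.mem_cons_of_mem _ hk)) (by omega) k' hk'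

private theorem b44_sum_pos {l₀ : List (UCF F)} (h : ∀ ρ ∈ l₀, IsCusp ρ) :
    ∀ m ∈ l₀.map dg, 0 < m := by
  intro m hm
  obtain ⟨ρ, hρ, rfl⟩ := List.mem_map.1 hm
  obtain ⟨m, hm⟩ := h ρ hρ
  rw [dg_eq hm]
  exact hm.1

private theorem b44_one {m : ℕ} {τ τ' : UCF F} (hτ : τ ∈ IrrC F m) (h : Has m τ [τ']) :
    Cusp m τ := by
  obtain ⟨⟨h1, h2⟩, h3⟩ := h
  obtain ⟨m', hm'⟩ := h1 τ' List.mem_cons_self
  simp only [List.map_cons, List.map_nil, List.sum_cons, List.sum_nil, add_zero] at h2
  rw [dg_eq hm'] at h2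
  subst h2
  rw [List.prod_cons, List.prod_nil, mul_one, ipn_irr hm'.2.1 hτ] at h3
  by_cases he : τ' = τ
  · rw [← he]; exact hm'
  · rw [if_neg he] at h3
    exact absurd rfl h3

private theorem b44_forall {ms : List ℕ} {l : List (UCF F)} {ls : List (List (UCF F))}
    (hl : List.Forall₂ (fun m τ => τ ∈ IrrC F m) ms l)
    (h : List.Forall₂ (fun (p : ℕ × UCF F) k => Has p.1 p.2 k) (ms.zip l) ls)
    (h1 : ∀ k ∈ ls, k.length = 1) : List.Forall₂ (fun m τ => Cusp m τ) ms l := by
  induction hl generalizing ls with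
  | nil => exact List.Forall₂.nil
  | @cons m τ ms l hτ hl ih =>
    rw [List.zip_cons_cons] at h
    cases h with
    | @cons _ k _ ls' hk hls =>
      refine List.Forall₂.cons ?_ (ih hls (fun k hk => h1 k (List.mem_cons_of_mem _ hk)))
      obtain ⟨τ', rfl⟩ := List.length_eq_one_iff.1 (h1 k List.mem_cons_self)
      exact b44_one hτ hk

private theorem b44_nonempty {ms : List ℕ} {l : List (UCF F)} {ls : List (List (UCF F))}
    (hl : List.Forall₂ (fun m τ => τ ∈ IrrC F m) ms l)
    (h : List.Forall₂ (fun (p : ℕ × UCF F) k => Has p.1 p.2 k) (ms.zip l) ls)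
    (hpos : ∀ m ∈ ms, 0 < m) : ls.length = ms.length ∧ ∀ k ∈ ls, k ≠ [] := by
  induction hl generalizing ls with
  | nil =>
    rw [List.zip_nil_left, List.forall₂_nil_left_iff] at h
    subst h
    simp
  | @cons m τ ms l hτ hl ih =>
    rw [List.zip_cons_cons] at h
    cases h with
    | @cons _ k _ ls' hk hls =>
      obtain ⟨h1, h2⟩ := ih hls (fun m hm => hpos m (List.mem_cons_of_mem _ hm))
      refine ⟨by simp [h1], ?_⟩
      intro k' hk'
      rcases List.mem_cons.1 hk' with rfl | hk'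
      · rintro rfl
        have := hk.1.2
        simp only [List.map_nil, List.sum_nil] at this
        have h3 := hpos m List.mem_cons_self
        omega
      · exact h2 k' hk'

/-- HINT: `tuple_support`: the supports are nonempty lists (positive degrees) and their total length is
`l₀.length = ms.length` by `has_unique`; so each has exactly one element `τ'`, and `Has m τ [τ']` means
`τ = τ'` (`ipn_irr`). -/
theorem tuples_cusp {n : ℕ} {ψ : UCF F} (hψ : ψ ∈ IrrC F n) {l₀ : List (UCF F)}
    (h₀ : Has n ψ l₀) {l : List (UCF F)} (hl : l ∈ tuples F (l₀.map dg))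
    (h : ipn n l.prod ψ ≠ 0) : List.Forall₂ (fun m τ => Cusp m τ) (l₀.map dg) l := by
  obtain ⟨ls, hls, hH⟩ := tuple_support hψ h₀.1.2 hl h
  have hp := has_unique hψ hH h₀
  have hl' := mem_tuples.1 hl
  obtain ⟨h1, h2⟩ := b44_nonempty hl' hls (b44_sum_pos h₀.1.1)
  refine b44_forall hl' hls (b44_length_one ls h2 ?_)
  rw [hp.length_eq, h1, List.length_map]

private theorem b44_forall_self (l₀ : List (UCF F)) (h : ∀ ρ ∈ l₀, IsCusp ρ) :
    List.Forall₂ (fun m τ => τ ∈ IrrC F m) (l₀.map dg) l₀ := by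
  induction l₀ with
  | nil => exact List.Forall₂.nil
  | cons ρ l ih =>
    rw [List.map_cons]
    refine List.Forall₂.cons ?_ (ih fun ρ hρ => h ρ (List.mem_cons_of_mem _ hρ))
    obtain ⟨m, hm⟩ := h ρ List.mem_cons_self
    rw [dg_eq hm]
    exact hm.2.1

private theorem b44_isCusp {ms : List ℕ} {l : List (UCF F)}
    (h : List.Forall₂ (fun m τ => Cusp m τ) ms l) : (∀ τ ∈ l, IsCusp τ) ∧ l.map dg = ms := by
  induction h with
  | nil => simp
  | @cons m τ ms l hτ hl ih =>
    refine ⟨?_, ?_⟩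
    · intro τ' hτ'
      rcases List.mem_cons.1 hτ' with rfl | hτ'
      · exact ⟨m, hτ⟩
      · exact ih.1 τ' hτ'
    · rw [List.map_cons, ih.2, dg_eq hτ]

/-- HINT: `k l` from `natC_ip`. Upper bound: `k l ≤ ipn n l.prod l₀.prod` (`natC_split` for `l₀.prod`), which is
`Mt l l₀` for the lists of cuspidal characters (`ipn_list`), and `mt_sum_le`. Positivity: `l₀` itself. -/
theorem tuples_sum {n : ℕ} {ψ : UCF F} (hψ : ψ ∈ IrrC F n) {l₀ : List (UCF F)}
    (h₀ : Has n ψ l₀) :
    ∃ k : List (UCF F) → ℕ, (∀ l ∈ tuples F (l₀.map dg), ipn n l.prod ψ = k l) ∧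
      0 < ∑ l ∈ tuples F (l₀.map dg), k l ∧
      ∑ l ∈ tuples F (l₀.map dg), k l ≤ Nat.factorial l₀.length := by
  classical
  have hex : ∀ l : List (UCF F), ∃ k : ℕ, l ∈ tuples F (l₀.map dg) → ipn n l.prod ψ = k := by
    intro l
    by_cases hl : l ∈ tuples F (l₀.map dg)
    · obtain ⟨k, hk⟩ := natC_ip (natC_tuple h₀.1.2 hl) (natC_irr hψ)
      exact ⟨k, fun _ => hk⟩
    · exact ⟨0, fun h => absurd h hl⟩
  choose k hk using hex
  refine ⟨k, hk, ?_, ?_⟩
  · have hmem : l₀ ∈ tuples F (l₀.map dg) := mem_tuples.2 (b44_forall_self l₀ h₀.1.1)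
    have hne : k l₀ ≠ 0 := by
      intro h0
      have := hk l₀ hmem
      rw [h0, Nat.cast_zero] at this
      exact h₀.2 this
    exact lt_of_lt_of_le (Nat.pos_of_ne_zero hne)
      (Finset.single_le_sum (f := k) (fun _ _ => Nat.zero_le _) hmem)
  · refine le_trans (Finset.sum_le_sum (g := fun l => Mt l l₀) ?_) (mt_sum_le _ _)
    intro l hl
    by_cases h0 : k l = 0
    · rw [h0]; exact Nat.zero_le _
    have hne : ipn n l.prod ψ ≠ 0 := by
      rw [hk l hl]
      exact_mod_cast h0
    obtain ⟨hc1, hc2⟩ := b44_isCusp (tuples_cusp hψ h₀ hl hne)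
    have hCL : CL n l := ⟨hc1, by rw [hc2]; exact h₀.1.2⟩
    obtain ⟨f', hf', hsp⟩ := natC_split (natC_list h₀.1) hψ h₀.2
    obtain ⟨j, hj⟩ := natC_ip (natC_list hCL) hf'
    have h1 := ipn_list hCL h₀.1
    rw [hsp, ipn_add_right, hk l hl, hj] at h1
    have h2 : k l + j = Mt l l₀ := by exact_mod_cast h1
    show k l ≤ Mt l l₀
    omega

end Pool.Agent.Lib.MP_fa0f6c_al.Cx.B
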