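import Mathlib
import Pool.Agent.Lib.MP_fa0f6c_al.Cx.Defs
import Pool.Agent.Lib.MP_fa0f6c_al.Cx.BDefs
import Pool.Agent.Lib.MP_fa0f6c_al.Cx.B06
import Pool.Agent.Lib.MP_fa0f6c_al.Cx.B43
import Pool.Agent.Lib.MP_fa0f6c_al.Cx.R07

/-! Central characters. -/

set_option autoImplicit false

namespace Pool.Agent.Lib.MP_fa0f6c_al.Cx.B

open scoped ComplexConjugate

variable {F : Type} [Field F] [Finite F]

private theorem b45_central {G : Type} [Group G] [Finite G] {χ : G → ℂ} (h : χ ∈ Irr G)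
    (x y : G) (hy : ∀ t : G, t * y = y * t) : χ 1 * χ (x * y) = χ x * χ y := by
  classical
  have := Fintype.ofFinite G
  have h1 := irr_mul_avg h x y
  have h2 : ∀ t : G, χ (x * (t * y * t⁻¹)) = χ (x * y) := by
    intro t
    rw [hy t, mul_inv_cancel_right]
  simp only [h2] at h1
  rw [finsum_eq_sum_of_fintype, Finset.sum_const, Finset.card_univ, nsmul_eq_mul,
    Nat.card_eq_fintype_card] at h1
  have hc : (Fintype.card G : ℂ) ≠ 0 := by
    exact_mod_cast Fintype.card_ne_zero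
  refine mul_left_cancel₀ hc ?_
  linear_combination h1

/-- HINT: for `y` central in `G`, `irr_mul_avg` gives `χ 1 * χ (x * y) = χ x * χ y`. So
`ω z = sval τ m z / τ.gl m 1` is multiplicative in `z ≠ 0`, `ω 1 = 1`, `ω ζ ^ N = 1`, so
`ω ζ = η ^ t` for some `t` (`IsPrimitiveRoot.eq_pow_of_pow_eq_one`). -/
theorem central_char {m : ℕ} {τ : UCF F} (hτ : τ ∈ IrrC F m) (ζ : F) (N : ℕ) (hN : 0 < N)
    (hζ : ζ ^ N = 1) (η : ℂ) (hη : IsPrimitiveRoot η N) :
    ∃ t : ℕ, ∀ j : ℕ, sval τ m (ζ ^ j) = τ.gl m 1 * η ^ (t * j) := by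
  classical
  obtain ⟨d, hd0, hd, -⟩ := irrC_dim hτ
  have hχ := hτ.2
  have h10 : τ.gl m 1 ≠ 0 := by
    rw [hd]
    exact_mod_cast hd0.ne'
  have hζ0 : ζ ≠ 0 := by
    rintro rfl
    rw [zero_pow hN.ne'] at hζ
    exact zero_ne_one hζ
  let u : Matrix.GeneralLinearGroup (Fin m) F :=
    Units.map (Matrix.scalar (Fin m) : F →+* Matrix (Fin m) (Fin m) F).toMonoidHom
      (Units.mk0 ζ hζ0)
  have hu : ∀ j : ℕ, ((u ^ j : Matrix.GeneralLinearGroup (Fin m) F) :
      Matrix (Fin m) (Fin m) F) = Matrix.scalar (Fin m) (ζ ^ j) := by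
    intro j
    rw [Units.val_pow_eq_pow_val, map_pow]
    rfl
  have hcomm : ∀ t : Matrix.GeneralLinearGroup (Fin m) F, t * u = u * t := by
    intro t
    apply Units.ext
    rw [Units.val_mul, Units.val_mul]
    have h1 := hu 1
    rw [pow_one, pow_one] at h1
    rw [h1]
    exact (Matrix.scalar_commute ζ (fun r => Commute.all _ _) (t : Matrix (Fin m) (Fin m) F)).symm
  have hsv : ∀ j : ℕ, sval τ m (ζ ^ j) = τ.gl m (u ^ j) := by
    intro j
    unfold sval UCF.gl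
    congr 1
    rw [hu j]
    ext v i
    simp [Matrix.scalar_apply, Pi.single_apply]
  have huN : u ^ N = 1 := by
    apply Units.ext
    rw [hu N, hζ, map_one]
    rfl
  set ω : ℂ := τ.gl m u / τ.gl m 1 with hω
  have hpow : ∀ j : ℕ, τ.gl m (u ^ j) = τ.gl m 1 * ω ^ j := by
    intro j
    induction j with
    | zero => simp
    | succ j ih =>
      have h1 := b45_central hχ (u ^ j) u hcomm
      have h2 : τ.gl m 1 * τ.gl m (u ^ j * u) = τ.gl m (u ^ j) * τ.gl m u := h1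
      rw [← pow_succ, ih] at h2
      have h3 : τ.gl m (u ^ (j + 1)) = ω ^ j * τ.gl m u := by
        refine mul_left_cancel₀ h10 ?_
        rw [h2]; ring
      rw [h3, hω]
      field_simp
      rw [pow_succ]
      field_simp
  have hωN : ω ^ N = 1 := by
    have h1 := hpow N
    rw [huN] at h1
    have h2 : τ.gl m 1 * ω ^ N = τ.gl m 1 * 1 := by rw [← h1, mul_one]
    exact mul_left_cancel₀ h10 h2
  have : NeZero N := ⟨hN.ne'⟩
  obtain ⟨t, _, ht⟩ := hη.eq_pow_of_pow_eq_one hωN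
  refine ⟨t, fun j => ?_⟩
  rw [hsv, hpow, ← ht, ← pow_mul]

end Pool.Agent.Lib.MP_fa0f6c_al.Cx.B
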