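import Mathlib

/-! Nonvanishing modulo a prime ideal, and divisibility (pure algebraic number theory). -/

set_option autoImplicit false

namespace Pool.Agent.Lib.MP_fa0f6c_al.Cx.B

/-- the ring of algebraic integers in `ℂ` -/
abbrev AI : Type := integralClosure ℤ ℂ

/-- HINT: `l` is not a unit of `AI` (`1 / l` is not integral, `IsIntegrallyClosed ℤ`);
`exists_max_ideal_of_mem_nonunits`. If `l ∤ n` and `n ∈ P` then `1 ∈ P` by Bezout. -/
theorem exists_prime_over (l : ℕ) (hl : l.Prime) :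
    ∃ P : Ideal AI, P.IsPrime ∧ ∀ n : ℕ, (n : AI) ∈ P ↔ l ∣ n := by
  have hlp : Prime (l : ℤ) := Nat.prime_iff_prime_int.1 hl
  have hP : (Ideal.span {(l : ℤ)}).IsPrime := (Ideal.span_singleton_prime hlp.ne_zero).2 hlp
  have hinj : Function.Injective (algebraMap ℤ AI) := by
    intro a b h
    have h1 := congrArg (Subtype.val : AI → ℂ) h
    have h2 : ((a : ℤ) : ℂ) = (b : ℂ) := by simpa using h1
    exact_mod_cast h2
  have hker : RingHom.ker (algebraMap ℤ AI) ≤ Ideal.span {(l : ℤ)} := by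
    rw [(RingHom.injective_iff_ker_eq_bot _).1 hinj]
    exact bot_le
  obtain ⟨Q, hQ, hQP⟩ := Ideal.exists_ideal_over_prime_of_isIntegral_of_isDomain
    (R := ℤ) (S := AI) (Ideal.span {(l : ℤ)}) hker
  refine ⟨Q, hQ, fun n => ?_⟩
  have h1 : (n : AI) = algebraMap ℤ AI (n : ℤ) := by simp
  rw [h1, ← Ideal.mem_comap, hQP, Ideal.mem_span_singleton]
  exact Int.natCast_dvd_natCast

/-- PROOF. Let `S c = ∑_j k j * η^(b j * c)`. If `l = N`: `η ≡ 1` modulo `P` (`(η - 1)^N ≡ η^N - 1 = 0` in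
characteristic `N`), so `S 1 ≡ ∑ k j`, which is positive and `< l`. If `l ≠ N`: suppose `S c ∈ P` for
`0 < c < N`. For a residue `r` modulo `N` let `K r = ∑_{b j ≡ r} k j`. Then
`N * K r = ∑_{c < N} η^(-r c) S c ≡ S 0 = ∑ k j` modulo `P`. So all `K r`, `r < N`, are congruent modulo `P`, hence
modulo `l` (as `l ≠ N` is prime, `N ∉ P`), hence equal (they are `< l`). Their sum is `< N`, so they all
vanish, contradiction. -/
theorem nonvanish {ι : Type*} (J : Finset ι) (k b : ι → ℕ) (N l : ℕ) (hN : N.Prime)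
    (hl : l.Prime) (hpos : 0 < ∑ j ∈ J, k j) (hkN : ∑ j ∈ J, k j < N) (hkl : ∑ j ∈ J, k j < l)
    (P : Ideal AI) (hP : P.IsPrime) (hPl : ∀ n : ℕ, (n : AI) ∈ P ↔ l ∣ n) (η : AI)
    (hη : IsPrimitiveRoot η N) :
    ∃ c : ℕ, 0 < c ∧ c < N ∧ ∑ j ∈ J, (k j : AI) * η ^ (b j * c) ∉ P := by
  classical
  have hfl : Fact l.Prime := ⟨hl⟩
  set K : ℕ := ∑ j ∈ J, k j with hK
  let q : AI →+* AI ⧸ P := Ideal.Quotient.mk P
  have hq0 : ∀ x : AI, q x = 0 ↔ x ∈ P := fun x => Ideal.Quotient.eq_zero_iff_mem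
  have hqn : ∀ n : ℕ, ((n : AI ⧸ P)) = 0 ↔ l ∣ n := by
    intro n
    rw [← hPl, ← hq0, map_natCast]
  have hchar : CharP (AI ⧸ P) l := ⟨fun n => hqn n⟩
  have hdom : IsDomain (AI ⧸ P) := Ideal.Quotient.isDomain P
  by_cases hlN : l = N
  · refine ⟨1, one_pos, hN.one_lt, ?_⟩
    rw [← hq0, map_sum]
    have h1 : q η = 1 := by
      have h2 : (q η - 1) ^ l = 0 := by
        rw [sub_pow_char, one_pow, ← map_pow, hlN, hη.pow_eq_one, map_one, sub_self]
      exact sub_eq_zero.1 (pow_eq_zero_iff hl.ne_zero |>.1 h2)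
    have h3 : ∑ j ∈ J, q ((k j : AI) * η ^ (b j * 1)) = ((K : ℕ) : AI ⧸ P) := by
      rw [hK, Nat.cast_sum]
      refine Finset.sum_congr rfl fun j _ => ?_
      rw [map_mul, map_pow, h1, one_pow, mul_one, map_natCast]
    rw [h3, hqn]
    exact fun h => absurd (Nat.le_of_dvd hpos h) (not_le.2 hkl)
  · by_contra hcon
    push Not at hcon
    have hS : ∀ c, 0 < c → c < N → ∑ j ∈ J, ((k j : ℕ) : AI ⧸ P) * (q η) ^ (b j * c) = 0 := by
      intro c h1 h2
      have h3 := (hq0 _).2 (hcon c h1 h2)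
      rw [map_sum] at h3
      rw [← h3]
      refine Finset.sum_congr rfl fun j _ => ?_
      rw [map_mul, map_pow, map_natCast]
    let Kr : ℕ → ℕ := fun r => ∑ j ∈ J, if b j % N = r then k j else 0
    have hgeo : ∀ m : ℕ, ∑ c ∈ Finset.range N, (q η) ^ (m * c) =
        if N ∣ m then ((N : ℕ) : AI ⧸ P) else 0 := by
      intro m
      have h0 : ∑ c ∈ Finset.range N, η ^ (m * c) = if N ∣ m then ((N : ℕ) : AI) else 0 := by
        split_ifs with h
        · have h1 : η ^ m = 1 := hη.pow_eq_one_iff_dvd m |>.2 h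
          have h2 : ∀ c ∈ Finset.range N, η ^ (m * c) = 1 := by
            intro c _
            rw [pow_mul, h1, one_pow]
          rw [Finset.sum_congr rfl h2]
          simp
        · have hcop : m.Coprime N := ((Nat.Prime.coprime_iff_not_dvd hN).2 h).symm
          have h1 := (hη.pow_of_coprime m hcop).geom_sum_eq_zero hN.one_lt
          rw [← h1]
          refine Finset.sum_congr rfl fun c _ => ?_
          rw [pow_mul]
      have h3 := congrArg q h0
      rw [map_sum] at h3
      have h4 : ∀ c ∈ Finset.range N, q (η ^ (m * c)) = (q η) ^ (m * c) := fun c _ => map_pow q _ _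
      rw [Finset.sum_congr rfl h4] at h3
      rw [h3]
      split_ifs
      · exact map_natCast q N
      · exact map_zero q
    have hkey : ∀ r, r < N → ((N * Kr r : ℕ) : AI ⧸ P) = ((K : ℕ) : AI ⧸ P) := by
      intro r hr
      have h1 : ∑ c ∈ Finset.range N, (q η) ^ ((N - r) * c) *
          (∑ j ∈ J, ((k j : ℕ) : AI ⧸ P) * (q η) ^ (b j * c)) = ((K : ℕ) : AI ⧸ P) := by
        rw [Finset.sum_eq_single 0]
        · rw [mul_zero, pow_zero, one_mul, hK, Nat.cast_sum]
          refine Finset.sum_congr rfl fun j _ => ?_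
          rw [mul_zero, pow_zero, mul_one]
        · intro c hc hc0
          rw [hS c (Nat.pos_of_ne_zero hc0) (Finset.mem_range.1 hc), mul_zero]
        · intro h
          exact absurd (Finset.mem_range.2 hN.pos) h
      have h2 : ∑ c ∈ Finset.range N, (q η) ^ ((N - r) * c) *
          (∑ j ∈ J, ((k j : ℕ) : AI ⧸ P) * (q η) ^ (b j * c)) =
          ∑ j ∈ J, ((k j : ℕ) : AI ⧸ P) *
            ∑ c ∈ Finset.range N, (q η) ^ ((N - r + b j) * c) := by
        simp only [Finset.mul_sum]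
        rw [Finset.sum_comm]
        refine Finset.sum_congr rfl fun j _ => Finset.sum_congr rfl fun c _ => ?_
        rw [add_mul, pow_add]
        ring
      have h3 : ∀ j ∈ J, ((k j : ℕ) : AI ⧸ P) *
          ∑ c ∈ Finset.range N, (q η) ^ ((N - r + b j) * c) =
          ((N : ℕ) : AI ⧸ P) * (((if b j % N = r then k j else 0 : ℕ)) : AI ⧸ P) := by
        intro j _
        rw [hgeo]
        have hiff : N ∣ N - r + b j ↔ b j % N = r := by
          constructor
          · intro h
            have h4 : (N - r + b j) % N = 0 := Nat.mod_eq_zero_of_dvd h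
            have h5 : (N - r + b j + r) % N = r := by
              rw [Nat.add_mod, h4, zero_add, Nat.mod_mod, Nat.mod_eq_of_lt hr]
            have h6 : N - r + b j + r = b j + N := by omega
            rw [h6, Nat.add_mod_right] at h5
            exact h5
          · intro h
            have h4 := Nat.div_add_mod (b j) N
            rw [h] at h4
            refine ⟨b j / N + 1, ?_⟩
            have h5 : N - r + b j = N * (b j / N) + N := by omega
            rw [h5]; ring
        by_cases h : b j % N = r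
        · rw [if_pos (hiff.2 h), if_pos h, mul_comm]
        · rw [if_neg (fun h' => h (hiff.1 h')), if_neg h]
          simp
      rw [h2, Finset.sum_congr rfl h3, ← Finset.mul_sum, ← Nat.cast_sum, ← Nat.cast_mul] at h1
      exact h1
    have hKr_le : ∀ r, Kr r ≤ K := by
      intro r
      refine Finset.sum_le_sum fun j _ => ?_
      split_ifs
      · exact le_rfl
      · exact Nat.zero_le _
    have hcopl : Nat.Coprime l N := (Nat.coprime_primes hl hN).2 hlN
    have heq : ∀ r, r < N → Kr r = Kr 0 := by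
      intro r hr
      have h1 : ((N * Kr r : ℕ) : AI ⧸ P) = ((N * Kr 0 : ℕ) : AI ⧸ P) := by
        rw [hkey r hr, hkey 0 hN.pos]
      have h2 : N * Kr r ≡ N * Kr 0 [MOD l] := (CharP.natCast_eq_natCast (AI ⧸ P) l).1 h1
      have h3 : Kr r ≡ Kr 0 [MOD l] := Nat.ModEq.cancel_left_of_coprime hcopl h2
      exact Nat.ModEq.eq_of_lt_of_lt h3 (lt_of_le_of_lt (hKr_le r) hkl)
        (lt_of_le_of_lt (hKr_le 0) hkl)
    have hsum : ∑ r ∈ Finset.range N, Kr r = K := by
      rw [Finset.sum_comm, hK]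
      refine Finset.sum_congr rfl fun j _ => ?_
      rw [Finset.sum_ite_eq, if_pos (Finset.mem_range.2 (Nat.mod_lt _ hN.pos))]
    have hsum2 : ∑ r ∈ Finset.range N, Kr r = N * Kr 0 := by
      rw [Finset.sum_congr rfl (fun r hr => heq r (Finset.mem_range.1 hr))]
      simp
    rw [hsum2] at hsum
    rcases Nat.eq_zero_or_pos (Kr 0) with h | h
    · rw [h, mul_zero] at hsum
      omega
    · have := Nat.le_mul_of_pos_right N h
      omega

/-- HINT: write `h = l^a h'`, `M = l^b M'` and suppose `a < b`; `x = h s / (R M)` integral gives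
`l^(b-a) R M' x = h' s`, the left side is in `P`, so `h' ∈ P` or `s ∈ P`. -/
theorem val_le_of_integral (l : ℕ) (hl : l.Prime) (P : Ideal AI) (hP : P.IsPrime)
    (hPl : ∀ n : ℕ, (n : AI) ∈ P ↔ l ∣ n) (h M R : ℕ) (hh : h ≠ 0) (hM : M ≠ 0) (hR : ¬ l ∣ R)
    (s : AI) (hs : s ∉ P) (hx : IsIntegral ℤ ((h : ℂ) * (s : ℂ) / ((R : ℂ) * (M : ℂ)))) :
    padicValNat l M ≤ padicValNat l h := by
  have hfl : Fact l.Prime := ⟨hl⟩
  by_contra hlt
  push Not at hlt
  have hR0 : R ≠ 0 := by
    rintro rfl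
    exact hR (dvd_zero l)
  obtain ⟨h', hh'⟩ : l ^ padicValNat l h ∣ h := pow_padicValNat_dvd
  obtain ⟨M', hM'⟩ : l ^ padicValNat l M ∣ M := pow_padicValNat_dvd
  set a := padicValNat l h with ha
  set c := padicValNat l M with hc
  have hldh : ¬ l ∣ h' := by
    intro hd
    obtain ⟨t, ht⟩ := hd
    have h1 : l ^ (a + 1) ∣ h := ⟨t, by rw [hh', ht]; ring⟩
    have h2 := (padicValNat_dvd_iff_le hh).1 h1
    omega
  let x : AI := ⟨(h : ℂ) * (s : ℂ) / ((R : ℂ) * (M : ℂ)), hx⟩
  have hRC : (R : ℂ) ≠ 0 := by exact_mod_cast hR0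
  have hMC : (M : ℂ) ≠ 0 := by exact_mod_cast hM
  have e1 : (h : AI) * s = x * ((R : AI) * (M : AI)) := by
    apply Subtype.ext
    show ((h : AI) : ℂ) * (s : ℂ) =
      ((h : ℂ) * (s : ℂ) / ((R : ℂ) * (M : ℂ))) * (((R : AI) : ℂ) * ((M : AI) : ℂ))
    have c1 : ((h : AI) : ℂ) = (h : ℂ) := by simp
    have c2 : ((R : AI) : ℂ) = (R : ℂ) := by simp
    have c3 : ((M : AI) : ℂ) = (M : ℂ) := by simp
    rw [c1, c2, c3]
    field_simp
  have hl0 : (l : AI) ≠ 0 := by
    intro h0
    have h1 := congrArg (Subtype.val : AI → ℂ) h0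
    have h2 : (l : ℂ) = 0 := by simpa using h1
    have h3 : l = 0 := by exact_mod_cast h2
    exact hl.ne_zero h3
  have e2 : (l : AI) ^ a * ((h' : AI) * s) =
      (l : AI) ^ a * ((l : AI) ^ (c - a) * (x * ((R : AI) * (M' : AI)))) := by
    have e3 : (h : AI) = (l : AI) ^ a * (h' : AI) := by
      conv_lhs => rw [hh']
      push_cast; ring
    have e4 : (M : AI) = (l : AI) ^ c * (M' : AI) := by
      conv_lhs => rw [hM']
      push_cast; ring
    have e5 : (l : AI) ^ c = (l : AI) ^ a * (l : AI) ^ (c - a) := by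
      rw [← pow_add]
      congr 1
      omega
    rw [e3, e4, e5] at e1
    linear_combination e1
  have e6 := mul_left_cancel₀ (pow_ne_zero a hl0) e2
  have hlP : (l : AI) ∈ P := (hPl l).2 dvd_rfl
  have h7 : (h' : AI) * s ∈ P := by
    rw [e6]
    apply P.mul_mem_right
    exact P.pow_mem_of_mem hlP _ (by omega)
  rcases hP.mem_or_mem h7 with h8 | h8
  · exact hldh ((hPl h').1 h8)
  · exact hs h8

end Pool.Agent.Lib.MP_fa0f6c_al.Cx.B
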