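import Mathlib
import Pool.Agent.Lib.MP_fa0f6c_al.Cx.Defs
import Pool.Agent.Lib.MP_fa0f6c_al.Cx.BDefs
import Pool.Agent.Lib.MP_fa0f6c_al.Cx.B40
import Pool.Agent.Lib.MP_fa0f6c_al.Cx.B44
import Pool.Agent.Lib.MP_fa0f6c_al.Cx.B45
import Pool.Agent.Lib.MP_fa0f6c_al.Cx.B46

/-! (alpha). -/

set_option autoImplicit false

namespace Pool.Agent.Lib.MP_fa0f6c_al.Cx.B

open scoped ComplexConjugate Nat

variable {F : Type} [Field F] [Finite F]

/-- The list of blocks `(m_i, ζ^(c i))`. -/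
def zlist (ζ : F) (c : ℕ) (ms : List ℕ) : List (ℕ × F) :=
  ms.zipIdx.map (fun p => (p.1, ζ ^ (c * p.2)))

private theorem B47_pv (N : ℕ) (hN : 0 < N) (ζ : F) (hζ : ζ ^ N = 1) (η : ℂ)
    (hη : IsPrimitiveRoot η N) {ms : List ℕ} {l : List (UCF F)}
    (h : List.Forall₂ (fun m τ => Cusp m τ) ms l) :
    ∀ s : ℕ, ∃ b : ℕ, ∀ c : ℕ, pv ((ms.zipIdx s).map (fun p => (p.1, ζ ^ (c * p.2)))) l =
      (ms.map (fun m => ∏ i ∈ Finset.range (m - 1), ((Nat.card F : ℂ) ^ (i + 1) - 1))).prod *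
        η ^ (b * c) := by
  induction h with
  | nil =>
    intro s
    refine ⟨0, fun c => ?_⟩
    simp [pv]
  | @cons m τ ms l hm _ ih =>
    intro s
    obtain ⟨b, hb⟩ := ih (s + 1)
    obtain ⟨t, ht⟩ := central_char hm.2.1 ζ N hN hζ η hη
    obtain ⟨Ψ, hΨ⟩ : ∃ Ψ : AddChar F ℂ, Ψ 1 ≠ 1 :=
      AddChar.exists_apply_ne_zero.2 one_ne_zero
    have h1 := (cusp_wh Ψ ⟨1, hΨ⟩ hm).2
    refine ⟨t * s + b, fun c => ?_⟩
    rw [List.zipIdx_cons, List.map_cons, List.map_cons, List.prod_cons]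
    change sval τ m (ζ ^ (c * s)) * pv _ l = _
    rw [ht, h1, hb c]
    ring

/-- The value of `ψ` at the block scalar element. HINT: `exists_block_scalar` for
`L = zlist ζ c (l₀.map dg)` (the `ζ^(c i)`, `i < s`, are pairwise different as `0 < c < N`, `s ≤ N`, `N` prime),
`ev_eq`, `tuples_sum`, `tuples_cusp`, `central_char` for each cuspidal `τ_i`
(`pv L l = ∏ τ_i(1) * η^(c ∑ i t_i)`), `cusp_wh` for the degrees. -/
theorem value_block {n : ℕ} {ψ : UCF F} (hψ : ψ ∈ IrrC F n) {l₀ : List (UCF F)}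
    (h₀ : Has n ψ l₀) (N : ℕ) (hN : N.Prime) (hs : l₀.length ≤ N) (ζ : F)
    (hζ : IsPrimitiveRoot ζ N) (η : ℂ) (hη : IsPrimitiveRoot η N) :
    ∃ (k b : List (UCF F) → ℕ),
      0 < ∑ l ∈ tuples F (l₀.map dg), k l ∧
      ∑ l ∈ tuples F (l₀.map dg), k l ≤ (l₀.length)! ∧
      ∀ c : ℕ, 0 < c → c < N →
        ∃ (V : Type) (_ : AddCommGroup V) (_ : Module F V) (_ : Finite V) (x : V ≃ₗ[F] V),
          Module.finrank F V = n ∧
          Nat.card (Subgroup.centralizer {x}) = ((l₀.map dg).map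
            (fun m => Nat.card (Matrix.GeneralLinearGroup (Fin m) F))).prod ∧
          ψ.val (x : V →ₗ[F] V) =
            ((l₀.map dg).map (fun m => ∏ i ∈ Finset.range (m - 1),
              ((Nat.card F : ℂ) ^ (i + 1) - 1))).prod *
            ∑ l ∈ tuples F (l₀.map dg), (k l : ℂ) * η ^ (b l * c) := by
  classical
  obtain ⟨k, hk, hk0, hk1⟩ := tuples_sum hψ h₀
  have hb : ∀ l : List (UCF F), ∃ b : ℕ, l ∈ tuples F (l₀.map dg) → k l ≠ 0 → ∀ c : ℕ,
      pv (zlist ζ c (l₀.map dg)) l = ((l₀.map dg).map (fun m => ∏ i ∈ Finset.range (m - 1),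
        ((Nat.card F : ℂ) ^ (i + 1) - 1))).prod * η ^ (b * c) := by
    intro l
    by_cases hl : l ∈ tuples F (l₀.map dg) ∧ k l ≠ 0
    · have hc : List.Forall₂ (fun m τ => Cusp m τ) (l₀.map dg) l := by
        apply tuples_cusp hψ h₀ hl.1
        rw [hk l hl.1]
        exact_mod_cast hl.2
      obtain ⟨b, hb⟩ := B47_pv N hN.pos ζ hζ.pow_eq_one η hη hc 0
      exact ⟨b, fun _ _ => hb⟩
    · exact ⟨0, fun h1 h2 => absurd ⟨h1, h2⟩ hl⟩
  choose b hb using hb
  refine ⟨k, b, hk0, hk1, fun c hc0 hcN => ?_⟩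
  have hfst : (zlist ζ c (l₀.map dg)).map Prod.fst = l₀.map dg := by
    unfold zlist
    rw [List.map_map]
    have : (Prod.fst ∘ fun p : ℕ × ℕ => (p.1, ζ ^ (c * p.2))) = Prod.fst := rfl
    rw [this, List.zipIdx_map_fst]
  have hsnd : (zlist ζ c (l₀.map dg)).map Prod.snd =
      (List.range' 0 (l₀.map dg).length).map (fun i => ζ ^ (c * i)) := by
    unfold zlist
    rw [List.map_map]
    have : (Prod.snd ∘ fun p : ℕ × ℕ => (p.1, ζ ^ (c * p.2))) =
      (fun i => ζ ^ (c * i)) ∘ Prod.snd := rfl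
    rw [this, ← List.map_map, List.zipIdx_map_snd]
  have hprim : IsPrimitiveRoot (ζ ^ c) N := by
    apply hζ.pow_of_coprime c
    apply Nat.Coprime.symm
    rw [Nat.Prime.coprime_iff_not_dvd hN]
    exact fun h => absurd (Nat.le_of_dvd hc0 h) (not_le.2 hcN)
  have hnd : ((zlist ζ c (l₀.map dg)).map Prod.snd).Nodup := by
    rw [hsnd]
    apply List.Nodup.map_on _ List.nodup_range'
    intro i hi j hj hij
    simp only [List.mem_range'_1, List.length_map, zero_add, zero_le, true_and] at hi hj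
    have h1 : (ζ ^ c) ^ i = (ζ ^ c) ^ j := by
      rw [← pow_mul, ← pow_mul]
      exact hij
    exact hprim.pow_inj (lt_of_lt_of_le hi hs) (lt_of_lt_of_le hj hs) h1
  have hζ0 : ζ ≠ 0 := hζ.ne_zero hN.ne_zero
  have h0 : ∀ p ∈ zlist ζ c (l₀.map dg), p.2 ≠ 0 := by
    intro p hp
    unfold zlist at hp
    rw [List.mem_map] at hp
    obtain ⟨q, _, rfl⟩ := hp
    exact pow_ne_zero _ hζ0
  obtain ⟨V, i1, i2, i3, x, hx1, _, hx2, hx3⟩ := exists_block_scalar (zlist ζ c (l₀.map dg)) hnd h0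
  refine ⟨V, i1, i2, i3, x, ?_, ?_, ?_⟩
  · rw [hx1, hfst]
    exact h₀.1.2
  · rw [hx3]
    have : (fun p : ℕ × F => Nat.card (Matrix.GeneralLinearGroup (Fin p.1) F)) =
        (fun m => Nat.card (Matrix.GeneralLinearGroup (Fin m) F)) ∘ Prod.fst := rfl
    rw [this, ← List.map_map, hfst]
  · rw [hx2, ev_eq (zlist ζ c (l₀.map dg)) (n := n) (by rw [hfst]; exact h₀.1.2) hψ.1, hfst,
      Finset.mul_sum]
    refine Finset.sum_congr rfl (fun l hl => ?_)
    rw [hk l hl]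
    by_cases h : k l = 0
    · rw [h]
      simp
    · rw [hb l hl h c, Complex.conj_natCast]
      ring

private theorem B47_pos {n : ℕ} {l : List (UCF F)} (h : CL n l) : ∀ m ∈ l.map dg, 0 < m := by
  intro m hm
  rw [List.mem_map] at hm
  obtain ⟨ρ, hρ, rfl⟩ := hm
  obtain ⟨m, hm⟩ := h.1 ρ hρ
  rw [dg_eq hm]
  exact hm.1

private theorem B47_length (ms : List ℕ) (h : ∀ m ∈ ms, 0 < m) : ms.length ≤ ms.sum := by
  induction ms with
  | nil => simp
  | cons m ms ih =>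
    rw [List.length_cons, List.sum_cons]
    have h1 := ih (fun m hm => h m (List.mem_cons_of_mem _ hm))
    have h2 := h m List.mem_cons_self
    omega

private theorem B47_card (hQ : 1 < Nat.card F) (ms : List ℕ) (h : ∀ m ∈ ms, 0 < m) :
    ∃ e : ℕ, (((ms.map (fun m => Nat.card (Matrix.GeneralLinearGroup (Fin m) F))).prod : ℕ) : ℂ) =
      ((Nat.card F ^ e : ℕ) : ℂ) * (((ms.map (fun m => Nat.card F ^ m - 1)).prod : ℕ) : ℂ) *
      (ms.map (fun m => ∏ i ∈ Finset.range (m - 1), ((Nat.card F : ℂ) ^ (i + 1) - 1))).prod := by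
  induction ms with
  | nil => exact ⟨0, by simp⟩
  | cons m ms ih =>
    obtain ⟨e, he⟩ := ih (fun m hm => h m (List.mem_cons_of_mem _ hm))
    refine ⟨m * (m - 1) / 2 + e, ?_⟩
    rw [List.map_cons, List.prod_cons, List.map_cons, List.prod_cons, List.map_cons,
      List.prod_cons, Nat.cast_mul, he, card_GL_formula m (h m List.mem_cons_self)]
    have h1 : ((∏ i ∈ Finset.range (m - 1), (Nat.card F ^ (i + 1) - 1) : ℕ) : ℂ) =
        ∏ i ∈ Finset.range (m - 1), ((Nat.card F : ℂ) ^ (i + 1) - 1) := by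
      rw [Nat.cast_prod]
      refine Finset.prod_congr rfl (fun i _ => ?_)
      rw [Nat.cast_sub (Nat.one_le_pow _ _ (by omega)), Nat.cast_pow, Nat.cast_one]
    rw [Nat.cast_mul, Nat.cast_mul, h1, pow_add]
    push_cast
    ring

private theorem B47_val (l : ℕ) (hl : l.Prime) (ms : List ℕ) (h : ∀ m ∈ ms, m ≠ 0) :
    (ms.map (fun m => padicValNat l m)).sum = padicValNat l ms.prod := by
  have : Fact l.Prime := ⟨hl⟩
  induction ms with
  | nil => simp
  | cons m ms ih =>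
    have h1 := ih (fun m hm => h m (List.mem_cons_of_mem _ hm))
    rw [List.map_cons, List.sum_cons, List.prod_cons, h1,
      padicValNat.mul (h m List.mem_cons_self)]
    exact List.prod_ne_zero (fun h0 => h 0 (List.mem_cons_of_mem _ h0) rfl)

/-- (alpha). HINT: `s = l₀.length ≤ n`, `s! ≤ n! < l₁, l`. A primitive `l₁`-th root of unity `ζ ∈ F` exists
(`l₁ ∣ Q - 1`, `F` cyclic: `IsCyclic`/`HasEnoughRootsOfUnity`), `η` in `ℂ`. `exists_prime_over l`, `value_block`,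
`nonvanish` give `c` with `Sg = ∑ k η^(b c) ∉ P`. `irr_central_integral` for `ψ.on V` (`irr_on`, `card_on`, `on_one`)
at `x`: `|GL_n| ψ(x) / (|C(x)| ψ(1)) = k * Sg / (Q^e ∏ (Q^{m_i} - 1))` is integral (`card_GL_formula`), and
`val_le_of_integral` with `M = ∏ (Q^{m_i} - 1)`, `padicValNat` of the product is the sum. -/
theorem alpha_core {n : ℕ} {ψ : UCF F} (hψ : ψ ∈ IrrC F n) {l₀ : List (UCF F)}
    (h₀ : Has n ψ l₀) {k : ℕ} (hk : H n ψ k) (l₁ l : ℕ) (hl₁ : l₁.Prime)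
    (hl₁Q : l₁ ∣ Nat.card F - 1) (hl₁n : n ! < l₁) (hl : l.Prime) (hln : n ! < l)
    (hlQ : ¬ l ∣ Nat.card F) :
    ((l₀.map dg).map (fun m => padicValNat l (Nat.card F ^ m - 1))).sum ≤ padicValNat l k := by
  classical
  have hQ : 1 < Nat.card F := Finite.one_lt_card
  have hpos := B47_pos h₀.1
  have hlen : l₀.length ≤ n := by
    have := B47_length (l₀.map dg) hpos
    rwa [List.length_map, h₀.1.2] at this
  have hfac : (l₀.length)! ≤ n ! := Nat.factorial_le hlen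
  have hs : l₀.length ≤ l₁ := by
    have := Nat.self_le_factorial l₀.length
    omega
  -- roots of unity
  obtain ⟨ζ, hζ⟩ : ∃ ζ : F, IsPrimitiveRoot ζ l₁ := by
    have : Fact l₁.Prime := ⟨hl₁⟩
    have hd : l₁ ∣ Nat.card Fˣ := by rwa [Nat.card_units]
    obtain ⟨u, hu⟩ := exists_prime_orderOf_dvd_card' l₁ hd
    refine ⟨u, ?_⟩
    rw [IsPrimitiveRoot.coe_units_iff, ← hu]
    exact IsPrimitiveRoot.orderOf u
  have hη : IsPrimitiveRoot (Complex.exp (2 * Real.pi * Complex.I / l₁)) l₁ :=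
    Complex.isPrimitiveRoot_exp l₁ hl₁.ne_zero
  set η : ℂ := Complex.exp (2 * Real.pi * Complex.I / l₁) with hηdef
  let ηI : AI := ⟨η, hη.isIntegral hl₁.pos⟩
  have hηI : IsPrimitiveRoot ηI l₁ := by
    refine IsPrimitiveRoot.of_map_of_injective (f := (integralClosure ℤ ℂ).val) ?_ Subtype.val_injective
    exact hη
  obtain ⟨P, hP, hPl⟩ := exists_prime_over l hl
  obtain ⟨κ, b, hκ0, hκ1, hV⟩ := value_block hψ h₀ l₁ hl₁ hs ζ hζ η hη
  obtain ⟨c, hc0, hcN, hc⟩ := nonvanish (tuples F (l₀.map dg)) κ b l₁ l hl₁ hl hκ0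
    (by omega) (by omega) P hP hPl ηI hηI
  obtain ⟨V, i1, i2, i3, x, hx1, hx2, hx3⟩ := hV c hc0 hcN
  obtain ⟨d, hd0, hd1, hd2⟩ := hk
  have hirr : ψ.on V ∈ Irr (V ≃ₗ[F] V) := (irr_on V n hx1 ψ).2 hψ.2
  have hfinV : Finite (V ≃ₗ[F] V) :=
    Finite.of_injective (fun y : V ≃ₗ[F] V => (y : V → V)) DFunLike.coe_injective
  have hint := irr_central_integral hirr x
  have h1 : ψ.on V 1 = d := by
    rw [← hd1]
    exact on_one V n hx1 ψ
  have h2 : ψ.on V x = ψ.val (x : V →ₗ[F] V) := rfl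
  obtain ⟨e, he⟩ := B47_card hQ (l₀.map dg) hpos
  set A : ℂ := ((l₀.map dg).map (fun m => ∏ i ∈ Finset.range (m - 1),
              ((Nat.card F : ℂ) ^ (i + 1) - 1))).prod with hA
  set M : ℕ := ((l₀.map dg).map (fun m => Nat.card F ^ m - 1)).prod with hM
  have hM0 : M ≠ 0 := by
    rw [hM]
    apply List.prod_ne_zero
    intro h
    rw [List.mem_map] at h
    obtain ⟨m, hm, hm2⟩ := h
    have h3 : 1 < Nat.card F ^ m := Nat.one_lt_pow (hpos m hm).ne' hQ
    omega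
  have hcard0 : Nat.card (Matrix.GeneralLinearGroup (Fin n) F) ≠ 0 := Nat.card_pos.ne'
  have hk0 : k ≠ 0 := by
    rintro rfl
    exact hcard0 (by rw [hd2, mul_zero])
  have hA0 : A ≠ 0 := by
    intro h
    have h3 : (((l₀.map dg).map (fun m => Nat.card (Matrix.GeneralLinearGroup (Fin m) F))).prod : ℕ)
        = 0 := by
      have : ((((l₀.map dg).map
        (fun m => Nat.card (Matrix.GeneralLinearGroup (Fin m) F))).prod : ℕ) : ℂ) = 0 := by
        rw [he, h, mul_zero]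
      exact_mod_cast this
    rw [List.prod_eq_zero_iff, List.mem_map] at h3
    obtain ⟨m, _, hm⟩ := h3
    exact Nat.card_pos.ne' hm
  set s : AI := ∑ j ∈ tuples F (l₀.map dg), (κ j : AI) * ηI ^ (b j * c) with hsdef
  have hsC : (s : ℂ) = ∑ j ∈ tuples F (l₀.map dg), (κ j : ℂ) * η ^ (b j * c) := by
    have : (s : ℂ) = algebraMap AI ℂ s := rfl
    rw [this, hsdef, map_sum]
    refine Finset.sum_congr rfl (fun j _ => ?_)
    rw [map_mul, map_pow, map_natCast]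
    rfl
  have hdC : (d : ℂ) ≠ 0 := by exact_mod_cast hd0.ne'
  have hMC : (M : ℂ) ≠ 0 := by exact_mod_cast hM0
  have hQC : ((Nat.card F ^ e : ℕ) : ℂ) ≠ 0 := by
    have : Nat.card F ^ e ≠ 0 := pow_ne_zero _ (by omega)
    exact_mod_cast this
  have hx : IsIntegral ℤ ((k : ℂ) * (s : ℂ) / (((Nat.card F ^ e : ℕ) : ℂ) * (M : ℂ))) := by
    convert hint using 1
    rw [h1, h2, hx3, hx2, he, card_on V n hx1, hd2, hsC, Nat.cast_mul]
    field_simp
  have hR : ¬ l ∣ Nat.card F ^ e := fun h => hlQ (hl.dvd_of_dvd_pow h)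
  have hfin := val_le_of_integral l hl P hP hPl k M (Nat.card F ^ e) hk0 hM0 hR s hc hx
  have hval := B47_val l hl ((l₀.map dg).map (fun m => Nat.card F ^ m - 1)) (by
    intro m hm h
    rw [h] at hm
    exact hM0 (by rw [hM]; exact List.prod_eq_zero hm))
  rw [List.map_map] at hval
  refine le_trans (le_of_eq ?_) hfin
  rw [hM, ← hval]
  rfl

end Pool.Agent.Lib.MP_fa0f6c_al.Cx.B
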