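import Mathlib
import Pool.Agent.Lib.MP_fa0f6c_al.Cx.Defs
import Pool.Agent.Lib.MP_fa0f6c_al.Cx.BDefs
import Pool.Agent.Lib.MP_fa0f6c_al.Cx.B38
import Pool.Agent.Lib.MP_fa0f6c_al.Cx.B41
import Pool.Agent.Lib.MP_fa0f6c_al.Cx.B47

/-! Part B: the interface. -/

set_option autoImplicit false
set_option linter.unusedVariables false

namespace Pool.Agent.Lib.MP_fa0f6c_al.Cx.B

open scoped ComplexConjugate Nat

/-- The group `GL_n(F)`. -/
abbrev GLn (F : Type) [Field F] (n : ℕ) : Type := Matrix.GeneralLinearGroup (Fin n) F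

/-- `S ψ` is a multiset of positive integers with sum `n`. -/
def B0 (F : Type) [Field F] (n : ℕ) (S : (GLn F n → ℂ) → Multiset ℕ) : Prop :=
  ∀ ψ ∈ Irr (GLn F n), (∀ m ∈ S ψ, 0 < m) ∧ (S ψ).sum = n

def BAlpha (F : Type) [Field F] (n : ℕ) (S : (GLn F n → ℂ) → Multiset ℕ) : Prop :=
  ∀ ψ ∈ Irr (GLn F n), ∀ d : ℕ, ψ 1 = d → ∀ l₁ l : ℕ, l₁.Prime → l₁ ∣ Nat.card F - 1 → n ! < l₁ →
    l.Prime → n ! < l → ¬ l ∣ Nat.card F →
    ((S ψ).map (fun m => padicValNat l (Nat.card F ^ m - 1))).sum ≤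
      padicValNat l (Nat.card (GLn F n) / d)

def BBeta (F : Type) [Field F] (n : ℕ) (S : (GLn F n → ℂ) → Multiset ℕ) : Prop :=
  ∀ ψ ∈ Irr (GLn F n), ∀ d : ℕ, ψ 1 = d → (∀ m, 1 < m → (S ψ).count m ≤ 1) →
    ∀ m₀ l : ℕ, (S ψ).count 1 < m₀ → l.Prime → ¬ l ∣ Nat.card F →
    orderOf (Nat.card F : ZMod l) = m₀ → l ∣ Nat.card (GLn F n) / d → ∃ m ∈ S ψ, 1 < m ∧ m₀ ∣ m

def BGamma (F : Type) [Field F] (n : ℕ) (S : (GLn F n → ℂ) → Multiset ℕ) : Prop :=
  ∀ T : Multiset ℕ, T.Nodup → (∀ m ∈ T, 0 < m) → T.sum = n →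
    Set.ncard {ψ | ψ ∈ Irr (GLn F n) ∧ S ψ = T} = (T.map (cuspNum F)).prod ∧
    ∀ ψ ∈ Irr (GLn F n), S ψ = T → ∀ d : ℕ, ψ 1 = d →
      Nat.card (GLn F n) / d =
        Nat.card F ^ (n * (n - 1) / 2) * (T.map (fun m => Nat.card F ^ m - 1)).prod

variable {F : Type} [Field F] [Finite F]

open Classical in
/-- the degrees of the cuspidal support -/
noncomputable def suppDeg (n : ℕ) (χ : GLn F n → ℂ) : Multiset ℕ :=
  if h : ∃ p : UCF F × List (UCF F), p.1 ∈ IrrC F n ∧ p.1.gl n = χ ∧ Has n p.1 p.2 then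
    ((h.choose.2.map dg : List ℕ) : Multiset ℕ) else 0

theorem suppDeg_eq {n : ℕ} {ψ : UCF F} (hψ : ψ ∈ IrrC F n) {l : List (UCF F)}
    (hl : Has n ψ l) : suppDeg n (ψ.gl n) = ((l.map dg : List ℕ) : Multiset ℕ) := by
  classical
  have h : ∃ p : UCF F × List (UCF F), p.1 ∈ IrrC F n ∧ p.1.gl n = ψ.gl n ∧ Has n p.1 p.2 :=
    ⟨(ψ, l), hψ, rfl, hl⟩
  unfold suppDeg
  rw [dif_pos h]
  obtain ⟨h1, h2, h3⟩ := h.choose_spec
  have he : h.choose.1 = ψ := ext_deg h1.1 hψ.1 (fun x => congrFun h2 x)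
  rw [he] at h3
  rw [Multiset.coe_eq_coe]
  exact (has_unique hψ h3 hl).map dg

/-- Every irreducible character of the group comes with all its data. -/
theorem irr_data {n : ℕ} {χ : GLn F n → ℂ} (hχ : χ ∈ Irr (GLn F n)) :
    ∃ ψ ∈ IrrC F n, ψ.gl n = χ ∧ ∃ l, Has n ψ l ∧
      suppDeg n χ = ((l.map dg : List ℕ) : Multiset ℕ) := by
  obtain ⟨ψ, hψ, he⟩ := (irrC_ncard (F := F) n).2.2 hχ
  obtain ⟨l, hl⟩ := exists_has hψ
  refine ⟨ψ, hψ, he, l, hl, ?_⟩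
  have he' : ψ.gl n = χ := he
  rw [← he']
  exact suppDeg_eq hψ hl

theorem card_div_eq {n : ℕ} {ψ : UCF F} {k d : ℕ} (hk : H n ψ k) (hd : ψ.gl n 1 = d) :
    Nat.card (GLn F n) / d = k := by
  obtain ⟨e, he, h1, h2⟩ := hk
  have : (d : ℂ) = e := by rw [← hd, h1]
  have hde : d = e := by exact_mod_cast this
  rw [hde]
  show Nat.card (Matrix.GeneralLinearGroup (Fin n) F) / e = k
  rw [h2]
  exact Nat.mul_div_cancel_left k he

/-- Part B of the blueprint. -/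
theorem B_main (F : Type) [Field F] [Finite F] (n : ℕ) (hn : 0 < n) :
    (∃ S : (GLn F n → ℂ) → Multiset ℕ, B0 F n S ∧ BAlpha F n S ∧ BBeta F n S ∧ BGamma F n S) ∧
    cuspNum F 1 = Nat.card F - 1 ∧
    ∀ m : ℕ, m.Prime → m * cuspNum F m = Nat.card F ^ m - Nat.card F := by
  classical
  refine ⟨⟨suppDeg n, ?_, ?_, ?_, ?_⟩, cuspNum_formula F⟩
  · intro χ hχ
    obtain ⟨ψ, hψ, he, l, hl, hS⟩ := irr_data hχ
    rw [hS]
    constructor
    · intro m hm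
      rw [Multiset.mem_coe, List.mem_map] at hm
      obtain ⟨ρ, hρ, rfl⟩ := hm
      obtain ⟨m, hm⟩ := hl.1.1 ρ hρ
      rw [dg_eq hm]
      exact hm.1
    · rw [Multiset.sum_coe]
      exact hl.1.2
  · intro χ hχ d hd l₁ p h1 h2 h3 h4 h5 h6
    obtain ⟨ψ, hψ, he, l, hl, hS⟩ := irr_data hχ
    obtain ⟨k, hk0, hk⟩ := exists_H hψ
    rw [← he] at hd
    rw [card_div_eq hk hd, hS, Multiset.map_coe, Multiset.sum_coe]
    exact alpha_core hψ hl hk l₁ p h1 h2 h3 h4 h5 h6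
  · intro χ hχ d hd hc m₀ p hs hp hpQ ho hdvd
    obtain ⟨ψ, hψ, he, l, hl, hS⟩ := irr_data hχ
    obtain ⟨k, hk0, hk⟩ := exists_H hψ
    rw [← he] at hd
    rw [card_div_eq hk hd] at hdvd
    rw [hS] at hc hs ⊢
    simp only [Multiset.coe_count] at hc hs
    simp only [Multiset.mem_coe]
    exact beta_core hψ hl hc hk m₀ p hs hp hpQ ho hdvd
  · intro T hT hpos hsum
    constructor
    · have h := gamma_card (F := F) (n := n) T.toList
        (by rw [← Multiset.coe_nodup, Multiset.coe_toList]; exact hT)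
        (by rw [Multiset.sum_toList]; exact hsum)
      have h2 : (T.toList.map (cuspNum F)).prod = (T.map (cuspNum F)).prod := by
        rw [← Multiset.prod_coe, ← Multiset.map_coe, Multiset.coe_toList]
      rw [← h2, ← h]
      have hinj : Set.InjOn (fun f : UCF F => f.gl n) {ψ : UCF F | ψ ∈ IrrC F n ∧
          ∃ l, Has n ψ l ∧ (l.map dg).Perm T.toList} :=
        fun a ha b hb hab => (irrC_ncard (F := F) n).2.1 ha.1 hb.1 hab
      rw [← Set.ncard_image_of_injOn hinj]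
      congr 1
      ext χ
      constructor
      · rintro ⟨hχ, hSχ⟩
        obtain ⟨ψ, hψ, he, l, hl, hS⟩ := irr_data hχ
        refine ⟨ψ, ⟨hψ, l, hl, ?_⟩, he⟩
        rw [← Multiset.coe_eq_coe, Multiset.coe_toList, ← hS]
        exact hSχ
      · rintro ⟨ψ, ⟨hψ, l, hl, hp⟩, rfl⟩
        refine ⟨hψ.2, ?_⟩
        have h3 := suppDeg_eq hψ hl
        show suppDeg n (ψ.gl n) = T
        rw [h3, ← Multiset.coe_toList T, Multiset.coe_eq_coe]
        exact hp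
    · intro χ hχ hSχ d hd
      obtain ⟨ψ, hψ, he, l, hl, hS⟩ := irr_data hχ
      rw [← he] at hd
      have hT' : T = ((l.map dg : List ℕ) : Multiset ℕ) := by rw [← hSχ]; exact hS
      have hnd : (l.map dg).Nodup := by
        rw [← Multiset.coe_nodup, ← hT']
        exact hT
      rw [card_div_eq (gamma_H hψ hl hnd) hd, hT', Multiset.map_coe, Multiset.prod_coe]

end Pool.Agent.Lib.MP_fa0f6c_al.Cx.B
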