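import Pool.Agent.Lib.MP_fa0f6c_al.Cx.CDefs

set_option autoImplicit false

namespace Pool.Agent.Lib.MP_fa0f6c_al.Cx

open scoped Nat

/-- HINT: `l ∤ u` since `u ≤ N < l` (`u ≤ u ! ≤ N !`); lifting the exponent `padicValNat.pow_sub_pow` (`l` is odd or treat `l = 2`: `N ! < 2`
forces `u = 1`... `u ≤ N ≤ 1`). -/
theorem val_one {q l N u : ℕ} (hq : 1 < q) (hl : l.Prime) (hN : N ! < l) (h : l ∣ q - 1)
    (hu : 0 < u) (huN : u ≤ N) :
    padicValNat l (q ^ u - 1) = padicValNat l (q - 1) ∧ 0 < padicValNat l (q - 1) := by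
  have := Fact.mk hl
  have hpos : 0 < padicValNat l (q - 1) := one_le_padicValNat_of_dvd (by omega) h
  refine ⟨?_, hpos⟩
  have hul : u < l := lt_of_le_of_lt (huN.trans (Nat.self_le_factorial N)) hN
  by_cases hu1 : u = 1
  · rw [hu1, pow_one]
  have hl2 : l ≠ 2 := by
    rintro rfl
    omega
  have hodd : Odd l := hl.odd_of_ne_two hl2
  have hq' : ¬ l ∣ q := by
    intro hd
    have h1 : l ∣ 1 := by
      have h2 := (Nat.dvd_sub hd h)
      have h3 : q - (q - 1) = 1 := by omega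
      rwa [h3] at h2
    exact hl.one_lt.ne' (Nat.dvd_one.1 h1)
  have h1 := padicValNat.pow_sub_pow hodd hq h hq' hu.ne'
  rw [one_pow] at h1
  rw [h1, padicValNat.eq_zero_of_not_dvd (Nat.not_dvd_of_pos_of_lt hu hul), add_zero]

/-- HINT: `l ∣ q ^ u - 1` iff `j ∣ u` (`orderOf_dvd_iff_pow_eq_one`); for `u = j v` apply `val_one` to `q ^ j`. -/
theorem val_ord {q l N j u : ℕ} (hq : 1 < q) (hl : l.Prime) (hN : N ! < l) (hj2 : 2 ≤ j)
    (hj : orderOf (q : ZMod l) = j) (hu : 0 < u) (huN : u ≤ N) :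
    (j ∣ u → padicValNat l (q ^ u - 1) = padicValNat l (q ^ j - 1)) ∧
      (¬ j ∣ u → padicValNat l (q ^ u - 1) = 0) ∧ 0 < padicValNat l (q ^ j - 1) := by
  have := Fact.mk hl
  have key : ∀ m : ℕ, l ∣ q ^ m - 1 ↔ j ∣ m := by
    intro m
    have h1 : 1 ≤ q ^ m := Nat.one_le_pow _ _ (by omega)
    rw [← hj, orderOf_dvd_iff_pow_eq_one, ← ZMod.natCast_eq_zero_iff, Nat.cast_sub h1,
      Nat.cast_pow, Nat.cast_one, sub_eq_zero]
  have hqj : 1 < q ^ j := Nat.one_lt_pow (by omega) hq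
  have hdj : l ∣ q ^ j - 1 := (key j).2 dvd_rfl
  refine ⟨?_, ?_, one_le_padicValNat_of_dvd (by omega) hdj⟩
  · rintro ⟨v, rfl⟩
    have hv : 0 < v := Nat.pos_of_mul_pos_left hu
    have hvN : v ≤ N := (Nat.le_mul_of_pos_left v (by omega)).trans huN
    rw [pow_mul]
    exact (val_one hqj hl hN hdj hv hvN).1
  · intro hnd
    exact padicValNat.eq_zero_of_not_dvd fun h => hnd ((key u).1 h)

end Pool.Agent.Lib.MP_fa0f6c_al.Cx
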