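import Pool.Agent.Lib.MP_fa0f6c_al.Cx.C01

set_option autoImplicit false

namespace Pool.Agent.Lib.MP_fa0f6c_al.Cx

open scoped Nat

/-- All `q`-degrees `e i * m`, `m ∈ T i`. -/
def allU {b : ℕ} (e : Fin b → ℕ) (T : Fin b → Multiset ℕ) : Multiset ℕ :=
  ∑ i, (T i).map (fun m => e i * m)

private theorem c02_mem {b : ℕ} {e : Fin b → ℕ} {T : Fin b → Multiset ℕ} {u : ℕ} :
    u ∈ allU e T ↔ ∃ i, ∃ m ∈ T i, e i * m = u := by
  unfold allU
  rw [Multiset.mem_sum]
  simp [Multiset.mem_map]

private theorem c02_le {d : Fin 6 → ℕ} {q : ℕ} {b : ℕ} {n e : Fin b → ℕ}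
    {T : Fin b → Multiset ℕ} {hh : Fin b → ℕ} (hB : BlockData d q n e T hh) {u : ℕ}
    (hu : u ∈ allU e T) : 0 < u ∧ u ≤ NN d := by
  obtain ⟨i, m, hm, rfl⟩ := c02_mem.1 hu
  refine ⟨Nat.mul_pos (hB.e_pos i) (hB.T_pos i m hm), ?_⟩
  have h1 : m ≤ (T i).sum := Multiset.single_le_sum (fun _ _ => Nat.zero_le _) m hm
  rw [hB.T_sum i] at h1
  calc e i * m ≤ e i * n i := Nat.mul_le_mul_left _ h1
    _ = n i * e i := Nat.mul_comm _ _
    _ ≤ NN d := hB.bound i

private theorem c02_dle (d : Fin 6 → ℕ) (k : Fin 6) : d k ≤ NN d := by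
  unfold NN
  have h1 : d k * rhoT k ≤ ∑ k, d k * rhoT k :=
    Finset.single_le_sum (f := fun k => d k * rhoT k) (fun _ _ => Nat.zero_le _)
      (Finset.mem_univ k)
  refine le_trans ?_ h1
  have h2 : 1 ≤ rhoT k := by fin_cases k <;> decide
  exact Nat.le_mul_of_pos_right _ h2

private theorem c02_sum_map {b : ℕ} (e : Fin b → ℕ) (T : Fin b → Multiset ℕ) (g : ℕ → ℕ) :
    ((allU e T).map g).sum = ∑ i, ((T i).map (fun m => g (e i * m))).sum := by
  unfold allU
  have h1 : ∀ s : Finset (Fin b), ((∑ i ∈ s, (T i).map (fun m => e i * m)).map g).sum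
      = ∑ i ∈ s, ((T i).map (fun m => g (e i * m))).sum := by
    intro s
    induction s using Finset.induction_on with
    | empty => simp
    | insert i s hi ih =>
      rw [Finset.sum_insert hi, Finset.sum_insert hi, Multiset.map_add, Multiset.sum_add, ih,
        Multiset.map_map]
      rfl
  exact h1 Finset.univ

private theorem c02_ineq {d : Fin 6 → ℕ} {q : ℕ} {b : ℕ} {n e : Fin b → ℕ}
    {T : Fin b → Multiset ℕ} {hh : Fin b → ℕ} (hB : BlockData d q n e T hh) {l : ℕ}
    (hl : l.Prime) (hN : (NN d)! < l) :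
    ((allU e T).map (fun u => padicValNat l (q ^ u - 1))).sum
      ≤ ∑ k, padicValNat l (q ^ d k - 1) := by
  rw [c02_sum_map, ← hB.prod l hl hN]
  exact Finset.sum_le_sum fun i _ => hB.alpha i l hl hN

private theorem c02_countP (M : Multiset ℕ) (p : ℕ → Prop) [DecidablePred p] (g : ℕ → ℕ) (v : ℕ)
    (h1 : ∀ u ∈ M, p u → g u = v) (h2 : ∀ u ∈ M, ¬ p u → g u = 0) :
    (M.map g).sum = M.countP p * v := by
  induction M using Multiset.induction_on with
  | empty => simp
  | cons a M ih =>
    have ih' := ih (fun u hu => h1 u (Multiset.mem_cons_of_mem hu))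
      (fun u hu => h2 u (Multiset.mem_cons_of_mem hu))
    rw [Multiset.map_cons, Multiset.sum_cons, ih']
    by_cases hp : p a
    · rw [h1 a (Multiset.mem_cons_self a M) hp, Multiset.countP_cons_of_pos _ hp]
      ring
    · rw [h2 a (Multiset.mem_cons_self a M) hp, Multiset.countP_cons_of_neg _ hp]
      ring

/-- Blueprint 4.1, first half. PROOF: for `l` prime, `l > N!`: summing `alpha` over `i` and using `prod`:
`∑_{u ∈ U} v_l (q^u - 1) ≤ ∑_k v_l (q^(d k) - 1)`. Each `u = e i * m ∈ U` satisfies `0 < u ≤ e i * n i ≤ NN d`; also `d k ≤ NN d`. With `l` from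
`h.l1` and `val_one`: `card U * v ≤ 6 * v`, `v > 0`. With `l` from `h.lj j` and `val_ord`: `#{u ∈ U | j ∣ u} * v ≤ #{k | j ∣ d k} * v`, `v > 0`. -/
theorem supports_count {d : Fin 6 → ℕ} {q : ℕ} (h : Nums d q) {b : ℕ} {n e : Fin b → ℕ}
    {T : Fin b → Multiset ℕ} {hh : Fin b → ℕ} (hB : BlockData d q n e T hh) :
    Multiset.card (allU e T) ≤ 6 ∧
      ∀ j, 2 ≤ j → j ≤ NN d →
        (allU e T).countP (fun u => j ∣ u) ≤ (Finset.univ.filter (fun k => j ∣ d k)).card := by
  have hq : 1 < q := by have := h.q4; omega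
  constructor
  · obtain ⟨l, hl, hN, hlq⟩ := h.l1
    have hineq := c02_ineq hB hl hN
    have hv : ∀ u, 0 < u → u ≤ NN d → padicValNat l (q ^ u - 1) = padicValNat l (q - 1) :=
      fun u hu huN => (val_one hq hl hN hlq hu huN).1
    have hpos : 0 < padicValNat l (q - 1) :=
      (val_one hq hl hN hlq (h.prime 0).pos (c02_dle d 0)).2
    rw [c02_countP (allU e T) (fun _ => True) _ (padicValNat l (q - 1))
      (fun u hu _ => hv u (c02_le hB hu).1 (c02_le hB hu).2) (fun u _ hn => absurd trivial hn)]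
      at hineq
    rw [Finset.sum_congr rfl (fun k _ => hv (d k) (h.prime k).pos (c02_dle d k)),
      Finset.sum_const, Finset.card_univ, Fintype.card_fin, smul_eq_mul] at hineq
    have hcard : (allU e T).countP (fun _ => True) = Multiset.card (allU e T) := by
      rw [Multiset.countP_eq_card]
      exact fun _ _ => trivial
    rw [hcard] at hineq
    exact Nat.le_of_mul_le_mul_right hineq hpos
  · intro j hj2 hjN
    obtain ⟨l, hl, hN, hord⟩ := h.lj j hj2 hjN
    have hineq := c02_ineq hB hl hN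
    have hv1 : ∀ u, 0 < u → u ≤ NN d → j ∣ u →
        padicValNat l (q ^ u - 1) = padicValNat l (q ^ j - 1) :=
      fun u hu huN => (val_ord hq hl hN hj2 hord hu huN).1
    have hv2 : ∀ u, 0 < u → u ≤ NN d → ¬ j ∣ u → padicValNat l (q ^ u - 1) = 0 :=
      fun u hu huN => (val_ord hq hl hN hj2 hord hu huN).2.1
    have hpos : 0 < padicValNat l (q ^ j - 1) :=
      (val_ord hq hl hN hj2 hord (h.prime 0).pos (c02_dle d 0)).2.2
    rw [c02_countP (allU e T) (fun u => j ∣ u) _ (padicValNat l (q ^ j - 1))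
      (fun u hu hd => hv1 u (c02_le hB hu).1 (c02_le hB hu).2 hd)
      (fun u hu hd => hv2 u (c02_le hB hu).1 (c02_le hB hu).2 hd)] at hineq
    have hsum : ∑ k, padicValNat l (q ^ d k - 1)
        = (Finset.univ.filter (fun k => j ∣ d k)).card * padicValNat l (q ^ j - 1) := by
      rw [Finset.card_filter, Finset.sum_mul]
      refine Finset.sum_congr rfl fun k _ => ?_
      by_cases hk : j ∣ d k
      · rw [if_pos hk, one_mul, hv1 _ (h.prime k).pos (c02_dle d k) hk]
      · rw [if_neg hk, zero_mul, hv2 _ (h.prime k).pos (c02_dle d k) hk]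
    rw [hsum] at hineq
    exact Nat.le_of_mul_le_mul_right hineq hpos

/-- Each `u ∈ U` is `1` or some `d k`. PROOF: `u ≥ 2`: `supports_count` with `j = u` gives `u ∣ d k` for some `k`, and `d k` is prime. -/
theorem supports_mem {d : Fin 6 → ℕ} {q : ℕ} (h : Nums d q) {b : ℕ} {n e : Fin b → ℕ}
    {T : Fin b → Multiset ℕ} {hh : Fin b → ℕ} (hB : BlockData d q n e T hh) :
    ∀ u ∈ allU e T, u = 1 ∨ ∃ k, u = d k := by
  intro u hu
  obtain ⟨hu0, huN⟩ := c02_le hB hu
  rcases Nat.lt_or_ge u 2 with h2 | h2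
  · left; omega
  · right
    have h1 := (supports_count h hB).2 u h2 huN
    have h3 : 0 < (allU e T).countP (fun w => u ∣ w) := by
      rw [Multiset.countP_pos]
      exact ⟨u, hu, dvd_rfl⟩
    obtain ⟨k, hk⟩ := Finset.card_pos.1 (lt_of_lt_of_le h3 h1)
    rw [Finset.mem_filter] at hk
    refine ⟨k, ?_⟩
    rcases (Nat.dvd_prime (h.prime k)).1 hk.2 with h4 | h4
    · omega
    · exact h4

private theorem c02_lt_of {a c : ℕ} (h : 20000 * a ^ 2 < c) : a < c := by
  rcases Nat.eq_zero_or_pos a with h0 | h0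
  · subst h0
    simpa using h
  · nlinarith

private theorem c02_inj {d : Fin 6 → ℕ} {q : ℕ} (h : Nums d q) : Function.Injective d := by
  have h05 : d 0 < d 5 := by have := h.g5; omega
  have h54 := c02_lt_of h.g4
  have h43 := c02_lt_of h.g3
  have h32 := c02_lt_of h.g2
  have h21 := c02_lt_of h.g1
  intro a c hac
  fin_cases a <;> fin_cases c <;> simp only [Fin.isValue, Fin.zero_eta, Fin.mk_one,
    Fin.reduceFinMk] at hac ⊢ <;> omega

/-- Each `d k` occurs exactly once. PROOF: `supports_count` with `j = d k` (the `d k` are distinct primes by the growth conditions). -/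
theorem supports_once {d : Fin 6 → ℕ} {q : ℕ} (h : Nums d q) {b : ℕ} {n e : Fin b → ℕ}
    {T : Fin b → Multiset ℕ} {hh : Fin b → ℕ} (hB : BlockData d q n e T hh) (k : Fin 6) :
    (allU e T).count (d k) ≤ 1 := by
  have h1 := (supports_count h hB).2 (d k) (h.prime k).two_le (c02_dle d k)
  have h2 : (allU e T).count (d k) ≤ (allU e T).countP (fun u => d k ∣ u) := by
    unfold Multiset.count
    rw [Multiset.countP_eq_card_filter, Multiset.countP_eq_card_filter]
    exact Multiset.card_le_card (Multiset.monotone_filter_right _ (fun u hu => by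
      show d k ∣ u
      rw [← hu]))
  have h3 : (Finset.univ.filter (fun l => d k ∣ d l)).card ≤ 1 := by
    rw [Finset.card_le_one]
    intro a ha c hc
    rw [Finset.mem_filter] at ha hc
    have ha' : d k = d a := by
      rcases (Nat.dvd_prime (h.prime a)).1 ha.2 with h4 | h4
      · exact absurd h4 (h.prime k).one_lt.ne'
      · exact h4
    have hc' : d k = d c := by
      rcases (Nat.dvd_prime (h.prime c)).1 hc.2 with h4 | h4
      · exact absurd h4 (h.prime k).one_lt.ne'
      · exact h4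
    exact c02_inj h (ha'.symm.trans hc')
  exact h2.trans (h1.trans h3)

end Pool.Agent.Lib.MP_fa0f6c_al.Cx
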