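import Pool.Agent.Lib.MP_fa0f6c_al.Cx.C02

set_option autoImplicit false

namespace Pool.Agent.Lib.MP_fa0f6c_al.Cx

open scoped Nat

private theorem c03_lt_of {a c : ℕ} (h : 20000 * a ^ 2 < c) : a < c := by
  rcases Nat.eq_zero_or_pos a with h0 | h0
  · subst h0
    simpa using h
  · nlinarith

/-- the `d k` are distinct -/
theorem nums_injective {d : Fin 6 → ℕ} {q : ℕ} (h : Nums d q) : Function.Injective d := by
  have h05 : d 0 < d 5 := by have := h.g5; omega
  have h54 := c03_lt_of h.g4
  have h43 := c03_lt_of h.g3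
  have h32 := c03_lt_of h.g2
  have h21 := c03_lt_of h.g1
  intro a c hac
  fin_cases a <;> fin_cases c <;> simp only [Fin.isValue, Fin.zero_eta, Fin.mk_one,
    Fin.reduceFinMk] at hac ⊢ <;> omega

private theorem c03_six {d : Fin 6 → ℕ} {q : ℕ} (h : Nums d q) (k : Fin 6) : 6 < d k := by
  have h0 := h.g0
  have h05 : d 0 < d 5 := by have := h.g5; omega
  have h54 := c03_lt_of h.g4
  have h43 := c03_lt_of h.g3
  have h32 := c03_lt_of h.g2
  have h21 := c03_lt_of h.g1
  fin_cases k <;> simp only [Fin.isValue, Fin.zero_eta, Fin.mk_one, Fin.reduceFinMk] <;> omega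

private theorem c03_mem {b : ℕ} {e : Fin b → ℕ} {T : Fin b → Multiset ℕ} {i : Fin b} {m : ℕ}
    (hm : m ∈ T i) : e i * m ∈ allU e T := by
  unfold allU
  rw [Multiset.mem_sum]
  exact ⟨i, Finset.mem_univ i, Multiset.mem_map.2 ⟨m, hm, rfl⟩⟩

private theorem c03_le {b : ℕ} (e : Fin b → ℕ) (T : Fin b → Multiset ℕ) (i : Fin b) :
    (T i).map (fun m => e i * m) ≤ allU e T := by
  unfold allU
  exact Finset.single_le_sum (f := fun i => (T i).map (fun m => e i * m))
    (fun _ _ => Multiset.zero_le _) (Finset.mem_univ i)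

private theorem c03_dle (d : Fin 6 → ℕ) (k : Fin 6) : d k ≤ NN d := by
  unfold NN
  have h1 : d k * rhoT k ≤ ∑ k, d k * rhoT k :=
    Finset.single_le_sum (f := fun k => d k * rhoT k) (fun _ _ => Nat.zero_le _)
      (Finset.mem_univ k)
  refine le_trans ?_ h1
  have h2 : 1 ≤ rhoT k := by fin_cases k <;> decide
  exact Nat.le_mul_of_pos_right _ h2

/-- A block with `e i > 1` is `n i = 1`, `e i = d k`. PROOF: `T i` is nonempty (`T_sum`, `n_pos`); each `m ∈ T i` has `e i * m ∈ U`, `e i * m > 1`, so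
`e i * m = d k` (`supports_mem`) with `d k` prime: `e i = d k`, `m = 1`. So all elements of `T i` are `1` and `T i = replicate (n i) 1`,
so `d k` occurs `n i` times in `U`: `n i = 1` (`supports_once`). -/
theorem block_big {d : Fin 6 → ℕ} {q : ℕ} (h : Nums d q) {b : ℕ} {n e : Fin b → ℕ}
    {T : Fin b → Multiset ℕ} {hh : Fin b → ℕ} (hB : BlockData d q n e T hh) (i : Fin b)
    (hi : e i ≠ 1) : n i = 1 ∧ T i = {1} ∧ ∃ k, e i = d k := by
  have he : 1 < e i := by have := hB.e_pos i; omega
  have hel : ∀ m ∈ T i, m = 1 ∧ ∃ k, e i = d k := by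
    intro m hm
    have hm0 := hB.T_pos i m hm
    have hU := supports_mem h hB _ (c03_mem (e := e) hm)
    have hgt : 1 < e i * m := lt_of_lt_of_le he (Nat.le_mul_of_pos_right _ hm0)
    rcases hU with h1 | ⟨k, hk⟩
    · omega
    · have hd : e i ∣ d k := ⟨m, hk.symm⟩
      rcases (Nat.dvd_prime (h.prime k)).1 hd with h2 | h2
      · exact absurd h2 hi
      · refine ⟨?_, k, h2⟩
        rw [← h2] at hk
        exact Nat.eq_of_mul_eq_mul_left (show 0 < e i by omega) (by rw [hk, mul_one])
  have hall : T i = Multiset.replicate (Multiset.card (T i)) 1 :=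
    Multiset.eq_replicate.2 ⟨rfl, fun m hm => (hel m hm).1⟩
  have hcard : Multiset.card (T i) = n i := by
    have h1 := hB.T_sum i
    rw [hall, Multiset.sum_replicate, smul_eq_mul, mul_one] at h1
    exact h1
  have hn0 := hB.n_pos i
  obtain ⟨m, hm⟩ := Multiset.card_pos_iff_exists_mem.1 (by rw [hcard]; exact hn0)
  obtain ⟨k, hk⟩ := (hel m hm).2
  have honce := supports_once h hB k
  have hcount : ((T i).map (fun m => e i * m)).count (d k) = n i := by
    rw [hall, Multiset.map_replicate, hcard, mul_one, hk, Multiset.count_replicate_self]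
  have hle := Multiset.count_le_of_le (d k) (c03_le e T i)
  rw [hcount] at hle
  have hn1 : n i = 1 := by omega
  refine ⟨hn1, ?_, k, hk⟩
  rw [hall, hcard, hn1]
  rfl

/-- Each `d k` occurs in `U` (blueprint 4.1). PROOF: `l = l_{d k}` from `h.lj`; `prod` and `val_ord` give `v_l (hh i) > 0` for some `i`, so `l ∣ hh i`.
If `e i = 1`: `beta` with `m₀ = d k` (`count 1 (T i) ≤ card U ≤ 6 < d k`; `count m (T i) ≤ 1` for `m > 1` because `m ∈ U` is some `d k'`, `supports_once`) gives
`m ∈ T i`, `m > 1`, `d k ∣ m`, so `m = d k'` and `k = k'`. If `e i ≠ 1`: `block_big`, `one`: `l ∣ q ^ (d k') - 1`, so `d k ∣ d k'`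
(order), `k = k'` and `d k = e i * 1 ∈ U`. -/
theorem supports_occur {d : Fin 6 → ℕ} {q : ℕ} (h : Nums d q) {b : ℕ} {n e : Fin b → ℕ}
    {T : Fin b → Multiset ℕ} {hh : Fin b → ℕ} (hB : BlockData d q n e T hh) (k : Fin 6) :
    d k ∈ allU e T := by
  have hq : 1 < q := by have := h.q4; omega
  obtain ⟨l, hl, hN, hord⟩ := h.lj (d k) (h.prime k).two_le (c03_dle d k)
  have hv := val_ord hq hl hN (h.prime k).two_le hord (h.prime k).pos (c03_dle d k)
  have hsum := hB.prod l hl hN
  have hpos : 0 < ∑ i, padicValNat l (hh i) := by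
    rw [hsum]
    exact lt_of_lt_of_le hv.2.2 (Finset.single_le_sum
      (f := fun k => padicValNat l (q ^ d k - 1)) (fun _ _ => Nat.zero_le _) (Finset.mem_univ k))
  obtain ⟨i, -, hi⟩ := Finset.exists_ne_zero_of_sum_ne_zero hpos.ne'
  have hli : l ∣ hh i := by
    by_contra hcon
    exact hi (padicValNat.eq_zero_of_not_dvd hcon)
  rcases eq_or_ne (e i) 1 with he | he
  · -- `e i = 1`
    have hmap : (T i).map (fun m => e i * m) = T i := by
      rw [he]
      simp
    have hle : T i ≤ allU e T := by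
      have := c03_le e T i
      rwa [hmap] at this
    have h1 : ∀ m, 1 < m → (T i).count m ≤ 1 := by
      intro m hm
      rcases Nat.eq_zero_or_pos ((T i).count m) with h0 | h0
      · omega
      · have hmem : m ∈ T i := Multiset.count_pos.1 h0
        rcases supports_mem h hB m (Multiset.mem_of_le hle hmem) with h2 | ⟨k', h2⟩
        · omega
        · rw [h2]
          exact (Multiset.count_le_of_le _ hle).trans (supports_once h hB k')
    have h2 : (T i).count 1 < d k := by
      have h3 := Multiset.count_le_card 1 (T i)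
      have h4 := Multiset.card_le_card hle
      have h5 := (supports_count h hB).1
      have h6 := c03_six h k
      omega
    obtain ⟨m, hm, hm1, hdvd⟩ := hB.beta i he h1 (d k) l h2 hl hN hord hli
    have hmU := Multiset.mem_of_le hle hm
    rcases supports_mem h hB m hmU with h3 | ⟨k', h3⟩
    · omega
    · rw [h3] at hdvd
      rcases (Nat.dvd_prime (h.prime k')).1 hdvd with h4 | h4
      · exact absurd h4 (h.prime k).one_lt.ne'
      · rw [h4, ← h3]
        exact hmU
  · obtain ⟨hn, hT, k', hk'⟩ := block_big h hB i he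
    have hdiv := hB.one i hn
    have hl2 : l ∣ q ^ d k' - 1 := by
      rw [← hk']
      exact hli.trans hdiv
    have hpow : (q : ZMod l) ^ d k' = 1 := by
      have h1 : ((q ^ d k' - 1 : ℕ) : ZMod l) = 0 := (ZMod.natCast_eq_zero_iff _ _).2 hl2
      have h2 : 1 ≤ q ^ d k' := Nat.one_le_pow _ _ (by omega)
      rw [Nat.cast_sub h2] at h1
      push_cast at h1
      exact sub_eq_zero.1 h1
    have hdvd : d k ∣ d k' := by
      have := orderOf_dvd_of_pow_eq_one hpow
      rwa [hord] at this
    rcases (Nat.dvd_prime (h.prime k')).1 hdvd with h4 | h4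
    · exact absurd h4 (h.prime k).one_lt.ne'
    · have hmem : (1 : ℕ) ∈ T i := by rw [hT]; exact Multiset.mem_singleton_self 1
      have h5 := c03_mem (e := e) hmem
      rw [mul_one, hk', ← h4] at h5
      exact h5

/-- `U = {d 0, .., d 5}`. -/
theorem supports_eq {d : Fin 6 → ℕ} {q : ℕ} (h : Nums d q) {b : ℕ} {n e : Fin b → ℕ}
    {T : Fin b → Multiset ℕ} {hh : Fin b → ℕ} (hB : BlockData d q n e T hh) :
    allU e T = (Finset.univ : Finset (Fin 6)).val.map d := by
  symm
  refine Multiset.eq_of_le_of_card_le ?_ ?_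
  · rw [Multiset.le_iff_subset (Multiset.Nodup.map (nums_injective h) Finset.univ.nodup)]
    intro u hu
    obtain ⟨k, -, rfl⟩ := Multiset.mem_map.1 hu
    exact supports_occur h hB k
  · rw [Multiset.card_map]
    exact (supports_count h hB).1

end Pool.Agent.Lib.MP_fa0f6c_al.Cx
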