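import Pool.Agent.Lib.MP_fa0f6c_al.Cx.C03

set_option autoImplicit false

namespace Pool.Agent.Lib.MP_fa0f6c_al.Cx

open scoped Nat

private theorem C04_sum {d : Fin 6 → ℕ} {q : ℕ} (h : Nums d q) {b : ℕ} {n e : Fin b → ℕ}
    {T : Fin b → Multiset ℕ} {hh : Fin b → ℕ} (hB : BlockData d q n e T hh) (x : ℕ) :
    ∑ i, ((T i).map (e i * ·)).count x = ((Finset.univ : Finset (Fin 6)).val.map d).count x := by
  rw [← supports_eq h hB, allU, Multiset.count_sum']

private theorem C04_count {d : Fin 6 → ℕ} (hd : Function.Injective d) (s : Finset (Fin 6))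
    (k : Fin 6) : (s.val.map d).count (d k) = if k ∈ s then 1 else 0 := by
  rw [Multiset.count_map_eq_count' d _ hd, Multiset.count_eq_of_nodup s.nodup]
  rfl

/-- The assignment of the blocks (blueprint 4.1, conclusion). PROOF: `supports_eq`: for each `k` there is exactly one `i` with `d k ∈ (T i).map (e i * ·)`
(count `1`); put `κ k = i`. Then `(T i).map (e i * ·) = {d k | κ k = i}` as multisets, so `T i = suppK d e κ i` (divide by `e i > 0`); surjective since `T i ≠ 0`;
the sum is `e i * n i`; if `e (κ k) ≠ 1`: `block_big`: `e i = d k'` and `T i = {1}`, so `{d k'} = {d k'' | κ k'' = i}` and `k = k'`. -/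
theorem exists_kappa {d : Fin 6 → ℕ} {q : ℕ} (h : Nums d q) {b : ℕ} {n e : Fin b → ℕ}
    {T : Fin b → Multiset ℕ} {hh : Fin b → ℕ} (hB : BlockData d q n e T hh) :
    ∃ κ : Fin 6 → Fin b, Kappa d n e κ ∧ ∀ i, T i = suppK d e κ i := by
  classical
  have hd := nums_injective h
  have h1 : ∀ k : Fin 6, ∃ i : Fin b, ∀ j, ((T j).map (e j * ·)).count (d k) =
      if i = j then 1 else 0 := by
    intro k
    have h2 : ∑ i, ((T i).map (e i * ·)).count (d k) = 1 := by
      rw [C04_sum h hB, C04_count hd]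
      simp
    obtain ⟨i, -, hi⟩ := Finset.exists_ne_zero_of_sum_ne_zero (by rw [h2]; exact one_ne_zero)
    have h3 := Finset.add_sum_erase Finset.univ
      (fun i => ((T i).map (e i * ·)).count (d k)) (Finset.mem_univ i)
    rw [h2] at h3
    refine ⟨i, fun j => ?_⟩
    split_ifs with hij
    · subst hij
      omega
    · have h4 : ∑ i ∈ Finset.univ.erase i, ((T i).map (e i * ·)).count (d k) = 0 := by omega
      exact (Finset.sum_eq_zero_iff.mp h4) j (Finset.mem_erase.mpr ⟨Ne.symm hij, Finset.mem_univ _⟩)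
  choose κ hκ using h1
  have h5 : ∀ i, (T i).map (e i * ·) =
      (Finset.univ.filter (fun k => κ k = i)).val.map d := by
    intro i
    ext x
    by_cases hx : ∃ k, d k = x
    · obtain ⟨k, rfl⟩ := hx
      rw [hκ, C04_count hd]
      simp
    · have h6 : ((Finset.univ : Finset (Fin 6)).val.map d).count x = 0 := by
        rw [Multiset.count_eq_zero]
        intro h7
        obtain ⟨k, -, hk⟩ := Multiset.mem_map.mp h7
        exact hx ⟨k, hk⟩
      have h8 : ((Finset.univ.filter (fun k => κ k = i)).val.map d).count x = 0 := by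
        rw [Multiset.count_eq_zero]
        intro h7
        obtain ⟨k, -, hk⟩ := Multiset.mem_map.mp h7
        exact hx ⟨k, hk⟩
      have h9 := C04_sum h hB x
      rw [h6] at h9
      rw [h8]
      exact (Finset.sum_eq_zero_iff.mp h9) i (Finset.mem_univ i)
  have hsum : ∀ i, n i * e i = ∑ k ∈ Finset.univ.filter (fun k => κ k = i), d k := by
    intro i
    have h6 := congrArg Multiset.sum (h5 i)
    rw [Multiset.sum_map_mul_left, Multiset.map_id', hB.T_sum] at h6
    rw [mul_comm, h6]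
    rfl
  refine ⟨κ, ⟨?_, ?_, hsum⟩, ?_⟩
  · intro i
    have h6 : 0 < n i * e i := Nat.mul_pos (hB.n_pos i) (hB.e_pos i)
    rw [hsum] at h6
    obtain ⟨k, hk, -⟩ := Finset.exists_ne_zero_of_sum_ne_zero h6.ne'
    exact ⟨k, (Finset.mem_filter.mp hk).2⟩
  · intro k
    by_cases he : e (κ k) = 1
    · exact Or.inl he
    · obtain ⟨h6, h7, -⟩ := block_big h hB (κ k) he
      right
      refine ⟨?_, h6⟩
      have h8 : d k ∈ (Finset.univ.filter (fun k' => κ k' = κ k)).val.map d :=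
        Multiset.mem_map.mpr ⟨k, by simp, rfl⟩
      rw [← h5, h7, Multiset.map_singleton, Multiset.mem_singleton, mul_one] at h8
      exact h8.symm
  · intro i
    have h6 := congrArg (Multiset.map (· / e i)) (h5 i)
    rw [Multiset.map_map, Multiset.map_map] at h6
    have h7 : ((· / e i) ∘ (e i * ·)) = id := by
      funext x
      simp only [Function.comp, id]
      exact Nat.mul_div_cancel_left x (hB.e_pos i)
    rw [h7, Multiset.map_id] at h6
    rw [h6]
    rfl

private theorem C04_lt {d : Fin 6 → ℕ} {q : ℕ} (h : Nums d q) :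
    d 0 < d 5 ∧ d 0 + d 5 < d 4 ∧ d 0 + d 5 + d 4 < d 3 ∧ d 0 + d 5 + d 4 + d 3 < d 2 ∧
      d 0 + d 5 + d 4 + d 3 + d 2 < d 1 := by
  have h0 := h.g0
  have h5 := h.g5
  have h4 := h.g4
  have h3 := h.g3
  have h2 := h.g2
  have h1 := h.g1
  have k5 : d 0 < d 5 := by
    have : 0 ≤ 16 * ((6 + 2 * d 0) ^ 4 + (6 + 2 * d 0) ^ 2) := Nat.zero_le _
    omega
  have k4 : 20000 * d 5 < d 4 := by nlinarith
  have k3 : 20000 * d 4 < d 3 := by nlinarith
  have k2 : 20000 * d 3 < d 2 := by nlinarith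
  have k1 : 20000 * d 2 < d 1 := by nlinarith
  refine ⟨k5, ?_, ?_, ?_, ?_⟩ <;> omega

private theorem C04_step {x y D R R' : ℕ} (h : x * D + R = y * D + R') (hR : R < D)
    (hR' : R' < D) : x = y ∧ R = R' := by
  have hD : 0 < D := by omega
  have h1 : (x * D + R) / D = x := by
    rw [add_comm, Nat.add_mul_div_right _ _ hD, Nat.div_eq_of_lt hR, zero_add]
  have h2 : (y * D + R') / D = y := by
    rw [add_comm, Nat.add_mul_div_right _ _ hD, Nat.div_eq_of_lt hR', zero_add]
  have h3 : x = y := by rw [← h1, ← h2, h]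
  subst h3
  exact ⟨rfl, by omega⟩

private theorem C04_inj {d : Fin 6 → ℕ} {q : ℕ} (h : Nums d q) {x y : Fin 6 → ℕ}
    (hx : ∀ k, x k ≤ 1) (hy : ∀ k, y k ≤ 1) (hs : ∑ k, x k * d k = ∑ k, y k * d k) : x = y := by
  obtain ⟨k5, k4, k3, k2, k1⟩ := C04_lt h
  have hxk : ∀ k, x k * d k ≤ d k := fun k => by
    calc x k * d k ≤ 1 * d k := Nat.mul_le_mul_right _ (hx k)
      _ = d k := one_mul _
  have hyk : ∀ k, y k * d k ≤ d k := fun k => by
    calc y k * d k ≤ 1 * d k := Nat.mul_le_mul_right _ (hy k)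
      _ = d k := one_mul _
  have x0 := hxk 0
  have x2 := hxk 2
  have x3 := hxk 3
  have x4 := hxk 4
  have x5 := hxk 5
  have y0 := hyk 0
  have y2 := hyk 2
  have y3 := hyk 3
  have y4 := hyk 4
  have y5 := hyk 5
  rw [Fin.sum_univ_six, Fin.sum_univ_six] at hs
  obtain ⟨e1, s1⟩ := C04_step (x := x 1) (y := y 1) (D := d 1)
    (R := x 0 * d 0 + x 5 * d 5 + x 4 * d 4 + x 3 * d 3 + x 2 * d 2)
    (R' := y 0 * d 0 + y 5 * d 5 + y 4 * d 4 + y 3 * d 3 + y 2 * d 2)
    (by omega) (by omega) (by omega)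
  obtain ⟨e2, s2⟩ := C04_step (x := x 2) (y := y 2) (D := d 2)
    (R := x 0 * d 0 + x 5 * d 5 + x 4 * d 4 + x 3 * d 3)
    (R' := y 0 * d 0 + y 5 * d 5 + y 4 * d 4 + y 3 * d 3)
    (by omega) (by omega) (by omega)
  obtain ⟨e3, s3⟩ := C04_step (x := x 3) (y := y 3) (D := d 3)
    (R := x 0 * d 0 + x 5 * d 5 + x 4 * d 4)
    (R' := y 0 * d 0 + y 5 * d 5 + y 4 * d 4)
    (by omega) (by omega) (by omega)
  obtain ⟨e4, s4⟩ := C04_step (x := x 4) (y := y 4) (D := d 4)
    (R := x 0 * d 0 + x 5 * d 5)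
    (R' := y 0 * d 0 + y 5 * d 5)
    (by omega) (by omega) (by omega)
  obtain ⟨e5, s5⟩ := C04_step (x := x 5) (y := y 5) (D := d 5)
    (R := x 0 * d 0) (R' := y 0 * d 0)
    (by omega) (by omega) (by omega)
  have e0 : x 0 = y 0 := Nat.eq_of_mul_eq_mul_right (h.prime 0).pos s5
  funext k
  fin_cases k
  · exact e0
  · exact e1
  · exact e2
  · exact e3
  · exact e4
  · exact e5

/-- `κ` is unique: the subset sums of the `d k` are distinct (`d k > ∑_{smaller} d`). -/
theorem kappa_unique {d : Fin 6 → ℕ} {q : ℕ} (h : Nums d q) {b : ℕ} {n e : Fin b → ℕ}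
    {κ κ' : Fin 6 → Fin b} (hκ : Kappa d n e κ) (hκ' : Kappa d n e κ') : κ = κ' := by
  classical
  funext k
  have h1 := (hκ.sum (κ k)).symm.trans (hκ'.sum (κ k))
  rw [Finset.sum_filter, Finset.sum_filter] at h1
  have h2 := C04_inj h (x := fun l => if κ l = κ k then 1 else 0)
    (y := fun l => if κ' l = κ k then 1 else 0) (fun l => by split_ifs <;> simp)
    (fun l => by split_ifs <;> simp) (by simpa only [ite_mul, one_mul, zero_mul] using h1)
  have h3 := congrFun h2 k
  simp only [if_true] at h3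
  by_contra h4
  rw [if_neg (Ne.symm h4)] at h3
  exact one_ne_zero h3

/-- Ranks (blueprint 4.2). PROOF: `ρ i = e i * r i`, `r i ≥ 1`; `NN d = ∑ i, n i * e i * r i = ∑ k, r (κ k) * d k`, so `∑ k, (r (κ k) - 1) * d k = d 0 + d 5`. As
`d k > d 0 + d 5` for `k = 1,..,4`: `r = 1` there. `(r₅ - 1) * d 5 + (r₀ - 1) * d 0 = d 5 + d 0` with `d 0 < d 5`: `r₅ ≤ 2`; `r₅ = 1` would give `d 0 ∣ d 5`. -/
theorem ranks {d : Fin 6 → ℕ} {q : ℕ} (h : Nums d q) {b : ℕ} {n e ρ : Fin b → ℕ}
    {κ : Fin 6 → Fin b} (hκ : Kappa d n e κ) (hρ : ∀ i, 0 < ρ i) (he : ∀ i, e i ∣ ρ i)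
    (hN : ∑ i, n i * ρ i = NN d) (k : Fin 6) : ρ (κ k) = e (κ k) * rhoT k := by
  classical
  choose r hr using he
  obtain ⟨k5, k4, k3, k2, k1⟩ := C04_lt h
  have h1 : ∑ k, d k * r (κ k) = NN d := by
    rw [← hN, ← Finset.sum_fiberwise Finset.univ κ]
    refine Finset.sum_congr rfl fun i _ => ?_
    rw [hr i, ← mul_assoc, hκ.sum, Finset.sum_mul]
    refine Finset.sum_congr rfl fun l hl => ?_
    rw [(Finset.mem_filter.mp hl).2]
  have hr0 : ∀ k, ∃ s, r (κ k) = s + 1 := fun k => by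
    have h2 := hρ (κ k)
    rw [hr] at h2
    exact ⟨r (κ k) - 1, by have := Nat.pos_of_mul_pos_left h2; omega⟩
  choose s hs using hr0
  have h3 : ∑ k, d k * s k = d 0 + d 5 := by
    have h4 : ∑ k, d k * r (κ k) = ∑ k, d k * s k + ∑ k, d k := by
      rw [← Finset.sum_add_distrib]
      refine Finset.sum_congr rfl fun k _ => ?_
      rw [hs, mul_add, mul_one]
    have h5 : NN d = ∑ k, d k + (d 0 + d 5) := by
      simp only [NN, Fin.sum_univ_six, rhoT]
      simp
      ring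
    omega
  rw [Fin.sum_univ_six] at h3
  have hz : ∀ l, d 0 + d 5 < d l → d l * s l ≤ d 0 + d 5 → s l = 0 := by
    intro l h4 h5
    by_contra h6
    have : d l * 1 ≤ d l * s l := Nat.mul_le_mul_left _ (Nat.one_le_iff_ne_zero.mpr h6)
    omega
  have s1 : s 1 = 0 := hz 1 (by omega) (by omega)
  have s2 : s 2 = 0 := hz 2 (by omega) (by omega)
  have s3 : s 3 = 0 := hz 3 (by omega) (by omega)
  have s4 : s 4 = 0 := hz 4 (by omega) (by omega)
  rw [s1, s2, s3, s4] at h3
  have s5 : s 5 = 1 := by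
    rcases Nat.lt_trichotomy (s 5) 1 with h6 | h6 | h6
    · exfalso
      have h7 : s 5 = 0 := by omega
      rw [h7] at h3
      have h8 : d 0 ∣ d 5 := by
        have h9 : d 0 ∣ d 0 + d 5 := ⟨s 0, by omega⟩
        exact (Nat.dvd_add_right dvd_rfl).mp h9
      rcases (Nat.dvd_prime (h.prime 5)).mp h8 with h9 | h9
      · exact (h.prime 0).one_lt.ne' h9
      · omega
    · exact h6
    · exfalso
      have : d 5 * 2 ≤ d 5 * s 5 := Nat.mul_le_mul_left _ h6
      omega
  rw [s5] at h3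
  have s0 : s 0 = 1 := by
    have h6 : d 0 * s 0 = d 0 * 1 := by omega
    exact Nat.eq_of_mul_eq_mul_left (h.prime 0).pos h6
  rw [hr, hs]
  fin_cases k
  · simp [rhoT, s0]
  · simp [rhoT, s1]
  · simp [rhoT, s2]
  · simp [rhoT, s3]
  · simp [rhoT, s4]
  · simp [rhoT, s5]

end Pool.Agent.Lib.MP_fa0f6c_al.Cx
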