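import Pool.Agent.Lib.MP_fa0f6c_al.Cx.C04

set_option autoImplicit false

namespace Pool.Agent.Lib.MP_fa0f6c_al.Cx

open scoped Nat

/-- The numerical hypotheses for the comparison of the exponents of `q` (blueprint 4.3). -/
structure DigitData (d : Fin 6 → ℕ) {b : ℕ} (n e ρ : Fin b → ℕ) (L : Fin b → Fin b → ℕ)
    (κ : Fin 6 → Fin b) : Prop where
  kap : Kappa d n e κ
  e_pos : ∀ i, 0 < e i
  rho : ∀ k, ρ (κ k) = e (κ k) * rhoT k
  Lle : ∀ i j, L i j ≤ 16 * (ρ i * ρ j)
  Lge : ∀ i, e i ≤ L i i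
  dvd : ∀ i j, i ≠ j → Nat.Coprime (e i) (e j) → e i * e j ∣ L i j
  small : ∀ i, ρ i = e i → L i i ≤ e i + 15 * e i ^ 2
  eq : 2 * (∑ i, ∑ j, n i * n j * L i j) + ∑ k, d k ^ 2 =
    2 * (∑ k, ∑ l, lenT k l * (d k * d l)) + ∑ i, e i * n i ^ 2

private theorem C05_uniq {d : Fin 6 → ℕ} {q : ℕ} (h : Nums d q) {b : ℕ} {n e : Fin b → ℕ}
    {κ : Fin 6 → Fin b} (hκ : Kappa d n e κ) {k l : Fin 6} (hkl : κ k = κ l)
    (he : e (κ k) ≠ 1) : k = l := by
  have h1 := (hκ.e_eq k).resolve_left he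
  have h2 := (hκ.e_eq l).resolve_left (hkl ▸ he)
  apply nums_injective h
  rw [← h1.1, ← h2.1, hkl]

private theorem C05_cop {d : Fin 6 → ℕ} {q : ℕ} (h : Nums d q) {b : ℕ} {n e : Fin b → ℕ}
    {κ : Fin 6 → Fin b} (hκ : Kappa d n e κ) {k l : Fin 6} (hkl : κ k ≠ κ l) :
    Nat.Coprime (e (κ k)) (e (κ l)) := by
  rcases hκ.e_eq k with h1 | h1
  · rw [h1]; exact Nat.coprime_one_left _
  · rcases hκ.e_eq l with h2 | h2
    · rw [h2]; exact Nat.coprime_one_right _
    · rw [h1.1, h2.1]
      refine (Nat.coprime_primes (h.prime k) (h.prime l)).mpr fun h3 => hkl ?_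
      rw [nums_injective h h3]

private theorem C05_rho (k : Fin 6) : 1 ≤ rhoT k ∧ rhoT k ≤ 2 := by
  fin_cases k <;> simp [rhoT]

/-- Rewriting of the equation in terms of the `d k` (blueprint 4.3).
PROOF: `a k l := 2 L i i - 1` if `κ k = κ l = i` (then `e i = 1`, because `e i ≠ 1` forces `n i = 1`, `e i = d k` and the block sum `d k`, so only one `k`),
`a k l := 2 L i j / (e i e j)` if `i = κ k ≠ κ l = j` (exact division: `e i, e j ∈ {1} ∪ {distinct primes}` are coprime). `A k := (2 L - 1) d k^2` or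
`2 L - d k`. `n i e i = ∑_{κ k = i} d k` gives `n i n j L i j = ∑_{κ k = i, κ l = j} d k d l (L i j / (e i e j))`. Sum over the fibres of `κ`. Bounds: `Lle`, `rho`, `rhoT ≤ 2`. -/
theorem ppart_expand {d : Fin 6 → ℕ} {q : ℕ} (h : Nums d q) {b : ℕ} {n e ρ : Fin b → ℕ}
    {L : Fin b → Fin b → ℕ} {κ : Fin 6 → Fin b} (hD : DigitData d n e ρ L κ) :
    ∃ (A : Fin 6 → ℤ) (a : Fin 6 → Fin 6 → ℤ),
      (∑ k, A k + ∑ k, ∑ l, (if k = l then 0 else a k l * (d k * d l)) =
        ∑ k, (2 * (lenT k k : ℤ) - 1) * d k ^ 2 +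
          ∑ k, ∑ l, (if k = l then 0 else 2 * (lenT k l : ℤ) * (d k * d l))) ∧
      (∀ k, e (κ k) = 1 → A k = (2 * (L (κ k) (κ k) : ℤ) - 1) * d k ^ 2) ∧
      (∀ k, e (κ k) = d k → A k = 2 * (L (κ k) (κ k) : ℤ) - d k) ∧
      (∀ k l, k ≠ l → κ k = κ l → a k l = 2 * (L (κ k) (κ k) : ℤ) - 1) ∧
      (∀ k l, κ k ≠ κ l → a k l * (e (κ k) * e (κ l)) = 2 * (L (κ k) (κ l) : ℤ)) ∧
      (∀ k l, k ≠ l → 0 ≤ a k l ∧ a k l ≤ 128) ∧
      ∀ k, -(d k : ℤ) ≤ A k ∧ A k ≤ 128 * d k ^ 2 := by
  classical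
  have hκ := hD.kap
  have hd := nums_injective h
  have hd0 : ∀ k, 0 < d k := fun k => (h.prime k).pos
  -- exact division
  have hdiv : ∀ k l, κ k ≠ κ l → ((L (κ k) (κ l) / (e (κ k) * e (κ l)) : ℕ) : ℤ) *
      ((e (κ k) : ℤ) * (e (κ l) : ℤ)) = (L (κ k) (κ l) : ℤ) := by
    intro k l hkl
    have h1 := Nat.div_mul_cancel (hD.dvd _ _ hkl (C05_cop h hκ hkl))
    exact_mod_cast h1
  set a : Fin 6 → Fin 6 → ℤ := fun k l =>
    if κ k = κ l then 2 * (L (κ k) (κ k) : ℤ) - 1
    else 2 * ((L (κ k) (κ l) / (e (κ k) * e (κ l)) : ℕ) : ℤ) with ha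
  set A : Fin 6 → ℤ := fun k =>
    if e (κ k) = 1 then (2 * (L (κ k) (κ k) : ℤ) - 1) * d k ^ 2
    else 2 * (L (κ k) (κ k) : ℤ) - d k with hA
  have hr1 : ∀ k, (ρ (κ k) : ℤ) ≤ 2 * e (κ k) := by
    intro k
    rw [hD.rho k]
    push_cast
    have h2 : (rhoT k : ℤ) ≤ 2 := by exact_mod_cast (C05_rho k).2
    have h3 : (0 : ℤ) ≤ e (κ k) := Int.natCast_nonneg _
    nlinarith
  have hLb : ∀ k l, (L (κ k) (κ l) : ℤ) ≤ 64 * ((e (κ k) : ℤ) * (e (κ l) : ℤ)) := by
    intro k l
    have h1 : (L (κ k) (κ l) : ℤ) ≤ 16 * ((ρ (κ k) : ℤ) * (ρ (κ l) : ℤ)) := by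
      exact_mod_cast hD.Lle (κ k) (κ l)
    have h2 := mul_le_mul (hr1 k) (hr1 l) (Int.natCast_nonneg _)
      (by have := Int.natCast_nonneg (e (κ k)); linarith)
    linarith
  have hL1 : ∀ k, (1 : ℤ) ≤ L (κ k) (κ k) := by
    intro k
    have h1 := hD.Lge (κ k)
    have h2 := hD.e_pos (κ k)
    exact_mod_cast h2.trans_le h1
  have ha_eq : ∀ k l, κ k = κ l → a k l = 2 * (L (κ k) (κ k) : ℤ) - 1 := by
    intro k l hkl; rw [ha]; simp only [if_pos hkl]
  have ha_ne : ∀ k l, κ k ≠ κ l →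
      a k l = 2 * ((L (κ k) (κ l) / (e (κ k) * e (κ l)) : ℕ) : ℤ) := by
    intro k l hkl; rw [ha]; simp only [if_neg hkl]
  have hA1 : ∀ k, e (κ k) = 1 → A k = (2 * (L (κ k) (κ k) : ℤ) - 1) * d k ^ 2 := by
    intro k hk; rw [hA]; simp only [if_pos hk]
  have hA2 : ∀ k, e (κ k) ≠ 1 → A k = 2 * (L (κ k) (κ k) : ℤ) - d k := by
    intro k hk; rw [hA]; simp only [if_neg hk]
  have hAd : ∀ k, e (κ k) = d k → A k = 2 * (L (κ k) (κ k) : ℤ) - d k := by
    intro k hk
    exact hA2 k (by rw [hk]; exact (h.prime k).one_lt.ne')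
  have hmul : ∀ k l, κ k ≠ κ l →
      a k l * ((e (κ k) : ℤ) * (e (κ l) : ℤ)) = 2 * (L (κ k) (κ l) : ℤ) := by
    intro k l hkl
    rw [ha_ne k l hkl, mul_assoc, hdiv k l hkl]
  refine ⟨A, a, ?_, hA1, hAd, fun k l _ hkl => ha_eq k l hkl, hmul, ?_, ?_⟩
  · -- the main identity
    set B : Fin 6 → Fin 6 → ℤ := fun k l => if k = l then A k else a k l * (d k * d l) with hB
    have h1 : ∑ k, A k + ∑ k, ∑ l, (if k = l then 0 else a k l * (d k * d l)) =
        ∑ k, ∑ l, B k l := by
      rw [← Finset.sum_add_distrib]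
      refine Finset.sum_congr rfl fun k _ => ?_
      have h2 : A k = ∑ l, if k = l then A k else 0 := by simp
      rw [h2, ← Finset.sum_add_distrib]
      refine Finset.sum_congr rfl fun l _ => ?_
      rw [hB]
      dsimp only
      split_ifs with h3
      · rw [add_zero]
      · rw [zero_add]
    have h3 : ∀ i j, ∑ k ∈ Finset.univ.filter (fun k => κ k = i),
        ∑ l ∈ Finset.univ.filter (fun l => κ l = j), B k l =
        2 * ((n i : ℤ) * n j * L i j) - (if i = j then (e i : ℤ) * n i ^ 2 else 0) := by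
      intro i j
      have hmi : ((n i : ℤ) * e i) = ∑ k ∈ Finset.univ.filter (fun k => κ k = i), (d k : ℤ) := by
        exact_mod_cast hκ.sum i
      have hmj : ((n j : ℤ) * e j) = ∑ k ∈ Finset.univ.filter (fun k => κ k = j), (d k : ℤ) := by
        exact_mod_cast hκ.sum j
      obtain ⟨k0, hk0⟩ := hκ.surj i
      obtain ⟨l0, hl0⟩ := hκ.surj j
      by_cases hij : i = j
      · subst hij
        rw [if_pos rfl]
        by_cases he : e i = 1
        · have h4 : ∀ k ∈ Finset.univ.filter (fun k => κ k = i),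
              ∀ l ∈ Finset.univ.filter (fun l => κ l = i),
              B k l = (2 * (L i i : ℤ) - 1) * ((d k : ℤ) * d l) := by
            intro k hk l hl
            have hk' := (Finset.mem_filter.mp hk).2
            have hl' := (Finset.mem_filter.mp hl).2
            rw [hB]
            dsimp only
            split_ifs with hkl
            · subst hkl
              rw [hA1 k (by rw [hk', he]), hk']
              ring
            · rw [ha_eq k l (hk'.trans hl'.symm), hk']
          rw [Finset.sum_congr rfl fun k hk => Finset.sum_congr rfl fun l hl => h4 k hk l hl]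
          simp only [← Finset.mul_sum, ← Finset.sum_mul]
          rw [← hmi, he]
          push_cast
          ring
        · have hn1 : n i = 1 ∧ e i = d k0 := by
            have := (hκ.e_eq k0).resolve_left (by rw [hk0]; exact he)
            rw [hk0] at this
            exact ⟨this.2, this.1⟩
          have h5 : Finset.univ.filter (fun k => κ k = i) = {k0} := by
            ext k
            rw [Finset.mem_filter, Finset.mem_singleton]
            constructor
            · rintro ⟨-, h6⟩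
              exact C05_uniq h hκ (h6.trans hk0.symm) (by rw [h6]; exact he)
            · rintro rfl
              exact ⟨Finset.mem_univ _, hk0⟩
          rw [h5, Finset.sum_singleton, Finset.sum_singleton, hB]
          dsimp only
          rw [if_pos rfl, hA2 k0 (by rw [hk0]; exact he), hk0, hn1.1, hn1.2]
          push_cast
          ring
      · rw [if_neg hij, sub_zero]
        have hne : κ k0 ≠ κ l0 := by rw [hk0, hl0]; exact hij
        have h4 : ∀ k ∈ Finset.univ.filter (fun k => κ k = i),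
            ∀ l ∈ Finset.univ.filter (fun l => κ l = j),
            B k l = a k0 l0 * ((d k : ℤ) * d l) := by
          intro k hk l hl
          have hk' := (Finset.mem_filter.mp hk).2
          have hl' := (Finset.mem_filter.mp hl).2
          have hkl : κ k ≠ κ l := by rw [hk', hl']; exact hij
          rw [hB]
          dsimp only
          rw [if_neg (fun h5 => hkl (by rw [h5])), ha_ne k l hkl, ha_ne k0 l0 hne, hk', hl', hk0,
            hl0]
        rw [Finset.sum_congr rfl fun k hk => Finset.sum_congr rfl fun l hl => h4 k hk l hl]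
        simp only [← Finset.mul_sum, ← Finset.sum_mul]
        rw [← hmi, ← hmj]
        have h5 := hmul k0 l0 hne
        rw [hk0, hl0] at h5
        linear_combination ((n i : ℤ) * n j) * h5
    have h4 : ∑ k, ∑ l, B k l = ∑ i, ∑ j, (2 * ((n i : ℤ) * n j * L i j) -
        (if i = j then (e i : ℤ) * n i ^ 2 else 0)) := by
      rw [← Finset.sum_fiberwise Finset.univ κ]
      refine Finset.sum_congr rfl fun i _ => ?_
      have h5 : ∀ k, ∑ l, B k l = ∑ j, ∑ l ∈ Finset.univ.filter (fun l => κ l = j), B k l :=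
        fun k => (Finset.sum_fiberwise Finset.univ κ _).symm
      rw [Finset.sum_congr rfl fun k _ => h5 k, Finset.sum_comm]
      exact Finset.sum_congr rfl fun j _ => h3 i j
    have h5 : ∑ i, ∑ j, (2 * ((n i : ℤ) * n j * L i j) -
        (if i = j then (e i : ℤ) * n i ^ 2 else 0)) =
        2 * (∑ i, ∑ j, (n i : ℤ) * n j * L i j) - ∑ i, (e i : ℤ) * n i ^ 2 := by
      simp only [Finset.sum_sub_distrib, Finset.sum_ite_eq, Finset.mem_univ, if_true,
        Finset.mul_sum]
    have h6 : 2 * (∑ i, ∑ j, (n i : ℤ) * n j * L i j) + ∑ k, (d k : ℤ) ^ 2 =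
        2 * (∑ k, ∑ l, (lenT k l : ℤ) * (d k * d l)) + ∑ i, (e i : ℤ) * n i ^ 2 := by
      exact_mod_cast hD.eq
    have h7 : ∑ k, (2 * (lenT k k : ℤ) - 1) * d k ^ 2 +
          ∑ k, ∑ l, (if k = l then 0 else 2 * (lenT k l : ℤ) * (d k * d l)) =
        2 * (∑ k, ∑ l, (lenT k l : ℤ) * (d k * d l)) - ∑ k, (d k : ℤ) ^ 2 := by
      rw [Finset.mul_sum, ← Finset.sum_add_distrib, ← Finset.sum_sub_distrib]
      refine Finset.sum_congr rfl fun k _ => ?_
      have h8 : (2 * (lenT k k : ℤ) - 1) * d k ^ 2 =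
          (∑ l, if k = l then (2 * (lenT k k : ℤ)) * d k ^ 2 else 0) - (d k : ℤ) ^ 2 := by
        simp
        ring
      rw [h8, Finset.mul_sum]
      have h9 : ∀ l, 2 * ((lenT k l : ℤ) * (d k * d l)) =
          (if k = l then (2 * (lenT k k : ℤ)) * d k ^ 2 else 0) +
          (if k = l then 0 else 2 * (lenT k l : ℤ) * (d k * d l)) := by
        intro l
        split_ifs with h10
        · subst h10; ring
        · ring
      rw [Finset.sum_congr rfl fun l _ => h9 l, Finset.sum_add_distrib]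
      ring
    rw [h1, h4, h5, h7]
    linarith
  · -- bounds for a
    intro k l _
    by_cases hkl : κ k = κ l
    · rw [ha_eq k l hkl]
      have h1 := hL1 k
      by_cases he : e (κ k) = 1
      · have h2 := hLb k k
        rw [he] at h2
        push_cast at h2
        constructor <;> linarith
      · exact absurd (C05_uniq h hκ hkl he) (by assumption)
    · have h1 := hmul k l hkl
      have h2 := hLb k l
      have h3 : (0 : ℤ) < (e (κ k) : ℤ) * (e (κ l) : ℤ) := by
        have h4 := hD.e_pos (κ k)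
        have h5 := hD.e_pos (κ l)
        positivity
      constructor
      · rw [ha_ne k l hkl]
        positivity
      · have h4 : a k l * ((e (κ k) : ℤ) * (e (κ l) : ℤ)) ≤
            128 * ((e (κ k) : ℤ) * (e (κ l) : ℤ)) := by linarith
        exact le_of_mul_le_mul_right h4 h3
  · -- bounds for A
    intro k
    have h1 := hL1 k
    have h2 := hLb k k
    have h3 : (1 : ℤ) ≤ d k := by exact_mod_cast hd0 k
    by_cases he : e (κ k) = 1
    · rw [hA1 k he]
      rw [he] at h2
      push_cast at h2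
      have h4 : (0 : ℤ) ≤ (d k : ℤ) ^ 2 := by positivity
      constructor
      · have h5 : (0 : ℤ) ≤ (2 * (L (κ k) (κ k) : ℤ) - 1) * d k ^ 2 :=
          mul_nonneg (by linarith) h4
        linarith
      · exact mul_le_mul_of_nonneg_right (by linarith) h4
    · rw [hA2 k he]
      have h4 := (hκ.e_eq k).resolve_left he
      rw [h4.1] at h2
      constructor
      · linarith
      · nlinarith

end Pool.Agent.Lib.MP_fa0f6c_al.Cx
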