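import Pool.Agent.Lib.MP_fa0f6c_al.Cx.CDefs

set_option autoImplicit false

namespace Pool.Agent.Lib.MP_fa0f6c_al.Cx

private theorem C06_lead {a D R : ℤ} (hR : |R| < D) (h : a * D + R = 0) : a = 0 ∧ R = 0 := by
  have h1 : a = 0 := by
    by_contra hne
    have h2 : 1 ≤ |a| := Int.one_le_abs hne
    have hD : 0 < D := lt_of_le_of_lt (abs_nonneg R) hR
    have h3 : |a * D| = |R| := by
      have : a * D = -R := by linarith
      rw [this, abs_neg]
    rw [abs_mul, abs_of_pos hD] at h3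
    nlinarith
  rw [h1, zero_mul, zero_add] at h
  exact ⟨h1, h⟩

/-- One step of the comparison of digits. PROOF: in the first case `D ∣ Z`, so `Z = 0`, `c * D + Y = 0`, so `c = 0`, `Y = 0`. The second case is impossible:
`D * Y + Z = - X ≥ D^2 - D`, but `D * Y + Z < D * (D / 2) + D`. -/
theorem digit_step {D X Y Z c : ℤ} (hD : 10 < D) (hZ : |Z| < D) (hY : 2 * |Y| < D)
    (hX : X = c * D ^ 2 ∨ X ≤ -D ^ 2 + D) (h : X + D * Y + Z = 0) :
    X = c * D ^ 2 ∧ c = 0 ∧ Y = 0 ∧ Z = 0 := by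
  rcases hX with hX | hX
  · refine ⟨hX, ?_⟩
    have h1 : (c * D + Y) * D + Z = 0 := by
      rw [← h, hX]; ring
    obtain ⟨h2, h3⟩ := C06_lead hZ h1
    have hY' : |Y| < D := by
      have := abs_nonneg Y
      linarith
    obtain ⟨h4, h5⟩ := C06_lead hY' h2
    exact ⟨h4, h5, h3⟩
  · exfalso
    have h1 : D * Y ≤ D * |Y| := mul_le_mul_of_nonneg_left (le_abs_self Y) (by linarith)
    have h2 : Z ≤ |Z| := le_abs_self Z
    have h3 : D * (2 * |Y|) ≤ D * D := mul_le_mul_of_nonneg_left hY.le (by linarith)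
    nlinarith

/-- Five digits in the mixed base `d 2 > d 3 > d 4 > d 5 > d 0`. -/
theorem digits5 {d : Fin 6 → ℕ} {q : ℕ} (h : Nums d q) (x2 x3 x4 x5 x0 : ℤ) (h2 : |x2| ≤ 1000)
    (h3 : |x3| ≤ 1000) (h4 : |x4| ≤ 1000) (h5 : |x5| ≤ 1000) (h0 : |x0| ≤ 1000)
    (he : x2 * d 2 + x3 * d 3 + x4 * d 4 + x5 * d 5 + x0 * d 0 = 0) :
    x2 = 0 ∧ x3 = 0 ∧ x4 = 0 ∧ x5 = 0 ∧ x0 = 0 := by
  have g0 := h.g0
  have g5 := h.g5
  have g4 := h.g4
  have g3 := h.g3
  have g2 := h.g2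
  generalize hd0 : d 0 = e0 at *
  generalize hd5 : d 5 = e5 at *
  generalize hd4 : d 4 = e4 at *
  generalize hd3 : d 3 = e3 at *
  generalize hd2 : d 2 = e2 at *
  -- comparison of the numbers
  have k5 : 1000 * e0 < e5 := by
    have h1 : e0 * e0 * e0 * e0 ≤ (6 + 2 * e0) ^ 4 := by
      have : e0 * e0 * e0 * e0 = e0 ^ 4 := by ring
      rw [this]
      exact Nat.pow_le_pow_left (by omega) 4
    have h2 : 1 * 1 * 1000 ≤ e0 * e0 * e0 := by
      apply Nat.mul_le_mul (Nat.mul_le_mul (by omega) (by omega)) (by omega)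
    have h3 : 1000 * e0 ≤ e0 * e0 * e0 * e0 := Nat.mul_le_mul (by omega) le_rfl
    omega
  have k4 : 10000 * e5 < e4 := by
    have h1 : e5 * 1 ≤ e5 * e5 := Nat.mul_le_mul le_rfl (by omega)
    have h2 : e5 ^ 2 = e5 * e5 := by ring
    rw [h2] at g4
    omega
  have k3 : 10000 * e4 < e3 := by
    have h1 : e4 * 1 ≤ e4 * e4 := Nat.mul_le_mul le_rfl (by omega)
    have h2 : e4 ^ 2 = e4 * e4 := by ring
    rw [h2] at g3
    omega
  have k2 : 10000 * e3 < e2 := by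
    have h1 : e3 * 1 ≤ e3 * e3 := Nat.mul_le_mul le_rfl (by omega)
    have h2 : e3 ^ 2 = e3 * e3 := by ring
    rw [h2] at g2
    omega
  have hb : ∀ (x : ℤ) (e : ℕ), |x| ≤ 1000 → |x * e| ≤ 1000 * e := by
    intro x e hx
    rw [abs_mul, abs_of_nonneg (by positivity : (0 : ℤ) ≤ e)]
    exact mul_le_mul_of_nonneg_right hx (by positivity)
  have b0 := hb x0 e0 h0
  have b5 := hb x5 e5 h5
  have b4 := hb x4 e4 h4
  have b3 := hb x3 e3 h3
  have k5' : 1000 * (e0 : ℤ) < e5 := by exact_mod_cast k5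
  have k4' : 10000 * (e5 : ℤ) < e4 := by exact_mod_cast k4
  have k3' : 10000 * (e4 : ℤ) < e3 := by exact_mod_cast k3
  have k2' : 10000 * (e3 : ℤ) < e2 := by exact_mod_cast k2
  have p0 : (0 : ℤ) < e0 := by exact_mod_cast (by omega : 0 < e0)
  rw [abs_le] at b0 b5 b4 b3
  obtain ⟨r2, he2⟩ := C06_lead (a := x2) (D := e2)
    (R := x3 * e3 + x4 * e4 + x5 * e5 + x0 * e0)
    (by rw [abs_lt]; constructor <;> linarith) (by linarith)
  obtain ⟨r3, he3⟩ := C06_lead (a := x3) (D := e3)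
    (R := x4 * e4 + x5 * e5 + x0 * e0)
    (by rw [abs_lt]; constructor <;> linarith) (by linarith)
  obtain ⟨r4, he4⟩ := C06_lead (a := x4) (D := e4)
    (R := x5 * e5 + x0 * e0)
    (by rw [abs_lt]; constructor <;> linarith) (by linarith)
  obtain ⟨r5, he5⟩ := C06_lead (a := x5) (D := e5)
    (R := x0 * e0)
    (by rw [abs_lt]; constructor <;> linarith) (by linarith)
  refine ⟨r2, r3, r4, r5, ?_⟩
  exact (mul_eq_zero.1 he5).resolve_right p0.ne'

end Pool.Agent.Lib.MP_fa0f6c_al.Cx
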