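import Pool.Agent.Lib.MP_fa0f6c_al.Cx.C05
import Pool.Agent.Lib.MP_fa0f6c_al.Cx.C06

set_option autoImplicit false

namespace Pool.Agent.Lib.MP_fa0f6c_al.Cx

private theorem aa {a b A B : ℤ} (ha : |a| ≤ A) (hb : |b| ≤ B) : |a + b| ≤ A + B :=
  (abs_add_le a b).trans (add_le_add ha hb)

private theorem b2 {x u v D : ℤ} (hx : |x| ≤ 600) (hu : 0 ≤ u) (huD : u ≤ D) (hv : 0 ≤ v)
    (hvD : v ≤ D) : |x * (u * v)| ≤ 600 * D ^ 2 := by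
  rw [abs_mul, abs_of_nonneg (mul_nonneg hu hv)]
  have h1 : u * v ≤ D * D := mul_le_mul huD hvD hv (hu.trans huD)
  calc |x| * (u * v) ≤ 600 * (D * D) := mul_le_mul hx h1 (mul_nonneg hu hv) (by norm_num)
    _ = 600 * D ^ 2 := by ring

private theorem b1 {x u D : ℤ} (hx : |x| ≤ 600) (hu : 0 ≤ u) (huD : u ≤ D) :
    |x * u| ≤ 600 * D := by
  rw [abs_mul, abs_of_nonneg hu]
  exact mul_le_mul hx huD hu (by norm_num)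

private theorem bX {X u D : ℤ} (hX : |X| ≤ 300 * u ^ 2) (hu : 0 ≤ u) (huD : u ≤ D) :
    |X| ≤ 300 * D ^ 2 := by
  have : u ^ 2 ≤ D ^ 2 := pow_le_pow_left₀ hu huD 2
  linarith

private theorem sq_ge {u : ℤ} (h : 0 < u) : u ≤ u ^ 2 := by nlinarith

private theorem sz {Z M D : ℤ} {n : ℤ} (hZ : |Z| ≤ n) (hn : n ≤ 20000 * M ^ 2)
    (hD : 20000 * M ^ 2 < D) : |Z| < D := by linarith

private theorem sy {Y M D : ℤ} {n : ℤ} (hY : |Y| ≤ n) (hn : 2 * n ≤ 20000 * M ^ 2)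
    (hD : 20000 * M ^ 2 < D) : 2 * |Y| < D := by linarith

/-- Comparison of the digits, anchors (blueprint 4.3). `A`, `a` are as in `ppart_expand`; put `x k l := a k l + a l k - 2 (lenT k l + lenT l k)`, `X k := A k - (2 lenT k k - 1) d k^2`:
`∑ X k + ∑_{pairs} x k l d k d l = 0`, `|x k l| ≤ 600`, `|X k| ≤ 300 d k^2`.
PROOF: for `k = 1`: `D = d 1`, `Y = x 1 2 d 2 + x 1 3 d 3 + x 1 4 d 4 + x 1 5 d 5 + x 1 0 d 0`, `Z` = the rest, `|Z| ≤ 15 * 1000 * d 2^2 < d 1` (`h.g1`); `hX` is one of the two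
cases of `digit_step`; `digits5`. Then `k = 2` with the remaining equation `Z = 0` (`D = d 2`, `x2 = 0` in `digits5`), `k = 3`, `k = 4`. -/
theorem digits_anchor {d : Fin 6 → ℕ} {q : ℕ} (h : Nums d q) (X : Fin 6 → ℤ)
    (x : Fin 6 → Fin 6 → ℤ) (hXb : ∀ k, |X k| ≤ 300 * d k ^ 2) (hx : ∀ k l, |x k l| ≤ 600)
    (c : Fin 6 → ℤ) (hX : ∀ k, k ≠ 0 → k ≠ 5 → X k = c k * d k ^ 2 ∨ X k ≤ -(d k : ℤ) ^ 2 + d k)
    (he : X 0 + X 1 + X 2 + X 3 + X 4 + X 5 +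
      (x 1 2 * (d 1 * d 2) + x 1 3 * (d 1 * d 3) + x 1 4 * (d 1 * d 4) + x 1 5 * (d 1 * d 5) +
        x 1 0 * (d 1 * d 0)) +
      (x 2 3 * (d 2 * d 3) + x 2 4 * (d 2 * d 4) + x 2 5 * (d 2 * d 5) + x 2 0 * (d 2 * d 0)) +
      (x 3 4 * (d 3 * d 4) + x 3 5 * (d 3 * d 5) + x 3 0 * (d 3 * d 0)) +
      (x 4 5 * (d 4 * d 5) + x 4 0 * (d 4 * d 0)) + x 5 0 * (d 5 * d 0) = 0) :
    (∀ k, k ≠ 0 → k ≠ 5 → X k = c k * d k ^ 2 ∧ c k = 0) ∧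
      (x 1 2 = 0 ∧ x 1 3 = 0 ∧ x 1 4 = 0 ∧ x 1 5 = 0 ∧ x 1 0 = 0) ∧
      (x 2 3 = 0 ∧ x 2 4 = 0 ∧ x 2 5 = 0 ∧ x 2 0 = 0) ∧
      (x 3 4 = 0 ∧ x 3 5 = 0 ∧ x 3 0 = 0) ∧ (x 4 5 = 0 ∧ x 4 0 = 0) ∧
      X 5 + x 5 0 * (d 5 * d 0) + X 0 = 0 := by
  have g0 : (66581 : ℤ) < d 0 := by exact_mod_cast h.g0
  have g5 : (d 0 : ℤ) < d 5 := by
    have h5 := h.g5
    have : d 0 < d 5 := by
      have := Nat.zero_le (16 * ((6 + 2 * d 0) ^ 4 + (6 + 2 * d 0) ^ 2))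
      omega
    exact_mod_cast this
  have g4 : (20000 : ℤ) * d 5 ^ 2 < d 4 := by exact_mod_cast h.g4
  have g3 : (20000 : ℤ) * d 4 ^ 2 < d 3 := by exact_mod_cast h.g3
  have g2 : (20000 : ℤ) * d 3 ^ 2 < d 2 := by exact_mod_cast h.g2
  have g1 : (20000 : ℤ) * d 2 ^ 2 < d 1 := by exact_mod_cast h.g1
  have he' := he
  clear he
  have w : ∀ k l, |x k l| ≤ 1000 := fun k l => (hx k l).trans (by norm_num)
  have w0 : |(0 : ℤ)| ≤ 1000 := by norm_num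
  obtain ⟨D0, hD0⟩ : ∃ D0 : ℤ, D0 = d 0 := ⟨_, rfl⟩
  obtain ⟨D1, hD1⟩ : ∃ D1 : ℤ, D1 = d 1 := ⟨_, rfl⟩
  obtain ⟨D2, hD2⟩ : ∃ D2 : ℤ, D2 = d 2 := ⟨_, rfl⟩
  obtain ⟨D3, hD3⟩ : ∃ D3 : ℤ, D3 = d 3 := ⟨_, rfl⟩
  obtain ⟨D4, hD4⟩ : ∃ D4 : ℤ, D4 = d 4 := ⟨_, rfl⟩
  obtain ⟨D5, hD5⟩ : ∃ D5 : ℤ, D5 = d 5 := ⟨_, rfl⟩
  have X0 := hXb 0
  have X2 := hXb 2
  have X3 := hXb 3
  have X4 := hXb 4
  have X5 := hXb 5
  have H1 := hX 1 (by decide) (by decide)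
  have H2 := hX 2 (by decide) (by decide)
  have H3 := hX 3 (by decide) (by decide)
  have H4 := hX 4 (by decide) (by decide)
  have dg := fun x2 x3 x4 x5 x0 : ℤ => digits5 h x2 x3 x4 x5 x0
  simp only [← hD0, ← hD1, ← hD2, ← hD3, ← hD4, ← hD5] at g0 g1 g2 g3 g4 g5 he' X0 X2 X3 X4 X5 H1 H2 H3 H4 dg
  have p0 : 0 < D0 := by linarith only [g0]
  have p5 : 0 < D5 := by linarith only [p0, g5]
  have s5 := sq_ge p5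
  have l54 : D5 ≤ D4 := by linarith only [s5, g4, p5]
  have p4 : 0 < D4 := by linarith only [p5, l54]
  have s4 := sq_ge p4
  have l43 : D4 ≤ D3 := by linarith only [s4, g3, p4]
  have p3 : 0 < D3 := by linarith only [p4, l43]
  have s3 := sq_ge p3
  have l32 : D3 ≤ D2 := by linarith only [s3, g2, p3]
  have p2 : 0 < D2 := by linarith only [p3, l32]
  have s2 := sq_ge p2
  have l05 : D0 ≤ D5 := g5.le
  have l04 : D0 ≤ D4 := l05.trans l54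
  have l03 : D0 ≤ D3 := l04.trans l43
  have l02 : D0 ≤ D2 := l03.trans l32
  have l53 : D5 ≤ D3 := l54.trans l43
  have l52 : D5 ≤ D2 := l53.trans l32
  have l42 : D4 ≤ D2 := l43.trans l32
  have q0 := p0.le
  have q2 := p2.le
  have q3 := p3.le
  have q4 := p4.le
  have q5 := p5.le
  -- k = 1
  obtain ⟨e1, c1, y1, z1⟩ := digit_step (D := D1) (X := X 1)
    (Y := x 1 2 * D2 + x 1 3 * D3 + x 1 4 * D4 + x 1 5 * D5 + x 1 0 * D0)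
    (Z := X 0 + X 2 + X 3 + X 4 + X 5 +
      (x 2 3 * (D2 * D3) + x 2 4 * (D2 * D4) + x 2 5 * (D2 * D5) + x 2 0 * (D2 * D0)) +
      (x 3 4 * (D3 * D4) + x 3 5 * (D3 * D5) + x 3 0 * (D3 * D0)) +
      (x 4 5 * (D4 * D5) + x 4 0 * (D4 * D0)) + x 5 0 * (D5 * D0)) (c := c 1)
    (by linarith only [g1, s2, g0, l02])
    (sz (aa (aa (aa (aa (aa (aa (aa (aa (bX X0 q0 l02) (bX X2 q2 le_rfl)) (bX X3 q3 l32)) (bX X4 q4 l42)) (bX X5 q5 l52))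
        (aa (aa (aa (b2 (hx 2 3) q2 le_rfl q3 l32) (b2 (hx 2 4) q2 le_rfl q4 l42)) (b2 (hx 2 5) q2 le_rfl q5 l52))
          (b2 (hx 2 0) q2 le_rfl q0 l02)))
        (aa (aa (b2 (hx 3 4) q3 l32 q4 l42) (b2 (hx 3 5) q3 l32 q5 l52)) (b2 (hx 3 0) q3 l32 q0 l02)))
        (aa (b2 (hx 4 5) q4 l42 q5 l52) (b2 (hx 4 0) q4 l42 q0 l02))) (b2 (hx 5 0) q5 l52 q0 l02))
      (by nlinarith only [sq_nonneg D2]) g1)
    (sy (aa (aa (aa (aa (b1 (hx 1 2) q2 le_rfl) (b1 (hx 1 3) q3 l32)) (b1 (hx 1 4) q4 l42)) (b1 (hx 1 5) q5 l52))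
      (b1 (hx 1 0) q0 l02)) (by linarith only [s2, p2]) g1)
    H1 (by linear_combination he')
  obtain ⟨v12, v13, v14, v15, v10⟩ := dg _ _ _ _ _ (w 1 2) (w 1 3) (w 1 4) (w 1 5) (w 1 0) y1
  -- k = 2
  obtain ⟨e2, c2, y2, z2⟩ := digit_step (D := D2) (X := X 2)
    (Y := x 2 3 * D3 + x 2 4 * D4 + x 2 5 * D5 + x 2 0 * D0)
    (Z := X 0 + X 3 + X 4 + X 5 +
      (x 3 4 * (D3 * D4) + x 3 5 * (D3 * D5) + x 3 0 * (D3 * D0)) +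
      (x 4 5 * (D4 * D5) + x 4 0 * (D4 * D0)) + x 5 0 * (D5 * D0)) (c := c 2)
    (by linarith only [g0, l02])
    (sz (aa (aa (aa (aa (aa (aa (bX X0 q0 l03) (bX X3 q3 le_rfl)) (bX X4 q4 l43)) (bX X5 q5 l53))
        (aa (aa (b2 (hx 3 4) q3 le_rfl q4 l43) (b2 (hx 3 5) q3 le_rfl q5 l53)) (b2 (hx 3 0) q3 le_rfl q0 l03)))
        (aa (b2 (hx 4 5) q4 l43 q5 l53) (b2 (hx 4 0) q4 l43 q0 l03))) (b2 (hx 5 0) q5 l53 q0 l03))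
      (by nlinarith only [sq_nonneg D3]) g2)
    (sy (aa (aa (aa (b1 (hx 2 3) q3 le_rfl) (b1 (hx 2 4) q4 l43)) (b1 (hx 2 5) q5 l53))
      (b1 (hx 2 0) q0 l03)) (by linarith only [s3, p3]) g2)
    H2 (by linear_combination z1)
  obtain ⟨-, v23, v24, v25, v20⟩ := dg 0 _ _ _ _ w0 (w 2 3) (w 2 4) (w 2 5) (w 2 0)
    (by linear_combination y2)
  -- k = 3
  obtain ⟨e3, c3, y3, z3⟩ := digit_step (D := D3) (X := X 3)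
    (Y := x 3 4 * D4 + x 3 5 * D5 + x 3 0 * D0)
    (Z := X 0 + X 4 + X 5 +
      (x 4 5 * (D4 * D5) + x 4 0 * (D4 * D0)) + x 5 0 * (D5 * D0)) (c := c 3)
    (by linarith only [g0, l03])
    (sz (aa (aa (aa (aa (bX X0 q0 l04) (bX X4 q4 le_rfl)) (bX X5 q5 l54))
        (aa (b2 (hx 4 5) q4 le_rfl q5 l54) (b2 (hx 4 0) q4 le_rfl q0 l04))) (b2 (hx 5 0) q5 l54 q0 l04))
      (by nlinarith only [sq_nonneg D4]) g3)
    (sy (aa (aa (b1 (hx 3 4) q4 le_rfl) (b1 (hx 3 5) q5 l54))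
      (b1 (hx 3 0) q0 l04)) (by linarith only [s4, p4]) g3)
    H3 (by linear_combination z2)
  obtain ⟨-, -, v34, v35, v30⟩ := dg 0 0 _ _ _ w0 w0 (w 3 4) (w 3 5) (w 3 0)
    (by linear_combination y3)
  -- k = 4
  obtain ⟨e4, c4, y4, z4⟩ := digit_step (D := D4) (X := X 4)
    (Y := x 4 5 * D5 + x 4 0 * D0)
    (Z := X 5 + x 5 0 * (D5 * D0) + X 0) (c := c 4)
    (by linarith only [g0, l04])
    (sz (aa (aa (bX X5 q5 le_rfl) (b2 (hx 5 0) q5 le_rfl q0 l05)) (bX X0 q0 l05))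
      (by nlinarith only [sq_nonneg D5]) g4)
    (sy (aa (b1 (hx 4 5) q5 le_rfl) (b1 (hx 4 0) q0 l05)) (by linarith only [s5, p5]) g4)
    H4 (by linear_combination z3)
  obtain ⟨-, -, -, v45, v40⟩ := dg 0 0 0 _ _ w0 w0 w0 (w 4 5) (w 4 0)
    (by linear_combination y4)
  rw [← hD5, ← hD0]
  refine ⟨?_, ⟨v12, v13, v14, v15, v10⟩, ⟨v23, v24, v25, v20⟩, ⟨v34, v35, v30⟩, ⟨v45, v40⟩, z4⟩
  intro k hk0 hk5
  fin_cases k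
  · exact absurd rfl hk0
  · exact ⟨hD1 ▸ e1, c1⟩
  · exact ⟨hD2 ▸ e2, c2⟩
  · exact ⟨hD3 ▸ e3, c3⟩
  · exact ⟨hD4 ▸ e4, c4⟩
  · exact absurd rfl hk5

end Pool.Agent.Lib.MP_fa0f6c_al.Cx
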