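import Pool.Agent.Lib.MP_fa0f6c_al.Cx.C07

set_option autoImplicit false

namespace Pool.Agent.Lib.MP_fa0f6c_al.Cx

private lemma C08_lenT_sum {k l : Fin 6} (hk0 : k ≠ 0) (hk5 : k ≠ 5) (hkl : k ≠ l) :
    2 * ((lenT k l : ℤ) + lenT l k) ≠ 62 := by
  revert k l
  decide

private lemma C08_lenT_anchor {k : Fin 6} (hk0 : k ≠ 0) (hk5 : k ≠ 5) :
    lenT k k = 16 ∧ rhoT k = 1 := by
  revert k
  decide

private lemma C08_lenT_le (k l : Fin 6) : lenT k l ≤ 48 := by
  revert k l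
  decide

set_option maxHeartbeats 2000000 in
/-- Conclusion of the comparison of digits (blueprint 4.3).
PROOF: `ppart_expand`, `digits_anchor` with `X k = A k - (2 lenT k k - 1) d k^2`, `x k l = a k l + a l k - 2 (lenT k l + lenT l k)`, `c k = 2 (L (κ k) (κ k) - 16)`: for an anchor `k`
(`lenT k k = 16`, `rhoT k = 1`) either `e (κ k) = 1`, `X k = (2 L - 32) d k^2`, or `e (κ k) = d k`, `ρ = e`, `2 L ≤ 2 e + 30 e^2` (`small`), `X k = 2 L - d k - 31 d k^2 ≤ d k - d k^2`. So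
`e = 1` (the second case is excluded because then `X k = 0`, `X k ≤ d k - d k^2 < 0`), `L = 16`. If `κ k = κ l` for an anchor `k` and `l ≠ k`: `x k l = 62 - 2 (lenT k l + lenT l k) ≠ 0`
(`62 ≠ 48, 44, 96, 88`): contradiction. So `κ k ≠ κ l` and `(e = 1 for k; for l too if anchor)`, the last clause for anchors. `κ 0 = κ 5`: then `e = 1` (otherwise `n = 1`,
block sum `d k`), `X 5 = (2 L - 96) d 5^2`, `x 5 0 = 2 (2 L - 1) - 176`, `X 0 = (2 L - 96) d 0^2`: `digit_step` with `D = d 5`: `L = 48`, `x 5 0 = 190 - 176 ≠ 0`. Contradiction. So `κ` is injective.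
If `e (κ 0) = e (κ 5) = 1`: `digit_step` again: `L (κ 5) (κ 5) = 48`, `x 5 0 = 0`, `X 0 = 0`, `L (κ 0) (κ 0) = 48`. -/
theorem digits_main {d : Fin 6 → ℕ} {q : ℕ} (h : Nums d q) {b : ℕ} {n e ρ : Fin b → ℕ}
    {L : Fin b → Fin b → ℕ} {κ : Fin 6 → Fin b} (hD : DigitData d n e ρ L κ) :
    Function.Bijective κ ∧ (∀ k, k ≠ 0 → k ≠ 5 → e (κ k) = 1) ∧
      (e (κ 0) = 1 → e (κ 5) = 1 → (∀ k, L (κ k) (κ k) = lenT k k) ∧
        ∀ k l, k ≠ l → L (κ k) (κ l) + L (κ l) (κ k) = lenT k l + lenT l k) := by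
  obtain ⟨A, a, hsum, hA1, hAd, haeq, hane, hab, hAb⟩ := ppart_expand h hD
  -- bounds for the numbers
  have hdpos : ∀ k, 1 < d k := fun k => (h.prime k).one_lt
  have hdpos' : ∀ k, (1 : ℤ) < d k := fun k => by exact_mod_cast hdpos k
  have hd0 : (66581 : ℤ) < d 0 := by exact_mod_cast h.g0
  have hd50 : 1200 * (d 0 : ℤ) ^ 2 < d 5 := by
    have h1 := h.g5
    have h2 : 1200 * d 0 ^ 2 ≤ 16 * ((6 + 2 * d 0) ^ 4 + (6 + 2 * d 0) ^ 2) := by
      have h3 : d 0 ≤ 6 + 2 * d 0 := by omega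
      have h4 : d 0 ^ 2 ≤ (6 + 2 * d 0) ^ 2 := Nat.pow_le_pow_left h3 2
      have h5 : 1200 ≤ 16 * (6 + 2 * d 0) ^ 2 := by
        have : 66581 < d 0 := h.g0
        nlinarith
      calc 1200 * d 0 ^ 2 ≤ (16 * (6 + 2 * d 0) ^ 2) * (6 + 2 * d 0) ^ 2 :=
            Nat.mul_le_mul h5 h4
        _ = 16 * (6 + 2 * d 0) ^ 4 := by ring
        _ ≤ _ := by
          apply Nat.mul_le_mul_left
          omega
    have h3 : 1200 * d 0 ^ 2 < d 5 := by omega
    exact_mod_cast h3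
  have hd0sq : (d 0 : ℤ) ≤ (d 0 : ℤ) ^ 2 := by nlinarith
  have hd5 : (d 0 : ℤ) < d 5 := by nlinarith
  -- the quantities
  obtain ⟨X, hX⟩ : ∃ X : Fin 6 → ℤ, ∀ k, X k = A k - (2 * (lenT k k : ℤ) - 1) * d k ^ 2 :=
    ⟨_, fun _ => rfl⟩
  obtain ⟨x, hx⟩ : ∃ x : Fin 6 → Fin 6 → ℤ, ∀ k l, x k l = if k = l then 0 else
      a k l + a l k - 2 * ((lenT k l : ℤ) + lenT l k) := ⟨_, fun _ _ => rfl⟩
  have hxne : ∀ k l, k ≠ l → x k l = a k l + a l k - 2 * ((lenT k l : ℤ) + lenT l k) :=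
    fun k l hkl => by rw [hx, if_neg hkl]
  have hxs : ∀ k l, x k l = x l k := by
    intro k l
    by_cases hkl : k = l
    · rw [hkl]
    · rw [hxne k l hkl, hxne l k (Ne.symm hkl)]
      ring
  have hlen : ∀ k l, (0 : ℤ) ≤ (lenT k l : ℤ) ∧ (lenT k l : ℤ) ≤ 48 := fun k l =>
    ⟨by positivity, by exact_mod_cast C08_lenT_le k l⟩
  have hxb : ∀ k l, |x k l| ≤ 600 := by
    intro k l
    by_cases hkl : k = l
    · rw [hx, if_pos hkl]
      norm_num
    · rw [hxne k l hkl, abs_le]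
      have h1 := hab k l hkl
      have h2 := hab l k (Ne.symm hkl)
      have h3 := hlen k l
      have h4 := hlen l k
      constructor <;> linarith [h1.1, h1.2, h2.1, h2.2, h3.1, h3.2, h4.1, h4.2]
  have hXb : ∀ k, |X k| ≤ 300 * d k ^ 2 := by
    intro k
    rw [hX, abs_le]
    have h1 := hAb k
    have h2 := hlen k k
    have h3 := hdpos' k
    have h4 : (d k : ℤ) ≤ (d k : ℤ) ^ 2 := by nlinarith
    have h5 : (2 * (lenT k k : ℤ) - 1) * (d k : ℤ) ^ 2 ≤ 95 * (d k : ℤ) ^ 2 := by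
      apply mul_le_mul_of_nonneg_right _ (by positivity)
      linarith [h2.2]
    have h6 : -1 * (d k : ℤ) ^ 2 ≤ (2 * (lenT k k : ℤ) - 1) * (d k : ℤ) ^ 2 := by
      apply mul_le_mul_of_nonneg_right _ (by positivity)
      linarith [h2.1]
    have h7 : (0 : ℤ) ≤ (d k : ℤ) ^ 2 := by positivity
    constructor <;> linarith [h1.1, h1.2]
  have hcases : ∀ k, k ≠ 0 → k ≠ 5 →
      (e (κ k) = 1 ∧ X k = 2 * ((L (κ k) (κ k) : ℤ) - 16) * d k ^ 2) ∨
        X k ≤ -(d k : ℤ) ^ 2 + d k := by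
    intro k hk0 hk5
    obtain ⟨hl, hr⟩ := C08_lenT_anchor hk0 hk5
    rcases hD.kap.e_eq k with h1 | ⟨h1, h2⟩
    · left
      refine ⟨h1, ?_⟩
      rw [hX, hA1 k h1, hl]
      push_cast
      ring
    · right
      have h3 := hD.rho k
      rw [hr, mul_one] at h3
      have h4 := hD.small (κ k) h3
      rw [hX, hAd k h1, hl]
      rw [h1] at h4
      have h5 : (L (κ k) (κ k) : ℤ) ≤ d k + 15 * d k ^ 2 := by exact_mod_cast h4
      push_cast
      linarith
  have heq : X 0 + X 1 + X 2 + X 3 + X 4 + X 5 +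
      (x 1 2 * (d 1 * d 2) + x 1 3 * (d 1 * d 3) + x 1 4 * (d 1 * d 4) + x 1 5 * (d 1 * d 5) +
        x 1 0 * (d 1 * d 0)) +
      (x 2 3 * (d 2 * d 3) + x 2 4 * (d 2 * d 4) + x 2 5 * (d 2 * d 5) + x 2 0 * (d 2 * d 0)) +
      (x 3 4 * (d 3 * d 4) + x 3 5 * (d 3 * d 5) + x 3 0 * (d 3 * d 0)) +
      (x 4 5 * (d 4 * d 5) + x 4 0 * (d 4 * d 0)) + x 5 0 * (d 5 * d 0) = 0 := by
    rw [hxne 1 2 (by decide), hxne 1 3 (by decide), hxne 1 4 (by decide), hxne 1 5 (by decide),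
      hxne 1 0 (by decide), hxne 2 3 (by decide), hxne 2 4 (by decide), hxne 2 5 (by decide),
      hxne 2 0 (by decide), hxne 3 4 (by decide), hxne 3 5 (by decide), hxne 3 0 (by decide),
      hxne 4 5 (by decide), hxne 4 0 (by decide), hxne 5 0 (by decide),
      hX 0, hX 1, hX 2, hX 3, hX 4, hX 5]
    have hs := hsum
    simp only [Fin.sum_univ_six] at hs
    simp only [Fin.reduceEq, if_true, if_false] at hs
    linarith
  obtain ⟨hanc, ⟨x12, x13, x14, x15, x10⟩, ⟨x23, x24, x25, x20⟩, ⟨x34, x35, x30⟩, ⟨x45, x40⟩,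
    hlast⟩ := digits_anchor h X x hXb hxb (fun k => 2 * ((L (κ k) (κ k) : ℤ) - 16))
      (fun k hk0 hk5 => (hcases k hk0 hk5).imp_left fun h1 => h1.2) heq
  -- anchors
  have hX0 : ∀ k, k ≠ 0 → k ≠ 5 → X k = 0 := by
    intro k hk0 hk5
    obtain ⟨h1, h2⟩ := hanc k hk0 hk5
    rw [h1, h2, zero_mul]
  have he1 : ∀ k, k ≠ 0 → k ≠ 5 → e (κ k) = 1 ∧ L (κ k) (κ k) = 16 := by
    intro k hk0 hk5
    rcases hcases k hk0 hk5 with ⟨h1, h2⟩ | h1
    · refine ⟨h1, ?_⟩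
      have h3 : 2 * ((L (κ k) (κ k) : ℤ) - 16) = 0 := (hanc k hk0 hk5).2
      omega
    · exfalso
      rw [hX0 k hk0 hk5] at h1
      have h3 := hdpos' k
      nlinarith
  -- all `x` with an anchor vanish
  have hxanc : ∀ k l, k ≠ 0 → k ≠ 5 → k ≠ l → x k l = 0 := by
    intro k l hk0 hk5 hkl
    have x21 : x 2 1 = 0 := by rw [hxs]; exact x12
    have x31 : x 3 1 = 0 := by rw [hxs]; exact x13
    have x41 : x 4 1 = 0 := by rw [hxs]; exact x14
    have x32 : x 3 2 = 0 := by rw [hxs]; exact x23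
    have x42 : x 4 2 = 0 := by rw [hxs]; exact x24
    have x43 : x 4 3 = 0 := by rw [hxs]; exact x34
    fin_cases k <;> fin_cases l <;> first
      | exact absurd rfl hk0
      | exact absurd rfl hk5
      | exact absurd rfl hkl
      | assumption
  have hinj1 : ∀ k l, k ≠ 0 → k ≠ 5 → k ≠ l → κ k ≠ κ l := by
    intro k l hk0 hk5 hkl hκ
    have h1 := hxanc k l hk0 hk5 hkl
    rw [hxne k l hkl, haeq k l hkl hκ, haeq l k (Ne.symm hkl) hκ.symm, ← hκ,
      (he1 k hk0 hk5).2] at h1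
    apply C08_lenT_sum hk0 hk5 hkl
    push_cast at h1
    linarith
  have hl00 : (lenT 0 0 : ℤ) = 48 := rfl
  have hl55 : (lenT 5 5 : ℤ) = 48 := rfl
  have hl50 : (lenT 5 0 : ℤ) = 44 := rfl
  have hl05 : (lenT 0 5 : ℤ) = 44 := rfl
  -- common last step
  have hstep : e (κ 0) = 1 → e (κ 5) = 1 → L (κ 5) (κ 5) = 48 ∧ x 5 0 = 0 ∧
      L (κ 0) (κ 0) = 48 := by
    intro e0 e5
    have hX5 : X 5 = (2 * (L (κ 5) (κ 5) : ℤ) - 96) * (d 5 : ℤ) ^ 2 := by
      rw [hX, hA1 5 e5, hl55]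
      ring
    have hX0' : X 0 = (2 * (L (κ 0) (κ 0) : ℤ) - 96) * (d 0 : ℤ) ^ 2 := by
      rw [hX, hA1 0 e0, hl00]
      ring
    have hXb0 := hXb 0
    have hY := hxb 5 0
    have h1 : X 5 + (d 5 : ℤ) * (x 5 0 * d 0) + X 0 = 0 := by linarith
    obtain ⟨-, h2, h3, h4⟩ := digit_step (D := (d 5 : ℤ)) (X := X 5) (Y := x 5 0 * d 0)
      (Z := X 0) (c := 2 * (L (κ 5) (κ 5) : ℤ) - 96) (by linarith) (by
        refine lt_of_le_of_lt hXb0 ?_
        linarith [sq_nonneg (d 0 : ℤ)]) (by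
        rw [abs_mul, Nat.abs_cast]
        have : |x 5 0| * (d 0 : ℤ) ≤ 600 * (d 0 : ℤ) :=
          mul_le_mul_of_nonneg_right hY (by positivity)
        linarith) (Or.inl hX5) h1
    refine ⟨by omega, ?_, ?_⟩
    · rcases mul_eq_zero.1 h3 with h5 | h5
      · exact h5
      · linarith
    · rw [hX0'] at h4
      rcases mul_eq_zero.1 h4 with h5 | h5
      · omega
      · have : (d 0 : ℤ) = 0 := (pow_eq_zero_iff (two_ne_zero)).1 h5
        linarith
  have hκ05 : κ 0 ≠ κ 5 := by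
    intro hκ
    have e0 : e (κ 0) = 1 := by
      rcases hD.kap.e_eq 0 with h1 | ⟨h1, h2⟩
      · exact h1
      · exfalso
        have h3 := hD.kap.sum (κ 0)
        rw [h1, h2, one_mul] at h3
        have h4 : ∑ k ∈ ({0, 5} : Finset (Fin 6)), d k ≤
            ∑ k ∈ Finset.univ.filter (fun k => κ k = κ 0), d k := by
          apply Finset.sum_le_sum_of_subset
          intro k hk
          simp only [Finset.mem_insert, Finset.mem_singleton] at hk
          rw [Finset.mem_filter]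
          refine ⟨Finset.mem_univ _, ?_⟩
          rcases hk with rfl | rfl
          · rfl
          · exact hκ.symm
        rw [Finset.sum_pair (by decide), ← h3] at h4
        have := hdpos 5
        omega
    have e5 : e (κ 5) = 1 := by rw [← hκ]; exact e0
    obtain ⟨h1, h2, h3⟩ := hstep e0 e5
    rw [hxne 5 0 (by decide), haeq 5 0 (by decide) hκ.symm, haeq 0 5 (by decide) hκ, h1, h3,
      hl50, hl05] at h2
    norm_num at h2
  have hinj : Function.Injective κ := by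
    intro k l hκ
    by_contra hkl
    by_cases hk0 : k = 0
    · by_cases hl5 : l = 5
      · subst hk0 hl5
        exact hκ05 hκ
      · exact hinj1 l k (fun h0 => hkl (hk0.trans h0.symm)) hl5 (Ne.symm hkl) hκ.symm
    · by_cases hk5 : k = 5
      · by_cases hl0 : l = 0
        · subst hk5 hl0
          exact hκ05 hκ.symm
        · exact hinj1 l k hl0 (fun h0 => hkl (hk5.trans h0.symm)) (Ne.symm hkl) hκ.symm
      · exact hinj1 k l hk0 hk5 hkl hκ
  refine ⟨⟨hinj, hD.kap.surj⟩, fun k hk0 hk5 => (he1 k hk0 hk5).1, fun e0 e5 => ?_⟩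
  obtain ⟨h1, h2, h3⟩ := hstep e0 e5
  have hall : ∀ k, e (κ k) = 1 := by
    intro k
    by_cases hk0 : k = 0
    · rw [hk0]; exact e0
    · by_cases hk5 : k = 5
      · rw [hk5]; exact e5
      · exact (he1 k hk0 hk5).1
  refine ⟨fun k => ?_, fun k l hkl => ?_⟩
  · by_cases hk0 : k = 0
    · rw [hk0, h3]; rfl
    · by_cases hk5 : k = 5
      · rw [hk5, h1]; rfl
      · rw [(he1 k hk0 hk5).2, (C08_lenT_anchor hk0 hk5).1]
  · have hx0 : x k l = 0 := by
      by_cases hk0 : k = 0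
      · by_cases hl5 : l = 5
        · rw [hk0, hl5, hxs]; exact h2
        · rw [hxs]
          exact hxanc l k (fun h0 => hkl (hk0.trans h0.symm)) hl5 (Ne.symm hkl)
      · by_cases hk5 : k = 5
        · by_cases hl0 : l = 0
          · rw [hk5, hl0]; exact h2
          · rw [hxs]
            exact hxanc l k hl0 (fun h0 => hkl (hk5.trans h0.symm)) (Ne.symm hkl)
        · exact hxanc k l hk0 hk5 hkl
    have hκkl : κ k ≠ κ l := fun h0 => hkl (hinj h0)
    have h4 := hane k l hκkl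
    have h5 := hane l k (Ne.symm hκkl)
    rw [hall k, hall l] at h4 h5
    rw [hxne k l hkl] at hx0
    push_cast at h4 h5
    have h6 : ((L (κ k) (κ l) : ℤ) + L (κ l) (κ k)) = (lenT k l : ℤ) + lenT l k := by
      linarith
    exact_mod_cast h6

end Pool.Agent.Lib.MP_fa0f6c_al.Cx
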