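import Pool.Agent.Lib.MP_fa0f6c_al.Cx.C04
import Pool.Agent.Lib.MP_fa0f6c_al.Cx.B00
import Pool.Agent.Lib.MP_fa0f6c_al.Cx.R12

set_option autoImplicit false

namespace Pool.Agent.Lib.MP_fa0f6c_al.Cx

open scoped Nat
open B

private theorem C09_NN_ge {d : Fin 6 → ℕ} (k : Fin 6) : d k ≤ NN d := by
  have h1 : d k * rhoT k ≤ NN d :=
    Finset.single_le_sum (f := fun k => d k * rhoT k) (fun _ _ => Nat.zero_le _)
      (Finset.mem_univ k)
  have h2 : 1 ≤ rhoT k := by
    fin_cases k <;> simp [rhoT]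
  exact (Nat.le_mul_of_pos_right _ h2).trans h1

private theorem C09_two_lt {d : Fin 6 → ℕ} {q : ℕ} (h : Nums d q) {l : ℕ} (hl : (NN d)! < l) :
    2 < l := by
  have h1 := C09_NN_ge (d := d) 0
  have h2 := Nat.self_le_factorial (NN d)
  have h3 := h.g0
  omega

private theorem C09_not_dvd {d : Fin 6 → ℕ} {q : ℕ} (h : Nums d q) {l : ℕ} (hlp : l.Prime)
    (hl : (NN d)! < l) : ¬ l ∣ q := by
  intro hq
  obtain ⟨f, hf, rfl⟩ := h.q2
  have h1 := hlp.dvd_of_dvd_pow hq
  have h2 := Nat.le_of_dvd (by norm_num) h1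
  have h3 := C09_two_lt h hl
  omega

private theorem C09_val_prod {ι : Type} [DecidableEq ι] (l : ℕ) [Fact l.Prime] (s : Finset ι)
    (f : ι → ℕ) (hf : ∀ i ∈ s, f i ≠ 0) :
    padicValNat l (∏ i ∈ s, f i) = ∑ i ∈ s, padicValNat l (f i) := by
  induction s using Finset.induction_on with
  | empty => simp
  | insert a s ha ih =>
    rw [Finset.prod_insert ha, Finset.sum_insert ha,
      padicValNat.mul (hf a (Finset.mem_insert_self _ _))
        (Finset.prod_ne_zero_iff.2 fun i hi => hf i (Finset.mem_insert_of_mem hi)),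
      ih fun i hi => hf i (Finset.mem_insert_of_mem hi)]

private theorem C09_card_one {F : Type} [Field F] [Finite F] :
    Nat.card (GLn F 1) = Nat.card F - 1 := by
  classical
  have := Fintype.ofFinite F
  rw [Matrix.card_GL_field]
  simp

private theorem C09_facts {n : ℕ} {F : Type} [Field F] [Finite F] {χ : GLn F n → ℂ}
    (hχ : χ ∈ Irr (GLn F n)) {D : ℕ} (hD : χ 1 = D) :
    0 < D ∧ 0 < Nat.card (GLn F n) / D ∧ D * (Nat.card (GLn F n) / D) = Nat.card (GLn F n) := by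
  have h1 := irr_deg_dvd hχ D hD
  have h2 : 0 < Nat.card (GLn F n) := Nat.card_pos
  have h3 : 0 < D := Nat.pos_of_dvd_of_pos h1 h2
  exact ⟨h3, Nat.div_pos (Nat.le_of_dvd h2 h1) h3, Nat.mul_div_cancel' h1⟩

/-- the equation of the degrees and the quotients -/
private theorem C09_eq {b : ℕ} (D hh card : Fin b → ℕ) (hD : ∀ i, 0 < D i)
    (hc : ∀ i, D i * hh i = card i) (H c q : ℕ) :
    (∏ i, D i) * H = q ^ c * ∏ i, card i ↔ H = q ^ c * ∏ i, hh i := by
  have h1 : ∏ i, card i = (∏ i, D i) * ∏ i, hh i := by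
    rw [← Finset.prod_mul_distrib]
    exact Finset.prod_congr rfl fun i _ => (hc i).symm
  have h2 : 0 < ∏ i, D i := Finset.prod_pos fun i _ => hD i
  rw [h1]
  constructor
  · intro h
    refine Nat.eq_of_mul_eq_mul_left h2 ?_
    rw [h]
    ring
  · intro h
    rw [h]
    ring

private theorem C09_d_pos {d : Fin 6 → ℕ} {q : ℕ} (h : Nums d q) (k : Fin 6) :
    q ^ d k - 1 ≠ 0 := by
  have h1 : 1 < q ^ d k := Nat.one_lt_pow (h.prime k).ne_zero (by have := h.q4; omega)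
  omega

/-- The block data of an irreducible character of `∏ GL_{n i}(F i)`. -/
theorem block_data {d : Fin 6 → ℕ} {q : ℕ} (h : Nums d q) {b : ℕ} {n e : Fin b → ℕ}
    (hn : ∀ i, 0 < n i) (he : ∀ i, 0 < e i) (hb : ∀ i, n i * e i ≤ NN d) (F : Fin b → Type)
    [∀ i, Field (F i)] [∀ i, Finite (F i)] (hF : ∀ i, Nat.card (F i) = q ^ e i)
    (S : ∀ i, (GLn (F i) (n i) → ℂ) → Multiset ℕ) (h0 : ∀ i, B0 (F i) (n i) (S i))
    (hα : ∀ i, BAlpha (F i) (n i) (S i)) (hβ : ∀ i, BBeta (F i) (n i) (S i))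
    (χ : ∀ i, GLn (F i) (n i) → ℂ) (hχ : ∀ i, χ i ∈ Irr (GLn (F i) (n i))) (D : Fin b → ℕ)
    (hD : ∀ i, χ i 1 = D i) (c : ℕ)
    (heq : (∏ i, D i) * HH d q = q ^ c * ∏ i, Nat.card (GLn (F i) (n i))) :
    BlockData d q n e (fun i => S i (χ i)) (fun i => Nat.card (GLn (F i) (n i)) / D i) := by
  have hle : ∀ i, (n i)! ≤ (NN d)! := fun i =>
    Nat.factorial_le ((Nat.le_mul_of_pos_right _ (he i)).trans (hb i))
  refine ⟨hn, he, hb, fun i => (h0 i (χ i) (hχ i)).1, fun i => (h0 i (χ i) (hχ i)).2,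
    fun i => (C09_facts (hχ i) (hD i)).2.1, ?_, ?_, ?_, ?_⟩
  · intro i l hl hlN
    obtain ⟨l₁, hl₁, hl₁N, hl₁q⟩ := h.l1
    have h1 := hα i (χ i) (hχ i) (D i) (hD i) l₁ l hl₁ (by
      rw [hF i]
      refine hl₁q.trans ?_
      have := Nat.sub_dvd_pow_sub_pow q 1 (e i)
      rwa [one_pow] at this) (lt_of_le_of_lt (hle i) hl₁N) hl (lt_of_le_of_lt (hle i) hlN) (by
      rw [hF i]
      intro hc
      exact C09_not_dvd h hl hlN (hl.dvd_of_dvd_pow hc))
    rw [hF i] at h1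
    have h2 : ∀ m, padicValNat l ((q ^ e i) ^ m - 1) = padicValNat l (q ^ (e i * m) - 1) :=
      fun m => by rw [pow_mul]
    simp only [h2] at h1
    exact h1
  · intro i hei hcnt m₀ l hm₀ hl hlN hord hdvd
    have hFi : Nat.card (F i) = q := by rw [hF i, hei, pow_one]
    exact hβ i (χ i) (hχ i) (D i) (hD i) hcnt m₀ l hm₀ hl (by
      rw [hFi]
      exact C09_not_dvd h hl hlN) (by rw [hFi]; exact hord) hdvd
  · intro i hni
    have h1 : Nat.card (GLn (F i) (n i)) = q ^ e i - 1 := by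
      rw [hni, C09_card_one, hF i]
    show Nat.card (GLn (F i) (n i)) / D i ∣ q ^ e i - 1
    rw [← h1]
    exact Nat.div_dvd_of_dvd (irr_deg_dvd (hχ i) (D i) (hD i))
  · intro l hl hlN
    have := Fact.mk hl
    rw [C09_eq D (fun i => Nat.card (GLn (F i) (n i)) / D i) _
      (fun i => (C09_facts (hχ i) (hD i)).1) (fun i => (C09_facts (hχ i) (hD i)).2.2)] at heq
    have hq : padicValNat l q = 0 := padicValNat.eq_zero_of_not_dvd (C09_not_dvd h hl hlN)
    have hq0 : q ≠ 0 := by have := h.q4; omega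
    have h1 := congrArg (padicValNat l) heq
    have hne1 : ∀ i ∈ (Finset.univ : Finset (Fin b)), Nat.card (GLn (F i) (n i)) / D i ≠ 0 :=
      fun i _ => (C09_facts (hχ i) (hD i)).2.1.ne'
    have hne2 : ∀ k ∈ (Finset.univ : Finset (Fin 6)), q ^ d k - 1 ≠ 0 :=
      fun k _ => C09_d_pos h k
    rw [HH, padicValNat.mul (pow_ne_zero _ hq0) (Finset.prod_ne_zero_iff.2 hne2),
      padicValNat.mul (pow_ne_zero _ hq0) (Finset.prod_ne_zero_iff.2 hne1),
      padicValNat.pow, padicValNat.pow, hq, mul_zero, mul_zero, zero_add, zero_add,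
      C09_val_prod l _ _ hne2, C09_val_prod l _ _ hne1] at h1
    exact h1.symm

/-- facts on the supports `suppK` -/
private theorem C09_supp {d : Fin 6 → ℕ} {q : ℕ} (h : Nums d q) {b : ℕ} {n e : Fin b → ℕ}
    {κ : Fin 6 → Fin b} (hκ : Kappa d n e κ) (i : Fin b) :
    (suppK d e κ i).Nodup ∧ (∀ m ∈ suppK d e κ i, 0 < m) ∧ (suppK d e κ i).sum = n i ∧
      ∀ k, κ k = i → e i * (d k / e i) = d k := by
  have hd : ∀ k, κ k = i → e i ∣ d k := by
    intro k hk
    rcases hκ.e_eq k with h1 | ⟨h1, _⟩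
    · rw [hk] at h1
      rw [h1]
      exact one_dvd _
    · rw [hk] at h1
      rw [h1]
  have hmul : ∀ k, κ k = i → e i * (d k / e i) = d k := fun k hk => Nat.mul_div_cancel' (hd k hk)
  have hei : 0 < e i := by
    obtain ⟨k, hk⟩ := hκ.surj i
    exact Nat.pos_of_dvd_of_pos (hd k hk) (h.prime k).pos
  have hpos : ∀ k, κ k = i → 0 < d k / e i := fun k hk =>
    Nat.div_pos (Nat.le_of_dvd (h.prime k).pos (hd k hk)) hei
  have hmem : ∀ m ∈ suppK d e κ i, 0 < m := by
    intro m hm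
    rw [suppK, Multiset.mem_map] at hm
    obtain ⟨k, hk, rfl⟩ := hm
    rw [Finset.mem_val] at hk
    exact hpos k (Finset.mem_filter.1 hk).2
  have hsum : (suppK d e κ i).sum = n i := by
    have h1 : (suppK d e κ i).sum =
        ∑ k ∈ Finset.univ.filter (fun k => κ k = i), d k / e i := rfl
    refine Nat.eq_of_mul_eq_mul_left hei ?_
    rw [h1, Finset.mul_sum, mul_comm (e i) (n i), hκ.sum i]
    exact Finset.sum_congr rfl fun k hk => hmul k (Finset.mem_filter.1 hk).2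
  refine ⟨?_, hmem, hsum, hmul⟩
  by_cases he1 : e i = 1
  · rw [suppK]
    refine Multiset.Nodup.map_on ?_ (Finset.nodup _)
    intro k _ k' _ hkk
    rw [he1, Nat.div_one, Nat.div_one] at hkk
    exact nums_injective h hkk
  · have hni : n i = 1 := by
      obtain ⟨k, hk⟩ := hκ.surj i
      rcases hκ.e_eq k with h1 | ⟨_, h1⟩
      · rw [hk] at h1
        exact absurd h1 he1
      · rw [hk] at h1
        exact h1
    have hcard : Multiset.card (suppK d e κ i) ≤ 1 := by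
      have h1 : Multiset.card (suppK d e κ i) • 1 ≤ (suppK d e κ i).sum :=
        Multiset.card_nsmul_le_sum fun m hm => hmem m hm
      rw [hsum, hni] at h1
      simpa using h1
    rcases Nat.le_one_iff_eq_zero_or_eq_one.1 hcard with h1 | h1
    · rw [Multiset.card_eq_zero.1 h1]
      exact Multiset.nodup_zero
    · obtain ⟨m, hm⟩ := Multiset.card_eq_one.1 h1
      rw [hm]
      exact Multiset.nodup_singleton m

/-- With the supports `suppK`, the equation for the degrees is equivalent to an equation of the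
exponents of `q`. -/
theorem degree_iff {d : Fin 6 → ℕ} {q : ℕ} (h : Nums d q) {b : ℕ} {n e : Fin b → ℕ}
    (hn : ∀ i, 0 < n i) (F : Fin b → Type) [∀ i, Field (F i)] [∀ i, Finite (F i)]
    (hF : ∀ i, Nat.card (F i) = q ^ e i) (S : ∀ i, (GLn (F i) (n i) → ℂ) → Multiset ℕ)
    (hγ : ∀ i, BGamma (F i) (n i) (S i)) {κ : Fin 6 → Fin b} (hκ : Kappa d n e κ)
    (χ : ∀ i, GLn (F i) (n i) → ℂ) (hχ : ∀ i, χ i ∈ Irr (GLn (F i) (n i)))
    (hS : ∀ i, S i (χ i) = suppK d e κ i) (D : Fin b → ℕ) (hD : ∀ i, χ i 1 = D i) (c : ℕ) :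
    (∏ i, D i) * HH d q = q ^ c * ∏ i, Nat.card (GLn (F i) (n i)) ↔
      c + ∑ i, e i * (n i * (n i - 1) / 2) = EE d := by
  have _ := hn
  have hq1 : 1 < q := by have := h.q4; omega
  rw [C09_eq D (fun i => Nat.card (GLn (F i) (n i)) / D i) _
    (fun i => (C09_facts (hχ i) (hD i)).1) (fun i => (C09_facts (hχ i) (hD i)).2.2)]
  have h1 : ∀ i, Nat.card (GLn (F i) (n i)) / D i =
      q ^ (e i * (n i * (n i - 1) / 2)) *
        ∏ k ∈ Finset.univ.filter (fun k => κ k = i), (q ^ d k - 1) := by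
    intro i
    obtain ⟨s1, s2, s3, s4⟩ := C09_supp h hκ i
    have h2 := (hγ i (suppK d e κ i) s1 s2 s3).2 (χ i) (hχ i) (hS i) (D i) (hD i)
    rw [h2, hF i, ← pow_mul, suppK, Multiset.map_map]
    congr 1
    show ∏ k ∈ Finset.univ.filter (fun k => κ k = i),
      ((q ^ e i) ^ (d k / e i) - 1) = _
    refine Finset.prod_congr rfl fun k hk => ?_
    rw [← pow_mul, s4 k (Finset.mem_filter.1 hk).2]
  have h2 : ∏ i, Nat.card (GLn (F i) (n i)) / D i =
      q ^ (∑ i, e i * (n i * (n i - 1) / 2)) * ∏ k, (q ^ d k - 1) := by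
    rw [Finset.prod_congr rfl fun i _ => h1 i, Finset.prod_mul_distrib,
      Finset.prod_pow_eq_pow_sum, Finset.prod_fiberwise]
  rw [h2, HH, ← mul_assoc, ← pow_add]
  have h3 : 0 < ∏ k, (q ^ d k - 1) := Finset.prod_pos fun k _ =>
    Nat.pos_of_ne_zero (C09_d_pos h k)
  constructor
  · intro h4
    exact (Nat.pow_right_injective hq1 (Nat.eq_of_mul_eq_mul_right h3 h4)).symm
  · intro h4
    rw [h4]

end Pool.Agent.Lib.MP_fa0f6c_al.Cx
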