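import Pool.Agent.Lib.MP_fa0f6c_al.Cx.C09

set_option autoImplicit false

namespace Pool.Agent.Lib.MP_fa0f6c_al.Cx

open scoped Nat
open B

/-- the degree equation in natural numbers -/
private theorem c10_deg {d : Fin 6 → ℕ} {q b : ℕ} {n : Fin b → ℕ} (F : Fin b → Type)
    [∀ i, Field (F i)] [∀ i, Finite (F i)] (c : ℕ) (χ : ∀ i, GLn (F i) (n i) → ℂ)
    (D : Fin b → ℕ) (hD : ∀ i, χ i 1 = D i) :
    (∏ i, χ i ((1 : ∀ i, GLn (F i) (n i)) i)) * (HH d q : ℂ) =
        (q ^ c : ℕ) * Nat.card (∀ i, GLn (F i) (n i)) ↔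
      (∏ i, D i) * HH d q = q ^ c * ∏ i, Nat.card (GLn (F i) (n i)) := by
  have h1 : (∏ i, χ i ((1 : ∀ i, GLn (F i) (n i)) i)) = ((∏ i, D i : ℕ) : ℂ) := by
    rw [Nat.cast_prod]
    exact Finset.prod_congr rfl fun i _ => hD i
  rw [h1, Nat.card_pi]
  exact_mod_cast Iff.rfl

/-- the supports `suppK` satisfy the hypotheses of `BGamma` -/
private theorem c10_supp {d : Fin 6 → ℕ} {q : ℕ} (h : Nums d q) {b : ℕ} {n e : Fin b → ℕ}
    {κ : Fin 6 → Fin b} (hκ : Kappa d n e κ) (i : Fin b) :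
    (suppK d e κ i).Nodup ∧ (∀ m ∈ suppK d e κ i, 0 < m) ∧ (suppK d e κ i).sum = n i := by
  have hpos : ∀ k, 0 < d k := fun k => (h.prime k).pos
  have hinj := nums_injective h
  by_cases hi : e i = 1
  · have h1 : suppK d e κ i = (Finset.univ.filter (fun k => κ k = i)).val.map d := by
      unfold suppK
      refine Multiset.map_congr rfl fun k _ => ?_
      rw [hi, Nat.div_one]
    rw [h1]
    refine ⟨Multiset.Nodup.map hinj (Finset.nodup _), ?_, ?_⟩
    · intro m hm
      obtain ⟨k, -, rfl⟩ := Multiset.mem_map.1 hm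
      exact hpos k
    · have h2 := hκ.sum i
      rw [hi, mul_one] at h2
      rw [h2]
      rfl
  · obtain ⟨k, rfl⟩ := hκ.surj i
    obtain ⟨hek, hnk⟩ := (hκ.e_eq k).resolve_left hi
    have h3 : Finset.univ.filter (fun k' => κ k' = κ k) = {k} := by
      have h4 := hκ.sum (κ k)
      rw [hek, hnk, one_mul] at h4
      have hmem : k ∈ Finset.univ.filter (fun k' => κ k' = κ k) := by simp
      rw [← Finset.add_sum_erase _ _ hmem] at h4
      have h5 : ∑ k' ∈ (Finset.univ.filter (fun k' => κ k' = κ k)).erase k, d k' = 0 := by omega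
      have h6 : (Finset.univ.filter (fun k' => κ k' = κ k)).erase k = ∅ := by
        by_contra hne
        obtain ⟨k', hk'⟩ := Finset.nonempty_iff_ne_empty.2 hne
        have h7 := (Finset.sum_eq_zero_iff.1 h5) k' hk'
        have := hpos k'
        omega
      rw [← Finset.insert_erase hmem, h6]
      rfl
    have h1 : suppK d e κ (κ k) = {1} := by
      unfold suppK
      rw [h3, Finset.singleton_val, Multiset.map_singleton, hek, Nat.div_self (hpos k)]
    rw [h1, hnk]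
    refine ⟨Multiset.nodup_singleton _, ?_, Multiset.sum_singleton _⟩
    intro m hm
    rw [Multiset.mem_singleton] at hm
    omega

/-- Decoding: a character of the right degree gives `κ` and the equation of exponents.
PROOF: `irr_pi`: `ψ = ∏ χ i`; `irr_deg` for `D i`; `B_main` for `S i`; `block_data`, `exists_kappa`, `degree_iff`. -/
theorem prod_decode {d : Fin 6 → ℕ} {q : ℕ} (h : Nums d q) {b : ℕ} {n e : Fin b → ℕ}
    (hn : ∀ i, 0 < n i) (he : ∀ i, 0 < e i) (hb : ∀ i, n i * e i ≤ NN d) (F : Fin b → Type)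
    [∀ i, Field (F i)] [∀ i, Finite (F i)] (hF : ∀ i, Nat.card (F i) = q ^ e i) (c : ℕ)
    (hne : ∃ ψ ∈ Irr (∀ i, GLn (F i) (n i)),
      ψ 1 * HH d q = (q ^ c : ℕ) * Nat.card (∀ i, GLn (F i) (n i))) :
    ∃ κ : Fin 6 → Fin b, Kappa d n e κ ∧ c + ∑ i, e i * (n i * (n i - 1) / 2) = EE d := by
  choose S h0 hα hβ hγ using fun i => (B_main (F i) (n i) (hn i)).1
  obtain ⟨ψ, hψ, heq⟩ := hne
  obtain ⟨χ, hχ, rfl⟩ := (irr_pi (fun i => GLn (F i) (n i))).surjOn hψ
  choose D hD0 hD using fun i => irr_deg (hχ i)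
  have heq' := (c10_deg F c χ D hD).1 heq
  obtain ⟨κ, hκ, hS⟩ := exists_kappa h
    (block_data h hn he hb F hF S h0 hα hβ χ hχ D hD c heq')
  exact ⟨κ, hκ, (degree_iff h hn F hF S hγ hκ χ hχ hS D hD c).1 heq'⟩

/-- Counting. PROOF: by `irr_pi` the set is in bijection with the families `χ` with `χ i ∈ Irr`, `S i (χ i) = suppK d e κ i` (inclusion: `block_data`, `exists_kappa`, `kappa_unique`;
converse: `degree_iff`). Its cardinality is `∏ i, ∏_{κ k = i} cuspNum (F i) (d k / e i)` (`BGamma`) and `cuspNum (F i) (d k) = cc q (d k)` if `e i = 1` (last part of `B_main`; `card (F i) = q`),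
`cuspNum (F i) 1 = q ^ d k - 1` if `e i = d k`. -/
theorem prod_count {d : Fin 6 → ℕ} {q : ℕ} (h : Nums d q) {b : ℕ} {n e : Fin b → ℕ}
    (hn : ∀ i, 0 < n i) (he : ∀ i, 0 < e i) (hb : ∀ i, n i * e i ≤ NN d) (F : Fin b → Type)
    [∀ i, Field (F i)] [∀ i, Finite (F i)] (hF : ∀ i, Nat.card (F i) = q ^ e i) (c : ℕ)
    {κ : Fin 6 → Fin b} (hκ : Kappa d n e κ)
    (hc : c + ∑ i, e i * (n i * (n i - 1) / 2) = EE d) :
    Set.ncard {ψ | ψ ∈ Irr (∀ i, GLn (F i) (n i)) ∧
      ψ 1 * HH d q = (q ^ c : ℕ) * Nat.card (∀ i, GLn (F i) (n i))} =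
      ∏ k, (if e (κ k) = 1 then cc q (d k) else q ^ d k - 1) := by
  classical
  choose S h0 hα hβ hγ using fun i => (B_main (F i) (n i) (hn i)).1
  let t : ∀ i, Set (GLn (F i) (n i) → ℂ) := fun i =>
    {ψ | ψ ∈ Irr (GLn (F i) (n i)) ∧ S i ψ = suppK d e κ i}
  have hbij := irr_pi (fun i => GLn (F i) (n i))
  have hA : {ψ | ψ ∈ Irr (∀ i, GLn (F i) (n i)) ∧
      ψ 1 * HH d q = (q ^ c : ℕ) * Nat.card (∀ i, GLn (F i) (n i))} =
      (fun (χ : ∀ i, GLn (F i) (n i) → ℂ) (x : ∀ i, GLn (F i) (n i)) => ∏ i, χ i (x i)) ''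
        Set.pi Set.univ t := by
    ext ψ
    constructor
    · rintro ⟨hψ, heq⟩
      obtain ⟨χ, hχ, rfl⟩ := hbij.surjOn hψ
      refine ⟨χ, fun i _ => ⟨hχ i, ?_⟩, rfl⟩
      choose D hD0 hD using fun i => irr_deg (hχ i)
      have heq' := (c10_deg F c χ D hD).1 heq
      obtain ⟨κ', hκ', hS⟩ := exists_kappa h
        (block_data h hn he hb F hF S h0 hα hβ χ hχ D hD c heq')
      rw [kappa_unique h hκ hκ']
      exact hS i
    · rintro ⟨χ, hχ, rfl⟩
      have hχ1 : ∀ i, χ i ∈ Irr (GLn (F i) (n i)) := fun i => (hχ i (Set.mem_univ i)).1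
      have hχ2 : ∀ i, S i (χ i) = suppK d e κ i := fun i => (hχ i (Set.mem_univ i)).2
      refine ⟨hbij.mapsTo hχ1, ?_⟩
      choose D hD0 hD using fun i => irr_deg (hχ1 i)
      exact (c10_deg F c χ D hD).2
        ((degree_iff h hn F hF S hγ hκ χ hχ1 hχ2 D hD c).2 hc)
  rw [hA, Set.InjOn.ncard_image]
  · have h1 : (Set.pi Set.univ t).ncard = ∏ i, (t i).ncard := by
      have h2 := Nat.card_congr (Equiv.Set.univPi t)
      rw [Nat.card_pi, Nat.card_coe_set_eq] at h2
      rw [h2]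
      exact Finset.prod_congr rfl fun i _ => Nat.card_coe_set_eq _
    rw [h1]
    have h3 : ∀ i, (t i).ncard =
        ∏ k ∈ Finset.univ.filter (fun k => κ k = i), cuspNum (F i) (d k / e i) := by
      intro i
      obtain ⟨h4, h5, h6⟩ := c10_supp h hκ i
      have h7 := (hγ i _ h4 h5 h6).1
      change (t i).ncard = _ at h7
      rw [h7]
      unfold suppK
      rw [Multiset.map_map]
      rfl
    have h4 : ∏ i, (t i).ncard = ∏ i, ∏ k ∈ Finset.univ.filter (fun k => κ k = i),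
        (if e (κ k) = 1 then cc q (d k) else q ^ d k - 1) := by
      refine Finset.prod_congr rfl fun i _ => ?_
      rw [h3 i]
      refine Finset.prod_congr rfl fun k hk => ?_
      obtain ⟨-, rfl⟩ := Finset.mem_filter.1 hk
      obtain ⟨-, h8, h9⟩ := B_main (F (κ k)) (n (κ k)) (hn (κ k))
      by_cases h10 : e (κ k) = 1
      · rw [if_pos h10, h10, Nat.div_one]
        have h11 := h9 (d k) (h.prime k)
        rw [hF, h10, pow_one] at h11
        unfold cc
        rw [← h11, Nat.mul_div_cancel_left _ (h.prime k).pos]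
      · rw [if_neg h10]
        obtain ⟨h11, -⟩ := (hκ.e_eq k).resolve_left h10
        have h12 := hF (κ k)
        rw [h11] at h12
        rw [h11, Nat.div_self (h.prime k).pos, h8, h12]
    rw [h4, Finset.prod_fiberwise]
  · intro χ hχ χ' hχ' heq
    exact hbij.injOn (fun i => (hχ i (Set.mem_univ i)).1) (fun i => (hχ' i (Set.mem_univ i)).1) heq

end Pool.Agent.Lib.MP_fa0f6c_al.Cx
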