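import Pool.Agent.Lib.MP_fa0f6c_al.Cx.F05
import Pool.Agent.Lib.MP_fa0f6c_al.Cx.A01

set_option autoImplicit false

namespace Pool.Agent.Lib.MP_fa0f6c_al.Cx

/-! ### blocks indexed by pairs -/

section blocks

variable {o : Type} [CommRing o] {b : ℕ} {n ρ : Fin b → ℕ}

omit [CommRing o] in
private theorem F08_ext {x y : Matrix (Idx n ρ) (Idx n ρ) o}
    (h : ∀ i s j t, blk x i s j t = blk y i s j t) : x = y := by
  ext ⟨i, s, a⟩ ⟨j, t, c⟩
  exact congrFun (congrFun (h i s j t) a) c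

private theorem F08_blk_add (x y : Matrix (Idx n ρ) (Idx n ρ) o) (i : Fin b) (s : Fin (n i))
    (j : Fin b) (t : Fin (n j)) : blk (x + y) i s j t = blk x i s j t + blk y i s j t := rfl

private theorem F08_blk_sub (x y : Matrix (Idx n ρ) (Idx n ρ) o) (i : Fin b) (s : Fin (n i))
    (j : Fin b) (t : Fin (n j)) : blk (x - y) i s j t = blk x i s j t - blk y i s j t := rfl

private theorem F08_blk_zero (i : Fin b) (s : Fin (n i))
    (j : Fin b) (t : Fin (n j)) : blk (0 : Matrix (Idx n ρ) (Idx n ρ) o) i s j t = 0 := rfl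

private theorem F08_blk_sum {α : Type} (A : Finset α) (f : α → Matrix (Idx n ρ) (Idx n ρ) o)
    (i : Fin b) (s : Fin (n i)) (j : Fin b) (t : Fin (n j)) :
    blk (∑ a ∈ A, f a) i s j t = ∑ a ∈ A, blk (f a) i s j t := by
  ext a c
  simp only [blk, Matrix.sum_apply]

private theorem F08_blk_one_self (i : Fin b) (s : Fin (n i)) :
    blk (1 : Matrix (Idx n ρ) (Idx n ρ) o) i s i s = 1 := by
  ext a c; simp [blk, Matrix.one_apply]

private theorem F08_blk_one_ne (i : Fin b) (s t : Fin (n i)) (h : s ≠ t) :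
    blk (1 : Matrix (Idx n ρ) (Idx n ρ) o) i s i t = 0 := by
  ext a c; simp [blk, h]

/-- the matrix with one nonzero block -/
private def F08_sg (i : Fin b) (s : Fin (n i)) (j : Fin b) (t : Fin (n j))
    (c : Matrix (Fin (ρ i)) (Fin (ρ j)) o) : Matrix (Idx n ρ) (Idx n ρ) o :=
  fun x y => ∑ a, ∑ d, if x = ⟨i, (s, a)⟩ ∧ y = ⟨j, (t, d)⟩ then c a d else 0

private theorem F08_blk_sg_self (i : Fin b) (s : Fin (n i)) (j : Fin b) (t : Fin (n j))
    (c : Matrix (Fin (ρ i)) (Fin (ρ j)) o) : blk (F08_sg i s j t c) i s j t = c := by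
  ext a d
  unfold blk F08_sg
  rw [Finset.sum_eq_single a, Finset.sum_eq_single d]
  · rw [if_pos ⟨rfl, rfl⟩]
  · intro d' _ hd
    rw [if_neg]
    rintro ⟨-, h⟩
    apply hd
    simpa using h.symm
  · simp
  · intro a' _ ha
    apply Finset.sum_eq_zero
    intro d' _
    rw [if_neg]
    rintro ⟨h, -⟩
    apply ha
    simpa using h.symm
  · simp

private theorem F08_blk_sg_ne (i : Fin b) (s : Fin (n i)) (j : Fin b) (t : Fin (n j))
    (c : Matrix (Fin (ρ i)) (Fin (ρ j)) o) (i' : Fin b) (s' : Fin (n i')) (j' : Fin b)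
    (t' : Fin (n j'))
    (h : (⟨i', s'⟩ : Σ i, Fin (n i)) ≠ ⟨i, s⟩ ∨ (⟨j', t'⟩ : Σ i, Fin (n i)) ≠ ⟨j, t⟩) :
    blk (F08_sg i s j t c) i' s' j' t' = 0 := by
  ext a d
  unfold blk F08_sg
  show _ = (0 : o)
  apply Finset.sum_eq_zero
  intro a' _
  apply Finset.sum_eq_zero
  intro d' _
  rw [if_neg]
  rintro ⟨h1, h2⟩
  rcases h with h | h
  · apply h
    injection h1 with h3 h4
    subst h3
    simp only [heq_eq_eq, Prod.mk.injEq] at h4
    rw [h4.1]
  · apply h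
    injection h2 with h3 h4
    subst h3
    simp only [heq_eq_eq, Prod.mk.injEq] at h4
    rw [h4.1]

/-- the two block sums as a sum over pairs -/
private theorem F08_blk_mul (x y : Matrix (Idx n ρ) (Idx n ρ) o) (i : Fin b) (s : Fin (n i))
    (l : Fin b) (t : Fin (n l)) :
    blk (x * y) i s l t = ∑ q : Σ i, Fin (n i), blk x i s q.1 q.2 * blk y q.1 q.2 l t := by
  rw [blk_mul, Fintype.sum_sigma]

private theorem F08_blk_sg_mul_self (i : Fin b) (s : Fin (n i)) (j : Fin b) (t : Fin (n j))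
    (c : Matrix (Fin (ρ i)) (Fin (ρ j)) o) (y : Matrix (Idx n ρ) (Idx n ρ) o) (l : Fin b)
    (u : Fin (n l)) : blk (F08_sg i s j t c * y) i s l u = c * blk y j t l u := by
  rw [F08_blk_mul, Finset.sum_eq_single ⟨j, t⟩]
  · rw [F08_blk_sg_self]
  · rintro q _ hq
    rw [F08_blk_sg_ne _ _ _ _ _ _ _ _ _ (Or.inr hq), Matrix.zero_mul]
  · simp

private theorem F08_blk_sg_mul_ne (i : Fin b) (s : Fin (n i)) (j : Fin b) (t : Fin (n j))
    (c : Matrix (Fin (ρ i)) (Fin (ρ j)) o) (y : Matrix (Idx n ρ) (Idx n ρ) o) (i' : Fin b)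
    (s' : Fin (n i')) (l : Fin b)
    (u : Fin (n l)) (h : (⟨i', s'⟩ : Σ i, Fin (n i)) ≠ ⟨i, s⟩) :
    blk (F08_sg i s j t c * y) i' s' l u = 0 := by
  rw [F08_blk_mul]
  apply Finset.sum_eq_zero
  rintro q _
  rw [F08_blk_sg_ne _ _ _ _ _ _ _ _ _ (Or.inl h), Matrix.zero_mul]

private theorem F08_blk_mul_sg_self (i : Fin b) (s : Fin (n i)) (j : Fin b) (t : Fin (n j))
    (c : Matrix (Fin (ρ i)) (Fin (ρ j)) o) (y : Matrix (Idx n ρ) (Idx n ρ) o) (l : Fin b)
    (u : Fin (n l)) : blk (y * F08_sg i s j t c) l u j t = blk y l u i s * c := by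
  rw [F08_blk_mul, Finset.sum_eq_single ⟨i, s⟩]
  · rw [F08_blk_sg_self]
  · rintro q _ hq
    rw [F08_blk_sg_ne _ _ _ _ _ _ _ _ _ (Or.inl hq), Matrix.mul_zero]
  · simp

private theorem F08_blk_mul_sg_ne (i : Fin b) (s : Fin (n i)) (j : Fin b) (t : Fin (n j))
    (c : Matrix (Fin (ρ i)) (Fin (ρ j)) o) (y : Matrix (Idx n ρ) (Idx n ρ) o) (j' : Fin b)
    (t' : Fin (n j')) (l : Fin b)
    (u : Fin (n l)) (h : (⟨j', t'⟩ : Σ i, Fin (n i)) ≠ ⟨j, t⟩) :
    blk (y * F08_sg i s j t c) l u j' t' = 0 := by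
  rw [F08_blk_mul]
  apply Finset.sum_eq_zero
  rintro q _
  rw [F08_blk_sg_ne _ _ _ _ _ _ _ _ _ (Or.inr h), Matrix.mul_zero]

private theorem F08_sg_mul_mul (i : Fin b) (s : Fin (n i)) (j : Fin b) (t : Fin (n j))
    (k : Fin b) (u : Fin (n k)) (l : Fin b) (v : Fin (n l))
    (c : Matrix (Fin (ρ i)) (Fin (ρ j)) o) (c' : Matrix (Fin (ρ k)) (Fin (ρ l)) o)
    (y : Matrix (Idx n ρ) (Idx n ρ) o) :
    F08_sg i s j t c * y * F08_sg k u l v c' = F08_sg i s l v (c * blk y j t k u * c') := by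
  apply F08_ext
  intro p q p' q'
  by_cases h1 : (⟨p, q⟩ : Σ i, Fin (n i)) = ⟨i, s⟩
  · by_cases h2 : (⟨p', q'⟩ : Σ i, Fin (n i)) = ⟨l, v⟩
    · obtain ⟨rfl, h3⟩ := Sigma.mk.inj_iff.1 h1
      obtain ⟨rfl, h4⟩ := Sigma.mk.inj_iff.1 h2
      rw [heq_eq_eq] at h3 h4
      subst h3 h4
      rw [F08_blk_sg_self, F08_blk_mul_sg_self, F08_blk_sg_mul_self]
    · rw [F08_blk_mul_sg_ne _ _ _ _ _ _ _ _ _ _ h2, F08_blk_sg_ne _ _ _ _ _ _ _ _ _ (Or.inr h2)]
  · rw [Matrix.mul_assoc, F08_blk_sg_mul_ne _ _ _ _ _ _ _ _ _ _ h1,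
      F08_blk_sg_ne _ _ _ _ _ _ _ _ _ (Or.inl h1)]

private theorem F08_sg_zero (i : Fin b) (s : Fin (n i)) (j : Fin b) (t : Fin (n j)) :
    F08_sg i s j t (0 : Matrix (Fin (ρ i)) (Fin (ρ j)) o) = 0 := by
  funext x y
  unfold F08_sg
  simp

private theorem F08_sum_sg (x : Matrix (Idx n ρ) (Idx n ρ) o) :
    x = ∑ p : Σ i, Fin (n i), ∑ q : Σ i, Fin (n i),
      F08_sg p.1 p.2 q.1 q.2 (blk x p.1 p.2 q.1 q.2) := by
  apply F08_ext
  intro i s j t
  rw [F08_blk_sum, Finset.sum_eq_single ⟨i, s⟩, F08_blk_sum, Finset.sum_eq_single ⟨j, t⟩]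
  · rw [F08_blk_sg_self]
  · rintro ⟨k, u⟩ _ h
    rw [F08_blk_sg_ne _ _ _ _ _ _ _ _ _ (Or.inr (Ne.symm h))]
  · simp
  · rintro ⟨k, u⟩ _ h
    rw [F08_blk_sum]
    apply Finset.sum_eq_zero
    intro q _
    rw [F08_blk_sg_ne _ _ _ _ _ _ _ _ _ (Or.inl (Ne.symm h))]
  · simp

/-- `(y * sg c)` is nilpotent if the block `y_{(j,t),(i,s)} c` is -/
private theorem F08_nil_mul (i : Fin b) (s : Fin (n i)) (j : Fin b) (t : Fin (n j))
    (c : Matrix (Fin (ρ i)) (Fin (ρ j)) o) (y : Matrix (Idx n ρ) (Idx n ρ) o)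
    (h : IsNilpotent (blk y j t i s * c)) : IsNilpotent (y * F08_sg i s j t c) := by
  obtain ⟨N, hN⟩ := h
  have key : ∀ k : ℕ, F08_sg i s j t c * (y * F08_sg i s j t c) ^ k
      = F08_sg i s j t (c * (blk y j t i s * c) ^ k) := by
    intro k
    induction k with
    | zero => rw [pow_zero, pow_zero, mul_one, Matrix.mul_one]
    | succ k ih =>
      rw [pow_succ, ← mul_assoc, ih, ← mul_assoc, F08_sg_mul_mul, pow_succ, Matrix.mul_assoc,
        Matrix.mul_assoc]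
  refine ⟨N + 1, ?_⟩
  rw [pow_succ', mul_assoc, key N, hN, Matrix.mul_zero, F08_sg_zero, mul_zero]

end blocks

/-! ### membership of one-block matrices -/

section members

variable {o : Type} [CommRing o] {b : ℕ} {ρ : Fin b → ℕ}

private theorem F08_sg_mem (S : Corners o ρ) (n : Fin b → ℕ) (i : Fin b) (s : Fin (n i))
    (j : Fin b) (t : Fin (n j)) {c : Matrix (Fin (ρ i)) (Fin (ρ j)) o} (hc : c ∈ S.C i j) :
    F08_sg i s j t c ∈ S.ring n := by
  intro i' s' j' t'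
  by_cases h1 : (⟨i', s'⟩ : Σ i, Fin (n i)) = ⟨i, s⟩
  · by_cases h2 : (⟨j', t'⟩ : Σ i, Fin (n i)) = ⟨j, t⟩
    · obtain ⟨rfl, h3⟩ := Sigma.mk.inj_iff.1 h1
      obtain ⟨rfl, h4⟩ := Sigma.mk.inj_iff.1 h2
      rw [heq_eq_eq] at h3 h4
      subst h3 h4
      rw [F08_blk_sg_self]
      exact hc
    · rw [F08_blk_sg_ne _ _ _ _ _ _ _ _ _ (Or.inr h2)]
      exact (S.C i' j').zero_mem
  · rw [F08_blk_sg_ne _ _ _ _ _ _ _ _ _ (Or.inl h1)]
    exact (S.C i' j').zero_mem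

private theorem F08_jac_of_nil {E : Type} [Ring E] (x : E) (h : ∀ y : E, IsNilpotent (y * x)) :
    x ∈ Ideal.jacobson (⊥ : Ideal E) := by
  rw [Ideal.mem_jacobson_iff]
  intro y
  obtain ⟨u, hu⟩ := (h y).isUnit_one_add
  refine ⟨(u⁻¹ : Eˣ), ?_⟩
  have h1 : ((u⁻¹ : Eˣ) : E) * (1 + y * x) = 1 := by rw [← hu, Units.inv_mul]
  rw [mul_add, mul_one, ← mul_assoc] at h1
  have h2 : ((u⁻¹ : Eˣ) : E) * y * x + ((u⁻¹ : Eˣ) : E) - 1 = 0 := by
    rw [sub_eq_zero, add_comm]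
    exact h1
  rw [h2]
  exact Submodule.zero_mem _

private theorem F08_sg_jac_off (S : Corners o ρ) (n : Fin b → ℕ) (i : Fin b) (s : Fin (n i))
    (j : Fin b) (t : Fin (n j)) (hij : i ≠ j) {c : Matrix (Fin (ρ i)) (Fin (ρ j)) o}
    (hc : c ∈ S.C i j) :
    (⟨F08_sg i s j t c, F08_sg_mem S n i s j t hc⟩ : S.ring n) ∈
      Ideal.jacobson (⊥ : Ideal (S.ring n)) := by
  apply F08_jac_of_nil
  rintro ⟨y, hy⟩
  have h1 : IsNilpotent (blk y j t i s * c) :=
    S.nil j _ (S.J_off j i (Ne.symm hij) _ (hy j t i s) _ hc)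
  obtain ⟨N, hN⟩ := F08_nil_mul i s j t c y h1
  refine ⟨N, Subtype.ext ?_⟩
  push_cast
  exact hN

private theorem F08_sg_jac_diag (S : Corners o ρ) (n : Fin b → ℕ) (i : Fin b) (s : Fin (n i))
    (t : Fin (n i)) {c : Matrix (Fin (ρ i)) (Fin (ρ i)) o}
    (hc : c ∈ S.J i) :
    (⟨F08_sg i s i t c, F08_sg_mem S n i s i t (S.J_le i hc)⟩ : S.ring n) ∈
      Ideal.jacobson (⊥ : Ideal (S.ring n)) := by
  apply F08_jac_of_nil
  rintro ⟨y, hy⟩
  have h1 : IsNilpotent (blk y i t i s * c) :=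
    S.nil i _ (S.J_mulL i _ (hy i t i s) _ hc)
  obtain ⟨N, hN⟩ := F08_nil_mul i s i t c y h1
  refine ⟨N, Subtype.ext ?_⟩
  push_cast
  exact hN

private theorem F08_mem_jac (S : Corners o ρ) (n : Fin b → ℕ) (x : S.ring n)
    (hx : (x : Matrix (Idx n ρ) (Idx n ρ) o) ∈ S.rad n) :
    x ∈ Ideal.jacobson (⊥ : Ideal (S.ring n)) := by
  have h1 : x = ∑ p : Σ i, Fin (n i), ∑ q : Σ i, Fin (n i),
      (⟨F08_sg p.1 p.2 q.1 q.2 (blk (x : Matrix (Idx n ρ) (Idx n ρ) o) p.1 p.2 q.1 q.2),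
        F08_sg_mem S n _ _ _ _ (hx.1 _ _ _ _)⟩ : S.ring n) := by
    apply Subtype.ext
    push_cast
    exact F08_sum_sg (x : Matrix (Idx n ρ) (Idx n ρ) o)
  rw [h1]
  refine Ideal.sum_mem _ fun p _ => Ideal.sum_mem _ fun q _ => ?_
  obtain ⟨i, s⟩ := p
  obtain ⟨j, t⟩ := q
  by_cases hij : i = j
  · subst hij
    exact F08_sg_jac_diag S n i s t (hx.2 i s t)
  · exact F08_sg_jac_off S n i s j t hij (hx.1 i s j t)

end members

variable {o : Type} [CommRing o] [IsLocalRing o] [Finite o] {b : ℕ} {ρ : Fin b → ℕ}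

/-- PROOF of nilpotency: every `1 + x`, `x ∈ S.rad n`, is invertible (the diagonal block entries `1 + J i` are invertible; eliminate:
`C i j * C j i ⊆ J i`); a two-sided ideal `K` of a finite ring `E` such that all `1 + x` are units is contained in the Jacobson radical, which is nilpotent.
Alternatively a direct induction. -/
theorem corners_nilIdeal (S : Corners o ρ) (n : Fin b → ℕ) : IsNilIdeal (S.ring n) (S.rad n) := by
  refine ⟨fun x hx => hx.1, ?_, ?_, ?_⟩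
  · intro f hf x hx
    refine ⟨(S.ring n).mul_mem hf hx.1, fun i s t => ?_⟩
    rw [blk_mul]
    refine Submodule.sum_mem _ fun j _ => Submodule.sum_mem _ fun u _ => ?_
    by_cases hij : i = j
    · subst hij
      exact S.J_mulL i _ (hf i s i u) _ (hx.2 i u t)
    · exact S.J_off i j hij _ (hf i s j u) _ (hx.1 j u i t)
  · intro f hf x hx
    refine ⟨(S.ring n).mul_mem hx.1 hf, fun i s t => ?_⟩
    rw [blk_mul]
    refine Submodule.sum_mem _ fun j _ => Submodule.sum_mem _ fun u _ => ?_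
    by_cases hij : i = j
    · subst hij
      exact S.J_mulR i _ (hf i u i t) _ (hx.2 i s u)
    · exact S.J_off i j hij _ (hx.1 i s j u) _ (hf j u i t)
  · have hfin : Finite (Matrix (Idx n ρ) (Idx n ρ) o) :=
      inferInstanceAs (Finite (Idx n ρ → Idx n ρ → o))
    have hfin2 : Finite (S.ring n) := inferInstance
    obtain ⟨N, hN⟩ := IsArtinianRing.isNilpotent_jacobson_bot (R := S.ring n)
    have key : ∀ k : ℕ, ∀ x ∈ (S.rad n) ^ k,
        ∃ y ∈ (Ideal.jacobson (⊥ : Ideal (S.ring n))) ^ k,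
          (y : Matrix (Idx n ρ) (Idx n ρ) o) = x := by
      intro k
      induction k with
      | zero =>
        intro x hx
        rw [pow_zero, Submodule.mem_one] at hx
        obtain ⟨m, hm⟩ := hx
        refine ⟨(m : S.ring n), ?_, ?_⟩
        · rw [Submodule.pow_zero, Ideal.one_eq_top]
          exact Submodule.mem_top
        · rw [← hm]
          simp
      | succ k ih =>
        intro x hx
        rw [Submodule.pow_succ] at hx
        refine Submodule.mul_induction_on hx ?_ ?_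
        · intro a ha c hc
          obtain ⟨a', ha', rfl⟩ := ih a ha
          refine ⟨a' * ⟨c, hc.1⟩, ?_, ?_⟩
          · rw [Submodule.pow_succ]
            exact Ideal.mul_mem_mul ha' (F08_mem_jac S n ⟨c, hc.1⟩ hc)
          · rfl
        · rintro a c ⟨a', ha', rfl⟩ ⟨c', hc', rfl⟩
          exact ⟨a' + c', Submodule.add_mem _ ha' hc', rfl⟩
    refine ⟨N, ?_⟩
    rw [Submodule.zero_eq_bot, Submodule.eq_bot_iff]
    intro x hx
    obtain ⟨y, hy, rfl⟩ := key N x hx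
    rw [hN] at hy
    have : y = 0 := by simpa using hy
    rw [this]
    rfl

/-! ### the residue rings -/

private def F08_A (S : Corners o ρ) (i : Fin b) : Subring (Matrix (Fin (ρ i)) (Fin (ρ i)) o) where
  carrier := S.C i i
  mul_mem' := fun {x y} hx hy => S.mul_mem i i i x hx y hy
  one_mem' := S.one_mem i
  add_mem' := fun hx hy => (S.C i i).add_mem hx hy
  zero_mem' := (S.C i i).zero_mem
  neg_mem' := fun hx => (S.C i i).neg_mem hx

private def F08_JJ (S : Corners o ρ) (i : Fin b) : Ideal (F08_A S i) where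
  carrier := {x | (x : Matrix (Fin (ρ i)) (Fin (ρ i)) o) ∈ S.J i}
  add_mem' := fun hx hy => (S.J i).add_mem hx hy
  zero_mem' := (S.J i).zero_mem
  smul_mem' := fun c _ hx => S.J_mulL i _ c.2 _ hx

private theorem F08_mem_JJ (S : Corners o ρ) (i : Fin b) (x : F08_A S i) :
    x ∈ F08_JJ S i ↔ (x : Matrix (Fin (ρ i)) (Fin (ρ i)) o) ∈ S.J i := Iff.rfl

private instance F08_twoSided (S : Corners o ρ) (i : Fin b) : (F08_JJ S i).IsTwoSided :=
  ⟨fun {_} c ha => S.J_mulR i _ c.2 _ ha⟩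

private theorem F08_isField (S : Corners o ρ) (i : Fin b) : IsField (F08_A S i ⧸ F08_JJ S i) := by
  refine ⟨⟨0, 1, ?_⟩, ?_, ?_⟩
  · intro h
    have h1 : (Ideal.Quotient.mk (F08_JJ S i)) 1 = 0 := h.symm
    rw [Ideal.Quotient.eq_zero_iff_mem] at h1
    exact S.one_notMem i h1
  · intro x y
    obtain ⟨x, rfl⟩ := Ideal.Quotient.mk_surjective x
    obtain ⟨y, rfl⟩ := Ideal.Quotient.mk_surjective y
    rw [← RingHom.map_mul, ← RingHom.map_mul, Ideal.Quotient.eq]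
    exact S.comm i _ x.2 _ y.2
  · intro x hx
    obtain ⟨x, rfl⟩ := Ideal.Quotient.mk_surjective x
    have h1 : (x : Matrix (Fin (ρ i)) (Fin (ρ i)) o) ∉ S.J i := by
      intro h
      exact hx (Ideal.Quotient.eq_zero_iff_mem.2 h)
    obtain ⟨y, hy, hxy, -⟩ := S.unit i _ x.2 h1
    refine ⟨Ideal.Quotient.mk _ ⟨y, hy⟩, ?_⟩
    rw [← RingHom.map_mul, ← RingHom.map_one (Ideal.Quotient.mk (F08_JJ S i)),
      Ideal.Quotient.eq]
    exact hxy

private theorem F08_field (S : Corners o ρ) (i : Fin b) :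
    ∃ (F : Type) (_ : Field F) (_ : Finite F) (q : F08_A S i →+* F),
      Function.Surjective q ∧
      (∀ x, q x = 0 ↔ (x : Matrix (Fin (ρ i)) (Fin (ρ i)) o) ∈ S.J i) ∧
      Nat.card (S.C i i) = Nat.card F * Nat.card (S.J i) := by
  have hfin : Finite (Matrix (Fin (ρ i)) (Fin (ρ i)) o) :=
    inferInstanceAs (Finite (Fin (ρ i) → Fin (ρ i) → o))
  have hfin2 : Finite (F08_A S i) := inferInstance
  have hfin3 : Finite (F08_A S i ⧸ F08_JJ S i) :=
    Finite.of_surjective _ (Ideal.Quotient.mk_surjective (I := F08_JJ S i))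
  have hcard : Nat.card (S.C i i) = Nat.card (F08_A S i ⧸ F08_JJ S i) * Nat.card (S.J i) := by
    have h1 : Nat.card (S.C i i) = Nat.card (F08_A S i) := rfl
    have h2 := Submodule.card_eq_card_quotient_mul_card (F08_JJ S i)
    have h3 : Nat.card (F08_JJ S i) = Nat.card (S.J i) := by
      refine Nat.card_congr ⟨fun x => ⟨(x.1 : Matrix (Fin (ρ i)) (Fin (ρ i)) o), x.2⟩,
        fun y => ⟨⟨y.1, S.J_le i y.2⟩, y.2⟩, fun x => rfl, fun y => rfl⟩
    rw [h1, h2, h3, mul_comm]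
  exact ⟨F08_A S i ⧸ F08_JJ S i, (F08_isField S i).toField, hfin3,
    Ideal.Quotient.mk (F08_JJ S i), Ideal.Quotient.mk_surjective,
    fun x => Ideal.Quotient.eq_zero_iff_mem, hcard⟩

private theorem F08_q_congr (S : Corners o ρ) (i : Fin b) {F : Type} [Field F]
    {q : F08_A S i →+* F} (hq : ∀ x, q x = 0 ↔ (x : Matrix (Fin (ρ i)) (Fin (ρ i)) o) ∈ S.J i)
    (x y : F08_A S i) (h : (x : Matrix (Fin (ρ i)) (Fin (ρ i)) o) - y ∈ S.J i) : q x = q y := by
  rw [← sub_eq_zero, ← map_sub, hq]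
  exact h

/-- The residue rings. `F i` is the finite field `C i i / J i`; the ring `S.ring n` maps onto
`∏ M_{n i}(F i)` with kernel `S.rad n`. -/
theorem corners_residue (S : Corners o ρ) (n : Fin b → ℕ) :
    ∃ (F : Fin b → Type) (_ : ∀ i, Field (F i)) (_ : ∀ i, Finite (F i))
      (φ : S.ring n →+* (∀ i, Matrix (Fin (n i)) (Fin (n i)) (F i))),
      Function.Surjective φ ∧ (∀ x, φ x = 0 ↔
        (x : Matrix (Idx n ρ) (Idx n ρ) o) ∈ S.rad n) ∧
      (∀ i, Nat.card (S.C i i) = Nat.card (F i) * Nat.card (S.J i)) := by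
  classical
  choose F hF hFin q hqs hqk hcard using fun i => F08_field S i
  refine ⟨F, hF, hFin, ?_⟩
  let f : S.ring n → ∀ i, Matrix (Fin (n i)) (Fin (n i)) (F i) := fun x i =>
    Matrix.of fun s t => q i ⟨blk (x : Matrix (Idx n ρ) (Idx n ρ) o) i s i t, x.2 i s i t⟩
  have hone : f 1 = 1 := by
    funext i
    ext s t
    show q i ⟨blk (1 : Matrix (Idx n ρ) (Idx n ρ) o) i s i t, _⟩ = (1 : Matrix _ _ (F i)) s t
    by_cases hst : s = t
    · subst hst
      rw [Matrix.one_apply_eq, ← map_one (q i)]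
      congr 1
      exact Subtype.ext (F08_blk_one_self i s)
    · rw [Matrix.one_apply_ne hst, ← map_zero (q i)]
      congr 1
      exact Subtype.ext (F08_blk_one_ne i s t hst)
  have hmul : ∀ x y, f (x * y) = f x * f y := by
    intro x y
    funext i
    ext s t
    show q i ⟨blk ((x : Matrix (Idx n ρ) (Idx n ρ) o) * (y : Matrix (Idx n ρ) (Idx n ρ) o))
      i s i t, _⟩ = (f x i * f y i) s t
    rw [Matrix.mul_apply]
    have h1 : ∀ u, f x i s u * f y i u t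
        = q i (⟨blk (x : Matrix (Idx n ρ) (Idx n ρ) o) i s i u, x.2 i s i u⟩ *
          ⟨blk (y : Matrix (Idx n ρ) (Idx n ρ) o) i u i t, y.2 i u i t⟩) := by
      intro u
      rw [map_mul]
      rfl
    rw [Finset.sum_congr rfl fun u _ => h1 u, ← map_sum]
    apply F08_q_congr S i (hqk i)
    rw [AddSubmonoidClass.coe_finsetSum]
    show blk ((x : Matrix (Idx n ρ) (Idx n ρ) o) * (y : Matrix (Idx n ρ) (Idx n ρ) o)) i s i t
      - ∑ u, blk (x : Matrix (Idx n ρ) (Idx n ρ) o) i s i u *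
        blk (y : Matrix (Idx n ρ) (Idx n ρ) o) i u i t ∈ S.J i
    rw [blk_mul, ← Finset.add_sum_erase _ _ (Finset.mem_univ i), add_sub_cancel_left]
    refine Submodule.sum_mem _ fun j hj => Submodule.sum_mem _ fun u _ => ?_
    have hij : i ≠ j := fun h => (Finset.mem_erase.1 hj).1 h.symm
    exact S.J_off i j hij _ (x.2 i s j u) _ (y.2 j u i t)
  have hzero : f 0 = 0 := by
    funext i
    ext s t
    show q i ⟨blk (0 : Matrix (Idx n ρ) (Idx n ρ) o) i s i t, _⟩ = 0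
    rw [← map_zero (q i)]
    rfl
  have hadd : ∀ x y, f (x + y) = f x + f y := by
    intro x y
    funext i
    ext s t
    show q i _ = q i _ + q i _
    rw [← map_add]
    rfl
  let φ : S.ring n →+* (∀ i, Matrix (Fin (n i)) (Fin (n i)) (F i)) :=
    { toFun := f, map_one' := hone, map_mul' := hmul, map_zero' := hzero, map_add' := hadd }
  refine ⟨φ, ?_, ?_, hcard⟩
  · intro M
    choose g hg using fun (i : Fin b) (s t : Fin (n i)) => hqs i (M i s t)
    refine ⟨∑ i : Fin b, ∑ s : Fin (n i), ∑ t : Fin (n i),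
      ⟨F08_sg i s i t (g i s t : Matrix (Fin (ρ i)) (Fin (ρ i)) o),
        F08_sg_mem S n i s i t (g i s t).2⟩, ?_⟩
    funext i
    ext s t
    rw [← hg i s t]
    show q i ⟨blk _ i s i t, _⟩ = _
    congr 1
    apply Subtype.ext
    show blk _ i s i t = _
    push_cast
    rw [F08_blk_sum, Finset.sum_eq_single i, F08_blk_sum, Finset.sum_eq_single s, F08_blk_sum,
      Finset.sum_eq_single t, F08_blk_sg_self]
    · intro u _ hu
      apply F08_blk_sg_ne
      right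
      intro h
      obtain ⟨-, h3⟩ := Sigma.mk.inj_iff.1 h
      exact hu (eq_of_heq h3).symm
    · simp
    · intro u _ hu
      rw [F08_blk_sum]
      refine Finset.sum_eq_zero fun v _ => ?_
      apply F08_blk_sg_ne
      left
      intro h
      obtain ⟨-, h3⟩ := Sigma.mk.inj_iff.1 h
      exact hu (eq_of_heq h3).symm
    · simp
    · intro j _ hj
      rw [F08_blk_sum]
      refine Finset.sum_eq_zero fun u _ => ?_
      rw [F08_blk_sum]
      refine Finset.sum_eq_zero fun v _ => ?_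
      apply F08_blk_sg_ne
      left
      intro h
      obtain ⟨h2, -⟩ := Sigma.mk.inj_iff.1 h
      exact hj h2.symm
    · simp
  · intro x
    constructor
    · intro h
      refine ⟨x.2, fun i s t => ?_⟩
      have h1 := congrFun (congrFun (congrFun h i) s) t
      exact (hqk i _).1 h1
    · intro h
      funext i
      ext s t
      exact (hqk i _).2 (h.2 i s t)

private theorem F08_sg_pow (n : Fin b → ℕ) (i : Fin b) (s : Fin (n i))
    (c : Matrix (Fin (ρ i)) (Fin (ρ i)) o) (k : ℕ) :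
    (F08_sg i s i s c : Matrix (Idx n ρ) (Idx n ρ) o) ^ (k + 1) = F08_sg i s i s (c ^ (k + 1)) := by
  induction k with
  | zero => rw [zero_add, pow_one, pow_one]
  | succ k ih =>
    rw [pow_succ, ih, pow_succ c (k + 1)]
    have h := F08_sg_mul_mul (n := n) i s i s i s i s (c ^ (k + 1)) c
      (1 : Matrix (Idx n ρ) (Idx n ρ) o)
    rw [mul_one, F08_blk_one_self, mul_one] at h
    exact h

private theorem F08_pow_sub_one (S : Corners o ρ) (i : Fin b)
    (c : Matrix (Fin (ρ i)) (Fin (ρ i)) o) (hc : c ∈ S.C i i) (h : c - 1 ∈ S.J i) (k : ℕ) :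
    c ^ k ∈ S.C i i ∧ c ^ k - 1 ∈ S.J i := by
  induction k with
  | zero =>
    rw [pow_zero, sub_self]
    exact ⟨S.one_mem i, (S.J i).zero_mem⟩
  | succ k ih =>
    rw [pow_succ]
    refine ⟨S.mul_mem i i i _ ih.1 _ hc, ?_⟩
    have e : c ^ k * c - 1 = c ^ k * (c - 1) + (c ^ k - 1) := by noncomm_ring
    rw [e]
    exact (S.J i).add_mem (S.J_mulL i _ ih.1 _ h) ih.2

theorem corners_maxNil (S : Corners o ρ) (n : Fin b → ℕ) :
    ∀ K, IsNilIdeal (S.ring n) K → K ≤ S.rad n := by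
  intro K hK x hx
  refine ⟨hK.le x hx, fun i s t => ?_⟩
  by_contra hcon
  set c := blk x i s i t with hc
  have hcC : c ∈ S.C i i := hK.le x hx i s i t
  obtain ⟨y, hy, hcy, -⟩ := S.unit i c hcC hcon
  -- the element `sg (c y)` of `K`
  have h1 : (F08_sg i s i s (c * y) : Matrix (Idx n ρ) (Idx n ρ) o) ∈ K := by
    have h2 := F08_sg_mul_mul (n := n) i s i s i t i s (1 : Matrix (Fin (ρ i)) (Fin (ρ i)) o) y x
    rw [Matrix.one_mul, ← hc] at h2
    rw [← h2]
    exact hK.mulR _ (F08_sg_mem S n i t i s hy) _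
      (hK.mulL _ (F08_sg_mem S n i s i s (S.one_mem i)) _ hx)
  obtain ⟨N, hN⟩ := hK.nil
  have h3 : (F08_sg i s i s (c * y) : Matrix (Idx n ρ) (Idx n ρ) o) ^ (N + 1) = 0 := by
    have h4 : (F08_sg i s i s (c * y) : Matrix (Idx n ρ) (Idx n ρ) o) ^ N ∈ K ^ N :=
      Submodule.pow_mem_pow K h1 N
    rw [hN, Submodule.zero_eq_bot, Submodule.mem_bot] at h4
    rw [pow_succ, h4, zero_mul]
  rw [F08_sg_pow] at h3
  have h5 : (c * y) ^ (N + 1) = 0 := by
    rw [← F08_blk_sg_self (n := n) i s i s ((c * y) ^ (N + 1)), h3]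
    rfl
  have h6 := (F08_pow_sub_one S i (c * y) (S.mul_mem i i i _ hcC _ hy) hcy (N + 1)).2
  rw [h5, zero_sub] at h6
  have h7 := (S.J i).neg_mem h6
  rw [neg_neg] at h7
  exact S.one_notMem i h7

/-- Units: `unitsOf (S.ring n) → ∏ GL_{n i}(F i)` surjective with kernel `1 + S.rad n`. -/
theorem corners_units (S : Corners o ρ) (n : Fin b → ℕ) :
    ∃ (F : Fin b → Type) (_ : ∀ i, Field (F i)) (_ : ∀ i, Finite (F i))
      (φ : unitsOf (S.ring n) →* (∀ i, (Matrix (Fin (n i)) (Fin (n i)) (F i))ˣ)),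
      Function.Surjective φ ∧
      (∀ u, φ u = 1 ↔ ((u : (Matrix (Idx n ρ) (Idx n ρ) o)ˣ) : Matrix (Idx n ρ) (Idx n ρ) o) - 1 ∈
        S.rad n) ∧
      (∀ i, Nat.card (S.C i i) = Nat.card (F i) * Nat.card (S.J i)) := by
  classical
  obtain ⟨F, hF, hFin, φ, hs, hk, hcard⟩ := corners_residue S n
  have hfin : Finite (Matrix (Idx n ρ) (Idx n ρ) o) :=
    inferInstanceAs (Finite (Idx n ρ → Idx n ρ → o))
  -- the unit group of `E`
  let α : unitsOf (S.ring n) →* (S.ring n)ˣ :=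
    { toFun := fun u => ⟨⟨((u : (Matrix (Idx n ρ) (Idx n ρ) o)ˣ) : Matrix (Idx n ρ) (Idx n ρ) o),
          u.2.1⟩, ⟨(((u : (Matrix (Idx n ρ) (Idx n ρ) o)ˣ)⁻¹ : (Matrix (Idx n ρ) (Idx n ρ) o)ˣ) :
          Matrix (Idx n ρ) (Idx n ρ) o), u.2.2⟩,
          Subtype.ext (Units.mul_inv _), Subtype.ext (Units.inv_mul _)⟩
      map_one' := by
        apply Units.ext
        rfl
      map_mul' := by
        intro u v
        apply Units.ext
        rfl }
  let β : (S.ring n)ˣ →* (∀ i, Matrix (Fin (n i)) (Fin (n i)) (F i))ˣ :=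
    Units.map (φ : S.ring n →* (∀ i, Matrix (Fin (n i)) (Fin (n i)) (F i)))
  let γ : (∀ i, Matrix (Fin (n i)) (Fin (n i)) (F i))ˣ ≃*
      (∀ i, (Matrix (Fin (n i)) (Fin (n i)) (F i))ˣ) := MulEquiv.piUnits
  have hval : ∀ (u : unitsOf (S.ring n)) (i : Fin b),
      ((γ (β (α u)) i : (Matrix (Fin (n i)) (Fin (n i)) (F i))ˣ) :
        Matrix (Fin (n i)) (Fin (n i)) (F i)) =
      φ ⟨((u : (Matrix (Idx n ρ) (Idx n ρ) o)ˣ) : Matrix (Idx n ρ) (Idx n ρ) o), u.2.1⟩ i :=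
    fun u i => rfl
  refine ⟨F, hF, hFin, (γ : _ →* _).comp (β.comp α), ?_, ?_, hcard⟩
  · intro v
    obtain ⟨x, hx⟩ := hs fun i => (v i : Matrix (Fin (n i)) (Fin (n i)) (F i))
    obtain ⟨x', hx'⟩ := hs fun i => ((v i)⁻¹ : (Matrix (Fin (n i)) (Fin (n i)) (F i))ˣ)
    have h1 : φ (x * x') = 1 := by
      rw [map_mul, hx, hx']
      funext i
      exact Units.mul_inv (v i)
    have h2 : ((x * x' : S.ring n) : Matrix (Idx n ρ) (Idx n ρ) o) - 1 ∈ S.rad n := by
      have h3 := (hk (x * x' - 1)).1 (by rw [map_sub, h1, map_one, sub_self])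
      exact h3
    obtain ⟨w, hw, hw1⟩ := exists_unit (corners_nilIdeal S n) h2
    rw [add_sub_cancel] at hw1
    have hwE := oneAddGroup_le (corners_nilIdeal S n) hw
    -- the inverse of `x`
    set z : Matrix (Idx n ρ) (Idx n ρ) o := (x' : Matrix (Idx n ρ) (Idx n ρ) o) *
      ((w⁻¹ : (Matrix (Idx n ρ) (Idx n ρ) o)ˣ) : Matrix (Idx n ρ) (Idx n ρ) o) with hz
    have hzE : z ∈ S.ring n := (S.ring n).mul_mem x'.2 hwE.2
    have h4 : (x : Matrix (Idx n ρ) (Idx n ρ) o) * z = 1 := by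
      rw [hz, ← mul_assoc]
      have h5 : (x : Matrix (Idx n ρ) (Idx n ρ) o) * (x' : Matrix (Idx n ρ) (Idx n ρ) o)
          = (w : Matrix (Idx n ρ) (Idx n ρ) o) := hw1.symm
      rw [h5, Units.mul_inv]
    have h6 : z * (x : Matrix (Idx n ρ) (Idx n ρ) o) = 1 := mul_eq_one_symm h4
    refine ⟨⟨⟨x, z, h4, h6⟩, x.2, hzE⟩, ?_⟩
    funext i
    apply Units.ext
    exact congrFun hx i
  · intro u
    rw [← hk ⟨((u : (Matrix (Idx n ρ) (Idx n ρ) o)ˣ) : Matrix (Idx n ρ) (Idx n ρ) o) - 1,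
      (S.ring n).sub_mem u.2.1 (S.ring n).one_mem⟩]
    have e : (⟨((u : (Matrix (Idx n ρ) (Idx n ρ) o)ˣ) : Matrix (Idx n ρ) (Idx n ρ) o) - 1,
      (S.ring n).sub_mem u.2.1 (S.ring n).one_mem⟩ : S.ring n) =
      ⟨((u : (Matrix (Idx n ρ) (Idx n ρ) o)ˣ) : Matrix (Idx n ρ) (Idx n ρ) o), u.2.1⟩ - 1 := rfl
    rw [e, map_sub, map_one, sub_eq_zero]
    constructor
    · intro h
      funext i
      rw [← hval u i]
      have h1 := congrFun h i
      exact congrArg Units.val h1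
    · intro h
      funext i
      apply Units.ext
      have h1 := congrFun h i
      rw [← hval u i] at h1
      exact h1

end Pool.Agent.Lib.MP_fa0f6c_al.Cx
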