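import Pool.Agent.Lib.MP_fa0f6c_al.Cx.Defs
import Pool.Agent.Lib.MP_fa0f6c_al.Cx.R08
import Pool.Agent.Lib.MP_fa0f6c_al.Cx.R09
import Pool.Agent.Lib.MP_fa0f6c_al.Cx.R12

set_option autoImplicit false

namespace Pool.Agent.Lib.MP_fa0f6c_al.Cx

open scoped ComplexConjugate

/-- The transfer on a normal subgroup on which the character is invariant. -/
private theorem transfer_normal {G A : Type} [Group G] [CommGroup A] {S : Subgroup G}
    [S.FiniteIndex] (ϕ : S →* A) (N : Subgroup G) (hNn : N.Normal) (hNS : N ≤ S)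
    (hinv : ∀ (g n : G) (hn : n ∈ N), ϕ ⟨g⁻¹ * n * g, hNS (by
      simpa using hNn.conj_mem n hn g⁻¹)⟩ = ϕ ⟨n, hNS hn⟩) (n : G) (hn : n ∈ N) :
    MonoidHom.transfer ϕ n = ϕ ⟨n, hNS hn⟩ ^ S.index := by
  let T : S.LeftTransversal := default
  rw [MonoidHom.transfer_def ϕ T n, Subgroup.leftTransversals.diff]
  let _ := S.fintypeQuotientOfFiniteIndex
  have hfix : ∀ q : G ⧸ S, n⁻¹ • q = q := by
    intro q
    induction q using QuotientGroup.induction_on with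
    | H t =>
      change ((n⁻¹ * t : G) : G ⧸ S) = (t : G ⧸ S)
      rw [QuotientGroup.eq]
      have h1 : (n⁻¹ * t)⁻¹ * t = t⁻¹ * n * t⁻¹⁻¹ := by group
      rw [h1]
      exact hNS (hNn.conj_mem n hn t⁻¹)
  rw [Subgroup.index_eq_card, Nat.card_eq_fintype_card, ← Finset.card_univ, ← Finset.prod_const]
  refine Finset.prod_congr rfl fun q _ => ?_
  rw [← hinv (T.2.leftQuotientEquiv q : G) n hn]
  congr 1
  apply Subtype.ext
  change ((T.2.leftQuotientEquiv q : G))⁻¹ * ((n • T).2.leftQuotientEquiv q : G) =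
    (T.2.leftQuotientEquiv q : G)⁻¹ * n * (T.2.leftQuotientEquiv q : G)
  rw [Subgroup.smul_apply_eq_smul_apply_inv_smul, hfix q, smul_eq_mul, mul_assoc]

/-- Extension of an invariant linear character of a normal `p`-subgroup `N` with the help of a
complement modulo the kernel in a Sylow `p`-subgroup.
PROOF. `S = U ⊔ N = U N` (as `N` is normal); `m'(u n) = m n` is well defined (`U ⊓ N ≤ ker m`) and
multiplicative (`m` is invariant), a homomorphism `S → ℂˣ` extending `m`. The transfer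
(`MonoidHom.transfer`) of `m'` is a homomorphism `V : G → ℂˣ` with `V n = m n ^ [G : S]` for `n ∈ N`
(by invariance); `[G : S]` is prime to `p`, so with `[G : S] * c ≡ 1` modulo `|N|` take `V ^ c`. -/
theorem extend_normal {G : Type} [Group G] [Finite G] (p : ℕ) (hp : p.Prime) (N U : Subgroup G)
    (hNn : N.Normal) (hNp : ∃ k, Nat.card N = p ^ k) (m : G → ℂ) (hm : IsLin N m)
    (hinv : ∀ g : G, ∀ n ∈ N, m (g * n * g⁻¹) = m n) (hU : ∀ u ∈ U, u ∈ N → m u = 1)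
    (hidx : ¬ p ∣ (U ⊔ N).index) :
    ∃ l : G →* ℂˣ, ∀ n ∈ N, (l n : ℂ) = m n := by
  classical
  have hm1 := hm.1
  have hmm := hm.2
  have hne : ∀ n ∈ N, m n ≠ 0 := by
    intro n hn h0
    have h1 := hmm n hn n⁻¹ (N.inv_mem hn)
    rw [mul_inv_cancel, hm1, h0, zero_mul] at h1
    exact one_ne_zero h1
  -- decompositions
  have hdec : ∀ s ∈ U ⊔ N, ∃ u ∈ U, ∃ n ∈ N, u * n = s := by
    intro s hs
    have h1 : s ∈ ((U ⊔ N : Subgroup G) : Set G) := hs
    rw [Subgroup.mul_normal] at h1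
    obtain ⟨u, hu, n, hn, h2⟩ := h1
    exact ⟨u, hu, n, hn, h2⟩
  have huniq : ∀ u ∈ U, ∀ n ∈ N, ∀ u' ∈ U, ∀ n' ∈ N, u * n = u' * n' → m n = m n' := by
    intro u hu n hn u' hu' n' hn' h
    have h1 : u⁻¹ * u' = n * n'⁻¹ := by
      rw [inv_mul_eq_iff_eq_mul, ← mul_assoc, h, mul_inv_cancel_right]
    have h2 : m (n * n'⁻¹) = 1 := by
      rw [← h1]
      exact hU _ (U.mul_mem (U.inv_mem hu) hu') (by rw [h1]; exact N.mul_mem hn (N.inv_mem hn'))
    have h3 := hmm (n * n'⁻¹) (N.mul_mem hn (N.inv_mem hn')) n' hn'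
    rw [inv_mul_cancel_right, h2, one_mul] at h3
    exact h3
  choose! fu hfu fn hfn hfe using hdec
  -- the extension to `U ⊔ N`
  have hval : ∀ u ∈ U, ∀ n ∈ N, m (fn (u * n)) = m n := by
    intro u hu n hn
    have hs : u * n ∈ U ⊔ N := (U ⊔ N).mul_mem (Subgroup.mem_sup_left hu) (Subgroup.mem_sup_right hn)
    exact huniq _ (hfu _ hs) _ (hfn _ hs) u hu n hn (hfe _ hs)
  have hmul : ∀ s ∈ U ⊔ N, ∀ t ∈ U ⊔ N, m (fn (s * t)) = m (fn s) * m (fn t) := by
    intro s hs t ht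
    have h1 : s * t = (fu s * fu t) * ((fu t)⁻¹ * fn s * (fu t)⁻¹⁻¹ * fn t) := by
      conv_lhs => rw [← hfe s hs, ← hfe t ht]
      group
    have h2 : (fu t)⁻¹ * fn s * (fu t)⁻¹⁻¹ ∈ N := hNn.conj_mem _ (hfn s hs) _
    rw [h1, hval _ (U.mul_mem (hfu s hs) (hfu t ht)) _ (N.mul_mem h2 (hfn t ht)),
      hmm _ h2 _ (hfn t ht), hinv _ _ (hfn s hs)]
  let ϕ : (U ⊔ N : Subgroup G) →* ℂˣ :=
    { toFun := fun s => Units.mk0 (m (fn s)) (hne _ (hfn _ s.2))
      map_one' := by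
        apply Units.ext
        change m (fn ((1 : (U ⊔ N : Subgroup G)) : G)) = 1
        have := hval 1 U.one_mem 1 N.one_mem
        rw [mul_one] at this
        rw [Subgroup.coe_one, this, hm1]
      map_mul' := by
        intro s t
        apply Units.ext
        exact hmul s s.2 t t.2 }
  have hϕ : ∀ (n : G) (hn : n ∈ N), (ϕ ⟨n, Subgroup.mem_sup_right hn⟩ : ℂ) = m n := by
    intro n hn
    have := hval 1 U.one_mem n hn
    rw [one_mul] at this
    exact this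
  have htr : ∀ (n : G) (hn : n ∈ N), MonoidHom.transfer ϕ n =
      ϕ ⟨n, Subgroup.mem_sup_right hn⟩ ^ (U ⊔ N).index := by
    intro n hn
    refine transfer_normal ϕ N hNn le_sup_right ?_ n hn
    intro g n hn
    apply Units.ext
    have h1 : g⁻¹ * n * g ∈ N := by simpa using hNn.conj_mem n hn g⁻¹
    rw [hϕ n hn]
    have h2 := hϕ (g⁻¹ * n * g) h1
    have h3 := hinv g⁻¹ n hn
    rw [inv_inv] at h3
    rw [← h3, ← h2]
  obtain ⟨k, hk⟩ := hNp
  have hcop : Nat.Coprime (U ⊔ N).index (p ^ k) :=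
    Nat.Coprime.pow_right k ((Nat.Prime.coprime_iff_not_dvd hp).mpr hidx).symm
  obtain ⟨a, b, hab⟩ : ∃ a b : ℤ, a * ((U ⊔ N).index : ℤ) + b * ((p ^ k : ℕ) : ℤ) = 1 :=
    Nat.isCoprime_iff_coprime.mpr hcop
  refine ⟨(MonoidHom.transfer ϕ) ^ a, fun n hn => ?_⟩
  have h1 : (ϕ ⟨n, Subgroup.mem_sup_right hn⟩) ^ (p ^ k) = 1 := by
    rw [← map_pow]
    have h2 : (⟨n, Subgroup.mem_sup_right hn⟩ : (U ⊔ N : Subgroup G)) ^ (p ^ k) = 1 := by
      apply Subtype.ext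
      have h3 : (⟨n, hn⟩ : N) ^ (p ^ k) = 1 := by
        rw [← hk]
        exact pow_card_eq_one'
      exact congrArg (fun z : N => (z : G)) h3
    rw [h2, map_one]
  have h2 : ((MonoidHom.transfer ϕ) ^ a) n = ϕ ⟨n, Subgroup.mem_sup_right hn⟩ := by
    rw [MonoidHom.zpow_apply, htr n hn, ← zpow_natCast, ← zpow_mul]
    have h3 : ((U ⊔ N).index : ℤ) * a = 1 - ((p ^ k : ℕ) : ℤ) * b := by linarith
    rw [h3, zpow_sub, zpow_one, zpow_mul, zpow_natCast, h1, one_zpow, inv_one, mul_one]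
  rw [h2, hϕ n hn]

/-- Once extended, the characters over `(N, m)` are the twists of the characters of `G / N`.
HINT: `irr_twist`, `irr_infl`, `irr_defl`, `isotypic`. -/
theorem over_bij {G L : Type} [Group G] [Finite G] [Group L] [Finite L] (N : Subgroup G)
    (φ : G →* L) (hφ : Function.Surjective φ) (hker : ∀ g, φ g = 1 ↔ g ∈ N) (m : G → ℂ)
    (hm : IsLin N m) (l : G →* ℂˣ) (hl : ∀ n ∈ N, (l n : ℂ) = m n) :
    Set.BijOn (fun (ψ : L → ℂ) (g : G) => (l g : ℂ) * ψ (φ g)) (Irr L)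
      {χ | χ ∈ Irr G ∧ mult N m χ ≠ 0} := by
  have hNn : ∀ g : G, ∀ n ∈ N, g * n * g⁻¹ ∈ N ∧ m (g * n * g⁻¹) = m n := by
    intro g n hn
    have h1 : g * n * g⁻¹ ∈ N := by
      rw [← hker, map_mul, map_mul, (hker n).mpr hn, mul_one, ← map_mul, mul_inv_cancel, map_one]
    refine ⟨h1, ?_⟩
    rw [← hl _ h1, ← hl n hn, map_mul, map_mul, map_inv, mul_comm, inv_mul_cancel_left]
  refine ⟨?_, ?_, ?_⟩
  · intro ψ hψ
    have h1 : (fun g => ψ (φ g)) ∈ Irr G := irr_infl φ hφ hψ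
    have h2 := irr_twist l h1
    refine ⟨h2, ?_⟩
    have h3 : ∀ n ∈ N, ∀ y : G, (fun g => (l g : ℂ) * ψ (φ g)) (n * y) =
        m n * (fun g => (l g : ℂ) * ψ (φ g)) y := by
      intro n hn y
      change (l (n * y) : ℂ) * ψ (φ (n * y)) = m n * ((l y : ℂ) * ψ (φ y))
      rw [map_mul, map_mul, (hker n).mpr hn, one_mul, Units.val_mul, hl n hn, mul_assoc]
    obtain ⟨d, hd, hd'⟩ := irr_deg h2
    have h4 := mult_of_isotypic N m hm (χ := fun g => (l g : ℂ) * ψ (φ g)) h3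
    rw [hd'] at h4
    change mult N m (fun g => (l g : ℂ) * ψ (φ g)) ≠ 0
    rw [h4]
    exact_mod_cast hd.ne'
  · intro ψ _ ψ' _ h
    ext y
    obtain ⟨g, rfl⟩ := hφ y
    have h1 := congrFun h g
    exact mul_left_cancel₀ (l g).ne_zero h1
  · rintro χ ⟨hχ, hmult⟩
    have h1 := isotypic N m hm hNn hχ hmult
    have h2 := irr_twist l⁻¹ hχ
    obtain ⟨ψ, hψ, h3⟩ := irr_defl φ hφ h2 (by
      intro k hk
      have hkN : k ∈ N := (hker k).mp hk
      have h4 := h1 k hkN 1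
      rw [mul_one] at h4
      change ((l⁻¹ k : ℂˣ) : ℂ) * χ k = ((l⁻¹ 1 : ℂˣ) : ℂ) * χ 1
      rw [h4, ← hl k hkN, MonoidHom.inv_apply, map_one, Units.val_one, one_mul, ← mul_assoc,
        Units.inv_mul, one_mul])
    refine ⟨ψ, hψ, ?_⟩
    ext g
    have h5 := congrFun h3 g
    change (l g : ℂ) * ψ (φ g) = χ g
    have h6 : ψ (φ g) = ((l⁻¹ g : ℂˣ) : ℂ) * χ g := h5.symm
    rw [h6, MonoidHom.inv_apply, ← mul_assoc, Units.mul_inv, one_mul]

end Pool.Agent.Lib.MP_fa0f6c_al.Cx
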