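import Pool.Agent.Lib.MP_fa0f6c_al.Cx.F01
import Pool.Agent.Lib.MP_fa0f6c_al.Cx.F08
import Pool.Agent.Lib.MP_fa0f6c_al.Cx.A02
import Pool.Agent.Lib.MP_fa0f6c_al.Cx.R16

set_option autoImplicit false

namespace Pool.Agent.Lib.MP_fa0f6c_al.Cx

variable {o : Type} [CommRing o] [IsLocalRing o] [Finite o] {b : ℕ} {ρ : Fin b → ℕ}

/-- `m` is trivial on off-diagonal elements. HINT: with the idempotent `ε = munit i s s ∈ E`: `x = ε x`, `x ε = 0`, so
`m x = m (ε x) = m (x ε) = m 0 = 1`. -/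
theorem m_offdiag {n : Fin b → ℕ} (S : Corners o ρ) {m : Matrix (Idx n ρ) (Idx n ρ) o → ℂ}
    (h0 : m 0 = 1) (hs : IsSym (S.ring n) (S.rad n) m) (x : Matrix (Idx n ρ) (Idx n ρ) o)
    (hx : x ∈ S.rad n) (i : Fin b) (s : Fin (n i)) (h1 : munit o i s s * x = x)
    (h2 : x * munit o i s s = 0) : m x = 1 := by
  have hE : munit o (ρ := ρ) i s s ∈ S.ring n := by
    intro j u l v
    by_cases h : j = i ∧ l = i ∧ (u : ℕ) = s ∧ (v : ℕ) = s
    · obtain ⟨rfl, rfl, h3, h4⟩ := h
      have e1 : u = s := Fin.ext h3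
      have e2 : v = s := Fin.ext h4
      subst e1
      subst e2
      rw [blk_munit_self]
      exact S.one_mem _
    · rw [blk_munit_ne o i s s j u l v h]
      exact (S.C j l).zero_mem
  have h3 := hs _ hE x hx
  rw [h1, h2, h0] at h3
  exact h3

/-- a finite abelian group killed by a power of two -/
private theorem F09_pow2 {A : Type} [AddCommGroup A] [Finite A] (K : ℕ)
    (h : ∀ x : A, 2 ^ K • x = 0) : ∃ k, Nat.card A = 2 ^ k := by
  refine ⟨_, Nat.eq_prime_pow_of_unique_prime_dvd Nat.card_pos.ne' ?_⟩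
  intro d hd hdvd
  have := Fact.mk hd
  obtain ⟨x, hx⟩ := exists_prime_addOrderOf_dvd_card' d hdvd
  have h1 : addOrderOf x ∣ 2 ^ K := addOrderOf_dvd_of_nsmul_eq_zero (h x)
  rw [hx] at h1
  exact (Nat.prime_dvd_prime_iff_eq hd Nat.prime_two).1 (hd.dvd_of_dvd_pow h1)

private theorem F09_nil2 {o : Type} [CommRing o] [IsLocalRing o] [Finite o]
    (h2 : ¬ IsUnit (2 : o)) : ∃ K : ℕ, (2 : o) ^ K = 0 := by
  obtain ⟨k, l, hkl, he⟩ := Finite.exists_ne_map_eq_of_infinite (fun k : ℕ => (2 : o) ^ k)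
  wlog hlt : k < l generalizing k l
  · exact this l k hkl.symm he.symm (by omega)
  refine ⟨k, ?_⟩
  have he' : (2 : o) ^ k = 2 ^ l := he
  have h3 : (2 : o) ^ k * (1 - 2 ^ (l - k)) = 0 := by
    rw [mul_sub, mul_one, ← pow_add, Nat.add_sub_cancel' hlt.le, he', sub_self]
  have h4 : IsUnit (1 - (2 : o) ^ (l - k)) := by
    rcases IsLocalRing.isUnit_or_isUnit_one_sub_self ((2 : o) ^ (l - k)) with h | h
    · exact absurd ((isUnit_pow_iff (by omega)).1 h) h2
    · exact h
  obtain ⟨u, hu⟩ := h4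
  rw [← hu] at h3
  exact (Units.mul_left_eq_zero u).1 h3

/-- strictly upper triangular with respect to the multiplicity index -/
private def F09_SU {n ρ : Fin b → ℕ} (x : Matrix (Idx n ρ) (Idx n ρ) o) : Prop :=
  ∀ a c : Idx n ρ, (c.2.1 : ℕ) ≤ (a.2.1 : ℕ) → x a c = 0

private def F09_D (o : Type) [CommRing o] {b : ℕ} (n ρ : Fin b → ℕ) (k : ℕ) :
    Matrix (Idx n ρ) (Idx n ρ) o :=
  Matrix.diagonal (fun a => if k ≤ (a.2.1 : ℕ) then 1 else 0)

private def F09_R (o : Type) [CommRing o] {b : ℕ} (n ρ : Fin b → ℕ) (k : ℕ) :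
    Matrix (Idx n ρ) (Idx n ρ) o :=
  Matrix.diagonal (fun a => if (a.2.1 : ℕ) = k then 1 else 0)

private theorem F09_triv {n : Fin b → ℕ} (S : Corners o ρ)
    {m : Matrix (Idx n ρ) (Idx n ρ) o → ℂ} (hm : IsHom (S.rad n) m)
    (hs : IsSym (S.ring n) (S.rad n) m) (x : Matrix (Idx n ρ) (Idx n ρ) o)
    (hx : x ∈ S.rad n) (hsu : F09_SU x) : m x = 1 := by
  classical
  have hDx : ∀ k, F09_D o n ρ k * x ∈ S.rad n := by
    intro k
    have e : ∀ i s j t, blk (F09_D o n ρ k * x) i s j t = if k ≤ (s : ℕ) then blk x i s j t else 0 := by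
      intro i s j t
      ext a c
      unfold blk F09_D
      rw [Matrix.diagonal_mul]
      by_cases h : k ≤ (s : ℕ)
      · simp [h]
      · simp [h]
    refine ⟨fun i s j t => ?_, fun i s t => ?_⟩
    · rw [e]
      split_ifs
      · exact hx.1 i s j t
      · exact (S.C i j).zero_mem
    · rw [e]
      split_ifs
      · exact hx.2 i s t
      · exact (S.J i).zero_mem
  have hRx : ∀ k, F09_R o n ρ k * x ∈ S.rad n := by
    intro k
    have e : ∀ i s j t, blk (F09_R o n ρ k * x) i s j t = if (s : ℕ) = k then blk x i s j t else 0 := by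
      intro i s j t
      ext a c
      unfold blk F09_R
      rw [Matrix.diagonal_mul]
      by_cases h : (s : ℕ) = k
      · simp [h]
      · simp [h]
    refine ⟨fun i s j t => ?_, fun i s t => ?_⟩
    · rw [e]
      split_ifs
      · exact hx.1 i s j t
      · exact (S.C i j).zero_mem
    · rw [e]
      split_ifs
      · exact hx.2 i s t
      · exact (S.J i).zero_mem
  have hRE : ∀ k, F09_R o n ρ k ∈ S.ring n := by
    intro k i s j t
    by_cases hij : i = j
    · subst hij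
      by_cases hst : s = t
      · subst hst
        by_cases hk : (s : ℕ) = k
        · have : blk (F09_R o n ρ k) i s i s = 1 := by
            ext a c
            simp [blk, F09_R, Matrix.diagonal_apply, Matrix.one_apply, hk]
          rw [this]
          exact S.one_mem i
        · have : blk (F09_R o n ρ k) i s i s = 0 := by
            ext a c
            simp [blk, F09_R, Matrix.diagonal_apply, hk]
          rw [this]
          exact (S.C i i).zero_mem
      · have : blk (F09_R o n ρ k) i s i t = 0 := by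
          ext a c
          simp [blk, F09_R, hst]
        rw [this]
        exact (S.C i i).zero_mem
    · have : blk (F09_R o n ρ k) i s j t = 0 := by
        ext a c
        simp [blk, F09_R, hij]
      rw [this]
      exact (S.C i j).zero_mem
  have hR1 : ∀ k, m (F09_R o n ρ k * x) = 1 := by
    intro k
    have h1 := hs _ (hRE k) _ (hRx k)
    have e1 : F09_R o n ρ k * (F09_R o n ρ k * x) = F09_R o n ρ k * x := by
      ext a c
      unfold F09_R
      rw [Matrix.diagonal_mul, Matrix.diagonal_mul]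
      split_ifs <;> simp
    have e2 : F09_R o n ρ k * x * F09_R o n ρ k = 0 := by
      ext a c
      unfold F09_R
      rw [Matrix.mul_diagonal, Matrix.diagonal_mul, Matrix.zero_apply]
      split_ifs with h3 h4
      · rw [hsu a c (by omega)]; simp
      · simp
      · simp
      · simp
    rw [e1, e2, hm.zero] at h1
    exact h1
  have hstep : ∀ k, m (F09_D o n ρ k * x) = m (F09_D o n ρ (k + 1) * x) := by
    intro k
    have e0 : (F09_D o n ρ (k + 1) * x) * (F09_R o n ρ k * x) = 0 := by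
      ext a c
      rw [Matrix.mul_apply, Matrix.zero_apply]
      refine Finset.sum_eq_zero fun d _ => ?_
      unfold F09_D F09_R
      rw [Matrix.diagonal_mul, Matrix.diagonal_mul]
      split_ifs with h3 h4
      · rw [hsu a d (by omega)]; simp
      · simp
      · simp
      · simp
    have e1 : F09_D o n ρ k * x = F09_D o n ρ (k + 1) * x + F09_R o n ρ k * x +
        (F09_D o n ρ (k + 1) * x) * (F09_R o n ρ k * x) := by
      rw [e0, add_zero, ← add_mul]
      congr 1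
      ext a c
      unfold F09_D F09_R
      rw [Matrix.add_apply, Matrix.diagonal_apply, Matrix.diagonal_apply, Matrix.diagonal_apply]
      by_cases hac : a = c
      · subst hac
        rw [if_pos rfl, if_pos rfl, if_pos rfl]
        by_cases h3 : (a.2.1 : ℕ) = k
        · rw [if_pos (by omega), if_neg (by omega), if_pos h3, zero_add]
        · by_cases h4 : k + 1 ≤ (a.2.1 : ℕ)
          · rw [if_pos (by omega), if_pos h4, if_neg h3, add_zero]
          · rw [if_neg (by omega), if_neg h4, if_neg h3, add_zero]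
      · rw [if_neg hac, if_neg hac, if_neg hac, add_zero]
    rw [e1, hm.mul _ (hDx (k + 1)) _ (hRx k), hR1 k, mul_one]
  have h0 : m x = m (F09_D o n ρ 0 * x) := by
    have : F09_D o n ρ 0 * x = x := by
      ext a c
      unfold F09_D
      rw [Matrix.diagonal_mul]
      simp
    rw [this]
  have hK : ∀ k, m x = m (F09_D o n ρ k * x) := by
    intro k
    induction k with
    | zero => exact h0
    | succ k ih => rw [ih, hstep k]
  have hz : F09_D o n ρ (∑ i, n i) * x = 0 := by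
    ext a c
    unfold F09_D
    rw [Matrix.diagonal_mul, if_neg, zero_mul, Matrix.zero_apply]
    have h3 : n a.1 ≤ ∑ i, n i := Finset.single_le_sum (fun i _ => Nat.zero_le (n i)) (Finset.mem_univ a.1)
    have h4 := a.2.1.isLt
    omega
  rw [hK (∑ i, n i), hz, hm.zero]

/-- upper triangular block diagonal elements -/
private def F09_T {n : Fin b → ℕ} (S : Corners o ρ) : Subring (Matrix (Idx n ρ) (Idx n ρ) o) where
  carrier := {x | x ∈ S.ring n ∧ ∀ a c : Idx n ρ, (a.1 ≠ c.1 ∨ (c.2.1 : ℕ) < (a.2.1 : ℕ)) → x a c = 0}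
  zero_mem' := ⟨(S.ring n).zero_mem, fun _ _ _ => rfl⟩
  one_mem' := by
    refine ⟨(S.ring n).one_mem, fun a c h => ?_⟩
    rw [Matrix.one_apply, if_neg]
    rintro rfl
    rcases h with h | h
    · exact h rfl
    · omega
  add_mem' := fun {x y} hx hy => ⟨(S.ring n).add_mem hx.1 hy.1, fun a c h => by
    rw [Matrix.add_apply, hx.2 a c h, hy.2 a c h, add_zero]⟩
  neg_mem' := fun {x} hx => ⟨(S.ring n).neg_mem hx.1, fun a c h => by
    rw [Matrix.neg_apply, hx.2 a c h, neg_zero]⟩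
  mul_mem' := by
    intro x y hx hy
    refine ⟨(S.ring n).mul_mem hx.1 hy.1, fun a c h => ?_⟩
    rw [Matrix.mul_apply]
    refine Finset.sum_eq_zero fun d _ => ?_
    by_cases h1 : a.1 ≠ d.1 ∨ (d.2.1 : ℕ) < (a.2.1 : ℕ)
    · rw [hx.2 a d h1, zero_mul]
    · rw [hy.2 d c, mul_zero]
      push Not at h1
      rcases h with h | h
      · left
        rw [← h1.1]
        exact h
      · right
        omega

/-- strictly upper triangular block diagonal elements with entries in `C i i` -/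
private def F09_X {n : Fin b → ℕ} (S : Corners o ρ) :
    Submodule ℤ (Matrix (Idx n ρ) (Idx n ρ) o) where
  carrier := {x | x ∈ S.ring n ∧ ∀ a c : Idx n ρ, (a.1 ≠ c.1 ∨ (c.2.1 : ℕ) ≤ (a.2.1 : ℕ)) → x a c = 0}
  zero_mem' := ⟨(S.ring n).zero_mem, fun _ _ _ => rfl⟩
  add_mem' := fun {x y} hx hy => ⟨(S.ring n).add_mem hx.1 hy.1, fun a c h => by
    rw [Matrix.add_apply, hx.2 a c h, hy.2 a c h, add_zero]⟩
  smul_mem' := by
    intro c x hx
    refine ⟨zsmul_mem hx.1 c, fun a d h => ?_⟩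
    rw [Matrix.smul_apply, hx.2 a d h, smul_zero]

private theorem F09_X_nil {n : Fin b → ℕ} (S : Corners o ρ) : (F09_X (n := n) S) ^ (∑ i, n i) = ⊥ := by
  have key : ∀ k : ℕ, ∀ x ∈ (F09_X (n := n) S) ^ k, ∀ a c : Idx n ρ,
      (c.2.1 : ℕ) < (a.2.1 : ℕ) + k → x a c = 0 := by
    intro k
    induction k with
    | zero =>
      intro x hx a c h
      rw [pow_zero, Submodule.mem_one] at hx
      obtain ⟨z, rfl⟩ := hx
      have hne : a ≠ c := by
        rintro rfl
        omega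
      rw [Matrix.algebraMap_matrix_apply, if_neg hne]
    | succ k ih =>
      intro x hx a c h
      rw [pow_succ] at hx
      induction hx using Submodule.mul_induction_on' with
      | mem_mul_mem u hu v hv =>
        rw [Matrix.mul_apply]
        refine Finset.sum_eq_zero fun d _ => ?_
        by_cases h1 : (d.2.1 : ℕ) < (a.2.1 : ℕ) + k
        · rw [ih u hu a d h1, zero_mul]
        · rw [hv.2 d c (Or.inr (by omega)), mul_zero]
      | add u _ v _ hu hv =>
        rw [Matrix.add_apply, hu, hv, add_zero]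
  rw [eq_bot_iff]
  intro x hx
  rw [Submodule.mem_bot]
  ext a c
  rw [Matrix.zero_apply]
  refine key _ x hx a c ?_
  have h3 : n c.1 ≤ ∑ i, n i := Finset.single_le_sum (fun i _ => Nat.zero_le (n i)) (Finset.mem_univ c.1)
  have h4 := c.2.1.isLt
  omega

private theorem F09_X_ideal {n : Fin b → ℕ} (S : Corners o ρ) :
    IsNilIdeal (F09_T (n := n) S) (F09_X (n := n) S) where
  le := fun x hx => ⟨hx.1, fun a c h => hx.2 a c (by
    rcases h with h | h
    · exact Or.inl h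
    · exact Or.inr h.le)⟩
  mulL := by
    intro f hf x hx
    refine ⟨(S.ring n).mul_mem hf.1 hx.1, fun a c h => ?_⟩
    rw [Matrix.mul_apply]
    refine Finset.sum_eq_zero fun d _ => ?_
    by_cases h1 : a.1 ≠ d.1 ∨ (d.2.1 : ℕ) < (a.2.1 : ℕ)
    · rw [hf.2 a d h1, zero_mul]
    · rw [hx.2 d c, mul_zero]
      push Not at h1
      rcases h with h | h
      · left
        rw [← h1.1]
        exact h
      · right
        omega
  mulR := by
    intro f hf x hx
    refine ⟨(S.ring n).mul_mem hx.1 hf.1, fun a c h => ?_⟩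
    rw [Matrix.mul_apply]
    refine Finset.sum_eq_zero fun d _ => ?_
    by_cases h1 : a.1 ≠ d.1 ∨ (d.2.1 : ℕ) ≤ (a.2.1 : ℕ)
    · rw [hx.2 a d h1, zero_mul]
    · rw [hf.2 d c, mul_zero]
      push Not at h1
      rcases h with h | h
      · left
        rw [← h1.1]
        exact h
      · right
        omega
  nil := ⟨∑ i, n i, F09_X_nil S⟩

private theorem F09_T_le {n : Fin b → ℕ} (S : Corners o ρ) : F09_T (n := n) S ≤ S.ring n :=
  fun _ hx => hx.1

private theorem F09_XI_ideal {n : Fin b → ℕ} (S : Corners o ρ) :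
    IsNilIdeal (F09_T (n := n) S) (F09_X (n := n) S ⊓ S.rad n) where
  le := fun x hx => (F09_X_ideal S).le x hx.1
  mulL := fun f hf x hx => ⟨(F09_X_ideal S).mulL f hf x hx.1,
    (corners_nilIdeal S n).mulL f (F09_T_le S hf) x hx.2⟩
  mulR := fun f hf x hx => ⟨(F09_X_ideal S).mulR f hf x hx.1,
    (corners_nilIdeal S n).mulR f (F09_T_le S hf) x hx.2⟩
  nil := by
    refine ⟨∑ i, n i, ?_⟩
    have h1 : (F09_X (n := n) S ⊓ S.rad n) ^ (∑ i, n i) ≤ (F09_X (n := n) S) ^ (∑ i, n i) :=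
      pow_le_pow_left' inf_le_left _
    rw [F09_X_nil] at h1
    exact eq_bot_iff.2 h1

/-- counting strictly upper triangular block diagonal matrices -/
private theorem F09_card {n : Fin b → ℕ} (B : ∀ i, Submodule o (Matrix (Fin (ρ i)) (Fin (ρ i)) o))
    (Y : Submodule ℤ (Matrix (Idx n ρ) (Idx n ρ) o))
    (hY : ∀ x, x ∈ Y ↔ (∀ a c : Idx n ρ, (a.1 ≠ c.1 ∨ (c.2.1 : ℕ) ≤ (a.2.1 : ℕ)) → x a c = 0) ∧
      ∀ (i : Fin b) (s t : Fin (n i)), (s : ℕ) < (t : ℕ) → blk x i s i t ∈ B i) :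
    Nat.card Y = ∏ i, ∏ t : Fin (n i), Nat.card (B i) ^ (t : ℕ) := by
  classical
  let f : Y → (∀ (i : Fin b) (t : Fin (n i)), Fin (t : ℕ) → B i) := fun x i t s =>
    ⟨blk (x : Matrix (Idx n ρ) (Idx n ρ) o) i ⟨s, s.isLt.trans t.isLt⟩ i t,
      ((hY x).1 x.2).2 i _ t s.isLt⟩
  have hinj : Function.Injective f := by
    intro x y hxy
    apply Subtype.ext
    ext a c
    by_cases h : a.1 ≠ c.1 ∨ (c.2.1 : ℕ) ≤ (a.2.1 : ℕ)
    · rw [((hY x).1 x.2).1 a c h, ((hY y).1 y.2).1 a c h]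
    · push Not at h
      obtain ⟨i, s, u⟩ := a
      obtain ⟨j, t, v⟩ := c
      obtain ⟨h1, h2⟩ := h
      dsimp only at h1 h2
      subst h1
      have h3 := congrFun (congrFun (congrFun hxy i) t) ⟨s, h2⟩
      have h4 := congrArg Subtype.val h3
      exact congrFun (congrFun h4 u) v
  have hsur : Function.Surjective f := by
    intro g
    let X : Matrix (Idx n ρ) (Idx n ρ) o := fun a c =>
      if h : a.1 = c.1 ∧ (a.2.1 : ℕ) < (c.2.1 : ℕ) then
        (g c.1 c.2.1 ⟨a.2.1, h.2⟩ : Matrix (Fin (ρ c.1)) (Fin (ρ c.1)) o)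
          (Fin.cast (by rw [h.1]) a.2.2) c.2.2
      else 0
    have hXblk : ∀ (i : Fin b) (s t : Fin (n i)) (h : (s : ℕ) < (t : ℕ)),
        blk X i s i t = (g i t ⟨s, h⟩ : Matrix (Fin (ρ i)) (Fin (ρ i)) o) := by
      intro i s t h
      ext u v
      change (if h : i = i ∧ (s : ℕ) < (t : ℕ) then
        (g i t ⟨s, h.2⟩ : Matrix (Fin (ρ i)) (Fin (ρ i)) o) (Fin.cast _ u) v else 0) = _
      rw [dif_pos ⟨rfl, h⟩]
      rfl
    have hXY : X ∈ Y := by
      rw [hY]
      refine ⟨fun a c h => ?_, fun i s t h => ?_⟩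
      · change (if h : a.1 = c.1 ∧ (a.2.1 : ℕ) < (c.2.1 : ℕ) then
          (g c.1 c.2.1 ⟨a.2.1, h.2⟩ : Matrix (Fin (ρ c.1)) (Fin (ρ c.1)) o)
          (Fin.cast _ a.2.2) c.2.2 else 0) = 0
        rw [dif_neg]
        rintro ⟨h1, h2⟩
        rcases h with h | h
        · exact h h1
        · omega
      · rw [hXblk i s t h]
        exact (g i t ⟨s, h⟩).2
    refine ⟨⟨X, hXY⟩, ?_⟩
    funext i t s
    apply Subtype.ext
    change blk X i ⟨s, s.isLt.trans t.isLt⟩ i t = _
    rw [hXblk i ⟨s, s.isLt.trans t.isLt⟩ t s.isLt]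
  rw [Nat.card_congr (Equiv.ofBijective f ⟨hinj, hsur⟩), Nat.card_pi]
  refine Finset.prod_congr rfl fun i _ => ?_
  rw [Nat.card_pi]
  refine Finset.prod_congr rfl fun t _ => ?_
  rw [Nat.card_fun, Nat.card_fin]

private theorem F09_rel {G : Type} [Group G] (N U : Subgroup G) :
    Nat.card (N ⊓ U : Subgroup G) * N.relIndex U = Nat.card U := by
  have h := Subgroup.relIndex_mul_relIndex (⊥ : Subgroup G) (N ⊓ U) U bot_le inf_le_right
  rw [Subgroup.relIndex_bot_left, Subgroup.relIndex_bot_left, Subgroup.inf_relIndex_right] at h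
  exact h

private theorem F09_index {n : Fin b → ℕ} (h2 : ¬ IsUnit (2 : o)) (S : Corners o ρ)
    (s : Stage (Matrix (Idx n ρ) (Idx n ρ) o)) (hE : s.E = S.ring n) (hI : s.I = S.rad n)
    (F : Fin b → Type) [∀ i, Field (F i)] [∀ i, Finite (F i)]
    (φ : s.H →* (∀ i, (Matrix (Fin (n i)) (Fin (n i)) (F i))ˣ)) (hφ : Function.Surjective φ)
    (hker : ∀ u, φ u = 1 ↔ (u : (Matrix (Idx n ρ) (Idx n ρ) o)ˣ) ∈ s.N)
    (hC : ∀ i, Nat.card (S.C i i) = Nat.card (F i) * Nat.card (S.J i)) :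
    ¬ 2 ∣ ((oneAddGroup _ _ (F09_X_ideal (n := n) S)).subgroupOf s.H ⊔
      s.N.subgroupOf s.H).index := by
  classical
  set U : Subgroup (Matrix (Idx n ρ) (Idx n ρ) o)ˣ := oneAddGroup _ _ (F09_X_ideal (n := n) S) with hU
  obtain ⟨K, hK⟩ := F09_nil2 h2
  -- powers of two
  have hpow : ∀ i, ∃ k, Nat.card (S.C i i) = 2 ^ k := by
    intro i
    apply F09_pow2 K
    intro x
    have h3 : ((2 : o) ^ K) • x = 0 := by rw [hK, zero_smul]
    rw [← h3, ← Nat.cast_smul_eq_nsmul o]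
    push_cast
    rfl
  have hqeven : ∀ i, 2 ∣ Nat.card (F i) := by
    intro i
    obtain ⟨k, hk⟩ := hpow i
    have h3 : Nat.card (F i) ∣ 2 ^ k := by
      rw [← hk, hC i]
      exact Dvd.intro _ rfl
    obtain ⟨j, _, hj⟩ := (Nat.dvd_prime_pow Nat.prime_two).1 h3
    have h4 : 1 < Nat.card (F i) := Finite.one_lt_card
    rw [hj]
    refine dvd_pow_self 2 ?_
    rintro rfl
    rw [hj] at h4
    exact absurd h4 (by norm_num)
  -- the normal subgroup
  have hN' : (s.N.subgroupOf s.H).Normal := by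
    refine ⟨fun y hy g => ?_⟩
    exact (s.inv g g.2 y hy).1
  have hNker : s.N.subgroupOf s.H = φ.ker := by
    ext u
    rw [MonoidHom.mem_ker, hker u]
    rfl
  have hNidx : (s.N.subgroupOf s.H).index =
      Nat.card (∀ i, (Matrix (Fin (n i)) (Fin (n i)) (F i))ˣ) := by
    rw [hNker, Subgroup.index_ker, MonoidHom.range_eq_top.2 hφ]
    exact Nat.card_congr Subgroup.topEquiv.toEquiv
  -- `U ≤ H`
  have hUH : U ≤ s.H := by
    intro u hu
    have h3 : ∀ v : (Matrix (Idx n ρ) (Idx n ρ) o)ˣ,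
        (v : Matrix (Idx n ρ) (Idx n ρ) o) - 1 ∈ F09_X (n := n) S →
        (v : Matrix (Idx n ρ) (Idx n ρ) o) ∈ s.E := by
      intro v hv
      rw [hE]
      have h4 := (S.ring n).add_mem hv.1 (S.ring n).one_mem
      rwa [sub_add_cancel] at h4
    exact ⟨h3 u hu.1, h3 _ hu.2⟩
  -- relative index
  have h3 : (s.N.subgroupOf s.H).relIndex (U.subgroupOf s.H) *
      (U.subgroupOf s.H ⊔ s.N.subgroupOf s.H).index = (s.N.subgroupOf s.H).index := by
    rw [← Subgroup.relIndex_sup_right (H := U.subgroupOf s.H) (K := s.N.subgroupOf s.H)]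
    exact Subgroup.relIndex_mul_index le_sup_right
  rw [Subgroup.relIndex_subgroupOf hUH, hNidx] at h3
  have h4 : Nat.card (s.N ⊓ U : Subgroup (Matrix (Idx n ρ) (Idx n ρ) o)ˣ) * s.N.relIndex U =
      Nat.card U := F09_rel s.N U
  have h5 : s.N ⊓ U = oneAddGroup _ _ (F09_XI_ideal (n := n) S) := by
    ext u
    have e1 : u ∈ s.N ↔ (u : Matrix (Idx n ρ) (Idx n ρ) o) - 1 ∈ S.rad n := by
      rw [← hI]
      exact mem_oneAddGroup s.ideal u
    rw [Subgroup.mem_inf, hU, mem_oneAddGroup, mem_oneAddGroup, e1]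
    exact and_comm
  rw [h5, oneAddGroup_card, hU, oneAddGroup_card] at h4
  have hX : Nat.card (F09_X (n := n) S) = ∏ i, ∏ t : Fin (n i), Nat.card (S.C i i) ^ (t : ℕ) := by
    refine F09_card (fun i => S.C i i) _ (fun x => ⟨fun h => ⟨h.2, fun i s t _ => h.1 i s i t⟩,
      fun h => ⟨fun i s j t => ?_, h.1⟩⟩)
    by_cases hij : i = j
    · subst hij
      by_cases hst : (s : ℕ) < (t : ℕ)
      · exact h.2 i s t hst
      · have : blk x i s i t = 0 := by
          ext u v
          exact h.1 _ _ (Or.inr (not_lt.1 hst))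
        rw [this]
        exact (S.C i i).zero_mem
    · have : blk x i s j t = 0 := by
        ext u v
        exact h.1 _ _ (Or.inl hij)
      rw [this]
      exact (S.C i j).zero_mem
  have hXI : Nat.card (F09_X (n := n) S ⊓ S.rad n : Submodule ℤ (Matrix (Idx n ρ) (Idx n ρ) o)) =
      ∏ i, ∏ t : Fin (n i), Nat.card (S.J i) ^ (t : ℕ) := by
    refine F09_card (fun i => S.J i) _ (fun x => ⟨fun h => ⟨h.1.2, fun i s t _ => h.2.2 i s t⟩,
      fun h => ?_⟩)
    have hJ : ∀ i s t, blk x i s i t ∈ S.J i := by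
      intro i s t
      by_cases hst : (s : ℕ) < (t : ℕ)
      · exact h.2 i s t hst
      · have : blk x i s i t = 0 := by
          ext u v
          exact h.1 _ _ (Or.inr (not_lt.1 hst))
        rw [this]
        exact (S.J i).zero_mem
    have hCC : ∀ i s j t, blk x i s j t ∈ S.C i j := by
      intro i s j t
      by_cases hij : i = j
      · subst hij
        exact S.J_le i (hJ i s t)
      · have : blk x i s j t = 0 := by
          ext u v
          exact h.1 _ _ (Or.inl hij)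
        rw [this]
        exact (S.C i j).zero_mem
    exact ⟨⟨hCC, h.1⟩, hCC, hJ⟩
  -- the quotient `Q`
  have hQ : Nat.card (F09_X (n := n) S) = (∏ i, ∏ t : Fin (n i), Nat.card (F i) ^ (t : ℕ)) *
      Nat.card (F09_X (n := n) S ⊓ S.rad n : Submodule ℤ (Matrix (Idx n ρ) (Idx n ρ) o)) := by
    rw [hX, hXI, ← Finset.prod_mul_distrib]
    refine Finset.prod_congr rfl fun i _ => ?_
    rw [← Finset.prod_mul_distrib]
    refine Finset.prod_congr rfl fun t _ => ?_
    rw [hC i, mul_pow]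
  have hrel : s.N.relIndex U = ∏ i, ∏ t : Fin (n i), Nat.card (F i) ^ (t : ℕ) := by
    have hpos : 0 < Nat.card (F09_X (n := n) S ⊓ S.rad n : Submodule ℤ (Matrix (Idx n ρ) (Idx n ρ) o)) :=
      Nat.card_pos
    rw [hQ, mul_comm] at h4
    exact Nat.eq_of_mul_eq_mul_right hpos h4
  have hL : Nat.card (∀ i, (Matrix (Fin (n i)) (Fin (n i)) (F i))ˣ) =
      (∏ i, ∏ t : Fin (n i), Nat.card (F i) ^ (t : ℕ)) *
      ∏ i, ∏ t : Fin (n i), (Nat.card (F i) ^ (n i - (t : ℕ)) - 1) := by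
    rw [Nat.card_pi, ← Finset.prod_mul_distrib]
    refine Finset.prod_congr rfl fun i _ => ?_
    have := Fintype.ofFinite (F i)
    have h6 : Nat.card ((Matrix (Fin (n i)) (Fin (n i)) (F i))ˣ) =
        ∏ t : Fin (n i), (Fintype.card (F i) ^ (n i) - Fintype.card (F i) ^ (t : ℕ)) :=
      Matrix.card_GL_field (n i)
    rw [h6, ← Finset.prod_mul_distrib]
    refine Finset.prod_congr rfl fun t _ => ?_
    rw [Nat.card_eq_fintype_card, Nat.mul_sub, mul_one, ← pow_add]
    congr 2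
    have := t.isLt
    omega
  have hQpos : 0 < ∏ i, ∏ t : Fin (n i), Nat.card (F i) ^ (t : ℕ) :=
    Finset.prod_pos fun i _ => Finset.prod_pos fun t _ => pow_pos Nat.card_pos _
  rw [hrel, hL] at h3
  have h6 := Nat.eq_of_mul_eq_mul_left hQpos h3
  rw [h6, Nat.prime_two.prime.dvd_finsetProd_iff]
  rintro ⟨i, _, hi⟩
  rw [Nat.prime_two.prime.dvd_finsetProd_iff] at hi
  obtain ⟨t, _, ht⟩ := hi
  have h7 : 2 ∣ Nat.card (F i) ^ (n i - (t : ℕ)) := by
    refine dvd_pow (hqeven i) ?_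
    have := t.isLt
    omega
  have h8 : 0 < Nat.card (F i) ^ (n i - (t : ℕ)) := pow_pos Nat.card_pos _
  omega

/-- The linear character of a final stage in standard form extends to the unit group (residue characteristic 2).
PROOF (blueprint 1.6): `extend_normal` (R16) with `p = 2`, the group `s.H`, `N = 1 + S.rad n`, and `U = {u ∈ s.H | u - 1` is supported on the blocks `(i,s),(i,t)` with
`s < t}` (a subgroup). `U ∩ N ≤ ker`: an element of `U ∩ N` is a product of elements `1 + x`, `x` with a single block `(i,s),(i,t)`, `s < t`,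
in `S.rad n` (`m_offdiag`). Index: `φ (U)` (`corners_units`) is the product of the unitriangular groups, of order `∏ q_i^(n_i (n_i - 1) / 2)`, and
`|GL_n(F)| / Q^(n(n-1)/2) = ∏ (Q^i - 1)` is odd (`Matrix.card_GL_field`). -/
theorem corners_extend (h2 : ¬ IsUnit (2 : o)) {n : Fin b → ℕ} (S : Corners o ρ)
    (s : Stage (Matrix (Idx n ρ) (Idx n ρ) o)) (hE : s.E = S.ring n) (hI : s.I = S.rad n) :
    ∃ l : s.H →* ℂˣ, ∀ u : s.H, (u : (Matrix (Idx n ρ) (Idx n ρ) o)ˣ) ∈ s.N →
      (l u : ℂ) = s.mu u := by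
  classical
  obtain ⟨F, _, _, φ, hφ, hker, hC⟩ : ∃ (F : Fin b → Type) (_ : ∀ i, Field (F i))
      (_ : ∀ i, Finite (F i)) (φ : s.H →* (∀ i, (Matrix (Fin (n i)) (Fin (n i)) (F i))ˣ)),
      Function.Surjective φ ∧
      (∀ u : s.H, φ u = 1 ↔
        ((u : (Matrix (Idx n ρ) (Idx n ρ) o)ˣ) : Matrix (Idx n ρ) (Idx n ρ) o) - 1 ∈ S.rad n) ∧
      (∀ i, Nat.card (S.C i i) = Nat.card (F i) * Nat.card (S.J i)) := by
    have h0 := corners_units S n
    rw [← hE] at h0
    exact h0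
  have hidx := F09_index h2 S s hE hI F φ hφ (fun u => by
    rw [hker u, ← hI]
    exact (mem_oneAddGroup s.ideal _).symm) hC
  obtain ⟨K, hK⟩ := F09_nil2 h2
  have hN' : (s.N.subgroupOf s.H).Normal := by
    refine ⟨fun y hy g => ?_⟩
    exact (s.inv g g.2 y hy).1
  have hNp : ∃ k, Nat.card (s.N.subgroupOf s.H) = 2 ^ k := by
    have h3 : Nat.card (s.N.subgroupOf s.H) = Nat.card s.I := by
      rw [Nat.card_congr (Subgroup.subgroupOfEquivOfLe s.N_le_H).toEquiv]
      exact oneAddGroup_card s.ideal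
    rw [h3]
    apply F09_pow2 K
    intro x
    apply Subtype.ext
    ext a c
    have h4 : ((2 ^ K • x : s.I) : Matrix (Idx n ρ) (Idx n ρ) o) a c =
        (2 : o) ^ K * (x : Matrix (Idx n ρ) (Idx n ρ) o) a c := by
      push_cast
      rw [Matrix.smul_apply, nsmul_eq_mul]
      push_cast
      rfl
    rw [h4, hK, zero_mul]
    rfl
  have hlin : IsLin (s.N.subgroupOf s.H) (fun h : s.H => s.mu h) :=
    ⟨s.isLin.1, fun x hx y hy => s.isLin.2 x hx y hy⟩
  obtain ⟨l, hl⟩ := extend_normal 2 Nat.prime_two (s.N.subgroupOf s.H)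
    ((oneAddGroup _ _ (F09_X_ideal (n := n) S)).subgroupOf s.H) hN' hNp (fun h : s.H => s.mu h) hlin
    (fun g y hy => (s.inv g g.2 y hy).2) (by
      intro u hu huN
      have h3 : ((u : (Matrix (Idx n ρ) (Idx n ρ) o)ˣ) : Matrix (Idx n ρ) (Idx n ρ) o) - 1 ∈
          F09_X (n := n) S := hu.1
      have h4 : ((u : (Matrix (Idx n ρ) (Idx n ρ) o)ˣ) : Matrix (Idx n ρ) (Idx n ρ) o) - 1 ∈
          s.I := huN.1
      have hh : IsHom (S.rad n) s.m := by
        rw [← hI]
        exact s.hom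
      have hs : IsSym (S.ring n) (S.rad n) s.m := by
        rw [← hI, ← hE]
        exact s.sym
      rw [hI] at h4
      exact F09_triv S hh hs _ h4 (fun a c hac => h3.2 a c (Or.inr hac))) hidx
  exact ⟨l, fun u hu => hl u hu⟩

/-- The count over a final stage in standard form.
PROOF: `Stage.bij`, `corners_extend`, `over_bij` (R16) for `s.H`, `corners_units`; degrees: `ind_one`, `(ind θ) 1 = [G : H] θ 1`, so
`χ 1 * h = |G|` iff `ψ 1 * h = |H| = |S.rad n| * |L|`. -/
theorem corners_count (h2 : ¬ IsUnit (2 : o)) {n : Fin b → ℕ} (S : Corners o ρ)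
    (s : Stage (Matrix (Idx n ρ) (Idx n ρ) o)) (hE : s.E = S.ring n) (hI : s.I = S.rad n) :
    ∃ (F : Fin b → Type) (_ : ∀ i, Field (F i)) (_ : ∀ i, Finite (F i)),
      (∀ i, Nat.card (S.C i i) = Nat.card (F i) * Nat.card (S.J i)) ∧
      ∀ h : ℕ, 0 < h →
        Set.ncard {χ | χ ∈ Irr (Matrix (Idx n ρ) (Idx n ρ) o)ˣ ∧ s.Over χ ∧
          χ 1 * h = Nat.card (Matrix (Idx n ρ) (Idx n ρ) o)ˣ} =
        Set.ncard {ψ | ψ ∈ Irr (∀ i, (Matrix (Fin (n i)) (Fin (n i)) (F i))ˣ) ∧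
          ψ 1 * h = Nat.card (S.rad n) * Nat.card (∀ i, (Matrix (Fin (n i)) (Fin (n i)) (F i))ˣ)} := by
  classical
  obtain ⟨F, _, _, φ, hφ, hker, hC⟩ : ∃ (F : Fin b → Type) (_ : ∀ i, Field (F i))
      (_ : ∀ i, Finite (F i)) (φ : s.H →* (∀ i, (Matrix (Fin (n i)) (Fin (n i)) (F i))ˣ)),
      Function.Surjective φ ∧
      (∀ u : s.H, φ u = 1 ↔
        ((u : (Matrix (Idx n ρ) (Idx n ρ) o)ˣ) : Matrix (Idx n ρ) (Idx n ρ) o) - 1 ∈ S.rad n) ∧
      (∀ i, Nat.card (S.C i i) = Nat.card (F i) * Nat.card (S.J i)) := by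
    have h0 := corners_units S n
    rw [← hE] at h0
    exact h0
  refine ⟨F, inferInstance, inferInstance, hC, fun h hh => ?_⟩
  obtain ⟨l, hl⟩ := corners_extend h2 S s hE hI
  have hker' : ∀ u : s.H, φ u = 1 ↔ u ∈ s.N.subgroupOf s.H := by
    intro u
    rw [hker u, ← hI]
    exact (mem_oneAddGroup s.ideal _).symm
  have hlin : IsLin (s.N.subgroupOf s.H) (fun h : s.H => s.mu h) :=
    ⟨s.isLin.1, fun x hx y hy => s.isLin.2 x hx y hy⟩
  have hb1 := over_bij (s.N.subgroupOf s.H) (G := s.H) φ hφ hker' (fun h : s.H => s.mu h) hlin l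
    (fun u hu => hl u hu)
  have hb2 := s.bij
  have hb : Set.BijOn (fun (ψ : (∀ i, (Matrix (Fin (n i)) (Fin (n i)) (F i))ˣ) → ℂ) =>
      ind s.H (fun g : s.H => (l g : ℂ) * ψ (φ g)))
      (Irr (∀ i, (Matrix (Fin (n i)) (Fin (n i)) (F i))ˣ))
      {χ | χ ∈ Irr (Matrix (Idx n ρ) (Idx n ρ) o)ˣ ∧ s.Over χ} := hb2.comp hb1
  -- orders
  have hNidx : Nat.card (∀ i, (Matrix (Fin (n i)) (Fin (n i)) (F i))ˣ) * Nat.card (S.rad n) =
      Nat.card s.H := by
    have hNker : s.N.subgroupOf s.H = (φ : s.H →* _).ker := by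
      ext u
      rw [MonoidHom.mem_ker]
      exact (hker' u).symm
    have h3 : (s.N.subgroupOf s.H).index =
        Nat.card (∀ i, (Matrix (Fin (n i)) (Fin (n i)) (F i))ˣ) := by
      rw [hNker, Subgroup.index_ker, MonoidHom.range_eq_top.2 hφ]
      exact Nat.card_congr Subgroup.topEquiv.toEquiv
    have h4 : Nat.card (s.N.subgroupOf s.H) = Nat.card (S.rad n) := by
      rw [Nat.card_congr (Subgroup.subgroupOfEquivOfLe s.N_le_H).toEquiv, ← hI]
      exact oneAddGroup_card s.ideal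
    rw [← h3, ← h4, mul_comm, Subgroup.card_mul_index]
  have hG : Nat.card s.H * s.H.index = Nat.card (Matrix (Idx n ρ) (Idx n ρ) o)ˣ :=
    Subgroup.card_mul_index _
  have hidx0 : (s.H.index : ℂ) ≠ 0 := by
    have : s.H.index ≠ 0 := Subgroup.index_ne_zero_of_finite
    exact_mod_cast this
  have hdeg : ∀ ψ : (∀ i, (Matrix (Fin (n i)) (Fin (n i)) (F i))ˣ) → ℂ,
      (ind s.H (fun g : s.H => (l g : ℂ) * ψ (φ g)) 1 * h =
        Nat.card (Matrix (Idx n ρ) (Idx n ρ) o)ˣ) ↔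
      (ψ 1 * h = Nat.card (S.rad n) * Nat.card (∀ i, (Matrix (Fin (n i)) (Fin (n i)) (F i))ˣ)) := by
    intro ψ
    rw [ind_one, map_one, map_one, Units.val_one, one_mul, ← hG, ← hNidx]
    push_cast
    constructor
    · intro h5
      apply mul_left_cancel₀ hidx0
      linear_combination h5
    · intro h5
      linear_combination (s.H.index : ℂ) * h5
  symm
  have himg : {χ | χ ∈ Irr (Matrix (Idx n ρ) (Idx n ρ) o)ˣ ∧ s.Over χ ∧
      χ 1 * h = Nat.card (Matrix (Idx n ρ) (Idx n ρ) o)ˣ} =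
      (fun (ψ : (∀ i, (Matrix (Fin (n i)) (Fin (n i)) (F i))ˣ) → ℂ) =>
      ind s.H (fun g : s.H => (l g : ℂ) * ψ (φ g))) ''
      {ψ | ψ ∈ Irr (∀ i, (Matrix (Fin (n i)) (Fin (n i)) (F i))ˣ) ∧
        ψ 1 * h = Nat.card (S.rad n) * Nat.card (∀ i, (Matrix (Fin (n i)) (Fin (n i)) (F i))ˣ)} := by
    ext χ
    constructor
    · rintro ⟨h5, h6, h7⟩
      obtain ⟨ψ, hψ, rfl⟩ := hb.surjOn ⟨h5, h6⟩
      exact ⟨ψ, ⟨hψ, (hdeg ψ).1 h7⟩, rfl⟩
    · rintro ⟨ψ, ⟨hψ, h7⟩, rfl⟩
      have h8 := hb.mapsTo hψ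
      exact ⟨h8.1, h8.2, (hdeg ψ).2 h7⟩
  rw [himg]
  refine (Set.InjOn.ncard_image ?_).symm
  intro ψ hψ ψ' hψ' h5
  exact hb.injOn hψ.1 hψ'.1 h5

end Pool.Agent.Lib.MP_fa0f6c_al.Cx
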