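import Pool.Agent.Lib.MP_fa0f6c_al.Cx.F01
import Pool.Agent.Lib.MP_fa0f6c_al.Cx.F08

set_option autoImplicit false

namespace Pool.Agent.Lib.MP_fa0f6c_al.Cx

/-! general facts on finite modules over a ring `C` with a nil ideal `J` modulo which all other elements
are invertible -/

private theorem f10_socle {C M : Type} [Ring C] [AddCommGroup M] [Finite M] [Module C M]
    (J : AddSubgroup C) (hJl : ∀ c : C, ∀ x ∈ J, c * x ∈ J) (hnil : ∀ x ∈ J, IsNilpotent x)
    (hM : ∃ m : M, m ≠ 0) : ∃ m : M, m ≠ 0 ∧ ∀ x ∈ J, x • m = 0 := by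
  obtain ⟨m, hm, hmin⟩ := Set.exists_min_image {m : M | m ≠ 0}
    (fun m => Set.ncard (Submodule.span C {m} : Set M)) (Set.toFinite _) hM
  refine ⟨m, hm, fun x hx => ?_⟩
  by_contra hxm
  have h1 := hmin (x • m) hxm
  have h2 : (Submodule.span C {x • m} : Set M) ⊆ (Submodule.span C {m} : Set M) := by
    have : Submodule.span C {x • m} ≤ Submodule.span C {m} := by
      rw [Submodule.span_singleton_le_iff_mem]
      exact Submodule.smul_mem _ _ (Submodule.mem_span_singleton_self m)
    exact this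
  have h3 := Set.eq_of_subset_of_ncard_le h2 h1 (Set.toFinite _)
  have h4 : m ∈ (Submodule.span C {x • m} : Set M) := by
    rw [h3]
    exact Submodule.mem_span_singleton_self m
  obtain ⟨c, hc⟩ := Submodule.mem_span_singleton.mp h4
  rw [smul_smul] at hc
  obtain ⟨k, hk⟩ := hnil (c * x) (hJl c x hx)
  have h5 : ∀ k : ℕ, (c * x) ^ k • m = m := by
    intro k
    induction k with
    | zero => simp
    | succ k ih => rw [pow_succ, mul_smul, hc, ih]
  have h6 := h5 k
  rw [hk, zero_smul] at h6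
  exact hm h6.symm

/-- the map `c ↦ c m` -/
private def f10_orb {C M : Type} [Ring C] [AddCommGroup M] [Module C M] (m : M) : C →+ M where
  toFun c := c • m
  map_zero' := zero_smul C m
  map_add' a b := add_smul a b m

private theorem f10_orb_card {C M : Type} [Ring C] [Finite C] [AddCommGroup M] [Finite M]
    [Module C M] (J : AddSubgroup C) (hunit : ∀ x, x ∉ J → ∃ y : C, y * x - 1 ∈ J) (Q : ℕ)
    (hQ : Nat.card C = Q * Nat.card J) (m : M) (hm : m ≠ 0) (hJm : ∀ x ∈ J, x • m = 0) :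
    Nat.card (f10_orb (C := C) m).range = Q := by
  have hker : (f10_orb (C := C) m).ker = J := by
    ext c
    rw [AddMonoidHom.mem_ker]
    constructor
    · intro h
      by_contra hc
      obtain ⟨y, hy⟩ := hunit c hc
      have h1 := hJm _ hy
      rw [sub_smul, mul_smul, one_smul] at h1
      change c • m = 0 at h
      rw [h, smul_zero, zero_sub, neg_eq_zero] at h1
      exact hm h1
    · intro h
      exact hJm c h
  have h1 := AddSubgroup.card_eq_card_quotient_mul_card_addSubgroup (f10_orb (C := C) m).ker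
  rw [Nat.card_congr (QuotientAddGroup.quotientKerEquivRange (f10_orb (C := C) m)).toEquiv, hker,
    hQ] at h1
  have h2 : 0 < Nat.card J := Nat.card_pos
  exact (Nat.eq_of_mul_eq_mul_right h2 h1).symm

private theorem f10_module_card {C : Type} [Ring C] [Finite C]
    (J : AddSubgroup C) (hJl : ∀ c : C, ∀ x ∈ J, c * x ∈ J) (hnil : ∀ x ∈ J, IsNilpotent x)
    (hunit : ∀ x, x ∉ J → ∃ y : C, y * x - 1 ∈ J) (Q : ℕ)
    (hQ : Nat.card C = Q * Nat.card J) (hQ2 : 2 ≤ Q) : ∀ (N : ℕ) (M : Type) [AddCommGroup M] [Finite M]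
      [Module C M], Nat.card M = N → ∃ k, Nat.card M = Q ^ k := by
  intro N
  induction N using Nat.strong_induction_on with
  | _ N ih =>
    intro M _ _ _ hN
    by_cases hM : ∃ m : M, m ≠ 0
    · obtain ⟨m, hm, hJm⟩ := f10_socle (C := C) J hJl hnil hM
      have h1 := f10_orb_card J hunit Q hQ m hm hJm
      let P : Submodule C M := Submodule.span C {m}
      have h2 : Nat.card P = Q := by
        rw [← h1]
        apply Nat.card_congr
        refine Equiv.subtypeEquivRight fun x => ?_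
        rw [AddMonoidHom.mem_range]
        exact Submodule.mem_span_singleton
      have h3 : Nat.card M = Nat.card P * Nat.card (M ⧸ P) := by
        rw [mul_comm]
        exact AddSubgroup.card_eq_card_quotient_mul_card_addSubgroup P.toAddSubgroup
      have hfin : Finite (M ⧸ P) := Finite.of_surjective P.mkQ (Submodule.mkQ_surjective P)
      have h4 : 0 < Nat.card (M ⧸ P) := Nat.card_pos
      have h5 : Nat.card (M ⧸ P) < N := by
        rw [← hN, h3, h2]
        nlinarith
      obtain ⟨k, hk⟩ := ih _ h5 (M ⧸ P) rfl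
      refine ⟨k + 1, ?_⟩
      rw [h3, h2, hk, pow_succ, mul_comm]
    · push Not at hM
      refine ⟨0, ?_⟩
      rw [pow_zero]
      have : Subsingleton M := ⟨fun a b => by rw [hM a, hM b]⟩
      exact Nat.card_of_subsingleton (0 : M)

section CornersCard

variable {o : Type} [CommRing o] {b : ℕ} {ρ : Fin b → ℕ}

/-- matrices with blocks in prescribed sets -/
private def f10_equiv (n : Fin b → ℕ)
    (D : ∀ i j : Fin b, Set (Matrix (Fin (ρ i)) (Fin (ρ j)) o)) :
    {x : Matrix (Idx n ρ) (Idx n ρ) o // ∀ i s j t, blk x i s j t ∈ D i j} ≃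
      (∀ i : Fin b, Fin (n i) → ∀ j : Fin b, Fin (n j) → D i j) where
  toFun x := fun i s j t => ⟨blk x.1 i s j t, x.2 i s j t⟩
  invFun g := ⟨fun u v => (g u.1 u.2.1 v.1 v.2.1).1 u.2.2 v.2.2, fun i s j t => (g i s j t).2⟩
  left_inv _ := rfl
  right_inv _ := rfl

omit [CommRing o] in
private theorem f10_blocks_card [Finite o] (n : Fin b → ℕ)
    (D : ∀ i j : Fin b, Set (Matrix (Fin (ρ i)) (Fin (ρ j)) o)) :
    Nat.card {x : Matrix (Idx n ρ) (Idx n ρ) o // ∀ i s j t, blk x i s j t ∈ D i j} =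
      ∏ i, ∏ j, Nat.card (D i j) ^ (n i * n j) := by
  have hn : ∀ m : ℕ, Nat.card (Fin m) = m := fun m => by simp
  rw [Nat.card_congr (f10_equiv n D), Nat.card_pi]
  refine Finset.prod_congr rfl fun i _ => ?_
  rw [Nat.card_fun, Nat.card_pi, hn, ← Finset.prod_pow]
  refine Finset.prod_congr rfl fun j _ => ?_
  rw [Nat.card_fun, hn, ← pow_mul, mul_comm]

end CornersCard

variable {o : Type} [CommRing o] [IsLocalRing o] [Finite o] {b : ℕ} {ρ : Fin b → ℕ}

theorem corners_ring_card (S : Corners o ρ) (n : Fin b → ℕ) :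
    Nat.card (S.ring n) = ∏ i, ∏ j, Nat.card (S.C i j) ^ (n i * n j) :=
  f10_blocks_card n (fun i j => (S.C i j : Set (Matrix (Fin (ρ i)) (Fin (ρ j)) o)))

open Classical in
/-- the corners of the radical -/
private noncomputable def f10_D (S : Corners o ρ) (i j : Fin b) :
    Set (Matrix (Fin (ρ i)) (Fin (ρ j)) o) :=
  if h : i = j then (by subst h; exact (S.J i : Set (Matrix (Fin (ρ i)) (Fin (ρ i)) o)))
  else (S.C i j : Set (Matrix (Fin (ρ i)) (Fin (ρ j)) o))

omit [IsLocalRing o] [Finite o] in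
private theorem f10_D_self (S : Corners o ρ) (i : Fin b) :
    f10_D S i i = (S.J i : Set (Matrix (Fin (ρ i)) (Fin (ρ i)) o)) := by
  unfold f10_D
  rw [dif_pos rfl]

omit [IsLocalRing o] [Finite o] in
private theorem f10_D_ne (S : Corners o ρ) {i j : Fin b} (h : i ≠ j) :
    f10_D S i j = (S.C i j : Set (Matrix (Fin (ρ i)) (Fin (ρ j)) o)) := by
  unfold f10_D
  rw [dif_neg h]

theorem corners_rad_card (S : Corners o ρ) (n : Fin b → ℕ) (f : Fin b → ℕ)
    (hf : ∀ i, Nat.card (S.C i i) = f i * Nat.card (S.J i)) :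
    Nat.card (S.rad n) * ∏ i, f i ^ (n i ^ 2) = Nat.card (S.ring n) := by
  classical
  have h1 : Nat.card (S.rad n) = ∏ i, ∏ j, Nat.card (f10_D S i j) ^ (n i * n j) := by
    rw [← f10_blocks_card n (f10_D S)]
    apply Nat.card_congr
    refine Equiv.subtypeEquivRight fun x => ?_
    constructor
    · rintro ⟨h1, h2⟩ i s j t
      by_cases hij : i = j
      · subst hij
        rw [f10_D_self]
        exact h2 i s t
      · rw [f10_D_ne S hij]
        exact h1 i s j t
    · intro h
      refine ⟨fun i s j t => ?_, fun i s t => ?_⟩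
      · by_cases hij : i = j
        · subst hij
          have := h i s i t
          rw [f10_D_self] at this
          exact S.J_le i this
        · have := h i s j t
          rw [f10_D_ne S hij] at this
          exact this
      · have := h i s i t
        rw [f10_D_self] at this
        exact this
  rw [h1, corners_ring_card, ← Finset.prod_mul_distrib]
  refine Finset.prod_congr rfl fun i _ => ?_
  rw [← Finset.mul_prod_erase Finset.univ (fun j => Nat.card (f10_D S i j) ^ (n i * n j))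
    (Finset.mem_univ i), ← Finset.mul_prod_erase Finset.univ
      (fun j => Nat.card (S.C i j) ^ (n i * n j)) (Finset.mem_univ i)]
  have h2 : ∏ j ∈ Finset.univ.erase i, Nat.card (f10_D S i j) ^ (n i * n j)
      = ∏ j ∈ Finset.univ.erase i, Nat.card (S.C i j) ^ (n i * n j) := by
    refine Finset.prod_congr rfl fun j hj => ?_
    rw [f10_D_ne S (Finset.ne_of_mem_erase hj).symm]
    rfl
  rw [h2, f10_D_self, hf i, mul_pow, ← sq]
  have h3 : Nat.card ((S.J i : Set (Matrix (Fin (ρ i)) (Fin (ρ i)) o))) = Nat.card (S.J i) := rfl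
  rw [h3]
  ring

/-! ### the rings `C i i` and their modules -/

section CornerRing

variable {o : Type} [CommRing o] {b : ℕ} {ρ : Fin b → ℕ}

private def f10_ring (S : Corners o ρ) (i : Fin b) :
    Subring (Matrix (Fin (ρ i)) (Fin (ρ i)) o) where
  carrier := S.C i i
  zero_mem' := (S.C i i).zero_mem
  one_mem' := S.one_mem i
  add_mem' := fun hx hy => (S.C i i).add_mem hx hy
  neg_mem' := fun hx => (S.C i i).neg_mem hx
  mul_mem' := fun hx hy => S.mul_mem i i i _ hx _ hy

private def f10_J (S : Corners o ρ) (i : Fin b) : AddSubgroup (f10_ring S i) where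
  carrier := {x | (x : Matrix (Fin (ρ i)) (Fin (ρ i)) o) ∈ S.J i}
  zero_mem' := (S.J i).zero_mem
  add_mem' := fun hx hy => (S.J i).add_mem hx hy
  neg_mem' := fun hx => (S.J i).neg_mem hx

private def f10_Jop (S : Corners o ρ) (i : Fin b) : AddSubgroup (f10_ring S i)ᵐᵒᵖ where
  carrier := {x | ((MulOpposite.unop x : f10_ring S i) : Matrix (Fin (ρ i)) (Fin (ρ i)) o) ∈ S.J i}
  zero_mem' := (S.J i).zero_mem
  add_mem' := fun hx hy => (S.J i).add_mem hx hy
  neg_mem' := fun hx => (S.J i).neg_mem hx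

private theorem f10_ring_card (S : Corners o ρ) (i : Fin b) :
    Nat.card (f10_ring S i) = Nat.card (S.C i i) := rfl

private theorem f10_J_card (S : Corners o ρ) (i : Fin b) :
    Nat.card (f10_J S i) = Nat.card (S.J i) :=
  Nat.card_congr
    { toFun := fun x => ⟨x.1.1, x.2⟩
      invFun := fun x => ⟨⟨x.1, S.J_le i x.2⟩, x.2⟩
      left_inv := fun _ => rfl
      right_inv := fun _ => rfl }

private theorem f10_Jop_card (S : Corners o ρ) (i : Fin b) :
    Nat.card (f10_Jop S i) = Nat.card (S.J i) :=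
  Nat.card_congr
    { toFun := fun x => ⟨(MulOpposite.unop x.1).1, x.2⟩
      invFun := fun x => ⟨MulOpposite.op ⟨x.1, S.J_le i x.2⟩, x.2⟩
      left_inv := fun _ => rfl
      right_inv := fun _ => rfl }

private theorem f10_nil (S : Corners o ρ) (i : Fin b) (x : f10_ring S i)
    (hx : (x : Matrix (Fin (ρ i)) (Fin (ρ i)) o) ∈ S.J i) : IsNilpotent x := by
  obtain ⟨k, hk⟩ := S.nil i _ hx
  exact ⟨k, Subtype.ext (by rw [SubmonoidClass.coe_pow, hk]; rfl)⟩

private theorem f10_nilop (S : Corners o ρ) (i : Fin b) (x : (f10_ring S i)ᵐᵒᵖ)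
    (hx : ((MulOpposite.unop x : f10_ring S i) : Matrix (Fin (ρ i)) (Fin (ρ i)) o) ∈ S.J i) :
    IsNilpotent x := by
  obtain ⟨k, hk⟩ := f10_nil S i _ hx
  exact ⟨k, by rw [← MulOpposite.op_unop x, ← MulOpposite.op_pow, hk]; rfl⟩

private abbrev f10_modL (S : Corners o ρ) (i j : Fin b) : Module (f10_ring S i) (S.C i j) where
  smul c y := ⟨(c : Matrix (Fin (ρ i)) (Fin (ρ i)) o) * (y : Matrix (Fin (ρ i)) (Fin (ρ j)) o),
    S.mul_mem i i j _ c.2 _ y.2⟩
  one_smul _ := Subtype.ext (Matrix.one_mul _)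
  mul_smul _ _ _ := Subtype.ext (Matrix.mul_assoc _ _ _)
  smul_zero _ := Subtype.ext (Matrix.mul_zero _)
  smul_add _ _ _ := Subtype.ext (Matrix.mul_add _ _ _)
  add_smul _ _ _ := Subtype.ext (Matrix.add_mul _ _ _)
  zero_smul _ := Subtype.ext (Matrix.zero_mul _)

private abbrev f10_modR (S : Corners o ρ) (i j : Fin b) :
    Module (f10_ring S j)ᵐᵒᵖ (S.C i j) where
  smul c y := ⟨(y : Matrix (Fin (ρ i)) (Fin (ρ j)) o) *
      ((MulOpposite.unop c : f10_ring S j) : Matrix (Fin (ρ j)) (Fin (ρ j)) o),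
    S.mul_mem i j j _ y.2 _ (MulOpposite.unop c).2⟩
  one_smul _ := Subtype.ext (Matrix.mul_one _)
  mul_smul _ _ _ := Subtype.ext (Matrix.mul_assoc _ _ _).symm
  smul_zero _ := Subtype.ext (Matrix.zero_mul _)
  smul_add _ _ _ := Subtype.ext (Matrix.add_mul _ _ _)
  add_smul _ _ _ := Subtype.ext (Matrix.mul_add _ _ _)
  zero_smul _ := Subtype.ext (Matrix.mul_zero _)

private theorem f10_cardL [Finite o] (S : Corners o ρ) (i j : Fin b) (Q : ℕ)
    (hQ : Nat.card (S.C i i) = Q * Nat.card (S.J i)) (hQ2 : 2 ≤ Q) :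
    ∃ k, Nat.card (S.C i j) = Q ^ k := by
  let _ := f10_modL S i j
  refine f10_module_card (C := f10_ring S i) (f10_J S i) (fun c x hx => S.J_mulL i _ c.2 _ hx)
    (fun x hx => f10_nil S i x hx) ?_ Q (by rw [f10_ring_card, hQ, f10_J_card]) hQ2 _ _ rfl
  intro x hx
  obtain ⟨y, hy, -, h2⟩ := S.unit i _ x.2 hx
  exact ⟨⟨y, hy⟩, h2⟩

private theorem f10_cardR [Finite o] (S : Corners o ρ) (i j : Fin b) (Q : ℕ)
    (hQ : Nat.card (S.C j j) = Q * Nat.card (S.J j)) (hQ2 : 2 ≤ Q) :
    ∃ k, Nat.card (S.C i j) = Q ^ k := by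
  let _ := f10_modR S i j
  have hfin : Finite (f10_ring S j)ᵐᵒᵖ := Finite.of_equiv _ MulOpposite.opEquiv
  refine f10_module_card (C := (f10_ring S j)ᵐᵒᵖ) (f10_Jop S j)
    (fun c x hx => S.J_mulR j _ (MulOpposite.unop c).2 _ hx)
    (fun x hx => f10_nilop S j x hx) ?_ Q ?_ hQ2 _ _ rfl
  · intro x hx
    obtain ⟨y, hy, h1, -⟩ := S.unit j _ (MulOpposite.unop x).2 hx
    exact ⟨MulOpposite.op ⟨y, hy⟩, h1⟩
  · rw [f10_Jop_card, ← hQ, ← f10_ring_card]
    exact (Nat.card_congr MulOpposite.opEquiv).symm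

end CornerRing

section Residue

variable {o : Type} [CommRing o] [IsLocalRing o] {b : ℕ} {ρ : Fin b → ℕ}

private noncomputable def f10_phi (S : Corners o ρ) (i : Fin b) : f10_ring S i →+*
    Module.End (IsLocalRing.ResidueField o) (Fin (ρ i) → IsLocalRing.ResidueField o) :=
  ((Matrix.toLinAlgEquiv' : Matrix (Fin (ρ i)) (Fin (ρ i)) (IsLocalRing.ResidueField o)
    ≃ₐ[IsLocalRing.ResidueField o] _).toRingEquiv.toRingHom.comp
      ((IsLocalRing.residue o).mapMatrix)).comp (f10_ring S i).subtype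

private noncomputable abbrev f10_modV (S : Corners o ρ) (i : Fin b) :
    Module (f10_ring S i) (Fin (ρ i) → IsLocalRing.ResidueField o) :=
  Module.compHom _ (f10_phi S i)

private theorem f10_residue_finite [Finite o] : Finite (IsLocalRing.ResidueField o) :=
  Finite.of_surjective (IsLocalRing.residue o) IsLocalRing.residue_surjective

private theorem f10_cardV [Finite o] (S : Corners o ρ) (i : Fin b) (Q : ℕ)
    (hQ : Nat.card (S.C i i) = Q * Nat.card (S.J i)) (hQ2 : 2 ≤ Q) :
    ∃ k, Nat.card (IsLocalRing.ResidueField o) ^ ρ i = Q ^ k := by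
  have := f10_residue_finite (o := o)
  let _ := f10_modV S i
  have h := f10_module_card (C := f10_ring S i) (f10_J S i) (fun c x hx => S.J_mulL i _ c.2 _ hx)
    (fun x hx => f10_nil S i x hx) (fun x hx => by
      obtain ⟨y, hy, -, h2⟩ := S.unit i _ x.2 hx
      exact ⟨⟨y, hy⟩, h2⟩) Q (by rw [f10_ring_card, hQ, f10_J_card]) hQ2 _
    (Fin (ρ i) → IsLocalRing.ResidueField o) rfl
  rwa [Nat.card_fun, Nat.card_eq_fintype_card (α := Fin (ρ i)), Fintype.card_fin] at h

/-- if `C i i / J i` has the size of the whole residual space, `J i` acts by zero -/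
private theorem f10_Jzero [Finite o] (S : Corners o ρ) (i : Fin b) (hρ : 0 < ρ i)
    (hQ : Nat.card (S.C i i) = Nat.card (IsLocalRing.ResidueField o) ^ ρ i * Nat.card (S.J i))
    (x : Matrix (Fin (ρ i)) (Fin (ρ i)) o) (hx : x ∈ S.J i) (a c : Fin (ρ i)) :
    IsLocalRing.residue o (x a c) = 0 := by
  have := f10_residue_finite (o := o)
  let _ := f10_modV S i
  have hne : ∃ m : Fin (ρ i) → IsLocalRing.ResidueField o, m ≠ 0 :=
    ⟨fun _ => 1, fun h => one_ne_zero (congrFun h ⟨0, hρ⟩)⟩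
  obtain ⟨m, hm, hJm⟩ := f10_socle (C := f10_ring S i) (f10_J S i)
    (fun c x hx => S.J_mulL i _ c.2 _ hx) (fun x hx => f10_nil S i x hx) hne
  have hcard := f10_orb_card (C := f10_ring S i) (f10_J S i) (fun x hx => by
      obtain ⟨y, hy, -, h2⟩ := S.unit i _ x.2 hx
      exact ⟨⟨y, hy⟩, h2⟩) _ (by rw [f10_ring_card, hQ, f10_J_card]) m hm hJm
  have hV : Nat.card (Fin (ρ i) → IsLocalRing.ResidueField o)
      = Nat.card (IsLocalRing.ResidueField o) ^ ρ i := by
    rw [Nat.card_fun, Nat.card_eq_fintype_card (α := Fin (ρ i)), Fintype.card_fin]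
  have htop : (f10_orb (C := f10_ring S i) m).range = ⊤ := by
    apply AddSubgroup.eq_top_of_card_eq
    rw [hcard, hV]
  have hact : ∀ v : Fin (ρ i) → IsLocalRing.ResidueField o,
      (⟨x, S.J_le i hx⟩ : f10_ring S i) • v = 0 := by
    intro v
    have hv : v ∈ (f10_orb (C := f10_ring S i) m).range := by rw [htop]; trivial
    obtain ⟨c, rfl⟩ := hv
    change (⟨x, S.J_le i hx⟩ : f10_ring S i) • (c • m) = 0
    rw [smul_smul]
    exact hJm _ (S.J_mulR i _ c.2 _ hx)
  have h1 := congrFun (hact (Pi.single c 1)) a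
  have h2 : ((⟨x, S.J_le i hx⟩ : f10_ring S i) •
      (Pi.single c 1 : Fin (ρ i) → IsLocalRing.ResidueField o)) a
      = ((IsLocalRing.residue o).mapMatrix x).mulVec (Pi.single c 1) a := rfl
  rw [h2, Matrix.mulVec_single_one] at h1
  exact h1

end Residue


/-- Cardinalities are powers of `q`; numerical facts. `e i` = degree of the residue field of block `i`.
(1) `|C i j| = q ^ L i j` (`chain_card_module`), `L i j ≤ r ρ_i ρ_j`; (2) `|C i i| = q ^ e i * |J i|`, `0 < e i`;
(3) `e i ∣ ρ i`: `(o/π)^{ρ i}` is a module over the ring `C i i`, whose simple modules have `q ^ e i` elements (`C i i` is local with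
residue field of that size; filter by `J i`-powers);
(4) for `i ≠ j` with coprime `e i`, `e j`: `e i * e j ∣ L i j`: filter `C i j` by sub-bimodules with `J i`, `J j` acting by zero on the graded
pieces; a graded piece is a vector space over `F_i` and over `F_j` with commuting actions agreeing on `F_q`; its cardinality is a power of `q ^ e i` and of
`q ^ e j`, hence of `q ^ (e i * e j)` by coprimality (only this is needed);
(5) if `ρ i = e i` then `L i i ≤ e i + (r - 1) * e i ^ 2`: `(o/π)^{ρ i}` is then a simple `C i i`-module, so `J i` acts by zero on it, i.e. `J i ≤ π M(o)`. -/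
theorem corners_numbers {π : o} {r : ℕ} (hch : IsChain o π r) (S : Corners o ρ)
    (hρ : ∀ i, 0 < ρ i) (q : ℕ) (hq : Nat.card (IsLocalRing.ResidueField o) = q) :
    ∃ (L : Fin b → Fin b → ℕ) (e : Fin b → ℕ),
      (∀ i j, Nat.card (S.C i j) = q ^ L i j) ∧ (∀ i j, L i j ≤ r * (ρ i * ρ j)) ∧
      (∀ i, 0 < e i) ∧ (∀ i, Nat.card (S.C i i) = q ^ e i * Nat.card (S.J i)) ∧
      (∀ i, e i ∣ ρ i) ∧ (∀ i j, i ≠ j → Nat.Coprime (e i) (e j) → e i * e j ∣ L i j) ∧
      (∀ i, ρ i = e i → L i i ≤ e i + (r - 1) * e i ^ 2) := by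
  classical
  have hfin := f10_residue_finite (o := o)
  have hq2 : 2 ≤ q := by
    rw [← hq]
    exact Finite.one_lt_card
  have hinj : Function.Injective (fun k : ℕ => q ^ k) := Nat.pow_right_injective hq2
  have hnF : ∀ m : ℕ, Nat.card (Fin m) = m := fun m => by simp
  choose L hL using fun i j => chain_card_module hch (S.C i j)
  choose l hl using fun i => chain_card_module hch (S.J i)
  simp only [hq] at hL hl
  have hQ : ∀ i, ∃ e, 0 < e ∧ Nat.card (S.C i i) = q ^ e * Nat.card (S.J i) := by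
    intro i
    have hss : (S.J i : Set (Matrix (Fin (ρ i)) (Fin (ρ i)) o)) ⊂
        (S.C i i : Set (Matrix (Fin (ρ i)) (Fin (ρ i)) o)) :=
      ⟨S.J_le i, fun h => S.one_notMem i (h (S.one_mem i))⟩
    have hlt := Set.ncard_lt_ncard hss (Set.toFinite _)
    rw [← Nat.card_coe_set_eq, ← Nat.card_coe_set_eq] at hlt
    have hlt' : q ^ l i < q ^ L i i := by
      rw [← hl, ← hL]
      exact hlt
    have h1 : l i < L i i := (Nat.pow_lt_pow_iff_right hq2).mp hlt'
    refine ⟨L i i - l i, by omega, ?_⟩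
    rw [hL, hl, ← pow_add]
    congr 1
    omega
  choose e he0 he using hQ
  have he2 : ∀ i, 2 ≤ q ^ e i := fun i =>
    hq2.trans (Nat.le_self_pow (he0 i).ne' q)
  refine ⟨L, e, hL, ?_, he0, he, ?_, ?_, ?_⟩
  · intro i j
    have h1 : Nat.card (S.C i j) ≤ Nat.card (Matrix (Fin (ρ i)) (Fin (ρ j)) o) :=
      Finite.card_subtype_le _
    have h2 : Nat.card (Matrix (Fin (ρ i)) (Fin (ρ j)) o) = q ^ (r * (ρ i * ρ j)) := by
      change Nat.card (Fin (ρ i) → Fin (ρ j) → o) = _
      rw [Nat.card_fun, Nat.card_fun, hnF, hnF, chain_card' hch, hq, ← pow_mul, ← pow_mul]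
      congr 1
      ring
    rw [hL, h2] at h1
    exact (Nat.pow_le_pow_iff_right hq2).mp h1
  · intro i
    obtain ⟨k, hk⟩ := f10_cardV S i _ (he i) (he2 i)
    rw [hq, ← pow_mul] at hk
    exact ⟨k, hinj hk⟩
  · intro i j hij hc
    obtain ⟨k, hk⟩ := f10_cardL S i j _ (he i) (he2 i)
    obtain ⟨k', hk'⟩ := f10_cardR S i j _ (he j) (he2 j)
    rw [hL, ← pow_mul] at hk hk'
    exact Nat.Coprime.mul_dvd_of_dvd_of_dvd hc ⟨k, hinj hk⟩ ⟨k', hinj hk'⟩
  · intro i hi
    have h0 : Nat.card (S.C i i)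
        = Nat.card (IsLocalRing.ResidueField o) ^ ρ i * Nat.card (S.J i) := by
      have h9 : q ^ ρ i = q ^ e i := by rw [hi]
      rw [hq, h9]
      exact he i
    have hJ := f10_Jzero S i (hρ i) h0
    have hmem : ∀ x : S.J i, ∀ a c, (x : Matrix (Fin (ρ i)) (Fin (ρ i)) o) a c ∈
        (Ideal.span {π ^ 1} : Ideal o) := by
      intro x a c
      rw [pow_one, ← hch.max, ← IsLocalRing.residue_eq_zero_iff]
      exact hJ x x.2 a c
    have h1 : Nat.card (S.J i) ≤
        Nat.card (Fin (ρ i) → Fin (ρ i) → (Ideal.span {π ^ 1} : Ideal o)) := by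
      apply Nat.card_le_card_of_injective (fun x : S.J i => fun a c =>
        (⟨(x : Matrix (Fin (ρ i)) (Fin (ρ i)) o) a c, hmem x a c⟩ : (Ideal.span {π ^ 1} : Ideal o)))
      intro x y hxy
      apply Subtype.ext
      ext a c
      exact congrArg Subtype.val (congrFun (congrFun hxy a) c)
    rw [Nat.card_fun, Nat.card_fun, hnF, chain_card hch 1 hch.pos, hq, ← pow_mul, ← pow_mul] at h1
    have h2 : q ^ L i i ≤ q ^ (e i + (r - 1) * e i ^ 2) := by
      rw [← hL, he i, pow_add]
      apply Nat.mul_le_mul_left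
      refine h1.trans (le_of_eq ?_)
      rw [hi]
      congr 1
      ring
    exact (Nat.pow_le_pow_iff_right hq2).mp h2

end Pool.Agent.Lib.MP_fa0f6c_al.Cx
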