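import Pool.Agent.Lib.MP_fa0f6c_al.Cx.C08
import Pool.Agent.Lib.MP_fa0f6c_al.Cx.C10
import Pool.Agent.Lib.MP_fa0f6c_al.Cx.F09
import Pool.Agent.Lib.MP_fa0f6c_al.Cx.F10

set_option autoImplicit false

namespace Pool.Agent.Lib.MP_fa0f6c_al.Cx

variable {o : Type} [CommRing o] [IsLocalRing o] [Finite o] {π : o}

/-- the equation of the exponents, doubled -/
private theorem c11_exp {d : Fin 6 → ℕ} {q : ℕ} (h : Nums d q) {b : ℕ} {n e : Fin b → ℕ}
    {κ : Fin 6 → Fin b} (hκ : Kappa d n e κ) {A c : ℕ} (hA : c + ∑ i, e i * n i ^ 2 = A) :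
    c + ∑ i, e i * (n i * (n i - 1) / 2) = EE d ↔
      2 * A + ∑ k, d k ^ 2 = 2 * (∑ k, ∑ l, lenT k l * (d k * d l)) + ∑ i, e i * n i ^ 2 := by
  have hpos : ∀ k, 0 < d k := fun k => (h.prime k).pos
  have h1 : 2 * ∑ i, e i * (n i * (n i - 1) / 2) + ∑ i, n i * e i = ∑ i, e i * n i ^ 2 := by
    rw [Finset.mul_sum, ← Finset.sum_add_distrib]
    refine Finset.sum_congr rfl fun i _ => ?_
    have h2 : n i * (n i - 1) / 2 * 2 = n i * (n i - 1) :=
      Nat.div_mul_cancel (Nat.even_mul_pred_self (n i)).two_dvd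
    have h3 : n i * (n i - 1) + n i = n i ^ 2 := by
      rcases Nat.eq_zero_or_pos (n i) with h0 | h0
      · rw [h0]
        norm_num
      · obtain ⟨m, hm⟩ : ∃ m, n i = m + 1 := ⟨n i - 1, by omega⟩
        rw [hm, Nat.add_sub_cancel]
        ring
    calc 2 * (e i * (n i * (n i - 1) / 2)) + n i * e i
        = e i * (n i * (n i - 1) / 2 * 2 + n i) := by ring
      _ = e i * n i ^ 2 := by rw [h2, h3]
  have h2 : ∑ i, n i * e i = ∑ k, d k := by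
    rw [Finset.sum_congr rfl fun i _ => hκ.sum i, Finset.sum_fiberwise]
  have h3 : 2 * ∑ k, (d k * (d k + 1) / 2) = ∑ k, d k ^ 2 + ∑ k, d k := by
    rw [Finset.mul_sum, ← Finset.sum_add_distrib]
    refine Finset.sum_congr rfl fun k _ => ?_
    rw [Nat.mul_div_cancel' (Nat.even_mul_succ_self (d k)).two_dvd]
    ring
  have h4 : ∑ k, (d k * (d k + 1) / 2) ≤ ∑ k, ∑ l, lenT k l * (d k * d l) := by
    refine Finset.sum_le_sum fun k _ => ?_
    have h5 : d k * (d k + 1) / 2 ≤ d k * d k := by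
      apply Nat.div_le_of_le_mul
      nlinarith [hpos k]
    have h6 : 1 ≤ lenT k k := by
      fin_cases k <;> simp [lenT]
    calc d k * (d k + 1) / 2 ≤ d k * d k := h5
      _ ≤ lenT k k * (d k * d k) := Nat.le_mul_of_pos_left _ h6
      _ ≤ ∑ l, lenT k l * (d k * d l) :=
        Finset.single_le_sum (f := fun l => lenT k l * (d k * d l))
          (fun _ _ => Nat.zero_le _) (Finset.mem_univ k)
  have h5 : EE d = (∑ k, ∑ l, lenT k l * (d k * d l)) - ∑ k, (d k * (d k + 1) / 2) := rfl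
  rw [h5]
  omega

private theorem c11_bound {d : Fin 6 → ℕ} {b : ℕ} {n ρ : Fin b → ℕ} (hρ : ∀ i, 0 < ρ i)
    (hN : ∑ i, n i * ρ i = NN d) (e : Fin b → ℕ) (hed : ∀ i, e i ∣ ρ i) (i : Fin b) :
    n i * e i ≤ NN d := by
  calc n i * e i ≤ n i * ρ i := Nat.mul_le_mul_left _ (Nat.le_of_dvd (hρ i) (hed i))
    _ ≤ ∑ i, n i * ρ i := Finset.single_le_sum (f := fun i => n i * ρ i)
        (fun _ _ => Nat.zero_le _) (Finset.mem_univ i)
    _ = NN d := hN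

private theorem c11_HH {d : Fin 6 → ℕ} {q : ℕ} (h : Nums d q) : 0 < HH d q := by
  have hq : 4 ≤ q := h.q4
  unfold HH
  refine Nat.mul_pos (Nat.pow_pos (by omega)) (Finset.prod_pos fun k _ => ?_)
  have h1 : 1 < q ^ d k := Nat.one_lt_pow (h.prime k).pos.ne' (by omega)
  omega

/-- the cardinality of the radical -/
private theorem c11_rad {q : ℕ} (hq : 1 < q) {b : ℕ} {n ρ : Fin b → ℕ} (S : Corners o ρ)
    (e : Fin b → ℕ) (hJ : ∀ i, Nat.card (S.C i i) = q ^ e i * Nat.card (S.J i))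
    (L : Fin b → Fin b → ℕ) (hL : ∀ i j, Nat.card (S.C i j) = q ^ L i j) :
    ∃ c, Nat.card (S.rad n) = q ^ c ∧
      c + ∑ i, e i * n i ^ 2 = ∑ i, ∑ j, n i * n j * L i j := by
  have h1 := corners_rad_card S n (fun i => q ^ e i) hJ
  rw [corners_ring_card] at h1
  have h2 : ∏ i, (q ^ e i) ^ (n i ^ 2) = q ^ ∑ i, e i * n i ^ 2 := by
    rw [← Finset.prod_pow_eq_pow_sum]
    exact Finset.prod_congr rfl fun i _ => (pow_mul _ _ _).symm
  have h3 : ∏ i, ∏ j, Nat.card (S.C i j) ^ (n i * n j) = q ^ ∑ i, ∑ j, n i * n j * L i j := by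
    rw [← Finset.prod_pow_eq_pow_sum]
    refine Finset.prod_congr rfl fun i _ => ?_
    rw [← Finset.prod_pow_eq_pow_sum]
    refine Finset.prod_congr rfl fun j _ => ?_
    rw [hL, ← pow_mul, mul_comm]
  rw [h2, h3] at h1
  have hpos : 0 < Nat.card (S.rad n) := Nat.card_pos
  have hle : ∑ i, e i * n i ^ 2 ≤ ∑ i, ∑ j, n i * n j * L i j := by
    rw [← Nat.pow_le_pow_iff_right hq, ← h1]
    exact Nat.le_mul_of_pos_left _ hpos
  refine ⟨(∑ i, ∑ j, n i * n j * L i j) - ∑ i, e i * n i ^ 2, ?_, Nat.sub_add_cancel hle⟩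
  have h4 : 0 < q ^ ∑ i, e i * n i ^ 2 := Nat.pow_pos (by omega)
  refine Nat.eq_of_mul_eq_mul_right h4 ?_
  rw [h1, ← pow_add, Nat.sub_add_cancel hle]

/-- the common part of `std_count` and `std_decode` -/
private theorem c11_cnt {q : ℕ} (h2 : ¬ IsUnit (2 : o)) {b : ℕ} {n ρ : Fin b → ℕ}
    (S : Corners o ρ) (s : Stage (Matrix (Idx n ρ) (Idx n ρ) o)) (hE : s.E = S.ring n)
    (hI : s.I = S.rad n) (e : Fin b → ℕ)
    (hJ : ∀ i, Nat.card (S.C i i) = q ^ e i * Nat.card (S.J i)) {c : ℕ}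
    (hc : Nat.card (S.rad n) = q ^ c) {H : ℕ} (hH : 0 < H) :
    ∃ (F : Fin b → Type) (_ : ∀ i, Field (F i)) (_ : ∀ i, Finite (F i)),
      (∀ i, Nat.card (F i) = q ^ e i) ∧
      cnt s H = Set.ncard {ψ | ψ ∈ Irr (∀ i, B.GLn (F i) (n i)) ∧
        ψ 1 * H = (q ^ c : ℕ) * Nat.card (∀ i, B.GLn (F i) (n i))} := by
  obtain ⟨F, i1, i2, hF, hcount⟩ := corners_count h2 S s hE hI
  refine ⟨F, i1, i2, fun i => ?_, ?_⟩
  · have h3 : 0 < Nat.card (S.J i) := Nat.card_pos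
    refine Nat.eq_of_mul_eq_mul_right h3 ?_
    rw [← hF i, hJ i]
  · have h3 := hcount H hH
    rw [hc] at h3
    exact h3

/-- The count over a stage in standard form for given `κ`, and the equation of exponents.
PROOF: `corners_count` with `h = HH d q > 0`; `card (F i) = q ^ e i` (compare `card (S.C i i)`); `|S.rad n| = q ^ c` with
`c = ∑ n i n j L i j - ∑ e i n i ^ 2` (`corners_ring_card`, `corners_rad_card`); `prod_count`. -/
theorem std_count {d : Fin 6 → ℕ} {q : ℕ} (h : Nums d q) (hch : IsChain o π 16)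
    (h2 : ¬ IsUnit (2 : o)) (hq : Nat.card (IsLocalRing.ResidueField o) = q) {b : ℕ}
    {n ρ : Fin b → ℕ} (hn : ∀ i, 0 < n i) (hρ : ∀ i, 0 < ρ i) (hN : ∑ i, n i * ρ i = NN d)
    (S : Corners o ρ) (s : Stage (Matrix (Idx n ρ) (Idx n ρ) o)) (hE : s.E = S.ring n)
    (hI : s.I = S.rad n) (e : Fin b → ℕ) (he : ∀ i, 0 < e i) (hed : ∀ i, e i ∣ ρ i)
    (hJ : ∀ i, Nat.card (S.C i i) = q ^ e i * Nat.card (S.J i)) (L : Fin b → Fin b → ℕ)
    (hL : ∀ i j, Nat.card (S.C i j) = q ^ L i j) {κ : Fin 6 → Fin b} (hκ : Kappa d n e κ)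
    (heq : 2 * (∑ i, ∑ j, n i * n j * L i j) + ∑ k, d k ^ 2 =
      2 * (∑ k, ∑ l, lenT k l * (d k * d l)) + ∑ i, e i * n i ^ 2) :
    cnt s (HH d q) = ∏ k, (if e (κ k) = 1 then cc q (d k) else q ^ d k - 1) := by
  have hq4 := h.q4
  obtain ⟨c, hc, hcA⟩ := c11_rad (n := n) (by omega : 1 < q) S e hJ L hL
  obtain ⟨F, i1, i2, hF, hcnt⟩ := c11_cnt h2 S s hE hI e hJ hc (c11_HH h)
  rw [hcnt]
  exact prod_count h hn he (c11_bound hρ hN e hed) F hF c hκ ((c11_exp h hκ hcA).2 heq)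

/-- Decoding of a stage in standard form. PROOF: `corners_count`, `prod_decode`, the exponent of `|S.rad n|` as in `std_count`; doubling the equation of exponents:
`2 * (n i * (n i - 1) / 2) = n i ^ 2 - n i`, `∑ e i n i = ∑ d k`, `2 * EE d = 2 ∑∑ lenT d d - ∑ (d k ^ 2 + d k)`. -/
theorem std_decode {d : Fin 6 → ℕ} {q : ℕ} (h : Nums d q) (hch : IsChain o π 16)
    (h2 : ¬ IsUnit (2 : o)) (hq : Nat.card (IsLocalRing.ResidueField o) = q) {b : ℕ}
    {n ρ : Fin b → ℕ} (hn : ∀ i, 0 < n i) (hρ : ∀ i, 0 < ρ i) (hN : ∑ i, n i * ρ i = NN d)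
    (S : Corners o ρ) (s : Stage (Matrix (Idx n ρ) (Idx n ρ) o)) (hE : s.E = S.ring n)
    (hI : s.I = S.rad n) (hs : cnt s (HH d q) ≠ 0) (e : Fin b → ℕ) (he : ∀ i, 0 < e i)
    (hed : ∀ i, e i ∣ ρ i)
    (hJ : ∀ i, Nat.card (S.C i i) = q ^ e i * Nat.card (S.J i)) (L : Fin b → Fin b → ℕ)
    (hL : ∀ i j, Nat.card (S.C i j) = q ^ L i j) :
    ∃ κ : Fin 6 → Fin b, Kappa d n e κ ∧
      2 * (∑ i, ∑ j, n i * n j * L i j) + ∑ k, d k ^ 2 =
      2 * (∑ k, ∑ l, lenT k l * (d k * d l)) + ∑ i, e i * n i ^ 2 := by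
  have hq4 := h.q4
  obtain ⟨c, hc, hcA⟩ := c11_rad (n := n) (by omega : 1 < q) S e hJ L hL
  obtain ⟨F, i1, i2, hF, hcnt⟩ := c11_cnt h2 S s hE hI e hJ hc (c11_HH h)
  rw [hcnt] at hs
  obtain ⟨ψ, hψ, hψ2⟩ := Set.nonempty_of_ncard_ne_zero hs
  obtain ⟨κ, hκ, heq⟩ := prod_decode h hn he (c11_bound hρ hN e hed) F hF c ⟨ψ, hψ, hψ2⟩
  exact ⟨κ, hκ, (c11_exp h hκ hcA).1 heq⟩

/-- The complete description of a stage in standard form with `cnt ≠ 0`. PROOF: `corners_numbers` (F10) for `L`, `e`; `std_decode`, `ranks`, `digits_main`, `std_count`. -/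
theorem std_main {d : Fin 6 → ℕ} {q : ℕ} (h : Nums d q) (hch : IsChain o π 16)
    (h2 : ¬ IsUnit (2 : o)) (hq : Nat.card (IsLocalRing.ResidueField o) = q) {b : ℕ}
    {n ρ : Fin b → ℕ} (hn : ∀ i, 0 < n i) (hρ : ∀ i, 0 < ρ i) (hN : ∑ i, n i * ρ i = NN d)
    (S : Corners o ρ) (s : Stage (Matrix (Idx n ρ) (Idx n ρ) o)) (hE : s.E = S.ring n)
    (hI : s.I = S.rad n) (hs : cnt s (HH d q) ≠ 0) :
    ∃ (e : Fin b → ℕ) (κ : Fin 6 → Fin b), Function.Bijective κ ∧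
      (∀ k, e (κ k) = 1 ∨ e (κ k) = d k) ∧ (∀ k, k ≠ 0 → k ≠ 5 → e (κ k) = 1) ∧
      (∀ k, n (κ k) * e (κ k) = d k) ∧ (∀ k, ρ (κ k) = e (κ k) * rhoT k) ∧
      (∀ i, Nat.card (S.C i i) = q ^ e i * Nat.card (S.J i)) ∧
      cnt s (HH d q) = ∏ k, (if e (κ k) = 1 then cc q (d k) else q ^ d k - 1) ∧
      (e (κ 0) = 1 → e (κ 5) = 1 →
        (∀ k, Nat.card (S.C (κ k) (κ k)) = q ^ lenT k k) ∧
        ∀ k l, k ≠ l → Nat.card (S.C (κ k) (κ l)) * Nat.card (S.C (κ l) (κ k)) =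
          q ^ (lenT k l + lenT l k)) := by
  classical
  have hq4 := h.q4
  have hq1 : 1 < q := by omega
  obtain ⟨L, e, hL, hLle, he, hJ, hed, hdvd, hsmall⟩ := corners_numbers hch S hρ q hq
  obtain ⟨κ, hκ, heq⟩ := std_decode h hch h2 hq hn hρ hN S s hE hI hs e he hed hJ L hL
  have hrank : ∀ k, ρ (κ k) = e (κ k) * rhoT k := fun k => ranks h hκ hρ hed hN k
  have hLge : ∀ i, e i ≤ L i i := by
    intro i
    have h3 : 0 < Nat.card (S.J i) := Nat.card_pos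
    rw [← Nat.pow_le_pow_iff_right hq1, ← hL i i, hJ i]
    exact Nat.le_mul_of_pos_right _ h3
  have hD : DigitData d n e ρ L κ :=
    ⟨hκ, he, hrank, hLle, hLge, hdvd, hsmall, heq⟩
  obtain ⟨hbij, hanc, hlast⟩ := digits_main h hD
  refine ⟨e, κ, hbij, ?_, hanc, ?_, hrank, hJ, ?_, ?_⟩
  · intro k
    rcases hκ.e_eq k with h3 | h3
    · exact Or.inl h3
    · exact Or.inr h3.1
  · intro k
    rw [hκ.sum (κ k)]
    have h3 : Finset.univ.filter (fun k' => κ k' = κ k) = {k} := by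
      ext k'
      simp only [Finset.mem_filter, Finset.mem_univ, true_and, Finset.mem_singleton]
      exact ⟨fun h4 => hbij.1 h4, fun h4 => by rw [h4]⟩
    rw [h3, Finset.sum_singleton]
  · exact std_count h hch h2 hq hn hρ hN S s hE hI e he hed hJ L hL hκ heq
  · intro h3 h4
    obtain ⟨h5, h6⟩ := hlast h3 h4
    refine ⟨fun k => by rw [hL, h5], fun k l hkl => ?_⟩
    rw [hL, hL, ← pow_add, h6 k l hkl]

end Pool.Agent.Lib.MP_fa0f6c_al.Cx
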