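import Pool.Agent.Lib.MP_fa0f6c_al.Cx.F15

set_option autoImplicit false

namespace Pool.Agent.Lib.MP_fa0f6c_al.Cx

/-- Pull back of a corner system along an injective map of the blocks. -/
def Corners.comap {o : Type} [CommRing o] {b b' : ℕ} {ρ : Fin b → ℕ} (S : Corners o ρ)
    (κ : Fin b' → Fin b) (hκ : Function.Injective κ) : Corners o (fun i => ρ (κ i)) where
  C := fun i j => S.C (κ i) (κ j)
  J := fun i => S.J (κ i)
  one_mem := fun i => S.one_mem (κ i)
  mul_mem := fun i j l => S.mul_mem (κ i) (κ j) (κ l)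
  J_le := fun i => S.J_le (κ i)
  J_mulL := fun i => S.J_mulL (κ i)
  J_mulR := fun i => S.J_mulR (κ i)
  J_off := fun i j hij => S.J_off (κ i) (κ j) (fun h => hij (hκ h))
  one_notMem := fun i => S.one_notMem (κ i)
  comm := fun i => S.comm (κ i)
  unit := fun i => S.unit (κ i)
  nil := fun i => S.nil (κ i)

variable {o : Type} [CommRing o] [IsLocalRing o] [Finite o]

/-- Reordering of the blocks. PROOF: `ε' = ε.trans (τ.symm)` with `τ : Idx (n ∘ κ) (ρ ∘ κ) ≃ Idx n ρ`, `⟨i, x⟩ ↦ ⟨κ i, x⟩`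
(`Equiv.sigmaCongrLeft`); the blocks of the reindexed matrix are the blocks `(κ i, κ j)`. -/
theorem isStd_comap {κ' : Type} [Fintype κ'] [DecidableEq κ'] {ν : Stage (Matrix κ' κ' o)}
    {b b' : ℕ} {n ρ : Fin b → ℕ} {S : Corners o ρ} {ε : κ' ≃ Idx n ρ} {g : (Matrix κ' κ' o)ˣ}
    (h : IsStd ν n ρ S ε g) (κ : Fin b' → Fin b) (hκ : Function.Bijective κ) :
    ∃ ε' : κ' ≃ Idx (fun i => n (κ i)) (fun i => ρ (κ i)),
      IsStd ν (fun i => n (κ i)) (fun i => ρ (κ i)) (S.comap κ hκ.injective) ε' g := by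
  classical
  let e : Fin b' ≃ Fin b := Equiv.ofBijective κ hκ
  let τ : Idx (fun i => n (κ i)) (fun i => ρ (κ i)) ≃ Idx n ρ :=
    Equiv.sigmaCongrLeft (β := fun i : Fin b => Fin (n i) × Fin (ρ i)) e
  have hτ : ∀ (i : Fin b') (p : Fin (n (κ i)) × Fin (ρ (κ i))), τ ⟨i, p⟩ = ⟨κ i, p⟩ := by
    intro i p
    rfl
  have hblk : ∀ (x : Matrix κ' κ' o) (i : Fin b') (s : Fin (n (κ i))) (j : Fin b') (t : Fin (n (κ j))),
      blk (n := fun i => n (κ i)) (ρ := fun i => ρ (κ i))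
        (Matrix.reindex (ε.trans τ.symm) (ε.trans τ.symm) x) i s j t =
      blk (Matrix.reindex ε ε x) (κ i) s (κ j) t := by
    intro x i s j t
    ext a c
    show x ((ε.trans τ.symm).symm ⟨i, (s, a)⟩) ((ε.trans τ.symm).symm ⟨j, (t, c)⟩) =
      x (ε.symm ⟨κ i, (s, a)⟩) (ε.symm ⟨κ j, (t, c)⟩)
    have h1 : ∀ z, (ε.trans τ.symm).symm z = ε.symm (τ z) := fun z => rfl
    rw [h1, h1, hτ, hτ]
  refine ⟨ε.trans τ.symm, fun x => ?_, fun x => ?_⟩
  · rw [h.1 x]
    set y := (g : Matrix κ' κ' o) * x * ((g⁻¹ : (Matrix κ' κ' o)ˣ) : Matrix κ' κ' o) with hy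
    constructor
    · intro hx i s j t
      rw [hblk]
      exact hx (κ i) s (κ j) t
    · intro hx i s j t
      obtain ⟨i', rfl⟩ := hκ.surjective i
      obtain ⟨j', rfl⟩ := hκ.surjective j
      have := hx i' s j' t
      rw [hblk] at this
      exact this
  · rw [h.2 x]
    set y := (g : Matrix κ' κ' o) * x * ((g⁻¹ : (Matrix κ' κ' o)ˣ) : Matrix κ' κ' o) with hy
    constructor
    · intro hx
      refine ⟨fun i s j t => ?_, fun i s t => ?_⟩
      · rw [hblk]
        exact hx.1 (κ i) s (κ j) t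
      · rw [hblk]
        exact hx.2 (κ i) s t
    · intro hx
      refine ⟨fun i s j t => ?_, fun i s t => ?_⟩
      · obtain ⟨i', rfl⟩ := hκ.surjective i
        obtain ⟨j', rfl⟩ := hκ.surjective j
        have := hx.1 i' s j' t
        rw [hblk] at this
        exact this
      · obtain ⟨i', rfl⟩ := hκ.surjective i
        have := hx.2 i' s t
        rw [hblk] at this
        exact this

end Pool.Agent.Lib.MP_fa0f6c_al.Cx
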