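import Pool.Agent.Lib.MP_fa0f6c_al.Cx.F02
import Pool.Agent.Lib.MP_fa0f6c_al.Cx.A06

set_option autoImplicit false

namespace Pool.Agent.Lib.MP_fa0f6c_al.Cx

variable {o : Type} [CommRing o] [IsLocalRing o] [Finite o] {π : o}
  {κ : Type} [Fintype κ] [DecidableEq κ]

/-- one level of the tree of stages -/
private theorem F03_level {R : Type} [Ring R] [Finite R] (s t₁ t₀ : Stage R) (h1 : s.IsStep t₁)
    (h3 : t₁.Reach t₀) (ht : t₀.Terminal) :
    ∃ F : Set (Stage R), F.Finite ∧ t₀ ∈ F ∧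
      (∀ ν ∈ F, ν.Terminal ∧ ∃ t, s.IsStep t ∧ t.I = t₁.I ∧ t.Reach ν) ∧
      ∀ χ ∈ Irr Rˣ, s.Over χ → ∃! ν, ν ∈ F ∧ ν.Over χ := by
  classical
  have hleg : Legal s t₁.I := ⟨h1.ideal, h1.le, h1.sq, h1.comm⟩
  -- a child for each character
  have hc : ∀ χ : {χ : Rˣ → ℂ // χ ∈ Irr Rˣ ∧ s.Over χ},
      ∃ t : Stage R, s.IsStep t ∧ t.I = t₁.I ∧ t.Over χ.1 := fun χ =>
    exists_step hleg χ.2.1 χ.2.2
  choose c hc1 hc2 hc3 using hc
  -- two children over a common character are over the same characters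
  have key : ∀ t t' : Stage R, s.IsStep t → s.IsStep t' → t.I = t₁.I → t'.I = t₁.I →
      ∀ χ ∈ Irr Rˣ, t.Over χ → t'.Over χ → ∀ χ' ∈ Irr Rˣ, t.Over χ' → t'.Over χ' := by
    intro t t' hst hst' hI hI' χ hχ ho ho' χ' hχ' ho''
    exact (conj_over (step_conj hst hst' (hI.trans hI'.symm) hχ ho ho') hχ').1 ho''
  let S : Setoid {χ : Rˣ → ℂ // χ ∈ Irr Rˣ ∧ s.Over χ} :=
    { r := fun χ χ' => ∃ t : Stage R, s.IsStep t ∧ t.I = t₁.I ∧ t.Over χ.1 ∧ t.Over χ'.1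
      iseqv := by
        refine ⟨fun χ => ⟨c χ, hc1 χ, hc2 χ, hc3 χ, hc3 χ⟩, ?_, ?_⟩
        · rintro χ χ' ⟨t, a, b, d, e⟩
          exact ⟨t, a, b, e, d⟩
        · rintro χ χ' χ'' ⟨t, a, b, d, e⟩ ⟨t', a', b', d', e'⟩
          exact ⟨t', a', b', key t t' a a' b b' χ'.1 χ'.2.1 e d' χ.1 χ.2.1 d, e'⟩ }
  let g : {χ : Rˣ → ℂ // χ ∈ Irr Rˣ ∧ s.Over χ} → Stage R := fun χ =>
    if t₁.Over χ.1 then t₁ else c (Quotient.out (Quotient.mk S χ))
  have hrep : ∀ χ, S.r (Quotient.out (Quotient.mk S χ)) χ := fun χ => Quotient.mk_out χ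
  have hg1 : ∀ χ, s.IsStep (g χ) := by
    intro χ
    by_cases h' : t₁.Over χ.1
    · simp only [g, if_pos h']; exact h1
    · simp only [g, if_neg h']; exact hc1 _
  have hg2 : ∀ χ, (g χ).I = t₁.I := by
    intro χ
    by_cases h' : t₁.Over χ.1
    · simp only [g, if_pos h']
    · simp only [g, if_neg h']; exact hc2 _
  have hg3 : ∀ χ, (g χ).Over χ.1 := by
    intro χ
    by_cases h' : t₁.Over χ.1
    · simp only [g, if_pos h']; exact h'
    · simp only [g, if_neg h']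
      obtain ⟨t, a, b, d, e⟩ := hrep χ
      exact key t _ a (hc1 _) b (hc2 _) _ (Quotient.out (Quotient.mk S χ)).2.1 d (hc3 _)
        _ χ.2.1 e
  have hg4 : ∀ χ χ', (g χ').Over χ.1 → g χ' = g χ := by
    intro χ χ' ho
    have hr : S.r χ' χ := ⟨g χ', hg1 _, hg2 _, hg3 _, ho⟩
    have hq : Quotient.mk S χ' = Quotient.mk S χ := Quotient.sound hr
    have hiff : t₁.Over χ'.1 ↔ t₁.Over χ.1 := by
      constructor
      · intro h'
        exact key (g χ') t₁ (hg1 _) h1 (hg2 _) rfl _ χ'.2.1 (hg3 _) h' _ χ.2.1 ho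
      · intro h'
        exact key (g χ') t₁ (hg1 _) h1 (hg2 _) rfl _ χ.2.1 ho h' _ χ'.2.1 (hg3 _)
    simp only [g, hq]
    by_cases h' : t₁.Over χ.1
    · rw [if_pos h', if_pos (hiff.2 h')]
    · rw [if_neg h', if_neg (fun h'' => h' (hiff.1 h''))]
  have hg5 : ∀ χ, t₁.Over χ.1 → g χ = t₁ := by
    intro χ h'
    simp only [g, if_pos h']
  have : Finite {χ : Rˣ → ℂ // χ ∈ Irr Rˣ ∧ s.Over χ} :=
    ((irr_finite Rˣ).subset (fun χ hχ => hχ.1) :
      {χ : Rˣ → ℂ | χ ∈ Irr Rˣ ∧ s.Over χ}.Finite).to_subtype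
  let C : Set (Stage R) := insert t₁ (Set.range g)
  have hCfin : C.Finite := (Set.finite_range g).insert _
  have hC1 : ∀ t ∈ C, s.IsStep t ∧ t.I = t₁.I := by
    intro t htC
    rcases htC with rfl | ⟨χ, rfl⟩
    · exact ⟨h1, rfl⟩
    · exact ⟨hg1 _, hg2 _⟩
  have hC2 : ∀ t ∈ C, ∀ χ : {χ : Rˣ → ℂ // χ ∈ Irr Rˣ ∧ s.Over χ}, t.Over χ.1 → t = g χ := by
    intro t htC χ ho
    rcases htC with rfl | ⟨χ', rfl⟩
    · exact (hg5 χ ho).symm
    · exact hg4 _ _ ho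
  -- a terminal stage for each child
  have hT : ∀ t : Stage R, ∃ u : Stage R, t.Reach u ∧ u.Terminal ∧ (t = t₁ → u = t₀) := by
    intro t
    by_cases h' : t = t₁
    · subst h'
      exact ⟨t₀, h3, ht, fun _ => rfl⟩
    · obtain ⟨u, hu, hu'⟩ := exists_terminal t
      exact ⟨u, hu, hu', fun h'' => absurd h'' h'⟩
  choose T hT1 hT2 hT3 using hT
  have hF : ∀ t : C, ∃ F : Set (Stage R), F.Finite ∧ T t.1 ∈ F ∧
      (∀ ν ∈ F, t.1.Reach ν ∧ ν.Terminal) ∧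
      ∀ χ ∈ Irr Rˣ, t.1.Over χ → ∃! ν, ν ∈ F ∧ ν.Over χ := by
    intro t
    exact partition_stage t.1 (T t.1) (hT1 _) (hT2 _)
  choose F hF1 hF2 hF3 hF4 using hF
  have := hCfin.to_subtype
  refine ⟨⋃ t : C, F t, Set.finite_iUnion hF1, ?_, ?_, ?_⟩
  · rw [Set.mem_iUnion]
    refine ⟨⟨t₁, Set.mem_insert _ _⟩, ?_⟩
    have := hF2 ⟨t₁, Set.mem_insert _ _⟩
    rwa [hT3 t₁ rfl] at this
  · intro ν hν
    rw [Set.mem_iUnion] at hν
    obtain ⟨t, hν⟩ := hν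
    exact ⟨(hF3 t ν hν).2, t.1, (hC1 t.1 t.2).1, (hC1 t.1 t.2).2, (hF3 t ν hν).1⟩
  · intro χ hχ ho
    have hgC : g ⟨χ, hχ, ho⟩ ∈ C := Set.mem_insert_of_mem _ ⟨_, rfl⟩
    obtain ⟨ν, ⟨hν1, hν2⟩, hν3⟩ := hF4 ⟨g ⟨χ, hχ, ho⟩, hgC⟩ χ hχ (hg3 ⟨χ, hχ, ho⟩)
    refine ⟨ν, ⟨Set.mem_iUnion.2 ⟨_, hν1⟩, hν2⟩, ?_⟩
    rintro ν' ⟨hν', ho'⟩
    rw [Set.mem_iUnion] at hν'
    obtain ⟨t, hν'⟩ := hν'
    have hot : t.1.Over χ := (reach_mono (hF3 t ν' hν').1).2.2.2 χ hχ ho'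
    have ht' : t = ⟨g ⟨χ, hχ, ho⟩, hgC⟩ := Subtype.ext (hC2 t.1 t.2 ⟨χ, hχ, ho⟩ hot)
    subst ht'
    exact hν3 ν' ⟨hν', ho'⟩

/-- the ideal `π^a R` -/
private def F03I (π : o) (κ : Type) [Fintype κ] [DecidableEq κ] (a : ℕ) :
    Submodule ℤ (Matrix κ κ o) where
  carrier := {x | ∃ y, x = π ^ a • y}
  zero_mem' := ⟨0, by rw [smul_zero]⟩
  add_mem' := by
    rintro _ _ ⟨x, rfl⟩ ⟨y, rfl⟩
    exact ⟨x + y, by rw [smul_add]⟩
  smul_mem' := by
    rintro c _ ⟨x, rfl⟩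
    exact ⟨c • x, by rw [smul_comm]⟩

omit [IsLocalRing o] [Finite o] [DecidableEq κ] in
private theorem F03_mul (hπ : π ^ 16 = 0) {x y : Matrix κ κ o} (hx : ∃ z, x = π ^ 8 • z)
    (hy : ∃ z, y = π ^ 8 • z) : x * y = 0 := by
  obtain ⟨x, rfl⟩ := hx
  obtain ⟨y, rfl⟩ := hy
  rw [Matrix.smul_mul, Matrix.mul_smul, smul_smul, ← pow_add, hπ, zero_smul]

omit [IsLocalRing o] [Finite o] in
private theorem F03_nil (hπ : π ^ 16 = 0) (E : Subring (Matrix κ κ o)) (hE : E = ⊤) :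
    IsNilIdeal E (F03I π κ 8) := by
  refine ⟨fun x _ => by rw [hE]; trivial, ?_, ?_, ⟨2, ?_⟩⟩
  · rintro f _ _ ⟨x, rfl⟩
    exact ⟨f * x, by rw [Matrix.mul_smul]⟩
  · rintro f _ _ ⟨x, rfl⟩
    exact ⟨x * f, by rw [Matrix.smul_mul]⟩
  · rw [pow_two, Submodule.zero_eq_bot, eq_bot_iff, Submodule.mul_le]
    intro x hx y hy
    rw [Submodule.mem_bot]
    exact F03_mul hπ hx hy

omit [IsLocalRing o] [Finite o] [DecidableEq κ] in
private theorem F03_trace (X y : Matrix κ κ o) :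
    (X * π ^ 8 • y).trace = π ^ 8 * (X * y).trace := by
  rw [Matrix.mul_smul, Matrix.trace_smul, smul_eq_mul]

/-- the stabiliser -/
private theorem F03_stab (h : IsChain o π 16) {ψ : AddChar o ℂ} (hψ : IsPrim π 16 ψ)
    (X f : Matrix κ κ o) (m : Matrix κ κ o → ℂ)
    (hm : ∀ y, m (π ^ 8 • y) = ψ (π ^ 8 * (X * y).trace)) :
    (∀ x ∈ F03I π κ 8, m (f * x) = m (x * f)) ↔ ∃ y, X * f - f * X = π ^ 8 • y := by
  have key : ∀ y, π ^ 8 * (X * (f * y)).trace - π ^ 8 * (X * (y * f)).trace =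
      π ^ 8 * ((X * f - f * X) * y).trace := by
    intro y
    rw [← mul_sub, ← Matrix.trace_sub]
    congr 1
    rw [sub_mul, Matrix.trace_sub, Matrix.trace_sub]
    congr 1
    · rw [Matrix.mul_assoc]
    · rw [← Matrix.mul_assoc, Matrix.trace_mul_comm, ← Matrix.mul_assoc]
  constructor
  · intro h1
    have h2 := matrix_nondeg h hψ 8 (by norm_num) (X * f - f * X) (by
      intro y
      have h3 := h1 (π ^ 8 • y) ⟨y, rfl⟩
      rw [Matrix.mul_smul, Matrix.smul_mul, hm, hm] at h3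
      rw [← key, sub_eq_add_neg, AddChar.map_add_eq_mul, h3, ← AddChar.map_add_eq_mul,
        add_neg_cancel, AddChar.map_zero_eq_one])
    exact h2
  · rintro ⟨z, hz⟩ x ⟨y, rfl⟩
    rw [Matrix.mul_smul, Matrix.smul_mul, hm, hm]
    have h3 := key y
    have h4 : π ^ 8 * ((X * f - f * X) * y).trace = 0 := by
      rw [hz, Matrix.smul_mul, Matrix.trace_smul, smul_eq_mul, ← mul_assoc, ← pow_add, h.pow,
        zero_mul]
    rw [h4] at h3
    rw [sub_eq_zero.1 h3]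

private theorem F03_isFirst (h : IsChain o π 16) {ψ : AddChar o ℂ} (hψ : IsPrim π 16 ψ)
    {s t : Stage (Matrix κ κ o)} (hE : s.E = ⊤) (hst : s.IsStep t)
    (hI : t.I = F03I π κ 8) : ∃ X, IsFirst π 8 ψ X t := by
  obtain ⟨X, hX⟩ := matrix_char_pow h hψ 8 (by norm_num) t.m t.hom.zero (by
    intro x y
    have hx : π ^ 8 • x ∈ t.I := by rw [hI]; exact ⟨x, rfl⟩
    have hy : π ^ 8 • y ∈ t.I := by rw [hI]; exact ⟨y, rfl⟩
    rw [← t.hom.mul _ hx _ hy, F03_mul h.pow ⟨x, rfl⟩ ⟨y, rfl⟩, add_zero, smul_add])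
  refine ⟨X, ?_, ?_, hX⟩
  · intro x
    rw [hI]
    exact Iff.rfl
  · intro f
    rw [hst.stab f, hE, ← F03_stab h hψ X f t.m hX, hI]
    exact ⟨fun h => h.2, fun h => ⟨trivial, h⟩⟩

private theorem F03_over {R : Type} [Ring R] [Finite R] {s : Stage R} (hI : s.I = ⊥)
    {χ : Rˣ → ℂ} (hχ : χ ∈ Irr Rˣ) : s.Over χ := by
  obtain ⟨n, hn, hn'⟩ := irr_deg hχ
  have hN : ∀ u : s.N, (u : Rˣ) = 1 := by
    intro u
    have h1 := u.2.1
    rw [hI, Submodule.mem_bot, sub_eq_zero] at h1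
    exact Units.ext h1
  have : Subsingleton s.N := ⟨fun a b => Subtype.ext ((hN a).trans (hN b).symm)⟩
  have h2 : s.mu 1 = 1 := s.isLin.1
  unfold Stage.Over mult ip
  have : Unique s.N := ⟨⟨1⟩, fun a => Subsingleton.elim _ _⟩
  rw [finsum_unique, Nat.card_unique]
  have h3 : ((default : s.N) : Rˣ) = 1 := hN _
  beta_reduce
  rw [h3, h2, hn']
  have : (n : ℂ) ≠ 0 := by exact_mod_cast hn.ne'
  simpa using this

/-- The root stage `(R, 0, 1)`. -/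
theorem exists_root (R : Type) [Ring R] : ∃ s : Stage R, s.E = ⊤ ∧ s.I = ⊥ ∧ ∀ x, s.m x = 1 := by
  refine ⟨{ E := ⊤, I := ⊥, m := fun _ => 1, ideal := ?_, hom := ?_, sym := ?_, int := ?_ },
    rfl, rfl, fun _ => rfl⟩
  · refine ⟨fun x _ => trivial, ?_, ?_, ⟨1, ?_⟩⟩
    · intro f _ x hx
      rw [Submodule.mem_bot] at hx ⊢
      rw [hx, mul_zero]
    · intro f _ x hx
      rw [Submodule.mem_bot] at hx ⊢
      rw [hx, zero_mul]
    · rw [pow_one]; rfl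
  · exact ⟨rfl, fun _ _ _ _ => (one_mul 1).symm⟩
  · exact fun _ _ _ _ => rfl
  · exact fun _ _ => trivial

/-- A first stage exists for each `X`. HINT: `exists_child` for the root and `I' = π^8 R`, `I' * I' = 0`;
`m' (π^8 y) = ψ (π^8 tr (X y))` is well defined; the stabiliser is computed with `matrix_nondeg`:
`tr (X f y) - tr (X y f) = tr ((X f - f X) y)`. -/
theorem exists_first (h : IsChain o π 16) {ψ : AddChar o ℂ} (hψ : IsPrim π 16 ψ)
    (X : Matrix κ κ o) : ∃ s : Stage (Matrix κ κ o), IsFirst π 8 ψ X s := by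
  obtain ⟨s, hE, hI, hm⟩ := exists_root (Matrix κ κ o)
  have hN := F03_nil (κ := κ) h.pow s.E hE
  have hH : IsHom (F03I π κ 8) (fun x => ψ ((X * x).trace)) := by
    refine ⟨by simp, ?_⟩
    intro x hx y hy
    rw [F03_mul h.pow hx hy, add_zero, mul_add, Matrix.trace_add, AddChar.map_add_eq_mul]
  obtain ⟨t, ht1, ht2, ht3⟩ := exists_child s (F03I π κ 8) hN (by rw [hI]; exact bot_le)
    (fun x => ψ ((X * x).trace)) hH (by
      intro x hx
      rw [hI, Submodule.mem_bot] at hx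
      rw [hm, hx]
      simp)
  have hm' : ∀ y, t.m (π ^ 8 • y) = ψ (π ^ 8 * (X * y).trace) := by
    intro y
    rw [ht2]
    change ψ ((X * π ^ 8 • y).trace) = _
    rw [F03_trace]
  refine ⟨t, ?_, ?_, hm'⟩
  · intro x
    rw [ht1]
    exact Iff.rfl
  · intro f
    rw [ht3 f, hE, ← F03_stab h hψ X f t.m hm', ht2]
    exact ⟨fun h => h.2, fun h => ⟨trivial, h⟩⟩

/-- Steps from the root. -/
theorem root_step (h : IsChain o π 16) {ψ : AddChar o ℂ} (hψ : IsPrim π 16 ψ)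
    {X : Matrix κ κ o} {s : Stage (Matrix κ κ o)} (hs : IsFirst π 8 ψ X s)
    {s₀ : Stage (Matrix κ κ o)} (h1 : s₀.E = ⊤) (h2 : s₀.I = ⊥) (h3 : ∀ x, s₀.m x = 1) :
    s₀.IsStep s := by
  have hI : s.I = F03I π κ 8 := by
    ext x
    exact hs.I x
  refine ⟨?_, ?_, ?_, ?_, ?_, ?_⟩
  · rw [hI]
    exact F03_nil h.pow s₀.E h1
  · rw [h2]; exact bot_le
  · intro x hx y hy
    rw [F03_mul h.pow ((hs.I x).1 hx) ((hs.I y).1 hy)]
    exact s₀.I.zero_mem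
  · intro x _ y _
    rw [h3, h3]
  · intro x hx
    rw [h2, Submodule.mem_bot] at hx
    rw [h3, hx]
    exact s.hom.zero
  · intro f
    rw [hs.E, ← F03_stab h hψ X f s.m hs.m, h1, hI]
    exact ⟨fun h => ⟨trivial, h⟩, fun h => h.2⟩

/-- Every irreducible character lies over a first stage. HINT: `exists_step` from the root with
`I' = π^8 R` and `matrix_char_pow`. -/
theorem over_first (h : IsChain o π 16) {ψ : AddChar o ℂ} (hψ : IsPrim π 16 ψ)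
    {χ : (Matrix κ κ o)ˣ → ℂ} (hχ : χ ∈ Irr (Matrix κ κ o)ˣ) :
    ∃ (X : Matrix κ κ o) (s : Stage (Matrix κ κ o)), IsFirst π 8 ψ X s ∧ s.Over χ := by
  obtain ⟨s, hE, hI, hm⟩ := exists_root (Matrix κ κ o)
  have hleg : Legal s (F03I π κ 8) := by
    refine ⟨F03_nil h.pow s.E hE, by rw [hI]; exact bot_le, ?_, ?_⟩
    · intro x hx y hy
      rw [F03_mul h.pow hx hy]
      exact s.I.zero_mem
    · intro x _ y _
      rw [hm, hm]
  obtain ⟨t, ht1, ht2, ht3⟩ := exists_step hleg hχ (F03_over hI hχ)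
  obtain ⟨X, hX⟩ := F03_isFirst h hψ hE ht1 ht2
  exact ⟨X, t, hX, ht3⟩

/-- The family of terminal stages. PROOF: for each class of `χ` under 'over a common first stage' choose one first stage
(the given `s₀` for its own class); two first stages over which the same `χ` lies are conjugate
(`root_step`, `step_conj`), hence have the same characters over them (`conj_over`); for each chosen first stage take the
family of `partition_stage` (with `t₀` for `s₀`, with `exists_terminal` for the others); take the union; `reach_mono`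
shows that a `χ` over `ν` is over the first stage of `ν`, so uniqueness holds globally. -/
theorem family (h : IsChain o π 16) {ψ : AddChar o ℂ} (hψ : IsPrim π 16 ψ)
    {X₀ : Matrix κ κ o} {s₀ t₀ : Stage (Matrix κ κ o)} (hs₀ : IsFirst π 8 ψ X₀ s₀)
    (hr : s₀.Reach t₀) (ht : t₀.Terminal) :
    ∃ F : Set (Stage (Matrix κ κ o)), F.Finite ∧ t₀ ∈ F ∧
      (∀ ν ∈ F, ν.Terminal ∧ ∃ X s, IsFirst π 8 ψ X s ∧ s.Reach ν) ∧
      ∀ χ ∈ Irr (Matrix κ κ o)ˣ, ∃! ν, ν ∈ F ∧ ν.Over χ := by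
  obtain ⟨s, hE, hI, hm⟩ := exists_root (Matrix κ κ o)
  obtain ⟨F, hF1, hF2, hF3, hF4⟩ := F03_level s s₀ t₀ (root_step h hψ hs₀ hE hI hm) hr ht
  refine ⟨F, hF1, hF2, ?_, fun χ hχ => hF4 χ hχ (F03_over hI hχ)⟩
  intro ν hν
  obtain ⟨h1, t, h2, h3, h4⟩ := hF3 ν hν
  have hI' : t.I = F03I π κ 8 := by
    rw [h3]
    ext x
    exact hs₀.I x
  obtain ⟨X, hX⟩ := F03_isFirst h hψ hE h2 hI'
  exact ⟨h1, X, t, hX, h4⟩

/-- All stages reachable from a first stage contain the scalars and `π^8 R`, with the same `X`. -/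
theorem reach_first {ψ : AddChar o ℂ} {X : Matrix κ κ o} {s ν : Stage (Matrix κ κ o)}
    (hs : IsFirst π 8 ψ X s) (hr : s.Reach ν) :
    (∀ c : o, algebraMap o (Matrix κ κ o) c ∈ ν.E) ∧ (∀ y : Matrix κ κ o, π ^ 8 • y ∈ ν.I) ∧
      (∀ y, ν.m (π ^ 8 • y) = ψ (π ^ 8 * (X * y).trace)) ∧
      ∀ f ∈ ν.E, ∃ y, X * f - f * X = π ^ 8 • y := by
  obtain ⟨h1, h2, h3, -⟩ := reach_mono hr
  refine ⟨?_, ?_, ?_, ?_⟩
  · intro c
    have hc : ∀ x : Matrix κ κ o, algebraMap o (Matrix κ κ o) c * x =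
        x * algebraMap o (Matrix κ κ o) c := fun x => Algebra.commutes c x
    unfold Stage.Reach at hr
    clear h1 h2 h3
    induction hr with
    | refl =>
      rw [hs.E]
      exact ⟨0, by rw [hc, sub_self, smul_zero]⟩
    | tail _ hbc ih =>
      rw [hbc.stab]
      exact ⟨ih, fun x _ => by rw [hc]⟩
  · intro y
    exact h1 ((hs.I _).2 ⟨y, rfl⟩)
  · intro y
    rw [h2 _ ((hs.I _).2 ⟨y, rfl⟩), hs.m]
  · intro f hf
    exact (hs.E f).1 (h3 hf)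

end Pool.Agent.Lib.MP_fa0f6c_al.Cx
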