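import Pool.Agent.Lib.MP_fa0f6c_al.Cx.FDefs

set_option autoImplicit false

namespace Pool.Agent.Lib.MP_fa0f6c_al.Cx

/-- The standard matrix unit `(i, s), (i, t)` (tensor the identity of rank `ρ i`). -/
def munit (o : Type) [CommRing o] {b : ℕ} {n ρ : Fin b → ℕ} (i : Fin b) (s t : Fin (n i)) :
    Matrix (Idx n ρ) (Idx n ρ) o :=
  fun x y => if x.1 = i ∧ y.1 = i ∧ (x.2.1 : ℕ) = s ∧ (y.2.1 : ℕ) = t ∧ (x.2.2 : ℕ) = y.2.2
    then 1 else 0

theorem blk_munit_self (o : Type) [CommRing o] {b : ℕ} {n ρ : Fin b → ℕ} (i : Fin b)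
    (s t : Fin (n i)) : blk (munit o (ρ := ρ) i s t) i s i t = 1 := by
  ext a c
  simp [blk, munit, Matrix.one_apply, Fin.ext_iff]

theorem blk_munit_ne (o : Type) [CommRing o] {b : ℕ} {n ρ : Fin b → ℕ} (i : Fin b)
    (s t : Fin (n i)) (j : Fin b) (u : Fin (n j)) (l : Fin b) (v : Fin (n l))
    (h : ¬ (j = i ∧ l = i ∧ (u : ℕ) = s ∧ (v : ℕ) = t)) :
    blk (munit o (ρ := ρ) i s t) j u l v = 0 := by
  ext a c
  simp only [blk, munit, Matrix.zero_apply]
  rw [if_neg]
  rintro ⟨h1, h2, h3, h4, -⟩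
  exact h ⟨h1, h2, h3, h4⟩

private theorem f05_blk_ext {o : Type} {b : ℕ} {n ρ : Fin b → ℕ}
    {x y : Matrix (Idx n ρ) (Idx n ρ) o} (h : ∀ i s j t, blk x i s j t = blk y i s j t) : x = y := by
  ext ⟨i, s, a⟩ ⟨j, t, c⟩
  exact congrFun (congrFun (h i s j t) a) c

private theorem f05_blk_sum {o : Type} [CommRing o] {b : ℕ} {n ρ : Fin b → ℕ} {ι : Type*}
    (S : Finset ι) (f : ι → Matrix (Idx n ρ) (Idx n ρ) o) (i : Fin b) (s : Fin (n i)) (j : Fin b)
    (t : Fin (n j)) : blk (∑ k ∈ S, f k) i s j t = ∑ k ∈ S, blk (f k) i s j t := by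
  ext a c
  simp only [blk, Matrix.sum_apply]

private theorem f05_blk_one {o : Type} [CommRing o] {b : ℕ} {n ρ : Fin b → ℕ} (i : Fin b)
    (s : Fin (n i)) : blk (1 : Matrix (Idx n ρ) (Idx n ρ) o) i s i s = 1 := by
  ext a c
  simp [blk, Matrix.one_apply]

private theorem f05_blk_one_ne {o : Type} [CommRing o] {b : ℕ} {n ρ : Fin b → ℕ} (i : Fin b)
    (s : Fin (n i)) (j : Fin b) (t : Fin (n j)) (h : ¬ (i = j ∧ (s : ℕ) = t)) :
    blk (1 : Matrix (Idx n ρ) (Idx n ρ) o) i s j t = 0 := by
  ext a c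
  simp only [blk, Matrix.zero_apply]
  rw [Matrix.one_apply_ne]
  intro h'
  apply h
  injection h' with h1 h2
  subst h1
  have h3 := eq_of_heq h2
  injection h3 with h4 h5
  exact ⟨rfl, by rw [h4]⟩

theorem munit_sum (o : Type) [CommRing o] {b : ℕ} {n ρ : Fin b → ℕ} :
    ∑ i, ∑ s, munit o (n := n) (ρ := ρ) i s s = 1 := by
  refine f05_blk_ext fun j t l u => ?_
  rw [f05_blk_sum]
  simp only [f05_blk_sum]
  by_cases h : j = l ∧ (t : ℕ) = u
  · obtain ⟨rfl, h2⟩ := h
    have h3 : t = u := Fin.ext h2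
    subst h3
    rw [f05_blk_one, Finset.sum_eq_single j, Finset.sum_eq_single t, blk_munit_self]
    · intro s _ hs
      refine blk_munit_ne o j s s j t j t fun h => hs ?_
      exact (Fin.ext h.2.2.1).symm
    · intro h
      exact absurd (Finset.mem_univ _) h
    · intro i _ hi
      refine Finset.sum_eq_zero fun s _ => ?_
      exact blk_munit_ne o i s s j t j t fun h => hi h.1.symm
    · intro h
      exact absurd (Finset.mem_univ _) h
  · rw [f05_blk_one_ne j t l u h]
    refine Finset.sum_eq_zero fun i _ => Finset.sum_eq_zero fun s _ => ?_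
    refine blk_munit_ne o i s s j t l u fun h' => h ?_
    exact ⟨h'.1.trans h'.2.1.symm, h'.2.2.1.trans h'.2.2.2.symm⟩

private theorem f05_left {o : Type} [CommRing o] {b : ℕ} {n ρ : Fin b → ℕ}
    (x : Matrix (Idx n ρ) (Idx n ρ) o) (i : Fin b) (s s' : Fin (n i)) (k : Fin b) (v : Fin (n k)) :
    blk (munit o i s' s * x) i s' k v = blk x i s k v := by
  rw [blk_mul, Finset.sum_eq_single i, Finset.sum_eq_single s, blk_munit_self, Matrix.one_mul]
  · intro u _ hu
    rw [blk_munit_ne o i s' s i s' i u fun h => hu (Fin.ext h.2.2.2), Matrix.zero_mul]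
  · intro h
    exact absurd (Finset.mem_univ _) h
  · intro j _ hj
    refine Finset.sum_eq_zero fun u _ => ?_
    rw [blk_munit_ne o i s' s i s' j u fun h => hj h.2.1, Matrix.zero_mul]
  · intro h
    exact absurd (Finset.mem_univ _) h

private theorem f05_left_ne {o : Type} [CommRing o] {b : ℕ} {n ρ : Fin b → ℕ}
    (x : Matrix (Idx n ρ) (Idx n ρ) o) (i : Fin b) (s s' : Fin (n i)) (l : Fin b) (u : Fin (n l))
    (k : Fin b) (v : Fin (n k)) (h : ¬ (l = i ∧ (u : ℕ) = s')) :
    blk (munit o i s' s * x) l u k v = 0 := by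
  rw [blk_mul]
  refine Finset.sum_eq_zero fun j _ => Finset.sum_eq_zero fun w _ => ?_
  rw [blk_munit_ne o i s' s l u j w fun h' => h ⟨h'.1, h'.2.2.1⟩, Matrix.zero_mul]

private theorem f05_right {o : Type} [CommRing o] {b : ℕ} {n ρ : Fin b → ℕ}
    (x : Matrix (Idx n ρ) (Idx n ρ) o) (j : Fin b) (t t' : Fin (n j)) (k : Fin b) (v : Fin (n k)) :
    blk (x * munit o j t t') k v j t' = blk x k v j t := by
  rw [blk_mul, Finset.sum_eq_single j, Finset.sum_eq_single t, blk_munit_self, Matrix.mul_one]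
  · intro u _ hu
    rw [blk_munit_ne o j t t' j u j t' fun h => hu (Fin.ext h.2.2.1), Matrix.mul_zero]
  · intro h
    exact absurd (Finset.mem_univ _) h
  · intro l _ hl
    refine Finset.sum_eq_zero fun u _ => ?_
    rw [blk_munit_ne o j t t' l u j t' fun h => hl h.1, Matrix.mul_zero]
  · intro h
    exact absurd (Finset.mem_univ _) h

private theorem f05_right_ne {o : Type} [CommRing o] {b : ℕ} {n ρ : Fin b → ℕ}
    (x : Matrix (Idx n ρ) (Idx n ρ) o) (j : Fin b) (t t' : Fin (n j)) (l : Fin b) (u : Fin (n l))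
    (k : Fin b) (v : Fin (n k)) (h : ¬ (k = j ∧ (v : ℕ) = t')) :
    blk (x * munit o j t t') l u k v = 0 := by
  rw [blk_mul]
  refine Finset.sum_eq_zero fun m _ => Finset.sum_eq_zero fun w _ => ?_
  rw [blk_munit_ne o j t t' m w k v fun h' => h ⟨h'.2.1, h'.2.2.2⟩, Matrix.mul_zero]

/-- `munit * x * munit` picks out one block. -/
theorem munit_mul_mul (o : Type) [CommRing o] {b : ℕ} {n ρ : Fin b → ℕ}
    (x : Matrix (Idx n ρ) (Idx n ρ) o) (i : Fin b) (s s' : Fin (n i)) (j : Fin b)
    (t t' : Fin (n j)) :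
    blk (munit o i s' s * x * munit o j t t') i s' j t' = blk x i s j t ∧
      ∀ (l : Fin b) (u : Fin (n l)) (k : Fin b) (v : Fin (n k)),
        ¬ (l = i ∧ k = j ∧ (u : ℕ) = s' ∧ (v : ℕ) = t') →
          blk (munit o i s' s * x * munit o j t t') l u k v = 0 := by
  refine ⟨by rw [f05_right, f05_left], fun l u k v h => ?_⟩
  by_cases h1 : k = j ∧ (v : ℕ) = t'
  · obtain ⟨rfl, h2⟩ := h1
    have h3 : v = t' := Fin.ext h2
    subst h3
    rw [f05_right]
    exact f05_left_ne x i s s' l u k t fun h' => h ⟨h'.1, rfl, h'.2, rfl⟩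
  · exact f05_right_ne _ j t t' l u k v h1

private theorem f05_ite {α : Type*} [Zero α] {p q : Prop} [Decidable p] [Decidable q] (h : p ↔ q)
    (a : α) : (if p then a else 0) = if q then a else 0 := by
  by_cases hp : p
  · rw [if_pos hp, if_pos (h.mp hp)]
  · rw [if_neg hp, if_neg (fun hq => hp (h.mpr hq))]

/-- A full system of matrix units in `M_κ(o)` becomes standard in a suitable basis.
PROOF: `o^κ = ⊕ e_ss^{(i)} o^κ`; `e_00^{(i)} o^κ` is a direct summand of a free module over a local ring, hence free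
(`Module.Free` from projective + local, e.g. `Module.free_of_flat_of_isLocalRing`) of some rank `ρ i`, basis `v_a^{(i)}`; the vectors
`e_{s0}^{(i)} v_a^{(i)}` form a basis of `o^κ` indexed by `Idx n ρ`; so `|κ| = |Idx n ρ|`; choose any bijection and the matrix of the basis change. -/
theorem adapted_basis (o : Type) [CommRing o] [IsLocalRing o] [Finite o] {κ : Type} [Fintype κ]
    [DecidableEq κ] (b : ℕ) (n : Fin b → ℕ) (hn : ∀ i, 0 < n i)
    (e : ∀ i, Fin (n i) → Fin (n i) → Matrix κ κ o)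
    (h1 : ∀ i s t u, e i s t * e i t u = e i s u)
    (h2 : ∀ i s t u v, t ≠ u → e i s t * e i u v = 0)
    (h3 : ∀ i s t j u v, i ≠ j → e i s t * e j u v = 0) (h4 : ∑ i, ∑ s, e i s s = 1)
    (h5 : ∀ i s, e i s s ≠ 0) :
    ∃ (ρ : Fin b → ℕ) (ε : κ ≃ Idx n ρ) (g : (Matrix κ κ o)ˣ), (∀ i, 0 < ρ i) ∧
      ∀ i s t, Matrix.reindex ε ε ((g : Matrix κ κ o) * e i s t * ((g⁻¹ : (Matrix κ κ o)ˣ) : Matrix κ κ o)) =
        munit o i s t := by
  classical
  set z : ∀ i, Fin (n i) := fun i => ⟨0, hn i⟩ with hz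
  set E : ∀ i, Fin (n i) → Fin (n i) → ((κ → o) →ₗ[o] (κ → o)) := fun i s t => (e i s t).mulVecLin
    with hE
  have E1 : ∀ i s t u w, E i s t (E i t u w) = E i s u w := by
    intro i s t u w
    simp only [hE, Matrix.mulVecLin_apply, Matrix.mulVec_mulVec, h1]
  have E2 : ∀ i s t u v w, t ≠ u → E i s t (E i u v w) = 0 := by
    intro i s t u v w h
    simp only [hE, Matrix.mulVecLin_apply, Matrix.mulVec_mulVec, h2 i s t u v h, Matrix.zero_mulVec]
  have E3 : ∀ i s t j u v w, i ≠ j → E i s t (E j u v w) = 0 := by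
    intro i s t j u v w h
    simp only [hE, Matrix.mulVecLin_apply, Matrix.mulVec_mulVec, h3 i s t j u v h,
      Matrix.zero_mulVec]
  have E4 : ∀ w, ∑ i, ∑ s, E i s s w = w := by
    intro w
    have h : (∑ i, ∑ s, e i s s).mulVec w = w := by rw [h4, Matrix.one_mulVec]
    rw [Matrix.sum_mulVec] at h
    simp only [Matrix.sum_mulVec] at h
    simpa only [hE, Matrix.mulVecLin_apply] using h
  set P : ∀ i, Submodule o (κ → o) := fun i => LinearMap.range (E i (z i) (z i)) with hP
  have Pid : ∀ i, ∀ w ∈ P i, E i (z i) (z i) w = w := by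
    rintro i w ⟨w', rfl⟩
    exact E1 i (z i) (z i) (z i) w'
  have Pmem : ∀ i s w, E i (z i) s w ∈ P i := by
    intro i s w
    exact ⟨E i (z i) s w, E1 i (z i) (z i) s w⟩
  haveI hproj : ∀ i, Module.Projective o (P i) := by
    intro i
    refine Module.Projective.of_split (P i).subtype (E i (z i) (z i)).rangeRestrict ?_
    ext1 ⟨w, hw⟩
    exact Subtype.ext (Pid i w hw)
  haveI hfin : ∀ i, Module.Finite o (P i) := fun i => Module.Finite.range _
  haveI hfree : ∀ i, Module.Free o (P i) := fun i => Module.free_of_flat_of_isLocalRing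
  set ρ : Fin b → ℕ := fun i => Module.finrank o (P i) with hρ
  set v : ∀ i, Module.Basis (Fin (ρ i)) o (P i) := fun i => Module.finBasis o (P i) with hv
  set B0 : Idx n ρ → κ → o := fun x => E x.1 x.2.1 (z x.1) (v x.1 x.2.2 : κ → o) with hB0
  have hact : ∀ i s t (x : Idx n ρ), E i s t (B0 x) =
      if h : x.1 = i ∧ (x.2.1 : ℕ) = t then B0 ⟨i, (s, Fin.cast (by rw [h.1]) x.2.2)⟩ else 0 := by
    rintro i s t ⟨j, u, a⟩
    by_cases h : j = i ∧ (u : ℕ) = t
    · obtain ⟨rfl, h'⟩ := h
      have h'' : u = t := Fin.ext h'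
      subst h''
      rw [dif_pos ⟨rfl, rfl⟩]
      simp only [hB0]
      rw [E1]
      rfl
    · rw [dif_neg h]
      simp only [hB0]
      by_cases hji : i = j
      · subst hji
        exact E2 _ _ _ _ _ _ fun h' => h ⟨rfl, by rw [h']⟩
      · exact E3 _ _ _ _ _ _ _ hji
  have hli : LinearIndependent o B0 := by
    rw [Fintype.linearIndependent_iff]
    rintro c hc ⟨i, s, a⟩
    have h6 : ∑ a, c ⟨i, (s, a)⟩ • (v i a : κ → o) = 0 := by
      have h7 := congrArg (E i (z i) s) hc
      rw [map_sum, map_zero] at h7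
      rw [← h7, Fintype.sum_sigma, Finset.sum_eq_single i, Fintype.sum_prod_type,
        Finset.sum_eq_single s]
      · refine Finset.sum_congr rfl fun a _ => ?_
        rw [map_smul, hact, dif_pos ⟨rfl, rfl⟩]
        congr 1
        simp only [hB0]
        exact (Pid i _ (v i a).2).symm
      · intro t _ ht
        refine Finset.sum_eq_zero fun a _ => ?_
        rw [map_smul, hact, dif_neg (fun h => ht (Fin.ext h.2)), smul_zero]
      · intro h
        exact absurd (Finset.mem_univ _) h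
      · intro j _ hj
        refine Finset.sum_eq_zero fun y _ => ?_
        rw [map_smul, hact, dif_neg (fun h => hj h.1), smul_zero]
      · intro h
        exact absurd (Finset.mem_univ _) h
    have h8 : ∑ a, c ⟨i, (s, a)⟩ • v i a = 0 := by
      apply Subtype.ext
      rw [AddSubmonoidClass.coe_finsetSum]
      exact h6
    exact Fintype.linearIndependent_iff.mp (v i).linearIndependent _ h8 a
  have hsp : ⊤ ≤ Submodule.span o (Set.range B0) := by
    intro w _
    rw [← E4 w]
    refine Submodule.sum_mem _ fun i _ => Submodule.sum_mem _ fun s _ => ?_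
    rw [← E1 i s (z i) s w]
    have h6 : E i (z i) s w = ∑ a, (v i).repr ⟨E i (z i) s w, Pmem i s w⟩ a • (v i a : κ → o) := by
      have h7 := congrArg (fun y : P i => (y : κ → o)) ((v i).sum_repr ⟨E i (z i) s w, Pmem i s w⟩)
      simp only [AddSubmonoidClass.coe_finsetSum, Submodule.coe_smul] at h7
      exact h7.symm
    rw [h6, map_sum]
    refine Submodule.sum_mem _ fun a _ => ?_
    rw [map_smul]
    exact Submodule.smul_mem _ _ (Submodule.subset_span ⟨⟨i, (s, a)⟩, rfl⟩)
  set B : Module.Basis (Idx n ρ) o (κ → o) := Module.Basis.mk hli hsp with hB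
  have hBx : ∀ x, B x = B0 x := fun x => by rw [hB, Module.Basis.mk_apply]
  set std : Module.Basis κ o (κ → o) := Pi.basisFun o κ with hstd
  set ε : κ ≃ Idx n ρ := std.indexEquiv B with hε
  set B2 : Module.Basis κ o (κ → o) := B.reindex ε.symm with hB2
  refine ⟨ρ, ε, ⟨B2.toMatrix std, std.toMatrix B2, Module.Basis.toMatrix_mul_toMatrix_flip _ _,
    Module.Basis.toMatrix_mul_toMatrix_flip _ _⟩, ?_, ?_⟩
  · intro i
    by_contra h0
    have h0' : ρ i = 0 := by omega
    have hsub : ∀ w : P i, w = 0 := by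
      intro w
      rw [← (v i).sum_repr w]
      refine Finset.sum_eq_zero fun a _ => ?_
      exact absurd a.2 (by omega)
    apply h5 i (z i)
    have h6 : E i (z i) (z i) = 0 := LinearMap.ext fun w =>
      congrArg (fun y : P i => (y : κ → o)) (hsub ⟨E i (z i) (z i) w, Pmem i _ _⟩)
    ext x y
    have h8 := congrFun (LinearMap.congr_fun h6 (Pi.single y 1)) x
    simpa [hE] using h8
  · intro i s t
    change Matrix.reindex ε ε (B2.toMatrix std * e i s t * std.toMatrix B2) = munit o i s t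
    have h6 : e i s t = LinearMap.toMatrix std std (E i s t) := by
      simp only [hE, hstd]
      rw [LinearMap.toMatrix_eq_toMatrix', ← Matrix.toLin'_apply', LinearMap.toMatrix'_toLin']
    rw [h6, basis_toMatrix_mul_linearMap_toMatrix_mul_basis_toMatrix]
    ext x y
    rw [Matrix.reindex_apply, Matrix.submatrix_apply, LinearMap.toMatrix_apply]
    have h7 : B2 (ε.symm y) = B0 y := by
      rw [hB2, Module.Basis.reindex_apply, Equiv.symm_symm, Equiv.apply_symm_apply, hBx]
    rw [h7, hact, hB2, Module.Basis.repr_reindex_apply, Equiv.symm_symm, Equiv.apply_symm_apply]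
    obtain ⟨j, u, a⟩ := y
    obtain ⟨k, w, c⟩ := x
    by_cases h : j = i ∧ (u : ℕ) = t
    · obtain ⟨rfl, h'⟩ := h
      have h'' : u = t := Fin.ext h'
      subst h''
      rw [dif_pos ⟨rfl, rfl⟩, ← hBx, Module.Basis.repr_self, Finsupp.single_apply]
      change _ = (if k = j ∧ j = j ∧ (w : ℕ) = s ∧ (u : ℕ) = u ∧ (c : ℕ) = a then (1 : o) else 0)
      refine f05_ite ?_ 1
      constructor
      · intro h
        injection h with h9 h10
        subst h9
        have h11 := eq_of_heq h10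
        injection h11 with h12 h13
        subst h12
        subst h13
        exact ⟨rfl, rfl, rfl, rfl, rfl⟩
      · rintro ⟨h9, -, h10, -, h11⟩
        subst h9
        have h12 : w = s := Fin.ext h10
        have h13 : c = a := Fin.ext h11
        subst h12
        subst h13
        rfl
    · rw [dif_neg h, map_zero, Finsupp.zero_apply]
      simp only [munit]
      rw [if_neg]
      rintro ⟨-, h9, -, h10, -⟩
      exact h ⟨h9, h10⟩

end Pool.Agent.Lib.MP_fa0f6c_al.Cx
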