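import Pool.Agent.Lib.MP_fa0f6c_al.Cx.F04
import Pool.Agent.Lib.MP_fa0f6c_al.Cx.F05

set_option autoImplicit false

namespace Pool.Agent.Lib.MP_fa0f6c_al.Cx

section blocks

variable {o : Type} [CommRing o] {b : ℕ} {n ρ : Fin b → ℕ}

/-- a block as a linear map -/
private def F06_blk (i : Fin b) (s : Fin (n i)) (j : Fin b) (t : Fin (n j)) :
    Matrix (Idx n ρ) (Idx n ρ) o →ₗ[o] Matrix (Fin (ρ i)) (Fin (ρ j)) o where
  toFun y := blk y i s j t
  map_add' _ _ := rfl
  map_smul' _ _ := rfl

omit [CommRing o] in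
private theorem F06_ext {x y : Matrix (Idx n ρ) (Idx n ρ) o}
    (h : ∀ i s j t, blk x i s j t = blk y i s j t) : x = y := by
  ext ⟨i, s, a⟩ ⟨j, t, c⟩
  exact congrFun (congrFun (h i s j t) a) c

private theorem F06_move (x y : Matrix (Idx n ρ) (Idx n ρ) o) (i : Fin b) (s s' s'' : Fin (n i))
    (j : Fin b) (t t' t'' : Fin (n j)) (h : blk x i s j t = blk y i s' j t') :
    munit o i s'' s * x * munit o j t t'' = munit o i s'' s' * y * munit o j t' t'' := by
  apply F06_ext
  intro l u k v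
  by_cases hc : l = i ∧ k = j ∧ (u : ℕ) = s'' ∧ (v : ℕ) = t''
  · obtain ⟨rfl, rfl, hu, hv⟩ := hc
    obtain rfl := Fin.ext hu
    obtain rfl := Fin.ext hv
    rw [(munit_mul_mul o x _ s _ _ t _).1, (munit_mul_mul o y _ s' _ _ t' _).1, h]
  · rw [(munit_mul_mul o x i s s'' j t t'').2 l u k v hc,
      (munit_mul_mul o y i s' s'' j t' t'').2 l u k v hc]

private theorem F06_mul (x z : Matrix (Idx n ρ) (Idx n ρ) o) (i : Fin b) (s : Fin (n i))
    (j : Fin b) (t : Fin (n j)) (l : Fin b) (v : Fin (n l)) :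
    blk (munit o i s s * x * munit o j t t * z) i s l v = blk x i s j t * blk z j t l v := by
  rw [blk_mul, Finset.sum_eq_single j, Finset.sum_eq_single t]
  · rw [(munit_mul_mul o x i s s j t t).1]
  · intro u _ hu
    rw [(munit_mul_mul o x i s s j t t).2 i s j u, Matrix.zero_mul]
    rintro ⟨-, -, -, h⟩
    exact hu (Fin.ext h)
  · intro h
    exact absurd (Finset.mem_univ _) h
  · intro k _ hk
    refine Finset.sum_eq_zero fun u _ => ?_
    rw [(munit_mul_mul o x i s s j t t).2 i s k u, Matrix.zero_mul]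
    rintro ⟨-, h, -⟩
    exact hk h
  · intro h
    exact absurd (Finset.mem_univ _) h

private theorem F06_sum (x : Matrix (Idx n ρ) (Idx n ρ) o) :
    x = ∑ i, ∑ s, ∑ j, ∑ t, munit o i s s * x * munit o j t t := by
  have h := munit_sum o (n := n) (ρ := ρ)
  calc x = 1 * x * 1 := by rw [one_mul, mul_one]
    _ = (∑ i, ∑ s, munit o (n := n) (ρ := ρ) i s s) * x *
        (∑ j, ∑ t, munit o (n := n) (ρ := ρ) j t t) := by rw [h]
    _ = _ := by
      rw [Finset.sum_mul, Finset.sum_mul]
      refine Finset.sum_congr rfl fun i _ => ?_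
      rw [Finset.sum_mul, Finset.sum_mul]
      refine Finset.sum_congr rfl fun s _ => ?_
      rw [Finset.mul_sum]
      refine Finset.sum_congr rfl fun j _ => ?_
      rw [Finset.mul_sum]

end blocks

section core

variable {o : Type} [CommRing o] {b : ℕ} {n ρ : Fin b → ℕ}

private theorem F06_core {R : Type} [Ring R] [Algebra o R] (hn : ∀ i, 0 < n i)
    (Ψ : Matrix (Idx n ρ) (Idx n ρ) o ≃ₐ[o] R) (E : Subring R) (J : Submodule ℤ R)
    (hJ : IsNilIdeal E J) (hsc : ∀ c : o, algebraMap o R c ∈ E) (F : Fin b → Type)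
    [∀ i, Field (F i)] (φ : E →+* (∀ i, Matrix (Fin (n i)) (Fin (n i)) (F i)))
    (hφ : Function.Surjective φ) (hker : ∀ x : E, φ x = 0 ↔ (x : R) ∈ J)
    (e : ∀ i, Fin (n i) → Fin (n i) → E)
    (he : ∀ i s t, φ (e i s t) = Pi.single i (Matrix.single s t 1))
    (hΨ : ∀ i s t, Ψ (munit o i s t) = e i s t) :
    ∃ S : Corners o ρ, (∀ y, Ψ y ∈ E ↔ y ∈ S.ring n) ∧ (∀ y, Ψ y ∈ J ↔ y ∈ S.rad n) := by
  classical
  let z : ∀ i, Fin (n i) := fun i => ⟨0, hn i⟩
  -- the two submodules
  let E' : Submodule o (Matrix (Idx n ρ) (Idx n ρ) o) :=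
    { carrier := {y | Ψ y ∈ E}
      zero_mem' := by
        change Ψ 0 ∈ E
        rw [map_zero]; exact E.zero_mem
      add_mem' := by
        intro x y hx hy
        change Ψ (x + y) ∈ E
        rw [map_add]; exact E.add_mem hx hy
      smul_mem' := by
        intro c x hx
        change Ψ (c • x) ∈ E
        rw [map_smul, Algebra.smul_def]; exact E.mul_mem (hsc c) hx }
  let J' : Submodule o (Matrix (Idx n ρ) (Idx n ρ) o) :=
    { carrier := {y | Ψ y ∈ J}
      zero_mem' := by
        change Ψ 0 ∈ J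
        rw [map_zero]; exact J.zero_mem
      add_mem' := by
        intro x y hx hy
        change Ψ (x + y) ∈ J
        rw [map_add]; exact J.add_mem hx hy
      smul_mem' := by
        intro c x hx
        change Ψ (c • x) ∈ J
        rw [map_smul, Algebra.smul_def]; exact hJ.mulL _ (hsc c) _ hx }
  have hE' : ∀ y, y ∈ E' ↔ Ψ y ∈ E := fun y => Iff.rfl
  have hJ' : ∀ y, y ∈ J' ↔ Ψ y ∈ J := fun y => Iff.rfl
  have heE : ∀ i s t, Ψ (munit o i s t) ∈ E := fun i s t => by rw [hΨ]; exact (e i s t).2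
  have hΨ3 : ∀ i s s' (y : Matrix (Idx n ρ) (Idx n ρ) o) j t t',
      Ψ (munit o i s s' * y * munit o j t t') = (e i s s' : R) * Ψ y * (e j t t' : R) := by
    intro i s s' y j t t'
    rw [map_mul, map_mul, hΨ, hΨ]
  have h3E : ∀ i s s' (y : Matrix (Idx n ρ) (Idx n ρ) o) j t t', Ψ y ∈ E →
      Ψ (munit o i s s' * y * munit o j t t') ∈ E := by
    intro i s s' y j t t' hy
    rw [hΨ3]
    exact E.mul_mem (E.mul_mem (e i s s').2 hy) (e j t t').2
  have h3J : ∀ i s s' (y : Matrix (Idx n ρ) (Idx n ρ) o) j t t', Ψ y ∈ J →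
      Ψ (munit o i s s' * y * munit o j t t') ∈ J := by
    intro i s s' y j t t' hy
    rw [hΨ3]
    exact hJ.mulR _ (e j t t').2 _ (hJ.mulL _ (e i s s').2 _ hy)
  -- off-diagonal parts are in `J`
  have hoff : ∀ i s s' (y : Matrix (Idx n ρ) (Idx n ρ) o) j t t', Ψ y ∈ E → i ≠ j →
      Ψ (munit o i s s' * y * munit o j t t') ∈ J := by
    intro i s s' y j t t' hy hij
    rw [hΨ3]
    have h1 : (((e i s s' * ⟨Ψ y, hy⟩ * e j t t' : E)) : R) ∈ J := by
      rw [← hker, map_mul, map_mul, he, he]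
      funext k
      rw [Pi.mul_apply, Pi.mul_apply, Pi.zero_apply]
      by_cases hk : k = i
      · subst hk
        rw [Pi.single_eq_of_ne hij, mul_zero]
      · rw [Pi.single_eq_of_ne hk, zero_mul, zero_mul]
    exact h1
  -- diagonal parts
  let U : ∀ i, F i → (∀ k, Matrix (Fin (n k)) (Fin (n k)) (F k)) :=
    fun i a => Pi.single i (Matrix.single (z i) (z i) a)
  have hUe : ∀ i, φ (e i (z i) (z i)) = U i 1 := fun i => he i _ _
  have hUmul : ∀ i a c, U i a * U i c = U i (a * c) := by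
    intro i a c
    funext k
    rw [Pi.mul_apply]
    by_cases hk : k = i
    · subst hk
      simp only [U, Pi.single_eq_same]
      rw [Matrix.single_mul_single_same]
    · simp only [U, Pi.single_eq_of_ne hk, zero_mul]
  have hUsub : ∀ i a c, U i a - U i c = U i (a - c) := by
    intro i a c
    funext k
    rw [Pi.sub_apply]
    by_cases hk : k = i
    · subst hk
      simp only [U, Pi.single_eq_same]
      ext p q
      simp only [Matrix.sub_apply, Matrix.single_apply]
      split_ifs <;> simp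
    · simp only [U, Pi.single_eq_of_ne hk, sub_zero]
  have hU0 : ∀ i, U i 0 = 0 := by
    intro i
    simp only [U, Matrix.single_zero, Pi.single_zero]
  have hU1 : ∀ i, U i 1 ≠ 0 := by
    intro i h
    have h1 := congrFun (congrFun (congrFun h i) (z i)) (z i)
    simp only [U, Pi.single_eq_same, Matrix.single_apply_same, Pi.zero_apply,
      Matrix.zero_apply] at h1
    exact one_ne_zero h1
  have hdiag : ∀ i (v : E), φ (e i (z i) (z i) * v * e i (z i) (z i)) =
      U i (φ v i (z i) (z i)) := by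
    intro i v
    rw [map_mul, map_mul, he]
    funext k
    rw [Pi.mul_apply, Pi.mul_apply]
    by_cases hk : k = i
    · subst hk
      simp only [U, Pi.single_eq_same]
      rw [Matrix.single_mul_mul_single, one_mul, mul_one]
    · simp only [U, Pi.single_eq_of_ne hk, zero_mul]
  -- the corner element
  obtain ⟨cor, hcor⟩ : ∃ cor : Fin b → Matrix (Idx n ρ) (Idx n ρ) o → Matrix (Idx n ρ) (Idx n ρ) o,
      ∀ i y, cor i y = munit o i (z i) (z i) * y * munit o i (z i) (z i) :=
    ⟨_, fun _ _ => rfl⟩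
  have hcorE : ∀ i y, Ψ y ∈ E → Ψ (cor i y) ∈ E := fun i y hy => by
    rw [hcor]; exact h3E _ _ _ _ _ _ _ hy
  have hcorJ : ∀ i y, Ψ y ∈ J → Ψ (cor i y) ∈ J := fun i y hy => by
    rw [hcor]; exact h3J _ _ _ _ _ _ _ hy
  have hcormul : ∀ i x y, blk (cor i x * y) i (z i) i (z i) =
      blk x i (z i) i (z i) * blk y i (z i) i (z i) := fun i x y => by
    rw [hcor]; exact F06_mul x y i (z i) i (z i) i (z i)
  have hcorφ : ∀ i y (hy : Ψ y ∈ E), φ ⟨Ψ (cor i y), hcorE i y hy⟩ =
      U i (φ ⟨Ψ y, hy⟩ i (z i) (z i)) := by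
    intro i y hy
    rw [← hdiag]
    congr 1
    apply Subtype.ext
    change Ψ (cor i y) = _
    rw [hcor]
    exact hΨ3 _ _ _ _ _ _ _
  have hcorblk : ∀ i y, blk (cor i y) i (z i) i (z i) = blk y i (z i) i (z i) :=
    fun i y => by
      rw [hcor]; exact (munit_mul_mul o y i (z i) (z i) i (z i) (z i)).1
  -- the corners
  let C : ∀ i j : Fin b, Submodule o (Matrix (Fin (ρ i)) (Fin (ρ j)) o) :=
    fun i j => E'.map (F06_blk i (z i) j (z j))
  let Jc : ∀ i : Fin b, Submodule o (Matrix (Fin (ρ i)) (Fin (ρ i)) o) :=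
    fun i => J'.map (F06_blk i (z i) i (z i))
  have hC : ∀ i j A, A ∈ C i j ↔ ∃ y, Ψ y ∈ E ∧ blk y i (z i) j (z j) = A := fun i j A => Iff.rfl
  have hJc : ∀ i A, A ∈ Jc i ↔ ∃ y, Ψ y ∈ J ∧ blk y i (z i) i (z i) = A := fun i A => Iff.rfl
  -- membership in `J` via `φ`
  have hmemJ : ∀ y (hy : Ψ y ∈ E), φ ⟨Ψ y, hy⟩ = 0 → Ψ y ∈ J := fun y hy h => (hker _).1 h
  let S : Corners o ρ :=
    { C := C
      J := Jc
      one_mem := by
        intro i
        exact (hC _ _ _).2 ⟨munit o i (z i) (z i), heE _ _ _, blk_munit_self o i _ _⟩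
      mul_mem := by
        intro i j l x hx y hy
        obtain ⟨x', hx', rfl⟩ := (hC _ _ _).1 hx
        obtain ⟨y', hy', rfl⟩ := (hC _ _ _).1 hy
        refine (hC _ _ _).2 ⟨munit o i (z i) (z i) * x' * munit o j (z j) (z j) * y', ?_,
          F06_mul x' y' i (z i) j (z j) l (z l)⟩
        rw [map_mul]
        exact E.mul_mem (h3E _ _ _ _ _ _ _ hx') hy'
      J_le := by
        intro i x hx
        obtain ⟨x', hx', rfl⟩ := (hJc _ _).1 hx
        exact (hC _ _ _).2 ⟨x', hJ.le _ hx', rfl⟩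
      J_mulL := by
        intro i x hx y hy
        obtain ⟨x', hx', rfl⟩ := (hC _ _ _).1 hx
        obtain ⟨y', hy', rfl⟩ := (hJc _ _).1 hy
        refine (hJc _ _).2 ⟨munit o i (z i) (z i) * x' * munit o i (z i) (z i) * y', ?_,
          F06_mul x' y' i (z i) i (z i) i (z i)⟩
        rw [map_mul]
        exact hJ.mulL _ (h3E _ _ _ _ _ _ _ hx') _ hy'
      J_mulR := by
        intro i x hx y hy
        obtain ⟨x', hx', rfl⟩ := (hC _ _ _).1 hx
        obtain ⟨y', hy', rfl⟩ := (hJc _ _).1 hy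
        refine (hJc _ _).2 ⟨munit o i (z i) (z i) * y' * munit o i (z i) (z i) * x', ?_,
          F06_mul y' x' i (z i) i (z i) i (z i)⟩
        rw [map_mul]
        exact hJ.mulR _ hx' _ (h3J _ _ _ _ _ _ _ hy')
      J_off := by
        intro i j hij x hx y hy
        obtain ⟨x', hx', rfl⟩ := (hC _ _ _).1 hx
        obtain ⟨y', hy', rfl⟩ := (hC _ _ _).1 hy
        refine (hJc _ _).2 ⟨munit o i (z i) (z i) * x' * munit o j (z j) (z j) * y', ?_,
          F06_mul x' y' i (z i) j (z j) i (z i)⟩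
        rw [map_mul]
        exact hJ.mulR _ hy' _ (hoff _ _ _ _ _ _ _ hx' hij)
      one_notMem := by
        intro i h
        obtain ⟨y, hy, h1⟩ := (hJc _ _).1 h
        have h2 : cor i y = cor i 1 := by
          rw [hcor, hcor]
          refine F06_move y 1 i _ _ _ i _ _ _ ?_
          rw [h1]
          ext a c
          simp [blk, Matrix.one_apply]
        have h3 : Ψ (cor i y) ∈ J := hcorJ _ _ hy
        have h1E : Ψ (1 : Matrix (Idx n ρ) (Idx n ρ) o) ∈ E := by
          rw [map_one]; exact E.one_mem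
        rw [h2] at h3
        have h4 := (hker ⟨Ψ (cor i 1), hcorE i 1 h1E⟩).2 h3
        rw [hcorφ i 1 h1E] at h4
        have h5 : (⟨Ψ 1, h1E⟩ : E) = 1 := Subtype.ext (map_one Ψ)
        rw [h5, map_one, Pi.one_apply, Matrix.one_apply_eq] at h4
        exact hU1 i h4
      comm := by
        intro i x hx y hy
        obtain ⟨x', hx', rfl⟩ := (hC _ _ _).1 hx
        obtain ⟨y', hy', rfl⟩ := (hC _ _ _).1 hy
        refine (hJc _ _).2 ⟨cor i x' * cor i y' - cor i y' * cor i x', ?_, ?_⟩
        · have hE1 : Ψ (cor i x' * cor i y' - cor i y' * cor i x') ∈ E := by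
            rw [map_sub, map_mul, map_mul]
            exact E.sub_mem (E.mul_mem (hcorE _ _ hx') (hcorE _ _ hy'))
              (E.mul_mem (hcorE _ _ hy') (hcorE _ _ hx'))
          apply hmemJ _ hE1
          have h1 : (⟨Ψ (cor i x' * cor i y' - cor i y' * cor i x'), hE1⟩ : E) =
              ⟨Ψ (cor i x'), hcorE _ _ hx'⟩ * ⟨Ψ (cor i y'), hcorE _ _ hy'⟩ -
              ⟨Ψ (cor i y'), hcorE _ _ hy'⟩ * ⟨Ψ (cor i x'), hcorE _ _ hx'⟩ := by
            apply Subtype.ext
            change Ψ _ = Ψ (cor i x') * Ψ (cor i y') - Ψ (cor i y') * Ψ (cor i x')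
            rw [map_sub, map_mul, map_mul]
          rw [h1, map_sub, map_mul, map_mul, hcorφ i x' hx', hcorφ i y' hy', hUmul, hUmul,
            hUsub, mul_comm, sub_self, hU0]
        · have h1 : blk (cor i x' * cor i y' - cor i y' * cor i x') i (z i) i (z i) =
              blk (cor i x' * cor i y') i (z i) i (z i) -
                blk (cor i y' * cor i x') i (z i) i (z i) := rfl
          rw [h1, hcormul, hcormul, hcorblk, hcorblk]
      unit := by
        intro i x hx hxJ
        obtain ⟨x', hx', rfl⟩ := (hC _ _ _).1 hx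
        set a : F i := φ ⟨Ψ x', hx'⟩ i (z i) (z i) with ha
        have ha0 : a ≠ 0 := by
          intro h0
          apply hxJ
          refine (hJc _ _).2 ⟨cor i x', ?_, hcorblk i x'⟩
          apply hmemJ _ (hcorE i x' hx')
          rw [hcorφ i x' hx', ← ha, h0, hU0]
        obtain ⟨w, hw⟩ := hφ (U i a⁻¹)
        have hw' : Ψ (Ψ.symm (w : R)) = (w : R) := Ψ.apply_symm_apply _
        have hwE : Ψ (Ψ.symm (w : R)) ∈ E := by rw [hw']; exact w.2
        have hwφ : φ ⟨Ψ (Ψ.symm (w : R)), hwE⟩ i (z i) (z i) = a⁻¹ := by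
          have h1 : (⟨Ψ (Ψ.symm (w : R)), hwE⟩ : E) = w := Subtype.ext hw'
          rw [h1, hw]
          simp only [U, Pi.single_eq_same, Matrix.single_apply_same]
        set y' := Ψ.symm (w : R) with hy'
        have hone : blk (munit o (n := n) (ρ := ρ) i (z i) (z i)) i (z i) i (z i) = 1 :=
          blk_munit_self o i _ _
        have hmE := heE i (z i) (z i)
        have hmφ : φ ⟨Ψ (munit o i (z i) (z i)), hmE⟩ = U i 1 := by
          rw [← hUe]
          congr 1
          exact Subtype.ext (hΨ _ _ _)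
        have key : ∀ p q (hp : Ψ p ∈ E) (hq : Ψ q ∈ E),
            φ ⟨Ψ p, hp⟩ i (z i) (z i) * φ ⟨Ψ q, hq⟩ i (z i) (z i) = 1 →
            blk p i (z i) i (z i) * blk q i (z i) i (z i) - 1 ∈ Jc i := by
          intro p q hp hq hpq
          refine (hJc _ _).2 ⟨cor i p * cor i q - munit o i (z i) (z i), ?_, ?_⟩
          · have hE1 : Ψ (cor i p * cor i q - munit o i (z i) (z i)) ∈ E := by
              rw [map_sub, map_mul]
              exact E.sub_mem (E.mul_mem (hcorE _ _ hp) (hcorE _ _ hq)) hmE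
            apply hmemJ _ hE1
            have h1 : (⟨Ψ (cor i p * cor i q - munit o i (z i) (z i)), hE1⟩ : E) =
                ⟨Ψ (cor i p), hcorE _ _ hp⟩ * ⟨Ψ (cor i q), hcorE _ _ hq⟩ -
                ⟨Ψ (munit o i (z i) (z i)), hmE⟩ := by
              apply Subtype.ext
              change Ψ _ = Ψ (cor i p) * Ψ (cor i q) - Ψ (munit o i (z i) (z i))
              rw [map_sub, map_mul]
            rw [h1, map_sub, map_mul, hcorφ i p hp, hcorφ i q hq, hUmul, hmφ, hUsub, hpq,
              sub_self, hU0]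
          · have h1 : blk (cor i p * cor i q - munit o i (z i) (z i)) i (z i) i (z i) =
                blk (cor i p * cor i q) i (z i) i (z i) -
                  blk (munit o (n := n) (ρ := ρ) i (z i) (z i)) i (z i) i (z i) := rfl
            rw [h1, hone, hcormul, hcorblk]
        refine ⟨blk y' i (z i) i (z i), (hC _ _ _).2 ⟨y', hwE, rfl⟩, ?_, ?_⟩
        · exact key x' y' hx' hwE (by rw [hwφ, ← ha, mul_inv_cancel₀ ha0])
        · exact key y' x' hwE hx' (by rw [hwφ, ← ha, inv_mul_cancel₀ ha0])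
      nil := by
        intro i x hx
        obtain ⟨x', hx', rfl⟩ := (hJc _ _).1 hx
        obtain ⟨k, hk⟩ := hJ.nil
        have h1 : ∀ m : ℕ, blk ((cor i x') ^ m) i (z i) i (z i) =
            (blk x' i (z i) i (z i)) ^ m := by
          intro m
          induction m with
          | zero =>
            rw [pow_zero, pow_zero]
            ext a c
            simp [blk, Matrix.one_apply]
          | succ m ih =>
            rw [pow_succ', pow_succ', hcormul, ih]
        refine ⟨k, ?_⟩
        rw [← h1]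
        have h3 : Ψ (cor i x') ∈ J := hcorJ _ _ hx'
        have h4 : Ψ ((cor i x') ^ k) = 0 := by
          have h5 : (Ψ (cor i x')) ^ k ∈ J ^ k := Submodule.pow_mem_pow J h3 k
          rw [hk] at h5
          rw [map_pow]
          simpa using h5
        have h5 : (cor i x') ^ k = 0 := by
          apply Ψ.injective
          rw [h4, map_zero]
        rw [h5]
        rfl }
  have hSC : S.C = C := rfl
  have hSJ : S.J = Jc := rfl
  -- membership in `E`
  have hmemE : ∀ y, Ψ y ∈ E ↔ ∀ i s j t, blk y i s j t ∈ C i j := by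
    intro y
    constructor
    · intro hy i s j t
      exact (hC _ _ _).2 ⟨munit o i (z i) s * y * munit o j t (z j), h3E _ _ _ _ _ _ _ hy,
        (munit_mul_mul o y i s (z i) j t (z j)).1⟩
    · intro hy
      rw [F06_sum y]
      simp only [map_sum]
      refine E.sum_mem fun i _ => E.sum_mem fun s _ => E.sum_mem fun j _ => E.sum_mem fun t _ => ?_
      obtain ⟨y', hy', h1⟩ := (hC _ _ _).1 (hy i s j t)
      rw [F06_move y y' i s (z i) s j t (z j) t h1.symm]
      exact h3E _ _ _ _ _ _ _ hy'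
  refine ⟨S, fun y => hmemE y, fun y => ?_⟩
  change _ ↔ (∀ i s j t, blk y i s j t ∈ C i j) ∧ ∀ i s t, blk y i s i t ∈ Jc i
  constructor
  · intro hy
    refine ⟨(hmemE y).1 (hJ.le _ hy), fun i s t => ?_⟩
    exact (hJc _ _).2 ⟨munit o i (z i) s * y * munit o i t (z i), h3J _ _ _ _ _ _ _ hy,
      (munit_mul_mul o y i s (z i) i t (z i)).1⟩
  · rintro ⟨hy, hy2⟩
    have hyE : Ψ y ∈ E := (hmemE y).2 hy
    rw [F06_sum y]
    simp only [map_sum]
    refine J.sum_mem fun i _ => J.sum_mem fun s _ => J.sum_mem fun j _ => J.sum_mem fun t _ => ?_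
    by_cases hij : i = j
    · subst hij
      obtain ⟨y', hy', h1⟩ := (hJc _ _).1 (hy2 i s t)
      rw [F06_move y y' i s (z i) s i t (z i) t h1.symm]
      exact h3J _ _ _ _ _ _ _ hy'
    · exact hoff _ _ _ _ _ _ _ hyE hij

/-- conjugation by a unit -/
private def F06_conj {R : Type} [Ring R] [Algebra o R] (g : Rˣ) : R ≃ₐ[o] R :=
  { toFun := fun x => (g : R) * x * ((g⁻¹ : Rˣ) : R)
    invFun := fun x => ((g⁻¹ : Rˣ) : R) * x * (g : R)
    left_inv := by
      intro x
      simp [mul_assoc]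
    right_inv := by
      intro x
      simp [mul_assoc]
    map_mul' := by
      intro x y
      simp [mul_assoc]
    map_add' := by
      intro x y
      simp [mul_add, add_mul]
    commutes' := by
      intro c
      rw [← Algebra.commutes, mul_assoc, Units.mul_inv, mul_one] }

end core

/-- Standard form (blueprint section 2). PROOF: `wedderburn`, `lift_units`, `adapted_basis`. After the change of basis `E` contains all
`munit i s t`; put `C i j := {blk x i 0 j 0 | x ∈ E}` (`o`-submodule because of `hsc`), `J i := {blk x i 0 i 0 | x ∈ J}`. `munit_mul_mul` shows that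
`x ∈ E` iff all blocks are in `C i j` (the block at `(i,s),(j,t)` can be moved to `(0,0)` and back), similarly for `J` (the blocks of an element of `J` at
`(i,s),(j,t)`, `i ≠ j`, are arbitrary elements of `C i j`: `φ` of an element supported there is `0`). `C i i / J i ≅ F i` by `φ` at the entry `(0,0)`. -/
theorem std_form {o : Type} [CommRing o] [IsLocalRing o] [Finite o] {κ : Type} [Fintype κ]
    [DecidableEq κ] [Nonempty κ] (E : Subring (Matrix κ κ o)) (J : Submodule ℤ (Matrix κ κ o))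
    (hJ : IsNilIdeal E J) (hmax : ∀ K, IsNilIdeal E K → K ≤ J)
    (hsc : ∀ c : o, algebraMap o (Matrix κ κ o) c ∈ E) :
    ∃ (b : ℕ) (n ρ : Fin b → ℕ) (S : Corners o ρ) (ε : κ ≃ Idx n ρ) (g : (Matrix κ κ o)ˣ),
      (∀ i, 0 < n i) ∧ (∀ i, 0 < ρ i) ∧
      (∀ x : Matrix κ κ o, x ∈ E ↔ Matrix.reindex ε ε ((g : Matrix κ κ o) * x *
        ((g⁻¹ : (Matrix κ κ o)ˣ) : Matrix κ κ o)) ∈ S.ring n) ∧
      (∀ x : Matrix κ κ o, x ∈ J ↔ Matrix.reindex ε ε ((g : Matrix κ κ o) * x *
        ((g⁻¹ : (Matrix κ κ o)ˣ) : Matrix κ κ o)) ∈ S.rad n) := by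
  have hfin : Finite (Matrix κ κ o) := inferInstance
  obtain ⟨b, n, F, hF, hFf, φ, hn, hφ, hker⟩ := wedderburn E J hJ hmax
  obtain ⟨e, he, e1, e2, e3, e4⟩ := lift_units E J hJ b n F φ hφ hker
  have hne : ∀ i s, ((e i s s : E) : Matrix κ κ o) ≠ 0 := by
    intro i s h
    have h1 : e i s s = 0 := Subtype.ext h
    have h2 := he i s s
    rw [h1, map_zero] at h2
    have h3 := congrFun (congrFun (congrFun h2 i) s) s
    simp only [Pi.single_eq_same, Matrix.single_apply_same, Pi.zero_apply,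
      Matrix.zero_apply] at h3
    exact zero_ne_one h3
  obtain ⟨ρ, ε, g, hρ, hg⟩ := adapted_basis o b n hn (fun i s t => (e i s t : Matrix κ κ o))
    (fun i s t u => by
      have := congrArg Subtype.val (e1 i s t u)
      simpa using this)
    (fun i s t u v h => by
      have := congrArg Subtype.val (e2 i s t u v h)
      simpa using this)
    (fun i s t j u v h => by
      have := congrArg Subtype.val (e3 i s t j u v h)
      simpa using this)
    (by
      have := congrArg Subtype.val e4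
      simpa using this)
    hne
  let Φ : Matrix κ κ o ≃ₐ[o] Matrix (Idx n ρ) (Idx n ρ) o :=
    (F06_conj g).trans (Matrix.reindexAlgEquiv o o ε)
  have hΦ : ∀ x, Φ x = Matrix.reindex ε ε ((g : Matrix κ κ o) * x *
        ((g⁻¹ : (Matrix κ κ o)ˣ) : Matrix κ κ o)) := fun x => rfl
  obtain ⟨S, hS1, hS2⟩ := F06_core hn Φ.symm E J hJ hsc F φ hφ hker e he (fun i s t => by
    rw [AlgEquiv.symm_apply_eq, hΦ]
    exact (hg i s t).symm)
  refine ⟨b, n, ρ, S, ε, g, hn, hρ, fun x => ?_, fun x => ?_⟩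
  · rw [← hΦ, ← hS1, AlgEquiv.symm_apply_apply]
  · rw [← hΦ, ← hS2, AlgEquiv.symm_apply_apply]

end Pool.Agent.Lib.MP_fa0f6c_al.Cx
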