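import Pool.Agent.Lib.MP_fa0f6c_al.Cx.A02
import Pool.Agent.Lib.MP_fa0f6c_al.Cx.R12

set_option autoImplicit false

namespace Pool.Agent.Lib.MP_fa0f6c_al.Cx

variable {R R' : Type} [Ring R] [Ring R']

private theorem F07_nil (Φ : R ≃+* R') (I : Submodule ℤ R) (h : IsNilpotent I)
    (I' : Submodule ℤ R') (hI : ∀ y, y ∈ I' → Φ.symm y ∈ I) : IsNilpotent I' := by
  obtain ⟨n, hn⟩ := h
  refine ⟨n, ?_⟩
  let f : R' →ₐ[ℤ] R := (Φ.symm : R' →+* R).toIntAlgHom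
  have hf : ∀ y, f y = Φ.symm y := fun y => rfl
  have h1 : I'.map f.toLinearMap ≤ I := by
    rintro _ ⟨y, hy, rfl⟩
    exact hI y hy
  have h2 : (I' ^ n).map f.toLinearMap ≤ I ^ n := by
    rw [Submodule.map_pow]
    exact pow_le_pow_left' h1 n
  rw [hn] at h2
  rw [Submodule.zero_eq_bot, eq_bot_iff]
  intro y hy
  have h3 : f y ∈ (0 : Submodule ℤ R) := h2 (Submodule.mem_map_of_mem hy)
  rw [Submodule.zero_eq_bot, Submodule.mem_bot, hf] at h3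
  rw [Submodule.mem_bot]
  have h4 := congrArg Φ h3
  rwa [RingEquiv.apply_symm_apply, map_zero] at h4

/-- Transport of a stage along a ring isomorphism. -/
theorem stage_map (Φ : R ≃+* R') (s : Stage R) :
    ∃ s' : Stage R', (∀ x, Φ x ∈ s'.E ↔ x ∈ s.E) ∧ (∀ x, Φ x ∈ s'.I ↔ x ∈ s.I) ∧
      ∀ x, s'.m (Φ x) = s.m x := by
  let E' : Subring R' := s.E.comap (Φ.symm : R' →+* R)
  let I' : Submodule ℤ R' := s.I.comap (Φ.symm.toAddEquiv.toAddMonoidHom.toIntLinearMap)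
  have hE' : ∀ y, y ∈ E' ↔ Φ.symm y ∈ s.E := fun y => Iff.rfl
  have hI' : ∀ y, y ∈ I' ↔ Φ.symm y ∈ s.I := fun y => Iff.rfl
  have hid : IsNilIdeal E' I' := by
    refine ⟨?_, ?_, ?_, ?_⟩
    · intro x hx
      exact s.ideal.le _ hx
    · intro f hf x hx
      rw [hI', map_mul]
      exact s.ideal.mulL _ hf _ hx
    · intro f hf x hx
      rw [hI', map_mul]
      exact s.ideal.mulR _ hf _ hx
    · exact F07_nil Φ s.I s.ideal.nil I' (fun y hy => hy)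
  refine ⟨⟨E', I', fun y => s.m (Φ.symm y), hid, ?_, ?_, ?_⟩, ?_, ?_, ?_⟩
  · refine ⟨?_, ?_⟩
    · change s.m (Φ.symm 0) = 1
      rw [map_zero]
      exact s.hom.zero
    · intro x hx y hy
      change s.m (Φ.symm (x + y + x * y)) = s.m (Φ.symm x) * s.m (Φ.symm y)
      rw [map_add, map_add, map_mul]
      exact s.hom.mul _ hx _ hy
  · intro f hf x hx
    change s.m (Φ.symm (f * x)) = s.m (Φ.symm (x * f))
    rw [map_mul, map_mul]
    exact s.sym _ hf _ hx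
  · intro g hg
    let g0 : Rˣ := Units.map (Φ.symm : R' →* R) g
    have hg0 : (g0 : R) = Φ.symm g := rfl
    have hg0' : ((g0⁻¹ : Rˣ) : R) = Φ.symm ((g⁻¹ : R'ˣ) : R') := rfl
    have h1 : (g0 : R) ∈ s.E := by
      refine s.int g0 ?_
      intro x hx hx2
      have h2 : (((g⁻¹ : R'ˣ) : R') * Φ x * (g : R')) ∈ I' := by
        rw [hI', map_mul, map_mul, RingEquiv.symm_apply_apply]
        exact hx2
      have h3 : Φ x ∈ I' := by
        rw [hI', RingEquiv.symm_apply_apply]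
        exact hx
      have h4 := hg (Φ x) h3 h2
      simp only [map_mul, RingEquiv.symm_apply_apply] at h4
      exact h4
    exact h1
  · intro x
    change Φ.symm (Φ x) ∈ s.E ↔ x ∈ s.E
    rw [RingEquiv.symm_apply_apply]
  · intro x
    change Φ.symm (Φ x) ∈ s.I ↔ x ∈ s.I
    rw [RingEquiv.symm_apply_apply]
  · intro x
    change s.m (Φ.symm (Φ x)) = s.m x
    rw [RingEquiv.symm_apply_apply]

private theorem F07_mult {G G' : Type} [Group G] [Group G'] (e : G ≃* G') (N : Subgroup G)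
    (N' : Subgroup G') (hN : ∀ u, e u ∈ N' ↔ u ∈ N) (m : G → ℂ) (m' : G' → ℂ)
    (hm : ∀ u, m' (e u) = m u) (ψ : G' → ℂ) :
    mult N m (fun x => ψ (e x)) = mult N' m' ψ := by
  unfold mult ip
  let ε : N ≃ N' := e.toEquiv.subtypeEquiv (fun u => (hN u).symm)
  rw [Nat.card_congr ε]
  congr 1
  refine finsum_eq_of_bijective ε ε.bijective ?_
  rintro ⟨x, hx⟩
  have h1 : ((ε ⟨x, hx⟩ : N') : G') = e x := rfl
  change ψ (e x) * (starRingEnd ℂ) (m x) =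
    ψ ((ε ⟨x, hx⟩ : N') : G') * (starRingEnd ℂ) (m' ((ε ⟨x, hx⟩ : N') : G'))
  rw [h1, hm]

/-- Characters over the transported stage. HINT: `Units.mapEquiv`, `irr_congr`. -/
theorem stage_map_over [Finite R] [Finite R'] (Φ : R ≃+* R') (s : Stage R) (s' : Stage R')
    (hE : ∀ x, Φ x ∈ s'.E ↔ x ∈ s.E) (hI : ∀ x, Φ x ∈ s'.I ↔ x ∈ s.I)
    (hm : ∀ x, s'.m (Φ x) = s.m x) :
    Set.BijOn (fun (ψ : R'ˣ → ℂ) (u : Rˣ) => ψ (Units.map (Φ : R →* R') u))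
      {ψ | ψ ∈ Irr R'ˣ ∧ s'.Over ψ} {χ | χ ∈ Irr Rˣ ∧ s.Over χ} := by
  let e : Rˣ ≃* R'ˣ := Units.mapEquiv (Φ : R ≃* R')
  have he : ∀ u, e u = Units.map (Φ : R →* R') u := fun u => rfl
  have hval : ∀ u : Rˣ, ((e u : R'ˣ) : R') = Φ (u : R) := fun u => rfl
  have hmult : ∀ ψ : R'ˣ → ℂ, mult s.N s.mu (fun x => ψ (e x)) = mult s'.N s'.mu ψ := by
    intro ψ
    refine F07_mult e s.N s'.N ?_ s.mu s'.mu ?_ ψ
    · intro u
      have h1 : e u ∈ s'.N ↔ ((e u : R'ˣ) : R') - 1 ∈ s'.I := mem_oneAddGroup s'.ideal _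
      have h2 : u ∈ s.N ↔ (u : R) - 1 ∈ s.I := mem_oneAddGroup s.ideal _
      rw [h1, h2, hval, ← hI, map_sub, map_one]
    · intro u
      change s'.m (((e u : R'ˣ) : R') - 1) = s.m ((u : R) - 1)
      rw [hval, ← hm, map_sub, map_one]
  have hirr := irr_congr e
  have hiff : ∀ ψ : R'ˣ → ℂ, s.Over (fun x => ψ (e x)) ↔ s'.Over ψ := by
    intro ψ
    unfold Stage.Over
    rw [hmult]
  refine ⟨?_, ?_, ?_⟩
  · rintro ψ ⟨h1, h2⟩
    exact ⟨hirr.mapsTo h1, (hiff ψ).2 h2⟩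
  · rintro ψ ⟨h1, -⟩ ψ' ⟨h1', -⟩ h
    exact hirr.injOn h1 h1' h
  · rintro χ ⟨h1, h2⟩
    obtain ⟨ψ, hψ, rfl⟩ := hirr.surjOn h1
    exact ⟨ψ, ⟨hψ, (hiff ψ).1 h2⟩, rfl⟩

/-- conjugation by a unit followed by reindexing, as a ring isomorphism -/
theorem conj_reindex {o : Type} [CommRing o] {κ κ' : Type} [Fintype κ] [DecidableEq κ]
    [Fintype κ'] [DecidableEq κ'] (ε : κ ≃ κ') (g : (Matrix κ κ o)ˣ) :
    ∃ Φ : Matrix κ κ o ≃+* Matrix κ' κ' o, ∀ x, Φ x = Matrix.reindex ε ε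
      ((g : Matrix κ κ o) * x * ((g⁻¹ : (Matrix κ κ o)ˣ) : Matrix κ κ o)) := by
  let c : Matrix κ κ o ≃+* Matrix κ κ o :=
    { toFun := fun x => (g : Matrix κ κ o) * x * ((g⁻¹ : (Matrix κ κ o)ˣ) : Matrix κ κ o)
      invFun := fun x => ((g⁻¹ : (Matrix κ κ o)ˣ) : Matrix κ κ o) * x * (g : Matrix κ κ o)
      left_inv := fun x => by
        change ((g⁻¹ : (Matrix κ κ o)ˣ) : Matrix κ κ o) * ((g : Matrix κ κ o) * x *
          ((g⁻¹ : (Matrix κ κ o)ˣ) : Matrix κ κ o)) * (g : Matrix κ κ o) = x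
        rw [mul_assoc, mul_assoc, mul_assoc, Units.inv_mul, mul_one, Units.inv_mul_cancel_left]
      right_inv := fun x => by
        change (g : Matrix κ κ o) * (((g⁻¹ : (Matrix κ κ o)ˣ) : Matrix κ κ o) * x *
          (g : Matrix κ κ o)) * ((g⁻¹ : (Matrix κ κ o)ˣ) : Matrix κ κ o) = x
        rw [mul_assoc, mul_assoc, mul_assoc, Units.mul_inv, mul_one, Units.mul_inv_cancel_left]
      map_mul' := fun x y => by
        change (g : Matrix κ κ o) * (x * y) * ((g⁻¹ : (Matrix κ κ o)ˣ) : Matrix κ κ o) =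
          ((g : Matrix κ κ o) * x * ((g⁻¹ : (Matrix κ κ o)ˣ) : Matrix κ κ o)) *
          ((g : Matrix κ κ o) * y * ((g⁻¹ : (Matrix κ κ o)ˣ) : Matrix κ κ o))
        simp only [mul_assoc, Units.inv_mul_cancel_left]
      map_add' := fun x y => by
        rw [mul_add, add_mul] }
  refine ⟨c.trans (Matrix.reindexAlgEquiv o o ε).toRingEquiv, fun x => rfl⟩

end Pool.Agent.Lib.MP_fa0f6c_al.Cx
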