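import Pool.Agent.Lib.MP_fa0f6c_al.Cx.C11
import Pool.Agent.Lib.MP_fa0f6c_al.Cx.C12
import Pool.Agent.Lib.MP_fa0f6c_al.Cx.A13
import Pool.Agent.Lib.MP_fa0f6c_al.Cx.F03
import Pool.Agent.Lib.MP_fa0f6c_al.Cx.F06
import Pool.Agent.Lib.MP_fa0f6c_al.Cx.F07

set_option autoImplicit false

namespace Pool.Agent.Lib.MP_fa0f6c_al.Cx

variable {o : Type} [CommRing o] [IsLocalRing o] [Finite o] {π : o}

/-- Arithmetic: a prime dividing `q + 1` does not divide `HH d q`. PROOF: `l ∣ q + 1`, `q` even, so `l` is odd and `l ∤ q`; `q ^ d k ≡ (-1) ^ d k = -1`, so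
`q ^ d k - 1 ≡ -2 ≢ 0`. -/
theorem not_dvd_HH {d : Fin 6 → ℕ} {q : ℕ} (h : Nums d q) {l : ℕ} (hl : l.Prime)
    (hlq : l ∣ q + 1) : ¬ l ∣ HH d q := by
  obtain ⟨f, hf0, hqf⟩ := h.q2
  have hk2 : ∀ k, Odd (d k) := by
    intro k
    refine (h.prime k).odd_of_ne_two ?_
    have a0 := h.g0
    have a5 := h.g5
    have a4 := h.g4
    have a3 := h.g3
    have a2 := h.g2
    have a1 := h.g1
    have b5 : 2 < d 5 := by omega
    have b4 : 2 < d 4 := by nlinarith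
    have b3 : 2 < d 3 := by nlinarith
    have b2 : 2 < d 2 := by nlinarith
    have b1 : 2 < d 1 := by nlinarith
    fin_cases k
    · exact fun h' => by simp at h'; omega
    · exact fun h' => by simp at h'; omega
    · exact fun h' => by simp at h'; omega
    · exact fun h' => by simp at h'; omega
    · exact fun h' => by simp at h'; omega
    · exact fun h' => by simp at h'; omega
  have hq2 : 2 ∣ q := by
    rw [hqf]
    exact dvd_pow_self 2 hf0.ne'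
  have hl2 : l ≠ 2 := by
    rintro rfl
    omega
  intro hd
  unfold HH at hd
  rcases (Nat.Prime.dvd_mul hl).1 hd with h1 | h1
  · have h2 : l ∣ q := hl.dvd_of_dvd_pow h1
    have h3 : l ∣ 1 := (Nat.dvd_add_right h2).1 hlq
    exact hl.one_lt.ne' (Nat.dvd_one.1 h3)
  · obtain ⟨k, _, hk⟩ := (Prime.dvd_finsetProd_iff hl.prime _).1 h1
    have h2 : l ∣ q ^ d k + 1 := by
      have := Odd.nat_add_dvd_pow_add_pow q 1 (hk2 k)
      rw [one_pow] at this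
      exact hlq.trans this
    have hq1 : 1 ≤ q ^ d k := Nat.one_le_pow _ _ (by have := h.q4; omega)
    have h3 : l ∣ 2 := by
      have h4 : q ^ d k + 1 = (q ^ d k - 1) + 2 := by omega
      rw [h4] at h2
      exact (Nat.dvd_add_right hk).1 h2
    exact hl2 ((Nat.prime_dvd_prime_iff_eq hl Nat.prime_two).1 h3)

/-- Terminal stages with `cnt ≠ 0` are final (blueprint 1.7). PROOF: otherwise `terminal_dvd` (A13) for a prime `l ∣ q + 1` and a character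
of the set: `l ∣ |Rˣ| / χ 1 = HH d q` (`χ 1 * HH = |Rˣ|`, `χ 1 > 0`), contradiction to `not_dvd_HH`. (`|R|` is a power of two: `chain_card'`, `Nums.q2`.) -/
theorem cnt_final {d : Fin 6 → ℕ} {q : ℕ} (h : Nums d q) (hch : IsChain o π 16)
    (h2 : ¬ IsUnit (2 : o)) (hq : Nat.card (IsLocalRing.ResidueField o) = q) {ι : Type}
    [Fintype ι] [DecidableEq ι] {ν : Stage (Matrix ι ι o)} (ht : ν.Terminal)
    (hE : ∀ c : o, algebraMap o (Matrix ι ι o) c ∈ ν.E) (hs : cnt ν (HH d q) ≠ 0) :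
    ν.Final := by
  classical
  by_contra hnf
  have hne : {χ | χ ∈ Irr (Matrix ι ι o)ˣ ∧ ν.Over χ ∧
      χ 1 * ((HH d q : ℕ) : ℂ) = Nat.card (Matrix ι ι o)ˣ}.Nonempty := by
    rw [Set.nonempty_iff_ne_empty]
    intro he
    apply hs
    unfold cnt
    rw [he, Set.ncard_empty]
  obtain ⟨χ, hχ, ho, hχ1⟩ := hne
  obtain ⟨D, hD0, hD⟩ := irr_deg hχ
  rw [hD] at hχ1
  have h1 : D * HH d q = Nat.card (Matrix ι ι o)ˣ := by exact_mod_cast hχ1
  have h3 : Nat.card (Matrix ι ι o)ˣ / D = HH d q := by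
    rw [← h1]
    exact Nat.mul_div_cancel_left _ hD0
  obtain ⟨l, hl, hlq⟩ := Nat.exists_prime_and_dvd (n := q + 1) (by have := h.q4; omega)
  have hR : ∃ k, Nat.card (Matrix ι ι o) = 2 ^ k := by
    obtain ⟨f, _, hqf⟩ := h.q2
    refine ⟨f * 16 * (Fintype.card ι * Fintype.card ι), ?_⟩
    have e1 : Nat.card (Matrix ι ι o) = Nat.card o ^ (Fintype.card ι * Fintype.card ι) := by
      unfold Matrix
      rw [Nat.card_fun, Nat.card_fun, Nat.card_eq_fintype_card (α := ι), ← pow_mul]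
    rw [e1, chain_card' hch, hq, hqf, ← pow_mul, ← pow_mul]
    congr 1
    ring
  have h4 := terminal_dvd hR ν ht hnf o hE h2 l hl (by rw [hq]; exact hlq) hχ ho D hD
  rw [h3] at h4
  exact not_dvd_HH h hl hlq h4

/-- Transport to the standard form. PROOF: `conj_reindex`, `stage_map`, `stage_map_over` (`Φ` restricted to units is a group isomorphism, so the cardinalities
of the unit groups agree). -/
theorem std_transport {ι : Type} [Fintype ι] [DecidableEq ι] {ν : Stage (Matrix ι ι o)} {b : ℕ}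
    {n ρ : Fin b → ℕ} {S : Corners o ρ} {ε : ι ≃ Idx n ρ} {g : (Matrix ι ι o)ˣ}
    (h : IsStd ν n ρ S ε g) : ∃ s : Stage (Matrix (Idx n ρ) (Idx n ρ) o),
      s.E = S.ring n ∧ s.I = S.rad n ∧
      (∀ x, s.m (Matrix.reindex ε ε ((g : Matrix ι ι o) * x *
        ((g⁻¹ : (Matrix ι ι o)ˣ) : Matrix ι ι o))) = ν.m x) ∧ ∀ h, cnt s h = cnt ν h := by
  classical
  obtain ⟨Φ, hΦ⟩ := conj_reindex ε g
  obtain ⟨s, hE, hI, hm⟩ := stage_map Φ ν
  refine ⟨s, ?_, ?_, ?_, ?_⟩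
  · ext y
    obtain ⟨x, rfl⟩ := Φ.surjective y
    rw [hE, h.1, hΦ]
  · ext y
    obtain ⟨x, rfl⟩ := Φ.surjective y
    rw [hI, h.2, hΦ]
  · intro x
    rw [← hΦ, hm]
  · intro k
    have hb := stage_map_over Φ ν s hE hI hm
    have hcard : Nat.card (Matrix (Idx n ρ) (Idx n ρ) o)ˣ = Nat.card (Matrix ι ι o)ˣ :=
      (Nat.card_congr (Units.mapEquiv (Φ : Matrix ι ι o ≃* Matrix (Idx n ρ) (Idx n ρ) o)).toEquiv).symm
    unfold cnt
    have himg : (fun (ψ : (Matrix (Idx n ρ) (Idx n ρ) o)ˣ → ℂ) (u : (Matrix ι ι o)ˣ) =>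
        ψ (Units.map (Φ : Matrix ι ι o →* Matrix (Idx n ρ) (Idx n ρ) o) u)) ''
        {χ | χ ∈ Irr (Matrix (Idx n ρ) (Idx n ρ) o)ˣ ∧ s.Over χ ∧
          χ 1 * (k : ℂ) = Nat.card (Matrix (Idx n ρ) (Idx n ρ) o)ˣ} =
        {χ | χ ∈ Irr (Matrix ι ι o)ˣ ∧ ν.Over χ ∧
          χ 1 * (k : ℂ) = Nat.card (Matrix ι ι o)ˣ} := by
      ext χ
      constructor
      · rintro ⟨ψ, ⟨h1, h2, h3⟩, rfl⟩
        have h4 := hb.mapsTo ⟨h1, h2⟩
        refine ⟨h4.1, h4.2, ?_⟩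
        change ψ (Units.map (Φ : Matrix ι ι o →* Matrix (Idx n ρ) (Idx n ρ) o) 1) * (k : ℂ) = _
        rw [map_one, h3, hcard]
      · rintro ⟨h1, h2, h3⟩
        obtain ⟨ψ, hψ, rfl⟩ := hb.surjOn ⟨h1, h2⟩
        refine ⟨ψ, ⟨hψ.1, hψ.2, ?_⟩, rfl⟩
        change ψ (Units.map (Φ : Matrix ι ι o →* Matrix (Idx n ρ) (Idx n ρ) o) 1) * (k : ℂ) = _
          at h3
        rw [map_one] at h3
        rw [h3, hcard]
    rw [← himg, Set.InjOn.ncard_image]
    intro ψ hψ ψ' hψ' he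
    exact hb.injOn ⟨hψ.1, hψ.2.1⟩ ⟨hψ'.1, hψ'.2.1⟩ he

/-- Normal form of the relevant stages. PROOF: `cnt_final`, `std_form` (F06), `std_transport`, `std_main` (`∑ n i ρ i = card ι = NN d` by `ε`), `isStd_comap` with the
bijection `κ` of `std_main`. -/
theorem node_normal {d : Fin 6 → ℕ} {q : ℕ} (h : Nums d q) (hch : IsChain o π 16)
    (h2 : ¬ IsUnit (2 : o)) (hq : Nat.card (IsLocalRing.ResidueField o) = q) {ι : Type}
    [Fintype ι] [DecidableEq ι] (hι : Fintype.card ι = NN d) {ν : Stage (Matrix ι ι o)}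
    (ht : ν.Terminal) (hE : ∀ c : o, algebraMap o (Matrix ι ι o) c ∈ ν.E)
    (hs : cnt ν (HH d q) ≠ 0) :
    ∃ (e n ρ : Fin 6 → ℕ) (S : Corners o ρ) (ε : ι ≃ Idx n ρ) (g : (Matrix ι ι o)ˣ),
      IsStd ν n ρ S ε g ∧ (∀ k, e k = 1 ∨ e k = d k) ∧ (∀ k, k ≠ 0 → k ≠ 5 → e k = 1) ∧
      (∀ k, n k * e k = d k) ∧ (∀ k, ρ k = e k * rhoT k) ∧
      (∀ k, Nat.card (S.C k k) = q ^ e k * Nat.card (S.J k)) ∧
      cnt ν (HH d q) = ∏ k, (if e k = 1 then cc q (d k) else q ^ d k - 1) ∧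
      (e 0 = 1 → e 5 = 1 → (∀ k, Nat.card (S.C k k) = q ^ lenT k k) ∧
        ∀ k l, k ≠ l → Nat.card (S.C k l) * Nat.card (S.C l k) = q ^ (lenT k l + lenT l k)) := by
  classical
  have hfinal := cnt_final h hch h2 hq ht hE hs
  have hNN : 0 < NN d := by
    unfold NN
    refine Finset.sum_pos (fun k _ => ?_) Finset.univ_nonempty
    refine Nat.mul_pos (h.prime k).pos ?_
    fin_cases k <;> simp [rhoT]
  have hne : Nonempty ι := by
    rw [← Fintype.card_pos_iff, hι]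
    exact hNN
  obtain ⟨b, n, ρ, S, ε, g, hn, hρ, hSE, hSI⟩ := std_form ν.E ν.I ν.ideal hfinal hE
  have hstd : IsStd ν n ρ S ε g := ⟨hSE, hSI⟩
  obtain ⟨s, hsE, hsI, _, hcnt⟩ := std_transport hstd
  have hN : ∑ i, n i * ρ i = NN d := by
    rw [← hι, Fintype.card_congr ε]
    simp [Idx, Fintype.card_sigma]
  have hs' : cnt s (HH d q) ≠ 0 := by
    rw [hcnt]
    exact hs
  obtain ⟨e, κ, hκ, k1, k2, k3, k4, k5, k6, k7⟩ :=
    std_main h hch h2 hq hn hρ hN S s hsE hsI hs'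
  obtain ⟨ε', hε'⟩ := isStd_comap hstd κ hκ
  refine ⟨fun k => e (κ k), fun k => n (κ k), fun k => ρ (κ k), S.comap κ hκ.injective, ε', g,
    hε', k1, k2, k3, k4, fun k => k5 (κ k), ?_, k7⟩
  rw [← hcnt]
  exact k6

end Pool.Agent.Lib.MP_fa0f6c_al.Cx
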