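import Pool.Agent.Lib.MP_fa0f6c_al.Cx.F01

set_option autoImplicit false

namespace Pool.Agent.Lib.MP_fa0f6c_al.Cx

variable {o : Type} [CommRing o] [IsLocalRing o] [Finite o] {π : o}

/-- cyclic vector: the matrix `[v | X v]` is invertible -/
private theorem d08_cyc (hch : IsChain o π 16) (X : Matrix (Fin 2) (Fin 2) o)
    (hX : ¬ ∃ (c : o) (Z : Matrix (Fin 2) (Fin 2) o), X = c • 1 + π • Z) :
    ∃ v : Fin 2 → o, IsUnit (v 0 * (X.mulVec v) 1 - (X.mulVec v) 0 * v 1) := by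
  have e0 : ∀ v : Fin 2 → o, (X.mulVec v) 0 = X 0 0 * v 0 + X 0 1 * v 1 := fun v => by
    rw [Matrix.mulVec, dotProduct, Fin.sum_univ_two]
  have e1 : ∀ v : Fin 2 → o, (X.mulVec v) 1 = X 1 0 * v 0 + X 1 1 * v 1 := fun v => by
    rw [Matrix.mulVec, dotProduct, Fin.sum_univ_two]
  rcases chain_isUnit hch (X 1 0) with h | ⟨c, hc⟩
  · refine ⟨![1, 0], ?_⟩
    rw [e0, e1]
    simpa using h
  rcases chain_isUnit hch (X 0 1) with h | ⟨b, hb⟩
  · refine ⟨![0, 1], ?_⟩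
    rw [e0, e1]
    simpa using h
  rcases chain_isUnit hch (X 1 1 - X 0 0) with h | ⟨d, hd⟩
  · refine ⟨![1, 1], ?_⟩
    rw [e0, e1]
    have h2 : (![1, 1] : Fin 2 → o) 0 * (X 1 0 * (![1, 1] : Fin 2 → o) 0 +
        X 1 1 * (![1, 1] : Fin 2 → o) 1) - (X 0 0 * (![1, 1] : Fin 2 → o) 0 +
        X 0 1 * (![1, 1] : Fin 2 → o) 1) * (![1, 1] : Fin 2 → o) 1 =
        (X 1 1 - X 0 0) + π * (c - b) := by
      simp only [Matrix.cons_val_zero, Matrix.cons_val_one, hc, hb]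
      ring
    rw [h2]
    rcases chain_isUnit hch ((X 1 1 - X 0 0) + π * (c - b)) with h3 | ⟨y, hy⟩
    · exact h3
    · exfalso
      have h4 : X 1 1 - X 0 0 = π * (y - (c - b)) := by linear_combination hy
      rw [h4] at h
      exact chain_nonunit hch _ h
  · exfalso
    apply hX
    refine ⟨X 0 0, !![0, b; c, d], ?_⟩
    ext i j
    fin_cases i <;> fin_cases j
    · simp
    · simp [hb]
    · simp [hc]
    · simp [← hd]

private theorem d08_half (hch : IsChain o π 16) (q : ℕ)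
    (hq : Nat.card (IsLocalRing.ResidueField o) = q) (X Y : Matrix (Fin 2) (Fin 2) o)
    (v w : Fin 2 → o) (P Q : (Matrix (Fin 2) (Fin 2) o)ˣ)
    (hP : (P : Matrix (Fin 2) (Fin 2) o) = Matrix.of fun i j => (![v, X.mulVec v] : Fin 2 → Fin 2 → o) j i)
    (hQ : (Q : Matrix (Fin 2) (Fin 2) o) = Matrix.of fun i j => (![w, Y.mulVec w] : Fin 2 → Fin 2 → o) j i)
    (A : Submodule o (Matrix (Fin 2) (Fin 2) o))
    (hA : ∀ c ∈ A, ∃ z, X * c - c * Y = π ^ 8 • z)
    (hA8 : ∀ y : Matrix (Fin 2) (Fin 2) o, π ^ 8 • y ∈ A) :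
    ∃ m k K : ℕ, m + k = 32 ∧ Nat.card A = q ^ m * K ∧ K ≤ q ^ 16 ∧
      π ^ k • ((P * Q⁻¹ : (Matrix (Fin 2) (Fin 2) o)ˣ) : Matrix (Fin 2) (Fin 2) o) ∈ A := by
  have hres := fin_res o
  have hq0 : 0 < q := by rw [← hq]; exact Nat.card_pos
  have hq1 : 1 < q := by
    rw [← hq, Finite.one_lt_card_iff_nontrivial]
    infer_instance
  let f : A →ₗ[o] (Fin 2 → o) :=
    { toFun := fun c => (c : Matrix (Fin 2) (Fin 2) o).mulVec w
      map_add' := fun c d => by
        change ((c : Matrix (Fin 2) (Fin 2) o) + d).mulVec w = _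
        rw [Matrix.add_mulVec]
      map_smul' := fun t c => by
        change (t • (c : Matrix (Fin 2) (Fin 2) o)).mulVec w = _
        rw [Matrix.smul_mulVec]
        rfl }
  have h1 := card_ker_range f
  obtain ⟨m, hm⟩ := chain_card_module hch (LinearMap.range f)
  have hfq := fin_quot (LinearMap.range f)
  obtain ⟨k, hk⟩ := chain_card_module hch ((Fin 2 → o) ⧸ LinearMap.range f)
  have h2 := card_sub_mul (LinearMap.range f)
  have h3 : Nat.card (Fin 2 → o) = q ^ 32 := by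
    rw [Nat.card_fun, chain_card' hch, hq, ← pow_mul, Nat.card_eq_fintype_card, Fintype.card_fin]
  rw [h3, hm, hk, hq, ← pow_add] at h2
  have hmk : m + k = 32 := by
    have := Nat.pow_right_injective hq1 h2
    omega
  refine ⟨m, k, Nat.card (LinearMap.ker f), hmk, ?_, ?_, ?_⟩
  · rw [h1, hm, hq]
  · -- the kernel
    have key : ∀ c : LinearMap.ker f, (c.1.1 * (Y : Matrix (Fin 2) (Fin 2) o)).mulVec w 0 ∈
        (Ideal.span {π ^ 8} : Ideal o) ∧ (c.1.1 * (Y : Matrix (Fin 2) (Fin 2) o)).mulVec w 1 ∈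
        (Ideal.span {π ^ 8} : Ideal o) := by
      intro c
      have hc : (c.1.1 : Matrix (Fin 2) (Fin 2) o).mulVec w = 0 := c.2
      obtain ⟨z, hz⟩ := hA c.1.1 c.1.2
      have h4 : (c.1.1 * Y).mulVec w = - (π ^ 8 • z).mulVec w := by
        rw [← hz, Matrix.sub_mulVec, ← Matrix.mulVec_mulVec w X c.1.1, hc, Matrix.mulVec_zero,
          zero_sub, neg_neg]
      rw [h4, Matrix.smul_mulVec]
      constructor
      · rw [Ideal.mem_span_singleton]
        exact ⟨-(z.mulVec w 0), (mul_neg _ _).symm⟩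
      · rw [Ideal.mem_span_singleton]
        exact ⟨-(z.mulVec w 1), (mul_neg _ _).symm⟩
    let g : LinearMap.ker f → (Ideal.span {π ^ 8} : Ideal o) × (Ideal.span {π ^ 8} : Ideal o) :=
      fun c => (⟨_, (key c).1⟩, ⟨_, (key c).2⟩)
    have hg : Function.Injective g := by
      intro c d hcd
      have e0 : (c.1.1 * Y).mulVec w 0 = (d.1.1 * Y).mulVec w 0 :=
        congrArg (fun p => (p.1 : o)) hcd
      have e1 : (c.1.1 * Y).mulVec w 1 = (d.1.1 * Y).mulVec w 1 :=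
        congrArg (fun p => (p.2 : o)) hcd
      have hc : (c.1.1 : Matrix (Fin 2) (Fin 2) o).mulVec w = 0 := c.2
      have hd : (d.1.1 : Matrix (Fin 2) (Fin 2) o).mulVec w = 0 := d.2
      have h5 : c.1.1 * (Q : Matrix (Fin 2) (Fin 2) o) = d.1.1 * (Q : Matrix (Fin 2) (Fin 2) o) := by
        rw [hQ]
        ext i j
        have h6 : ∀ (M : Matrix (Fin 2) (Fin 2) o) (i j : Fin 2),
            (M * (Matrix.of fun i j => (![w, Y.mulVec w] : Fin 2 → Fin 2 → o) j i)) i j =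
              M.mulVec ((![w, Y.mulVec w] : Fin 2 → Fin 2 → o) j) i := by
          intro M i j
          rw [Matrix.mul_apply, Matrix.mulVec, dotProduct]
          rfl
        rw [h6, h6]
        fin_cases j
        · change (c.1.1).mulVec w i = (d.1.1).mulVec w i
          rw [hc, hd]
        · change (c.1.1).mulVec (Y.mulVec w) i = (d.1.1).mulVec (Y.mulVec w) i
          rw [Matrix.mulVec_mulVec, Matrix.mulVec_mulVec]
          fin_cases i
          · exact e0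
          · exact e1
      have h7 : c.1.1 = d.1.1 := (Units.mul_left_inj Q).1 h5
      exact Subtype.ext (Subtype.ext h7)
    have h8 := Nat.card_le_card_of_injective g hg
    rw [Nat.card_prod, chain_card hch 8 (by norm_num), hq, ← pow_add] at h8
    exact h8
  · -- `π ^ k v` is in the range
    have h9 := chain_kill hch _ k hk ((LinearMap.range f).mkQ v)
    rw [← map_smul, Submodule.mkQ_apply, Submodule.Quotient.mk_eq_zero] at h9
    obtain ⟨c, hc⟩ := h9
    have hc' : (c.1 : Matrix (Fin 2) (Fin 2) o).mulVec w = π ^ k • v := hc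
    obtain ⟨z, hz⟩ := hA c.1 c.2
    -- `c Q = π ^ k P - π ^ 8 [0 | z w]`
    have h10 : c.1 * (Q : Matrix (Fin 2) (Fin 2) o) = π ^ k • (P : Matrix (Fin 2) (Fin 2) o) -
        π ^ 8 • (Matrix.of fun i j => (![0, z.mulVec w] : Fin 2 → Fin 2 → o) j i) := by
      rw [hQ, hP]
      have h6 : ∀ (M : Matrix (Fin 2) (Fin 2) o) (i j : Fin 2),
          (M * (Matrix.of fun i j => (![w, Y.mulVec w] : Fin 2 → Fin 2 → o) j i)) i j =
            M.mulVec ((![w, Y.mulVec w] : Fin 2 → Fin 2 → o) j) i := by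
        intro M i j
        rw [Matrix.mul_apply, Matrix.mulVec, dotProduct]
        rfl
      ext i j
      rw [h6, Matrix.sub_apply, Matrix.smul_apply, Matrix.smul_apply, Matrix.of_apply,
        Matrix.of_apply, smul_eq_mul, smul_eq_mul]
      fin_cases j
      · change (c.1).mulVec w i = π ^ k * v i - π ^ 8 * 0
        rw [hc']
        simp
      · change (c.1).mulVec (Y.mulVec w) i = π ^ k * (X.mulVec v) i - π ^ 8 * (z.mulVec w) i
        have h11 : (c.1 * Y) = X * c.1 - π ^ 8 • z := by rw [← hz]; abel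
        rw [Matrix.mulVec_mulVec, h11, Matrix.sub_mulVec, ← Matrix.mulVec_mulVec, hc',
          Matrix.mulVec_smul, Matrix.smul_mulVec]
        rfl
    have h12 : π ^ k • ((P * Q⁻¹ : (Matrix (Fin 2) (Fin 2) o)ˣ) : Matrix (Fin 2) (Fin 2) o) =
        c.1 + π ^ 8 • ((Matrix.of fun i j => (![0, z.mulVec w] : Fin 2 → Fin 2 → o) j i) *
          ((Q⁻¹ : (Matrix (Fin 2) (Fin 2) o)ˣ) : Matrix (Fin 2) (Fin 2) o)) := by
      have h13 : π ^ k • (P : Matrix (Fin 2) (Fin 2) o) = c.1 * (Q : Matrix (Fin 2) (Fin 2) o) +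
          π ^ 8 • (Matrix.of fun i j => (![0, z.mulVec w] : Fin 2 → Fin 2 → o) j i) := by
        rw [h10]
        abel
      rw [Units.val_mul, ← Matrix.smul_mul, h13, add_mul, mul_assoc, Units.mul_inv, mul_one,
        Matrix.smul_mul]
    rw [h12]
    exact A.add_mem c.2 (hA8 _)

/-- W6, algebraic part. PROOF. `X` is not scalar modulo `π`, so it has a cyclic vector `v`: `P = [v | X v]` invertible; `Q = [w | Y w]` for `Y`. For `c ∈ A`: `c Y w = X c w` modulo `π^8`, and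
`c w = h₀ v + h₁ X v`; so `c` is determined modulo `π^8 M` by `(h₀, h₁)`. `A / π^8 M` is a submodule of `(o/π^8)^2` of cardinality `|A| / q^32 = q^l`; `H = {(h₀,h₁)}`; the quotient `(o/π^8)^2 / H` has `q^(16-l)` elements so it is killed by `π^(16-l)`
(`chain_kill`): there is `c ∈ A` with `c w = π^(16-l) v` modulo `π^8`, and then `c Y w = X c w = π^(16-l) X v` modulo `π^8`, so `c = π^(16-l) P Q⁻¹` modulo `π^8`, and
`π^8 M ≤ A`. Similarly `π^(16-l') Q P⁻¹ ∈ B`. `l + l' = 88 - 64 = 24`. (`l, l' ≤ 16`, so `l, l' ≥ 8`.) -/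
theorem cross_scalar (hch : IsChain o π 16) (q : ℕ)
    (hq : Nat.card (IsLocalRing.ResidueField o) = q) (X Y : Matrix (Fin 2) (Fin 2) o)
    (hX : ¬ ∃ (c : o) (Z : Matrix (Fin 2) (Fin 2) o), X = c • 1 + π • Z)
    (hY : ¬ ∃ (c : o) (Z : Matrix (Fin 2) (Fin 2) o), Y = c • 1 + π • Z)
    (A B : Submodule o (Matrix (Fin 2) (Fin 2) o))
    (hA : ∀ c ∈ A, ∃ z, X * c - c * Y = π ^ 8 • z) (hB : ∀ c ∈ B, ∃ z, Y * c - c * X = π ^ 8 • z)
    (hA8 : ∀ y : Matrix (Fin 2) (Fin 2) o, π ^ 8 • y ∈ A)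
    (hB8 : ∀ y : Matrix (Fin 2) (Fin 2) o, π ^ 8 • y ∈ B)
    (hc : Nat.card A * Nat.card B = q ^ 88) :
    ∃ (T : (Matrix (Fin 2) (Fin 2) o)ˣ) (i j : ℕ), i + j = 8 ∧
      π ^ i • (T : Matrix (Fin 2) (Fin 2) o) ∈ A ∧
      π ^ j • ((T⁻¹ : (Matrix (Fin 2) (Fin 2) o)ˣ) : Matrix (Fin 2) (Fin 2) o) ∈ B := by
  have hres := fin_res o
  have hq1 : 1 < q := by
    rw [← hq, Finite.one_lt_card_iff_nontrivial]
    infer_instance
  have mk : ∀ (X : Matrix (Fin 2) (Fin 2) o) (v : Fin 2 → o),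
      IsUnit (v 0 * (X.mulVec v) 1 - (X.mulVec v) 0 * v 1) →
      ∃ P : (Matrix (Fin 2) (Fin 2) o)ˣ, (P : Matrix (Fin 2) (Fin 2) o) =
        Matrix.of fun i j => (![v, X.mulVec v] : Fin 2 → Fin 2 → o) j i := by
    intro X v h
    have h2 : IsUnit (Matrix.of fun i j => (![v, X.mulVec v] : Fin 2 → Fin 2 → o) j i) := by
      rw [Matrix.isUnit_iff_isUnit_det, Matrix.det_fin_two]
      exact h
    obtain ⟨P, hP⟩ := h2
    exact ⟨P, hP⟩
  obtain ⟨v, hv⟩ := d08_cyc hch X hX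
  obtain ⟨w, hw⟩ := d08_cyc hch Y hY
  obtain ⟨P, hP⟩ := mk X v hv
  obtain ⟨Q, hQ⟩ := mk Y w hw
  obtain ⟨m, k, K, hmk, hcA, hK, hAm⟩ := d08_half hch q hq X Y v w P Q hP hQ A hA hA8
  obtain ⟨m', k', K', hmk', hcB, hK', hBm⟩ := d08_half hch q hq Y X w v Q P hQ hP B hB hB8
  have h88 : q ^ 88 ≤ q ^ (m + m' + 32) := by
    rw [← hc, hcA, hcB]
    calc q ^ m * K * (q ^ m' * K') = q ^ m * q ^ m' * (K * K') := by ring
      _ ≤ q ^ m * q ^ m' * (q ^ 16 * q ^ 16) :=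
        Nat.mul_le_mul_left _ (Nat.mul_le_mul hK hK')
      _ = q ^ (m + m' + 32) := by rw [pow_add, pow_add, ← pow_add q 16 16]
  have hle : 88 ≤ m + m' + 32 := (Nat.pow_le_pow_iff_right hq1).1 h88
  have hkk : k + k' ≤ 8 := by omega
  refine ⟨P * Q⁻¹, k, 8 - k, by omega, hAm, ?_⟩
  have hinv : (P * Q⁻¹)⁻¹ = Q * P⁻¹ := by rw [mul_inv_rev, inv_inv]
  rw [hinv]
  have h9 : 8 - k = (8 - k - k') + k' := by omega
  rw [h9, pow_add, mul_smul]
  exact B.smul_mem _ hBm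

end Pool.Agent.Lib.MP_fa0f6c_al.Cx
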