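import Pool.Agent.Lib.MP_fa0f6c_al.Cx.FDefs

set_option autoImplicit false

namespace Pool.Agent.Lib.MP_fa0f6c_al.Cx

variable {o : Type} [CommRing o] [IsLocalRing o] [Finite o] {π : o} {r : ℕ}

/-- every nonzero element is a unit times a power of `π` -/
theorem chain_elem (h : IsChain o π r) (x : o) (hx : x ≠ 0) :
    ∃ i < r, ∃ u : oˣ, x = u * π ^ i := by
  classical
  have hex : ∃ k, ¬ π ^ k ∣ x := ⟨r, by rw [h.pow, zero_dvd_iff]; exact hx⟩
  have hk := Nat.find_spec hex
  set k := Nat.find hex with hkdef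
  have hk0 : k ≠ 0 := by
    intro h0
    rw [h0] at hk
    exact hk (by simp)
  have hkr : k ≤ r := Nat.find_min' hex (by rw [h.pow, zero_dvd_iff]; exact hx)
  have hlt : k - 1 < Nat.find hex := by omega
  have hd : π ^ (k - 1) ∣ x := by
    by_contra hcon
    exact Nat.find_min hex hlt hcon
  obtain ⟨y, hy⟩ := hd
  have hu : IsUnit y := by
    by_contra hcon
    have hm : y ∈ IsLocalRing.maximalIdeal o := (IsLocalRing.mem_maximalIdeal y).2 hcon
    rw [h.max, Ideal.mem_span_singleton] at hm
    obtain ⟨z, hz⟩ := hm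
    apply hk
    refine ⟨z, ?_⟩
    have hk1 : k = (k - 1) + 1 := by omega
    rw [hy, hz, ← mul_assoc, ← pow_succ, ← hk1]
  obtain ⟨u, hu⟩ := hu
  refine ⟨k - 1, by omega, u, ?_⟩
  rw [hy, hu, mul_comm]

theorem chain_isUnit (h : IsChain o π r) (x : o) : IsUnit x ∨ ∃ y, x = π * y := by
  by_cases hx : IsUnit x
  · exact Or.inl hx
  · right
    have hm : x ∈ IsLocalRing.maximalIdeal o := (IsLocalRing.mem_maximalIdeal x).2 hx
    rw [h.max, Ideal.mem_span_singleton] at hm
    exact hm

theorem chain_nonunit (h : IsChain o π r) (y : o) : ¬ IsUnit (π * y) := by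
  have hm : π * y ∈ IsLocalRing.maximalIdeal o := by
    rw [h.max, Ideal.mem_span_singleton]
    exact ⟨y, rfl⟩
  exact (IsLocalRing.mem_maximalIdeal _).1 hm

theorem chain_pow_ne (h : IsChain o π r) {i : ℕ} (hi : i < r) : π ^ i ≠ 0 := by
  intro h0
  apply h.ne
  have : r - 1 = i + (r - 1 - i) := by omega
  rw [this, pow_add, h0, zero_mul]

/-- annihilators -/
theorem chain_ann (h : IsChain o π r) (i : ℕ) (hi : i ≤ r) (x : o) :
    π ^ i * x = 0 ↔ ∃ y, x = π ^ (r - i) * y := by
  constructor
  · intro hx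
    by_cases hx0 : x = 0
    · exact ⟨0, by rw [hx0, mul_zero]⟩
    obtain ⟨j, hj, u, rfl⟩ := chain_elem h x hx0
    have h1 : π ^ (i + j) = 0 := by
      have h2 : (u : o) * π ^ (i + j) = 0 := by rw [← hx, pow_add]; ring
      exact (Units.mul_right_eq_zero u).1 h2
    have h3 : r ≤ i + j := by
      by_contra hcon
      exact chain_pow_ne h (by omega) h1
    refine ⟨u * π ^ (j - (r - i)), ?_⟩
    have h4 : j = (r - i) + (j - (r - i)) := by omega
    calc (u : o) * π ^ j = u * π ^ ((r - i) + (j - (r - i))) := by rw [← h4]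
      _ = π ^ (r - i) * (u * π ^ (j - (r - i))) := by rw [pow_add]; ring
  · rintro ⟨y, rfl⟩
    rw [← mul_assoc, ← pow_add]
    have : i + (r - i) = r := by omega
    rw [this, h.pow, zero_mul]

theorem card_sub_mul {R M : Type} [Ring R] [AddCommGroup M] [Module R M] (N : Submodule R M) :
    Nat.card M = Nat.card (M ⧸ N) * Nat.card N :=
  N.toAddSubgroup.card_eq_card_quotient_mul_card_addSubgroup

theorem card_ker_range {R M N : Type} [Ring R] [AddCommGroup M] [Module R M] [AddCommGroup N]
    [Module R N] (f : M →ₗ[R] N) :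
    Nat.card M = Nat.card (LinearMap.range f) * Nat.card (LinearMap.ker f) := by
  rw [card_sub_mul (LinearMap.ker f), Nat.card_congr f.quotKerEquivRange.toEquiv]

theorem fin_quot {R M : Type} [Ring R] [AddCommGroup M] [Module R M] [Finite M]
    (N : Submodule R M) : Finite (M ⧸ N) :=
  Finite.of_surjective _ (Submodule.mkQ_surjective N)

theorem fin_res (o : Type) [CommRing o] [IsLocalRing o] [Finite o] :
    Finite (IsLocalRing.ResidueField o) :=
  Finite.of_surjective _ (IsLocalRing.residue_surjective (R := o))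

theorem chain_card_last (h : IsChain o π r) :
    Nat.card (Ideal.span {π ^ (r - 1)} : Ideal o) = Nat.card (IsLocalRing.ResidueField o) := by
  have hker : LinearMap.ker (LinearMap.mulLeft o (π ^ (r - 1))) = IsLocalRing.maximalIdeal o := by
    ext x
    rw [LinearMap.mem_ker, LinearMap.mulLeft_apply, chain_ann h (r - 1) (by omega), h.max,
      Ideal.mem_span_singleton]
    have hr : r - (r - 1) = 1 := by have := h.pos; omega
    rw [hr, pow_one]
    exact Iff.rfl
  have hran : LinearMap.range (LinearMap.mulLeft o (π ^ (r - 1))) = Ideal.span {π ^ (r - 1)} := by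
    ext x
    rw [LinearMap.mem_range, Ideal.mem_span_singleton]
    constructor
    · rintro ⟨y, rfl⟩
      exact ⟨y, rfl⟩
    · rintro ⟨y, rfl⟩
      exact ⟨y, rfl⟩
  have h1 := card_ker_range (LinearMap.mulLeft o (π ^ (r - 1)))
  rw [hker, hran, card_sub_mul (IsLocalRing.maximalIdeal o)] at h1
  have h2 : Nat.card (IsLocalRing.maximalIdeal o) ≠ 0 := Nat.card_pos.ne'
  exact (mul_right_cancel₀ h2 h1).symm

/-- HINT: the quotients `π^i o / π^(i+1) o` are one dimensional over the residue field. -/
theorem chain_card (h : IsChain o π r) (i : ℕ) (hi : i ≤ r) :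
    Nat.card (Ideal.span {π ^ i} : Ideal o) = Nat.card (IsLocalRing.ResidueField o) ^ (r - i) := by
  obtain ⟨k, hk⟩ : ∃ k, r = i + k := ⟨r - i, by omega⟩
  have hki : r - i = k := by omega
  rw [hki]
  clear hki
  induction k generalizing i with
  | zero =>
    have h0 : π ^ i = 0 := by
      have : i = r := by omega
      rw [this, h.pow]
    rw [h0, pow_zero]
    have : (Ideal.span {(0 : o)} : Ideal o) = ⊥ := by simp
    rw [this]
    simp
  | succ k ih =>
    have ih' := ih (i + 1) (by omega) (by omega)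
    -- multiplication by π on span {π ^ i}
    let f : (Ideal.span {π ^ i} : Ideal o) →ₗ[o] o :=
      (LinearMap.mulLeft o π).comp (Submodule.subtype _)
    have hran : LinearMap.range f = Ideal.span {π ^ (i + 1)} := by
      ext x
      rw [LinearMap.mem_range, Ideal.mem_span_singleton]
      constructor
      · rintro ⟨⟨y, hy⟩, rfl⟩
        obtain ⟨z, rfl⟩ := Ideal.mem_span_singleton.1 hy
        refine ⟨z, ?_⟩
        change π * (π ^ i * z) = _
        rw [pow_succ]; ring
      · rintro ⟨z, rfl⟩
        refine ⟨⟨π ^ i * z, Ideal.mem_span_singleton.2 ⟨z, rfl⟩⟩, ?_⟩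
        change π * (π ^ i * z) = _
        rw [pow_succ]; ring
    have hker : Nat.card (LinearMap.ker f) = Nat.card (Ideal.span {π ^ (r - 1)} : Ideal o) := by
      refine Nat.card_congr ⟨fun x => ⟨x.1.1, ?_⟩, fun x => ⟨⟨x.1, ?_⟩, ?_⟩, ?_, ?_⟩
      · have hx : π * x.1.1 = 0 := x.2
        have hx' : π ^ 1 * x.1.1 = 0 := by rw [pow_one]; exact hx
        rw [chain_ann h 1 h.pos] at hx'
        exact Ideal.mem_span_singleton.2 hx'
      · obtain ⟨z, hz⟩ := Ideal.mem_span_singleton.1 x.2
        rw [hz]
        have : r - 1 = i + (r - 1 - i) := by omega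
        rw [this, pow_add, mul_assoc]
        exact Ideal.mem_span_singleton.2 ⟨_, rfl⟩
      · have hx := Ideal.mem_span_singleton.1 x.2
        have hx' := (chain_ann h 1 h.pos x.1).2 hx
        rw [pow_one] at hx'
        exact hx'
      · intro x; rfl
      · intro x; rfl
    have h1 := card_ker_range f
    rw [hran, hker, ih', chain_card_last h] at h1
    rw [h1, pow_succ]

theorem chain_card' (h : IsChain o π r) :
    Nat.card o = Nat.card (IsLocalRing.ResidueField o) ^ r := by
  have h1 := chain_card h 0 (Nat.zero_le _)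
  rw [pow_zero, Ideal.span_singleton_one, Nat.sub_zero] at h1
  rw [← h1]
  exact (Nat.card_congr (Submodule.topEquiv (R := o) (M := o)).toEquiv).symm

/-- ideals of a chain ring -/
theorem chain_ideal (h : IsChain o π r) (I : Ideal o) : ∃ i ≤ r, I = Ideal.span {π ^ i} := by
  classical
  have hex : ∃ k, π ^ k ∈ I := ⟨r, by rw [h.pow]; exact I.zero_mem⟩
  refine ⟨Nat.find hex, Nat.find_min' hex (by rw [h.pow]; exact I.zero_mem), ?_⟩
  apply le_antisymm
  · intro x hx
    rw [Ideal.mem_span_singleton]
    by_cases hx0 : x = 0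
    · rw [hx0]; exact dvd_zero _
    obtain ⟨j, hj, u, rfl⟩ := chain_elem h x hx0
    have hjI : π ^ j ∈ I := by
      have := I.mul_mem_left (↑u⁻¹ : o) hx
      rwa [← mul_assoc, Units.inv_mul, one_mul] at this
    have hle := Nat.find_min' hex hjI
    exact dvd_mul_of_dvd_right (pow_dvd_pow π hle) _
  · rw [Ideal.span_singleton_le_iff_mem]
    exact Nat.find_spec hex

/-- the cyclic submodule -/
theorem chain_card_cyclic (h : IsChain o π r) (M : Type) [AddCommGroup M] [Module o M] [Finite M]
    (x : M) : ∃ i ≤ r, Nat.card (Submodule.span o {x}) = Nat.card (IsLocalRing.ResidueField o) ^ i ∧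
      (∀ j, π ^ j • x = 0 ↔ π ^ j ∈ (Ideal.span {π ^ i} : Ideal o)) := by
  obtain ⟨i, hi, hI⟩ := chain_ideal h (LinearMap.ker (LinearMap.toSpanSingleton o M x))
  refine ⟨i, hi, ?_, ?_⟩
  · have h1 := card_ker_range (LinearMap.toSpanSingleton o M x)
    rw [hI, chain_card h i hi, chain_card' h, LinearMap.range_toSpanSingleton] at h1
    have h2 : Nat.card (IsLocalRing.ResidueField o) ^ (r - i) ≠ 0 := by
      have := fin_res o
      have : Nat.card (IsLocalRing.ResidueField o) ≠ 0 := Nat.card_pos.ne'
      exact pow_ne_zero _ this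
    have h3 : Nat.card (IsLocalRing.ResidueField o) ^ r =
        Nat.card (IsLocalRing.ResidueField o) ^ i *
          Nat.card (IsLocalRing.ResidueField o) ^ (r - i) := by
      rw [← pow_add]
      congr 1
      omega
    rw [h3] at h1
    exact (mul_right_cancel₀ h2 h1).symm
  · intro j
    rw [← hI, LinearMap.mem_ker, LinearMap.toSpanSingleton_apply]

/-- A finite `o`-module has a power of `q` as its cardinality. HINT: filtration by `π^i M`. -/
theorem chain_card_module (h : IsChain o π r) (M : Type) [AddCommGroup M] [Module o M] [Finite M] :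
    ∃ k : ℕ, Nat.card M = Nat.card (IsLocalRing.ResidueField o) ^ k := by
  obtain ⟨n, hn⟩ : ∃ n, Nat.card M = n := ⟨_, rfl⟩
  induction n using Nat.strong_induction_on generalizing M with
  | _ n ih =>
    by_cases hM : Subsingleton M
    · refine ⟨0, ?_⟩
      rw [pow_zero]
      exact Nat.card_unique
    · rw [not_subsingleton_iff_nontrivial] at hM
      obtain ⟨x, hx⟩ := exists_ne (0 : M)
      obtain ⟨i, hi, hc, -⟩ := chain_card_cyclic h M x
      set N := Submodule.span o {x} with hN
      have hsum := card_sub_mul N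
      have hN1 : 1 < Nat.card N := by
        rw [Finite.one_lt_card_iff_nontrivial]
        refine ⟨⟨⟨x, Submodule.mem_span_singleton_self x⟩, 0, fun h0 => hx (congrArg Subtype.val h0)⟩⟩
      have := fin_quot N
      have hQ : 0 < Nat.card (M ⧸ N) := Nat.card_pos
      have hlt : Nat.card (M ⧸ N) < n := by
        rw [← hn, hsum]
        exact lt_mul_of_one_lt_right hQ hN1
      obtain ⟨k, hk⟩ := ih _ hlt (M ⧸ N) rfl
      exact ⟨k + i, by rw [hsum, hk, hc, pow_add]⟩

/-- A module of length `k` (cardinality `q ^ k`) is killed by `π ^ k`. -/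
theorem chain_kill (h : IsChain o π r) (M : Type) [AddCommGroup M] [Module o M] [Finite M] (k : ℕ)
    (hk : Nat.card M = Nat.card (IsLocalRing.ResidueField o) ^ k) (x : M) : π ^ k • x = 0 := by
  obtain ⟨i, hi, hc, hz⟩ := chain_card_cyclic h M x
  rw [hz, Ideal.mem_span_singleton]
  apply pow_dvd_pow
  have hle : Nat.card (Submodule.span o {x}) ≤ Nat.card M :=
    Nat.card_le_card_of_injective _ Subtype.val_injective
  rw [hc, hk] at hle
  have := fin_res o
  have hq : 1 < Nat.card (IsLocalRing.ResidueField o) := by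
    rw [Finite.one_lt_card_iff_nontrivial]
    infer_instance
  exact (Nat.pow_le_pow_iff_right hq).1 hle

end Pool.Agent.Lib.MP_fa0f6c_al.Cx
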