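import Pool.Agent.Lib.MP_fa0f6c_al.Cx.A01

set_option autoImplicit false

namespace Pool.Agent.Lib.MP_fa0f6c_al.Cx

variable {R : Type} [Ring R]

/-- `m` kills off-diagonal elements. HINT: `x = ε x`, `x ε = 0`: `m x = m (ε x) = m (x ε) = m 0`. -/
theorem m_offdiag' {E : Subring R} {I : Submodule ℤ R} (h : IsNilIdeal E I) {m : R → ℂ}
    (hm : IsHom I m) (hs : IsSym E I m) {ε : R} (hε : ε ∈ E) {x : R} (hx : x ∈ I)
    (h1 : ε * x = x) (h2 : x * ε = 0) : m x = 1 := by
  have h3 := hs ε hε x hx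
  rw [h1, h2] at h3
  rw [h3]
  exact hm.zero

theorem m_offdiag'' {E : Subring R} {I : Submodule ℤ R} (h : IsNilIdeal E I) {m : R → ℂ}
    (hm : IsHom I m) (hs : IsSym E I m) {ε : R} (hε : ε ∈ E) {x : R} (hx : x ∈ I)
    (h1 : x * ε = x) (h2 : ε * x = 0) : m x = 1 := by
  have h3 := hs ε hε x hx
  rw [h1, h2] at h3
  rw [← h3]
  exact hm.zero

/-- LDU formula. `ε` idempotent, `ε' = 1 - ε`, `1 + z` the inverse of `1 + ε' y ε'`.
PROOF: `1 + y = (1 + u) (1 + a + d) (1 + l)` with `u = ε y ε' (1 + z)`, `l = (1 + z) ε' y ε`, `d = ε' y ε'`,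
`a = ε y ε - ε y ε' (1 + z) ε' y ε`; `m u = m l = 1` and `1 + a + d = (1 + a)(1 + d)`. -/
theorem ldu {E : Subring R} {I : Submodule ℤ R} (h : IsNilIdeal E I) {m : R → ℂ}
    (hm : IsHom I m) (hs : IsSym E I m) {ε : R} (hε : ε ∈ E) (hid : ε * ε = ε) {y z : R}
    (hy : y ∈ I) (hz : z ∈ I) (hz1 : (1 + (1 - ε) * y * (1 - ε)) * (1 + z) = 1)
    (hz2 : (1 + z) * (1 + (1 - ε) * y * (1 - ε)) = 1) :
    m y = m (ε * y * ε - ε * y * (1 - ε) * (1 + z) * (1 - ε) * y * ε) *
      m ((1 - ε) * y * (1 - ε)) := by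
  have hε' : 1 - ε ∈ E := E.sub_mem E.one_mem hε
  have hzE : 1 + z ∈ E := E.add_mem E.one_mem (h.le _ hz)
  have e1 : ε * (1 - ε) = 0 := by rw [mul_sub, mul_one, hid, sub_self]
  have e2 : (1 - ε) * ε = 0 := by rw [sub_mul, one_mul, hid, sub_self]
  set d : R := (1 - ε) * y * (1 - ε) with hd
  have hed : ε * d = 0 := by rw [hd, mul_assoc, ← mul_assoc, e1, zero_mul]
  have hde : d * ε = 0 := by rw [hd, mul_assoc, e2, mul_zero]
  have hez : ε * (1 + z) = ε := by
    have h3 : ε * ((1 + d) * (1 + z)) = ε := by rw [hz1, mul_one]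
    rwa [← mul_assoc, mul_add ε 1 d, mul_one, hed, add_zero] at h3
  have hze : (1 + z) * ε = ε := by
    have h3 : ((1 + z) * (1 + d)) * ε = ε := by rw [hz2, one_mul]
    rwa [mul_assoc, add_mul 1 d ε, one_mul, hde, add_zero] at h3
  set u : R := ε * y * (1 - ε) * (1 + z) with hu
  set l : R := (1 + z) * (1 - ε) * y * ε with hl
  set a : R := ε * y * ε - ε * y * (1 - ε) * (1 + z) * (1 - ε) * y * ε with ha
  have hdI : d ∈ I := h.mulR _ hε' _ (h.mulL _ hε' _ hy)
  have huI : u ∈ I := h.mulR _ hzE _ (h.mulR _ hε' _ (h.mulL _ hε _ hy))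
  have hlI : l ∈ I := h.mulR _ hε _ (h.mulL _ (E.mul_mem hzE hε') _ hy)
  have haI : a ∈ I := by
    refine I.sub_mem (h.mulR _ hε _ (h.mulL _ hε _ hy)) ?_
    refine h.mulR _ hε _ (h.mulL _ ?_ _ hy)
    exact E.mul_mem (E.mul_mem (E.mul_mem (E.mul_mem hε (h.le _ hy)) hε') hzE) hε'
  have hueps : u * ε = 0 := by
    rw [hu, mul_assoc, hze, mul_assoc, e2, mul_zero]
  have hepsl : ε * l = 0 := by
    have h3 : ε * l = (ε * (1 + z)) * ((1 - ε) * (y * ε)) := by
      rw [hl]; simp only [mul_assoc]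
    rw [h3, hez, ← mul_assoc, e1, zero_mul]
  have hae : ε * a = a := by
    rw [ha, mul_sub]
    simp only [← mul_assoc]
    rw [hid]
  have hae' : a * ε = a := by
    rw [ha, sub_mul]
    rw [mul_assoc (ε * y) ε ε, hid, mul_assoc _ ε ε, hid]
  have hua : u * a = 0 := by rw [← hae, ← mul_assoc, hueps, zero_mul]
  have hal : a * l = 0 := by rw [← hae', mul_assoc, hepsl, mul_zero]
  have had : a * d = 0 := by rw [← hae', mul_assoc, hed, mul_zero]
  have hud : u + u * d = ε * y * (1 - ε) := by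
    have h3 : u + u * d = ε * y * (1 - ε) * ((1 + z) * (1 + d)) := by
      rw [hu]; noncomm_ring
    rw [h3, hz2, mul_one]
  have hdl : l + d * l = (1 - ε) * y * ε := by
    have h3 : l + d * l = ((1 + d) * (1 + z)) * ((1 - ε) * y * ε) := by
      rw [hl]; noncomm_ring
    rw [h3, hz1, one_mul]
  -- the values
  have m1 : m (a + d) = m a * m d := by
    have h3 := hm.mul a haI d hdI
    rwa [had, add_zero] at h3
  have hadI : a + d ∈ I := I.add_mem haI hdI
  have m2 : m (u + (a + d) + u * (a + d)) = m (a + d) := by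
    rw [hm.mul u huI (a + d) hadI]
    have h3 : m u = 1 := by
      refine m_offdiag' h hm hs hε huI ?_ hueps
      rw [hu]
      simp only [← mul_assoc]
      rw [hid]
    rw [h3, one_mul]
  have hWI : u + (a + d) + u * (a + d) ∈ I :=
    I.add_mem (I.add_mem huI hadI) (h.mulL _ (h.le _ huI) _ hadI)
  have m3 : m ((u + (a + d) + u * (a + d)) + l + (u + (a + d) + u * (a + d)) * l) = m (a + d) := by
    rw [hm.mul _ hWI l hlI, m2]
    have h3 : m l = 1 := by
      refine m_offdiag'' h hm hs hε hlI ?_ hepsl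
      rw [hl, mul_assoc _ ε ε, hid]
    rw [h3, mul_one]
  have hW : u + (a + d) + u * (a + d) = a + d + ε * y * (1 - ε) := by
    rw [mul_add, hua, zero_add, ← hud]
    abel
  have hfin : (u + (a + d) + u * (a + d)) + l + (u + (a + d) + u * (a + d)) * l = y := by
    rw [hW]
    have h3 : a + d + ε * y * (1 - ε) + l + (a + d + ε * y * (1 - ε)) * l =
        a + d + ε * y * (1 - ε) + (l + d * l) + a * l + ε * y * (1 - ε) * l := by
      noncomm_ring
    rw [h3, hdl, hal, ha, hd, hl]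
    noncomm_ring
  rw [hfin] at m3
  rw [m3, m1]

end Pool.Agent.Lib.MP_fa0f6c_al.Cx
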