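import Pool.Agent.Lib.MP_fa0f6c_al.Cx.G01
import Pool.Agent.Lib.MP_fa0f6c_al.Cx.F01
import Pool.Agent.Lib.MP_fa0f6c_al.Cx.F11

set_option autoImplicit false

namespace Pool.Agent.Lib.MP_fa0f6c_al.Cx

section aux

variable {o : Type} [CommRing o]

/-- the ring of the pair -/
private def Epr (π : o) (a c : ℕ) : Subring (Matrix (Fin 2) (Fin 2) o) where
  carrier := {x | π ^ a ∣ x 0 1 ∧ π ^ c ∣ x 1 0}
  zero_mem' := ⟨dvd_zero _, dvd_zero _⟩
  one_mem' := ⟨by simp, by simp⟩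
  add_mem' := fun {x y} hx hy => ⟨dvd_add hx.1 hy.1, dvd_add hx.2 hy.2⟩
  neg_mem' := fun {x} hx => ⟨(dvd_neg).2 hx.1, (dvd_neg).2 hx.2⟩
  mul_mem' := fun {x y} hx hy => by
    constructor
    · rw [Matrix.mul_apply, Fin.sum_univ_two]
      exact dvd_add (dvd_mul_of_dvd_right hy.1 _) (dvd_mul_of_dvd_left hx.1 _)
    · rw [Matrix.mul_apply, Fin.sum_univ_two]
      exact dvd_add (dvd_mul_of_dvd_left hx.2 _) (dvd_mul_of_dvd_right hy.2 _)

/-- the ideals of the pair -/
private def Jpr (π : o) (d a c : ℕ) : Submodule ℤ (Matrix (Fin 2) (Fin 2) o) where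
  carrier := {x | π ^ d ∣ x 0 0 ∧ π ^ d ∣ x 1 1 ∧ π ^ a ∣ x 0 1 ∧ π ^ c ∣ x 1 0}
  zero_mem' := ⟨dvd_zero _, dvd_zero _, dvd_zero _, dvd_zero _⟩
  add_mem' := fun {x y} hx hy => ⟨dvd_add hx.1 hy.1, dvd_add hx.2.1 hy.2.1,
    dvd_add hx.2.2.1 hy.2.2.1, dvd_add hx.2.2.2 hy.2.2.2⟩
  smul_mem' := fun n x hx => by
    have e : ∀ i j, (n • x) i j = (n : o) * x i j := fun i j => by
      rw [Matrix.smul_apply, zsmul_eq_mul]
    refine ⟨?_, ?_, ?_, ?_⟩
    · rw [e]; exact dvd_mul_of_dvd_right hx.1 _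
    · rw [e]; exact dvd_mul_of_dvd_right hx.2.1 _
    · rw [e]; exact dvd_mul_of_dvd_right hx.2.2.1 _
    · rw [e]; exact dvd_mul_of_dvd_right hx.2.2.2 _

private theorem Jpr_pow (π : o) (a c : ℕ) (h1 : 1 ≤ a + c) (k : ℕ) :
    Jpr π 1 a c ^ (k + 1) ≤ Jpr π ((k + 2) / 2) (a + (k + 1) / 2) (c + (k + 1) / 2) := by
  induction k with
  | zero =>
    rw [zero_add, pow_one]
    exact le_of_eq (by norm_num)
  | succ k ih =>
    rw [pow_succ, Submodule.mul_le]
    intro x hx y hy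
    obtain ⟨x1, x2, x3, x4⟩ := ih hx
    obtain ⟨y1, y2, y3, y4⟩ := hy
    have hm : ∀ {p q s : ℕ} {u v : o}, π ^ p ∣ u → π ^ q ∣ v → s ≤ p + q → π ^ s ∣ u * v := by
      intro p q s u v hu hv hs
      have h := mul_dvd_mul hu hv
      rw [← pow_add] at h
      exact (pow_dvd_pow π hs).trans h
    refine ⟨?_, ?_, ?_, ?_⟩
    · rw [Matrix.mul_apply, Fin.sum_univ_two]
      exact dvd_add (hm x1 y1 (by omega)) (hm x3 y4 (by omega))
    · rw [Matrix.mul_apply, Fin.sum_univ_two]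
      exact dvd_add (hm x4 y3 (by omega)) (hm x2 y2 (by omega))
    · rw [Matrix.mul_apply, Fin.sum_univ_two]
      exact dvd_add (hm x1 y3 (by omega)) (hm x3 y2 (by omega))
    · rw [Matrix.mul_apply, Fin.sum_univ_two]
      exact dvd_add (hm x4 y1 (by omega)) (hm x2 y4 (by omega))

private theorem Jpr_ideal (π : o) (r a c : ℕ) (h1 : 1 ≤ a + c) (hr : π ^ r = 0) :
    IsNilIdeal (Epr π a c) (Jpr π 1 a c) := by
  have hac : π ^ 1 ∣ π ^ (a + c) := pow_dvd_pow π h1
  refine ⟨fun x hx => ⟨hx.2.2.1, hx.2.2.2⟩, ?_, ?_, ?_⟩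
  · intro f hf x hx
    refine ⟨?_, ?_, ?_, ?_⟩
    · rw [Matrix.mul_apply, Fin.sum_univ_two]
      refine dvd_add (dvd_mul_of_dvd_right hx.1 _) (hac.trans ?_)
      rw [pow_add]
      exact mul_dvd_mul hf.1 hx.2.2.2
    · rw [Matrix.mul_apply, Fin.sum_univ_two]
      refine dvd_add (hac.trans ?_) (dvd_mul_of_dvd_right hx.2.1 _)
      rw [pow_add, mul_comm (π ^ a)]
      exact mul_dvd_mul hf.2 hx.2.2.1
    · rw [Matrix.mul_apply, Fin.sum_univ_two]
      exact dvd_add (dvd_mul_of_dvd_right hx.2.2.1 _) (dvd_mul_of_dvd_left hf.1 _)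
    · rw [Matrix.mul_apply, Fin.sum_univ_two]
      exact dvd_add (dvd_mul_of_dvd_left hf.2 _) (dvd_mul_of_dvd_right hx.2.2.2 _)
  · intro f hf x hx
    refine ⟨?_, ?_, ?_, ?_⟩
    · rw [Matrix.mul_apply, Fin.sum_univ_two]
      refine dvd_add (dvd_mul_of_dvd_left hx.1 _) (hac.trans ?_)
      rw [pow_add]
      exact mul_dvd_mul hx.2.2.1 hf.2
    · rw [Matrix.mul_apply, Fin.sum_univ_two]
      refine dvd_add (hac.trans ?_) (dvd_mul_of_dvd_left hx.2.1 _)
      rw [pow_add, mul_comm (π ^ a)]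
      exact mul_dvd_mul hx.2.2.2 hf.1
    · rw [Matrix.mul_apply, Fin.sum_univ_two]
      exact dvd_add (dvd_mul_of_dvd_right hf.1 _) (dvd_mul_of_dvd_left hx.2.2.1 _)
    · rw [Matrix.mul_apply, Fin.sum_univ_two]
      exact dvd_add (dvd_mul_of_dvd_left hx.2.2.2 _) (dvd_mul_of_dvd_right hf.2 _)
  · refine ⟨(2 * r) + 1, ?_⟩
    rw [Submodule.zero_eq_bot, eq_bot_iff]
    intro x hx
    obtain ⟨x1, x2, x3, x4⟩ := Jpr_pow π a c h1 (2 * r) hx
    have hz : ∀ {n : ℕ} {u : o}, π ^ n ∣ u → r ≤ n → u = 0 := by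
      intro n u hu hn
      have h := (pow_dvd_pow π hn).trans hu
      rw [hr, zero_dvd_iff] at h
      exact h
    rw [Submodule.mem_bot]
    ext i j
    fin_cases i <;> fin_cases j
    · exact hz x1 (by omega)
    · exact hz x3 (by omega)
    · exact hz x4 (by omega)
    · exact hz x2 (by omega)

private theorem e0_mul_mul (x : Matrix (Fin 2) (Fin 2) o) :
    (Matrix.single 0 0 1 : Matrix (Fin 2) (Fin 2) o) * x * Matrix.single 0 0 1 =
      Matrix.single 0 0 (x 0 0) := by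
  ext i j
  fin_cases i <;> fin_cases j <;> simp [Matrix.mul_apply, Matrix.single_apply]

private theorem one_sub_e0 :
    (1 - Matrix.single 0 0 1 : Matrix (Fin 2) (Fin 2) o) = Matrix.single 1 1 1 := by
  ext i j
  fin_cases i <;> fin_cases j <;> simp

private theorem e1_mul_mul (x : Matrix (Fin 2) (Fin 2) o) :
    (Matrix.single 1 1 1 : Matrix (Fin 2) (Fin 2) o) * x * Matrix.single 1 1 1 =
      Matrix.single 1 1 (x 1 1) := by
  ext i j
  fin_cases i <;> fin_cases j <;> simp [Matrix.mul_apply, Matrix.single_apply]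

private theorem e01_mul_mul (x : Matrix (Fin 2) (Fin 2) o) :
    (Matrix.single 0 0 1 : Matrix (Fin 2) (Fin 2) o) * x * Matrix.single 1 1 1 =
      Matrix.single 0 1 (x 0 1) := by
  ext i j
  fin_cases i <;> fin_cases j <;> simp [Matrix.mul_apply, Matrix.single_apply]

private theorem e10_mul_mul (x : Matrix (Fin 2) (Fin 2) o) :
    (Matrix.single 1 1 1 : Matrix (Fin 2) (Fin 2) o) * x * Matrix.single 0 0 1 =
      Matrix.single 1 0 (x 1 0) := by
  ext i j
  fin_cases i <;> fin_cases j <;> simp [Matrix.mul_apply, Matrix.single_apply]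

/-- the main step: if the two characters agree on `π ^ (a' + c')`, units of the larger ring lie in
`t.E` -/
private theorem pair_aux {π : o} {r : ℕ} (hr : π ^ r = 0) (t : Stage (Matrix (Fin 2) (Fin 2) o))
    (a c a' c' : ℕ) (ha : a' ≤ a) (hc : c' ≤ c) (h1 : 1 ≤ a' + c')
    (hE : ∀ x, x ∈ t.E ↔ (∃ z, x 0 1 = π ^ a * z) ∧ ∃ z, x 1 0 = π ^ c * z)
    (hI : ∀ x, x ∈ t.I ↔ (∃ z, x 0 0 = π * z) ∧ (∃ z, x 1 1 = π * z) ∧
      (∃ z, x 0 1 = π ^ a * z) ∧ ∃ z, x 1 0 = π ^ c * z)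
    (heq : ∀ z, t.m (Matrix.single 0 0 (π ^ (a' + c') * z)) =
      t.m (Matrix.single 1 1 (π ^ (a' + c') * z)))
    (g : (Matrix (Fin 2) (Fin 2) o)ˣ) (hg : (g : Matrix (Fin 2) (Fin 2) o) ∈ Epr π a' c')
    (hg' : ((g⁻¹ : (Matrix (Fin 2) (Fin 2) o)ˣ) : Matrix (Fin 2) (Fin 2) o) ∈ Epr π a' c') :
    (g : Matrix (Fin 2) (Fin 2) o) ∈ t.E := by
  set ε : Matrix (Fin 2) (Fin 2) o := Matrix.single 0 0 1 with hεdef
  have hε1 : (1 - ε) = Matrix.single 1 1 1 := one_sub_e0
  have hJ : IsNilIdeal (Epr π a' c') (Jpr π 1 a' c') := Jpr_ideal π r a' c' h1 hr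
  have hεE : ε ∈ Epr π a' c' := by
    constructor
    · simp [hεdef]
    · simp [hεdef]
  have hid : ε * ε = ε := by simp [hεdef]
  have hIJ : ∀ x ∈ t.I, x ∈ Jpr π 1 a' c' := by
    intro x hx
    obtain ⟨x1, x2, x3, x4⟩ := (hI x).1 hx
    refine ⟨?_, ?_, (pow_dvd_pow π ha).trans x3, (pow_dvd_pow π hc).trans x4⟩
    · rw [pow_one]; exact x1
    · rw [pow_one]; exact x2
  have hs0 : ∀ {u : o}, π ∣ u → Matrix.single 0 0 u ∈ t.I := by
    rintro u ⟨w, rfl⟩
    rw [hI]
    exact ⟨⟨w, by simp⟩, ⟨0, by simp⟩, ⟨0, by simp⟩, ⟨0, by simp⟩⟩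
  have hs1 : ∀ {u : o}, π ∣ u → Matrix.single 1 1 u ∈ t.I := by
    rintro u ⟨w, rfl⟩
    rw [hI]
    exact ⟨⟨0, by simp⟩, ⟨w, by simp⟩, ⟨0, by simp⟩, ⟨0, by simp⟩⟩
  have hx0 : ∀ x, ε * x * ε = x → x = Matrix.single 0 0 (x 0 0) := by
    intro x hx
    rw [← e0_mul_mul]; exact hx.symm
  have hx1 : ∀ x, (1 - ε) * x * (1 - ε) = x → x = Matrix.single 1 1 (x 1 1) := by
    intro x hx
    rw [← e1_mul_mul, ← hε1]; exact hx.symm
  have hx01 : ∀ x, ε * x * (1 - ε) = x → x = Matrix.single 0 1 (x 0 1) := by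
    intro x hx
    rw [← e01_mul_mul, ← hε1]; exact hx.symm
  have hx10 : ∀ x, (1 - ε) * x * ε = x → x = Matrix.single 1 0 (x 1 0) := by
    intro x hx
    rw [← e10_mul_mul, ← hε1]; exact hx.symm
  obtain ⟨m', hm', hs', hm1, hm2⟩ := glue (Epr π a' c') (Jpr π 1 a' c') hJ ε hεE hid
    (by
      intro x hx
      rw [hε1, hεdef, e01_mul_mul]
      refine ⟨by simp, by simp, by simpa using hx.1, by simp⟩)
    (by
      intro x hx
      rw [hε1, hεdef, e10_mul_mul]
      refine ⟨by simp, by simp, by simp, by simpa using hx.2⟩)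
    (fun x => t.m (Matrix.single 0 0 (x 0 0))) (fun x => t.m (Matrix.single 1 1 (x 1 1)))
    (by simpa using t.hom.zero) (by simpa using t.hom.zero)
    (by
      intro x hx y hy ex ey
      have h1 := hx0 x ex
      have h2 := hx0 y ey
      have e : (Matrix.single 0 0 ((x + y + x * y) 0 0) : Matrix (Fin 2) (Fin 2) o) =
          Matrix.single 0 0 (x 0 0) + Matrix.single 0 0 (y 0 0) +
            Matrix.single 0 0 (x 0 0) * Matrix.single 0 0 (y 0 0) := by
        rw [← h1, ← h2]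
        exact (hx0 _ (by rw [mul_add, mul_add, add_mul, add_mul, ex, ey,
          show ε * (x * y) * ε = x * y by
            calc ε * (x * y) * ε = (ε * x) * (y * ε) := by noncomm_ring
              _ = x * y := by
                rw [show ε * x = x by rw [← ex, ← mul_assoc, ← mul_assoc, hid],
                  show y * ε = y by rw [← ey, mul_assoc, hid]]])).symm
      show t.m _ = t.m _ * t.m _
      rw [e]
      have d1 := hx.1
      have d2 := hy.1
      rw [pow_one] at d1 d2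
      exact t.hom.mul _ (hs0 d1) _ (hs0 d2))
    (by
      intro x hx y hy ex ey
      have hid' : (1 - ε) * (1 - ε) = 1 - ε := by
        rw [mul_sub, sub_mul, sub_mul, hid]; noncomm_ring
      have h1 := hx1 x ex
      have h2 := hx1 y ey
      have e : (Matrix.single 1 1 ((x + y + x * y) 1 1) : Matrix (Fin 2) (Fin 2) o) =
          Matrix.single 1 1 (x 1 1) + Matrix.single 1 1 (y 1 1) +
            Matrix.single 1 1 (x 1 1) * Matrix.single 1 1 (y 1 1) := by
        rw [← h1, ← h2]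
        exact (hx1 _ (by rw [mul_add, mul_add, add_mul, add_mul, ex, ey,
          show (1 - ε) * (x * y) * (1 - ε) = x * y by
            calc (1 - ε) * (x * y) * (1 - ε) = ((1 - ε) * x) * (y * (1 - ε)) := by
                  simp only [mul_assoc]
              _ = x * y := by
                rw [show (1 - ε) * x = x by rw [← ex, ← mul_assoc, ← mul_assoc, hid'],
                  show y * (1 - ε) = y by rw [← ey, mul_assoc, hid']]])).symm
      show t.m _ = t.m _ * t.m _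
      rw [e]
      have d1 := hx.2.1
      have d2 := hy.2.1
      rw [pow_one] at d1 d2
      exact t.hom.mul _ (hs1 d1) _ (hs1 d2))
    (by
      intro f hf x hx ef ex
      rw [hx0 f ef, hx0 x ex]
      simp [mul_comm])
    (by
      intro f hf x hx ef ex
      rw [hx1 f ef, hx1 x ex]
      simp [mul_comm])
    (by
      intro x hx y hy ex ey
      obtain ⟨u, hu⟩ := hx.1
      obtain ⟨v, hv⟩ := hy.2
      have e1 : (x * y) 0 0 = π ^ (a' + c') * (u * v) := by
        rw [hx01 x ex, hx10 y ey, hu, hv]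
        simp
        ring
      have e2 : (y * x) 1 1 = π ^ (a' + c') * (u * v) := by
        rw [hx01 x ex, hx10 y ey, hu, hv]
        simp
        ring
      show t.m (Matrix.single 0 0 ((x * y) 0 0)) = t.m (Matrix.single 1 1 ((y * x) 1 1))
      rw [e1, e2]
      exact heq _)
  -- m' = t.m on t.I
  have hεtE : ε ∈ t.E := by
    rw [hE]
    exact ⟨⟨0, by simp [hεdef]⟩, ⟨0, by simp [hεdef]⟩⟩
  have hε1tE : (1 - ε) ∈ t.E := t.E.sub_mem t.E.one_mem hεtE
  have hid' : (1 - ε) * (1 - ε) = 1 - ε := by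
    rw [mul_sub, sub_mul, sub_mul, hid]; noncomm_ring
  have hagree : ∀ y ∈ t.I, m' y = t.m y := by
    intro y hy
    have hd : (1 - ε) * y * (1 - ε) ∈ t.I :=
      t.ideal.mulR _ hε1tE _ (t.ideal.mulL _ hε1tE _ hy)
    obtain ⟨u, hu, hu1⟩ := exists_unit t.ideal hd
    set z := ((u⁻¹ : (Matrix (Fin 2) (Fin 2) o)ˣ) : Matrix (Fin 2) (Fin 2) o) - 1 with hz
    have hzI : z ∈ t.I := hu.2
    have hz1 : (1 + (1 - ε) * y * (1 - ε)) * (1 + z) = 1 := by
      rw [← hu1, hz, add_sub_cancel, Units.mul_inv]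
    have hz2 : (1 + z) * (1 + (1 - ε) * y * (1 - ε)) = 1 := by
      rw [← hu1, hz, add_sub_cancel, Units.inv_mul]
    have l1 := ldu t.ideal t.hom t.sym hεtE hid hy hzI hz1 hz2
    have l2 := ldu hJ hm' hs' hεE hid (hIJ y hy) (hIJ z hzI) hz1 hz2
    have hzE : (1 + z) ∈ t.E := t.E.add_mem t.E.one_mem (t.ideal.le _ hzI)
    have hX : ε * y * ε - ε * y * (1 - ε) * (1 + z) * (1 - ε) * y * ε ∈ t.I := by
      refine t.I.sub_mem (t.ideal.mulR _ hεtE _ (t.ideal.mulL _ hεtE _ hy)) ?_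
      refine t.ideal.mulR _ hεtE _ ?_
      refine t.ideal.mulL _ ?_ _ hy
      exact t.E.mul_mem (t.E.mul_mem (t.E.mul_mem (t.E.mul_mem hεtE (t.ideal.le _ hy)) hε1tE)
        hzE) hε1tE
    have hXe : ε * (ε * y * ε - ε * y * (1 - ε) * (1 + z) * (1 - ε) * y * ε) * ε =
        ε * y * ε - ε * y * (1 - ε) * (1 + z) * (1 - ε) * y * ε := by
      rw [mul_sub, sub_mul]
      congr 1
      · rw [← mul_assoc, ← mul_assoc, hid, mul_assoc, hid]
      · simp only [← mul_assoc]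
        rw [hid]
        rw [mul_assoc _ ε ε, hid]
    have hD : (1 - ε) * ((1 - ε) * y * (1 - ε)) * (1 - ε) = (1 - ε) * y * (1 - ε) := by
      simp only [← mul_assoc]
      rw [hid', mul_assoc _ (1 - ε) (1 - ε), hid']
    rw [l1, l2, hm1 _ (hIJ _ hX) hXe, hm2 _ (hIJ _ hd) hD]
    show t.m (Matrix.single 0 0 _) * t.m (Matrix.single 1 1 _) = _
    rw [← hx0 _ hXe, ← hx1 _ hD]
  apply t.int g
  intro x hx hgx
  rw [← hagree x hx, ← hagree _ hgx]
  have h := sym_conj hJ hs' (w := g⁻¹) hg' (by rw [inv_inv]; exact hg) (hIJ x hx)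
  rw [inv_inv] at h
  exact h.symm

end aux

/-- Two rank one corners (blueprint W2). PROOF. First claim: (T) with `f = single 0 1 (π^a)`, `x = single 1 0 (π^c z)`. Second claim: suppose
`θ₀ = θ₁` on `π^(a+c-1) o`. If `a ≥ 1` put `a' = a - 1, c' = c`, else `a' = a, c' = c - 1` (`c ≥ 2`). `E' = {x | x 0 1 ∈ π^a' o, x 1 0 ∈ π^c' o}`, `J'` = those with diagonal entries in
`π o`; nilpotent since `a' + c' ≥ 1`. `glue` (G01) for `E'`, `J'`, `ε = single 0 0 1`, `m₁ x = t.m (single 0 0 (x 0 0))`, `m₂` similarly gives `m'` on `J'` with (T) for `E'`; `m' = t.m`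
on `t.I` (`ldu` for both, `ε = single 0 0 1`). For `g = 1 + single 0 1 (π^a')` (resp. `1 + single 1 0 (π^c')`), a unit of `E'`: for `y ∈ t.I` with `g⁻¹ y g ∈ t.I`:
`t.m (g⁻¹ y g) = m' (g⁻¹ y g) = m' y = t.m y` (`sym_conj`), so `g ∈ t.E` by `t.int`: contradiction because `π^a' ∉ π^a o` (`a' < r`). -/
theorem pair_cond {o : Type} [CommRing o] [IsLocalRing o] [Finite o] {π : o} {r : ℕ}
    (hch : IsChain o π r) (t : Stage (Matrix (Fin 2) (Fin 2) o)) (a c : ℕ) (h2 : 2 ≤ a + c)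
    (har : a ≤ r) (hcr : c ≤ r)
    (hE : ∀ x, x ∈ t.E ↔ (∃ z, x 0 1 = π ^ a * z) ∧ ∃ z, x 1 0 = π ^ c * z)
    (hI : ∀ x, x ∈ t.I ↔ (∃ z, x 0 0 = π * z) ∧ (∃ z, x 1 1 = π * z) ∧
      (∃ z, x 0 1 = π ^ a * z) ∧ ∃ z, x 1 0 = π ^ c * z) :
    (∀ z, t.m (Matrix.single 0 0 (π ^ (a + c) * z)) = t.m (Matrix.single 1 1 (π ^ (a + c) * z))) ∧
      ∃ z, t.m (Matrix.single 0 0 (π ^ (a + c - 1) * z)) ≠
        t.m (Matrix.single 1 1 (π ^ (a + c - 1) * z)) := by
  constructor
  · intro z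
    have hf : (Matrix.single 0 1 (π ^ a) : Matrix (Fin 2) (Fin 2) o) ∈ t.E := by
      rw [hE]
      exact ⟨⟨1, by simp⟩, ⟨0, by simp⟩⟩
    have hx : (Matrix.single 1 0 (π ^ c * z) : Matrix (Fin 2) (Fin 2) o) ∈ t.I := by
      rw [hI]
      exact ⟨⟨0, by simp⟩, ⟨0, by simp⟩, ⟨0, by simp⟩, ⟨z, by simp⟩⟩
    have h := t.sym _ hf _ hx
    rw [Matrix.single_mul_single_same, Matrix.single_mul_single_same] at h
    have e1 : π ^ a * (π ^ c * z) = π ^ (a + c) * z := by rw [pow_add]; ring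
    have e2 : π ^ c * z * π ^ a = π ^ (a + c) * z := by rw [pow_add]; ring
    rw [e1, e2] at h
    exact h
  · by_contra hcon
    push Not at hcon
    have hpow : ∀ n, 1 ≤ n → n ≤ r → ∀ z, π ^ (n - 1) ≠ π ^ n * z := by
      intro n hn hnr z hz
      have h0 : π ^ (n - 1) * (1 - π * z) = 0 := by
        have e : π ^ n = π ^ (n - 1) * π := by
          rw [← pow_succ]; congr 1; omega
        rw [mul_sub, mul_one, ← mul_assoc, ← e, ← hz, sub_self]
      have hu : IsUnit (1 - π * z) := by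
        by_contra hnu
        rcases chain_isUnit hch (1 - π * z) with h | ⟨y, hy⟩
        · exact hnu h
        · have h1 : (1 : o) = π * (z + y) := by rw [mul_add, ← hy]; ring
          exact chain_nonunit hch (z + y) (by rw [← h1]; exact isUnit_one)
      exact chain_pow_ne hch (by omega) ((hu.mul_left_eq_zero).1 h0)
    rcases Nat.eq_zero_or_pos a with ha | ha
    · subst ha
      have hmem : ∀ s : o, (1 + Matrix.single 1 0 (π ^ (c - 1) * s) : Matrix (Fin 2) (Fin 2) o) ∈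
          Epr π 0 (c - 1) := by
        intro s
        constructor
        · simp
        · show π ^ (c - 1) ∣ (1 + Matrix.single 1 0 (π ^ (c - 1) * s) : Matrix (Fin 2) (Fin 2) o) 1 0
          simp
      have hinv : ∀ s : o, (1 + Matrix.single 1 0 s : Matrix (Fin 2) (Fin 2) o) *
          (1 + Matrix.single 1 0 (-s)) = 1 := by
        intro s
        ext i j
        fin_cases i <;> fin_cases j <;>
          simp [Matrix.mul_apply, Fin.sum_univ_two, Matrix.single_apply, Matrix.one_apply]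
      let g : (Matrix (Fin 2) (Fin 2) o)ˣ :=
        ⟨1 + Matrix.single 1 0 (π ^ (c - 1) * 1), 1 + Matrix.single 1 0 (π ^ (c - 1) * (-1)), by
          rw [mul_neg]; exact hinv _, by
          have h := hinv (-(π ^ (c - 1) * 1))
          rw [neg_neg] at h
          rw [mul_neg]; exact h⟩
      have hgE := pair_aux hch.pow t 0 c 0 (c - 1) le_rfl (by omega) (by omega) hE hI
        (by
          intro z
          have h := hcon z
          rw [show 0 + c - 1 = 0 + (c - 1) by omega] at h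
          exact h) g (hmem 1) (hmem (-1))
      obtain ⟨_, z, hz⟩ := (hE _).1 hgE
      apply hpow c (by omega) hcr z
      rw [← hz]
      show π ^ (c - 1) = (1 + Matrix.single 1 0 (π ^ (c - 1) * 1) : Matrix (Fin 2) (Fin 2) o) 1 0
      simp
    · have hmem : ∀ s : o, (1 + Matrix.single 0 1 (π ^ (a - 1) * s) : Matrix (Fin 2) (Fin 2) o) ∈
          Epr π (a - 1) c := by
        intro s
        constructor
        · show π ^ (a - 1) ∣ (1 + Matrix.single 0 1 (π ^ (a - 1) * s) : Matrix (Fin 2) (Fin 2) o) 0 1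
          simp
        · simp
      have hinv : ∀ s : o, (1 + Matrix.single 0 1 s : Matrix (Fin 2) (Fin 2) o) *
          (1 + Matrix.single 0 1 (-s)) = 1 := by
        intro s
        ext i j
        fin_cases i <;> fin_cases j <;>
          simp [Matrix.mul_apply, Fin.sum_univ_two, Matrix.single_apply, Matrix.one_apply]
      let g : (Matrix (Fin 2) (Fin 2) o)ˣ :=
        ⟨1 + Matrix.single 0 1 (π ^ (a - 1) * 1), 1 + Matrix.single 0 1 (π ^ (a - 1) * (-1)), by
          rw [mul_neg]; exact hinv _, by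
          have h := hinv (-(π ^ (a - 1) * 1))
          rw [neg_neg] at h
          rw [mul_neg]; exact h⟩
      have hgE := pair_aux hch.pow t a c (a - 1) c (by omega) le_rfl (by omega) hE hI
        (by
          intro z
          have h := hcon z
          rw [show a + c - 1 = (a - 1) + c by omega] at h
          exact h) g (hmem 1) (hmem (-1))
      obtain ⟨⟨z, hz⟩, _⟩ := (hE _).1 hgE
      apply hpow a ha har z
      rw [← hz]
      show π ^ (a - 1) = (1 + Matrix.single 0 1 (π ^ (a - 1) * 1) : Matrix (Fin 2) (Fin 2) o) 0 1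
      simp

end Pool.Agent.Lib.MP_fa0f6c_al.Cx
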