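import Pool.Agent.Lib.MP_fa0f6c_al.Cx.D05
import Pool.Agent.Lib.MP_fa0f6c_al.Cx.A02

set_option autoImplicit false

namespace Pool.Agent.Lib.MP_fa0f6c_al.Cx

variable {o : Type} [CommRing o] [IsLocalRing o] [Finite o] {π : o}

/-! ### a few counts -/

private theorem D06_card_A8 (hch : IsChain o π 16) (q : ℕ)
    (hq : Nat.card (IsLocalRing.ResidueField o) = q) :
    Nat.card (Ideal.span {π ^ 8} : Ideal o) = q ^ 8 := by
  rw [chain_card hch 8 (by norm_num), hq]

omit [IsLocalRing o] [Finite o] in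
private theorem D06_mem8 (x : o) : x ∈ (Ideal.span {π ^ 8} : Ideal o) ↔ ∃ y, x = π ^ 8 * y := by
  rw [Ideal.mem_span_singleton]
  exact Iff.rfl

/-- the map `(u, v, y) ↦ u + v X + π^8 y` -/
private def D06_Phi (π : o) (X : Matrix (Fin 2) (Fin 2) o) :
    (o × o × Matrix (Fin 2) (Fin 2) o) →ₗ[o] Matrix (Fin 2) (Fin 2) o where
  toFun p := p.1 • (1 : Matrix (Fin 2) (Fin 2) o) + p.2.1 • X + π ^ 8 • p.2.2
  map_add' p p' := by
    simp only [Prod.fst_add, Prod.snd_add, add_smul, smul_add]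
    abel
  map_smul' c p := by
    simp only [Prod.smul_fst, Prod.smul_snd, smul_eq_mul, RingHom.id_apply, smul_add, mul_smul]
    rw [smul_comm (π ^ 8) c]

omit [IsLocalRing o] [Finite o] in
private theorem D06_Phi_apply (X : Matrix (Fin 2) (Fin 2) o) (u v : o)
    (y : Matrix (Fin 2) (Fin 2) o) :
    D06_Phi π X (u, v, y) = u • (1 : Matrix (Fin 2) (Fin 2) o) + v • X + π ^ 8 • y := rfl

/-- one of the three entries is a unit -/
private theorem D06_unit {r : ℕ} (hch : IsChain o π r) (X : Matrix (Fin 2) (Fin 2) o)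
    (hX : ¬ ∃ (c : o) (Z : Matrix (Fin 2) (Fin 2) o), X = c • 1 + π • Z) :
    IsUnit (X 0 1) ∨ IsUnit (X 1 0) ∨ IsUnit (X 0 0 - X 1 1) := by
  rcases chain_isUnit hch (X 0 1) with h | ⟨b, hb⟩
  · exact Or.inl h
  rcases chain_isUnit hch (X 1 0) with h | ⟨c, hc⟩
  · exact Or.inr (Or.inl h)
  rcases chain_isUnit hch (X 0 0 - X 1 1) with h | ⟨d, hd⟩
  · exact Or.inr (Or.inr h)
  exfalso
  apply hX
  refine ⟨X 1 1, !![d, b; c, 0], ?_⟩
  ext i j
  fin_cases i <;> fin_cases j <;> simp [hb, hc]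
  rw [← hd]; ring

omit [IsLocalRing o] [Finite o] in
/-- entries of the commutator -/
private theorem D06_comm (X f : Matrix (Fin 2) (Fin 2) o) (y : Matrix (Fin 2) (Fin 2) o)
    (h : X * f - f * X = π ^ 8 • y) :
    X 0 1 * f 1 0 - f 0 1 * X 1 0 = π ^ 8 * y 0 0 ∧
    f 0 1 * (X 0 0 - X 1 1) - X 0 1 * (f 0 0 - f 1 1) = π ^ 8 * y 0 1 ∧
    X 1 0 * (f 0 0 - f 1 1) - f 1 0 * (X 0 0 - X 1 1) = π ^ 8 * y 1 0 := by
  have h00 := congrFun (congrFun h 0) 0
  have h01 := congrFun (congrFun h 0) 1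
  have h10 := congrFun (congrFun h 1) 0
  simp only [Matrix.sub_apply, Matrix.mul_apply, Fin.sum_univ_two, Matrix.smul_apply,
    smul_eq_mul] at h00 h01 h10
  refine ⟨?_, ?_, ?_⟩
  · rw [← h00]; ring
  · rw [← h01]; ring
  · rw [← h10]; ring

omit [IsLocalRing o] [Finite o] in
private theorem D06_surj (X : Matrix (Fin 2) (Fin 2) o)
    (hX : IsUnit (X 0 1) ∨ IsUnit (X 1 0) ∨ IsUnit (X 0 0 - X 1 1))
    (f y : Matrix (Fin 2) (Fin 2) o) (h : X * f - f * X = π ^ 8 • y) :
    ∃ (v : o) (a b c : o), f 0 1 = v * X 0 1 + π ^ 8 * a ∧ f 1 0 = v * X 1 0 + π ^ 8 * b ∧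
      f 0 0 - f 1 1 = v * (X 0 0 - X 1 1) + π ^ 8 * c := by
  obtain ⟨h1, h2, h3⟩ := D06_comm X f y h
  rcases hX with hu | hu | hu
  · obtain ⟨w, hw⟩ := hu.exists_right_inv
    refine ⟨f 0 1 * w, 0, w * y 0 0, -(w * y 0 1), ?_, ?_, ?_⟩
    · linear_combination (-(f 0 1)) * hw
    · linear_combination w * h1 - f 1 0 * hw
    · linear_combination (-w) * h2 - (f 0 0 - f 1 1) * hw
  · obtain ⟨w, hw⟩ := hu.exists_right_inv
    refine ⟨f 1 0 * w, -(w * y 0 0), 0, w * y 1 0, ?_, ?_, ?_⟩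
    · linear_combination (-w) * h1 - f 0 1 * hw
    · linear_combination (-(f 1 0)) * hw
    · linear_combination w * h3 - (f 0 0 - f 1 1) * hw
  · obtain ⟨w, hw⟩ := hu.exists_right_inv
    refine ⟨(f 0 0 - f 1 1) * w, w * y 0 1, -(w * y 1 0), 0, ?_, ?_, ?_⟩
    · linear_combination w * h2 - f 0 1 * hw
    · linear_combination (-w) * h3 - f 1 0 * hw
    · linear_combination (-(f 0 0 - f 1 1)) * hw

omit [IsLocalRing o] [Finite o] in
private theorem D06_range (X : Matrix (Fin 2) (Fin 2) o)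
    (hX : IsUnit (X 0 1) ∨ IsUnit (X 1 0) ∨ IsUnit (X 0 0 - X 1 1)) :
    {f : Matrix (Fin 2) (Fin 2) o | ∃ y, X * f - f * X = π ^ 8 • y} =
      (LinearMap.range (D06_Phi π X) : Set (Matrix (Fin 2) (Fin 2) o)) := by
  ext f
  constructor
  · rintro ⟨y, hy⟩
    obtain ⟨v, a, b, c, ha, hb, hc⟩ := D06_surj X hX f y hy
    refine ⟨(f 1 1 - v * X 1 1, v, !![c, a; b, 0]), ?_⟩
    rw [D06_Phi_apply]
    ext i j
    fin_cases i <;> fin_cases j <;> simp
    · linear_combination -hc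
    · linear_combination -ha
    · linear_combination -hb
  · rintro ⟨⟨u, v, y⟩, rfl⟩
    refine ⟨X * y - y * X, ?_⟩
    rw [D06_Phi_apply]
    simp only [mul_add, add_mul, Matrix.mul_smul, Matrix.smul_mul, mul_one, one_mul, smul_sub]
    abel

private theorem D06_ann (hch : IsChain o π 16) (x : o) :
    π ^ 8 * x = 0 ↔ x ∈ (Ideal.span {π ^ 8} : Ideal o) := by
  rw [chain_ann hch 8 (by norm_num), D06_mem8]

/-- the kernel of `Φ` -/
private theorem D06_ker (hch : IsChain o π 16) (q : ℕ)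
    (hq : Nat.card (IsLocalRing.ResidueField o) = q) (X : Matrix (Fin 2) (Fin 2) o)
    (hX : IsUnit (X 0 1) ∨ IsUnit (X 1 0) ∨ IsUnit (X 0 0 - X 1 1)) :
    Nat.card (LinearMap.ker (D06_Phi π X)) = q ^ 48 := by
  classical
  set A : Ideal o := Ideal.span {π ^ 8} with hA
  have hch' : ∀ x : A, ∃ y : o, (x : o) = π ^ 8 * y := fun x => (D06_mem8 _).mp x.2
  choose dv hdv using hch'
  -- the kernel condition in coordinates
  have hker : ∀ p : o × o × Matrix (Fin 2) (Fin 2) o, p ∈ LinearMap.ker (D06_Phi π X) →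
      p.1 ∈ A ∧ p.2.1 ∈ A := by
    rintro ⟨u, v, y⟩ hp
    rw [LinearMap.mem_ker, D06_Phi_apply] at hp
    have h00 := congrFun (congrFun hp 0) 0
    have h01 := congrFun (congrFun hp 0) 1
    have h10 := congrFun (congrFun hp 1) 0
    have h11 := congrFun (congrFun hp 1) 1
    simp at h00 h01 h10 h11
    have hv : v ∈ A := by
      rw [hA, D06_mem8]
      rcases hX with hu | hu | hu
      · obtain ⟨w, hw⟩ := hu.exists_right_inv
        exact ⟨-(w * y 0 1), by linear_combination w * h01 - v * hw⟩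
      · obtain ⟨w, hw⟩ := hu.exists_right_inv
        exact ⟨-(w * y 1 0), by linear_combination w * h10 - v * hw⟩
      · obtain ⟨w, hw⟩ := hu.exists_right_inv
        exact ⟨-(w * (y 0 0 - y 1 1)), by linear_combination w * (h00 - h11) - v * hw⟩
    refine ⟨?_, hv⟩
    have h1 : u = -(v * X 0 0) - π ^ 8 * y 0 0 := by linear_combination h00
    show u ∈ A
    rw [h1]
    refine A.sub_mem (A.neg_mem (A.mul_mem_right _ hv)) ?_
    rw [hA, D06_mem8]
    exact ⟨_, rfl⟩
  have hfwd : ∀ (p : LinearMap.ker (D06_Phi π X)) (i j : Fin 2),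
      ((p : o × o × Matrix (Fin 2) (Fin 2) o).2.2 + dv ⟨_, (hker p p.2).1⟩ • (1 : Matrix (Fin 2) (Fin 2) o)
        + dv ⟨_, (hker p p.2).2⟩ • X) i j ∈ A := by
    intro p i j
    refine (D06_ann hch _).mp ?_
    have hp := p.2
    rw [LinearMap.mem_ker] at hp
    have e : π ^ 8 • ((p : o × o × Matrix (Fin 2) (Fin 2) o).2.2 +
        dv ⟨_, (hker p p.2).1⟩ • (1 : Matrix (Fin 2) (Fin 2) o) + dv ⟨_, (hker p p.2).2⟩ • X) =
        D06_Phi π X p := by
      have h1 := hdv ⟨_, (hker p p.2).1⟩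
      have h2 := hdv ⟨_, (hker p p.2).2⟩
      show _ = (p : o × o × Matrix (Fin 2) (Fin 2) o).1 • (1 : Matrix (Fin 2) (Fin 2) o) +
        (p : o × o × Matrix (Fin 2) (Fin 2) o).2.1 • X + π ^ 8 • (p : o × o × Matrix (Fin 2) (Fin 2) o).2.2
      rw [smul_add, smul_add, smul_smul, smul_smul, ← h1, ← h2]
      abel
    have h3 := congrFun (congrFun e i) j
    rw [hp] at h3
    simpa using h3
  have hbwd : ∀ (u v : A) (z : Fin 2 → Fin 2 → A),
      ((u : o), (v : o), (Matrix.of (fun i j => (z i j : o)) : Matrix (Fin 2) (Fin 2) o) -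
        dv u • (1 : Matrix (Fin 2) (Fin 2) o) - dv v • X) ∈ LinearMap.ker (D06_Phi π X) := by
    intro u v z
    rw [LinearMap.mem_ker, D06_Phi_apply, smul_sub, smul_sub, smul_smul, smul_smul, ← hdv u, ← hdv v]
    have h1 : π ^ 8 • (Matrix.of (fun i j => (z i j : o)) : Matrix (Fin 2) (Fin 2) o) = 0 := by
      ext i j
      exact (D06_ann hch _).mpr (z i j).2
    rw [h1]
    abel
  let e : LinearMap.ker (D06_Phi π X) ≃ A × A × (Fin 2 → Fin 2 → A) :=
    { toFun := fun p => (⟨_, (hker p p.2).1⟩, ⟨_, (hker p p.2).2⟩, fun i j => ⟨_, hfwd p i j⟩)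
      invFun := fun w => ⟨_, hbwd w.1 w.2.1 w.2.2⟩
      left_inv := by
        intro p
        apply Subtype.ext
        refine Prod.ext rfl (Prod.ext rfl ?_)
        ext i j
        simp only [Matrix.sub_apply, Matrix.add_apply, Matrix.of_apply, Matrix.smul_apply]
        abel
      right_inv := by
        rintro ⟨u, v, z⟩
        refine Prod.ext rfl (Prod.ext rfl ?_)
        funext i j
        apply Subtype.ext
        simp only [Matrix.sub_apply, Matrix.add_apply, Matrix.of_apply, Matrix.smul_apply]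
        abel }
  have hc := D06_card_A8 hch q hq
  rw [Nat.card_congr e, Nat.card_prod, Nat.card_prod, Nat.card_fun, Nat.card_fun, Nat.card_fin]
  change Nat.card A * (Nat.card A * (Nat.card A ^ 2) ^ 2) = q ^ 48
  rw [hc]
  ring

private theorem D06_card_M (hch : IsChain o π 16) (q : ℕ)
    (hq : Nat.card (IsLocalRing.ResidueField o) = q) :
    Nat.card (Matrix (Fin 2) (Fin 2) o) = q ^ 64 := by
  have h1 : Nat.card (Matrix (Fin 2) (Fin 2) o) = Nat.card (Fin 2 → Fin 2 → o) := rfl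
  rw [h1, Nat.card_fun, Nat.card_fun, Nat.card_fin, chain_card' hch, hq]
  ring

private theorem D06_q_pos (q : ℕ) (hq : Nat.card (IsLocalRing.ResidueField o) = q) : 0 < q := by
  have := fin_res o
  rw [← hq]
  exact Nat.card_pos

/-- Commutant of a non-scalar matrix modulo `π^8`: it has `q^48` elements. HINT: `X` has a cyclic vector, the commutant modulo `π^8` is
`(o/π^8)[X]`, of cardinality `q^16`, and `π^8 M_2(o)` has `q^32` elements. -/
theorem commutant_card (hch : IsChain o π 16) (q : ℕ)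
    (hq : Nat.card (IsLocalRing.ResidueField o) = q) (X : Matrix (Fin 2) (Fin 2) o)
    (hX : ¬ ∃ (c : o) (Z : Matrix (Fin 2) (Fin 2) o), X = c • 1 + π • Z) :
    Set.ncard {f : Matrix (Fin 2) (Fin 2) o | ∃ y, X * f - f * X = π ^ 8 • y} = q ^ 48 := by
  have hu := D06_unit hch X hX
  rw [D06_range X hu]
  change Nat.card (LinearMap.range (D06_Phi π X)) = q ^ 48
  have h1 := card_ker_range (D06_Phi π X)
  rw [D06_ker hch q hq X hu, Nat.card_prod, Nat.card_prod, D06_card_M hch q hq, chain_card' hch,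
    hq] at h1
  have h2 : 0 < q ^ 48 := pow_pos (D06_q_pos q hq) _
  have h3 : Nat.card (LinearMap.range (D06_Phi π X)) * q ^ 48 = q ^ 48 * q ^ 48 := by
    rw [← h1]
    ring
  exact Nat.eq_of_mul_eq_mul_right h2 h3

/-! ### the order of `GL_2(o)` -/

private theorem D06_res_unit (x : o) : IsLocalRing.residue o x ≠ 0 ↔ IsUnit x := by
  rw [Ne, IsLocalRing.residue_eq_zero_iff, IsLocalRing.mem_maximalIdeal, mem_nonunits_iff, not_not]

private theorem D06_card_GL (hch : IsChain o π 16) (q : ℕ)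
    (hq : Nat.card (IsLocalRing.ResidueField o) = q) :
    Nat.card (Matrix (Fin 2) (Fin 2) o)ˣ = q ^ 60 * ((q ^ 2 - 1) * (q ^ 2 - q)) := by
  classical
  have := fin_res o
  have := Fintype.ofFinite (IsLocalRing.ResidueField o)
  set k := IsLocalRing.ResidueField o with hk
  let F : Matrix (Fin 2) (Fin 2) o →+* Matrix (Fin 2) (Fin 2) k := (IsLocalRing.residue o).mapMatrix
  have hdet : ∀ x : Matrix (Fin 2) (Fin 2) o, (F x).det = IsLocalRing.residue o x.det := by
    intro x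
    exact ((IsLocalRing.residue o).map_det x).symm
  have hunit : ∀ x : Matrix (Fin 2) (Fin 2) o, IsUnit x ↔ (F x).det ≠ 0 := by
    intro x
    rw [Matrix.isUnit_iff_isUnit_det, hdet, D06_res_unit]
  let φ : (Matrix (Fin 2) (Fin 2) o)ˣ →* (Matrix (Fin 2) (Fin 2) k)ˣ :=
    Units.map (F : Matrix (Fin 2) (Fin 2) o →* Matrix (Fin 2) (Fin 2) k)
  have hφ : ∀ u, ((φ u : (Matrix (Fin 2) (Fin 2) k)ˣ) : Matrix (Fin 2) (Fin 2) k) = F u := fun u => rfl
  have hsurj : Function.Surjective φ := by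
    intro g
    have hl : ∀ i j, ∃ a : o, IsLocalRing.residue o a = (g : Matrix (Fin 2) (Fin 2) k) i j :=
      fun i j => IsLocalRing.residue_surjective _
    choose a ha using hl
    have hF : F (Matrix.of a) = (g : Matrix (Fin 2) (Fin 2) k) := by
      ext i j
      exact ha i j
    have hu : IsUnit (Matrix.of a : Matrix (Fin 2) (Fin 2) o) := by
      rw [hunit, hF]
      exact ((Matrix.isUnit_iff_isUnit_det _).mp g.isUnit).ne_zero
    obtain ⟨u, hu⟩ := hu
    refine ⟨u, ?_⟩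
    apply Units.ext
    rw [hφ, hu, hF]
  have hker : Nat.card φ.ker = q ^ 60 := by
    let m := IsLocalRing.maximalIdeal o
    have hfwd : ∀ (u : φ.ker) (i j : Fin 2),
        (((u : (Matrix (Fin 2) (Fin 2) o)ˣ) : Matrix (Fin 2) (Fin 2) o) - 1) i j ∈ m := by
      intro u i j
      have h1 : F ((u : (Matrix (Fin 2) (Fin 2) o)ˣ) : Matrix (Fin 2) (Fin 2) o) = 1 := by
        rw [← hφ, MonoidHom.mem_ker.mp u.2]
        rfl
      have h2 : F (((u : (Matrix (Fin 2) (Fin 2) o)ˣ) : Matrix (Fin 2) (Fin 2) o) - 1) = 0 := by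
        rw [map_sub, h1, map_one, sub_self]
      have h3 := congrFun (congrFun h2 i) j
      exact (IsLocalRing.residue_eq_zero_iff _).mp h3
    have hbwd : ∀ z : Fin 2 → Fin 2 → m, IsUnit ((1 : Matrix (Fin 2) (Fin 2) o) +
        Matrix.of (fun i j => (z i j : o))) := by
      intro z
      rw [hunit]
      have h1 : F (Matrix.of (fun i j => (z i j : o))) = 0 := by
        ext i j
        exact (IsLocalRing.residue_eq_zero_iff _).mpr (z i j).2
      rw [map_add, h1, map_one, add_zero, Matrix.det_one]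
      exact one_ne_zero
    have hbwd' : ∀ z : Fin 2 → Fin 2 → m, (hbwd z).unit ∈ φ.ker := by
      intro z
      rw [MonoidHom.mem_ker]
      apply Units.ext
      rw [hφ, IsUnit.unit_spec]
      have h1 : F (Matrix.of (fun i j => (z i j : o))) = 0 := by
        ext i j
        exact (IsLocalRing.residue_eq_zero_iff _).mpr (z i j).2
      rw [map_add, h1, map_one, add_zero]
      rfl
    let e : φ.ker ≃ (Fin 2 → Fin 2 → m) :=
      { toFun := fun u i j => ⟨_, hfwd u i j⟩
        invFun := fun z => ⟨(hbwd z).unit, hbwd' z⟩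
        left_inv := by
          intro u
          apply Subtype.ext
          apply Units.ext
          show (1 : Matrix (Fin 2) (Fin 2) o) + Matrix.of (fun i j =>
            (((u : (Matrix (Fin 2) (Fin 2) o)ˣ) : Matrix (Fin 2) (Fin 2) o) - 1) i j) = _
          ext i j
          simp
        right_inv := by
          intro z
          funext i j
          apply Subtype.ext
          show (((hbwd z).unit : Matrix (Fin 2) (Fin 2) o) - 1) i j = _
          rw [IsUnit.unit_spec]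
          simp }
    have hm : Nat.card m = q ^ 15 := by
      have h1 := chain_card hch 1 (by norm_num)
      rw [pow_one, hq] at h1
      have h2 : m = Ideal.span {π} := hch.max
      rw [h2, h1]
    rw [Nat.card_congr e, Nat.card_fun, Nat.card_fun, Nat.card_fin, hm]
    ring
  have h1 := Subgroup.card_mul_index φ.ker
  rw [Subgroup.index_ker, MonoidHom.range_eq_top.mpr hsurj, Subgroup.card_top, hker] at h1
  have h2 : Nat.card (Matrix (Fin 2) (Fin 2) k)ˣ = (q ^ 2 - 1) * (q ^ 2 - q) := by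
    have h3 := Matrix.card_GL_field (𝔽 := k) 2
    rw [Fin.prod_univ_two] at h3
    have h4 : Fintype.card k = q := by rw [← hq, Nat.card_eq_fintype_card]
    rw [h4] at h3
    simpa using h3
  rw [← h1, h2]

/-! ### restriction to a subgroup -/

private theorem D06_restrict {G : Type} [Group G] [Finite G] (N K : Subgroup G) (hNK : N ≤ K)
    (m : G → ℂ) (hm' : IsLin K m)
    {χ : G → ℂ} (h : χ ∈ Irr G) (h0 : mult K m χ ≠ 0) : mult N m χ ≠ 0 := by
  classical
  let fK : K →* ℂ :=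
    { toFun := fun n => m n
      map_one' := hm'.1
      map_mul' := fun x y => hm'.2 x x.2 y y.2 }
  have hl : (fun k : K => m k) ∈ Irr K := lin_irr fK.toHomUnits
  have hχK : IsNat (fun k : K => χ k) := isNat_comp K.subtype (isNat_irr h)
  have h1 : IsNat ((fun k : K => χ k) - (fun k : K => m k)) := isNat_sub hχK hl h0
  let φ : N →* K := Subgroup.inclusion hNK
  have h2 : IsNat (fun n : N => ((fun k : K => χ k) - (fun k : K => m k)) (φ n)) :=
    isNat_comp φ h1
  let fN : N →* ℂ := fK.comp φ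
  have hlN : (fun n : N => m n) ∈ Irr N := lin_irr fN.toHomUnits
  obtain ⟨k, hk⟩ := h2.2 _ hlN
  have e1 : (fun n : N => χ n) = (fun n : N => m n) +
      (fun n : N => ((fun k : K => χ k) - (fun k : K => m k)) (φ n)) := by
    funext n
    have e2 : ((φ n : K) : G) = n := rfl
    simp only [Pi.add_apply, Pi.sub_apply]
    rw [e2]
    ring
  unfold mult
  rw [e1, ip_add_left, hk, ip_irr hlN hlN, if_pos rfl]
  have : ((1 + k : ℕ) : ℂ) ≠ 0 := by
    exact_mod_cast (by omega : 1 + k ≠ 0)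
  simpa using this

/-- the congruence subgroup of level `π^15` -/
private def D06_K (π : o) : Subgroup (Matrix (Fin 2) (Fin 2) o)ˣ where
  carrier := {u | ∃ y, (u : Matrix (Fin 2) (Fin 2) o) = 1 + π ^ (16 - 1) • y}
  one_mem' := ⟨0, by simp⟩
  mul_mem' := by
    rintro a b ⟨y, hy⟩ ⟨z, hz⟩
    refine ⟨y + z + π ^ (16 - 1) • (y * z), ?_⟩
    rw [Units.val_mul, hy, hz]
    simp only [mul_add, add_mul, Matrix.mul_smul, Matrix.smul_mul, mul_one, one_mul, smul_add]
    abel
  inv_mem' := by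
    rintro a ⟨y, hy⟩
    refine ⟨-(((a⁻¹ : (Matrix (Fin 2) (Fin 2) o)ˣ) : Matrix (Fin 2) (Fin 2) o) * y), ?_⟩
    have h1 : ((a⁻¹ : (Matrix (Fin 2) (Fin 2) o)ˣ) : Matrix (Fin 2) (Fin 2) o) * a = 1 := a.inv_mul
    rw [hy, mul_add, mul_one, Matrix.mul_smul] at h1
    rw [smul_neg, ← sub_eq_add_neg, eq_sub_iff_add_eq]
    exact h1

/-- CLAIM R (blueprint W3). PROOF: the units of `t.E` are the elements outside `t.I` (hypothesis `hloc`), so `|t.H| = q^48 - q^47` and
`[GL_2(o) : t.H] = q^61 (q^2-1)(q-1) / (q^47 (q-1)) = q^14 (q^2-1)`. Let `χ` be over `t` (`Stage.exists_over`); `χ = ind θ`, `χ 1 = [GL_2(o) : t.H] θ 1 ≥ q^14 (q^2 - 1)`. If `X` is scalar modulo `π`: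
`χ` contains on `K = 1 + π^15 M_2` the character `ψ (π^15 tr (X y))` (restrict from `1 + t.I`), so by `gl2_scalar` and `gl2_bound 15` `χ 1 ≤ q^14 (q+1)` or `≤ q^2`: contradiction for `q ≥ 4`. So `X` is not
scalar modulo `π`; `t.E` is contained in the commutant modulo `π^8`, and both have `q^48` elements. -/
theorem claimR (hch : IsChain o π 16) (ψ : AddChar o ℂ) (hψ : IsPrim π 16 ψ) (q : ℕ)
    (hq : Nat.card (IsLocalRing.ResidueField o) = q) (hq4 : 4 ≤ q)
    (t : Stage (Matrix (Fin 2) (Fin 2) o)) (X : Matrix (Fin 2) (Fin 2) o)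
    (h8 : ∀ y : Matrix (Fin 2) (Fin 2) o, π ^ 8 • y ∈ t.I)
    (hm : ∀ y, t.m (π ^ 8 • y) = ψ (π ^ 8 * (X * y).trace))
    (hc : ∀ f ∈ t.E, ∃ y, X * f - f * X = π ^ 8 • y)
    (hE : Nat.card t.E = q ^ 48) (hI : Nat.card t.I = q ^ 47)
    (hloc : ∀ f ∈ t.E, IsUnit f ↔ f ∉ t.I) :
    (¬ ∃ (c : o) (Z : Matrix (Fin 2) (Fin 2) o), X = c • 1 + π • Z) ∧
      ∀ f, f ∈ t.E ↔ ∃ y, X * f - f * X = π ^ 8 • y := by
  classical
  have hfirst : ¬ ∃ (c : o) (Z : Matrix (Fin 2) (Fin 2) o), X = c • 1 + π • Z := by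
    intro hsc
    -- a character over `t`
    obtain ⟨χ, hχ, hover⟩ := t.exists_over
    obtain ⟨θ, hθ, hθχ⟩ := t.bij.surjOn ⟨hχ, hover⟩
    obtain ⟨d, hd0, hd⟩ := irr_deg hθ.1
    have hdeg : χ 1 = ((t.H.index * d : ℕ) : ℂ) := by
      rw [← hθχ]
      show ind t.H θ 1 = _
      rw [ind_one, hd]
      push_cast
      ring
    -- the order of `t.H`
    have hH : Nat.card t.H = q ^ 48 - q ^ 47 := by
      have h1 : ((fun u : (Matrix (Fin 2) (Fin 2) o)ˣ => (u : Matrix (Fin 2) (Fin 2) o)) ''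
          (t.H : Set (Matrix (Fin 2) (Fin 2) o)ˣ)) =
          (t.E : Set (Matrix (Fin 2) (Fin 2) o)) \ (t.I : Set (Matrix (Fin 2) (Fin 2) o)) := by
        ext f
        constructor
        · rintro ⟨u, hu, rfl⟩
          have h2 : (u : Matrix (Fin 2) (Fin 2) o) ∈ t.E := hu.1
          exact ⟨h2, (hloc _ h2).mp u.isUnit⟩
        · rintro ⟨h2, h3⟩
          obtain ⟨u, hu⟩ := (hloc _ h2).mpr h3
          refine ⟨u, ?_, hu⟩
          show u ∈ unitsOf t.E
          rw [mem_unitsOf, hu]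
          exact h2
      have h2 : Nat.card t.H = Set.ncard ((fun u : (Matrix (Fin 2) (Fin 2) o)ˣ =>
          (u : Matrix (Fin 2) (Fin 2) o)) '' (t.H : Set (Matrix (Fin 2) (Fin 2) o)ˣ)) := by
        rw [Set.ncard_image_of_injective _ Units.val_injective]
        rfl
      rw [h2, h1, Set.ncard_sdiff (fun x hx => t.ideal.le x hx)]
      have h3 : (t.E : Set (Matrix (Fin 2) (Fin 2) o)).ncard = Nat.card t.E := rfl
      have h4 : (t.I : Set (Matrix (Fin 2) (Fin 2) o)).ncard = Nat.card t.I := rfl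
      rw [h3, h4, hE, hI]
    have hindex : t.H.index = q ^ 14 * (q ^ 2 - 1) := by
      have h1 := Subgroup.card_mul_index t.H
      rw [hH, D06_card_GL hch q hq] at h1
      obtain ⟨a, ha⟩ : ∃ a, q = a + 1 := ⟨q - 1, by omega⟩
      have e1 : q ^ 48 - q ^ 47 = q ^ 47 * a := by
        have h48 : q ^ 48 = q ^ 47 * a + q ^ 47 := by
          calc q ^ 48 = q ^ 47 * q := pow_succ q 47
            _ = q ^ 47 * (a + 1) := by rw [← ha]
            _ = q ^ 47 * a + q ^ 47 := by rw [mul_add, mul_one]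
        rw [h48]
        exact Nat.add_sub_cancel _ _
      have e2 : q ^ 2 - q = q * a := by
        have h2 : q ^ 2 = q * a + q := by
          calc q ^ 2 = q * q := sq q
            _ = q * (a + 1) := by rw [← ha]
            _ = q * a + q := by rw [mul_add, mul_one]
        rw [h2]
        exact Nat.add_sub_cancel _ _
      rw [e1, e2] at h1
      have hpos : 0 < q ^ 47 * a := Nat.mul_pos (pow_pos (by omega) _) (by omega)
      generalize q ^ 2 - 1 = w at h1 ⊢
      generalize t.H.index = ix at h1 ⊢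
      apply Nat.eq_of_mul_eq_mul_left hpos
      rw [h1]
      ring
    -- the restriction to `K`
    have hK : ∀ u, u ∈ D06_K π ↔ ∃ y, (u : Matrix (Fin 2) (Fin 2) o) = 1 + π ^ (16 - 1) • y :=
      fun u => Iff.rfl
    have h15 : ∀ y : Matrix (Fin 2) (Fin 2) o, π ^ (16 - 1) • y = π ^ 8 • (π ^ 7 • y) := by
      intro y
      rw [smul_smul, ← pow_add]
    have hKN : D06_K π ≤ t.N := by
      rintro u ⟨y, hy⟩
      show u ∈ oneAddGroup t.E t.I t.ideal
      rw [mem_oneAddGroup, hy, add_sub_cancel_left, h15]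
      exact h8 _
    have h0 : mult (D06_K π) t.mu χ ≠ 0 := D06_restrict _ t.N hKN t.mu t.isLin hχ hover
    have hmK : ∀ (u : (Matrix (Fin 2) (Fin 2) o)ˣ) (y),
        (u : Matrix (Fin 2) (Fin 2) o) = 1 + π ^ (16 - 1) • y →
        t.mu u = ψ (π ^ (16 - 1) * (X * y).trace) := by
      intro u y hy
      show t.m ((u : Matrix (Fin 2) (Fin 2) o) - 1) = _
      rw [hy, add_sub_cancel_left, h15, hm, Matrix.mul_smul, Matrix.trace_smul, smul_eq_mul,
        ← mul_assoc, ← pow_add]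
    obtain ⟨χ', hχ', hχ'1⟩ := gl2_scalar hch (by norm_num) ψ hψ hχ X hsc (D06_K π) hK t.mu hmK h0
    obtain ⟨hloc', hch', hcard'⟩ := chain_quot hch (by norm_num)
    have : Finite (o ⧸ (Ideal.span {π ^ (16 - 1)} : Ideal o)) :=
      Finite.of_surjective _ Ideal.Quotient.mk_surjective
    have hb := gl2_bound (16 - 1) (o ⧸ (Ideal.span {π ^ (16 - 1)} : Ideal o)) _ hch' χ' hχ'
      (t.H.index * d) (hχ'1.trans hdeg)
    rw [hcard', hq, hindex] at hb
    have hq2 : 3 * (q + 1) ≤ q ^ 2 - 1 := by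
      have : 3 * (q + 1) + 1 ≤ q ^ 2 := by nlinarith
      omega
    have hlow : q ^ 14 * (q ^ 2 - 1) ≤ q ^ 14 * (q ^ 2 - 1) * d := Nat.le_mul_of_pos_right _ hd0
    have hp14 : 0 < q ^ 14 := by positivity
    rcases hb with hb | hb
    · have h1 : q ^ 14 * (q ^ 2 - 1) ≤ q ^ 14 * (q + 1) := by
        refine hlow.trans (hb.trans (le_of_eq ?_))
        norm_num
      have h2 := Nat.le_of_mul_le_mul_left h1 hp14
      omega
    · have h1 : q ^ 14 * (q ^ 2 - 1) ≤ q ^ 2 := hlow.trans hb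
      have h2 : q ^ 2 ≤ q ^ 14 := Nat.pow_le_pow_right (by omega) (by norm_num)
      have h3 : q ^ 14 * 2 ≤ q ^ 14 * (q ^ 2 - 1) := Nat.mul_le_mul_left _ (by omega)
      omega
  refine ⟨hfirst, ?_⟩
  have hcc := commutant_card hch q hq X hfirst
  have hsub : (t.E : Set (Matrix (Fin 2) (Fin 2) o)) ⊆
      {f : Matrix (Fin 2) (Fin 2) o | ∃ y, X * f - f * X = π ^ 8 • y} := fun f hf => hc f hf
  have hEc : (t.E : Set (Matrix (Fin 2) (Fin 2) o)).ncard = q ^ 48 := hE
  have heq := Set.eq_of_subset_of_ncard_le hsub (by rw [hcc, hEc]) (Set.toFinite _)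
  intro f
  have h1 : f ∈ (t.E : Set (Matrix (Fin 2) (Fin 2) o)) ↔
    f ∈ {f : Matrix (Fin 2) (Fin 2) o | ∃ y, X * f - f * X = π ^ 8 • y} := by rw [heq]
  exact h1

end Pool.Agent.Lib.MP_fa0f6c_al.Cx
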