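import Pool.Agent.Lib.MP_fa0f6c_al.Cx.F11

set_option autoImplicit false
set_option linter.unusedSectionVars false

namespace Pool.Agent.Lib.MP_fa0f6c_al.Cx

open scoped Matrix

/-- The `0/1` matrix of an embedding of index sets. -/
def pmat (o : Type) [CommRing o] {κ κ₁ : Type} [DecidableEq κ] (f : κ₁ ↪ κ) : Matrix κ κ₁ o :=
  fun a i => if f i = a then 1 else 0

/-- extension by zero of a matrix along an embedding -/
def emb {o : Type} [CommRing o] {κ κ₁ : Type} [Fintype κ₁] [DecidableEq κ] (f : κ₁ ↪ κ)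
    (x : Matrix κ₁ κ₁ o) : Matrix κ κ o :=
  pmat o f * x * (pmat o f)ᵀ

/-- the computation in a general ring -/
private theorem corner_key {R : Type} [Ring R] {E : Subring R} {I : Submodule ℤ R}
    (h : IsNilIdeal E I) {m : R → ℂ} (hm : IsHom I m) (hs : IsSym E I m) {ε e' G G' : R}
    (hε : ε ∈ E) (he' : 1 - ε = e') (hεε : ε * ε = ε) (hεG : ε * G = G) (hGε : G * ε = G)
    (hεG' : ε * G' = G') (hG'ε : G' * ε = G') {y : R} (hy : y ∈ I)
    (hy' : (G' + e') * y * (G + e') ∈ I)
    (hcond : ∀ A ∈ I, ε * A * ε = A → G' * A * G ∈ I → m A = m (G' * A * G)) :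
    m y = m ((G' + e') * y * (G + e')) := by
  have he'E : e' ∈ E := by rw [← he']; exact E.sub_mem E.one_mem hε
  have hεe' : ε * e' = 0 := by rw [← he', mul_sub, mul_one, hεε, sub_self]
  have he'ε : e' * ε = 0 := by rw [← he', sub_mul, one_mul, hεε, sub_self]
  have he'e' : e' * e' = e' := by
    calc e' * e' = e' * (1 - ε) := by rw [he']
      _ = e' := by rw [mul_sub, mul_one, he'ε, sub_zero]
  have hGe' : G * e' = 0 := by rw [← he', mul_sub, mul_one, hGε, sub_self]
  have he'G' : e' * G' = 0 := by rw [← he', sub_mul, one_mul, hεG', sub_self]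
  have h1 : ε * (G' + e') = G' := by rw [mul_add, hεG', hεe', add_zero]
  have h2 : (G + e') * ε = G := by rw [add_mul, hGε, he'ε, add_zero]
  have h3 : e' * (G' + e') = e' := by rw [mul_add, he'G', he'e', zero_add]
  have h4 : (G + e') * e' = e' := by rw [add_mul, hGe', he'e', zero_add]
  obtain ⟨y', hy'def⟩ : ∃ y' : R, y' = (G' + e') * y * (G + e') := ⟨_, rfl⟩
  rw [← hy'def] at hy' ⊢
  -- blocks
  have hd : e' * y' * e' = e' * y * e' := by
    calc e' * y' * e' = (e' * (G' + e')) * y * ((G + e') * e') := by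
          rw [hy'def]; simp only [mul_assoc]
      _ = e' * y * e' := by rw [h3, h4]
  have ha : ε * y' * ε = G' * y * G := by
    calc ε * y' * ε = (ε * (G' + e')) * y * ((G + e') * ε) := by
          rw [hy'def]; simp only [mul_assoc]
      _ = G' * y * G := by rw [h1, h2]
  have hb : ε * y' * e' = G' * y * e' := by
    calc ε * y' * e' = (ε * (G' + e')) * y * ((G + e') * e') := by
          rw [hy'def]; simp only [mul_assoc]
      _ = G' * y * e' := by rw [h1, h4]
  have hc : e' * y' * ε = e' * y * G := by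
    calc e' * y' * ε = (e' * (G' + e')) * y * ((G + e') * ε) := by
          rw [hy'def]; simp only [mul_assoc]
      _ = e' * y * G := by rw [h3, h2]
  have hdI : e' * y * e' ∈ I := h.mulR _ he'E _ (h.mulL _ he'E _ hy)
  obtain ⟨u, hu, hu1⟩ := exists_unit h hdI
  obtain ⟨z, hz⟩ : ∃ z : R, z = ((u⁻¹ : Rˣ) : R) - 1 := ⟨_, rfl⟩
  have hzI : z ∈ I := by rw [hz]; exact hu.2
  have hz1 : 1 + z = ((u⁻¹ : Rˣ) : R) := by rw [hz]; abel
  have hu2 : (1 + e' * y * e') * (1 + z) = 1 := by rw [← hu1, hz1, Units.mul_inv]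
  have hu3 : (1 + z) * (1 + e' * y * e') = 1 := by rw [← hu1, hz1, Units.inv_mul]
  have hzE : 1 + z ∈ E := E.add_mem E.one_mem (h.le _ hzI)
  have l1 := ldu h hm hs (ε := ε) hε hεε hy hzI (by rw [he']; exact hu2) (by rw [he']; exact hu3)
  have l2 := ldu h hm hs (ε := ε) hε hεε hy' hzI
    (by rw [he', hd]; exact hu2) (by rw [he', hd]; exact hu3)
  rw [he'] at l1 l2
  have msub : ∀ P a b Q : R, P * (a - b) * Q = P * a * Q - P * b * Q :=
    fun P a b Q => by rw [mul_sub, sub_mul]
  -- the Schur complement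
  obtain ⟨A, hA⟩ : ∃ A : R, A = ε * y * ε - ε * y * e' * (1 + z) * e' * y * ε := ⟨_, rfl⟩
  obtain ⟨A', hA'⟩ : ∃ A' : R, A' = ε * y' * ε - ε * y' * e' * (1 + z) * e' * y' * ε := ⟨_, rfl⟩
  have hmemI : ∀ x ∈ I, ε * x * ε - ε * x * e' * (1 + z) * e' * x * ε ∈ I := by
    intro x hx
    refine I.sub_mem (h.mulR _ hε _ (h.mulL _ hε _ hx)) ?_
    refine h.mulR _ hε _ ?_
    refine h.mulL _ ?_ _ hx
    refine E.mul_mem (E.mul_mem ?_ hzE) he'E
    exact E.mul_mem (E.mul_mem hε (h.le _ hx)) he'E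
  have hAI : A ∈ I := by rw [hA]; exact hmemI y hy
  have hA'I : A' ∈ I := by rw [hA']; exact hmemI y' hy'
  have hAA' : A' = G' * A * G := by
    have e1 : ε * y' * e' * (1 + z) * e' * y' * ε =
        (ε * y' * e') * (1 + z) * (e' * y' * ε) := by simp only [mul_assoc]
    have e2 : G' * y * G = G' * (ε * y * ε) * G := by
      calc G' * y * G = (G' * ε) * y * (ε * G) := by rw [hG'ε, hεG]
        _ = G' * (ε * y * ε) * G := by simp only [mul_assoc]
    have e3 : G' * y * e' * (1 + z) * (e' * y * G) =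
        G' * (ε * y * e' * (1 + z) * e' * y * ε) * G := by
      calc G' * y * e' * (1 + z) * (e' * y * G)
          = (G' * ε) * y * e' * (1 + z) * (e' * y * (ε * G)) := by rw [hG'ε, hεG]
        _ = G' * (ε * y * e' * (1 + z) * e' * y * ε) * G := by simp only [mul_assoc]
    rw [hA', e1, ha, hb, hc, hA, msub, e2, e3]
  have hAcorner : ε * A * ε = A := by
    have e2 : ε * (ε * y * ε) * ε = ε * y * ε := by
      calc ε * (ε * y * ε) * ε = (ε * ε) * y * (ε * ε) := by simp only [mul_assoc]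
        _ = ε * y * ε := by rw [hεε]
    have e3 : ε * (ε * y * e' * (1 + z) * e' * y * ε) * ε =
        ε * y * e' * (1 + z) * e' * y * ε := by
      calc ε * (ε * y * e' * (1 + z) * e' * y * ε) * ε
          = (ε * ε) * y * e' * (1 + z) * e' * y * (ε * ε) := by simp only [mul_assoc]
        _ = ε * y * e' * (1 + z) * e' * y * ε := by rw [hεε]
    rw [hA, msub, e2, e3]
  have hkey := hcond A hAI hAcorner (by rw [← hAA']; exact hA'I)
  rw [← hA] at l1
  rw [← hA', hd] at l2
  rw [l1, l2, hkey, hAA']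

variable {o : Type} [CommRing o] {κ κ₁ : Type} [Fintype κ] [DecidableEq κ] [Fintype κ₁]
  [DecidableEq κ₁]

private theorem pmat_tr_mul (f : κ₁ ↪ κ) : (pmat o f)ᵀ * pmat o f = 1 := by
  ext i j
  rw [Matrix.mul_apply, Matrix.one_apply]
  simp only [Matrix.transpose_apply, pmat]
  rw [Finset.sum_eq_single (f i)]
  · simp only [if_true, one_mul]
    by_cases h : i = j
    · subst h; simp
    · have h' : f j ≠ f i := fun h2 => h (f.injective h2).symm
      simp [h, h']
  · intro a _ ha
    rw [if_neg (Ne.symm ha), zero_mul]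
  · intro h
    exact absurd (Finset.mem_univ _) h

theorem emb_mul (f : κ₁ ↪ κ) (x y : Matrix κ₁ κ₁ o) : emb f (x * y) = emb f x * emb f y := by
  unfold emb
  have h := pmat_tr_mul (o := o) f
  calc pmat o f * (x * y) * (pmat o f)ᵀ =
        pmat o f * x * ((1 : Matrix κ₁ κ₁ o) * (y * (pmat o f)ᵀ)) := by
        rw [Matrix.one_mul]; simp only [Matrix.mul_assoc]
    _ = pmat o f * x * (((pmat o f)ᵀ * pmat o f) * (y * (pmat o f)ᵀ)) := by rw [h]
    _ = pmat o f * x * (pmat o f)ᵀ * (pmat o f * y * (pmat o f)ᵀ) := by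
        simp only [Matrix.mul_assoc]

theorem emb_add (f : κ₁ ↪ κ) (x y : Matrix κ₁ κ₁ o) : emb f (x + y) = emb f x + emb f y := by
  unfold emb
  rw [Matrix.mul_add, Matrix.add_mul]

theorem emb_apply (f : κ₁ ↪ κ) (x : Matrix κ₁ κ₁ o) (i j : κ₁) : emb f x (f i) (f j) = x i j := by
  unfold emb
  rw [Matrix.mul_apply]
  rw [Finset.sum_eq_single j]
  · rw [Matrix.mul_apply, Finset.sum_eq_single i]
    · simp [pmat]
    · intro k _ hk
      have h' : f k ≠ f i := fun h2 => hk (f.injective h2)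
      simp [pmat, h']
    · intro h
      exact absurd (Finset.mem_univ _) h
  · intro k _ hk
    have h' : f k ≠ f j := fun h2 => hk (f.injective h2)
    simp [pmat, Matrix.transpose_apply, h']
  · intro h
    exact absurd (Finset.mem_univ _) h

theorem emb_apply_ne (f : κ₁ ↪ κ) (x : Matrix κ₁ κ₁ o) (a b : κ)
    (h : (∀ i, f i ≠ a) ∨ ∀ j, f j ≠ b) : emb f x a b = 0 := by
  unfold emb
  rw [Matrix.mul_apply]
  refine Finset.sum_eq_zero fun k _ => ?_
  rcases h with h | h
  · rw [Matrix.mul_apply, Finset.sum_eq_zero, zero_mul]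
    intro i _
    simp only [pmat]
    rw [if_neg (h i), zero_mul]
  · simp only [Matrix.transpose_apply, pmat]
    rw [if_neg (h k), mul_zero]

private theorem emb_zero (f : κ₁ ↪ κ) : emb f (0 : Matrix κ₁ κ₁ o) = 0 := by
  unfold emb
  rw [Matrix.mul_zero, Matrix.zero_mul]

private theorem emb_neg (f : κ₁ ↪ κ) (x : Matrix κ₁ κ₁ o) : emb f (-x) = -emb f x := by
  unfold emb
  rw [Matrix.mul_neg, Matrix.neg_mul]

private theorem emb_zsmul (f : κ₁ ↪ κ) (c : ℤ) (x : Matrix κ₁ κ₁ o) :
    emb f (c • x) = c • emb f x := by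
  unfold emb
  rw [Matrix.mul_smul, Matrix.smul_mul]

private theorem emb_inj (f : κ₁ ↪ κ) {x : Matrix κ₁ κ₁ o} (h : emb f x = 0) : x = 0 := by
  ext i j
  rw [← emb_apply f x i j, h]
  rfl

/-- a matrix in the corner comes from a smaller matrix -/
private theorem exists_emb (f : κ₁ ↪ κ) (A : Matrix κ κ o)
    (hA : emb f 1 * A * emb f 1 = A) : ∃ x : Matrix κ₁ κ₁ o, emb f x = A := by
  refine ⟨(pmat o f)ᵀ * A * pmat o f, ?_⟩
  rw [← hA]
  have hε : emb f (1 : Matrix κ₁ κ₁ o) = pmat o f * (pmat o f)ᵀ := by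
    unfold emb; rw [Matrix.mul_one]
  rw [hε]
  unfold emb
  have h := pmat_tr_mul (o := o) f
  have h1 : (pmat o f)ᵀ * (pmat o f * (pmat o f)ᵀ * A * (pmat o f * (pmat o f)ᵀ)) * pmat o f =
      ((pmat o f)ᵀ * pmat o f) * ((pmat o f)ᵀ * A * pmat o f) * ((pmat o f)ᵀ * pmat o f) := by
    simp only [Matrix.mul_assoc]
  rw [h1, h, Matrix.one_mul, Matrix.mul_one]
  simp only [Matrix.mul_assoc]

/-- Corner of a stage (blueprint 2.4). PROOF of (Int): let `g ∈ GL_{κ₁}` satisfy the condition for the corner; put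
`g' = emb f g + (1 - ε)`, `ε = emb f 1`, a unit with inverse `emb f g⁻¹ + (1 - ε)`. Let `y ∈ s.I` with `g'⁻¹ y g' ∈ s.I`. By `ldu` for `y`:
`m y = m (a - b (1+d)⁻¹ c) m d`, and `y' = g'⁻¹ y g'` has `a' = g⁻¹ a g`, `b' = g⁻¹ b`, `c' = c g`, `d' = d`, so
`m y' = m (g⁻¹ (a - b (1+d)⁻¹ c) g) m d`; the first factors agree by the condition for the corner. By `s.int`, `g' ∈ s.E`, so
`ε g' ε = emb f g ∈ s.E`. -/
theorem corner_stage (s : Stage (Matrix κ κ o)) (f : κ₁ ↪ κ) (hε : emb f 1 ∈ s.E) :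
    ∃ t : Stage (Matrix κ₁ κ₁ o), (∀ x, x ∈ t.E ↔ emb f x ∈ s.E) ∧
      (∀ x, x ∈ t.I ↔ emb f x ∈ s.I) ∧ ∀ x, t.m x = s.m (emb f x) := by
  classical
  let E₁ : Subring (Matrix κ₁ κ₁ o) :=
    { carrier := {x | emb f x ∈ s.E}
      zero_mem' := by
        change emb f 0 ∈ s.E
        rw [emb_zero]; exact s.E.zero_mem
      one_mem' := hε
      add_mem' := by
        intro x y hx hy
        change emb f (x + y) ∈ s.E
        rw [emb_add]; exact s.E.add_mem hx hy
      neg_mem' := by
        intro x hx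
        change emb f (-x) ∈ s.E
        rw [emb_neg]; exact s.E.neg_mem hx
      mul_mem' := by
        intro x y hx hy
        change emb f (x * y) ∈ s.E
        rw [emb_mul]; exact s.E.mul_mem hx hy }
  let I₁ : Submodule ℤ (Matrix κ₁ κ₁ o) :=
    { carrier := {x | emb f x ∈ s.I}
      zero_mem' := by
        change emb f 0 ∈ s.I
        rw [emb_zero]; exact s.I.zero_mem
      add_mem' := by
        intro x y hx hy
        change emb f (x + y) ∈ s.I
        rw [emb_add]; exact s.I.add_mem hx hy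
      smul_mem' := by
        intro c x hx
        change emb f (c • x) ∈ s.I
        rw [emb_zsmul]; exact s.I.smul_mem c hx }
  have hE : ∀ x, x ∈ E₁ ↔ emb f x ∈ s.E := fun x => Iff.rfl
  have hI : ∀ x, x ∈ I₁ ↔ emb f x ∈ s.I := fun x => Iff.rfl
  have hideal : IsNilIdeal E₁ I₁ := by
    refine ⟨fun x hx => s.ideal.le _ hx, ?_, ?_, ?_⟩
    · intro g hg x hx
      rw [hI, emb_mul]
      exact s.ideal.mulL _ hg _ hx
    · intro g hg x hx
      rw [hI, emb_mul]
      exact s.ideal.mulR _ hg _ hx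
    · obtain ⟨k, hk⟩ := s.ideal.nil
      have hk' : s.I ^ (k + 1) = 0 := by rw [pow_succ, hk, zero_mul]
      have hpow : ∀ j : ℕ, ∀ x ∈ I₁ ^ (j + 1), emb f x ∈ s.I ^ (j + 1) := by
        intro j
        induction j with
        | zero =>
          intro x hx
          rw [zero_add, pow_one] at hx ⊢
          exact hx
        | succ j ih =>
          intro x hx
          rw [pow_succ] at hx ⊢
          refine Submodule.mul_induction_on hx ?_ ?_
          · intro a ha b hb
            rw [emb_mul]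
            exact Submodule.mul_mem_mul (ih a ha) hb
          · intro a b ha hb
            rw [emb_add]
            exact Submodule.add_mem _ ha hb
      refine ⟨k + 1, ?_⟩
      rw [Submodule.zero_eq_bot, Submodule.eq_bot_iff]
      intro x hx
      have h1 := hpow k x hx
      rw [hk', Submodule.zero_eq_bot, Submodule.mem_bot] at h1
      exact emb_inj f h1
  have hhom : IsHom I₁ (fun x => s.m (emb f x)) := by
    refine ⟨?_, ?_⟩
    · change s.m (emb f 0) = 1
      rw [emb_zero]; exact s.hom.zero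
    · intro x hx y hy
      change s.m (emb f (x + y + x * y)) = s.m (emb f x) * s.m (emb f y)
      rw [emb_add, emb_add, emb_mul]
      exact s.hom.mul _ hx _ hy
  have hsym : IsSym E₁ I₁ (fun x => s.m (emb f x)) := by
    intro g hg x hx
    change s.m (emb f (g * x)) = s.m (emb f (x * g))
    rw [emb_mul, emb_mul]
    exact s.sym _ hg _ hx
  have hint : IsInt E₁ I₁ (fun x => s.m (emb f x)) := by
    intro g hg
    rw [hE]
    set ε : Matrix κ κ o := emb f 1 with hεdef
    set G : Matrix κ κ o := emb f (g : Matrix κ₁ κ₁ o) with hGdef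
    set G' : Matrix κ κ o := emb f ((g⁻¹ : (Matrix κ₁ κ₁ o)ˣ) : Matrix κ₁ κ₁ o) with hG'def
    have hεε : ε * ε = ε := by rw [hεdef, ← emb_mul, one_mul]
    have hεG : ε * G = G := by rw [hεdef, hGdef, ← emb_mul, one_mul]
    have hGε : G * ε = G := by rw [hεdef, hGdef, ← emb_mul, mul_one]
    have hεG' : ε * G' = G' := by rw [hεdef, hG'def, ← emb_mul, one_mul]
    have hG'ε : G' * ε = G' := by rw [hεdef, hG'def, ← emb_mul, mul_one]
    have hGG' : G * G' = ε := by
      rw [hGdef, hG'def, ← emb_mul, Units.mul_inv]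
    have hG'G : G' * G = ε := by
      rw [hGdef, hG'def, ← emb_mul, Units.inv_mul]
    obtain ⟨e', he'def⟩ : ∃ e' : Matrix κ κ o, e' = 1 - ε := ⟨_, rfl⟩
    have he'E : e' ∈ s.E := by rw [he'def]; exact s.E.sub_mem s.E.one_mem hε
    have hεe' : ε * e' = 0 := by rw [he'def, mul_sub, mul_one, hεε, sub_self]
    have he'ε : e' * ε = 0 := by rw [he'def, sub_mul, one_mul, hεε, sub_self]
    have he'e' : e' * e' = e' := by
      calc e' * e' = e' * (1 - ε) := by rw [← he'def]
        _ = e' := by rw [mul_sub, mul_one, he'ε, sub_zero]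
    have he'G : e' * G = 0 := by rw [he'def, sub_mul, one_mul, hεG, sub_self]
    have hGe' : G * e' = 0 := by rw [he'def, mul_sub, mul_one, hGε, sub_self]
    have he'G' : e' * G' = 0 := by rw [he'def, sub_mul, one_mul, hεG', sub_self]
    have hG'e' : G' * e' = 0 := by rw [he'def, mul_sub, mul_one, hG'ε, sub_self]
    have hsum : ε + e' = 1 := by rw [he'def]; abel
    have msub : ∀ P a b Q : Matrix κ κ o, P * (a - b) * Q = P * a * Q - P * b * Q :=
      fun P a b Q => by rw [mul_sub, sub_mul]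
    let g' : (Matrix κ κ o)ˣ :=
      { val := G + e'
        inv := G' + e'
        val_inv := by
          rw [add_mul, mul_add, mul_add, hGG', hGe', he'G', he'e', add_zero, zero_add, hsum]
        inv_val := by
          rw [add_mul, mul_add, mul_add, hG'G, hG'e', he'G, he'e', add_zero, zero_add, hsum] }
    have hg'v : (g' : Matrix κ κ o) = G + e' := rfl
    have hg'i : ((g'⁻¹ : (Matrix κ κ o)ˣ) : Matrix κ κ o) = G' + e' := rfl
    have h1 : ε * (G' + e') = G' := by rw [mul_add, hεG', hεe', add_zero]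
    have h2 : (G + e') * ε = G := by rw [add_mul, hGε, he'ε, add_zero]
    have h3 : e' * (G' + e') = e' := by rw [mul_add, he'G', he'e', zero_add]
    have h4 : (G + e') * e' = e' := by rw [add_mul, hGe', he'e', zero_add]
    have hmem : (g' : Matrix κ κ o) ∈ s.E := by
      apply s.int g'
      intro y hy hy'
      rw [hg'v, hg'i] at hy' ⊢
      refine corner_key s.ideal s.hom s.sym hε he'def.symm hεε hεG hGε hεG' hG'ε hy hy' ?_
      intro A hAI hAc hA'I
      obtain ⟨x0, hx0⟩ := exists_emb f A hAc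
      have hx0' : emb f (((g⁻¹ : (Matrix κ₁ κ₁ o)ˣ) : Matrix κ₁ κ₁ o) * x0 *
          (g : Matrix κ₁ κ₁ o)) = G' * A * G := by
        rw [emb_mul, emb_mul, hx0]
      have hkey := hg x0 (by rw [hI, hx0]; exact hAI) (by rw [hI, hx0']; exact hA'I)
      simp only [] at hkey
      rw [hx0, hx0'] at hkey
      exact hkey
    have h5 : ε * (g' : Matrix κ κ o) * ε = G := by
      rw [hg'v, mul_assoc, h2, hεG]
    rw [← h5]
    exact s.E.mul_mem (s.E.mul_mem hε hmem) hε
  exact ⟨⟨E₁, I₁, fun x => s.m (emb f x), hideal, hhom, hsym, hint⟩, hE, hI, fun x => rfl⟩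

end Pool.Agent.Lib.MP_fa0f6c_al.Cx
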