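import Pool.Agent.Lib.MP_fa0f6c_al.Cx.D01
import Pool.Agent.Lib.MP_fa0f6c_al.Cx.D02
import Pool.Agent.Lib.MP_fa0f6c_al.Cx.D06
import Pool.Agent.Lib.MP_fa0f6c_al.Cx.F12

set_option autoImplicit false

namespace Pool.Agent.Lib.MP_fa0f6c_al.Cx

open scoped Matrix

section D09gen

variable {o : Type} [CommRing o] {κ κ₁ : Type} [Fintype κ] [DecidableEq κ] [Fintype κ₁]
  [DecidableEq κ₁]

omit [Fintype κ] [DecidableEq κ₁] in
private theorem D09_smul (f : κ₁ ↪ κ) (c : o) (x : Matrix κ₁ κ₁ o) :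
    emb f (c • x) = c • emb f x := by
  simp [emb]

omit [Fintype κ₁] [DecidableEq κ₁] in
private theorem D09_PX (f : κ₁ ↪ κ) (X : Matrix κ κ o) :
    (pmat o f)ᵀ * X * pmat o f = X.submatrix f f := by
  ext i j
  simp [Matrix.mul_apply, pmat]

omit [Fintype κ₁] in
private theorem D09_PP (f : κ₁ ↪ κ) : (pmat o f)ᵀ * pmat o f = 1 := by
  ext i j
  simp [Matrix.mul_apply, pmat, Matrix.one_apply, eq_comm]

omit [DecidableEq κ₁] in
private theorem D09_trace (f : κ₁ ↪ κ) (X : Matrix κ κ o) (y : Matrix κ₁ κ₁ o) :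
    (X * emb f y).trace = (X.submatrix f f * y).trace := by
  rw [← D09_PX, emb, ← Matrix.mul_assoc, Matrix.trace_mul_comm, ← Matrix.mul_assoc,
    ← Matrix.mul_assoc]

private theorem D09_comm (f : κ₁ ↪ κ) (X : Matrix κ κ o) (g : Matrix κ₁ κ₁ o) (y : Matrix κ κ o)
    (c : o) (h : X * emb f g - emb f g * X = c • y) :
    X.submatrix f f * g - g * X.submatrix f f = c • y.submatrix f f := by
  have h1 := congrArg (fun Z => (pmat o f)ᵀ * Z * pmat o f) h
  have h2 := D09_PP (o := o) f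
  simp only [Matrix.mul_sub, Matrix.sub_mul, Matrix.mul_smul, Matrix.smul_mul] at h1
  rw [D09_PX _ y] at h1
  rw [← h1, ← D09_PX f X, emb]
  congr 1
  · calc (pmat o f)ᵀ * X * pmat o f * g = (pmat o f)ᵀ * X * pmat o f * g * 1 := by
          rw [Matrix.mul_one]
      _ = _ := by rw [← h2]; simp only [Matrix.mul_assoc]
  · calc g * ((pmat o f)ᵀ * X * pmat o f) = 1 * (g * ((pmat o f)ᵀ * X * pmat o f)) := by
          rw [Matrix.one_mul]
      _ = _ := by rw [← h2]; simp only [Matrix.mul_assoc]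

omit [Fintype κ] in
private theorem D09_single (f : κ₁ ↪ κ) (p r : κ₁) (w : o) (u v : κ) :
    emb f (Matrix.single p r w) u v = if f p = u ∧ f r = v then w else 0 := by
  rw [emb, Matrix.mul_apply, Finset.sum_eq_single r]
  · rw [Matrix.mul_apply, Finset.sum_eq_single p]
    · simp only [pmat, Matrix.single_apply, Matrix.transpose_apply]
      by_cases h1 : f p = u <;> by_cases h2 : f r = v <;> simp [h1, h2]
    · intro i _ hi
      simp [Ne.symm hi]
    · simp
  · intro j _ hj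
    rw [Matrix.mul_apply, Finset.sum_eq_zero, zero_mul]
    intro i _
    simp [Ne.symm hj]
  · simp

end D09gen

variable {o : Type} [CommRing o] [IsLocalRing o] [Finite o] {π : o}

private theorem D09_unit {R : Type} [Ring R] (x y : R) (h1 : IsNilpotent (x * y - 1))
    (h2 : IsNilpotent (y * x - 1)) : IsUnit x := by
  have e1 : IsUnit (x * y) := by
    have := h1.isUnit_add_one
    simpa using this
  have e2 : IsUnit (y * x) := by
    have := h2.isUnit_add_one
    simpa using this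
  obtain ⟨u, hu⟩ := e1
  obtain ⟨v, hv⟩ := e2
  refine isUnit_iff_exists.2 ?_
  have ha : x * (y * ((u⁻¹ : Rˣ) : R)) = 1 := by
    rw [← mul_assoc, ← hu, Units.mul_inv]
  have hb : (((v⁻¹ : Rˣ) : R) * y) * x = 1 := by
    rw [mul_assoc, ← hv, Units.inv_mul]
  have hc : y * ((u⁻¹ : Rˣ) : R) = ((v⁻¹ : Rˣ) : R) * y := by
    calc y * ((u⁻¹ : Rˣ) : R) = ((((v⁻¹ : Rˣ) : R) * y) * x) * (y * ((u⁻¹ : Rˣ) : R)) := by
          rw [hb, one_mul]
      _ = (((v⁻¹ : Rˣ) : R) * y) * (x * (y * ((u⁻¹ : Rˣ) : R))) := by rw [mul_assoc]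
      _ = _ := by rw [ha, mul_one]
  exact ⟨_, ha, by rw [hc]; exact hb⟩

omit [IsLocalRing o] [Finite o] in
private theorem D09_loc {b : ℕ} {ρ : Fin b → ℕ} (S : Corners o ρ) (k : Fin b)
    (x : Matrix (Fin (ρ k)) (Fin (ρ k)) o) (hx : x ∈ S.C k k) : IsUnit x ↔ x ∉ S.J k := by
  constructor
  · intro hu hJ
    have hn := S.nil k x hJ
    have h10 : (0 : Matrix (Fin (ρ k)) (Fin (ρ k)) o) = 1 := by
      obtain ⟨n, hn⟩ := hn
      have := hu.pow n
      rw [hn] at this
      exact isUnit_zero_iff.1 this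
    exact S.one_notMem k (by rw [← h10]; exact (S.J k).zero_mem)
  · intro hJ
    obtain ⟨y, hy, h1, h2⟩ := S.unit k x hx hJ
    exact D09_unit x y (S.nil k _ h1) (S.nil k _ h2)

/-- the rank two corner -/
private theorem D09_claimR {b : ℕ} {ρ : Fin b → ℕ} (hch : IsChain o π 16) (ψ : AddChar o ℂ)
    (hψ : IsPrim π 16 ψ) (q : ℕ)
    (hq : Nat.card (IsLocalRing.ResidueField o) = q) (hq4 : 4 ≤ q) (S : Corners o ρ)
    (X : Matrix (Idx (n1 (b := b)) ρ) (Idx (n1 (b := b)) ρ) o)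
    (s : Stage (Matrix (Idx (n1 (b := b)) ρ) (Idx (n1 (b := b)) ρ) o))
    (hE : s.E = S.ring n1) (hI : s.I = S.rad n1)
    (h8 : ∀ y : Matrix (Idx (n1 (b := b)) ρ) (Idx (n1 (b := b)) ρ) o, π ^ 8 • y ∈ s.I)
    (hm : ∀ y, s.m (π ^ 8 • y) = ψ (π ^ 8 * (X * y).trace))
    (hc : ∀ f ∈ s.E, ∃ y, X * f - f * X = π ^ 8 • y) (k : Fin b) (hk : ρ k = 2)
    (hkk : Nat.card (S.C k k) = q ^ 48) (hJ : Nat.card (S.J k) = q ^ 47) :
    (¬ ∃ (c : o) (Z : Matrix (Fin (ρ k)) (Fin (ρ k)) o), blk X k 0 k 0 = c • 1 + π • Z) ∧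
      ∀ f, f ∈ S.C k k ↔ ∃ y, blk X k 0 k 0 * f - f * blk X k 0 k 0 = π ^ 8 • y := by
  classical
  set e : Fin 2 ≃ Fin (ρ k) := finCongr hk.symm with he
  set f : Fin 2 ↪ Idx (n1 (b := b)) ρ :=
    ⟨fun a => ⟨k, (0, e a)⟩, fun a a' h => by simpa using h⟩ with hf
  have hfa : ∀ a, f a = ⟨k, (0, e a)⟩ := fun a => rfl
  set Φ : Matrix (Fin 2) (Fin 2) o ≃ₐ[o] Matrix (Fin (ρ k)) (Fin (ρ k)) o :=
    Matrix.reindexAlgEquiv o o e with hΦ
  have hΦa : ∀ x a c, Φ x a c = x (e.symm a) (e.symm c) := fun x a c => rfl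
  -- the blocks of `emb f x`
  have hblk : ∀ x : Matrix (Fin 2) (Fin 2) o, blk (emb f x) k 0 k 0 = Φ x := by
    intro x
    ext a c
    have := emb_apply f x (e.symm a) (e.symm c)
    rw [hfa, hfa, e.apply_symm_apply, e.apply_symm_apply] at this
    rw [hΦa, ← this]
    rfl
  have hblk0 : ∀ (x : Matrix (Fin 2) (Fin 2) o) i (u : Fin 1) j (v : Fin 1), ¬ (i = k ∧ j = k) →
      blk (emb f x) i u j v = 0 := by
    intro x i u j v hij
    ext a c
    apply emb_apply_ne
    by_cases hi : i = k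
    · right
      intro a' h
      rw [hfa] at h
      exact hij ⟨hi, (congrArg Sigma.fst h).symm⟩
    · left
      intro a' h
      rw [hfa] at h
      exact hi (congrArg Sigma.fst h).symm
  have hring : ∀ x : Matrix (Fin 2) (Fin 2) o, emb f x ∈ S.ring n1 ↔ Φ x ∈ S.C k k := by
    intro x
    constructor
    · intro h
      rw [← hblk]
      exact h k 0 k 0
    · intro h i u j v
      by_cases hij : i = k ∧ j = k
      · obtain ⟨rfl, rfl⟩ := hij
        have hu : u = 0 := Subsingleton.elim _ _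
        have hv : v = 0 := Subsingleton.elim _ _
        rw [hu, hv, hblk]
        exact h
      · rw [hblk0 x i u j v hij]
        exact (S.C i j).zero_mem
  have hrad : ∀ x : Matrix (Fin 2) (Fin 2) o, emb f x ∈ S.rad n1 ↔ Φ x ∈ S.J k := by
    intro x
    constructor
    · intro h
      rw [← hblk]
      exact h.2 k 0 0
    · intro h
      refine ⟨(hring x).2 (S.J_le k h), ?_⟩
      intro i u v
      by_cases hij : i = k
      · subst hij
        have hu : u = 0 := Subsingleton.elim _ _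
        have hv : v = 0 := Subsingleton.elim _ _
        rw [hu, hv, hblk]
        exact h
      · rw [hblk0 x i u i v (fun hh => hij hh.1)]
        exact (S.J i).zero_mem
  obtain ⟨t, htE, htI, htm⟩ := corner_stage s f (by
    rw [hE, hring, map_one]
    exact S.one_mem k)
  have hXs : Φ (X.submatrix f f) = blk X k 0 k 0 := by
    ext a c
    rw [hΦa, Matrix.submatrix_apply, hfa, hfa, e.apply_symm_apply, e.apply_symm_apply]
    rfl
  have hmain := claimR hch ψ hψ q hq hq4 t (X.submatrix f f)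
    (by
      intro y
      rw [htI, D09_smul]
      exact h8 _)
    (by
      intro y
      rw [htm, D09_smul, hm, D09_trace])
    (by
      intro g hg
      obtain ⟨y, hy⟩ := hc _ ((htE g).1 hg)
      exact ⟨_, D09_comm f X g y _ hy⟩)
    (by
      rw [← hkk]
      exact Nat.card_congr (Equiv.subtypeEquiv Φ.toEquiv (fun x => by
        rw [SetLike.mem_coe.symm, SetLike.mem_coe, htE, hE, hring]
        rfl)))
    (by
      rw [← hJ]
      exact Nat.card_congr (Equiv.subtypeEquiv Φ.toEquiv (fun x => by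
        rw [htI, hI, hrad]
        rfl)))
    (by
      intro g hg
      rw [htE, hE, hring] at hg
      rw [htI, hI, hrad, ← D09_loc S k _ hg]
      constructor
      · intro h
        exact h.map Φ
      · intro h
        have := h.map Φ.symm
        simpa using this)
  refine ⟨?_, ?_⟩
  · rintro ⟨c, Z, hZ⟩
    refine hmain.1 ⟨c, Φ.symm Z, ?_⟩
    apply Φ.injective
    rw [hXs, hZ, map_add, map_smul, map_smul, map_one, Φ.apply_symm_apply]
  · intro g
    have h1 := hmain.2 (Φ.symm g)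
    rw [htE, hE, hring, Φ.apply_symm_apply] at h1
    rw [h1]
    constructor
    · rintro ⟨y, hy⟩
      refine ⟨Φ y, ?_⟩
      have := congrArg Φ hy
      rwa [map_sub, map_mul, map_mul, map_smul, hXs, Φ.apply_symm_apply] at this
    · rintro ⟨y, hy⟩
      refine ⟨Φ.symm y, ?_⟩
      apply Φ.injective
      rw [map_sub, map_mul, map_mul, map_smul, hXs, Φ.apply_symm_apply, Φ.apply_symm_apply]
      exact hy

/-- the `1 × 1` corners: reading off the entry -/
private noncomputable def D09_sc (o : Type) [CommRing o] {b : ℕ} {ρ : Fin b → ℕ} (i j : Fin b)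
    (hi : ρ i = 1) (hj : ρ j = 1) : Matrix (Fin (ρ i)) (Fin (ρ j)) o ≃ₗ[o] o where
  toFun x := x ⟨0, by omega⟩ ⟨0, by omega⟩
  invFun w := fun _ _ => w
  map_add' x y := rfl
  map_smul' c x := rfl
  left_inv x := by
    have h1 : Subsingleton (Fin (ρ i)) := by rw [hi]; infer_instance
    have h2 : Subsingleton (Fin (ρ j)) := by rw [hj]; infer_instance
    ext a c
    show x _ _ = x a c
    rw [Subsingleton.elim a ⟨0, by omega⟩, Subsingleton.elim c ⟨0, by omega⟩]
  right_inv w := rfl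

private theorem D09_C {b : ℕ} {ρ : Fin b → ℕ} (hch : IsChain o π 16) (q : ℕ)
    (hq : Nat.card (IsLocalRing.ResidueField o) = q) (S : Corners o ρ) (i j : Fin b)
    (hi : ρ i = 1) (hj : ρ j = 1) : ∃ a ≤ 16, Nat.card (S.C i j) = q ^ (16 - a) ∧
      ∀ x, x ∈ S.C i j ↔ ∃ z, D09_sc o i j hi hj x = π ^ a * z := by
  obtain ⟨a, ha, hI⟩ := chain_ideal hch ((S.C i j).map (D09_sc o i j hi hj).toLinearMap)
  refine ⟨a, ha, ?_, ?_⟩
  · rw [← hq, ← chain_card hch a ha, ← hI]
    exact Nat.card_congr ((D09_sc o i j hi hj).submoduleMap (S.C i j)).toEquiv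
  · intro x
    have h1 : x ∈ S.C i j ↔ D09_sc o i j hi hj x ∈
        (S.C i j).map (D09_sc o i j hi hj).toLinearMap := by
      rw [Submodule.mem_map]
      constructor
      · intro h
        exact ⟨x, h, rfl⟩
      · rintro ⟨y, hy, hyx⟩
        have : y = x := (D09_sc o i j hi hj).injective hyx
        rwa [← this]
    rw [h1, hI, Ideal.mem_span_singleton]
    rfl

private theorem D09_two (q : ℕ) (hq : Nat.card (IsLocalRing.ResidueField o) = q) : 2 ≤ q := by
  rw [← hq]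
  have := fin_res o
  exact Finite.one_lt_card

private theorem D09_J {b : ℕ} {ρ : Fin b → ℕ} (hch : IsChain o π 16) (S : Corners o ρ) (i : Fin b)
    (hi : ρ i = 1) (hC : ∀ x, x ∈ S.C i i) (x : Matrix (Fin (ρ i)) (Fin (ρ i)) o) :
    x ∈ S.J i ↔ ∃ z, D09_sc o i i hi hi x = π * z := by
  have hmul : ∀ x y, D09_sc o i i hi hi (x * y) = D09_sc o i i hi hi x * D09_sc o i i hi hi y := by
    intro x y
    have h1 : Subsingleton (Fin (ρ i)) := by rw [hi]; infer_instance
    show (x * y) _ _ = x _ _ * y _ _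
    rw [Matrix.mul_apply, Fintype.sum_eq_single ⟨0, by omega⟩]
    intro a ha
    exact absurd (Subsingleton.elim _ _) ha
  have hone : D09_sc o i i hi hi 1 = 1 := by
    show (1 : Matrix (Fin (ρ i)) (Fin (ρ i)) o) _ _ = 1
    rw [Matrix.one_apply_eq]
  let Φ : Matrix (Fin (ρ i)) (Fin (ρ i)) o ≃+* o :=
    { D09_sc o i i hi hi with
      map_mul' := hmul }
  have hΦ : ∀ x, Φ x = D09_sc o i i hi hi x := fun _ => rfl
  have hu : IsUnit x ↔ IsUnit (D09_sc o i i hi hi x) := by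
    rw [← hΦ]
    constructor
    · intro h
      exact h.map Φ
    · intro h
      have := h.map Φ.symm
      simpa using this
  have h1 := D09_loc S i x (hC x)
  rw [hu] at h1
  have h2 : (∃ z, D09_sc o i i hi hi x = π * z) ↔ ¬ IsUnit (D09_sc o i i hi hi x) := by
    constructor
    · rintro ⟨z, hz⟩
      rw [hz]
      exact chain_nonunit hch z
    · intro h
      rcases chain_isUnit hch (D09_sc o i i hi hi x) with h' | h'
      · exact absurd h' h
      · exact h'
  rw [h2, h1, not_not]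

private theorem D09_anchor {b : ℕ} {ρ : Fin b → ℕ} (hch : IsChain o π 16) (q : ℕ)
    (hq : Nat.card (IsLocalRing.ResidueField o) = q) (S : Corners o ρ)
    (s : Stage (Matrix (Idx (n1 (b := b)) ρ) (Idx (n1 (b := b)) ρ) o))
    (hE : s.E = S.ring n1) (hI : s.I = S.rad n1) (k l : Fin b) (hkl : k ≠ l) (hk : ρ k = 1)
    (hl : ρ l = 1) (hkk : Nat.card (S.C k k) = q ^ 16) (hll : Nat.card (S.C l l) = q ^ 16)
    (c : ℕ) (hc2 : 2 ≤ c) (hc : Nat.card (S.C k l) * Nat.card (S.C l k) = q ^ (32 - c)) (hc32 : c ≤ 16) :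
    (∀ z : o, muc s k ((π ^ c * z) • (1 : Matrix (Fin (ρ k)) (Fin (ρ k)) o)) =
      muc s l ((π ^ c * z) • (1 : Matrix (Fin (ρ l)) (Fin (ρ l)) o))) ∧
    ∃ z : o, muc s k ((π ^ (c - 1) * z) • (1 : Matrix (Fin (ρ k)) (Fin (ρ k)) o)) ≠
      muc s l ((π ^ (c - 1) * z) • (1 : Matrix (Fin (ρ l)) (Fin (ρ l)) o)) := by
  classical
  have hq2 := D09_two q hq
  have hinj : Function.Injective (fun n : ℕ => q ^ n) := Nat.pow_right_injective hq2
  have hsk : Subsingleton (Fin (ρ k)) := by rw [hk]; infer_instance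
  have hsl : Subsingleton (Fin (ρ l)) := by rw [hl]; infer_instance
  obtain ⟨a0, ha0, hca0, hC0⟩ := D09_C hch q hq S k k hk hk
  obtain ⟨a1, ha1, hca1, hC1⟩ := D09_C hch q hq S l l hl hl
  obtain ⟨a, ha, hca, hCa⟩ := D09_C hch q hq S k l hk hl
  obtain ⟨a', ha', hca', hCa'⟩ := D09_C hch q hq S l k hl hk
  have e0 : a0 = 0 := by
    have := hinj (hca0.symm.trans hkk)
    omega
  have e1 : a1 = 0 := by
    have := hinj (hca1.symm.trans hll)
    omega
  have e2 : a + a' = c := by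
    rw [hca, hca', ← pow_add] at hc
    have := hinj hc
    omega
  have hCk : ∀ x, x ∈ S.C k k := fun x => (hC0 x).2 ⟨_, by rw [e0, pow_zero, one_mul]⟩
  have hCl : ∀ x, x ∈ S.C l l := fun x => (hC1 x).2 ⟨_, by rw [e1, pow_zero, one_mul]⟩
  have hJk := D09_J hch S k hk hCk
  have hJl := D09_J hch S l hl hCl
  set zk : Fin (ρ k) := ⟨0, by omega⟩ with hzk
  set zl : Fin (ρ l) := ⟨0, by omega⟩ with hzl
  set f : Fin 2 ↪ Idx (n1 (b := b)) ρ :=
    ⟨![⟨k, (0, zk)⟩, ⟨l, (0, zl)⟩], by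
      intro x y h
      fin_cases x <;> fin_cases y
      · rfl
      · exact absurd (congrArg Sigma.fst h) hkl
      · exact absurd (congrArg Sigma.fst h).symm hkl
      · rfl⟩ with hf
  have hf0 : f 0 = ⟨k, (0, zk)⟩ := rfl
  have hf1 : f 1 = ⟨l, (0, zl)⟩ := rfl
  have b00 : ∀ x : Matrix (Fin 2) (Fin 2) o, D09_sc o k k hk hk (blk (emb f x) k 0 k 0) = x 0 0 :=
    fun x => emb_apply f x 0 0
  have b01 : ∀ x : Matrix (Fin 2) (Fin 2) o, D09_sc o k l hk hl (blk (emb f x) k 0 l 0) = x 0 1 :=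
    fun x => emb_apply f x 0 1
  have b10 : ∀ x : Matrix (Fin 2) (Fin 2) o, D09_sc o l k hl hk (blk (emb f x) l 0 k 0) = x 1 0 :=
    fun x => emb_apply f x 1 0
  have b11 : ∀ x : Matrix (Fin 2) (Fin 2) o, D09_sc o l l hl hl (blk (emb f x) l 0 l 0) = x 1 1 :=
    fun x => emb_apply f x 1 1
  have hblk0 : ∀ (x : Matrix (Fin 2) (Fin 2) o) i (u : Fin 1) j (v : Fin 1),
      ¬ ((i = k ∨ i = l) ∧ (j = k ∨ j = l)) → blk (emb f x) i u j v = 0 := by
    intro x i u j v hij
    ext c d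
    apply emb_apply_ne
    by_cases hi : i = k ∨ i = l
    · right
      intro a'' h
      refine hij ⟨hi, ?_⟩
      fin_cases a''
      · left; exact (congrArg Sigma.fst h).symm
      · right; exact (congrArg Sigma.fst h).symm
    · left
      intro a'' h
      apply hi
      fin_cases a''
      · left; exact (congrArg Sigma.fst h).symm
      · right; exact (congrArg Sigma.fst h).symm
  have hring : ∀ x : Matrix (Fin 2) (Fin 2) o, emb f x ∈ S.ring n1 ↔
      (∃ z, x 0 1 = π ^ a * z) ∧ ∃ z, x 1 0 = π ^ a' * z := by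
    intro x
    constructor
    · intro h
      have h1 := (hCa _).1 (h k 0 l 0)
      have h2 := (hCa' _).1 (h l 0 k 0)
      rw [b01] at h1
      rw [b10] at h2
      exact ⟨h1, h2⟩
    · rintro ⟨h1, h2⟩ i u j v
      have hu : u = 0 := Subsingleton.elim _ _
      have hv : v = 0 := Subsingleton.elim _ _
      subst hu hv
      by_cases hij : (i = k ∨ i = l) ∧ (j = k ∨ j = l)
      · obtain ⟨rfl | rfl, rfl | rfl⟩ := hij
        · exact hCk _
        · rw [hCa, b01]; exact h1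
        · rw [hCa', b10]; exact h2
        · exact hCl _
      · rw [hblk0 x i 0 j 0 hij]
        exact (S.C i j).zero_mem
  have hrad : ∀ x : Matrix (Fin 2) (Fin 2) o, emb f x ∈ S.rad n1 ↔
      (∃ z, x 0 0 = π * z) ∧ (∃ z, x 1 1 = π * z) ∧
      (∃ z, x 0 1 = π ^ a * z) ∧ ∃ z, x 1 0 = π ^ a' * z := by
    intro x
    constructor
    · intro h
      have h1 := (hJk _).1 (h.2 k 0 0)
      have h2 := (hJl _).1 (h.2 l 0 0)
      rw [b00] at h1
      rw [b11] at h2
      exact ⟨h1, h2, (hring x).1 h.1⟩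
    · rintro ⟨h1, h2, h3⟩
      refine ⟨(hring x).2 h3, ?_⟩
      intro i u v
      have hu : u = 0 := Subsingleton.elim _ _
      have hv : v = 0 := Subsingleton.elim _ _
      subst hu hv
      by_cases hik : i = k
      · subst hik
        rw [hJk, b00]; exact h1
      by_cases hil : i = l
      · subst hil
        rw [hJl, b11]; exact h2
      rw [hblk0 x i 0 i 0 (fun hh => by tauto)]
      exact (S.J i).zero_mem
  obtain ⟨t, htE, htI, htm⟩ := corner_stage s f (by
    rw [hE, hring]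
    exact ⟨⟨0, by simp⟩, ⟨0, by simp⟩⟩)
  have hp := pair_cond hch t a a' (by omega) ha ha'
    (fun x => by rw [htE, hE, hring]) (fun x => by rw [htI, hI, hrad])
  have hmk : ∀ w : o, t.m (Matrix.single 0 0 w) =
      muc s k (w • (1 : Matrix (Fin (ρ k)) (Fin (ρ k)) o)) := by
    intro w
    rw [htm, muc]
    congr 1
    ext ⟨i, u, c⟩ ⟨j, v, d⟩
    rw [D09_single]
    have hu : u = 0 := Subsingleton.elim _ _
    have hv : v = 0 := Subsingleton.elim _ _
    subst hu hv
    by_cases hij : i = k ∧ j = k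
    · obtain ⟨rfl, rfl⟩ := hij
      have hc : c = zk := Subsingleton.elim _ _
      have hd : d = zk := Subsingleton.elim _ _
      rw [hc, hd, if_pos ⟨hf0, hf0⟩]
      have := congrFun (congrFun (blk_place_self (n := n1 (b := b)) j 0 j 0
        (w • (1 : Matrix (Fin (ρ j)) (Fin (ρ j)) o))) zk) zk
      rw [blk] at this
      rw [this]
      simp
    · rw [if_neg]
      · have := congrFun (congrFun (blk_place_ne (n := n1 (b := b)) k 0 k 0
          (w • (1 : Matrix (Fin (ρ k)) (Fin (ρ k)) o)) i 0 j 0 (fun hh => hij ⟨hh.1, hh.2.1⟩)) c) d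
        rw [blk] at this
        rw [this]
        rfl
      · rintro ⟨h1, h2⟩
        exact hij ⟨(congrArg Sigma.fst h1).symm, (congrArg Sigma.fst h2).symm⟩
  have hml : ∀ w : o, t.m (Matrix.single 1 1 w) =
      muc s l (w • (1 : Matrix (Fin (ρ l)) (Fin (ρ l)) o)) := by
    intro w
    rw [htm, muc]
    congr 1
    ext ⟨i, u, c⟩ ⟨j, v, d⟩
    rw [D09_single]
    have hu : u = 0 := Subsingleton.elim _ _
    have hv : v = 0 := Subsingleton.elim _ _
    subst hu hv
    by_cases hij : i = l ∧ j = l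
    · obtain ⟨rfl, rfl⟩ := hij
      have hc : c = zl := Subsingleton.elim _ _
      have hd : d = zl := Subsingleton.elim _ _
      rw [hc, hd, if_pos ⟨hf1, hf1⟩]
      have := congrFun (congrFun (blk_place_self (n := n1 (b := b)) j 0 j 0
        (w • (1 : Matrix (Fin (ρ j)) (Fin (ρ j)) o))) zl) zl
      rw [blk] at this
      rw [this]
      simp
    · rw [if_neg]
      · have := congrFun (congrFun (blk_place_ne (n := n1 (b := b)) l 0 l 0
          (w • (1 : Matrix (Fin (ρ l)) (Fin (ρ l)) o)) i 0 j 0 (fun hh => hij ⟨hh.1, hh.2.1⟩)) c) d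
        rw [blk] at this
        rw [this]
        rfl
      · rintro ⟨h1, h2⟩
        exact hij ⟨(congrArg Sigma.fst h1).symm, (congrArg Sigma.fst h2).symm⟩
  rw [e2] at hp
  simp only [hmk, hml] at hp
  exact hp

/-- the scalar `X_k` of an anchor -/
def anch {X : Matrix (Idx (n1 (b := 6)) rhoT) (Idx (n1 (b := 6)) rhoT) o} (k : Fin 6)
    (hk : rhoT k = 1) : o := blk X k 0 k 0 ⟨0, by omega⟩ ⟨0, by omega⟩

/-- Conductors of the anchor characters. HINT: for anchors `k ≠ l` the corner `corner_stage` (F12) along `Fin 2 ↪ Idx` (`0 ↦ (k,0,0)`, `1 ↦ (l,0,0)`) has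
`E = {x | x 0 1 ∈ C k l, x 1 0 ∈ C l k}` because `|C k k| = q^16 = |o|`; `C k l = π^a o` (`chain_ideal`, `1 × 1` matrices), `a = 16 - log_q |C k l|`; `pair_cond`.
`Λ = log_q (|C k l| |C l k|)`, conductor `32 - Λ`. -/
theorem anchor_cond (hch : IsChain o π 16) (q : ℕ)
    (hq : Nat.card (IsLocalRing.ResidueField o) = q) (S : Corners o rhoT)
    (s : Stage (Matrix (Idx (n1 (b := 6)) rhoT) (Idx (n1 (b := 6)) rhoT) o))
    (hE : s.E = S.ring n1) (hI : s.I = S.rad n1) (k l : Fin 6) (hkl : k ≠ l) (hk : rhoT k = 1)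
    (hl : rhoT l = 1) (hkk : Nat.card (S.C k k) = q ^ 16) (hll : Nat.card (S.C l l) = q ^ 16)
    (c : ℕ) (hc2 : 2 ≤ c) (hc : Nat.card (S.C k l) * Nat.card (S.C l k) = q ^ (32 - c)) (hc32 : c ≤ 16) :
    (∀ z : o, muc s k ((π ^ c * z) • (1 : Matrix (Fin (rhoT k)) (Fin (rhoT k)) o)) =
      muc s l ((π ^ c * z) • (1 : Matrix (Fin (rhoT l)) (Fin (rhoT l)) o))) ∧
    ∃ z : o, muc s k ((π ^ (c - 1) * z) • (1 : Matrix (Fin (rhoT k)) (Fin (rhoT k)) o)) ≠
      muc s l ((π ^ (c - 1) * z) • (1 : Matrix (Fin (rhoT l)) (Fin (rhoT l)) o)) := by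
  exact D09_anchor hch q hq S s hE hI k l hkl hk hl hkk hll c hc2 hc hc32

/-- CLAIM R for the rank two corners. HINT: `corner_stage` along `Fin 2 ↪ Idx`, `a ↦ (k, 0, a)`, and `claimR`. -/
theorem corner_claimR (hch : IsChain o π 16) (ψ : AddChar o ℂ) (hψ : IsPrim π 16 ψ) (q : ℕ)
    (hq : Nat.card (IsLocalRing.ResidueField o) = q) (hq4 : 4 ≤ q) (S : Corners o rhoT)
    (X : Matrix (Idx (n1 (b := 6)) rhoT) (Idx (n1 (b := 6)) rhoT) o)
    (s : Stage (Matrix (Idx (n1 (b := 6)) rhoT) (Idx (n1 (b := 6)) rhoT) o))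
    (hE : s.E = S.ring n1) (hI : s.I = S.rad n1)
    (h8 : ∀ y : Matrix (Idx (n1 (b := 6)) rhoT) (Idx (n1 (b := 6)) rhoT) o, π ^ 8 • y ∈ s.I)
    (hm : ∀ y, s.m (π ^ 8 • y) = ψ (π ^ 8 * (X * y).trace))
    (hc : ∀ f ∈ s.E, ∃ y, X * f - f * X = π ^ 8 • y) (k : Fin 6) (hk : rhoT k = 2)
    (hkk : Nat.card (S.C k k) = q ^ 48) (hJ : Nat.card (S.J k) = q ^ 47) :
    (¬ ∃ (c : o) (Z : Matrix (Fin (rhoT k)) (Fin (rhoT k)) o), blk X k 0 k 0 = c • 1 + π • Z) ∧
      ∀ f, f ∈ S.C k k ↔ ∃ y, blk X k 0 k 0 * f - f * blk X k 0 k 0 = π ^ 8 • y := by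
  exact D09_claimR hch ψ hψ q hq hq4 S X s hE hI h8 hm hc k hk hkk hJ

end Pool.Agent.Lib.MP_fa0f6c_al.Cx
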