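import Pool.Agent.Lib.MP_fa0f6c_al.Cx.D07
import Pool.Agent.Lib.MP_fa0f6c_al.Cx.D08
import Pool.Agent.Lib.MP_fa0f6c_al.Cx.D09

set_option autoImplicit false

namespace Pool.Agent.Lib.MP_fa0f6c_al.Cx

variable {o : Type} [CommRing o] [IsLocalRing o] [Finite o] {π : o}

omit [IsLocalRing o] [Finite o] in
/-- multiplication by a scalar matrix under the trace -/
private theorem d10_trace_smul {κ : Type} [Fintype κ] [DecidableEq κ] (X : Matrix κ κ o) (z : o) :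
    (X * (z • (1 : Matrix κ κ o))).trace = X.trace * z := by
  rw [Matrix.mul_smul, Matrix.mul_one, Matrix.trace_smul, smul_eq_mul, mul_comm]

/-- equality of two characters of the form `ψ (π^8 x ·)` -/
private theorem d10_eq_mod (hch : IsChain o π 16) {ψ : AddChar o ℂ} (hψ : IsPrim π 16 ψ) (x y : o)
    (h : ∀ z, ψ (π ^ 8 * (x * z)) = ψ (π ^ 8 * (y * z))) : ∃ w, x - y = π ^ 8 * w := by
  have h1 : ∀ z, ψ (π ^ 8 * ((x - y) * z)) = 1 := by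
    intro z
    have h2 : π ^ 8 * (x * z) = π ^ 8 * ((x - y) * z) + π ^ 8 * (y * z) := by ring
    have h3 := h z
    rw [h2, AddChar.map_add_eq_mul] at h3
    have h4 : ψ (π ^ 8 * (y * z)) ≠ 0 := by
      intro h0
      have h5 : ψ (π ^ 8 * (y * z) + -(π ^ 8 * (y * z))) = 1 := by
        rw [add_neg_cancel]; exact AddChar.map_zero_eq_one ψ
      rw [AddChar.map_add_eq_mul, h0, zero_mul] at h5
      exact zero_ne_one h5
    exact mul_right_cancel₀ h4 (by rw [h3, one_mul])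
  obtain ⟨w, hw⟩ := prim_nondeg_pow hch hψ 8 (by norm_num) (x - y) h1
  exact ⟨w, by simpa using hw⟩

omit [IsLocalRing o] [Finite o] in
/-- `c * D = tr D • c` for a `1 × 1` matrix `D` -/
private theorem d10_mul_one {κ : Type} (c : Matrix κ (Fin 1) o) (D : Matrix (Fin 1) (Fin 1) o) :
    c * D = D.trace • c := by
  ext i j
  fin_cases j
  simp only [Matrix.mul_apply, Matrix.trace, Matrix.smul_apply, smul_eq_mul, Finset.univ_unique,
    Finset.sum_singleton, Matrix.diag_apply, Fin.default_eq_zero]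
  exact mul_comm _ _

omit [IsLocalRing o] [Finite o] in
private theorem d10_one_mul {κ : Type} (c : Matrix (Fin 1) κ o) (D : Matrix (Fin 1) (Fin 1) o) :
    D * c = D.trace • c := by
  ext i j
  fin_cases i
  simp [Matrix.mul_apply, Matrix.trace]

private theorem d10_core (hch : IsChain o π 16) {ψ : AddChar o ℂ} (hψ : IsPrim π 16 ψ) (q : ℕ)
    (hq : Nat.card (IsLocalRing.ResidueField o) = q) {a b c : ℕ} (ha : a = 2) (hb : b = 1)
    (hc : c = 1) (XY : Matrix (Fin a) (Fin a) o) (Xk : Matrix (Fin b) (Fin b) o)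
    (Xl : Matrix (Fin c) (Fin c) o)
    (hX : ¬ ∃ (c : o) (Z : Matrix (Fin a) (Fin a) o), XY = c • 1 + π • Z)
    (A : Submodule o (Matrix (Fin a) (Fin b) o)) (B : Submodule o (Matrix (Fin b) (Fin a) o))
    (A' : Submodule o (Matrix (Fin a) (Fin c) o)) (B' : Submodule o (Matrix (Fin c) (Fin a) o))
    (hA : ∀ v ∈ A, ∃ z, XY * v - v * Xk = π ^ 8 • z)
    (hB : ∀ w ∈ B, ∃ z, Xk * w - w * XY = π ^ 8 • z)
    (hA' : ∀ v ∈ A', ∃ z, XY * v - v * Xl = π ^ 8 • z)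
    (hB' : ∀ w ∈ B', ∃ z, Xl * w - w * XY = π ^ 8 • z)
    (hAB : Nat.card A * Nat.card B = q ^ 48) (hAB' : Nat.card A' * Nat.card B' = q ^ 48)
    (mY : Matrix (Fin a) (Fin a) o → ℂ) (mk : Matrix (Fin b) (Fin b) o → ℂ)
    (ml : Matrix (Fin c) (Fin c) o → ℂ)
    (hk : ∀ x ∈ A, ∀ y ∈ B, mY (x * y) = mk (y * x))
    (hl : ∀ x ∈ A', ∀ y ∈ B', mY (x * y) = ml (y * x))
    (h8 : ∀ z : o, mk ((π ^ 8 * z) • 1) = ml ((π ^ 8 * z) • 1))
    (h7 : ∃ z : o, mk ((π ^ 7 * z) • 1) ≠ ml ((π ^ 7 * z) • 1))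
    (hmk : ∀ y, mk (π ^ 8 • y) = ψ (π ^ 8 * (Xk * y).trace))
    (hml : ∀ y, ml (π ^ 8 • y) = ψ (π ^ 8 * (Xl * y).trace)) :
    ∃ z : o, XY.trace = 2 * Xk.trace + π ^ 8 * z := by
  subst ha hb hc
  obtain ⟨w, hw⟩ := d10_eq_mod hch hψ Xk.trace Xl.trace (fun z => by
    have h1 := hmk (z • 1)
    have h2 := hml (z • 1)
    rw [d10_trace_smul] at h1 h2
    rw [← h1, ← h2, smul_smul, h8])
  obtain ⟨-, -, β, v₀, hv₀, w₀, hw₀, hδ, z₁, hz₁⟩ := eigen_normal hch q hq XY hX Xk.trace A B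
    (fun v hv => by obtain ⟨z, hz⟩ := hA v hv; exact ⟨z, by rw [← hz, d10_mul_one]⟩)
    (fun v hv => by
      obtain ⟨z, hz⟩ := hB v hv
      exact ⟨-z, by rw [smul_neg, ← hz, d10_one_mul, neg_sub]⟩) hAB
  obtain ⟨hA1, hB1, -⟩ := eigen_normal hch q hq XY hX Xl.trace A' B'
    (fun v hv => by obtain ⟨z, hz⟩ := hA' v hv; exact ⟨z, by rw [← hz, d10_mul_one]⟩)
    (fun v hv => by
      obtain ⟨z, hz⟩ := hB' v hv
      exact ⟨-z, by rw [smul_neg, ← hz, d10_one_mul, neg_sub]⟩) hAB'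
  have hv' : v₀ ∈ A' := by
    obtain ⟨z, hz⟩ := hA v₀ hv₀
    rw [d10_mul_one] at hz
    refine hA1 v₀ ⟨z + w • v₀, ?_⟩
    have h1 : Xl.trace = Xk.trace - π ^ 8 * w := by rw [← hw]; ring
    rw [h1, sub_smul, smul_add, ← hz, smul_smul]
    abel
  have hw' : w₀ ∈ B' := by
    obtain ⟨z, hz⟩ := hB w₀ hw₀
    rw [d10_one_mul] at hz
    refine hB1 w₀ ⟨-z + w • w₀, ?_⟩
    have h1 : Xl.trace = Xk.trace - π ^ 8 * w := by rw [← hw]; ring
    rw [h1, sub_smul, smul_add, smul_neg, ← hz, smul_smul]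
    abel
  have hδ1 : w₀ * v₀ = (Xk.trace - β) • (1 : Matrix (Fin 1) (Fin 1) o) := by
    ext i j
    fin_cases i; fin_cases j
    simpa using hδ
  have hall : ∀ t : o, mk ((t * (Xk.trace - β)) • 1) = ml ((t * (Xk.trace - β)) • 1) := by
    intro t
    have h1 := hk (t • v₀) (A.smul_mem t hv₀) w₀ hw₀
    have h2 := hl (t • v₀) (A'.smul_mem t hv') w₀ hw'
    rw [h1] at h2
    rwa [Matrix.mul_smul, hδ1, smul_smul] at h2
  have hdiv : ∃ y, Xk.trace - β = π ^ 8 * y := by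
    by_cases h0 : Xk.trace - β = 0
    · exact ⟨0, by rw [h0, mul_zero]⟩
    obtain ⟨i, hi, u, hu⟩ := chain_elem hch _ h0
    by_cases hi8 : 8 ≤ i
    · refine ⟨u * π ^ (i - 8), ?_⟩
      rw [hu]
      have : i = 8 + (i - 8) := by omega
      conv_lhs => rw [this, pow_add]
      ring
    · exfalso
      obtain ⟨z, hz⟩ := h7
      apply hz
      have h1 := hall ((↑u⁻¹ : o) * π ^ (7 - i) * z)
      have h2 : (↑u⁻¹ : o) * π ^ (7 - i) * z * (Xk.trace - β) = π ^ 7 * z := by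
        rw [hu]
        have h3 : π ^ 7 = π ^ (7 - i) * π ^ i := by rw [← pow_add]; congr 1; omega
        calc (↑u⁻¹ : o) * π ^ (7 - i) * z * (↑u * π ^ i)
            = (↑u⁻¹ * ↑u) * (π ^ (7 - i) * π ^ i) * z := by ring
          _ = π ^ 7 * z := by rw [Units.inv_mul, one_mul, ← h3]
      rw [h2] at h1
      exact h1
  obtain ⟨y, hy⟩ := hdiv
  refine ⟨z₁ - y, ?_⟩
  rw [hz₁]
  have : β = Xk.trace - π ^ 8 * y := by rw [← hy]; ring
  rw [this]; ring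

/-- W4 + W5: `tr X_Y = 2 x_k` modulo `π^8`, for a rank two block `Y` with full relations to two anchors `k`, `l` of relative conductor `8`.
PROOF: `x_k = x_l` modulo `π^8` (`anchor_cond` with `c = 8` and `muc_pi`, `prim_nondeg_pow`). `eigen_normal` for `A = C Y k`, `B = C k Y`, `x = x_k` (by `muc_comm`), and for the anchor `l`; the full kernels coincide so `v₀ ∈ C Y l`,
`w₀ ∈ C l Y` too. `muc_cross`: `muc k (t w₀ v₀) = muc Y (t v₀ w₀) = muc l (t w₀ v₀)` for all `t ∈ o`; `w₀ v₀ = x_k - β` is in `J k = π o` (`J_off`); if it were not in `π^8 o` the two characters would agree on `π^7 o`, contradicting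
`anchor_cond`. So `β = x_k` modulo `π^8`. -/
theorem trace_eq (hch : IsChain o π 16) (ψ : AddChar o ℂ) (hψ : IsPrim π 16 ψ) (q : ℕ)
    (hq : Nat.card (IsLocalRing.ResidueField o) = q) (hq4 : 4 ≤ q) (S : Corners o rhoT)
    (X : Matrix (Idx (n1 (b := 6)) rhoT) (Idx (n1 (b := 6)) rhoT) o)
    (s : Stage (Matrix (Idx (n1 (b := 6)) rhoT) (Idx (n1 (b := 6)) rhoT) o))
    (hE : s.E = S.ring n1) (hI : s.I = S.rad n1)
    (h8 : ∀ y : Matrix (Idx (n1 (b := 6)) rhoT) (Idx (n1 (b := 6)) rhoT) o, π ^ 8 • y ∈ s.I)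
    (hm : ∀ y, s.m (π ^ 8 • y) = ψ (π ^ 8 * (X * y).trace))
    (hc : ∀ f ∈ s.E, ∃ y, X * f - f * X = π ^ 8 • y)
    (Y k l : Fin 6) (hY : rhoT Y = 2) (hk : rhoT k = 1) (hl : rhoT l = 1) (hkl : k ≠ l)
    (hYY : Nat.card (S.C Y Y) = q ^ 48) (hJ : Nat.card (S.J Y) = q ^ 47)
    (hkk : Nat.card (S.C k k) = q ^ 16) (hll : Nat.card (S.C l l) = q ^ 16)
    (h1 : Nat.card (S.C k l) * Nat.card (S.C l k) = q ^ 24)
    (h2 : Nat.card (S.C Y k) * Nat.card (S.C k Y) = q ^ 48)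
    (h3 : Nat.card (S.C Y l) * Nat.card (S.C l Y) = q ^ 48) :
    ∃ z : o, (blk X Y 0 Y 0).trace = 2 * (blk X k 0 k 0).trace + π ^ 8 * z := by
  have hYk : Y ≠ k := by rintro rfl; omega
  have hYl : Y ≠ l := by rintro rfl; omega
  obtain ⟨hc8, hc7⟩ := anchor_cond hch q hq S s hE hI k l hkl hk hl hkk hll 8 (by norm_num)
    (by rw [h1]) (by norm_num)
  have hns := (corner_claimR hch ψ hψ q hq hq4 S X s hE hI h8 hm hc Y hY hYY hJ).1
  exact d10_core hch hψ q hq hY hk hl (blk X Y 0 Y 0) (blk X k 0 k 0) (blk X l 0 l 0) hns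
    (S.C Y k) (S.C k Y) (S.C Y l) (S.C l Y)
    (fun v hv => muc_comm S X s hE hc Y k v hv) (fun v hv => muc_comm S X s hE hc k Y v hv)
    (fun v hv => muc_comm S X s hE hc Y l v hv) (fun v hv => muc_comm S X s hE hc l Y v hv)
    h2 h3 (muc s Y) (muc s k) (muc s l)
    (fun x hx y hy => muc_cross S s hE hI Y k hYk x hx y hy)
    (fun x hx y hy => muc_cross S s hE hI Y l hYl x hx y hy)
    hc8 hc7 (fun y => muc_pi ψ X s hm k y) (fun y => muc_pi ψ X s hm l y)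

private theorem d10_cross (hch : IsChain o π 16) (q : ℕ)
    (hq : Nat.card (IsLocalRing.ResidueField o) = q) {a b : ℕ} (ha : a = 2) (hb : b = 2)
    (X : Matrix (Fin a) (Fin a) o) (Y : Matrix (Fin b) (Fin b) o)
    (hX : ¬ ∃ (c : o) (Z : Matrix (Fin a) (Fin a) o), X = c • 1 + π • Z)
    (hY : ¬ ∃ (c : o) (Z : Matrix (Fin b) (Fin b) o), Y = c • 1 + π • Z)
    (A : Submodule o (Matrix (Fin a) (Fin b) o)) (B : Submodule o (Matrix (Fin b) (Fin a) o))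
    (hA : ∀ c ∈ A, ∃ z, X * c - c * Y = π ^ 8 • z) (hB : ∀ c ∈ B, ∃ z, Y * c - c * X = π ^ 8 • z)
    (hA8 : ∀ y : Matrix (Fin a) (Fin b) o, π ^ 8 • y ∈ A)
    (hB8 : ∀ y : Matrix (Fin b) (Fin a) o, π ^ 8 • y ∈ B)
    (hc : Nat.card A * Nat.card B = q ^ 88) :
    ∃ x ∈ A, ∃ y ∈ B, x * y = π ^ 8 • 1 ∧ y * x = π ^ 8 • 1 := by
  subst ha hb
  obtain ⟨T, i, j, hij, h1, h2⟩ := cross_scalar hch q hq X Y hX hY A B hA hB hA8 hB8 hc
  refine ⟨_, h1, _, h2, ?_, ?_⟩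
  · rw [Matrix.smul_mul, Matrix.mul_smul, smul_smul, ← pow_add, hij, Units.mul_inv]
  · rw [Matrix.smul_mul, Matrix.mul_smul, smul_smul, ← pow_add, add_comm, hij, Units.inv_mul]

/-- W6: equal traces of the two rank two blocks. PROOF: `cross_scalar` with `A = C 0 5`, `B = C 5 0`, then `muc_cross` for `t • π^i T`, `π^j T⁻¹`: `muc 0 (t π^8) = muc 5 (t π^8)`, `muc_pi`, `prim_nondeg_pow`. -/
theorem trace_eq' (hch : IsChain o π 16) (ψ : AddChar o ℂ) (hψ : IsPrim π 16 ψ) (q : ℕ)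
    (hq : Nat.card (IsLocalRing.ResidueField o) = q) (hq4 : 4 ≤ q) (S : Corners o rhoT)
    (X : Matrix (Idx (n1 (b := 6)) rhoT) (Idx (n1 (b := 6)) rhoT) o)
    (s : Stage (Matrix (Idx (n1 (b := 6)) rhoT) (Idx (n1 (b := 6)) rhoT) o))
    (hE : s.E = S.ring n1) (hI : s.I = S.rad n1)
    (h8 : ∀ y : Matrix (Idx (n1 (b := 6)) rhoT) (Idx (n1 (b := 6)) rhoT) o, π ^ 8 • y ∈ s.I)
    (hm : ∀ y, s.m (π ^ 8 • y) = ψ (π ^ 8 * (X * y).trace))
    (hc : ∀ f ∈ s.E, ∃ y, X * f - f * X = π ^ 8 • y)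
    (h0 : Nat.card (S.C 0 0) = q ^ 48) (h5 : Nat.card (S.C 5 5) = q ^ 48)
    (hJ0 : Nat.card (S.J 0) = q ^ 47) (hJ5 : Nat.card (S.J 5) = q ^ 47)
    (h05 : Nat.card (S.C 0 5) * Nat.card (S.C 5 0) = q ^ 88) :
    ∃ z : o, (blk X 0 0 0 0).trace = (blk X 5 0 5 0).trace + π ^ 8 * z := by
  have hr0 : rhoT 0 = 2 := rfl
  have hr5 : rhoT 5 = 2 := rfl
  have hns0 := (corner_claimR hch ψ hψ q hq hq4 S X s hE hI h8 hm hc 0 hr0 h0 hJ0).1
  have hns5 := (corner_claimR hch ψ hψ q hq hq4 S X s hE hI h8 hm hc 5 hr5 h5 hJ5).1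
  obtain ⟨hpi, -⟩ := pi_mem S s hI h8
  obtain ⟨x, hx, y, hy, hxy, hyx⟩ := d10_cross hch q hq hr0 hr5 (blk X 0 0 0 0) (blk X 5 0 5 0)
    hns0 hns5 (S.C 0 5) (S.C 5 0) (fun v hv => muc_comm S X s hE hc 0 5 v hv)
    (fun v hv => muc_comm S X s hE hc 5 0 v hv) (hpi 0 5) (hpi 5 0) h05
  obtain ⟨w, hw⟩ := d10_eq_mod hch hψ (blk X 0 0 0 0).trace (blk X 5 0 5 0).trace (fun t => by
    have h1 := muc_cross S s hE hI 0 5 (by decide) (t • x) ((S.C 0 5).smul_mem t hx) y hy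
    rw [Matrix.smul_mul, Matrix.mul_smul, hxy, hyx, smul_comm t, smul_comm t, muc_pi ψ X s hm,
      muc_pi ψ X s hm, d10_trace_smul, d10_trace_smul] at h1
    exact h1)
  exact ⟨w, by rw [← hw]; ring⟩

/-- The W side contradiction (blueprint section 5). PROOF: `trace_eq` for `(Y,k,l) = (0,1,2)` and `(5,3,4)`, `trace_eq'`: `2 (x_1 - x_3) ∈ π^8 o`, so `x_1 - x_3 ∈ π^7 o` (`2 = u π`, `chain_ann`-type argument in a chain ring of length 16). But `anchor_cond` for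
`(1,3)` with `c = 10`: there is `z` with `muc 1 (π^9 z) ≠ muc 3 (π^9 z)`, i.e. `ψ (π^9 (x_1 - x_3) z) ≠ 1`, but `π^9 π^7 = 0`: contradiction. -/
theorem D_main (hch : IsChain o π 16) (h2 : ∃ u : oˣ, (2 : o) = u * π) (ψ : AddChar o ℂ)
    (hψ : IsPrim π 16 ψ) (q : ℕ)
    (hq : Nat.card (IsLocalRing.ResidueField o) = q) (hq4 : 4 ≤ q) (S : Corners o rhoT)
    (X : Matrix (Idx (n1 (b := 6)) rhoT) (Idx (n1 (b := 6)) rhoT) o)
    (s : Stage (Matrix (Idx (n1 (b := 6)) rhoT) (Idx (n1 (b := 6)) rhoT) o))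
    (hE : s.E = S.ring n1) (hI : s.I = S.rad n1)
    (h8 : ∀ y : Matrix (Idx (n1 (b := 6)) rhoT) (Idx (n1 (b := 6)) rhoT) o, π ^ 8 • y ∈ s.I)
    (hm : ∀ y, s.m (π ^ 8 • y) = ψ (π ^ 8 * (X * y).trace))
    (hc : ∀ f ∈ s.E, ∃ y, X * f - f * X = π ^ 8 • y)
    (hd : ∀ i, Nat.card (S.C i i) = q ^ lenT i i) (hJ : ∀ i, Nat.card (S.C i i) = q * Nat.card (S.J i))
    (ho : ∀ i j, i ≠ j → Nat.card (S.C i j) * Nat.card (S.C j i) = q ^ (lenT i j + lenT j i)) :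
    False := by
  have hq0 : 0 < q := by omega
  have hJ0 : Nat.card (S.J 0) = q ^ 47 := by
    have e1 := hJ 0
    have e2 : Nat.card (S.C 0 0) = q ^ 48 := hd 0
    rw [e2, pow_succ', Nat.mul_right_inj hq0.ne'] at e1
    exact e1.symm
  have hJ5 : Nat.card (S.J 5) = q ^ 47 := by
    have e1 := hJ 5
    have e2 : Nat.card (S.C 5 5) = q ^ 48 := hd 5
    rw [e2, pow_succ', Nat.mul_right_inj hq0.ne'] at e1
    exact e1.symm
  obtain ⟨z₁, hz₁⟩ := trace_eq hch ψ hψ q hq hq4 S X s hE hI h8 hm hc 0 1 2 rfl rfl rfl (by decide)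
    (hd 0) hJ0 (hd 1) (hd 2) (ho 1 2 (by decide)) (ho 0 1 (by decide)) (ho 0 2 (by decide))
  obtain ⟨z₂, hz₂⟩ := trace_eq hch ψ hψ q hq hq4 S X s hE hI h8 hm hc 5 3 4 rfl rfl rfl (by decide)
    (hd 5) hJ5 (hd 3) (hd 4) (ho 3 4 (by decide)) (ho 5 3 (by decide)) (ho 5 4 (by decide))
  obtain ⟨z₃, hz₃⟩ := trace_eq' hch ψ hψ q hq hq4 S X s hE hI h8 hm hc (hd 0) (hd 5) hJ0 hJ5
    (ho 0 5 (by decide))
  obtain ⟨-, z, hz⟩ := anchor_cond hch q hq S s hE hI 1 3 (by decide) rfl rfl (hd 1) (hd 3) 10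
    (by norm_num) (ho 1 3 (by decide)) (by norm_num)
  obtain ⟨u, hu⟩ := h2
  generalize hx1 : (blk X 1 0 1 0).trace = x1 at hz₁
  generalize hx3 : (blk X 3 0 3 0).trace = x3 at hz₂
  -- 2 (x1 - x3) ∈ π ^ 8 o
  have h4 : 2 * (x1 - x3) = π ^ 8 * (z₂ + z₃ - z₁) := by
    rw [hz₁, hz₂] at hz₃
    linear_combination hz₃
  have h5 : π ^ 1 * (x1 - x3 - π ^ 7 * ((↑u⁻¹ : o) * (z₂ + z₃ - z₁))) = 0 := by
    have h6 : π * (x1 - x3) = π ^ 8 * ((↑u⁻¹ : o) * (z₂ + z₃ - z₁)) := by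
      have h7 : (↑u⁻¹ : o) * (2 * (x1 - x3)) = π * (x1 - x3) := by
        rw [hu]
        calc (↑u⁻¹ : o) * (↑u * π * (x1 - x3)) = (↑u⁻¹ * ↑u) * (π * (x1 - x3)) := by ring
          _ = π * (x1 - x3) := by rw [Units.inv_mul, one_mul]
      rw [← h7, h4]; ring
    rw [pow_one, mul_sub, h6]; ring
  obtain ⟨y, hy⟩ := (chain_ann hch 1 (by norm_num) _).1 h5
  have h6 : x1 = x3 + π ^ 7 * ((↑u⁻¹ : o) * (z₂ + z₃ - z₁) + π ^ 8 * y) := by
    have h7 : π ^ (16 - 1) = π ^ 7 * π ^ 8 := by rw [← pow_add]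
    rw [h7] at hy
    linear_combination hy
  apply hz
  have e1 : ∀ i : Fin 6, muc s i ((π ^ (10 - 1) * z) • (1 : Matrix (Fin (rhoT i)) (Fin (rhoT i)) o)) =
      ψ (π ^ 8 * ((blk X i 0 i 0).trace * (π * z))) := by
    intro i
    rw [← d10_trace_smul, ← muc_pi ψ X s hm i, smul_smul]
    congr 2
    ring
  rw [e1 1, e1 3, hx1, hx3, h6]
  congr 1
  have h16 := hch.pow
  linear_combination (((↑u⁻¹ : o) * (z₂ + z₃ - z₁) + π ^ 8 * y) * z) * h16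

end Pool.Agent.Lib.MP_fa0f6c_al.Cx
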