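import Pool.Agent.Lib.MP_fa0f6c_al.Cx.C13
import Pool.Agent.Lib.MP_fa0f6c_al.Cx.D10
import Pool.Agent.Lib.MP_fa0f6c_al.Cx.F12

set_option autoImplicit false

namespace Pool.Agent.Lib.MP_fa0f6c_al.Cx

open scoped Matrix

variable {o : Type} [CommRing o] [IsLocalRing o] [Finite o] {π : o}

section emb
variable {κ κ₁ : Type} [Fintype κ] [DecidableEq κ] [Fintype κ₁] [DecidableEq κ₁]

omit [IsLocalRing o] [Finite o] in
private theorem C14_tr_mul (f : κ₁ ↪ κ) : (pmat o f)ᵀ * pmat o f = 1 := by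
  ext i j
  rw [Matrix.mul_apply, Matrix.one_apply]
  simp only [Matrix.transpose_apply, pmat]
  rw [Finset.sum_eq_single (f i)]
  · simp only [if_true, one_mul]
    by_cases h : i = j
    · subst h; simp
    · have h' : f j ≠ f i := fun h2 => h (f.injective h2).symm
      simp [h, h']
  · intro a _ ha
    rw [if_neg (Ne.symm ha), zero_mul]
  · intro h
    exact absurd (Finset.mem_univ _) h

omit [IsLocalRing o] [Finite o] [Fintype κ] [DecidableEq κ₁] in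
private theorem C14_emb_smul (f : κ₁ ↪ κ) (c : o) (x : Matrix κ₁ κ₁ o) :
    emb f (c • x) = c • emb f x := by
  unfold emb
  rw [Matrix.mul_smul, Matrix.smul_mul]

omit [IsLocalRing o] [Finite o] [DecidableEq κ₁] in
private theorem C14_trace (f : κ₁ ↪ κ) (X : Matrix κ κ o) (y : Matrix κ₁ κ₁ o) :
    (X * emb f y).trace = ((pmat o f)ᵀ * X * pmat o f * y).trace := by
  unfold emb
  have h1 : X * (pmat o f * y * (pmat o f)ᵀ) = (X * pmat o f * y) * (pmat o f)ᵀ := by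
    simp only [Matrix.mul_assoc]
  rw [h1, Matrix.trace_mul_comm]
  simp only [Matrix.mul_assoc]

omit [IsLocalRing o] [Finite o] in
private theorem C14_comm (f : κ₁ ↪ κ) (X : Matrix κ κ o) (x : Matrix κ₁ κ₁ o) (y : Matrix κ κ o)
    (c : o) (h : X * emb f x - emb f x * X = c • y) :
    ((pmat o f)ᵀ * X * pmat o f) * x - x * ((pmat o f)ᵀ * X * pmat o f) =
      c • ((pmat o f)ᵀ * y * pmat o f) := by
  have h0 := C14_tr_mul (o := o) f
  have h1 : (pmat o f)ᵀ * (X * emb f x) * pmat o f = (pmat o f)ᵀ * X * pmat o f * x := by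
    unfold emb
    calc (pmat o f)ᵀ * (X * (pmat o f * x * (pmat o f)ᵀ)) * pmat o f
        = (pmat o f)ᵀ * X * pmat o f * x * ((pmat o f)ᵀ * pmat o f) := by
          simp only [Matrix.mul_assoc]
      _ = (pmat o f)ᵀ * X * pmat o f * x := by rw [h0, Matrix.mul_one]
  have h2 : (pmat o f)ᵀ * (emb f x * X) * pmat o f = x * ((pmat o f)ᵀ * X * pmat o f) := by
    unfold emb
    calc (pmat o f)ᵀ * (pmat o f * x * (pmat o f)ᵀ * X) * pmat o f
        = ((pmat o f)ᵀ * pmat o f) * (x * ((pmat o f)ᵀ * X * pmat o f)) := by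
          simp only [Matrix.mul_assoc]
      _ = x * ((pmat o f)ᵀ * X * pmat o f) := by rw [h0, Matrix.one_mul]
  rw [← h1, ← h2, ← Matrix.sub_mul, ← Matrix.mul_sub, h, Matrix.mul_smul, Matrix.smul_mul]

end emb

/-- the embedding of the basic corner -/
private def C14_f {b : ℕ} {n : Fin b → ℕ} (hn : ∀ i, 0 < n i) (ρ : Fin b → ℕ) :
    Idx (n1 (b := b)) ρ ↪ Idx n ρ where
  toFun u := ⟨u.1, (⟨0, hn u.1⟩, u.2.2)⟩
  inj' := by
    rintro ⟨i, s, a⟩ ⟨j, t, c⟩ h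
    simp only [Sigma.mk.injEq] at h
    obtain ⟨rfl, h2⟩ := h
    have h3 := eq_of_heq h2
    simp only [Prod.mk.injEq, true_and] at h3
    subst h3
    have hst : s = t := Subsingleton.elim s t
    rw [hst]

omit [IsLocalRing o] [Finite o] in
private theorem C14_blk {b : ℕ} {n ρ : Fin b → ℕ} (hn : ∀ i, 0 < n i)
    (x : Matrix (Idx (n1 (b := b)) ρ) (Idx (n1 (b := b)) ρ) o) (i j : Fin b)
    (s : Fin (n i)) (t : Fin (n j)) :
    blk (emb (C14_f hn ρ) x) i s j t = if (s : ℕ) = 0 ∧ (t : ℕ) = 0 then blk x i 0 j 0 else 0 := by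
  split_ifs with h
  · obtain ⟨h1, h2⟩ := h
    have h1' : s = ⟨0, hn i⟩ := Fin.ext h1
    have h2' : t = ⟨0, hn j⟩ := Fin.ext h2
    subst h1' h2'
    ext a c
    exact emb_apply (C14_f hn ρ) x ⟨i, (0, a)⟩ ⟨j, (0, c)⟩
  · ext a c
    show emb (C14_f hn ρ) x ⟨i, (s, a)⟩ ⟨j, (t, c)⟩ = 0
    apply emb_apply_ne
    by_cases h1 : (s : ℕ) = 0
    · right
      rintro ⟨k, u, e⟩ hk
      have hk' : (⟨k, (⟨0, hn k⟩, e)⟩ : Idx n ρ) = ⟨j, (t, c)⟩ := hk
      simp only [Sigma.mk.injEq] at hk'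
      obtain ⟨rfl, h3⟩ := hk'
      have h4 := eq_of_heq h3
      simp only [Prod.mk.injEq] at h4
      exact h ⟨h1, by rw [← h4.1]⟩
    · left
      rintro ⟨k, u, e⟩ hk
      have hk' : (⟨k, (⟨0, hn k⟩, e)⟩ : Idx n ρ) = ⟨i, (s, a)⟩ := hk
      simp only [Sigma.mk.injEq] at hk'
      obtain ⟨rfl, h3⟩ := hk'
      have h4 := eq_of_heq h3
      simp only [Prod.mk.injEq] at h4
      exact h1 (by rw [← h4.1])

omit [IsLocalRing o] [Finite o] in
private theorem C14_ring {b : ℕ} {n ρ : Fin b → ℕ} (hn : ∀ i, 0 < n i) (S : Corners o ρ)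
    (x : Matrix (Idx (n1 (b := b)) ρ) (Idx (n1 (b := b)) ρ) o) :
    emb (C14_f hn ρ) x ∈ S.ring n ↔ x ∈ S.ring n1 := by
  change (∀ i s j t, blk (emb (C14_f hn ρ) x) i s j t ∈ S.C i j) ↔
    (∀ i s j t, blk x i s j t ∈ S.C i j)
  constructor
  · intro h i s j t
    have h1 := h i ⟨0, hn i⟩ j ⟨0, hn j⟩
    rw [C14_blk, if_pos ⟨rfl, rfl⟩] at h1
    have hs : s = 0 := Subsingleton.elim s 0
    have ht : t = 0 := Subsingleton.elim t 0
    rw [hs, ht]
    exact h1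
  · intro h i s j t
    rw [C14_blk]
    split_ifs
    · exact h i 0 j 0
    · exact (S.C i j).zero_mem

omit [IsLocalRing o] [Finite o] in
private theorem C14_rad {b : ℕ} {n ρ : Fin b → ℕ} (hn : ∀ i, 0 < n i) (S : Corners o ρ)
    (x : Matrix (Idx (n1 (b := b)) ρ) (Idx (n1 (b := b)) ρ) o) :
    emb (C14_f hn ρ) x ∈ S.rad n ↔ x ∈ S.rad n1 := by
  change ((∀ i s j t, blk (emb (C14_f hn ρ) x) i s j t ∈ S.C i j) ∧
      ∀ i s t, blk (emb (C14_f hn ρ) x) i s i t ∈ S.J i) ↔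
    ((∀ i s j t, blk x i s j t ∈ S.C i j) ∧ ∀ i s t, blk x i s i t ∈ S.J i)
  constructor
  · rintro ⟨h, h'⟩
    refine ⟨fun i s j t => ?_, fun i s t => ?_⟩
    · have h1 := h i ⟨0, hn i⟩ j ⟨0, hn j⟩
      rw [C14_blk, if_pos ⟨rfl, rfl⟩] at h1
      have hs : s = 0 := Subsingleton.elim s 0
      have ht : t = 0 := Subsingleton.elim t 0
      rw [hs, ht]
      exact h1
    · have h1 := h' i ⟨0, hn i⟩ ⟨0, hn i⟩
      rw [C14_blk, if_pos ⟨rfl, rfl⟩] at h1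
      have hs : s = 0 := Subsingleton.elim s 0
      have ht : t = 0 := Subsingleton.elim t 0
      rw [hs, ht]
      exact h1
  · rintro ⟨h, h'⟩
    refine ⟨fun i s j t => ?_, fun i s t => ?_⟩
    · rw [C14_blk]
      split_ifs
      · exact h i 0 j 0
      · exact (S.C i j).zero_mem
    · rw [C14_blk]
      split_ifs
      · exact h' i 0 0
      · exact (S.J i).zero_mem

/-- The basic corner (blueprint 2.4). PROOF: `corner_stage` (F12) for the embedding `Idx n1 ρ ↪ Idx n ρ`, `⟨i, (s, a)⟩ ↦ ⟨i, (0, a)⟩`: the blocks of `emb f x` are `blk x i 0 j 0` at `(i,0), (j,0)` and `0` elsewhere. The new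
`X' = fun u v => X (f u) (f v)`; `trace (X * emb f y) = trace (X' * y)`, and the corner of `X * emb f x - emb f x * X`. -/
theorem basic_corner {b : ℕ} {n ρ : Fin b → ℕ} (hn : ∀ i, 0 < n i) (S : Corners o ρ)
    (s : Stage (Matrix (Idx n ρ) (Idx n ρ) o)) (hE : s.E = S.ring n) (hI : s.I = S.rad n)
    (ψ : AddChar o ℂ) (X : Matrix (Idx n ρ) (Idx n ρ) o)
    (h8 : ∀ y : Matrix (Idx n ρ) (Idx n ρ) o, π ^ 8 • y ∈ s.I)
    (hm : ∀ y, s.m (π ^ 8 • y) = ψ (π ^ 8 * (X * y).trace))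
    (hc : ∀ f ∈ s.E, ∃ y, X * f - f * X = π ^ 8 • y) :
    ∃ (t : Stage (Matrix (Idx (n1 (b := b)) ρ) (Idx (n1 (b := b)) ρ) o))
      (X' : Matrix (Idx (n1 (b := b)) ρ) (Idx (n1 (b := b)) ρ) o),
      t.E = S.ring n1 ∧ t.I = S.rad n1 ∧
      (∀ y : Matrix (Idx (n1 (b := b)) ρ) (Idx (n1 (b := b)) ρ) o, π ^ 8 • y ∈ t.I) ∧
      (∀ y, t.m (π ^ 8 • y) = ψ (π ^ 8 * (X' * y).trace)) ∧
      ∀ f ∈ t.E, ∃ y, X' * f - f * X' = π ^ 8 • y := by
  set f := C14_f hn ρ with hf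
  have hone : emb f (1 : Matrix (Idx (n1 (b := b)) ρ) (Idx (n1 (b := b)) ρ) o) ∈ s.E := by
    rw [hE, hf, C14_ring]
    exact (S.ring n1).one_mem
  obtain ⟨t, ht1, ht2, ht3⟩ := corner_stage s f hone
  refine ⟨t, (pmat o f)ᵀ * X * pmat o f, ?_, ?_, ?_, ?_, ?_⟩
  · ext x
    rw [ht1, hE, hf, C14_ring]
  · ext x
    rw [ht2, hI, hf, C14_rad]
  · intro y
    rw [ht2, C14_emb_smul]
    exact h8 _
  · intro y
    rw [ht3, C14_emb_smul, hm, C14_trace]
  · intro x hx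
    rw [ht1] at hx
    obtain ⟨y, hy⟩ := hc _ hx
    exact ⟨_, C14_comm f X x y _ hy⟩

/-- The `W` side has no stage with the T-values (blueprint section 5). PROOF: `std_transport`, `basic_corner`, `D_main`. The hypotheses about `ν` come from `reach_first`; for the
transported stage use `X' = reindex ε ε (g * X * g⁻¹)` (`Matrix.trace` is invariant). -/
theorem w_side {d : Fin 6 → ℕ} {q : ℕ} (h : Nums d q) (hch : IsChain o π 16)
    (h2 : ∃ u : oˣ, (2 : o) = u * π) (hq : Nat.card (IsLocalRing.ResidueField o) = q)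
    (ψ : AddChar o ℂ) (hψ : IsPrim π 16 ψ) {ι : Type} [Fintype ι] [DecidableEq ι]
    {X : Matrix ι ι o} {s ν : Stage (Matrix ι ι o)} (hs : IsFirst π 8 ψ X s) (hr : s.Reach ν)
    {n : Fin 6 → ℕ} (hn : ∀ i, 0 < n i) {S : Corners o rhoT} {ε : ι ≃ Idx n rhoT}
    {g : (Matrix ι ι o)ˣ} (hstd : IsStd ν n rhoT S ε g)
    (hd : ∀ i, Nat.card (S.C i i) = q ^ lenT i i)
    (hJ : ∀ i, Nat.card (S.C i i) = q * Nat.card (S.J i))
    (ho : ∀ i j, i ≠ j → Nat.card (S.C i j) * Nat.card (S.C j i) = q ^ (lenT i j + lenT j i)) :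
    False := by
  classical
  obtain ⟨-, r8, rm, rc⟩ := reach_first hs hr
  obtain ⟨s', hE', hI', hm', -⟩ := std_transport hstd
  obtain ⟨Φ, hΦ⟩ := conj_reindex (o := o) ε g
  have hsmul : ∀ (c : o) (x : Matrix ι ι o), Φ (c • x) = c • Φ x := by
    intro c x
    rw [hΦ, hΦ, Matrix.mul_smul, Matrix.smul_mul]
    ext i j
    simp
  have htr : ∀ x : Matrix ι ι o, (Φ x).trace = x.trace := by
    intro x
    rw [hΦ]
    have h1 : (Matrix.reindex ε ε ((g : Matrix ι ι o) * x *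
        ((g⁻¹ : (Matrix ι ι o)ˣ) : Matrix ι ι o))).trace =
        ((g : Matrix ι ι o) * x * ((g⁻¹ : (Matrix ι ι o)ˣ) : Matrix ι ι o)).trace := by
      unfold Matrix.trace
      exact Equiv.sum_comp ε.symm (fun i => ((g : Matrix ι ι o) * x *
        ((g⁻¹ : (Matrix ι ι o)ˣ) : Matrix ι ι o)).diag i)
    rw [h1, Matrix.trace_mul_comm, ← mul_assoc, Units.inv_mul, one_mul]
  have hmΦ : ∀ x, s'.m (Φ x) = ν.m x := by
    intro x
    rw [hΦ]
    exact hm' x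
  obtain ⟨t, X', hE, hI, h8, hm, hc⟩ := basic_corner hn S s' hE' hI' ψ (Φ X)
    (by
      intro y
      obtain ⟨x, rfl⟩ := Φ.surjective y
      rw [← hsmul, hI', hΦ]
      exact (hstd.2 _).1 (r8 x))
    (by
      intro y
      obtain ⟨x, rfl⟩ := Φ.surjective y
      rw [← hsmul, hmΦ, rm, ← map_mul, htr])
    (by
      intro y hy
      obtain ⟨x, rfl⟩ := Φ.surjective y
      rw [hE', hΦ] at hy
      obtain ⟨z, hz⟩ := rc x ((hstd.1 x).2 hy)
      refine ⟨Φ z, ?_⟩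
      rw [← map_mul, ← map_mul, ← map_sub, hz, hsmul])
  exact D_main hch h2 ψ hψ q hq h.q4 S X' t hE hI h8 hm hc hd hJ ho

end Pool.Agent.Lib.MP_fa0f6c_al.Cx
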