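import Pool.Agent.Lib.MP_fa0f6c_al.Cx.F05
import Pool.Agent.Lib.MP_fa0f6c_al.Cx.F08
import Pool.Agent.Lib.MP_fa0f6c_al.Cx.F11

set_option autoImplicit false

namespace Pool.Agent.Lib.MP_fa0f6c_al.Cx

variable {o : Type} [CommRing o] {b : ℕ} {ρ : Fin b → ℕ}

/-- The matrix with a single nonzero block. -/
def place {n : Fin b → ℕ} (i : Fin b) (s : Fin (n i)) (j : Fin b) (t : Fin (n j))
    (x : Matrix (Fin (ρ i)) (Fin (ρ j)) o) : Matrix (Idx n ρ) (Idx n ρ) o :=
  fun u v => if h : u.1 = i ∧ v.1 = j then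
      (if (u.2.1 : ℕ) = s ∧ (v.2.1 : ℕ) = t then
        x (Fin.cast (by rw [h.1]) u.2.2) (Fin.cast (by rw [h.2]) v.2.2) else 0)
    else 0

theorem blk_place_self {n : Fin b → ℕ} (i : Fin b) (s : Fin (n i)) (j : Fin b) (t : Fin (n j))
    (x : Matrix (Fin (ρ i)) (Fin (ρ j)) o) : blk (place i s j t x) i s j t = x := by
  ext a c
  simp [blk, place]

theorem blk_place_ne {n : Fin b → ℕ} (i : Fin b) (s : Fin (n i)) (j : Fin b) (t : Fin (n j))
    (x : Matrix (Fin (ρ i)) (Fin (ρ j)) o) (k : Fin b) (u : Fin (n k)) (l : Fin b)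
    (v : Fin (n l)) (h : ¬ (k = i ∧ l = j ∧ (u : ℕ) = s ∧ (v : ℕ) = t)) :
    blk (place i s j t x) k u l v = 0 := by
  ext a c
  simp only [blk, place]
  split_ifs with h1 h2
  · exact absurd ⟨h1.1, h1.2, h2.1, h2.2⟩ h
  · rfl
  · rfl

omit [CommRing o] in
private theorem ext_blk {n : Fin b → ℕ} {x y : Matrix (Idx n ρ) (Idx n ρ) o}
    (h : ∀ i s j t, blk x i s j t = blk y i s j t) : x = y := by
  ext ⟨i, s, a⟩ ⟨j, t, c⟩
  exact congrFun (congrFun (h i s j t) a) c

private theorem blk_sum' {n : Fin b → ℕ} {κ : Type} (S : Finset κ)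
    (f : κ → Matrix (Idx n ρ) (Idx n ρ) o) (i : Fin b) (s : Fin (n i)) (j : Fin b)
    (t : Fin (n j)) : blk (∑ k ∈ S, f k) i s j t = ∑ k ∈ S, blk (f k) i s j t := by
  ext a c
  simp [blk, Matrix.sum_apply]

private theorem blk_place_mul {n : Fin b → ℕ} (i : Fin b) (s : Fin (n i)) (j : Fin b)
    (t : Fin (n j)) (y : Matrix (Fin (ρ i)) (Fin (ρ j)) o) (x : Matrix (Idx n ρ) (Idx n ρ) o)
    (l : Fin b) (v : Fin (n l)) :
    blk (place i s j t y * x) i s l v = y * blk x j t l v := by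
  rw [blk_mul, Finset.sum_eq_single j, Finset.sum_eq_single t]
  · rw [blk_place_self]
  · intro u _ hu
    rw [blk_place_ne, Matrix.zero_mul]
    rintro ⟨_, _, _, h⟩
    exact hu (Fin.ext h)
  · intro h; exact absurd (Finset.mem_univ _) h
  · intro k _ hk
    apply Finset.sum_eq_zero
    intro u _
    rw [blk_place_ne, Matrix.zero_mul]
    rintro ⟨_, h, _⟩
    exact hk h
  · intro h; exact absurd (Finset.mem_univ _) h

private theorem blk_place_mul_ne {n : Fin b → ℕ} (i : Fin b) (s : Fin (n i)) (j : Fin b)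
    (t : Fin (n j)) (y : Matrix (Fin (ρ i)) (Fin (ρ j)) o) (x : Matrix (Idx n ρ) (Idx n ρ) o)
    (k : Fin b) (u : Fin (n k)) (l : Fin b) (v : Fin (n l)) (h : ¬ (k = i ∧ (u : ℕ) = s)) :
    blk (place i s j t y * x) k u l v = 0 := by
  rw [blk_mul]
  apply Finset.sum_eq_zero
  intro k' _
  apply Finset.sum_eq_zero
  intro u' _
  rw [blk_place_ne, Matrix.zero_mul]
  rintro ⟨h1, _, h2, _⟩
  exact h ⟨h1, h2⟩

private theorem blk_mul_place {n : Fin b → ℕ} (i : Fin b) (s : Fin (n i)) (j : Fin b)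
    (t : Fin (n j)) (y : Matrix (Fin (ρ i)) (Fin (ρ j)) o) (x : Matrix (Idx n ρ) (Idx n ρ) o)
    (l : Fin b) (v : Fin (n l)) :
    blk (x * place i s j t y) l v j t = blk x l v i s * y := by
  rw [blk_mul, Finset.sum_eq_single i, Finset.sum_eq_single s]
  · rw [blk_place_self]
  · intro u _ hu
    rw [blk_place_ne, Matrix.mul_zero]
    rintro ⟨_, _, h, _⟩
    exact hu (Fin.ext h)
  · intro h; exact absurd (Finset.mem_univ _) h
  · intro k _ hk
    apply Finset.sum_eq_zero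
    intro u _
    rw [blk_place_ne, Matrix.mul_zero]
    rintro ⟨h, _⟩
    exact hk h
  · intro h; exact absurd (Finset.mem_univ _) h

private theorem blk_mul_place_ne {n : Fin b → ℕ} (i : Fin b) (s : Fin (n i)) (j : Fin b)
    (t : Fin (n j)) (y : Matrix (Fin (ρ i)) (Fin (ρ j)) o) (x : Matrix (Idx n ρ) (Idx n ρ) o)
    (k : Fin b) (u : Fin (n k)) (l : Fin b) (v : Fin (n l)) (h : ¬ (l = j ∧ (v : ℕ) = t)) :
    blk (x * place i s j t y) k u l v = 0 := by
  rw [blk_mul]
  apply Finset.sum_eq_zero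
  intro k' _
  apply Finset.sum_eq_zero
  intro u' _
  rw [blk_place_ne, Matrix.mul_zero]
  rintro ⟨_, h1, _, h2⟩
  exact h ⟨h1, h2⟩

theorem place_mul {n : Fin b → ℕ} (i : Fin b) (s : Fin (n i)) (j : Fin b) (t : Fin (n j))
    (k : Fin b) (u : Fin (n k)) (x : Matrix (Fin (ρ i)) (Fin (ρ j)) o)
    (y : Matrix (Fin (ρ j)) (Fin (ρ k)) o) :
    place i s j t x * place j t k u y = place i s k u (x * y) := by
  apply ext_blk
  intro p a q c
  by_cases h1 : p = i ∧ (a : ℕ) = s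
  · obtain ⟨rfl, ha⟩ := h1
    obtain rfl : a = s := Fin.ext ha
    rw [blk_place_mul]
    by_cases h2 : q = k ∧ (c : ℕ) = u
    · obtain ⟨rfl, hc⟩ := h2
      obtain rfl : c = u := Fin.ext hc
      rw [blk_place_self, blk_place_self]
    · rw [blk_place_ne _ _ _ _ _ _ _ _ _ (fun h => h2 ⟨h.2.1, h.2.2.2⟩),
        blk_place_ne _ _ _ _ _ _ _ _ _ (fun h => h2 ⟨h.2.1, h.2.2.2⟩), Matrix.mul_zero]
  · rw [blk_place_mul_ne _ _ _ _ _ _ _ _ _ _ h1,
      blk_place_ne _ _ _ _ _ _ _ _ _ (fun h => h1 ⟨h.1, h.2.2.1⟩)]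

private theorem place_mul_ne {n : Fin b → ℕ} (i : Fin b) (s : Fin (n i)) (j : Fin b)
    (t : Fin (n j)) (j' : Fin b) (t' : Fin (n j')) (k : Fin b) (u : Fin (n k))
    (x : Matrix (Fin (ρ i)) (Fin (ρ j)) o) (y : Matrix (Fin (ρ j')) (Fin (ρ k)) o)
    (h : ¬ (j = j' ∧ (t : ℕ) = t')) : place i s j t x * place j' t' k u y = 0 := by
  apply ext_blk
  intro p a q c
  have h0 : blk (0 : Matrix (Idx n ρ) (Idx n ρ) o) p a q c = 0 := by ext a' c'; simp [blk]
  rw [h0]
  by_cases h1 : p = i ∧ (a : ℕ) = s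
  · obtain ⟨rfl, ha⟩ := h1
    obtain rfl : a = s := Fin.ext ha
    rw [blk_place_mul, blk_place_ne _ _ _ _ _ _ _ _ _ (fun h' => h ⟨h'.1, h'.2.2.1⟩),
      Matrix.mul_zero]
  · rw [blk_place_mul_ne _ _ _ _ _ _ _ _ _ _ h1]

private theorem place_blk {n : Fin b → ℕ} (x : Matrix (Idx n ρ) (Idx n ρ) o) (i : Fin b)
    (s : Fin (n i)) (j : Fin b) (t : Fin (n j)) :
    place i s j t (blk x i s j t) = place i s i s 1 * x * place j t j t 1 := by
  apply ext_blk
  intro p a q c
  by_cases h2 : q = j ∧ (c : ℕ) = t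
  · obtain ⟨rfl, hc⟩ := h2
    obtain rfl : c = t := Fin.ext hc
    rw [blk_mul_place, Matrix.mul_one]
    by_cases h1 : p = i ∧ (a : ℕ) = s
    · obtain ⟨rfl, ha⟩ := h1
      obtain rfl : a = s := Fin.ext ha
      rw [blk_place_mul, blk_place_self, Matrix.one_mul]
    · rw [blk_place_mul_ne _ _ _ _ _ _ _ _ _ _ h1,
        blk_place_ne _ _ _ _ _ _ _ _ _ (fun h => h1 ⟨h.1, h.2.2.1⟩)]
  · rw [blk_mul_place_ne _ _ _ _ _ _ _ _ _ _ h2,
      blk_place_ne _ _ _ _ _ _ _ _ _ (fun h => h2 ⟨h.2.1, h.2.2.2⟩)]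

theorem sum_place {n : Fin b → ℕ} (x : Matrix (Idx n ρ) (Idx n ρ) o) :
    x = ∑ i, ∑ s, ∑ j, ∑ t, place i s j t (blk x i s j t) := by
  apply ext_blk
  intro p a q c
  rw [blk_sum', Finset.sum_eq_single p]
  · rw [blk_sum', Finset.sum_eq_single a]
    · rw [blk_sum', Finset.sum_eq_single q]
      · rw [blk_sum', Finset.sum_eq_single c]
        · rw [blk_place_self]
        · intro t _ ht
          exact blk_place_ne _ _ _ _ _ _ _ _ _ (fun h => ht (Fin.ext h.2.2.2.symm))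
        · intro h; exact absurd (Finset.mem_univ _) h
      · intro j _ hj
        rw [blk_sum']
        apply Finset.sum_eq_zero
        intro t _
        exact blk_place_ne _ _ _ _ _ _ _ _ _ (fun h => hj h.2.1.symm)
      · intro h; exact absurd (Finset.mem_univ _) h
    · intro s _ hs
      rw [blk_sum']
      apply Finset.sum_eq_zero
      intro j _
      rw [blk_sum']
      apply Finset.sum_eq_zero
      intro t _
      exact blk_place_ne _ _ _ _ _ _ _ _ _ (fun h => hs (Fin.ext h.2.2.1.symm))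
    · intro h; exact absurd (Finset.mem_univ _) h
  · intro i _ hi
    rw [blk_sum']
    apply Finset.sum_eq_zero
    intro s _
    rw [blk_sum']
    apply Finset.sum_eq_zero
    intro j _
    rw [blk_sum']
    apply Finset.sum_eq_zero
    intro t _
    exact blk_place_ne _ _ _ _ _ _ _ _ _ (fun h => hi h.1.symm)
  · intro h; exact absurd (Finset.mem_univ _) h

private theorem place_mem_ring {n : Fin b → ℕ} (S : Corners o ρ) (i : Fin b) (s : Fin (n i))
    (j : Fin b) (t : Fin (n j)) {x : Matrix (Fin (ρ i)) (Fin (ρ j)) o} (hx : x ∈ S.C i j) :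
    place i s j t x ∈ S.ring n := by
  show ∀ p a q c, blk (place i s j t x) p a q c ∈ S.C p q
  intro p a q c
  by_cases h : p = i ∧ q = j ∧ (a : ℕ) = s ∧ (c : ℕ) = t
  · obtain ⟨rfl, rfl, ha, hc⟩ := h
    obtain rfl : a = s := Fin.ext ha
    obtain rfl : c = t := Fin.ext hc
    rw [blk_place_self]
    exact hx
  · rw [blk_place_ne _ _ _ _ _ _ _ _ _ h]
    exact (S.C p q).zero_mem

private theorem place_mem_rad {n : Fin b → ℕ} (S : Corners o ρ) (i : Fin b) (s : Fin (n i))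
    (j : Fin b) (t : Fin (n j)) {x : Matrix (Fin (ρ i)) (Fin (ρ j)) o} (hx : x ∈ S.C i j)
    (hij : i ≠ j) : place i s j t x ∈ S.rad n := by
  refine ⟨place_mem_ring S i s j t hx, ?_⟩
  intro p a c
  rw [blk_place_ne _ _ _ _ _ _ _ _ _ (fun h => hij (h.1.symm.trans h.2.1))]
  exact (S.J p).zero_mem

private theorem place_mem_rad' {n : Fin b → ℕ} (S : Corners o ρ) (i : Fin b) (s : Fin (n i))
    (t : Fin (n i)) {x : Matrix (Fin (ρ i)) (Fin (ρ i)) o} (hx : x ∈ S.J i) :
    place i s i t x ∈ S.rad n := by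
  refine ⟨place_mem_ring S i s i t (S.J_le i hx), ?_⟩
  intro p a c
  by_cases h : p = i ∧ p = i ∧ (a : ℕ) = s ∧ (c : ℕ) = t
  · obtain ⟨rfl, _, ha, hc⟩ := h
    obtain rfl : a = s := Fin.ext ha
    obtain rfl : c = t := Fin.ext hc
    rw [blk_place_self]
    exact hx
  · rw [blk_place_ne _ _ _ _ _ _ _ _ _ h]
    exact (S.J p).zero_mem

section powers

variable {R : Type} [Ring R] {E : Subring R} {I : Submodule ℤ R}

private theorem pow_mulL (h : IsNilIdeal E I) (k : ℕ) {f : R} (hf : f ∈ E) :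
    ∀ x ∈ I ^ (k + 1), f * x ∈ I ^ (k + 1) := by
  intro x hx
  rw [pow_succ'] at hx ⊢
  induction hx using Submodule.mul_induction_on' with
  | mem_mul_mem a ha c hc =>
    rw [← mul_assoc]
    exact Submodule.mul_mem_mul (h.mulL f hf a ha) hc
  | add a _ c _ ha hc =>
    rw [mul_add]
    exact Submodule.add_mem _ ha hc

private theorem pow_mulR (h : IsNilIdeal E I) (k : ℕ) {f : R} (hf : f ∈ E) :
    ∀ x ∈ I ^ (k + 1), x * f ∈ I ^ (k + 1) := by
  intro x hx
  rw [pow_succ] at hx ⊢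
  induction hx using Submodule.mul_induction_on' with
  | mem_mul_mem a ha c hc =>
    rw [mul_assoc]
    exact Submodule.mul_mem_mul ha (h.mulR f hf c hc)
  | add a _ c _ ha hc =>
    rw [add_mul]
    exact Submodule.add_mem _ ha hc

private theorem pow_le_self (h : IsNilIdeal E I) (k : ℕ) : I ^ (k + 1) ≤ I := by
  induction k with
  | zero => rw [zero_add, pow_one]
  | succ k ih =>
    rw [pow_succ]
    rw [Submodule.mul_le]
    intro a ha c hc
    exact h.mulL a (h.le a (ih ha)) c hc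

private theorem hom_add (h : IsNilIdeal E I) {m : R → ℂ} (hm : IsHom I m) (k : ℕ)
    (ih : ∀ z ∈ I ^ (k + 2), m z = 1) {u v : R} (hu : u ∈ I ^ (k + 1)) (hv : v ∈ I ^ (k + 1)) :
    m (u + v) = m u * m v := by
  have huI := pow_le_self h k hu
  have hvI := pow_le_self h k hv
  have huvI : u * v ∈ I := h.mulL u (h.le u huI) v hvI
  obtain ⟨U, hU, hUe⟩ := exists_unit h (I.add_mem (I.add_mem huI hvI) huvI)
  have hUE : ((U⁻¹ : Rˣ) : R) ∈ E := by simpa using E.add_mem (h.le _ hU.2) E.one_mem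
  have huv : u * v ∈ I ^ (k + 2) := by
    rw [pow_succ I (k + 1)]
    exact Submodule.mul_mem_mul hu hvI
  have hz : -(((U⁻¹ : Rˣ) : R) * (u * v)) ∈ I ^ (k + 2) :=
    Submodule.neg_mem _ (pow_mulL h (k + 1) hUE _ huv)
  have hzI := pow_le_self h (k + 1) hz
  have e := hm.mul (u + v + u * v) (I.add_mem (I.add_mem huI hvI) huvI) _ hzI
  rw [ih _ hz, mul_one, hm.mul u huI v hvI] at e
  rw [← e]
  congr 1
  have e2 : (1 + (u + v + u * v)) * (1 + -(((U⁻¹ : Rˣ) : R) * (u * v))) = 1 + (u + v) := by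
    rw [← hUe, mul_add, mul_one, mul_neg, ← mul_assoc, Units.mul_inv, one_mul, hUe]
    abel
  have e3 : (1 + (u + v + u * v)) * (1 + -(((U⁻¹ : Rˣ) : R) * (u * v))) =
      1 + (u + v + u * v + -(((U⁻¹ : Rˣ) : R) * (u * v)) +
        (u + v + u * v) * -(((U⁻¹ : Rˣ) : R) * (u * v))) := by
    noncomm_ring
  rw [e3] at e2
  exact (add_left_cancel e2).symm

private theorem hom_sum (h : IsNilIdeal E I) {m : R → ℂ} (hm : IsHom I m) (k : ℕ)
    (ih : ∀ z ∈ I ^ (k + 2), m z = 1) {κ : Type} (T : Finset κ) (f : κ → R)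
    (hf : ∀ i ∈ T, f i ∈ I ^ (k + 1) ∧ m (f i) = 1) :
    (∑ i ∈ T, f i) ∈ I ^ (k + 1) ∧ m (∑ i ∈ T, f i) = 1 := by
  classical
  induction T using Finset.induction_on with
  | empty => simp [hm.zero]
  | insert a T ha ihT =>
    rw [Finset.sum_insert ha]
    have h1 := hf a (Finset.mem_insert_self a T)
    have h2 := ihT (fun i hi => hf i (Finset.mem_insert_of_mem hi))
    refine ⟨Submodule.add_mem _ h1.1 h2.1, ?_⟩
    rw [hom_add h hm k ih h1.1 h2.1, h1.2, h2.2, mul_one]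

private theorem hom_ne_zero (h : IsNilIdeal E I) {m : R → ℂ} (hm : IsHom I m) {x : R}
    (hx : x ∈ I) : m x ≠ 0 := by
  obtain ⟨U, hU, hUe⟩ := exists_unit h hx
  have e := hm.mul x hx _ hU.2
  have e2 : x + (((U⁻¹ : Rˣ) : R) - 1) + x * (((U⁻¹ : Rˣ) : R) - 1) = 0 := by
    have e3 : x + (((U⁻¹ : Rˣ) : R) - 1) + x * (((U⁻¹ : Rˣ) : R) - 1) =
        (1 + x) * ((U⁻¹ : Rˣ) : R) - 1 := by noncomm_ring
    rw [e3, ← hUe, Units.mul_inv, sub_self]
  rw [e2, hm.zero] at e
  intro h0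
  rw [h0, zero_mul] at e
  exact one_ne_zero e

end powers

/-- A symmetric character is determined on the diagonal corners (blueprint 2.5).
PROOF: `m'' = m / m'` is again a homomorphism with (T), trivial on `place i 0 i 0 x`, `x ∈ J i`. (1) `m'' (place i s j t x) = 1` for every block position:
if `(i,s) ≠ (j,t)` by `m_offdiag'`; if `(i,s) = (j,t)`: `place i s i s x = place i s i 0 1 * place i 0 i s x` and (T) gives `m'' = m'' (place i 0 i 0 x)`. (2) the set
`{x ∈ S.rad n | m'' (x + y) = m'' y ...}`: show by induction on `k` that `m'' x = 1` for `x` in the `k`-th power of `S.rad n` (descending, the ideal is nilpotent): for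
`x ∈ K^k`, `1 + x = ∏ (1 + place (blk x)) * (1 + x')` with `x' ∈ K^(k+1)` (product over all positions in some order; the blocks of `x ∈ K^k` placed alone are in
`K^k` because the idempotents are in the ring). -/
theorem m_determined [IsLocalRing o] [Finite o] {n : Fin b → ℕ} (hn : ∀ i, 0 < n i)
    (S : Corners o ρ) {m m' : Matrix (Idx n ρ) (Idx n ρ) o → ℂ}
    (h1 : IsHom (S.rad n) m) (h1' : IsHom (S.rad n) m') (h2 : IsSym (S.ring n) (S.rad n) m)
    (h2' : IsSym (S.ring n) (S.rad n) m')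
    (h : ∀ i, ∀ x ∈ S.J i, m (place i ⟨0, hn i⟩ i ⟨0, hn i⟩ x) = m' (place i ⟨0, hn i⟩ i ⟨0, hn i⟩ x)) :
    ∀ x ∈ S.rad n, m x = m' x := by
  have hI : IsNilIdeal (S.ring n) (S.rad n) := corners_nilIdeal S n
  set q : Matrix (Idx n ρ) (Idx n ρ) o → ℂ := fun x => m x * (m' x)⁻¹ with hq
  have hqh : IsHom (S.rad n) q := by
    refine ⟨by simp [hq, h1.zero, h1'.zero], ?_⟩
    intro x hx y hy
    simp only [hq]
    rw [h1.mul x hx y hy, h1'.mul x hx y hy, mul_inv]
    ring
  have hqs : IsSym (S.ring n) (S.rad n) q := by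
    intro f hf x hx
    simp only [hq]
    rw [h2 f hf x hx, h2' f hf x hx]
  have hq0 : ∀ i, ∀ x ∈ S.J i, q (place i ⟨0, hn i⟩ i ⟨0, hn i⟩ x) = 1 := by
    intro i x hx
    simp only [hq]
    rw [h i x hx]
    exact mul_inv_cancel₀ (hom_ne_zero hI h1' (place_mem_rad' S i _ _ hx))
  -- every placed block has value one
  have hone : ∀ i s j t (x : Matrix (Idx n ρ) (Idx n ρ) o), x ∈ S.rad n →
      q (place i s j t (blk x i s j t)) = 1 := by
    intro i s j t x hx
    by_cases hp : i = j ∧ (s : ℕ) = t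
    · obtain ⟨rfl, hst⟩ := hp
      obtain rfl : s = t := Fin.ext hst
      have hxJ : blk x i s i s ∈ S.J i := hx.2 i s s
      have e1 : place i s i s (blk x i s i s) =
          place i s i ⟨0, hn i⟩ 1 * place i ⟨0, hn i⟩ i s (blk x i s i s) := by
        rw [place_mul, Matrix.one_mul]
      rw [e1, hqs _ (place_mem_ring S i s i ⟨0, hn i⟩ (S.one_mem i)) _
        (place_mem_rad' S i ⟨0, hn i⟩ s hxJ), place_mul, Matrix.mul_one]
      exact hq0 i _ hxJ
    · have hmem : place i s j t (blk x i s j t) ∈ S.rad n := by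
        by_cases hij : i = j
        · subst hij
          exact place_mem_rad' S i s t (hx.2 i s t)
        · exact place_mem_rad S i s j t (hx.1 i s j t) hij
      refine m_offdiag' hI hqh hqs (ε := place i s i s 1)
        (place_mem_ring S i s i s (S.one_mem i)) hmem ?_ ?_
      · rw [place_mul, Matrix.one_mul]
      · exact place_mul_ne _ _ _ _ _ _ _ _ _ _ (fun h' => hp ⟨h'.1.symm, h'.2.symm⟩)
  obtain ⟨K, hK⟩ := hI.nil
  have key : ∀ d k : ℕ, K ≤ k + 1 + d → ∀ x ∈ (S.rad n) ^ (k + 1), q x = 1 := by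
    intro d
    induction d with
    | zero =>
      intro k hk x hx
      have h0 : (S.rad n) ^ (k + 1) = 0 := by
        obtain ⟨e, he⟩ := Nat.exists_eq_add_of_le (show K ≤ k + 1 by omega)
        rw [he, pow_add, hK, zero_mul]
      rw [h0] at hx
      have hx0 : x = 0 := by simpa using hx
      rw [hx0]
      exact hqh.zero
    | succ d ihd =>
      intro k hk x hx
      have ih : ∀ z ∈ (S.rad n) ^ (k + 2), q z = 1 := ihd (k + 1) (by omega)
      have hxI := pow_le_self hI k hx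
      have hmem : ∀ i s j t, place i s j t (blk x i s j t) ∈ (S.rad n) ^ (k + 1) := by
        intro i s j t
        rw [place_blk]
        exact pow_mulR hI k (place_mem_ring S j t j t (S.one_mem j)) _
          (pow_mulL hI k (place_mem_ring S i s i s (S.one_mem i)) _ hx)
      rw [sum_place x]
      refine (hom_sum hI hqh k ih _ _ fun i _ => hom_sum hI hqh k ih _ _ fun s _ =>
        hom_sum hI hqh k ih _ _ fun j _ => hom_sum hI hqh k ih _ _ fun t _ =>
          ⟨hmem i s j t, hone i s j t x hxI⟩).2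
  intro x hx
  have h3 := key K 0 (by omega) x (by rw [zero_add, pow_one]; exact hx)
  simp only [hq] at h3
  have h4 := hom_ne_zero hI h1' hx
  rw [mul_inv_eq_one₀ h4] at h3
  exact h3

end Pool.Agent.Lib.MP_fa0f6c_al.Cx
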