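import Pool.Agent.Lib.MP_fa0f6c_al.Cx.G02
import Pool.Agent.Lib.MP_fa0f6c_al.Cx.F13

set_option autoImplicit false

namespace Pool.Agent.Lib.MP_fa0f6c_al.Cx

variable {o : Type} [CommRing o] [IsLocalRing o] [Finite o] {b : ℕ} {ρ : Fin b → ℕ}

section aux

variable {o : Type} [CommRing o] {b : ℕ} {ρ n : Fin b → ℕ}

/-- the block of an index -/
private def cl (u : Idx n ρ) : Σ i : Fin b, Fin (n i) := ⟨u.1, u.2.1⟩

/-- the block of a matrix -/
private def bk (x : Matrix (Idx n ρ) (Idx n ρ) o) (p r : Σ i : Fin b, Fin (n i)) :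
    Matrix (Fin (ρ p.1)) (Fin (ρ r.1)) o := blk x p.1 p.2 r.1 r.2

/-- the block idempotents -/
private def ee (o : Type) [CommRing o] {b : ℕ} (ρ n : Fin b → ℕ) (p : Σ i : Fin b, Fin (n i)) :
    Matrix (Idx n ρ) (Idx n ρ) o := Matrix.diagonal fun u => if cl u = p then 1 else 0

private theorem ee_mul (x : Matrix (Idx n ρ) (Idx n ρ) o) (p : Σ i : Fin b, Fin (n i))
    (u v : Idx n ρ) : (ee o ρ n p * x) u v = if cl u = p then x u v else 0 := by
  unfold ee
  rw [Matrix.diagonal_mul]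
  split_ifs <;> simp

private theorem mul_ee (x : Matrix (Idx n ρ) (Idx n ρ) o) (p : Σ i : Fin b, Fin (n i))
    (u v : Idx n ρ) : (x * ee o ρ n p) u v = if cl v = p then x u v else 0 := by
  unfold ee
  rw [Matrix.mul_diagonal]
  split_ifs <;> simp

private theorem bk_ee_mul (x : Matrix (Idx n ρ) (Idx n ρ) o) (p q r : Σ i : Fin b, Fin (n i)) :
    bk (ee o ρ n p * x) q r = if q = p then bk x q r else 0 := by
  ext a c
  have h : cl (n := n) (ρ := ρ) ⟨q.1, (q.2, a)⟩ = q := rfl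
  change (ee o ρ n p * x) ⟨q.1, (q.2, a)⟩ ⟨r.1, (r.2, c)⟩ = _
  rw [ee_mul, h]
  split_ifs
  · rfl
  · rfl

private theorem bk_mul_ee (x : Matrix (Idx n ρ) (Idx n ρ) o) (p q r : Σ i : Fin b, Fin (n i)) :
    bk (x * ee o ρ n p) q r = if r = p then bk x q r else 0 := by
  ext a c
  have h : cl (n := n) (ρ := ρ) ⟨r.1, (r.2, c)⟩ = r := rfl
  change (x * ee o ρ n p) ⟨q.1, (q.2, a)⟩ ⟨r.1, (r.2, c)⟩ = _
  rw [mul_ee, h]
  split_ifs
  · rfl
  · rfl

private theorem bk_mul (x y : Matrix (Idx n ρ) (Idx n ρ) o) (p r : Σ i : Fin b, Fin (n i)) :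
    bk (x * y) p r = ∑ q, bk x p q * bk y q r := by
  unfold bk
  rw [blk_mul, Fintype.sum_sigma]

private theorem bk_add (x y : Matrix (Idx n ρ) (Idx n ρ) o) (p r : Σ i : Fin b, Fin (n i)) :
    bk (x + y) p r = bk x p r + bk y p r := rfl

private theorem bk_zero (p r : Σ i : Fin b, Fin (n i)) :
    bk (0 : Matrix (Idx n ρ) (Idx n ρ) o) p r = 0 := rfl

omit [CommRing o] in
private theorem bk_ext {x y : Matrix (Idx n ρ) (Idx n ρ) o} (h : ∀ p r, bk x p r = bk y p r) :
    x = y := by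
  ext u v
  have := congrFun (congrFun (h (cl u) (cl v)) u.2.2) v.2.2
  exact this

private theorem bk_place (i : Fin b) (s : Fin (n i)) (x : Matrix (Fin (ρ i)) (Fin (ρ i)) o)
    (p r : Σ i : Fin b, Fin (n i)) (h : ¬ (p = ⟨i, s⟩ ∧ r = ⟨i, s⟩)) :
    bk (place i s i s x : Matrix (Idx n ρ) (Idx n ρ) o) p r = 0 := by
  unfold bk
  refine blk_place_ne i s i s x p.1 p.2 r.1 r.2 ?_
  rintro ⟨h1, h2, h3, h4⟩
  apply h
  constructor
  · obtain ⟨p1, p2⟩ := p
    obtain rfl : p1 = i := h1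
    have : p2 = s := Fin.ext h3
    rw [this]
  · obtain ⟨r1, r2⟩ := r
    obtain rfl : r1 = i := h2
    have : r2 = s := Fin.ext h4
    rw [this]

private theorem ee_id (p : Σ i : Fin b, Fin (n i)) : ee o ρ n p * ee o ρ n p = ee o ρ n p := by
  unfold ee
  rw [Matrix.diagonal_mul_diagonal]
  congr 1
  funext u
  split_ifs <;> simp

private theorem ee_ort (p r : Σ i : Fin b, Fin (n i)) (h : p ≠ r) :
    ee o ρ n p * ee o ρ n r = 0 := by
  unfold ee
  rw [Matrix.diagonal_mul_diagonal, ← Matrix.diagonal_zero]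
  congr 1
  funext u
  by_cases h1 : cl u = p
  · rw [if_pos h1, if_neg (fun h2 => h (h1.symm.trans h2)), mul_zero]
  · rw [if_neg h1, zero_mul]

private theorem ee_sum : ∑ p, ee o ρ n p = 1 := by
  apply Matrix.ext
  intro u v
  rw [Matrix.sum_apply]
  unfold ee
  by_cases huv : u = v
  · subst huv
    simp [Matrix.diagonal_apply_eq]
  · simp [Matrix.diagonal_apply_ne _ huv, Matrix.one_apply_ne huv]

/-- a matrix in the corner `(p, r)` -/
private theorem bk_corner {x : Matrix (Idx n ρ) (Idx n ρ) o} {p r : Σ i : Fin b, Fin (n i)}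
    (h : ee o ρ n p * x * ee o ρ n r = x) (q q' : Σ i : Fin b, Fin (n i))
    (hq : ¬ (q = p ∧ q' = r)) : bk x q q' = 0 := by
  rw [← h, bk_mul_ee, bk_ee_mul]
  split_ifs with h1 h2
  · exact absurd ⟨h2, h1⟩ hq
  · rfl
  · rfl

private theorem bk_corner_mul {x y : Matrix (Idx n ρ) (Idx n ρ) o} {p r : Σ i : Fin b, Fin (n i)}
    (h : ee o ρ n p * x * ee o ρ n r = x) : bk (x * y) p p = bk x p r * bk y r p := by
  rw [bk_mul, Finset.sum_eq_single r]
  · intro q _ hq
    rw [bk_corner h p q (fun h' => hq h'.2), Matrix.zero_mul]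
  · intro h'
    exact absurd (Finset.mem_univ _) h'

private theorem mem_ring (S : Corners o ρ) (x : Matrix (Idx n ρ) (Idx n ρ) o) :
    x ∈ S.ring n ↔ ∀ p r, bk x p r ∈ S.C p.1 r.1 :=
  ⟨fun h p r => h p.1 p.2 r.1 r.2, fun h i s j t => h ⟨i, s⟩ ⟨j, t⟩⟩

private theorem mem_rad (S : Corners o ρ) (x : Matrix (Idx n ρ) (Idx n ρ) o) :
    x ∈ S.rad n ↔ (∀ p r, bk x p r ∈ S.C p.1 r.1) ∧ ∀ i (s t : Fin (n i)),
      bk x ⟨i, s⟩ ⟨i, t⟩ ∈ S.J i :=
  ⟨fun h => ⟨fun p r => h.1 p.1 p.2 r.1 r.2, fun i s t => h.2 i s t⟩,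
    fun h => ⟨fun i s j t => h.1 ⟨i, s⟩ ⟨j, t⟩, fun i s t => h.2 i s t⟩⟩

/-- The subring of the matrices whose off-diagonal blocks are in the radical. -/
private def EE' (S : Corners o ρ) (n : Fin b → ℕ) : Subring (Matrix (Idx n ρ) (Idx n ρ) o) where
  carrier := {x | (∀ i s j t, blk x i s j t ∈ S.C i j) ∧
    ∀ i (s t : Fin (n i)), s ≠ t → blk x i s i t ∈ S.J i}
  zero_mem' := ⟨fun i _ j _ => (S.C i j).zero_mem, fun i _ _ _ => (S.J i).zero_mem⟩
  one_mem' := by
    refine ⟨(S.ring n).one_mem, fun i s t hst => ?_⟩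
    have : blk (1 : Matrix (Idx n ρ) (Idx n ρ) o) i s i t = 0 := by
      ext a c; simp [blk, hst]
    rw [this]
    exact (S.J i).zero_mem
  add_mem' := fun {x y} hx hy => ⟨fun i s j t => (S.C i j).add_mem (hx.1 i s j t) (hy.1 i s j t),
    fun i s t h => (S.J i).add_mem (hx.2 i s t h) (hy.2 i s t h)⟩
  neg_mem' := fun {x} hx => ⟨fun i s j t => (S.C i j).neg_mem (hx.1 i s j t),
    fun i s t h => (S.J i).neg_mem (hx.2 i s t h)⟩
  mul_mem' := by
    intro x y hx hy
    refine ⟨(S.ring n).mul_mem hx.1 hy.1, fun i s t hst => ?_⟩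
    rw [blk_mul]
    refine Submodule.sum_mem _ fun j _ => Submodule.sum_mem _ fun u _ => ?_
    by_cases hij : i = j
    · subst hij
      by_cases hus : u = s
      · subst hus
        exact S.J_mulL i _ (hx.1 i u i u) _ (hy.2 i u t hst)
      · exact S.J_mulR i _ (hy.1 i u i t) _ (hx.2 i s u (fun h => hus h.symm))
    · exact S.J_off i j hij _ (hx.1 i s j u) _ (hy.1 j u i t)

private theorem mem_EE' (S : Corners o ρ) (x : Matrix (Idx n ρ) (Idx n ρ) o) :
    x ∈ EE' S n ↔ (∀ p r, bk x p r ∈ S.C p.1 r.1) ∧ ∀ i (s t : Fin (n i)), s ≠ t →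
      bk x ⟨i, s⟩ ⟨i, t⟩ ∈ S.J i :=
  ⟨fun h => ⟨fun p r => h.1 p.1 p.2 r.1 r.2, fun i s t => h.2 i s t⟩,
    fun h => ⟨fun i s j t => h.1 ⟨i, s⟩ ⟨j, t⟩, fun i s t => h.2 i s t⟩⟩

private theorem ee_mem (S : Corners o ρ) (p : Σ i : Fin b, Fin (n i)) :
    ee o ρ n p ∈ EE' S n := by
  have h1 : ∀ q r, bk (ee o ρ n p) q r = if q = p then bk (1 : Matrix (Idx n ρ) (Idx n ρ) o) q r
      else 0 := by
    intro q r
    have := bk_ee_mul (1 : Matrix (Idx n ρ) (Idx n ρ) o) p q r
    rwa [mul_one] at this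
  have h2 := (mem_EE' S _).1 (EE' S n).one_mem
  rw [mem_EE']
  refine ⟨fun q r => ?_, fun i s t hst => ?_⟩
  · rw [h1]
    split_ifs
    · exact h2.1 q r
    · exact Submodule.zero_mem _
  · rw [h1]
    split_ifs
    · exact h2.2 i s t hst
    · exact Submodule.zero_mem _

private theorem corner_eq (x : Matrix (Idx n ρ) (Idx n ρ) o) (p r : Σ i : Fin b, Fin (n i)) :
    ee o ρ n p * (ee o ρ n p * x * ee o ρ n r) * ee o ρ n r = ee o ρ n p * x * ee o ρ n r := by
  rw [← mul_assoc, ← mul_assoc, ee_id, mul_assoc _ (ee o ρ n r) (ee o ρ n r), ee_id]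

end aux

/-- Gluing for a corner system. PROOF: `glue_family` for `ι = Σ i, Fin (n i)`, `e (i, s) = place i s i s 1`,
`E' = {x ∈ S.ring n | blk x i s i t ∈ S.J i for all i, s ≠ t}` (a subring: `blk_mul` and the ideal properties `J_mulL`, `J_mulR`, `J_off`),
`J = S.rad n` (ideal of `S.ring n` by `corners_nilIdeal`, contained in `E'`), `μ (i, s) x = μ i (blk x i s i s)`.
For `p ≠ r`, `e p E' e r ⊆ S.rad n`. Cross conditions: `i ≠ j`: `hc`; `(i, s)`, `(i, t)`, `s ≠ t`: `hsym` (`S.J i ≤ S.C i i`).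
This gives `m` with (T) for `E'`. Then (T) for `S.ring n`: the set of `f ∈ S.ring n` with `m (f x) = m (x f)` for all `x ∈ S.rad n` is closed
under addition (`stab_add`), every `f` is the sum of the `place i s j t (blk f i s j t)` (`sum_place`), these are in `E'` except for
`f = place i s i t c`, `s ≠ t`, `c ∈ S.C i i`. For these, with `p = (i, s)`, `r = (i, t)`, `f = e p f e r`, `x ∈ S.rad n`, `z = blk x i t i s ∈ S.J i`:
`m (f x) = m (e p (f x)) = m (f x e p) = m (place i s i s (c z)) = μ i (c z)`,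
`m (x f) = m ((x f) e r) = m (e r x f) = m (place i t i t (z c)) = μ i (z c)`, equal by `hsym`. -/
theorem glue_corners (S : Corners o ρ) (n : Fin b → ℕ)
    (μ : ∀ i : Fin b, Matrix (Fin (ρ i)) (Fin (ρ i)) o → ℂ) (h0 : ∀ i, μ i 0 = 1)
    (hhom : ∀ i, ∀ x ∈ S.J i, ∀ y ∈ S.J i, μ i (x + y + x * y) = μ i x * μ i y)
    (hsym : ∀ i, ∀ f ∈ S.C i i, ∀ x ∈ S.J i, μ i (f * x) = μ i (x * f))
    (hc : ∀ i j, i ≠ j → ∀ x ∈ S.C i j, ∀ y ∈ S.C j i, μ i (x * y) = μ j (y * x)) :
    ∃ m : Matrix (Idx n ρ) (Idx n ρ) o → ℂ, IsHom (S.rad n) m ∧ IsSym (S.ring n) (S.rad n) m ∧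
      ∀ i (s : Fin (n i)), ∀ x ∈ S.J i, m (place i s i s x) = μ i x := by
  classical
  have hnil := corners_nilIdeal S n
  have hle : ∀ x ∈ S.rad n, x ∈ EE' S n := fun x hx => ⟨hx.1, fun i s t _ => hx.2 i s t⟩
  have hEE : ∀ x ∈ EE' S n, x ∈ S.ring n := fun x hx => hx.1
  have hJ : IsNilIdeal (EE' S n) (S.rad n) :=
    ⟨hle, fun f hf x hx => hnil.mulL f (hEE f hf) x hx, fun f hf x hx => hnil.mulR f (hEE f hf) x hx,
      hnil.nil⟩
  obtain ⟨m, hm1, hm2, hm3⟩ := glue_family (EE' S n) (S.rad n) hJ (ee o ρ n) (ee_mem S) ee_id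
    ee_ort ee_sum (by
      intro p r hpr x hx
      have hx' := (mem_EE' S x).1 hx
      have hb : ∀ q q', bk (ee o ρ n p * x * ee o ρ n r) q q' =
          if q = p ∧ q' = r then bk x q q' else 0 := by
        intro q q'
        rw [bk_mul_ee, bk_ee_mul]
        by_cases h1 : q = p <;> by_cases h2 : q' = r <;> simp [h1, h2]
      rw [mem_rad]
      refine ⟨fun q q' => ?_, fun i s t => ?_⟩
      · rw [hb]
        split_ifs
        · exact hx'.1 q q'
        · exact Submodule.zero_mem _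
      · rw [hb]
        split_ifs with h
        · refine hx'.2 i s t ?_
          rintro rfl
          exact hpr (h.1.symm.trans h.2)
        · exact Submodule.zero_mem _)
    (fun p x => μ p.1 (bk x p p)) (fun p => by
      change μ p.1 (bk 0 p p) = 1
      rw [bk_zero, h0]) (by
      intro p x hx y hy hxp hyp
      change μ p.1 (bk (x + y + x * y) p p) = μ p.1 (bk x p p) * μ p.1 (bk y p p)
      rw [bk_add, bk_add, bk_corner_mul hxp]
      exact hhom p.1 _ (((mem_rad S x).1 hx).2 p.1 p.2 p.2) _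
        (((mem_rad S y).1 hy).2 p.1 p.2 p.2)) (by
      intro p f hf x hx hfp hxp
      change μ p.1 (bk (f * x) p p) = μ p.1 (bk (x * f) p p)
      rw [bk_corner_mul hfp, bk_corner_mul hxp]
      exact hsym p.1 _ (((mem_EE' S f).1 hf).1 p p) _
        (((mem_rad S x).1 hx).2 p.1 p.2 p.2)) (by
      intro p r hpr x hx y hy hxp hyp
      change μ p.1 (bk (x * y) p p) = μ r.1 (bk (y * x) r r)
      rw [bk_corner_mul hxp, bk_corner_mul hyp]
      have hx' := (mem_EE' S x).1 hx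
      have hy' := (mem_EE' S y).1 hy
      obtain ⟨i, s⟩ := p
      obtain ⟨j, t⟩ := r
      by_cases hij : i = j
      · subst hij
        have hst : s ≠ t := by
          rintro rfl
          exact hpr rfl
        exact hsym i _ (hx'.1 ⟨i, s⟩ ⟨i, t⟩) _ (hy'.2 i t s (Ne.symm hst))
      · exact hc i j hij _ (hx'.1 ⟨i, s⟩ ⟨j, t⟩) _ (hy'.1 ⟨j, t⟩ ⟨i, s⟩))
  refine ⟨m, hm1, ?_, ?_⟩
  · -- (T) for the whole ring
    have hcor : ∀ f ∈ S.ring n, ∀ p r, ee o ρ n p * f * ee o ρ n r ∈ S.ring n := fun f hf p r =>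
      (S.ring n).mul_mem ((S.ring n).mul_mem (hEE _ (ee_mem S p)) hf) (hEE _ (ee_mem S r))
    have hone : ∀ f ∈ S.ring n, ∀ p r, ∀ x ∈ S.rad n,
        m ((ee o ρ n p * f * ee o ρ n r) * x) = m (x * (ee o ρ n p * f * ee o ρ n r)) := by
      intro f hf p r x hx
      obtain ⟨g, hg⟩ : ∃ g, g = ee o ρ n p * f * ee o ρ n r := ⟨_, rfl⟩
      have hgc : ee o ρ n p * g * ee o ρ n r = g := by rw [hg, corner_eq]
      have hgr : g ∈ S.ring n := by rw [hg]; exact hcor f hf p r
      have hgb := (mem_ring S g).1 hgr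
      rw [← hg]
      by_cases hcase : p.1 = r.1 ∧ p ≠ r
      · obtain ⟨hij, hpr⟩ := hcase
        have hgp : ee o ρ n p * g = g := by
          rw [hg, ← mul_assoc, ← mul_assoc, ee_id]
        have hgr' : g * ee o ρ n r = g := by
          rw [hg, mul_assoc _ (ee o ρ n r) (ee o ρ n r), ee_id]
        have hgx : g * x ∈ S.rad n := hnil.mulL g hgr x hx
        have hxg : x * g ∈ S.rad n := hnil.mulR g hgr x hx
        have e1 : m (g * x) = μ p.1 (bk g p r * bk x r p) := by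
          have a1 : m (g * x) = m ((g * x) * ee o ρ n p) := by
            have := hm2 _ (ee_mem S p) _ hgx
            rw [← mul_assoc, hgp] at this
            exact this
          rw [a1, hm3 p _ (hJ.mulR _ (ee_mem S p) _ hgx) (by
            rw [← mul_assoc, ← mul_assoc, hgp, mul_assoc _ (ee o ρ n p) (ee o ρ n p), ee_id])]
          change μ p.1 (bk (g * x * ee o ρ n p) p p) = _
          rw [bk_mul_ee, if_pos rfl, bk_corner_mul hgc]
        have e2 : m (x * g) = μ r.1 (bk x r p * bk g p r) := by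
          have a1 : m (x * g) = m (ee o ρ n r * (x * g)) := by
            have := hm2 _ (ee_mem S r) _ hxg
            rw [mul_assoc x g, hgr'] at this
            exact this.symm
          rw [a1, hm3 r _ (hJ.mulL _ (ee_mem S r) _ hxg) (by
            rw [← mul_assoc, ee_id, mul_assoc, mul_assoc, hgr'])]
          change μ r.1 (bk (ee o ρ n r * (x * g)) r r) = _
          rw [bk_ee_mul, if_pos rfl, bk_mul, Finset.sum_eq_single p]
          · intro q _ hq
            rw [bk_corner hgc q r (fun h' => hq h'.1), Matrix.mul_zero]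
          · intro h'
            exact absurd (Finset.mem_univ _) h'
        rw [e1, e2]
        have hxJ := ((mem_rad S x).1 hx).2
        obtain ⟨i, s⟩ := p
        obtain ⟨j, t⟩ := r
        obtain rfl : i = j := hij
        exact hsym i _ (hgb ⟨i, s⟩ ⟨i, t⟩) _ (hxJ i t s)
      · refine hm2 g ?_ x hx
        rw [mem_EE']
        refine ⟨hgb, fun i s t hst => ?_⟩
        have : bk g ⟨i, s⟩ ⟨i, t⟩ = 0 := by
          refine bk_corner hgc _ _ ?_
          rintro ⟨h1, h2⟩
          apply hcase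
          rw [← h1, ← h2]
          refine ⟨rfl, fun h3 => hst ?_⟩
          have h4 := (Sigma.mk.inj_iff.1 h3).2
          exact eq_of_heq h4
        rw [this]
        exact Submodule.zero_mem _
    -- sums
    have hsum : ∀ (f : Matrix (Idx n ρ) (Idx n ρ) o), f ∈ S.ring n →
        ∀ T : Finset ((Σ i : Fin b, Fin (n i)) × (Σ i : Fin b, Fin (n i))),
        (∑ pr ∈ T, ee o ρ n pr.1 * f * ee o ρ n pr.2) ∈ S.ring n ∧ ∀ x ∈ S.rad n,
          m ((∑ pr ∈ T, ee o ρ n pr.1 * f * ee o ρ n pr.2) * x) =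
            m (x * ∑ pr ∈ T, ee o ρ n pr.1 * f * ee o ρ n pr.2) := by
      intro f hf T
      induction T using Finset.induction_on with
      | empty =>
        refine ⟨by simp [(S.ring n).zero_mem], fun x _ => by simp⟩
      | insert pr T hpr ih =>
        rw [Finset.sum_insert hpr]
        refine ⟨(S.ring n).add_mem (hcor f hf _ _) ih.1, ?_⟩
        exact stab_add hnil hm1 (hcor f hf _ _) ih.1 (hone f hf _ _) ih.2
    intro f hf x hx
    have hfs : f = ∑ pr ∈ (Finset.univ : Finset ((Σ i : Fin b, Fin (n i)) ×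
        (Σ i : Fin b, Fin (n i)))), ee o ρ n pr.1 * f * ee o ρ n pr.2 := by
      calc f = (∑ p, ee o ρ n p) * f * ∑ r, ee o ρ n r := by
            rw [ee_sum, one_mul, mul_one]
        _ = ∑ p, ∑ r, ee o ρ n p * f * ee o ρ n r := by
            rw [Finset.sum_mul, Finset.sum_mul_sum]
        _ = _ := by
            rw [← Finset.univ_product_univ, Finset.sum_product]
    have := (hsum f hf Finset.univ).2 x hx
    rw [← hfs] at this
    exact this
  · intro i s x hx
    have hpl : ee o ρ n ⟨i, s⟩ * (place i s i s x) * ee o ρ n ⟨i, s⟩ = place i s i s x := by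
      apply bk_ext
      intro p r
      rw [bk_mul_ee, bk_ee_mul]
      by_cases h : p = ⟨i, s⟩ ∧ r = ⟨i, s⟩
      · rw [if_pos h.2, if_pos h.1]
      · rw [bk_place i s x p r h]
        simp
    have hmem : (place i s i s x : Matrix (Idx n ρ) (Idx n ρ) o) ∈ S.rad n := by
      rw [mem_rad]
      refine ⟨fun p r => ?_, fun j u t => ?_⟩
      · by_cases h : p = ⟨i, s⟩ ∧ r = ⟨i, s⟩
        · obtain ⟨rfl, rfl⟩ := h
          have : bk (place i s i s x : Matrix (Idx n ρ) (Idx n ρ) o) ⟨i, s⟩ ⟨i, s⟩ = x :=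
            blk_place_self i s i s x
          rw [this]
          exact S.J_le i hx
        · rw [bk_place i s x p r h]
          exact Submodule.zero_mem _
      · by_cases h : (⟨j, u⟩ : Σ i : Fin b, Fin (n i)) = ⟨i, s⟩ ∧
            (⟨j, t⟩ : Σ i : Fin b, Fin (n i)) = ⟨i, s⟩
        · obtain ⟨h1, h2⟩ := h
          obtain ⟨h3, h4⟩ := Sigma.mk.inj_iff.1 h1
          obtain ⟨_, h6⟩ := Sigma.mk.inj_iff.1 h2
          subst h3
          obtain rfl := eq_of_heq h4
          obtain rfl := eq_of_heq h6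
          have : bk (place j t j t x : Matrix (Idx n ρ) (Idx n ρ) o) ⟨j, t⟩ ⟨j, t⟩ = x :=
            blk_place_self j t j t x
          rw [this]
          exact hx
        · rw [bk_place i s x _ _ h]
          exact Submodule.zero_mem _
    rw [hm3 ⟨i, s⟩ _ hmem hpl]
    change μ i (blk (place i s i s x) i s i s) = μ i x
    rw [blk_place_self]

end Pool.Agent.Lib.MP_fa0f6c_al.Cx
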