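import Pool.Agent.Lib.MP_fa0f6c_al.Cx.F01

set_option autoImplicit false

namespace Pool.Agent.Lib.MP_fa0f6c_al.Cx

variable {o : Type} [CommRing o] [IsLocalRing o] [Finite o] {π : o} {r : ℕ}

/-- there is a primitive additive character -/
theorem exists_prim (h : IsChain o π r) : ∃ ψ : AddChar o ℂ, IsPrim π r ψ := by
  obtain ⟨ψ, hψ⟩ := (AddChar.exists_apply_ne_zero (a := π ^ (r - 1))).2 h.ne
  exact ⟨ψ, ⟨1, by rw [mul_one]; exact hψ⟩⟩

/-- nondegeneracy: HINT: if `x ≠ 0` then `x o` contains `π^(r-1) o`. -/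
theorem prim_nondeg (h : IsChain o π r) {ψ : AddChar o ℂ} (hψ : IsPrim π r ψ) (x : o)
    (hx : ∀ y, ψ (x * y) = 1) : x = 0 := by
  by_contra hx0
  obtain ⟨i, hi, u, rfl⟩ := chain_elem h x hx0
  obtain ⟨a, ha⟩ := hψ.ne
  apply ha
  have h1 := hx ((↑u⁻¹ : o) * π ^ (r - 1 - i) * a)
  have h2 : (u : o) * π ^ i * ((↑u⁻¹ : o) * π ^ (r - 1 - i) * a) = π ^ (r - 1) * a := by
    have h3 : r - 1 = i + (r - 1 - i) := by omega
    calc (u : o) * π ^ i * ((↑u⁻¹ : o) * π ^ (r - 1 - i) * a)
        = ((u : o) * ↑u⁻¹) * (π ^ i * π ^ (r - 1 - i)) * a := by ring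
      _ = π ^ (r - 1) * a := by rw [Units.mul_inv, one_mul, ← pow_add, ← h3]
  rwa [h2] at h1

theorem prim_nondeg_pow (h : IsChain o π r) {ψ : AddChar o ℂ} (hψ : IsPrim π r ψ) (a : ℕ)
    (ha : a ≤ r) (x : o) (hx : ∀ y, ψ (π ^ a * (x * y)) = 1) : ∃ z, x = π ^ (r - a) * z := by
  rw [← chain_ann h a ha]
  refine prim_nondeg h hψ _ fun y => ?_
  rw [mul_assoc]
  exact hx y

theorem trace_mul_single' {κ : Type} [Fintype κ] [DecidableEq κ] {R : Type} [CommRing R]
    (X : Matrix κ κ R) (i j : κ) (c : R) : (X * Matrix.single i j c).trace = X j i * c := by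
  rw [Matrix.trace_mul_single]
  rfl

/-- Every additive character of the matrix ring is `ψ (tr (X ·))`. HINT: count: the map `X ↦ ψ(tr(X ·))` is injective by
`prim_nondeg` and a finite commutative group has as many characters as elements. -/
theorem matrix_char (h : IsChain o π r) {ψ : AddChar o ℂ} (hψ : IsPrim π r ψ) {κ : Type}
    [Fintype κ] [DecidableEq κ] (l : AddChar (Matrix κ κ o) ℂ) :
    ∃ X : Matrix κ κ o, ∀ y, l y = ψ ((X * y).trace) := by
  classical
  have := Fintype.ofFinite o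
  let f : Matrix κ κ o → AddChar (Matrix κ κ o) ℂ := fun X =>
    ψ.compAddMonoidHom ((Matrix.traceAddMonoidHom κ o).comp (AddMonoidHom.mulLeft X))
  have hf : ∀ X y, f X y = ψ ((X * y).trace) := fun X y => rfl
  have hinj : Function.Injective f := by
    intro X X' hXX
    have h0 : ∀ y, ψ (((X - X') * y).trace) = 1 := by
      intro y
      have h1 : ψ ((X * y).trace) = ψ ((X' * y).trace) := by rw [← hf, ← hf, hXX]
      have h2 : ((X - X') * y).trace = (X * y).trace + -(X' * y).trace := by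
        rw [sub_mul, Matrix.trace_sub, sub_eq_add_neg]
      rw [h2, AddChar.map_add_eq_mul, h1, ← AddChar.map_add_eq_mul, add_neg_cancel,
        AddChar.map_zero_eq_one]
    have h3 : X - X' = 0 := by
      ext i j
      refine prim_nondeg h hψ _ fun c => ?_
      have h4 := h0 (Matrix.single j i c)
      rwa [trace_mul_single'] at h4
    exact sub_eq_zero.1 h3
  have hsurj : Function.Surjective f :=
    ((Fintype.bijective_iff_injective_and_card f).2 ⟨hinj, AddChar.card_eq.symm⟩).2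
  obtain ⟨X, hX⟩ := hsurj l
  exact ⟨X, fun y => by rw [← hX, hf]⟩

/-- nondegeneracy for matrices -/
theorem matrix_nondeg (h : IsChain o π r) {ψ : AddChar o ℂ} (hψ : IsPrim π r ψ) {κ : Type}
    [Fintype κ] [DecidableEq κ] (a : ℕ) (ha : a ≤ r) (X : Matrix κ κ o)
    (hX : ∀ y : Matrix κ κ o, ψ (π ^ a * (X * y).trace) = 1) :
    ∃ Z : Matrix κ κ o, X = π ^ (r - a) • Z := by
  have h1 : ∀ i j, ∃ z, X i j = π ^ (r - a) * z := by
    intro i j
    refine prim_nondeg_pow h hψ a ha _ fun c => ?_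
    have h2 := hX (Matrix.single j i c)
    rwa [trace_mul_single'] at h2
  choose Z hZ using h1
  refine ⟨Matrix.of Z, ?_⟩
  ext i j
  rw [hZ i j]
  rfl

/-- Version for `π^a M(o)`: a function on it which is additive-to-multiplicative.
HINT: `y ↦ m (π^a y)` is an additive character of `M(o)`, trivial on the `y` with `π^a y = 0`, so `X = π^a X'`
entrywise (`prim_nondeg`, `chain_ann`). -/
theorem matrix_char_pow (h : IsChain o π r) {ψ : AddChar o ℂ} (hψ : IsPrim π r ψ) {κ : Type}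
    [Fintype κ] [DecidableEq κ] (a : ℕ) (ha : a ≤ r) (m : Matrix κ κ o → ℂ) (h0 : m 0 = 1)
    (hm : ∀ x y, m (π ^ a • (x + y)) = m (π ^ a • x) * m (π ^ a • y)) :
    ∃ X : Matrix κ κ o, ∀ y, m (π ^ a • y) = ψ (π ^ a * (X * y).trace) := by
  let l : AddChar (Matrix κ κ o) ℂ :=
    { toFun := fun y => m (π ^ a • y)
      map_zero_eq_one' := by
        change m (π ^ a • (0 : Matrix κ κ o)) = 1
        rw [smul_zero, h0]
      map_add_eq_mul' := fun x y => hm x y }
  have hl : ∀ y, l y = m (π ^ a • y) := fun y => rfl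
  obtain ⟨X0, hX0⟩ := matrix_char h hψ l
  have h1 : ∀ y : Matrix κ κ o, ψ (π ^ (r - a) * (X0 * y).trace) = 1 := by
    intro y
    have h2 := hX0 (π ^ (r - a) • y)
    have h3 : (X0 * π ^ (r - a) • y).trace = π ^ (r - a) * (X0 * y).trace := by
      rw [Matrix.mul_smul, Matrix.trace_smul, smul_eq_mul]
    have h4 : π ^ a • (π ^ (r - a) • y) = 0 := by
      rw [smul_smul, ← pow_add]
      have : a + (r - a) = r := by omega
      rw [this, h.pow, zero_smul]
    rw [hl, h4, h0, h3] at h2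
    exact h2.symm
  obtain ⟨X, hX⟩ := matrix_nondeg h hψ (r - a) (by omega) X0 h1
  have hra : r - (r - a) = a := by omega
  rw [hra] at hX
  refine ⟨X, fun y => ?_⟩
  rw [← hl, hX0, hX, Matrix.smul_mul, Matrix.trace_smul, smul_eq_mul]

end Pool.Agent.Lib.MP_fa0f6c_al.Cx
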