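import Pool.Agent.Lib.MP_fa0f6c_al.Cx.TDefs
import Pool.Agent.Lib.MP_fa0f6c_al.Cx.F02
import Pool.Agent.Lib.MP_fa0f6c_al.Cx.R08

set_option autoImplicit false

namespace Pool.Agent.Lib.MP_fa0f6c_al.Cx

variable {o : Type} [CommRing o] [IsLocalRing o] [Finite o] {π : o}

omit [IsLocalRing o] in
private theorem T01_ext (hπ : IsNilpotent π) (k : ℕ) (hk : 1 ≤ k) (l0 : o → ℂ) (h0 : l0 0 = 1)
    (hwd : ∀ y y', π ^ k * y = π ^ k * y' → l0 y = l0 y')
    (hhom : ∀ y y', l0 (y + y' + π ^ k * y * y') = l0 y * l0 y') :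
    ∃ χ : o → ℂ, χ 0 = 1 ∧ (∀ x y, π ∣ x → π ∣ y → χ (x + y + x * y) = χ x * χ y) ∧
      ∀ y, χ (π ^ k * y) = l0 y := by
  classical
  let B : Subgroup oˣ :=
    { carrier := {u | π ^ k ∣ (u : o) - 1}
      one_mem' := by simp
      mul_mem' := by
        rintro a b ⟨c, hc⟩ ⟨d, hd⟩
        refine ⟨c * b + d, ?_⟩
        push_cast
        linear_combination (b : o) * hc + hd
      inv_mem' := by
        rintro a ⟨c, hc⟩
        refine ⟨-((↑a⁻¹ : o) * c), ?_⟩
        have h1 : (↑a⁻¹ : o) * (a : o) = 1 := Units.inv_mul a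
        linear_combination (-(↑a⁻¹ : o)) * hc + h1 }
  have hB : ∀ u : B, ∃ c, ((u : oˣ) : o) - 1 = π ^ k * c := fun u => u.2
  choose c hc using hB
  let l1 : B →* ℂ :=
    { toFun := fun u => l0 (c u)
      map_one' := by
        rw [← h0]
        apply hwd
        rw [← hc]
        simp
      map_mul' := by
        intro u v
        show l0 (c (u * v)) = l0 (c u) * l0 (c v)
        rw [← hhom]
        apply hwd
        rw [← hc]
        have hu := hc u
        have hv := hc v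
        have h1 : ((u * v : B) : oˣ) = (u : oˣ) * (v : oˣ) := rfl
        rw [h1]
        push_cast
        linear_combination ((v : oˣ) : o) * hu + hv + π ^ k * c u * hv }
  have hl1 : ∀ u : B, l1 u = l0 (c u) := fun _ => rfl
  obtain ⟨l', hl'⟩ := lin_extend B l1.toHomUnits
  let χ : o → ℂ := fun x => if h : IsUnit (1 + x) then (l' h.unit : ℂ) else 0
  have hχ : ∀ (x : o) (u : oˣ), (u : o) = 1 + x → χ x = (l' u : ℂ) := by
    intro x u hu
    have h1 : IsUnit (1 + x) := hu ▸ u.isUnit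
    have h2 : h1.unit = u := Units.ext hu.symm
    simp only [χ, dif_pos h1, h2]
  have hun : ∀ x : o, π ∣ x → IsUnit (1 + x) := by
    rintro x ⟨y, rfl⟩
    apply IsNilpotent.isUnit_one_add
    obtain ⟨n, hn⟩ := hπ
    exact ⟨n, by rw [mul_pow, hn, zero_mul]⟩
  refine ⟨χ, ?_, ?_, ?_⟩
  · rw [hχ 0 1 (by simp), map_one, Units.val_one]
  · intro x y hx hy
    obtain ⟨u, hu⟩ := hun x hx
    obtain ⟨v, hv⟩ := hun y hy
    rw [hχ x u hu, hχ y v hv, hχ (x + y + x * y) (u * v) (by push_cast; rw [hu, hv]; ring),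
      map_mul, Units.val_mul]
  · intro y
    have hd : π ∣ π ^ k * y := Dvd.dvd.mul_right (dvd_pow_self π (by omega)) y
    obtain ⟨u, hu⟩ := hun _ hd
    have huB : u ∈ B := ⟨y, by rw [hu]; ring⟩
    rw [hχ _ u hu, hl' ⟨u, huB⟩]
    show l1 ⟨u, huB⟩ = l0 y
    rw [hl1]
    apply hwd
    rw [← hc ⟨u, huB⟩]
    show (u : o) - 1 = π ^ k * y
    rw [hu]; ring

/-- PROOF: `lin_extend` (R08) for `A = oˣ` and `B = B_k := {u | π ^ k ∣ u - 1}`.
`ξ`: `k = 7`, the character `1 + π ^ 7 y ↦ ψ (π ^ 15 y)` of `B_7` (well defined: `π ^ 7 y = π ^ 7 y'` implies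
`π ^ 15 y = π ^ 15 y'` by multiplication with `π ^ 8`; choose `y` with `Classical.choose`;
homomorphism: `(1 + π ^ 7 y)(1 + π ^ 7 y') = 1 + π ^ 7 (y + y' + π ^ 7 y y')` and `π ^ 15 * π ^ 7 = 0`).
`η`: `k = 8`, the character `1 + π ^ 8 y ↦ ψ (π ^ 14 y)` of `B_8` (multiply by `π ^ 6`;
`(1 + π ^ 8 y)(1 + π ^ 8 y') = 1 + π ^ 8 (y + y')` as `π ^ 16 = 0`).
`l : B →* ℂˣ`: from a multiplicative map to `ℂ` use `MonoidHom.toHomUnits`.
Then `ξ x := if h : IsUnit (1 + x) then (l' h.unit : ℂ) else 0` (similarly `η`); `1 + x` is a unit for `π ∣ x`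
(`chain_nonunit`, local ring, or: `π x` nilpotent), `(1 + x)(1 + y) = 1 + (x + y + x y)`.
`xi_eight`: `ξ (π ^ 8 y) = ξ (π ^ 7 (π y)) = ψ (π ^ 16 y) = 1`; `xi_seven`: `hψ.ne`. -/
theorem exists_chars (h : IsChain o π 16) {ψ : AddChar o ℂ} (hψ : IsPrim π 16 ψ) :
    ∃ ξ η : o → ℂ, IsChars π ψ ξ η := by
  have hπ : IsNilpotent π := ⟨16, h.pow⟩
  have h22 : π ^ 22 = 0 := by
    have : π ^ 22 = π ^ 16 * π ^ 6 := by ring
    rw [this, h.pow, zero_mul]
  obtain ⟨ξ, x0, xh, x7⟩ := T01_ext hπ 7 (by norm_num) (fun y => ψ (π ^ 15 * y)) (by simp)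
    (by
      intro y y' hyy
      have h1 : π ^ 15 * y = π ^ 15 * y' := by linear_combination π ^ 8 * hyy
      simp only [h1])
    (by
      intro y y'
      rw [← AddChar.map_add_eq_mul]
      congr 1
      linear_combination y * y' * h22)
  obtain ⟨η, e0, eh, e8⟩ := T01_ext hπ 8 (by norm_num) (fun y => ψ (π ^ 14 * y)) (by simp)
    (by
      intro y y' hyy
      have h1 : π ^ 14 * y = π ^ 14 * y' := by linear_combination π ^ 6 * hyy
      simp only [h1])
    (by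
      intro y y'
      rw [← AddChar.map_add_eq_mul]
      congr 1
      linear_combination y * y' * h22)
  refine ⟨ξ, η, ⟨x0, xh, ?_, ?_, e0, eh, e8⟩⟩
  · intro y
    have h1 : π ^ 8 * y = π ^ 7 * (π * y) := by ring
    rw [h1, x7]
    have h2 : π ^ 15 * (π * y) = 0 := by
      have : π ^ 15 * (π * y) = π ^ 16 * y := by ring
      rw [this, h.pow, zero_mul]
    simp only [h2]
    exact AddChar.map_zero_eq_one ψ
  · obtain ⟨a, ha⟩ := hψ.ne
    refine ⟨a, ?_⟩
    rw [x7]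
    exact ha

end Pool.Agent.Lib.MP_fa0f6c_al.Cx
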