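import Pool.Agent.Lib.MP_fa0f6c_al.Cx.T03

set_option autoImplicit false

namespace Pool.Agent.Lib.MP_fa0f6c_al.Cx

variable {o : Type} [CommRing o] [IsLocalRing o] {π : o}

/-- The corner system. All fields from T03 and the table facts of TDefs (`wE_mul`, `wE_off`, `wE_diag`, `wE_le`);
`unit`: if `f ∉ JB`, i.e. `π` does not divide the main entry, the main entry is a unit (`chain_isUnit`). -/
theorem exists_cornersT (h : IsChain o π 16) (h2 : (2 : o) = 0) :
    ∃ S : Corners o rhoT, (∀ i j, S.C i j = MB π wE i j) ∧ ∀ i, S.J i = JB π i := by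
  have hπ16 : π ^ 16 = 0 := h.pow
  have hdvd1 : ¬ π ^ 1 ∣ (1 : o) := by
    rw [pow_one]
    rintro ⟨c, hc⟩
    have h1 : (1 : o) ^ 16 = 0 := by rw [hc, mul_pow, hπ16, zero_mul]
    rw [one_pow] at h1
    exact one_ne_zero h1
  refine ⟨{
    C := fun i j => MB π wE i j
    J := fun i => JB π i
    one_mem := ?_
    mul_mem := ?_
    J_le := ?_
    J_mulL := ?_
    J_mulR := ?_
    J_off := ?_
    one_notMem := ?_
    comm := ?_
    unit := ?_
    nil := ?_ }, fun _ _ => rfl, fun _ => rfl⟩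
  · intro i
    refine ⟨E0_one _ _, ?_⟩
    rw [wE_diag, pow_zero]
    exact one_dvd _
  · intro i j l x hx y hy
    exact MT_mul h2 (rhoT_cases i) (rhoT_cases j) (rhoT_cases l) (wE_le i l) (wE_mul i j l) hx hy
  · intro i
    exact MT_mono (by rw [wE_diag]; omega)
  · intro i x hx y hy
    refine MT_mul (u := wE i i) (v := 1) h2 (rhoT_cases i) (rhoT_cases i) (rhoT_cases i)
      (by omega) (Or.inr (by omega)) hx hy
  · intro i x hx y hy
    refine MT_mul (u := 1) (v := wE i i) h2 (rhoT_cases i) (rhoT_cases i) (rhoT_cases i)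
      (by omega) (Or.inr (by omega)) hy hx
  · intro i j hij x hx y hy
    exact MT_mul h2 (rhoT_cases i) (rhoT_cases j) (rhoT_cases i) (by omega) (wE_off i j hij) hx hy
  · rintro i ⟨-, h3⟩
    rw [mainE_one (rhoT_cases i)] at h3
    exact hdvd1 h3
  · intro i x hx y hy
    exact MT_mono (by omega) (MT_comm h2 (rhoT_cases i) hx.1 hy.1)
  · intro i x hx hxJ
    have hu : IsUnit (mainE x) := by
      by_contra hnu
      apply hxJ
      refine ⟨hx.1, ?_⟩
      rw [pow_one]
      have h3 : mainE x ∈ IsLocalRing.maximalIdeal o := (IsLocalRing.mem_maximalIdeal _).2 hnu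
      rw [h.max, Ideal.mem_span_singleton] at h3
      exact h3
    obtain ⟨g, hg, h4, h5⟩ := MT_unit hπ16 h2 (rhoT_cases i) hx.1 hu
    refine ⟨g, ⟨hg, ?_⟩, ?_, ?_⟩
    · rw [wE_diag, pow_zero]
      exact one_dvd _
    · rw [h4, sub_self]; exact Submodule.zero_mem _
    · rw [h5, sub_self]; exact Submodule.zero_mem _
  · intro i x hx
    exact MT_nil hπ16 h2 (rhoT_cases i) hx

end Pool.Agent.Lib.MP_fa0f6c_al.Cx
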