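import Pool.Agent.Lib.MP_fa0f6c_al.Cx.T02
import Pool.Agent.Lib.MP_fa0f6c_al.Cx.F01

set_option autoImplicit false

namespace Pool.Agent.Lib.MP_fa0f6c_al.Cx

variable {o : Type} [CommRing o] [IsLocalRing o] [Finite o] {π : o}

omit [IsLocalRing o] [Finite o] in
private theorem T05_mem11 (h2 : (2 : o) = 0) {q q' : Bool} {w : ℕ} (hc : q ≠ q' → 2 ≤ w)
    {f : Matrix (Fin 1) (Fin 1) o} : f ∈ MT π w 1 q 1 q' ↔ π ^ w ∣ f 0 0 := by
  rw [mem_MT, mem_E0_11 h2, mainE_11]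
  refine ⟨fun h => h.2, fun h => ⟨?_, h⟩⟩
  by_cases hq : q = q'
  · subst hq
    have : xv π q + xv π q = 0 := by
      rw [← two_mul, h2, zero_mul]
    rw [this, zero_mul]
    exact dvd_zero _
  · have hw := hc hq
    have h6 : xv π q + xv π q' = π ^ 6 := by
      cases q <;> cases q' <;> simp [xv] at hq ⊢
    rw [h6]
    have h2' : π ^ 2 ∣ f 0 0 := (pow_dvd_pow π hw).trans h
    obtain ⟨y, hy⟩ := h2'
    exact ⟨y, by rw [hy]; ring⟩

omit [IsLocalRing o] [Finite o] in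
private theorem T05_card11 (h2 : (2 : o) = 0) {q q' : Bool} {w : ℕ} (hc : q ≠ q' → 2 ≤ w) :
    Nat.card (MT π w 1 q 1 q') = Nat.card (Ideal.span {π ^ w} : Ideal o) := by
  refine Nat.card_congr
    { toFun := fun f => ⟨f.1 0 0, Ideal.mem_span_singleton.2 ((T05_mem11 h2 hc).1 f.2)⟩
      invFun := fun x => ⟨Matrix.of fun _ _ => x.1,
        (T05_mem11 h2 hc).2 (Ideal.mem_span_singleton.1 x.2)⟩
      left_inv := ?_
      right_inv := ?_ }
  · rintro ⟨f, hf⟩
    apply Subtype.ext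
    ext a c
    rw [Subsingleton.elim a 0, Subsingleton.elim c 0]
    rfl
  · rintro ⟨x, hx⟩
    rfl

omit [IsLocalRing o] [Finite o] in
private theorem T05_mem12 (h2 : (2 : o) = 0) {q q' : Bool} {w : ℕ}
    {f : Matrix (Fin 1) (Fin 2) o} : f ∈ MT π w 1 q 2 q' ↔
      π ^ w ∣ f 0 1 ∧ π ^ 8 ∣ f 0 0 + (xv π q + xv π q') * f 0 1 := by
  rw [mem_MT, mem_E0_12 h2, mainE_12, and_comm]

omit [IsLocalRing o] [Finite o] in
private theorem T05_card12 (h2 : (2 : o) = 0) {q q' : Bool} {w : ℕ} :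
    Nat.card (MT π w 1 q 2 q') =
      Nat.card (Ideal.span {π ^ w} : Ideal o) * Nat.card (Ideal.span {π ^ 8} : Ideal o) := by
  rw [← Nat.card_prod]
  refine Nat.card_congr
    { toFun := fun f => (⟨f.1 0 1, Ideal.mem_span_singleton.2 ((T05_mem12 h2).1 f.2).1⟩,
        ⟨f.1 0 0 + (xv π q + xv π q') * f.1 0 1,
          Ideal.mem_span_singleton.2 ((T05_mem12 h2).1 f.2).2⟩)
      invFun := fun x => ⟨!![x.2.1 - (xv π q + xv π q') * x.1.1, x.1.1], (T05_mem12 h2).2 ?_⟩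
      left_inv := ?_
      right_inv := ?_ }
  · refine ⟨?_, ?_⟩
    · exact Ideal.mem_span_singleton.1 x.1.2
    · have h := Ideal.mem_span_singleton.1 x.2.2
      simpa using h
  · rintro ⟨f, hf⟩
    apply Subtype.ext
    ext a c
    rw [Subsingleton.elim a 0]
    fin_cases c <;> simp
  · rintro ⟨⟨x, hx⟩, ⟨y, hy⟩⟩
    simp

omit [IsLocalRing o] [Finite o] in
private theorem T05_mem21 (h2 : (2 : o) = 0) {q q' : Bool} {w : ℕ}
    {f : Matrix (Fin 2) (Fin 1) o} : f ∈ MT π w 2 q 1 q' ↔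
      π ^ w ∣ f 0 0 ∧ π ^ 8 ∣ f 1 0 + (xv π q + xv π q') * f 0 0 := by
  rw [mem_MT, mem_E0_21 h2, mainE_21, and_comm]

omit [IsLocalRing o] [Finite o] in
private theorem T05_card21 (h2 : (2 : o) = 0) {q q' : Bool} {w : ℕ} :
    Nat.card (MT π w 2 q 1 q') =
      Nat.card (Ideal.span {π ^ w} : Ideal o) * Nat.card (Ideal.span {π ^ 8} : Ideal o) := by
  rw [← Nat.card_prod]
  refine Nat.card_congr
    { toFun := fun f => (⟨f.1 0 0, Ideal.mem_span_singleton.2 ((T05_mem21 h2).1 f.2).1⟩,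
        ⟨f.1 1 0 + (xv π q + xv π q') * f.1 0 0,
          Ideal.mem_span_singleton.2 ((T05_mem21 h2).1 f.2).2⟩)
      invFun := fun x => ⟨!![x.1.1; x.2.1 - (xv π q + xv π q') * x.1.1], (T05_mem21 h2).2 ?_⟩
      left_inv := ?_
      right_inv := ?_ }
  · refine ⟨?_, ?_⟩
    · exact Ideal.mem_span_singleton.1 x.1.2
    · have h := Ideal.mem_span_singleton.1 x.2.2
      simpa using h
  · rintro ⟨f, hf⟩
    apply Subtype.ext
    ext a c
    rw [Subsingleton.elim c 0]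
    fin_cases a <;> simp
  · rintro ⟨⟨x, hx⟩, ⟨y, hy⟩⟩
    simp

omit [IsLocalRing o] [Finite o] in
private theorem T05_mem22 (h2 : (2 : o) = 0) {q q' : Bool} {w : ℕ}
    {f : Matrix (Fin 2) (Fin 2) o} : f ∈ MT π w 2 q 2 q' ↔
      π ^ w ∣ f 0 0 ∧ π ^ 8 ∣ f 1 0 + (xv π q + xv π q') * f 0 0 ∧
      π ^ 8 ∣ f 1 1 + f 0 0 + (xv π q + xv π q') * f 0 1 := by
  rw [mem_MT, mem_E0_22 h2, mainE_22, and_comm]

omit [IsLocalRing o] [Finite o] in
private theorem T05_card22 (h2 : (2 : o) = 0) {q q' : Bool} {w : ℕ} :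
    Nat.card (MT π w 2 q 2 q') =
      Nat.card (Ideal.span {π ^ w} : Ideal o) * (Nat.card o *
        (Nat.card (Ideal.span {π ^ 8} : Ideal o) * Nat.card (Ideal.span {π ^ 8} : Ideal o))) := by
  rw [← Nat.card_prod, ← Nat.card_prod, ← Nat.card_prod]
  refine Nat.card_congr
    { toFun := fun f => (⟨f.1 0 0, Ideal.mem_span_singleton.2 ((T05_mem22 h2).1 f.2).1⟩,
        (f.1 0 1, (⟨f.1 1 0 + (xv π q + xv π q') * f.1 0 0,
          Ideal.mem_span_singleton.2 ((T05_mem22 h2).1 f.2).2.1⟩,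
          ⟨f.1 1 1 + f.1 0 0 + (xv π q + xv π q') * f.1 0 1,
          Ideal.mem_span_singleton.2 ((T05_mem22 h2).1 f.2).2.2⟩)))
      invFun := fun x => ⟨!![x.1.1, x.2.1;
        x.2.2.1.1 - (xv π q + xv π q') * x.1.1,
        x.2.2.2.1 - x.1.1 - (xv π q + xv π q') * x.2.1], (T05_mem22 h2).2 ?_⟩
      left_inv := ?_
      right_inv := ?_ }
  · refine ⟨?_, ?_, ?_⟩
    · exact Ideal.mem_span_singleton.1 x.1.2
    · have h := Ideal.mem_span_singleton.1 x.2.2.1.2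
      simpa using h
    · have h := Ideal.mem_span_singleton.1 x.2.2.2.2
      have e : x.2.2.2.1 - x.1.1 - (xv π q + xv π q') * x.2.1 + x.1.1 +
          (xv π q + xv π q') * x.2.1 = x.2.2.2.1 := by ring
      change π ^ 8 ∣ x.2.2.2.1 - x.1.1 - (xv π q + xv π q') * x.2.1 + x.1.1 +
          (xv π q + xv π q') * x.2.1
      rw [e]
      exact h
  · rintro ⟨f, hf⟩
    apply Subtype.ext
    ext a c
    fin_cases a <;> fin_cases c
    · rfl
    · rfl
    · change f 1 0 + (xv π q + xv π q') * f 0 0 - (xv π q + xv π q') * f 0 0 = f 1 0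
      ring
    · change f 1 1 + f 0 0 + (xv π q + xv π q') * f 0 1 - f 0 0 -
        (xv π q + xv π q') * f 0 1 = f 1 1
      ring
  · rintro ⟨⟨x, hx⟩, y, ⟨z, hz⟩, ⟨t, ht⟩⟩
    refine Prod.ext ?_ (Prod.ext ?_ (Prod.ext ?_ ?_))
    · rfl
    · rfl
    · apply Subtype.ext
      change z - (xv π q + xv π q') * x + (xv π q + xv π q') * x = z
      ring
    · apply Subtype.ext
      change t - x - (xv π q + xv π q') * y + x + (xv π q + xv π q') * y = t
      ring

/-- PROOF: bijection of `MT` with `(π ^ w)` (case (1,1)), `(π ^ w) × (π ^ 8)` (cases (1,2), (2,1)),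
`(π ^ w) × o × (π ^ 8) × (π ^ 8)` (case (2,2)), where `(π ^ i) = Ideal.span {π ^ i}`; cardinalities by `chain_card`, `chain_card'`.
E.g. (1,2): `f ↦ (f 0 1, f 0 0 + α f 0 1)`, inverse `(a, b) ↦ (b - α a, a)`;
(2,2): `f ↦ (f 0 0, f 0 1, f 1 0 + α f 0 0, f 1 1 + f 0 0 + α f 0 1)`.
In case (1,1) with `q ≠ q'` the `E0`-condition `π ^ 8 ∣ π ^ 6 * f 0 0` follows from `2 ≤ w`. -/
theorem card_MT (h : IsChain o π 16) (h2 : (2 : o) = 0) {m n : ℕ} (hm : m = 1 ∨ m = 2)
    (hn : n = 1 ∨ n = 2) {q q' : Bool} {w : ℕ} (hw : w ≤ 16)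
    (hc : m = 1 → n = 1 → q ≠ q' → 2 ≤ w) :
    Nat.card (MT π w m q n q') = Nat.card (IsLocalRing.ResidueField o) ^
      ((if m = 1 ∧ n = 1 then 16 else if m = 2 ∧ n = 2 then 48 else 24) - w) := by
  have hw1 := chain_card h w hw
  have h81 := chain_card h 8 (by norm_num)
  have h0 := chain_card' h
  rcases hm with rfl | rfl <;> rcases hn with rfl | rfl
  · rw [T05_card11 h2 (hc rfl rfl), hw1, if_pos ⟨rfl, rfl⟩]
  · rw [T05_card12 h2, hw1, h81, if_neg (by decide), if_neg (by decide), ← pow_add]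
    congr 1
    omega
  · rw [T05_card21 h2, hw1, h81, if_neg (by decide), if_neg (by decide), ← pow_add]
    congr 1
    omega
  · rw [T05_card22 h2, hw1, h81, h0, if_neg (by decide), if_pos ⟨rfl, rfl⟩, ← pow_add, ← pow_add,
      ← pow_add]
    congr 1
    omega

private theorem T05_tab1 (i j : Fin 6) : rhoT i = 1 → rhoT j = 1 → clT i ≠ clT j → 2 ≤ wE i j := by
  revert i j; decide

private theorem T05_tab2 (i j : Fin 6) :
    (if rhoT i = 1 ∧ rhoT j = 1 then 16 else if rhoT i = 2 ∧ rhoT j = 2 then 48 else 24) - wE i j =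
      lenT i j := by
  revert i j; decide

/-- from `card_MT` and `decide` on tables -/
theorem card_MB (h : IsChain o π 16) (h2 : (2 : o) = 0) (i j : Fin 6) :
    Nat.card (MB π wE i j) = Nat.card (IsLocalRing.ResidueField o) ^ lenT i j := by
  have h1 := card_MT h h2 (rhoT_cases i) (rhoT_cases j) (q := clT i) (q' := clT j)
    ((wE_le i j).trans (by norm_num)) (T05_tab1 i j)
  rw [T05_tab2] at h1
  exact h1

theorem card_JB (h : IsChain o π 16) (h2 : (2 : o) = 0) (i : Fin 6) :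
    Nat.card (MB π wE i i) = Nat.card (IsLocalRing.ResidueField o) * Nat.card (JB π i) := by
  have h1 : Nat.card (JB π i) = _ := card_MT h h2 (rhoT_cases i) (rhoT_cases i)
    (q := clT i) (q' := clT i) (w := 1) (by norm_num) (fun _ _ h => absurd rfl h)
  have h3 : Nat.card (MB π wE i i) = _ := card_MT h h2 (rhoT_cases i) (rhoT_cases i)
    (q := clT i) (q' := clT i) ((wE_le i i).trans (by norm_num)) (fun _ _ h => absurd rfl h)
  rw [h1, h3, wE_diag, Nat.sub_zero, ← pow_succ']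
  congr 1
  split_ifs <;> rfl

end Pool.Agent.Lib.MP_fa0f6c_al.Cx
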