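import Pool.Agent.Lib.MP_fa0f6c_al.Cx.T02

set_option autoImplicit false

namespace Pool.Agent.Lib.MP_fa0f6c_al.Cx

variable {o : Type} [CommRing o] {π : o}

private theorem T07_xx (h2 : (2 : o) = 0) (q : Bool) : xv π q + xv π q = 0 := by
  rw [← two_mul, h2, zero_mul]

private theorem T07_six (q q' : Bool) : ∃ e : o, xv π q + xv π q' = π ^ 6 * e := by
  cases q <;> cases q' <;> simp only [xv, cond_true, cond_false]
  · exact ⟨0, by ring⟩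
  · exact ⟨1, by ring⟩
  · exact ⟨1, by ring⟩
  · exact ⟨2, by ring⟩

/-- size one, `z = π ^ 8 w`: the factor `ξ` does not matter -/
private theorem T07_one {ψ : AddChar o ℂ} {ξ η : o → ℂ} (hch : IsChars π ψ ξ η) {p q : Bool}
    {z : Matrix (Fin 1) (Fin 1) o} {w : o} (hz : z 0 0 = π ^ 8 * w) :
    muL ψ ξ η p q z = bif q then η (π ^ 8 * w) else 1 := by
  have h1 : ent z 1 0 = 0 := by simp [ent]
  have h2 : (1 + z).det - 1 = π ^ 8 * w := by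
    rw [← hz]
    simp
  rw [muL, h1, h2, zero_mul, AddChar.map_zero_eq_one, hch.xi_eight]
  cases p <;> simp

/-- size two, `z = y x` with a vanishing entry -/
private theorem T07_two {ψ : AddChar o ℂ} {ξ η : o → ℂ} {q : Bool}
    {x : Matrix (Fin 1) (Fin 2) o} {y : Matrix (Fin 2) (Fin 1) o} {w : o}
    (hz : (x * y) 0 0 = w) (h0 : y 1 0 * x 0 0 = 0) :
    muL ψ ξ η false q (y * x) = bif q then η w else 1 := by
  have h1 : ent (y * x) 1 0 = 0 := by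
    rw [← h0]
    simp [ent, Matrix.mul_apply]
  have h2 : (1 + y * x).det - 1 = w := by
    rw [Matrix.det_one_add_mul_comm, ← hz]
    simp
  rw [muL, h1, h2, zero_mul, AddChar.map_zero_eq_one]
  simp

/-- anchors in the same cluster. PROOF: `x y ∈ π ^ 8 o`, so the `ξ` factors are `1`; `det (1 + x y) = det (1 + y x)`. -/
theorem cross_11_same {ψ : AddChar o ℂ} {ξ η : o → ℂ} (hch : IsChars π ψ ξ η) {p p' q : Bool}
    {x y : Matrix (Fin 1) (Fin 1) o} (hx : x ∈ MT π 4 1 q 1 q) (hy : y ∈ MT π 4 1 q 1 q) :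
    muL ψ ξ η p q (x * y) = muL ψ ξ η p' q (y * x) := by
  obtain ⟨-, a, ha⟩ := hx
  obtain ⟨-, b, hb⟩ := hy
  rw [mainE_11] at ha hb
  have h1 : (x * y) 0 0 = π ^ 8 * (a * b) := by
    rw [Matrix.mul_apply, Fin.sum_univ_one, ha, hb]
    ring
  have h2 : (y * x) 0 0 = π ^ 8 * (a * b) := by
    rw [Matrix.mul_apply, Fin.sum_univ_one, ha, hb]
    ring
  rw [T07_one hch h1, T07_one hch h2]

/-- anchors in different clusters. PROOF: `x y ∈ π ^ 10 o`, so `ξ (x y) = 1` and `η (x y) = ψ (π ^ 16 ..) = 1`. -/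
theorem cross_11_diff (hπ : π ^ 16 = 0) {ψ : AddChar o ℂ} {ξ η : o → ℂ} (hch : IsChars π ψ ξ η)
    {p p' q q' : Bool} {x y : Matrix (Fin 1) (Fin 1) o} (hx : x ∈ MT π 5 1 q 1 q')
    (hy : y ∈ MT π 5 1 q' 1 q) :
    muL ψ ξ η p q (x * y) = muL ψ ξ η p' q' (y * x) := by
  obtain ⟨-, a, ha⟩ := hx
  obtain ⟨-, b, hb⟩ := hy
  rw [mainE_11] at ha hb
  have h1 : (x * y) 0 0 = π ^ 8 * (π ^ 2 * (a * b)) := by
    rw [Matrix.mul_apply, Fin.sum_univ_one, ha, hb]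
    ring
  have h2 : (y * x) 0 0 = π ^ 8 * (π ^ 2 * (a * b)) := by
    rw [Matrix.mul_apply, Fin.sum_univ_one, ha, hb]
    ring
  have h3 : η (π ^ 8 * (π ^ 2 * (a * b))) = 1 := by
    rw [hch.eta_eight]
    have : π ^ 14 * (π ^ 2 * (a * b)) = 0 := by linear_combination (a * b) * hπ
    rw [this, AddChar.map_zero_eq_one]
  rw [T07_one hch h1, T07_one hch h2, h3]
  cases q <;> cases q' <;> rfl

/-- anchor and rank two block in the same cluster. PROOF: `x = (x₁, x₂)`, `x₁ ∈ π ^ 8 o`, `y = (y₁, y₂)ᵀ`, `y₂ ∈ π ^ 8 o`: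
`x y ∈ π ^ 8 o`, `ξ (x y) = 1` (if `p`), `(y x)₂₁ = y₂ x₁ = 0`, `det (1 + x y) = det (1 + y x)`. -/
theorem cross_12_same (hπ : π ^ 16 = 0) (h2 : (2 : o) = 0) {ψ : AddChar o ℂ} {ξ η : o → ℂ}
    (hch : IsChars π ψ ξ η) {p q : Bool} {x : Matrix (Fin 1) (Fin 2) o}
    {y : Matrix (Fin 2) (Fin 1) o} (hx : x ∈ MT π 0 1 q 2 q) (hy : y ∈ MT π 0 2 q 1 q) :
    muL ψ ξ η p q (x * y) = muL ψ ξ η false q (y * x) := by
  obtain ⟨hx, -⟩ := hx
  obtain ⟨hy, -⟩ := hy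
  rw [mem_E0_12 h2, T07_xx h2, zero_mul, add_zero] at hx
  rw [mem_E0_21 h2, T07_xx h2, zero_mul, add_zero] at hy
  obtain ⟨a, ha⟩ := hx
  obtain ⟨b, hb⟩ := hy
  have h1 : (x * y) 0 0 = π ^ 8 * (a * y 0 0 + x 0 1 * b) := by
    rw [Matrix.mul_apply, Fin.sum_univ_two, ha, hb]
    ring
  have h3 : y 1 0 * x 0 0 = 0 := by
    rw [ha, hb]
    linear_combination (a * b) * hπ
  rw [T07_one hch h1, T07_two h1 h3]

/-- anchor and rank two block in different clusters, weights 2. PROOF: `x₂ ∈ π ^ 2 o`, `x₁ ≡ π ^ 6 x₂` modulo `π ^ 8`, so `x₁ ∈ π ^ 8 o`;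
`y₁ ∈ π ^ 2 o`, `y₂ ∈ π ^ 8 o`: `x y ∈ π ^ 10 o`, `ξ (x y) = 1`, `η (x y) = 1`; `(y x)₂₁ = 0`, `det (1 + y x) - 1 = x y` -/
theorem cross_12_diff (hπ : π ^ 16 = 0) (h2 : (2 : o) = 0) {ψ : AddChar o ℂ} {ξ η : o → ℂ}
    (hch : IsChars π ψ ξ η) {p q q' : Bool} {x : Matrix (Fin 1) (Fin 2) o}
    {y : Matrix (Fin 2) (Fin 1) o} (hx : x ∈ MT π 2 1 q 2 q') (hy : y ∈ MT π 2 2 q' 1 q) :
    muL ψ ξ η p q (x * y) = muL ψ ξ η false q' (y * x) := by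
  obtain ⟨hx, c, hc⟩ := hx
  obtain ⟨hy, d, hd⟩ := hy
  rw [mainE_12] at hc
  rw [mainE_21] at hd
  rw [mem_E0_12 h2] at hx
  rw [mem_E0_21 h2] at hy
  obtain ⟨a, ha⟩ := hx
  obtain ⟨b, hb⟩ := hy
  obtain ⟨e, he⟩ := T07_six (π := π) q q'
  obtain ⟨e', he'⟩ := T07_six (π := π) q' q
  rw [he, hc] at ha
  rw [he', hd] at hb
  have ha' : x 0 0 = π ^ 8 * (a - e * c) := by linear_combination ha
  have hb' : y 1 0 = π ^ 8 * (b - e' * d) := by linear_combination hb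
  have h1 : (x * y) 0 0 = π ^ 8 * (π ^ 2 * ((a - e * c) * d + c * (b - e' * d))) := by
    rw [Matrix.mul_apply, Fin.sum_univ_two, ha', hb', hc, hd]
    ring
  have h3 : y 1 0 * x 0 0 = 0 := by
    rw [ha', hb']
    linear_combination ((a - e * c) * (b - e' * d)) * hπ
  have h4 : η (π ^ 8 * (π ^ 2 * ((a - e * c) * d + c * (b - e' * d)))) = 1 := by
    rw [hch.eta_eight]
    have : π ^ 14 * (π ^ 2 * ((a - e * c) * d + c * (b - e' * d))) = 0 := by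
      linear_combination ((a - e * c) * d + c * (b - e' * d)) * hπ
    rw [this, AddChar.map_zero_eq_one]
  rw [T07_one hch h1, T07_two h1 h3, h4]
  cases q <;> cases q' <;> rfl

private theorem T07_key (hπ : π ^ 16 = 0) (w n : o) :
    π ^ 12 * n * Ring.inverse (1 + π ^ 8 * w) = π ^ 12 * n := by
  have h0 : IsUnit (1 + π ^ 8 * w) := by
    apply IsNilpotent.isUnit_one_add
    exact ⟨16, by rw [mul_pow, ← pow_mul, mul_comm 8 16, pow_mul, hπ]; simp⟩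
  have h1 := Ring.inverse_mul_cancel _ h0
  set i := Ring.inverse (1 + π ^ 8 * w)
  linear_combination π ^ 12 * n * h1 - π ^ 4 * n * i * w * hπ

/-- the two rank two blocks, weights 4. PROOF (`a = π ^ 6`): `x₂₁ = a x₁₁ + π ^ 8 g ∈ π ^ 8 o`, `x₂₂ = x₁₁ + a x₁₂ + π ^ 8 h`, similarly
`y₂₁ = a y₁₁ + π ^ 8 g'`, `y₂₂ = y₁₁ + a y₁₂ + π ^ 8 h'`, `x₁₁, y₁₁ ∈ π ^ 4 o`. So `(x y)₂₁ ∈ π ^ 12 o`, `(x y)₁₁ ∈ π ^ 8 o`, hence
`muL false false (x y) = ψ ((x y)₂₁)`, and the `ψ`-factor of `muL false true (y x)` is `ψ ((y x)₂₁)`.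
`det (y x) = det x det y = 0` (both in `π ^ 8 o`), so `det (1 + y x) - 1 = tr (y x) = π ^ 8 T` for some `T`, and
`η (π ^ 8 T) = ψ (π ^ 14 T) = ψ (a * tr (y x))`, and `a tr (y x) = a (x₂₁ y₁₂ + y₂₁ x₁₂)` (the rest of the trace,
`x₁₁ y₁₁ + x₂₂ y₂₂`, is in `π ^ 10 o`). Finally
`(x y)₂₁ + (y x)₂₁ = x₂₁ (y₁₁ + y₂₂) + y₂₁ (x₁₁ + x₂₂) = x₂₁ (a y₁₂ + π ^ 8 h') + y₂₁ (a x₁₂ + π ^ 8 h) = a (x₂₁ y₁₂ + y₂₁ x₁₂)`. -/
theorem cross_22 (hπ : π ^ 16 = 0) (h2 : (2 : o) = 0) {ψ : AddChar o ℂ} {ξ η : o → ℂ}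
    (hch : IsChars π ψ ξ η) {x y : Matrix (Fin 2) (Fin 2) o}
    (hx : x ∈ MT π 4 2 false 2 true) (hy : y ∈ MT π 4 2 true 2 false) :
    muL ψ ξ η false false (x * y) = muL ψ ξ η false true (y * x) := by
  obtain ⟨hx, u, hu⟩ := hx
  obtain ⟨hy, v, hv⟩ := hy
  rw [mainE_22] at hu hv
  rw [mem_E0_22 h2] at hx hy
  simp only [xv, cond_true, cond_false, zero_add, add_zero] at hx hy
  obtain ⟨⟨g, hg⟩, ⟨h, hh⟩⟩ := hx
  obtain ⟨⟨g', hg'⟩, ⟨h', hh'⟩⟩ := hy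
  rw [hu] at hg hh
  rw [hv] at hg' hh'
  set s := x 0 1 with hs
  set t := y 0 1 with ht
  obtain ⟨X, hX⟩ : ∃ X, x 1 0 = π ^ 8 * X := ⟨g - π ^ 2 * u, by linear_combination hg⟩
  obtain ⟨Y, hY⟩ : ∃ Y, y 1 0 = π ^ 8 * Y := ⟨g' - π ^ 2 * v, by linear_combination hg'⟩
  have hx11 : x 1 1 = π ^ 8 * h - π ^ 4 * u - π ^ 6 * s := by linear_combination hh
  have hy11 : y 1 1 = π ^ 8 * h' - π ^ 4 * v - π ^ 6 * t := by linear_combination hh'
  have e10 : (x * y) 1 0 = π ^ 12 * (X * v + (π ^ 4 * h - u - π ^ 2 * s) * Y) := by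
    rw [Matrix.mul_apply, Fin.sum_univ_two, hX, hY, hv, hx11]
    ring
  have e00 : (x * y) 0 0 = π ^ 8 * (u * v + s * Y) := by
    rw [Matrix.mul_apply, Fin.sum_univ_two, hu, hY, hv, ← hs]
    ring
  have f10 : (y * x) 1 0 = π ^ 12 * (Y * u + (π ^ 4 * h' - v - π ^ 2 * t) * X) := by
    rw [Matrix.mul_apply, Fin.sum_univ_two, hX, hY, hu, hy11]
    ring
  have f00 : (y * x) 0 0 = π ^ 8 * (v * u + t * X) := by
    rw [Matrix.mul_apply, Fin.sum_univ_two, hu, hX, hv, ← ht]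
    ring
  have hdet : (1 + y * x).det - 1 = π ^ 8 * (u * v + t * X + Y * s +
      (π ^ 4 * h' - v - π ^ 2 * t) * (π ^ 4 * h - u - π ^ 2 * s)) := by
    have h3 : (1 + y * x).det = 1 + (y * x).trace + (y * x).det := by
      rw [Matrix.det_fin_two, Matrix.trace_fin_two, Matrix.det_fin_two (y * x)]
      simp only [Matrix.add_apply, Matrix.one_apply_eq, ne_eq, one_ne_zero, not_false_eq_true,
        Matrix.one_apply_ne, zero_ne_one, zero_add]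
      ring
    have h4 : (y * x).det = 0 := by
      rw [Matrix.det_mul, Matrix.det_fin_two, Matrix.det_fin_two, hu, hv, hx11, hy11, hX, hY,
        ← hs, ← ht]
      linear_combination (v * (π ^ 4 * h' - v - π ^ 2 * t) - t * Y) *
        (u * (π ^ 4 * h - u - π ^ 2 * s) - s * X) * hπ
    rw [h3, h4, Matrix.trace_fin_two, f00]
    rw [Matrix.mul_apply, Fin.sum_univ_two, hx11, hy11, hY, ← hs]
    ring
  have m1 : muL ψ ξ η false false (x * y) = ψ ((x * y) 1 0) := by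
    have h3 : ent (x * y) 1 0 = (x * y) 1 0 := by simp [ent]
    have h4 : ent (x * y) 0 0 = (x * y) 0 0 := by simp [ent]
    rw [muL, h3, h4, e10, e00, T07_key hπ]
    simp
  have m2 : muL ψ ξ η false true (y * x) = ψ ((y * x) 1 0) * η ((1 + y * x).det - 1) := by
    have h3 : ent (y * x) 1 0 = (y * x) 1 0 := by simp [ent]
    have h4 : ent (y * x) 0 0 = (y * x) 0 0 := by simp [ent]
    rw [muL, h3, h4, f10, f00, T07_key hπ]
    simp
  rw [m1, m2, hdet, hch.eta_eight, ← AddChar.map_add_eq_mul]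
  congr 1
  rw [e10, f10]
  linear_combination (π ^ 12 * X * v - π ^ 12 * u * Y - π ^ 14 * s * Y - π ^ 14 * u * v) * h2 +
    (Y * h - X * h' - (v * s + t * u) - π ^ 2 * t * s - π ^ 6 * h * h' + π ^ 2 * h' * u +
      π ^ 4 * h' * s + π ^ 2 * v * h + π ^ 4 * t * h) * hπ

end Pool.Agent.Lib.MP_fa0f6c_al.Cx
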