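import Pool.Agent.Lib.MP_fa0f6c_al.Cx.T06
import Pool.Agent.Lib.MP_fa0f6c_al.Cx.T07

set_option autoImplicit false

namespace Pool.Agent.Lib.MP_fa0f6c_al.Cx

variable {o : Type} [CommRing o] {π : o}

/-- all cross conditions. PROOF: `fin_cases i <;> fin_cases j` (30 cases) and T07, each lemma or its symmetric version. -/
theorem cross_all (hπ : π ^ 16 = 0) (h2 : (2 : o) = 0) {ψ : AddChar o ℂ} {ξ η : o → ℂ}
    (hch : IsChars π ψ ξ η) (i j : Fin 6) (hij : i ≠ j)
    (x : Matrix (Fin (rhoT i)) (Fin (rhoT j)) o) (hx : x ∈ MB π wE i j)
    (y : Matrix (Fin (rhoT j)) (Fin (rhoT i)) o) (hy : y ∈ MB π wE j i) :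
    muT ψ ξ η i (x * y) = muT ψ ξ η j (y * x) := by
  fin_cases i <;> fin_cases j
  · exact absurd rfl hij
  · exact (cross_12_same hπ h2 hch (p := false) (q := false) hy hx).symm
  · exact (cross_12_same hπ h2 hch (p := true) (q := false) hy hx).symm
  · exact (cross_12_diff hπ h2 hch (p := false) (q := true) (q' := false) hy hx).symm
  · exact (cross_12_diff hπ h2 hch (p := true) (q := true) (q' := false) hy hx).symm
  · exact cross_22 hπ h2 hch hx hy
  · exact cross_12_same hπ h2 hch (p := false) (q := false) hx hy
  · exact absurd rfl hij
  · exact cross_11_same hch (p := false) (p' := true) (q := false) hx hy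
  · exact cross_11_diff hπ hch (p := false) (p' := false) (q := false) (q' := true) hx hy
  · exact cross_11_diff hπ hch (p := false) (p' := true) (q := false) (q' := true) hx hy
  · exact cross_12_diff hπ h2 hch (p := false) (q := false) (q' := true) hx hy
  · exact cross_12_same hπ h2 hch (p := true) (q := false) hx hy
  · exact cross_11_same hch (p := true) (p' := false) (q := false) hx hy
  · exact absurd rfl hij
  · exact cross_11_diff hπ hch (p := true) (p' := false) (q := false) (q' := true) hx hy
  · exact cross_11_diff hπ hch (p := true) (p' := true) (q := false) (q' := true) hx hy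
  · exact cross_12_diff hπ h2 hch (p := true) (q := false) (q' := true) hx hy
  · exact cross_12_diff hπ h2 hch (p := false) (q := true) (q' := false) hx hy
  · exact cross_11_diff hπ hch (p := false) (p' := false) (q := true) (q' := false) hx hy
  · exact cross_11_diff hπ hch (p := false) (p' := true) (q := true) (q' := false) hx hy
  · exact absurd rfl hij
  · exact cross_11_same hch (p := false) (p' := true) (q := true) hx hy
  · exact cross_12_same hπ h2 hch (p := false) (q := true) hx hy
  · exact cross_12_diff hπ h2 hch (p := true) (q := true) (q' := false) hx hy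
  · exact cross_11_diff hπ hch (p := true) (p' := false) (q := true) (q' := false) hx hy
  · exact cross_11_diff hπ hch (p := true) (p' := true) (q := true) (q' := false) hx hy
  · exact cross_11_same hch (p := true) (p' := false) (q := true) hx hy
  · exact absurd rfl hij
  · exact cross_12_same hπ h2 hch (p := true) (q := true) hx hy
  · exact (cross_22 hπ h2 hch hy hx).symm
  · exact (cross_12_diff hπ h2 hch (p := false) (q := false) (q' := true) hy hx).symm
  · exact (cross_12_diff hπ h2 hch (p := true) (q := false) (q' := true) hy hx).symm
  · exact (cross_12_same hπ h2 hch (p := false) (q := true) hy hx).symm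
  · exact (cross_12_same hπ h2 hch (p := true) (q := true) hy hx).symm
  · exact absurd rfl hij

end Pool.Agent.Lib.MP_fa0f6c_al.Cx
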