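import Pool.Agent.Lib.MP_fa0f6c_al.Cx.TDefs
import Pool.Agent.Lib.MP_fa0f6c_al.Cx.F13

set_option autoImplicit false

namespace Pool.Agent.Lib.MP_fa0f6c_al.Cx

variable {o : Type} [CommRing o] {π : o} {d : Fin 6 → ℕ}

private theorem T08_self (i : Fin 6) (s : Fin (d i)) :
    blk (XT π d) i s i s = X0 (rhoT i) (xv π (clT i)) := by
  ext a c
  simp [blk, XT, X0]

private theorem T08_ne (i : Fin 6) (s : Fin (d i)) (j : Fin 6) (t : Fin (d j))
    (h : ¬ (i = j ∧ (s : ℕ) = t)) : blk (XT π d) i s j t = 0 := by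
  ext a c
  simp only [blk, XT]
  rw [if_neg h]
  rfl

/-- HINT: `blk_mul` and `Finset.sum_eq_single i`, `Finset.sum_eq_single s`; or directly entrywise:
`Matrix.mul_apply`, `Fintype.sum_sigma`, `Fintype.sum_prod_type`. -/
theorem XT_mul_blk (f : Matrix (Idx d rhoT) (Idx d rhoT) o) (i : Fin 6) (s : Fin (d i)) (j : Fin 6)
    (t : Fin (d j)) :
    blk (XT π d * f) i s j t = X0 (rhoT i) (xv π (clT i)) * blk f i s j t := by
  rw [blk_mul, Finset.sum_eq_single i, Finset.sum_eq_single s, T08_self]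
  · intro u _ hu
    rw [T08_ne _ _ _ _ (fun h => hu (Fin.ext h.2).symm), Matrix.zero_mul]
  · intro h
    exact absurd (Finset.mem_univ _) h
  · intro k _ hk
    apply Finset.sum_eq_zero
    intro u _
    rw [T08_ne _ _ _ _ (fun h => hk h.1.symm), Matrix.zero_mul]
  · intro h
    exact absurd (Finset.mem_univ _) h

theorem blk_mul_XT (f : Matrix (Idx d rhoT) (Idx d rhoT) o) (i : Fin 6) (s : Fin (d i)) (j : Fin 6)
    (t : Fin (d j)) :
    blk (f * XT π d) i s j t = blk f i s j t * X0 (rhoT j) (xv π (clT j)) := by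
  rw [blk_mul, Finset.sum_eq_single j, Finset.sum_eq_single t, T08_self]
  · intro u _ hu
    rw [T08_ne _ _ _ _ (fun h => hu (Fin.ext h.2)), Matrix.mul_zero]
  · intro h
    exact absurd (Finset.mem_univ _) h
  · intro k _ hk
    apply Finset.sum_eq_zero
    intro u _
    rw [T08_ne _ _ _ _ (fun h => hk h.1), Matrix.mul_zero]
  · intro h
    exact absurd (Finset.mem_univ _) h

theorem trace_blk (f : Matrix (Idx d rhoT) (Idx d rhoT) o) :
    f.trace = ∑ i, ∑ s, (blk f i s i s).trace := by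
  simp only [Matrix.trace, Matrix.diag_apply]
  rw [Fintype.sum_sigma]
  refine Finset.sum_congr rfl fun i _ => ?_
  rw [Fintype.sum_prod_type]
  rfl

/-- HINT: the `g` of the definition of `E0` for all blocks gives the `y` of `IsFirst.E` (choice), and conversely take blocks. -/
theorem mem_first {ψ : AddChar o ℂ} {s : Stage (Matrix (Idx d rhoT) (Idx d rhoT) o)}
    (hs : IsFirst π 8 ψ (XT π d) s) (f : Matrix (Idx d rhoT) (Idx d rhoT) o) :
    f ∈ s.E ↔ ∀ i u j t, blk f i u j t ∈ E0 π (rhoT i) (clT i) (rhoT j) (clT j) := by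
  rw [hs.E]
  constructor
  · rintro ⟨y, hy⟩ i u j t
    refine ⟨blk y i u j t, ?_⟩
    rw [← XT_mul_blk, ← blk_mul_XT]
    ext a c
    exact congrFun (congrFun hy ⟨i, (u, a)⟩) ⟨j, (t, c)⟩
  · intro h
    choose g hg using h
    refine ⟨fun u v => g u.1 u.2.1 v.1 v.2.1 u.2.2 v.2.2, ?_⟩
    ext ⟨i, u, a⟩ ⟨j, t, c⟩
    have h1 := hg i u j t
    rw [← XT_mul_blk, ← blk_mul_XT] at h1
    exact congrFun (congrFun h1 a) c

end Pool.Agent.Lib.MP_fa0f6c_al.Cx
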