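import Pool.Agent.Lib.MP_fa0f6c_al.Cx.T06
import Pool.Agent.Lib.MP_fa0f6c_al.Cx.T08
import Pool.Agent.Lib.MP_fa0f6c_al.Cx.F08
import Pool.Agent.Lib.MP_fa0f6c_al.Cx.F11

set_option autoImplicit false

namespace Pool.Agent.Lib.MP_fa0f6c_al.Cx

variable {o : Type} [CommRing o] [IsLocalRing o] [Finite o] {π : o} {d : Fin 6 → ℕ}

private theorem T10_ext {o : Type} {b : ℕ} {ρ n : Fin b → ℕ} {x y : Matrix (Idx n ρ) (Idx n ρ) o}
    (h : ∀ i s j t, blk x i s j t = blk y i s j t) : x = y := by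
  ext ⟨i, s, a⟩ ⟨j, t, c⟩
  exact congrFun (congrFun (h i s j t) a) c

private theorem T10_blk_smul {o : Type} [CommRing o] {b : ℕ} {ρ n : Fin b → ℕ} (c : o)
    (x : Matrix (Idx n ρ) (Idx n ρ) o) (i : Fin b) (s : Fin (n i)) (j : Fin b) (t : Fin (n j)) :
    blk (c • x) i s j t = c • blk x i s j t := rfl

private theorem T10_place_smul {o : Type} [CommRing o] {b : ℕ} {ρ n : Fin b → ℕ} (c : o)
    (i : Fin b) (s : Fin (n i)) (j : Fin b) (t : Fin (n j))
    (x : Matrix (Fin (ρ i)) (Fin (ρ j)) o) :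
    c • (place i s j t x : Matrix (Idx n ρ) (Idx n ρ) o) = place i s j t (c • x) := by
  apply T10_ext
  intro p a q e
  rw [T10_blk_smul]
  by_cases h : p = i ∧ q = j ∧ (a : ℕ) = s ∧ (e : ℕ) = t
  · obtain ⟨rfl, rfl, ha, he⟩ := h
    obtain rfl : a = s := Fin.ext ha
    obtain rfl : e = t := Fin.ext he
    rw [blk_place_self, blk_place_self]
  · rw [blk_place_ne _ _ _ _ _ _ _ _ _ h, blk_place_ne _ _ _ _ _ _ _ _ _ h, smul_zero]

private theorem T10_place_mul_ne {o : Type} [CommRing o] {b : ℕ} {ρ n : Fin b → ℕ} (i : Fin b)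
    (s : Fin (n i)) (j : Fin b)
    (t : Fin (n j)) (j' : Fin b) (t' : Fin (n j')) (k : Fin b) (u : Fin (n k))
    (x : Matrix (Fin (ρ i)) (Fin (ρ j)) o) (y : Matrix (Fin (ρ j')) (Fin (ρ k)) o)
    (h : ¬ (j = j' ∧ (t : ℕ) = t')) :
    (place i s j t x : Matrix (Idx n ρ) (Idx n ρ) o) * place j' t' k u y = 0 := by
  apply T10_ext
  intro p a q c
  have h0 : blk (0 : Matrix (Idx n ρ) (Idx n ρ) o) p a q c = 0 := rfl
  rw [h0, blk_mul]
  apply Finset.sum_eq_zero
  intro l _
  apply Finset.sum_eq_zero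
  intro v _
  by_cases h1 : p = i ∧ l = j ∧ (a : ℕ) = s ∧ (v : ℕ) = t
  · by_cases h2 : l = j' ∧ q = k ∧ (v : ℕ) = t' ∧ (c : ℕ) = u
    · exact absurd ⟨h1.2.1.symm.trans h2.1, h1.2.2.2.symm.trans h2.2.2.1⟩ h
    · rw [blk_place_ne _ _ _ _ y _ _ _ _ h2, Matrix.mul_zero]
  · rw [blk_place_ne _ _ _ _ x _ _ _ _ h1, Matrix.zero_mul]

private theorem T10_mem {o : Type} [CommRing o] {π : o} {m n : ℕ} {q q' : Bool} {w : ℕ}
    (hw : w ≤ 8) (g : Matrix (Fin m) (Fin n) o) : π ^ 8 • g ∈ MT π w m q n q' := by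
  refine ⟨E0_pow8 g, ?_⟩
  rw [mainE_smul]
  exact Dvd.dvd.mul_right (pow_dvd_pow π hw) _

/-- The glued character extends the one of the first stage. PROOF: both sides at `x = π ^ 8 • y` are multiplicative in `y`
(`x x' = 0` for two such elements, `IsHom.mul`; right side `IsFirst.m`, `AddChar.map_add_eq_mul`). `y` is the sum of the
`place i u j t (blk y i u j t)` (`sum_place`), so it is enough to treat one summand (induction over the finite sums):
`(i, u) ≠ (j, t)`: left side `1` by `m_offdiag'` with `ε = place i u i u 1`, right side: `X * place ..` has trace `0`;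
`(i, u) = (j, t)`: left side `muT i (π ^ 8 • z)` (`hres`), right side `ψ (π ^ 8 tr (X0 z))`, use `muL_pow8`.
All elements `π ^ 8 • y` are in `S.rad d` (`E0_pow8`). -/
theorem glued_first (h : IsChain o π 16) (h2 : (2 : o) = 0) (S : Corners o rhoT)
    (hC : ∀ i j, S.C i j = MB π wE i j) (hJ : ∀ i, S.J i = JB π i) {ψ : AddChar o ℂ}
    {ξ η : o → ℂ} (hch : IsChars π ψ ξ η) {m : Matrix (Idx d rhoT) (Idx d rhoT) o → ℂ}
    (hm : IsHom (S.rad d) m) (hsym : IsSym (S.ring d) (S.rad d) m)
    (hres : ∀ i (u : Fin (d i)), ∀ x ∈ S.J i, m (place i u i u x) = muT ψ ξ η i x)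
    {s : Stage (Matrix (Idx d rhoT) (Idx d rhoT) o)} (hs : IsFirst π 8 ψ (XT π d) s) :
    ∀ x ∈ s.I, m x = s.m x := by
  classical
  have hπ16 : π ^ 16 = 0 := h.pow
  have hnil := corners_nilIdeal S d
  have hrad : ∀ y : Matrix (Idx d rhoT) (Idx d rhoT) o, π ^ 8 • y ∈ S.rad d := by
    intro y
    refine ⟨fun i s j t => ?_, fun i s t => ?_⟩
    · rw [T10_blk_smul, hC]
      exact T10_mem (by have := wE_le i j; omega) _
    · rw [T10_blk_smul, hJ]
      exact T10_mem (by norm_num) _
  let P : Matrix (Idx d rhoT) (Idx d rhoT) o → Prop := fun y =>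
    m (π ^ 8 • y) = ψ (π ^ 8 * (XT π d * y).trace)
  have hP0 : P 0 := by
    show m (π ^ 8 • 0) = ψ (π ^ 8 * (XT π d * 0).trace)
    rw [smul_zero, hm.zero, Matrix.mul_zero, Matrix.trace_zero, mul_zero,
      AddChar.map_zero_eq_one]
  have hPadd : ∀ y y', P y → P y' → P (y + y') := by
    intro y y' hy hy'
    show m (π ^ 8 • (y + y')) = ψ (π ^ 8 * (XT π d * (y + y')).trace)
    have h1 : π ^ 8 • (y + y') = π ^ 8 • y + π ^ 8 • y' + (π ^ 8 • y) * (π ^ 8 • y') := by
      rw [Matrix.smul_mul, Matrix.mul_smul, smul_smul, ← pow_add, hπ16, zero_smul, add_zero,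
        smul_add]
    have hy1 : m (π ^ 8 • y) = ψ (π ^ 8 * (XT π d * y).trace) := hy
    have hy2 : m (π ^ 8 • y') = ψ (π ^ 8 * (XT π d * y').trace) := hy'
    rw [h1, hm.mul _ (hrad y) _ (hrad y'), hy1, hy2, ← AddChar.map_add_eq_mul, Matrix.mul_add,
      Matrix.trace_add, mul_add]
  have hPsum : ∀ {κ : Type} (T : Finset κ) (f : κ → Matrix (Idx d rhoT) (Idx d rhoT) o),
      (∀ k ∈ T, P (f k)) → P (∑ k ∈ T, f k) := by
    intro κ T f hf
    induction T using Finset.induction_on with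
    | empty => rw [Finset.sum_empty]; exact hP0
    | insert a T ha ih =>
      rw [Finset.sum_insert ha]
      exact hPadd _ _ (hf a (Finset.mem_insert_self a T))
        (ih fun k hk => hf k (Finset.mem_insert_of_mem hk))
  have hPplace : ∀ (i : Fin 6) (u : Fin (d i)) (j : Fin 6) (t : Fin (d j))
      (z : Matrix (Fin (rhoT i)) (Fin (rhoT j)) o), P (place i u j t z) := by
    intro i u j t z
    by_cases hd : i = j ∧ (u : ℕ) = t
    · obtain ⟨rfl, hut⟩ := hd
      obtain rfl : u = t := Fin.ext hut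
      show m (π ^ 8 • place i u i u z) = ψ (π ^ 8 * (XT π d * place i u i u z).trace)
      have hzJ : π ^ 8 • z ∈ S.J i := by
        rw [hJ]
        exact T10_mem (by norm_num) _
      have htr : (XT π d * place i u i u z).trace = (X0 (rhoT i) (xv π (clT i)) * z).trace := by
        rw [trace_blk, Finset.sum_eq_single i, Finset.sum_eq_single u]
        · rw [XT_mul_blk, blk_place_self]
        · intro v _ hv
          rw [XT_mul_blk, blk_place_ne, Matrix.mul_zero, Matrix.trace_zero]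
          rintro ⟨_, _, h3, _⟩
          exact hv (Fin.ext h3)
        · intro h3; exact absurd (Finset.mem_univ _) h3
        · intro k _ hk
          apply Finset.sum_eq_zero
          intro v _
          rw [XT_mul_blk, blk_place_ne, Matrix.mul_zero, Matrix.trace_zero]
          rintro ⟨h3, _⟩
          exact hk h3
        · intro h3; exact absurd (Finset.mem_univ _) h3
      rw [T10_place_smul, hres i u _ hzJ, htr]
      exact muL_pow8 hπ16 hch (rhoT_cases i) z
    · show m (π ^ 8 • place i u j t z) = ψ (π ^ 8 * (XT π d * place i u j t z).trace)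
      have htr : (XT π d * place i u j t z).trace = 0 := by
        rw [trace_blk]
        apply Finset.sum_eq_zero
        intro k _
        apply Finset.sum_eq_zero
        intro v _
        rw [XT_mul_blk, blk_place_ne, Matrix.mul_zero, Matrix.trace_zero]
        rintro ⟨h3, h4, h5, h6⟩
        exact hd ⟨h3.symm.trans h4, h5.symm.trans h6⟩
      have hεE : (place i u i u 1 : Matrix (Idx d rhoT) (Idx d rhoT) o) ∈ S.ring d := by
        intro p a q c
        by_cases h3 : p = i ∧ q = i ∧ (a : ℕ) = u ∧ (c : ℕ) = u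
        · obtain ⟨rfl, rfl, ha, hc⟩ := h3
          obtain rfl : a = u := Fin.ext ha
          obtain rfl : c = a := Fin.ext hc
          rw [blk_place_self]
          exact S.one_mem _
        · rw [blk_place_ne _ _ _ _ _ _ _ _ _ h3]
          exact (S.C p q).zero_mem
      have e1 : (place i u i u 1 : Matrix (Idx d rhoT) (Idx d rhoT) o) *
          (π ^ 8 • place i u j t z) = π ^ 8 • place i u j t z := by
        rw [T10_place_smul, place_mul, Matrix.one_mul]
      have e2 : (π ^ 8 • place i u j t z : Matrix (Idx d rhoT) (Idx d rhoT) o) *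
          place i u i u 1 = 0 := by
        rw [T10_place_smul]
        apply T10_place_mul_ne
        rintro ⟨h3, h4⟩
        exact hd ⟨h3.symm, h4.symm⟩
      rw [m_offdiag' hnil hm hsym hεE (hrad _) e1 e2, htr, mul_zero, AddChar.map_zero_eq_one]
  intro x hx
  obtain ⟨y, rfl⟩ := (hs.I x).1 hx
  rw [hs.m]
  have hPy : P y := by
    rw [sum_place y]
    exact hPsum _ _ fun i _ => hPsum _ _ fun s _ => hPsum _ _ fun j _ => hPsum _ _ fun t _ =>
      hPplace i s j t _
  exact hPy

end Pool.Agent.Lib.MP_fa0f6c_al.Cx
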