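import Pool.Agent.Lib.MP_fa0f6c_al.Cx.T02
import Pool.Agent.Lib.MP_fa0f6c_al.Cx.F02

set_option autoImplicit false

namespace Pool.Agent.Lib.MP_fa0f6c_al.Cx

variable {o : Type} [CommRing o] [IsLocalRing o] [Finite o] {π : o}

section aux

private theorem t11_muL_one {o : Type} [CommRing o] {ψ : AddChar o ℂ} {ξ η : o → ℂ} (p q : Bool)
    (x : Matrix (Fin 1) (Fin 1) o) :
    muL ψ ξ η p q x = (bif p then ξ (x 0 0) else 1) * (bif q then η (x 0 0) else 1) := by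
  have h1 : ent x 1 0 = 0 := by simp [ent]
  have h2 : (1 + x).det - 1 = x 0 0 := by
    rw [Matrix.det_fin_one, Matrix.add_apply, Matrix.one_apply_eq]
    ring
  unfold muL
  rw [h1, h2, zero_mul, AddChar.map_zero_eq_one, one_mul]

private theorem t11_muL_two {o : Type} [CommRing o] {ψ : AddChar o ℂ} {ξ η : o → ℂ} (p q : Bool)
    (x : Matrix (Fin 2) (Fin 2) o) (T : o)
    (hT : x 0 0 + x 1 1 + x 0 0 * x 1 1 - x 0 1 * x 1 0 = T) :
    muL ψ ξ η p q x = ψ (x 1 0 * Ring.inverse (1 + x 0 0)) * (bif p then ξ T else 1) *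
      (bif q then η T else 1) := by
  have h1 : ent x 1 0 = x 1 0 := by simp [ent]
  have h1' : ent x 0 0 = x 0 0 := by simp [ent]
  have h2 : (1 + x).det - 1 = T := by
    rw [Matrix.det_fin_two, Matrix.add_apply, Matrix.add_apply, Matrix.add_apply,
      Matrix.add_apply, Matrix.one_apply_eq, Matrix.one_apply_eq,
      Matrix.one_apply_ne (by decide), Matrix.one_apply_ne (by decide), ← hT]
    ring
  unfold muL
  rw [h1, h1', h2]

private theorem t11_eta_ne {ψ : AddChar o ℂ} {ξ η : o → ℂ} (h : IsChain o π 16)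
    (hch : IsChars π ψ ξ η) {x : o} (hx : π ∣ x) : η x ≠ 0 := by
  obtain ⟨y, rfl⟩ := hx
  have hu : IsUnit (1 + π * y) := by
    rcases chain_isUnit h (1 + π * y) with hu | ⟨z, hz⟩
    · exact hu
    · exfalso
      have h1 : (1 : o) = π * (z - y) := by
        rw [mul_sub, ← hz]
        ring
      exact chain_nonunit h (z - y) (h1 ▸ isUnit_one)
  obtain ⟨u, hu⟩ := hu
  have h2 : (1 + π * y) * ((u⁻¹ : oˣ) : o) = 1 := by
    rw [← hu, Units.mul_inv]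
  have h3 : π * y + (-(π * (y * ((u⁻¹ : oˣ) : o)))) +
      π * y * (-(π * (y * ((u⁻¹ : oˣ) : o)))) = 0 := by
    linear_combination (-(π * y)) * h2
  have h4 := hch.eta_hom (π * y) (-(π * (y * ((u⁻¹ : oˣ) : o)))) (dvd_mul_right _ _)
    ((dvd_mul_right _ _).neg_right)
  rw [h3, hch.eta_zero] at h4
  intro h5
  rw [h5, zero_mul] at h4
  exact one_ne_zero h4

omit [IsLocalRing o] [Finite o] in
private theorem t11_xi {ψ : AddChar o ℂ} {ξ η : o → ℂ} (hch : IsChars π ψ ξ η) (p : Bool)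
    (y : o) : (bif p then ξ (π ^ 8 * y) else 1) = 1 := by
  cases p
  · rfl
  · exact hch.xi_eight y

private theorem t11_xv {o : Type} [CommRing o] {π : o} {q q' : Bool} (hq : q ≠ q') :
    xv π q + xv π q' = π ^ 6 := by
  cases q <;> cases q' <;> simp [xv] at hq ⊢

private theorem t11_two {o : Type} [CommRing o] (h2 : (2 : o) = 0) (x : o) : x + x = 0 := by
  rw [← two_mul, h2, zero_mul]

end aux

/-- PROOF: `f = (c)`. The `η`-factors on both sides agree (`f z = z f` for `1 × 1` matrices) and are nonzero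
(`eta_hom` and invertibility: or `η x * η x' = η 0 = 1` for `(1 + x)(1 + x') = 1`), so `ξ (c z) = 1` for all
`z ∈ π ^ 4 o`. If `π ^ 4` does not divide `c` then `c = π ^ k u`, `k ≤ 3`, `u` unit (`chain_elem`), `z = π ^ (7 - k) u⁻¹ y` gives
`ξ (π ^ 7 y) = 1` for all `y`, contradiction to `xi_seven`. -/
theorem stab_11_same (h : IsChain o π 16) (h2 : (2 : o) = 0) {ψ : AddChar o ℂ} {ξ η : o → ℂ}
    (hch : IsChars π ψ ξ η) {p p' q : Bool} (hp : p ≠ p') {f : Matrix (Fin 1) (Fin 1) o}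
    (hf : ∀ z ∈ MT π 4 1 q 1 q, muL ψ ξ η p q (f * z) = muL ψ ξ η p' q (z * f)) :
    π ^ 4 ∣ mainE f := by
  rw [mainE_11]
  by_contra hcon
  have hc0 : f 0 0 ≠ 0 := by
    intro h0
    rw [h0] at hcon
    exact hcon (dvd_zero _)
  obtain ⟨k, hk, u, hu⟩ := chain_elem h (f 0 0) hc0
  have hk3 : k ≤ 3 := by
    by_contra hk4
    apply hcon
    rw [hu]
    exact Dvd.dvd.mul_left (pow_dvd_pow π (by omega)) _
  obtain ⟨y, hy⟩ := hch.xi_seven
  apply hy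
  obtain ⟨z, hz⟩ : ∃ z : Matrix (Fin 1) (Fin 1) o,
      z 0 0 = π ^ (7 - k) * (((u⁻¹ : oˣ) : o) * y) := ⟨fun _ _ => _, rfl⟩
  have hzM : z ∈ MT π 4 1 q 1 q := by
    rw [mem_MT, mem_E0_11 h2, mainE_11, hz, t11_two h2, zero_mul]
    exact ⟨dvd_zero _, Dvd.dvd.mul_right (pow_dvd_pow π (by omega)) _⟩
  have hcz : f 0 0 * z 0 0 = π ^ 7 * y := by
    have h3 : π ^ 7 = π ^ k * π ^ (7 - k) := by
      rw [← pow_add]
      congr 1
      omega
    rw [hu, hz, h3]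
    calc (u : o) * π ^ k * (π ^ (7 - k) * (((u⁻¹ : oˣ) : o) * y))
        = ((u : o) * ((u⁻¹ : oˣ) : o)) * (π ^ k * π ^ (7 - k) * y) := by ring
      _ = _ := by rw [Units.mul_inv, one_mul]
  have h4 := hf z hzM
  rw [t11_muL_one, t11_muL_one, Matrix.mul_apply, Matrix.mul_apply, Fin.sum_univ_one,
    Fin.sum_univ_one, mul_comm (z 0 0) (f 0 0), hcz] at h4
  have h5 : (bif q then η (π ^ 7 * y) else 1) ≠ (0 : ℂ) := by
    cases q
    · exact one_ne_zero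
    · exact t11_eta_ne h hch (Dvd.dvd.mul_right (dvd_pow_self π (by norm_num)) _)
  have h6 := mul_right_cancel₀ h5 h4
  cases p <;> cases p'
  · exact absurd rfl hp
  · exact h6.symm
  · exact h6
  · exact absurd rfl hp

/-- PROOF: `f = (c)`, `π ^ 2 ∣ c` by `f ∈ E0` (`π ^ 8 ∣ π ^ 6 c`). If `π ^ 5` does not divide `c` then `c = π ^ k u`, `2 ≤ k ≤ 4`, put
`z = π ^ (9 - k) u⁻¹ y`, `9 - k ≥ 5`: `c z = π ^ 9 y`, `ξ (c z) = 1`, exactly one side has the factor `η (π ^ 9 y) = ψ (π ^ 15 y)`,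
so `ψ (π ^ 15 y) = 1` for all `y`: contradiction to `hψ`. (`z ∈ E0`: `π ^ 8 ∣ π ^ 6 z`.) -/
theorem stab_11_diff (h : IsChain o π 16) (h2 : (2 : o) = 0) {ψ : AddChar o ℂ}
    (hψ : IsPrim π 16 ψ) {ξ η : o → ℂ} (hch : IsChars π ψ ξ η) {p p' q q' : Bool} (hq : q ≠ q')
    {f : Matrix (Fin 1) (Fin 1) o} (hf0 : f ∈ E0 π 1 q 1 q')
    (hf : ∀ z ∈ MT π 5 1 q' 1 q, muL ψ ξ η p q (f * z) = muL ψ ξ η p' q' (z * f)) :
    π ^ 5 ∣ mainE f := by
  rw [mainE_11]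
  rw [mem_E0_11 h2, t11_xv hq] at hf0
  by_contra hcon
  have hc0 : f 0 0 ≠ 0 := by
    intro h0
    rw [h0] at hcon
    exact hcon (dvd_zero _)
  obtain ⟨k, hk, u, hu⟩ := chain_elem h (f 0 0) hc0
  have hk4 : k ≤ 4 := by
    by_contra hk5
    apply hcon
    rw [hu]
    exact Dvd.dvd.mul_left (pow_dvd_pow π (by omega)) _
  have key : ∀ y, ψ (π ^ 15 * y) = 1 := by
    intro y
    obtain ⟨z, hz⟩ : ∃ z : Matrix (Fin 1) (Fin 1) o,
        z 0 0 = π ^ (9 - k) * (((u⁻¹ : oˣ) : o) * y) := ⟨fun _ _ => _, rfl⟩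
    have hzM : z ∈ MT π 5 1 q' 1 q := by
      rw [mem_MT, mem_E0_11 h2, mainE_11, hz, t11_xv (Ne.symm hq)]
      refine ⟨?_, Dvd.dvd.mul_right (pow_dvd_pow π (by omega)) _⟩
      rw [← mul_assoc, ← pow_add]
      exact Dvd.dvd.mul_right (pow_dvd_pow π (by omega)) _
    have hcz : f 0 0 * z 0 0 = π ^ 8 * (π * y) := by
      have h3 : π ^ 8 * π = π ^ k * π ^ (9 - k) := by
        rw [← pow_add, ← pow_succ]
        congr 1
        omega
      rw [hu, hz, ← mul_assoc (π ^ 8) π y, h3]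
      calc (u : o) * π ^ k * (π ^ (9 - k) * (((u⁻¹ : oˣ) : o) * y))
          = ((u : o) * ((u⁻¹ : oˣ) : o)) * (π ^ k * π ^ (9 - k) * y) := by ring
        _ = _ := by rw [Units.mul_inv, one_mul]
    have h4 := hf z hzM
    have h5 : π ^ 14 * (π * y) = π ^ 15 * y := by ring
    rw [t11_muL_one, t11_muL_one, Matrix.mul_apply, Matrix.mul_apply, Fin.sum_univ_one,
      Fin.sum_univ_one, mul_comm (z 0 0) (f 0 0), hcz, t11_xi hch, t11_xi hch, one_mul, one_mul,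
      hch.eta_eight, h5] at h4
    cases q <;> cases q'
    · exact absurd rfl hq
    · exact h4.symm
    · exact h4
    · exact absurd rfl hq
  obtain ⟨a, ha⟩ := hψ.ne
  exact ha (key a)

/-- PROOF (`a = π ^ 6`): `f = (f₁, f₂)`, `f₁ = a f₂ + π ^ 8 g`. Take `z = (π ^ 2 s, 0)ᵀ` (in `MT π 2`: `π ^ 8 ∣ 0 + a π ^ 2 s`).
`f z = π ^ 2 s f₁ = π ^ 8 (s f₂ + π ^ 2 s g)`; `z f` has rows `(π ^ 2 s f₁, π ^ 2 s f₂)` and `0`, so its `ψ`-factor is `1` and
`det (1 + z f) - 1 = f z`. `ξ (f z) = 1`, exactly one side has the factor `η (f z) = ψ (π ^ 14 (s f₂ + π ^ 2 s g)) = ψ (π ^ 14 s f₂)`.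
So `ψ (π ^ 14 (f₂ s)) = 1` for all `s`, `prim_nondeg_pow` gives `π ^ 2 ∣ f₂`. -/
theorem stab_12 (h : IsChain o π 16) (h2 : (2 : o) = 0) {ψ : AddChar o ℂ}
    (hψ : IsPrim π 16 ψ) {ξ η : o → ℂ} (hch : IsChars π ψ ξ η) {p q q' : Bool} (hq : q ≠ q')
    {f : Matrix (Fin 1) (Fin 2) o} (hf0 : f ∈ E0 π 1 q 2 q')
    (hf : ∀ z ∈ MT π 2 2 q' 1 q, muL ψ ξ η p q (f * z) = muL ψ ξ η false q' (z * f)) :
    π ^ 2 ∣ mainE f := by
  rw [mainE_12]
  rw [mem_E0_12 h2, t11_xv hq] at hf0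
  obtain ⟨g, hg⟩ := hf0
  have hf1 : f 0 0 = π ^ 6 * f 0 1 + π ^ 8 * g := by
    have h3 := t11_two h2 (π ^ 6 * f 0 1)
    linear_combination hg - h3
  have key : ∀ s, ψ (π ^ 14 * (f 0 1 * s)) = 1 := by
    intro s
    obtain ⟨z, hz0, hz1⟩ : ∃ z : Matrix (Fin 2) (Fin 1) o, z 0 0 = π ^ 2 * s ∧ z 1 0 = 0 :=
      ⟨!![π ^ 2 * s; 0], rfl, rfl⟩
    have hzM : z ∈ MT π 2 2 q' 1 q := by
      rw [mem_MT, mem_E0_21 h2, mainE_21, hz0, hz1, t11_xv (Ne.symm hq)]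
      refine ⟨⟨s, by ring⟩, dvd_mul_right _ _⟩
    have h4 := hf z hzM
    have hfz : (f * z) 0 0 = π ^ 8 * (s * f 0 1 + π ^ 2 * (s * g)) := by
      rw [Matrix.mul_apply, Fin.sum_univ_two, hz0, hz1, hf1]
      ring
    have e00 : (z * f) 0 0 = π ^ 8 * (s * f 0 1 + π ^ 2 * (s * g)) := by
      rw [Matrix.mul_apply, Fin.sum_univ_one, hz0, hf1]
      ring
    have e10 : (z * f) 1 0 = 0 := by
      rw [Matrix.mul_apply, Fin.sum_univ_one, hz1, zero_mul]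
    have e11 : (z * f) 1 1 = 0 := by
      rw [Matrix.mul_apply, Fin.sum_univ_one, hz1, zero_mul]
    have h5 : π ^ 14 * (s * f 0 1 + π ^ 2 * (s * g)) = π ^ 14 * (f 0 1 * s) := by
      have := h.pow
      linear_combination (s * g) * this
    rw [t11_muL_one, hfz, t11_muL_two false q' (z * f) (π ^ 8 * (s * f 0 1 + π ^ 2 * (s * g)))
      (by rw [e00, e10, e11]; ring), e10, zero_mul, AddChar.map_zero_eq_one, t11_xi hch,
      t11_xi hch, one_mul, one_mul, one_mul, hch.eta_eight, h5] at h4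
    cases q <;> cases q'
    · exact absurd rfl hq
    · exact h4.symm
    · exact h4
    · exact absurd rfl hq
  obtain ⟨w, hw⟩ := prim_nondeg_pow h hψ 14 (by norm_num) (f 0 1) key
  exact ⟨w, hw⟩

/-- PROOF: `f = (f₁, f₂)ᵀ`, `f₂ = a f₁ + π ^ 8 g`, `z = (0, π ^ 2 s)`: `z f = π ^ 2 s f₂ = π ^ 8 (s f₁ + π ^ 2 s g)`, `f z` has first column `0`,
second column `π ^ 2 s (f₁, f₂)ᵀ`. As in `stab_12`: `ψ (π ^ 14 (f₁ s)) = 1` for all `s`. -/
theorem stab_21 (h : IsChain o π 16) (h2 : (2 : o) = 0) {ψ : AddChar o ℂ}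
    (hψ : IsPrim π 16 ψ) {ξ η : o → ℂ} (hch : IsChars π ψ ξ η) {p q q' : Bool} (hq : q ≠ q')
    {f : Matrix (Fin 2) (Fin 1) o} (hf0 : f ∈ E0 π 2 q 1 q')
    (hf : ∀ z ∈ MT π 2 1 q' 2 q, muL ψ ξ η false q (f * z) = muL ψ ξ η p q' (z * f)) :
    π ^ 2 ∣ mainE f := by
  rw [mainE_21]
  rw [mem_E0_21 h2, t11_xv hq] at hf0
  obtain ⟨g, hg⟩ := hf0
  have hf1 : f 1 0 = π ^ 6 * f 0 0 + π ^ 8 * g := by
    have h3 := t11_two h2 (π ^ 6 * f 0 0)
    linear_combination hg - h3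
  have key : ∀ s, ψ (π ^ 14 * (f 0 0 * s)) = 1 := by
    intro s
    obtain ⟨z, hz0, hz1⟩ : ∃ z : Matrix (Fin 1) (Fin 2) o, z 0 0 = 0 ∧ z 0 1 = π ^ 2 * s :=
      ⟨!![0, π ^ 2 * s], rfl, rfl⟩
    have hzM : z ∈ MT π 2 1 q' 2 q := by
      rw [mem_MT, mem_E0_12 h2, mainE_12, hz0, hz1, t11_xv (Ne.symm hq)]
      refine ⟨⟨s, by ring⟩, dvd_mul_right _ _⟩
    have h4 := hf z hzM
    have hfz : (z * f) 0 0 = π ^ 8 * (s * f 0 0 + π ^ 2 * (s * g)) := by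
      rw [Matrix.mul_apply, Fin.sum_univ_two, hz0, hz1, hf1]
      ring
    have e00 : (f * z) 0 0 = 0 := by
      rw [Matrix.mul_apply, Fin.sum_univ_one, hz0, mul_zero]
    have e10 : (f * z) 1 0 = 0 := by
      rw [Matrix.mul_apply, Fin.sum_univ_one, hz0, mul_zero]
    have e11 : (f * z) 1 1 = π ^ 8 * (s * f 0 0 + π ^ 2 * (s * g)) := by
      rw [Matrix.mul_apply, Fin.sum_univ_one, hz1, hf1]
      ring
    have h5 : π ^ 14 * (s * f 0 0 + π ^ 2 * (s * g)) = π ^ 14 * (f 0 0 * s) := by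
      have := h.pow
      linear_combination (s * g) * this
    rw [t11_muL_one, hfz, t11_muL_two false q (f * z) (π ^ 8 * (s * f 0 0 + π ^ 2 * (s * g)))
      (by rw [e00, e10, e11]; ring), e10, zero_mul, AddChar.map_zero_eq_one, t11_xi hch,
      t11_xi hch, one_mul, one_mul, one_mul, hch.eta_eight, h5] at h4
    cases q <;> cases q'
    · exact absurd rfl hq
    · exact h4.symm
    · exact h4
    · exact absurd rfl hq
  obtain ⟨w, hw⟩ := prim_nondeg_pow h hψ 14 (by norm_num) (f 0 0) key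
  exact ⟨w, hw⟩

/-- PROOF (`a = π ^ 6`): `f₂₁ = a f₁₁ + π ^ 8 g`, `f₂₂ = f₁₁ + a f₁₂ + π ^ 8 e` (char 2). Take `z = [[0, s], [0, a s]]`
(in `MT π 4`: main entry `0`, `z₂₁ = 0`, `z₂₂ = a z₁₂`), `det z = 0`.
`f z = [[0, s (f₁₁ + a f₁₂)], [0, s (f₂₁ + a f₂₂)]]`: `ψ`-factor `1`, `det (1 + f z) - 1 = s (f₂₁ + a f₂₂) =: T`;
`T = s (2 a f₁₁ + π ^ 8 g + a ^ 2 f₁₂ + a π ^ 8 e) = π ^ 8 s (g + π ^ 4 f₁₂ + π ^ 6 e)`, `η T = ψ (π ^ 14 s g)`.
`z f = [[s f₂₁, s f₂₂], [a s f₂₁, a s f₂₂]]`: `det (1 + z f) - 1 = T` too, `ψ`-factor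
`ψ (a s f₂₁ / (1 + s f₂₁)) = ψ (a s f₂₁)` (`a f₂₁ ^ 2 ∈ π ^ 18 o = 0`) `= ψ (π ^ 12 s f₁₁ + π ^ 14 s g)`.
The hypothesis (exactly one side has the factor `η`): `ψ (π ^ 12 (f₁₁ s)) = 1` in both cases (char 2). `prim_nondeg_pow`. -/
theorem stab_22 (h : IsChain o π 16) (h2 : (2 : o) = 0) {ψ : AddChar o ℂ}
    (hψ : IsPrim π 16 ψ) {ξ η : o → ℂ} (hch : IsChars π ψ ξ η) {q q' : Bool} (hq : q ≠ q')
    {f : Matrix (Fin 2) (Fin 2) o} (hf0 : f ∈ E0 π 2 q 2 q')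
    (hf : ∀ z ∈ MT π 4 2 q' 2 q, muL ψ ξ η false q (f * z) = muL ψ ξ η false q' (z * f)) :
    π ^ 4 ∣ mainE f := by
  rw [mainE_22]
  rw [mem_E0_22 h2, t11_xv hq] at hf0
  obtain ⟨⟨g, hg⟩, ⟨e, he⟩⟩ := hf0
  have hf21 : f 1 0 = π ^ 6 * f 0 0 + π ^ 8 * g := by
    have h3 := t11_two h2 (π ^ 6 * f 0 0)
    linear_combination hg - h3
  have hf22 : f 1 1 = f 0 0 + π ^ 6 * f 0 1 + π ^ 8 * e := by
    have h3 := t11_two h2 (f 0 0 + π ^ 6 * f 0 1)
    linear_combination he - h3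
  have hπ := h.pow
  have key : ∀ s, ψ (π ^ 12 * (f 0 0 * s)) = 1 := by
    intro s
    obtain ⟨z, hz00, hz01, hz10, hz11⟩ : ∃ z : Matrix (Fin 2) (Fin 2) o, z 0 0 = 0 ∧ z 0 1 = s ∧
        z 1 0 = 0 ∧ z 1 1 = π ^ 6 * s := ⟨!![0, s; 0, π ^ 6 * s], rfl, rfl, rfl, rfl⟩
    have hzM : z ∈ MT π 4 2 q' 2 q := by
      rw [mem_MT, mem_E0_22 h2, mainE_22, hz00, hz01, hz10, hz11, t11_xv (Ne.symm hq)]
      refine ⟨⟨?_, ?_⟩, dvd_zero _⟩
      · rw [mul_zero, add_zero]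
        exact dvd_zero _
      · rw [add_zero, t11_two h2]
        exact dvd_zero _
    have h4 := hf z hzM
    obtain ⟨T, hT⟩ : ∃ T, T = π ^ 8 * (s * (g + π ^ 4 * f 0 1 + π ^ 6 * e)) := ⟨_, rfl⟩
    have hT2 : s * (f 1 0 + π ^ 6 * f 1 1) = T := by
      have h3 := t11_two h2 (π ^ 6 * f 0 0)
      rw [hT, hf21, hf22]
      linear_combination s * h3
    have a00 : (f * z) 0 0 = 0 := by
      rw [Matrix.mul_apply, Fin.sum_univ_two, hz00, hz10]
      ring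
    have a10 : (f * z) 1 0 = 0 := by
      rw [Matrix.mul_apply, Fin.sum_univ_two, hz00, hz10]
      ring
    have a11 : (f * z) 1 1 = T := by
      rw [Matrix.mul_apply, Fin.sum_univ_two, hz01, hz11, ← hT2]
      ring
    have b00 : (z * f) 0 0 = s * f 1 0 := by
      rw [Matrix.mul_apply, Fin.sum_univ_two, hz00, hz01]
      ring
    have b01 : (z * f) 0 1 = s * f 1 1 := by
      rw [Matrix.mul_apply, Fin.sum_univ_two, hz00, hz01]
      ring
    have b10 : (z * f) 1 0 = π ^ 6 * s * f 1 0 := by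
      rw [Matrix.mul_apply, Fin.sum_univ_two, hz10, hz11]
      ring
    have b11 : (z * f) 1 1 = π ^ 6 * s * f 1 1 := by
      rw [Matrix.mul_apply, Fin.sum_univ_two, hz10, hz11]
      ring
    rw [t11_muL_two false q (f * z) T (by rw [a00, a10, a11]; ring),
      t11_muL_two false q' (z * f) T (by rw [b00, b01, b10, b11, ← hT2]; ring), a10, zero_mul,
      AddChar.map_zero_eq_one, b10, b00, cond_false, one_mul, one_mul, mul_one] at h4
    -- the argument of `ψ`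
    have hu : IsUnit (1 + s * f 1 0) := by
      rcases chain_isUnit h (1 + s * f 1 0) with hu | ⟨w, hw⟩
      · exact hu
      · exfalso
        have h6 : (1 : o) = π * (w - s * (π ^ 5 * f 0 0 + π ^ 7 * g)) := by
          rw [mul_sub, ← hw, hf21]
          ring
        exact chain_nonunit h _ (h6 ▸ isUnit_one)
    have harg : π ^ 6 * s * f 1 0 * Ring.inverse (1 + s * f 1 0) =
        π ^ 12 * (f 0 0 * s) + π ^ 14 * (s * g) := by
      have h7 : (1 + s * f 1 0) * Ring.inverse (1 + s * f 1 0) = 1 := Ring.mul_inverse_cancel _ hu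
      have h8 : π ^ 6 * s * f 1 0 = (π ^ 12 * (f 0 0 * s) + π ^ 14 * (s * g)) *
          (1 + s * f 1 0) := by
        rw [hf21]
        linear_combination (-(s * s * f 0 0 * (π ^ 2 * f 0 0 + π ^ 4 * g) +
          s * s * g * (π ^ 4 * f 0 0 + π ^ 6 * g))) * hπ
      rw [h8, mul_assoc, h7, mul_one]
    have hη : η T = ψ (π ^ 14 * (s * g)) := by
      rw [hT, hch.eta_eight]
      congr 1
      linear_combination (s * (π ^ 2 * f 0 1 + π ^ 4 * e)) * hπ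
    rw [harg, hη, AddChar.map_add_eq_mul] at h4
    have hne : ψ (π ^ 14 * (s * g)) ≠ 0 := by
      rw [← hη]
      exact t11_eta_ne h hch (by
        rw [hT]
        exact Dvd.dvd.mul_right (dvd_pow_self π (by norm_num)) _)
    have hsq : ψ (π ^ 14 * (s * g)) * ψ (π ^ 14 * (s * g)) = 1 := by
      rw [← AddChar.map_add_eq_mul, t11_two h2, AddChar.map_zero_eq_one]
    cases q <;> cases q'
    · exact absurd rfl hq
    · simp only [cond_false, cond_true] at h4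
      rw [mul_assoc, hsq, mul_one] at h4
      exact h4.symm
    · simp only [cond_false, cond_true, mul_one] at h4
      have h9 : ψ (π ^ 12 * (f 0 0 * s)) * ψ (π ^ 14 * (s * g)) = 1 * ψ (π ^ 14 * (s * g)) := by
        rw [← h4, one_mul]
      exact mul_right_cancel₀ hne h9
    · exact absurd rfl hq
  obtain ⟨w, hw⟩ := prim_nondeg_pow h hψ 12 (by norm_num) (f 0 0) key
  exact ⟨w, hw⟩

end Pool.Agent.Lib.MP_fa0f6c_al.Cx
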