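import Pool.Agent.Lib.MP_fa0f6c_al.Cx.T09
import Pool.Agent.Lib.MP_fa0f6c_al.Cx.T11
import Pool.Agent.Lib.MP_fa0f6c_al.Cx.F11
import Pool.Agent.Lib.MP_fa0f6c_al.Cx.A03

set_option autoImplicit false

namespace Pool.Agent.Lib.MP_fa0f6c_al.Cx

variable {o : Type} [CommRing o] [IsLocalRing o] [Finite o] {π : o} {d : Fin 6 → ℕ}

section
variable {b : ℕ} {ρ : Fin b → ℕ}

omit [CommRing o] [IsLocalRing o] [Finite o] in
private theorem T12_ext_blk {n : Fin b → ℕ} {x y : Matrix (Idx n ρ) (Idx n ρ) o}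
    (h : ∀ i s j t, blk x i s j t = blk y i s j t) : x = y := by
  ext ⟨i, s, a⟩ ⟨j, t, c⟩
  exact congrFun (congrFun (h i s j t) a) c

omit [IsLocalRing o] [Finite o] in
private theorem T12_blk_place_mul {n : Fin b → ℕ} (i : Fin b) (s : Fin (n i)) (j : Fin b)
    (t : Fin (n j)) (y : Matrix (Fin (ρ i)) (Fin (ρ j)) o) (x : Matrix (Idx n ρ) (Idx n ρ) o)
    (l : Fin b) (v : Fin (n l)) :
    blk (place i s j t y * x) i s l v = y * blk x j t l v := by
  rw [blk_mul, Finset.sum_eq_single j, Finset.sum_eq_single t]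
  · rw [blk_place_self]
  · intro u _ hu
    rw [blk_place_ne, Matrix.zero_mul]
    rintro ⟨_, _, _, h⟩
    exact hu (Fin.ext h)
  · intro h; exact absurd (Finset.mem_univ _) h
  · intro k _ hk
    apply Finset.sum_eq_zero
    intro u _
    rw [blk_place_ne, Matrix.zero_mul]
    rintro ⟨_, h, _⟩
    exact hk h
  · intro h; exact absurd (Finset.mem_univ _) h

omit [IsLocalRing o] [Finite o] in
private theorem T12_blk_place_mul_ne {n : Fin b → ℕ} (i : Fin b) (s : Fin (n i)) (j : Fin b)
    (t : Fin (n j)) (y : Matrix (Fin (ρ i)) (Fin (ρ j)) o) (x : Matrix (Idx n ρ) (Idx n ρ) o)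
    (k : Fin b) (u : Fin (n k)) (l : Fin b) (v : Fin (n l)) (h : ¬ (k = i ∧ (u : ℕ) = s)) :
    blk (place i s j t y * x) k u l v = 0 := by
  rw [blk_mul]
  apply Finset.sum_eq_zero
  intro k' _
  apply Finset.sum_eq_zero
  intro u' _
  rw [blk_place_ne, Matrix.zero_mul]
  rintro ⟨h1, _, h2, _⟩
  exact h ⟨h1, h2⟩

omit [IsLocalRing o] [Finite o] in
private theorem T12_blk_mul_place {n : Fin b → ℕ} (i : Fin b) (s : Fin (n i)) (j : Fin b)
    (t : Fin (n j)) (y : Matrix (Fin (ρ i)) (Fin (ρ j)) o) (x : Matrix (Idx n ρ) (Idx n ρ) o)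
    (l : Fin b) (v : Fin (n l)) :
    blk (x * place i s j t y) l v j t = blk x l v i s * y := by
  rw [blk_mul, Finset.sum_eq_single i, Finset.sum_eq_single s]
  · rw [blk_place_self]
  · intro u _ hu
    rw [blk_place_ne, Matrix.mul_zero]
    rintro ⟨_, _, h, _⟩
    exact hu (Fin.ext h)
  · intro h; exact absurd (Finset.mem_univ _) h
  · intro k _ hk
    apply Finset.sum_eq_zero
    intro u _
    rw [blk_place_ne, Matrix.mul_zero]
    rintro ⟨h, _⟩
    exact hk h
  · intro h; exact absurd (Finset.mem_univ _) h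

omit [IsLocalRing o] [Finite o] in
private theorem T12_blk_mul_place_ne {n : Fin b → ℕ} (i : Fin b) (s : Fin (n i)) (j : Fin b)
    (t : Fin (n j)) (y : Matrix (Fin (ρ i)) (Fin (ρ j)) o) (x : Matrix (Idx n ρ) (Idx n ρ) o)
    (k : Fin b) (u : Fin (n k)) (l : Fin b) (v : Fin (n l)) (h : ¬ (l = j ∧ (v : ℕ) = t)) :
    blk (x * place i s j t y) k u l v = 0 := by
  rw [blk_mul]
  apply Finset.sum_eq_zero
  intro k' _
  apply Finset.sum_eq_zero
  intro u' _
  rw [blk_place_ne, Matrix.mul_zero]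
  rintro ⟨_, h1, _, h2⟩
  exact h ⟨h1, h2⟩

omit [IsLocalRing o] [Finite o] in
/-- `place * f * place` -/
private theorem T12_pfp {n : Fin b → ℕ} (i : Fin b) (s : Fin (n i)) (j : Fin b) (t : Fin (n j))
    (k : Fin b) (v : Fin (n k)) (l : Fin b) (w : Fin (n l))
    (x : Matrix (Fin (ρ i)) (Fin (ρ j)) o) (f : Matrix (Idx n ρ) (Idx n ρ) o)
    (y : Matrix (Fin (ρ k)) (Fin (ρ l)) o) :
    place i s j t x * (f * place k v l w y) = place i s l w (x * (blk f j t k v * y)) := by
  apply T12_ext_blk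
  intro p a q c
  by_cases h1 : p = i ∧ (a : ℕ) = s
  · obtain ⟨rfl, ha⟩ := h1
    obtain rfl : a = s := Fin.ext ha
    rw [T12_blk_place_mul]
    by_cases h2 : q = l ∧ (c : ℕ) = w
    · obtain ⟨rfl, hc⟩ := h2
      obtain rfl : c = w := Fin.ext hc
      rw [T12_blk_mul_place, blk_place_self]
    · rw [T12_blk_mul_place_ne _ _ _ _ _ _ _ _ _ _ h2, Matrix.mul_zero, blk_place_ne]
      rintro ⟨_, h3, _, h4⟩
      exact h2 ⟨h3, h4⟩
  · rw [T12_blk_place_mul_ne _ _ _ _ _ _ _ _ _ _ h1, blk_place_ne]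
    rintro ⟨h3, _, h4, _⟩
    exact h1 ⟨h3, h4⟩

omit [IsLocalRing o] [Finite o] in
private theorem T12_pp {n : Fin b → ℕ} (i : Fin b) (s : Fin (n i)) (j : Fin b) (t : Fin (n j))
    (l : Fin b) (w : Fin (n l)) (x : Matrix (Fin (ρ i)) (Fin (ρ j)) o)
    (y : Matrix (Fin (ρ j)) (Fin (ρ l)) o) :
    place i s j t x * place j t l w y = place i s l w (x * y) := by
  apply T12_ext_blk
  intro p a q c
  by_cases h1 : p = i ∧ (a : ℕ) = s
  · obtain ⟨rfl, ha⟩ := h1
    obtain rfl : a = s := Fin.ext ha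
    rw [T12_blk_place_mul]
    by_cases h2 : q = l ∧ (c : ℕ) = w
    · obtain ⟨rfl, hc⟩ := h2
      obtain rfl : c = w := Fin.ext hc
      rw [blk_place_self, blk_place_self]
    · rw [blk_place_ne, Matrix.mul_zero, blk_place_ne]
      · rintro ⟨_, h3, _, h4⟩
        exact h2 ⟨h3, h4⟩
      · rintro ⟨_, h3, _, h4⟩
        exact h2 ⟨h3, h4⟩
  · rw [T12_blk_place_mul_ne _ _ _ _ _ _ _ _ _ _ h1, blk_place_ne]
    rintro ⟨h3, _, h4, _⟩
    exact h1 ⟨h3, h4⟩

omit [IsLocalRing o] [Finite o] in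
private theorem T12_place_mem {n : Fin b → ℕ}
    (M : ∀ i j : Fin b, Submodule o (Matrix (Fin (ρ i)) (Fin (ρ j)) o)) (i : Fin b)
    (s : Fin (n i)) (j : Fin b) (t : Fin (n j)) {x : Matrix (Fin (ρ i)) (Fin (ρ j)) o}
    (hx : x ∈ M i j) (p : Fin b) (a : Fin (n p)) (q : Fin b) (c : Fin (n q)) :
    blk (place i s j t x) p a q c ∈ M p q := by
  by_cases h : p = i ∧ q = j ∧ (a : ℕ) = s ∧ (c : ℕ) = t
  · obtain ⟨rfl, rfl, ha, hc⟩ := h
    obtain rfl : a = s := Fin.ext ha
    obtain rfl : c = t := Fin.ext hc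
    rw [blk_place_self]
    exact hx
  · rw [blk_place_ne _ _ _ _ _ _ _ _ _ h]
    exact (M p q).zero_mem

end

omit [IsLocalRing o] [Finite o] in
private theorem T12_zero {m n : ℕ} (f : Matrix (Fin m) (Fin n) o) : π ^ 0 ∣ mainE f := by
  rw [pow_zero]; exact one_dvd _

/-- all local stabilisers. PROOF: `fin_cases i <;> fin_cases j` (30 cases) and T11; if `wE i j = 0` there is nothing to prove. -/
theorem stab_all (h : IsChain o π 16) (h2 : (2 : o) = 0) {ψ : AddChar o ℂ}
    (hψ : IsPrim π 16 ψ) {ξ η : o → ℂ} (hch : IsChars π ψ ξ η) (i j : Fin 6) (hij : i ≠ j)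
    (f : Matrix (Fin (rhoT i)) (Fin (rhoT j)) o) (hf0 : f ∈ E0 π (rhoT i) (clT i) (rhoT j) (clT j))
    (hf : ∀ z ∈ MB π wI j i, muT ψ ξ η i (f * z) = muT ψ ξ η j (z * f)) :
    π ^ wE i j ∣ mainE f := by
  fin_cases i <;> fin_cases j
  · exact absurd rfl hij
  · exact T12_zero _
  · exact T12_zero _
  · exact stab_21 (q := false) (q' := true) (p := false) h h2 hψ hch (by decide) hf0 hf
  · exact stab_21 (q := false) (q' := true) (p := true) h h2 hψ hch (by decide) hf0 hf
  · exact stab_22 (q := false) (q' := true) h h2 hψ hch (by decide) hf0 hf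
  · exact T12_zero _
  · exact absurd rfl hij
  · exact stab_11_same (q := false) (p := false) (p' := true) h h2 hch (by decide) hf
  · exact stab_11_diff (q := false) (q' := true) (p := false) (p' := false) h h2 hψ hch (by decide) hf0 hf
  · exact stab_11_diff (q := false) (q' := true) (p := false) (p' := true) h h2 hψ hch (by decide) hf0 hf
  · exact stab_12 (q := false) (q' := true) (p := false) h h2 hψ hch (by decide) hf0 hf
  · exact T12_zero _
  · exact stab_11_same (q := false) (p := true) (p' := false) h h2 hch (by decide) hf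
  · exact absurd rfl hij
  · exact stab_11_diff (q := false) (q' := true) (p := true) (p' := false) h h2 hψ hch (by decide) hf0 hf
  · exact stab_11_diff (q := false) (q' := true) (p := true) (p' := true) h h2 hψ hch (by decide) hf0 hf
  · exact stab_12 (q := false) (q' := true) (p := true) h h2 hψ hch (by decide) hf0 hf
  · exact stab_12 (q := true) (q' := false) (p := false) h h2 hψ hch (by decide) hf0 hf
  · exact stab_11_diff (q := true) (q' := false) (p := false) (p' := false) h h2 hψ hch (by decide) hf0 hf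
  · exact stab_11_diff (q := true) (q' := false) (p := false) (p' := true) h h2 hψ hch (by decide) hf0 hf
  · exact absurd rfl hij
  · exact stab_11_same (q := true) (p := false) (p' := true) h h2 hch (by decide) hf
  · exact T12_zero _
  · exact stab_12 (q := true) (q' := false) (p := true) h h2 hψ hch (by decide) hf0 hf
  · exact stab_11_diff (q := true) (q' := false) (p := true) (p' := false) h h2 hψ hch (by decide) hf0 hf
  · exact stab_11_diff (q := true) (q' := false) (p := true) (p' := true) h h2 hψ hch (by decide) hf0 hf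
  · exact stab_11_same (q := true) (p := true) (p' := false) h h2 hch (by decide) hf
  · exact absurd rfl hij
  · exact T12_zero _
  · exact stab_22 (q := true) (q' := false) h h2 hψ hch (by decide) hf0 hf
  · exact stab_21 (q := true) (q' := false) (p := false) h h2 hψ hch (by decide) hf0 hf
  · exact stab_21 (q := true) (q' := false) (p := true) h h2 hψ hch (by decide) hf0 hf
  · exact T12_zero _
  · exact T12_zero _
  · exact absurd rfl hij


/-- The stabiliser. PROOF: let `f ∈ s.E` with the property, `i, u, j, t` given, `c := blk f i u j t ∈ E0`. If `i = j` then `wE i i = 0`.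
Let `i ≠ j`, `z ∈ MB π wI j i`, `x := place j t i u z ∈ I_1`, `ε := place i u i u 1`, `ε' := place j t j t 1` (in `S.ring d ≤ s.E`). For `x' = x`
(`x ε = x`, `ε' x = x`): `m (f x) = m (f x ε) = m (ε f x)` by (T) (`f x ∈ I_1 ≤ rad`, `hsym` for `ε`), `ε f x = place i u i u (c * z)`;
`m (x f) = m (ε' x f) = m (x f ε') = m (place j t j t (z * c))`. Both are in `S.J` (`I_1` is an ideal of `s.E`), so `hres` gives
`muT i (c z) = muT j (z c)`, then `stab_all`. -/
theorem stab_ring (h : IsChain o π 16) (h2 : (2 : o) = 0) (S : Corners o rhoT)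
    (hC : ∀ i j, S.C i j = MB π wE i j) (hJ : ∀ i, S.J i = JB π i) {ψ : AddChar o ℂ}
    (hψ : IsPrim π 16 ψ) {ξ η : o → ℂ} (hch : IsChars π ψ ξ η)
    {m : Matrix (Idx d rhoT) (Idx d rhoT) o → ℂ}
    (hsym : IsSym (S.ring d) (S.rad d) m)
    (hres : ∀ i (u : Fin (d i)), ∀ x ∈ S.J i, m (place i u i u x) = muT ψ ξ η i x)
    {s : Stage (Matrix (Idx d rhoT) (Idx d rhoT) o)} (hs : IsFirst π 8 ψ (XT π d) s)
    (f : Matrix (Idx d rhoT) (Idx d rhoT) o) (hf : f ∈ s.E)
    (hfs : ∀ x ∈ blkSub (MB π wI) d, m (f * x) = m (x * f)) : f ∈ S.ring d := by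
  have hId := I1_ideal (d := d) h h2 S hC hJ hs
  have hrad := I1_le_rad (d := d) S hC hJ
  intro i u j t
  rw [hC]
  have hc0 := (mem_first hs f).1 hf i u j t
  refine ⟨hc0, ?_⟩
  by_cases hij : i = j
  · subst hij
    rw [wE_diag, pow_zero]
    exact one_dvd _
  refine stab_all h h2 hψ hch i j hij _ hc0 ?_
  intro z hz
  have hx : place j t i u z ∈ blkSub (MB π wI) d := by
    rw [mem_blkSub]
    exact T12_place_mem _ j t i u hz
  have hJle : ∀ k, MB π wI k k ≤ S.J k := by
    intro k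
    rw [hJ]
    exact MT_mono (by rw [wI_diag]; norm_num)
  have hfx : f * place j t i u z ∈ blkSub (MB π wI) d := hId.mulL _ hf _ hx
  have hxf : place j t i u z * f ∈ blkSub (MB π wI) d := hId.mulR _ hf _ hx
  have hε : ∀ k (v : Fin (d k)), place k v k v (1 : Matrix (Fin (rhoT k)) (Fin (rhoT k)) o) ∈
      S.ring d := by
    intro k v
    exact T12_place_mem S.C k v k v (S.one_mem k)
  have h1 := hfs _ hx
  have h3 := hsym _ (hε i u) _ (hrad hfx)
  have h4 := hsym _ (hε j t) _ (hrad hxf)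
  have e1 : place i u i u (1 : Matrix (Fin (rhoT i)) (Fin (rhoT i)) o) *
      (f * place j t i u z) = place i u i u (blk f i u j t * z) := by
    rw [T12_pfp, Matrix.one_mul]
  have e2 : f * place j t i u z * place i u i u (1 : Matrix (Fin (rhoT i)) (Fin (rhoT i)) o) =
      f * place j t i u z := by
    rw [Matrix.mul_assoc, T12_pp, Matrix.mul_one]
  have e3 : place j t j t (1 : Matrix (Fin (rhoT j)) (Fin (rhoT j)) o) *
      (place j t i u z * f) = place j t i u z * f := by
    rw [← Matrix.mul_assoc, T12_pp, Matrix.one_mul]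
  have e4 : place j t i u z * f * place j t j t (1 : Matrix (Fin (rhoT j)) (Fin (rhoT j)) o) =
      place j t j t (z * blk f i u j t) := by
    rw [Matrix.mul_assoc, T12_pfp, Matrix.mul_one]
  rw [e1, e2] at h3
  rw [e3, e4] at h4
  have m1 : blk f i u j t * z ∈ S.J i := by
    apply hJle
    have h5 := hfx i u i u
    rwa [T12_blk_mul_place] at h5
  have m2 : z * blk f i u j t ∈ S.J j := by
    apply hJle
    have h5 := hxf j t j t
    rwa [T12_blk_place_mul] at h5
  rw [← hres i u _ m1, ← hres j t _ m2, h3, ← h4, h1]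

end Pool.Agent.Lib.MP_fa0f6c_al.Cx
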