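import Pool.Agent.Lib.MP_fa0f6c_al.Cx.FDefs2
import Pool.Agent.Lib.MP_fa0f6c_al.Cx.A07
import Pool.Agent.Lib.MP_fa0f6c_al.Cx.F03
import Pool.Agent.Lib.MP_fa0f6c_al.Cx.G03
import Pool.Agent.Lib.MP_fa0f6c_al.Cx.T01
import Pool.Agent.Lib.MP_fa0f6c_al.Cx.T04
import Pool.Agent.Lib.MP_fa0f6c_al.Cx.T05
import Pool.Agent.Lib.MP_fa0f6c_al.Cx.T075
import Pool.Agent.Lib.MP_fa0f6c_al.Cx.T10
import Pool.Agent.Lib.MP_fa0f6c_al.Cx.T12

set_option autoImplicit false

namespace Pool.Agent.Lib.MP_fa0f6c_al.Cx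

/-- The node on the `t` side (blueprint section 7).  `o` is a finite chain ring of length `16` with
`2 = 0`, residue field of `q ≥ 4` elements. -/
theorem T_main (o : Type) [CommRing o] [IsLocalRing o] [Finite o] (π : o) (hch : IsChain o π 16)
    (h2 : (2 : o) = 0) (q : ℕ) (hq : Nat.card (IsLocalRing.ResidueField o) = q) (hq4 : 4 ≤ q)
    (ψ : AddChar o ℂ) (hψ : IsPrim π 16 ψ) (d : Fin 6 → ℕ) (hd : ∀ k, 0 < d k) :
    ∃ (S : Corners o rhoT) (X : Matrix (Idx d rhoT) (Idx d rhoT) o)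
      (s t : Stage (Matrix (Idx d rhoT) (Idx d rhoT) o)),
      IsFirst π 8 ψ X s ∧ s.Reach t ∧ t.E = S.ring d ∧ t.I = S.rad d ∧
      (∀ i j, Nat.card (S.C i j) = q ^ lenT i j) ∧
      (∀ i, Nat.card (S.C i i) = q * Nat.card (S.J i)) := by
  obtain ⟨S, hC, hJ⟩ := exists_cornersT hch h2
  obtain ⟨s, hs⟩ := exists_first hch hψ (XT π d)
  obtain ⟨ξ, η, hchar⟩ := exists_chars hch hψ
  have hπ := hch.pow
  obtain ⟨m, hm, hsym, hres⟩ := glue_corners S d (fun i => muT ψ ξ η i)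
    (fun i => muL_zero hchar)
    (by
      intro i x hx y hy
      rw [hJ] at hx hy
      exact muL_hom hπ h2 hchar (rhoT_cases i) hx hy)
    (by
      intro i f hf x hx
      rw [hJ] at hx
      rw [hC] at hf
      exact muL_sym hπ h2 hchar (rhoT_cases i) hf.1 hx)
    (by
      intro i j hij x hx y hy
      rw [hC] at hx hy
      exact cross_all hπ h2 hchar i j hij x hx y hy)
  have hI := I1_ideal hch h2 S hC hJ hs
  have hIr : blkSub (MB π wI) d ≤ S.rad d := I1_le_rad S hC hJ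
  have hRs : S.ring d ≤ s.E := ring_le_first S hC hs
  have hfirst := glued_first hch h2 S hC hJ hchar hm hsym hres hs
  have hmI : IsHom (blkSub (MB π wI) d) m :=
    ⟨hm.zero, fun x hx y hy => hm.mul x (hIr hx) y (hIr hy)⟩
  obtain ⟨t₁, ht₁, hI₁, hm₁, hE₁⟩ := big_step s (blkSub (MB π wI) d) hI (first_le_I1 hs) m hmI
    hfirst
  have hE₁' : t₁.E = S.ring d := by
    ext f
    rw [hE₁]
    constructor
    · rintro ⟨h1, h3⟩
      exact stab_ring hch h2 S hC hJ hψ hchar hsym hres hs f h1 h3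
    · intro hf
      exact ⟨hRs hf, fun x hx => hsym f hf x (hIr hx)⟩
  obtain ⟨t, ht, hIt, hmt, hEt⟩ := big_step t₁ (S.rad d)
    (by rw [hE₁']; exact corners_nilIdeal S d) (by rw [hI₁]; exact hIr) m hm
    (by intro x _; rw [hm₁])
  refine ⟨S, XT π d, s, t, hs, ht₁.trans ht, ?_, hIt, ?_, ?_⟩
  · ext f
    rw [hEt, hE₁']
    exact ⟨fun h => h.1, fun h => ⟨h, fun x hx => hsym f h x hx⟩⟩
  · intro i j
    rw [hC, card_MB hch h2, hq]
  · intro i
    rw [hC, hJ, card_JB hch h2, hq]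

end Pool.Agent.Lib.MP_fa0f6c_al.Cx
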