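import Pool.Agent.Lib.MP_fa0f6c_al.Cx.C13
import Pool.Agent.Lib.MP_fa0f6c_al.Cx.T00
import Pool.Agent.Lib.MP_fa0f6c_al.Cx.F08

set_option autoImplicit false

namespace Pool.Agent.Lib.MP_fa0f6c_al.Cx

variable {o : Type} [CommRing o] [IsLocalRing o] [Finite o] {π : o}

/-- The node on the `t` side. PROOF: `T_main`; terminal: a step `t → u` has `u.I` a nilpotent ideal of `t.E = S.ring d`, so `u.I ≤ S.rad d = t.I` (`corners_maxNil`); the count is
`std_count` with `κ = id`, `e = 1`, `n = d`, `L = lenT`. (`2 = 0` is not a unit, `NN d = ∑ d k * rhoT k`.) -/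
theorem t_side {d : Fin 6 → ℕ} {q : ℕ} (h : Nums d q) (hch : IsChain o π 16)
    (h2 : (2 : o) = 0) (hq : Nat.card (IsLocalRing.ResidueField o) = q)
    (ψ : AddChar o ℂ) (hψ : IsPrim π 16 ψ) :
    ∃ (X : Matrix (Idx d rhoT) (Idx d rhoT) o)
      (s t : Stage (Matrix (Idx d rhoT) (Idx d rhoT) o)),
      IsFirst π 8 ψ X s ∧ s.Reach t ∧ t.Terminal ∧
      cnt t (HH d q) = ∏ k, cc q (d k) := by
  have hd : ∀ k, 0 < d k := fun k => (h.prime k).pos
  obtain ⟨S, X, s, t, hX, hst, hE, hI, hC, hJ⟩ := T_main o π hch h2 q hq h.q4 ψ hψ d hd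
  have h2u : ¬ IsUnit (2 : o) := by
    rw [h2]
    exact not_isUnit_zero
  have hrho : ∀ i, 0 < rhoT i := by
    intro i
    fin_cases i <;> simp [rhoT]
  refine ⟨X, s, t, hX, hst, ?_, ?_⟩
  · intro u hu
    refine le_antisymm ?_ hu.le
    rw [hI]
    have h1 := hu.ideal
    rw [hE] at h1
    exact corners_maxNil S d u.I h1
  · have hκ : Kappa d d (fun _ => 1) (id : Fin 6 → Fin 6) :=
      { surj := Function.surjective_id
        e_eq := fun k => Or.inl rfl
        sum := by
          intro i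
          rw [mul_one]
          refine (Finset.sum_eq_single_of_mem i (by simp) ?_).symm
          intro b hb hne
          exact absurd (Finset.mem_filter.1 hb).2 hne }
    have h3 := std_count h hch h2u hq hd hrho rfl S t hE hI (fun _ => 1) (fun _ => one_pos)
      (fun _ => one_dvd _) (fun i => by rw [pow_one]; exact hJ i) lenT hC hκ (by
        have e1 : (∑ i, ∑ j, d i * d j * lenT i j) = ∑ k, ∑ l, lenT k l * (d k * d l) := by
          refine Finset.sum_congr rfl (fun i _ => Finset.sum_congr rfl (fun j _ => ?_))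
          ring
        rw [e1]
        simp)
    rw [h3]
    refine Finset.prod_congr rfl (fun k _ => ?_)
    rw [if_pos rfl]

end Pool.Agent.Lib.MP_fa0f6c_al.Cx
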