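import Pool.Agent.Lib.MP_fa0f6c_al.Cx.C13

set_option autoImplicit false

namespace Pool.Agent.Lib.MP_fa0f6c_al.Cx

variable {o : Type} [CommRing o] [IsLocalRing o] [Finite o] {π : o}

/-- number of characters with `|G| / χ(1) = h` -/
noncomputable def rH (G : Type) [Group G] (h : ℕ) : ℕ :=
  Set.ncard {χ : G → ℂ | χ ∈ Irr G ∧ χ 1 * h = Nat.card G}

/-- the product over the anchors -/
def PP (d : Fin 6 → ℕ) (q : ℕ) : ℕ := cc q (d 1) * cc q (d 2) * cc q (d 3) * cc q (d 4)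

/-- Sum over the family. PROOF: the set is the disjoint union over `ν ∈ F` of the sets of `cnt ν h` (each `χ` is over exactly one `ν ∈ F`). -/
theorem rH_eq_sum {ι : Type} [Fintype ι] [DecidableEq ι] (F : Set (Stage (Matrix ι ι o)))
    (hF : F.Finite) (hu : ∀ χ ∈ Irr (Matrix ι ι o)ˣ, ∃! ν, ν ∈ F ∧ ν.Over χ) (h : ℕ) :
    rH (Matrix ι ι o)ˣ h = ∑ ν ∈ hF.toFinset, cnt ν h := by
  classical
  set S : Set ((Matrix ι ι o)ˣ → ℂ) :=
    {χ | χ ∈ Irr (Matrix ι ι o)ˣ ∧ χ 1 * h = Nat.card (Matrix ι ι o)ˣ} with hS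
  have hSf : S.Finite := (irr_finite (Matrix ι ι o)ˣ).subset fun χ hχ => hχ.1
  set T : Stage (Matrix ι ι o) → Set ((Matrix ι ι o)ˣ → ℂ) := fun s =>
    {χ | χ ∈ Irr (Matrix ι ι o)ˣ ∧ s.Over χ ∧ χ 1 * h = Nat.card (Matrix ι ι o)ˣ} with hT
  have hTf : ∀ s, (T s).Finite := fun s =>
    (irr_finite (Matrix ι ι o)ˣ).subset fun χ hχ => hχ.1
  have h1 : hSf.toFinset = hF.toFinset.biUnion fun ν => (hTf ν).toFinset := by
    ext χ
    rw [Finset.mem_biUnion, Set.Finite.mem_toFinset]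
    constructor
    · rintro ⟨h2, h3⟩
      obtain ⟨ν, ⟨h4, h5⟩, -⟩ := hu χ h2
      exact ⟨ν, hF.mem_toFinset.mpr h4, (hTf ν).mem_toFinset.mpr ⟨h2, h5, h3⟩⟩
    · rintro ⟨ν, -, h4⟩
      obtain ⟨h2, -, h3⟩ := (hTf ν).mem_toFinset.mp h4
      exact ⟨h2, h3⟩
  have h2 : rH (Matrix ι ι o)ˣ h = hSf.toFinset.card := Set.ncard_eq_toFinset_card S hSf
  rw [h2, h1, Finset.card_biUnion]
  · exact Finset.sum_congr rfl fun ν _ => (Set.ncard_eq_toFinset_card (T ν) (hTf ν)).symm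
  · intro ν hν ν' hν' hne
    refine Finset.disjoint_left.mpr fun χ hχ hχ' => ?_
    obtain ⟨h3, h4, -⟩ := (hTf ν).mem_toFinset.mp hχ
    obtain ⟨-, h5, -⟩ := (hTf ν').mem_toFinset.mp hχ'
    exact hne ((hu χ h3).unique ⟨hF.mem_toFinset.mp hν, h4⟩ ⟨hF.mem_toFinset.mp hν', h5⟩)

/-- The numbers `e` of a stage (chosen by `node_normal`) restricted to the blocks `0` and `5`. -/
def IsNode {ι : Type} [Fintype ι] [DecidableEq ι] (d : Fin 6 → ℕ) (q : ℕ)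
    (ν : Stage (Matrix ι ι o)) (e : Fin 6 → ℕ) : Prop :=
  ∃ (n ρ : Fin 6 → ℕ) (S : Corners o ρ) (ε : ι ≃ Idx n ρ) (g : (Matrix ι ι o)ˣ),
      IsStd ν n ρ S ε g ∧ (∀ k, e k = 1 ∨ e k = d k) ∧ (∀ k, k ≠ 0 → k ≠ 5 → e k = 1) ∧
      (∀ k, n k * e k = d k) ∧ (∀ k, ρ k = e k * rhoT k) ∧
      (∀ k, Nat.card (S.C k k) = q ^ e k * Nat.card (S.J k)) ∧
      cnt ν (HH d q) = ∏ k, (if e k = 1 then cc q (d k) else q ^ d k - 1) ∧
      (e 0 = 1 → e 5 = 1 → (∀ k, Nat.card (S.C k k) = q ^ lenT k k) ∧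
        ∀ k l, k ≠ l → Nat.card (S.C k l) * Nat.card (S.C l k) = q ^ (lenT k l + lenT l k))

private theorem C16_bound (hch : IsChain o π 16) {ι : Type} [Fintype ι] [DecidableEq ι]
    (F : Set (Stage (Matrix ι ι o)))
    (hu : ∀ χ ∈ Irr (Matrix ι ι o)ˣ, ∃! ν, ν ∈ F ∧ ν.Over χ) (G : Set (Stage (Matrix ι ι o)))
    (n ρ : Fin 6 → ℕ) (hn : ∀ i, 0 < n i)
    (hG : ∀ ν ∈ G, ν ∈ F ∧ ∃ (S : Corners o ρ) (ε : ι ≃ Idx n ρ) (g : (Matrix ι ι o)ˣ),
      IsStd ν n ρ S ε g) :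
    G.ncard ≤ (Nat.card (IsLocalRing.ResidueField o) ^ 16) ^ ((∑ i, ρ i) ^ 4 + (∑ i, ρ i) ^ 2) := by
  obtain ⟨h1, h2⟩ := node_bound hch F (fun χ hχ ν hν ν' hν' h3 h4 =>
    (hu χ hχ).unique ⟨hν, h3⟩ ⟨hν', h4⟩) n ρ hn
  rw [chain_card' hch] at h2
  exact (Set.ncard_le_ncard (fun ν hν => hG ν hν) h1).trans h2

/-- Bound for the number of nodes of type `{0,5}`. PROOF: `n = d`, `ρ = rhoT` (`subst`), `node_bound` (F15), `chain_card'` (`|o| = q ^ 16`), `∑ rhoT = 8`. -/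
theorem bound_A {d : Fin 6 → ℕ} {q : ℕ} (h : Nums d q) (hch : IsChain o π 16)
    (hq : Nat.card (IsLocalRing.ResidueField o) = q) {ι : Type} [Fintype ι] [DecidableEq ι]
    (F : Set (Stage (Matrix ι ι o))) (hF : F.Finite)
    (hu : ∀ χ ∈ Irr (Matrix ι ι o)ˣ, ∃! ν, ν ∈ F ∧ ν.Over χ) (G : Set (Stage (Matrix ι ι o)))
    (hG : ∀ ν ∈ G, ν ∈ F ∧ ∃ e, IsNode d q ν e ∧ e 0 = 1 ∧ e 5 = 1) :
    G.ncard ≤ q ^ (16 * (8 ^ 4 + 8 ^ 2)) := by
  have h1 := C16_bound hch F hu G d rhoT (fun i => (h.prime i).pos) (fun ν hν => by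
    obtain ⟨h2, e, ⟨n, ρ, S, ε, g, h3, h4, h5, h6, h7, -⟩, e0, e5⟩ := hG ν hν
    refine ⟨h2, ?_⟩
    have he : ∀ k, e k = 1 := by
      intro k
      by_cases k0 : k = 0
      · rw [k0, e0]
      · by_cases k5 : k = 5
        · rw [k5, e5]
        · exact h5 k k0 k5
    have hn : n = d := by
      funext k
      rw [← h6 k, he k, mul_one]
    have hρ : ρ = rhoT := by
      funext k
      rw [h7 k, he k, one_mul]
    subst hn hρ
    exact ⟨S, ε, g, h3⟩)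
  rw [hq, ← pow_mul] at h1
  have h2 : ∑ i, rhoT i = 8 := by
    simp [rhoT, Fin.sum_univ_six]
  rw [h2] at h1
  exact h1

/-- Bound for the number of nodes of type `{5}`: `n = (1, d 1, .., d 5)`, `ρ = (2 d 0, 1, 1, 1, 1, 2)`. -/
theorem bound_C {d : Fin 6 → ℕ} {q : ℕ} (h : Nums d q) (hch : IsChain o π 16)
    (hq : Nat.card (IsLocalRing.ResidueField o) = q) {ι : Type} [Fintype ι] [DecidableEq ι]
    (F : Set (Stage (Matrix ι ι o))) (hF : F.Finite)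
    (hu : ∀ χ ∈ Irr (Matrix ι ι o)ˣ, ∃! ν, ν ∈ F ∧ ν.Over χ) (G : Set (Stage (Matrix ι ι o)))
    (hG : ∀ ν ∈ G, ν ∈ F ∧ ∃ e, IsNode d q ν e ∧ e 0 = d 0 ∧ e 5 = 1) :
    G.ncard ≤ q ^ (16 * ((6 + 2 * d 0) ^ 4 + (6 + 2 * d 0) ^ 2)) := by
  set n' : Fin 6 → ℕ := ![1, d 1, d 2, d 3, d 4, d 5] with hn'
  set ρ' : Fin 6 → ℕ := ![2 * d 0, 1, 1, 1, 1, 2] with hρ'
  have hpos : ∀ k, 0 < d k := fun k => (h.prime k).pos
  have h1 := C16_bound hch F hu G n' ρ' (fun i => by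
    fin_cases i
    · exact one_pos
    · exact hpos 1
    · exact hpos 2
    · exact hpos 3
    · exact hpos 4
    · exact hpos 5) (fun ν hν => by
    obtain ⟨h2, e, ⟨n, ρ, S, ε, g, h3, h4, h5, h6, h7, -⟩, e0, e5⟩ := hG ν hν
    refine ⟨h2, ?_⟩
    have e1 : e 1 = 1 := h5 1 (by decide) (by decide)
    have e2 : e 2 = 1 := h5 2 (by decide) (by decide)
    have e3 : e 3 = 1 := h5 3 (by decide) (by decide)
    have e4 : e 4 = 1 := h5 4 (by decide) (by decide)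
    have hn : n = n' := by
      funext k
      have h8 := h6 k
      fin_cases k
      · have h10 : n 0 * e 0 = d 0 := h8
        have h9 : n 0 * d 0 = 1 * d 0 := by rw [one_mul, ← e0, h10, e0]
        exact Nat.eq_of_mul_eq_mul_right (hpos 0) h9
      · have h9 : n 1 * e 1 = d 1 := h8
        rw [e1, mul_one] at h9
        exact h9
      · have h9 : n 2 * e 2 = d 2 := h8
        rw [e2, mul_one] at h9
        exact h9
      · have h9 : n 3 * e 3 = d 3 := h8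
        rw [e3, mul_one] at h9
        exact h9
      · have h9 : n 4 * e 4 = d 4 := h8
        rw [e4, mul_one] at h9
        exact h9
      · have h9 : n 5 * e 5 = d 5 := h8
        rw [e5, mul_one] at h9
        exact h9
    have hρ : ρ = ρ' := by
      funext k
      have h8 := h7 k
      fin_cases k
      · have h9 : ρ 0 = e 0 * rhoT 0 := h8
        rw [e0] at h9
        exact h9.trans (mul_comm _ _)
      · have h9 : ρ 1 = e 1 * rhoT 1 := h8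
        rw [e1] at h9
        exact h9
      · have h9 : ρ 2 = e 2 * rhoT 2 := h8
        rw [e2] at h9
        exact h9
      · have h9 : ρ 3 = e 3 * rhoT 3 := h8
        rw [e3] at h9
        exact h9
      · have h9 : ρ 4 = e 4 * rhoT 4 := h8
        rw [e4] at h9
        exact h9
      · have h9 : ρ 5 = e 5 * rhoT 5 := h8
        rw [e5] at h9
        exact h9
    rw [hn'] at hn
    rw [hρ'] at hρ
    subst hn hρ
    exact ⟨S, ε, g, h3⟩)
  rw [hq, ← pow_mul] at h1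
  have h2 : ∑ i, ρ' i = 6 + 2 * d 0 := by
    simp [hρ', Fin.sum_univ_six]
    ring
  rw [h2] at h1
  exact h1

end Pool.Agent.Lib.MP_fa0f6c_al.Cx
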