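import Pool.Agent.Lib.MP_fa0f6c_al.Cx.C16

set_option autoImplicit false

namespace Pool.Agent.Lib.MP_fa0f6c_al.Cx

variable {o : Type} [CommRing o] [IsLocalRing o] [Finite o] {π : o}

private theorem C17_cc {q m : ℕ} (hq : 4 ≤ q) (hm : 2 ≤ m) : 0 < cc q m ∧ cc q m < q ^ m - 1 := by
  unfold cc
  have h1 : q ^ 2 ≤ q ^ m := Nat.pow_le_pow_right (by omega) hm
  have h2 : m < 2 ^ m := Nat.lt_two_pow_self
  have h3 : 2 ^ m * 2 ^ m ≤ q ^ m := by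
    rw [← mul_pow]
    exact Nat.pow_le_pow_left (by omega) m
  have h4 : 2 * q ≤ q ^ m := by nlinarith
  have h5 : 4 ≤ 2 ^ m := by
    calc 4 = 2 ^ 2 := by norm_num
      _ ≤ 2 ^ m := Nat.pow_le_pow_right (by norm_num) hm
  constructor
  · apply Nat.div_pos _ (by omega)
    have h6 : 2 * m ≤ q ^ m := by nlinarith
    omega
  · have h6 : (q ^ m - q) / m ≤ q ^ m - q := Nat.div_le_self _ _
    omega

private theorem C17_prod {d : Fin 6 → ℕ} {q : ℕ} (e : Fin 6 → ℕ)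
    (he : ∀ k, k ≠ 0 → k ≠ 5 → e k = 1) :
    (∏ k, (if e k = 1 then cc q (d k) else q ^ d k - 1)) =
      PP d q * ((if e 0 = 1 then cc q (d 0) else q ^ d 0 - 1) *
        (if e 5 = 1 then cc q (d 5) else q ^ d 5 - 1)) := by
  rw [Fin.prod_univ_six, if_pos (he 1 (by decide) (by decide)),
    if_pos (he 2 (by decide) (by decide)), if_pos (he 3 (by decide) (by decide)),
    if_pos (he 4 (by decide) (by decide))]
  unfold PP
  ring

/-- The formula for the number of characters (blueprint 4.4). PROOF: `F` from the hypotheses; for each `ν ∈ F` with `cnt ν ≠ 0` choose `e` with `IsNode d q ν e` (`node_normal`, `reach_first`);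
`A`, `B`, `C`, `E` = number of `ν` with `(e 0, e 5) = (1,1), (1,d 5), (d 0,1), (d 0, d 5)`; `rH_eq_sum`; each summand is `PP * ...` by the product formula for `cnt`.
Last clause: if `A ≠ 0` there is a node of type `{0,5}`, and if some `t₀ ∈ F` has `cnt t₀ = ∏ cc`, then it has type `(1,1)` because `cc q (d k) < q ^ d k - 1`
makes the other three products larger. -/
theorem side_formula {d : Fin 6 → ℕ} {q : ℕ} (h : Nums d q) (hch : IsChain o π 16)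
    (h2 : ¬ IsUnit (2 : o)) (hq : Nat.card (IsLocalRing.ResidueField o) = q) {ι : Type}
    [Fintype ι] [DecidableEq ι] (hι : Fintype.card ι = NN d) (F : Set (Stage (Matrix ι ι o)))
    (hF : F.Finite) (hu : ∀ χ ∈ Irr (Matrix ι ι o)ˣ, ∃! ν, ν ∈ F ∧ ν.Over χ)
    (hT : ∀ ν ∈ F, ν.Terminal ∧ ∀ c : o, algebraMap o (Matrix ι ι o) c ∈ ν.E) :
    ∃ A B C E : ℕ,
      rH (Matrix ι ι o)ˣ (HH d q) = PP d q * (A * (cc q (d 0) * cc q (d 5)) +
        B * (cc q (d 0) * (q ^ d 5 - 1)) + C * ((q ^ d 0 - 1) * cc q (d 5)) +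
        E * ((q ^ d 0 - 1) * (q ^ d 5 - 1))) ∧
      A ≤ q ^ (16 * (8 ^ 4 + 8 ^ 2)) ∧ C ≤ q ^ (16 * ((6 + 2 * d 0) ^ 4 + (6 + 2 * d 0) ^ 2)) ∧
      (A ≠ 0 → ∃ ν ∈ F, ∃ e, IsNode d q ν e ∧ e 0 = 1 ∧ e 5 = 1) ∧
      ((∃ ν ∈ F, cnt ν (HH d q) = ∏ k, cc q (d k)) → A ≠ 0) := by
  classical
  have hnode : ∀ ν ∈ F, cnt ν (HH d q) ≠ 0 → ∃ e, IsNode d q ν e := by
    intro ν hν h0
    obtain ⟨e, n, ρ, S, ε, g, h1⟩ := node_normal h hch h2 hq hι (hT ν hν).1 (hT ν hν).2 h0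
    exact ⟨e, n, ρ, S, ε, g, h1⟩
  have hex : ∀ ν : Stage (Matrix ι ι o), ∃ e, (ν ∈ F ∧ cnt ν (HH d q) ≠ 0) → IsNode d q ν e := by
    intro ν
    by_cases h1 : ν ∈ F ∧ cnt ν (HH d q) ≠ 0
    · obtain ⟨e, he⟩ := hnode ν h1.1 h1.2
      exact ⟨e, fun _ => he⟩
    · exact ⟨fun _ => 0, fun h3 => absurd h3 h1⟩
  choose ee hee using hex
  set F' : Finset (Stage (Matrix ι ι o)) := hF.toFinset.filter fun ν => cnt ν (HH d q) ≠ 0
    with hF'
  have hmem : ∀ ν ∈ F', ν ∈ F ∧ IsNode d q ν (ee ν) := by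
    intro ν hν
    obtain ⟨h3, h4⟩ := Finset.mem_filter.mp hν
    have h5 := hF.mem_toFinset.mp h3
    exact ⟨h5, hee ν ⟨h5, h4⟩⟩
  set F11 := F'.filter fun ν => ee ν 0 = 1 ∧ ee ν 5 = 1 with hF11
  set F15 := F'.filter fun ν => ee ν 0 = 1 ∧ ee ν 5 ≠ 1 with hF15
  set F01 := F'.filter fun ν => ee ν 0 ≠ 1 ∧ ee ν 5 = 1 with hF01
  set F05 := F'.filter fun ν => ee ν 0 ≠ 1 ∧ ee ν 5 ≠ 1 with hF05
  have hcnt : ∀ ν ∈ F', cnt ν (HH d q) =
      PP d q * ((if ee ν 0 = 1 then cc q (d 0) else q ^ d 0 - 1) *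
        (if ee ν 5 = 1 then cc q (d 5) else q ^ d 5 - 1)) := by
    intro ν hν
    obtain ⟨-, n, ρ, S, ε, g, -, -, h3, -, -, -, h4, -⟩ := hmem ν hν
    rw [h4, C17_prod (ee ν) h3]
  refine ⟨F11.card, F15.card, F01.card, F05.card, ?_, ?_, ?_, ?_, ?_⟩
  · rw [rH_eq_sum F hF hu]
    have h3 : ∑ ν ∈ hF.toFinset, cnt ν (HH d q) = ∑ ν ∈ F', cnt ν (HH d q) := by
      rw [hF', Finset.sum_filter_ne_zero]
    have h4 : ∀ ν ∈ F', cnt ν (HH d q) = PP d q *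
        ((if ee ν 0 = 1 ∧ ee ν 5 = 1 then 1 else 0) * (cc q (d 0) * cc q (d 5)) +
        (if ee ν 0 = 1 ∧ ee ν 5 ≠ 1 then 1 else 0) * (cc q (d 0) * (q ^ d 5 - 1)) +
        (if ee ν 0 ≠ 1 ∧ ee ν 5 = 1 then 1 else 0) * ((q ^ d 0 - 1) * cc q (d 5)) +
        (if ee ν 0 ≠ 1 ∧ ee ν 5 ≠ 1 then 1 else 0) * ((q ^ d 0 - 1) * (q ^ d 5 - 1))) := by
      intro ν hν
      rw [hcnt ν hν]
      by_cases h5 : ee ν 0 = 1 <;> by_cases h6 : ee ν 5 = 1 <;> simp [h5, h6]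
    rw [h3, Finset.sum_congr rfl h4, ← Finset.mul_sum]
    simp only [Finset.sum_add_distrib, ← Finset.sum_mul, Finset.sum_boole, Nat.cast_id]
    rfl
  · rw [← Set.ncard_coe_finset]
    refine bound_A h hch hq F hF hu _ ?_
    intro ν hν
    obtain ⟨h3, h4⟩ := Finset.mem_filter.mp (Finset.mem_coe.mp hν)
    exact ⟨(hmem ν h3).1, ee ν, (hmem ν h3).2, h4⟩
  · rw [← Set.ncard_coe_finset]
    refine bound_C h hch hq F hF hu _ ?_
    intro ν hν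
    obtain ⟨h3, h4, h5⟩ := Finset.mem_filter.mp (Finset.mem_coe.mp hν)
    obtain ⟨h6, h7⟩ := hmem ν h3
    obtain ⟨n, ρ, S, ε, g, h8, h9, h10⟩ := id h7
    exact ⟨h6, ee ν, h7, (h9 0).resolve_left h4, h5⟩
  · intro h3
    obtain ⟨ν, hν⟩ := Finset.card_pos.mp (Nat.pos_of_ne_zero h3)
    obtain ⟨h4, h5⟩ := Finset.mem_filter.mp hν
    exact ⟨ν, (hmem ν h4).1, ee ν, (hmem ν h4).2, h5⟩
  · rintro ⟨ν, hν, h3⟩
    have hc : ∀ k, 0 < cc q (d k) ∧ cc q (d k) < q ^ d k - 1 := fun k =>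
      C17_cc h.q4 (h.prime k).two_le
    have h4 : cnt ν (HH d q) ≠ 0 := by
      rw [h3]
      exact Finset.prod_ne_zero_iff.mpr fun k _ => (hc k).1.ne'
    have h5 : ν ∈ F' := Finset.mem_filter.mpr ⟨hF.mem_toFinset.mpr hν, h4⟩
    have h6 : ee ν 0 = 1 ∧ ee ν 5 = 1 := by
      obtain ⟨-, n, ρ, S, ε, g, -, -, -, -, -, -, h7, -⟩ := hmem ν h5
      have h8 : ∀ k, ee ν k = 1 := by
        intro k
        by_contra h9
        have h10 : ∏ k, cc q (d k) < ∏ k, (if ee ν k = 1 then cc q (d k) else q ^ d k - 1) := by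
          refine Finset.prod_lt_prod (fun k _ => (hc k).1) (fun k _ => ?_) ⟨k, Finset.mem_univ k, ?_⟩
          · split_ifs
            · exact le_rfl
            · exact (hc k).2.le
          · rw [if_neg h9]
            exact (hc k).2
        rw [← h7, h3] at h10
        exact lt_irrefl _ h10
      exact ⟨h8 0, h8 5⟩
    exact (Finset.card_pos.mpr ⟨ν, Finset.mem_filter.mpr ⟨h5, h6⟩⟩).ne'

end Pool.Agent.Lib.MP_fa0f6c_al.Cx
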