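import Pool.Agent.Lib.MP_fa0f6c_al.Cx.CDefs

set_option autoImplicit false

namespace Pool.Agent.Lib.MP_fa0f6c_al.Cx

/-- Properties of `cc q p`, `p = d k`. HINT: Fermat's little theorem. -/
theorem cc_mul {d : Fin 6 → ℕ} {q : ℕ} (h : Nums d q) (k : Fin 6) :
    d k * cc q (d k) = q ^ d k - q ∧ 0 < cc q (d k) ∧ cc q (d k) < q ^ d k - 1 := by
  have hp := h.prime k
  have hq := h.q4
  have hlt : q < q ^ d k := by
    calc q = q ^ 1 := (pow_one q).symm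
      _ < q ^ d k := Nat.pow_lt_pow_right (by omega) hp.one_lt
  have hdvd : d k ∣ q ^ d k - q := by
    have := Fact.mk hp
    rw [← ZMod.natCast_eq_zero_iff, Nat.cast_sub hlt.le, Nat.cast_pow, ZMod.pow_card, sub_self]
  have h1 : d k * cc q (d k) = q ^ d k - q := Nat.mul_div_cancel' hdvd
  have h2 : 0 < cc q (d k) := by
    rcases Nat.eq_zero_or_pos (cc q (d k)) with h0 | h0
    · rw [h0, mul_zero] at h1
      omega
    · exact h0
  refine ⟨h1, h2, ?_⟩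
  have h3 : cc q (d k) ≤ d k * cc q (d k) := Nat.le_mul_of_pos_left _ hp.pos
  omega

/-- An auxiliary divisibility argument. -/
theorem eq_zero_of_dvd_small {M c p q X : ℤ} (h1 : p * c = M - (q - 1)) (h2 : M ∣ c * X)
    (h3 : (q - 1) * |X| < M) (hq : 1 < q) : X = 0 := by
  have h4 : M ∣ (q - 1) * X := by
    have h5 : M ∣ p * (c * X) := Dvd.dvd.mul_left h2 p
    have h6 : (q - 1) * X = M * X - p * (c * X) := by
      rw [← mul_assoc, h1]
      ring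
    rw [h6]
    exact dvd_sub (Dvd.intro _ rfl) h5
  have h7 : |(q - 1) * X| < M := by
    rw [abs_mul, abs_of_pos (by linarith : (0 : ℤ) < q - 1)]
    exact h3
  have h8 : (q - 1) * X = 0 := Int.eq_zero_of_abs_lt_dvd h4 h7
  rcases mul_eq_zero.mp h8 with h9 | h9
  · omega
  · exact h9

/-- Final arithmetic (blueprint section 6). PROOF: in `ℤ` with `DA = A - A'` etc.: `DA c₀ c₅ + DB c₀ M₅ + DC M₀ c₅ + DE M₀ M₅ = 0` (divide by `P > 0`). So
`M₅ ∣ c₅ (DA c₀ + DC M₀)`; multiply by `d 5`: `d 5 * c₅ = M₅ - (q - 1)`, so `M₅ ∣ (q - 1) (DA c₀ + DC M₀)`, whose absolute value is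
`< q (q ^ (16 (8^4+8^2)) q ^ d 0 + q ^ (16 (..)) q ^ d 0) < M₅` by `h.g5`, `h.g0`; so `DA c₀ + DC M₀ = 0`; multiply by `d 0`: `M₀ ∣ (q - 1) DA`, and `|DA| (q - 1) < M₀` by `h.g0`; so
`DA = 0`. -/
theorem final_arith {d : Fin 6 → ℕ} {q : ℕ} (h : Nums d q) (P A B C E A' B' C' E' : ℕ)
    (hP : 0 < P)
    (he : P * (A * (cc q (d 0) * cc q (d 5)) +
        B * (cc q (d 0) * (q ^ d 5 - 1)) + C * ((q ^ d 0 - 1) * cc q (d 5)) +
        E * ((q ^ d 0 - 1) * (q ^ d 5 - 1))) = P * (A' * (cc q (d 0) * cc q (d 5)) +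
        B' * (cc q (d 0) * (q ^ d 5 - 1)) + C' * ((q ^ d 0 - 1) * cc q (d 5)) +
        E' * ((q ^ d 0 - 1) * (q ^ d 5 - 1))))
    (hA : A ≤ q ^ (16 * (8 ^ 4 + 8 ^ 2))) (hA' : A' ≤ q ^ (16 * (8 ^ 4 + 8 ^ 2)))
    (hC : C ≤ q ^ (16 * ((6 + 2 * d 0) ^ 4 + (6 + 2 * d 0) ^ 2)))
    (hC' : C' ≤ q ^ (16 * ((6 + 2 * d 0) ^ 4 + (6 + 2 * d 0) ^ 2))) : A = A' := by
  have hq := h.q4
  have g0 := h.g0
  have g5 := h.g5
  obtain ⟨a, ha⟩ : ∃ a, a = 16 * (8 ^ 4 + 8 ^ 2) := ⟨_, rfl⟩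
  obtain ⟨b, hb⟩ : ∃ b, b = 16 * ((6 + 2 * d 0) ^ 4 + (6 + 2 * d 0) ^ 2) := ⟨_, rfl⟩
  have hab : a ≤ b := by
    rw [ha, hb]
    have h1 : 8 ^ 4 ≤ (6 + 2 * d 0) ^ 4 := Nat.pow_le_pow_left (by omega) 4
    have h2 : 8 ^ 2 ≤ (6 + 2 * d 0) ^ 2 := Nat.pow_le_pow_left (by omega) 2
    exact Nat.mul_le_mul_left _ (Nat.add_le_add h1 h2)
  have had : a + 2 ≤ d 0 := by
    have : a = 66560 := ha.trans (by norm_num)
    omega
  rw [← hb] at g5 hC hC'
  rw [← ha] at hA hA'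
  clear ha hb
  obtain ⟨c0m, c0p, c0l⟩ := cc_mul h 0
  obtain ⟨c5m, c5p, c5l⟩ := cc_mul h 5
  have hq0 : q ≤ q ^ d 0 := Nat.le_self_pow (by omega) q
  have hq5 : q ≤ q ^ d 5 := Nat.le_self_pow (by omega) q
  have he' := Nat.eq_of_mul_eq_mul_left hP he
  generalize cc q (d 0) = c0 at *
  generalize cc q (d 5) = c5 at *
  obtain ⟨M0, hM0⟩ : ∃ M0 : ℤ, M0 = (q : ℤ) ^ d 0 - 1 := ⟨_, rfl⟩
  obtain ⟨M5, hM5⟩ : ∃ M5 : ℤ, M5 = (q : ℤ) ^ d 5 - 1 := ⟨_, rfl⟩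
  have e0 : ((q ^ d 0 - 1 : ℕ) : ℤ) = M0 := by
    rw [hM0, Nat.cast_sub (by omega)]
    push_cast
    ring
  have e5 : ((q ^ d 5 - 1 : ℕ) : ℤ) = M5 := by
    rw [hM5, Nat.cast_sub (by omega)]
    push_cast
    ring
  have m0 : (d 0 : ℤ) * c0 = M0 - (q - 1) := by
    have := congrArg (fun n : ℕ => (n : ℤ)) c0m
    simp only [Nat.cast_mul] at this
    rw [this, Nat.cast_sub hq0, hM0]
    push_cast
    ring
  have m5 : (d 5 : ℤ) * c5 = M5 - (q - 1) := by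
    have := congrArg (fun n : ℕ => (n : ℤ)) c5m
    simp only [Nat.cast_mul] at this
    rw [this, Nat.cast_sub hq5, hM5]
    push_cast
    ring
  have hz : ((A : ℤ) * (c0 * c5) + B * (c0 * M5) + C * (M0 * c5) + E * (M0 * M5)) =
      A' * (c0 * c5) + B' * (c0 * M5) + C' * (M0 * c5) + E' * (M0 * M5) := by
    have := congrArg (fun n : ℕ => (n : ℤ)) he'
    simp only [Nat.cast_mul, Nat.cast_add, e0, e5] at this
    exact this
  -- sizes
  have hqz : (4 : ℤ) ≤ q := by exact_mod_cast hq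
  have hAz : |(A : ℤ) - A'| ≤ (q : ℤ) ^ a := by
    have h1 : (A : ℤ) ≤ (q : ℤ) ^ a := by exact_mod_cast hA
    have h2 : (A' : ℤ) ≤ (q : ℤ) ^ a := by exact_mod_cast hA'
    rw [abs_le]
    constructor <;> linarith [Int.natCast_nonneg A, Int.natCast_nonneg A']
  have hCz : |(C : ℤ) - C'| ≤ (q : ℤ) ^ b := by
    have h1 : (C : ℤ) ≤ (q : ℤ) ^ b := by exact_mod_cast hC
    have h2 : (C' : ℤ) ≤ (q : ℤ) ^ b := by exact_mod_cast hC'
    rw [abs_le]
    constructor <;> linarith [Int.natCast_nonneg C, Int.natCast_nonneg C']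
  have hc0 : (c0 : ℤ) ≤ (q : ℤ) ^ d 0 := by
    have : (c0 : ℤ) < ((q ^ d 0 - 1 : ℕ) : ℤ) := by exact_mod_cast c0l
    rw [e0, hM0] at this
    linarith
  have hM00 : 0 < M0 := by
    have : (c0 : ℤ) < ((q ^ d 0 - 1 : ℕ) : ℤ) := by exact_mod_cast c0l
    rw [e0] at this
    linarith [Int.natCast_nonneg c0]
  -- first step
  have hX : ((A : ℤ) - A') * c0 + ((C : ℤ) - C') * M0 = 0 := by
    refine eq_zero_of_dvd_small m5 ?_ ?_ (by linarith)
    · refine ⟨-(((B : ℤ) - B') * c0 + ((E : ℤ) - E') * M0), ?_⟩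
      linear_combination hz
    · have h1 : |((A : ℤ) - A') * c0 + ((C : ℤ) - C') * M0| ≤ (q : ℤ) ^ a * q ^ d 0 + q ^ b * q ^ d 0 := by
        refine (abs_add_le _ _).trans (add_le_add ?_ ?_)
        · rw [abs_mul, Nat.abs_cast]
          exact mul_le_mul hAz hc0 (Int.natCast_nonneg _) (by positivity)
        · rw [abs_mul, abs_of_pos hM00]
          exact mul_le_mul hCz (by rw [hM0]; linarith) hM00.le (by positivity)
      have h2 : (q : ℤ) ^ a ≤ q ^ b := pow_le_pow_right₀ (by linarith) hab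
      have h3 : (q : ℤ) ^ a * q ^ d 0 + q ^ b * q ^ d 0 ≤ 2 * q ^ (b + d 0) := by
        rw [pow_add]
        have : (q : ℤ) ^ a * q ^ d 0 ≤ q ^ b * q ^ d 0 :=
          mul_le_mul_of_nonneg_right h2 (by positivity)
        linarith
      have h4 : (q : ℤ) ^ (b + d 0 + 3) ≤ q ^ d 5 := pow_le_pow_right₀ (by linarith) (by omega)
      have h5 : (q : ℤ) ^ (b + d 0 + 3) = q ^ (b + d 0) * q * q ^ 2 := by ring
      have h6 : (0 : ℤ) < q ^ (b + d 0) := by positivity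
      have h7 : (16 : ℤ) ≤ q ^ 2 := by
        have := pow_le_pow_left₀ (by norm_num : (0 : ℤ) ≤ 4) hqz 2
        norm_num at this
        exact this
      have h8 : (0 : ℤ) < q ^ (b + d 0) * q := by positivity
      have h9 : 16 * ((q : ℤ) ^ (b + d 0) * q) ≤ q ^ (b + d 0) * q * q ^ 2 := by
        rw [mul_comm]
        exact mul_le_mul_of_nonneg_left h7 h8.le
      have h10 : ((q : ℤ) - 1) * |((A : ℤ) - A') * c0 + ((C : ℤ) - C') * M0| ≤
          q * (2 * q ^ (b + d 0)) :=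
        mul_le_mul (by linarith) (h1.trans h3) (abs_nonneg _) (by linarith)
      have h11 : (1 : ℤ) ≤ q ^ (b + d 0) * q := by linarith [h8]
      rw [hM5]
      linarith
  -- second step
  have hY : (A : ℤ) - A' = 0 := by
    refine eq_zero_of_dvd_small m0 ?_ ?_ (by linarith)
    · refine ⟨-((C : ℤ) - C'), ?_⟩
      linear_combination hX
    · have h4 : (q : ℤ) ^ (a + 2) ≤ q ^ d 0 := pow_le_pow_right₀ (by linarith) had
      have h5 : (q : ℤ) ^ (a + 2) = q ^ a * q * q := by ring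
      have h6 : (0 : ℤ) < q ^ a := by positivity
      have h8 : (0 : ℤ) < q ^ a * q := by positivity
      have h9 : 4 * ((q : ℤ) ^ a * q) ≤ q ^ a * q * q := by
        rw [mul_comm]
        exact mul_le_mul_of_nonneg_left hqz h8.le
      have h10 : ((q : ℤ) - 1) * |(A : ℤ) - A'| ≤ q * q ^ a :=
        mul_le_mul (by linarith) hAz (abs_nonneg _) (by linarith)
      have h11 : (1 : ℤ) ≤ q ^ a * q := by linarith [h8]
      rw [hM0]
      linarith
  have : (A : ℤ) = A' := by linarith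
  exact_mod_cast this

end Pool.Agent.Lib.MP_fa0f6c_al.Cx
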