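import Pool.Agent.Lib.MP_fa0f6c_al.Cx.Defs
import Pool.Agent.Lib.MP_fa0f6c_al.Cx.R02
import Pool.Agent.Lib.MP_fa0f6c_al.Cx.R03

set_option autoImplicit false

namespace Pool.Agent.Lib.MP_fa0f6c_al.Cx

open scoped ComplexConjugate

/-- linear extension of a function on the group to the group algebra -/
private noncomputable def linExt {G : Type} [Group G] (f : G → ℂ) : MonoidAlgebra ℂ G →ₗ[ℂ] ℂ :=
  (Finsupp.linearCombination ℂ f) ∘ₗ (MonoidAlgebra.coeffLinearEquiv ℂ).toLinearMap

private theorem linExt_single {G : Type} [Group G] (f : G → ℂ) (g : G) (c : ℂ) :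
    linExt f (MonoidAlgebra.single g c) = c * f g := by
  simp [linExt, MonoidAlgebra.coeffLinearEquiv]

/-- transport of functions along an isomorphism of group algebras -/
private noncomputable def transp {G H : Type} [Group G] [Group H]
    (e : MonoidAlgebra ℂ G ≃ₐ[ℂ] MonoidAlgebra ℂ H) (f : G → ℂ) : H → ℂ :=
  fun h => linExt f (e.symm (MonoidAlgebra.of ℂ H h))

private theorem linExt_transp {G H : Type} [Group G] [Group H]
    (e : MonoidAlgebra ℂ G ≃ₐ[ℂ] MonoidAlgebra ℂ H) (f : G → ℂ) (x : MonoidAlgebra ℂ G) :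
    linExt (transp e f) (e x) = linExt f x := by
  have h : ∀ y : MonoidAlgebra ℂ H, linExt (transp e f) y = linExt f (e.symm y) := by
    intro y
    induction y using MonoidAlgebra.induction_linear with
    | zero => simp
    | add a b ha hb => simp only [map_add, ha, hb]
    | single g c =>
      rw [linExt_single]
      have : (MonoidAlgebra.single g c : MonoidAlgebra ℂ H) = c • MonoidAlgebra.of ℂ H g := by
        simp [MonoidAlgebra.of_apply, MonoidAlgebra.smul_single]
      rw [this, map_smul, map_smul, smul_eq_mul]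
      rfl
  rw [h, AlgEquiv.symm_apply_apply]

private theorem transp_injective {G H : Type} [Group G] [Group H]
    (e : MonoidAlgebra ℂ G ≃ₐ[ℂ] MonoidAlgebra ℂ H) : Function.Injective (transp e) := by
  intro f f' hff
  funext g
  have h1 := linExt_transp e f (MonoidAlgebra.single g 1)
  have h2 := linExt_transp e f' (MonoidAlgebra.single g 1)
  rw [linExt_single, one_mul] at h1 h2
  rw [← h1, ← h2, hff]

private theorem linExt_character {G : Type} [Group G] {n : ℕ}
    (ρ : Representation ℂ G (Fin n → ℂ)) (x : MonoidAlgebra ℂ G) :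
    linExt ρ.character x = LinearMap.trace ℂ _ (ρ.asAlgebraHom x) := by
  induction x using MonoidAlgebra.induction_linear with
  | zero => simp
  | add a b ha hb => simp only [map_add, ha, hb]
  | single g c =>
    rw [linExt_single, Representation.asAlgebraHom_single, map_smul, smul_eq_mul]
    rfl

/-- the transported representation -/
private noncomputable def transpRep {G H : Type} [Group G] [Group H]
    (e : MonoidAlgebra ℂ G ≃ₐ[ℂ] MonoidAlgebra ℂ H) {n : ℕ}
    (ρ : Representation ℂ G (Fin n → ℂ)) : Representation ℂ H (Fin n → ℂ) :=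
  ((ρ.asAlgebraHom : MonoidAlgebra ℂ G →ₐ[ℂ] Module.End ℂ (Fin n → ℂ)).comp
    (e.symm : MonoidAlgebra ℂ H →ₐ[ℂ] MonoidAlgebra ℂ G) : MonoidAlgebra ℂ H →*
      Module.End ℂ (Fin n → ℂ)).comp (MonoidAlgebra.of ℂ H)

private theorem transpRep_apply {G H : Type} [Group G] [Group H]
    (e : MonoidAlgebra ℂ G ≃ₐ[ℂ] MonoidAlgebra ℂ H) {n : ℕ}
    (ρ : Representation ℂ G (Fin n → ℂ)) (h : H) :
    transpRep e ρ h = ρ.asAlgebraHom (e.symm (MonoidAlgebra.of ℂ H h)) := rfl

private theorem transpRep_alg {G H : Type} [Group G] [Group H]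
    (e : MonoidAlgebra ℂ G ≃ₐ[ℂ] MonoidAlgebra ℂ H) {n : ℕ}
    (ρ : Representation ℂ G (Fin n → ℂ)) (y : MonoidAlgebra ℂ H) :
    (transpRep e ρ).asAlgebraHom y = ρ.asAlgebraHom (e.symm y) := by
  induction y using MonoidAlgebra.induction_linear with
  | zero => simp
  | add a b ha hb => simp only [map_add, ha, hb]
  | single g c =>
    have : (MonoidAlgebra.single g c : MonoidAlgebra ℂ H) = c • MonoidAlgebra.of ℂ H g := by
      simp [MonoidAlgebra.of_apply, MonoidAlgebra.smul_single]
    rw [this, map_smul, map_smul, map_smul, Representation.asAlgebraHom_of, transpRep_apply]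

private theorem subrep_alg {G : Type} [Group G] {n : ℕ} {ρ : Representation ℂ G (Fin n → ℂ)}
    (W : Subrepresentation ρ) (x : MonoidAlgebra ℂ G) (v : Fin n → ℂ) (hv : v ∈ W.toSubmodule) :
    ρ.asAlgebraHom x v ∈ W.toSubmodule := by
  induction x using MonoidAlgebra.induction_linear with
  | zero => simp
  | add a b ha hb =>
    rw [map_add, LinearMap.add_apply]
    exact W.toSubmodule.add_mem ha hb
  | single g c =>
    rw [Representation.asAlgebraHom_single, LinearMap.smul_apply]
    exact W.toSubmodule.smul_mem c (W.apply_mem_toSubmodule g hv)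

private theorem transpRep_irr {G H : Type} [Group G] [Group H]
    (e : MonoidAlgebra ℂ G ≃ₐ[ℂ] MonoidAlgebra ℂ H) {n : ℕ}
    (ρ : Representation ℂ G (Fin n → ℂ)) (h : ρ.IsIrreducible) :
    (transpRep e ρ).IsIrreducible := by
  let F : Subrepresentation ρ ≃o Subrepresentation (transpRep e ρ) :=
    { toFun := fun W => ⟨W.toSubmodule, fun g v hv => by
        rw [transpRep_apply]
        exact subrep_alg W _ v hv⟩
      invFun := fun W => ⟨W.toSubmodule, fun g v hv => by
        have h1 := subrep_alg W (e (MonoidAlgebra.of ℂ G g)) v hv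
        rwa [transpRep_alg, AlgEquiv.symm_apply_apply, Representation.asAlgebraHom_of] at h1⟩
      left_inv := fun W => rfl
      right_inv := fun W => rfl
      map_rel_iff' := by
        intro a b
        exact Iff.rfl }
  exact (F.isSimpleOrder_iff).mp h

private theorem transp_mem {G H : Type} [Group G] [Group H]
    (e : MonoidAlgebra ℂ G ≃ₐ[ℂ] MonoidAlgebra ℂ H) {χ : G → ℂ} (h : χ ∈ Irr G) :
    transp e χ ∈ Irr H := by
  obtain ⟨n, ρ, hρ, rfl⟩ := h
  refine ⟨n, transpRep e ρ, transpRep_irr e ρ hρ, ?_⟩
  funext x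
  change linExt ρ.character _ = LinearMap.trace ℂ _ (transpRep e ρ x)
  rw [linExt_character, transpRep_apply]

private theorem transp_one {G H : Type} [Group G] [Group H]
    (e : MonoidAlgebra ℂ G ≃ₐ[ℂ] MonoidAlgebra ℂ H) (f : G → ℂ) : transp e f 1 = f 1 := by
  unfold transp
  rw [map_one, map_one, MonoidAlgebra.one_def, linExt_single, one_mul]

private theorem rdim_le {G H : Type} [Group G] [Finite G] [Group H] [Finite H]
    (e : MonoidAlgebra ℂ G ≃ₐ[ℂ] MonoidAlgebra ℂ H) (n : ℕ) : rdim G n ≤ rdim H n := by
  unfold rdim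
  refine Set.ncard_le_ncard_of_injOn (transp e) ?_ ((transp_injective e).injOn) ?_
  · rintro χ ⟨h1, h2⟩
    exact ⟨transp_mem e h1, by rw [transp_one]; exact h2⟩
  · exact (irr_finite H).subset (fun χ hχ => hχ.1)

/-- Isomorphic group algebras give the same numbers of irreducible characters of each degree.
HINT: an irreducible representation of `G` on `Fin n → ℂ` is a simple module over
`MonoidAlgebra ℂ G`, i.e. a surjective algebra homomorphism `MonoidAlgebra ℂ G →ₐ[ℂ] Module.End ..`;
compose with `e.symm` to get a representation of `H` on the same space (irreducible, as the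
sub-representations are the submodules for the algebra). Two representations have the same character
iff they are isomorphic iff the modules are isomorphic (`Representation.char_orthonormal`), so this
gives a bijection of characters preserving the degree. -/
theorem rdim_eq_of_algEquiv {G H : Type} [Group G] [Finite G] [Group H] [Finite H]
    (e : MonoidAlgebra ℂ G ≃ₐ[ℂ] MonoidAlgebra ℂ H) (n : ℕ) : rdim G n = rdim H n :=
  le_antisymm (rdim_le e n) (rdim_le e.symm n)

end Pool.Agent.Lib.MP_fa0f6c_al.Cx
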