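import Pool.Agent.Lib.MP_fa0f6c_al.Cx.C14
import Pool.Agent.Lib.MP_fa0f6c_al.Cx.C15
import Pool.Agent.Lib.MP_fa0f6c_al.Cx.C17
import Pool.Agent.Lib.MP_fa0f6c_al.Cx.C18
import Pool.Agent.Lib.MP_fa0f6c_al.Cx.R13

set_option autoImplicit false

namespace Pool.Agent.Lib.MP_fa0f6c_al.Cx

private theorem rH_eq_rdim (G : Type) [Group G] [Finite G] {h D : ℕ} (hD : D * h = Nat.card G) :
    rH G h = rdim G D := by
  unfold rH rdim
  congr 1
  ext χ
  have hG : 0 < Nat.card G := Nat.card_pos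
  have hh : h ≠ 0 := by
    rintro rfl
    omega
  have hh' : (h : ℂ) ≠ 0 := by exact_mod_cast hh
  have hDc : (D : ℂ) * (h : ℂ) = (Nat.card G : ℂ) := by exact_mod_cast hD
  constructor
  · rintro ⟨h1, h2⟩
    refine ⟨h1, ?_⟩
    rw [← hDc] at h2
    exact mul_right_cancel₀ hh' h2
  · rintro ⟨h1, h2⟩
    exact ⟨h1, by rw [h2, hDc]⟩

private theorem rH_eq_zero (G : Type) [Group G] [Finite G] {h : ℕ}
    (hD : ¬ ∃ D, D * h = Nat.card G) : rH G h = 0 := by
  unfold rH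
  have he : {χ : G → ℂ | χ ∈ Irr G ∧ χ 1 * (h : ℂ) = Nat.card G} = ∅ := by
    rw [Set.eq_empty_iff_forall_notMem]
    rintro χ ⟨h1, h2⟩
    obtain ⟨n, _, hn⟩ := irr_deg h1
    rw [hn] at h2
    exact hD ⟨n, by exact_mod_cast h2⟩
  rw [he, Set.ncard_empty]

private theorem card_algEquiv {G H : Type} [Group G] [Finite G] [Group H] [Finite H]
    (e : MonoidAlgebra ℂ G ≃ₐ[ℂ] MonoidAlgebra ℂ H) : Nat.card G = Nat.card H := by
  classical
  have := Fintype.ofFinite G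
  have := Fintype.ofFinite H
  have h1 : Module.finrank ℂ (MonoidAlgebra ℂ G) = Nat.card G := by
    rw [(MonoidAlgebra.coeffLinearEquiv (S := ℂ) (M := G) ℂ).finrank_eq,
      Module.finrank_finsupp_self, Nat.card_eq_fintype_card]
  have h2 : Module.finrank ℂ (MonoidAlgebra ℂ H) = Nat.card H := by
    rw [(MonoidAlgebra.coeffLinearEquiv (S := ℂ) (M := H) ℂ).finrank_eq,
      Module.finrank_finsupp_self, Nat.card_eq_fintype_card]
  rw [← h1, ← h2]
  exact e.toLinearEquiv.finrank_eq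

private theorem rH_iso {G H : Type} [Group G] [Finite G] [Group H] [Finite H] (e : G ≃* H)
    (h : ℕ) : rH G h = rH H h := by
  have hc : Nat.card G = Nat.card H := Nat.card_congr e.toEquiv
  by_cases hD : ∃ D, D * h = Nat.card G
  · obtain ⟨D, hD⟩ := hD
    rw [rH_eq_rdim G hD, rH_eq_rdim H (by rw [hD, hc]), rdim_congr e]
  · rw [rH_eq_zero G hD, rH_eq_zero H (by rwa [hc] at hD)]

private theorem card_idx (d : Fin 6 → ℕ) : Fintype.card (Idx d rhoT) = NN d := by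
  simp [Idx, Fintype.card_sigma, NN]

private theorem algebraMap_mem_of_family {o : Type} [CommRing o] [IsLocalRing o] [Finite o] {π : o}
    {κ : Type} [Fintype κ] [DecidableEq κ] {ψ : AddChar o ℂ} {F : Set (Stage (Matrix κ κ o))}
    (hF : ∀ ν ∈ F, ν.Terminal ∧ ∃ X s, IsFirst π 8 ψ X s ∧ s.Reach ν) :
    ∀ ν ∈ F, ν.Terminal ∧ ∀ c : o, algebraMap o (Matrix κ κ o) c ∈ ν.E := by
  intro ν hν
  obtain ⟨h1, X, s, hs, hr⟩ := hF ν hν
  exact ⟨h1, (reach_first hs hr).1⟩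

/-- Isomorphic group algebras have the same `rH`. PROOF: the groups have the same order (dimension of the group algebra: `finrank`, `Finsupp`/`MonoidAlgebra` basis indexed by
the group). If `h * D = |G|` for some `D : ℕ`, then `χ 1 * h = |G| ↔ χ 1 = D` and `rH = rdim G D` (`h > 0`, else both sides are the empty sets); `rdim_eq_of_algEquiv`. Otherwise both sides are `0` (`irr_deg`). -/
theorem rH_congr {G H : Type} [Group G] [Finite G] [Group H] [Finite H]
    (e : MonoidAlgebra ℂ G ≃ₐ[ℂ] MonoidAlgebra ℂ H) (h : ℕ) : rH G h = rH H h := by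
  have hc := card_algEquiv e
  by_cases hD : ∃ D, D * h = Nat.card G
  · obtain ⟨D, hD⟩ := hD
    rw [rH_eq_rdim G hD, rH_eq_rdim H (by rw [hD, hc]), rdim_eq_of_algEquiv e]
  · rw [rH_eq_zero G hD, rH_eq_zero H (by rwa [hc] at hD)]

/-- The W side: `A = 0`. PROOF: `exists_first` with `X = 0`, `exists_terminal`, `family`; `side_formula`; if `A ≠ 0` a node of type `{0,5}`: `e = 1`, `n = d`,
`ρ = rhoT` (`subst`), `w_side`. (`2 = u π` is not a unit.) -/
theorem w_formula {o : Type} [CommRing o] [IsLocalRing o] [Finite o] {π : o} {d : Fin 6 → ℕ}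
    {q : ℕ} (h : Nums d q) (hch : IsChain o π 16) (h2 : ∃ u : oˣ, (2 : o) = u * π)
    (hq : Nat.card (IsLocalRing.ResidueField o) = q) :
    ∃ B C E : ℕ,
      rH (Matrix (Idx d rhoT) (Idx d rhoT) o)ˣ (HH d q) =
        PP d q * (0 * (cc q (d 0) * cc q (d 5)) +
        B * (cc q (d 0) * (q ^ d 5 - 1)) + C * ((q ^ d 0 - 1) * cc q (d 5)) +
        E * ((q ^ d 0 - 1) * (q ^ d 5 - 1))) ∧
      C ≤ q ^ (16 * ((6 + 2 * d 0) ^ 4 + (6 + 2 * d 0) ^ 2)) := by
  classical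
  obtain ⟨ψ, hψ⟩ := exists_prim hch
  obtain ⟨s₀, hs₀⟩ := exists_first hch hψ (0 : Matrix (Idx d rhoT) (Idx d rhoT) o)
  obtain ⟨t₀, hr₀, ht₀⟩ := exists_terminal s₀
  obtain ⟨F, hF, _, hF2, hF3⟩ := family hch hψ hs₀ hr₀ ht₀
  have h2' : ¬ IsUnit (2 : o) := by
    obtain ⟨u, hu⟩ := h2
    rw [hu, mul_comm]
    exact chain_nonunit hch _
  obtain ⟨A, B, C, E, hA, _, hC, hA0, _⟩ := side_formula h hch h2' hq (card_idx d) F hF hF3
    (algebraMap_mem_of_family hF2)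
  have hAz : A = 0 := by
    by_contra hne
    obtain ⟨ν, hν, e, ⟨n, ρ, S, ε, g, hstd, _, k2, k3, k4, k5, _, k7⟩, he0, he5⟩ := hA0 hne
    obtain ⟨_, X, s, hs, hr⟩ := hF2 ν hν
    have he : ∀ k, e k = 1 := by
      intro k
      by_cases hk0 : k = 0
      · rw [hk0]; exact he0
      · by_cases hk5 : k = 5
        · rw [hk5]; exact he5
        · exact k2 k hk0 hk5
    obtain rfl : ρ = rhoT := by
      funext k
      rw [k4, he, one_mul]
    have hn : ∀ i, 0 < n i := by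
      intro i
      have h3 := k3 i
      rw [he, mul_one] at h3
      rw [h3]
      exact (h.prime i).pos
    obtain ⟨l1, l2⟩ := k7 he0 he5
    exact w_side h hch h2 hq ψ hψ hs hr hn hstd l1 (fun i => by
      have := k5 i
      rwa [he, pow_one] at this) l2
  subst hAz
  exact ⟨B, C, E, hA, hC⟩

/-- The t side: `A ≠ 0`. PROOF: `t_side`, `family` with `t₀ = t`, `side_formula`. -/
theorem t_formula {o : Type} [CommRing o] [IsLocalRing o] [Finite o] {π : o} {d : Fin 6 → ℕ}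
    {q : ℕ} (h : Nums d q) (hch : IsChain o π 16) (h2 : (2 : o) = 0)
    (hq : Nat.card (IsLocalRing.ResidueField o) = q) :
    ∃ A B C E : ℕ, A ≠ 0 ∧
      rH (Matrix (Idx d rhoT) (Idx d rhoT) o)ˣ (HH d q) =
        PP d q * (A * (cc q (d 0) * cc q (d 5)) +
        B * (cc q (d 0) * (q ^ d 5 - 1)) + C * ((q ^ d 0 - 1) * cc q (d 5)) +
        E * ((q ^ d 0 - 1) * (q ^ d 5 - 1))) ∧
      A ≤ q ^ (16 * (8 ^ 4 + 8 ^ 2)) ∧
      C ≤ q ^ (16 * ((6 + 2 * d 0) ^ 4 + (6 + 2 * d 0) ^ 2)) := by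
  classical
  obtain ⟨ψ, hψ⟩ := exists_prim hch
  obtain ⟨X, s, t, hs, hr, ht, hcnt⟩ := t_side h hch h2 hq ψ hψ
  obtain ⟨F, hF, htF, hF2, hF3⟩ := family hch hψ hs hr ht
  have h2' : ¬ IsUnit (2 : o) := by
    rw [h2]
    exact not_isUnit_zero
  obtain ⟨A, B, C, E, hA, hAb, hC, _, hA1⟩ := side_formula h hch h2' hq (card_idx d) F hF hF3
    (algebraMap_mem_of_family hF2)
  exact ⟨A, B, C, E, hA1 ⟨t, htF, hcnt⟩, hA, hAb, hC⟩

/-- The main theorem for abstract chain rings. PROOF: `rH_congr`, `w_formula`, `t_formula`, `final_arith`; transport from `GL (Fin N)` to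
`(Matrix (Idx d rhoT) (Idx d rhoT) o)ˣ` along `Fin (NN d) ≃ Idx d rhoT` (`Matrix.reindexAlgEquiv`/`RingEquiv`, `Units.mapEquiv`, `MonoidAlgebra.domCongr` or directly `rH` is
invariant under group isomorphisms: `irr_congr`). -/
theorem chain_main {o o' : Type} [CommRing o] [IsLocalRing o] [Finite o] {π : o} [CommRing o']
    [IsLocalRing o'] [Finite o'] {π' : o'} {d : Fin 6 → ℕ} {q : ℕ} (h : Nums d q)
    (hch : IsChain o π 16) (h2 : ∃ u : oˣ, (2 : o) = u * π)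
    (hq : Nat.card (IsLocalRing.ResidueField o) = q)
    (hch' : IsChain o' π' 16) (h2' : (2 : o') = 0)
    (hq' : Nat.card (IsLocalRing.ResidueField o') = q) :
    ¬ Nonempty (MonoidAlgebra ℂ (Matrix.GeneralLinearGroup (Fin (NN d)) o) ≃ₐ[ℂ]
      MonoidAlgebra ℂ (Matrix.GeneralLinearGroup (Fin (NN d)) o')) := by
  classical
  rintro ⟨e⟩
  obtain ⟨B, C, E, hw, hC⟩ := w_formula h hch h2 hq
  obtain ⟨A', B', C', E', hA', ht, hAb', hC'⟩ := t_formula h hch' h2' hq'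
  have ε : Idx d rhoT ≃ Fin (NN d) := Fintype.equivFinOfCardEq (card_idx d)
  have h1 : rH (Matrix (Idx d rhoT) (Idx d rhoT) o)ˣ (HH d q) =
      rH (Matrix.GeneralLinearGroup (Fin (NN d)) o) (HH d q) :=
    rH_iso (Units.mapEquiv ((Matrix.reindexAlgEquiv o o ε).toRingEquiv : Matrix (Idx d rhoT) (Idx d rhoT) o ≃*
      Matrix (Fin (NN d)) (Fin (NN d)) o)) _
  have h3 : rH (Matrix (Idx d rhoT) (Idx d rhoT) o')ˣ (HH d q) =
      rH (Matrix.GeneralLinearGroup (Fin (NN d)) o') (HH d q) :=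
    rH_iso (Units.mapEquiv ((Matrix.reindexAlgEquiv o' o' ε).toRingEquiv : Matrix (Idx d rhoT) (Idx d rhoT) o' ≃*
      Matrix (Fin (NN d)) (Fin (NN d)) o')) _
  have h4 := rH_congr e (HH d q)
  rw [← h1, ← h3, hw, ht] at h4
  have hPP : 0 < PP d q := by
    unfold PP
    have c1 := (cc_mul h 1).2.1
    have c2 := (cc_mul h 2).2.1
    have c3 := (cc_mul h 3).2.1
    have c4 := (cc_mul h 4).2.1
    positivity
  have h5 := final_arith h (PP d q) 0 B C E A' B' C' E' hPP h4 (Nat.zero_le _) hAb' hC hC'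
  exact hA' h5.symm

end Pool.Agent.Lib.MP_fa0f6c_al.Cx
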