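import Pool.Agent.Lib.MP_fa0f6c_al.Cx.E01

/-!
Part E of the blueprint: the two discrete valuation rings, the Witt vectors and the power series over
the field with `2 ^ f` elements.
-/

set_option autoImplicit false

namespace Pool.Agent.Lib.MP_fa0f6c_al.Cx

open IsLocalRing

/-- the residue field -/
abbrev KK (f : ℕ) : Type := GaloisField 2 f

/-- the Witt vectors over the field with `2 ^ f` elements -/
abbrev WW (f : ℕ) : Type := WittVector 2 (GaloisField 2 f)

/-- the power series over the field with `2 ^ f` elements -/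
abbrev PSer (f : ℕ) : Type := PowerSeries (GaloisField 2 f)

theorem WW_irreducible (f : ℕ) : Irreducible (2 : WW f) := by
  have h := WittVector.irreducible (p := 2) (k := GaloisField 2 f)
  exact_mod_cast h

theorem WW_complete (f : ℕ) : IsAdicComplete (maximalIdeal (WW f)) (WW f) := by
  have h : maximalIdeal (WW f) = Ideal.span {((2 : ℕ) : WW f)} := by
    rw [(WW_irreducible f).maximalIdeal_eq]
    norm_num
  rw [h]
  exact WittVector.isAdicCompleteIdealSpanP

theorem WW_card {f : ℕ} (hf : f ≠ 0) : Nat.card (ResidueField (WW f)) = 2 ^ f := by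
  rw [card_residue_of_surj (WittVector.constantCoeff (p := 2) (R := GaloisField 2 f))
    (WittVector.constantCoeff_surjective 2), GaloisField.card 2 f hf]

theorem WW_finite {f : ℕ} (hf : f ≠ 0) : Finite (ResidueField (WW f)) := by
  apply Nat.finite_of_card_ne_zero
  rw [WW_card hf]
  positivity

theorem PSer_irreducible (f : ℕ) : Irreducible (PowerSeries.X : PSer f) := PowerSeries.X_irreducible

theorem PSer_two (f : ℕ) : (2 : PSer f) = 0 := by
  have h : (2 : PSer f) = PowerSeries.C (2 : GaloisField 2 f) := (map_ofNat _ 2).symm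
  have h2 : (2 : GaloisField 2 f) = 0 := CharTwo.two_eq_zero
  rw [h]
  exact (congrArg PowerSeries.C h2).trans (map_zero _)

theorem PSer_card {f : ℕ} (hf : f ≠ 0) : Nat.card (ResidueField (PSer f)) = 2 ^ f := by
  rw [card_residue_of_surj (PowerSeries.constantCoeff (R := GaloisField 2 f))
    (PowerSeries.constantCoeff_surj), GaloisField.card 2 f hf]

theorem PSer_finite {f : ℕ} (hf : f ≠ 0) : Finite (ResidueField (PSer f)) := by
  apply Nat.finite_of_card_ne_zero
  rw [PSer_card hf]
  positivity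

theorem PSer_complete (f : ℕ) : IsAdicComplete (maximalIdeal (PSer f)) (PSer f) := by
  rw [(PSer_irreducible f).maximalIdeal_eq]
  have key : ∀ (n : ℕ) (x y : PSer f),
      x ≡ y [SMOD (Ideal.span {(PowerSeries.X : PSer f)} ^ n • ⊤ : Submodule (PSer f) (PSer f))] ↔
        ∀ i < n, PowerSeries.coeff i x = PowerSeries.coeff i y := by
    intro n x y
    rw [SModEq.sub_mem, smul_eq_mul, Ideal.mul_top, Ideal.span_singleton_pow,
      Ideal.mem_span_singleton, PowerSeries.X_pow_dvd_iff]
    refine forall₂_congr fun i _ => ?_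
    rw [map_sub, sub_eq_zero]
  refine { haus' := ?_, prec' := ?_ }
  · intro x h
    ext n
    exact (key (n + 1) x 0).1 (h (n + 1)) n (Nat.lt_succ_self n)
  · intro x h
    refine ⟨PowerSeries.mk fun n => PowerSeries.coeff n (x (n + 1)), fun n => ?_⟩
    rw [key]
    intro i hi
    rw [PowerSeries.coeff_mk]
    exact ((key (i + 1) (x (i + 1)) (x n)).1 (h hi) i (Nat.lt_succ_self i)).symm

/-! ### Summary -/

/-- the Witt side: `o = W(F_q) / 𝔪 ^ r` -/
theorem E_witt {f r : ℕ} (hf : f ≠ 0) (hr : r ≠ 0) :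
    ∃ _ : IsLocalRing (WW f ⧸ maximalIdeal (WW f) ^ r), Finite (WW f ⧸ maximalIdeal (WW f) ^ r) ∧
      IsChain (WW f ⧸ maximalIdeal (WW f) ^ r) 2 r ∧
      Nat.card (ResidueField (WW f ⧸ maximalIdeal (WW f) ^ r)) = 2 ^ f := by
  have := WW_finite hf
  obtain ⟨h1, h2, h3, h4⟩ := E01_main (WW_irreducible f) hr
  refine ⟨h1, h2, ?_, h4.trans (WW_card hf)⟩
  rwa [map_ofNat] at h3

/-- the power series side: `o = F_q[[t]] / 𝔪 ^ r` -/
theorem E_power {f r : ℕ} (hf : f ≠ 0) (hr : r ≠ 0) :
    ∃ _ : IsLocalRing (PSer f ⧸ maximalIdeal (PSer f) ^ r), Finite (PSer f ⧸ maximalIdeal (PSer f) ^ r) ∧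
      IsChain (PSer f ⧸ maximalIdeal (PSer f) ^ r)
        (Ideal.Quotient.mk (maximalIdeal (PSer f) ^ r) PowerSeries.X) r ∧
      (2 : PSer f ⧸ maximalIdeal (PSer f) ^ r) = 0 ∧
      Nat.card (ResidueField (PSer f ⧸ maximalIdeal (PSer f) ^ r)) = 2 ^ f := by
  have := PSer_finite hf
  obtain ⟨h1, h2, h3, h4⟩ := E01_main (PSer_irreducible f) hr
  refine ⟨h1, h2, h3, ?_, h4.trans (PSer_card hf)⟩
  have h5 : (2 : PSer f ⧸ maximalIdeal (PSer f) ^ r) =
      Ideal.Quotient.mk (maximalIdeal (PSer f) ^ r) 2 := (map_ofNat _ 2).symm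
  rw [h5, PSer_two, map_zero]

/-- The Witt side: `W(F_q)`, `q = 2 ^ f`. -/
theorem exists_W (f : ℕ) (hf : 0 < f) :
    ∃ (R : Type) (_ : CommRing R) (_ : IsDomain R) (_ : IsDiscreteValuationRing R),
      IsAdicComplete (IsLocalRing.maximalIdeal R) R ∧ Finite (IsLocalRing.ResidueField R) ∧
      Nat.card (IsLocalRing.ResidueField R) = 2 ^ f ∧ Irreducible (2 : R) :=
  ⟨WW f, inferInstance, inferInstance, inferInstance, WW_complete f, WW_finite (by omega),
    WW_card (by omega), WW_irreducible f⟩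

/-- The power series side: `F_q[[t]]`, `q = 2 ^ f`. -/
theorem exists_P (f : ℕ) (hf : 0 < f) :
    ∃ (R : Type) (_ : CommRing R) (_ : IsDomain R) (_ : IsDiscreteValuationRing R),
      IsAdicComplete (IsLocalRing.maximalIdeal R) R ∧ Finite (IsLocalRing.ResidueField R) ∧
      Nat.card (IsLocalRing.ResidueField R) = 2 ^ f ∧ (2 : R) = 0 :=
  ⟨PSer f, inferInstance, inferInstance, inferInstance, PSer_complete f, PSer_finite (by omega),
    PSer_card (by omega), PSer_two f⟩

end Pool.Agent.Lib.MP_fa0f6c_al.Cx
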