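import Mathlib

/-!
Part E of the blueprint: the numbers (section 6).  With `f = 2 ^ s` large, `q = 2 ^ f`, and
`n = j f`, `1 ≤ j ≤ N ≤ f`, no prime divisor of `Φ_n(2)` divides `n` (it would divide `j`, and the order
of `2` modulo it would be divisible by `2 ^ s ≥ N`), so it is a prime modulo which `2` has
order `n`, and `q = 2 ^ f` has order `j`; it is `1` modulo `n`, so greater than `f`.
-/

set_option autoImplicit false

namespace Pool.Agent.Lib.MP_fa0f6c_al.Cx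

/-- a prime `l` modulo which `2` has the order `j * 2 ^ s` -/
theorem exists_prime_order (s j : ℕ) (hj : 1 ≤ j) (hs : j ≤ 2 ^ s) (hs1 : 1 ≤ s) :
    ∃ l : ℕ, l.Prime ∧ orderOf (2 : ZMod l) = j * 2 ^ s := by
  set n := j * 2 ^ s with hn
  have h2s : 2 ≤ 2 ^ s := by
    calc 2 = 2 ^ 1 := by norm_num
      _ ≤ 2 ^ s := Nat.pow_le_pow_right (by norm_num) hs1
  have hn1 : 1 < n := by
    calc 1 < 2 ^ s := by omega
      _ = 1 * 2 ^ s := (one_mul _).symm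
      _ ≤ n := Nat.mul_le_mul_right _ hj
  have hn0 : n ≠ 0 := by omega
  have hlt := Polynomial.sub_one_lt_natAbs_cyclotomic_eval (n := n) (q := 2) hn1 (by norm_num)
  obtain ⟨l, hl, hdvd⟩ := Nat.exists_prime_and_dvd
    (n := (Polynomial.eval ((2 : ℕ) : ℤ) (Polynomial.cyclotomic n ℤ)).natAbs) (by omega)
  have : Fact l.Prime := ⟨hl⟩
  have hroot : (Polynomial.cyclotomic n (ZMod l)).IsRoot 2 := by
    rw [Polynomial.IsRoot.def]
    have h1 : ((Polynomial.eval ((2 : ℕ) : ℤ) (Polynomial.cyclotomic n ℤ) : ℤ) : ZMod l) = 0 := by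
      rw [ZMod.intCast_zmod_eq_zero_iff_dvd]
      exact Int.natCast_dvd.2 hdvd
    have h2 : Polynomial.eval (2 : ZMod l) (Polynomial.cyclotomic n (ZMod l)) =
        ((Polynomial.eval ((2 : ℕ) : ℤ) (Polynomial.cyclotomic n ℤ) : ℤ) : ZMod l) := by
      rw [← Polynomial.map_cyclotomic n (Int.castRingHom (ZMod l)), Polynomial.eval_map]
      have := Polynomial.hom_eval₂ (Polynomial.cyclotomic n ℤ) (RingHom.id ℤ)
        (Int.castRingHom (ZMod l)) ((2 : ℕ) : ℤ)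
      rw [RingHom.comp_id, Polynomial.eval₂_id] at this
      rw [eq_intCast] at this
      rw [this]
      simp
    rw [h2, h1]
  -- `l` is odd
  have hl2 : l ≠ 2 := by
    intro hl2
    have h00 : ((2 : ℕ) : ZMod l) = 0 := by rw [← hl2]; exact ZMod.natCast_self l
    have h0 : (2 : ZMod l) = 0 := by exact_mod_cast h00
    rw [h0, Polynomial.IsRoot.def, ← Polynomial.coeff_zero_eq_eval_zero,
      Polynomial.cyclotomic_coeff_zero _ hn1] at hroot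
    exact one_ne_zero hroot
  obtain ⟨k, m, hlm, hnm⟩ := Nat.exists_eq_pow_mul_and_not_dvd hn0 l hl.ne_one
  have hm0 : NeZero ((m : ℕ) : ZMod l) := ⟨by rwa [Ne, ZMod.natCast_eq_zero_iff]⟩
  rw [hnm, Polynomial.isRoot_cyclotomic_prime_pow_mul_iff_of_charP] at hroot
  have hord : orderOf (2 : ZMod l) = m := hroot.eq_orderOf.symm
  refine ⟨l, hl, ?_⟩
  rw [hord]
  rcases Nat.eq_zero_or_pos k with hk | hk
  · rw [hnm, hk, pow_zero, one_mul]
  · exfalso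
    have hcop : Nat.Coprime l (2 ^ s) :=
      Nat.Coprime.pow_right _ ((Nat.coprime_primes hl Nat.prime_two).2 hl2)
    have hln : l ∣ j * 2 ^ s := by
      rw [← hn, hnm]
      exact Dvd.dvd.mul_right (dvd_pow_self _ (by omega)) _
    have hlj : l ∣ j := hcop.dvd_of_dvd_mul_right hln
    have hlej : l ≤ j := Nat.le_of_dvd (by omega) hlj
    have h2m : 2 ^ s ∣ m := by
      have : 2 ^ s ∣ l ^ k * m := by
        rw [← hnm, hn]; exact dvd_mul_left _ _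
      exact (Nat.Coprime.pow_right k hcop.symm).dvd_of_dvd_mul_left this
    have hml : m ∣ l - 1 := by
      rw [← hord]
      apply ZMod.orderOf_dvd_card_sub_one
      intro h0
      have : ((2 : ℕ) : ZMod l) = 0 := by exact_mod_cast h0
      rw [ZMod.natCast_eq_zero_iff] at this
      exact hl2 ((Nat.prime_dvd_prime_iff_eq hl Nat.prime_two).1 this)
    have := Nat.le_of_dvd (by have := hl.two_le; omega) (h2m.trans hml)
    have := hl.two_le
    omega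

/-- The numbers of section 6 of the blueprint. -/
theorem numbers (N f₀ : ℕ) :
    ∃ f : ℕ, f₀ ≤ f ∧ 1 ≤ f ∧ ∃ l : ℕ → ℕ, ∀ j, 1 ≤ j → j ≤ N →
      (l j).Prime ∧ N.factorial * N ^ 2 < l j ∧ ¬ l j ∣ 2 ^ f ∧
      orderOf ((2 ^ f : ℕ) : ZMod (l j)) = j := by
  classical
  set s := N.factorial * N ^ 2 + f₀ + N + 1 with hs
  have hlt : s < 2 ^ s := Nat.lt_two_pow_self
  refine ⟨2 ^ s, by omega, by omega, ?_⟩
  have key : ∀ j : ℕ, ∃ l : ℕ, 1 ≤ j → j ≤ N → l.Prime ∧ N.factorial * N ^ 2 < l ∧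
      ¬ l ∣ 2 ^ 2 ^ s ∧ orderOf ((2 ^ 2 ^ s : ℕ) : ZMod l) = j := by
    intro j
    by_cases hj' : 1 ≤ j ∧ j ≤ N
    swap
    · exact ⟨0, fun h1 h2 => absurd ⟨h1, h2⟩ hj'⟩
    obtain ⟨hj, hjN⟩ := hj'
    obtain ⟨l, hl, hord⟩ := exists_prime_order s j hj (by omega) (by omega)
    refine ⟨l, fun _ _ => ?_⟩
    have : Fact l.Prime := ⟨hl⟩
    have h20 : (2 : ZMod l) ≠ 0 := by
      intro h0
      rw [h0] at hord
      have h1 : orderOf (0 : ZMod l) = 0 := orderOf_zero _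
      rw [h1] at hord
      have : j * 2 ^ s ≠ 0 := by positivity
      exact this hord.symm
    have hdvd : j * 2 ^ s ∣ l - 1 := by
      rw [← hord]; exact ZMod.orderOf_dvd_card_sub_one h20
    refine ⟨hl, ?_, ?_, ?_⟩
    · have h1 := Nat.le_of_dvd (by have := hl.two_le; omega) hdvd
      have h2 : 2 ^ s ≤ j * 2 ^ s := Nat.le_mul_of_pos_left _ (by omega)
      omega
    · intro hd
      have h1 : l ∣ 2 := hl.dvd_of_dvd_pow hd
      apply h20
      have h2 : ((2 : ℕ) : ZMod l) = 0 := (ZMod.natCast_eq_zero_iff 2 l).2 h1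
      exact_mod_cast h2
    · have h1 : ((2 ^ 2 ^ s : ℕ) : ZMod l) = (2 : ZMod l) ^ 2 ^ s := by push_cast; rfl
      rw [h1, orderOf_pow_of_dvd (by positivity) (by rw [hord]; exact dvd_mul_left _ _), hord,
        Nat.mul_div_cancel _ (by positivity)]
  choose l hl using key
  exact ⟨l, fun j h1 h2 => hl j h1 h2⟩

/-- `q + 1` has an odd prime divisor -/
theorem exists_prime_succ {f : ℕ} (hf : 1 ≤ f) : ∃ l : ℕ, l.Prime ∧ l ∣ 2 ^ f + 1 ∧ l ≠ 2 := by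
  have h0 : 0 < 2 ^ f := by positivity
  obtain ⟨l, hl, hd⟩ := Nat.exists_prime_and_dvd (n := 2 ^ f + 1) (by omega)
  refine ⟨l, hl, hd, ?_⟩
  rintro rfl
  have h1 : 2 ∣ 2 ^ f := dvd_pow_self 2 (by omega)
  have h2 : 2 ∣ 1 := (Nat.dvd_add_right h1).1 hd
  omega

/-- a prime divisor of `q + 1` does not divide `q ^ d - 1` for odd `d` -/
theorem succ_not_dvd {f l : ℕ} (hf : 1 ≤ f) (hl : l.Prime) (hd : l ∣ 2 ^ f + 1) {d : ℕ}
    (hodd : Odd d) : ¬ l ∣ (2 ^ f) ^ d - 1 := by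
  intro h
  have h1 : 1 ≤ (2 ^ f) ^ d := Nat.one_le_pow _ _ (by positivity)
  have h2 : l ∣ (2 ^ f) ^ d + 1 := by
    have h3 : 2 ^ f + 1 ∣ (2 ^ f) ^ d + 1 ^ d := Odd.nat_add_dvd_pow_add_pow _ _ hodd
    rw [one_pow] at h3
    exact hd.trans h3
  have h3 : l ∣ ((2 ^ f) ^ d + 1) - ((2 ^ f) ^ d - 1) := Nat.dvd_sub h2 h
  have h4 : ((2 ^ f) ^ d + 1) - ((2 ^ f) ^ d - 1) = 2 := by omega
  rw [h4] at h3
  have h5 : l = 2 := (Nat.prime_dvd_prime_iff_eq hl Nat.prime_two).1 h3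
  rw [h5] at hd
  have h6 : 2 ∣ 2 ^ f := dvd_pow_self 2 (by omega)
  have h7 : 2 ∣ 1 := (Nat.dvd_add_right h6).1 hd
  omega

open scoped Nat in
/-- Choice of `q = 2 ^ f`. -/
theorem exists_f (N : ℕ) : ∃ f : ℕ, 0 < f ∧ 4 ≤ 2 ^ f ∧
    (∃ l, l.Prime ∧ N ! < l ∧ l ∣ 2 ^ f - 1) ∧
    ∀ j, 2 ≤ j → j ≤ N → ∃ l, l.Prime ∧ N ! < l ∧ orderOf ((2 ^ f : ℕ) : ZMod l) = j := by
  obtain ⟨f, hf, hf1, l, hl⟩ := numbers (N + 1) 2
  have h4 : 4 ≤ 2 ^ f := by
    calc 4 = 2 ^ 2 := by norm_num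
      _ ≤ 2 ^ f := Nat.pow_le_pow_right (by norm_num) hf
  have hbig : N ! ≤ (N + 1)! * (N + 1) ^ 2 := by
    calc N ! ≤ (N + 1)! := Nat.factorial_le (Nat.le_succ N)
      _ = (N + 1)! * 1 := (mul_one _).symm
      _ ≤ (N + 1)! * (N + 1) ^ 2 := Nat.mul_le_mul_left _ (Nat.one_le_pow _ _ (by omega))
  refine ⟨f, hf1, h4, ?_, fun j hj hjN => ?_⟩
  · obtain ⟨h1, h2, -, h3⟩ := hl 1 le_rfl (by omega)
    refine ⟨l 1, h1, lt_of_le_of_lt hbig h2, ?_⟩
    have h5 : ((2 ^ f : ℕ) : ZMod (l 1)) = 1 := orderOf_eq_one_iff.1 h3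
    have h6 : (((2 ^ f - 1 : ℕ)) : ZMod (l 1)) = 0 := by
      rw [Nat.cast_sub (Nat.one_le_pow _ _ (by norm_num)), h5, Nat.cast_one, sub_self]
    exact (ZMod.natCast_eq_zero_iff _ _).1 h6
  · obtain ⟨h1, h2, -, h3⟩ := hl j (by omega) (by omega)
    exact ⟨l j, h1, lt_of_le_of_lt hbig h2, h3⟩

end Pool.Agent.Lib.MP_fa0f6c_al.Cx
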