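import Pool.Agent.Lib.MP_fa0f6c_al.Cx.E01
import Pool.Agent.Lib.MP_fa0f6c_al.Cx.E02
import Pool.Agent.Lib.MP_fa0f6c_al.Cx.E03

/-! Part E: `dvr_chain`, `exists_W`, `exists_P`, `exists_f`. -/
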