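import Pool.Agent.Lib.MP_fa0f6c_al.Cx.C19
import Pool.Agent.Lib.MP_fa0f6c_al.Cx.E05

set_option autoImplicit false

namespace Pool.Agent.Lib.MP_fa0f6c_al.Cx

/-- Choice of the numbers. PROOF: `Nat.exists_infinite_primes` six times; `exists_f` with `N = NN d`. -/
theorem exists_nums : ∃ (d : Fin 6 → ℕ) (f : ℕ), 0 < f ∧ Nums d (2 ^ f) := by
  obtain ⟨d0, h0, p0⟩ := Nat.exists_infinite_primes 66582
  obtain ⟨d5, h5, p5⟩ := Nat.exists_infinite_primes
    (16 * ((6 + 2 * d0) ^ 4 + (6 + 2 * d0) ^ 2) + d0 + 30 + 1)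
  obtain ⟨d4, h4, p4⟩ := Nat.exists_infinite_primes (20000 * d5 ^ 2 + 1)
  obtain ⟨d3, h3, p3⟩ := Nat.exists_infinite_primes (20000 * d4 ^ 2 + 1)
  obtain ⟨d2, h2, p2⟩ := Nat.exists_infinite_primes (20000 * d3 ^ 2 + 1)
  obtain ⟨d1, h1, p1⟩ := Nat.exists_infinite_primes (20000 * d2 ^ 2 + 1)
  let d : Fin 6 → ℕ := ![d0, d1, d2, d3, d4, d5]
  obtain ⟨f, hf, hf4, hl1, hlj⟩ := exists_f (NN d)
  refine ⟨d, f, hf, ?_⟩
  exact
    { prime := by
        intro k
        fin_cases k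
        · exact p0
        · exact p1
        · exact p2
        · exact p3
        · exact p4
        · exact p5
      g0 := show 66581 < d0 by omega
      g5 := show 16 * ((6 + 2 * d0) ^ 4 + (6 + 2 * d0) ^ 2) + d0 + 30 < d5 from h5
      g4 := show 20000 * d5 ^ 2 < d4 from h4
      g3 := show 20000 * d4 ^ 2 < d3 from h3
      g2 := show 20000 * d3 ^ 2 < d2 from h2
      g1 := show 20000 * d2 ^ 2 < d1 from h1
      q2 := ⟨f, hf, rfl⟩
      q4 := hf4
      l1 := hl1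
      lj := hlj }

/-- The disproof of Onn's conjecture. PROOF: `exists_nums`, `exists_W`, `exists_P`, `dvr_chain` with `w = 2` resp. any irreducible element, `r = 16`, `chain_main`
(`(2 : o) = 1 * π` with `π = mk 2`). -/
theorem onn_false :
    ¬ (∀ (R R' : Type) [CommRing R] [IsDomain R] [IsDiscreteValuationRing R]
      [CommRing R'] [IsDomain R'] [IsDiscreteValuationRing R'],
      IsAdicComplete (IsLocalRing.maximalIdeal R) R →
      IsAdicComplete (IsLocalRing.maximalIdeal R') R' →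
      Finite (IsLocalRing.ResidueField R) →
      Finite (IsLocalRing.ResidueField R') →
      Nat.card (IsLocalRing.ResidueField R) = Nat.card (IsLocalRing.ResidueField R') →
      ∀ N r : ℕ,
        Nonempty
          (MonoidAlgebra ℂ
              (Matrix.GeneralLinearGroup (Fin N) (R ⧸ (IsLocalRing.maximalIdeal R) ^ r)) ≃ₐ[ℂ]
            MonoidAlgebra ℂ
              (Matrix.GeneralLinearGroup (Fin N) (R' ⧸ (IsLocalRing.maximalIdeal R') ^ r)))) := by
  intro H
  obtain ⟨d, f, hf, hd⟩ := exists_nums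
  obtain ⟨R, iR1, iR2, iR3, hRc, hRf, hRq, hR2⟩ := exists_W f hf
  obtain ⟨R', iR1', iR2', iR3', hRc', hRf', hRq', hR2'⟩ := exists_P f hf
  obtain ⟨w', hw'⟩ := IsDiscreteValuationRing.exists_irreducible R'
  obtain ⟨iL, iF, hch, hres⟩ := dvr_chain R hRf 2 hR2 16 (by norm_num)
  obtain ⟨iL', iF', hch', hres'⟩ := dvr_chain R' hRf' w' hw' 16 (by norm_num)
  have h2 : (2 : R ⧸ (IsLocalRing.maximalIdeal R) ^ 16) =
      ((1 : (R ⧸ (IsLocalRing.maximalIdeal R) ^ 16)ˣ) : R ⧸ (IsLocalRing.maximalIdeal R) ^ 16) *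
        Ideal.Quotient.mk ((IsLocalRing.maximalIdeal R) ^ 16) 2 := by
    rw [Units.val_one, one_mul, map_ofNat]
  have h2' : (2 : R' ⧸ (IsLocalRing.maximalIdeal R') ^ 16) = 0 := by
    rw [← map_ofNat (Ideal.Quotient.mk ((IsLocalRing.maximalIdeal R') ^ 16)) 2]
    rw [hR2', map_zero]
  refine chain_main hd hch ⟨1, h2⟩ (hres.trans hRq) hch' h2' (hres'.trans hRq') ?_
  exact H R R' hRc hRc' hRf hRf' (hRq.trans hRq'.symm) (NN d) 16

end Pool.Agent.Lib.MP_fa0f6c_al.Cx
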