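import Pool.Agent.Lib.MP_fa0f6c_al.Cx.FDefs2

/-!
Part C: numbers.  `d k` (`k : Fin 6`) are odd primes with `d 0 << d 5 << d 4 << d 3 << d 2 << d 1`.
Blueprint: ONN_blueprint.md, sections 0, 4, 6.
-/

set_option autoImplicit false

namespace Pool.Agent.Lib.MP_fa0f6c_al.Cx

open scoped Nat

/-- the size of the matrices -/
def NN (d : Fin 6 → ℕ) : ℕ := ∑ k, d k * rhoT k

/-- the exponent of `q` in the target value of `|G| / χ(1)` -/
def EE (d : Fin 6 → ℕ) : ℕ :=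
  (∑ k, ∑ l, lenT k l * (d k * d l)) - ∑ k, (d k * (d k + 1) / 2)

/-- the target value of `|G| / χ(1)` -/
def HH (d : Fin 6 → ℕ) (q : ℕ) : ℕ := q ^ EE d * ∏ k, (q ^ d k - 1)

/-- the number of cuspidal characters of `GL_m(F_q)`, `m` prime -/
def cc (q m : ℕ) : ℕ := (q ^ m - q) / m

/-- All properties of the numbers `d k`, `q` which are used. -/
structure Nums (d : Fin 6 → ℕ) (q : ℕ) : Prop where
  prime : ∀ k, (d k).Prime
  g0 : 66581 < d 0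
  g5 : 16 * ((6 + 2 * d 0) ^ 4 + (6 + 2 * d 0) ^ 2) + d 0 + 30 < d 5
  g4 : 20000 * d 5 ^ 2 < d 4
  g3 : 20000 * d 4 ^ 2 < d 3
  g2 : 20000 * d 3 ^ 2 < d 2
  g1 : 20000 * d 2 ^ 2 < d 1
  q2 : ∃ f, 0 < f ∧ q = 2 ^ f
  q4 : 4 ≤ q
  l1 : ∃ l, l.Prime ∧ (NN d)! < l ∧ l ∣ q - 1
  lj : ∀ j, 2 ≤ j → j ≤ NN d → ∃ l, l.Prime ∧ (NN d)! < l ∧ orderOf (q : ZMod l) = j

/-- The data of an irreducible character of `∏ GL_{n_i}(F_{q^{e_i}})` used in the decoding: `T i` is the multiset of the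
degrees of the cuspidal support of the `i`-th component, `hh i = |GL_{n_i}| / degree`. -/
structure BlockData (d : Fin 6 → ℕ) (q : ℕ) {b : ℕ} (n e : Fin b → ℕ) (T : Fin b → Multiset ℕ)
    (hh : Fin b → ℕ) : Prop where
  n_pos : ∀ i, 0 < n i
  e_pos : ∀ i, 0 < e i
  bound : ∀ i, n i * e i ≤ NN d
  T_pos : ∀ i, ∀ m ∈ T i, 0 < m
  T_sum : ∀ i, (T i).sum = n i
  h_pos : ∀ i, 0 < hh i
  alpha : ∀ i l, l.Prime → (NN d)! < l →
    ((T i).map (fun m => padicValNat l (q ^ (e i * m) - 1))).sum ≤ padicValNat l (hh i)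
  beta : ∀ i, e i = 1 → (∀ m, 1 < m → (T i).count m ≤ 1) → ∀ m₀ l, (T i).count 1 < m₀ →
    l.Prime → (NN d)! < l → orderOf (q : ZMod l) = m₀ → l ∣ hh i → ∃ m ∈ T i, 1 < m ∧ m₀ ∣ m
  one : ∀ i, n i = 1 → hh i ∣ q ^ e i - 1
  prod : ∀ l, l.Prime → (NN d)! < l →
    ∑ i, padicValNat l (hh i) = ∑ k, padicValNat l (q ^ d k - 1)

/-- `κ` assigns to each of the six objects its block. -/
structure Kappa (d : Fin 6 → ℕ) {b : ℕ} (n e : Fin b → ℕ) (κ : Fin 6 → Fin b) : Prop where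
  surj : Function.Surjective κ
  e_eq : ∀ k, e (κ k) = 1 ∨ (e (κ k) = d k ∧ n (κ k) = 1)
  sum : ∀ i, n i * e i = ∑ k ∈ Finset.univ.filter (fun k => κ k = i), d k

/-- the support of the `i`-th component -/
def suppK (d : Fin 6 → ℕ) {b : ℕ} (e : Fin b → ℕ) (κ : Fin 6 → Fin b) (i : Fin b) : Multiset ℕ :=
  (Finset.univ.filter (fun k => κ k = i)).val.map (fun k => d k / e i)

/-- The number of characters over a stage with `|G| / χ(1) = h`. -/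
noncomputable def cnt {R : Type} [Ring R] (s : Stage R) (h : ℕ) : ℕ :=
  Set.ncard {χ | χ ∈ Irr Rˣ ∧ s.Over χ ∧ χ 1 * h = Nat.card Rˣ}

end Pool.Agent.Lib.MP_fa0f6c_al.Cx
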