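import Pool.Agent.Lib.MP_fa0f6c_al.Cx.FDefs

/-! The numerical data of the distinguished node (T-values). -/

set_option autoImplicit false

namespace Pool.Agent.Lib.MP_fa0f6c_al.Cx

/-- ranks: blocks `1,2,3,4` are the anchors, blocks `0` and `5` have rank two -/
def rhoT : Fin 6 → ℕ := ![2, 1, 1, 1, 1, 2]

/-- `log_q |C i j|` of the distinguished node -/
def lenT : Fin 6 → Fin 6 → ℕ :=
  ![![48, 24, 24, 22, 22, 44],
    ![24, 16, 12, 11, 11, 22],
    ![24, 12, 16, 11, 11, 22],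
    ![22, 11, 11, 16, 12, 24],
    ![22, 11, 11, 12, 16, 24],
    ![44, 22, 22, 24, 24, 48]]

end Pool.Agent.Lib.MP_fa0f6c_al.Cx
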