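import Pool.Agent.Lib.MP_fa0f6c_al.Cx.F02
import Pool.Agent.Lib.MP_fa0f6c_al.Cx.F13
import Pool.Agent.Lib.MP_fa0f6c_al.Cx.FDefs2

set_option autoImplicit false
set_option linter.unusedSectionVars false

namespace Pool.Agent.Lib.MP_fa0f6c_al.Cx

/-- multiplicities one -/
abbrev n1 {b : ℕ} : Fin b → ℕ := fun _ => 1

/-- the character on the diagonal corner `i` of a stage in basic standard form -/
noncomputable def muc {o : Type} [CommRing o] {b : ℕ} {ρ : Fin b → ℕ}
    (s : Stage (Matrix (Idx (n1 (b := b)) ρ) (Idx (n1 (b := b)) ρ) o)) (i : Fin b)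
    (x : Matrix (Fin (ρ i)) (Fin (ρ i)) o) : ℂ := s.m (place i 0 i 0 x)

variable {o : Type} [CommRing o] [IsLocalRing o] [Finite o] {π : o} {b : ℕ} {ρ : Fin b → ℕ}


omit [CommRing o] in
private theorem ext_blk {n : Fin b → ℕ} {x y : Matrix (Idx n ρ) (Idx n ρ) o}
    (h : ∀ i s j t, blk x i s j t = blk y i s j t) : x = y := by
  ext ⟨i, s, a⟩ ⟨j, t, c⟩
  exact congrFun (congrFun (h i s j t) a) c

private theorem blk_sum' {n : Fin b → ℕ} {κ : Type} (S : Finset κ)
    (f : κ → Matrix (Idx n ρ) (Idx n ρ) o) (i : Fin b) (s : Fin (n i)) (j : Fin b)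
    (t : Fin (n j)) : blk (∑ k ∈ S, f k) i s j t = ∑ k ∈ S, blk (f k) i s j t := by
  ext a c
  simp [blk, Matrix.sum_apply]
private theorem blk_place_mul {n : Fin b → ℕ} (i : Fin b) (s : Fin (n i)) (j : Fin b)
    (t : Fin (n j)) (y : Matrix (Fin (ρ i)) (Fin (ρ j)) o) (x : Matrix (Idx n ρ) (Idx n ρ) o)
    (l : Fin b) (v : Fin (n l)) :
    blk (place i s j t y * x) i s l v = y * blk x j t l v := by
  rw [blk_mul, Finset.sum_eq_single j, Finset.sum_eq_single t]
  · rw [blk_place_self]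
  · intro u _ hu
    rw [blk_place_ne, Matrix.zero_mul]
    rintro ⟨_, _, _, h⟩
    exact hu (Fin.ext h)
  · intro h; exact absurd (Finset.mem_univ _) h
  · intro k _ hk
    apply Finset.sum_eq_zero
    intro u _
    rw [blk_place_ne, Matrix.zero_mul]
    rintro ⟨_, h, _⟩
    exact hk h
  · intro h; exact absurd (Finset.mem_univ _) h

private theorem blk_place_mul_ne {n : Fin b → ℕ} (i : Fin b) (s : Fin (n i)) (j : Fin b)
    (t : Fin (n j)) (y : Matrix (Fin (ρ i)) (Fin (ρ j)) o) (x : Matrix (Idx n ρ) (Idx n ρ) o)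
    (k : Fin b) (u : Fin (n k)) (l : Fin b) (v : Fin (n l)) (h : ¬ (k = i ∧ (u : ℕ) = s)) :
    blk (place i s j t y * x) k u l v = 0 := by
  rw [blk_mul]
  apply Finset.sum_eq_zero
  intro k' _
  apply Finset.sum_eq_zero
  intro u' _
  rw [blk_place_ne, Matrix.zero_mul]
  rintro ⟨h1, _, h2, _⟩
  exact h ⟨h1, h2⟩

private theorem blk_mul_place {n : Fin b → ℕ} (i : Fin b) (s : Fin (n i)) (j : Fin b)
    (t : Fin (n j)) (y : Matrix (Fin (ρ i)) (Fin (ρ j)) o) (x : Matrix (Idx n ρ) (Idx n ρ) o)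
    (l : Fin b) (v : Fin (n l)) :
    blk (x * place i s j t y) l v j t = blk x l v i s * y := by
  rw [blk_mul, Finset.sum_eq_single i, Finset.sum_eq_single s]
  · rw [blk_place_self]
  · intro u _ hu
    rw [blk_place_ne, Matrix.mul_zero]
    rintro ⟨_, _, h, _⟩
    exact hu (Fin.ext h)
  · intro h; exact absurd (Finset.mem_univ _) h
  · intro k _ hk
    apply Finset.sum_eq_zero
    intro u _
    rw [blk_place_ne, Matrix.mul_zero]
    rintro ⟨h, _⟩
    exact hk h
  · intro h; exact absurd (Finset.mem_univ _) h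

private theorem blk_mul_place_ne {n : Fin b → ℕ} (i : Fin b) (s : Fin (n i)) (j : Fin b)
    (t : Fin (n j)) (y : Matrix (Fin (ρ i)) (Fin (ρ j)) o) (x : Matrix (Idx n ρ) (Idx n ρ) o)
    (k : Fin b) (u : Fin (n k)) (l : Fin b) (v : Fin (n l)) (h : ¬ (l = j ∧ (v : ℕ) = t)) :
    blk (x * place i s j t y) k u l v = 0 := by
  rw [blk_mul]
  apply Finset.sum_eq_zero
  intro k' _
  apply Finset.sum_eq_zero
  intro u' _
  rw [blk_place_ne, Matrix.mul_zero]
  rintro ⟨_, h1, _, h2⟩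
  exact h ⟨h1, h2⟩

private theorem place_mem_ring {n : Fin b → ℕ} (S : Corners o ρ) (i : Fin b) (s : Fin (n i))
    (j : Fin b) (t : Fin (n j)) {x : Matrix (Fin (ρ i)) (Fin (ρ j)) o} (hx : x ∈ S.C i j) :
    place i s j t x ∈ S.ring n := by
  show ∀ p a q c, blk (place i s j t x) p a q c ∈ S.C p q
  intro p a q c
  by_cases h : p = i ∧ q = j ∧ (a : ℕ) = s ∧ (c : ℕ) = t
  · obtain ⟨rfl, rfl, ha, hc⟩ := h
    obtain rfl : a = s := Fin.ext ha
    obtain rfl : c = t := Fin.ext hc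
    rw [blk_place_self]
    exact hx
  · rw [blk_place_ne _ _ _ _ _ _ _ _ _ h]
    exact (S.C p q).zero_mem

private theorem place_mem_rad {n : Fin b → ℕ} (S : Corners o ρ) (i : Fin b) (s : Fin (n i))
    (j : Fin b) (t : Fin (n j)) {x : Matrix (Fin (ρ i)) (Fin (ρ j)) o} (hx : x ∈ S.C i j)
    (hij : i ≠ j) : place i s j t x ∈ S.rad n := by
  refine ⟨place_mem_ring S i s j t hx, ?_⟩
  intro p a c
  rw [blk_place_ne _ _ _ _ _ _ _ _ _ (fun h => hij (h.1.symm.trans h.2.1))]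
  exact (S.J p).zero_mem

private theorem place_mem_rad' {n : Fin b → ℕ} (S : Corners o ρ) (i : Fin b) (s : Fin (n i))
    (t : Fin (n i)) {x : Matrix (Fin (ρ i)) (Fin (ρ i)) o} (hx : x ∈ S.J i) :
    place i s i t x ∈ S.rad n := by
  refine ⟨place_mem_ring S i s i t (S.J_le i hx), ?_⟩
  intro p a c
  by_cases h : p = i ∧ p = i ∧ (a : ℕ) = s ∧ (c : ℕ) = t
  · obtain ⟨rfl, _, ha, hc⟩ := h
    obtain rfl : a = s := Fin.ext ha
    obtain rfl : c = t := Fin.ext hc
    rw [blk_place_self]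
    exact hx
  · rw [blk_place_ne _ _ _ _ _ _ _ _ _ h]
    exact (S.J p).zero_mem

private theorem D01_place_add {n : Fin b → ℕ} (i : Fin b) (s : Fin (n i)) (j : Fin b)
    (t : Fin (n j)) (x y : Matrix (Fin (ρ i)) (Fin (ρ j)) o) :
    place i s j t (x + y) = place i s j t x + place i s j t y := by
  ext u v
  simp only [place, Matrix.add_apply]
  split_ifs <;> simp

private theorem D01_place_smul {n : Fin b → ℕ} (i : Fin b) (s : Fin (n i)) (j : Fin b)
    (t : Fin (n j)) (c : o) (x : Matrix (Fin (ρ i)) (Fin (ρ j)) o) :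
    place i s j t (c • x) = c • place i s j t x := by
  ext u v
  simp only [place, Matrix.smul_apply]
  split_ifs <;> simp

private theorem D01_blk_sub {n : Fin b → ℕ} (x y : Matrix (Idx n ρ) (Idx n ρ) o) (i : Fin b)
    (s : Fin (n i)) (j : Fin b) (t : Fin (n j)) :
    blk (x - y) i s j t = blk x i s j t - blk y i s j t := by
  ext a c
  simp [blk]

private theorem D01_blk_smul {n : Fin b → ℕ} (c : o) (x : Matrix (Idx n ρ) (Idx n ρ) o) (i : Fin b)
    (s : Fin (n i)) (j : Fin b) (t : Fin (n j)) :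
    blk (c • x) i s j t = c • blk x i s j t := by
  ext a d
  simp [blk]

private theorem D01_trace {n : Fin b → ℕ} (z : Matrix (Idx n ρ) (Idx n ρ) o) :
    z.trace = ∑ k : Fin b, ∑ u : Fin (n k), (blk z k u k u).trace := by
  simp only [Matrix.trace, blk, Matrix.diag_apply]
  rw [Fintype.sum_sigma]
  refine Finset.sum_congr rfl fun j _ => ?_
  rw [Fintype.sum_prod_type]

private theorem D01_trace_place {n : Fin b → ℕ} (X : Matrix (Idx n ρ) (Idx n ρ) o) (i : Fin b)
    (s : Fin (n i)) (y : Matrix (Fin (ρ i)) (Fin (ρ i)) o) :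
    (X * place i s i s y).trace = (blk X i s i s * y).trace := by
  rw [D01_trace, Finset.sum_eq_single i, Finset.sum_eq_single s]
  · rw [blk_mul_place]
  · intro u _ hu
    rw [blk_mul_place_ne, Matrix.trace_zero]
    rintro ⟨_, h⟩
    exact hu (Fin.ext h)
  · intro h; exact absurd (Finset.mem_univ _) h
  · intro k _ hk
    apply Finset.sum_eq_zero
    intro u _
    rw [blk_mul_place_ne, Matrix.trace_zero]
    rintro ⟨h, _⟩
    exact hk h
  · intro h; exact absurd (Finset.mem_univ _) h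

/-- (T) between two corners. HINT: `s.sym` for `f = place i 0 j 0 x`, `x = place j 0 i 0 y ∈ S.rad`. -/
theorem muc_cross (S : Corners o ρ) (s : Stage (Matrix (Idx (n1 (b := b)) ρ) (Idx (n1 (b := b)) ρ) o))
    (hE : s.E = S.ring n1) (hI : s.I = S.rad n1) (i j : Fin b) (hij : i ≠ j) (x) (hx : x ∈ S.C i j)
    (y) (hy : y ∈ S.C j i) : muc s i (x * y) = muc s j (y * x) := by
  have hf : place (n := n1) i 0 j 0 x ∈ s.E := by
    rw [hE]
    exact place_mem_ring S i 0 j 0 hx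
  have hy' : place (n := n1) j 0 i 0 y ∈ s.I := by
    rw [hI]
    exact place_mem_rad S j 0 i 0 hy (Ne.symm hij)
  have h := s.sym _ hf _ hy'
  rw [place_mul, place_mul] at h
  exact h

theorem muc_sym (S : Corners o ρ) (s : Stage (Matrix (Idx (n1 (b := b)) ρ) (Idx (n1 (b := b)) ρ) o))
    (hE : s.E = S.ring n1) (hI : s.I = S.rad n1) (i : Fin b) (x) (hx : x ∈ S.C i i)
    (y) (hy : y ∈ S.J i) : muc s i (x * y) = muc s i (y * x) := by
  have hf : place (n := n1) i 0 i 0 x ∈ s.E := by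
    rw [hE]
    exact place_mem_ring S i 0 i 0 hx
  have hy' : place (n := n1) i 0 i 0 y ∈ s.I := by
    rw [hI]
    exact place_mem_rad' S i 0 0 hy
  have h := s.sym _ hf _ hy'
  rw [place_mul, place_mul] at h
  exact h

theorem muc_mul (S : Corners o ρ) (s : Stage (Matrix (Idx (n1 (b := b)) ρ) (Idx (n1 (b := b)) ρ) o))
    (hI : s.I = S.rad n1) (i : Fin b) (x) (hx : x ∈ S.J i) (y) (hy : y ∈ S.J i) :
    muc s i (x + y + x * y) = muc s i x * muc s i y := by
  have hx' : place (n := n1) i 0 i 0 x ∈ s.I := by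
    rw [hI]
    exact place_mem_rad' S i 0 0 hx
  have hy' : place (n := n1) i 0 i 0 y ∈ s.I := by
    rw [hI]
    exact place_mem_rad' S i 0 0 hy
  have h := s.hom.mul _ hx' _ hy'
  rw [place_mul, ← D01_place_add, ← D01_place_add] at h
  exact h

theorem muc_pi (ψ : AddChar o ℂ) (X : Matrix (Idx (n1 (b := b)) ρ) (Idx (n1 (b := b)) ρ) o)
    (s : Stage (Matrix (Idx (n1 (b := b)) ρ) (Idx (n1 (b := b)) ρ) o))
    (hm : ∀ y, s.m (π ^ 8 • y) = ψ (π ^ 8 * (X * y).trace)) (i : Fin b)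
    (y : Matrix (Fin (ρ i)) (Fin (ρ i)) o) :
    muc s i (π ^ 8 • y) = ψ (π ^ 8 * (blk X i 0 i 0 * y).trace) := by
  have h := hm (place i 0 i 0 y)
  rw [D01_trace_place, ← D01_place_smul] at h
  exact h

/-- `π^8 M` is contained in all corners (and radicals). -/
theorem pi_mem (S : Corners o ρ) (s : Stage (Matrix (Idx (n1 (b := b)) ρ) (Idx (n1 (b := b)) ρ) o))
    (hI : s.I = S.rad n1) (h8 : ∀ y : Matrix (Idx (n1 (b := b)) ρ) (Idx (n1 (b := b)) ρ) o, π ^ 8 • y ∈ s.I) :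
    (∀ i j, ∀ y : Matrix (Fin (ρ i)) (Fin (ρ j)) o, π ^ 8 • y ∈ S.C i j) ∧
      ∀ i, ∀ y : Matrix (Fin (ρ i)) (Fin (ρ i)) o, π ^ 8 • y ∈ S.J i := by
  constructor
  · intro i j y
    have h := h8 (place i 0 j 0 y)
    rw [hI] at h
    have h2 := h.1 i 0 j 0
    rwa [D01_blk_smul, blk_place_self] at h2
  · intro i y
    have h := h8 (place i 0 i 0 y)
    rw [hI] at h
    have h2 := h.2 i 0 0
    rwa [D01_blk_smul, blk_place_self] at h2

/-- W1: `X_i c = c X_j` modulo `π^8` for `c ∈ C i j`. HINT: `f = place i 0 j 0 c ∈ s.E` commutes with `X` modulo `π^8`; look at the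
block `(i, j)`: the off-diagonal blocks of `X` vanish modulo `π^8` (take `f` = the idempotents). -/
theorem muc_comm (S : Corners o ρ) (X : Matrix (Idx (n1 (b := b)) ρ) (Idx (n1 (b := b)) ρ) o)
    (s : Stage (Matrix (Idx (n1 (b := b)) ρ) (Idx (n1 (b := b)) ρ) o)) (hE : s.E = S.ring n1)
    (hc : ∀ f ∈ s.E, ∃ y, X * f - f * X = π ^ 8 • y) (i j : Fin b) (c) (hc' : c ∈ S.C i j) :
    ∃ z, blk X i 0 i 0 * c - c * blk X j 0 j 0 = π ^ 8 • z := by
  have hf : place (n := n1) i 0 j 0 c ∈ s.E := by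
    rw [hE]
    exact place_mem_ring S i 0 j 0 hc'
  obtain ⟨y, hy⟩ := hc _ hf
  refine ⟨blk y i 0 j 0, ?_⟩
  have h : blk (X * place i 0 j 0 c - place i 0 j 0 c * X) i 0 j 0 =
      blk (π ^ 8 • y) i 0 j 0 := by rw [hy]
  rw [D01_blk_sub, D01_blk_smul, blk_mul_place, blk_place_mul] at h
  exact h

end Pool.Agent.Lib.MP_fa0f6c_al.Cx
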