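import Pool.Agent.Lib.MP_fa0f6c_al.Cx.F01
import Pool.Agent.Lib.MP_fa0f6c_al.Cx.R14

set_option autoImplicit false

namespace Pool.Agent.Lib.MP_fa0f6c_al.Cx

/-- The group of upper unitriangular `2 × 2` matrices. -/
def uni2 (o : Type) [CommRing o] : Subgroup (Matrix (Fin 2) (Fin 2) o)ˣ where
  carrier := {u | (u : Matrix (Fin 2) (Fin 2) o) 0 0 = 1 ∧ (u : Matrix (Fin 2) (Fin 2) o) 1 1 = 1 ∧
    (u : Matrix (Fin 2) (Fin 2) o) 1 0 = 0}
  one_mem' := by simp
  mul_mem' := by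
    rintro a b ⟨h1, h2, h3⟩ ⟨k1, k2, k3⟩
    simp [Matrix.mul_apply, Fin.sum_univ_two, h1, h2, h3, k1, k2, k3]
  inv_mem' := by
    intro a ⟨h1, h2, h3⟩
    have hm : (a : Matrix (Fin 2) (Fin 2) o) * ((a⁻¹ : (Matrix (Fin 2) (Fin 2) o)ˣ) :
        Matrix (Fin 2) (Fin 2) o) = 1 := Units.mul_inv a
    show ((a⁻¹ : (Matrix (Fin 2) (Fin 2) o)ˣ) : Matrix (Fin 2) (Fin 2) o) 0 0 = 1 ∧
      ((a⁻¹ : (Matrix (Fin 2) (Fin 2) o)ˣ) : Matrix (Fin 2) (Fin 2) o) 1 1 = 1 ∧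
      ((a⁻¹ : (Matrix (Fin 2) (Fin 2) o)ˣ) : Matrix (Fin 2) (Fin 2) o) 1 0 = 0
    generalize ((a⁻¹ : (Matrix (Fin 2) (Fin 2) o)ˣ) : Matrix (Fin 2) (Fin 2) o) = B at hm
    have e10 := congrFun (congrFun hm 1) 0
    have e11 := congrFun (congrFun hm 1) 1
    have e00 := congrFun (congrFun hm 0) 0
    simp only [Matrix.mul_apply, Fin.sum_univ_two, h1, h2, h3] at e10 e11 e00
    simp at e10 e11 e00
    rw [e10] at e00
    simp at e00
    exact ⟨e00, e11, e10⟩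

private def D03_tau {o : Type} (M : Matrix (Fin 2) (Fin 2) o) : Matrix (Fin 2) (Fin 2) o :=
  !![M 1 1, M 0 1; M 1 0, M 0 0]

private theorem D03_tau_mul {o : Type} [CommRing o] (X Y : Matrix (Fin 2) (Fin 2) o) :
    D03_tau (X * Y) = D03_tau Y * D03_tau X := by
  ext i j
  fin_cases i <;> fin_cases j <;>
    simp [D03_tau, Matrix.mul_apply, Fin.sum_univ_two] <;> ring

private theorem D03_tau_one {o : Type} [CommRing o] :
    D03_tau (1 : Matrix (Fin 2) (Fin 2) o) = 1 := by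
  ext i j
  fin_cases i <;> fin_cases j <;> simp [D03_tau]

private def D03_iota {o : Type} [CommRing o] (g : (Matrix (Fin 2) (Fin 2) o)ˣ) :
    (Matrix (Fin 2) (Fin 2) o)ˣ where
  val := D03_tau g
  inv := D03_tau ((g⁻¹ : (Matrix (Fin 2) (Fin 2) o)ˣ) : Matrix (Fin 2) (Fin 2) o)
  val_inv := by rw [← D03_tau_mul, Units.inv_mul, D03_tau_one]
  inv_val := by rw [← D03_tau_mul, Units.mul_inv, D03_tau_one]

private theorem D03_iota_val {o : Type} [CommRing o] (g : (Matrix (Fin 2) (Fin 2) o)ˣ) :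
    ((D03_iota g : (Matrix (Fin 2) (Fin 2) o)ˣ) : Matrix (Fin 2) (Fin 2) o) = D03_tau g := rfl

private def D03_u {o : Type} [CommRing o] (t : o) : (Matrix (Fin 2) (Fin 2) o)ˣ where
  val := !![1, t; 0, 1]
  inv := !![1, -t; 0, 1]
  val_inv := by
    ext i j
    fin_cases i <;> fin_cases j <;> simp [Matrix.mul_apply, Fin.sum_univ_two]
  inv_val := by
    ext i j
    fin_cases i <;> fin_cases j <;> simp [Matrix.mul_apply, Fin.sum_univ_two]

private theorem D03_u_val {o : Type} [CommRing o] (t : o) :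
    ((D03_u t : (Matrix (Fin 2) (Fin 2) o)ˣ) : Matrix (Fin 2) (Fin 2) o) = !![1, t; 0, 1] := rfl

private theorem D03_u_mem {o : Type} [CommRing o] (t : o) : D03_u t ∈ uni2 o := by
  refine ⟨?_, ?_, ?_⟩ <;> simp [D03_u_val]

private theorem D03_x {o : Type} [CommRing o] [IsLocalRing o] [Finite o] {π : o} {r : ℕ}
    (hch : IsChain o π r) (ψ : AddChar o ℂ) (hψ : IsPrim π r ψ) (c w : o)
    (hw : ¬ ∃ z, w = c * z) : ∃ x, c * x = 0 ∧ ψ (x * w) ≠ 1 := by
  obtain ⟨i, hi, u', hc⟩ : ∃ i ≤ r, ∃ u' : oˣ, c = u' * π ^ i := by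
    by_cases h0 : c = 0
    · exact ⟨r, le_rfl, 1, by rw [h0, hch.pow, mul_zero]⟩
    · obtain ⟨i, hi, u, hu⟩ := chain_elem hch c h0
      exact ⟨i, hi.le, u, hu⟩
  have hw0 : w ≠ 0 := fun h => hw ⟨0, by rw [h, mul_zero]⟩
  obtain ⟨j, hj, v, hv⟩ := chain_elem hch w hw0
  have hji : j < i := by
    by_contra hcon
    apply hw
    refine ⟨(u'⁻¹ : oˣ) * v * π ^ (j - i), ?_⟩
    have e : π ^ j = π ^ i * π ^ (j - i) := by rw [← pow_add]; congr 1; omega
    rw [hv, hc, e]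
    have e2 : (u' : o) * ((u'⁻¹ : oˣ) : o) = 1 := Units.mul_inv u'
    linear_combination (-(v : o) * π ^ i * π ^ (j - i)) * e2
  obtain ⟨a, ha⟩ := hψ.ne
  refine ⟨π ^ (r - i) * ((v⁻¹ : oˣ) * (π ^ (i - j - 1) * a)), ?_, ?_⟩
  · have e : π ^ i * π ^ (r - i) = 0 := by
      rw [← pow_add, Nat.add_sub_cancel' hi, hch.pow]
    rw [hc]
    linear_combination ((u' : o) * ((v⁻¹ : oˣ) * (π ^ (i - j - 1) * a))) * e
  · have e1 : π ^ (r - 1) = π ^ (r - i) * π ^ (i - j - 1) * π ^ j := by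
      rw [← pow_add, ← pow_add]; congr 1; omega
    have e2 : (v : o) * ((v⁻¹ : oˣ) : o) = 1 := Units.mul_inv v
    have e3 : π ^ (r - i) * (((v⁻¹ : oˣ) : o) * (π ^ (i - j - 1) * a)) * w = π ^ (r - 1) * a := by
      rw [hv, e1]
      linear_combination (π ^ (r - i) * π ^ (i - j - 1) * π ^ j * a) * e2
    rw [e3]
    exact ha

private theorem D03_key {o : Type} [CommRing o] [IsLocalRing o] [Finite o] {π : o} {r : ℕ}
    (hch : IsChain o π r) (ψ : AddChar o ℂ) (hψ : IsPrim π r ψ)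
    (g : (Matrix (Fin 2) (Fin 2) o)ˣ) :
    (∃ u ∈ uni2 o, ∃ u' ∈ uni2 o, D03_iota g = u * g * u' ∧
      ψ ((u : Matrix (Fin 2) (Fin 2) o) 0 1) * ψ ((u' : Matrix (Fin 2) (Fin 2) o) 0 1) = 1) ∨
    ∃ u ∈ uni2 o, ∃ u' ∈ uni2 o, u * g * u' = g ∧
      ψ ((u : Matrix (Fin 2) (Fin 2) o) 0 1) * ψ ((u' : Matrix (Fin 2) (Fin 2) o) 0 1) ≠ 1 := by
  obtain ⟨a, ha⟩ : ∃ a, a = (g : Matrix (Fin 2) (Fin 2) o) 0 0 := ⟨_, rfl⟩
  obtain ⟨b, hb⟩ : ∃ b, b = (g : Matrix (Fin 2) (Fin 2) o) 0 1 := ⟨_, rfl⟩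
  obtain ⟨c, hc⟩ : ∃ c, c = (g : Matrix (Fin 2) (Fin 2) o) 1 0 := ⟨_, rfl⟩
  obtain ⟨d, hd⟩ : ∃ d, d = (g : Matrix (Fin 2) (Fin 2) o) 1 1 := ⟨_, rfl⟩
  have hg : (g : Matrix (Fin 2) (Fin 2) o) = !![a, b; c, d] := by
    ext i j
    fin_cases i <;> fin_cases j
    · exact ha.symm
    · exact hb.symm
    · exact hc.symm
    · exact hd.symm
  by_cases hcase : ∃ t, d - a = c * t
  · left
    obtain ⟨t, ht⟩ := hcase
    refine ⟨D03_u t, D03_u_mem t, D03_u (-t), D03_u_mem (-t), ?_, ?_⟩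
    · apply Units.ext
      rw [Units.val_mul, Units.val_mul, D03_iota_val, D03_u_val, D03_u_val, hg, D03_tau,
        Matrix.mul_fin_two, Matrix.mul_fin_two]
      ext i j
      fin_cases i <;> fin_cases j
      · show d = (1 * a + t * c) * 1 + (1 * b + t * d) * 0
        linear_combination ht
      · show b = (1 * a + t * c) * -t + (1 * b + t * d) * 1
        linear_combination (-t) * ht
      · show c = (0 * a + 1 * c) * 1 + (0 * b + 1 * d) * 0
        ring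
      · show a = (0 * a + 1 * c) * -t + (0 * b + 1 * d) * 1
        linear_combination (-1 : o) * ht
    · rw [D03_u_val, D03_u_val]
      simp only [Matrix.of_apply, Matrix.cons_val', Matrix.cons_val_zero, Matrix.cons_val_one,
        Matrix.cons_val_fin_one]
      rw [← AddChar.map_add_eq_mul, add_neg_cancel, AddChar.map_zero_eq_one]
  · right
    have hcu : ¬ IsUnit c := by
      intro hcu
      obtain ⟨cu, hcu⟩ := hcu
      apply hcase
      refine ⟨((cu⁻¹ : oˣ) : o) * (d - a), ?_⟩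
      rw [← hcu, ← mul_assoc, Units.mul_inv, one_mul]
    obtain ⟨y, hy⟩ := (chain_isUnit hch c).resolve_left hcu
    have hau : IsUnit a := by
      rcases chain_isUnit hch a with h | ⟨a1, ha1⟩
      · exact h
      · exfalso
        have hdet : IsUnit (g : Matrix (Fin 2) (Fin 2) o).det :=
          (Matrix.isUnit_iff_isUnit_det _).mp g.isUnit
        rw [Matrix.det_fin_two, ← ha, ← hb, ← hc, ← hd] at hdet
        have e : a * d - b * c = π * (a1 * d - b * y) := by rw [ha1, hy]; ring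
        rw [e] at hdet
        exact chain_nonunit hch _ hdet
    obtain ⟨ua, hua⟩ := hau
    have e1 : a * ((ua⁻¹ : oˣ) : o) = 1 := by rw [← hua, Units.mul_inv]
    obtain ⟨x, hx1, hx2⟩ := D03_x hch ψ hψ c (1 - d * ((ua⁻¹ : oˣ) : o)) (by
      rintro ⟨z, hz⟩
      apply hcase
      refine ⟨-a * z, ?_⟩
      linear_combination (-a) * hz + (-d) * e1)
    refine ⟨D03_u x, D03_u_mem x, D03_u (-(x * d * ((ua⁻¹ : oˣ) : o))), D03_u_mem _, ?_, ?_⟩
    · apply Units.ext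
      rw [Units.val_mul, Units.val_mul, D03_u_val, D03_u_val, hg,
        Matrix.mul_fin_two, Matrix.mul_fin_two]
      ext i j
      fin_cases i <;> fin_cases j
      · show (1 * a + x * c) * 1 + (1 * b + x * d) * 0 = a
        linear_combination hx1
      · show (1 * a + x * c) * -(x * d * ((ua⁻¹ : oˣ) : o)) + (1 * b + x * d) * 1 = b
        linear_combination (-(x * d)) * e1 - (x * d * ((ua⁻¹ : oˣ) : o)) * hx1
      · show (0 * a + 1 * c) * 1 + (0 * b + 1 * d) * 0 = c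
        ring
      · show (0 * a + 1 * c) * -(x * d * ((ua⁻¹ : oˣ) : o)) + (0 * b + 1 * d) * 1 = d
        linear_combination (-(d * ((ua⁻¹ : oˣ) : o))) * hx1
    · rw [D03_u_val, D03_u_val]
      simp only [Matrix.of_apply, Matrix.cons_val', Matrix.cons_val_zero, Matrix.cons_val_one,
        Matrix.cons_val_fin_one]
      rw [← AddChar.map_add_eq_mul]
      have e2 : x + -(x * d * ((ua⁻¹ : oˣ) : o)) = x * (1 - d * ((ua⁻¹ : oˣ) : o)) := by ring
      rw [e2]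
      exact hx2

/-- Multiplicity one for primitive characters of `uni2` (blueprint 5.1).
PROOF: `gelfand` (R14) with `ι [[a,b],[c,d]] = [[d,b],[c,a]]` (an injective anti-automorphism fixing `uni2` pointwise), `m u = ψ (u 0 1)`. Let `g = [[a,b],[c,d]]`. If `d - a = c t` for some `t`:
`ι g = u(t) g u(-t)` and `m (u(t)) m (u(-t)) = 1`. Otherwise `c` is not a unit, so `a`, `d` are units (`det g` is a unit), and `1 - d a⁻¹ ∉ c o = Ann(Ann c)` (chain ring), so there is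
`x` with `c x = 0` and `x (1 - d a⁻¹) ≠ 0`; even (multiplying `x`) `ψ (x (1 - d a⁻¹)) ≠ 1`; put `y = -x d a⁻¹`: `u(x) g u(y) = g` (entries: `a + x c = a`, `d + c y = d`,
`b + x d + y a + x c y = b`), and `m (u x) m (u y) = ψ (x + y) ≠ 1`. -/
theorem gl2_whittaker {o : Type} [CommRing o] [IsLocalRing o] [Finite o] {π : o} {r : ℕ}
    (hch : IsChain o π r) (ψ : AddChar o ℂ) (hψ : IsPrim π r ψ)
    {χ : (Matrix (Fin 2) (Fin 2) o)ˣ → ℂ} (hχ : χ ∈ Irr (Matrix (Fin 2) (Fin 2) o)ˣ) :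
    mult (uni2 o) (fun u => ψ ((u : Matrix (Fin 2) (Fin 2) o) 0 1)) χ = 0 ∨
      mult (uni2 o) (fun u => ψ ((u : Matrix (Fin 2) (Fin 2) o) 0 1)) χ = 1 := by
  refine gelfand (uni2 o) (fun u => ψ ((u : Matrix (Fin 2) (Fin 2) o) 0 1)) ?_ D03_iota ?_ ?_ ?_
    (D03_key hch ψ hψ) hχ
  · refine ⟨?_, ?_⟩
    · simp
    · rintro x ⟨h1, h2, h3⟩ y ⟨k1, k2, k3⟩
      show ψ (((x * y : (Matrix (Fin 2) (Fin 2) o)ˣ) : Matrix (Fin 2) (Fin 2) o) 0 1) = _
      rw [Units.val_mul, Matrix.mul_apply, Fin.sum_univ_two, h1, k2, one_mul, mul_one,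
        AddChar.map_add_eq_mul, mul_comm]
  · intro g g' hgg
    apply Units.ext
    have h := congrArg (fun u : (Matrix (Fin 2) (Fin 2) o)ˣ => (u : Matrix (Fin 2) (Fin 2) o)) hgg
    simp only [D03_iota_val] at h
    ext i j
    have e00 := congrFun (congrFun h 0) 0
    have e01 := congrFun (congrFun h 0) 1
    have e10 := congrFun (congrFun h 1) 0
    have e11 := congrFun (congrFun h 1) 1
    simp [D03_tau] at e00 e01 e10 e11
    fin_cases i <;> fin_cases j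
    · exact e11
    · exact e01
    · exact e10
    · exact e00
  · intro x y
    apply Units.ext
    rw [Units.val_mul, D03_iota_val, D03_iota_val, D03_iota_val, Units.val_mul, D03_tau_mul]
  · rintro u ⟨h1, h2, h3⟩
    refine ⟨⟨?_, ?_, ?_⟩, ?_⟩
    · rw [D03_iota_val]; simpa [D03_tau] using h2
    · rw [D03_iota_val]; simpa [D03_tau] using h1
    · rw [D03_iota_val]; simpa [D03_tau] using h3
    · show ψ (((D03_iota u : (Matrix (Fin 2) (Fin 2) o)ˣ) : Matrix (Fin 2) (Fin 2) o) 0 1) = _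
      rw [D03_iota_val]
      simp [D03_tau]

end Pool.Agent.Lib.MP_fa0f6c_al.Cx
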