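import Pool.Agent.Lib.MP_fa0f6c_al.Cx.D03
import Pool.Agent.Lib.MP_fa0f6c_al.Cx.F02
import Pool.Agent.Lib.MP_fa0f6c_al.Cx.R17

set_option autoImplicit false

namespace Pool.Agent.Lib.MP_fa0f6c_al.Cx

open scoped ComplexConjugate

variable {o : Type} [CommRing o] [IsLocalRing o] [Finite o] {π : o} {r : ℕ}

/-- the unipotent element `u(x)` -/
private def d04u (x : o) : (Matrix (Fin 2) (Fin 2) o)ˣ where
  val := !![1, x; 0, 1]
  inv := !![1, -x; 0, 1]
  val_inv := by
    ext i j
    fin_cases i <;> fin_cases j <;> simp [Matrix.mul_apply, Fin.sum_univ_two]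
  inv_val := by
    ext i j
    fin_cases i <;> fin_cases j <;> simp [Matrix.mul_apply, Fin.sum_univ_two]

omit [IsLocalRing o] [Finite o] in
private theorem d04u_zero : d04u (0 : o) = 1 := by
  apply Units.ext
  ext i j
  fin_cases i <;> fin_cases j <;> simp [d04u]

private def d04e (o : Type) [CommRing o] : o ≃ uni2 o where
  toFun x := ⟨⟨!![1, x; 0, 1], !![1, -x; 0, 1], by
      ext i j
      fin_cases i <;> fin_cases j <;> simp [Matrix.mul_apply, Fin.sum_univ_two], by
      ext i j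
      fin_cases i <;> fin_cases j <;> simp [Matrix.mul_apply, Fin.sum_univ_two]⟩, by
      refine ⟨?_, ?_, ?_⟩ <;> simp⟩
  invFun u := (u.1 : Matrix (Fin 2) (Fin 2) o) 0 1
  left_inv x := by simp
  right_inv u := by
    obtain ⟨h1, h2, h3⟩ := u.2
    apply Subtype.ext
    apply Units.ext
    ext i j
    fin_cases i <;> fin_cases j <;> simp [h1, h2, h3]

omit [IsLocalRing o] [Finite o] in
private theorem d04_mult (χ : (Matrix (Fin 2) (Fin 2) o)ˣ → ℂ) (φ : o → ℂ) [Fintype o] :
    mult (uni2 o) (fun u => φ ((u : Matrix (Fin 2) (Fin 2) o) 0 1)) χ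
      = (Nat.card o : ℂ)⁻¹ * ∑ x : o, χ (d04u x) * conj (φ x) := by
  unfold mult ip
  rw [← Nat.card_congr (d04e o), ← finsum_comp_equiv (d04e o), finsum_eq_sum_of_fintype]
  rfl

omit [IsLocalRing o] [Finite o] in
private theorem d04_sum_zero (S : Finset o) (φ : o → ℂ) (b0 : o) (c : ℂ)
    (hS : ∀ b ∈ S, b + b0 ∈ S) (hS' : ∀ b ∈ S, b - b0 ∈ S)
    (hφ : ∀ b ∈ S, φ (b + b0) = c * φ b) (hc : c ≠ 1) : ∑ b ∈ S, φ b = 0 := by
  have h1 : ∑ b ∈ S, φ b = ∑ b ∈ S, φ (b + b0) := by
    refine (Finset.sum_bij (fun b _ => b + b0) hS ?_ ?_ ?_).symm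
    · intro a _ b _ h
      exact add_right_cancel h
    · intro b hb
      exact ⟨b - b0, hS' b hb, sub_add_cancel b b0⟩
    · intro b _
      rfl
  have h2 : ∑ b ∈ S, φ (b + b0) = c * ∑ b ∈ S, φ b := by
    rw [Finset.mul_sum]
    exact Finset.sum_congr rfl hφ
  have h3 : (1 - c) * ∑ b ∈ S, φ b = 0 := by
    rw [sub_mul, one_mul, ← h2, ← h1, sub_self]
  rcases mul_eq_zero.1 h3 with h | h
  · exact absurd (sub_eq_zero.1 h).symm hc
  · exact h

/-- the sum of all characters `ψ (b ·)` -/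
private theorem d04_sum_all [Fintype o] (hch : IsChain o π r) {ψ : AddChar o ℂ}
    (hψ : IsPrim π r ψ) (x : o) (hx : x ≠ 0) : ∑ b : o, conj (ψ (b * x)) = 0 := by
  have h1 : ∃ y, ψ (x * y) ≠ 1 := by
    by_contra hcon
    push Not at hcon
    exact hx (prim_nondeg hch hψ x hcon)
  obtain ⟨y, hy⟩ := h1
  refine d04_sum_zero Finset.univ (fun b => conj (ψ (b * x))) y (conj (ψ (x * y)))
    (fun _ _ => Finset.mem_univ _) (fun _ _ => Finset.mem_univ _) ?_ ?_
  · intro b _
    rw [add_mul, AddChar.map_add_eq_mul, map_mul, mul_comm y x, mul_comm]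
  · intro h
    apply hy
    have := congrArg conj h
    rwa [Complex.conj_conj, map_one] at this

open Classical in
private theorem d04_sum_nonunit [Fintype o] (hch : IsChain o π r) {ψ : AddChar o ℂ}
    (hψ : IsPrim π r ψ) (x : o) :
    ∑ b ∈ Finset.univ.filter (fun b : o => ¬ IsUnit b), conj (ψ (b * x))
      = if π * x = 0 then ((Finset.univ.filter (fun b : o => ¬ IsUnit b)).card : ℂ) else 0 := by
  have hmem : ∀ b : o, ¬ IsUnit b ↔ ∃ y, b = π * y := by
    intro b
    constructor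
    · intro h
      exact (chain_isUnit hch b).resolve_left h
    · rintro ⟨y, rfl⟩
      exact chain_nonunit hch y
  split_ifs with hx
  · rw [Finset.card_eq_sum_ones]
    push_cast
    refine Finset.sum_congr rfl fun b hb => ?_
    obtain ⟨y, rfl⟩ := (hmem b).1 (Finset.mem_filter.1 hb).2
    have : π * y * x = 0 := by
      rw [mul_right_comm, hx, zero_mul]
    rw [this, AddChar.map_zero_eq_one, map_one]
  · have h1 : ∃ y, ψ (π * x * y) ≠ 1 := by
      by_contra hcon
      push Not at hcon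
      exact hx (prim_nondeg hch hψ (π * x) hcon)
    obtain ⟨y, hy⟩ := h1
    refine d04_sum_zero _ (fun b => conj (ψ (b * x))) (π * y) (conj (ψ (π * x * y))) ?_ ?_ ?_ ?_
    · intro b hb
      rw [Finset.mem_filter] at hb ⊢
      obtain ⟨z, rfl⟩ := (hmem b).1 hb.2
      exact ⟨Finset.mem_univ _, (hmem _).2 ⟨z + y, by ring⟩⟩
    · intro b hb
      rw [Finset.mem_filter] at hb ⊢
      obtain ⟨z, rfl⟩ := (hmem b).1 hb.2
      exact ⟨Finset.mem_univ _, (hmem _).2 ⟨z - y, by ring⟩⟩
    · intro b _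
      have : (b + π * y) * x = π * x * y + b * x := by ring
      rw [this, AddChar.map_add_eq_mul, map_mul]
    · intro h
      apply hy
      have := congrArg conj h
      rwa [Complex.conj_conj, map_one] at this

open Classical in
private theorem d04_sum_ann [Fintype o] (hch : IsChain o π r) {ψ : AddChar o ℂ}
    (hψ : IsPrim π r ψ) (z : o) :
    ∑ x ∈ Finset.univ.filter (fun x : o => π * x = 0), ψ (x * z)
      = if IsUnit z then 0 else ((Finset.univ.filter (fun x : o => π * x = 0)).card : ℂ) := by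
  split_ifs with hz
  · obtain ⟨a, ha⟩ := hψ.ne
    obtain ⟨w, rfl⟩ := hz
    have hr : π * π ^ (r - 1) = 0 := by
      rw [← pow_succ', Nat.sub_add_cancel hch.pos, hch.pow]
    refine d04_sum_zero _ (fun x => ψ (x * w)) (π ^ (r - 1) * a * (w⁻¹ : oˣ))
      (ψ (π ^ (r - 1) * a)) ?_ ?_ ?_ ha
    · intro b hb
      rw [Finset.mem_filter] at hb ⊢
      refine ⟨Finset.mem_univ _, ?_⟩
      rw [mul_add, hb.2, zero_add, ← mul_assoc, ← mul_assoc, hr, zero_mul, zero_mul]
    · intro b hb
      rw [Finset.mem_filter] at hb ⊢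
      refine ⟨Finset.mem_univ _, ?_⟩
      rw [mul_sub, hb.2, zero_sub, ← mul_assoc, ← mul_assoc, hr, zero_mul, zero_mul, neg_zero]
    · intro b _
      have : (b + π ^ (r - 1) * a * (w⁻¹ : oˣ)) * w = π ^ (r - 1) * a + b * w := by
        rw [add_mul, mul_assoc _ _ (w : o), Units.inv_mul, mul_one, add_comm]
      rw [this, AddChar.map_add_eq_mul]
  · obtain ⟨y, rfl⟩ := (chain_isUnit hch z).resolve_left hz
    rw [Finset.card_eq_sum_ones]
    push_cast
    refine Finset.sum_congr rfl fun b hb => ?_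
    have hb' := (Finset.mem_filter.1 hb).2
    have : b * (π * y) = 0 := by
      rw [← mul_assoc, mul_comm b π, hb', zero_mul]
    rw [this, AddChar.map_zero_eq_one]

open Classical in
private theorem d04_card_nonunit [Fintype o] (hch : IsChain o π r) :
    (Finset.univ.filter (fun b : o => ¬ IsUnit b)).card
      = Nat.card (IsLocalRing.ResidueField o) ^ (r - 1) := by
  rw [← chain_card hch 1 hch.pos, Nat.card_eq_fintype_card, Fintype.card_subtype]
  congr 1
  ext b
  simp only [Finset.mem_filter, Finset.mem_univ, true_and, pow_one, Ideal.mem_span_singleton]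
  constructor
  · intro h
    exact (chain_isUnit hch b).resolve_left h
  · rintro ⟨y, rfl⟩
    exact chain_nonunit hch y

open Classical in
private theorem d04_card_ann [Fintype o] (hch : IsChain o π r) :
    (Finset.univ.filter (fun x : o => π * x = 0)).card
      = Nat.card (IsLocalRing.ResidueField o) := by
  have h1 := chain_card hch (r - 1) (by omega)
  have h2 : r - (r - 1) = 1 := by have := hch.pos; omega
  rw [h2, pow_one] at h1
  rw [← h1, Nat.card_eq_fintype_card, Fintype.card_subtype]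
  congr 1
  ext b
  simp only [Finset.mem_filter, Finset.mem_univ, true_and, Ideal.mem_span_singleton]
  have h3 := chain_ann hch 1 hch.pos b
  rw [pow_one] at h3
  exact h3

/-- the lower unipotent and the swap -/
private def d04low (x : o) : (Matrix (Fin 2) (Fin 2) o)ˣ where
  val := !![1, 0; x, 1]
  inv := !![1, 0; -x, 1]
  val_inv := by
    ext i j
    fin_cases i <;> fin_cases j <;> simp [Matrix.mul_apply, Fin.sum_univ_two]
  inv_val := by
    ext i j
    fin_cases i <;> fin_cases j <;> simp [Matrix.mul_apply, Fin.sum_univ_two]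

private def d04swap (o : Type) [CommRing o] : (Matrix (Fin 2) (Fin 2) o)ˣ where
  val := !![0, 1; 1, 0]
  inv := !![0, 1; 1, 0]
  val_inv := by
    ext i j
    fin_cases i <;> fin_cases j <;> simp [Matrix.mul_apply, Fin.sum_univ_two]
  inv_val := by
    ext i j
    fin_cases i <;> fin_cases j <;> simp [Matrix.mul_apply, Fin.sum_univ_two]

omit [IsLocalRing o] [Finite o] in
private theorem d04_low_entry (x : o) (Z : Matrix (Fin 2) (Fin 2) o) :
    (((d04low x)⁻¹ : (Matrix (Fin 2) (Fin 2) o)ˣ).val * Z * (d04low x).val) 1 0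
      = Z 1 0 + (Z 1 1 - Z 0 0) * x - Z 0 1 * x ^ 2 := by
  change ((!![1, 0; -x, 1] : Matrix (Fin 2) (Fin 2) o) * Z * !![1, 0; x, 1]) 1 0 = _
  simp only [Matrix.mul_apply, Fin.sum_univ_two]
  simp
  ring

omit [IsLocalRing o] [Finite o] in
private theorem d04_swap_entry (Z : Matrix (Fin 2) (Fin 2) o) :
    (((d04swap o)⁻¹ : (Matrix (Fin 2) (Fin 2) o)ˣ).val * Z * (d04swap o).val) 1 0 = Z 0 1 := by
  change ((!![0, 1; 1, 0] : Matrix (Fin 2) (Fin 2) o) * Z *
    (!![0, 1; 1, 0] : Matrix (Fin 2) (Fin 2) o)) 1 0 = _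
  simp only [Matrix.mul_apply, Fin.sum_univ_two]
  simp

open Classical in
/-- a non-zero binary quadratic form over a field has at most two zeros on the projective line -/
private theorem d04_roots {k : Type} [Field k] [Fintype k] (a b c : k)
    (h : ¬ (a = 0 ∧ b = 0 ∧ c = 0)) :
    (Finset.univ.filter (fun x : k => a + b * x - c * x ^ 2 = 0)).card
      + (if c = 0 then 1 else 0) ≤ 2 := by
  set p : Polynomial k := Polynomial.C a + Polynomial.C b * Polynomial.X
    - Polynomial.C c * Polynomial.X ^ 2 with hp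
  have heval : ∀ x, p.eval x = a + b * x - c * x ^ 2 := by
    intro x
    simp [hp]
  have hp0 : p ≠ 0 := by
    intro h0
    apply h
    have h1 : p.coeff 0 = a := by simp [hp]
    have h2 : p.coeff 1 = b := by
      simp [hp, Polynomial.coeff_C]
    have h3 : p.coeff 2 = -c := by
      simp [hp]
    rw [h0, Polynomial.coeff_zero] at h1 h2 h3
    exact ⟨h1.symm, h2.symm, by rw [← neg_eq_zero]; exact h3.symm⟩
  have hcard : (Finset.univ.filter (fun x : k => a + b * x - c * x ^ 2 = 0)).card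
      ≤ p.natDegree := by
    calc (Finset.univ.filter (fun x : k => a + b * x - c * x ^ 2 = 0)).card
        ≤ p.roots.toFinset.card := by
          apply Finset.card_le_card
          intro x hx
          rw [Multiset.mem_toFinset, Polynomial.mem_roots hp0, Polynomial.IsRoot, heval]
          exact (Finset.mem_filter.1 hx).2
      _ ≤ p.roots.card := Multiset.toFinset_card_le _
      _ ≤ p.natDegree := Polynomial.card_roots' p
  split_ifs with hc
  · have : p.natDegree ≤ 1 := by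
      rw [hp, hc]
      simp only [map_zero, zero_mul, sub_zero]
      rw [add_comm]
      exact Polynomial.natDegree_linear_le
    omega
  · have : p.natDegree ≤ 2 := by
      rw [hp]
      compute_degree
    omega

omit [IsLocalRing o] [Finite o] in
private theorem d04_conj (g : (Matrix (Fin 2) (Fin 2) o)ˣ) (Y : Matrix (Fin 2) (Fin 2) o)
    (hY : ¬ ∃ (c : o) (Z : Matrix (Fin 2) (Fin 2) o), Y = c • 1 + π • Z) :
    ¬ ∃ (c : o) (Z : Matrix (Fin 2) (Fin 2) o),
      (g⁻¹ : (Matrix (Fin 2) (Fin 2) o)ˣ).val * Y * g.val = c • 1 + π • Z := by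
  rintro ⟨c, Z, h⟩
  apply hY
  refine ⟨c, g.val * Z * (g⁻¹ : (Matrix (Fin 2) (Fin 2) o)ˣ).val, ?_⟩
  have h1 : Y = g.val * ((g⁻¹ : (Matrix (Fin 2) (Fin 2) o)ˣ).val * Y * g.val)
      * (g⁻¹ : (Matrix (Fin 2) (Fin 2) o)ˣ).val := by
    have e1 : g.val * (g⁻¹ : (Matrix (Fin 2) (Fin 2) o)ˣ).val = 1 := Units.mul_inv g
    calc Y = 1 * Y * 1 := by rw [one_mul, mul_one]
      _ = (g.val * (g⁻¹ : (Matrix (Fin 2) (Fin 2) o)ˣ).val) * Y
          * (g.val * (g⁻¹ : (Matrix (Fin 2) (Fin 2) o)ˣ).val) := by rw [e1]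
      _ = _ := by simp only [mul_assoc]
  rw [h1, h]
  have e1 : g.val * (g⁻¹ : (Matrix (Fin 2) (Fin 2) o)ˣ).val = 1 := Units.mul_inv g
  rw [mul_add, add_mul]
  congr 1
  · rw [Matrix.mul_smul, Matrix.smul_mul, mul_one, e1]
  · rw [Matrix.mul_smul, Matrix.smul_mul]

open Classical in
private theorem d04_bad [Fintype o] [Fintype (Matrix (Fin 2) (Fin 2) o)ˣ] (hch : IsChain o π r)
    (Y : Matrix (Fin 2) (Fin 2) o)
    (hY : ¬ ∃ (c : o) (Z : Matrix (Fin 2) (Fin 2) o), Y = c • 1 + π • Z) :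
    (Finset.univ.filter (fun g : (Matrix (Fin 2) (Fin 2) o)ˣ =>
      ¬ IsUnit (((g⁻¹ : (Matrix (Fin 2) (Fin 2) o)ˣ).val * Y * g.val) 1 0))).card
      * (Nat.card (IsLocalRing.ResidueField o) + 1)
      ≤ 2 * Fintype.card (Matrix (Fin 2) (Fin 2) o)ˣ := by
  have hfin := fin_res o
  have : Fintype (IsLocalRing.ResidueField o) := Fintype.ofFinite _
  set k := IsLocalRing.ResidueField o with hk
  obtain ⟨s, hs⟩ : ∃ s : k → o, ∀ x, IsLocalRing.residue o (s x) = x :=
    ⟨fun x => (IsLocalRing.residue_surjective x).choose,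
      fun x => (IsLocalRing.residue_surjective x).choose_spec⟩
  let T : Option k → (Matrix (Fin 2) (Fin 2) o)ˣ := fun t => t.elim (d04swap o) (fun x => d04low (s x))
  let bad : (Matrix (Fin 2) (Fin 2) o)ˣ → Prop := fun g =>
    ¬ IsUnit (((g⁻¹ : (Matrix (Fin 2) (Fin 2) o)ˣ).val * Y * g.val) 1 0)
  have h1 : ∀ t, (Finset.univ.filter (fun g => bad (g * T t))).card
      = (Finset.univ.filter bad).card := by
    intro t
    refine Finset.card_bij (fun g _ => g * T t) ?_ ?_ ?_
    · intro g hg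
      exact Finset.mem_filter.2 ⟨Finset.mem_univ _, (Finset.mem_filter.1 hg).2⟩
    · intro a _ b _ h
      exact mul_right_cancel h
    · intro g hg
      refine ⟨g * (T t)⁻¹, Finset.mem_filter.2 ⟨Finset.mem_univ _, ?_⟩, by group⟩
      rw [inv_mul_cancel_right]
      exact (Finset.mem_filter.1 hg).2
  have h2 : ∀ g, (Finset.univ.filter (fun t => bad (g * T t))).card ≤ 2 := by
    intro g
    set Z := (g⁻¹ : (Matrix (Fin 2) (Fin 2) o)ˣ).val * Y * g.val with hZ
    have hZn := d04_conj (π := π) g Y hY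
    rw [← hZ] at hZn
    have hnu : ∀ a : o, ¬ IsUnit a ↔ IsLocalRing.residue o a = 0 := by
      intro a
      rw [IsLocalRing.residue_eq_zero_iff, IsLocalRing.mem_maximalIdeal]
      exact Iff.rfl
    have hbt : ∀ t, bad (g * T t) ↔
        ¬ IsUnit ((((T t)⁻¹ : (Matrix (Fin 2) (Fin 2) o)ˣ).val * Z * (T t).val) 1 0) := by
      intro t
      have : (((g * T t)⁻¹ : (Matrix (Fin 2) (Fin 2) o)ˣ).val * Y * (g * T t).val)
          = (((T t)⁻¹ : (Matrix (Fin 2) (Fin 2) o)ˣ).val * Z * (T t).val) := by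
        rw [mul_inv_rev, Units.val_mul, Units.val_mul, hZ]
        simp only [mul_assoc]
      change ¬ IsUnit ((((g * T t)⁻¹ : (Matrix (Fin 2) (Fin 2) o)ˣ).val * Y * (g * T t).val) 1 0) ↔ _
      rw [this]
    have hsome : ∀ x : k, bad (g * T (some x)) ↔
        IsLocalRing.residue o (Z 1 0) + (IsLocalRing.residue o (Z 1 1) - IsLocalRing.residue o (Z 0 0)) * x
          - IsLocalRing.residue o (Z 0 1) * x ^ 2 = 0 := by
      intro x
      rw [hbt]
      change ¬ IsUnit ((((d04low (s x))⁻¹ : (Matrix (Fin 2) (Fin 2) o)ˣ).val * Z * (d04low (s x)).val) 1 0) ↔ _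
      rw [d04_low_entry, hnu]
      simp only [map_add, map_sub, map_mul, map_pow, hs]
    have hnone : bad (g * T none) ↔ IsLocalRing.residue o (Z 0 1) = 0 := by
      rw [hbt]
      change ¬ IsUnit ((((d04swap o)⁻¹ : (Matrix (Fin 2) (Fin 2) o)ˣ).val * Z * (d04swap o).val) 1 0) ↔ _
      rw [d04_swap_entry, hnu]
    have hne : ¬ (IsLocalRing.residue o (Z 1 0) = 0 ∧
        IsLocalRing.residue o (Z 1 1) - IsLocalRing.residue o (Z 0 0) = 0 ∧
        IsLocalRing.residue o (Z 0 1) = 0) := by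
      rintro ⟨e1, e2, e3⟩
      rw [← map_sub] at e2
      obtain ⟨a, ha⟩ := (chain_isUnit hch (Z 1 0)).resolve_left ((hnu _).2 e1)
      obtain ⟨b, hb⟩ := (chain_isUnit hch (Z 1 1 - Z 0 0)).resolve_left ((hnu _).2 e2)
      obtain ⟨c, hc⟩ := (chain_isUnit hch (Z 0 1)).resolve_left ((hnu _).2 e3)
      apply hZn
      refine ⟨Z 0 0, !![0, c; a, b], ?_⟩
      ext i j
      fin_cases i <;> fin_cases j
      · simp
      · simp [hc]
      · simp [ha]
      · simp [← hb]
    have hroots := d04_roots _ _ _ hne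
    have hcount : (Finset.univ.filter (fun t => bad (g * T t))).card
        = (Finset.univ.filter (fun x : k => IsLocalRing.residue o (Z 1 0)
          + (IsLocalRing.residue o (Z 1 1) - IsLocalRing.residue o (Z 0 0)) * x
          - IsLocalRing.residue o (Z 0 1) * x ^ 2 = 0)).card
          + (if IsLocalRing.residue o (Z 0 1) = 0 then 1 else 0) := by
      rw [Finset.card_filter, Fintype.sum_option, add_comm, Finset.card_filter]
      congr 1
      · refine Finset.sum_congr rfl fun x _ => ?_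
        simp only [hsome x]
      · simp only [hnone]
    rw [hcount]
    exact hroots
  have h3 : ∑ t : Option k, (Finset.univ.filter (fun g => bad (g * T t))).card
      = ∑ g, (Finset.univ.filter (fun t => bad (g * T t))).card := by
    simp only [Finset.card_filter]
    exact Finset.sum_comm
  have h4 : ∑ t : Option k, (Finset.univ.filter (fun g => bad (g * T t))).card
      = (Finset.univ.filter bad).card * (Nat.card k + 1) := by
    rw [Finset.sum_congr rfl fun t _ => h1 t, Finset.sum_const, Finset.card_univ,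
      Fintype.card_option, smul_eq_mul, Nat.card_eq_fintype_card, mul_comm]
  have h5 : ∑ g : (Matrix (Fin 2) (Fin 2) o)ˣ, (Finset.univ.filter (fun t => bad (g * T t))).card
      ≤ 2 * Fintype.card (Matrix (Fin 2) (Fin 2) o)ˣ := by
    calc _ ≤ ∑ _g : (Matrix (Fin 2) (Fin 2) o)ˣ, 2 := Finset.sum_le_sum fun g _ => h2 g
      _ = _ := by rw [Finset.sum_const, Finset.card_univ, smul_eq_mul, mul_comm]
  rw [← h4, h3]
  exact h5

/-- The degree bound in the non-scalar case (blueprint 5.1). `K = 1 + π^(r-1) M_2(o)`, `r ≥ 2`; `χ` contains on `K` the character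
`1 + π^(r-1) y ↦ ψ (π^(r-1) tr (Y y))`, `Y` not scalar modulo `π`.
PROOF. By `clifford_avg` (`K` is normal and commutative) for `u = 1 + π^(r-1) y ∈ K`: `χ u = χ 1 * |G|⁻¹ ∑_g ψ (π^(r-1) tr (Y g y g⁻¹))`. Count the multiplicities on `uni2`: the characters of
`uni2 ≅ (o, +)` are `x ↦ ψ (b x)`; those with `b` a unit have multiplicity at most `1` (`gl2_whittaker` for the primitive character `ψ (b ·)`), there are `q^r - q^(r-1)` of them.
The sum of the multiplicities over all characters with `b` not a unit is the multiplicity of the trivial character on `{1 + π^(r-1) x e_01}`, which by the formula is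
`χ 1 * Prob_g ((g⁻¹ Y g)_{10} = 0 mod π)`. For a non-scalar `Y` over the residue field `(g⁻¹ Y g)_{10} = 0` iff the first column of `g` is an eigenvector; at most `2` of the `q + 1` lines
are eigenlines, so the probability is at most `2/(q+1)`. Hence `χ 1 * (q-1)/(q+1) ≤ q^(r-1) (q-1)`. -/
theorem gl2_nonscalar (hch : IsChain o π r) (hr : 2 ≤ r) (ψ : AddChar o ℂ) (hψ : IsPrim π r ψ)
    (q : ℕ) (hq : Nat.card (IsLocalRing.ResidueField o) = q)
    {χ : (Matrix (Fin 2) (Fin 2) o)ˣ → ℂ} (hχ : χ ∈ Irr (Matrix (Fin 2) (Fin 2) o)ˣ)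
    (Y : Matrix (Fin 2) (Fin 2) o) (hY : ¬ ∃ (c : o) (Z : Matrix (Fin 2) (Fin 2) o), Y = c • 1 + π • Z)
    (K : Subgroup (Matrix (Fin 2) (Fin 2) o)ˣ)
    (hK : ∀ u, u ∈ K ↔ ∃ y, (u : Matrix (Fin 2) (Fin 2) o) = 1 + π ^ (r - 1) • y)
    (m : (Matrix (Fin 2) (Fin 2) o)ˣ → ℂ)
    (hm : ∀ (u : (Matrix (Fin 2) (Fin 2) o)ˣ) (y), (u : Matrix (Fin 2) (Fin 2) o) = 1 + π ^ (r - 1) • y →
      m u = ψ (π ^ (r - 1) * (Y * y).trace))
    (h0 : mult K m χ ≠ 0) (n : ℕ) (hn : χ 1 = n) : n ≤ q ^ (r - 1) * (q + 1) := by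
  classical
  have : Fintype o := Fintype.ofFinite o
  have : Fintype (Matrix (Fin 2) (Fin 2) o)ˣ := Fintype.ofFinite _
  have hsq : π ^ (r - 1) * π ^ (r - 1) = 0 := by
    rw [← pow_add]
    have : r - 1 + (r - 1) = r + (r - 2) := by omega
    rw [this, pow_add, hch.pow, zero_mul]
  -- `K` is normal
  have hconj : ∀ (g u : (Matrix (Fin 2) (Fin 2) o)ˣ) (y : Matrix (Fin 2) (Fin 2) o),
      u.val = 1 + π ^ (r - 1) • y → (g * u * g⁻¹).val
        = 1 + π ^ (r - 1) • (g.val * y * (g⁻¹ : (Matrix (Fin 2) (Fin 2) o)ˣ).val) := by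
    intro g u y hu
    have e1 : g.val * (g⁻¹ : (Matrix (Fin 2) (Fin 2) o)ˣ).val = 1 := Units.mul_inv g
    rw [Units.val_mul, Units.val_mul, hu, mul_add, add_mul, mul_one, e1, Matrix.mul_smul,
      Matrix.smul_mul]
  have hKn : K.Normal := by
    refine ⟨fun u hu g => ?_⟩
    obtain ⟨y, hy⟩ := (hK u).1 hu
    exact (hK _).2 ⟨_, hconj g u y hy⟩
  -- `m` is a linear character of `K`
  have hm1 : m 1 = 1 := by
    have h1 := hm 1 0 (by rw [Units.val_one, smul_zero, add_zero])
    rw [h1, mul_zero, Matrix.trace_zero, mul_zero, AddChar.map_zero_eq_one]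
  have hmm : ∀ u ∈ K, ∀ v ∈ K, m (u * v) = m u * m v := by
    intro u hu v hv
    obtain ⟨y, hy⟩ := (hK u).1 hu
    obtain ⟨z, hz⟩ := (hK v).1 hv
    have h1 : (u * v).val = 1 + π ^ (r - 1) • (y + z) := by
      rw [Units.val_mul, hy, hz, add_mul, one_mul, mul_add, mul_one, smul_add]
      have h2 : (π ^ (r - 1) • y) * (π ^ (r - 1) • z) = 0 := by
        rw [Matrix.smul_mul, Matrix.mul_smul, smul_smul, hsq, zero_smul]
      rw [h2, add_zero]
      abel
    rw [hm _ _ h1, hm _ _ hy, hm _ _ hz, mul_add, Matrix.trace_add, mul_add,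
      AddChar.map_add_eq_mul]
  let f : K →* ℂ :=
    { toFun := fun u => m u.1
      map_one' := hm1
      map_mul' := fun u v => hmm u.1 u.2 v.1 v.2 }
  let l : K →* ℂˣ := f.toHomUnits
  have hl : ∀ u : K, (l u : ℂ) = m u.1 := fun u => rfl
  have hκ : (fun u : K => (l u : ℂ)) ∈ Irr K := lin_irr l
  have h0' : ip (fun k : K => χ k) (fun u : K => (l u : ℂ)) ≠ 0 := h0
  have havg : ∀ x : K, (Fintype.card (Matrix (Fin 2) (Fin 2) o)ˣ : ℂ) * χ x =
      χ 1 * ∑ h : (Matrix (Fin 2) (Fin 2) o)ˣ, m (h * x * h⁻¹) := by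
    intro x
    have h1 := clifford_avg K hKn hχ hκ h0' x
    rw [finsum_eq_sum_of_fintype, map_one, Units.val_one, one_mul, Nat.card_eq_fintype_card] at h1
    exact h1
  -- the values on the unipotent elements
  have hval : ∀ x : o, π * x = 0 → (Fintype.card (Matrix (Fin 2) (Fin 2) o)ˣ : ℂ) * χ (d04u x) =
      χ 1 * ∑ g : (Matrix (Fin 2) (Fin 2) o)ˣ,
        ψ (x * ((g⁻¹ : (Matrix (Fin 2) (Fin 2) o)ˣ).val * Y * g.val) 1 0) := by
    intro x hx
    have h1 := (chain_ann hch 1 hch.pos x)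
    rw [pow_one] at h1
    obtain ⟨x', rfl⟩ := h1.1 hx
    have h2 : (d04u (π ^ (r - 1) * x')).val = 1 + π ^ (r - 1) • !![0, x'; 0, 0] := by
      ext i j
      fin_cases i <;> fin_cases j <;> simp [d04u]
    have h3 : d04u (π ^ (r - 1) * x') ∈ K := (hK _).2 ⟨_, h2⟩
    have h4 := havg ⟨_, h3⟩
    rw [h4]
    congr 1
    refine Finset.sum_congr rfl fun g _ => ?_
    rw [hm _ _ (hconj g _ _ h2)]
    congr 1
    have h5 : (Y * (g.val * !![0, x'; 0, 0] * (g⁻¹ : (Matrix (Fin 2) (Fin 2) o)ˣ).val)).trace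
        = (((g⁻¹ : (Matrix (Fin 2) (Fin 2) o)ˣ).val * Y * g.val) * !![0, x'; 0, 0]).trace := by
      rw [← mul_assoc, Matrix.trace_mul_comm]
      simp only [mul_assoc]
    rw [h5, Matrix.trace_fin_two]
    simp only [Matrix.mul_apply, Fin.sum_univ_two]
    simp
    ring
  -- the multiplicities on the unipotent group
  have hlin : ∀ b : o, IsLin (uni2 o) (fun u => ψ (b * (u : Matrix (Fin 2) (Fin 2) o) 0 1)) := by
    intro b
    refine ⟨?_, ?_⟩
    · simp
    · intro u hu v hv
      obtain ⟨hu1, _, _⟩ := hu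
      obtain ⟨_, hv2, _⟩ := hv
      simp only [Units.val_mul, Matrix.mul_apply, Fin.sum_univ_two, hu1, hv2, one_mul, mul_one]
      rw [add_comm, mul_add, AddChar.map_add_eq_mul]
  have hN : ∀ b : o, ∃ N : ℕ,
      mult (uni2 o) (fun u => ψ (b * (u : Matrix (Fin 2) (Fin 2) o) 0 1)) χ = N :=
    fun b => mult_nat _ _ (hlin b) (isNat_irr hχ)
  choose N hN using hN
  have hNf : ∀ b : o, (N b : ℂ) = (Nat.card o : ℂ)⁻¹ * ∑ x : o, χ (d04u x) * conj (ψ (b * x)) := by
    intro b
    rw [← hN b]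
    exact d04_mult χ (fun x => ψ (b * x))
  have hoC : (Nat.card o : ℂ) ≠ 0 := by exact_mod_cast Nat.card_pos.ne'
  have hNsum : ∀ S : Finset o, (Nat.card o : ℂ) * ((∑ b ∈ S, N b : ℕ) : ℂ)
      = ∑ x : o, χ (d04u x) * ∑ b ∈ S, conj (ψ (b * x)) := by
    intro S
    push_cast
    rw [Finset.mul_sum]
    calc ∑ b ∈ S, (Nat.card o : ℂ) * (N b : ℂ)
        = ∑ b ∈ S, ∑ x : o, χ (d04u x) * conj (ψ (b * x)) := by
          refine Finset.sum_congr rfl fun b _ => ?_
          rw [hNf b, ← mul_assoc, mul_inv_cancel₀ hoC, one_mul]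
      _ = _ := by
          rw [Finset.sum_comm]
          exact Finset.sum_congr rfl fun x _ => by rw [Finset.mul_sum]
  -- (i)
  have hi : ∑ b : o, N b = n := by
    have h1 := hNsum Finset.univ
    have h2 : ∑ b : o, conj (ψ (b * 0)) = (Nat.card o : ℂ) := by
      rw [Nat.card_eq_fintype_card, ← Finset.card_univ, Finset.card_eq_sum_ones]
      push_cast
      exact Finset.sum_congr rfl fun b _ => by
        rw [mul_zero, AddChar.map_zero_eq_one, map_one]
    have h3 : ∑ x : o, χ (d04u x) * ∑ b : o, conj (ψ (b * x))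
        = χ (d04u 0) * ∑ b : o, conj (ψ (b * 0)) := by
      refine Finset.sum_eq_single (0 : o) ?_ ?_
      · intro x _ hx
        rw [d04_sum_all hch hψ x hx, mul_zero]
      · intro h
        exact absurd (Finset.mem_univ _) h
    rw [h3, h2, d04u_zero, hn, mul_comm] at h1
    exact_mod_cast mul_right_cancel₀ hoC h1
  -- (ii), (iii)
  set I : Finset o := Finset.univ.filter (fun b : o => ¬ IsUnit b) with hI
  set A : Finset o := Finset.univ.filter (fun x : o => π * x = 0) with hA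
  set Bd : Finset (Matrix (Fin 2) (Fin 2) o)ˣ :=
    Finset.univ.filter (fun g : (Matrix (Fin 2) (Fin 2) o)ˣ =>
      ¬ IsUnit (((g⁻¹ : (Matrix (Fin 2) (Fin 2) o)ˣ).val * Y * g.val) 1 0)) with hBd
  have hii : (Nat.card o : ℂ) * ((∑ b ∈ I, N b : ℕ) : ℂ)
      = (I.card : ℂ) * ∑ x ∈ A, χ (d04u x) := by
    rw [hNsum I, hA, Finset.sum_filter, Finset.mul_sum]
    refine Finset.sum_congr rfl fun x _ => ?_
    rw [hI, d04_sum_nonunit hch hψ x]
    split_ifs
    · rw [mul_comm]
    · rw [mul_zero, mul_zero]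
  have hiii : (Fintype.card (Matrix (Fin 2) (Fin 2) o)ˣ : ℂ) * ∑ x ∈ A, χ (d04u x)
      = n * (A.card * Bd.card) := by
    rw [Finset.mul_sum]
    calc ∑ x ∈ A, (Fintype.card (Matrix (Fin 2) (Fin 2) o)ˣ : ℂ) * χ (d04u x)
        = ∑ x ∈ A, (n : ℂ) * ∑ g : (Matrix (Fin 2) (Fin 2) o)ˣ,
          ψ (x * ((g⁻¹ : (Matrix (Fin 2) (Fin 2) o)ˣ).val * Y * g.val) 1 0) := by
          refine Finset.sum_congr rfl fun x hx => ?_
          rw [hval x (Finset.mem_filter.1 hx).2, hn]
      _ = (n : ℂ) * ∑ g : (Matrix (Fin 2) (Fin 2) o)ˣ, ∑ x ∈ A,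
          ψ (x * ((g⁻¹ : (Matrix (Fin 2) (Fin 2) o)ˣ).val * Y * g.val) 1 0) := by
          rw [← Finset.mul_sum, Finset.sum_comm]
      _ = n * (A.card * Bd.card) := by
          congr 1
          have hBdc : (Bd.card : ℂ) = ∑ g : (Matrix (Fin 2) (Fin 2) o)ˣ,
              if ¬ IsUnit (((g⁻¹ : (Matrix (Fin 2) (Fin 2) o)ˣ).val * Y * g.val) 1 0)
              then (1 : ℂ) else 0 := by
            rw [hBd, Finset.card_filter]
            push_cast
            rfl
          rw [hBdc, Finset.mul_sum]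
          refine Finset.sum_congr rfl fun g _ => ?_
          have hAg := d04_sum_ann hch hψ
            (((g⁻¹ : (Matrix (Fin 2) (Fin 2) o)ˣ).val * Y * g.val) 1 0)
          rw [← hA] at hAg
          rw [hAg]
          by_cases h : IsUnit (((g⁻¹ : (Matrix (Fin 2) (Fin 2) o)ˣ).val * Y * g.val) 1 0)
          · rw [if_pos h, if_neg (not_not.2 h), mul_zero]
          · rw [if_neg h, if_pos h, mul_one]
  have hIcard : I.card = q ^ (r - 1) := by rw [hI, d04_card_nonunit hch, hq]
  have hAcard : A.card = q := by rw [hA, d04_card_ann hch, hq]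
  have hocard : Nat.card o = q ^ r := by rw [chain_card' hch, hq]
  have hqr : q ^ (r - 1) * q = q ^ r := by
    rw [← pow_succ, Nat.sub_add_cancel hch.pos]
  have hGB : Fintype.card (Matrix (Fin 2) (Fin 2) o)ˣ * ∑ b ∈ I, N b = n * Bd.card := by
    have h1 : (Nat.card o : ℂ) * ((Fintype.card (Matrix (Fin 2) (Fin 2) o)ˣ *
        ∑ b ∈ I, N b : ℕ) : ℂ) = (Nat.card o : ℂ) * ((n * Bd.card : ℕ) : ℂ) := by
      rw [Nat.cast_mul, mul_left_comm, hii, mul_left_comm, hiii, hIcard, hAcard, hocard, ← hqr]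
      push_cast
      ring
    exact_mod_cast mul_left_cancel₀ hoC h1
  -- (iv)
  have hiv : ∑ b ∈ Finset.univ.filter (fun b : o => IsUnit b), N b ≤ q ^ r - q ^ (r - 1) := by
    have h1 : ∀ b ∈ Finset.univ.filter (fun b : o => IsUnit b), N b ≤ 1 := by
      intro b hb
      obtain ⟨w, hw⟩ := (Finset.mem_filter.1 hb).2
      have hprim : IsPrim π r (ψ.mulShift b) := by
        obtain ⟨a, ha⟩ := hψ.ne
        refine ⟨⟨(w⁻¹ : oˣ) * a, ?_⟩⟩
        rw [AddChar.mulShift_apply]
        have : b * (π ^ (r - 1) * ((w⁻¹ : oˣ) * a)) = π ^ (r - 1) * a := by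
          rw [← hw]
          calc (w : o) * (π ^ (r - 1) * ((w⁻¹ : oˣ) * a))
              = (w * (w⁻¹ : oˣ)) * (π ^ (r - 1) * a) := by ring
            _ = _ := by rw [Units.mul_inv, one_mul]
        rw [this]
        exact ha
      have h2 := gl2_whittaker hch (ψ.mulShift b) hprim hχ
      have h3 : mult (uni2 o) (fun u => (ψ.mulShift b) ((u : Matrix (Fin 2) (Fin 2) o) 0 1)) χ
          = N b := by
        rw [← hN b]
        simp only [AddChar.mulShift_apply]
      rw [h3] at h2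
      rcases h2 with h | h
      · have : N b = 0 := by exact_mod_cast h
        omega
      · have : N b = 1 := by exact_mod_cast h
        omega
    have h4 : (Finset.univ.filter (fun b : o => IsUnit b)).card + I.card = q ^ r := by
      rw [hI, Finset.card_filter_add_card_filter_not, Finset.card_univ,
        ← Nat.card_eq_fintype_card, hocard]
    calc _ ≤ ∑ _b ∈ Finset.univ.filter (fun b : o => IsUnit b), 1 := Finset.sum_le_sum h1
      _ = (Finset.univ.filter (fun b : o => IsUnit b)).card := by simp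
      _ ≤ q ^ r - q ^ (r - 1) := by omega
  have hsplit : ∑ b ∈ Finset.univ.filter (fun b : o => IsUnit b), N b + ∑ b ∈ I, N b = n := by
    rw [← hi, hI]
    exact Finset.sum_filter_add_sum_filter_not _ _ _
  have hbad := d04_bad hch Y hY
  rw [hq] at hbad
  -- conclusion
  have hq2 : 2 ≤ q := by
    have := fin_res o
    rw [← hq]
    exact Finite.one_lt_card
  have hGpos : 0 < Fintype.card (Matrix (Fin 2) (Fin 2) o)ˣ := Fintype.card_pos
  set Gc := Fintype.card (Matrix (Fin 2) (Fin 2) o)ˣ with hGc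
  set SU := ∑ b ∈ Finset.univ.filter (fun b : o => IsUnit b), N b with hSU
  set SI := ∑ b ∈ I, N b with hSI
  obtain ⟨t, rfl⟩ : ∃ t, q = t + 2 := ⟨q - 2, by omega⟩
  have h5 : SU ≤ (t + 2) ^ (r - 1) * (t + 1) := by
    refine hiv.trans ?_
    rw [← hqr]
    have : (t + 2) ^ (r - 1) * (t + 2) = (t + 2) ^ (r - 1) * (t + 1) + (t + 2) ^ (r - 1) := by ring
    omega
  have h6 : Gc * (n * (t + 3)) ≤ Gc * (2 * n + (t + 2) ^ (r - 1) * (t + 1) * (t + 3)) := by
    calc Gc * (n * (t + 3)) = (Gc * SI) * (t + 3) + Gc * (SU * (t + 3)) := by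
          rw [← hsplit]
          ring
      _ = n * (Bd.card * (t + 2 + 1)) + Gc * (SU * (t + 3)) := by
          rw [hGB]
          ring
      _ ≤ n * (2 * Gc) + Gc * (((t + 2) ^ (r - 1) * (t + 1)) * (t + 3)) := by
          gcongr
      _ = _ := by ring
  have h7 := Nat.le_of_mul_le_mul_left h6 hGpos
  have h8 : n * (t + 1) ≤ (t + 2) ^ (r - 1) * (t + 3) * (t + 1) := by
    have e1 : n * (t + 3) = n * (t + 1) + 2 * n := by ring
    have e2 : (t + 2) ^ (r - 1) * (t + 1) * (t + 3) = (t + 2) ^ (r - 1) * (t + 3) * (t + 1) := by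
      ring
    omega
  have h9 := Nat.le_of_mul_le_mul_right h8 (Nat.succ_pos t)
  exact h9

end Pool.Agent.Lib.MP_fa0f6c_al.Cx
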