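import Pool.Agent.Lib.MP_fa0f6c_al.Cx.D04
import Pool.Agent.Lib.MP_fa0f6c_al.Cx.R12

set_option autoImplicit false

namespace Pool.Agent.Lib.MP_fa0f6c_al.Cx

variable {o : Type} [CommRing o] [IsLocalRing o] [Finite o] {π : o} {r : ℕ}

private theorem d05_unit (hch : IsChain o π r) (x : o) :
    IsUnit (Ideal.Quotient.mk (Ideal.span {π ^ (r - 1)} : Ideal o) x) → 2 ≤ r → IsUnit x := by
  intro hu hr
  rcases chain_isUnit hch x with h | ⟨y, rfl⟩
  · exact h
  · exfalso
    obtain ⟨w, hw⟩ := hu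
    have hI : Ideal.Quotient.mk (Ideal.span {π ^ (r - 1)} : Ideal o) (π ^ (r - 1)) = 0 :=
      Ideal.Quotient.eq_zero_iff_mem.2 (Ideal.mem_span_singleton_self _)
    have h1 : (w : o ⧸ (Ideal.span {π ^ (r - 1)} : Ideal o)) ^ (r - 1) = 0 := by
      rw [hw, ← map_pow, mul_pow, map_mul, hI, zero_mul]
    have h2 : IsUnit ((w : o ⧸ (Ideal.span {π ^ (r - 1)} : Ideal o)) ^ (r - 1)) :=
      w.isUnit.pow _
    rw [h1] at h2
    have h3 : (0 : o ⧸ (Ideal.span {π ^ (r - 1)} : Ideal o)) = 1 := isUnit_zero_iff.1 h2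
    have h4 : Ideal.Quotient.mk (Ideal.span {π ^ (r - 1)} : Ideal o) 1 = 0 := by
      rw [map_one, h3]
    rw [Ideal.Quotient.eq_zero_iff_mem, Ideal.mem_span_singleton] at h4
    have h5 : IsUnit (π ^ (r - 1)) := isUnit_of_dvd_one h4
    have h6 : IsUnit π := (isUnit_pow_iff (by omega)).1 h5
    have h7 := chain_nonunit hch 1
    rw [mul_one] at h7
    exact h7 h6

/-- The quotient `o / π^(r-1)` is a chain ring of length `r - 1` with the same residue field size. -/
theorem chain_quot (hch : IsChain o π r) (hr : 2 ≤ r) :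
    ∃ (_ : IsLocalRing (o ⧸ (Ideal.span {π ^ (r - 1)} : Ideal o))),
      IsChain (o ⧸ (Ideal.span {π ^ (r - 1)} : Ideal o))
        (Ideal.Quotient.mk (Ideal.span {π ^ (r - 1)} : Ideal o) π) (r - 1) ∧
      Nat.card (IsLocalRing.ResidueField (o ⧸ (Ideal.span {π ^ (r - 1)} : Ideal o))) =
        Nat.card (IsLocalRing.ResidueField o) := by
  have hI : Ideal.Quotient.mk (Ideal.span {π ^ (r - 1)} : Ideal o) (π ^ (r - 1)) = 0 :=
    Ideal.Quotient.eq_zero_iff_mem.2 (Ideal.mem_span_singleton_self _)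
  have hnt : Nontrivial (o ⧸ (Ideal.span {π ^ (r - 1)} : Ideal o)) := by
    refine Ideal.Quotient.nontrivial_iff.2 ?_
    intro h
    have h1 : (1 : o) ∈ (Ideal.span {π ^ (r - 1)} : Ideal o) := by rw [h]; trivial
    rw [Ideal.mem_span_singleton] at h1
    have h6 : IsUnit π := (isUnit_pow_iff (by omega)).1 (isUnit_of_dvd_one h1)
    have h7 := chain_nonunit hch 1
    rw [mul_one] at h7
    exact h7 h6
  have hloc : IsLocalRing (o ⧸ (Ideal.span {π ^ (r - 1)} : Ideal o)) :=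
    IsLocalRing.of_surjective' (Ideal.Quotient.mk (Ideal.span {π ^ (r - 1)} : Ideal o))
      Ideal.Quotient.mk_surjective
  have hmax : ∀ x : o, Ideal.Quotient.mk (Ideal.span {π ^ (r - 1)} : Ideal o) x ∈
      IsLocalRing.maximalIdeal (o ⧸ (Ideal.span {π ^ (r - 1)} : Ideal o)) ↔
      x ∈ IsLocalRing.maximalIdeal o := by
    intro x
    rw [IsLocalRing.mem_maximalIdeal, IsLocalRing.mem_maximalIdeal, mem_nonunits_iff,
      mem_nonunits_iff]
    exact not_congr ⟨fun h => d05_unit hch x h hr, fun h => h.map _⟩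
  refine ⟨hloc, ⟨?_, by omega, ?_, ?_⟩, ?_⟩
  · ext x
    obtain ⟨x, rfl⟩ := Ideal.Quotient.mk_surjective x
    rw [hmax, hch.max, Ideal.mem_span_singleton, Ideal.mem_span_singleton]
    constructor
    · intro h
      exact map_dvd _ h
    · rintro ⟨y, hy⟩
      obtain ⟨y, rfl⟩ := Ideal.Quotient.mk_surjective y
      rw [← map_mul, Ideal.Quotient.eq, Ideal.mem_span_singleton] at hy
      have h1 : π ∣ π ^ (r - 1) := dvd_pow_self _ (by omega)
      have h2 := h1.trans hy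
      have h3 := dvd_add h2 (dvd_mul_right π y)
      rwa [sub_add_cancel] at h3
  · rw [← map_pow]
    exact hI
  · rw [← map_pow]
    intro h
    rw [Ideal.Quotient.eq_zero_iff_mem, Ideal.mem_span_singleton] at h
    obtain ⟨c, hc⟩ := h
    apply hch.ne
    calc π ^ (r - 1) = π ^ (r - 1 - 1) * π := by
          rw [← pow_succ]
          congr 1
          omega
      _ = (π ^ (r - 1) * c) * π := by rw [hc]
      _ = (π ^ (r - 1) * π) * c := by ring
      _ = 0 := by
          rw [← pow_succ, Nat.sub_add_cancel hch.pos, hch.pow, zero_mul]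
  · let F : o →+* IsLocalRing.ResidueField (o ⧸ (Ideal.span {π ^ (r - 1)} : Ideal o)) :=
      (IsLocalRing.residue _).comp (Ideal.Quotient.mk _)
    have hF : Function.Surjective F :=
      IsLocalRing.residue_surjective.comp Ideal.Quotient.mk_surjective
    have hker : RingHom.ker F = IsLocalRing.maximalIdeal o := by
      ext x
      rw [RingHom.mem_ker, ← hmax]
      exact IsLocalRing.residue_eq_zero_iff _
    have e1 := RingHom.quotientKerEquivOfSurjective hF
    have e2 : (o ⧸ RingHom.ker F) ≃+* (o ⧸ IsLocalRing.maximalIdeal o) :=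
      Ideal.quotEquivOfEq hker
    exact Nat.card_congr (e1.symm.trans e2).toEquiv

/-- Scalar top layer: twist and factor. PROOF: `1 + π^(r-1) y ↦ ψ (π^(r-1) c tr y) = λ (det)` for a linear character `λ` of `oˣ` extending
`1 + π^(r-1) x ↦ ψ (π^(r-1) c x)` (`lin_extend`, R08); `χ' = (λ ∘ det)⁻¹ χ` (`irr_twist`) is trivial on `K` (`isotypic`: the character is `G`-invariant), so it factors through the
surjective map `GL_2(o) → GL_2(o / π^(r-1))` (`irr_defl`), whose kernel is `K`. -/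
theorem gl2_scalar (hch : IsChain o π r) (hr : 2 ≤ r) (ψ : AddChar o ℂ) (hψ : IsPrim π r ψ)
    {χ : (Matrix (Fin 2) (Fin 2) o)ˣ → ℂ} (hχ : χ ∈ Irr (Matrix (Fin 2) (Fin 2) o)ˣ)
    (Y : Matrix (Fin 2) (Fin 2) o) (hY : ∃ (c : o) (Z : Matrix (Fin 2) (Fin 2) o), Y = c • 1 + π • Z)
    (K : Subgroup (Matrix (Fin 2) (Fin 2) o)ˣ)
    (hK : ∀ u, u ∈ K ↔ ∃ y, (u : Matrix (Fin 2) (Fin 2) o) = 1 + π ^ (r - 1) • y)
    (m : (Matrix (Fin 2) (Fin 2) o)ˣ → ℂ)
    (hm : ∀ (u : (Matrix (Fin 2) (Fin 2) o)ˣ) (y), (u : Matrix (Fin 2) (Fin 2) o) = 1 + π ^ (r - 1) • y →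
      m u = ψ (π ^ (r - 1) * (Y * y).trace))
    (h0 : mult K m χ ≠ 0) :
    ∃ χ' ∈ Irr (Matrix (Fin 2) (Fin 2) (o ⧸ (Ideal.span {π ^ (r - 1)} : Ideal o)))ˣ,
      χ' 1 = χ 1 := by
  classical
  have hsq : π ^ (r - 1) * π ^ (r - 1) = 0 := by
    rw [← pow_add]
    have : r - 1 + (r - 1) = r + (r - 2) := by omega
    rw [this, pow_add, hch.pow, zero_mul]
  have hpp : π ^ (r - 1) * π = 0 := by
    rw [← pow_succ, Nat.sub_add_cancel hch.pos, hch.pow]
  obtain ⟨c, Z, rfl⟩ := hY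
  -- the values of `m`
  have hm' : ∀ (u : (Matrix (Fin 2) (Fin 2) o)ˣ) (y), (u : Matrix (Fin 2) (Fin 2) o)
      = 1 + π ^ (r - 1) • y → m u = ψ (c * (π ^ (r - 1) * y.trace)) := by
    intro u y hu
    rw [hm u y hu]
    congr 1
    rw [add_mul, Matrix.smul_mul, Matrix.smul_mul, one_mul, Matrix.trace_add, Matrix.trace_smul,
      Matrix.trace_smul, smul_eq_mul, smul_eq_mul, mul_add, ← mul_assoc _ π, hpp, zero_mul,
      add_zero]
    ring
  have hconj : ∀ (g u : (Matrix (Fin 2) (Fin 2) o)ˣ) (y : Matrix (Fin 2) (Fin 2) o),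
      u.val = 1 + π ^ (r - 1) • y → (g * u * g⁻¹).val
        = 1 + π ^ (r - 1) • (g.val * y * (g⁻¹ : (Matrix (Fin 2) (Fin 2) o)ˣ).val) := by
    intro g u y hu
    have e1 : g.val * (g⁻¹ : (Matrix (Fin 2) (Fin 2) o)ˣ).val = 1 := Units.mul_inv g
    rw [Units.val_mul, Units.val_mul, hu, mul_add, add_mul, mul_one, e1, Matrix.mul_smul,
      Matrix.smul_mul]
  have hm1 : m 1 = 1 := by
    have h1 := hm' 1 0 (by rw [Units.val_one, smul_zero, add_zero])
    rw [h1, Matrix.trace_zero, mul_zero, mul_zero, AddChar.map_zero_eq_one]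
  have hmm : ∀ u ∈ K, ∀ v ∈ K, m (u * v) = m u * m v := by
    intro u hu v hv
    obtain ⟨y, hy⟩ := (hK u).1 hu
    obtain ⟨z, hz⟩ := (hK v).1 hv
    have h1 : (u * v).val = 1 + π ^ (r - 1) • (y + z) := by
      rw [Units.val_mul, hy, hz, add_mul, one_mul, mul_add, mul_one, smul_add]
      have h2 : (π ^ (r - 1) • y) * (π ^ (r - 1) • z) = 0 := by
        rw [Matrix.smul_mul, Matrix.mul_smul, smul_smul, hsq, zero_smul]
      rw [h2, add_zero]
      abel
    rw [hm' _ _ h1, hm' _ _ hy, hm' _ _ hz, Matrix.trace_add, mul_add, mul_add,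
      AddChar.map_add_eq_mul]
  have hinv : ∀ g : (Matrix (Fin 2) (Fin 2) o)ˣ, ∀ u ∈ K, g * u * g⁻¹ ∈ K ∧
      m (g * u * g⁻¹) = m u := by
    intro g u hu
    obtain ⟨y, hy⟩ := (hK u).1 hu
    refine ⟨(hK _).2 ⟨_, hconj g u y hy⟩, ?_⟩
    have e1 : (g.val * y * (g⁻¹ : (Matrix (Fin 2) (Fin 2) o)ˣ).val).trace = y.trace := by
      rw [Matrix.trace_mul_comm, ← mul_assoc, Units.inv_mul, one_mul]
    rw [hm' _ _ (hconj g u y hy), hm' _ _ hy, e1]
  have hiso := isotypic K m ⟨hm1, hmm⟩ hinv hχ h0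
  -- the linear character of `oˣ`
  let B : Subgroup oˣ :=
    { carrier := {v | ∃ x, (v : o) = 1 + π ^ (r - 1) * x}
      one_mem' := ⟨0, by rw [Units.val_one, mul_zero, add_zero]⟩
      mul_mem' := by
        rintro v w ⟨x, hx⟩ ⟨y, hy⟩
        refine ⟨x + y, ?_⟩
        rw [Units.val_mul, hx, hy]
        linear_combination (x * y) * hsq
      inv_mem' := by
        rintro v ⟨x, hx⟩
        refine ⟨-x, ?_⟩
        have h1 : (v : o) * (1 + π ^ (r - 1) * -x) = 1 := by
          rw [hx]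
          linear_combination (- x * x) * hsq
        calc ((v⁻¹ : oˣ) : o) = (v⁻¹ : oˣ) * ((v : o) * (1 + π ^ (r - 1) * -x)) := by
              rw [h1, mul_one]
          _ = _ := by rw [← mul_assoc, Units.inv_mul, one_mul] }
  let f : B →* ℂ :=
    { toFun := fun v => ψ (c * (((v : oˣ) : o) - 1))
      map_one' := by simp
      map_mul' := by
        rintro ⟨v, x, hx⟩ ⟨w, y, hy⟩
        show ψ (c * ((v * w : oˣ) - 1)) = ψ (c * ((v : o) - 1)) * ψ (c * ((w : o) - 1))
        rw [← AddChar.map_add_eq_mul]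
        congr 1
        rw [Units.val_mul, hx, hy]
        linear_combination (c * x * y) * hsq }
  obtain ⟨l, hl⟩ := lin_extend B f.toHomUnits
  have hdet : ∀ (u : (Matrix (Fin 2) (Fin 2) o)ˣ) (y : Matrix (Fin 2) (Fin 2) o),
      (u : Matrix (Fin 2) (Fin 2) o) = 1 + π ^ (r - 1) • y →
      (Units.map (Matrix.detMonoidHom : Matrix (Fin 2) (Fin 2) o →* o) u : o)
        = 1 + π ^ (r - 1) * y.trace := by
    intro u y hu
    rw [Units.coe_map]
    show Matrix.det (u : Matrix (Fin 2) (Fin 2) o) = _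
    rw [hu, Matrix.det_fin_two, Matrix.trace_fin_two]
    simp only [Matrix.add_apply, Matrix.smul_apply, smul_eq_mul, Matrix.one_apply]
    simp
    linear_combination (y 0 0 * y 1 1 - y 0 1 * y 1 0) * hsq
  let L : (Matrix (Fin 2) (Fin 2) o)ˣ →* ℂˣ :=
    (l.comp (Units.map (Matrix.detMonoidHom : Matrix (Fin 2) (Fin 2) o →* o)))⁻¹
  have hL : ∀ u ∈ K, (L u : ℂ) * m u = 1 := by
    intro u hu
    obtain ⟨y, hy⟩ := (hK u).1 hu
    have h1 := hdet u y hy
    have h2 : (l (Units.map (Matrix.detMonoidHom : Matrix (Fin 2) (Fin 2) o →* o) u) : ℂ)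
        = m u := by
      have h3 := hl ⟨Units.map (Matrix.detMonoidHom : Matrix (Fin 2) (Fin 2) o →* o) u, _, h1⟩
      rw [h3, hm' u y hy]
      show ψ (c * ((Units.map (Matrix.detMonoidHom : Matrix (Fin 2) (Fin 2) o →* o) u : o) - 1)) = _
      rw [h1]
      congr 1
      ring
    rw [← h2]
    show ((l (Units.map (Matrix.detMonoidHom : Matrix (Fin 2) (Fin 2) o →* o) u))⁻¹ : ℂˣ) *
      (l (Units.map (Matrix.detMonoidHom : Matrix (Fin 2) (Fin 2) o →* o) u) : ℂ) = 1
    rw [Units.inv_mul]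
  have htw := irr_twist L hχ
  -- the quotient
  have hfin : Finite (o ⧸ (Ideal.span {π ^ (r - 1)} : Ideal o)) :=
    Finite.of_surjective _ Ideal.Quotient.mk_surjective
  let φ : (Matrix (Fin 2) (Fin 2) o)ˣ →*
      (Matrix (Fin 2) (Fin 2) (o ⧸ (Ideal.span {π ^ (r - 1)} : Ideal o)))ˣ :=
    Units.map ((Ideal.Quotient.mk (Ideal.span {π ^ (r - 1)} : Ideal o)).mapMatrix :
      Matrix (Fin 2) (Fin 2) o →+*
        Matrix (Fin 2) (Fin 2) (o ⧸ (Ideal.span {π ^ (r - 1)} : Ideal o))).toMonoidHom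
  have hφ : Function.Surjective φ := by
    intro w
    choose g hg using fun x => Ideal.Quotient.mk_surjective
      (I := (Ideal.span {π ^ (r - 1)} : Ideal o)) x
    set W : Matrix (Fin 2) (Fin 2) o := Matrix.of fun i j => g (w.val i j) with hW
    have h1 : (Ideal.Quotient.mk (Ideal.span {π ^ (r - 1)} : Ideal o)).mapMatrix W = w.val := by
      ext i j
      rw [RingHom.mapMatrix_apply, Matrix.map_apply, hW, Matrix.of_apply, hg]
    have h2 : IsUnit W.det := by
      apply d05_unit hch _ _ hr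
      rw [RingHom.map_det, h1]
      exact (Matrix.isUnit_iff_isUnit_det _).1 w.isUnit
    obtain ⟨U, hU⟩ := (Matrix.isUnit_iff_isUnit_det _).2 h2
    refine ⟨U, Units.ext ?_⟩
    show (Ideal.Quotient.mk (Ideal.span {π ^ (r - 1)} : Ideal o)).mapMatrix U.val = w.val
    rw [hU, h1]
  have hker : ∀ k, φ k = 1 → k ∈ K := by
    intro k hk
    have h1 : (Ideal.Quotient.mk (Ideal.span {π ^ (r - 1)} : Ideal o)).mapMatrix k.val = 1 :=
      congrArg Units.val hk
    have h2 : ∀ i j, ∃ y, k.val i j = (1 : Matrix (Fin 2) (Fin 2) o) i j + π ^ (r - 1) * y := by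
      intro i j
      have h3 : Ideal.Quotient.mk (Ideal.span {π ^ (r - 1)} : Ideal o) (k.val i j)
          = Ideal.Quotient.mk (Ideal.span {π ^ (r - 1)} : Ideal o)
            ((1 : Matrix (Fin 2) (Fin 2) o) i j) := by
        have h4 := congrFun (congrFun h1 i) j
        rw [RingHom.mapMatrix_apply, Matrix.map_apply] at h4
        rw [h4, Matrix.one_apply, Matrix.one_apply]
        split_ifs
        · rw [map_one]
        · rw [map_zero]
      rw [Ideal.Quotient.eq, Ideal.mem_span_singleton] at h3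
      obtain ⟨y, hy⟩ := h3
      exact ⟨y, by rw [← hy]; ring⟩
    choose y hy using h2
    refine (hK k).2 ⟨Matrix.of y, ?_⟩
    ext i j
    rw [hy i j, Matrix.add_apply, Matrix.smul_apply, Matrix.of_apply, smul_eq_mul]
  obtain ⟨χ', hχ', heq⟩ := irr_defl φ hφ htw (by
    intro k hk
    have hkK := hker k hk
    have h1 := hiso k hkK 1
    rw [mul_one] at h1
    show (L k : ℂ) * χ k = (L 1 : ℂ) * χ 1
    rw [h1, ← mul_assoc, hL k hkK, map_one, Units.val_one])
  refine ⟨χ', hχ', ?_⟩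
  have h1 := congrFun heq 1
  simp only [map_one, Units.val_one, one_mul] at h1
  exact h1.symm

/-- Every `χ` contains some character of `K`. HINT: a constituent of the restriction to the commutative group `K`; additive characters of `M_2(o)`:
`matrix_char_pow` with `a = r - 1`. -/
theorem gl2_exists_layer (hch : IsChain o π r) (hr : 2 ≤ r) (ψ : AddChar o ℂ) (hψ : IsPrim π r ψ)
    {χ : (Matrix (Fin 2) (Fin 2) o)ˣ → ℂ} (hχ : χ ∈ Irr (Matrix (Fin 2) (Fin 2) o)ˣ) :
    ∃ (Y : Matrix (Fin 2) (Fin 2) o) (K : Subgroup (Matrix (Fin 2) (Fin 2) o)ˣ)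
      (m : (Matrix (Fin 2) (Fin 2) o)ˣ → ℂ),
      (∀ u, u ∈ K ↔ ∃ y, (u : Matrix (Fin 2) (Fin 2) o) = 1 + π ^ (r - 1) • y) ∧
      (∀ (u : (Matrix (Fin 2) (Fin 2) o)ˣ) (y), (u : Matrix (Fin 2) (Fin 2) o) = 1 + π ^ (r - 1) • y →
        m u = ψ (π ^ (r - 1) * (Y * y).trace)) ∧ mult K m χ ≠ 0 := by
  classical
  have hsq : π ^ (r - 1) * π ^ (r - 1) = 0 := by
    rw [← pow_add]
    have : r - 1 + (r - 1) = r + (r - 2) := by omega
    rw [this, pow_add, hch.pow, zero_mul]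
  have hz : ∀ y z : Matrix (Fin 2) (Fin 2) o, (π ^ (r - 1) • y) * (π ^ (r - 1) • z) = 0 := by
    intro y z
    rw [Matrix.smul_mul, Matrix.mul_smul, smul_smul, hsq, zero_smul]
  have hmul : ∀ y z : Matrix (Fin 2) (Fin 2) o, (1 + π ^ (r - 1) • y) * (1 + π ^ (r - 1) • z)
      = 1 + π ^ (r - 1) • (y + z) := by
    intro y z
    rw [add_mul, one_mul, mul_add, mul_one, hz, add_zero, smul_add]
    abel
  let E : Matrix (Fin 2) (Fin 2) o → (Matrix (Fin 2) (Fin 2) o)ˣ := fun y =>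
    ⟨1 + π ^ (r - 1) • y, 1 + π ^ (r - 1) • (-y), by rw [hmul, add_neg_cancel, smul_zero, add_zero],
      by rw [hmul, neg_add_cancel, smul_zero, add_zero]⟩
  have hE : ∀ y, (E y : Matrix (Fin 2) (Fin 2) o) = 1 + π ^ (r - 1) • y := fun y => rfl
  have hEmul : ∀ y z, E y * E z = E (y + z) := fun y z => Units.ext (hmul y z)
  have hE0 : E 0 = 1 := by
    apply Units.ext
    rw [hE, smul_zero, add_zero, Units.val_one]
  let K : Subgroup (Matrix (Fin 2) (Fin 2) o)ˣ :=
    { carrier := {u | ∃ y, u = E y}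
      one_mem' := ⟨0, hE0.symm⟩
      mul_mem' := by
        rintro _ _ ⟨y, rfl⟩ ⟨z, rfl⟩
        exact ⟨y + z, hEmul y z⟩
      inv_mem' := by
        rintro _ ⟨y, rfl⟩
        refine ⟨-y, ?_⟩
        rw [inv_eq_iff_mul_eq_one, hEmul, add_neg_cancel, hE0] }
  have hKE : ∀ y, E y ∈ K := fun y => ⟨y, rfl⟩
  have hK : ∀ u, u ∈ K ↔ ∃ y, (u : Matrix (Fin 2) (Fin 2) o) = 1 + π ^ (r - 1) • y := by
    intro u
    constructor
    · rintro ⟨y, rfl⟩
      exact ⟨y, rfl⟩
    · rintro ⟨y, hy⟩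
      exact ⟨y, Units.ext hy⟩
  have hKc : ∀ x y : K, x * y = y * x := by
    rintro ⟨_, y, rfl⟩ ⟨_, z, rfl⟩
    apply Subtype.ext
    show E y * E z = E z * E y
    rw [hEmul, hEmul, add_comm]
  obtain ⟨κ, hκ, hne⟩ := exists_constituent K hχ
  obtain ⟨l, rfl⟩ := irr_deg_one hκ ((irr_comm hKc).1 κ hκ)
  -- the function on matrices
  have hex : ∀ y : Matrix (Fin 2) (Fin 2) o, ∃ y', π ^ (r - 1) • y = π ^ (r - 1) • y' :=
    fun y => ⟨y, rfl⟩
  let m0 : Matrix (Fin 2) (Fin 2) o → ℂ := fun z =>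
    if h : ∃ y, z = π ^ (r - 1) • y then (l ⟨E h.choose, hKE _⟩ : ℂ) else 1
  have hm0 : ∀ y, m0 (π ^ (r - 1) • y) = (l ⟨E y, hKE y⟩ : ℂ) := by
    intro y
    have h1 := (hex y).choose_spec
    have h2 : E (hex y).choose = E y := by
      apply Units.ext
      rw [hE, hE, ← h1]
    show (if h : ∃ y', π ^ (r - 1) • y = π ^ (r - 1) • y' then
      (l ⟨E h.choose, hKE _⟩ : ℂ) else 1) = _
    rw [dif_pos (hex y)]
    congr 2
    exact Subtype.ext h2
  obtain ⟨Y, hY⟩ := matrix_char_pow hch hψ (r - 1) (Nat.sub_le _ _) m0 (by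
    have h1 := hm0 0
    rw [smul_zero] at h1
    rw [h1]
    have h2 : (⟨E 0, hKE 0⟩ : K) = 1 := Subtype.ext hE0
    rw [h2, map_one, Units.val_one]) (by
    intro x y
    rw [hm0, hm0, hm0, ← Units.val_mul, ← map_mul]
    congr 2
    exact Subtype.ext (hEmul x y).symm)
  refine ⟨Y, K, fun u => m0 ((u : Matrix (Fin 2) (Fin 2) o) - 1), hK, ?_, ?_⟩
  · intro u y hu
    show m0 ((u : Matrix (Fin 2) (Fin 2) o) - 1) = _
    rw [hu, add_sub_cancel_left, hY]
  · have h1 : (fun n : K => m0 (((n : (Matrix (Fin 2) (Fin 2) o)ˣ) :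
        Matrix (Fin 2) (Fin 2) o) - 1)) = fun g : K => (l g : ℂ) := by
      funext n
      obtain ⟨_, y, rfl⟩ := n
      show m0 ((E y : Matrix (Fin 2) (Fin 2) o) - 1) = _
      rw [hE, add_sub_cancel_left, hm0]
    unfold mult
    show ip (fun n : K => χ n) (fun n : K => m0 (((n : (Matrix (Fin 2) (Fin 2) o)ˣ) :
        Matrix (Fin 2) (Fin 2) o) - 1)) ≠ 0
    rw [h1]
    exact hne

/-- PROOF: induction on `r`. `r = 1`: `n^2 ≤ |GL_2(F_q)| < q^4` (`irr_deg_sq_le`). `r ≥ 2`: `gl2_exists_layer`, `gl2_nonscalar` or `gl2_scalar` with the induction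
hypothesis for the quotient ring. -/
theorem gl2_bound (r : ℕ) : ∀ (o : Type) [CommRing o] [IsLocalRing o] [Finite o] (π : o),
    IsChain o π r → ∀ χ ∈ Irr (Matrix (Fin 2) (Fin 2) o)ˣ, ∀ n : ℕ, χ 1 = n →
      n ≤ Nat.card (IsLocalRing.ResidueField o) ^ (r - 1) *
        (Nat.card (IsLocalRing.ResidueField o) + 1) ∨
      n ≤ Nat.card (IsLocalRing.ResidueField o) ^ 2 := by
  induction r with
  | zero =>
    intro o _ _ _ π hch
    exact absurd hch.pos (lt_irrefl 0)
  | succ k ih =>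
    intro o _ _ _ π hch χ hχ n hn
    by_cases hk : k = 0
    · right
      subst hk
      have h1 := chain_card' hch
      have h2 := irr_deg_sq_le hχ n hn
      have h3 : Nat.card (Matrix (Fin 2) (Fin 2) o)ˣ ≤ Nat.card (Matrix (Fin 2) (Fin 2) o) :=
        Nat.card_le_card_of_injective _ Units.val_injective
      have h4 : Nat.card (Matrix (Fin 2) (Fin 2) o) = Nat.card o ^ 4 := by
        unfold Matrix
        rw [Nat.card_pi, Fin.prod_univ_two, Nat.card_pi, Fin.prod_univ_two]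
        ring
      rw [zero_add, pow_one] at h1
      rw [h4, h1] at h3
      have h5 : n ^ 2 ≤ (Nat.card (IsLocalRing.ResidueField o) ^ 2) ^ 2 := by
        rw [← pow_mul]
        exact h2.trans h3
      exact (Nat.pow_le_pow_iff_left (by norm_num)).1 h5
    · have hr : 2 ≤ k + 1 := by omega
      obtain ⟨ψ, hψ⟩ := exists_prim hch
      obtain ⟨Y, K, m, hK, hm, h0⟩ := gl2_exists_layer hch hr ψ hψ hχ
      by_cases hY : ∃ (c : o) (Z : Matrix (Fin 2) (Fin 2) o), Y = c • 1 + π • Z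
      · obtain ⟨χ', hχ', h1⟩ := gl2_scalar hch hr ψ hψ hχ Y hY K hK m hm h0
        obtain ⟨hloc, hch', hres⟩ := chain_quot hch hr
        have hfin : Finite (o ⧸ (Ideal.span {π ^ (k + 1 - 1)} : Ideal o)) :=
          Finite.of_surjective _ Ideal.Quotient.mk_surjective
        have h2 := ih (o ⧸ (Ideal.span {π ^ (k + 1 - 1)} : Ideal o)) _ hch' χ' hχ' n
          (h1.trans hn)
        rw [hres] at h2
        have hq : 0 < Nat.card (IsLocalRing.ResidueField o) := by
          have := fin_res o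
          exact Nat.card_pos
        rcases h2 with h2 | h2
        · left
          refine h2.trans (Nat.mul_le_mul_right _ ?_)
          exact Nat.pow_le_pow_right hq (by omega)
        · right
          exact h2
      · left
        exact gl2_nonscalar hch hr ψ hψ _ rfl hχ Y hY K hK m hm h0 n hn

end Pool.Agent.Lib.MP_fa0f6c_al.Cx
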