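import Pool.Agent.Lib.MP_fa0f6c_al.Cx.F01

set_option autoImplicit false

namespace Pool.Agent.Lib.MP_fa0f6c_al.Cx

variable {o : Type} [CommRing o] [IsLocalRing o] [Finite o] {π : o}

private theorem d07_kb (hch : IsChain o π 16) (q : ℕ)
    (hq : Nat.card (IsLocalRing.ResidueField o) = q)
    (a b c d : o) (ha : IsUnit a) (S : Set (o × o))
    (h1 : ∀ v ∈ S, ∃ t, a * v.1 + b * v.2 = π ^ 8 * t)
    (h2 : ∀ v ∈ S, ∃ t, c * v.1 + d * v.2 = π ^ 8 * t) :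
    Nat.card S ≤ q ^ 24 ∧ (Nat.card S = q ^ 24 → ∃ t, a * d - b * c = π ^ 8 * t) := by
  obtain ⟨u, rfl⟩ := ha
  let g : S → (Ideal.span {π ^ 8} : Ideal o) × o := fun v =>
    (⟨(u : o) * v.1.1 + b * v.1.2, by
      obtain ⟨t, ht⟩ := h1 v.1 v.2
      rw [ht]
      exact Ideal.mem_span_singleton.2 ⟨t, rfl⟩⟩, v.1.2)
  have hg : Function.Injective g := by
    intro v w h
    have e1 : (u : o) * v.1.1 + b * v.1.2 = (u : o) * w.1.1 + b * w.1.2 :=
      congrArg (fun p => (p.1 : o)) h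
    have e2 : v.1.2 = w.1.2 := congrArg (fun p => p.2) h
    rw [e2] at e1
    have e3 : (u : o) * v.1.1 = (u : o) * w.1.1 := add_right_cancel e1
    have e4 : v.1.1 = w.1.1 := (Units.mul_right_inj u).1 e3
    exact Subtype.ext (Prod.ext e4 e2)
  have hcard : Nat.card ((Ideal.span {π ^ 8} : Ideal o) × o) = q ^ 24 := by
    rw [Nat.card_prod, chain_card hch 8 (by norm_num), chain_card' hch, hq, ← pow_add]
  constructor
  · rw [← hcard]
    exact Nat.card_le_card_of_injective g hg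
  · intro h
    have hbij : Function.Bijective g :=
      hg.bijective_of_nat_card_le (by rw [h, hcard])
    obtain ⟨v, hv⟩ := hbij.2 (⟨0, Submodule.zero_mem _⟩, 1)
    have e1 : (u : o) * v.1.1 + b * v.1.2 = 0 := congrArg (fun p => (p.1 : o)) hv
    have e2 : v.1.2 = 1 := congrArg (fun p => p.2) hv
    obtain ⟨t, ht⟩ := h2 v.1 v.2
    refine ⟨u * t, ?_⟩
    rw [e2] at e1 ht
    linear_combination (u : o) * ht - c * e1

private theorem d07_kb4 (hch : IsChain o π 16) (q : ℕ)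
    (hq : Nat.card (IsLocalRing.ResidueField o) = q)
    (a b c d : o) (ha : IsUnit a ∨ IsUnit b ∨ IsUnit c ∨ IsUnit d) (S : Set (o × o))
    (h1 : ∀ v ∈ S, ∃ t, a * v.1 + b * v.2 = π ^ 8 * t)
    (h2 : ∀ v ∈ S, ∃ t, c * v.1 + d * v.2 = π ^ 8 * t) :
    Nat.card S ≤ q ^ 24 ∧ (Nat.card S = q ^ 24 → ∃ t, a * d - b * c = π ^ 8 * t) := by
  have hsw : Nat.card (Prod.swap ⁻¹' S : Set (o × o)) = Nat.card S := by
    refine Nat.card_congr ⟨fun v => ⟨v.1.swap, v.2⟩, fun v => ⟨v.1.swap, ?_⟩, ?_, ?_⟩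
    · rw [Set.mem_preimage, Prod.swap_swap]
      exact v.2
    · intro v
      exact Subtype.ext (Prod.swap_swap _)
    · intro v
      exact Subtype.ext (Prod.swap_swap _)
  rcases ha with ha | hb | hc | hd
  · exact d07_kb hch q hq a b c d ha S h1 h2
  · obtain ⟨g1, g2⟩ := d07_kb hch q hq b a d c hb (Prod.swap ⁻¹' S)
      (fun v hv => by
        obtain ⟨t, ht⟩ := h1 _ hv
        exact ⟨t, by rw [← ht, add_comm]; rfl⟩)
      (fun v hv => by
        obtain ⟨t, ht⟩ := h2 _ hv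
        exact ⟨t, by rw [← ht, add_comm]; rfl⟩)
    rw [hsw] at g1 g2
    refine ⟨g1, fun h => ?_⟩
    obtain ⟨t, ht⟩ := g2 h
    exact ⟨-t, by linear_combination -ht⟩
  · obtain ⟨g1, g2⟩ := d07_kb hch q hq c d a b hc S h2 h1
    refine ⟨g1, fun h => ?_⟩
    obtain ⟨t, ht⟩ := g2 h
    exact ⟨-t, by linear_combination -ht⟩
  · obtain ⟨g1, g2⟩ := d07_kb hch q hq d c b a hd (Prod.swap ⁻¹' S)
      (fun v hv => by
        obtain ⟨t, ht⟩ := h2 _ hv
        exact ⟨t, by rw [← ht, add_comm]; rfl⟩)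
      (fun v hv => by
        obtain ⟨t, ht⟩ := h1 _ hv
        exact ⟨t, by rw [← ht, add_comm]; rfl⟩)
    rw [hsw] at g1 g2
    refine ⟨g1, fun h => ?_⟩
    obtain ⟨t, ht⟩ := g2 h
    exact ⟨t, by linear_combination ht⟩

private theorem d07_full (hch : IsChain o π 16) (q : ℕ)
    (hq : Nat.card (IsLocalRing.ResidueField o) = q)
    (a b c d : o) (ha : IsUnit a ∨ IsUnit b ∨ IsUnit c ∨ IsUnit d) (S : Set (o × o))
    (h1 : ∀ v ∈ S, ∃ t, a * v.1 + b * v.2 = π ^ 8 * t)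
    (h2 : ∀ v ∈ S, ∃ t, c * v.1 + d * v.2 = π ^ 8 * t) (hS : Nat.card S = q ^ 24)
    (v : o × o) (hv1 : ∃ t, a * v.1 + b * v.2 = π ^ 8 * t)
    (hv2 : ∃ t, c * v.1 + d * v.2 = π ^ 8 * t) : v ∈ S := by
  by_contra hv
  have h := (d07_kb4 hch q hq a b c d ha (insert v S)
    (fun w hw => by
      rcases Set.mem_insert_iff.1 hw with rfl | hw
      · exact hv1
      · exact h1 w hw)
    (fun w hw => by
      rcases Set.mem_insert_iff.1 hw with rfl | hw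
      · exact hv2
      · exact h2 w hw)).1
  have h3 : Nat.card (insert v S : Set (o × o)) = Nat.card S + 1 := by
    rw [Nat.card_coe_set_eq, Nat.card_coe_set_eq]
    exact Set.ncard_insert_of_notMem hv (Set.toFinite S)
  rw [h3, hS] at h
  omega

/-- Normal form of `X` when it has an eigenvalue `x` modulo `π^8` with a large eigenspace (blueprint W4).
PROOF. `X - x` has a unit entry (else `X` is scalar modulo `π`), so `P (X - x) Q = diag(1, δ)` for invertible `P`, `Q`; `{v ∈ o^2 | (X - x) v ∈ π^8}` has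
`q^(8 + min(v(δ),8)) * ...`: precisely at most `q^24` elements, with equality iff `δ ∈ π^8 o`; same for row vectors. `|A| |B| = q^48` forces equality in both, so `A`, `B` are the full kernels and `δ ∈ π^8 o`.
The kernel is `o v₀ + π^8 o^2` with `v₀` primitive; choose a basis `(v₀, v₁)`: `X = [[x, β'],[0, β]]` modulo `π^8`. If `β'` is a unit rescale `v₀`; if not, `x - β` is a unit (not scalar mod `π`) and replacing `v₁` by `v₁ + s v₀`
makes `β' = 1`. In this basis `w₀ = (x - β, 1)` satisfies `w₀ X = x w₀` modulo `π^8`, `w₀ v₀ = x - β`, `tr X = x + β` modulo `π^8`. -/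
theorem eigen_normal (hch : IsChain o π 16) (q : ℕ)
    (hq : Nat.card (IsLocalRing.ResidueField o) = q) (X : Matrix (Fin 2) (Fin 2) o)
    (hX : ¬ ∃ (c : o) (Z : Matrix (Fin 2) (Fin 2) o), X = c • 1 + π • Z) (x : o)
    (A : Submodule o (Matrix (Fin 2) (Fin 1) o)) (B : Submodule o (Matrix (Fin 1) (Fin 2) o))
    (hA : ∀ v ∈ A, ∃ z, X * v - x • v = π ^ 8 • z) (hB : ∀ w ∈ B, ∃ z, w * X - x • w = π ^ 8 • z)
    (hc : Nat.card A * Nat.card B = q ^ 48) :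
    (∀ v : Matrix (Fin 2) (Fin 1) o, (∃ z, X * v - x • v = π ^ 8 • z) → v ∈ A) ∧
    (∀ w : Matrix (Fin 1) (Fin 2) o, (∃ z, w * X - x • w = π ^ 8 • z) → w ∈ B) ∧
    ∃ (β : o), ∃ v₀ ∈ A, ∃ w₀ ∈ B, (w₀ * v₀) 0 0 = x - β ∧ ∃ z, X.trace = x + β + π ^ 8 * z := by
  -- unit entry
  have hu : IsUnit (X 0 0 - x) ∨ IsUnit (X 0 1) ∨ IsUnit (X 1 0) ∨ IsUnit (X 1 1 - x) := by
    rcases chain_isUnit hch (X 0 0 - x) with h | ⟨a, ha⟩
    · exact Or.inl h
    rcases chain_isUnit hch (X 0 1) with h | ⟨b, hb⟩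
    · exact Or.inr (Or.inl h)
    rcases chain_isUnit hch (X 1 0) with h | ⟨c, hc'⟩
    · exact Or.inr (Or.inr (Or.inl h))
    rcases chain_isUnit hch (X 1 1 - x) with h | ⟨d, hd⟩
    · exact Or.inr (Or.inr (Or.inr h))
    exfalso
    apply hX
    refine ⟨x, !![a, b; c, d], ?_⟩
    ext i j
    fin_cases i <;> fin_cases j
    · simp [← ha]
    · simp [hb]
    · simp [hc']
    · simp [← hd]
  have hut : IsUnit (X 0 0 - x) ∨ IsUnit (X 1 0) ∨ IsUnit (X 0 1) ∨ IsUnit (X 1 1 - x) := by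
    tauto
  -- translate membership conditions
  have hcol : ∀ v : Matrix (Fin 2) (Fin 1) o, (∃ z, X * v - x • v = π ^ 8 • z) ↔
      (∃ t, (X 0 0 - x) * v 0 0 + X 0 1 * v 1 0 = π ^ 8 * t) ∧
        (∃ t, X 1 0 * v 0 0 + (X 1 1 - x) * v 1 0 = π ^ 8 * t) := by
    intro v
    constructor
    · rintro ⟨z, hz⟩
      refine ⟨⟨z 0 0, ?_⟩, ⟨z 1 0, ?_⟩⟩
      · have h := congrFun (congrFun hz 0) 0
        simp only [Matrix.sub_apply, Matrix.mul_apply, Fin.sum_univ_two, Matrix.smul_apply,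
          smul_eq_mul] at h
        rw [← h]
        ring
      · have h := congrFun (congrFun hz 1) 0
        simp only [Matrix.sub_apply, Matrix.mul_apply, Fin.sum_univ_two, Matrix.smul_apply,
          smul_eq_mul] at h
        rw [← h]
        ring
    · rintro ⟨⟨t, ht⟩, ⟨s, hs⟩⟩
      refine ⟨!![t; s], ?_⟩
      ext i j
      fin_cases i <;> fin_cases j
      · simp only [Matrix.sub_apply, Matrix.mul_apply, Fin.sum_univ_two, Matrix.smul_apply,
          smul_eq_mul]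
        simp
        rw [← ht]
        ring
      · simp only [Matrix.sub_apply, Matrix.mul_apply, Fin.sum_univ_two, Matrix.smul_apply,
          smul_eq_mul]
        simp
        rw [← hs]
        ring
  have hrow : ∀ w : Matrix (Fin 1) (Fin 2) o, (∃ z, w * X - x • w = π ^ 8 • z) ↔
      (∃ t, (X 0 0 - x) * w 0 0 + X 1 0 * w 0 1 = π ^ 8 * t) ∧
        (∃ t, X 0 1 * w 0 0 + (X 1 1 - x) * w 0 1 = π ^ 8 * t) := by
    intro w
    constructor
    · rintro ⟨z, hz⟩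
      refine ⟨⟨z 0 0, ?_⟩, ⟨z 0 1, ?_⟩⟩
      · have h := congrFun (congrFun hz 0) 0
        simp only [Matrix.sub_apply, Matrix.mul_apply, Fin.sum_univ_two, Matrix.smul_apply,
          smul_eq_mul] at h
        rw [← h]
        ring
      · have h := congrFun (congrFun hz 0) 1
        simp only [Matrix.sub_apply, Matrix.mul_apply, Fin.sum_univ_two, Matrix.smul_apply,
          smul_eq_mul] at h
        rw [← h]
        ring
    · rintro ⟨⟨t, ht⟩, ⟨s, hs⟩⟩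
      refine ⟨!![t, s], ?_⟩
      ext i j
      fin_cases i <;> fin_cases j
      · simp only [Matrix.sub_apply, Matrix.mul_apply, Fin.sum_univ_two, Matrix.smul_apply,
          smul_eq_mul]
        simp
        rw [← ht]
        ring
      · simp only [Matrix.sub_apply, Matrix.mul_apply, Fin.sum_univ_two, Matrix.smul_apply,
          smul_eq_mul]
        simp
        rw [← hs]
        ring
  -- the sets of pairs
  let SA : Set (o × o) := {p | (!![p.1; p.2] : Matrix (Fin 2) (Fin 1) o) ∈ A}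
  let SB : Set (o × o) := {p | (!![p.1, p.2] : Matrix (Fin 1) (Fin 2) o) ∈ B}
  have eA : ∀ v : Matrix (Fin 2) (Fin 1) o, (!![v 0 0; v 1 0] : Matrix (Fin 2) (Fin 1) o) = v := by
    intro v
    ext i j
    fin_cases i <;> fin_cases j <;> rfl
  have eB : ∀ w : Matrix (Fin 1) (Fin 2) o, (!![w 0 0, w 0 1] : Matrix (Fin 1) (Fin 2) o) = w := by
    intro w
    ext i j
    fin_cases i <;> fin_cases j <;> rfl
  have cA : Nat.card SA = Nat.card A := by
    refine Nat.card_congr ⟨fun p => ⟨!![p.1.1; p.1.2], p.2⟩,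
      fun v => ⟨(v.1 0 0, v.1 1 0), ?_⟩, ?_, ?_⟩
    · change (!![v.1 0 0; v.1 1 0] : Matrix (Fin 2) (Fin 1) o) ∈ A
      rw [eA]
      exact v.2
    · intro p
      rfl
    · intro v
      exact Subtype.ext (eA v.1)
  have cB : Nat.card SB = Nat.card B := by
    refine Nat.card_congr ⟨fun p => ⟨!![p.1.1, p.1.2], p.2⟩,
      fun v => ⟨(v.1 0 0, v.1 0 1), ?_⟩, ?_, ?_⟩
    · change (!![v.1 0 0, v.1 0 1] : Matrix (Fin 1) (Fin 2) o) ∈ B
      rw [eB]
      exact v.2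
    · intro p
      rfl
    · intro v
      exact Subtype.ext (eB v.1)
  have hSA1 : ∀ p ∈ SA, ∃ t, (X 0 0 - x) * p.1 + X 0 1 * p.2 = π ^ 8 * t := fun p hp =>
    ((hcol _).1 (hA _ hp)).1
  have hSA2 : ∀ p ∈ SA, ∃ t, X 1 0 * p.1 + (X 1 1 - x) * p.2 = π ^ 8 * t := fun p hp =>
    ((hcol _).1 (hA _ hp)).2
  have hSB1 : ∀ p ∈ SB, ∃ t, (X 0 0 - x) * p.1 + X 1 0 * p.2 = π ^ 8 * t := fun p hp =>
    ((hrow _).1 (hB _ hp)).1
  have hSB2 : ∀ p ∈ SB, ∃ t, X 0 1 * p.1 + (X 1 1 - x) * p.2 = π ^ 8 * t := fun p hp =>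
    ((hrow _).1 (hB _ hp)).2
  obtain ⟨bA, dA⟩ := d07_kb4 hch q hq _ _ _ _ hu SA hSA1 hSA2
  obtain ⟨bB, dB⟩ := d07_kb4 hch q hq _ _ _ _ hut SB hSB1 hSB2
  have hres := fin_res o
  have hq0 : 0 < q := by rw [← hq]; exact Nat.card_pos
  have hq24 : 0 < q ^ 24 := pow_pos hq0 _
  have hprod : Nat.card SA * Nat.card SB = q ^ 24 * q ^ 24 := by
    rw [cA, cB, hc, ← pow_add]
  have fA : Nat.card SA = q ^ 24 := by
    apply le_antisymm bA
    by_contra h
    push Not at h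
    have : Nat.card SA * Nat.card SB < q ^ 24 * q ^ 24 :=
      Nat.mul_lt_mul_of_lt_of_le h bB hq24
    omega
  have fB : Nat.card SB = q ^ 24 := by
    rw [fA] at hprod
    exact Nat.eq_of_mul_eq_mul_left hq24 hprod
  have fullA : ∀ v : Matrix (Fin 2) (Fin 1) o, (∃ z, X * v - x • v = π ^ 8 • z) → v ∈ A := by
    intro v hv
    obtain ⟨h1, h2⟩ := (hcol v).1 hv
    have h := d07_full hch q hq _ _ _ _ hu SA hSA1 hSA2 fA (v 0 0, v 1 0) h1 h2
    have h' : (!![v 0 0; v 1 0] : Matrix (Fin 2) (Fin 1) o) ∈ A := h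
    rwa [eA] at h'
  have fullB : ∀ w : Matrix (Fin 1) (Fin 2) o, (∃ z, w * X - x • w = π ^ 8 • z) → w ∈ B := by
    intro w hw
    obtain ⟨h1, h2⟩ := (hrow w).1 hw
    have h := d07_full hch q hq _ _ _ _ hut SB hSB1 hSB2 fB (w 0 0, w 0 1) h1 h2
    have h' : (!![w 0 0, w 0 1] : Matrix (Fin 1) (Fin 2) o) ∈ B := h
    rwa [eB] at h'
  refine ⟨fullA, fullB, ?_⟩
  obtain ⟨δ, hδ⟩ := dA fA
  -- a general way to finish
  have fin : ∀ (v1 v2 w1 w2 t : o),
      (∃ t, (X 0 0 - x) * v1 + X 0 1 * v2 = π ^ 8 * t) →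
      (∃ t, X 1 0 * v1 + (X 1 1 - x) * v2 = π ^ 8 * t) →
      (∃ t, (X 0 0 - x) * w1 + X 1 0 * w2 = π ^ 8 * t) →
      (∃ t, X 0 1 * w1 + (X 1 1 - x) * w2 = π ^ 8 * t) →
      X 0 0 + X 1 1 - 2 * x + (w1 * v1 + w2 * v2) = π ^ 8 * t →
      ∃ (β : o), ∃ v₀ ∈ A, ∃ w₀ ∈ B, (w₀ * v₀) 0 0 = x - β ∧
        ∃ z, X.trace = x + β + π ^ 8 * z := by
    intro v1 v2 w1 w2 t h1 h2 h3 h4 h5
    refine ⟨x - (w1 * v1 + w2 * v2), !![v1; v2], fullA _ ((hcol _).2 ⟨h1, h2⟩), !![w1, w2],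
      fullB _ ((hrow _).2 ⟨h3, h4⟩), ?_, t, ?_⟩
    · rw [Matrix.mul_apply, Fin.sum_univ_two]
      simp
    · rw [Matrix.trace_fin_two]
      linear_combination h5
  rcases hu with ⟨u, hu⟩ | ⟨u, hu⟩ | ⟨u, hu⟩ | ⟨u, hu⟩
  · -- a unit
    have hui : (u : o) * (↑u⁻¹ : o) = 1 := Units.mul_inv u
    refine fin (-X 0 1) (X 0 0 - x) (↑u⁻¹ * X 1 0) (-1) (↑u⁻¹ * δ) ⟨0, by ring⟩ ⟨δ, ?_⟩
      ⟨0, ?_⟩ ⟨-(↑u⁻¹ * δ), ?_⟩ ?_
    · linear_combination hδ
    · rw [← hu]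
      linear_combination X 1 0 * hui
    · rw [← hu] at hδ
      linear_combination (-(↑u⁻¹ : o)) * hδ + (X 1 1 - x) * hui
    · rw [← hu] at hδ ⊢
      linear_combination (↑u⁻¹ : o) * hδ - (X 1 1 - x) * hui - hu
  · -- b unit
    have hui : (u : o) * (↑u⁻¹ : o) = 1 := Units.mul_inv u
    refine fin (-X 0 1) (X 0 0 - x) (↑u⁻¹ * (X 1 1 - x)) (-1) 0 ⟨0, by ring⟩ ⟨δ, ?_⟩
      ⟨↑u⁻¹ * δ, ?_⟩ ⟨0, ?_⟩ ?_
    · linear_combination hδ
    · rw [← hu] at hδ
      linear_combination (↑u⁻¹ : o) * hδ + X 1 0 * hui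
    · rw [← hu]
      linear_combination (X 1 1 - x) * hui
    · rw [← hu]
      linear_combination -(X 1 1 - x) * hui
  · -- c unit
    have hui : (u : o) * (↑u⁻¹ : o) = 1 := Units.mul_inv u
    refine fin (X 1 1 - x) (-X 1 0) (-1) (↑u⁻¹ * (X 0 0 - x)) 0 ⟨δ, ?_⟩ ⟨0, by ring⟩
      ⟨0, ?_⟩ ⟨↑u⁻¹ * δ, ?_⟩ ?_
    · linear_combination hδ
    · rw [← hu]
      linear_combination (X 0 0 - x) * hui
    · rw [← hu] at hδ
      linear_combination (↑u⁻¹ : o) * hδ + X 0 1 * hui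
    · rw [← hu]
      linear_combination -(X 0 0 - x) * hui
  · -- d unit
    have hui : (u : o) * (↑u⁻¹ : o) = 1 := Units.mul_inv u
    refine fin (X 1 1 - x) (-X 1 0) (-1) (↑u⁻¹ * X 0 1) (↑u⁻¹ * δ) ⟨δ, ?_⟩ ⟨0, by ring⟩
      ⟨-(↑u⁻¹ * δ), ?_⟩ ⟨0, ?_⟩ ?_
    · linear_combination hδ
    · rw [← hu] at hδ
      linear_combination (-(↑u⁻¹ : o)) * hδ + (X 0 0 - x) * hui
    · rw [← hu]
      linear_combination X 0 1 * hui
    · rw [← hu] at hδ ⊢
      linear_combination (↑u⁻¹ : o) * hδ - (X 0 0 - x) * hui - hu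

end Pool.Agent.Lib.MP_fa0f6c_al.Cx
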