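import Pool.Agent.Lib.MP_fa0f6c_al.Cx.FDefs

/-!
Part E of the blueprint: the quotients `R / 𝔪 ^ r` of a discrete valuation ring `R` with finite
residue field are finite chain rings.
-/

set_option autoImplicit false

namespace Pool.Agent.Lib.MP_fa0f6c_al.Cx

open IsLocalRing

/-- a surjective homomorphism from a local ring to a field induces a bijection with the residue
field -/
theorem card_residue_of_surj {R k : Type} [CommRing R] [IsLocalRing R] [Field k] (φ : R →+* k)
    (hφ : Function.Surjective φ) : Nat.card (ResidueField R) = Nat.card k := by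
  have hker : RingHom.ker φ = maximalIdeal R :=
    IsLocalRing.eq_maximalIdeal (RingHom.ker_isMaximal_of_surjective φ hφ)
  exact Nat.card_congr ((Ideal.quotEquivOfEq hker.symm).trans
    (RingHom.quotientKerEquivOfSurjective hφ)).toEquiv

variable {R : Type} [CommRing R] [IsDomain R] [IsDiscreteValuationRing R]

theorem max_pow_ne_top {r : ℕ} (hr : r ≠ 0) : maximalIdeal R ^ r ≠ ⊤ := by
  intro h
  apply (inferInstance : (maximalIdeal R).IsMaximal).ne_top
  rw [eq_top_iff, ← h]
  exact Ideal.pow_le_self hr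

theorem quot_local {r : ℕ} (hr : r ≠ 0) : IsLocalRing (R ⧸ maximalIdeal R ^ r) := by
  have : Nontrivial (R ⧸ maximalIdeal R ^ r) := Ideal.Quotient.nontrivial_iff.2 (max_pow_ne_top hr)
  exact IsLocalRing.of_surjective' (Ideal.Quotient.mk _) Ideal.Quotient.mk_surjective

theorem quot_finite (r : ℕ) [Finite (ResidueField R)] : Finite (R ⧸ maximalIdeal R ^ r) := by
  have : Finite (R ⧸ maximalIdeal R) := ‹Finite (ResidueField R)›
  exact Ideal.finite_quotient_pow (IsNoetherian.noetherian _) r

theorem quot_mem_max {r : ℕ} [IsLocalRing (R ⧸ maximalIdeal R ^ r)] (x : R) :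
    Ideal.Quotient.mk (maximalIdeal R ^ r) x ∈ maximalIdeal (R ⧸ maximalIdeal R ^ r) ↔
      x ∈ maximalIdeal R := by
  have h : (maximalIdeal (R ⧸ maximalIdeal R ^ r)).comap (Ideal.Quotient.mk (maximalIdeal R ^ r)) =
      maximalIdeal R := by
    have hmax : ((maximalIdeal (R ⧸ maximalIdeal R ^ r)).comap
        (Ideal.Quotient.mk (maximalIdeal R ^ r))).IsMaximal :=
      Ideal.comap_isMaximal_of_surjective _ Ideal.Quotient.mk_surjective
    exact IsLocalRing.eq_maximalIdeal hmax
  rw [← Ideal.mem_comap, h]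

/-- `R / 𝔪 ^ r` is a chain ring -/
theorem quot_chain {r : ℕ} (hr : r ≠ 0) [IsLocalRing (R ⧸ maximalIdeal R ^ r)] {w : R}
    (hw : Irreducible w) :
    IsChain (R ⧸ maximalIdeal R ^ r) (Ideal.Quotient.mk (maximalIdeal R ^ r) w) r := by
  have hm : maximalIdeal R = Ideal.span {w} := hw.maximalIdeal_eq
  refine ⟨?_, Nat.pos_of_ne_zero hr, ?_, ?_⟩
  · ext x
    obtain ⟨y, rfl⟩ := Ideal.Quotient.mk_surjective x
    rw [quot_mem_max]
    constructor
    · intro hy
      rw [hm, Ideal.mem_span_singleton] at hy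
      obtain ⟨z, rfl⟩ := hy
      rw [map_mul]
      exact Ideal.mul_mem_right _ _ (Ideal.mem_span_singleton_self _)
    · intro hy
      rw [Ideal.mem_span_singleton] at hy
      obtain ⟨z, hz⟩ := hy
      obtain ⟨z, rfl⟩ := Ideal.Quotient.mk_surjective z
      rw [← map_mul, Ideal.Quotient.mk_eq_mk_iff_sub_mem] at hz
      have h1 := Ideal.pow_le_self hr hz
      have h2 : w * z ∈ maximalIdeal R := by
        rw [hm]; exact Ideal.mul_mem_right _ _ (Ideal.mem_span_singleton_self _)
      have h3 := (maximalIdeal R).add_mem h1 h2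
      rwa [sub_add_cancel] at h3
  · rw [← map_pow, Ideal.Quotient.eq_zero_iff_mem, hm]
    exact Ideal.pow_mem_pow (Ideal.mem_span_singleton_self _) r
  · rw [← map_pow, Ne, Ideal.Quotient.eq_zero_iff_mem, hm, Ideal.span_singleton_pow,
      Ideal.mem_span_singleton]
    intro hd
    have h1 : w ^ (r - 1) * w ∣ w ^ (r - 1) * 1 := by
      rw [← pow_succ, Nat.sub_add_cancel (Nat.pos_of_ne_zero hr), mul_one]
      exact hd
    have h2 := (mul_dvd_mul_iff_left (pow_ne_zero _ hw.ne_zero)).1 h1
    exact hw.not_isUnit (isUnit_of_dvd_one h2)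

theorem quot_card_residue {r : ℕ} [IsLocalRing (R ⧸ maximalIdeal R ^ r)] :
    Nat.card (ResidueField (R ⧸ maximalIdeal R ^ r)) = Nat.card (ResidueField R) := by
  have h := card_residue_of_surj
    ((IsLocalRing.residue (R ⧸ maximalIdeal R ^ r)).comp (Ideal.Quotient.mk (maximalIdeal R ^ r)))
    (by
      rw [RingHom.coe_comp]
      exact (IsLocalRing.residue_surjective).comp Ideal.Quotient.mk_surjective)
  exact h.symm

/-- Summary: for `r ≥ 1`, `R / 𝔪 ^ r` is a finite chain ring of length `r` with uniformiser the class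
of `w` and the same number of elements of the residue field. -/
theorem E01_main [Finite (ResidueField R)] {w : R} (hw : Irreducible w) {r : ℕ} (hr : r ≠ 0) :
    ∃ _ : IsLocalRing (R ⧸ maximalIdeal R ^ r), Finite (R ⧸ maximalIdeal R ^ r) ∧
      IsChain (R ⧸ maximalIdeal R ^ r) (Ideal.Quotient.mk (maximalIdeal R ^ r) w) r ∧
      Nat.card (ResidueField (R ⧸ maximalIdeal R ^ r)) = Nat.card (ResidueField R) := by
  have := quot_local (R := R) hr
  exact ⟨this, quot_finite r, quot_chain hr hw, quot_card_residue⟩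

/-- Quotients of a discrete valuation ring with finite residue field are finite chain rings. -/
theorem dvr_chain (R : Type) [CommRing R] [IsDomain R] [IsDiscreteValuationRing R]
    (hfin : Finite (IsLocalRing.ResidueField R)) (w : R) (hw : Irreducible w) (r : ℕ)
    (hr : 0 < r) :
    ∃ (_ : IsLocalRing (R ⧸ (IsLocalRing.maximalIdeal R) ^ r))
      (_ : Finite (R ⧸ (IsLocalRing.maximalIdeal R) ^ r)),
      IsChain (R ⧸ (IsLocalRing.maximalIdeal R) ^ r)
        (Ideal.Quotient.mk ((IsLocalRing.maximalIdeal R) ^ r) w) r ∧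
      Nat.card (IsLocalRing.ResidueField (R ⧸ (IsLocalRing.maximalIdeal R) ^ r)) =
        Nat.card (IsLocalRing.ResidueField R) := by
  obtain ⟨h1, h2, h3, h4⟩ := E01_main hw (r := r) (Nat.pos_iff_ne_zero.1 hr)
  exact ⟨h1, h2, h3, h4⟩

end Pool.Agent.Lib.MP_fa0f6c_al.Cx
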