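import Pool.Agent.Lib.MP_fa0f6c_al.Cx.E02
import Pool.Agent.Lib.MP_fa0f6c_al.Cx.R12
import Pool.Agent.Lib.MP_fa0f6c_al.Cx.R13

/-!
Part E of the blueprint: reduction of the frozen statement to a difference of numbers of irreducible
characters for `W(F_q) / 2 ^ r` and `F_q[[t]] / t ^ r`, with matrices over any finite index type.
-/

set_option autoImplicit false

namespace Pool.Agent.Lib.MP_fa0f6c_al.Cx

open IsLocalRing

/-- reindexing of general linear groups -/
noncomputable def glReindex {κ κ' : Type} [Fintype κ] [DecidableEq κ] [Fintype κ'] [DecidableEq κ']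
    (e : κ ≃ κ') (o : Type) [CommRing o] :
    Matrix.GeneralLinearGroup κ o ≃* Matrix.GeneralLinearGroup κ' o :=
  Units.mapEquiv (Matrix.reindexAlgEquiv ℤ o e).toMulEquiv

/-- An algebra isomorphism for `Fin N` gives equal numbers of characters for all index types. -/
theorem rdim_eq_of_all {o o' : Type} [CommRing o] [Finite o] [CommRing o'] [Finite o']
    (h : ∀ N : ℕ, Nonempty (MonoidAlgebra ℂ (Matrix.GeneralLinearGroup (Fin N) o) ≃ₐ[ℂ]
      MonoidAlgebra ℂ (Matrix.GeneralLinearGroup (Fin N) o')))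
    (κ : Type) [Fintype κ] [DecidableEq κ] (D : ℕ) :
    rdim (Matrix.GeneralLinearGroup κ o) D = rdim (Matrix.GeneralLinearGroup κ o') D := by
  classical
  obtain ⟨e⟩ := h (Fintype.card κ)
  have : Finite (Matrix (Fin (Fintype.card κ)) (Fin (Fintype.card κ)) o) :=
    inferInstanceAs (Finite (Fin (Fintype.card κ) → Fin (Fintype.card κ) → o))
  have : Finite (Matrix (Fin (Fintype.card κ)) (Fin (Fintype.card κ)) o') :=
    inferInstanceAs (Finite (Fin (Fintype.card κ) → Fin (Fintype.card κ) → o'))
  have h1 := rdim_eq_of_algEquiv e D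
  rw [rdim_congr (glReindex (Fintype.equivFin κ) o) D, h1,
    rdim_congr (glReindex (Fintype.equivFin κ) o') D]

/-- The frozen statement follows from one difference. -/
theorem not_main_of_ne (f r : ℕ) (hf : f ≠ 0) (κ : Type) [Fintype κ] [DecidableEq κ] (D : ℕ)
    (hr : r ≠ 0)
    (hne : rdim (Matrix.GeneralLinearGroup κ (WW f ⧸ maximalIdeal (WW f) ^ r)) D ≠
      rdim (Matrix.GeneralLinearGroup κ (PSer f ⧸ maximalIdeal (PSer f) ^ r)) D) :
    ¬ (∀ (R R' : Type) [CommRing R] [IsDomain R] [IsDiscreteValuationRing R]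
      [CommRing R'] [IsDomain R'] [IsDiscreteValuationRing R'],
      IsAdicComplete (IsLocalRing.maximalIdeal R) R →
      IsAdicComplete (IsLocalRing.maximalIdeal R') R' →
      Finite (IsLocalRing.ResidueField R) →
      Finite (IsLocalRing.ResidueField R') →
      Nat.card (IsLocalRing.ResidueField R) = Nat.card (IsLocalRing.ResidueField R') →
      ∀ N r : ℕ,
        Nonempty
          (MonoidAlgebra ℂ
              (Matrix.GeneralLinearGroup (Fin N) (R ⧸ (IsLocalRing.maximalIdeal R) ^ r)) ≃ₐ[ℂ]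
            MonoidAlgebra ℂ
              (Matrix.GeneralLinearGroup (Fin N) (R' ⧸ (IsLocalRing.maximalIdeal R') ^ r)))) := by
  intro h
  apply hne
  obtain ⟨_, hfin, -⟩ := E_witt hf hr
  obtain ⟨_, hfin', -⟩ := E_power hf hr
  exact rdim_eq_of_all (fun N => h (WW f) (PSer f) (WW_complete f) (PSer_complete f) (WW_finite hf)
    (PSer_finite hf) ((WW_card hf).trans (PSer_card hf).symm) N r) κ D

end Pool.Agent.Lib.MP_fa0f6c_al.Cx
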