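import Pool.Agent.Lib.MP_fa0f6c_al.Cx.A10

set_option autoImplicit false

namespace Pool.Agent.Lib.MP_fa0f6c_al.Cx

/-- one pair of off-diagonal units -/
private theorem lift_pair {E S : Type} [Ring E] [Ring S] (φ : E →+* S)
    (hnil : ∀ x, φ x = 0 → IsNilpotent x) {e f a0 b0 : E} (he : e * e = e)
    (hf : f * f = f) (ha0 : e * a0 = a0) (ha1 : a0 * f = a0) (hb0 : f * b0 = b0)
    (hb1 : b0 * e = b0) (h1 : φ a0 * φ b0 = φ e) (h2 : φ b0 * φ a0 = φ f) :
    ∃ a b : E, e * a = a ∧ a * f = a ∧ f * b = b ∧ b * e = b ∧ a * b = e ∧ b * a = f ∧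
      φ a = φ a0 ∧ φ b = φ b0 := by
  set c := a0 * b0 with hc
  have hec : e * c = c := by rw [hc, ← mul_assoc, ha0]
  have hce : c * e = c := by rw [hc, mul_assoc, hb1]
  have hw : IsNilpotent (e - c) := by
    apply hnil
    rw [map_sub, hc, map_mul, h1, sub_self]
  obtain ⟨u, hu⟩ := hw.isUnit_one_sub
  have hcomm : Commute e (u : E) := by
    rw [hu]
    show e * (1 - (e - c)) = (1 - (e - c)) * e
    simp only [mul_sub, sub_mul, mul_one, one_mul, he, hec, hce]
  have hcomm' : e * ((u⁻¹ : Eˣ) : E) = ((u⁻¹ : Eˣ) : E) * e := (hcomm.units_inv_right).eq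
  have heu : e * (u : E) = c := by
    rw [hu, mul_sub, mul_one, mul_sub, he, hec, sub_sub_cancel]
  have hφu : φ (u : E) = 1 := by
    rw [hu, map_sub, map_one, map_sub, hc, map_mul, h1, sub_self, sub_zero]
  have hφu' : φ ((u⁻¹ : Eˣ) : E) = 1 := by
    have h := congrArg φ (Units.mul_inv u)
    rw [map_mul, hφu, one_mul, map_one] at h
    exact h
  have hab : (((u⁻¹ : Eˣ) : E) * a0) * b0 = e := by
    rw [mul_assoc, ← hc, ← heu, hcomm.eq, ← mul_assoc, Units.inv_mul, one_mul]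
  have hea : e * (((u⁻¹ : Eˣ) : E) * a0) = ((u⁻¹ : Eˣ) : E) * a0 := by
    rw [← mul_assoc, hcomm', mul_assoc, ha0]
  have haf : (((u⁻¹ : Eˣ) : E) * a0) * f = ((u⁻¹ : Eˣ) : E) * a0 := by
    rw [mul_assoc, ha1]
  have hφa : φ (((u⁻¹ : Eˣ) : E) * a0) = φ a0 := by
    rw [map_mul, hφu', one_mul]
  refine ⟨((u⁻¹ : Eˣ) : E) * a0, b0, hea, haf, hb0, hb1, hab, ?_, hφa, rfl⟩
  set a := ((u⁻¹ : Eˣ) : E) * a0 with hadef
  have hg1 : (b0 * a) * (b0 * a) = b0 * a := by
    rw [mul_assoc, ← mul_assoc a b0 a, hab, hea]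
  have hg2 : f * (b0 * a) = b0 * a := by rw [← mul_assoc, hb0]
  have hg3 : (b0 * a) * f = b0 * a := by rw [mul_assoc, haf]
  have hnn : IsNilpotent (f - b0 * a) := by
    apply hnil
    rw [map_sub, map_mul, hφa, h2, sub_self]
  have hid : IsIdempotentElem (f - b0 * a) := by
    show (f - b0 * a) * (f - b0 * a) = f - b0 * a
    rw [mul_sub, sub_mul, sub_mul, hf, hg2, hg3, hg1]
    abel
  obtain ⟨k, hk⟩ := hnn
  have hzero : f - b0 * a = 0 := by
    rcases Nat.eq_zero_or_pos k with hk0 | hk0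
    · rw [hk0, pow_zero] at hk
      calc f - b0 * a = 1 * (f - b0 * a) := (one_mul _).symm
        _ = 0 := by rw [hk, zero_mul]
    · rw [hid.pow_eq hk0.ne'] at hk
      exact hk
  exact (sub_eq_zero.mp hzero).symm

/-- Lifting matrix units along `φ : E → ∏ M_{n_i}(F_i)` with nilpotent kernel `J`.
PROOF: lift the complete orthogonal idempotents `E_ss^{(i)}` (`CompleteOrthogonalIdempotents.lift_of_isNilpotent_ker` or by hand); put
`e i s s` for the lifts. For `s ≠ 0` take `a ∈ e i 0 0 * E * e i s s`, `b ∈ e i s s * E * e i 0 0` lifting `E_0s`, `E_s0`; `a b` is congruent to `e i 0 0` modulo `J`, so it is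
invertible in `e i 0 0 E e i 0 0`; replace `a` by `(a b)⁻¹ a`, so `a b = e i 0 0`; then `b a` is an idempotent of `e i s s E e i s s` congruent to `e i s s` modulo the nilpotent `J`, so
`b a = e i s s`. Put `e i 0 s = a`, `e i s 0 = b`, `e i s t = e i s 0 * e i 0 t`. -/
theorem lift_units {R : Type} [Ring R] [Finite R] (E : Subring R) (J : Submodule ℤ R)
    (hJ : IsNilIdeal E J) (b : ℕ) (n : Fin b → ℕ) (F : Fin b → Type) [∀ i, Field (F i)]
    (φ : E →+* (∀ i, Matrix (Fin (n i)) (Fin (n i)) (F i))) (hφ : Function.Surjective φ)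
    (hker : ∀ x : E, φ x = 0 ↔ (x : R) ∈ J) :
    ∃ e : ∀ i, Fin (n i) → Fin (n i) → E,
      (∀ i s t, φ (e i s t) = Pi.single i (Matrix.single s t 1)) ∧
      (∀ i s t u, e i s t * e i t u = e i s u) ∧
      (∀ i s t u v, t ≠ u → e i s t * e i u v = 0) ∧
      (∀ i s t j u v, i ≠ j → e i s t * e j u v = 0) ∧
      ∑ i, ∑ s, e i s s = 1 := by
  have hnil : ∀ x : E, φ x = 0 → IsNilpotent x := by
    intro x hx
    obtain ⟨k, hk⟩ := hJ.nil
    refine ⟨k, ?_⟩
    have hm : (x : R) ^ k ∈ J ^ k := Submodule.pow_mem_pow J ((hker x).mp hx) k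
    rw [hk] at hm
    have h0 : (x : R) ^ k = 0 := by simpa using hm
    exact Subtype.ext (by simpa using h0)
  let M : ∀ i, Fin (n i) → Fin (n i) → (∀ i, Matrix (Fin (n i)) (Fin (n i)) (F i)) :=
    fun i s t => Pi.single i (Matrix.single s t 1)
  have hM1 : ∀ i s t u, M i s t * M i t u = M i s u := by
    intro i s t u
    simp only [M]
    rw [← Pi.single_mul, Matrix.single_mul_single_same, mul_one]
  have hM2 : ∀ i s t u v, t ≠ u → M i s t * M i u v = 0 := by
    intro i s t u v h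
    simp only [M]
    rw [← Pi.single_mul, Matrix.single_mul_single_of_ne _ _ _ _ h, Pi.single_zero]
  have hM3 : ∀ i s t j u v, i ≠ j → M i s t * M j u v = 0 := by
    intro i s t j u v h
    funext k
    simp only [M, Pi.mul_apply, Pi.zero_apply]
    by_cases hk : k = i
    · subst hk
      rw [Pi.single_eq_of_ne h, mul_zero]
    · rw [Pi.single_eq_of_ne hk, zero_mul]
  have hM4 : ∑ p : (Σ i, Fin (n i)), M p.1 p.2 p.2 = 1 := by
    rw [Fintype.sum_sigma]
    funext k
    rw [Finset.sum_apply]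
    have h1 : ∀ i, (∑ s, M i s s) k = if i = k then 1 else 0 := by
      intro i
      rw [Finset.sum_apply]
      by_cases hik : i = k
      · subst hik
        rw [if_pos rfl]
        simp only [M, Pi.single_eq_same]
        ext a c
        rw [Matrix.sum_apply]
        simp only [Matrix.single_apply, Matrix.one_apply]
        by_cases hac : a = c
        · subst hac
          simp
        · rw [if_neg hac]
          apply Finset.sum_eq_zero
          intro x _
          rw [if_neg]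
          rintro ⟨h1, h2⟩
          exact hac (h1.symm.trans h2)
      · rw [if_neg hik]
        simp only [M]
        apply Finset.sum_eq_zero
        intro x _
        exact Pi.single_eq_of_ne (Ne.symm hik) _
    simp only [h1]
    simp
  have hMc : CompleteOrthogonalIdempotents (fun p : (Σ i, Fin (n i)) => M p.1 p.2 p.2) := by
    refine ⟨⟨fun p => hM1 _ _ _ _, ?_⟩, hM4⟩
    rintro ⟨i, s⟩ ⟨j, t⟩ h
    by_cases hij : i = j
    · subst hij
      have hst : s ≠ t := fun h' => h (by rw [h'])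
      exact hM2 _ _ _ _ _ hst
    · exact hM3 _ _ _ _ _ _ hij
  obtain ⟨d, hd, hdφ⟩ := CompleteOrthogonalIdempotents.lift_of_isNilpotent_ker φ
    (fun x hx => hnil x hx) hMc (fun p => hφ _)
  have hdφ' : ∀ i s, φ (d ⟨i, s⟩) = M i s s := fun i s => congrFun hdφ ⟨i, s⟩
  have hdi : ∀ i s, d ⟨i, s⟩ * d ⟨i, s⟩ = d ⟨i, s⟩ := fun i s => hd.idem ⟨i, s⟩
  let z : ∀ i, Fin (n i) → Fin (n i) := fun i s => ⟨0, Fin.pos s⟩
  have hz : ∀ i s t, z i s = z i t := fun i s t => rfl
  have key : ∀ i (s : Fin (n i)), ∃ a b : E, d ⟨i, z i s⟩ * a = a ∧ a * d ⟨i, s⟩ = a ∧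
      d ⟨i, s⟩ * b = b ∧ b * d ⟨i, z i s⟩ = b ∧ a * b = d ⟨i, z i s⟩ ∧ b * a = d ⟨i, s⟩ ∧
      φ a = M i (z i s) s ∧ φ b = M i s (z i s) := by
    intro i s
    obtain ⟨x, hx⟩ := hφ (M i (z i s) s)
    obtain ⟨y, hy⟩ := hφ (M i s (z i s))
    have e1 : φ (d ⟨i, z i s⟩ * x * d ⟨i, s⟩) = M i (z i s) s := by
      rw [map_mul, map_mul, hx, hdφ', hdφ', hM1, hM1]
    have e2 : φ (d ⟨i, s⟩ * y * d ⟨i, z i s⟩) = M i s (z i s) := by
      rw [map_mul, map_mul, hy, hdφ', hdφ', hM1, hM1]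
    obtain ⟨a, b, h1, h2, h3, h4, h5, h6, h7, h8⟩ := lift_pair φ hnil (hdi i (z i s)) (hdi i s)
      (a0 := d ⟨i, z i s⟩ * x * d ⟨i, s⟩) (b0 := d ⟨i, s⟩ * y * d ⟨i, z i s⟩)
      (by rw [← mul_assoc, ← mul_assoc, hdi]) (by rw [mul_assoc, hdi])
      (by rw [← mul_assoc, ← mul_assoc, hdi]) (by rw [mul_assoc, hdi])
      (by rw [e1, e2, hM1, hdφ']) (by rw [e1, e2, hM1, hdφ'])
    exact ⟨a, b, h1, h2, h3, h4, h5, h6, by rw [h7, e1], by rw [h8, e2]⟩
  choose A B hA1 hA2 hB1 hB2 hAB hBA hAφ hBφ using key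
  refine ⟨fun i s t => B i s * A i t, ?_, ?_, ?_, ?_, ?_⟩
  · intro i s t
    show φ (B i s * A i t) = M i s t
    rw [map_mul, hAφ, hBφ]
    exact hM1 _ _ _ _
  · intro i s t u
    show B i s * A i t * (B i t * A i u) = B i s * A i u
    rw [mul_assoc, ← mul_assoc (A i t), hAB]
    rw [show d ⟨i, z i t⟩ * A i u = A i u from hA1 i u]
  · intro i s t u v htu
    show B i s * A i t * (B i u * A i v) = 0
    have h0 : A i t * B i u = 0 := by
      rw [← hA2 i t, ← hB1 i u, mul_assoc, ← mul_assoc (d ⟨i, t⟩)]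
      rw [hd.ortho (fun h => htu (by simpa using h)), zero_mul, mul_zero]
    rw [mul_assoc, ← mul_assoc (A i t), h0, zero_mul, mul_zero]
  · intro i s t j u v hij
    show B i s * A i t * (B j u * A j v) = 0
    have h0 : A i t * B j u = 0 := by
      rw [← hA2 i t, ← hB1 j u, mul_assoc, ← mul_assoc (d ⟨i, t⟩)]
      rw [hd.ortho (fun h => hij (congrArg Sigma.fst h)), zero_mul, mul_zero]
    rw [mul_assoc, ← mul_assoc (A i t), h0, zero_mul, mul_zero]
  · have h := hd.complete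
    rw [Fintype.sum_sigma] at h
    rw [← h]
    apply Finset.sum_congr rfl
    intro i _
    apply Finset.sum_congr rfl
    intro s _
    exact hBA i s

end Pool.Agent.Lib.MP_fa0f6c_al.Cx
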