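import Pool.Agent.Lib.MP_fa0f6c_al.Cx.F01

set_option autoImplicit false

namespace Pool.Agent.Lib.MP_fa0f6c_al.Cx

variable {o : Type} [CommRing o] [IsLocalRing o] [Finite o] {π : o} {r : ℕ}

private theorem F14_gen (h : IsChain o π r) (n : ℕ) :
    ∀ S : Submodule o (Fin n → o), ∃ v : Fin n → Fin n → o, S = Submodule.span o (Set.range v) := by
  induction n with
  | zero =>
    intro S
    refine ⟨fun i => i.elim0, ?_⟩
    apply Subsingleton.elim
  | succ n ih =>
    intro S
    obtain ⟨i, -, hi⟩ := chain_ideal h (S.map (LinearMap.proj (R := o) (φ := fun _ : Fin (n + 1) => o) 0))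
    have hs : π ^ i ∈ S.map (LinearMap.proj (R := o) (φ := fun _ : Fin (n + 1) => o) 0) := by
      rw [hi]; exact Ideal.mem_span_singleton_self _
    obtain ⟨s, hsS, hs0⟩ := hs
    have hs0' : s 0 = π ^ i := hs0
    let c : (Fin n → o) →ₗ[o] (Fin (n + 1) → o) :=
      { toFun := fun w => Fin.cons 0 w
        map_add' := by
          intro w w'; ext j; refine Fin.cases ?_ (fun j => ?_) j
          · simp
          · simp
        map_smul' := by
          intro a w; ext j; refine Fin.cases ?_ (fun j => ?_) j
          · simp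
          · simp }
    obtain ⟨w, hw⟩ := ih (S.comap c)
    have hwS : ∀ j, c (w j) ∈ S := by
      intro j
      have : w j ∈ S.comap c := by rw [hw]; exact Submodule.subset_span ⟨j, rfl⟩
      exact this
    refine ⟨Fin.cons s (fun j => c (w j)), le_antisymm ?_ ?_⟩
    · intro x hx
      have h0 : x 0 ∈ S.map (LinearMap.proj (R := o) (φ := fun _ : Fin (n + 1) => o) 0) := ⟨x, hx, rfl⟩
      rw [hi, Ideal.mem_span_singleton'] at h0
      obtain ⟨a, ha⟩ := h0
      have h1 : x - a • s ∈ S := S.sub_mem hx (S.smul_mem a hsS)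
      have h2 : c (fun j => (x - a • s) j.succ) = x - a • s := by
        ext j; refine Fin.cases ?_ (fun j => ?_) j
        · show (0 : o) = x 0 - a * s 0
          rw [hs0', ha, sub_self]
        · rfl
      have h3 : (fun j => (x - a • s) j.succ) ∈ S.comap c := by
        rw [Submodule.mem_comap, h2]; exact h1
      rw [hw] at h3
      have h4 : x - a • s ∈ Submodule.span o (Set.range (Fin.cons s (fun j => c (w j)) :
          Fin (n + 1) → Fin (n + 1) → o)) := by
        rw [← h2]
        have h5 := Submodule.mem_map_of_mem (f := c) h3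
        rw [Submodule.map_span, ← Set.range_comp] at h5
        refine Submodule.span_mono ?_ h5
        rintro _ ⟨j, rfl⟩
        exact ⟨j.succ, rfl⟩
      have h6 : s ∈ Submodule.span o (Set.range (Fin.cons s (fun j => c (w j)) :
          Fin (n + 1) → Fin (n + 1) → o)) := Submodule.subset_span ⟨0, rfl⟩
      have h7 := Submodule.add_mem _ h4 (Submodule.smul_mem _ a h6)
      rwa [sub_add_cancel] at h7
    · rw [Submodule.span_le]
      rintro _ ⟨j, rfl⟩
      refine Fin.cases ?_ (fun j => ?_) j
      · exact hsS
      · exact hwS j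

/-- Number of submodules of `o^n`. HINT: every submodule of `o^n` is generated by `n` elements (induction on `n`: the
projection to the last coordinate is a principal ideal `chain_ideal`, the kernel is a submodule of `o^(n-1)`), so
there are at most `|o^n|^n` submodules. -/
theorem submodule_count (h : IsChain o π r) (n : ℕ) :
    Nat.card (Submodule o (Fin n → o)) ≤ Nat.card o ^ (n ^ 2) := by
  have hsurj : Function.Surjective
      (fun v : Fin n → Fin n → o => Submodule.span o (Set.range v)) := by
    intro S
    obtain ⟨v, hv⟩ := F14_gen h n S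
    exact ⟨v, hv.symm⟩
  have h1 := Nat.card_le_card_of_surjective _ hsurj
  have h2 : Nat.card (Fin n → Fin n → o) = Nat.card o ^ (n ^ 2) := by
    rw [Nat.card_fun, Nat.card_fun]
    simp only [Nat.card_eq_fintype_card, Fintype.card_fin]
    rw [← pow_mul, sq]
  rwa [h2] at h1

theorem submodule_count_matrix (h : IsChain o π r) (a c : ℕ) :
    Nat.card (Submodule o (Matrix (Fin a) (Fin c) o)) ≤ Nat.card o ^ ((a * c) ^ 2) := by
  let e : Matrix (Fin a) (Fin c) o ≃ₗ[o] (Fin (a * c) → o) :=
    { toFun := fun M k => M (finProdFinEquiv.symm k).1 (finProdFinEquiv.symm k).2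
      invFun := fun v => Matrix.of fun i j => v (finProdFinEquiv (i, j))
      map_add' := fun _ _ => rfl
      map_smul' := fun _ _ => rfl
      left_inv := by
        intro M; ext i j
        simp
      right_inv := by
        intro v; ext k
        show v (finProdFinEquiv (finProdFinEquiv.symm k)) = v k
        rw [Equiv.apply_symm_apply] }
  have h1 : Nat.card (Submodule o (Matrix (Fin a) (Fin c) o)) =
      Nat.card (Submodule o (Fin (a * c) → o)) :=
    Nat.card_congr (Submodule.orderIsoMapComap e).toEquiv
  rw [h1]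
  exact submodule_count h (a * c)

/-- Number of families of submodules `C i j ≤ M_{ρ_i × ρ_j}(o)`. -/
theorem corners_count_le (h : IsChain o π r) {b : ℕ} (ρ : Fin b → ℕ) :
    Nat.card (∀ i j : Fin b, Submodule o (Matrix (Fin (ρ i)) (Fin (ρ j)) o)) ≤
      Nat.card o ^ ((∑ i, ρ i) ^ 4) := by
  have ho : 1 ≤ Nat.card o := Nat.card_pos
  rw [Nat.card_pi]
  calc ∏ i, Nat.card (∀ j : Fin b, Submodule o (Matrix (Fin (ρ i)) (Fin (ρ j)) o))
      = ∏ i, ∏ j, Nat.card (Submodule o (Matrix (Fin (ρ i)) (Fin (ρ j)) o)) := by
        refine Finset.prod_congr rfl fun i _ => ?_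
        rw [Nat.card_pi]
    _ ≤ ∏ i, ∏ j, Nat.card o ^ ((ρ i * ρ j) ^ 2) := by
        refine Finset.prod_le_prod' fun i _ => Finset.prod_le_prod' fun j _ => ?_
        exact submodule_count_matrix h _ _
    _ = Nat.card o ^ (∑ i, ∑ j, (ρ i * ρ j) ^ 2) := by
        rw [← Finset.prod_pow_eq_pow_sum]
        refine Finset.prod_congr rfl fun i _ => ?_
        rw [Finset.prod_pow_eq_pow_sum]
    _ ≤ Nat.card o ^ ((∑ i, ρ i) ^ 4) := by
        refine Nat.pow_le_pow_right ho ?_
        have h1 : ∑ i, ∑ j, (ρ i * ρ j) ^ 2 = (∑ i, ρ i ^ 2) * (∑ j, ρ j ^ 2) := by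
          rw [Finset.sum_mul_sum]
          refine Finset.sum_congr rfl fun i _ => Finset.sum_congr rfl fun j _ => by ring
        have h2 : ∑ i, ρ i ^ 2 ≤ (∑ i, ρ i) ^ 2 := by
          rw [sq, Finset.sum_mul]
          refine Finset.sum_le_sum fun i _ => ?_
          rw [sq]
          exact Nat.mul_le_mul_left _ (Finset.single_le_sum (fun j _ => Nat.zero_le _)
            (Finset.mem_univ i))
        rw [h1]
        calc (∑ i, ρ i ^ 2) * (∑ j, ρ j ^ 2) ≤ (∑ i, ρ i) ^ 2 * (∑ i, ρ i) ^ 2 :=
              Nat.mul_le_mul h2 h2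
          _ = (∑ i, ρ i) ^ 4 := by ring

/-- The number of homomorphisms `m` on a finite group `1 + J` is at most `|J|` (linear characters are linearly
independent). Stated as: an injective family of such homomorphisms has at most `|J|` members. -/
theorem isHom_count {R : Type} [Ring R] [Finite R] {E : Subring R} {J : Submodule ℤ R}
    (hJ : IsNilIdeal E J) (A : Set (J → ℂ)) (hA : ∀ a ∈ A, ∃ m : R → ℂ, IsHom J m ∧
      ∀ x : J, m x = a x) : A.Finite ∧ A.ncard ≤ Nat.card J := by
  classical
  let _ : Monoid J :=
    { mul := fun x y => ⟨x + y + x * y, J.add_mem (J.add_mem x.2 y.2)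
        (hJ.mulL _ (hJ.le _ x.2) _ y.2)⟩
      one := ⟨0, J.zero_mem⟩
      mul_assoc := by
        intro x y z
        apply Subtype.ext
        show ((x : R) + y + x * y) + z + ((x : R) + y + x * y) * z =
          x + (y + z + y * z) + x * (y + z + y * z)
        noncomm_ring
      one_mul := by
        intro x
        apply Subtype.ext
        show (0 : R) + x + 0 * x = x
        simp
      mul_one := by
        intro x
        apply Subtype.ext
        show (x : R) + 0 + x * 0 = x
        simp }
  have : Fintype J := Fintype.ofFinite J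
  have hli := linearIndependent_monoidHom J ℂ
  have hfin : Finite (J →* ℂ) := hli.finite
  have : Fintype (J →* ℂ) := Fintype.ofFinite _
  have hcard : Nat.card (J →* ℂ) ≤ Nat.card J := by
    have h1 := hli.fintype_card_le_finrank
    rw [Module.finrank_fintype_fun_eq_card] at h1
    rwa [Nat.card_eq_fintype_card, Nat.card_eq_fintype_card]
  have hsub : A ⊆ Set.range (fun f : J →* ℂ => (f : J → ℂ)) := by
    intro a ha
    obtain ⟨m, hm, hma⟩ := hA a ha
    refine ⟨{ toFun := a, map_one' := ?_, map_mul' := ?_ }, rfl⟩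
    · rw [← hma]
      exact hm.zero
    · intro x y
      rw [← hma, ← hma, ← hma]
      exact hm.mul x x.2 y y.2
  have hrange : (Set.range (fun f : J →* ℂ => (f : J → ℂ))).Finite := Set.finite_range _
  refine ⟨hrange.subset hsub, ?_⟩
  calc A.ncard ≤ (Set.range (fun f : J →* ℂ => (f : J → ℂ))).ncard :=
        Set.ncard_le_ncard hsub hrange
    _ ≤ Nat.card (J →* ℂ) := by
        rw [← Set.image_univ]
        refine (Set.ncard_image_le Set.finite_univ).trans ?_
        rw [Set.ncard_univ]
    _ ≤ Nat.card J := hcard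

end Pool.Agent.Lib.MP_fa0f6c_al.Cx
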