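import Pool.Agent.Lib.MP_fa0f6c_al.Cx.F06
import Pool.Agent.Lib.MP_fa0f6c_al.Cx.F07
import Pool.Agent.Lib.MP_fa0f6c_al.Cx.F13
import Pool.Agent.Lib.MP_fa0f6c_al.Cx.F14
import Pool.Agent.Lib.MP_fa0f6c_al.Cx.A05

set_option autoImplicit false

namespace Pool.Agent.Lib.MP_fa0f6c_al.Cx

variable {o : Type} [CommRing o] [IsLocalRing o] [Finite o] {π : o} {r : ℕ}

/-- `ν` has the standard form `(n, ρ, S)` via `ε`, `g`. -/
def IsStd {κ : Type} [Fintype κ] [DecidableEq κ] (ν : Stage (Matrix κ κ o)) {b : ℕ}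
    (n ρ : Fin b → ℕ) (S : Corners o ρ) (ε : κ ≃ Idx n ρ) (g : (Matrix κ κ o)ˣ) : Prop :=
  (∀ x : Matrix κ κ o, x ∈ ν.E ↔ Matrix.reindex ε ε ((g : Matrix κ κ o) * x *
        ((g⁻¹ : (Matrix κ κ o)ˣ) : Matrix κ κ o)) ∈ S.ring n) ∧
      (∀ x : Matrix κ κ o, x ∈ ν.I ↔ Matrix.reindex ε ε ((g : Matrix κ κ o) * x *
        ((g⁻¹ : (Matrix κ κ o)ˣ) : Matrix κ κ o)) ∈ S.rad n)

omit [IsLocalRing o] [Finite o] in
private theorem F15_perm {κ : Type} [Fintype κ] [DecidableEq κ] (σ : κ ≃ κ) :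
    ∃ P : (Matrix κ κ o)ˣ, ∀ y : Matrix κ κ o, Matrix.reindex σ σ y =
      (P : Matrix κ κ o) * y * ((P⁻¹ : (Matrix κ κ o)ˣ) : Matrix κ κ o) := by
  let A : Matrix κ κ o := (1 : Matrix κ κ o).submatrix σ.symm (Equiv.refl κ)
  let B : Matrix κ κ o := (1 : Matrix κ κ o).submatrix (Equiv.refl κ) σ.symm
  have hA : ∀ y : Matrix κ κ o, A * y = y.submatrix σ.symm id := by
    intro y
    ext i j
    simp [A, Matrix.mul_apply, Matrix.one_apply]
  have hB : ∀ y : Matrix κ κ o, y * B = y.submatrix id σ.symm := by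
    intro y
    ext i j
    simp [B, Matrix.mul_apply, Matrix.one_apply]
  have hAB : A * B = 1 := by
    rw [hA]
    ext i j
    simp [B, Matrix.one_apply]
  have hBA : B * A = 1 := mul_eq_one_comm.mp hAB
  refine ⟨⟨A, B, hAB, hBA⟩, fun y => ?_⟩
  show Matrix.reindex σ σ y = A * y * B
  rw [hB, hA]
  ext i j
  simp

/-- The bijection `ε` can be prescribed (absorb a permutation matrix into `g`). -/
theorem isStd_change {κ : Type} [Fintype κ] [DecidableEq κ] {ν : Stage (Matrix κ κ o)} {b : ℕ}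
    {n ρ : Fin b → ℕ} {S : Corners o ρ} {ε : κ ≃ Idx n ρ} {g : (Matrix κ κ o)ˣ}
    (h : IsStd ν n ρ S ε g) (ε' : κ ≃ Idx n ρ) : ∃ g', IsStd ν n ρ S ε' g' := by
  obtain ⟨P, hP⟩ := F15_perm (o := o) (ε.trans ε'.symm)
  have key : ∀ x : Matrix κ κ o, Matrix.reindex ε' ε' (((P * g : (Matrix κ κ o)ˣ) : Matrix κ κ o) * x *
        (((P * g)⁻¹ : (Matrix κ κ o)ˣ) : Matrix κ κ o)) =
      Matrix.reindex ε ε ((g : Matrix κ κ o) * x * ((g⁻¹ : (Matrix κ κ o)ˣ) : Matrix κ κ o)) := by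
    intro x
    have e1 : (((P * g : (Matrix κ κ o)ˣ) : Matrix κ κ o) * x *
        (((P * g)⁻¹ : (Matrix κ κ o)ˣ) : Matrix κ κ o)) =
        (P : Matrix κ κ o) * ((g : Matrix κ κ o) * x * ((g⁻¹ : (Matrix κ κ o)ˣ) : Matrix κ κ o)) *
          ((P⁻¹ : (Matrix κ κ o)ˣ) : Matrix κ κ o) := by
      rw [mul_inv_rev, Units.val_mul, Units.val_mul]
      simp only [mul_assoc]
    rw [e1, ← hP]
    ext i j
    simp
  refine ⟨P * g, fun x => ?_, fun x => ?_⟩
  · rw [key]; exact h.1 x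
  · rw [key]; exact h.2 x

omit [IsLocalRing o] [Finite o] in
private theorem F15_mem_J {b : ℕ} {ρ : Fin b → ℕ} (S : Corners o ρ) (i : Fin b)
    (x : Matrix (Fin (ρ i)) (Fin (ρ i)) o) : x ∈ S.J i ↔ x ∈ S.C i i ∧ IsNilpotent x := by
  refine ⟨fun h => ⟨S.J_le i h, S.nil i x h⟩, ?_⟩
  rintro ⟨hx, k, hk⟩
  by_contra hxJ
  obtain ⟨y, hy, -, hyx⟩ := S.unit i x hx hxJ
  have hpow : ∀ z ∈ S.C i i, ∀ k : ℕ, z ^ k ∈ S.C i i := by
    intro z hz k
    induction k with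
    | zero => rw [pow_zero]; exact S.one_mem i
    | succ k ih => rw [pow_succ]; exact S.mul_mem i i i _ ih _ hz
  have hind : ∀ k : ℕ, y ^ k * x ^ k - 1 ∈ S.J i := by
    intro k
    induction k with
    | zero => simp
    | succ k ih =>
      have e : y ^ (k + 1) * x ^ (k + 1) - 1 = y ^ k * (y * x - 1) * x ^ k + (y ^ k * x ^ k - 1) := by
        rw [pow_succ y, pow_succ' x]
        noncomm_ring
      rw [e]
      exact (S.J i).add_mem (S.J_mulR i _ (hpow x hx k) _ (S.J_mulL i _ (hpow y hy k) _ hyx)) ih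
  have h1 := hind k
  rw [hk, mul_zero, zero_sub] at h1
  exact S.one_notMem i (by simpa using (S.J i).neg_mem h1)

omit [IsLocalRing o] [Finite o] in
private theorem F15_J_eq {b : ℕ} {ρ : Fin b → ℕ} {S S' : Corners o ρ} (hC : S.C = S'.C) :
    S.J = S'.J := by
  funext i
  ext x
  rw [F15_mem_J, F15_mem_J, hC]

omit [IsLocalRing o] [Finite o] in
private theorem F15_ring_eq {b : ℕ} {ρ : Fin b → ℕ} {S S' : Corners o ρ} (hC : S.C = S'.C)
    (n : Fin b → ℕ) : S.ring n = S'.ring n := by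
  ext x
  change (∀ i s j t, blk x i s j t ∈ S.C i j) ↔ (∀ i s j t, blk x i s j t ∈ S'.C i j)
  rw [hC]

omit [IsLocalRing o] [Finite o] in
private theorem F15_rad_eq {b : ℕ} {ρ : Fin b → ℕ} {S S' : Corners o ρ} (hC : S.C = S'.C)
    (n : Fin b → ℕ) : S.rad n = S'.rad n := by
  ext x
  change ((∀ i s j t, blk x i s j t ∈ S.C i j) ∧ ∀ i s t, blk x i s i t ∈ S.J i) ↔
    ((∀ i s j t, blk x i s j t ∈ S'.C i j) ∧ ∀ i s t, blk x i s i t ∈ S'.J i)
  rw [F15_J_eq hC, hC]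

/-- transport of a stage in standard form to the standard index set -/
private theorem F15_transport {κ : Type} [Fintype κ] [DecidableEq κ] {ν : Stage (Matrix κ κ o)}
    {b : ℕ} {n ρ : Fin b → ℕ} {S : Corners o ρ} {ε : κ ≃ Idx n ρ} {g : (Matrix κ κ o)ˣ}
    (h : IsStd ν n ρ S ε g) : ∃ M : Matrix (Idx n ρ) (Idx n ρ) o → ℂ,
      IsHom (S.rad n) M ∧ IsSym (S.ring n) (S.rad n) M ∧
      (∀ x : Matrix κ κ o, M (Matrix.reindex ε ε ((g : Matrix κ κ o) * x *
        ((g⁻¹ : (Matrix κ κ o)ˣ) : Matrix κ κ o))) = ν.m x) ∧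
      (∀ z : Matrix (Idx n ρ) (Idx n ρ) o, M z = ν.m (((g⁻¹ : (Matrix κ κ o)ˣ) : Matrix κ κ o) *
        Matrix.reindex ε.symm ε.symm z * g)) := by
  obtain ⟨Φ, hΦ⟩ := conj_reindex (o := o) ε g
  obtain ⟨s', hE, hI, hm⟩ := stage_map Φ ν
  have hinv : ∀ z : Matrix (Idx n ρ) (Idx n ρ) o,
      Φ (((g⁻¹ : (Matrix κ κ o)ˣ) : Matrix κ κ o) * Matrix.reindex ε.symm ε.symm z * g) = z := by
    intro z
    rw [hΦ]
    have e1 : (g : Matrix κ κ o) * (((g⁻¹ : (Matrix κ κ o)ˣ) : Matrix κ κ o) *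
        Matrix.reindex ε.symm ε.symm z * g) * ((g⁻¹ : (Matrix κ κ o)ˣ) : Matrix κ κ o) =
        Matrix.reindex ε.symm ε.symm z := by
      simp only [mul_assoc, Units.mul_inv, mul_one, Units.mul_inv_cancel_left]
    rw [e1]
    ext i j
    simp
  have hIeq : s'.I = S.rad n := by
    ext z
    rw [← hinv z, hI, h.2, hΦ]
  have hEeq : s'.E = S.ring n := by
    ext z
    rw [← hinv z, hE, h.1, hΦ]
  refine ⟨s'.m, ?_, ?_, ?_, ?_⟩
  · rw [← hIeq]; exact s'.hom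
  · rw [← hIeq, ← hEeq]; exact s'.sym
  · intro x
    rw [← hΦ, hm]
  · intro z
    conv_lhs => rw [← hinv z]
    rw [hm]

/-- Two stages with the same standard corners and the same characters on the diagonal corners are
conjugate. HINT: transport both to `Matrix (Idx n ρ)` by `conj_reindex`, `stage_map`; `m_determined`. The radical `J i` is determined by `C i i`
(nilpotent elements). -/
theorem isStd_conj {κ : Type} [Fintype κ] [DecidableEq κ] {ν ν' : Stage (Matrix κ κ o)} {b : ℕ}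
    {n ρ : Fin b → ℕ} (hn : ∀ i, 0 < n i) {S S' : Corners o ρ} {ε : κ ≃ Idx n ρ}
    {g g' : (Matrix κ κ o)ˣ} (h : IsStd ν n ρ S ε g) (h' : IsStd ν' n ρ S' ε g')
    (hC : S.C = S'.C)
    (hm : ∀ i, ∀ x ∈ S.J i,
      ν.m (((g⁻¹ : (Matrix κ κ o)ˣ) : Matrix κ κ o) * Matrix.reindex ε.symm ε.symm
        (place i ⟨0, hn i⟩ i ⟨0, hn i⟩ x) * g) =
      ν'.m (((g'⁻¹ : (Matrix κ κ o)ˣ) : Matrix κ κ o) * Matrix.reindex ε.symm ε.symm
        (place i ⟨0, hn i⟩ i ⟨0, hn i⟩ x) * g')) :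
    ν.Conj ν' := by
  obtain ⟨M, hM1, hM2, hM3, hM4⟩ := F15_transport h
  obtain ⟨M', hM1', hM2', hM3', hM4'⟩ := F15_transport h'
  have hrad := F15_rad_eq hC n
  have hring := F15_ring_eq hC n
  have hdet := m_determined hn S hM1 (by rw [hrad]; exact hM1') hM2 (by rw [hrad, hring]; exact hM2')
    (fun i x hx => by rw [hM4, hM4']; exact hm i x hx)
  have hgg : ∀ x : Matrix κ κ o, (g' : Matrix κ κ o) *
      (((g'⁻¹ * g : (Matrix κ κ o)ˣ) : Matrix κ κ o) * x *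
        (((g'⁻¹ * g)⁻¹ : (Matrix κ κ o)ˣ) : Matrix κ κ o)) * ((g'⁻¹ : (Matrix κ κ o)ˣ) : Matrix κ κ o) =
      (g : Matrix κ κ o) * x * ((g⁻¹ : (Matrix κ κ o)ˣ) : Matrix κ κ o) := by
    intro x
    rw [mul_inv_rev, inv_inv, Units.val_mul, Units.val_mul]
    simp only [mul_assoc, Units.mul_inv, mul_one, Units.mul_inv_cancel_left]
  refine ⟨g'⁻¹ * g, fun x => ?_, fun x hx => ?_⟩
  · rw [h.2, h'.2, hgg, hrad]
  · have hx' := (h.2 x).mp hx
    rw [← hM3' , hgg, ← hM3 x]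
    exact (hdet _ hx').symm

omit [IsLocalRing o] [Finite o] in
private theorem F15_place_add {b : ℕ} {n ρ : Fin b → ℕ} (i : Fin b) (s : Fin (n i)) (j : Fin b)
    (t : Fin (n j)) (x y : Matrix (Fin (ρ i)) (Fin (ρ j)) o) :
    place (n := n) i s j t (x + y) = place i s j t x + place i s j t y := by
  ext u v
  simp only [place, Matrix.add_apply]
  split_ifs <;> simp

omit [IsLocalRing o] [Finite o] in
private theorem F15_place_zero {b : ℕ} {n ρ : Fin b → ℕ} (i : Fin b) (s : Fin (n i)) (j : Fin b)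
    (t : Fin (n j)) : place (o := o) (n := n) (ρ := ρ) i s j t 0 = 0 := by
  ext u v
  simp only [place, Matrix.zero_apply]
  split_ifs <;> simp

omit [IsLocalRing o] [Finite o] in
/-- a block of the radical placed alone is in the radical -/
private theorem F15_place_rad {b : ℕ} {n ρ : Fin b → ℕ} (S : Corners o ρ) (i : Fin b) (s : Fin (n i))
    {x : Matrix (Fin (ρ i)) (Fin (ρ i)) o} (hx : x ∈ S.J i) :
    place (n := n) i s i s x ∈ S.rad n := by
  change (∀ k u l v, blk (place i s i s x) k u l v ∈ S.C k l) ∧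
    ∀ k u v, blk (place i s i s x) k u k v ∈ S.J k
  constructor
  · intro k u l v
    by_cases h : k = i ∧ l = i ∧ (u : ℕ) = s ∧ (v : ℕ) = s
    · obtain ⟨rfl, rfl, h1, h2⟩ := h
      have h1' := Fin.ext h1
      have h2' := Fin.ext h2
      subst h1'
      rw [← h2', h2', blk_place_self]
      exact S.J_le _ hx
    · rw [blk_place_ne _ _ _ _ _ _ _ _ _ h]
      exact (S.C k l).zero_mem
  · intro k u v
    by_cases h : k = i ∧ k = i ∧ (u : ℕ) = s ∧ (v : ℕ) = s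
    · obtain ⟨rfl, -, h1, h2⟩ := h
      have h1' := Fin.ext h1
      have h2' := Fin.ext h2
      rw [h1', h2', blk_place_self]
      exact hx
    · rw [blk_place_ne _ _ _ _ _ _ _ _ _ h]
      exact (S.J k).zero_mem

/-- the subring `C i i` -/
private def F15_E {b : ℕ} {ρ : Fin b → ℕ} (S : Corners o ρ) (i : Fin b) :
    Subring (Matrix (Fin (ρ i)) (Fin (ρ i)) o) where
  carrier := {x | x ∈ S.C i i}
  zero_mem' := (S.C i i).zero_mem
  one_mem' := S.one_mem i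
  add_mem' := fun hx hy => (S.C i i).add_mem hx hy
  neg_mem' := fun hx => (S.C i i).neg_mem hx
  mul_mem' := fun hx hy => S.mul_mem i i i _ hx _ hy

private theorem F15_nil {b : ℕ} {n ρ : Fin b → ℕ} (hn : ∀ i, 0 < n i) (S : Corners o ρ) (i : Fin b) :
    IsNilIdeal (F15_E S i) ((S.J i).restrictScalars ℤ) := by
  refine ⟨fun x hx => S.J_le i hx, fun f hf x hx => S.J_mulL i f hf x hx,
    fun f hf x hx => S.J_mulR i f hf x hx, ?_⟩
  obtain ⟨k, hk⟩ := (corners_nilIdeal S n).nil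
  have hind : ∀ k : ℕ, ∀ x ∈ ((S.J i).restrictScalars ℤ) ^ (k + 1),
      place (n := n) i ⟨0, hn i⟩ i ⟨0, hn i⟩ x ∈ (S.rad n) ^ (k + 1) := by
    intro k
    induction k with
    | zero =>
      intro x hx
      rw [zero_add, pow_one] at hx ⊢
      exact F15_place_rad S i _ hx
    | succ k ih =>
      intro x hx
      rw [pow_succ] at hx ⊢
      induction hx using Submodule.mul_induction_on' with
      | mem_mul_mem a ha c hc =>
        rw [← place_mul]
        exact Submodule.mul_mem_mul (ih a ha) (F15_place_rad S i _ hc)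
      | add a ha c hc h1 h2 =>
        rw [F15_place_add]
        exact Submodule.add_mem _ h1 h2
  refine ⟨k + 1, ?_⟩
  rw [Submodule.zero_eq_bot, Submodule.eq_bot_iff]
  intro x hx
  have h1 := hind k x hx
  rw [pow_succ, hk, zero_mul, Submodule.zero_eq_bot, Submodule.mem_bot] at h1
  have h2 := blk_place_self (n := n) i ⟨0, hn i⟩ i ⟨0, hn i⟩ x
  rw [← h2, h1]
  rfl

/-- the fibres of the map `ν ↦ C` -/
private theorem F15_fibre {κ : Type} [Fintype κ] [DecidableEq κ]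
    (F : Set (Stage (Matrix κ κ o)))
    (huniq : ∀ χ ∈ Irr (Matrix κ κ o)ˣ, ∀ ν ∈ F, ∀ ν' ∈ F, ν.Over χ → ν'.Over χ → ν = ν')
    {b : ℕ} (n ρ : Fin b → ℕ) (hn : ∀ i, 0 < n i) (ε : κ ≃ Idx n ρ) {Q : Type}
    (st : Q → Stage (Matrix κ κ o)) (hst : Function.Injective st) (hF : ∀ q, st q ∈ F)
    (Sq : Q → Corners o ρ) (gq : Q → (Matrix κ κ o)ˣ)
    (hq : ∀ q, IsStd (st q) n ρ (Sq q) ε (gq q)) (hC : ∀ q q', (Sq q).C = (Sq q').C) :
    Finite Q ∧ Nat.card Q ≤ Nat.card o ^ ((∑ i, ρ i) ^ 2) := by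
  classical
  rcases isEmpty_or_nonempty Q with hQ | ⟨⟨q₀⟩⟩
  · refine ⟨inferInstance, ?_⟩
    rw [Nat.card_eq_zero.mpr (Or.inl hQ)]
    exact Nat.zero_le _
  set S := Sq q₀ with hS
  have hJ : ∀ q, (Sq q).J = S.J := fun q => F15_J_eq (hC q q₀)
  let A : ∀ i : Fin b, Set (((S.J i).restrictScalars ℤ) → ℂ) := fun i =>
    {a | ∃ m : Matrix (Fin (ρ i)) (Fin (ρ i)) o → ℂ, IsHom ((S.J i).restrictScalars ℤ) m ∧
      ∀ x : ((S.J i).restrictScalars ℤ), m x = a x}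
  have hA : ∀ i, (A i).Finite ∧ (A i).ncard ≤ Nat.card ((S.J i).restrictScalars ℤ) := fun i =>
    isHom_count (F15_nil hn S i) (A i) (fun a ha => ha)
  have hAfin : ∀ i, Finite (A i) := fun i => (hA i).1.to_subtype
  have hhom : ∀ q i, IsHom ((S.J i).restrictScalars ℤ)
      (fun x => (st q).m (((gq q)⁻¹ : (Matrix κ κ o)ˣ) * Matrix.reindex ε.symm ε.symm
        (place i ⟨0, hn i⟩ i ⟨0, hn i⟩ x) * gq q)) := by
    intro q i
    obtain ⟨M, hM1, -, -, hM4⟩ := F15_transport (hq q)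
    have hsimp : (fun x : Matrix (Fin (ρ i)) (Fin (ρ i)) o =>
        (st q).m (((gq q)⁻¹ : (Matrix κ κ o)ˣ) * Matrix.reindex ε.symm ε.symm
        (place i ⟨0, hn i⟩ i ⟨0, hn i⟩ x) * gq q)) =
        fun x => M (place i ⟨0, hn i⟩ i ⟨0, hn i⟩ x) := by
      funext x
      rw [hM4]
    rw [hsimp]
    refine ⟨?_, ?_⟩
    · show M (place i ⟨0, hn i⟩ i ⟨0, hn i⟩ 0) = 1
      rw [F15_place_zero]
      exact hM1.zero
    · intro x hx y hy
      show M (place i ⟨0, hn i⟩ i ⟨0, hn i⟩ (x + y + x * y)) = _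
      rw [F15_place_add, F15_place_add, ← place_mul]
      have hx' : x ∈ (Sq q).J i := by rw [hJ q]; exact hx
      have hy' : y ∈ (Sq q).J i := by rw [hJ q]; exact hy
      exact hM1.mul _ (F15_place_rad _ i _ hx') _ (F15_place_rad _ i _ hy')
  let Θ : Q → ∀ i, A i := fun q i => ⟨fun x => (st q).m (((gq q)⁻¹ : (Matrix κ κ o)ˣ) *
    Matrix.reindex ε.symm ε.symm (place i ⟨0, hn i⟩ i ⟨0, hn i⟩ (x : Matrix (Fin (ρ i)) (Fin (ρ i)) o)) *
      gq q), _, hhom q i, fun x => rfl⟩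
  have hΘ : Function.Injective Θ := by
    intro q q' hqq
    apply hst
    have hconj : (st q).Conj (st q') := by
      refine isStd_conj hn (hq q) (hq q') (hC q q') ?_
      intro i x hx
      rw [hJ q] at hx
      have h1 := congrFun (congrArg Subtype.val (congrFun hqq i)) ⟨x, hx⟩
      exact h1
    obtain ⟨χ, hχ, ho⟩ := (st q).exists_over
    exact huniq χ hχ _ (hF q) _ (hF q') ho ((conj_over hconj hχ).mp ho)
  have hQfin : Finite Q := Finite.of_injective Θ hΘ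
  refine ⟨hQfin, ?_⟩
  have hone : 1 ≤ Nat.card o := Nat.card_pos
  calc Nat.card Q ≤ Nat.card (∀ i, A i) := Nat.card_le_card_of_injective Θ hΘ
    _ = ∏ i, Nat.card (A i) := Nat.card_pi
    _ ≤ ∏ i, Nat.card o ^ (ρ i * ρ i) := by
        refine Finset.prod_le_prod' (fun i _ => ?_)
        have h1 : Nat.card (A i) ≤ Nat.card ((S.J i).restrictScalars ℤ) := (hA i).2
        have h2 : Nat.card ((S.J i).restrictScalars ℤ) ≤
            Nat.card (Matrix (Fin (ρ i)) (Fin (ρ i)) o) :=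
          Nat.card_le_card_of_injective (fun x => (x : Matrix (Fin (ρ i)) (Fin (ρ i)) o))
            Subtype.val_injective
        have h3 : Nat.card (Matrix (Fin (ρ i)) (Fin (ρ i)) o) = Nat.card o ^ (ρ i * ρ i) := by
          have : Nat.card (Matrix (Fin (ρ i)) (Fin (ρ i)) o) = Nat.card (Fin (ρ i) → Fin (ρ i) → o) := rfl
          rw [this, Nat.card_fun, Nat.card_fun, Nat.card_fin, ← pow_mul]
        omega
    _ = Nat.card o ^ (∑ i, ρ i * ρ i) := by rw [Finset.prod_pow_eq_pow_sum]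
    _ ≤ Nat.card o ^ ((∑ i, ρ i) ^ 2) := by
        refine Nat.pow_le_pow_right hone ?_
        rw [sq, Finset.sum_mul]
        refine Finset.sum_le_sum (fun i _ => Nat.mul_le_mul_left _ ?_)
        exact Finset.single_le_sum (fun j _ => Nat.zero_le (ρ j)) (Finset.mem_univ i)

/-- Bound for the number of stages with given `(b, n, ρ)` in a family (blueprint 2.6).
PROOF: the map `ν ↦ (C, (m on J i)_i)` is injective by `isStd_conj` and `conj_over` (two conjugate members of the family have a common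
`χ`, so they are equal); count with `corners_count_le`, `isHom_count`, `∏ |J i| ≤ ∏ |o|^(ρ i ^ 2) ≤ |o|^(K^2)`. -/
theorem node_bound (hch : IsChain o π r) {κ : Type} [Fintype κ] [DecidableEq κ]
    (F : Set (Stage (Matrix κ κ o)))
    (huniq : ∀ χ ∈ Irr (Matrix κ κ o)ˣ, ∀ ν ∈ F, ∀ ν' ∈ F, ν.Over χ → ν'.Over χ → ν = ν')
    {b : ℕ} (n ρ : Fin b → ℕ) (hn : ∀ i, 0 < n i) :
    {ν | ν ∈ F ∧ ∃ (S : Corners o ρ) (ε : κ ≃ Idx n ρ) (g : (Matrix κ κ o)ˣ),
      IsStd ν n ρ S ε g}.Finite ∧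
    Set.ncard {ν | ν ∈ F ∧ ∃ (S : Corners o ρ) (ε : κ ≃ Idx n ρ) (g : (Matrix κ κ o)ˣ),
      IsStd ν n ρ S ε g} ≤ Nat.card o ^ ((∑ i, ρ i) ^ 4 + (∑ i, ρ i) ^ 2) := by
  classical
  set T : Set (Stage (Matrix κ κ o)) := {ν | ν ∈ F ∧ ∃ (S : Corners o ρ) (ε : κ ≃ Idx n ρ)
    (g : (Matrix κ κ o)ˣ), IsStd ν n ρ S ε g} with hT
  rcases T.eq_empty_or_nonempty with hE | ⟨ν₀, -, S₀, ε, g₀, h₀⟩
  · rw [hE]
    refine ⟨Set.finite_empty, ?_⟩
    rw [Set.ncard_empty]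
    exact Nat.zero_le _
  have hch1 : ∀ q : T, ∃ (S : Corners o ρ) (g : (Matrix κ κ o)ˣ), IsStd (q : Stage (Matrix κ κ o)) n ρ S ε g := by
    rintro ⟨ν, hν, S, ε', g, h⟩
    obtain ⟨g', h'⟩ := isStd_change h ε
    exact ⟨S, g', h'⟩
  choose Sq gq hq using hch1
  let CT : Type := ∀ i j : Fin b, Submodule o (Matrix (Fin (ρ i)) (Fin (ρ j)) o)
  have hsub : ∀ i j : Fin b, Finite (Submodule o (Matrix (Fin (ρ i)) (Fin (ρ j)) o)) := fun i j =>
    Finite.of_injective (fun p => (p : Set (Matrix (Fin (ρ i)) (Fin (ρ j)) o))) SetLike.coe_injective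
  have hCT : Finite CT := by
    have : ∀ i : Fin b, Finite (∀ j : Fin b, Submodule o (Matrix (Fin (ρ i)) (Fin (ρ j)) o)) :=
      fun i => Pi.finite
    exact Pi.finite
  have := Fintype.ofFinite CT
  let f : T → CT := fun q => (Sq q).C
  have hfib : ∀ c : CT, Finite {q : T // f q = c} ∧
      Nat.card {q : T // f q = c} ≤ Nat.card o ^ ((∑ i, ρ i) ^ 2) := by
    intro c
    exact F15_fibre F huniq n ρ hn ε (fun q : {q : T // f q = c} => ((q : T) : Stage (Matrix κ κ o)))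
      (fun q q' h => Subtype.ext (Subtype.ext h)) (fun q => (q : T).2.1) (fun q => Sq q)
      (fun q => gq q) (fun q => hq q) (fun q q' => by
        have h1 := q.2
        have h2 := q'.2
        exact h1.trans h2.symm)
  have hff : ∀ c : CT, Finite {q : T // f q = c} := fun c => (hfib c).1
  have hTfin : Finite T := Finite.of_equiv _ (Equiv.sigmaFiberEquiv f)
  refine ⟨Set.toFinite T, ?_⟩
  calc Set.ncard T = Nat.card T := rfl
    _ = Nat.card (Σ c, {q : T // f q = c}) := (Nat.card_congr (Equiv.sigmaFiberEquiv f)).symm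
    _ = ∑ c : CT, Nat.card {q : T // f q = c} := Nat.card_sigma
    _ ≤ ∑ _c : CT, Nat.card o ^ ((∑ i, ρ i) ^ 2) := Finset.sum_le_sum (fun c _ => (hfib c).2)
    _ = Nat.card CT * Nat.card o ^ ((∑ i, ρ i) ^ 2) := by
        rw [Finset.sum_const, Finset.card_univ, smul_eq_mul, Nat.card_eq_fintype_card (α := CT)]
    _ ≤ Nat.card o ^ ((∑ i, ρ i) ^ 4) * Nat.card o ^ ((∑ i, ρ i) ^ 2) :=
        Nat.mul_le_mul_right _ (corners_count_le hch ρ)
    _ = Nat.card o ^ ((∑ i, ρ i) ^ 4 + (∑ i, ρ i) ^ 2) := by rw [pow_add]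

end Pool.Agent.Lib.MP_fa0f6c_al.Cx
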