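import Pool.Agent.Lib.MP_fa0f6c_al.Cx.ADefs

/-!
Chain rings, the index set of a matrix ring in standard form, corner systems, the ring and the ideal
of a corner system, and the first step.  Blueprint: ONN_blueprint.md, sections 0, 1.7, 2.
-/

set_option autoImplicit false

namespace Pool.Agent.Lib.MP_fa0f6c_al.Cx

/-- `o` is a finite chain ring of length `r` with uniformiser `π`. -/
structure IsChain (o : Type) [CommRing o] [IsLocalRing o] (π : o) (r : ℕ) : Prop where
  max : IsLocalRing.maximalIdeal o = Ideal.span {π}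
  pos : 0 < r
  pow : π ^ r = 0
  ne : π ^ (r - 1) ≠ 0

/-- A nontrivial additive character of a chain ring which is nontrivial on the minimal ideal. -/
structure IsPrim {o : Type} [CommRing o] (π : o) (r : ℕ) (ψ : AddChar o ℂ) : Prop where
  ne : ∃ a : o, ψ (π ^ (r - 1) * a) ≠ 1

/-- Index set of a matrix ring with blocks `i : Fin b`, multiplicities `n i` and ranks `ρ i`. -/
abbrev Idx {b : ℕ} (n ρ : Fin b → ℕ) : Type := Σ i : Fin b, Fin (n i) × Fin (ρ i)

/-- The block of a matrix at `(i, s), (j, t)`. -/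
def blk {o : Type} {b : ℕ} {n ρ : Fin b → ℕ} (x : Matrix (Idx n ρ) (Idx n ρ) o) (i : Fin b)
    (s : Fin (n i)) (j : Fin b) (t : Fin (n j)) : Matrix (Fin (ρ i)) (Fin (ρ j)) o :=
  fun a c => x ⟨i, (s, a)⟩ ⟨j, (t, c)⟩

/-- A system of corners `C i j`, with local diagonal corners `C i i` with radical `J i`
and commutative residue ring (a finite field). -/
structure Corners (o : Type) [CommRing o] {b : ℕ} (ρ : Fin b → ℕ) where
  C : ∀ i j : Fin b, Submodule o (Matrix (Fin (ρ i)) (Fin (ρ j)) o)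
  J : ∀ i : Fin b, Submodule o (Matrix (Fin (ρ i)) (Fin (ρ i)) o)
  one_mem : ∀ i, (1 : Matrix (Fin (ρ i)) (Fin (ρ i)) o) ∈ C i i
  mul_mem : ∀ i j l, ∀ x ∈ C i j, ∀ y ∈ C j l, x * y ∈ C i l
  J_le : ∀ i, J i ≤ C i i
  J_mulL : ∀ i, ∀ x ∈ C i i, ∀ y ∈ J i, x * y ∈ J i
  J_mulR : ∀ i, ∀ x ∈ C i i, ∀ y ∈ J i, y * x ∈ J i
  J_off : ∀ i j, i ≠ j → ∀ x ∈ C i j, ∀ y ∈ C j i, x * y ∈ J i
  one_notMem : ∀ i, (1 : Matrix (Fin (ρ i)) (Fin (ρ i)) o) ∉ J i
  comm : ∀ i, ∀ x ∈ C i i, ∀ y ∈ C i i, x * y - y * x ∈ J i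
  unit : ∀ i, ∀ x ∈ C i i, x ∉ J i → ∃ y ∈ C i i, x * y - 1 ∈ J i ∧ y * x - 1 ∈ J i
  nil : ∀ i, ∀ x ∈ J i, IsNilpotent x

section
variable {o : Type} [CommRing o] {b : ℕ} {ρ : Fin b → ℕ}

theorem blk_mul {n : Fin b → ℕ} (x y : Matrix (Idx n ρ) (Idx n ρ) o) (i : Fin b) (s : Fin (n i))
    (l : Fin b) (t : Fin (n l)) :
    blk (x * y) i s l t = ∑ j : Fin b, ∑ u : Fin (n j), blk x i s j u * blk y j u l t := by
  ext a c
  simp only [blk, Matrix.mul_apply, Matrix.sum_apply]
  rw [Fintype.sum_sigma]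
  refine Finset.sum_congr rfl fun j _ => ?_
  rw [Fintype.sum_prod_type]

/-- The subring of `M_n` of a corner system. -/
def Corners.ring (S : Corners o ρ) (n : Fin b → ℕ) : Subring (Matrix (Idx n ρ) (Idx n ρ) o) where
  carrier := {x | ∀ i s j t, blk x i s j t ∈ S.C i j}
  zero_mem' := fun i s j t => (S.C i j).zero_mem
  one_mem' := by
    intro i s j t
    by_cases h : i = j
    · subst h
      by_cases hst : s = t
      · subst hst
        have : blk (1 : Matrix (Idx n ρ) (Idx n ρ) o) i s i s = 1 := by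
          ext a c; simp [blk, Matrix.one_apply]
        rw [this]; exact S.one_mem i
      · have : blk (1 : Matrix (Idx n ρ) (Idx n ρ) o) i s i t = 0 := by
          ext a c; simp [blk, Matrix.one_apply, hst]
        rw [this]; exact (S.C i i).zero_mem
    · have : blk (1 : Matrix (Idx n ρ) (Idx n ρ) o) i s j t = 0 := by
        ext a c; simp [blk, Matrix.one_apply, h]
      rw [this]; exact (S.C i j).zero_mem
  add_mem' := fun {x y} hx hy i s j t => (S.C i j).add_mem (hx i s j t) (hy i s j t)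
  neg_mem' := fun {x} hx i s j t => (S.C i j).neg_mem (hx i s j t)
  mul_mem' := by
    intro x y hx hy i s l t
    rw [blk_mul]
    exact Submodule.sum_mem _ fun j _ => Submodule.sum_mem _ fun u _ =>
      S.mul_mem i j l _ (hx i s j u) _ (hy j u l t)

/-- The radical of `S.ring n`. -/
def Corners.rad (S : Corners o ρ) (n : Fin b → ℕ) :
    Submodule ℤ (Matrix (Idx n ρ) (Idx n ρ) o) where
  carrier := {x | (∀ i s j t, blk x i s j t ∈ S.C i j) ∧ ∀ i s t, blk x i s i t ∈ S.J i}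
  zero_mem' := ⟨fun i _ j _ => (S.C i j).zero_mem, fun i _ _ => (S.J i).zero_mem⟩
  add_mem' := fun {x y} hx hy => ⟨fun i s j t => (S.C i j).add_mem (hx.1 i s j t) (hy.1 i s j t),
    fun i s t => (S.J i).add_mem (hx.2 i s t) (hy.2 i s t)⟩
  smul_mem' := by
    intro c x hx
    refine ⟨fun i s j t => ?_, fun i s t => ?_⟩
    · have : blk (c • x) i s j t = c • blk x i s j t := by ext a d; simp [blk]
      rw [this]; exact zsmul_mem (hx.1 i s j t) c
    · have : blk (c • x) i s i t = c • blk x i s i t := by ext a d; simp [blk]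
      rw [this]; exact zsmul_mem (hx.2 i s t) c

end

/-- The stages after the first step `I = π^a R` (used with `2 a = r`): `E` is the centraliser of `X`
modulo `π^a`, and `m (π^a y) = ψ (π^a tr (X y))`. -/
structure IsFirst {o : Type} [CommRing o] {κ : Type} [Fintype κ] [DecidableEq κ] (π : o) (a : ℕ)
    (ψ : AddChar o ℂ) (X : Matrix κ κ o) (s : Stage (Matrix κ κ o)) : Prop where
  I : ∀ x, x ∈ s.I ↔ ∃ y, x = π ^ a • y
  E : ∀ f, f ∈ s.E ↔ ∃ y, X * f - f * X = π ^ a • y
  m : ∀ y, s.m (π ^ a • y) = ψ (π ^ a * (X * y).trace)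

end Pool.Agent.Lib.MP_fa0f6c_al.Cx
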