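import Pool.Agent.Lib.MP_fa0f6c_al.Cx.A03
import Pool.Agent.Lib.MP_fa0f6c_al.Cx.F11

set_option autoImplicit false

namespace Pool.Agent.Lib.MP_fa0f6c_al.Cx

private structure G01Cor {R : Type} [Ring R] (J : Submodule ℤ R) (e f x : R) : Prop where
  mem : x ∈ J
  l : e * x = x
  r : x * f = x

section G01

variable {R : Type} [Ring R] {E : Subring R} {J : Submodule ℤ R}

private theorem G01Cor.l' {e f x : R} (h : G01Cor J e f x) (y : R) : e * (x * y) = x * y := by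
  rw [← mul_assoc, h.l]

private theorem G01Cor.r' {e f x : R} (h : G01Cor J e f x) (y : R) : x * (f * y) = x * y := by
  rw [← mul_assoc, h.r]

private theorem G01Cor.l0 {e f x : R} (h : G01Cor J e f x) : (1 - e) * x = 0 := by
  rw [sub_mul, one_mul, h.l, sub_self]

private theorem G01Cor.r0 {e f x : R} (h : G01Cor J e f x) : x * (1 - f) = 0 := by
  rw [mul_sub, mul_one, h.r, sub_self]

private theorem G01Cor.l0' {e f x : R} (h : G01Cor J (1 - e) f x) : e * x = 0 := by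
  have := h.l
  rw [sub_mul, one_mul, sub_eq_self] at this
  exact this

private theorem G01Cor.r0' {e f x : R} (h : G01Cor J e (1 - f) x) : x * f = 0 := by
  have := h.r
  rw [mul_sub, mul_one, sub_eq_self] at this
  exact this

/-- product of two corner elements whose inner idempotents are complementary -/
private theorem G01Cor.mul0 {e f g x y : R} (hx : G01Cor J e f x) (hy : G01Cor J (1 - f) g y) :
    x * y = 0 := by
  rw [← hx.r, mul_assoc, hy.l0', mul_zero]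

private theorem G01Cor.mul0' {e f g x y : R} (hx : G01Cor J e (1 - f) x) (hy : G01Cor J f g y) :
    x * y = 0 := by
  rw [← hy.l, ← mul_assoc, hx.r0', zero_mul]

private theorem G01Cor.mul (hJ : IsNilIdeal E J) {e f g x y : R} (hx : G01Cor J e f x)
    (hy : G01Cor J f g y) : G01Cor J e g (x * y) :=
  ⟨hJ.mulL _ (hJ.le _ hx.mem) _ hy.mem, hx.l' y, by rw [mul_assoc, hy.r]⟩

private theorem G01Cor.add {e f x y : R} (hx : G01Cor J e f x)
    (hy : G01Cor J e f y) : G01Cor J e f (x + y) :=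
  ⟨J.add_mem hx.mem hy.mem, by rw [mul_add, hx.l, hy.l], by rw [add_mul, hx.r, hy.r]⟩

private theorem G01Cor.neg {e f x : R} (hx : G01Cor J e f x) : G01Cor J e f (-x) :=
  ⟨J.neg_mem hx.mem, by rw [mul_neg, hx.l], by rw [neg_mul, hx.r]⟩

private theorem G01Cor.zero {e f : R} : G01Cor J e f 0 :=
  ⟨J.zero_mem, by rw [mul_zero], by rw [zero_mul]⟩

private theorem G01_inv (hJ : IsNilIdeal E J) {e d : R} (hd : G01Cor J e e d) :
    ∃ c, G01Cor J e e c ∧ d + c + d * c = 0 ∧ d + c + c * d = 0 := by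
  obtain ⟨v, hv, hv1⟩ := exists_unit hJ hd.mem
  have h1 : (1 + d) * ((v⁻¹ : Rˣ) : R) = 1 := by rw [← hv1, Units.mul_inv]
  have h2 : ((v⁻¹ : Rˣ) : R) * (1 + d) = 1 := by rw [← hv1, Units.inv_mul]
  set w : R := ((v⁻¹ : Rˣ) : R) with hw
  have e1 : d + (w - 1) + d * (w - 1) = 0 := by
    have : d + (w - 1) + d * (w - 1) = (1 + d) * w - 1 := by noncomm_ring
    rw [this, h1, sub_self]
  have e2 : d + (w - 1) + (w - 1) * d = 0 := by
    have : d + (w - 1) + (w - 1) * d = w * (1 + d) - 1 := by noncomm_ring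
    rw [this, h2, sub_self]
  refine ⟨w - 1, ⟨hv.2, ?_, ?_⟩, e1, e2⟩
  · have e3 : w - 1 = -(d + d * (w - 1)) := by
      rw [eq_neg_iff_add_eq_zero, ← e1]; abel
    rw [e3, mul_neg, mul_add, hd.l, hd.l']
  · have e3 : w - 1 = -(d + (w - 1) * d) := by
      rw [eq_neg_iff_add_eq_zero, ← e2]; abel
    rw [e3, neg_mul, add_mul, hd.r, mul_assoc, hd.r]

private theorem G01_ringInverse {d c : R} (h1 : d + c + d * c = 0) (h2 : d + c + c * d = 0) :
    Ring.inverse (1 + d) = 1 + c := by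
  have e1 : (1 + d) * (1 + c) = 1 := by
    have : (1 + d) * (1 + c) = 1 + (d + c + d * c) := by noncomm_ring
    rw [this, h1, add_zero]
  have e2 : (1 + c) * (1 + d) = 1 := by
    have : (1 + c) * (1 + d) = 1 + (d + c + c * d) := by noncomm_ring
    rw [this, h2, add_zero]
  exact Ring.inverse_unit (⟨1 + d, 1 + c, e1, e2⟩ : Rˣ)

/-- a homomorphism on a corner is invariant under conjugation -/
private theorem G01_conj (hJ : IsNilIdeal E J) {e : R} {m : R → ℂ} (z : m 0 = 1)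
    (hm : ∀ x y, G01Cor J e e x → G01Cor J e e y → m (x + y + x * y) = m x * m y)
    {a x : R} (ha : G01Cor J e e a) (hx : G01Cor J e e x) :
    m (x + a * x) = m (x + x * a) := by
  obtain ⟨c, hc, e1, -⟩ := G01_inv hJ ha
  have hne : m a ≠ 0 := by
    intro h0
    have := hm a c ha hc
    rw [e1, z, h0, zero_mul] at this
    exact one_ne_zero this
  have h1 := hm (x + a * x) a (hx.add (ha.mul hJ hx)) ha
  have h2 := hm a (x + x * a) ha (hx.add (hx.mul hJ ha))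
  have h3 : x + a * x + a + (x + a * x) * a = a + (x + x * a) + a * (x + x * a) := by
    noncomm_ring
  rw [h3, h2, mul_comm] at h1
  exact (mul_right_cancel₀ hne h1).symm

private noncomputable def G01M (e : R) (m₁ m₂ : R → ℂ) (y : R) : ℂ :=
  m₁ (e * y * e - (e * y * (1 - e)) * Ring.inverse (1 + (1 - e) * y * (1 - e)) *
    ((1 - e) * y * e)) * m₂ ((1 - e) * y * (1 - e))

private theorem G01_entries {e y p q r s : R} (hp : G01Cor J e e p) (hq : G01Cor J e (1 - e) q)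
    (hr : G01Cor J (1 - e) e r) (hs : G01Cor J (1 - e) (1 - e) s) (hy : y = p + q + r + s) :
    e * y * e = p ∧ e * y * (1 - e) = q ∧ (1 - e) * y * e = r ∧ (1 - e) * y * (1 - e) = s := by
  have h1 : e * y = p + q := by
    rw [hy, mul_add, mul_add, mul_add, hp.l, hq.l, hr.l0', hs.l0', add_zero, add_zero]
  have h2 : (1 - e) * y = r + s := by
    rw [hy, mul_add, mul_add, mul_add, hp.l0, hq.l0, hr.l, hs.l, add_zero, zero_add]
  refine ⟨?_, ?_, ?_, ?_⟩
  · rw [h1, add_mul, hp.r, hq.r0', add_zero]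
  · rw [h1, add_mul, hp.r0, hq.r, zero_add]
  · rw [h2, add_mul, hr.r, hs.r0', add_zero]
  · rw [h2, add_mul, hr.r0, hs.r, zero_add]

private theorem G01_fact (hJ : IsNilIdeal E J) {e : R} (m₁ m₂ : R → ℂ)
    {y u a d l : R} (hu : G01Cor J e (1 - e) u) (ha : G01Cor J e e a)
    (hd : G01Cor J (1 - e) (1 - e) d) (hl : G01Cor J (1 - e) e l)
    (h : 1 + y = (1 + u) * (1 + a + d) * (1 + l)) :
    G01M e m₁ m₂ y = m₁ a * m₂ d := by
  obtain ⟨c, hc, c1, c2⟩ := G01_inv hJ hd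
  have ua : u * a = 0 := hu.mul0' ha
  have al : a * l = 0 := ha.mul0 hl
  have t1 : G01Cor J e (1 - e) (u * (1 + d)) := by
    have : u * (1 + d) = u + u * d := by noncomm_ring
    rw [this]; exact hu.add (hu.mul hJ hd)
  have t2 : G01Cor J (1 - e) e ((1 + d) * l) := by
    have : (1 + d) * l = l + d * l := by noncomm_ring
    rw [this]; exact hl.add (hd.mul hJ hl)
  have t3 : G01Cor J e e (a + u * (1 + d) * l) := ha.add (t1.mul hJ hl)
  have hy : y = (a + u * (1 + d) * l) + u * (1 + d) + (1 + d) * l + d := by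
    have h0 : y = (1 + u) * (1 + a + d) * (1 + l) - 1 := by rw [← h]; abel
    rw [h0]
    have h1 : (1 + u) * (1 + a + d) * (1 + l) - 1 =
        (a + u * (1 + d) * l) + u * (1 + d) + (1 + d) * l + d + (u * a + a * l + (u * a) * l) := by
      noncomm_ring
    rw [h1, ua, al]
    simp
  obtain ⟨y11, y12, y21, y22⟩ := G01_entries t3 t1 t2 hd hy
  unfold G01M
  rw [y11, y12, y21, y22, G01_ringInverse c1 c2]
  congr 2
  have h1 : u * (1 + d) * (1 + c) * ((1 + d) * l) = u * (1 + d) * l + u * (1 + d) * (d + c + c * d) * l := by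
    noncomm_ring
  rw [h1, c2]
  simp

private theorem G01_exists (hJ : IsNilIdeal E J) {e : R} (he : e ∈ E) (hid : e * e = e) {y : R}
    (hy : y ∈ J) : ∃ u a d l, G01Cor J e (1 - e) u ∧ G01Cor J e e a ∧
      G01Cor J (1 - e) (1 - e) d ∧ G01Cor J (1 - e) e l ∧
      1 + y = (1 + u) * (1 + a + d) * (1 + l) := by
  have he' : 1 - e ∈ E := E.sub_mem E.one_mem he
  have hid' : (1 - e) * (1 - e) = 1 - e := by
    have : (1 - e) * (1 - e) = 1 - e + (e * e - e) := by noncomm_ring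
    rw [this, hid]; simp
  have key : ∀ f g : R, f ∈ E → g ∈ E → f * f = f → g * g = g → G01Cor J f g (f * y * g) := by
    intro f g hf hg hff hgg
    refine ⟨hJ.mulR _ hg _ (hJ.mulL _ hf _ hy), ?_, ?_⟩
    · rw [← mul_assoc, ← mul_assoc, hff]
    · rw [mul_assoc, hgg]
  have k11 := key e e he he hid hid
  have k12 := key e (1 - e) he he' hid hid'
  have k21 := key (1 - e) e he' he hid' hid
  have k22 := key (1 - e) (1 - e) he' he' hid' hid'
  set p := e * y * e with hp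
  set q := e * y * (1 - e) with hq
  set r := (1 - e) * y * e with hr
  set d := (1 - e) * y * (1 - e) with hdd
  have hsum : y = p + q + r + d := by rw [hp, hq, hr, hdd]; noncomm_ring
  obtain ⟨c, hc, c1, c2⟩ := G01_inv hJ k22
  have t1 : G01Cor J e (1 - e) (q * (1 + c)) := by
    have : q * (1 + c) = q + q * c := by noncomm_ring
    rw [this]; exact k12.add (k12.mul hJ hc)
  have t2 : G01Cor J (1 - e) e ((1 + c) * r) := by
    have : (1 + c) * r = r + c * r := by noncomm_ring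
    rw [this]; exact k21.add (hc.mul hJ k21)
  have t3 : G01Cor J e e (p + -(q * (1 + c) * r)) := k11.add (t1.mul hJ k21).neg
  refine ⟨q * (1 + c), p + -(q * (1 + c) * r), d, (1 + c) * r, t1, t3, k22, t2, ?_⟩
  have z1 : q * (1 + c) * (p + -(q * (1 + c) * r)) = 0 := t1.mul0' t3
  have z2 : (p + -(q * (1 + c) * r)) * ((1 + c) * r) = 0 := t3.mul0 t2
  have h1 : (1 + q * (1 + c)) * (1 + (p + -(q * (1 + c) * r)) + d) * (1 + (1 + c) * r) =
      1 + (p + q + r + d) +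
      (q * (d + c + c * d) + (d + c + d * c) * r + q * (d + c + c * d) * (1 + c) * r) +
      (q * (1 + c) * (p + -(q * (1 + c) * r)) * (1 + (1 + c) * r) +
        (p + -(q * (1 + c) * r)) * ((1 + c) * r)) := by
    noncomm_ring
  rw [h1, z1, z2, c1, c2, ← hsum]
  simp

/-- the middle exchange -/
private theorem G01_lu (hJ : IsNilIdeal E J) {e : R} {m₁ m₂ : R → ℂ} (z₁ : m₁ 0 = 1)
    (hm₁ : ∀ x y, G01Cor J e e x → G01Cor J e e y → m₁ (x + y + x * y) = m₁ x * m₁ y)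
    (hc : ∀ x y, G01Cor J e (1 - e) x → G01Cor J (1 - e) e y → m₁ (x * y) = m₂ (y * x))
    {l u : R} (hl : G01Cor J (1 - e) e l) (hu : G01Cor J e (1 - e) u) :
    ∃ u' a d l', G01Cor J e (1 - e) u' ∧ G01Cor J e e a ∧
      G01Cor J (1 - e) (1 - e) d ∧ G01Cor J (1 - e) e l' ∧
      (1 + l) * (1 + u) = (1 + u') * (1 + a + d) * (1 + l') ∧ m₁ a * m₂ d = 1 := by
  have hd : G01Cor J (1 - e) (1 - e) (l * u) := hl.mul hJ hu
  obtain ⟨c, hcc, c1, c2⟩ := G01_inv hJ hd
  have t1 : G01Cor J e (1 - e) (u * (1 + c)) := by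
    have : u * (1 + c) = u + u * c := by noncomm_ring
    rw [this]; exact hu.add (hu.mul hJ hcc)
  have t2 : G01Cor J (1 - e) e ((1 + c) * l) := by
    have : (1 + c) * l = l + c * l := by noncomm_ring
    rw [this]; exact hl.add (hcc.mul hJ hl)
  have t3 : G01Cor J e e (-(u * (1 + c) * l)) := (t1.mul hJ hl).neg
  refine ⟨u * (1 + c), -(u * (1 + c) * l), l * u, (1 + c) * l, t1, t3, hd, t2, ?_, ?_⟩
  · have z1 : u * (1 + c) * (-(u * (1 + c) * l)) = 0 := t1.mul0' t3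
    have z2 : (-(u * (1 + c) * l)) * ((1 + c) * l) = 0 := t3.mul0 t2
    have h1 : (1 + u * (1 + c)) * (1 + -(u * (1 + c) * l) + l * u) * (1 + (1 + c) * l) =
        (1 + l) * (1 + u) +
        (u * (l * u + c + c * (l * u)) + (l * u + c + l * u * c) * l +
          u * (l * u + c + c * (l * u)) * (1 + c) * l) +
        (u * (1 + c) * (-(u * (1 + c) * l)) * (1 + (1 + c) * l) +
          (-(u * (1 + c) * l)) * ((1 + c) * l)) := by
      noncomm_ring
    rw [h1, z1, z2, c1, c2]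
    simp
  · rw [← hc u l hu hl]
    have hb : G01Cor J e e (u * l) := hu.mul hJ hl
    rw [← hm₁ _ _ t3 hb, ← z₁]
    congr 1
    have : -(u * (1 + c) * l) + u * l + -(u * (1 + c) * l) * (u * l) =
        -(u * (l * u + c + c * (l * u)) * l) := by noncomm_ring
    rw [this, c2]
    simp

private theorem G01_hom (hJ : IsNilIdeal E J) {e : R} (he : e ∈ E) (hid : e * e = e)
    {m₁ m₂ : R → ℂ} (z₁ : m₁ 0 = 1)
    (hm₁ : ∀ x y, G01Cor J e e x → G01Cor J e e y → m₁ (x + y + x * y) = m₁ x * m₁ y)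
    (hm₂ : ∀ x y, G01Cor J (1 - e) (1 - e) x → G01Cor J (1 - e) (1 - e) y →
      m₂ (x + y + x * y) = m₂ x * m₂ y)
    (hc : ∀ x y, G01Cor J e (1 - e) x → G01Cor J (1 - e) e y → m₁ (x * y) = m₂ (y * x))
    {x y : R} (hx : x ∈ J) (hy : y ∈ J) :
    G01M e m₁ m₂ (x + y + x * y) = G01M e m₁ m₂ x * G01M e m₁ m₂ y := by
  obtain ⟨u, a, d, l, hu, ha, hd, hl, hX⟩ := G01_exists hJ he hid hx
  obtain ⟨u', a', d', l', hu', ha', hd', hl', hY⟩ := G01_exists hJ he hid hy
  obtain ⟨u₂, a₂, d₂, l₂, hu₂, ha₂, hd₂, hl₂, hZ, hval⟩ := G01_lu hJ z₁ hm₁ hc hl hu'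
  obtain ⟨c, hcc, c1, c2⟩ := G01_inv hJ hd
  obtain ⟨c', hcc', c1', c2'⟩ := G01_inv hJ hd'
  -- move `1 + u₂` to the left
  have hu₃ : G01Cor J e (1 - e) (u₂ + a * u₂ + (u₂ + a * u₂) * c) := by
    have t := hu₂.add (ha.mul hJ hu₂)
    exact t.add (t.mul hJ hcc)
  have e4 : (1 + a + d) * (1 + u₂) = (1 + (u₂ + a * u₂ + (u₂ + a * u₂) * c)) * (1 + a + d) := by
    have w1 : d * u₂ = 0 := hd.mul0' hu₂
    have w2 : (u₂ + a * u₂ + (u₂ + a * u₂) * c) * a = 0 := hu₃.mul0' ha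
    have : (1 + (u₂ + a * u₂ + (u₂ + a * u₂) * c)) * (1 + a + d) =
        (1 + a + d) * (1 + u₂) - d * u₂ + (u₂ + a * u₂ + (u₂ + a * u₂) * c) * a +
          (u₂ + a * u₂) * (d + c + c * d) := by noncomm_ring
    rw [this, w1, w2, c2]
    simp
  set u₃ := u₂ + a * u₂ + (u₂ + a * u₂) * c with hu₃def
  have hl₃ : G01Cor J (1 - e) e (l₂ + l₂ * a' + c' * (l₂ + l₂ * a')) := by
    have t := hl₂.add (hl₂.mul hJ ha')
    exact t.add (hcc'.mul hJ t)
  have e5 : (1 + l₂) * (1 + a' + d') =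
      (1 + a' + d') * (1 + (l₂ + l₂ * a' + c' * (l₂ + l₂ * a'))) := by
    have w1 : l₂ * d' = 0 := hl₂.mul0 hd'
    have w2 : a' * (l₂ + l₂ * a' + c' * (l₂ + l₂ * a')) = 0 := ha'.mul0 hl₃
    have : (1 + a' + d') * (1 + (l₂ + l₂ * a' + c' * (l₂ + l₂ * a'))) =
        (1 + l₂) * (1 + a' + d') - l₂ * d' + a' * (l₂ + l₂ * a' + c' * (l₂ + l₂ * a')) +
          (d' + c' + d' * c') * (l₂ + l₂ * a') := by noncomm_ring
    rw [this, w1, w2, c1']
    simp
  set l₃ := l₂ + l₂ * a' + c' * (l₂ + l₂ * a') with hl₃def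
  -- the diagonal part
  have hA1 : G01Cor J e e (a + a₂ + a * a₂) := (ha.add ha₂).add (ha.mul hJ ha₂)
  have hA : G01Cor J e e ((a + a₂ + a * a₂) + a' + (a + a₂ + a * a₂) * a') :=
    (hA1.add ha').add (hA1.mul hJ ha')
  have hD1 : G01Cor J (1 - e) (1 - e) (d + d₂ + d * d₂) := (hd.add hd₂).add (hd.mul hJ hd₂)
  have hD : G01Cor J (1 - e) (1 - e) ((d + d₂ + d * d₂) + d' + (d + d₂ + d * d₂) * d') :=
    (hD1.add hd').add (hD1.mul hJ hd')
  have e6 : (1 + a + d) * (1 + a₂ + d₂) = 1 + (a + a₂ + a * a₂) + (d + d₂ + d * d₂) := by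
    have w1 : a * d₂ = 0 := ha.mul0 hd₂
    have w2 : d * a₂ = 0 := hd.mul0' ha₂
    have : (1 + a + d) * (1 + a₂ + d₂) =
        1 + (a + a₂ + a * a₂) + (d + d₂ + d * d₂) + a * d₂ + d * a₂ := by noncomm_ring
    rw [this, w1, w2, add_zero, add_zero]
  have e7 : (1 + (a + a₂ + a * a₂) + (d + d₂ + d * d₂)) * (1 + a' + d') =
      1 + ((a + a₂ + a * a₂) + a' + (a + a₂ + a * a₂) * a') +
        ((d + d₂ + d * d₂) + d' + (d + d₂ + d * d₂) * d') := by
    have w1 : (a + a₂ + a * a₂) * d' = 0 := hA1.mul0 hd'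
    have w2 : (d + d₂ + d * d₂) * a' = 0 := hD1.mul0' ha'
    have : (1 + (a + a₂ + a * a₂) + (d + d₂ + d * d₂)) * (1 + a' + d') =
      1 + ((a + a₂ + a * a₂) + a' + (a + a₂ + a * a₂) * a') +
        ((d + d₂ + d * d₂) + d' + (d + d₂ + d * d₂) * d') +
        (a + a₂ + a * a₂) * d' + (d + d₂ + d * d₂) * a' := by noncomm_ring
    rw [this, w1, w2, add_zero, add_zero]
  have e8 : (1 + u) * (1 + u₃) = 1 + (u + u₃) := by
    have w : u * u₃ = 0 := hu.mul0' hu₃
    have : (1 + u) * (1 + u₃) = 1 + (u + u₃) + u * u₃ := by noncomm_ring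
    rw [this, w, add_zero]
  have e9 : (1 + l₃) * (1 + l') = 1 + (l₃ + l') := by
    have w : l₃ * l' = 0 := hl₃.mul0 hl'
    have : (1 + l₃) * (1 + l') = 1 + (l₃ + l') + l₃ * l' := by noncomm_ring
    rw [this, w, add_zero]
  have hXY : 1 + (x + y + x * y) = (1 + (u + u₃)) *
      (1 + ((a + a₂ + a * a₂) + a' + (a + a₂ + a * a₂) * a') +
        ((d + d₂ + d * d₂) + d' + (d + d₂ + d * d₂) * d')) * (1 + (l₃ + l')) := by
    calc 1 + (x + y + x * y) = (1 + x) * (1 + y) := by noncomm_ring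
      _ = ((1 + u) * (1 + a + d) * (1 + l)) * ((1 + u') * (1 + a' + d') * (1 + l')) := by
        rw [hX, hY]
      _ = (1 + u) * (1 + a + d) * ((1 + l) * (1 + u')) * (1 + a' + d') * (1 + l') := by
        simp only [mul_assoc]
      _ = (1 + u) * ((1 + a + d) * (1 + u₂)) * (1 + a₂ + d₂) * ((1 + l₂) * (1 + a' + d')) *
          (1 + l') := by
        rw [hZ]; simp only [mul_assoc]
      _ = ((1 + u) * (1 + u₃)) * (((1 + a + d) * (1 + a₂ + d₂)) * (1 + a' + d')) *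
          ((1 + l₃) * (1 + l')) := by
        rw [e4, e5]; simp only [mul_assoc]
      _ = _ := by rw [e8, e9, e6, e7]
  rw [G01_fact hJ m₁ m₂ (hu.add hu₃) hA hD (hl₃.add hl') hXY,
    G01_fact hJ m₁ m₂ hu ha hd hl hX, G01_fact hJ m₁ m₂ hu' ha' hd' hl' hY,
    hm₁ _ _ hA1 ha', hm₁ _ _ ha ha₂, hm₂ _ _ hD1 hd', hm₂ _ _ hd hd₂]
  linear_combination (m₁ a * m₁ a' * m₂ d * m₂ d') * hval

end G01

theorem glue {R : Type} [Ring R] (E : Subring R) (J : Submodule ℤ R) (hJ : IsNilIdeal E J)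
    (ε : R) (hε : ε ∈ E) (hid : ε * ε = ε)
    (h12 : ∀ x ∈ E, ε * x * (1 - ε) ∈ J) (h21 : ∀ x ∈ E, (1 - ε) * x * ε ∈ J)
    (m₁ m₂ : R → ℂ) (z₁ : m₁ 0 = 1) (z₂ : m₂ 0 = 1)
    (hm₁ : ∀ x ∈ J, ∀ y ∈ J, ε * x * ε = x → ε * y * ε = y → m₁ (x + y + x * y) = m₁ x * m₁ y)
    (hm₂ : ∀ x ∈ J, ∀ y ∈ J, (1 - ε) * x * (1 - ε) = x → (1 - ε) * y * (1 - ε) = y →
      m₂ (x + y + x * y) = m₂ x * m₂ y)
    (hs₁ : ∀ f ∈ E, ∀ x ∈ J, ε * f * ε = f → ε * x * ε = x → m₁ (f * x) = m₁ (x * f))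
    (hs₂ : ∀ f ∈ E, ∀ x ∈ J, (1 - ε) * f * (1 - ε) = f → (1 - ε) * x * (1 - ε) = x →
      m₂ (f * x) = m₂ (x * f))
    (hc : ∀ x ∈ E, ∀ y ∈ E, ε * x * (1 - ε) = x → (1 - ε) * y * ε = y → m₁ (x * y) = m₂ (y * x)) :
    ∃ m : R → ℂ, IsHom J m ∧ IsSym E J m ∧ (∀ x ∈ J, ε * x * ε = x → m x = m₁ x) ∧
      ∀ x ∈ J, (1 - ε) * x * (1 - ε) = x → m x = m₂ x := by
  have hε' : 1 - ε ∈ E := E.sub_mem E.one_mem hε
  have hid' : (1 - ε) * (1 - ε) = 1 - ε := by
    have : (1 - ε) * (1 - ε) = 1 - ε + (ε * ε - ε) := by noncomm_ring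
    rw [this, hid]; simp
  have hm₁' : ∀ x y, G01Cor J ε ε x → G01Cor J ε ε y → m₁ (x + y + x * y) = m₁ x * m₁ y :=
    fun x y hx hy => hm₁ x hx.mem y hy.mem (by rw [hx.l, hx.r]) (by rw [hy.l, hy.r])
  have hm₂' : ∀ x y, G01Cor J (1 - ε) (1 - ε) x → G01Cor J (1 - ε) (1 - ε) y →
      m₂ (x + y + x * y) = m₂ x * m₂ y :=
    fun x y hx hy => hm₂ x hx.mem y hy.mem (by rw [hx.l, hx.r]) (by rw [hy.l, hy.r])
  have hc' : ∀ x y, G01Cor J ε (1 - ε) x → G01Cor J (1 - ε) ε y → m₁ (x * y) = m₂ (y * x) :=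
    fun x y hx hy => hc x (hJ.le _ hx.mem) y (hJ.le _ hy.mem) (by rw [hx.l, hx.r])
      (by rw [hy.l, hy.r])
  have hM0 : G01M ε m₁ m₂ 0 = 1 := by
    unfold G01M
    simp [z₁, z₂]
  have hhom : IsHom J (G01M ε m₁ m₂) :=
    ⟨hM0, fun x hx y hy => G01_hom hJ hε hid z₁ hm₁' hm₂' hc' hx hy⟩
  have hinv1 : Ring.inverse (1 : R) = 1 := Ring.inverse_one R
  refine ⟨G01M ε m₁ m₂, hhom, ?_, ?_, ?_⟩
  · intro f hf
    -- the four parts of `f`
    have s11 : ∀ x ∈ J, G01M ε m₁ m₂ ((ε * f * ε) * x) = G01M ε m₁ m₂ (x * (ε * f * ε)) := by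
      intro x hx
      have hfE : ε * f * ε ∈ E := E.mul_mem (E.mul_mem hε hf) hε
      have f1 : ε * (ε * f * ε) = ε * f * ε := by rw [← mul_assoc, ← mul_assoc, hid]
      have f2 : (ε * f * ε) * ε = ε * f * ε := by rw [mul_assoc, hid]
      have f3 : (1 - ε) * (ε * f * ε) = 0 := by rw [sub_mul, one_mul, f1, sub_self]
      have f4 : (ε * f * ε) * (1 - ε) = 0 := by rw [mul_sub, mul_one, f2, sub_self]
      set g := ε * f * ε with hg
      have e1 : G01M ε m₁ m₂ (g * x) = m₁ (g * (ε * x * ε)) := by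
        unfold G01M
        have a1 : ε * (g * x) * ε = g * (ε * x * ε) := by
          rw [← mul_assoc, f1]
          have : g * (ε * x * ε) = (g * ε) * x * ε := by simp only [mul_assoc]
          rw [this, f2]
        have a2 : (1 - ε) * (g * x) = 0 := by rw [← mul_assoc, f3, zero_mul]
        rw [a1, a2]
        simp [z₂]
      have e2 : G01M ε m₁ m₂ (x * g) = m₁ ((ε * x * ε) * g) := by
        unfold G01M
        have a1 : ε * (x * g) * ε = (ε * x * ε) * g := by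
          have h1 : ε * (x * g) * ε = ε * x * (g * ε) := by simp only [mul_assoc]
          have h2 : (ε * x * ε) * g = ε * x * (ε * g) := by simp only [mul_assoc]
          rw [h1, h2, f1, f2]
        have a2 : ε * (x * g) * (1 - ε) = 0 := by
          have : ε * (x * g) * (1 - ε) = ε * x * (g * (1 - ε)) := by simp only [mul_assoc]
          rw [this, f4, mul_zero]
        have a3 : (1 - ε) * (x * g) * (1 - ε) = 0 := by
          have : (1 - ε) * (x * g) * (1 - ε) = (1 - ε) * x * (g * (1 - ε)) := by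
            simp only [mul_assoc]
          rw [this, f4, mul_zero]
        rw [a1, a2, a3]
        simp [z₂]
      rw [e1, e2]
      refine hs₁ g hfE _ (hJ.mulR _ hε _ (hJ.mulL _ hε _ hx)) ?_ ?_
      · rw [f1, f2]
      · have : ε * (ε * x * ε) * ε = (ε * ε) * x * (ε * ε) := by simp only [mul_assoc]
        rw [this, hid]
    have s22 : ∀ x ∈ J, G01M ε m₁ m₂ (((1 - ε) * f * (1 - ε)) * x) =
        G01M ε m₁ m₂ (x * ((1 - ε) * f * (1 - ε))) := by
      intro x hx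
      have hfE : (1 - ε) * f * (1 - ε) ∈ E := E.mul_mem (E.mul_mem hε' hf) hε'
      have z : ε * (1 - ε) = 0 := by rw [mul_sub, mul_one, hid, sub_self]
      have z' : (1 - ε) * ε = 0 := by rw [sub_mul, one_mul, hid, sub_self]
      have f1 : (1 - ε) * ((1 - ε) * f * (1 - ε)) = (1 - ε) * f * (1 - ε) := by
        rw [← mul_assoc, ← mul_assoc, hid']
      have f2 : ((1 - ε) * f * (1 - ε)) * (1 - ε) = (1 - ε) * f * (1 - ε) := by
        rw [mul_assoc, hid']
      have f3 : ε * ((1 - ε) * f * (1 - ε)) = 0 := by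
        rw [← mul_assoc, ← mul_assoc, z, zero_mul, zero_mul]
      have f4 : ((1 - ε) * f * (1 - ε)) * ε = 0 := by rw [mul_assoc, z', mul_zero]
      set g := (1 - ε) * f * (1 - ε) with hg
      have e1 : G01M ε m₁ m₂ (g * x) = m₂ (g * ((1 - ε) * x * (1 - ε))) := by
        unfold G01M
        have a1 : (1 - ε) * (g * x) * (1 - ε) = g * ((1 - ε) * x * (1 - ε)) := by
          rw [← mul_assoc, f1]
          have : g * ((1 - ε) * x * (1 - ε)) = (g * (1 - ε)) * x * (1 - ε) := by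
            simp only [mul_assoc]
          rw [this, f2]
        have a2 : ε * (g * x) = 0 := by rw [← mul_assoc, f3, zero_mul]
        rw [a1, a2]
        simp [z₁]
      have e2 : G01M ε m₁ m₂ (x * g) = m₂ (((1 - ε) * x * (1 - ε)) * g) := by
        unfold G01M
        have a1 : (1 - ε) * (x * g) * (1 - ε) = ((1 - ε) * x * (1 - ε)) * g := by
          have h1 : (1 - ε) * (x * g) * (1 - ε) = (1 - ε) * x * (g * (1 - ε)) := by
            simp only [mul_assoc]
          have h2 : ((1 - ε) * x * (1 - ε)) * g = (1 - ε) * x * ((1 - ε) * g) := by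
            simp only [mul_assoc]
          rw [h1, h2, f1, f2]
        have a2 : ε * (x * g) * ε = 0 := by
          have : ε * (x * g) * ε = ε * x * (g * ε) := by simp only [mul_assoc]
          rw [this, f4, mul_zero]
        have a3 : (1 - ε) * (x * g) * ε = 0 := by
          have : (1 - ε) * (x * g) * ε = (1 - ε) * x * (g * ε) := by simp only [mul_assoc]
          rw [this, f4, mul_zero]
        rw [a1, a2, a3]
        simp [z₁]
      rw [e1, e2]
      refine hs₂ g hfE _ (hJ.mulR _ hε' _ (hJ.mulL _ hε' _ hx)) ?_ ?_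
      · rw [f1, f2]
      · have : (1 - ε) * ((1 - ε) * x * (1 - ε)) * (1 - ε) =
            ((1 - ε) * (1 - ε)) * x * ((1 - ε) * (1 - ε)) := by simp only [mul_assoc]
        rw [this, hid']
    have s12 := stab_self hJ hhom (h12 f hf)
    have s21 := stab_self hJ hhom (h21 f hf)
    have q1 : ε * f * ε ∈ E := E.mul_mem (E.mul_mem hε hf) hε
    have q2 : (1 - ε) * f * (1 - ε) ∈ E := E.mul_mem (E.mul_mem hε' hf) hε'
    have q3 := hJ.le _ (h12 f hf)
    have q4 := hJ.le _ (h21 f hf)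
    have h1 := stab_add hJ hhom q1 q2 s11 s22
    have h2 := stab_add hJ hhom q3 q4 s12 s21
    have h3 := stab_add hJ hhom (E.add_mem q1 q2) (E.add_mem q3 q4) h1 h2
    have hsum : ε * f * ε + (1 - ε) * f * (1 - ε) + (ε * f * (1 - ε) + (1 - ε) * f * ε) = f := by
      noncomm_ring
    rw [hsum] at h3
    exact h3
  · intro x hx hex
    have l1 : ε * x = x := by
      have : ε * x = (ε * ε) * x * ε := by rw [mul_assoc, mul_assoc, ← mul_assoc ε x ε, hex]
      rw [this, hid, hex]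
    have r1 : x * ε = x := by
      have : x * ε = ε * x * (ε * ε) := by rw [← mul_assoc, hex]
      rw [this, hid, hex]
    have l2 : (1 - ε) * x = 0 := by rw [sub_mul, one_mul, l1, sub_self]
    unfold G01M
    rw [l2, hex]
    simp [z₂]
  · intro x hx hex
    have l1 : (1 - ε) * x = x := by
      have : (1 - ε) * x = ((1 - ε) * (1 - ε)) * x * (1 - ε) := by
        rw [mul_assoc, mul_assoc, ← mul_assoc (1 - ε) x (1 - ε), hex]
      rw [this, hid', hex]
    have r1 : x * (1 - ε) = x := by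
      have : x * (1 - ε) = (1 - ε) * x * ((1 - ε) * (1 - ε)) := by rw [← mul_assoc, hex]
      rw [this, hid', hex]
    have l2 : ε * x = 0 := by
      rw [sub_mul, one_mul, sub_eq_self] at l1
      exact l1
    have r2 : x * ε = 0 := by
      rw [mul_sub, mul_one, sub_eq_self] at r1
      exact r1
    unfold G01M
    rw [l2, hex, l1, r2]
    simp [z₁]

/-- Additivity of the cross condition. -/
theorem cross_add {R : Type} [Ring R] (E : Subring R) (J : Submodule ℤ R) (hJ : IsNilIdeal E J)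
    (ε : R) (hε : ε ∈ E) (hid : ε * ε = ε)
    (h12 : ∀ x ∈ E, ε * x * (1 - ε) ∈ J) (h21 : ∀ x ∈ E, (1 - ε) * x * ε ∈ J)
    (m₁ m₂ : R → ℂ)
    (hm₁ : ∀ x ∈ J, ∀ y ∈ J, ε * x * ε = x → ε * y * ε = y → m₁ (x + y + x * y) = m₁ x * m₁ y)
    (hm₂ : ∀ x ∈ J, ∀ y ∈ J, (1 - ε) * x * (1 - ε) = x → (1 - ε) * y * (1 - ε) = y →
      m₂ (x + y + x * y) = m₂ x * m₂ y)
    {x₁ x₂ : R} (hx₁ : x₁ ∈ E) (hx₂ : x₂ ∈ E) (e₁ : ε * x₁ * (1 - ε) = x₁)
    (e₂ : ε * x₂ * (1 - ε) = x₂)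
    (c₁ : ∀ y ∈ E, (1 - ε) * y * ε = y → m₁ (x₁ * y) = m₂ (y * x₁))
    (c₂ : ∀ y ∈ E, (1 - ε) * y * ε = y → m₁ (x₂ * y) = m₂ (y * x₂)) :
    ∀ y ∈ E, (1 - ε) * y * ε = y → m₁ ((x₁ + x₂) * y) = m₂ (y * (x₁ + x₂)) := by
  have hε' : 1 - ε ∈ E := E.sub_mem E.one_mem hε
  have hid' : (1 - ε) * (1 - ε) = 1 - ε := by
    have : (1 - ε) * (1 - ε) = 1 - ε + (ε * ε - ε) := by noncomm_ring
    rw [this, hid]; simp
  have hm₁' : ∀ x y, G01Cor J ε ε x → G01Cor J ε ε y → m₁ (x + y + x * y) = m₁ x * m₁ y :=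
    fun x y hx hy => hm₁ x hx.mem y hy.mem (by rw [hx.l, hx.r]) (by rw [hy.l, hy.r])
  have hm₂' : ∀ x y, G01Cor J (1 - ε) (1 - ε) x → G01Cor J (1 - ε) (1 - ε) y →
      m₂ (x + y + x * y) = m₂ x * m₂ y :=
    fun x y hx hy => hm₂ x hx.mem y hy.mem (by rw [hx.l, hx.r]) (by rw [hy.l, hy.r])
  have mk : ∀ p q x : R, p * p = p → q * q = q → p * x * q = x → x ∈ J → G01Cor J p q x := by
    intro p q x hp hq hx hxJ
    refine ⟨hxJ, ?_, ?_⟩
    · have : p * x = (p * p) * x * q := by rw [mul_assoc, mul_assoc, ← mul_assoc p x q, hx]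
      rw [this, hp, hx]
    · have : x * q = p * x * (q * q) := by rw [← mul_assoc, hx]
      rw [this, hq, hx]
  intro y hy ey
  have hyJ : y ∈ J := by rw [← ey]; exact h21 y hy
  have hx₁J : x₁ ∈ J := by rw [← e₁]; exact h12 x₁ hx₁
  have hx₂J : x₂ ∈ J := by rw [← e₂]; exact h12 x₂ hx₂
  have X₁ := mk _ _ _ hid hid' e₁ hx₁J
  have X₂ := mk _ _ _ hid hid' e₂ hx₂J
  have Y := mk _ _ _ hid' hid ey hyJ
  have ha : G01Cor J ε ε (x₁ * y) := X₁.mul hJ Y
  have hb : G01Cor J ε ε (x₂ * y) := X₂.mul hJ Y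
  have ha' : G01Cor J (1 - ε) (1 - ε) (y * x₁) := Y.mul hJ X₁
  have hb' : G01Cor J (1 - ε) (1 - ε) (y * x₂) := Y.mul hJ X₂
  obtain ⟨c, hc, c1, c2⟩ := G01_inv hJ ha
  obtain ⟨c', hc', c1', c2'⟩ := G01_inv hJ ha'
  have t : G01Cor J ε ε (x₂ * y + c * (x₂ * y)) := hb.add (hc.mul hJ hb)
  have t' : G01Cor J (1 - ε) (1 - ε) (y * x₂ + c' * (y * x₂)) := hb'.add (hc'.mul hJ hb')
  have r1 : m₁ ((x₁ + x₂) * y) = m₁ (x₁ * y) * m₁ (x₂ * y + c * (x₂ * y)) := by
    rw [← hm₁' _ _ ha t]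
    congr 1
    have : x₁ * y + (x₂ * y + c * (x₂ * y)) + x₁ * y * (x₂ * y + c * (x₂ * y)) =
        (x₁ + x₂) * y + (x₁ * y + c + x₁ * y * c) * (x₂ * y) := by noncomm_ring
    rw [this, c1]
    simp
  have r2 : m₂ (y * (x₁ + x₂)) = m₂ (y * x₁) * m₂ (y * x₂ + c' * (y * x₂)) := by
    rw [← hm₂' _ _ ha' t']
    congr 1
    have : y * x₁ + (y * x₂ + c' * (y * x₂)) + y * x₁ * (y * x₂ + c' * (y * x₂)) =
        y * (x₁ + x₂) + (y * x₁ + c' + y * x₁ * c') * (y * x₂) := by noncomm_ring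
    rw [this, c1']
    simp
  have hcy : c' * y = y * c := by
    have h1 : c' * y = (c' + (y * x₁ + c' + c' * (y * x₁)) * c') * y +
        (c' * y * (x₁ * y + c + x₁ * y * c) - (y * x₁ + c' + c' * (y * x₁)) * c' * y) := by
      rw [c1, c2']; simp
    have h2 : (1 + c') * y * (1 + x₁ * y) = y + (y * x₁ + c' + c' * (y * x₁)) * y := by
      noncomm_ring
    rw [c2', zero_mul, add_zero] at h2
    have h3 : (1 + x₁ * y) * (1 + c) = 1 := by
      have : (1 + x₁ * y) * (1 + c) = 1 + (x₁ * y + c + x₁ * y * c) := by noncomm_ring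
      rw [this, c1, add_zero]
    have h4 : (1 + c') * y = y * (1 + c) := by
      calc (1 + c') * y = (1 + c') * y * ((1 + x₁ * y) * (1 + c)) := by rw [h3, mul_one]
        _ = ((1 + c') * y * (1 + x₁ * y)) * (1 + c) := by rw [mul_assoc ((1 + c') * y)]
        _ = y * (1 + c) := by rw [h2]
    rw [add_mul, mul_add, one_mul, mul_one] at h4
    exact add_left_cancel h4
  rw [r1, r2]
  by_cases h0 : m₁ 0 = 0
  · have hz : m₁ (x₁ * y) = 0 := by
      have := hm₁' _ _ ha (G01Cor.zero (J := J) (e := ε) (f := ε))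
      rw [h0, mul_zero] at this
      simpa using this
    rw [hz, ← c₁ y hy ey, hz, zero_mul, zero_mul]
  · have z₁ : m₁ 0 = 1 := by
      have := hm₁' _ _ (G01Cor.zero (J := J) (e := ε) (f := ε))
        (G01Cor.zero (J := J) (e := ε) (f := ε))
      simp only [mul_zero, add_zero] at this
      have h1 : m₁ 0 * (m₁ 0 - 1) = 0 := by linear_combination -this
      rcases mul_eq_zero.1 h1 with h | h
      · exact absurd h h0
      · linear_combination h
    have k1 := G01_conj hJ z₁ hm₁' hc hb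
    have hyc : G01Cor J (1 - ε) ε (y + y * c) := Y.add (Y.mul hJ hc)
    have k2 := c₂ (y + y * c) (hJ.le _ hyc.mem) (by rw [hyc.l, hyc.r])
    have k3 : x₂ * (y + y * c) = x₂ * y + x₂ * y * c := by noncomm_ring
    have k4 : (y + y * c) * x₂ = y * x₂ + c' * (y * x₂) := by
      rw [add_mul, ← hcy, mul_assoc]
    rw [k1, ← k3, k2, k4, c₁ y hy ey]

end Pool.Agent.Lib.MP_fa0f6c_al.Cx
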