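import Pool.Agent.Lib.MP_fa0f6c_al.Cx.G01

set_option autoImplicit false

namespace Pool.Agent.Lib.MP_fa0f6c_al.Cx

/-- Gluing along a family of orthogonal idempotents. PROOF: induction on a finite set `T` of indices, with `ε_T = ∑ p ∈ T, e p`, of:
there is `m_T : R → ℂ` with `m_T 0 = 1`, multiplicative for `x, y ∈ J` with `ε_T x ε_T = x`, `ε_T y ε_T = y`, (T) for `f ∈ E`, `x ∈ J`
with `ε_T f ε_T = f`, `ε_T x ε_T = x`, and `m_T x = μ p x` for `p ∈ T`, `x ∈ J`, `e p x e p = x`.
Step `T' = insert p T`: apply `glue` (G01) to `E' = {x ∈ E | ε' x (1 - ε') = 0, (1 - ε') x ε' = 0}` (`ε' = ε_T'`; a subring),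
`J' = {x ∈ J | ε' x ε' = x}` (a nilpotent ideal of `E'`), `ε = ε_T`, `m₁ = m_T`, `m₂ = μ p`. Note that for `x ∈ J'`:
`(1 - ε) x (1 - ε) = e p x e p`. Cross condition `m_T (x y) = μ p (y x)` for `x = ε_T x (1 - ε_T) = ∑ r ∈ T, e r x e p`:
by `cross_add` and induction over the sum it is enough to treat `x = e r x e p`, `r ∈ T`: by (T) for `m_T` with `f = e r`:
`m_T (x y) = m_T (e r x y) = m_T (x y e r) = μ r (x (y e r)) = μ p (y e r x) = μ p (y x)`. -/
theorem glue_family {R : Type} [Ring R] (E : Subring R) (J : Submodule ℤ R) (hJ : IsNilIdeal E J)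
    {ι : Type} [Fintype ι] [DecidableEq ι] (e : ι → R) (he : ∀ p, e p ∈ E)
    (hid : ∀ p, e p * e p = e p) (hort : ∀ p r, p ≠ r → e p * e r = 0) (hsum : ∑ p, e p = 1)
    (hoff : ∀ p r, p ≠ r → ∀ x ∈ E, e p * x * e r ∈ J) (μ : ι → R → ℂ) (h0 : ∀ p, μ p 0 = 1)
    (hhom : ∀ p, ∀ x ∈ J, ∀ y ∈ J, e p * x * e p = x → e p * y * e p = y →
      μ p (x + y + x * y) = μ p x * μ p y)
    (hsym : ∀ p, ∀ f ∈ E, ∀ x ∈ J, e p * f * e p = f → e p * x * e p = x →
      μ p (f * x) = μ p (x * f))
    (hc : ∀ p r, p ≠ r → ∀ x ∈ E, ∀ y ∈ E, e p * x * e r = x → e r * y * e p = y →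
      μ p (x * y) = μ r (y * x)) :
    ∃ m : R → ℂ, IsHom J m ∧ IsSym E J m ∧ ∀ p, ∀ x ∈ J, e p * x * e p = x → m x = μ p x := by
  classical
  -- one-sided identities from two-sided ones
  have hl : ∀ a b x : R, a * a = a → a * x * b = x → a * x = x := by
    intro a b x ha hx
    calc a * x = a * (a * x * b) := by rw [hx]
      _ = (a * a) * x * b := by simp only [mul_assoc]
      _ = x := by rw [ha, hx]
  have hr : ∀ a b x : R, b * b = b → a * x * b = x → x * b = x := by
    intro a b x hb hx
    calc x * b = (a * x * b) * b := by rw [hx]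
      _ = a * x * (b * b) := by simp only [mul_assoc]
      _ = x := by rw [hb, hx]
  have main : ∀ T : Finset ι, ∃ m : R → ℂ, m 0 = 1 ∧
      (∀ x ∈ J, ∀ y ∈ J, (∑ q ∈ T, e q) * x * (∑ q ∈ T, e q) = x →
        (∑ q ∈ T, e q) * y * (∑ q ∈ T, e q) = y → m (x + y + x * y) = m x * m y) ∧
      (∀ f ∈ E, ∀ x ∈ J, (∑ q ∈ T, e q) * f * (∑ q ∈ T, e q) = f →
        (∑ q ∈ T, e q) * x * (∑ q ∈ T, e q) = x → m (f * x) = m (x * f)) ∧
      (∀ p ∈ T, ∀ x ∈ J, e p * x * e p = x → m x = μ p x) := by
    intro T
    induction T using Finset.induction_on with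
    | empty =>
      refine ⟨fun _ => 1, rfl, fun _ _ _ _ _ _ => (one_mul _).symm, fun _ _ _ _ _ _ => rfl, ?_⟩
      intro p hp
      exact absurd hp (Finset.notMem_empty p)
    | insert p T hpT ih =>
      obtain ⟨mT, z₁, hT1, hT2, hT3⟩ := ih
      rw [Finset.sum_insert hpT]
      set ε := ∑ q ∈ T, e q with hε
      have hεE : ε ∈ E := sum_mem fun q _ => he q
      have hqε : ∀ q ∈ T, e q * ε = e q := by
        intro q hq
        rw [hε, Finset.mul_sum, Finset.sum_eq_single q]
        · exact hid q
        · intro r _ hr'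
          exact hort q r hr'.symm
        · intro h; exact absurd hq h
      have hεq : ∀ q ∈ T, ε * e q = e q := by
        intro q hq
        rw [hε, Finset.sum_mul, Finset.sum_eq_single q]
        · exact hid q
        · intro r _ hr'
          exact hort r q hr'
        · intro h; exact absurd hq h
      have hεε : ε * ε = ε := by
        conv_lhs => rw [hε, Finset.sum_mul]
        rw [hε]
        exact Finset.sum_congr rfl fun q hq => hqε q hq
      have hpε : e p * ε = 0 := by
        rw [hε, Finset.mul_sum]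
        refine Finset.sum_eq_zero fun q hq => hort p q ?_
        rintro rfl
        exact hpT hq
      have hεp : ε * e p = 0 := by
        rw [hε, Finset.sum_mul]
        refine Finset.sum_eq_zero fun q hq => hort q p ?_
        rintro rfl
        exact hpT hq
      obtain ⟨ε', hε'⟩ : ∃ ε' : R, ε' = e p + ε := ⟨_, rfl⟩
      rw [← hε']
      have hε'E : ε' ∈ E := by rw [hε']; exact E.add_mem (he p) hεE
      have k1 : ε' * ε = ε := by rw [hε', add_mul, hpε, hεε, zero_add]
      have k2 : ε * ε' = ε := by rw [hε', mul_add, hεp, hεε, zero_add]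
      have k3 : ε' * e p = e p := by rw [hε', add_mul, hid, hεp, add_zero]
      have k4 : e p * ε' = e p := by rw [hε', mul_add, hid, hpε, add_zero]
      have k5 : ε' * ε' = ε' := by
        calc ε' * ε' = ε' * (e p + ε) := by rw [← hε']
          _ = ε' * e p + ε' * ε := mul_add _ _ _
          _ = ε' := by rw [k3, k1, ← hε']
      have k6 : (1 - ε) * ε' = e p := by rw [sub_mul, one_mul, k2, hε', add_sub_cancel_right]
      have k7 : ε' * (1 - ε) = e p := by rw [mul_sub, mul_one, k1, hε', add_sub_cancel_right]
      have k8 : (1 - ε) * e p = e p := by rw [sub_mul, one_mul, hεp, sub_zero]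
      have k9 : e p * (1 - ε) = e p := by rw [mul_sub, mul_one, hpε, sub_zero]
      -- the subring and the ideal
      let E' : Subring R :=
        { carrier := {x | x ∈ E ∧ ε' * x = x * ε'}
          one_mem' := ⟨E.one_mem, by rw [mul_one, one_mul]⟩
          zero_mem' := ⟨E.zero_mem, by rw [mul_zero, zero_mul]⟩
          add_mem' := fun {a b} ha hb => ⟨E.add_mem ha.1 hb.1, by rw [mul_add, add_mul, ha.2, hb.2]⟩
          mul_mem' := fun {a b} ha hb => ⟨E.mul_mem ha.1 hb.1, by
            rw [← mul_assoc, ha.2, mul_assoc, hb.2, mul_assoc]⟩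
          neg_mem' := fun {a} ha => ⟨E.neg_mem ha.1, by rw [mul_neg, neg_mul, ha.2]⟩ }
      have hE' : ∀ x, x ∈ E' ↔ x ∈ E ∧ ε' * x = x * ε' := fun x => Iff.rfl
      let J' : Submodule ℤ R :=
        { carrier := {x | x ∈ J ∧ ε' * x * ε' = x}
          zero_mem' := ⟨J.zero_mem, by rw [mul_zero, zero_mul]⟩
          add_mem' := fun {a b} ha hb => ⟨J.add_mem ha.1 hb.1, by
            rw [mul_add, add_mul, ha.2, hb.2]⟩
          smul_mem' := fun n a ha => ⟨J.smul_mem n ha.1, by
            rw [mul_smul_comm, smul_mul_assoc, ha.2]⟩ }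
      have hJ'm : ∀ x, x ∈ J' ↔ x ∈ J ∧ ε' * x * ε' = x := fun x => Iff.rfl
      have hJ'le : J' ≤ J := fun x hx => hx.1
      have hJ' : IsNilIdeal E' J' := by
        refine ⟨?_, ?_, ?_, ?_⟩
        · intro x hx
          exact (hE' x).2 ⟨hJ.le x hx.1, by rw [hl _ _ _ k5 hx.2, hr _ _ _ k5 hx.2]⟩
        · intro f hf x hx
          refine (hJ'm _).2 ⟨hJ.mulL f hf.1 x hx.1, ?_⟩
          calc ε' * (f * x) * ε' = (ε' * f) * (x * ε') := by simp only [mul_assoc]
            _ = f * (ε' * x * ε') := by rw [hf.2]; simp only [mul_assoc]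
            _ = f * x := by rw [hx.2]
        · intro f hf x hx
          refine (hJ'm _).2 ⟨hJ.mulR f hf.1 x hx.1, ?_⟩
          calc ε' * (x * f) * ε' = (ε' * x) * (f * ε') := by simp only [mul_assoc]
            _ = (ε' * x * ε') * f := by rw [← hf.2]; simp only [mul_assoc]
            _ = x * f := by rw [hx.2]
        · obtain ⟨n, hn⟩ := hJ.nil
          refine ⟨n, ?_⟩
          rw [Submodule.zero_eq_bot, eq_bot_iff] at hn ⊢
          exact (pow_le_pow_left' hJ'le n).trans hn
      have hεE' : ε ∈ E' := (hE' _).2 ⟨hεE, by rw [k1, k2]⟩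
      -- elements of `E'` in the corners
      have c1 : ∀ x ∈ E', ε * x * (1 - ε) = ε * x * e p := by
        intro x hx
        have h1 : ε * x * (1 - ε') = 0 := by
          have h2 : x * (1 - ε') = (1 - ε') * x := by
            rw [mul_sub, sub_mul, mul_one, one_mul, ((hE' x).1 hx).2]
          have h3 : ε * (1 - ε') = 0 := by rw [mul_sub, mul_one, k2, sub_self]
          rw [mul_assoc, h2, ← mul_assoc, h3, zero_mul]
        have h4 : (1 : R) - ε = (1 - ε') + e p := by rw [hε']; abel
        rw [h4, mul_add, h1, zero_add]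
      have c2 : ∀ x ∈ E', (1 - ε) * x * ε = e p * x * ε := by
        intro x hx
        have h1 : (1 - ε') * x * ε = 0 := by
          have h2 : x * (1 - ε') = (1 - ε') * x := by
            rw [mul_sub, sub_mul, mul_one, one_mul, ((hE' x).1 hx).2]
          have h3 : (1 - ε') * ε = 0 := by rw [sub_mul, one_mul, k1, sub_self]
          rw [← h2, mul_assoc, h3, mul_zero]
        have h4 : (1 : R) - ε = (1 - ε') + e p := by rw [hε']; abel
        rw [h4, add_mul, add_mul, h1, zero_add]
      have hJ1 : ∀ x ∈ E, ε * x * e p ∈ J' := by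
        intro x hx
        refine (hJ'm _).2 ⟨?_, ?_⟩
        · rw [hε, Finset.sum_mul, Finset.sum_mul]
          refine sum_mem fun q hq => hoff q p ?_ x hx
          rintro rfl
          exact hpT hq
        · calc ε' * (ε * x * e p) * ε' = (ε' * ε) * x * (e p * ε') := by simp only [mul_assoc]
            _ = ε * x * e p := by rw [k1, k4]
      have hJ2 : ∀ x ∈ E, e p * x * ε ∈ J' := by
        intro x hx
        refine (hJ'm _).2 ⟨?_, ?_⟩
        · rw [hε, Finset.mul_sum]
          refine sum_mem fun q hq => hoff p q ?_ x hx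
          rintro rfl
          exact hpT hq
        · calc ε' * (e p * x * ε) * ε' = (ε' * e p) * x * (ε * ε') := by simp only [mul_assoc]
            _ = e p * x * ε := by rw [k3, k2]
      have h12 : ∀ x ∈ E', ε * x * (1 - ε) ∈ J' := by
        intro x hx
        rw [c1 x hx]
        exact hJ1 x hx.1
      have h21 : ∀ x ∈ E', (1 - ε) * x * ε ∈ J' := by
        intro x hx
        rw [c2 x hx]
        exact hJ2 x hx.1
      have hm₁ : ∀ x ∈ J', ∀ y ∈ J', ε * x * ε = x → ε * y * ε = y →
          mT (x + y + x * y) = mT x * mT y :=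
        fun x hx y hy h1 h2 => hT1 x hx.1 y hy.1 h1 h2
      have hcor : ∀ x ∈ J', (1 - ε) * x * (1 - ε) = x → e p * x * e p = x := by
        intro x hx h1
        calc e p * x * e p = ((1 - ε) * ε') * x * (ε' * (1 - ε)) := by rw [k6, k7]
          _ = (1 - ε) * (ε' * x * ε') * (1 - ε) := by simp only [mul_assoc]
          _ = x := by rw [hx.2, h1]
      have hm₂ : ∀ x ∈ J', ∀ y ∈ J', (1 - ε) * x * (1 - ε) = x → (1 - ε) * y * (1 - ε) = y →
          μ p (x + y + x * y) = μ p x * μ p y :=
        fun x hx y hy h1 h2 => hhom p x hx.1 y hy.1 (hcor x hx h1) (hcor y hy h2)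
      have hs₁ : ∀ f ∈ E', ∀ x ∈ J', ε * f * ε = f → ε * x * ε = x → mT (f * x) = mT (x * f) :=
        fun f hf x hx h1 h2 => hT2 f hf.1 x hx.1 h1 h2
      have hs₂ : ∀ f ∈ E', ∀ x ∈ J', (1 - ε) * f * (1 - ε) = f → (1 - ε) * x * (1 - ε) = x →
          μ p (f * x) = μ p (x * f) := by
        intro f hf x hx h1 h2
        have h3 := hcor x hx h2
        have h4 : f * ε' = e p * f * e p := by
          have h5 : f * ε' = (1 - ε) * f * e p := by
            conv_lhs => rw [← h1]
            rw [mul_assoc, k6]
          have h6 : f * ε' = ε' * (f * ε') := by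
            rw [← mul_assoc, hf.2, mul_assoc, k5]
          rw [h6, h5, ← mul_assoc, ← mul_assoc, k7]
        have h5 : ε' * f = e p * f * e p := by rw [hf.2, h4]
        have h6 : f * x = (e p * f * e p) * x := by
          rw [← h4, mul_assoc, hl _ _ _ k5 hx.2]
        have h7 : x * f = x * (e p * f * e p) := by
          rw [← h5, ← mul_assoc, hr _ _ _ k5 hx.2]
        rw [h6, h7]
        refine hsym p _ (E.mul_mem (E.mul_mem (he p) hf.1) (he p)) x hx.1 ?_ h3
        calc e p * (e p * f * e p) * e p = (e p * e p) * f * (e p * e p) := by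
              simp only [mul_assoc]
          _ = e p * f * e p := by rw [hid]
      have hidε' : (1 - ε) * (1 - ε) = 1 - ε := by
        have : (1 - ε) * (1 - ε) = 1 - ε + (ε * ε - ε) := by noncomm_ring
        rw [this, hεε, sub_self, add_zero]
      -- the cross condition
      have hcross1 : ∀ r ∈ T, ∀ x ∈ E, e r * x * e p = x → ∀ y ∈ E', (1 - ε) * y * ε = y →
          mT (x * y) = μ p (y * x) := by
        intro r hrT x hx hxc y hy hyc
        have hrp : r ≠ p := by
          rintro rfl
          exact hpT hrT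
        have hyc' : e p * y * ε = y := by rw [← c2 y hy, hyc]
        have x1 : e r * x = x := hl _ _ _ (hid r) hxc
        have x2 : x * e p = x := hr _ _ _ (hid p) hxc
        have y1 : e p * y = y := hl _ _ _ (hid p) hyc'
        have y2 : y * ε = y := hr _ _ _ hεε hyc'
        have hxJ : x ∈ J := by rw [← hxc]; exact hoff r p hrp x hx
        have hxyJ : x * y ∈ J := hJ.mulR _ hy.1 _ hxJ
        have e1 : mT (e r * (x * y)) = mT (x * y * e r) := by
          refine hT2 (e r) (he r) (x * y) hxyJ ?_ ?_
          · rw [hεq r hrT, hqε r hrT]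
          · calc ε * (x * y) * ε = (ε * x) * (y * ε) := by simp only [mul_assoc]
              _ = x * y := by
                rw [y2]
                conv_lhs => rw [← x1, ← mul_assoc ε, hεq r hrT, x1]
        have e2 : e r * (x * y) = x * y := by rw [← mul_assoc, x1]
        have e3 : mT (x * y * e r) = μ r (x * (y * e r)) := by
          rw [mul_assoc]
          refine hT3 r hrT _ (by rw [← mul_assoc]; exact hJ.mulR _ (he r) _ hxyJ) ?_
          calc e r * (x * (y * e r)) * e r = (e r * x) * (y * (e r * e r)) := by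
                simp only [mul_assoc]
            _ = x * (y * e r) := by rw [x1, hid]
        have e4 : μ r (x * (y * e r)) = μ p (y * e r * x) := by
          refine hc r p hrp x hx (y * e r) (E.mul_mem hy.1 (he r)) hxc ?_
          calc e p * (y * e r) * e r = (e p * y) * (e r * e r) := by simp only [mul_assoc]
            _ = y * e r := by rw [y1, hid]
        rw [e2] at e1
        rw [e1, e3, e4, mul_assoc, x1]
      have hcross : ∀ x ∈ E', ∀ y ∈ E', ε * x * (1 - ε) = x → (1 - ε) * y * ε = y →
          mT (x * y) = μ p (y * x) := by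
        intro x hx
        have key : ∀ S ⊆ T, ∀ y ∈ E', (1 - ε) * y * ε = y →
            mT ((∑ q ∈ S, e q * x * e p) * y) = μ p (y * ∑ q ∈ S, e q * x * e p) := by
          intro S
          induction S using Finset.induction_on with
          | empty =>
            intro _ y _ _
            rw [Finset.sum_empty, zero_mul, mul_zero, z₁, h0]
          | insert r S hrS ihS =>
            intro hST
            have hrT : r ∈ T := hST (Finset.mem_insert_self r S)
            have hS' : S ⊆ T := fun q hq => hST (Finset.mem_insert_of_mem hq)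
            have hmem : ∀ q ∈ T, e q * x * e p ∈ E' ∧ ε * (e q * x * e p) * (1 - ε) =
                e q * x * e p := by
              intro q hq
              have f1 : ε' * e q = e q := by
                calc ε' * e q = ε' * (ε * e q) := by rw [hεq q hq]
                  _ = e q := by rw [← mul_assoc, k1, hεq q hq]
              have hEq : e q * x * e p ∈ E := E.mul_mem (E.mul_mem (he q) hx.1) (he p)
              refine ⟨(hE' _).2 ⟨hEq, ?_⟩, ?_⟩
              · rw [← mul_assoc, ← mul_assoc, f1, mul_assoc _ (e p) ε', k4]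
              · calc ε * (e q * x * e p) * (1 - ε) = (ε * e q) * x * (e p * (1 - ε)) := by
                      simp only [mul_assoc]
                  _ = e q * x * e p := by rw [hεq q hq, k9]
            rw [Finset.sum_insert hrS]
            refine cross_add E' J' hJ' ε hεE' hεε h12 h21 mT (μ p) hm₁ hm₂ (hmem r hrT).1 ?_
              (hmem r hrT).2 ?_ ?_ (ihS hS')
            · exact sum_mem fun q hq => (hmem q (hS' hq)).1
            · rw [Finset.mul_sum, Finset.sum_mul]
              exact Finset.sum_congr rfl fun q hq => (hmem q (hS' hq)).2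
            · refine hcross1 r hrT _ (E.mul_mem (E.mul_mem (he r) hx.1) (he p)) ?_
              calc e r * (e r * x * e p) * e p = (e r * e r) * x * (e p * e p) := by
                    simp only [mul_assoc]
                _ = e r * x * e p := by rw [hid, hid]
        intro y hy hxc hyc
        have h1 : ∑ q ∈ T, e q * x * e p = x := by
          rw [← Finset.sum_mul, ← Finset.sum_mul, ← hε, ← c1 x hx, hxc]
        have h2 := key T (Finset.Subset.refl T) y hy hyc
        rwa [h1] at h2
      obtain ⟨m, hmh, hms, hme1, hme2⟩ := glue E' J' hJ' ε hεE' hεε h12 h21 mT (μ p) z₁ (h0 p)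
        hm₁ hm₂ hs₁ hs₂ hcross
      refine ⟨m, hmh.zero, ?_, ?_, ?_⟩
      · intro x hx y hy h1 h2
        exact hmh.mul x ⟨hx, h1⟩ y ⟨hy, h2⟩
      · intro f hf x hx h1 h2
        refine hms f ⟨hf, ?_⟩ x ⟨hx, h2⟩
        rw [hl _ _ _ k5 h1, hr _ _ _ k5 h1]
      · intro q hq x hx hxc
        have x1 : e q * x = x := hl _ _ _ (hid q) hxc
        have x2 : x * e q = x := hr _ _ _ (hid q) hxc
        rcases Finset.mem_insert.1 hq with h | h
        · subst h
          refine hme2 x ⟨hx, ?_⟩ ?_
          · calc ε' * x * ε' = (ε' * e q) * x * (e q * ε') := by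
                  conv_lhs => rw [← hxc]
                  simp only [mul_assoc]
              _ = x := by rw [k3, k4, hxc]
          · calc (1 - ε) * x * (1 - ε) = ((1 - ε) * e q) * x * (e q * (1 - ε)) := by
                  conv_lhs => rw [← hxc]
                  simp only [mul_assoc]
              _ = x := by rw [k8, k9, hxc]
        · have f1 : ε' * e q = e q := by
            calc ε' * e q = ε' * (ε * e q) := by rw [hεq q h]
              _ = e q := by rw [← mul_assoc, k1, hεq q h]
          have f2 : e q * ε' = e q := by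
            calc e q * ε' = (e q * ε) * ε' := by rw [hqε q h]
              _ = e q := by rw [mul_assoc, k2, hqε q h]
          have g1 : ε * x * ε = x := by
            calc ε * x * ε = (ε * e q) * x * (e q * ε) := by
                  conv_lhs => rw [← hxc]
                  simp only [mul_assoc]
              _ = x := by rw [hεq q h, hqε q h, hxc]
          have g2 : ε' * x * ε' = x := by
            calc ε' * x * ε' = (ε' * e q) * x * (e q * ε') := by
                  conv_lhs => rw [← hxc]
                  simp only [mul_assoc]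
              _ = x := by rw [f1, f2, hxc]
          rw [hme1 x ⟨hx, g2⟩ g1]
          exact hT3 q h x hx hxc
  obtain ⟨m, m0, m1, m2, m3⟩ := main Finset.univ
  rw [hsum] at m1 m2
  refine ⟨m, ⟨m0, ?_⟩, ?_, ?_⟩
  · intro x hx y hy
    exact m1 x hx y hy (by rw [one_mul, mul_one]) (by rw [one_mul, mul_one])
  · intro f hf x hx
    exact m2 f hf x hx (by rw [one_mul, mul_one]) (by rw [one_mul, mul_one])
  · intro p x hx hxc
    exact m3 p (Finset.mem_univ p) x hx hxc

end Pool.Agent.Lib.MP_fa0f6c_al.Cx
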