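import Pool.Agent.Lib.MP_fa0f6c_al.Cx.Defs
import Pool.Agent.Lib.MP_fa0f6c_al.Cx.R09

set_option autoImplicit false

namespace Pool.Agent.Lib.MP_fa0f6c_al.Cx

open scoped ComplexConjugate

/-- `m` on `N` has no intertwining outside `H`. -/
def NoInt {G : Type} [Group G] (N H : Subgroup G) (m : G → ℂ) : Prop :=
  ∀ g : G, g ∉ H → ∃ y ∈ N, g⁻¹ * y * g ∈ N ∧ m y ≠ m (g⁻¹ * y * g)

/-- `m` on `N` is invariant under `H`. -/
def Inv {G : Type} [Group G] (N H : Subgroup G) (m : G → ℂ) : Prop :=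
  ∀ h ∈ H, ∀ y ∈ N, h * y * h⁻¹ ∈ N ∧ m (h * y * h⁻¹) = m y

private theorem r10_pow {G : Type} [Group G] {N : Subgroup G} {m : G → ℂ} (hm : IsLin N m)
    {y : G} (hy : y ∈ N) (k : ℕ) : m (y ^ k) = m y ^ k := by
  induction k with
  | zero => rw [pow_zero, pow_zero, hm.1]
  | succ k ih => rw [pow_succ, pow_succ, hm.2 _ (pow_mem hy k) _ hy, ih]

private theorem r10_norm {G : Type} [Group G] [Finite G] {N : Subgroup G} {m : G → ℂ}
    (hm : IsLin N m) {y : G} (hy : y ∈ N) : m y * conj (m y) = 1 := by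
  have h1 : m y ^ Nat.card G = 1 := by
    rw [← r10_pow hm hy, pow_card_eq_one', hm.1]
  have h2 : ‖m y‖ = 1 := Complex.norm_eq_one_of_pow_eq_one h1 Nat.card_pos.ne'
  rw [Complex.mul_conj, Complex.normSq_eq_norm_sq, h2]
  norm_num

open Classical in
/-- extension by zero -/
private noncomputable def r10E {G : Type} [Group G] (H : Subgroup G) (f : H → ℂ) (g : G) : ℂ :=
  if h : g ∈ H then f ⟨g, h⟩ else 0

private theorem r10E_of_mem {G : Type} [Group G] {H : Subgroup G} (f : H → ℂ) {g : G}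
    (h : g ∈ H) : r10E H f g = f ⟨g, h⟩ := dif_pos h

private theorem r10E_of_not_mem {G : Type} [Group G] {H : Subgroup G} (f : H → ℂ) {g : G}
    (h : g ∉ H) : r10E H f g = 0 := dif_neg h

private theorem r10_ind {G : Type} [Group G] [Fintype G] (H : Subgroup G) (f : H → ℂ) (g : G) :
    ind H f g = (Nat.card H : ℂ)⁻¹ * ∑ t : G, r10E H f (t⁻¹ * g * t) := by
  unfold ind
  rw [finsum_eq_sum_of_fintype]
  rfl

private theorem r10E_conj {G : Type} [Group G] {H : Subgroup G} {f : H → ℂ} (hf : IsCF f)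
    {u : G} (hu : u ∈ H) (x : G) : r10E H f (u⁻¹ * x * u) = r10E H f x := by
  by_cases hx : x ∈ H
  · have h1 : u⁻¹ * x * u ∈ H := H.mul_mem (H.mul_mem (H.inv_mem hu) hx) hu
    rw [r10E_of_mem f hx, r10E_of_mem f h1]
    have h2 := hf (⟨u, hu⟩⁻¹ * ⟨x, hx⟩ : H) ⟨u, hu⟩
    rw [mul_inv_cancel_left] at h2
    exact h2
  · have h1 : u⁻¹ * x * u ∉ H := by
      intro h
      apply hx
      have h3 : u * (u⁻¹ * x * u) * u⁻¹ ∈ H := H.mul_mem (H.mul_mem hu h) (H.inv_mem hu)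
      have h4 : u * (u⁻¹ * x * u) * u⁻¹ = x := by group
      rwa [h4] at h3
    rw [r10E_of_not_mem f hx, r10E_of_not_mem f h1]

private theorem r10E_mul {G : Type} [Group G] {N H : Subgroup G} (hNH : N ≤ H) {m : G → ℂ}
    {f : H → ℂ} (h : ∀ n ∈ N, ∀ hn : n ∈ H, ∀ y : H, f (y * ⟨n, hn⟩) = m n * f y) {n : G}
    (hn : n ∈ N) (x : G) : r10E H f (x * n) = m n * r10E H f x := by
  by_cases hx : x ∈ H
  · rw [r10E_of_mem f hx, r10E_of_mem f (H.mul_mem hx (hNH hn))]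
    exact h n hn (hNH hn) ⟨x, hx⟩
  · have h1 : x * n ∉ H := fun h' => hx ((H.mul_mem_cancel_right (hNH hn)).mp h')
    rw [r10E_of_not_mem f hx, r10E_of_not_mem f h1, mul_zero]

private theorem r10_ip {G : Type} [Group G] [Fintype G] (H : Subgroup G) (f f' : H → ℂ) :
    ip f f' = (Nat.card H : ℂ)⁻¹ * ∑ x : G, r10E H f x * conj (r10E H f' x) := by
  classical
  unfold ip
  rw [finsum_eq_sum_of_fintype]
  congr 1
  have h1 : ∑ x : G, r10E H f x * conj (r10E H f' x) =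
      ∑ x ∈ Finset.univ.filter (fun x : G => x ∈ H), r10E H f x * conj (r10E H f' x) := by
    rw [Finset.sum_filter]
    refine Finset.sum_congr rfl fun x _ => ?_
    split_ifs with h
    · rfl
    · rw [r10E_of_not_mem f h, zero_mul]
  rw [h1, Finset.sum_subtype (p := fun x => x ∈ H) _ (fun x => by simp)]
  refine Finset.sum_congr rfl fun x _ => ?_
  rw [r10E_of_mem f x.2, r10E_of_mem f' x.2]

private theorem r10_ip_ind {G : Type} [Group G] [Fintype G] (H : Subgroup G) (f f' : H → ℂ) :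
    ip (ind H f) (ind H f') = (Nat.card H : ℂ)⁻¹ * (Nat.card H : ℂ)⁻¹ *
      ∑ u : G, ∑ x : G, r10E H f x * conj (r10E H f' (u⁻¹ * x * u)) := by
  have hcard : (Nat.card G : ℂ) ≠ 0 := Nat.cast_ne_zero.mpr Nat.card_pos.ne'
  have h0 : ip (ind H f) (ind H f') =
      (Nat.card G : ℂ)⁻¹ * ∑ g : G, ind H f g * conj (ind H f' g) := by
    unfold ip
    rw [finsum_eq_sum_of_fintype]
  have h1 : ∀ g : G, ind H f g * conj (ind H f' g) = (Nat.card H : ℂ)⁻¹ * (Nat.card H : ℂ)⁻¹ *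
      ∑ s : G, ∑ t : G, r10E H f (s⁻¹ * g * s) * conj (r10E H f' (t⁻¹ * g * t)) := by
    intro g
    rw [r10_ind, r10_ind, map_mul, map_sum, map_inv₀, Complex.conj_natCast,
      ← Finset.sum_mul_sum]
    ring
  have h2 : ∀ s : G, ∑ g : G, ∑ t : G, r10E H f (s⁻¹ * g * s) * conj (r10E H f' (t⁻¹ * g * t)) =
      ∑ u : G, ∑ x : G, r10E H f x * conj (r10E H f' (u⁻¹ * x * u)) := by
    intro s
    have e : ∑ g : G, ∑ t : G, r10E H f (s⁻¹ * g * s) * conj (r10E H f' (t⁻¹ * g * t)) =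
        ∑ x : G, ∑ t : G, r10E H f x *
          conj (r10E H f' (t⁻¹ * (s * x * s⁻¹) * t)) := by
      rw [← Equiv.sum_comp (MulAut.conj s).toEquiv]
      refine Finset.sum_congr rfl fun x _ => ?_
      refine Finset.sum_congr rfl fun t _ => ?_
      have : s⁻¹ * ((MulAut.conj s).toEquiv x) * s = x := by
        show s⁻¹ * (s * x * s⁻¹) * s = x
        group
      rw [this]
      rfl
    rw [e, Finset.sum_comm]
    rw [← Equiv.sum_comp (Equiv.mulLeft s)]
    refine Finset.sum_congr rfl fun u _ => ?_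
    refine Finset.sum_congr rfl fun x _ => ?_
    have : ((Equiv.mulLeft s) u)⁻¹ * (s * x * s⁻¹) * ((Equiv.mulLeft s) u) = u⁻¹ * x * u := by
      show (s * u)⁻¹ * (s * x * s⁻¹) * (s * u) = u⁻¹ * x * u
      group
    rw [this]
  rw [h0]
  simp_rw [h1]
  rw [← Finset.mul_sum, Finset.sum_comm]
  simp_rw [h2]
  rw [Finset.sum_const, Finset.card_univ, ← Nat.card_eq_fintype_card, nsmul_eq_mul]
  field_simp

/-- HINT: `ip (ind θ) (ind θ') = |H|⁻² ∑_{t ∈ G} ∑_{h ∈ H ∩ t H t⁻¹} θ(h) conj θ'(t⁻¹ h t)` (substitute in the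
double sum). For `t ∈ H` the inner sum is `|H| ip θ θ'`. For `t ∉ H` choose `y ∈ N` with
`t⁻¹ y t ∈ N` and `m y ≠ m (t⁻¹ y t)`; `θ (h y) = m y θ h`, `θ' (t⁻¹ h y t) = m (t⁻¹ y t) θ' (t⁻¹ h t)`,
and `h ↦ h y` is a bijection of `H ∩ t H t⁻¹`, so the inner sum `S` satisfies
`S = m y * conj (m (t⁻¹ y t)) * S`, hence `S = 0` (values of `m` have absolute value one). -/
theorem clifford_ip {G : Type} [Group G] [Finite G] (N H : Subgroup G) (hNH : N ≤ H) (m : G → ℂ)
    (hm : IsLin N m) (hN : NoInt N H m) {θ θ' : H → ℂ}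
    (h1 : ∀ n ∈ N, ∀ hn : n ∈ H, ∀ y : H, θ (y * ⟨n, hn⟩) = m n * θ y)
    (h2 : ∀ n ∈ N, ∀ hn : n ∈ H, ∀ y : H, θ' (y * ⟨n, hn⟩) = m n * θ' y)
    (hθ : IsCF θ) (hθ' : IsCF θ') :
    ip (ind H θ) (ind H θ') = ip θ θ' := by
  classical
  have : Fintype G := Fintype.ofFinite G
  have hcard : (Nat.card H : ℂ) ≠ 0 := Nat.cast_ne_zero.mpr Nat.card_pos.ne'
  rw [r10_ip_ind, r10_ip]
  have hin : ∀ u : G, ∑ x : G, r10E H θ x * conj (r10E H θ' (u⁻¹ * x * u)) =
      if u ∈ H then ∑ x : G, r10E H θ x * conj (r10E H θ' x) else 0 := by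
    intro u
    split_ifs with hu
    · refine Finset.sum_congr rfl fun x _ => ?_
      rw [r10E_conj hθ' hu]
    · obtain ⟨y, hy, hy', hne⟩ := hN u hu
      have hS : ∑ x : G, r10E H θ x * conj (r10E H θ' (u⁻¹ * x * u)) =
          m y * conj (m (u⁻¹ * y * u)) *
            ∑ x : G, r10E H θ x * conj (r10E H θ' (u⁻¹ * x * u)) := by
        conv_lhs => rw [← Equiv.sum_comp (Equiv.mulRight y)]
        rw [Finset.mul_sum]
        refine Finset.sum_congr rfl fun x _ => ?_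
        have e : u⁻¹ * (x * y) * u = (u⁻¹ * x * u) * (u⁻¹ * y * u) := by group
        show r10E H θ (x * y) * conj (r10E H θ' (u⁻¹ * (x * y) * u)) = _
        rw [e, r10E_mul hNH h1 hy, r10E_mul hNH h2 hy', map_mul]
        ring
      by_contra hS0
      have h3 : m y * conj (m (u⁻¹ * y * u)) = 1 := by
        have h4 : (m y * conj (m (u⁻¹ * y * u)) - 1) *
            ∑ x : G, r10E H θ x * conj (r10E H θ' (u⁻¹ * x * u)) = 0 := by
          rw [sub_mul, ← hS, one_mul, sub_self]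
        rcases mul_eq_zero.mp h4 with h5 | h5
        · exact sub_eq_zero.mp h5
        · exact absurd h5 hS0
      apply hne
      have h4 := r10_norm hm hy'
      calc m y = m y * (m (u⁻¹ * y * u) * conj (m (u⁻¹ * y * u))) := by rw [h4, mul_one]
        _ = (m y * conj (m (u⁻¹ * y * u))) * m (u⁻¹ * y * u) := by ring
        _ = m (u⁻¹ * y * u) := by rw [h3, one_mul]
  simp_rw [hin]
  rw [← Finset.sum_filter, Finset.sum_const, nsmul_eq_mul]
  have hc : ((Finset.univ.filter (fun u : G => u ∈ H)).card : ℂ) = Nat.card H := by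
    congr 1
    rw [Nat.card_eq_fintype_card, Fintype.card_subtype]
  rw [hc]
  field_simp

end Pool.Agent.Lib.MP_fa0f6c_al.Cx
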