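import Pool.Agent.Lib.MP_fa0f6c_al.Cx.Defs
import Pool.Agent.Lib.MP_fa0f6c_al.Cx.R10

set_option autoImplicit false

namespace Pool.Agent.Lib.MP_fa0f6c_al.Cx

open scoped ComplexConjugate

/-- Irreducible characters of `H` over `(N, m)`. -/
def IrrOver {H : Type} [Group H] (N : Subgroup H) (m : H → ℂ) : Set (H → ℂ) :=
  {θ | θ ∈ Irr H ∧ mult N m θ ≠ 0}

private theorem isLin_sub {G : Type} [Group G] (N H : Subgroup G) (m : G → ℂ) (hm : IsLin N m) :
    IsLin (N.subgroupOf H) (fun h : H => m h) := by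
  refine ⟨hm.1, ?_⟩
  intro x hx y hy
  exact hm.2 x hx y hy

private theorem iso_left {G : Type} [Group G] [Finite G] (N H : Subgroup G) (m : G → ℂ)
    (hm : IsLin N m) (hI : Inv N H m) {θ : H → ℂ}
    (hθ : θ ∈ IrrOver (N.subgroupOf H) (fun h : H => m h)) :
    ∀ n ∈ N.subgroupOf H, ∀ y : H, θ (n * y) = m n * θ y := by
  refine isotypic (N.subgroupOf H) (fun h : H => m h) (isLin_sub N H m hm) ?_ hθ.1 hθ.2
  intro g n hn
  have h1 := hI g g.2 n hn
  exact ⟨h1.1, h1.2⟩

private theorem iso_right {G : Type} [Group G] [Finite G] (N H : Subgroup G) (m : G → ℂ)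
    (hm : IsLin N m) (hI : Inv N H m) {θ : H → ℂ}
    (hθ : θ ∈ IrrOver (N.subgroupOf H) (fun h : H => m h)) :
    ∀ n ∈ N, ∀ hn : n ∈ H, ∀ y : H, θ (y * ⟨n, hn⟩) = m n * θ y := by
  intro n hn hn' y
  rw [irr_cf hθ.1]
  exact iso_left N H m hm hI hθ ⟨n, hn'⟩ hn y

private theorem ip_ind {G : Type} [Group G] [Finite G] (N H : Subgroup G) (hNH : N ≤ H) (m : G → ℂ)
    (hm : IsLin N m) (hI : Inv N H m) (hN : NoInt N H m) {θ θ' : H → ℂ}
    (hθ : θ ∈ IrrOver (N.subgroupOf H) (fun h : H => m h))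
    (hθ' : θ' ∈ IrrOver (N.subgroupOf H) (fun h : H => m h)) :
    ip (ind H θ) (ind H θ') = ip θ θ' :=
  clifford_ip N H hNH m hm hN (iso_right N H m hm hI hθ) (iso_right N H m hm hI hθ')
    (irr_cf hθ.1) (irr_cf hθ'.1)

private theorem ind_irr {G : Type} [Group G] [Finite G] (N H : Subgroup G) (hNH : N ≤ H) (m : G → ℂ)
    (hm : IsLin N m) (hI : Inv N H m) (hN : NoInt N H m) {θ : H → ℂ}
    (hθ : θ ∈ IrrOver (N.subgroupOf H) (fun h : H => m h)) : ind H θ ∈ Irr G := by
  refine irr_of_isNat (isNat_ind H (isNat_irr hθ.1)) ?_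
  rw [ip_ind N H hNH m hm hI hN hθ hθ, ip_irr hθ.1 hθ.1, if_pos rfl]

/-- the inner product as a finite sum -/
private theorem ip_sum {G : Type} [Fintype G] (f g : G → ℂ) :
    ip f g = (Nat.card G : ℂ)⁻¹ * ∑ x, f x * conj (g x) := by
  rw [ip, finsum_eq_sum_of_fintype]

private theorem mult_sub {G : Type} [Group G] [Finite G] (N H : Subgroup G) (hNH : N ≤ H)
    (m f : G → ℂ) :
    mult (N.subgroupOf H) (fun h : H => m h) (fun h : H => f h) = mult N m f := by
  unfold mult ip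
  have e := Subgroup.subgroupOfEquivOfLe hNH
  have h1 : Nat.card (N.subgroupOf H) = Nat.card N :=
    Nat.card_congr (Subgroup.subgroupOfEquivOfLe hNH).toEquiv
  rw [h1]
  congr 1
  exact finsum_eq_of_bijective (Subgroup.subgroupOfEquivOfLe hNH)
    (Subgroup.subgroupOfEquivOfLe hNH).bijective (fun x => rfl)

private theorem mult_expand {G : Type} [Group G] [Finite G] (N : Subgroup G) (m f : G → ℂ)
    (hf : IsCF f) :
    mult N m f = ∑ χ ∈ (irr_finite G).toFinset, ip f χ * mult N m χ := by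
  classical
  have : Fintype N := Fintype.ofFinite N
  have h1 : ∀ g : G → ℂ, mult N m g
      = (Nat.card N : ℂ)⁻¹ * ∑ x : N, g x * conj (m x) := fun g => ip_sum _ _
  rw [h1]
  simp_rw [h1]
  have h2 : ∀ x : N, f x * conj (m x)
      = ∑ χ ∈ (irr_finite G).toFinset, ip f χ * (χ x * conj (m x)) := by
    intro x
    conv_lhs => rw [cf_expand hf (x : G)]
    rw [Finset.sum_mul]
    exact Finset.sum_congr rfl (fun χ _ => by ring)
  rw [Finset.sum_congr rfl (fun x _ => h2 x), Finset.sum_comm, Finset.mul_sum]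
  refine Finset.sum_congr rfl (fun χ _ => ?_)
  rw [← Finset.mul_sum]
  ring

private theorem rest_cf {G : Type} [Group G] (H : Subgroup G) {f : G → ℂ} (hf : IsCF f) :
    IsCF (fun h : H => f h) := fun x y => hf x y

private theorem mult_expand_sub {G : Type} [Group G] [Finite G] (N H : Subgroup G) (hNH : N ≤ H)
    (m f : G → ℂ) (hf : IsCF f) :
    mult N m f = ∑ ψ ∈ (irr_finite H).toFinset, ip (fun h : H => f h) ψ *
      mult (N.subgroupOf H) (fun h : H => m h) ψ := by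
  rw [← mult_sub N H hNH m f]
  exact mult_expand _ _ _ (rest_cf H hf)

/-- Frobenius in the other order -/
private theorem frob' {G : Type} [Group G] [Finite G] (H : Subgroup G) {f : H → ℂ}
    {g : G → ℂ} (hg : IsCF g) : ip (fun h : H => g h) f = conj (ip (ind H f) g) := by
  rw [frobenius H hg, ← ip_conj_symm]

/-- In the situation of `clifford_bij` the restriction of `χ` to `N` contains `m` with multiplicity
`θ 1`: precisely `mult N m (ind H θ) = θ 1`. -/
private theorem clifford_mult' {G : Type} [Group G] [Finite G] (N H : Subgroup G) (hNH : N ≤ H)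
    (m : G → ℂ)
    (hm : IsLin N m) (hI : Inv N H m) (hN : NoInt N H m) {θ : H → ℂ}
    (hθ : θ ∈ IrrOver (N.subgroupOf H) (fun h : H => m h)) :
    mult N m (ind H θ) = θ 1 := by
  have hcf : IsCF (ind H θ) := ind_isCF H (irr_cf hθ.1)
  rw [mult_expand_sub N H hNH m _ hcf]
  rw [Finset.sum_eq_single θ]
  · rw [frob' H hcf, ip_ind N H hNH m hm hI hN hθ hθ, ip_irr hθ.1 hθ.1, if_pos rfl, map_one,
      one_mul]
    exact mult_of_isotypic _ _ (isLin_sub N H m hm) (iso_left N H m hm hI hθ)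
  · intro ψ hψ hne
    rw [Set.Finite.mem_toFinset] at hψ
    by_cases h0 : mult (N.subgroupOf H) (fun h : H => m h) ψ = 0
    · rw [h0, mul_zero]
    · rw [frob' H hcf, ip_ind N H hNH m hm hI hN ⟨hψ, h0⟩ hθ, ip_irr hψ hθ.1, if_neg hne,
        map_zero, zero_mul]
  · intro h
    exact absurd ((Set.Finite.mem_toFinset _).2 hθ.1) h

/-- Clifford correspondence for a linear character without intertwining outside its stabiliser.
HINT: `isotypic` inside `H` gives the hypotheses of `clifford_ip`; with `θ = θ'` and `isNat_ind`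
one gets irreducibility (`irr_of_isNat`), with `θ ≠ θ'` injectivity. Surjectivity: if
`mult N m χ ≠ 0` some irreducible constituent `θ` of `χ|_H` has `mult ≠ 0` (expansion of the restriction),
and then `ip (ind θ) χ = ip θ χ|_H ≠ 0` so `χ = ind θ`. That `ind θ` lies over `m`:
`ip (χ|_H) θ ≠ 0` and `θ` is a constituent. -/
theorem clifford_bij {G : Type} [Group G] [Finite G] (N H : Subgroup G) (hNH : N ≤ H) (m : G → ℂ)
    (hm : IsLin N m) (hI : Inv N H m) (hN : NoInt N H m) :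
    Set.BijOn (fun θ : H → ℂ => ind H θ) (IrrOver (N.subgroupOf H) (fun h : H => m h))
      (IrrOver N m) := by
  refine ⟨?_, ?_, ?_⟩
  · intro θ hθ
    refine ⟨ind_irr N H hNH m hm hI hN hθ, ?_⟩
    change mult N m (ind H θ) ≠ 0
    rw [clifford_mult' N H hNH m hm hI hN hθ]
    obtain ⟨n, hn, h1⟩ := irr_deg hθ.1
    rw [h1]
    exact_mod_cast hn.ne'
  · intro θ hθ θ' hθ' heq
    change ind H θ = ind H θ' at heq
    have h1 := ip_ind N H hNH m hm hI hN hθ hθ'
    rw [← heq, ip_ind N H hNH m hm hI hN hθ hθ, ip_irr hθ.1 hθ.1, if_pos rfl,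
      ip_irr hθ.1 hθ'.1] at h1
    by_contra hne
    rw [if_neg hne] at h1
    exact one_ne_zero h1
  · rintro χ ⟨hχ, h0⟩
    have hcf := irr_cf hχ
    rw [mult_expand_sub N H hNH m χ hcf] at h0
    obtain ⟨ψ, hψ, hne⟩ := Finset.exists_ne_zero_of_sum_ne_zero h0
    rw [Set.Finite.mem_toFinset] at hψ
    have ha := left_ne_zero_of_mul hne
    have hb := right_ne_zero_of_mul hne
    refine ⟨ψ, ⟨hψ, hb⟩, ?_⟩
    change ind H ψ = χ
    have hirr := ind_irr N H hNH m hm hI hN (θ := ψ) ⟨hψ, hb⟩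
    rw [frob' H hcf] at ha
    have hc : ip (ind H ψ) χ ≠ 0 := by
      intro h
      exact ha (by rw [h, map_zero])
    rw [ip_irr hirr hχ] at hc
    by_contra hne'
    exact hc (if_neg hne')

/-- In the situation of `clifford_bij` the restriction of `χ` to `N` contains `m` with multiplicity
`θ 1`: precisely `mult N m (ind H θ) = θ 1`. HINT: `ip (ind θ) (ind θ') = ip θ θ'` for all `θ'` over `m`,
Frobenius, and expansion of the restriction of `ind θ` to `H`. -/
theorem clifford_mult {G : Type} [Group G] [Finite G] (N H : Subgroup G) (hNH : N ≤ H) (m : G → ℂ)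
    (hm : IsLin N m) (hI : Inv N H m) (hN : NoInt N H m) {θ : H → ℂ}
    (hθ : θ ∈ IrrOver (N.subgroupOf H) (fun h : H => m h)) :
    mult N m (ind H θ) = θ 1 :=
  clifford_mult' N H hNH m hm hI hN hθ

/-- values of a linear character have absolute value one -/
private theorem lin_pow {G : Type} [Group G] (N : Subgroup G) (m : G → ℂ)
    (hm : IsLin N m) {y : G} (hy : y ∈ N) (k : ℕ) : m (y ^ k) = m y ^ k := by
  induction k with
  | zero => simpa using hm.1
  | succ k ih => rw [pow_succ, hm.2 _ (N.pow_mem hy k) _ hy, ih, pow_succ]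

private theorem lin_conj {G : Type} [Group G] [Finite G] (N : Subgroup G) (m : G → ℂ)
    (hm : IsLin N m) {y : G} (hy : y ∈ N) : m y * conj (m y) = 1 := by
  have h1 : m y ^ (orderOf y) = 1 := by
    rw [← lin_pow N m hm hy, pow_orderOf_eq_one, hm.1]
  have h2 : ‖m y‖ = 1 := Complex.norm_eq_one_of_pow_eq_one h1 (orderOf_pos y).ne'
  rw [Complex.mul_conj, Complex.normSq_eq_norm_sq, h2]
  simp

private theorem inner_sum {G : Type} [Group G] [Fintype G] (N K : Subgroup G) (m m' : G → ℂ)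
    (hm : IsLin N m) (hm' : IsLin K m') (t : G) [DecidablePred fun y : G => y ∈ N ∧ t⁻¹ * y * t ∈ K]
    [Decidable (∀ y ∈ N, t⁻¹ * y * t ∈ K → m y = m' (t⁻¹ * y * t))] :
    (∑ y : G, if y ∈ N ∧ t⁻¹ * y * t ∈ K then m y * conj (m' (t⁻¹ * y * t)) else 0)
      = if (∀ y ∈ N, t⁻¹ * y * t ∈ K → m y = m' (t⁻¹ * y * t)) then
          (((Finset.univ.filter fun y : G => y ∈ N ∧ t⁻¹ * y * t ∈ K).card : ℕ) : ℂ) else 0 := by
  have hconj : ∀ a b : G, t⁻¹ * (a * b) * t = (t⁻¹ * a * t) * (t⁻¹ * b * t) := by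
    intro a b; group
  split_ifs with hc
  · rw [← Finset.sum_filter, Finset.card_eq_sum_ones]
    push_cast
    refine Finset.sum_congr rfl ?_
    intro y hy
    rw [Finset.mem_filter] at hy
    rw [hc y hy.2.1 hy.2.2]
    exact lin_conj K m' hm' hy.2.2
  · push Not at hc
    obtain ⟨y0, hy0, hy0', hne⟩ := hc
    set S := ∑ y : G, if y ∈ N ∧ t⁻¹ * y * t ∈ K then m y * conj (m' (t⁻¹ * y * t)) else 0
      with hS
    have h1 : S = (m y0 * conj (m' (t⁻¹ * y0 * t))) * S := by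
      conv_lhs => rw [hS]
      rw [hS, Finset.mul_sum]
      rw [← Equiv.sum_comp (Equiv.mulLeft y0)]
      refine Finset.sum_congr rfl ?_
      intro y _
      simp only [Equiv.coe_mulLeft]
      have hiff : (y0 * y ∈ N ∧ t⁻¹ * (y0 * y) * t ∈ K) ↔ (y ∈ N ∧ t⁻¹ * y * t ∈ K) := by
        rw [hconj, N.mul_mem_cancel_left hy0, K.mul_mem_cancel_left hy0']
      by_cases hy : y ∈ N ∧ t⁻¹ * y * t ∈ K
      · rw [if_pos (hiff.2 hy), if_pos hy, hm.2 y0 hy0 y hy.1, hconj, hm'.2 _ hy0' _ hy.2, map_mul]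
        ring
      · rw [if_neg (fun h => hy (hiff.1 h)), if_neg hy, mul_zero]
    have h2 : (m y0 * conj (m' (t⁻¹ * y0 * t))) ≠ 1 := by
      intro h
      apply hne
      have h3 := lin_conj K m' hm' hy0'
      have h4 : conj (m' (t⁻¹ * y0 * t)) ≠ 0 := by
        intro h5
        rw [h5, mul_zero] at h3
        exact zero_ne_one h3
      exact mul_right_cancel₀ h4 (h.trans h3.symm)
    have h3 : (1 - m y0 * conj (m' (t⁻¹ * y0 * t))) * S = 0 := by
      rw [sub_mul, one_mul, ← h1, sub_self]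
    rcases mul_eq_zero.1 h3 with h | h
    · exact absurd (sub_eq_zero.1 h).symm h2
    · exact h

private theorem cf_lin {G : Type} [Group G] (N : Subgroup G) (m : G → ℂ) (hm : IsLin N m) :
    IsCF (fun n : N => m n) := by
  intro x y
  change m (x * y) = m (y * x)
  rw [hm.2 x x.2 y y.2, hm.2 y y.2 x x.2, mul_comm]

private theorem ip_ind_lin {G : Type} [Group G] [Fintype G] (N K : Subgroup G) (m m' : G → ℂ)
    (hm' : IsLin K m') [∀ t : G, DecidablePred fun y : G => y ∈ N ∧ t⁻¹ * y * t ∈ K] :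
    ip (ind N (fun n : N => m n)) (ind K (fun k : K => m' k))
      = (Nat.card N : ℂ)⁻¹ * ((Nat.card K : ℂ)⁻¹ *
        ∑ t : G, ∑ y : G, if y ∈ N ∧ t⁻¹ * y * t ∈ K then m y * conj (m' (t⁻¹ * y * t)) else 0) := by
  classical
  rw [frobenius N (ind_isCF K (cf_lin K m' hm')), ip_sum]
  congr 1
  have h1 : ∀ y : N, m y * conj (ind K (fun k : K => m' k) (y : G)) = (Nat.card K : ℂ)⁻¹ *
      ∑ t : G, if t⁻¹ * (y : G) * t ∈ K then m y * conj (m' (t⁻¹ * y * t)) else 0 := by
    intro y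
    unfold ind
    rw [finsum_eq_sum_of_fintype, map_mul, map_inv₀, Complex.conj_natCast, map_sum]
    rw [mul_left_comm, Finset.mul_sum]
    congr 1
    refine Finset.sum_congr rfl (fun t _ => ?_)
    split_ifs with h
    · rfl
    · rw [map_zero, mul_zero]
  rw [Finset.sum_congr rfl (fun y _ => h1 y), ← Finset.mul_sum, Finset.sum_comm]
  congr 1
  refine Finset.sum_congr rfl (fun t _ => ?_)
  have h2 : ∀ y : G, (if y ∈ N ∧ t⁻¹ * y * t ∈ K then m y * conj (m' (t⁻¹ * y * t)) else 0)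
      = if y ∈ N then (if t⁻¹ * y * t ∈ K then m y * conj (m' (t⁻¹ * y * t)) else 0) else 0 := by
    intro y
    by_cases ha : y ∈ N <;> by_cases hb : t⁻¹ * y * t ∈ K <;> simp [ha, hb]
  have h3 : (∑ y : N, if t⁻¹ * (y : G) * t ∈ K then m y * conj (m' (t⁻¹ * y * t)) else 0)
      = ∑ y ∈ Finset.univ.filter (fun y : G => y ∈ N),
        if t⁻¹ * y * t ∈ K then m y * conj (m' (t⁻¹ * y * t)) else 0 :=
    (Finset.sum_subtype (p := fun y : G => y ∈ N) _ (fun x => by simp)
      (fun y : G => if t⁻¹ * y * t ∈ K then m y * conj (m' (t⁻¹ * y * t)) else 0)).symm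
  rw [h3, Finset.sum_filter]
  exact Finset.sum_congr rfl (fun y _ => (h2 y).symm)

/-- Two linear characters `(N, m)`, `(K, m')` lie under a common irreducible character iff some
conjugate agrees on the intersection.
HINT: `∑_χ mult N m χ * mult K m' χ = ip (ind m) (ind m')` = a sum over `t ∈ G` of
`[m = m'^t on N ∩ t K t⁻¹]` times positive numbers. -/
theorem common_iff {G : Type} [Group G] [Finite G] (N K : Subgroup G) (m m' : G → ℂ)
    (hm : IsLin N m) (hm' : IsLin K m') :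
    (∃ χ ∈ Irr G, mult N m χ ≠ 0 ∧ mult K m' χ ≠ 0) ↔
      ∃ t : G, ∀ y ∈ N, t⁻¹ * y * t ∈ K → m y = m' (t⁻¹ * y * t) := by
  classical
  have : Fintype G := Fintype.ofFinite G
  have hM : IsCF (ind N (fun n : N => m n)) := ind_isCF N (cf_lin N m hm)
  have hM' : IsCF (ind K (fun k : K => m' k)) := ind_isCF K (cf_lin K m' hm')
  have hA : ∀ χ ∈ Irr G, ip (ind N (fun n : N => m n)) χ = mult N m χ := by
    intro χ hχ
    obtain ⟨n, hn⟩ := mult_nat N m hm (isNat_irr hχ)
    rw [frobenius N (irr_cf hχ), ip_conj_symm (fun n : N => χ n)]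
    change conj (mult N m χ) = _
    rw [hn, Complex.conj_natCast]
  have hB : ∀ χ ∈ Irr G, ip (ind K (fun n : K => m' n)) χ = mult K m' χ := by
    intro χ hχ
    obtain ⟨n, hn⟩ := mult_nat K m' hm' (isNat_irr hχ)
    rw [frobenius K (irr_cf hχ), ip_conj_symm (fun n : K => χ n)]
    change conj (mult K m' χ) = _
    rw [hn, Complex.conj_natCast]
  -- natural numbers
  have hnA : ∀ χ : G → ℂ, ∃ a : ℕ, χ ∈ Irr G → mult N m χ = a := by
    intro χ
    by_cases h : χ ∈ Irr G
    · obtain ⟨n, hn⟩ := mult_nat N m hm (isNat_irr h)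
      exact ⟨n, fun _ => hn⟩
    · exact ⟨0, fun h' => absurd h' h⟩
  have hnB : ∀ χ : G → ℂ, ∃ a : ℕ, χ ∈ Irr G → mult K m' χ = a := by
    intro χ
    by_cases h : χ ∈ Irr G
    · obtain ⟨n, hn⟩ := mult_nat K m' hm' (isNat_irr h)
      exact ⟨n, fun _ => hn⟩
    · exact ⟨0, fun h' => absurd h' h⟩
  choose a ha using hnA
  choose b hb using hnB
  have hpars : ip (ind N (fun n : N => m n)) (ind K (fun k : K => m' k))
      = ((∑ χ ∈ (irr_finite G).toFinset, a χ * b χ : ℕ) : ℂ) := by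
    rw [cf_parseval hM hM']
    push_cast
    refine Finset.sum_congr rfl (fun χ hχ => ?_)
    rw [Set.Finite.mem_toFinset] at hχ
    rw [hA χ hχ, hB χ hχ, ha χ hχ, hb χ hχ, Complex.conj_natCast]
  have hleft : (∃ χ ∈ Irr G, mult N m χ ≠ 0 ∧ mult K m' χ ≠ 0) ↔
      ip (ind N (fun n : N => m n)) (ind K (fun k : K => m' k)) ≠ 0 := by
    rw [hpars]
    constructor
    · rintro ⟨χ, hχ, h1, h2⟩
      rw [ha χ hχ] at h1
      rw [hb χ hχ] at h2
      have h1' : a χ ≠ 0 := by exact_mod_cast h1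
      have h2' : b χ ≠ 0 := by exact_mod_cast h2
      have h3 : 0 < ∑ χ ∈ (irr_finite G).toFinset, a χ * b χ := by
        refine Finset.sum_pos' (fun _ _ => Nat.zero_le _) ⟨χ, ?_, ?_⟩
        · exact (Set.Finite.mem_toFinset _).2 hχ
        · exact Nat.mul_pos (Nat.pos_of_ne_zero h1') (Nat.pos_of_ne_zero h2')
      exact_mod_cast h3.ne'
    · intro h
      have h' : (∑ χ ∈ (irr_finite G).toFinset, a χ * b χ) ≠ 0 := by exact_mod_cast h
      obtain ⟨χ, hχ, hne⟩ := Finset.exists_ne_zero_of_sum_ne_zero h'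
      rw [Set.Finite.mem_toFinset] at hχ
      refine ⟨χ, hχ, ?_, ?_⟩
      · rw [ha χ hχ]
        exact_mod_cast left_ne_zero_of_mul hne
      · rw [hb χ hχ]
        exact_mod_cast right_ne_zero_of_mul hne
  rw [hleft, ip_ind_lin N K m m' hm']
  have hNc : (Nat.card N : ℂ)⁻¹ ≠ 0 := by
    apply inv_ne_zero
    exact_mod_cast Nat.card_pos.ne'
  have hKc : (Nat.card K : ℂ)⁻¹ ≠ 0 := by
    apply inv_ne_zero
    exact_mod_cast Nat.card_pos.ne'
  rw [mul_ne_zero_iff, mul_ne_zero_iff]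
  have hsum : (∑ t : G, ∑ y : G, if y ∈ N ∧ t⁻¹ * y * t ∈ K then
      m y * conj (m' (t⁻¹ * y * t)) else 0)
      = ((∑ t : G, if (∀ y ∈ N, t⁻¹ * y * t ∈ K → m y = m' (t⁻¹ * y * t)) then
          (Finset.univ.filter fun y : G => y ∈ N ∧ t⁻¹ * y * t ∈ K).card else 0 : ℕ) : ℂ) := by
    push_cast
    refine Finset.sum_congr rfl (fun t _ => ?_)
    rw [inner_sum N K m m' hm hm' t]
  rw [hsum]
  constructor
  · rintro ⟨-, -, h⟩
    have h' : (∑ t : G, if (∀ y ∈ N, t⁻¹ * y * t ∈ K → m y = m' (t⁻¹ * y * t)) then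
          (Finset.univ.filter fun y : G => y ∈ N ∧ t⁻¹ * y * t ∈ K).card else 0) ≠ 0 := by
      exact_mod_cast h
    obtain ⟨t, _, hne⟩ := Finset.exists_ne_zero_of_sum_ne_zero h'
    refine ⟨t, ?_⟩
    by_contra hc
    rw [if_neg hc] at hne
    exact hne rfl
  · rintro ⟨t, ht⟩
    refine ⟨hNc, hKc, ?_⟩
    have h3 : 0 < (∑ t : G, if (∀ y ∈ N, t⁻¹ * y * t ∈ K → m y = m' (t⁻¹ * y * t)) then
          (Finset.univ.filter fun y : G => y ∈ N ∧ t⁻¹ * y * t ∈ K).card else 0) := by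
      refine Finset.sum_pos' (fun _ _ => Nat.zero_le _) ⟨t, Finset.mem_univ _, ?_⟩
      rw [if_pos ht]
      refine Finset.card_pos.2 ⟨1, ?_⟩
      rw [Finset.mem_filter]
      refine ⟨Finset.mem_univ _, N.one_mem, ?_⟩
      simp
    exact_mod_cast h3.ne'

end Pool.Agent.Lib.MP_fa0f6c_al.Cx
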