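import Pool.Agent.Lib.MP_fa0f6c_al.Cx.TDefs

set_option autoImplicit false

namespace Pool.Agent.Lib.MP_fa0f6c_al.Cx

variable {o : Type} [CommRing o] {π : o}

/-- HINT: `X0 * f * g - f * g * X0'' = (X0 f - f X0') g + f (X0' g - g X0'')`. -/
theorem E0_mul {m n p : ℕ} {q q' q'' : Bool} {f : Matrix (Fin m) (Fin n) o}
    {g : Matrix (Fin n) (Fin p) o} (hf : f ∈ E0 π m q n q') (hg : g ∈ E0 π n q' p q'') :
    f * g ∈ E0 π m q p q'' := by
  obtain ⟨a, ha⟩ := hf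
  obtain ⟨c, hc⟩ := hg
  refine ⟨a * g + f * c, ?_⟩
  rw [smul_add, ← Matrix.smul_mul, ← Matrix.mul_smul, ← ha, ← hc, Matrix.sub_mul, Matrix.mul_sub]
  simp only [Matrix.mul_assoc]
  abel

theorem E0_one (m : ℕ) (q : Bool) : (1 : Matrix (Fin m) (Fin m) o) ∈ E0 π m q m q :=
  ⟨0, by simp⟩

/-- HINT: take `X0 g - g X0'`. -/
theorem E0_pow8 {m n : ℕ} {q q' : Bool} (g : Matrix (Fin m) (Fin n) o) :
    π ^ 8 • g ∈ E0 π m q n q' := by
  refine ⟨X0 m (xv π q) * g - g * X0 n (xv π q'), ?_⟩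
  rw [Matrix.mul_smul, Matrix.smul_mul, smul_sub]

private theorem T02_iff {m n : ℕ} {q q' : Bool} {f : Matrix (Fin m) (Fin n) o} :
    f ∈ E0 π m q n q' ↔
      ∀ a c, π ^ 8 ∣ (X0 m (xv π q) * f) a c - (f * X0 n (xv π q')) a c := by
  constructor
  · rintro ⟨g, hg⟩ a c
    refine ⟨g a c, ?_⟩
    have := congrFun (congrFun hg a) c
    simpa using this
  · intro h
    choose g hg using h
    refine ⟨Matrix.of g, ?_⟩
    ext a c
    simpa using hg a c

private theorem T02_sub (h2 : (2 : o) = 0) (x y : o) : x - y = x + y := by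
  linear_combination (-y) * h2

private theorem T02_xx (h2 : (2 : o) = 0) (q q' : Bool) :
    π ^ 8 ∣ (xv π q + xv π q') * (xv π q + xv π q') := by
  cases q <;> cases q' <;> simp only [xv, cond_true, cond_false]
  · simp
  · exact ⟨π ^ 4, by ring⟩
  · exact ⟨π ^ 4, by ring⟩
  · exact ⟨0, by linear_combination (2 * π ^ 12) * h2⟩

/-- HINT for the four lemmas: unfold `E0`, `X0`; the condition says that every entry of
`X0 f - f X0'` is divisible by `π ^ 8`; entries by `Fin.sum_univ_two`, `Matrix.mul_apply`, `simp`;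
`xv π q` is `0` or `π ^ 6` (`cases q <;> cases q'`), `π ^ 12` is divisible by `π ^ 8`; signs disappear since `2 = 0`
(useful: `x - y = x + y` from `h2`). -/
theorem mem_E0_11 (h2 : (2 : o) = 0) {q q' : Bool} {f : Matrix (Fin 1) (Fin 1) o} :
    f ∈ E0 π 1 q 1 q' ↔ π ^ 8 ∣ (xv π q + xv π q') * f 0 0 := by
  rw [T02_iff]
  have e : ∀ a c : Fin 1, (X0 1 (xv π q) * f) a c - (f * X0 1 (xv π q')) a c =
      (xv π q + xv π q') * f 0 0 := by
    intro a c
    rw [Subsingleton.elim a 0, Subsingleton.elim c 0]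
    simp only [Matrix.mul_apply, X0, Finset.univ_unique, Fin.default_eq_zero, Finset.sum_singleton,
      if_true]
    rw [T02_sub h2]
    ring
  constructor
  · intro h
    rw [← e 0 0]; exact h 0 0
  · intro h a c
    rw [e]; exact h

theorem mem_E0_12 (h2 : (2 : o) = 0) {q q' : Bool} {f : Matrix (Fin 1) (Fin 2) o} :
    f ∈ E0 π 1 q 2 q' ↔ π ^ 8 ∣ f 0 0 + (xv π q + xv π q') * f 0 1 := by
  rw [T02_iff]
  obtain ⟨k, hk⟩ := T02_xx (π := π) h2 q q'
  have e0 : (X0 1 (xv π q) * f) 0 0 - (f * X0 2 (xv π q')) 0 0 =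
      (xv π q + xv π q') * f 0 0 := by
    simp [Matrix.mul_apply, X0, Fin.sum_univ_two]
    rw [T02_sub h2]
    ring
  have e1 : (X0 1 (xv π q) * f) 0 1 - (f * X0 2 (xv π q')) 0 1 =
      f 0 0 + (xv π q + xv π q') * f 0 1 := by
    simp [Matrix.mul_apply, X0, Fin.sum_univ_two]
    rw [T02_sub h2]
    ring
  constructor
  · intro h
    rw [← e1]; exact h 0 1
  · intro h a c
    rw [Subsingleton.elim a 0]
    fin_cases c
    · change π ^ 8 ∣ (X0 1 (xv π q) * f) 0 0 - (f * X0 2 (xv π q')) 0 0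
      rw [e0]
      obtain ⟨l, hl⟩ := h
      refine ⟨(xv π q + xv π q') * l - k * f 0 1, ?_⟩
      linear_combination (xv π q + xv π q') * hl - f 0 1 * hk
    · change π ^ 8 ∣ (X0 1 (xv π q) * f) 0 1 - (f * X0 2 (xv π q')) 0 1
      rw [e1]; exact h

theorem mem_E0_21 (h2 : (2 : o) = 0) {q q' : Bool} {f : Matrix (Fin 2) (Fin 1) o} :
    f ∈ E0 π 2 q 1 q' ↔ π ^ 8 ∣ f 1 0 + (xv π q + xv π q') * f 0 0 := by
  rw [T02_iff]
  obtain ⟨k, hk⟩ := T02_xx (π := π) h2 q q'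
  have e0 : (X0 2 (xv π q) * f) 0 0 - (f * X0 1 (xv π q')) 0 0 =
      f 1 0 + (xv π q + xv π q') * f 0 0 := by
    simp [Matrix.mul_apply, X0, Fin.sum_univ_two]
    rw [T02_sub h2]
    ring
  have e1 : (X0 2 (xv π q) * f) 1 0 - (f * X0 1 (xv π q')) 1 0 =
      (xv π q + xv π q') * f 1 0 := by
    simp [Matrix.mul_apply, X0, Fin.sum_univ_two]
    rw [T02_sub h2]
    ring
  constructor
  · intro h
    rw [← e0]; exact h 0 0
  · intro h a c
    rw [Subsingleton.elim c 0]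
    fin_cases a
    · change π ^ 8 ∣ (X0 2 (xv π q) * f) 0 0 - (f * X0 1 (xv π q')) 0 0
      rw [e0]; exact h
    · change π ^ 8 ∣ (X0 2 (xv π q) * f) 1 0 - (f * X0 1 (xv π q')) 1 0
      rw [e1]
      obtain ⟨l, hl⟩ := h
      refine ⟨(xv π q + xv π q') * l - k * f 0 0, ?_⟩
      linear_combination (xv π q + xv π q') * hl - f 0 0 * hk

theorem mem_E0_22 (h2 : (2 : o) = 0) {q q' : Bool} {f : Matrix (Fin 2) (Fin 2) o} :
    f ∈ E0 π 2 q 2 q' ↔ π ^ 8 ∣ f 1 0 + (xv π q + xv π q') * f 0 0 ∧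
      π ^ 8 ∣ f 1 1 + f 0 0 + (xv π q + xv π q') * f 0 1 := by
  rw [T02_iff]
  obtain ⟨k, hk⟩ := T02_xx (π := π) h2 q q'
  have e00 : (X0 2 (xv π q) * f) 0 0 - (f * X0 2 (xv π q')) 0 0 =
      f 1 0 + (xv π q + xv π q') * f 0 0 := by
    simp [Matrix.mul_apply, X0, Fin.sum_univ_two]
    rw [T02_sub h2]
    ring
  have e01 : (X0 2 (xv π q) * f) 0 1 - (f * X0 2 (xv π q')) 0 1 =
      f 1 1 + f 0 0 + (xv π q + xv π q') * f 0 1 := by
    simp [Matrix.mul_apply, X0, Fin.sum_univ_two]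
    rw [T02_sub h2]
    ring
  have e10 : (X0 2 (xv π q) * f) 1 0 - (f * X0 2 (xv π q')) 1 0 =
      (xv π q + xv π q') * f 1 0 := by
    simp [Matrix.mul_apply, X0, Fin.sum_univ_two]
    rw [T02_sub h2]
    ring
  have e11 : (X0 2 (xv π q) * f) 1 1 - (f * X0 2 (xv π q')) 1 1 =
      f 1 0 + (xv π q + xv π q') * f 1 1 := by
    simp [Matrix.mul_apply, X0, Fin.sum_univ_two]
    rw [T02_sub h2]
    ring
  constructor
  · intro h
    rw [← e00, ← e01]; exact ⟨h 0 0, h 0 1⟩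
  · rintro ⟨⟨l, hl⟩, ⟨l', hl'⟩⟩ a c
    fin_cases a <;> fin_cases c
    · change π ^ 8 ∣ (X0 2 (xv π q) * f) 0 0 - (f * X0 2 (xv π q')) 0 0
      rw [e00]; exact ⟨l, hl⟩
    · change π ^ 8 ∣ (X0 2 (xv π q) * f) 0 1 - (f * X0 2 (xv π q')) 0 1
      rw [e01]; exact ⟨l', hl'⟩
    · change π ^ 8 ∣ (X0 2 (xv π q) * f) 1 0 - (f * X0 2 (xv π q')) 1 0
      rw [e10]
      refine ⟨(xv π q + xv π q') * l - k * f 0 0, ?_⟩
      linear_combination (xv π q + xv π q') * hl - f 0 0 * hk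
    · change π ^ 8 ∣ (X0 2 (xv π q) * f) 1 1 - (f * X0 2 (xv π q')) 1 1
      rw [e11]
      refine ⟨l + (xv π q + xv π q') * l' - k * f 0 1, ?_⟩
      linear_combination hl + (xv π q + xv π q') * hl' - f 0 1 * hk -
        (xv π q + xv π q') * f 0 0 * h2

theorem mainE_11 (f : Matrix (Fin 1) (Fin 1) o) : mainE f = f 0 0 := by
  simp [mainE]

theorem mainE_12 (f : Matrix (Fin 1) (Fin 2) o) : mainE f = f 0 1 := by
  simp [mainE]

theorem mainE_21 (f : Matrix (Fin 2) (Fin 1) o) : mainE f = f 0 0 := by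
  simp [mainE]

theorem mainE_22 (f : Matrix (Fin 2) (Fin 2) o) : mainE f = f 0 0 := by
  simp [mainE]

end Pool.Agent.Lib.MP_fa0f6c_al.Cx
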