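import Pool.Agent.Lib.MP_fa0f6c_al.Cx.T02
import Pool.Agent.Lib.MP_fa0f6c_al.Cx.F01

set_option autoImplicit false

namespace Pool.Agent.Lib.MP_fa0f6c_al.Cx

variable {o : Type} [CommRing o] {π : o}

private theorem T03_six (π : o) (q q' : Bool) : ∃ a, xv π q + xv π q' = π ^ 6 * a := by
  cases q <;> cases q' <;> simp only [xv, cond_true, cond_false]
  · exact ⟨0, by ring⟩
  · exact ⟨1, by ring⟩
  · exact ⟨1, by ring⟩
  · exact ⟨2, by ring⟩

private theorem T03_mul {u v w : ℕ} (hw : w ≤ 6) (h : w ≤ u + v) {a b c d : o} (ha : π ^ u ∣ a)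
    (hb : π ^ v ∣ b) (hd : d = a * b + π ^ 6 * c) : π ^ w ∣ d := by
  rw [hd]
  refine dvd_add ?_ (Dvd.dvd.mul_right (pow_dvd_pow π hw) c)
  refine (pow_dvd_pow π h).trans ?_
  rw [pow_add]
  exact mul_dvd_mul ha hb

private theorem T03_mul' {w : ℕ} (hw : w ≤ 6) {c d : o} (hd : d = π ^ 6 * c) : π ^ w ∣ d := by
  rw [hd]
  exact Dvd.dvd.mul_right (pow_dvd_pow π hw) c

/-- The product lemma. PROOF (8 cases for `(m, n, p)`; write `x, y, z` for the three local eigenvalues, in `{0, π ^ 6}`,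
all congruences modulo `π ^ 8`; `f₁, f₂` entries of a row or column):
(1,1,1) `f g`; (1,1,2) `f g₂`; (2,1,1) `f₁ g`;
(1,2,1) free case: `f₁ g₁ + f₂ g₂ ≡ (x + y) f₂ g₁ + (y + z) f₂ g₁` is divisible by `π ^ 6`;
(2,1,2) free case: `f₁ g₁ ≡ f₁ (y + z) g₂` divisible by `π ^ 6`;
(1,2,2): `f₁ g₁₂ + f₂ g₂₂ ≡ f₂ (g₁₁ + ((x + y) + (y + z)) g₁₂)`: divisible by `π ^ (u + v)` or by `π ^ (u + 6)`, so by `π ^ w`
(the term `f₂ g₁₁` by `π ^ (u + v)`, the term `f₂ (..) g₁₂` by `π ^ 6`);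
(2,2,1): `f₁₁ g₁ + f₁₂ g₂ ≡ (f₁₁ + (y + z) f₁₂) g₁`;
(2,2,2): `f₁₁ g₁₁ + f₁₂ g₂₁ ≡ f₁₁ g₁₁ + (y + z) f₁₂ g₁₁`.
In all cases `w ≤ 6`, so terms divisible by `π ^ 6` or `π ^ 8` do not matter. -/
theorem MT_mul (h2 : (2 : o) = 0) {m n p : ℕ} (hm : m = 1 ∨ m = 2) (hn : n = 1 ∨ n = 2)
    (hp : p = 1 ∨ p = 2) {q q' q'' : Bool} {u v w : ℕ} (hw : w ≤ 6)
    (hc : (m = p ∧ n ≠ m) ∨ w ≤ u + v) {f : Matrix (Fin m) (Fin n) o}
    {g : Matrix (Fin n) (Fin p) o} (hf : f ∈ MT π u m q n q') (hg : g ∈ MT π v n q' p q'') :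
    f * g ∈ MT π w m q p q'' := by
  refine ⟨E0_mul hf.1 hg.1, ?_⟩
  obtain ⟨hf1, hf2⟩ := hf
  obtain ⟨hg1, hg2⟩ := hg
  obtain ⟨α, hα⟩ := T03_six π q q'
  obtain ⟨β, hβ⟩ := T03_six π q' q''
  rcases hm with rfl | rfl <;> rcases hn with rfl | rfl <;> rcases hp with rfl | rfl
  · -- (1,1,1)
    have hc' : w ≤ u + v := by rcases hc with h | h; · omega
                               · exact h
    rw [mainE_11] at hf2 hg2 ⊢
    refine T03_mul (c := 0) hw hc' hf2 hg2 ?_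
    simp [Matrix.mul_apply]
  · -- (1,1,2)
    have hc' : w ≤ u + v := by rcases hc with h | h; · omega
                               · exact h
    rw [mainE_11] at hf2
    rw [mainE_12] at hg2 ⊢
    refine T03_mul (c := 0) hw hc' hf2 hg2 ?_
    simp [Matrix.mul_apply]
  · -- (1,2,1)
    rw [mem_E0_12 h2] at hf1
    rw [mem_E0_21 h2] at hg1
    rw [mainE_11]
    obtain ⟨a, ha⟩ := hf1
    obtain ⟨c, hc⟩ := hg1
    refine T03_mul' (c := π ^ 2 * (a * g 0 0 + c * f 0 1) - (α + β) * (f 0 1 * g 0 0)) hw ?_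
    simp only [Matrix.mul_apply, Fin.sum_univ_two]
    rw [hα] at ha
    rw [hβ] at hc
    linear_combination g 0 0 * ha + f 0 1 * hc
  · -- (1,2,2)
    have hc' : w ≤ u + v := by rcases hc with h | h; · omega
                               · exact h
    rw [mem_E0_12 h2] at hf1
    rw [mem_E0_22 h2] at hg1
    rw [mainE_12] at hf2 ⊢
    rw [mainE_22] at hg2
    obtain ⟨a, ha⟩ := hf1
    obtain ⟨-, ⟨c, hc⟩⟩ := hg1
    rw [← dvd_neg] at hf2
    refine T03_mul (c := π ^ 2 * (a * g 0 1 + c * f 0 1) - (α + β) * (f 0 1 * g 0 1)) hw hc' hf2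
      hg2 ?_
    simp only [Matrix.mul_apply, Fin.sum_univ_two]
    rw [hα] at ha
    rw [hβ] at hc
    linear_combination g 0 1 * ha + f 0 1 * hc
  · -- (2,1,1)
    have hc' : w ≤ u + v := by rcases hc with h | h; · omega
                               · exact h
    rw [mainE_21] at hf2 ⊢
    rw [mainE_11] at hg2
    refine T03_mul (c := 0) hw hc' hf2 hg2 ?_
    simp [Matrix.mul_apply]
  · -- (2,1,2)
    rw [mem_E0_12 h2] at hg1
    rw [mainE_22]
    obtain ⟨c, hc⟩ := hg1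
    refine T03_mul' (c := π ^ 2 * (c * f 0 0) - β * (f 0 0 * g 0 1)) hw ?_
    have e : (f * g) 0 0 = f 0 0 * g 0 0 := by simp [Matrix.mul_apply]
    rw [e]
    rw [hβ] at hc
    linear_combination f 0 0 * hc
  · -- (2,2,1)
    have hc' : w ≤ u + v := by rcases hc with h | h; · omega
                               · exact h
    rw [mem_E0_21 h2] at hg1
    rw [mainE_21] at hg2 ⊢
    rw [mainE_22] at hf2
    obtain ⟨c, hc⟩ := hg1
    refine T03_mul (c := π ^ 2 * (c * f 0 1) - β * (f 0 1 * g 0 0)) hw hc' hf2 hg2 ?_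
    simp only [Matrix.mul_apply, Fin.sum_univ_two]
    rw [hβ] at hc
    linear_combination f 0 1 * hc
  · -- (2,2,2)
    have hc' : w ≤ u + v := by rcases hc with h | h; · omega
                               · exact h
    rw [mem_E0_22 h2] at hg1
    rw [mainE_22] at hf2 hg2 ⊢
    obtain ⟨⟨c, hc⟩, -⟩ := hg1
    refine T03_mul (c := π ^ 2 * (c * f 0 1) - β * (f 0 1 * g 0 0)) hw hc' hf2 hg2 ?_
    simp only [Matrix.mul_apply, Fin.sum_univ_two]
    rw [hβ] at hc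
    linear_combination f 0 1 * hc

theorem mainE_one {m : ℕ} (hm : m = 1 ∨ m = 2) : mainE (1 : Matrix (Fin m) (Fin m) o) = 1 := by
  rcases hm with rfl | rfl
  · rw [mainE_11]; simp
  · rw [mainE_22]; simp

private theorem T03_xx (h2 : (2 : o) = 0) (q : Bool) : xv π q + xv π q = 0 := by
  linear_combination xv π q * h2

/-- PROOF: `m = 1`: commutative. `m = 2`: `f g - g f ∈ E0`, main entry `f₁₂ g₂₁ - g₁₂ f₂₁`, and `f₂₁, g₂₁ ∈ π ^ 8 o`
(`xv + xv = 0`). -/
theorem MT_comm (h2 : (2 : o) = 0) {m : ℕ} (hm : m = 1 ∨ m = 2) {q : Bool}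
    {f g : Matrix (Fin m) (Fin m) o} (hf : f ∈ E0 π m q m q) (hg : g ∈ E0 π m q m q) :
    f * g - g * f ∈ MT π 8 m q m q := by
  refine ⟨Submodule.sub_mem _ (E0_mul hf hg) (E0_mul hg hf), ?_⟩
  rcases hm with rfl | rfl
  · rw [mainE_11]
    have : (f * g - g * f) 0 0 = 0 := by
      simp [Matrix.mul_apply]
      ring
    rw [this]
    exact dvd_zero _
  · rw [mainE_22]
    rw [mem_E0_22 h2, T03_xx h2, zero_mul, zero_mul, add_zero, add_zero] at hf hg
    obtain ⟨⟨a, ha⟩, -⟩ := hf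
    obtain ⟨⟨c, hc⟩, -⟩ := hg
    refine ⟨f 0 1 * c - g 0 1 * a, ?_⟩
    simp only [Matrix.sub_apply, Matrix.mul_apply, Fin.sum_univ_two, ha, hc]
    ring

private theorem T03_isUnit_add {x y : o} (hx : IsUnit x) (hy : IsNilpotent y) :
    IsUnit (x + y) := by
  obtain ⟨u, rfl⟩ := hx
  have h1 : IsNilpotent ((↑u⁻¹ : o) * y) := by
    obtain ⟨n, hn⟩ := hy
    exact ⟨n, by rw [mul_pow, hn, mul_zero]⟩
  have h2 : (u : o) + y = u * (1 + ↑u⁻¹ * y) := by
    rw [mul_add, mul_one, ← mul_assoc, Units.mul_inv, one_mul]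
  rw [h2]
  exact u.isUnit.mul h1.isUnit_one_add

/-- PROOF: `det f` is a unit (`m = 2`: `det f ≡ f₁₁ ^ 2` modulo `π`-multiples: `f₂₁ ∈ π ^ 8 o`, `f₂₂ ≡ f₁₁` modulo `π ^ 8`;
`π ^ 8 y` is nilpotent, a unit plus a nilpotent is a unit: `IsUnit.add_right_of_commute..` or
`IsNilpotent.isUnit_add_left_of_commute`), `g = f⁻¹`;
`X0 g - g X0 = - g (X0 f - f X0) g`. -/
theorem MT_unit (hπ : π ^ 16 = 0) (h2 : (2 : o) = 0) {m : ℕ} (hm : m = 1 ∨ m = 2) {q : Bool}
    {f : Matrix (Fin m) (Fin m) o} (hf : f ∈ E0 π m q m q) (hu : IsUnit (mainE f)) :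
    ∃ g ∈ E0 π m q m q, f * g = 1 ∧ g * f = 1 := by
  have hdet : IsUnit f.det := by
    rcases hm with rfl | rfl
    · rw [Matrix.det_fin_one]
      rwa [mainE_11] at hu
    · rw [mainE_22] at hu
      rw [mem_E0_22 h2, T03_xx h2, zero_mul, zero_mul, add_zero, add_zero] at hf
      obtain ⟨⟨a, ha⟩, ⟨c, hc⟩⟩ := hf
      rw [Matrix.det_fin_two]
      have e : f 0 0 * f 1 1 - f 0 1 * f 1 0 =
          -(f 0 0 * f 0 0) + π ^ 8 * (f 0 0 * c - f 0 1 * a) := by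
        rw [ha]
        linear_combination f 0 0 * hc
      rw [e]
      refine T03_isUnit_add ?_ ⟨2, ?_⟩
      · exact (hu.mul hu).neg
      · linear_combination (f 0 0 * c - f 0 1 * a) ^ 2 * hπ
  have h1 : f * f⁻¹ = 1 := Matrix.mul_nonsing_inv f hdet
  have h3 : f⁻¹ * f = 1 := Matrix.nonsing_inv_mul f hdet
  refine ⟨f⁻¹, ?_, h1, h3⟩
  obtain ⟨k, hk⟩ := hf
  refine ⟨-(f⁻¹ * k * f⁻¹), ?_⟩
  have e : f⁻¹ * (X0 m (xv π q) * f - f * X0 m (xv π q)) * f⁻¹ =
      f⁻¹ * X0 m (xv π q) * (f * f⁻¹) - (f⁻¹ * f) * X0 m (xv π q) * f⁻¹ := by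
    noncomm_ring
  rw [h1, h3, hk, mul_one, one_mul, Matrix.mul_smul, Matrix.smul_mul] at e
  rw [smul_neg, e]
  abel

/-- PROOF: all entries of `f ^ 2` are divisible by `π`, so all entries of `f ^ 32` by `π ^ 16`. -/
theorem MT_nil (hπ : π ^ 16 = 0) (h2 : (2 : o) = 0) {m : ℕ} (hm : m = 1 ∨ m = 2) {q : Bool}
    {f : Matrix (Fin m) (Fin m) o} (hf : f ∈ MT π 1 m q m q) : IsNilpotent f := by
  have h1 : ∃ k : Matrix (Fin m) (Fin m) o, f * f = π • k := by
    have h3 : ∀ a c, ∃ y, (f * f) a c = π * y := by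
      rcases hm with rfl | rfl
      · obtain ⟨-, hf2⟩ := hf
        rw [mainE_11, pow_one] at hf2
        obtain ⟨a, ha⟩ := hf2
        intro i j
        rw [Subsingleton.elim i 0, Subsingleton.elim j 0]
        refine ⟨a * f 0 0, ?_⟩
        simp only [Matrix.mul_apply, Finset.univ_unique, Fin.default_eq_zero,
          Finset.sum_singleton]
        rw [ha]
        ring
      · obtain ⟨hf1, hf2⟩ := hf
        rw [mem_E0_22 h2, T03_xx h2, zero_mul, zero_mul, add_zero, add_zero] at hf1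
        obtain ⟨⟨a, ha⟩, ⟨c, hc⟩⟩ := hf1
        rw [mainE_22, pow_one] at hf2
        obtain ⟨e, he⟩ := hf2
        have h11 : f 1 1 = π * (π ^ 7 * c - e) := by linear_combination hc - he
        intro i j
        fin_cases i <;> fin_cases j
        · refine ⟨e * f 0 0 + f 0 1 * π ^ 7 * a, ?_⟩
          simp only [Matrix.mul_apply, Fin.sum_univ_two]
          change f 0 0 * f 0 0 + f 0 1 * f 1 0 = _
          linear_combination f 0 0 * he + f 0 1 * ha
        · refine ⟨e * f 0 1 + f 0 1 * (π ^ 7 * c - e), ?_⟩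
          simp only [Matrix.mul_apply, Fin.sum_univ_two]
          change f 0 0 * f 0 1 + f 0 1 * f 1 1 = _
          linear_combination f 0 1 * he + f 0 1 * h11
        · refine ⟨π ^ 7 * a * f 0 0 + π ^ 7 * a * f 1 1, ?_⟩
          simp only [Matrix.mul_apply, Fin.sum_univ_two]
          change f 1 0 * f 0 0 + f 1 1 * f 1 0 = _
          linear_combination (f 0 0 + f 1 1) * ha
        · refine ⟨π ^ 7 * a * f 0 1 + (π ^ 7 * c - e) * f 1 1, ?_⟩
          simp only [Matrix.mul_apply, Fin.sum_univ_two]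
          change f 1 0 * f 0 1 + f 1 1 * f 1 1 = _
          linear_combination f 0 1 * ha + f 1 1 * h11
    choose k hk using h3
    refine ⟨Matrix.of k, ?_⟩
    ext a c
    simpa using hk a c
  obtain ⟨k, hk⟩ := h1
  refine ⟨2 * 16, ?_⟩
  rw [pow_mul, pow_two, hk, smul_pow, hπ, zero_smul]

end Pool.Agent.Lib.MP_fa0f6c_al.Cx
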