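import Pool.Agent.Lib.MP_fa0f6c_al.Cx.T02

set_option autoImplicit false

namespace Pool.Agent.Lib.MP_fa0f6c_al.Cx

variable {o : Type} [CommRing o] {π : o}

private theorem T06_unit (hπ : π ^ 16 = 0) {z : o} (hz : π ∣ z) : IsUnit (1 + z) := by
  obtain ⟨a, rfl⟩ := hz
  apply IsNilpotent.isUnit_one_add
  exact ⟨16, by rw [mul_pow, hπ, zero_mul]⟩

private theorem T06_unit8 (hπ : π ^ 16 = 0) {z : o} (hz : π ∣ z) (w : o) :
    IsUnit (1 + (z + π ^ 8 * w)) := by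
  apply T06_unit hπ
  exact dvd_add hz (Dvd.dvd.mul_right (dvd_pow_self π (by norm_num)) w)

private theorem T06_key (hπ : π ^ 16 = 0) {z : o} (hz : π ∣ z) (w n : o) :
    π ^ 8 * n * Ring.inverse (1 + (z + π ^ 8 * w)) = π ^ 8 * n * Ring.inverse (1 + z) := by
  have h1 := Ring.inverse_mul_cancel _ (T06_unit hπ hz)
  have h2 := Ring.inverse_mul_cancel _ (T06_unit8 hπ hz w)
  set i := Ring.inverse (1 + z)
  set j := Ring.inverse (1 + (z + π ^ 8 * w))
  linear_combination π ^ 8 * n * i * h2 - π ^ 8 * n * j * h1 - n * i * j * w * hπ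

private theorem T06_ent1 {x : Matrix (Fin 1) (Fin 1) o} : ent x 1 0 = 0 := by
  simp [ent]

private theorem T06_ent10 {x : Matrix (Fin 2) (Fin 2) o} : ent x 1 0 = x 1 0 := by
  simp [ent]

private theorem T06_ent00 {x : Matrix (Fin 2) (Fin 2) o} : ent x 0 0 = x 0 0 := by
  simp [ent]

private theorem T06_xx (h2 : (2 : o) = 0) (q : Bool) : xv π q + xv π q = 0 := by
  rw [← two_mul, h2, zero_mul]

theorem muL_zero {ψ : AddChar o ℂ} {ξ η : o → ℂ} (hch : IsChars π ψ ξ η) {m : ℕ}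
    {p q : Bool} : muL ψ ξ η p q (0 : Matrix (Fin m) (Fin m) o) = 1 := by
  have h1 : ent (0 : Matrix (Fin m) (Fin m) o) 1 0 = 0 := by
    unfold ent
    split_ifs <;> rfl
  rw [muL, h1, zero_mul, AddChar.map_zero_eq_one, add_zero, Matrix.det_one, sub_self,
    hch.xi_zero, hch.eta_zero]
  cases p <;> cases q <;> simp

/-- PROOF. The determinant factors: `det (1 + (x + y + x y)) = det (1 + x) det (1 + y)` and `det (1 + x) - 1 ∈ π o`
for `x ∈ MT π 1`, so `xi_hom`, `eta_hom` apply. The factor with `ψ`: for `m = 1` it is `1` (`ent x 1 0 = 0`); for `m = 2` put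
`g = 1 + x`, `h = 1 + y`: `g₂₁, h₂₁ ∈ π ^ 8 o`, `g₂₂ ≡ g₁₁` modulo `π ^ 8`, `g₁₁`, `h₁₁` units, `π ^ 16 = 0`:
`(g h)₂₁ / (g h)₁₁ = (g₂₁ h₁₁ + g₂₂ h₂₁) / (g₁₁ h₁₁ + g₁₂ h₂₁) = (g₂₁ h₁₁ + g₁₁ h₂₁) / (g₁₁ h₁₁) = g₂₁ / g₁₁ + h₂₁ / h₁₁`. -/
theorem muL_hom (hπ : π ^ 16 = 0) (h2 : (2 : o) = 0) {ψ : AddChar o ℂ} {ξ η : o → ℂ}
    (hch : IsChars π ψ ξ η) {m : ℕ} (hm : m = 1 ∨ m = 2) {p q : Bool}
    {x y : Matrix (Fin m) (Fin m) o} (hx : x ∈ MT π 1 m q m q) (hy : y ∈ MT π 1 m q m q) :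
    muL ψ ξ η p q (x + y + x * y) = muL ψ ξ η p q x * muL ψ ξ η p q y := by
  -- the determinants
  have hdet : (1 + (x + y + x * y)).det - 1 = ((1 + x).det - 1) + ((1 + y).det - 1) +
      ((1 + x).det - 1) * ((1 + y).det - 1) := by
    have : 1 + (x + y + x * y) = (1 + x) * (1 + y) := by noncomm_ring
    rw [this, Matrix.det_mul]
    ring
  have hdvd : ∀ z : Matrix (Fin m) (Fin m) o, z ∈ MT π 1 m q m q → π ∣ (1 + z).det - 1 := by
    intro z hz
    rcases hm with rfl | rfl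
    · have := hz.2
      rw [pow_one, mainE_11] at this
      simpa using this
    · obtain ⟨hz1, hz2⟩ := hz
      rw [pow_one, mainE_22] at hz2
      rw [mem_E0_22 h2, T06_xx h2, zero_mul, zero_mul, add_zero, add_zero] at hz1
      obtain ⟨⟨a, ha⟩, ⟨b, hb⟩⟩ := hz1
      obtain ⟨c, hc⟩ := hz2
      rw [Matrix.det_fin_two]
      simp only [Matrix.add_apply, Matrix.one_apply_eq, ne_eq, one_ne_zero, not_false_eq_true,
        Matrix.one_apply_ne, zero_ne_one, zero_add]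
      refine ⟨π ^ 7 * b * (1 + z 0 0) - c * z 0 0 - z 0 1 * π ^ 7 * a, ?_⟩
      linear_combination (1 + z 0 0) * hb - z 0 1 * ha - z 0 0 * hc
  -- the factor with psi
  have hpsi : ent (x + y + x * y) 1 0 * Ring.inverse (1 + ent (x + y + x * y) 0 0) =
      ent x 1 0 * Ring.inverse (1 + ent x 0 0) + ent y 1 0 * Ring.inverse (1 + ent y 0 0) := by
    rcases hm with rfl | rfl
    · rw [T06_ent1, T06_ent1, T06_ent1]
      ring
    · obtain ⟨hx1, hx2⟩ := hx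
      obtain ⟨hy1, hy2⟩ := hy
      rw [pow_one, mainE_22] at hx2 hy2
      rw [mem_E0_22 h2, T06_xx h2, zero_mul, zero_mul, add_zero, add_zero] at hx1 hy1
      obtain ⟨⟨a, ha⟩, ⟨c, hc⟩⟩ := hx1
      obtain ⟨⟨b, hb⟩, -⟩ := hy1
      rw [T06_ent10, T06_ent10, T06_ent10, T06_ent00, T06_ent00, T06_ent00]
      simp only [Matrix.add_apply, Matrix.mul_apply, Fin.sum_univ_two]
      have hz : π ∣ x 0 0 + y 0 0 + x 0 0 * y 0 0 :=
        dvd_add (dvd_add hx2 hy2) (Dvd.dvd.mul_right hx2 _)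
      have h3 := T06_key hπ hz (x 0 1 * b) (a + b + (a * y 0 0 + x 0 0 * b))
      have h4 : x 1 0 + y 1 0 + (x 1 0 * y 0 0 + x 1 1 * y 1 0) =
          π ^ 8 * (a + b + (a * y 0 0 + x 0 0 * b)) := by
        linear_combination (1 + y 0 0) * ha + (1 + x 0 0) * hb + y 1 0 * hc +
          π ^ 8 * c * hb - x 0 0 * y 1 0 * h2 + c * b * hπ
      have h5 : 1 + (x 0 0 + y 0 0 + (x 0 0 * y 0 0 + x 0 1 * y 1 0)) =
          1 + ((x 0 0 + y 0 0 + x 0 0 * y 0 0) + π ^ 8 * (x 0 1 * b)) := by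
        rw [hb]
        ring
      rw [h4, h5, h3, ha, hb]
      have h6 := Ring.inverse_mul_cancel _ (T06_unit hπ hx2)
      have h7 := Ring.inverse_mul_cancel _ (T06_unit hπ hy2)
      have h8 : Ring.inverse (1 + (x 0 0 + y 0 0 + x 0 0 * y 0 0)) =
          Ring.inverse (1 + x 0 0) * Ring.inverse (1 + y 0 0) := by
        have h9 := Ring.inverse_mul_cancel _ (T06_unit hπ hz)
        set i := Ring.inverse (1 + x 0 0)
        set j := Ring.inverse (1 + y 0 0)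
        set k := Ring.inverse (1 + (x 0 0 + y 0 0 + x 0 0 * y 0 0))
        linear_combination i * j * h9 - k * j * (1 + y 0 0) * h6 - k * h7
      rw [h8]
      set i := Ring.inverse (1 + x 0 0)
      set j := Ring.inverse (1 + y 0 0)
      linear_combination π ^ 8 * a * i * h7 + π ^ 8 * b * j * h6
  rw [muL, muL, muL, hdet, hpsi, AddChar.map_add_eq_mul]
  have h3 : (bif p then ξ ((1 + x).det - 1 + ((1 + y).det - 1) +
      ((1 + x).det - 1) * ((1 + y).det - 1)) else 1) =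
      (bif p then ξ ((1 + x).det - 1) else 1) * (bif p then ξ ((1 + y).det - 1) else 1) := by
    cases p
    · simp
    · exact hch.xi_hom _ _ (hdvd x hx) (hdvd y hy)
  have h4 : (bif q then η ((1 + x).det - 1 + ((1 + y).det - 1) +
      ((1 + x).det - 1) * ((1 + y).det - 1)) else 1) =
      (bif q then η ((1 + x).det - 1) else 1) * (bif q then η ((1 + y).det - 1) else 1) := by
    cases q
    · simp
    · exact hch.eta_hom _ _ (hdvd x hx) (hdvd y hy)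
  rw [h3, h4]
  ring

/-- PROOF. `det (1 + f x) = det (1 + x f)` (`Matrix.det_one_add_mul_comm`). Factor with `ψ`, `m = 2`: modulo `π ^ 16 = 0`
`(f x)₂₁ = f₂₁ x₁₁ + f₂₂ x₂₁ = f₂₁ x₁₁ + f₁₁ x₂₁` (as `x₂₁ ∈ π ^ 8 o`, `f₂₂ ≡ f₁₁` modulo `π ^ 8`), the same for `(x f)₂₁`,
this is in `π ^ 8 o`, and `(f x)₁₁ ≡ f₁₁ x₁₁ ≡ (x f)₁₁` modulo `π ^ 8`. -/
theorem muL_sym (hπ : π ^ 16 = 0) (h2 : (2 : o) = 0) {ψ : AddChar o ℂ} {ξ η : o → ℂ}
    (hch : IsChars π ψ ξ η) {m : ℕ} (hm : m = 1 ∨ m = 2) {p q : Bool}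
    {f x : Matrix (Fin m) (Fin m) o} (hf : f ∈ E0 π m q m q) (hx : x ∈ MT π 1 m q m q) :
    muL ψ ξ η p q (f * x) = muL ψ ξ η p q (x * f) := by
  have hpsi : ent (f * x) 1 0 * Ring.inverse (1 + ent (f * x) 0 0) =
      ent (x * f) 1 0 * Ring.inverse (1 + ent (x * f) 0 0) := by
    rcases hm with rfl | rfl
    · rw [T06_ent1, T06_ent1]
      ring
    · obtain ⟨hx1, hx2⟩ := hx
      rw [pow_one, mainE_22] at hx2
      rw [mem_E0_22 h2, T06_xx h2, zero_mul, zero_mul, add_zero, add_zero] at hx1 hf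
      obtain ⟨⟨a, ha⟩, ⟨c, hc⟩⟩ := hx1
      obtain ⟨⟨b, hb⟩, ⟨e, he⟩⟩ := hf
      rw [T06_ent10, T06_ent10, T06_ent00, T06_ent00]
      simp only [Matrix.mul_apply, Fin.sum_univ_two]
      have hz : π ∣ f 0 0 * x 0 0 := Dvd.dvd.mul_left hx2 _
      have h3 := T06_key hπ hz (f 0 1 * a) (b * x 0 0 + f 0 0 * a)
      have h4 := T06_key hπ hz (x 0 1 * b) (b * x 0 0 + f 0 0 * a)
      have h5 : f 1 0 * x 0 0 + f 1 1 * x 1 0 = π ^ 8 * (b * x 0 0 + f 0 0 * a) := by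
        linear_combination x 0 0 * hb + f 1 1 * ha + π ^ 8 * a * he + e * a * hπ -
          f 0 0 * π ^ 8 * a * h2
      have h6 : x 1 0 * f 0 0 + x 1 1 * f 1 0 = π ^ 8 * (b * x 0 0 + f 0 0 * a) := by
        linear_combination f 0 0 * ha + x 1 1 * hb + π ^ 8 * b * hc + c * b * hπ -
          x 0 0 * π ^ 8 * b * h2
      have h7 : 1 + (f 0 0 * x 0 0 + f 0 1 * x 1 0) =
          1 + (f 0 0 * x 0 0 + π ^ 8 * (f 0 1 * a)) := by
        rw [ha]
        ring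
      have h8 : 1 + (x 0 0 * f 0 0 + x 0 1 * f 1 0) =
          1 + (f 0 0 * x 0 0 + π ^ 8 * (x 0 1 * b)) := by
        rw [hb]
        ring
      rw [h5, h6, h7, h8, h3, h4]
  rw [muL, muL, hpsi, Matrix.det_one_add_mul_comm]

/-- PROOF: rank 1: `ψ`-factor trivial, `ξ (π ^ 8 z) = 1`, `η (π ^ 8 z) = ψ (π ^ 14 z)`. Rank 2: `det (1 + π ^ 8 z) - 1 = π ^ 8 tr z`
(`π ^ 16 = 0`), `π ^ 8 z₂₁ / (1 + π ^ 8 z₁₁) = π ^ 8 z₂₁`, and `tr (X0 z) = x tr z + z₂₁`. -/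
theorem muL_pow8 (hπ : π ^ 16 = 0) {ψ : AddChar o ℂ} {ξ η : o → ℂ}
    (hch : IsChars π ψ ξ η) {m : ℕ} (hm : m = 1 ∨ m = 2) {p q : Bool}
    (z : Matrix (Fin m) (Fin m) o) :
    muL ψ ξ η p q (π ^ 8 • z) = ψ (π ^ 8 * (X0 m (xv π q) * z).trace) := by
  have hdet : (1 + π ^ 8 • z).det - 1 = π ^ 8 * z.trace := by
    rcases hm with rfl | rfl
    · simp [Matrix.trace]
    · rw [Matrix.det_fin_two, Matrix.trace_fin_two]
      simp only [Matrix.add_apply, Matrix.one_apply_eq, ne_eq, one_ne_zero, not_false_eq_true,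
        Matrix.one_apply_ne, zero_ne_one, zero_add, Matrix.smul_apply, smul_eq_mul]
      linear_combination (z 0 0 * z 1 1 - z 0 1 * z 1 0) * hπ
  have hpsi : ent (π ^ 8 • z) 1 0 * Ring.inverse (1 + ent (π ^ 8 • z) 0 0) +
      π ^ 8 * (xv π q * z.trace) = π ^ 8 * (X0 m (xv π q) * z).trace := by
    rcases hm with rfl | rfl
    · rw [T06_ent1]
      simp [Matrix.trace, X0, Matrix.mul_apply]
    · rw [T06_ent10, T06_ent00]
      have h3 := T06_key hπ (dvd_zero π) (z 0 0) (z 1 0)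
      rw [zero_add, add_zero, Ring.inverse_one, mul_one] at h3
      rw [Matrix.smul_apply, Matrix.smul_apply, smul_eq_mul, smul_eq_mul, h3,
        Matrix.trace_fin_two, Matrix.trace_fin_two]
      simp [X0, Matrix.mul_apply, Fin.sum_univ_two]
      ring
  rw [muL, hdet, ← hpsi, AddChar.map_add_eq_mul, hch.xi_eight, hch.eta_eight]
  have h3 : ∀ b : Bool, (bif b then (1 : ℂ) else 1) = 1 := by
    intro b
    cases b <;> rfl
  rw [h3, mul_one]
  congr 1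
  cases q
  · simp [xv]
  · simp only [xv, cond_true]
    congr 1
    ring

end Pool.Agent.Lib.MP_fa0f6c_al.Cx
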