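import Pool.Agent.Lib.MP_fa0f6c_al.Cx.T03
import Pool.Agent.Lib.MP_fa0f6c_al.Cx.T08
import Pool.Agent.Lib.MP_fa0f6c_al.Cx.F08

set_option autoImplicit false

namespace Pool.Agent.Lib.MP_fa0f6c_al.Cx

variable {o : Type} [CommRing o] [IsLocalRing o] [Finite o] {π : o} {d : Fin 6 → ℕ}

private theorem T09_aux (h : IsChain o π 16) (h2 : (2 : o) = 0) {m n : ℕ} (hm : m = 1) (hn : n = 1)
    {q q' : Bool} (hq : q ≠ q') {f : Matrix (Fin m) (Fin n) o} (hf : f ∈ E0 π m q n q') :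
    π ^ 2 ∣ mainE f := by
  subst hm hn
  rw [mem_E0_11 h2] at hf
  have h1 : xv π q + xv π q' = π ^ 6 := by
    cases q <;> cases q' <;> simp [xv] at hq ⊢
  rw [h1] at hf
  obtain ⟨c, hc⟩ := hf
  have h3 : π ^ 14 * f 0 0 = 0 := by
    linear_combination π ^ 8 * hc + c * h.pow
  obtain ⟨y, hy⟩ := (chain_ann h 14 (by norm_num) (f 0 0)).1 h3
  rw [mainE_11, hy]
  exact ⟨y, rfl⟩

private theorem T09_w0 (i j : Fin 6) :
    w0 i j = 0 ∨ (w0 i j = 2 ∧ rhoT i = 1 ∧ rhoT j = 1 ∧ clT i ≠ clT j) := by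
  revert i j; decide

/-- `E0` for different clusters and ranks one: automatically weight 2. HINT: `chain_ann` (F01): `π ^ 8 ∣ π ^ 6 x` implies
`π ^ 14 x = 0`, so `π ^ 2 ∣ x`. -/
theorem E0_eq_w0 (h : IsChain o π 16) (h2 : (2 : o) = 0) (i j : Fin 6)
    {f : Matrix (Fin (rhoT i)) (Fin (rhoT j)) o} (hf : f ∈ E0 π (rhoT i) (clT i) (rhoT j) (clT j)) :
    f ∈ MB π w0 i j := by
  refine ⟨hf, ?_⟩
  rcases T09_w0 i j with h0 | ⟨h0, hi, hj, hc⟩
  · rw [h0, pow_zero]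
    exact one_dvd _
  · rw [h0]
    exact T09_aux h h2 hi hj hc hf

/-- `I_1 ≤ rad`: `MT_mono` and the tables. -/
theorem I1_le_rad (S : Corners o rhoT) (hC : ∀ i j, S.C i j = MB π wE i j)
    (hJ : ∀ i, S.J i = JB π i) : blkSub (MB π wI) d ≤ S.rad d := by
  intro x hx
  refine ⟨fun i s j t => ?_, fun i s t => ?_⟩
  · rw [hC]
    exact MT_mono (wE_le_wI i j) (hx i s j t)
  · rw [hJ]
    refine MT_mono ?_ (hx i s i t)
    rw [wI_diag]
    norm_num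

/-- PROOF: `mulL`, `mulR`: `blk_mul`, `Submodule.sum_mem`, `MT_mul` with `w0I_mul`, `wI0_mul`, `E0_eq_w0`, `mem_first`.
`nil`: `(blkSub ..) ^ k ≤ (S.rad d) ^ k = 0` by `I1_le_rad`, `corners_nilIdeal`, `Submodule.pow_le_pow_left` (monotonicity of powers).
`le`: `mem_first`. -/
theorem I1_ideal (h : IsChain o π 16) (h2 : (2 : o) = 0) (S : Corners o rhoT)
    (hC : ∀ i j, S.C i j = MB π wE i j) (hJ : ∀ i, S.J i = JB π i) {ψ : AddChar o ℂ}
    {s : Stage (Matrix (Idx d rhoT) (Idx d rhoT) o)} (hs : IsFirst π 8 ψ (XT π d) s) :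
    IsNilIdeal s.E (blkSub (MB π wI) d) := by
  refine ⟨fun x hx => ?_, fun f hf x hx => ?_, fun f hf x hx => ?_, ?_⟩
  · rw [mem_first hs]
    exact fun i u j t => (hx i u j t).1
  · rw [mem_first hs] at hf
    intro i u l t
    rw [blk_mul]
    refine Submodule.sum_mem _ fun j _ => Submodule.sum_mem _ fun v _ => ?_
    exact MT_mul h2 (rhoT_cases i) (rhoT_cases j) (rhoT_cases l) (wI_le i l) (w0I_mul i j l)
      (E0_eq_w0 h h2 i j (hf i u j v)) (hx j v l t)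
  · rw [mem_first hs] at hf
    intro i u l t
    rw [blk_mul]
    refine Submodule.sum_mem _ fun j _ => Submodule.sum_mem _ fun v _ => ?_
    exact MT_mul h2 (rhoT_cases i) (rhoT_cases j) (rhoT_cases l) (wI_le i l) (wI0_mul i j l)
      (hx i u j v) (E0_eq_w0 h h2 j l (hf j v l t))
  · obtain ⟨k, hk⟩ := (corners_nilIdeal S d).nil
    refine ⟨k, ?_⟩
    have h1 : (blkSub (MB π wI) d) ^ k ≤ (S.rad d) ^ k :=
      pow_le_pow_left' (I1_le_rad S hC hJ) k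
    rw [hk] at h1
    exact le_bot_iff.1 h1

/-- PROOF: `IsFirst.I`: `x = π ^ 8 • y`, blocks `π ^ 8 • blk y`, `E0_pow8`, `mainE_smul`, `wI ≤ 6 ≤ 8`. -/
theorem first_le_I1 {ψ : AddChar o ℂ} {s : Stage (Matrix (Idx d rhoT) (Idx d rhoT) o)}
    (hs : IsFirst π 8 ψ (XT π d) s) : s.I ≤ blkSub (MB π wI) d := by
  intro x hx
  obtain ⟨y, rfl⟩ := (hs.I x).1 hx
  intro i u j t
  have h1 : blk (π ^ 8 • y) i u j t = π ^ 8 • blk y i u j t := rfl
  rw [h1]
  refine ⟨E0_pow8 _, ?_⟩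
  rw [mainE_smul]
  exact Dvd.dvd.mul_right (pow_dvd_pow π ((wI_le i j).trans (by norm_num))) _

theorem ring_le_first (S : Corners o rhoT) (hC : ∀ i j, S.C i j = MB π wE i j)
    {ψ : AddChar o ℂ} {s : Stage (Matrix (Idx d rhoT) (Idx d rhoT) o)}
    (hs : IsFirst π 8 ψ (XT π d) s) : S.ring d ≤ s.E := by
  intro x hx
  rw [mem_first hs]
  intro i u j t
  have h1 := hx i u j t
  rw [hC] at h1
  exact h1.1

end Pool.Agent.Lib.MP_fa0f6c_al.Cx
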