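import Pool.Agent.Lib.MP_fa0f6c_al.Cx.FDefs2

/-!
Definitions for the node on the `t` side (characteristic two).

Local data: a block has a size `m` (`1` or `2`) and a cluster `q : Bool`; its local matrix is
`X0 m (xv π q)` where `xv π false = 0`, `xv π true = π ^ 6`.
`E0` = matrices intertwining the local matrices modulo `π ^ 8`, `mainE` = the main entry
(entry `(0, 1)` for a row of length two, entry `(0, 0)` otherwise),
`MT w` = elements of `E0` with main entry divisible by `π ^ w`.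
-/

set_option autoImplicit false

namespace Pool.Agent.Lib.MP_fa0f6c_al.Cx

section
variable {o : Type} [CommRing o]

/-- the two eigenvalues -/
def xv (π : o) (q : Bool) : o := bif q then π ^ 6 else 0

/-- `x` on the diagonal, `1` on the superdiagonal -/
def X0 (m : ℕ) (x : o) : Matrix (Fin m) (Fin m) o :=
  fun a c => if (a : ℕ) = c then x else if (a : ℕ) + 1 = c then 1 else 0

/-- matrices intertwining the local matrices modulo `π ^ 8` -/
def E0 (π : o) (m : ℕ) (q : Bool) (n : ℕ) (q' : Bool) : Submodule o (Matrix (Fin m) (Fin n) o) where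
  carrier := {f | ∃ g, X0 m (xv π q) * f - f * X0 n (xv π q') = π ^ 8 • g}
  zero_mem' := ⟨0, by simp⟩
  add_mem' := by
    rintro f f' ⟨g, hg⟩ ⟨g', hg'⟩
    refine ⟨g + g', ?_⟩
    rw [smul_add, ← hg, ← hg', Matrix.mul_add, Matrix.add_mul]
    abel
  smul_mem' := by
    rintro c f ⟨g, hg⟩
    refine ⟨c • g, ?_⟩
    rw [smul_comm, ← hg, Matrix.mul_smul, Matrix.smul_mul, smul_sub]

/-- the main entry -/
def mainE {m n : ℕ} (f : Matrix (Fin m) (Fin n) o) : o :=
  if h : 0 < m ∧ 0 < n then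
    f ⟨0, h.1⟩ ⟨if m = 1 then n - 1 else 0, by split_ifs <;> omega⟩ else 0

theorem mainE_add {m n : ℕ} (f g : Matrix (Fin m) (Fin n) o) :
    mainE (f + g) = mainE f + mainE g := by
  unfold mainE
  split_ifs <;> simp

theorem mainE_smul {m n : ℕ} (c : o) (f : Matrix (Fin m) (Fin n) o) :
    mainE (c • f) = c * mainE f := by
  unfold mainE
  split_ifs <;> simp

theorem mainE_zero {m n : ℕ} : mainE (0 : Matrix (Fin m) (Fin n) o) = 0 := by
  unfold mainE
  split_ifs <;> simp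

/-- elements of `E0` with main entry divisible by `π ^ w` -/
def MT (π : o) (w m : ℕ) (q : Bool) (n : ℕ) (q' : Bool) :
    Submodule o (Matrix (Fin m) (Fin n) o) where
  carrier := {f | f ∈ E0 π m q n q' ∧ π ^ w ∣ mainE f}
  zero_mem' := ⟨Submodule.zero_mem _, by rw [mainE_zero]; exact dvd_zero _⟩
  add_mem' := by
    rintro f f' ⟨h1, h2⟩ ⟨h1', h2'⟩
    exact ⟨Submodule.add_mem _ h1 h1', by rw [mainE_add]; exact dvd_add h2 h2'⟩
  smul_mem' := by
    rintro c f ⟨h1, h2⟩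
    exact ⟨Submodule.smul_mem _ c h1, by rw [mainE_smul]; exact Dvd.dvd.mul_left h2 c⟩

theorem mem_MT {π : o} {w m : ℕ} {q : Bool} {n : ℕ} {q' : Bool} {f : Matrix (Fin m) (Fin n) o} :
    f ∈ MT π w m q n q' ↔ f ∈ E0 π m q n q' ∧ π ^ w ∣ mainE f := Iff.rfl

theorem MT_mono {π : o} {v w m : ℕ} {q : Bool} {n : ℕ} {q' : Bool} (h : v ≤ w) :
    MT π w m q n q' ≤ MT π v m q n q' :=
  fun _ hf => ⟨hf.1, (pow_dvd_pow π h).trans hf.2⟩

/-- entries of a small matrix with default value `0` -/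
def ent {m : ℕ} (x : Matrix (Fin m) (Fin m) o) (a c : ℕ) : o :=
  if h : a < m ∧ c < m then x ⟨a, h.1⟩ ⟨c, h.2⟩ else 0

/-- The characters `ξ` and `η` (written on `π o`). -/
structure IsChars (π : o) (ψ : AddChar o ℂ) (ξ η : o → ℂ) : Prop where
  xi_zero : ξ 0 = 1
  xi_hom : ∀ x y, π ∣ x → π ∣ y → ξ (x + y + x * y) = ξ x * ξ y
  xi_eight : ∀ y, ξ (π ^ 8 * y) = 1
  xi_seven : ∃ y, ξ (π ^ 7 * y) ≠ 1
  eta_zero : η 0 = 1
  eta_hom : ∀ x y, π ∣ x → π ∣ y → η (x + y + x * y) = η x * η y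
  eta_eight : ∀ y, η (π ^ 8 * y) = ψ (π ^ 14 * y)

/-- The local character. `p`: with the factor `ξ`; `q`: with the factor `η` (second cluster). -/
noncomputable def muL (ψ : AddChar o ℂ) (ξ η : o → ℂ) (p q : Bool) {m : ℕ}
    (x : Matrix (Fin m) (Fin m) o) : ℂ :=
  ψ (ent x 1 0 * Ring.inverse (1 + ent x 0 0)) * (bif p then ξ ((1 + x).det - 1) else 1) *
    (bif q then η ((1 + x).det - 1) else 1)

/-- submodule of matrices with prescribed blocks -/
def blkSub {b : ℕ} {ρ : Fin b → ℕ} (M : ∀ i j : Fin b, Submodule o (Matrix (Fin (ρ i)) (Fin (ρ j)) o))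
    (n : Fin b → ℕ) : Submodule ℤ (Matrix (Idx n ρ) (Idx n ρ) o) where
  carrier := {x | ∀ i s j t, blk x i s j t ∈ M i j}
  zero_mem' := fun i _ j _ => (M i j).zero_mem
  add_mem' := fun {x y} hx hy i s j t => (M i j).add_mem (hx i s j t) (hy i s j t)
  smul_mem' := by
    intro c x hx i s j t
    have : blk (c • x) i s j t = c • blk x i s j t := by ext a d; simp [blk]
    rw [this]; exact zsmul_mem (hx i s j t) c

theorem mem_blkSub {b : ℕ} {ρ : Fin b → ℕ}
    {M : ∀ i j : Fin b, Submodule o (Matrix (Fin (ρ i)) (Fin (ρ j)) o)} {n : Fin b → ℕ}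
    {x : Matrix (Idx n ρ) (Idx n ρ) o} :
    x ∈ blkSub M n ↔ ∀ i s j t, blk x i s j t ∈ M i j := Iff.rfl

/-- cluster of a block -/
def clT : Fin 6 → Bool := ![false, false, false, true, true, true]

/-- blocks whose character has the factor `ξ` -/
def xiT : Fin 6 → Bool := ![false, false, true, false, true, false]

/-- weights of the final ring (off-diagonal) -/
def wE : Fin 6 → Fin 6 → ℕ :=
  ![![0, 0, 0, 2, 2, 4],
    ![0, 0, 4, 5, 5, 2],
    ![0, 4, 0, 5, 5, 2],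
    ![2, 5, 5, 0, 4, 0],
    ![2, 5, 5, 4, 0, 0],
    ![4, 2, 2, 0, 0, 0]]

/-- weights of `E_0` (which are automatic) -/
def w0 : Fin 6 → Fin 6 → ℕ :=
  ![![0, 0, 0, 0, 0, 0],
    ![0, 0, 0, 2, 2, 0],
    ![0, 0, 0, 2, 2, 0],
    ![0, 2, 2, 0, 0, 0],
    ![0, 2, 2, 0, 0, 0],
    ![0, 0, 0, 0, 0, 0]]

/-- weights of the ideal `I_1` -/
def wI : Fin 6 → Fin 6 → ℕ :=
  ![![4, 2, 2, 2, 2, 4],
    ![2, 4, 4, 5, 5, 2],
    ![2, 4, 4, 5, 5, 2],
    ![2, 5, 5, 4, 4, 2],
    ![2, 5, 5, 4, 4, 2],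
    ![4, 2, 2, 2, 2, 4]]

/-- the block modules with weights `w` -/
def MB (π : o) (w : Fin 6 → Fin 6 → ℕ) (i j : Fin 6) :
    Submodule o (Matrix (Fin (rhoT i)) (Fin (rhoT j)) o) :=
  MT π (w i j) (rhoT i) (clT i) (rhoT j) (clT j)

/-- the radical of the local corner `i` -/
def JB (π : o) (i : Fin 6) : Submodule o (Matrix (Fin (rhoT i)) (Fin (rhoT i)) o) :=
  MT π 1 (rhoT i) (clT i) (rhoT i) (clT i)

/-- the local characters -/
noncomputable def muT (ψ : AddChar o ℂ) (ξ η : o → ℂ) (i : Fin 6)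
    (x : Matrix (Fin (rhoT i)) (Fin (rhoT i)) o) : ℂ := muL ψ ξ η (xiT i) (clT i) x

/-- the matrix `X` -/
def XT (π : o) (d : Fin 6 → ℕ) : Matrix (Idx d rhoT) (Idx d rhoT) o :=
  fun u v => if u.1 = v.1 ∧ (u.2.1 : ℕ) = v.2.1 then
      (if (u.2.2 : ℕ) = v.2.2 then xv π (clT u.1) else if (u.2.2 : ℕ) + 1 = v.2.2 then 1 else 0)
    else 0

end

theorem rhoT_cases (i : Fin 6) : rhoT i = 1 ∨ rhoT i = 2 := by
  revert i; decide

/-- table facts -/
theorem wE_le (i j : Fin 6) : wE i j ≤ 6 := by revert i j; decide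

theorem wI_le (i j : Fin 6) : wI i j ≤ 6 := by revert i j; decide

theorem wE_diag (i : Fin 6) : wE i i = 0 := by revert i; decide

theorem wI_diag (i : Fin 6) : wI i i = 4 := by revert i; decide

theorem wE_le_wI (i j : Fin 6) : wE i j ≤ wI i j := by revert i j; decide

theorem wE_mul (i j l : Fin 6) :
    (rhoT i = rhoT l ∧ rhoT j ≠ rhoT i) ∨ wE i l ≤ wE i j + wE j l := by
  revert i j l; decide

theorem w0I_mul (i j l : Fin 6) :
    (rhoT i = rhoT l ∧ rhoT j ≠ rhoT i) ∨ wI i l ≤ w0 i j + wI j l := by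
  revert i j l; decide

theorem wI0_mul (i j l : Fin 6) :
    (rhoT i = rhoT l ∧ rhoT j ≠ rhoT i) ∨ wI i l ≤ wI i j + w0 j l := by
  revert i j l; decide

theorem wE_off (i j : Fin 6) (h : i ≠ j) :
    (rhoT i = rhoT i ∧ rhoT j ≠ rhoT i) ∨ 1 ≤ wE i j + wE j i := by
  revert i j; decide

theorem wE_symm (i j : Fin 6) : wE i j = wE j i := by revert i j; decide

theorem wI_symm (i j : Fin 6) : wI i j = wI j i := by revert i j; decide

end Pool.Agent.Lib.MP_fa0f6c_al.Cx
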